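import Mathlib

set_option autoImplicit false

/-!
The gauge function of the Wulff shape of a positive continuous function on the unit sphere.
-/

namespace Pool.Agent.Lib.MP_b0d2bf_gt

open MeasureTheory Metric Set Filter Topology

/-- Euclidean space -/
abbrev Eu (n : ℕ) := EuclideanSpace ℝ (Fin n)

/-- the unit sphere -/
abbrev Sph (n : ℕ) := sphere (0 : Eu n) 1

section Gauge

variable {n : ℕ}

instance instNontrivialEu [NeZero n] : Nontrivial (Eu n) := by
  have : 0 < n := NeZero.pos n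
  have : Nonempty (Fin n) := ⟨⟨0, this⟩⟩
  infer_instance

instance instNonemptySph [NeZero n] : Nonempty (Sph n) :=
  (NormedSpace.sphere_nonempty.2 zero_le_one).to_subtype

lemma norm_sph (v : Sph n) : ‖(v : Eu n)‖ = 1 := by
  have := v.2
  rwa [mem_sphere_zero_iff_norm] at this

lemma sph_ne_zero (v : Sph n) : (v : Eu n) ≠ 0 := by
  intro h
  have := norm_sph v
  rw [h, norm_zero] at this
  exact zero_ne_one this

/-- direction of a nonzero vector -/
noncomputable def dirS (x : Eu n) (hx : x ≠ 0) : Sph n :=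
  ⟨‖x‖⁻¹ • x, by
    rw [mem_sphere_zero_iff_norm, norm_smul, norm_inv, norm_norm, inv_mul_cancel₀]
    exact norm_ne_zero_iff.2 hx⟩

lemma norm_smul_dirS (x : Eu n) (hx : x ≠ 0) : ‖x‖ • (dirS x hx : Eu n) = x := by
  unfold dirS
  rw [smul_smul, mul_inv_cancel₀ (norm_ne_zero_iff.2 hx), one_smul]

lemma inner_dirS (x : Eu n) (hx : x ≠ 0) : inner ℝ x (dirS x hx : Eu n) = ‖x‖ := by
  unfold dirS
  rw [inner_smul_right, real_inner_self_eq_norm_sq]
  field_simp [norm_ne_zero_iff.2 hx]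

lemma abs_inner_le (x : Eu n) (v : Sph n) : |inner ℝ x (v : Eu n)| ≤ ‖x‖ := by
  have := abs_real_inner_le_norm x (v : Eu n)
  rwa [norm_sph, mul_one] at this

/-- gauge function of the Wulff shape of `f` -/
noncomputable def gN (f : Sph n → ℝ) (x : Eu n) : ℝ := ⨆ v : Sph n, inner ℝ x (v : Eu n) / f v

variable {f g : Sph n → ℝ}

lemma cont_quot (hc : Continuous f) (h0 : ∀ v, 0 < f v) (x : Eu n) :
    Continuous (fun v : Sph n => inner ℝ x (v : Eu n) / f v) :=
  (continuous_const.inner continuous_subtype_val).div hc fun v => (h0 v).ne'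

lemma le_gN (hc : Continuous f) (h0 : ∀ v, 0 < f v) (x : Eu n) (v : Sph n) :
    inner ℝ x (v : Eu n) / f v ≤ gN f x := by
  have hb : BddAbove (range fun v : Sph n => inner ℝ x (v : Eu n) / f v) :=
    (isCompact_range (cont_quot hc h0 x)).bddAbove
  exact le_ciSup hb v

lemma exists_gN [NeZero n] (hc : Continuous f) (h0 : ∀ v, 0 < f v) (x : Eu n) :
    ∃ v : Sph n, gN f x = inner ℝ x (v : Eu n) / f v := by
  obtain ⟨v, -, hv⟩ := isCompact_univ.exists_isMaxOn (univ_nonempty (α := Sph n))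
    (cont_quot hc h0 x).continuousOn
  refine ⟨v, le_antisymm (ciSup_le fun w => hv (mem_univ w)) (le_gN hc h0 x v)⟩

lemma gN_smul [NeZero n] (hc : Continuous f) (h0 : ∀ v, 0 < f v) {t : ℝ} (ht : 0 ≤ t) (x : Eu n) :
    gN f (t • x) = t * gN f x := by
  apply le_antisymm
  · obtain ⟨v, hv⟩ := exists_gN hc h0 (t • x)
    rw [hv, inner_smul_left, mul_div_assoc]
    exact mul_le_mul_of_nonneg_left (le_gN hc h0 x v) ht
  · obtain ⟨v, hv⟩ := exists_gN hc h0 x
    have := le_gN hc h0 (t • x) v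
    rw [inner_smul_left, mul_div_assoc, ← hv] at this
    exact this

lemma gN_zero [NeZero n] (hc : Continuous f) (h0 : ∀ v, 0 < f v) : gN f 0 = 0 := by
  obtain ⟨v, hv⟩ := exists_gN hc h0 (0 : Eu n)
  rw [hv, inner_zero_left, zero_div]

lemma gN_pos [NeZero n] (hc : Continuous f) (h0 : ∀ v, 0 < f v) {x : Eu n} (hx : x ≠ 0) :
    0 < gN f x := by
  refine lt_of_lt_of_le ?_ (le_gN hc h0 x (dirS x hx))
  rw [inner_dirS]
  exact div_pos (norm_pos_iff.2 hx) (h0 _)

lemma gN_nonneg [NeZero n] (hc : Continuous f) (h0 : ∀ v, 0 < f v) (x : Eu n) : 0 ≤ gN f x := by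
  by_cases hx : x = 0
  · rw [hx, gN_zero hc h0]
  · exact (gN_pos hc h0 hx).le

lemma gN_add_le [NeZero n] (hc : Continuous f) (h0 : ∀ v, 0 < f v) (x y : Eu n) :
    gN f (x + y) ≤ gN f x + gN f y := by
  obtain ⟨v, hv⟩ := exists_gN hc h0 (x + y)
  rw [hv, inner_add_left, add_div]
  exact add_le_add (le_gN hc h0 x v) (le_gN hc h0 y v)

lemma gN_le_norm [NeZero n] (hc : Continuous f) {c : ℝ} (hc0 : 0 < c) (hf : ∀ v, c ≤ f v)
    (x : Eu n) : gN f x ≤ ‖x‖ / c := by
  have h0 : ∀ v, 0 < f v := fun v => hc0.trans_le (hf v)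
  obtain ⟨v, hv⟩ := exists_gN hc h0 x
  rw [hv]
  calc inner ℝ x (v : Eu n) / f v ≤ ‖x‖ / f v := by
        have := (le_abs_self _).trans (abs_inner_le x v)
        have := h0 v
        gcongr
    _ ≤ ‖x‖ / c := by
        have := hf v
        gcongr

lemma norm_le_gN [NeZero n] (hc : Continuous f) (h0 : ∀ v, 0 < f v) {C : ℝ} (hf : ∀ v, f v ≤ C)
    (x : Eu n) : ‖x‖ / C ≤ gN f x := by
  by_cases hx : x = 0
  · rw [hx, gN_zero hc h0, norm_zero, zero_div]
  · refine le_trans ?_ (le_gN hc h0 x (dirS x hx))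
    rw [inner_dirS]
    have h1 := hf (dirS x hx)
    have h2 := h0 (dirS x hx)
    gcongr

/-- comparison of gauge functions -/
lemma gN_le_mul [NeZero n] (hcf : Continuous f) (h0f : ∀ v, 0 < f v) (hcg : Continuous g)
    (h0g : ∀ v, 0 < g v) {l : ℝ} (hl : 0 < l) (h : ∀ v, f v ≤ l * g v) (x : Eu n) :
    gN g x ≤ l * gN f x := by
  obtain ⟨v, hv⟩ := exists_gN hcg h0g x
  have h1 := gN_nonneg hcg h0g x
  rw [hv] at h1 ⊢
  have h2 : 0 ≤ inner ℝ x (v : Eu n) := by
    by_contra hcon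
    rw [not_le] at hcon
    have := div_neg_of_neg_of_pos hcon (h0g v)
    linarith
  have h3 := le_gN hcf h0f x v
  have h4 : inner ℝ x (v : Eu n) / g v ≤ l * (inner ℝ x (v : Eu n) / f v) := by
    rw [← mul_div_assoc, div_le_div_iff₀ (h0g v) (h0f v)]
    calc inner ℝ x (v : Eu n) * f v ≤ inner ℝ x (v : Eu n) * (l * g v) :=
          mul_le_mul_of_nonneg_left (h v) h2
      _ = l * inner ℝ x (v : Eu n) * g v := by ring
  exact h4.trans (mul_le_mul_of_nonneg_left h3 hl.le)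

lemma gN_sub_le [NeZero n] (hc : Continuous f) {c : ℝ} (hc0 : 0 < c) (hf : ∀ v, c ≤ f v)
    (x y : Eu n) : |gN f x - gN f y| ≤ ‖x - y‖ / c := by
  have h0 : ∀ v, 0 < f v := fun v => hc0.trans_le (hf v)
  have h1 := gN_add_le hc h0 (x - y) y
  have h2 := gN_add_le hc h0 (y - x) x
  rw [sub_add_cancel] at h1 h2
  have h3 := gN_le_norm hc hc0 hf (x - y)
  have h4 := gN_le_norm hc hc0 hf (y - x)
  rw [norm_sub_rev] at h4
  rw [abs_le]
  constructor <;> linarith

lemma exists_low [NeZero n] (hc : Continuous f) (h0 : ∀ v, 0 < f v) :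
    ∃ c, 0 < c ∧ ∀ v, c ≤ f v := by
  obtain ⟨v, -, hv⟩ := isCompact_univ.exists_isMinOn (univ_nonempty (α := Sph n)) hc.continuousOn
  exact ⟨f v, h0 v, fun w => hv (mem_univ w)⟩

lemma exists_upp [NeZero n] (hc : Continuous f) (h0 : ∀ v, 0 < f v) :
    ∃ C, 0 < C ∧ ∀ v, f v ≤ C := by
  obtain ⟨v, -, hv⟩ := isCompact_univ.exists_isMaxOn (univ_nonempty (α := Sph n)) hc.continuousOn
  exact ⟨f v, h0 v, fun w => hv (mem_univ w)⟩

lemma lipschitz_gN [NeZero n] (hc : Continuous f) (h0 : ∀ v, 0 < f v) :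
    ∃ C, LipschitzWith C (gN f) := by
  obtain ⟨c, hc0, hf⟩ := exists_low hc h0
  refine ⟨⟨c⁻¹, by positivity⟩, LipschitzWith.of_dist_le_mul fun x y => ?_⟩
  rw [Real.dist_eq, dist_eq_norm]
  have := gN_sub_le hc hc0 hf x y
  rw [div_eq_inv_mul] at this
  exact this

lemma continuous_gN [NeZero n] (hc : Continuous f) (h0 : ∀ v, 0 < f v) : Continuous (gN f) := by
  obtain ⟨C, hC⟩ := lipschitz_gN hc h0
  exact hC.continuous

/-- the Wulff shape -/
def wulff (f : Sph n → ℝ) : Set (Eu n) := {x | ∀ v : Sph n, inner ℝ x (v : Eu n) ≤ f v}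

lemma mem_wulff_iff [NeZero n] (hc : Continuous f) (h0 : ∀ v, 0 < f v) {x : Eu n} :
    x ∈ wulff f ↔ gN f x ≤ 1 := by
  constructor
  · intro hx
    obtain ⟨v, hv⟩ := exists_gN hc h0 x
    rw [hv, div_le_one (h0 v)]
    exact hx v
  · intro hx v
    have := (le_gN hc h0 x v).trans hx
    rwa [div_le_one (h0 v)] at this

lemma isClosed_wulff : IsClosed (wulff f) := by
  have : wulff f = ⋂ v : Sph n, {x : Eu n | inner ℝ x (v : Eu n) ≤ f v} := by
    ext x; simp [wulff]
  rw [this]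
  exact isClosed_iInter fun v => isClosed_le (continuous_id.inner continuous_const) continuous_const

lemma convex_wulff : Convex ℝ (wulff f) := by
  intro x hx y hy a b ha hb hab v
  rw [inner_add_left, inner_smul_left, inner_smul_left]
  have h1 := mul_le_mul_of_nonneg_left (hx v) ha
  have h2 := mul_le_mul_of_nonneg_left (hy v) hb
  have : f v = a * f v + b * f v := by rw [← add_mul, hab, one_mul]
  rw [this]
  exact add_le_add h1 h2

lemma wulff_subset [NeZero n] (hc : Continuous f) (h0 : ∀ v, 0 < f v) {C : ℝ} (hC : 0 < C)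
    (hf : ∀ v, f v ≤ C) : wulff f ⊆ closedBall 0 C := by
  intro x hx
  rw [mem_closedBall_zero_iff]
  have h1 := (norm_le_gN hc h0 hf x).trans ((mem_wulff_iff hc h0).1 hx)
  rwa [div_le_one hC] at h1

lemma isCompact_wulff [NeZero n] (hc : Continuous f) (h0 : ∀ v, 0 < f v) : IsCompact (wulff f) := by
  obtain ⟨C, hC, hf⟩ := exists_upp hc h0
  exact (isCompact_closedBall (0 : Eu n) C).of_isClosed_subset isClosed_wulff
    (wulff_subset hc h0 hC hf)

lemma ball_subset_wulff {c : ℝ} (hf : ∀ v, c ≤ f v) : closedBall 0 c ⊆ wulff f := by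
  intro x hx v
  rw [mem_closedBall_zero_iff] at hx
  exact ((le_abs_self _).trans (abs_inner_le x v)).trans (hx.trans (hf v))

lemma interior_wulff [NeZero n] (hc : Continuous f) (h0 : ∀ v, 0 < f v) :
    (0 : Eu n) ∈ interior (wulff f) := by
  obtain ⟨c, hc0, hf⟩ := exists_low hc h0
  rw [mem_interior]
  exact ⟨ball 0 c, ball_subset_closedBall.trans (ball_subset_wulff hf), isOpen_ball,
    mem_ball_self hc0⟩

lemma neg_mem_wulff (he : ∀ v, f (-v) = f v) {x : Eu n} (hx : x ∈ wulff f) : -x ∈ wulff f := by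
  intro v
  have := hx (-v)
  rw [he, coe_neg_sphere, inner_neg_right] at this
  rwa [inner_neg_left]

/-- boundary point in the direction `u` -/
lemma bd_mem_wulff [NeZero n] (hc : Continuous f) (h0 : ∀ v, 0 < f v) (u : Sph n) :
    (gN f u)⁻¹ • (u : Eu n) ∈ wulff f := by
  have h1 := gN_pos hc h0 (sph_ne_zero u)
  rw [mem_wulff_iff hc h0, gN_smul hc h0 (inv_nonneg.2 h1.le), inv_mul_cancel₀ h1.ne']

/-- support function of the Wulff shape -/
noncomputable def supp (f : Sph n → ℝ) (v : Sph n) : ℝ :=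
  sSup ((fun x : Eu n => inner ℝ x (v : Eu n)) '' wulff f)

lemma exists_supp [NeZero n] (hc : Continuous f) (h0 : ∀ v, 0 < f v) (v : Sph n) :
    ∃ x ∈ wulff f, supp f v = inner ℝ x (v : Eu n) ∧ ∀ y ∈ wulff f,
      inner ℝ y (v : Eu n) ≤ inner ℝ x (v : Eu n) := by
  have hne : (wulff f).Nonempty := ⟨0, interior_subset (interior_wulff hc h0)⟩
  have hcont : ContinuousOn (fun x : Eu n => inner ℝ x (v : Eu n)) (wulff f) :=
    (continuous_id.inner continuous_const).continuousOn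
  obtain ⟨x, hx, h1⟩ := (isCompact_wulff hc h0).exists_sSup_image_eq hne hcont
  refine ⟨x, hx, h1, fun y hy => ?_⟩
  have h2 : inner ℝ y (v : Eu n) ≤ supp f v :=
    le_csSup ((isCompact_wulff hc h0).bddAbove_image hcont) ⟨y, hy, rfl⟩
  unfold supp at h2
  rwa [h1] at h2

lemma supp_le [NeZero n] (hc : Continuous f) (h0 : ∀ v, 0 < f v) (v : Sph n) : supp f v ≤ f v := by
  obtain ⟨x, hx, h1, -⟩ := exists_supp hc h0 v
  rw [h1]
  exact hx v

lemma inner_le_supp [NeZero n] (hc : Continuous f) (h0 : ∀ v, 0 < f v) (v : Sph n) {y : Eu n}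
    (hy : y ∈ wulff f) : inner ℝ y (v : Eu n) ≤ supp f v := by
  obtain ⟨x, hx, h1, h2⟩ := exists_supp hc h0 v
  rw [h1]
  exact h2 y hy

lemma low_le_supp [NeZero n] (hc : Continuous f) {c : ℝ} (hc0 : 0 < c) (hf : ∀ v, c ≤ f v)
    (v : Sph n) : c ≤ supp f v := by
  have h0 : ∀ v, 0 < f v := fun v => hc0.trans_le (hf v)
  have h1 : c • (v : Eu n) ∈ wulff f := by
    apply ball_subset_wulff hf
    rw [mem_closedBall_zero_iff, norm_smul, norm_sph, mul_one, Real.norm_eq_abs, abs_of_pos hc0]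
  have h2 := inner_le_supp hc h0 v h1
  rwa [inner_smul_left, real_inner_self_eq_norm_sq, norm_sph, one_pow, mul_one] at h2

lemma supp_pos [NeZero n] (hc : Continuous f) (h0 : ∀ v, 0 < f v) (v : Sph n) : 0 < supp f v := by
  obtain ⟨c, hc0, hf⟩ := exists_low hc h0
  exact hc0.trans_le (low_le_supp hc hc0 hf v)

lemma supp_sub_le [NeZero n] (hc : Continuous f) (h0 : ∀ v, 0 < f v) {R : ℝ}
    (hR : wulff f ⊆ closedBall 0 R) (v w : Sph n) : supp f v - supp f w ≤ R * dist v w := by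
  obtain ⟨x, hx, h1, h2⟩ := exists_supp hc h0 v
  have h3 := inner_le_supp hc h0 w hx
  rw [h1]
  have h4 : inner ℝ x (v : Eu n) - inner ℝ x (w : Eu n) ≤ R * dist v w := by
    rw [← inner_sub_right]
    refine (real_inner_le_norm _ _).trans ?_
    rw [Subtype.dist_eq, dist_eq_norm]
    exact mul_le_mul_of_nonneg_right (mem_closedBall_zero_iff.1 (hR hx)) (norm_nonneg _)
  linarith

lemma abs_supp_sub_le [NeZero n] (hc : Continuous f) (h0 : ∀ v, 0 < f v) {R : ℝ}
    (hR : wulff f ⊆ closedBall 0 R) (v w : Sph n) : |supp f v - supp f w| ≤ R * dist v w := by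
  have h1 := supp_sub_le hc h0 hR v w
  have h2 := supp_sub_le hc h0 hR w v
  rw [dist_comm] at h2
  rw [abs_le]
  constructor <;> linarith

lemma continuous_supp [NeZero n] (hc : Continuous f) (h0 : ∀ v, 0 < f v) :
    Continuous (supp f) := by
  obtain ⟨C, hC, hf⟩ := exists_upp hc h0
  have hR := wulff_subset hc h0 hC hf
  have : LipschitzWith ⟨C, hC.le⟩ (supp f) :=
    LipschitzWith.of_dist_le_mul fun x y => by
      rw [Real.dist_eq]
      exact abs_supp_sub_le hc h0 hR x y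
  exact this.continuous

lemma supp_even [NeZero n] (hc : Continuous f) (h0 : ∀ v, 0 < f v) (he : ∀ v, f (-v) = f v)
    (v : Sph n) : supp f (-v) = supp f v := by
  have key : ∀ w : Sph n, supp f (-w) ≤ supp f w := by
    intro w
    obtain ⟨x, hx, h1, -⟩ := exists_supp hc h0 (-w)
    rw [h1, coe_neg_sphere, inner_neg_right, ← inner_neg_left]
    exact inner_le_supp hc h0 w (neg_mem_wulff he hx)
  apply le_antisymm (key v)
  have := key (-v)
  rwa [neg_neg] at this

lemma wulff_supp [NeZero n] (hc : Continuous f) (h0 : ∀ v, 0 < f v) : wulff (supp f) = wulff f := by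
  ext x
  constructor
  · intro hx v
    exact (hx v).trans (supp_le hc h0 v)
  · intro hx v
    exact inner_le_supp hc h0 v hx

lemma gN_supp [NeZero n] (hc : Continuous f) (h0 : ∀ v, 0 < f v) (u : Eu n) :
    gN (supp f) u = gN f u := by
  have hc' := continuous_supp hc h0
  have h0' := supp_pos hc h0
  by_cases hu : u = 0
  · rw [hu, gN_zero hc h0, gN_zero hc' h0']
  have key : ∀ (g₁ g₂ : Sph n → ℝ), Continuous g₁ → (∀ v, 0 < g₁ v) → Continuous g₂ →
      (∀ v, 0 < g₂ v) → wulff g₁ = wulff g₂ → gN g₁ u ≤ gN g₂ u := by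
    intro g₁ g₂ hc₁ h₁ hc₂ h₂ hw
    have hp := gN_pos hc₂ h₂ hu
    have : (gN g₂ u)⁻¹ • u ∈ wulff g₁ := by
      rw [hw, mem_wulff_iff hc₂ h₂, gN_smul hc₂ h₂ (inv_nonneg.2 hp.le), inv_mul_cancel₀ hp.ne']
    rw [mem_wulff_iff hc₁ h₁, gN_smul hc₁ h₁ (inv_nonneg.2 hp.le), inv_mul_le_iff₀ hp, mul_one]
      at this
    exact this
  exact le_antisymm (key _ _ hc' h0' hc h0 (wulff_supp hc h0))
    (key _ _ hc h0 hc' h0' (wulff_supp hc h0).symm)

lemma supp_supp [NeZero n] (hc : Continuous f) (h0 : ∀ v, 0 < f v) (v : Sph n) :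
    supp (supp f) v = supp f v := by
  show sSup ((fun x : Eu n => inner ℝ x (v : Eu n)) '' wulff (supp f)) = supp f v
  rw [wulff_supp hc h0]
  rfl

end Gauge

end Pool.Agent.Lib.MP_b0d2bf_gt
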