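import Mathlib
import Pool.Agent.Lib.MP_b0d2bf_gt.Gauge

set_option autoImplicit false

/-!
Dual curvature measures of origin-symmetric convex bodies.
-/

namespace Pool.Agent.Lib.MP_b0d2bf_gt

open MeasureTheory Metric Set Filter Topology

/-- `K` is an origin-symmetric convex body: compact, convex, nonempty interior, `K = -K`. -/
structure IsSymBody {n : ℕ} (K : Set (Eu n)) : Prop where
  convex : Convex ℝ K
  compact : IsCompact K
  int : (interior K).Nonempty
  symm : ∀ x ∈ K, -x ∈ K

/-- the radial function of `K` -/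
noncomputable def radial {n : ℕ} (K : Set (Eu n)) (u : Sph n) : ℝ :=
  sSup {r : ℝ | r • (u : Eu n) ∈ K}

/-- `v` is an exterior unit normal of `K` at `x` -/
def IsNormal {n : ℕ} (K : Set (Eu n)) (x : Eu n) (v : Sph n) : Prop :=
  ∀ y ∈ K, inner ℝ y (v : Eu n) ≤ inner ℝ x (v : Eu n)

/-- the inverse radial Gauss image of `ω` -/
def invGauss {n : ℕ} (K : Set (Eu n)) (ω : Set (Sph n)) : Set (Sph n) :=
  {u | ∃ v ∈ ω, IsNormal K (radial K u • (u : Eu n)) v}

/-- the value on `ω` of the `q`-th dual curvature measure of `K`; the measure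
`(volume : Measure (Eu n)).toSphere` is the surface measure of the unit sphere -/
noncomputable def dualCurv {n : ℕ} (q : ℝ) (K : Set (Eu n)) (ω : Set (Sph n)) : ENNReal :=
  (n : ENNReal)⁻¹ * ∫⁻ u in invGauss K ω, ENNReal.ofReal (radial K u ^ q)
    ∂((volume : Measure (Eu n)).toSphere)

end Pool.Agent.Lib.MP_b0d2bf_gt
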