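import Mathlib
import Pool.Agent.Lib.MP_b0d2bf_gt.Gauge

set_option autoImplicit false

/-!
The subspace mass inequality is uniform on neighbourhoods of subspaces.
-/

namespace Pool.Agent.Lib.MP_b0d2bf_gt

open MeasureTheory Metric Set Filter Topology

section Nbhd

variable {n : ℕ}

/-- unit vectors almost orthogonal to the first `k` vectors -/
def nb (x : Fin n → Eu n) (k : ℕ) (ε : ℝ) : Set (Sph n) :=
  {v | ∀ i : Fin n, (i : ℕ) < k → |inner ℝ (x i) (v : Eu n)| < ε}

/-- closed version -/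
def nbc (x : Fin n → Eu n) (k : ℕ) (ε : ℝ) : Set (Sph n) :=
  {v | ∀ i : Fin n, (i : ℕ) < k → |inner ℝ (x i) (v : Eu n)| ≤ ε}

lemma isOpen_nb (x : Fin n → Eu n) (k : ℕ) (ε : ℝ) : IsOpen (nb x k ε) := by
  have : nb x k ε = ⋂ i : Fin n, {v : Sph n | (i : ℕ) < k → |inner ℝ (x i) (v : Eu n)| < ε} := by
    ext v; simp [nb]
  rw [this]
  refine isOpen_iInter_of_finite fun i => ?_
  by_cases hi : (i : ℕ) < k
  · simp only [hi, true_imp_iff]
    exact isOpen_lt (continuous_const.inner continuous_subtype_val).abs continuous_const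
  · simp only [hi, false_imp_iff]
    exact isOpen_univ

lemma isClosed_nbc (x : Fin n → Eu n) (k : ℕ) (ε : ℝ) : IsClosed (nbc x k ε) := by
  have : nbc x k ε = ⋂ i : Fin n, {v : Sph n | (i : ℕ) < k → |inner ℝ (x i) (v : Eu n)| ≤ ε} := by
    ext v; simp [nbc]
  rw [this]
  refine isClosed_iInter fun i => ?_
  by_cases hi : (i : ℕ) < k
  · simp only [hi, true_imp_iff]
    exact isClosed_le (continuous_const.inner continuous_subtype_val).abs continuous_const
  · simp only [hi, false_imp_iff]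
    exact isClosed_univ

/-- orthogonal complement of the first `k` vectors of an orthonormal system -/
lemma exists_sub {x : Fin n → Eu n} (hx : Orthonormal ℝ x) {k : ℕ} (hk : k ≤ n) :
    ∃ L : Submodule ℝ (Eu n), Module.finrank ℝ L = n - k ∧
      ∀ v : Eu n, v ∈ L ↔ ∀ i : Fin n, (i : ℕ) < k → inner ℝ (x i) v = 0 := by
  set y : Fin k → Eu n := fun i => x (Fin.castLE hk i) with hy
  have hyo : Orthonormal ℝ y := hx.comp _ (Fin.castLE_injective hk)
  refine ⟨(Submodule.span ℝ (Set.range y))ᗮ, ?_, fun v => ?_⟩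
  · have h1 := Submodule.finrank_add_finrank_orthogonal (Submodule.span ℝ (Set.range y))
    rw [finrank_span_eq_card hyo.linearIndependent, Fintype.card_fin, finrank_euclideanSpace_fin]
      at h1
    omega
  · rw [Submodule.mem_orthogonal]
    constructor
    · intro h i hi
      exact h _ (Submodule.subset_span ⟨⟨i, hi⟩, rfl⟩)
    · intro h u hu
      induction hu using Submodule.span_induction with
      | mem u hu =>
        obtain ⟨i, rfl⟩ := hu
        exact h _ i.2
      | zero => exact inner_zero_left _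
      | add a b _ _ ha hb => rw [inner_add_left, ha, hb, add_zero]
      | smul t a _ ha => rw [inner_smul_left, ha, mul_zero]

lemma nb_uniform_aux (μ : Measure (Sph n)) [IsFiniteMeasure μ] (k : ℕ) (hk : k ≤ n) (m : ℝ)
    (hL : ∀ L : Submodule ℝ (Eu n), Module.finrank ℝ L = n - k →
      μ.real {v | (v : Eu n) ∈ L} < m) :
    ∃ ε : ℝ, 0 < ε ∧ ∀ b : OrthonormalBasis (Fin n) ℝ (Eu n), μ.real (nb b k ε) ≤ m - ε := by
  by_contra hcon
  push Not at hcon
  have hpos : ∀ j : ℕ, (0:ℝ) < 1 / ((j : ℝ) + 1) := fun j => by positivity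
  choose b hb using fun j : ℕ => hcon (1 / ((j : ℝ) + 1)) (hpos j)
  have hcomp : IsCompact (Set.pi Set.univ (fun _ : Fin n => closedBall (0 : Eu n) 1)) :=
    isCompact_univ_pi fun _ => isCompact_closedBall _ _
  obtain ⟨x, -, φ, hφ, hlim⟩ := hcomp.tendsto_subseq (x := fun j => (b j : Fin n → Eu n))
    (fun j i _ => by
      rw [mem_closedBall_zero_iff, (b j).norm_eq_one])
  have hlimi : ∀ i, Tendsto (fun j => b (φ j) i) atTop (𝓝 (x i)) := fun i =>
    (tendsto_pi_nhds.1 hlim) i
  have hxo : Orthonormal ℝ x := by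
    constructor
    · intro i
      refine tendsto_nhds_unique (hlimi i).norm ?_
      simp only [OrthonormalBasis.norm_eq_one]
      exact tendsto_const_nhds
    · intro i j hij
      refine tendsto_nhds_unique ((hlimi i).inner (hlimi j)) ?_
      have : ∀ l, inner ℝ (b (φ l) i) (b (φ l) j) = (0:ℝ) := fun l =>
        (b (φ l)).orthonormal.2 hij
      simp only [this]
      exact tendsto_const_nhds
  obtain ⟨L, hLd, hLm⟩ := exists_sub hxo hk
  have hF : ∀ l : ℕ, m ≤ μ.real (nbc x k (1 / ((l : ℝ) + 1))) := by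
    intro l
    have h1 : Tendsto (fun j : ℕ => 1 / (((φ j : ℕ) : ℝ) + 1)) atTop (𝓝 0) :=
      tendsto_one_div_add_atTop_nhds_zero_nat.comp hφ.tendsto_atTop
    have h2 : ∀ i, Tendsto (fun j : ℕ => 1 / (((φ j : ℕ) : ℝ) + 1) + ‖b (φ j) i - x i‖) atTop
        (𝓝 0) := by
      intro i
      have h3 := (((hlimi i).sub_const (x i)).norm)
      rw [sub_self, norm_zero] at h3
      simpa using h1.add h3
    have h4 : ∀ᶠ j in atTop, ∀ i, 1 / (((φ j : ℕ) : ℝ) + 1) + ‖b (φ j) i - x i‖ <
        1 / ((l : ℝ) + 1) := by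
      rw [eventually_all]
      intro i
      exact (h2 i).eventually (gt_mem_nhds (hpos l))
    have h5 : ∀ᶠ j in atTop, m - 1 / (((φ j : ℕ) : ℝ) + 1) ≤ μ.real (nbc x k (1 / ((l : ℝ) + 1))) := by
      filter_upwards [h4] with j hj
      refine (hb (φ j)).le.trans (measureReal_mono ?_ (measure_ne_top _ _))
      intro v hv i hi
      have h6 := hv i hi
      have h7 : |inner ℝ (x i) (v : Eu n)| ≤ |inner ℝ (b (φ j) i) (v : Eu n)| +
          ‖b (φ j) i - x i‖ := by
        have h8 : inner ℝ (x i) (v : Eu n) = inner ℝ (b (φ j) i) (v : Eu n) -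
            inner ℝ (b (φ j) i - x i) (v : Eu n) := by
          rw [inner_sub_left]; ring
        rw [h8]
        refine (abs_sub _ _).trans ?_
        have := abs_inner_le (b (φ j) i - x i) v
        linarith
      have := hj i
      linarith
    have h9 : Tendsto (fun j : ℕ => m - 1 / (((φ j : ℕ) : ℝ) + 1)) atTop (𝓝 (m - 0)) :=
      tendsto_const_nhds.sub h1
    rw [sub_zero] at h9
    exact le_of_tendsto h9 h5
  have hinter : (⋂ l : ℕ, nbc x k (1 / ((l : ℝ) + 1))) = {v : Sph n | (v : Eu n) ∈ L} := by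
    ext v
    simp only [mem_iInter, mem_ofPred_eq, hLm]
    constructor
    · intro h i hi
      have h1 : |inner ℝ (x i) (v : Eu n)| ≤ 0 :=
        ge_of_tendsto tendsto_one_div_add_atTop_nhds_zero_nat
          (Eventually.of_forall fun l => h l i hi)
      exact abs_nonpos_iff.1 h1
    · intro h l i hi
      rw [h i hi, abs_zero]
      exact (hpos l).le
  have hanti : Antitone (fun l : ℕ => nbc x k (1 / ((l : ℝ) + 1))) := by
    intro l l' hll v hv i hi
    refine (hv i hi).trans ?_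
    have : (l : ℝ) ≤ l' := by exact_mod_cast hll
    gcongr
  have hlimμ := tendsto_measure_iInter_atTop (μ := μ)
    (fun l : ℕ => (isClosed_nbc x k (1 / ((l : ℝ) + 1))).measurableSet.nullMeasurableSet) hanti
    ⟨0, measure_ne_top _ _⟩
  rw [hinter] at hlimμ
  have h10 : Tendsto (fun l : ℕ => μ.real (nbc x k (1 / ((l : ℝ) + 1)))) atTop
      (𝓝 (μ.real {v : Sph n | (v : Eu n) ∈ L})) :=
    (ENNReal.tendsto_toReal (measure_ne_top _ _)).comp hlimμ
  exact absurd (hL L hLd) (not_lt.2 (ge_of_tendsto h10 (Eventually.of_forall hF)))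

/-- uniform version of the subspace mass inequality -/
theorem nb_uniform (μ : Measure (Sph n)) [IsFiniteMeasure μ] (q : ℝ)
    (hL : ∀ L : Submodule ℝ (Eu n), 0 < Module.finrank ℝ L → Module.finrank ℝ L < n →
      μ.real {v | (v : Eu n) ∈ L} < Module.finrank ℝ L / q) :
    ∃ ε : ℝ, 0 < ε ∧ ∀ (b : OrthonormalBasis (Fin n) ℝ (Eu n)) (k : ℕ), 0 < k → k < n →
      μ.real (nb b k ε) ≤ ((n : ℝ) - k) / q - ε := by
  have h1 : ∀ k : ℕ, 0 < k → k < n → ∃ ε : ℝ, 0 < ε ∧
      ∀ b : OrthonormalBasis (Fin n) ℝ (Eu n), μ.real (nb b k ε) ≤ ((n : ℝ) - k) / q - ε := by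
    intro k hk0 hkn
    refine nb_uniform_aux μ k hkn.le _ fun L hLd => ?_
    have h2 := hL L (by omega) (by omega)
    rw [hLd, Nat.cast_sub hkn.le] at h2
    exact h2
  have h2 : ∀ N : ℕ, ∃ ε : ℝ, 0 < ε ∧ ∀ (b : OrthonormalBasis (Fin n) ℝ (Eu n)) (k : ℕ),
      0 < k → k < n → k < N → μ.real (nb b k ε) ≤ ((n : ℝ) - k) / q - ε := by
    intro N
    induction N with
    | zero => exact ⟨1, one_pos, fun b k _ _ h => absurd h (Nat.not_lt_zero k)⟩
    | succ N ih =>
      obtain ⟨ε₁, hε₁, h⟩ := ih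
      by_cases hN : 0 < N ∧ N < n
      · obtain ⟨ε₂, hε₂, h'⟩ := h1 N hN.1 hN.2
        refine ⟨min ε₁ ε₂, lt_min hε₁ hε₂, fun b k hk0 hkn hkN => ?_⟩
        have hmono : ∀ ε', min ε₁ ε₂ ≤ ε' → μ.real (nb b k (min ε₁ ε₂)) ≤ μ.real (nb b k ε') := by
          intro ε' hε'
          refine measureReal_mono (fun v hv i hi => (hv i hi).trans_le hε') (measure_ne_top _ _)
        rcases Nat.lt_succ_iff_lt_or_eq.1 hkN with h3 | rfl
        · have := h b k hk0 hkn h3
          have h4 := hmono ε₁ (min_le_left _ _)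
          have := min_le_left ε₁ ε₂
          linarith
        · have := h' b
          have h4 := hmono ε₂ (min_le_right _ _)
          have := min_le_right ε₁ ε₂
          linarith
      · refine ⟨ε₁, hε₁, fun b k hk0 hkn hkN => ?_⟩
        rcases Nat.lt_succ_iff_lt_or_eq.1 hkN with h3 | rfl
        · exact h b k hk0 hkn h3
        · exact absurd ⟨hk0, hkn⟩ hN
  obtain ⟨ε, hε, h3⟩ := h2 n
  exact ⟨ε, hε, fun b k hk0 hkn => h3 b k hk0 hkn hkn⟩

end Nbhd

end Pool.Agent.Lib.MP_b0d2bf_gt
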