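import Mathlib
import Pool.Agent.Lib.MP_b0d2bf_gt.Gauge

set_option autoImplicit false

/-!
Every symmetric convex body is comparable with a box in an orthonormal basis.
-/

namespace Pool.Agent.Lib.MP_b0d2bf_gt

open MeasureTheory Metric Set Filter Topology

section Box

variable {n : ℕ}

/-- matrix with columns `x i` -/
noncomputable def colM (x : Fin n → Eu n) : Matrix (Fin n) (Fin n) ℝ :=
  Matrix.of (fun r i => x i r)

lemma continuous_det_colM : Continuous (fun x : Fin n → Eu n => (colM x).det) := by
  refine Continuous.matrix_det ?_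
  refine continuous_matrix fun r i => ?_
  have h1 : Continuous (fun x : Fin n → Eu n => x i) := continuous_apply i
  exact (EuclideanSpace.proj (𝕜 := ℝ) r).continuous.comp h1

lemma colM_update (x : Fin n → Eu n) (i : Fin n) (y : Eu n) :
    (colM x).updateCol i (fun r => y r) = colM (Function.update x i y) := by
  ext r j
  unfold colM
  by_cases h : j = i
  · subst h
    simp [Matrix.updateCol_self]
  · simp [Matrix.updateCol_ne h, Function.update_of_ne h]

/-- a compact set containing a ball has an Auerbach-type system -/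
lemma exists_auerbach {K : Set (Eu n)} (hK : IsCompact K) {c : ℝ} (hc : 0 < c)
    (hball : closedBall 0 c ⊆ K) :
    ∃ x : Fin n → Eu n, (∀ i, x i ∈ K) ∧ ∀ y ∈ K, ∀ v : Eu n,
      |inner ℝ y v| ≤ ∑ i, |inner ℝ (x i) v| := by
  classical
  have hcomp : IsCompact (Set.pi Set.univ (fun _ : Fin n => K)) := isCompact_univ_pi fun _ => hK
  have hne : (Set.pi Set.univ (fun _ : Fin n => K)).Nonempty := by
    refine ⟨fun _ => 0, fun i _ => hball ?_⟩
    simpa using hc.le
  obtain ⟨x, hx, hmax⟩ := hcomp.exists_isMaxOn hne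
    (continuous_det_colM (n := n)).abs.continuousOn
  have hx' : ∀ i, x i ∈ K := fun i => hx i (mem_univ i)
  have hpos : 0 < |(colM x).det| := by
    have h1 := hmax (show (fun i => c • (EuclideanSpace.single i (1:ℝ) : Eu n)) ∈
      Set.pi Set.univ (fun _ : Fin n => K) from fun i _ => hball (by
        rw [mem_closedBall_zero_iff, norm_smul, PiLp.norm_single, norm_one, mul_one,
          Real.norm_eq_abs, abs_of_pos hc]))
    refine lt_of_lt_of_le ?_ h1
    have h2 : colM (fun i => c • (EuclideanSpace.single i (1:ℝ) : Eu n)) =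
        c • (1 : Matrix (Fin n) (Fin n) ℝ) := by
      ext r i
      unfold colM
      simp [Matrix.one_apply]
    show 0 < |(colM fun i => c • (EuclideanSpace.single i (1:ℝ) : Eu n)).det|
    rw [h2, Matrix.det_smul, Matrix.det_one, mul_one]
    positivity
  refine ⟨x, hx', fun y hy v => ?_⟩
  have h1 : ∀ i, |(colM x).cramer (fun r => y r) i| ≤ |(colM x).det| := by
    intro i
    rw [Matrix.cramer_apply, colM_update]
    refine hmax (fun j _ => ?_)
    by_cases h : j = i
    · subst h; rw [Function.update_self]; exact hy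
    · rw [Function.update_of_ne h]; exact hx' j
  have h2 : (colM x).det * inner ℝ y v =
      ∑ i, (colM x).cramer (fun r => y r) i * inner ℝ (x i) v := by
    have h3 := Matrix.mulVec_cramer (colM x) (fun r => y r)
    have h4 : ∀ r, (colM x).det * y r = ∑ i, x i r * (colM x).cramer (fun r => y r) i := by
      intro r
      have := congrFun h3 r
      simp only [Matrix.mulVec, dotProduct, Pi.smul_apply, smul_eq_mul] at this
      rw [← this]
      rfl
    simp only [PiLp.inner_apply, RCLike.inner_apply, conj_trivial]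
    rw [Finset.mul_sum]
    simp only [Finset.mul_sum]
    rw [Finset.sum_comm]
    refine Finset.sum_congr rfl fun r _ => ?_
    calc (colM x).det * (v r * y r) = v r * ((colM x).det * y r) := by ring
      _ = _ := by
        rw [h4, Finset.mul_sum]
        exact Finset.sum_congr rfl fun i _ => by ring
  have h5 : |(colM x).det| * |inner ℝ y v| ≤ |(colM x).det| * ∑ i, |inner ℝ (x i) v| := by
    rw [← abs_mul, h2, Finset.mul_sum]
    refine (Finset.abs_sum_le_sum_abs _ _).trans (Finset.sum_le_sum fun i _ => ?_)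
    rw [abs_mul]
    exact mul_le_mul_of_nonneg_right (h1 i) (abs_nonneg _)
  exact le_of_mul_le_mul_left h5 hpos

/-- the quadratic form operator of a finite system -/
noncomputable def opT (x : Fin n → Eu n) : Eu n →ₗ[ℝ] Eu n :=
  ∑ i, (innerₛₗ ℝ (x i)).smulRight (x i)

lemma opT_apply (x : Fin n → Eu n) (v : Eu n) : opT x v = ∑ i, inner ℝ (x i) v • x i := by
  unfold opT
  simp [LinearMap.sum_apply]

lemma inner_opT (x : Fin n → Eu n) (v w : Eu n) :
    inner ℝ (opT x v) w = ∑ i, inner ℝ (x i) v * inner ℝ (x i) w := by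
  rw [opT_apply, sum_inner]
  exact Finset.sum_congr rfl fun i _ => by rw [inner_smul_left]; rfl

lemma opT_symm (x : Fin n → Eu n) : (opT x).IsSymmetric := by
  intro v w
  rw [inner_opT, real_inner_comm, inner_opT]
  exact Finset.sum_congr rfl fun i _ => by ring

/-- box approximation of a symmetric convex body -/
theorem exists_box [NeZero n] {f : Sph n → ℝ} (hc : Continuous f) (h0 : ∀ v, 0 < f v)
    (he : ∀ v, f (-v) = f v) :
    ∃ (b : OrthonormalBasis (Fin n) ℝ (Eu n)) (a : Fin n → ℝ), Antitone a ∧ (∀ k, 0 < a k) ∧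
      (∀ (v : Sph n) k, a k * |inner ℝ (b k) (v : Eu n)| ≤ √n * supp f v) ∧
      ∀ x ∈ wulff f, ∀ k, |inner ℝ (b k) x| ≤ √n * a k := by
  obtain ⟨c, hc0, hf⟩ := exists_low hc h0
  have hball := ball_subset_wulff hf
  obtain ⟨x, hxK, hx⟩ := exists_auerbach (isCompact_wulff hc h0) hc0 hball
  have hfin : Module.finrank ℝ (Eu n) = n := finrank_euclideanSpace_fin
  set hT := opT_symm x with hTdef
  set b := hT.eigenvectorBasis hfin with hb
  set l := hT.eigenvalues hfin with hl
  have hlk : ∀ k, l k = ∑ i, (inner ℝ (x i) (b k)) ^ 2 := by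
    intro k
    have h1 := inner_opT x (b k) (b k)
    rw [hb, hT.apply_eigenvectorBasis hfin k, inner_smul_left, real_inner_self_eq_norm_sq,
      (hT.eigenvectorBasis hfin).norm_eq_one] at h1
    simp only [conj_trivial, RCLike.ofReal_real_eq_id, id_eq, one_pow, mul_one] at h1
    rw [← hl, ← hb] at h1
    rw [h1]
    exact Finset.sum_congr rfl fun i _ => by ring
  have hG : ∀ v : Eu n, ∑ i, (inner ℝ (x i) v) ^ 2 = ∑ k, l k * (inner ℝ (b k) v) ^ 2 := by
    intro v
    have h1 : inner ℝ (opT x v) v = ∑ k, l k * (inner ℝ (b k) v) ^ 2 := by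
      rw [← b.sum_inner_mul_inner (opT x v) v]
      refine Finset.sum_congr rfl fun k _ => ?_
      rw [hT v (b k), hb, hT.apply_eigenvectorBasis hfin k, inner_smul_right]
      simp only [RCLike.ofReal_real_eq_id, id_eq]
      rw [real_inner_comm]
      ring
    rw [← h1, inner_opT]
    exact Finset.sum_congr rfl fun i _ => by ring
  have hl0 : ∀ k, 0 ≤ l k := fun k => by rw [hlk]; exact Finset.sum_nonneg fun i _ => sq_nonneg _
  have hupper : ∀ y ∈ wulff f, ∀ k, |inner ℝ (b k) y| ≤ √n * √(l k) := by
    intro y hy k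
    rw [real_inner_comm]
    refine (hx y hy (b k)).trans ?_
    rw [← Real.sqrt_mul (Nat.cast_nonneg n)]
    apply Real.le_sqrt_of_sq_le
    have := sq_sum_le_card_mul_sum_sq (s := (Finset.univ : Finset (Fin n)))
      (f := fun i => |inner ℝ (x i) (b k)|)
    simp only [sq_abs, Finset.card_univ, Fintype.card_fin] at this
    rw [hlk]
    exact this
  have hlpos : ∀ k, 0 < l k := by
    intro k
    rcases (hl0 k).lt_or_eq with h | h
    · exact h
    · exfalso
      have h1 : c • b k ∈ wulff f := hball (by
        rw [mem_closedBall_zero_iff, norm_smul, b.norm_eq_one, mul_one, Real.norm_eq_abs,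
          abs_of_pos hc0])
      have h2 := hupper _ h1 k
      rw [← h, Real.sqrt_zero, mul_zero, inner_smul_right, real_inner_self_eq_norm_sq,
        b.norm_eq_one, one_pow, mul_one, abs_of_pos hc0] at h2
      linarith
  refine ⟨b, fun k => √(l k), ?_, fun k => Real.sqrt_pos.2 (hlpos k), ?_, hupper⟩
  · intro i j hij
    exact Real.sqrt_le_sqrt (hT.eigenvalues_antitone hfin hij)
  · intro v k
    have hsupp : ∀ i, |inner ℝ (x i) (v : Eu n)| ≤ supp f v := by
      intro i
      rw [abs_le]
      constructor
      · have := inner_le_supp hc h0 v (neg_mem_wulff he (hxK i))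
        rw [inner_neg_left] at this
        linarith
      · exact inner_le_supp hc h0 v (hxK i)
    have h1 : l k * (inner ℝ (b k) (v : Eu n)) ^ 2 ≤ n * supp f v ^ 2 := by
      calc l k * (inner ℝ (b k) (v : Eu n)) ^ 2
          ≤ ∑ k, l k * (inner ℝ (b k) (v : Eu n)) ^ 2 :=
            Finset.single_le_sum (f := fun k => l k * (inner ℝ (b k) (v : Eu n)) ^ 2)
              (fun k _ => mul_nonneg (hl0 k) (sq_nonneg _)) (Finset.mem_univ k)
        _ = ∑ i, (inner ℝ (x i) (v : Eu n)) ^ 2 := (hG v).symm
        _ ≤ ∑ i : Fin n, supp f v ^ 2 := by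
            refine Finset.sum_le_sum fun i _ => ?_
            rw [← sq_abs]
            exact pow_le_pow_left₀ (abs_nonneg _) (hsupp i) 2
        _ = n * supp f v ^ 2 := by
            rw [Finset.sum_const, Finset.card_univ, Fintype.card_fin, nsmul_eq_mul]
    have h2 := Real.sqrt_le_sqrt h1
    rw [Real.sqrt_mul (hl0 k), Real.sqrt_sq_eq_abs, Real.sqrt_mul (Nat.cast_nonneg n),
      Real.sqrt_sq (supp_pos hc h0 v).le] at h2
    exact h2

end Box

end Pool.Agent.Lib.MP_b0d2bf_gt
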