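import Mathlib
import Pool.Agent.Lib.MP_b0d2bf_gt.Box

set_option autoImplicit false

/-!
Integrals of powers of the radial function and volumes of boxes.
-/

namespace Pool.Agent.Lib.MP_b0d2bf_gt

open MeasureTheory Metric Set Filter Topology

section Vol

variable {n : ℕ}

/-- surface measure of the unit sphere -/
noncomputable def sg (n : ℕ) : Measure (Sph n) := (volume : Measure (Eu n)).toSphere

instance instFiniteSg : IsFiniteMeasure (sg n) := by
  unfold sg; infer_instance

lemma sg_ne_zero [NeZero n] : sg n ≠ 0 := by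
  unfold sg
  exact Measure.toSphere_ne_zero _

/-- polar coordinates, the inequality needed -/
lemma lint_rad_le [NeZero n] {ρ : Sph n → ℝ} (hρ : Continuous ρ) (hρ0 : ∀ u, 0 < ρ u)
    {K : Set (Eu n)} (hK : ∀ (u : Sph n) (r : ℝ), 0 < r → r < ρ u → r • (u : Eu n) ∈ K) :
    ∫⁻ u, ENNReal.ofReal (ρ u ^ n) ∂(sg n) ≤ n * volume K := by
  have hn : 0 < n := NeZero.pos n
  have hfin : Module.finrank ℝ (Eu n) = n := finrank_euclideanSpace_fin
  set W : Set (Sph n × Ioi (0 : ℝ)) := {p | (p.2 : ℝ) < ρ p.1} with hW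
  have hWo : IsOpen W := isOpen_lt (continuous_subtype_val.comp continuous_snd)
    (hρ.comp continuous_fst)
  have hmp := Measure.measurePreserving_homeomorphUnitSphereProd (E := Eu n) volume
  have h1 : ((sg n).prod (Measure.volumeIoiPow (Module.finrank ℝ (Eu n) - 1))) W ≤ volume K := by
    unfold sg
    rw [← hmp.measure_preimage hWo.measurableSet.nullMeasurableSet,
      comap_subtype_coe_apply (measurableSet_singleton (0 : Eu n)).compl]
    apply measure_mono
    rintro _ ⟨x, hx, rfl⟩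
    have h2 : ((homeomorphUnitSphereProd (Eu n) x).2 : ℝ) < ρ (homeomorphUnitSphereProd (Eu n) x).1 :=
      hx
    have h3 := hK (homeomorphUnitSphereProd (Eu n) x).1 (homeomorphUnitSphereProd (Eu n) x).2
      (homeomorphUnitSphereProd (Eu n) x).2.2 h2
    have h4 : (((homeomorphUnitSphereProd (Eu n)).symm (homeomorphUnitSphereProd (Eu n) x) :
        ({0}ᶜ : Set (Eu n))) : Eu n) = x := by
      rw [Homeomorph.symm_apply_apply]
    rw [homeomorphUnitSphereProd_symm_apply_coe] at h4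
    rw [← h4]
    exact h3
  rw [Measure.prod_apply hWo.measurableSet] at h1
  have h2 : ∀ u : Sph n, Measure.volumeIoiPow (Module.finrank ℝ (Eu n) - 1) (Prod.mk u ⁻¹' W) =
      ENNReal.ofReal (ρ u ^ n / n) := by
    intro u
    have : Prod.mk u ⁻¹' W = Iio (⟨ρ u, hρ0 u⟩ : Ioi (0:ℝ)) := by
      ext r
      simp only [hW, mem_preimage, mem_ofPred_eq, mem_Iio]
      exact Iff.rfl
    rw [this, Measure.volumeIoiPow_apply_Iio, hfin]
    have h5 : n - 1 + 1 = n := by omega
    have h6 : ((n - 1 : ℕ) : ℝ) + 1 = n := by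
      have : ((n - 1 + 1 : ℕ) : ℝ) = n := by rw [h5]
      push_cast at this
      exact this
    rw [h5, h6]
  simp only [h2] at h1
  have h3 : ∀ u : Sph n, ENNReal.ofReal (ρ u ^ n) = n * ENNReal.ofReal (ρ u ^ n / n) := by
    intro u
    rw [← ENNReal.ofReal_natCast, ← ENNReal.ofReal_mul (Nat.cast_nonneg n)]
    congr 1
    have : (n : ℝ) ≠ 0 := by positivity
    field_simp
  simp only [h3]
  rw [lintegral_const_mul' _ _ (ENNReal.natCast_ne_top n)]
  gcongr

/-- volume of a box in an orthonormal basis -/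
lemma volume_box (b : OrthonormalBasis (Fin n) ℝ (Eu n)) (A : Fin n → ℝ) :
    volume {x : Eu n | ∀ k, |inner ℝ (b k) x| ≤ A k} = ∏ k, ENNReal.ofReal (2 * A k) := by
  have h1 : {x : Eu n | ∀ k, |inner ℝ (b k) x| ≤ A k} =
      b.repr ⁻¹' {y : Eu n | ∀ k, |y k| ≤ A k} := by
    ext x
    simp only [mem_ofPred_eq, mem_preimage, OrthonormalBasis.repr_apply_apply]
  have h2 : {y : Eu n | ∀ k, |y k| ≤ A k} =
      (@WithLp.ofLp 2 (Fin n → ℝ)) ⁻¹' (Icc (fun k => - A k) A) := by
    ext y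
    simp only [mem_ofPred_eq, mem_preimage, mem_Icc, Pi.le_def, abs_le, ← forall_and]
  have h3 : MeasurableSet (Icc (fun k => - A k) A) := measurableSet_Icc
  rw [h1, b.measurePreserving_repr.measure_preimage, h2,
    (PiLp.volume_preserving_ofLp (Fin n)).measure_preimage h3.nullMeasurableSet,
    Real.volume_Icc_pi]
  · refine Finset.prod_congr rfl fun k _ => ?_
    congr 1
    ring
  · rw [h2]
    exact ((PiLp.volume_preserving_ofLp (Fin n)).measurable h3).nullMeasurableSet

/-- continuity of the radial function -/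
lemma continuous_rad [NeZero n] {f : Sph n → ℝ} (hc : Continuous f) (h0 : ∀ v, 0 < f v) :
    Continuous (fun u : Sph n => (gN f u)⁻¹) :=
  ((continuous_gN hc h0).comp continuous_subtype_val).inv₀
    fun u => (gN_pos hc h0 (sph_ne_zero u)).ne'

lemma continuous_radpow [NeZero n] {f : Sph n → ℝ} (hc : Continuous f) (h0 : ∀ v, 0 < f v) (q : ℝ) :
    Continuous (fun u : Sph n => (gN f u)⁻¹ ^ q) :=
  (continuous_rad hc h0).rpow_const fun u =>
    Or.inl (inv_pos.2 (gN_pos hc h0 (sph_ne_zero u))).ne'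

/-- integral of the `q`-th power of the radial function -/
noncomputable def II (q : ℝ) (f : Sph n → ℝ) : ℝ := ∫ u : Sph n, (gN f u)⁻¹ ^ q ∂(sg n)

lemma integrable_radpow [NeZero n] {f : Sph n → ℝ} (hc : Continuous f) (h0 : ∀ v, 0 < f v)
    (q : ℝ) : Integrable (fun u : Sph n => (gN f u)⁻¹ ^ q) (sg n) :=
  (continuous_radpow hc h0 q).integrable_of_hasCompactSupport (HasCompactSupport.of_compactSpace _)

lemma II_pos [NeZero n] {f : Sph n → ℝ} (hc : Continuous f) (h0 : ∀ v, 0 < f v) (q : ℝ) :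
    0 < II q f := by
  have hpos : ∀ u : Sph n, 0 < (gN f u)⁻¹ ^ q := fun u =>
    Real.rpow_pos_of_pos (inv_pos.2 (gN_pos hc h0 (sph_ne_zero u))) q
  unfold II
  rw [integral_pos_iff_support_of_nonneg (fun u => (hpos u).le) (integrable_radpow hc h0 q)]
  have : Function.support (fun u : Sph n => (gN f u)⁻¹ ^ q) = univ := by
    ext u; simp [(hpos u).ne']
  rw [this]
  exact (Measure.measure_univ_pos).2 sg_ne_zero

/-- upper bound for the integral in terms of the box -/
theorem II_le_box [NeZero n] {f : Sph n → ℝ} (hc : Continuous f) (h0 : ∀ v, 0 < f v)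
    {q : ℝ} (hq : (n : ℝ) ≤ q) (b : OrthonormalBasis (Fin n) ℝ (Eu n)) (a : Fin n → ℝ)
    (ha0 : ∀ k, 0 < a k) {A : ℝ} (hA : ∀ k, a k ≤ A)
    (hb : ∀ x ∈ wulff f, ∀ k, |inner ℝ (b k) x| ≤ √n * a k) :
    II q f ≤ (n * A) ^ (q - n) * (n * ∏ k, (2 * (√n * a k))) := by
  have hn : 0 < n := NeZero.pos n
  have hn' : (0:ℝ) < n := by exact_mod_cast hn
  have hA0 : 0 < A := (ha0 ⟨0, hn⟩).trans_le (hA _)
  have hρ0 : ∀ u : Sph n, 0 < (gN f u)⁻¹ := fun u => inv_pos.2 (gN_pos hc h0 (sph_ne_zero u))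
  have hρ : ∀ u : Sph n, (gN f u)⁻¹ ≤ n * A := by
    intro u
    have h1 := hb _ (bd_mem_wulff hc h0 u)
    have h2 := b.sum_sq_norm_inner_right ((gN f u)⁻¹ • (u : Eu n))
    rw [norm_smul, norm_sph, mul_one, Real.norm_eq_abs, abs_of_pos (hρ0 u)] at h2
    have h3 : ((gN f u)⁻¹) ^ 2 ≤ (n * A) ^ 2 := by
      rw [← h2]
      calc ∑ i, ‖inner ℝ (b i) ((gN f u)⁻¹ • (u : Eu n))‖ ^ 2 ≤ ∑ i : Fin n, (√n * A) ^ 2 := by
            refine Finset.sum_le_sum fun i _ => ?_
            rw [Real.norm_eq_abs]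
            refine pow_le_pow_left₀ (abs_nonneg _) ((h1 i).trans ?_) 2
            exact mul_le_mul_of_nonneg_left (hA i) (Real.sqrt_nonneg _)
        _ = (n * A) ^ 2 := by
            rw [Finset.sum_const, Finset.card_univ, Fintype.card_fin, nsmul_eq_mul, mul_pow,
              Real.sq_sqrt hn'.le]
            ring
    exact (pow_le_pow_iff_left₀ (hρ0 u).le (by positivity) (by norm_num)).1 h3
  have h1 : II q f ≤ ∫ u : Sph n, (n * A) ^ (q - n) * (gN f u)⁻¹ ^ n ∂(sg n) := by
    unfold II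
    refine integral_mono (integrable_radpow hc h0 q) ?_ fun u => ?_
    · exact (Continuous.integrable_of_hasCompactSupport
        (continuous_const.mul ((continuous_rad hc h0).pow n)) (HasCompactSupport.of_compactSpace _))
    · show (gN f u)⁻¹ ^ q ≤ (n * A) ^ (q - n) * (gN f u)⁻¹ ^ n
      have h2 : (gN f u)⁻¹ ^ q = (gN f u)⁻¹ ^ (q - n) * (gN f u)⁻¹ ^ n := by
        rw [← Real.rpow_natCast ((gN f u)⁻¹) n, ← Real.rpow_add (hρ0 u)]
        congr 1; ring
      rw [h2]
      refine mul_le_mul_of_nonneg_right ?_ (pow_nonneg (hρ0 u).le n)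
      exact Real.rpow_le_rpow (hρ0 u).le (hρ u) (by linarith)
  refine h1.trans ?_
  rw [integral_const_mul]
  refine mul_le_mul_of_nonneg_left ?_ (Real.rpow_nonneg (by positivity) _)
  have h2 : ∫ u : Sph n, (gN f u)⁻¹ ^ n ∂(sg n) =
      (∫⁻ u : Sph n, ENNReal.ofReal ((gN f u)⁻¹ ^ n) ∂(sg n)).toReal := by
    rw [integral_eq_lintegral_of_nonneg_ae]
    · exact Eventually.of_forall fun u => pow_nonneg (hρ0 u).le n
    · exact ((continuous_rad hc h0).pow n).aestronglyMeasurable
  rw [h2]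
  have h3 := lint_rad_le (continuous_rad hc h0) hρ0
    (K := {x : Eu n | ∀ k, |inner ℝ (b k) x| ≤ √n * a k}) (by
      intro u r hr hru
      apply hb
      rw [mem_wulff_iff hc h0, gN_smul hc h0 hr.le]
      have := gN_pos hc h0 (sph_ne_zero u)
      calc r * gN f u ≤ (gN f u)⁻¹ * gN f u := mul_le_mul_of_nonneg_right hru.le this.le
        _ = 1 := inv_mul_cancel₀ this.ne')
  rw [volume_box] at h3
  have h4 : (n : ENNReal) * ∏ k, ENNReal.ofReal (2 * (√n * a k)) =
      ENNReal.ofReal (n * ∏ k, (2 * (√n * a k))) := by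
    rw [ENNReal.ofReal_mul hn'.le, ENNReal.ofReal_natCast, ENNReal.ofReal_prod_of_nonneg]
    intro k _
    have := ha0 k
    positivity
  rw [h4] at h3
  refine ENNReal.toReal_le_of_le_ofReal ?_ h3
  have : ∀ k, 0 ≤ 2 * (√n * a k) := fun k => by have := ha0 k; positivity
  exact mul_nonneg hn'.le (Finset.prod_nonneg fun k _ => this k)

end Vol

end Pool.Agent.Lib.MP_b0d2bf_gt
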