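import Mathlib
import Pool.Agent.Lib.MP_b0d2bf_gt.Vol
import Pool.Agent.Lib.MP_b0d2bf_gt.Nbhd

set_option autoImplicit false

/-!
Coercivity of the functional `(1/q) log ∫ ρ^q - ∫ log h dμ`.
-/

namespace Pool.Agent.Lib.MP_b0d2bf_gt

open MeasureTheory Metric Set Filter Topology

section Coer

variable {n : ℕ}

/-- the functional -/
noncomputable def Psi (μ : Measure (Sph n)) (q : ℝ) (f : Sph n → ℝ) : ℝ :=
  (1 / q) * Real.log (II q f) - ∫ v, Real.log (f v) ∂μ

/-- discrete summation by parts -/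
lemma sum_parts (L : ℕ → ℝ) (m : ℕ) :
    ∑ k ∈ Finset.range m, L k = m * L 0 - ∑ j ∈ Finset.range m, ((m : ℝ) - 1 - j) * (L j - L (j + 1)) := by
  induction m with
  | zero => simp
  | succ m ih =>
    rw [Finset.sum_range_succ, ih, Finset.sum_range_succ]
    have h1 : ∑ j ∈ Finset.range m, (((m + 1 : ℕ) : ℝ) - 1 - j) * (L j - L (j + 1)) =
        ∑ j ∈ Finset.range m, ((m : ℝ) - 1 - j) * (L j - L (j + 1)) +
          ∑ j ∈ Finset.range m, (L j - L (j + 1)) := by
      rw [← Finset.sum_add_distrib]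
      refine Finset.sum_congr rfl fun j _ => ?_
      push_cast
      ring
    rw [h1, Finset.sum_range_sub']
    push_cast
    ring

/-- logs of the semiaxes, indexed by natural numbers -/
noncomputable def LL (a : Fin n → ℝ) [NeZero n] (k : ℕ) : ℝ :=
  Real.log (a ⟨min k (n - 1), by have := NeZero.pos n; omega⟩)

lemma LL_val [NeZero n] (a : Fin n → ℝ) (k : Fin n) : LL a k = Real.log (a k) := by
  unfold LL
  congr 2
  ext
  simp only
  have := k.2
  omega

lemma LL_anti [NeZero n] {a : Fin n → ℝ} (ha : Antitone a) (h0 : ∀ k, 0 < a k) (k : ℕ) :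
    0 ≤ LL a k - LL a (k + 1) := by
  unfold LL
  rw [sub_nonneg]
  apply Real.log_le_log (h0 _)
  apply ha
  rw [Fin.mk_le_mk]
  omega

lemma LL_last [NeZero n] (a : Fin n → ℝ) : LL a (n - 1) - LL a (n - 1 + 1) = 0 := by
  unfold LL
  have h1 : min (n - 1 + 1) (n - 1) = min (n - 1) (n - 1) := by omega
  simp only [h1, sub_self]

open Classical in
/-- pointwise lower bound for the logarithm of the support function -/
lemma log_supp_ge [NeZero n] {f : Sph n → ℝ}
    (b : OrthonormalBasis (Fin n) ℝ (Eu n)) {a : Fin n → ℝ}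
    (ha0 : ∀ k, 0 < a k) (hab : ∀ (v : Sph n) k, a k * |inner ℝ (b k) (v : Eu n)| ≤ √n * supp f v)
    {ε : ℝ} (hε : 0 < ε) (hε1 : n * ε ^ 2 < 1) (v : Sph n) :
    Real.log (ε / √n) + LL a 0 - ∑ k ∈ Finset.range n, (LL a k - LL a (k + 1)) *
      (if v ∈ nb b (k + 1) ε then 1 else 0) ≤ Real.log (supp f v) := by
  have hn : 0 < n := NeZero.pos n
  have hn' : (0:ℝ) < n := by exact_mod_cast hn
  have hex : ∃ j : ℕ, ∃ h : j < n, ε ≤ |inner ℝ (b ⟨j, h⟩) (v : Eu n)| := by
    by_contra hcon
    push Not at hcon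
    have h1 := b.sum_sq_norm_inner_right (v : Eu n)
    rw [norm_sph, one_pow] at h1
    have h2 : ∑ i, ‖inner ℝ (b i) (v : Eu n)‖ ^ 2 ≤ ∑ i : Fin n, ε ^ 2 := by
      refine Finset.sum_le_sum fun i _ => ?_
      rw [Real.norm_eq_abs]
      exact pow_le_pow_left₀ (abs_nonneg _) (hcon i i.2).le 2
    rw [h1, Finset.sum_const, Finset.card_univ, Fintype.card_fin, nsmul_eq_mul] at h2
    linarith
  obtain ⟨hj, hjε⟩ := Nat.find_spec hex
  set j := Nat.find hex with hjdef
  have hmin : ∀ i : ℕ, i < j → ∀ h : i < n, |inner ℝ (b ⟨i, h⟩) (v : Eu n)| < ε := by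
    intro i hi h
    have := Nat.find_min hex hi
    push Not at this
    exact this h
  have hmem : ∀ k ∈ Finset.range n, (LL a k - LL a (k + 1)) *
      (if v ∈ nb b (k + 1) ε then (1:ℝ) else 0) = if k < j then LL a k - LL a (k + 1) else 0 := by
    intro k _
    by_cases hk : k < j
    · rw [if_pos hk, if_pos, mul_one]
      intro i hi
      exact hmin i (by omega) i.2
    · rw [if_neg hk, if_neg, mul_zero]
      intro hcon
      have := hcon ⟨j, hj⟩ (by simp only; omega)
      linarith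
  rw [Finset.sum_congr rfl hmem, ← Finset.sum_filter]
  have hfil : (Finset.range n).filter (fun k => k < j) = Finset.range j := by
    ext k; simp only [Finset.mem_filter, Finset.mem_range]; omega
  rw [hfil, Finset.sum_range_sub']
  have h1 : LL a j = Real.log (a ⟨j, hj⟩) := LL_val a ⟨j, hj⟩
  have h2 : Real.log (ε / √n) + LL a 0 - (LL a 0 - LL a j) = Real.log (ε / √n * a ⟨j, hj⟩) := by
    rw [Real.log_mul (by positivity) (ha0 _).ne', h1]; ring
  rw [h2]
  apply Real.log_le_log (mul_pos (by positivity) (ha0 _))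
  rw [div_mul_eq_mul_div, div_le_iff₀ (by positivity)]
  calc ε * a ⟨j, hj⟩ ≤ |inner ℝ (b ⟨j, hj⟩) (v : Eu n)| * a ⟨j, hj⟩ :=
        mul_le_mul_of_nonneg_right hjε (ha0 _).le
    _ = a ⟨j, hj⟩ * |inner ℝ (b ⟨j, hj⟩) (v : Eu n)| := by ring
    _ ≤ √n * supp f v := hab v _
    _ = supp f v * √n := by ring

lemma integrable_log {f : Sph n → ℝ} (hc : Continuous f) (h0 : ∀ v, 0 < f v)
    (μ : Measure (Sph n)) [IsFiniteMeasure μ] : Integrable (fun v => Real.log (f v)) μ :=
  (hc.log fun v => (h0 v).ne').integrable_of_hasCompactSupport (HasCompactSupport.of_compactSpace _)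

/-- the coercivity estimate -/
theorem Psi_le [NeZero n] (μ : Measure (Sph n)) [IsProbabilityMeasure μ] {q : ℝ} (hq : (n : ℝ) ≤ q)
    {ε : ℝ} (hε : 0 < ε) (hε1 : n * ε ^ 2 < 1)
    (hμ : ∀ (b : OrthonormalBasis (Fin n) ℝ (Eu n)) (k : ℕ), 0 < k → k < n →
      μ.real (nb b k ε) ≤ ((n : ℝ) - k) / q - ε) :
    ∃ C : ℝ, ∀ (f : Sph n → ℝ), Continuous f → (∀ v, 0 < f v) → (∀ v, f (-v) = f v) →
      ∀ (b : OrthonormalBasis (Fin n) ℝ (Eu n)) (a : Fin n → ℝ), Antitone a → (∀ k, 0 < a k) →
      (∀ (v : Sph n) k, a k * |inner ℝ (b k) (v : Eu n)| ≤ √n * supp f v) →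
      (∀ x ∈ wulff f, ∀ k, |inner ℝ (b k) x| ≤ √n * a k) →
      Psi μ q (supp f) ≤ C - ε * (LL a 0 - LL a (n - 1)) := by
  have hn : 0 < n := NeZero.pos n
  have hn' : (0:ℝ) < n := by exact_mod_cast hn
  have hq0 : 0 < q := hn'.trans_le hq
  refine ⟨(1 / q) * ((q - n) * Real.log n + Real.log n + n * Real.log (2 * √n)) -
    Real.log (ε / √n), ?_⟩
  intro f hc h0 he b a ha ha0 hab hbox
  classical
  have hc' := continuous_supp hc h0
  have h0' := supp_pos hc h0
  -- the first term
  have hII : Real.log (II q (supp f)) ≤ (q - n) * (Real.log n + LL a 0) + Real.log n +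
      (n * Real.log (2 * √n) + ∑ k ∈ Finset.range n, LL a k) := by
    have h1 : II q (supp f) = II q f := by
      unfold II
      simp only [gN_supp hc h0]
    have h2 := II_le_box hc h0 hq b a ha0 (A := a ⟨0, hn⟩)
      (fun k => ha (Fin.mk_le_of_le_val (Nat.zero_le _))) hbox
    rw [h1]
    refine (Real.log_le_log (II_pos hc h0 q) h2).trans (le_of_eq ?_)
    have h3 : ∀ k, 0 < 2 * (√n * a k) := fun k => by have := ha0 k; positivity
    have h4 : (0:ℝ) < (n * a ⟨0, hn⟩) ^ (q - n) := Real.rpow_pos_of_pos (mul_pos hn' (ha0 _)) _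
    rw [Real.log_mul h4.ne' (mul_pos hn' (Finset.prod_pos fun k _ => h3 k)).ne',
      Real.log_rpow (mul_pos hn' (ha0 _)), Real.log_mul hn'.ne' (ha0 _).ne',
      Real.log_mul hn'.ne' (Finset.prod_pos fun k _ => h3 k).ne',
      Real.log_prod (fun k _ => (h3 k).ne')]
    have h5 : ∀ k : Fin n, Real.log (2 * (√n * a k)) = Real.log (2 * √n) + LL a k := by
      intro k
      rw [LL_val, ← mul_assoc, Real.log_mul (by positivity) (ha0 k).ne']
    have h6 : LL a 0 = Real.log (a ⟨0, hn⟩) := LL_val a ⟨0, hn⟩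
    simp only [h5]
    rw [Finset.sum_add_distrib, Finset.sum_const, Finset.card_univ, Fintype.card_fin,
      nsmul_eq_mul, h6, ← Fin.sum_univ_eq_sum_range (fun k => LL a k) n]
    ring
  -- the second term
  have hJ : Real.log (ε / √n) + LL a 0 - ∑ k ∈ Finset.range n, (LL a k - LL a (k + 1)) *
      μ.real (nb b (k + 1) ε) ≤ ∫ v, Real.log (supp f v) ∂μ := by
    have hind : ∀ k, Integrable (fun v : Sph n => (LL a k - LL a (k + 1)) *
        (if v ∈ nb b (k + 1) ε then (1:ℝ) else 0)) μ := by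
      intro k
      refine Integrable.const_mul ?_ _
      have : (fun v : Sph n => if v ∈ nb b (k + 1) ε then (1:ℝ) else 0) =
          (nb b (k + 1) ε).indicator (fun _ => (1:ℝ)) := by
        ext v; simp [Set.indicator_apply]
      rw [this]
      exact (integrable_const (1:ℝ)).indicator (isOpen_nb b (k + 1) ε).measurableSet
    have h1 : ∫ v, (Real.log (ε / √n) + LL a 0 - ∑ k ∈ Finset.range n, (LL a k - LL a (k + 1)) *
        (if v ∈ nb b (k + 1) ε then (1:ℝ) else 0)) ∂μ = Real.log (ε / √n) + LL a 0 -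
        ∑ k ∈ Finset.range n, (LL a k - LL a (k + 1)) * μ.real (nb b (k + 1) ε) := by
      rw [integral_sub (integrable_const _) (integrable_finsetSum _ fun k _ => hind k),
        integral_const, integral_finsetSum _ fun k _ => hind k]
      simp only [probReal_univ, one_smul]
      congr 1
      refine Finset.sum_congr rfl fun k _ => ?_
      rw [integral_const_mul]
      congr 1
      have : (fun v : Sph n => if v ∈ nb b (k + 1) ε then (1:ℝ) else 0) =
          (nb b (k + 1) ε).indicator (fun _ => (1:ℝ)) := by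
        ext v; simp [Set.indicator_apply]
      rw [this, integral_indicator_const _ (isOpen_nb b (k + 1) ε).measurableSet, smul_eq_mul,
        mul_one]
    rw [← h1]
    exact integral_mono ((integrable_const _).sub (integrable_finsetSum _ fun k _ => hind k))
      (integrable_log hc' h0' μ) (fun v => log_supp_ge b ha0 hab hε hε1 v)
  have hsum := sum_parts (LL a) n
  have hfin : ∑ k ∈ Finset.range n, (LL a k - LL a (k + 1)) * μ.real (nb b (k + 1) ε) ≤
      (1 / q) * ∑ j ∈ Finset.range n, ((n : ℝ) - 1 - j) * (LL a j - LL a (j + 1)) -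
        ε * (LL a 0 - LL a (n - 1)) := by
    have h1 : LL a 0 - LL a (n - 1) = ∑ k ∈ Finset.range n, (LL a k - LL a (k + 1)) := by
      rw [Finset.sum_range_sub']
      have h2 := LL_last a
      have h3 : n - 1 + 1 = n := by omega
      rw [h3] at h2
      linarith
    rw [h1, Finset.mul_sum, Finset.mul_sum, ← Finset.sum_sub_distrib]
    refine Finset.sum_le_sum fun k hk => ?_
    rw [Finset.mem_range] at hk
    by_cases hkn : k + 1 < n
    · have h2 := hμ b (k + 1) (Nat.succ_pos k) hkn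
      have h3 := LL_anti ha ha0 k
      have h4 := mul_le_mul_of_nonneg_left h2 h3
      refine h4.trans (le_of_eq ?_)
      push_cast
      field_simp
      ring
    · have hkn' : k = n - 1 := by omega
      have h2 : LL a k - LL a (k + 1) = 0 := by rw [hkn']; exact LL_last a
      rw [h2]
      simp
  unfold Psi
  have h7 : (1 / q) * Real.log (II q (supp f)) ≤ (1 / q) * ((q - n) * (Real.log n + LL a 0) +
      Real.log n + (n * Real.log (2 * √n) + ∑ k ∈ Finset.range n, LL a k)) :=
    mul_le_mul_of_nonneg_left hII (by positivity)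
  rw [hsum] at h7
  have h8 : (1 / q) * ((q - n) * (Real.log n + LL a 0) + Real.log n + (n * Real.log (2 * √n) +
      (n * LL a 0 - ∑ j ∈ Finset.range n, ((n : ℝ) - 1 - j) * (LL a j - LL a (j + 1))))) =
      (1 / q) * ((q - n) * Real.log n + Real.log n + n * Real.log (2 * √n)) + LL a 0 -
      (1 / q) * ∑ j ∈ Finset.range n, ((n : ℝ) - 1 - j) * (LL a j - LL a (j + 1)) := by
    field_simp
    ring
  rw [h8] at h7
  linarith

/-- bounded ratio for bodies with large functional -/
theorem ratio_bound [NeZero n] (μ : Measure (Sph n)) [IsProbabilityMeasure μ] {q : ℝ}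
    (hq : (n : ℝ) ≤ q)
    (hL : ∀ L : Submodule ℝ (Eu n), 0 < Module.finrank ℝ L → Module.finrank ℝ L < n →
      μ.real {v | (v : Eu n) ∈ L} < Module.finrank ℝ L / q) (P : ℝ) :
    ∃ c : ℝ, 0 < c ∧ c ≤ 1 ∧ ∀ (f : Sph n → ℝ), Continuous f → (∀ v, 0 < f v) →
      (∀ v, f (-v) = f v) → P ≤ Psi μ q (supp f) → ∀ v w, c * supp f v ≤ supp f w := by
  have hn : 0 < n := NeZero.pos n
  have hn' : (0:ℝ) < n := by exact_mod_cast hn
  have hn1 : (1:ℝ) ≤ n := by exact_mod_cast hn
  obtain ⟨ε₀, hε₀, hu⟩ := nb_uniform μ q hL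
  obtain ⟨ε, hε, hε1, hεle⟩ : ∃ ε : ℝ, 0 < ε ∧ n * ε ^ 2 < 1 ∧ ε ≤ ε₀ := by
    refine ⟨min ε₀ (1 / (n + 1)), lt_min hε₀ (by positivity), ?_, min_le_left _ _⟩
    have h1 : min ε₀ (1 / ((n : ℝ) + 1)) ≤ 1 / (n + 1) := min_le_right _ _
    have h2 : 0 ≤ min ε₀ (1 / ((n : ℝ) + 1)) := (lt_min hε₀ (by positivity)).le
    calc n * (min ε₀ (1 / ((n : ℝ) + 1))) ^ 2 ≤ n * (1 / ((n : ℝ) + 1)) ^ 2 := by gcongr
      _ < 1 := by
        rw [div_pow, one_pow, mul_one_div, div_lt_one (by positivity)]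
        nlinarith
  have hμ : ∀ (b : OrthonormalBasis (Fin n) ℝ (Eu n)) (k : ℕ), 0 < k → k < n →
      μ.real (nb b k ε) ≤ ((n : ℝ) - k) / q - ε := by
    intro b k hk0 hkn
    have h1 : μ.real (nb b k ε) ≤ μ.real (nb b k ε₀) :=
      measureReal_mono (fun v hv i hi => (hv i hi).trans_le hεle) (measure_ne_top _ _)
    have := hu b k hk0 hkn
    linarith
  obtain ⟨C, hC⟩ := Psi_le μ hq hε hε1 hμ
  set T := max 0 ((C - P) / ε) with hT
  refine ⟨Real.exp (-T) / (n ^ 2), by positivity, ?_, ?_⟩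
  · rw [div_le_one (by positivity)]
    calc Real.exp (-T) ≤ 1 := Real.exp_le_one_iff.2 (by simp [hT])
      _ ≤ (n:ℝ) ^ 2 := by nlinarith
  · intro f hc h0 he hP v w
    obtain ⟨b, a, ha, ha0, hab, hbox⟩ := exists_box hc h0 he
    have h1 := hC f hc h0 he b a ha ha0 hab hbox
    have h2 : LL a 0 - LL a (n - 1) ≤ T := by
      refine le_trans ?_ (le_max_right _ _)
      rw [le_div_iff₀ hε]
      linarith
    have h3 : LL a 0 = Real.log (a ⟨0, hn⟩) := LL_val a ⟨0, hn⟩
    have h4 : LL a (n - 1) = Real.log (a ⟨n - 1, by omega⟩) := LL_val a ⟨n - 1, by omega⟩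
    rw [h3, h4] at h2
    have h5 : Real.exp (-T) * a ⟨0, hn⟩ ≤ a ⟨n - 1, by omega⟩ := by
      rw [← Real.exp_log (ha0 ⟨n - 1, by omega⟩), ← Real.exp_log (ha0 ⟨0, hn⟩), ← Real.exp_add]
      apply Real.exp_le_exp.2
      linarith
    have h6 : supp f v ≤ n * a ⟨0, hn⟩ := by
      obtain ⟨x, hx, hxv, -⟩ := exists_supp hc h0 v
      rw [hxv]
      refine ((le_abs_self _).trans (abs_inner_le x v)).trans ?_
      have h7 := b.sum_sq_norm_inner_right x
      have h8 : ‖x‖ ^ 2 ≤ (n * a ⟨0, hn⟩) ^ 2 := by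
        rw [← h7]
        calc ∑ i, ‖inner ℝ (b i) x‖ ^ 2 ≤ ∑ i : Fin n, (√n * a ⟨0, hn⟩) ^ 2 := by
              refine Finset.sum_le_sum fun i _ => ?_
              rw [Real.norm_eq_abs]
              refine pow_le_pow_left₀ (abs_nonneg _) ((hbox x hx i).trans ?_) 2
              exact mul_le_mul_of_nonneg_left (ha (Fin.mk_le_of_le_val (Nat.zero_le _)))
                (Real.sqrt_nonneg _)
          _ = (n * a ⟨0, hn⟩) ^ 2 := by
              rw [Finset.sum_const, Finset.card_univ, Fintype.card_fin, nsmul_eq_mul, mul_pow,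
                Real.sq_sqrt hn'.le]
              ring
      exact (pow_le_pow_iff_left₀ (norm_nonneg x) (mul_pos hn' (ha0 _)).le (by norm_num)).1 h8
    have h7 : a ⟨n - 1, by omega⟩ ≤ n * supp f w := by
      by_contra hcon
      rw [not_le] at hcon
      have h8 : ∀ k, √n * |inner ℝ (b k) (w : Eu n)| < 1 := by
        intro k
        have h9 := hab w k
        have h10 : a ⟨n - 1, by omega⟩ ≤ a k := ha (by
          rw [Fin.le_def]; have := k.2; simp only; omega)
        have h11 : n * supp f w * |inner ℝ (b k) (w : Eu n)| < √n * supp f w ∨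
            |inner ℝ (b k) (w : Eu n)| = 0 := by
          by_cases h12 : |inner ℝ (b k) (w : Eu n)| = 0
          · exact Or.inr h12
          · left
            have h13 : 0 < |inner ℝ (b k) (w : Eu n)| := lt_of_le_of_ne (abs_nonneg _) (Ne.symm h12)
            calc n * supp f w * |inner ℝ (b k) (w : Eu n)| < a k * |inner ℝ (b k) (w : Eu n)| :=
                  mul_lt_mul_of_pos_right (hcon.trans_le h10) h13
              _ ≤ _ := h9
        rcases h11 with h12 | h12
        · have h13 := supp_pos hc h0 w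
          have h14 : √(n:ℝ) * √(n:ℝ) = n := Real.mul_self_sqrt hn'.le
          have h15 : 0 < √(n:ℝ) := Real.sqrt_pos.2 hn'
          have h16 : (√n * supp f w) * (√n * |inner ℝ (b k) (w : Eu n)|) < (√n * supp f w) * 1 := by
            calc (√n * supp f w) * (√n * |inner ℝ (b k) (w : Eu n)|) =
                √n * √n * supp f w * |inner ℝ (b k) (w : Eu n)| := by ring
              _ = n * supp f w * |inner ℝ (b k) (w : Eu n)| := by rw [h14]
              _ < _ := by rw [mul_one]; exact h12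
          exact lt_of_mul_lt_mul_left h16 (by positivity)
        · rw [h12, mul_zero]; exact one_pos
      have h17 := b.sum_sq_norm_inner_right (w : Eu n)
      rw [norm_sph, one_pow] at h17
      have h18 : ∑ i, ‖inner ℝ (b i) (w : Eu n)‖ ^ 2 < ∑ i : Fin n, (1 / (n:ℝ)) := by
        have : Nonempty (Fin n) := ⟨⟨0, hn⟩⟩
        refine Finset.sum_lt_sum_of_nonempty Finset.univ_nonempty fun i _ => ?_
        rw [Real.norm_eq_abs, lt_div_iff₀ hn']
        have h19 := h8 i
        have h20 : (√n * |inner ℝ (b i) (w : Eu n)|) ^ 2 < 1 := by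
          have : 0 ≤ √n * |inner ℝ (b i) (w : Eu n)| := by positivity
          nlinarith
        rw [mul_pow, Real.sq_sqrt hn'.le] at h20
        linarith
      rw [h17, Finset.sum_const, Finset.card_univ, Fintype.card_fin, nsmul_eq_mul,
        mul_one_div_cancel hn'.ne'] at h18
      exact lt_irrefl _ h18
    have hE := Real.exp_pos (-T)
    calc Real.exp (-T) / n ^ 2 * supp f v ≤ Real.exp (-T) / n ^ 2 * (n * a ⟨0, hn⟩) := by gcongr
      _ = (Real.exp (-T) * a ⟨0, hn⟩) / n := by field_simp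
      _ ≤ a ⟨n - 1, by omega⟩ / n := by gcongr
      _ ≤ supp f w := by rw [div_le_iff₀ hn']; linarith

end Coer

end Pool.Agent.Lib.MP_b0d2bf_gt
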