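import Mathlib
import Pool.Agent.Lib.MP_b0d2bf_gt.Coer

set_option autoImplicit false

/-!
Existence of a maximiser of the functional.
-/

namespace Pool.Agent.Lib.MP_b0d2bf_gt

open MeasureTheory Metric Set Filter Topology

section Maxi

variable {n : ℕ}

lemma inv_gN_le_mul [NeZero n] {f g : Sph n → ℝ} (hcf : Continuous f) (h0f : ∀ v, 0 < f v)
    (hcg : Continuous g) (h0g : ∀ v, 0 < g v) {l : ℝ} (hl : 0 < l) (h : ∀ v, f v ≤ l * g v)
    (u : Sph n) : (gN f u)⁻¹ ≤ l * (gN g u)⁻¹ := by
  have h1 := gN_le_mul hcf h0f hcg h0g hl h (u : Eu n)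
  have hf := gN_pos hcf h0f (sph_ne_zero u)
  have hg := gN_pos hcg h0g (sph_ne_zero u)
  rw [inv_eq_one_div, ← div_eq_mul_inv, div_le_div_iff₀ hf hg, one_mul]
  exact h1

lemma II_le_mul [NeZero n] {f g : Sph n → ℝ} (hcf : Continuous f) (h0f : ∀ v, 0 < f v)
    (hcg : Continuous g) (h0g : ∀ v, 0 < g v) {q : ℝ} (hq : 0 ≤ q) {l : ℝ} (hl : 0 < l)
    (h : ∀ v, f v ≤ l * g v) : II q f ≤ l ^ q * II q g := by
  unfold II
  rw [← integral_const_mul]
  refine integral_mono (integrable_radpow hcf h0f q) ((integrable_radpow hcg h0g q).const_mul _)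
    fun u => ?_
  show (gN f u)⁻¹ ^ q ≤ l ^ q * (gN g u)⁻¹ ^ q
  have hf := inv_pos.2 (gN_pos hcf h0f (sph_ne_zero u))
  have hg := inv_pos.2 (gN_pos hcg h0g (sph_ne_zero u))
  rw [← Real.mul_rpow hl.le hg.le]
  exact Real.rpow_le_rpow hf.le (inv_gN_le_mul hcf h0f hcg h0g hl h u) hq

/-- continuity estimate for the functional -/
lemma Psi_le_add [NeZero n] (μ : Measure (Sph n)) [IsProbabilityMeasure μ] {q : ℝ} (hq : 0 < q)
    {f g : Sph n → ℝ} (hcf : Continuous f) (h0f : ∀ v, 0 < f v)
    (hcg : Continuous g) (h0g : ∀ v, 0 < g v) {s t : ℝ} (h : ∀ v, f v ≤ Real.exp s * g v)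
    (h' : ∀ v, g v ≤ Real.exp t * f v) : Psi μ q f ≤ Psi μ q g + (s + t) := by
  have h1 := II_le_mul hcf h0f hcg h0g hq.le (Real.exp_pos s) h
  have h2 : Real.log (II q f) ≤ q * s + Real.log (II q g) := by
    refine (Real.log_le_log (II_pos hcf h0f q) h1).trans (le_of_eq ?_)
    rw [Real.log_mul (Real.rpow_pos_of_pos (Real.exp_pos s) q).ne' (II_pos hcg h0g q).ne',
      Real.log_rpow (Real.exp_pos s), Real.log_exp]
  have h3 : ∫ v, Real.log (g v) ∂μ ≤ ∫ v, (t + Real.log (f v)) ∂μ := by
    refine integral_mono (integrable_log hcg h0g μ) ((integrable_const _).add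
      (integrable_log hcf h0f μ)) fun v => ?_
    show Real.log (g v) ≤ t + Real.log (f v)
    refine (Real.log_le_log (h0g v) (h' v)).trans (le_of_eq ?_)
    rw [Real.log_mul (Real.exp_pos t).ne' (h0f v).ne', Real.log_exp]
  rw [integral_add (integrable_const _) (integrable_log hcf h0f μ), integral_const,
    probReal_univ, one_smul] at h3
  unfold Psi
  have h4 : 1 / q * Real.log (II q f) ≤ 1 / q * (q * s + Real.log (II q g)) :=
    mul_le_mul_of_nonneg_left h2 (by positivity)
  have h5 : 1 / q * (q * s + Real.log (II q g)) = s + 1 / q * Real.log (II q g) := by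
    field_simp
  rw [h5] at h4
  linarith

lemma Psi_le_supp [NeZero n] (μ : Measure (Sph n)) [IsProbabilityMeasure μ] {q : ℝ}
    {f : Sph n → ℝ} (hc : Continuous f) (h0 : ∀ v, 0 < f v) : Psi μ q f ≤ Psi μ q (supp f) := by
  have h1 : II q (supp f) = II q f := by
    unfold II
    simp only [gN_supp hc h0]
  have h2 : ∫ v, Real.log (supp f v) ∂μ ≤ ∫ v, Real.log (f v) ∂μ :=
    integral_mono (integrable_log (continuous_supp hc h0) (supp_pos hc h0) μ)
      (integrable_log hc h0 μ) fun v => Real.log_le_log (supp_pos hc h0 v) (supp_le hc h0 v)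
  unfold Psi
  rw [h1]
  linarith

/-- scale invariance -/
lemma Psi_smul [NeZero n] (μ : Measure (Sph n)) [IsProbabilityMeasure μ] {q : ℝ} (hq : 0 < q)
    {f : Sph n → ℝ} (hc : Continuous f) (h0 : ∀ v, 0 < f v) {l : ℝ} (hl : 0 < l) :
    Psi μ q (fun v => l * f v) = Psi μ q f := by
  have hc' : Continuous (fun v => l * f v) := continuous_const.mul hc
  have h0' : ∀ v, 0 < l * f v := fun v => mul_pos hl (h0 v)
  apply le_antisymm
  · have := Psi_le_add μ hq hc' h0' hc h0 (s := Real.log l) (t := - Real.log l)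
      (fun v => by rw [Real.exp_log hl]) (fun v => by
        rw [Real.exp_neg, Real.exp_log hl, inv_mul_cancel_left₀ hl.ne'])
    linarith
  · have := Psi_le_add μ hq hc h0 hc' h0' (s := - Real.log l) (t := Real.log l)
      (fun v => by rw [Real.exp_neg, Real.exp_log hl, inv_mul_cancel_left₀ hl.ne'])
      (fun v => by rw [Real.exp_log hl])
    linarith

open scoped BoundedContinuousFunction

/-- the compact class of functions -/
def cls (n : ℕ) (c : ℝ) : Set (Sph n →ᵇ ℝ) :=
  {f | (∀ v w, |f v - f w| ≤ dist v w) ∧ (∀ v, c ≤ f v ∧ f v ≤ 1) ∧ ∀ v, f (-v) = f v}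

lemma isClosed_cls (c : ℝ) : IsClosed (cls n c) := by
  have hev : ∀ v : Sph n, Continuous (fun f : Sph n →ᵇ ℝ => f v) := fun v =>
    continuous_eval_const v
  have h1 : cls n c = (⋂ v, ⋂ w, {f : Sph n →ᵇ ℝ | |f v - f w| ≤ dist v w}) ∩
      ((⋂ v, {f : Sph n →ᵇ ℝ | c ≤ f v}) ∩ (⋂ v, {f : Sph n →ᵇ ℝ | f v ≤ 1})) ∩
      (⋂ v, {f : Sph n →ᵇ ℝ | f (-v) = f v}) := by
    ext f
    simp only [cls, mem_ofPred_eq, mem_inter_iff, mem_iInter]
    constructor
    · rintro ⟨h1, h2, h3⟩
      exact ⟨⟨h1, fun v => (h2 v).1, fun v => (h2 v).2⟩, h3⟩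
    · rintro ⟨⟨h1, h2, h3⟩, h4⟩
      exact ⟨h1, fun v => ⟨h2 v, h3 v⟩, h4⟩
  rw [h1]
  refine IsClosed.inter (IsClosed.inter ?_ (IsClosed.inter ?_ ?_)) ?_
  · exact isClosed_iInter fun v => isClosed_iInter fun w =>
      isClosed_le ((hev v).sub (hev w)).abs continuous_const
  · exact isClosed_iInter fun v => isClosed_le continuous_const (hev v)
  · exact isClosed_iInter fun v => isClosed_le (hev v) continuous_const
  · exact isClosed_iInter fun v => isClosed_eq (hev _) (hev v)

lemma isCompact_cls (c : ℝ) : IsCompact (cls n c) := by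
  refine BoundedContinuousFunction.arzela_ascoli₂ (Icc c 1) isCompact_Icc _ (isClosed_cls c) ?_ ?_
  · intro f v hf
    exact hf.2.1 v
  · intro v
    rw [Metric.equicontinuousAt_iff]
    intro ε hε
    refine ⟨ε, hε, fun w hw f => ?_⟩
    have := f.2.1 v w
    rw [Real.dist_eq]
    refine this.trans_lt ?_
    rw [dist_comm]
    exact hw

/-- existence of a maximiser -/
theorem exists_max [NeZero n] (μ : Measure (Sph n)) [IsProbabilityMeasure μ] {q : ℝ}
    (hq : (n : ℝ) ≤ q)
    (hL : ∀ L : Submodule ℝ (Eu n), 0 < Module.finrank ℝ L → Module.finrank ℝ L < n →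
      μ.real {v | (v : Eu n) ∈ L} < Module.finrank ℝ L / q) :
    ∃ h : Sph n → ℝ, Continuous h ∧ (∀ v, 0 < h v) ∧ (∀ v, h (-v) = h v) ∧
      (∀ v, supp h v = h v) ∧
      ∀ f : Sph n → ℝ, Continuous f → (∀ v, 0 < f v) → (∀ v, f (-v) = f v) →
        Psi μ q f ≤ Psi μ q h := by
  have hn : 0 < n := NeZero.pos n
  have hn' : (0:ℝ) < n := by exact_mod_cast hn
  have hq0 : 0 < q := hn'.trans_le hq
  obtain ⟨c, hc0, hc1, hratio⟩ := ratio_bound μ hq hL (Psi μ q (fun _ => 1))
  have hne : (cls n c).Nonempty := by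
    refine ⟨BoundedContinuousFunction.const _ 1, ?_, ?_, ?_⟩
    · intro v w; simp
    · intro v; simp [hc1]
    · intro v; simp
  have hcont : ContinuousOn (fun f : Sph n →ᵇ ℝ => Psi μ q f) (cls n c) := by
    have key : ∀ f ∈ cls n c, ∀ g ∈ cls n c, Psi μ q f ≤ Psi μ q g + 2 * (dist f g / c) := by
      intro f hf g hg
      have hpf : ∀ v, 0 < f v := fun v => hc0.trans_le (hf.2.1 v).1
      have hpg : ∀ v, 0 < g v := fun v => hc0.trans_le (hg.2.1 v).1
      have h1 : ∀ (f g : Sph n →ᵇ ℝ), g ∈ cls n c → ∀ v, f v ≤ Real.exp (dist f g / c) * g v := by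
        intro f g hg v
        have h2 : |f v - g v| ≤ dist f g := by
          rw [← Real.dist_eq]; exact BoundedContinuousFunction.dist_coe_le_dist v
        have h3 := (hg.2.1 v).1
        have h4 := Real.add_one_le_exp (dist f g / c)
        have h5 : f v ≤ g v + dist f g := by linarith [le_abs_self (f v - g v)]
        have h6 : dist f g ≤ dist f g / c * g v := by
          rw [div_mul_eq_mul_div, le_div_iff₀ hc0]
          exact mul_le_mul_of_nonneg_left h3 dist_nonneg
        have h7 : 0 < g v := hc0.trans_le h3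
        nlinarith
      have h2 := Psi_le_add μ hq0 f.continuous hpf g.continuous hpg (h1 f g hg) (h1 g f hf)
      rw [dist_comm g f] at h2
      linarith
    intro f hf
    rw [Metric.continuousWithinAt_iff]
    intro ε hε
    refine ⟨ε * c / 4, by positivity, fun {g} hg hgf => ?_⟩
    have h1 := key f hf g hg
    have h2 := key g hg f hf
    rw [dist_comm f g] at h1
    have h3 : dist g f / c < ε / 4 := by
      rw [div_lt_iff₀ hc0]; linarith
    rw [Real.dist_eq, abs_lt]
    constructor <;> linarith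
  obtain ⟨F, hF, hmax⟩ := (isCompact_cls c).exists_isMaxOn hne hcont
  have hF0 : ∀ v, 0 < F v := fun v => hc0.trans_le (hF.2.1 v).1
  have hall : ∀ f : Sph n → ℝ, Continuous f → (∀ v, 0 < f v) → (∀ v, f (-v) = f v) →
      Psi μ q f ≤ Psi μ q F := by
    intro f hc h0 he
    rcases le_total (Psi μ q (fun _ => 1)) (Psi μ q f) with hcase | hcase
    · have hcs := continuous_supp hc h0
      have h0s := supp_pos hc h0
      have h1 := hratio f hc h0 he (hcase.trans (Psi_le_supp μ hc h0))
      obtain ⟨v₀, -, hv₀⟩ := isCompact_univ.exists_isMaxOn (univ_nonempty (α := Sph n))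
        hcs.continuousOn
      set R := supp f v₀ with hR
      have hR0 : 0 < R := h0s v₀
      have hRle : ∀ v, supp f v ≤ R := fun v => hv₀ (mem_univ v)
      have hwR : wulff f ⊆ closedBall 0 R := by
        intro x hx
        rw [mem_closedBall_zero_iff]
        by_cases hx0 : x = 0
        · rw [hx0, norm_zero]; exact hR0.le
        · rw [← inner_dirS x hx0]
          exact (inner_le_supp hc h0 _ hx).trans (hRle _)
      set G : Sph n →ᵇ ℝ := BoundedContinuousFunction.mkOfCompact
        ⟨fun v => R⁻¹ * supp f v, continuous_const.mul hcs⟩ with hG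
      have hGv : ∀ v, G v = R⁻¹ * supp f v := fun v => rfl
      have hGc : G ∈ cls n c := by
        refine ⟨fun v w => ?_, fun v => ?_, fun v => ?_⟩
        · rw [hGv, hGv, ← mul_sub, abs_mul, abs_of_pos (inv_pos.2 hR0), inv_mul_le_iff₀ hR0]
          exact abs_supp_sub_le hc h0 hwR v w
        · rw [hGv]
          constructor
          · rw [le_inv_mul_iff₀ hR0, mul_comm]
            exact h1 v₀ v
          · rw [inv_mul_le_iff₀ hR0, mul_one]
            exact hRle v
        · rw [hGv, hGv, supp_even hc h0 he]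
      calc Psi μ q f ≤ Psi μ q (supp f) := Psi_le_supp μ hc h0
        _ = Psi μ q (fun v => R⁻¹ * supp f v) := (Psi_smul μ hq0 hcs h0s (inv_pos.2 hR0)).symm
        _ = Psi μ q G := rfl
        _ ≤ Psi μ q F := hmax hGc
    · refine hcase.trans ?_
      have : BoundedContinuousFunction.const (Sph n) (1:ℝ) ∈ cls n c := by
        refine ⟨?_, ?_, ?_⟩
        · intro v w; simp
        · intro v; simp [hc1]
        · intro v; simp
      exact hmax this
  refine ⟨supp F, continuous_supp F.continuous hF0, supp_pos F.continuous hF0,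
    supp_even F.continuous hF0 hF.2.2, supp_supp F.continuous hF0, fun f hc h0 he => ?_⟩
  exact (hall f hc h0 he).trans (Psi_le_supp μ F.continuous hF0)

end Maxi

end Pool.Agent.Lib.MP_b0d2bf_gt
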