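import Mathlib
import Pool.Agent.Lib.MP_b0d2bf_gt.Vol

set_option autoImplicit false

/-!
Almost every boundary point of a convex body has a unique exterior normal.
-/

namespace Pool.Agent.Lib.MP_b0d2bf_gt

open MeasureTheory Metric Set Filter Topology
open scoped Pointwise

section Normals

variable {n : ℕ}

/-- `v` realises the gauge function at `u` -/
def IsMx (h : Sph n → ℝ) (u : Eu n) (v : Sph n) : Prop := inner ℝ u (v : Eu n) / h v = gN h u

lemma exists_isMx [NeZero n] {h : Sph n → ℝ} (hc : Continuous h) (h0 : ∀ v, 0 < h v) (u : Eu n) :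
    ∃ v, IsMx h u v := by
  obtain ⟨v, hv⟩ := exists_gN hc h0 u
  exact ⟨v, hv.symm⟩

/-- gradient of the gauge function -/
noncomputable def grd (h : Sph n → ℝ) (u : Eu n) : Eu n :=
  (InnerProductSpace.toDual ℝ (Eu n)).symm (fderiv ℝ (gN h) u)

lemma inner_grd (h : Sph n → ℝ) (u y : Eu n) : inner ℝ (grd h u) y = fderiv ℝ (gN h) u y := by
  unfold grd
  exact InnerProductSpace.toDual_symm_apply

lemma grd_eq {h : Sph n → ℝ} (hc : Continuous h) (h0 : ∀ v, 0 < h v) {u : Eu n}
    (hd : DifferentiableAt ℝ (gN h) u) {v : Sph n} (hv : IsMx h u v) :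
    grd h u = (h v)⁻¹ • (v : Eu n) := by
  have h1 : HasFDerivAt (fun y => gN h y - ((h v)⁻¹ • innerSL ℝ (v : Eu n)) y)
      (fderiv ℝ (gN h) u - (h v)⁻¹ • innerSL ℝ (v : Eu n)) u :=
    hd.hasFDerivAt.sub ((h v)⁻¹ • innerSL ℝ (v : Eu n)).hasFDerivAt
  have hval : ∀ y : Eu n, ((h v)⁻¹ • innerSL ℝ (v : Eu n)) y = inner ℝ y (v : Eu n) / h v := by
    intro y
    rw [_root_.smul_apply, innerSL_apply_apply, smul_eq_mul, real_inner_comm,
      div_eq_inv_mul]
  have h2 : IsLocalMin (fun y => gN h y - ((h v)⁻¹ • innerSL ℝ (v : Eu n)) y) u := by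
    refine Eventually.of_forall fun y => ?_
    show gN h u - ((h v)⁻¹ • innerSL ℝ (v : Eu n)) u ≤ gN h y - ((h v)⁻¹ • innerSL ℝ (v : Eu n)) y
    rw [hval, hval]
    have h3 := le_gN hc h0 y v
    have h4 : inner ℝ u (v : Eu n) / h v = gN h u := hv
    linarith
  have h3 := h2.hasFDerivAt_eq_zero h1
  have h4 : fderiv ℝ (gN h) u = (h v)⁻¹ • innerSL ℝ (v : Eu n) := sub_eq_zero.1 h3
  refine ext_inner_right ℝ fun y => ?_
  rw [inner_grd, h4, inner_smul_left, _root_.smul_apply, innerSL_apply_apply]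
  rfl

/-- direction, with a default value at zero -/
noncomputable def dirT [NeZero n] (x : Eu n) : Sph n := by
  classical exact if hx : x = 0 then Classical.arbitrary _ else dirS x hx

lemma dirT_smul [NeZero n] {t : ℝ} (ht : 0 < t) (v : Sph n) : dirT (t • (v : Eu n)) = v := by
  have h1 : t • (v : Eu n) ≠ 0 := smul_ne_zero ht.ne' (sph_ne_zero v)
  unfold dirT
  rw [dif_neg h1]
  apply Subtype.ext
  unfold dirS
  simp only [norm_smul, norm_sph, mul_one, Real.norm_eq_abs, abs_of_pos ht, smul_smul,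
    inv_mul_cancel₀ ht.ne', one_smul]

lemma measurable_dirT [NeZero n] : Measurable (dirT : Eu n → Sph n) := by
  classical
  have h1 : Measurable (fun x : Eu n => if x = 0 then ((Classical.arbitrary (Sph n) : Sph n) : Eu n)
      else ‖x‖⁻¹ • x) :=
    Measurable.ite (measurableSet_singleton 0) measurable_const
      (measurable_norm.inv.smul measurable_id)
  have h2 : ∀ x : Eu n, ((dirT x : Sph n) : Eu n) =
      if x = 0 then ((Classical.arbitrary (Sph n) : Sph n) : Eu n) else ‖x‖⁻¹ • x := by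
    intro x
    unfold dirT
    by_cases hx : x = 0
    · rw [dif_pos hx, if_pos hx]
    · rw [dif_neg hx, if_neg hx]; rfl
  have h3 : Measurable (fun x : Eu n => ((dirT x : Sph n) : Eu n)) := by
    simp only [h2]; exact h1
  exact h3.subtype_mk

/-- the (almost everywhere defined) radial Gauss map -/
noncomputable def nu [NeZero n] (h : Sph n → ℝ) (u : Sph n) : Sph n := dirT (grd h (u : Eu n))

lemma measurable_nu [NeZero n] (h : Sph n → ℝ) : Measurable (nu h) := by
  unfold nu
  refine measurable_dirT.comp ?_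
  have h1 : Measurable (grd h) :=
    (InnerProductSpace.toDual ℝ (Eu n)).symm.continuous.measurable.comp (measurable_fderiv ℝ (gN h))
  exact h1.comp measurable_subtype_coe

lemma nu_eq [NeZero n] {h : Sph n → ℝ} (hc : Continuous h) (h0 : ∀ v, 0 < h v) {u : Sph n}
    (hd : DifferentiableAt ℝ (gN h) (u : Eu n)) {v : Sph n} (hv : IsMx h u v) : nu h u = v := by
  unfold nu
  rw [grd_eq hc h0 hd hv]
  exact dirT_smul (inv_pos.2 (h0 v)) v

lemma isMx_nu [NeZero n] {h : Sph n → ℝ} (hc : Continuous h) (h0 : ∀ v, 0 < h v) {u : Sph n}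
    (hd : DifferentiableAt ℝ (gN h) (u : Eu n)) : IsMx h u (nu h u) := by
  obtain ⟨v, hv⟩ := exists_isMx hc h0 (u : Eu n)
  rw [nu_eq hc h0 hd hv]
  exact hv

lemma isMx_iff [NeZero n] {h : Sph n → ℝ} (hc : Continuous h) (h0 : ∀ v, 0 < h v) {u : Sph n}
    (hd : DifferentiableAt ℝ (gN h) (u : Eu n)) {v : Sph n} : IsMx h u v ↔ nu h u = v :=
  ⟨fun hv => nu_eq hc h0 hd hv, fun hv => hv ▸ isMx_nu hc h0 hd⟩

/-- differentiability at almost every point of the sphere -/
theorem ae_diff [NeZero n] {h : Sph n → ℝ} (hc : Continuous h) (h0 : ∀ v, 0 < h v) :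
    ∀ᵐ u ∂(sg n), DifferentiableAt ℝ (gN h) ((u : Sph n) : Eu n) := by
  obtain ⟨C, hC⟩ := lipschitz_gN hc h0
  have h1 : ∀ᵐ x : Eu n, DifferentiableAt ℝ (gN h) x := hC.ae_differentiableAt
  have hmeas : MeasurableSet {x : Eu n | DifferentiableAt ℝ (gN h) x} :=
    measurableSet_of_differentiableAt ℝ (gN h)
  rw [ae_iff]
  have hB : MeasurableSet {u : Sph n | ¬ DifferentiableAt ℝ (gN h) (u : Eu n)} :=
    (measurable_subtype_coe hmeas).compl
  unfold sg
  rw [Measure.toSphere_apply' _ hB]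
  have h2 : (volume : Measure (Eu n)) (Ioo (0:ℝ) 1 •
      ((↑) '' {u : Sph n | ¬ DifferentiableAt ℝ (gN h) (u : Eu n)} : Set (Eu n))) = 0 := by
    refine measure_mono_null ?_ (ae_iff.1 h1)
    rintro _ ⟨r, hr, _, ⟨u, hu, rfl⟩, rfl⟩
    intro hcon
    apply hu
    have hr0 : 0 < r := hr.1
    have h3 : DifferentiableAt ℝ (fun y : Eu n => r⁻¹ * gN h (r • y)) (u : Eu n) := by
      refine DifferentiableAt.const_mul ?_ _
      have h4 : DifferentiableAt ℝ (fun y : Eu n => r • y) (u : Eu n) :=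
        differentiableAt_id.const_smul r
      exact DifferentiableAt.comp (g := gN h) (f := fun y : Eu n => r • y) (u : Eu n) hcon h4
    have h5 : (fun y : Eu n => r⁻¹ * gN h (r • y)) = gN h := by
      funext y
      rw [gN_smul hc h0 hr0.le, inv_mul_cancel_left₀ hr0.ne']
    rwa [h5] at h3
  rw [h2, mul_zero]

end Normals

end Pool.Agent.Lib.MP_b0d2bf_gt
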