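import Mathlib
import Pool.Agent.Lib.MP_b0d2bf_gt.Maxi
import Pool.Agent.Lib.MP_b0d2bf_gt.Normals

set_option autoImplicit false

/-!
The variational formula and the Euler-Lagrange equation.
-/

namespace Pool.Agent.Lib.MP_b0d2bf_gt

open MeasureTheory Metric Set Filter Topology

section Deriv

variable {n : ℕ}

/-- multiplicative perturbation -/
noncomputable def ht (h f : Sph n → ℝ) (t : ℝ) (v : Sph n) : ℝ := h v * Real.exp (t * f v)

variable {h f : Sph n → ℝ}

lemma ht_zero (h f : Sph n → ℝ) : ht h f 0 = h := by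
  funext v; unfold ht; simp

lemma continuous_ht (hc : Continuous h) (hf : Continuous f) (t : ℝ) : Continuous (ht h f t) := by
  unfold ht
  exact hc.mul (Real.continuous_exp.comp (continuous_const.mul hf))

lemma ht_pos (h0 : ∀ v, 0 < h v) (t : ℝ) (v : Sph n) : 0 < ht h f t v :=
  mul_pos (h0 v) (Real.exp_pos _)

lemma ht_le (h0 : ∀ v, 0 < h v) {F : ℝ} (hF : ∀ v, |f v| ≤ F) (s t : ℝ) (v : Sph n) :
    ht h f s v ≤ Real.exp (|s - t| * F) * ht h f t v := by
  unfold ht
  have h1 : Real.exp (s * f v) ≤ Real.exp (|s - t| * F) * Real.exp (t * f v) := by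
    rw [← Real.exp_add]
    apply Real.exp_le_exp.2
    have h2 : (s - t) * f v ≤ |s - t| * F := by
      refine (le_abs_self _).trans ?_
      rw [abs_mul]
      exact mul_le_mul_of_nonneg_left (hF v) (abs_nonneg _)
    linarith
  calc h v * Real.exp (s * f v) ≤ h v * (Real.exp (|s - t| * F) * Real.exp (t * f v)) :=
        mul_le_mul_of_nonneg_left h1 (h0 v).le
    _ = _ := by ring

/-- envelope theorem -/
lemma hasDerivAt_log_gN [NeZero n] (hc : Continuous h) (h0 : ∀ v, 0 < h v) (hf : Continuous f)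
    {u : Sph n} {v₀ : Sph n} (hv₀ : IsMx h u v₀) (huniq : ∀ v, IsMx h u v → v = v₀) :
    HasDerivAt (fun t => Real.log (gN (ht h f t) u)) (- f v₀) 0 := by
  obtain ⟨F, hF⟩ : ∃ F, ∀ v, |f v| ≤ F := by
    obtain ⟨w, -, hw⟩ := isCompact_univ.exists_isMaxOn (univ_nonempty (α := Sph n))
      hf.abs.continuousOn
    exact ⟨|f w|, fun v => hw (mem_univ v)⟩
  have hF0 : 0 ≤ F := (abs_nonneg _).trans (hF v₀)
  choose w hw using fun t : ℝ => exists_gN (continuous_ht hc hf t) (ht_pos h0 t) (u : Eu n)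
  have hN0 : 0 < gN h u := gN_pos hc h0 (sph_ne_zero u)
  have hNt : ∀ t, 0 < gN (ht h f t) u := fun t =>
    gN_pos (continuous_ht hc hf t) (ht_pos h0 t) (sph_ne_zero u)
  have hquot : ∀ (t : ℝ) (v : Sph n), inner ℝ (u : Eu n) (v : Eu n) / ht h f t v =
      inner ℝ (u : Eu n) (v : Eu n) / h v * Real.exp (-(t * f v)) := by
    intro t v
    unfold ht
    rw [Real.exp_neg]
    have := (h0 v).ne'
    have := (Real.exp_pos (t * f v)).ne'
    field_simp
  have hup : ∀ t, gN (ht h f t) u ≤ gN h u * Real.exp (-(t * f (w t))) := by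
    intro t
    rw [hw t, hquot]
    exact mul_le_mul_of_nonneg_right (le_gN hc h0 u (w t)) (Real.exp_pos _).le
  have hlow : ∀ t, gN h u * Real.exp (-(t * f v₀)) ≤ gN (ht h f t) u := by
    intro t
    have h1 := le_gN (continuous_ht hc hf t) (ht_pos h0 t) (u : Eu n) v₀
    rw [hquot] at h1
    have h2 : inner ℝ (u : Eu n) (v₀ : Eu n) / h v₀ = gN h u := hv₀
    rwa [h2] at h1
  -- the maximisers converge
  have hconv : Tendsto w (𝓝 0) (𝓝 v₀) := by
    rw [_root_.tendsto_nhds]
    intro U hU hv₀U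
    show ∀ᶠ t in 𝓝 0, w t ∈ U
    by_cases hne : (Uᶜ).Nonempty
    · obtain ⟨x, hxU, hx⟩ := hU.isClosed_compl.isCompact.exists_isMaxOn hne
        (cont_quot hc h0 (u : Eu n)).continuousOn
      have hlt : inner ℝ (u : Eu n) (x : Eu n) / h x < gN h u := by
        refine lt_of_le_of_ne (le_gN hc h0 u x) fun heq => ?_
        have := huniq x heq
        rw [this] at hxU
        exact hxU hv₀U
      have hlim : Tendsto (fun t : ℝ => inner ℝ (u : Eu n) (x : Eu n) / h x *
          Real.exp (2 * (|t| * F))) (𝓝 0) (𝓝 (inner ℝ (u : Eu n) (x : Eu n) / h x)) := by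
        have : Continuous (fun t : ℝ => inner ℝ (u : Eu n) (x : Eu n) / h x *
          Real.exp (2 * (|t| * F))) := by fun_prop
        have h1 := this.tendsto 0
        simpa using h1
      filter_upwards [hlim.eventually (gt_mem_nhds hlt)] with t ht1
      by_contra hcon
      have h2 : inner ℝ (u : Eu n) (w t : Eu n) / h (w t) ≤
          inner ℝ (u : Eu n) (x : Eu n) / h x := hx hcon
      have h3 := hlow t
      rw [hw t, hquot] at h3
      have h4 : Real.exp (-(|t| * F)) ≤ Real.exp (-(t * f v₀)) := by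
        apply Real.exp_le_exp.2
        have : t * f v₀ ≤ |t| * F := by
          refine (le_abs_self _).trans ?_
          rw [abs_mul]
          exact mul_le_mul_of_nonneg_left (hF v₀) (abs_nonneg _)
        linarith
      have h5 : Real.exp (-(t * f (w t))) ≤ Real.exp (|t| * F) := by
        apply Real.exp_le_exp.2
        have : -(t * f (w t)) ≤ |t| * F := by
          refine (neg_le_abs _).trans ?_
          rw [abs_mul]
          exact mul_le_mul_of_nonneg_left (hF (w t)) (abs_nonneg _)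
        exact this
      have h6 : 0 < inner ℝ (u : Eu n) (w t : Eu n) / h (w t) := by
        have h7 := hNt t
        rw [hw t, hquot] at h7
        exact (pos_iff_pos_of_mul_pos h7).2 (Real.exp_pos _)
      have h7 : gN h u * Real.exp (-(|t| * F)) ≤
          inner ℝ (u : Eu n) (x : Eu n) / h x * Real.exp (|t| * F) := by
        calc gN h u * Real.exp (-(|t| * F)) ≤ gN h u * Real.exp (-(t * f v₀)) :=
              mul_le_mul_of_nonneg_left h4 hN0.le
          _ ≤ inner ℝ (u : Eu n) (w t : Eu n) / h (w t) * Real.exp (-(t * f (w t))) := h3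
          _ ≤ inner ℝ (u : Eu n) (x : Eu n) / h x * Real.exp (|t| * F) :=
              mul_le_mul h2 h5 (Real.exp_pos _).le (h6.le.trans h2)
      have h8 : gN h u ≤ inner ℝ (u : Eu n) (x : Eu n) / h x * Real.exp (2 * (|t| * F)) := by
        have h9 := mul_le_mul_of_nonneg_right h7 (Real.exp_pos (|t| * F)).le
        rw [mul_assoc, ← Real.exp_add, neg_add_cancel, Real.exp_zero, mul_one, mul_assoc,
          ← Real.exp_add] at h9
        rw [two_mul]
        exact h9
      linarith
    · rw [not_nonempty_iff_eq_empty, compl_empty_iff] at hne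
      rw [hne]
      exact Eventually.of_forall fun t => mem_univ _
  have hfw : Tendsto (fun t => |f (w t) - f v₀|) (𝓝[≠] 0) (𝓝 0) := by
    have h1 : Tendsto (fun t => f (w t)) (𝓝 0) (𝓝 (f v₀)) := (hf.tendsto v₀).comp hconv
    have h2 := (h1.sub_const (f v₀)).abs
    rw [sub_self, abs_zero] at h2
    exact h2.mono_left nhdsWithin_le_nhds
  rw [hasDerivAt_iff_tendsto_slope_zero]
  rw [tendsto_iff_norm_sub_tendsto_zero]
  refine squeeze_zero' (Eventually.of_forall fun t => norm_nonneg _) ?_ hfw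
  filter_upwards [self_mem_nhdsWithin] with t ht0
  have ht0' : t ≠ 0 := ht0
  rw [zero_add, ht_zero, smul_eq_mul, Real.norm_eq_abs]
  have e1 : Real.log (gN (ht h f t) u) ≤ Real.log (gN h u) - t * f (w t) := by
    have := Real.log_le_log (hNt t) (hup t)
    rw [Real.log_mul hN0.ne' (Real.exp_pos _).ne', Real.log_exp] at this
    linarith
  have e2 : Real.log (gN h u) - t * f v₀ ≤ Real.log (gN (ht h f t) u) := by
    have := Real.log_le_log (mul_pos hN0 (Real.exp_pos _)) (hlow t)
    rw [Real.log_mul hN0.ne' (Real.exp_pos _).ne', Real.log_exp] at this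
    linarith
  have e3 : |Real.log (gN (ht h f t) u) - Real.log (gN h u) + t * f v₀| ≤
      |t| * |f (w t) - f v₀| := by
    rw [← abs_mul]
    rw [abs_of_nonneg (by linarith)]
    refine le_trans ?_ (neg_le_abs _)
    linarith
  have e4 : t⁻¹ * (Real.log (gN (ht h f t) u) - Real.log (gN h u)) - -f v₀ =
      t⁻¹ * (Real.log (gN (ht h f t) u) - Real.log (gN h u) + t * f v₀) := by
    field_simp
    ring
  rw [e4, abs_mul, abs_inv, inv_mul_le_iff₀ (abs_pos.2 ht0')]
  exact e3

lemma hasDerivAt_radpow [NeZero n] (hc : Continuous h) (h0 : ∀ v, 0 < h v) (hf : Continuous f)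
    (q : ℝ) {u : Sph n} {v₀ : Sph n} (hv₀ : IsMx h u v₀) (huniq : ∀ v, IsMx h u v → v = v₀) :
    HasDerivAt (fun t => (gN (ht h f t) u)⁻¹ ^ q) (q * f v₀ * (gN h u)⁻¹ ^ q) 0 := by
  have h1 := hasDerivAt_log_gN hc h0 hf hv₀ huniq
  have h2 := (h1.const_mul (-q)).exp
  have h3 : (fun t => Real.exp (-q * Real.log (gN (ht h f t) u))) =
      fun t => (gN (ht h f t) u)⁻¹ ^ q := by
    funext t
    have hNt : 0 < gN (ht h f t) u :=
      gN_pos (continuous_ht hc hf t) (ht_pos h0 t) (sph_ne_zero u)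
    rw [Real.rpow_def_of_pos (inv_pos.2 hNt), Real.log_inv]
    congr 1; ring
  rw [h3] at h2
  convert! h2 using 1
  rw [ht_zero, Real.rpow_def_of_pos (inv_pos.2 (gN_pos hc h0 (sph_ne_zero u))), Real.log_inv]
  have : -Real.log (gN h u) * q = -q * Real.log (gN h u) := by ring
  rw [this]
  ring

lemma exp_sub_one_le {x y : ℝ} (hx : 0 ≤ x) (hxy : x ≤ y) : Real.exp x - 1 ≤ x * Real.exp y := by
  have h1 := Real.add_one_le_exp (-x)
  have h2 : Real.exp x ≤ Real.exp y := Real.exp_le_exp.2 hxy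
  have h3 : Real.exp (-x) * Real.exp x = 1 := by rw [← Real.exp_add]; simp
  have h4 : (-x + 1) * Real.exp x ≤ 1 :=
    (mul_le_mul_of_nonneg_right h1 (Real.exp_pos x).le).trans h3.le
  have h5 : x * Real.exp x ≤ x * Real.exp y := mul_le_mul_of_nonneg_left h2 hx
  linarith

/-- the variational formula -/
theorem hasDerivAt_II [NeZero n] (hc : Continuous h) (h0 : ∀ v, 0 < h v) (hf : Continuous f)
    {q : ℝ} (hq : 0 < q) :
    HasDerivAt (fun t => II q (ht h f t))
      (∫ u : Sph n, q * f (nu h u) * (gN h u)⁻¹ ^ q ∂(sg n)) 0 := by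
  obtain ⟨F, hF0, hF⟩ : ∃ F, 0 < F ∧ ∀ v, |f v| ≤ F := by
    obtain ⟨w, -, hw⟩ := isCompact_univ.exists_isMaxOn (univ_nonempty (α := Sph n))
      hf.abs.continuousOn
    exact ⟨|f w| + 1, by positivity, fun v => (hw (mem_univ v)).trans (by linarith)⟩
  have hct := fun t => continuous_ht (n := n) hc hf t
  have h0t := fun t v => ht_pos (f := f) h0 t v
  have hcomp : ∀ (s t : ℝ) (u : Sph n), (gN (ht h f s) u)⁻¹ ^ q ≤
      Real.exp (q * (|s - t| * F)) * (gN (ht h f t) u)⁻¹ ^ q := by
    intro s t u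
    have h1 := inv_gN_le_mul (hct s) (h0t s) (hct t) (h0t t) (Real.exp_pos (|s - t| * F))
      (ht_le h0 hF s t) u
    have h2 := inv_pos.2 (gN_pos (hct s) (h0t s) (sph_ne_zero u))
    have h3 := inv_pos.2 (gN_pos (hct t) (h0t t) (sph_ne_zero u))
    refine (Real.rpow_le_rpow h2.le h1 hq.le).trans (le_of_eq ?_)
    rw [Real.mul_rpow (Real.exp_pos _).le h3.le, ← Real.exp_mul]
    congr 2; ring
  have hlip : ∀ u : Sph n, LipschitzOnWith
      (Real.nnabs (q * F * Real.exp (q * (2 * F)) * (Real.exp (q * F) * (gN h u)⁻¹ ^ q)))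
      (fun t => (gN (ht h f t) u)⁻¹ ^ q) (ball 0 1) := by
    intro u
    have hρ0 : 0 < (gN h u)⁻¹ ^ q :=
      Real.rpow_pos_of_pos (inv_pos.2 (gN_pos hc h0 (sph_ne_zero u))) q
    have key : ∀ s ∈ ball (0:ℝ) 1, ∀ t ∈ ball (0:ℝ) 1, (gN (ht h f s) u)⁻¹ ^ q -
        (gN (ht h f t) u)⁻¹ ^ q ≤
        q * F * Real.exp (q * (2 * F)) * (Real.exp (q * F) * (gN h u)⁻¹ ^ q) * |s - t| := by
      intro s hs t htb
      rw [mem_ball_zero_iff, Real.norm_eq_abs] at hs htb
      have h1 := hcomp s t u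
      have h2 := hcomp t 0 u
      rw [ht_zero, sub_zero] at h2
      have hst : |s - t| ≤ 2 := (abs_sub _ _).trans (by linarith)
      have h3 : Real.exp (q * (|t| * F)) ≤ Real.exp (q * F) := by
        apply Real.exp_le_exp.2
        have : |t| * F ≤ 1 * F := mul_le_mul_of_nonneg_right htb.le hF0.le
        nlinarith
      have h4 : (gN (ht h f t) u)⁻¹ ^ q ≤ Real.exp (q * F) * (gN h u)⁻¹ ^ q :=
        h2.trans (mul_le_mul_of_nonneg_right h3 hρ0.le)
      have h5 : Real.exp (q * (|s - t| * F)) - 1 ≤ q * (|s - t| * F) * Real.exp (q * (2 * F)) :=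
        exp_sub_one_le (by positivity) (by
          have : |s - t| * F ≤ 2 * F := mul_le_mul_of_nonneg_right hst hF0.le
          nlinarith)
      have hρt : 0 < (gN (ht h f t) u)⁻¹ ^ q :=
        Real.rpow_pos_of_pos (inv_pos.2 (gN_pos (hct t) (h0t t) (sph_ne_zero u))) q
      calc (gN (ht h f s) u)⁻¹ ^ q - (gN (ht h f t) u)⁻¹ ^ q
          ≤ (Real.exp (q * (|s - t| * F)) - 1) * (gN (ht h f t) u)⁻¹ ^ q := by linarith
        _ ≤ (q * (|s - t| * F) * Real.exp (q * (2 * F))) * (gN (ht h f t) u)⁻¹ ^ q :=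
            mul_le_mul_of_nonneg_right h5 hρt.le
        _ ≤ (q * (|s - t| * F) * Real.exp (q * (2 * F))) * (Real.exp (q * F) * (gN h u)⁻¹ ^ q) :=
            mul_le_mul_of_nonneg_left h4 (by positivity)
        _ = _ := by ring
    refine LipschitzOnWith.of_dist_le_mul fun s hs t htb => ?_
    rw [Real.dist_eq, Real.dist_eq, Real.coe_nnabs]
    rw [abs_of_nonneg (a := q * F * Real.exp (q * (2 * F)) * (Real.exp (q * F) * (gN h u)⁻¹ ^ q))
      (by positivity)]
    rw [abs_le]
    constructor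
    · have := key t htb s hs
      rw [abs_sub_comm] at this
      linarith
    · exact key s hs t htb
  have hmain := hasDerivAt_integral_of_dominated_loc_of_lip (𝕜 := ℝ) (μ := sg n)
    (F := fun t (u : Sph n) => (gN (ht h f t) u)⁻¹ ^ q)
    (F' := fun u : Sph n => q * f (nu h u) * (gN h u)⁻¹ ^ q) (x₀ := 0) (s := ball 0 1)
    (bound := fun u : Sph n => q * F * Real.exp (q * (2 * F)) * (Real.exp (q * F) * (gN h u)⁻¹ ^ q))
    (ball_mem_nhds 0 one_pos)
    (Eventually.of_forall fun t => (continuous_radpow (hct t) (h0t t) q).aestronglyMeasurable)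
    (integrable_radpow (hct 0) (h0t 0) q)
    (((hf.measurable.comp (measurable_nu h)).const_mul q).mul
      (continuous_radpow hc h0 q).measurable).aestronglyMeasurable
    (Eventually.of_forall hlip)
    (((integrable_radpow hc h0 q).const_mul _).const_mul _)
    (by
      filter_upwards [ae_diff hc h0] with u hu
      exact hasDerivAt_radpow hc h0 hf q (isMx_nu hc h0 hu)
        (fun v hv => ((isMx_iff hc h0 hu).1 hv).symm))
  exact hmain.2

/-- Euler-Lagrange equation for even test functions -/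
theorem euler_even [NeZero n] (μ : Measure (Sph n)) [IsProbabilityMeasure μ] {q : ℝ} (hq : 0 < q)
    (hc : Continuous h) (h0 : ∀ v, 0 < h v) (he : ∀ v, h (-v) = h v)
    (hmax : ∀ f : Sph n → ℝ, Continuous f → (∀ v, 0 < f v) → (∀ v, f (-v) = f v) →
        Psi μ q f ≤ Psi μ q h)
    (hf : Continuous f) (hfe : ∀ v, f (-v) = f v) :
    ∫ u : Sph n, f (nu h u) * (gN h u)⁻¹ ^ q ∂(sg n) = II q h * ∫ v, f v ∂μ := by
  have h1 := hasDerivAt_II hc h0 hf hq
  have hpos : 0 < II q h := II_pos hc h0 q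
  have h2 : HasDerivAt (fun t => (1 / q) * Real.log (II q (ht h f t)) -
      (∫ v, Real.log (h v) ∂μ + t * ∫ v, f v ∂μ))
      ((1 / q) * ((∫ u : Sph n, q * f (nu h u) * (gN h u)⁻¹ ^ q ∂(sg n)) / II q h) -
        ∫ v, f v ∂μ) 0 := by
    have h3 := (h1.log (by rw [ht_zero]; exact hpos.ne')).const_mul (1 / q)
    rw [ht_zero] at h3
    have h4 : HasDerivAt (fun t : ℝ => ∫ v, Real.log (h v) ∂μ + t * ∫ v, f v ∂μ)
        (∫ v, f v ∂μ) 0 := by
      have h5 := (hasDerivAt_id (0:ℝ)).mul_const (∫ v, f v ∂μ)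
      rw [one_mul] at h5
      exact h5.const_add _
    exact h3.sub h4
  have h3 : ∀ t, Psi μ q (ht h f t) = (1 / q) * Real.log (II q (ht h f t)) -
      (∫ v, Real.log (h v) ∂μ + t * ∫ v, f v ∂μ) := by
    intro t
    unfold Psi
    congr 1
    have h4 : ∀ v, Real.log (ht h f t v) = Real.log (h v) + t * f v := by
      intro v
      unfold ht
      rw [Real.log_mul (h0 v).ne' (Real.exp_pos _).ne', Real.log_exp]
    simp only [h4]
    have hfi : Integrable f μ :=
      hf.integrable_of_hasCompactSupport (HasCompactSupport.of_compactSpace _)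
    rw [integral_add (integrable_log hc h0 μ) (hfi.const_mul t), integral_const_mul]
  have h4 : IsLocalMax (fun t => (1 / q) * Real.log (II q (ht h f t)) -
      (∫ v, Real.log (h v) ∂μ + t * ∫ v, f v ∂μ)) 0 := by
    refine Eventually.of_forall fun t => ?_
    show (1 / q) * Real.log (II q (ht h f t)) - (∫ v, Real.log (h v) ∂μ + t * ∫ v, f v ∂μ) ≤
      (1 / q) * Real.log (II q (ht h f 0)) - (∫ v, Real.log (h v) ∂μ + 0 * ∫ v, f v ∂μ)
    rw [← h3, ← h3, ht_zero]
    exact hmax _ (continuous_ht hc hf t) (ht_pos h0 t) (fun v => by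
      unfold ht; rw [he, hfe])
  have h5 := h4.hasDerivAt_eq_zero h2
  have h6 : ∫ u : Sph n, q * f (nu h u) * (gN h u)⁻¹ ^ q ∂(sg n) =
      q * ∫ u : Sph n, f (nu h u) * (gN h u)⁻¹ ^ q ∂(sg n) := by
    rw [← integral_const_mul]
    refine integral_congr_ae (Eventually.of_forall fun u => ?_)
    show q * f (nu h u) * (gN h u)⁻¹ ^ q = q * (f (nu h u) * (gN h u)⁻¹ ^ q)
    ring
  rw [h6] at h5
  have h7 : (1 / q) * (q * (∫ u : Sph n, f (nu h u) * (gN h u)⁻¹ ^ q ∂(sg n)) / II q h) =
      (∫ u : Sph n, f (nu h u) * (gN h u)⁻¹ ^ q ∂(sg n)) / II q h := by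
    field_simp
  rw [h7, sub_eq_zero, div_eq_iff hpos.ne'] at h5
  rw [h5]
  ring

end Deriv

end Pool.Agent.Lib.MP_b0d2bf_gt
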