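import Mathlib
import Pool.Agent.Lib.MP_b0d2bf_gt.Defs
import Pool.Agent.Lib.MP_b0d2bf_gt.Deriv

set_option autoImplicit false

/-!
Existence of origin-symmetric solutions of the dual Minkowski problem under the subspace mass
inequality.
-/

namespace Pool.Agent.Lib.MP_b0d2bf_gt

open MeasureTheory Metric Set Filter Topology
open scoped Pointwise

section Final

variable {n : ℕ}

/-- the surface measure is invariant under the antipodal map -/
lemma map_neg_sg [NeZero n] : Measure.map (fun u : Sph n => -u) (sg n) = sg n := by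
  have hm : Measurable (fun u : Sph n => -u) := continuous_neg.measurable
  ext s hs
  rw [Measure.map_apply hm hs]
  unfold sg
  rw [Measure.toSphere_apply' _ (hm hs), Measure.toSphere_apply' _ hs]
  congr 1
  rw [← Measure.measure_neg (volume : Measure (Eu n)) (Ioo (0:ℝ) 1 • ((↑) '' s : Set (Eu n)))]
  congr 1
  ext x
  constructor
  · rintro ⟨r, hr, _, ⟨u, hu, rfl⟩, rfl⟩
    rw [Set.mem_neg]
    exact ⟨r, hr, _, ⟨-u, hu, rfl⟩, by simp [coe_neg_sphere]⟩
  · intro hx
    rw [Set.mem_neg] at hx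
    obtain ⟨r, hr, _, ⟨u, hu, rfl⟩, hxu⟩ := hx
    refine ⟨r, hr, _, ⟨-u, by simpa using hu, rfl⟩, ?_⟩
    have hxu' : r • (u : Eu n) = -x := hxu
    show r • ((-u : Sph n) : Eu n) = x
    rw [coe_neg_sphere, smul_neg, hxu', neg_neg]

lemma gN_neg [NeZero n] {h : Sph n → ℝ} (hc : Continuous h) (h0 : ∀ v, 0 < h v)
    (he : ∀ v, h (-v) = h v) (x : Eu n) : gN h (-x) = gN h x := by
  have key : ∀ y : Eu n, gN h (-y) ≤ gN h y := by
    intro y
    obtain ⟨v, hv⟩ := exists_gN hc h0 (-y)
    rw [hv, inner_neg_left, ← inner_neg_right, ← coe_neg_sphere, ← he v]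
    exact le_gN hc h0 y (-v)
  apply le_antisymm (key x)
  have := key (-x)
  rwa [neg_neg] at this

lemma diff_neg [NeZero n] {h : Sph n → ℝ} (hc : Continuous h) (h0 : ∀ v, 0 < h v)
    (he : ∀ v, h (-v) = h v) {x : Eu n} (hd : DifferentiableAt ℝ (gN h) x) :
    DifferentiableAt ℝ (gN h) (-x) := by
  have h1 : (fun y : Eu n => gN h (-y)) = gN h := funext fun y => gN_neg hc h0 he y
  have h2 : DifferentiableAt ℝ (fun y : Eu n => -y) (-x) := differentiableAt_id.neg
  have h3 : DifferentiableAt ℝ (gN h) (-(-x)) := by rwa [neg_neg]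
  have h4 := DifferentiableAt.comp (g := gN h) (f := fun y : Eu n => -y) (-x) h3 h2
  have h5 : (gN h ∘ fun y : Eu n => -y) = gN h := h1
  rwa [h5] at h4

lemma nu_neg [NeZero n] {h : Sph n → ℝ} (hc : Continuous h) (h0 : ∀ v, 0 < h v)
    (he : ∀ v, h (-v) = h v) {u : Sph n} (hd : DifferentiableAt ℝ (gN h) (u : Eu n)) :
    nu h (-u) = - nu h u := by
  have h1 : DifferentiableAt ℝ (gN h) ((-u : Sph n) : Eu n) := by
    rw [coe_neg_sphere]; exact diff_neg hc h0 he hd
  rw [← isMx_iff hc h0 h1]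
  have h2 : IsMx h u (nu h u) := isMx_nu hc h0 hd
  unfold IsMx at h2 ⊢
  rw [coe_neg_sphere, coe_neg_sphere, inner_neg_neg, he, gN_neg hc h0 he]
  exact h2

/-- Euler-Lagrange equation for all continuous test functions -/
theorem euler_all [NeZero n] (μ : Measure (Sph n)) [IsProbabilityMeasure μ] {q : ℝ} (hq : 0 < q)
    (hμe : Measure.map (fun u : Sph n => -u) μ = μ) {h : Sph n → ℝ}
    (hc : Continuous h) (h0 : ∀ v, 0 < h v) (he : ∀ v, h (-v) = h v)
    (hmax : ∀ f : Sph n → ℝ, Continuous f → (∀ v, 0 < f v) → (∀ v, f (-v) = f v) →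
        Psi μ q f ≤ Psi μ q h) {f : Sph n → ℝ} (hf : Continuous f) :
    ∫ u : Sph n, f (nu h u) * (gN h u)⁻¹ ^ q ∂(sg n) = II q h * ∫ v, f v ∂μ := by
  have hm : Measurable (fun u : Sph n => -u) := continuous_neg.measurable
  have hfn : Continuous (fun v : Sph n => f (-v)) := hf.comp continuous_neg
  have hfi : ∀ (ν : Measure (Sph n)) [IsFiniteMeasure ν] (g : Sph n → ℝ), Continuous g →
      Integrable g ν := fun ν _ g hg =>
    hg.integrable_of_hasCompactSupport (HasCompactSupport.of_compactSpace _)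
  have hint : ∀ g : Sph n → ℝ, Continuous g →
      Integrable (fun u : Sph n => g (nu h u) * (gN h u)⁻¹ ^ q) (sg n) := by
    intro g hg
    obtain ⟨C, hC⟩ := isCompact_univ.exists_bound_of_continuousOn (f := g) hg.continuousOn
    refine (integrable_radpow hc h0 q).bdd_mul
      (hg.measurable.comp (measurable_nu h)).aestronglyMeasurable
      (Eventually.of_forall fun u => hC (nu h u) (mem_univ _))
  have h1 : ∫ u : Sph n, f (nu h u) * (gN h u)⁻¹ ^ q ∂(sg n) =
      ∫ u : Sph n, f (- nu h u) * (gN h u)⁻¹ ^ q ∂(sg n) := by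
    conv_lhs => rw [← map_neg_sg]
    rw [integral_map hm.aemeasurable]
    · refine integral_congr_ae ?_
      filter_upwards [ae_diff hc h0] with u hu
      rw [nu_neg hc h0 he hu, coe_neg_sphere, gN_neg hc h0 he]
    · exact ((hf.measurable.comp (measurable_nu h)).mul
        (continuous_radpow hc h0 q).measurable).aestronglyMeasurable
  have h2 : ∫ v, f (-v) ∂μ = ∫ v, f v ∂μ := by
    conv_rhs => rw [← hμe]
    rw [integral_map hm.aemeasurable hf.aestronglyMeasurable]
  have h3 := euler_even μ hq hc h0 he hmax (f := fun v => f v + f (-v)) (hf.add hfn)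
    (fun v => by rw [neg_neg, add_comm])
  have h4 : ∫ u : Sph n, (f (nu h u) + f (- nu h u)) * (gN h u)⁻¹ ^ q ∂(sg n) =
      ∫ u : Sph n, f (nu h u) * (gN h u)⁻¹ ^ q ∂(sg n) +
      ∫ u : Sph n, f (- nu h u) * (gN h u)⁻¹ ^ q ∂(sg n) := by
    rw [← integral_add (hint f hf) (hint _ hfn)]
    refine integral_congr_ae (Eventually.of_forall fun u => ?_)
    show (f (nu h u) + f (- nu h u)) * (gN h u)⁻¹ ^ q = f (nu h u) * (gN h u)⁻¹ ^ q +
      f (- nu h u) * (gN h u)⁻¹ ^ q
    ring
  rw [h4, integral_add (hfi μ f hf) (hfi μ _ hfn), h2, ← h1] at h3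
  linarith

lemma II_smul [NeZero n] {q : ℝ} (hq : 0 < q) {f : Sph n → ℝ} (hc : Continuous f)
    (h0 : ∀ v, 0 < f v) {l : ℝ} (hl : 0 < l) : II q (fun v => l * f v) = l ^ q * II q f := by
  have hc' : Continuous (fun v => l * f v) := continuous_const.mul hc
  have h0' : ∀ v, 0 < l * f v := fun v => mul_pos hl (h0 v)
  apply le_antisymm
  · exact II_le_mul hc' h0' hc h0 hq.le hl fun v => le_rfl
  · have h1 := II_le_mul hc h0 hc' h0' hq.le (inv_pos.2 hl)
      fun v => by rw [inv_mul_cancel_left₀ hl.ne']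
    rw [Real.inv_rpow hl.le, le_inv_mul_iff₀ (Real.rpow_pos_of_pos hl q)] at h1
    exact h1

lemma supp_smul [NeZero n] {f : Sph n → ℝ} (hc : Continuous f)
    (h0 : ∀ v, 0 < f v) (hs : ∀ v, supp f v = f v) {l : ℝ} (hl : 0 < l) (v : Sph n) :
    supp (fun v => l * f v) v = l * f v := by
  have hc' : Continuous (fun v => l * f v) := continuous_const.mul hc
  have h0' : ∀ v, 0 < l * f v := fun v => mul_pos hl (h0 v)
  apply le_antisymm (supp_le hc' h0' v)
  obtain ⟨x, hx, hxv, -⟩ := exists_supp hc h0 v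
  have h1 : l • x ∈ wulff (fun v => l * f v) := by
    intro w
    rw [inner_smul_left]
    exact mul_le_mul_of_nonneg_left (hx w) hl.le
  have h2 := inner_le_supp hc' h0' v h1
  rw [inner_smul_left, ← hxv, hs] at h2
  exact h2

lemma radial_wulff [NeZero n] {h : Sph n → ℝ} (hc : Continuous h) (h0 : ∀ v, 0 < h v)
    (u : Sph n) : radial (wulff h) u = (gN h u)⁻¹ := by
  have hN := gN_pos hc h0 (sph_ne_zero u)
  refine IsGreatest.csSup_eq ⟨bd_mem_wulff hc h0 u, fun r hr => ?_⟩
  by_cases h1 : r ≤ 0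
  · exact h1.trans (inv_pos.2 hN).le
  · rw [not_le] at h1
    have h2 : r • (u : Eu n) ∈ wulff h := hr
    rw [mem_wulff_iff hc h0, gN_smul hc h0 h1.le] at h2
    rw [← one_div, le_div_iff₀ hN]
    exact h2

lemma isNormal_iff [NeZero n] {h : Sph n → ℝ} (hc : Continuous h) (h0 : ∀ v, 0 < h v)
    (hs : ∀ v, supp h v = h v) (u v : Sph n) :
    IsNormal (wulff h) (radial (wulff h) u • (u : Eu n)) v ↔ IsMx h u v := by
  have hN := gN_pos hc h0 (sph_ne_zero u)
  rw [radial_wulff hc h0]
  constructor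
  · intro hv
    obtain ⟨x, hx, hxv, -⟩ := exists_supp hc h0 v
    have h1 := hv x hx
    rw [← hxv, hs, inner_smul_left] at h1
    have h2 : h v ≤ (gN h u)⁻¹ * inner ℝ (u : Eu n) (v : Eu n) := h1
    refine le_antisymm (le_gN hc h0 u v) ?_
    rw [le_div_iff₀ (h0 v)]
    rw [le_inv_mul_iff₀ hN] at h2
    exact h2
  · intro hv y hy
    have h1 : inner ℝ (u : Eu n) (v : Eu n) / h v = gN h u := hv
    have h2 : inner ℝ ((gN h u)⁻¹ • (u : Eu n)) (v : Eu n) = h v := by
      rw [inner_smul_left]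
      show (gN h u)⁻¹ * inner ℝ (u : Eu n) (v : Eu n) = h v
      rw [div_eq_iff (h0 v).ne'] at h1
      rw [h1, inv_mul_cancel_left₀ hN.ne']
    rw [h2]
    exact hy v

/-- the main existence theorem -/
theorem exists_body [NeZero n] {q : ℝ} (hq : (n : ℝ) ≤ q) (μ : Measure (Sph n))
    [IsFiniteMeasure μ] (hμ0 : μ ≠ 0)
    (hμe : ∀ ω, MeasurableSet ω → μ {v | -v ∈ ω} = μ ω)
    (hL : ∀ L : Submodule ℝ (Eu n), L ≠ ⊥ → L ≠ ⊤ →
      μ.real {v | (v : Eu n) ∈ L} < Module.finrank ℝ L / q * μ.real univ) :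
    ∃ K : Set (Eu n), IsSymBody K ∧ ∀ ω, MeasurableSet ω →
      NullMeasurableSet (invGauss K ω) ((volume : Measure (Eu n)).toSphere) ∧
      dualCurv q K ω = μ ω := by
  have hn : 0 < n := NeZero.pos n
  have hn' : (0:ℝ) < n := by exact_mod_cast hn
  have hq0 : 0 < q := hn'.trans_le hq
  have hm : Measurable (fun u : Sph n => -u) := continuous_neg.measurable
  have huniv : μ univ ≠ 0 := fun h => hμ0 (Measure.measure_univ_eq_zero.1 h)
  have huniv' : μ univ ≠ ⊤ := measure_ne_top _ _
  have hm0 : 0 < μ.real univ := ENNReal.toReal_pos huniv huniv'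
  set ν : Measure (Sph n) := (μ univ)⁻¹ • μ with hν
  haveI hνp : IsProbabilityMeasure ν := ⟨by
    rw [hν, Measure.smul_apply, smul_eq_mul, ENNReal.inv_mul_cancel huniv huniv']⟩
  have hνr : ∀ s, ν.real s = μ.real s / μ.real univ := by
    intro s
    rw [hν, measureReal_ennreal_smul_apply, ENNReal.toReal_inv]
    rw [div_eq_inv_mul]
    rfl
  have hνe : Measure.map (fun u : Sph n => -u) ν = ν := by
    ext s hs
    rw [Measure.map_apply hm hs, hν, Measure.smul_apply, Measure.smul_apply]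
    congr 1
    exact hμe s hs
  have hνL : ∀ L : Submodule ℝ (Eu n), 0 < Module.finrank ℝ L → Module.finrank ℝ L < n →
      ν.real {v | (v : Eu n) ∈ L} < Module.finrank ℝ L / q := by
    intro L h1 h2
    rw [hνr, div_lt_iff₀ hm0]
    apply hL L
    · rintro rfl; simp at h1
    · rintro rfl
      rw [finrank_top, finrank_euclideanSpace_fin] at h2
      exact lt_irrefl _ h2
  obtain ⟨g, hgc, hg0, hge, hgs, hgmax⟩ := exists_max ν hq hνL
  have hIpos := II_pos hgc hg0 q
  set l : ℝ := (n * μ.real univ / II q g) ^ (1 / q) with hl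
  have hl0 : 0 < l := Real.rpow_pos_of_pos (by positivity) _
  set h : Sph n → ℝ := fun v => l * g v with hh
  have hc : Continuous h := continuous_const.mul hgc
  have h0 : ∀ v, 0 < h v := fun v => mul_pos hl0 (hg0 v)
  have he : ∀ v, h (-v) = h v := fun v => by simp only [hh, hge]
  have hs : ∀ v, supp h v = h v := fun v => supp_smul hgc hg0 hgs hl0 v
  have hmax : ∀ f : Sph n → ℝ, Continuous f → (∀ v, 0 < f v) → (∀ v, f (-v) = f v) →
        Psi ν q f ≤ Psi ν q h := by
    intro f hfc hf0 hfe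
    rw [hh, Psi_smul ν hq0 hgc hg0 hl0]
    exact hgmax f hfc hf0 hfe
  have hII : II q h = n * μ.real univ := by
    rw [hh, II_smul hq0 hgc hg0 hl0, hl, ← Real.rpow_mul (by positivity), one_div,
      inv_mul_cancel₀ hq0.ne', Real.rpow_one, div_mul_cancel₀ _ hIpos.ne']
  -- the pushed forward measure
  have hρ0 : ∀ u : Sph n, 0 ≤ (gN h u)⁻¹ ^ q := fun u =>
    (Real.rpow_pos_of_pos (inv_pos.2 (gN_pos hc h0 (sph_ne_zero u))) q).le
  have hdens : Measurable (fun u : Sph n => Real.toNNReal ((gN h u)⁻¹ ^ q)) :=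
    (continuous_radpow hc h0 q).measurable.real_toNNReal
  set M : Measure (Sph n) := Measure.map (nu h)
    ((sg n).withDensity (fun u : Sph n => (Real.toNNReal ((gN h u)⁻¹ ^ q) : ENNReal))) with hM
  haveI : IsFiniteMeasure ((sg n).withDensity
      (fun u : Sph n => (Real.toNNReal ((gN h u)⁻¹ ^ q) : ENNReal))) := by
    refine isFiniteMeasure_withDensity_ofReal ?_
    exact (integrable_radpow hc h0 q).2
  have hMμ : M = (n : ENNReal) • μ := by
    haveI : IsFiniteMeasure ((n : ENNReal) • μ) :=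
      ⟨by rw [Measure.smul_apply, smul_eq_mul]
          exact ENNReal.mul_lt_top (ENNReal.natCast_lt_top n) (measure_lt_top _ _)⟩
    refine ext_of_forall_integral_eq_of_IsFiniteMeasure fun f => ?_
    rw [hM, integral_map (measurable_nu h).aemeasurable f.continuous.aestronglyMeasurable,
      integral_withDensity_eq_integral_smul hdens, integral_smul_measure]
    have h1 := euler_all ν hq0 hνe hc h0 he hmax f.continuous
    rw [hII, hν, integral_smul_measure, ENNReal.toReal_inv] at h1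
    have h2 : ∫ u : Sph n, Real.toNNReal ((gN h u)⁻¹ ^ q) • f (nu h u) ∂(sg n) =
        ∫ u : Sph n, f (nu h u) * (gN h u)⁻¹ ^ q ∂(sg n) := by
      refine integral_congr_ae (Eventually.of_forall fun u => ?_)
      show Real.toNNReal ((gN h u)⁻¹ ^ q) • f (nu h u) = f (nu h u) * (gN h u)⁻¹ ^ q
      rw [NNReal.smul_def, Real.coe_toNNReal _ (hρ0 u), smul_eq_mul, mul_comm]
    rw [h2, h1, ENNReal.toReal_natCast, smul_eq_mul, smul_eq_mul]
    have h3 : (μ univ).toReal = μ.real univ := rfl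
    rw [h3]
    field_simp
  refine ⟨wulff h, ⟨convex_wulff, isCompact_wulff hc h0, ⟨0, interior_wulff hc h0⟩,
    fun x hx => neg_mem_wulff he hx⟩, fun ω hω => ?_⟩
  have hae : invGauss (wulff h) ω =ᵐ[sg n] nu h ⁻¹' ω := by
    filter_upwards [ae_diff hc h0] with u hu
    apply propext
    constructor
    · rintro ⟨v, hv, hnv⟩
      rw [isNormal_iff hc h0 hs, isMx_iff hc h0 hu] at hnv
      show nu h u ∈ ω
      rw [hnv]; exact hv
    · intro hv
      exact ⟨nu h u, hv, (isNormal_iff hc h0 hs u _).2 (isMx_nu hc h0 hu)⟩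
  constructor
  · exact (measurable_nu h hω).nullMeasurableSet.congr hae.symm
  · unfold dualCurv
    have h1 : ∫⁻ u in invGauss (wulff h) ω, ENNReal.ofReal (radial (wulff h) u ^ q)
        ∂((volume : Measure (Eu n)).toSphere) = M ω := by
      rw [hM, Measure.map_apply (measurable_nu h) hω,
        withDensity_apply _ (measurable_nu h hω)]
      have h2 := Measure.restrict_congr_set hae
      unfold sg at h2
      rw [h2]
      simp only [radial_wulff hc h0]
      rfl
    rw [h1, hMμ, Measure.smul_apply, smul_eq_mul, ← mul_assoc,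
      ENNReal.inv_mul_cancel (by exact_mod_cast hn.ne') (ENNReal.natCast_ne_top n), one_mul]

end Final

end Pool.Agent.Lib.MP_b0d2bf_gt
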