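import Mathlib
import Pool.Agent.Lib.MP_b0d2bf_gt.Final

set_option autoImplicit false

/-!
Every origin-symmetric convex body is the Wulff shape of its support function.
-/

namespace Pool.Agent.Lib.MP_b0d2bf_gt

open MeasureTheory Metric Set Filter Topology
open scoped Pointwise

section Conv

variable {n : ℕ}

lemma IsSymBody.ball_sub {K : Set (Eu n)} (hK : IsSymBody K) : ∃ c > 0, closedBall 0 c ⊆ K := by
  obtain ⟨x, hx⟩ := hK.int
  have h0 : (0 : Eu n) ∈ interior K := by
    have hx' : -x ∈ K := hK.symm x (interior_subset hx)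
    have h1 := hK.convex.combo_interior_self_mem_interior hx hx' (a := 1/2) (b := 1/2)
      (by norm_num) (by norm_num) (by norm_num)
    simpa using h1
  rw [mem_interior_iff_mem_nhds, Metric.mem_nhds_iff] at h0
  obtain ⟨ε, hε, hb⟩ := h0
  exact ⟨ε / 2, by positivity, (closedBall_subset_ball (by linarith)).trans hb⟩

/-- the support function of a body -/
noncomputable def sup' (K : Set (Eu n)) (v : Sph n) : ℝ :=
  sSup ((fun x : Eu n => inner ℝ x (v : Eu n)) '' K)

theorem exists_supp_of_body [NeZero n] {K : Set (Eu n)} (hK : IsSymBody K) :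
    ∃ h : Sph n → ℝ, Continuous h ∧ (∀ v, 0 < h v) ∧ (∀ v, h (-v) = h v) ∧
      (∀ v, supp h v = h v) ∧ K = wulff h := by
  obtain ⟨c, hc0, hcK⟩ := hK.ball_sub
  have hne : K.Nonempty := ⟨0, hcK (by simp [hc0.le])⟩
  have hcont : ∀ v : Sph n, ContinuousOn (fun x : Eu n => inner ℝ x (v : Eu n)) K :=
    fun v => (continuous_id.inner continuous_const).continuousOn
  have hle : ∀ v : Sph n, ∀ y ∈ K, inner ℝ y (v : Eu n) ≤ sup' K v := fun v y hy =>
    le_csSup (hK.compact.bddAbove_image (hcont v)) ⟨y, hy, rfl⟩
  have hex : ∀ v : Sph n, ∃ x ∈ K, sup' K v = inner ℝ x (v : Eu n) := by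
    intro v
    obtain ⟨x, hx, h1⟩ := hK.compact.exists_sSup_image_eq hne (hcont v)
    exact ⟨x, hx, h1⟩
  obtain ⟨R, hR⟩ := hK.compact.isBounded.subset_closedBall (0 : Eu n)
  have hR0 : 0 ≤ R := by
    have := hR (hcK (show (0 : Eu n) ∈ closedBall 0 c by simp [hc0.le]))
    simpa using this
  have hlip : ∀ v w : Sph n, sup' K v - sup' K w ≤ R * dist v w := by
    intro v w
    obtain ⟨x, hx, h1⟩ := hex v
    have h3 := hle w x hx
    rw [h1]
    have h4 : inner ℝ x (v : Eu n) - inner ℝ x (w : Eu n) ≤ R * dist v w := by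
      rw [← inner_sub_right]
      refine (real_inner_le_norm _ _).trans ?_
      rw [Subtype.dist_eq, dist_eq_norm]
      exact mul_le_mul_of_nonneg_right (mem_closedBall_zero_iff.1 (hR hx)) (norm_nonneg _)
    linarith
  have hc : Continuous (sup' K) := by
    have : LipschitzWith ⟨R, hR0⟩ (sup' K) :=
      LipschitzWith.of_dist_le_mul fun x y => by
        rw [Real.dist_eq, abs_le]
        have h1 := hlip x y
        have h2 := hlip y x
        rw [dist_comm] at h2
        constructor
        · show -(R * dist x y) ≤ sup' K x - sup' K y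
          linarith
        · exact h1
    exact this.continuous
  have h0 : ∀ v, 0 < sup' K v := by
    intro v
    have h1 : c • (v : Eu n) ∈ K := by
      apply hcK
      rw [mem_closedBall_zero_iff, norm_smul, norm_sph, mul_one, Real.norm_eq_abs,
        abs_of_pos hc0]
    have h2 := hle v _ h1
    rw [inner_smul_left, real_inner_self_eq_norm_sq, norm_sph, one_pow, mul_one] at h2
    exact hc0.trans_le h2
  have he : ∀ v, sup' K (-v) = sup' K v := by
    have key : ∀ w : Sph n, sup' K (-w) ≤ sup' K w := by
      intro w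
      obtain ⟨x, hx, h1⟩ := hex (-w)
      rw [h1, coe_neg_sphere, inner_neg_right, ← inner_neg_left]
      exact hle w _ (hK.symm x hx)
    intro v
    apply le_antisymm (key v)
    have := key (-v)
    rwa [neg_neg] at this
  have hW : K = wulff (sup' K) := by
    ext x
    constructor
    · intro hx v
      exact hle v x hx
    · intro hx
      by_contra hxK
      obtain ⟨f, u, hf1, hf2⟩ := geometric_hahn_banach_closed_point hK.convex
        hK.compact.isClosed hxK
      set y : Eu n := (InnerProductSpace.toDual ℝ (Eu n)).symm f with hy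
      have hfy : ∀ z : Eu n, f z = inner ℝ z y := by
        intro z
        rw [real_inner_comm, hy, InnerProductSpace.toDual_symm_apply]
      have hu0 : 0 < u := by
        have := hf1 0 (hcK (by simp [hc0.le]))
        simpa using this
      have hy0 : y ≠ 0 := by
        intro h
        rw [hfy, h, inner_zero_right] at hf2
        linarith
      have hyn : 0 < ‖y‖ := norm_pos_iff.2 hy0
      have h1 := hx (dirS y hy0)
      obtain ⟨z, hz, hz1⟩ := hex (dirS y hy0)
      rw [hz1] at h1
      have h2 : ∀ w : Eu n, inner ℝ w (dirS y hy0 : Eu n) = ‖y‖⁻¹ * f w := by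
        intro w
        rw [hfy]
        unfold dirS
        rw [inner_smul_right]
      rw [h2, h2] at h1
      have h3 := hf1 z hz
      have h4 : f x ≤ f z := by
        have := mul_le_mul_of_nonneg_left h1 hyn.le
        rwa [mul_inv_cancel_left₀ hyn.ne', mul_inv_cancel_left₀ hyn.ne'] at this
      linarith
  refine ⟨sup' K, hc, h0, he, fun v => ?_, hW⟩
  unfold supp
  rw [← hW]
  rfl

end Conv

end Pool.Agent.Lib.MP_b0d2bf_gt
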