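import Mathlib
import Pool.Agent.Lib.MP_b0d2bf_gt.Gauge

set_option autoImplicit false

/-!
Integration in coordinates `(x₀, x₁, z)` of `ℝ^(m+2)`.
-/

namespace Pool.Agent.Lib.MP_b0d2bf_gt

open MeasureTheory Metric Set Filter Topology

section Coord

variable {m : ℕ}

lemma lint_coord {F : ℝ → ℝ → (Fin m → ℝ) → ENNReal}
    (hF : Measurable (fun x : ℝ × ℝ × (Fin m → ℝ) => F x.1 x.2.1 x.2.2)) :
    ∫⁻ x : Eu (m + 2), F (x 0) (x 1) (fun i => x i.succ.succ) =
      ∫⁻ a : ℝ, ∫⁻ b : ℝ, ∫⁻ z : Fin m → ℝ, F a b z := by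
  have h1 : ∫⁻ x : Eu (m + 2), F (x 0) (x 1) (fun i => x i.succ.succ) =
      ∫⁻ y : Fin (m + 2) → ℝ, F (y 0) (y 1) (fun i => y i.succ.succ) := by
    have hm : Measurable (fun y : Fin (m + 2) → ℝ => F (y 0) (y 1) (fun i => y i.succ.succ)) := by
      have : Measurable (fun y : Fin (m + 2) → ℝ =>
        ((y 0, y 1, fun i : Fin m => y i.succ.succ) : ℝ × ℝ × (Fin m → ℝ))) := by fun_prop
      exact hF.comp this
    rw [← (PiLp.volume_preserving_ofLp (Fin (m + 2))).lintegral_comp hm]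
  have h2 : ∫⁻ y : Fin (m + 2) → ℝ, F (y 0) (y 1) (fun i => y i.succ.succ) =
      ∫⁻ y : ℝ × (Fin (m + 1) → ℝ), F y.1 (y.2 0) (fun i => y.2 i.succ) := by
    have hm : Measurable (fun y : ℝ × (Fin (m + 1) → ℝ) =>
        F y.1 (y.2 0) (fun i => y.2 i.succ)) := by
      have : Measurable (fun y : ℝ × (Fin (m + 1) → ℝ) =>
        ((y.1, y.2 0, fun i : Fin m => y.2 i.succ) : ℝ × ℝ × (Fin m → ℝ))) := by fun_prop
      exact hF.comp this
    rw [← (volume_preserving_piFinSuccAbove (fun _ : Fin (m + 2) => ℝ) 0).lintegral_comp hm]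
    rfl
  have h3 : ∀ a : ℝ, ∫⁻ y : Fin (m + 1) → ℝ, F a (y 0) (fun i => y i.succ) =
      ∫⁻ b : ℝ, ∫⁻ z : Fin m → ℝ, F a b z := by
    intro a
    have hm : Measurable (fun y : ℝ × (Fin m → ℝ) => F a y.1 y.2) := by
      have : Measurable (fun y : ℝ × (Fin m → ℝ) => ((a, y.1, y.2) : ℝ × ℝ × (Fin m → ℝ))) := by
        fun_prop
      exact hF.comp this
    have h4 : ∫⁻ y : Fin (m + 1) → ℝ, F a (y 0) (fun i => y i.succ) =
        ∫⁻ y : ℝ × (Fin m → ℝ), F a y.1 y.2 := by
      rw [← (volume_preserving_piFinSuccAbove (fun _ : Fin (m + 1) => ℝ) 0).lintegral_comp hm]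
      rfl
    rw [h4, Measure.volume_eq_prod, lintegral_prod _ hm.aemeasurable]
  rw [h1, h2, Measure.volume_eq_prod, lintegral_prod]
  · exact lintegral_congr h3
  · have hm : Measurable (fun y : ℝ × (Fin (m + 1) → ℝ) =>
        F y.1 (y.2 0) (fun i => y.2 i.succ)) := by
      have : Measurable (fun y : ℝ × (Fin (m + 1) → ℝ) =>
        ((y.1, y.2 0, fun i : Fin m => y.2 i.succ) : ℝ × ℝ × (Fin m → ℝ))) := by fun_prop
      exact hF.comp this
    exact hm.aemeasurable

/-- the cross-section set -/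
def sect (R : ℝ → ℝ → Prop) (lam : ℝ → ℝ → ℝ) (t : Fin m → ℝ) : Set (Eu (m + 2)) :=
  {x | R (x 0) (x 1) ∧ ∀ i : Fin m, |x i.succ.succ| ≤ lam (x 0) (x 1) * t i}

lemma lint_sect {R : ℝ → ℝ → Prop} (hR : MeasurableSet {x : ℝ × ℝ | R x.1 x.2})
    {lam : ℝ → ℝ → ℝ} (hlam : Measurable (fun x : ℝ × ℝ => lam x.1 x.2)) (t : Fin m → ℝ)
    {f : ℝ → ℝ → ENNReal} (hf : Measurable (fun x : ℝ × ℝ => f x.1 x.2)) :
    MeasurableSet (sect R lam t) ∧
    ∫⁻ x in sect R lam t, f (x 0) (x 1) =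
      ∫⁻ a : ℝ, ∫⁻ b : ℝ, {x : ℝ × ℝ | R x.1 x.2}.indicator (fun x => f x.1 x.2) (a, b) *
        ∏ i, ENNReal.ofReal (2 * (lam a b * t i)) := by
  classical
  have hm01 : Measurable (fun x : Eu (m + 2) => ((x 0, x 1) : ℝ × ℝ)) := by fun_prop
  have hS : MeasurableSet (sect R lam t) := by
    have e1 : sect R lam t = ((fun x : Eu (m + 2) => ((x 0, x 1) : ℝ × ℝ)) ⁻¹'
        {x : ℝ × ℝ | R x.1 x.2}) ∩ ⋂ i : Fin m, {x : Eu (m + 2) |
          |x i.succ.succ| ≤ lam (x 0) (x 1) * t i} := by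
      ext x
      simp only [sect, mem_ofPred_eq, mem_inter_iff, mem_preimage, mem_iInter]
    rw [e1]
    refine (hm01 hR).inter (MeasurableSet.iInter fun i => ?_)
    refine measurableSet_le (by fun_prop) ?_
    exact (hlam.comp hm01).mul measurable_const
  refine ⟨hS, ?_⟩
  set F : ℝ → ℝ → (Fin m → ℝ) → ENNReal := fun a b z =>
    {x : ℝ × ℝ | R x.1 x.2}.indicator (fun x => f x.1 x.2) (a, b) *
      (Icc (fun i => -(lam a b * t i)) (fun i => lam a b * t i)).indicator (fun _ => 1) z with hFd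
  have hF : Measurable (fun x : ℝ × ℝ × (Fin m → ℝ) => F x.1 x.2.1 x.2.2) := by
    have hm2 : Measurable (fun x : ℝ × ℝ × (Fin m → ℝ) => ((x.1, x.2.1) : ℝ × ℝ)) := by fun_prop
    refine Measurable.mul ?_ ?_
    · exact (hf.indicator hR).comp hm2
    · have e2 : (fun x : ℝ × ℝ × (Fin m → ℝ) =>
          (Icc (fun i => -(lam x.1 x.2.1 * t i)) (fun i => lam x.1 x.2.1 * t i)).indicator
            (fun _ => (1 : ENNReal)) x.2.2) =
          {x : ℝ × ℝ × (Fin m → ℝ) | ∀ i, |x.2.2 i| ≤ lam x.1 x.2.1 * t i}.indicator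
            (fun _ => (1 : ENNReal)) := by
        funext x
        by_cases hx : ∀ i, |x.2.2 i| ≤ lam x.1 x.2.1 * t i
        · rw [indicator_of_mem (show x ∈ {x : ℝ × ℝ × (Fin m → ℝ) |
            ∀ i, |x.2.2 i| ≤ lam x.1 x.2.1 * t i} from hx), indicator_of_mem]
          exact ⟨fun i => (abs_le.1 (hx i)).1, fun i => (abs_le.1 (hx i)).2⟩
        · rw [indicator_of_notMem (show x ∉ {x : ℝ × ℝ × (Fin m → ℝ) |
            ∀ i, |x.2.2 i| ≤ lam x.1 x.2.1 * t i} from hx), indicator_of_notMem]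
          intro hx2
          exact hx fun i => abs_le.2 ⟨hx2.1 i, hx2.2 i⟩
      rw [e2]
      refine measurable_const.indicator ?_
      have e3 : {x : ℝ × ℝ × (Fin m → ℝ) | ∀ i, |x.2.2 i| ≤ lam x.1 x.2.1 * t i} =
          ⋂ i, {x : ℝ × ℝ × (Fin m → ℝ) | |x.2.2 i| ≤ lam x.1 x.2.1 * t i} := by
        ext x; simp
      rw [e3]
      refine MeasurableSet.iInter fun i => measurableSet_le (by fun_prop) ?_
      exact (hlam.comp hm2).mul measurable_const
  rw [← lintegral_indicator hS]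
  have h1 : ∀ x : Eu (m + 2), (sect R lam t).indicator (fun x => f (x 0) (x 1)) x =
      F (x 0) (x 1) (fun i => x i.succ.succ) := by
    intro x
    rw [hFd]
    by_cases hx1 : R (x 0) (x 1)
    · by_cases hx2 : ∀ i : Fin m, |x i.succ.succ| ≤ lam (x 0) (x 1) * t i
      · rw [indicator_of_mem (show x ∈ sect R lam t from ⟨hx1, hx2⟩)]
        simp only
        rw [indicator_of_mem (show (x 0, x 1) ∈ {x : ℝ × ℝ | R x.1 x.2} from hx1),
          indicator_of_mem, mul_one]
        exact ⟨fun i => (abs_le.1 (hx2 i)).1, fun i => (abs_le.1 (hx2 i)).2⟩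
      · rw [indicator_of_notMem (show x ∉ sect R lam t from fun h => hx2 h.2)]
        simp only
        rw [indicator_of_notMem (s := Icc _ _), mul_zero]
        intro h
        exact hx2 fun i => abs_le.2 ⟨h.1 i, h.2 i⟩
    · rw [indicator_of_notMem (show x ∉ sect R lam t from fun h => hx1 h.1)]
      simp only
      rw [indicator_of_notMem (show (x 0, x 1) ∉ {x : ℝ × ℝ | R x.1 x.2} from hx1), zero_mul]
  rw [lintegral_congr h1, lint_coord hF]
  refine lintegral_congr fun a => lintegral_congr fun b => ?_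
  rw [hFd]
  simp only
  rw [lintegral_const_mul _ (measurable_const.indicator measurableSet_Icc),
    lintegral_indicator measurableSet_Icc, lintegral_one, Measure.restrict_apply_univ,
    Real.volume_Icc_pi]
  congr 1
  refine Finset.prod_congr rfl fun i _ => ?_
  congr 1
  ring

/-- affine change of variables on the line -/
lemma lint_affine (c : ℝ) {r : ℝ} (hr : 0 ≤ r) {f : ℝ → ENNReal} (hf : Measurable f) :
    ∫⁻ a in Icc (c - r) (c + r), f a =
      ENNReal.ofReal r * ∫⁻ t in Icc (-1:ℝ) 1, f (c + r * t) := by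
  rcases eq_or_lt_of_le hr with h0 | h0
  · rw [← h0, ENNReal.ofReal_zero, zero_mul, sub_zero, add_zero, Icc_self]
    simp
  · have h1 := Real.map_volume_mul_left h0.ne'
    rw [abs_of_pos (inv_pos.2 h0)] at h1
    set g : ℝ → ENNReal := (Icc (c - r) (c + r)).indicator f with hg
    have hgm : Measurable g := hf.indicator measurableSet_Icc
    have h2 : ∫⁻ t in Icc (-1:ℝ) 1, f (c + r * t) = ∫⁻ t, g (c + r * t) := by
      rw [← lintegral_indicator measurableSet_Icc]
      refine lintegral_congr fun t => ?_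
      by_cases ht : t ∈ Icc (-1:ℝ) 1
      · rw [indicator_of_mem ht, hg, indicator_of_mem]
        constructor
        · nlinarith [ht.1]
        · nlinarith [ht.2]
      · rw [indicator_of_notMem ht, hg, indicator_of_notMem]
        intro hcon
        apply ht
        constructor
        · have := hcon.1
          nlinarith
        · have := hcon.2
          nlinarith
    have h3 : ∫⁻ t, g (c + r * t) = ENNReal.ofReal r⁻¹ * ∫⁻ y, g y := by
      have h4 : ∫⁻ t, g (c + r * t) = ∫⁻ y, g (c + y) ∂(Measure.map (r * ·) volume) := by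
        have hgm' : Measurable (fun y => g (c + y)) := hgm.comp (measurable_const_add c)
        rw [lintegral_map hgm' (measurable_const_mul r)]
      rw [h4, h1, lintegral_smul_measure, smul_eq_mul,
        lintegral_add_left_eq_self (fun y => g y) c]
    rw [h2, h3, ← mul_assoc, ← ENNReal.ofReal_mul hr, mul_inv_cancel₀ h0.ne', ENNReal.ofReal_one,
      one_mul, hg, lintegral_indicator measurableSet_Icc]

/-- lintegral of a nonnegative continuous function over an interval -/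
lemma lint_interval {f : ℝ → ℝ} (hf : Continuous f) {a b : ℝ} (hab : a ≤ b)
    (h0 : ∀ x ∈ Icc a b, 0 ≤ f x) :
    ∫⁻ x in Icc a b, ENNReal.ofReal (f x) = ENNReal.ofReal (∫ x in a..b, f x) := by
  rw [intervalIntegral.integral_of_le hab, ← integral_Icc_eq_integral_Ioc,
    ofReal_integral_eq_lintegral_ofReal (hf.integrableOn_Icc)]
  filter_upwards [ae_restrict_mem measurableSet_Icc] with x hx using h0 x hx

lemma norm_sq_coord (x : Eu (m + 2)) :
    ‖x‖ ^ 2 = x 0 ^ 2 + x 1 ^ 2 + ∑ i : Fin m, x i.succ.succ ^ 2 := by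
  rw [EuclideanSpace.norm_sq_eq, Fin.sum_univ_succ, Fin.sum_univ_succ]
  simp only [Real.norm_eq_abs, sq_abs]
  exact (_root_.add_assoc (x 0 ^ 2) (x 1 ^ 2) (∑ i : Fin m, x i.succ.succ ^ 2)).symm

lemma norm_rpow_eq (p : ℝ) (x : Eu (m + 2)) :
    ‖x‖ ^ p = (x 0 ^ 2 + x 1 ^ 2 + ∑ i : Fin m, x i.succ.succ ^ 2) ^ (p / 2) := by
  rw [← norm_sq_coord, ← Real.rpow_natCast ‖x‖ 2, ← Real.rpow_mul (norm_nonneg _)]
  congr 1
  push_cast; ring

end Coord

end Pool.Agent.Lib.MP_b0d2bf_gt
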