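import Mathlib

set_option autoImplicit false

/-!
A planar inequality: integrals of powers of the norm over parallelograms.
-/

namespace Pool.Agent.Lib.MP_b0d2bf_gt

open MeasureTheory Metric Set Filter Topology

section Planar

/-- the function `(A s² + D)^(p/2)` -/
noncomputable def psi (p A D s : ℝ) : ℝ := (A * s ^ 2 + D) ^ (p / 2)

lemma continuous_psi {p : ℝ} (hp : 0 < p) (A D : ℝ) : Continuous (psi p A D) := by
  unfold psi
  exact ((continuous_const.mul (continuous_id.pow 2)).add continuous_const).rpow_const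
    fun _ => Or.inr (by positivity)

lemma psi_neg (p A D s : ℝ) : psi p A D (-s) = psi p A D s := by
  unfold psi; rw [neg_sq]

lemma psi_scale {p A D : ℝ} (hp : 0 < p) (hA : 0 ≤ A) (hD : 0 ≤ D) {s b : ℝ} (hs : 0 ≤ s)
    (hsb : s ≤ b) (hb : 0 < b) : (s / b) ^ p * psi p A D b ≤ psi p A D s := by
  unfold psi
  have h1 : (s / b) ^ p = ((s / b) ^ 2) ^ (p / 2) := by
    rw [← Real.rpow_natCast (s / b) 2, ← Real.rpow_mul (by positivity)]
    congr 1
    push_cast; ring
  rw [h1, ← Real.mul_rpow (by positivity) (by positivity)]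
  refine Real.rpow_le_rpow (by positivity) ?_ (by positivity)
  have h2 : (s / b) ^ 2 ≤ 1 := by
    have : s / b ≤ 1 := by rw [div_le_one hb]; exact hsb
    exact pow_le_one₀ (by positivity) this
  have h3 : (s / b) ^ 2 * (A * b ^ 2) = A * s ^ 2 := by
    field_simp
  rw [mul_add, h3]
  nlinarith

lemma ray_aux {p A D : ℝ} (hp : 0 < p) (hA : 0 ≤ A) (hD : 0 ≤ D) {a b : ℝ} (ha : 0 ≤ a)
    (hab : a ≤ b) : b * psi p A D b - a * psi p A D a ≤ (p + 1) * ∫ s in a..b, psi p A D s := by
  rcases eq_or_lt_of_le (ha.trans hab) with hb | hb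
  · have ha' : a = 0 := le_antisymm (hb ▸ hab) ha
    rw [ha', ← hb]
    simp
  have h1 : ∫ s in a..b, (s / b) ^ p * psi p A D b ≤ ∫ s in a..b, psi p A D s := by
    refine intervalIntegral.integral_mono_on hab ?_ ?_ ?_
    · refine Continuous.intervalIntegrable ?_ _ _
      exact ((continuous_id.div_const b).rpow_const fun _ => Or.inr hp.le).mul continuous_const
    · exact (continuous_psi hp A D).intervalIntegrable _ _
    · intro s hs
      exact psi_scale hp hA hD (ha.trans hs.1) hs.2 hb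
  have h2 : ∫ s in a..b, (s / b) ^ p * psi p A D b =
      (b ^ (p + 1) - a ^ (p + 1)) / (p + 1) * (b ^ p)⁻¹ * psi p A D b := by
    rw [intervalIntegral.integral_mul_const]
    congr 1
    have h3 : ∫ s in a..b, (s / b) ^ p = ∫ s in a..b, s ^ p * (b ^ p)⁻¹ := by
      refine intervalIntegral.integral_congr fun s hs => ?_
      rw [uIcc_of_le hab] at hs
      show (s / b) ^ p = s ^ p * (b ^ p)⁻¹
      rw [Real.div_rpow (ha.trans hs.1) hb.le, div_eq_mul_inv]
    rw [h3, intervalIntegral.integral_mul_const, integral_rpow (Or.inl (by linarith))]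
  have h4 := psi_scale hp hA hD ha hab hb
  have h5 : b ^ (p + 1) = b ^ p * b := by rw [Real.rpow_add hb, Real.rpow_one]
  have h6 : a ^ (p + 1) = a ^ p * a := by
    rw [Real.rpow_add_one' ha (by linarith)]
  have hbp : 0 < b ^ p := Real.rpow_pos_of_pos hb p
  rw [h2, h5, h6] at h1
  rw [Real.div_rpow ha hb.le] at h4
  have h7 := mul_le_mul_of_nonneg_left h4 ha
  have h8 : (p + 1) * ((b ^ p * b - a ^ p * a) / (p + 1) * (b ^ p)⁻¹ * psi p A D b) =
      b * psi p A D b - a * (a ^ p / b ^ p * psi p A D b) := by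
    field_simp
  have h9 := mul_le_mul_of_nonneg_left h1 (by linarith : (0:ℝ) ≤ p + 1)
  rw [h8] at h9
  linarith

lemma ray_sym {p A D : ℝ} (hp : 0 < p) (hA : 0 ≤ A) (hD : 0 ≤ D) (m : ℝ) :
    (1 + m) * psi p A D (1 + m) + (1 - m) * psi p A D (1 - m) ≤
      (p + 1) * ∫ s in (-1 - m)..(1 - m), psi p A D s := by
  have hneg : ∀ a b : ℝ, ∫ s in (-b)..(-a), psi p A D s = ∫ s in a..b, psi p A D s := by
    intro a b
    rw [← intervalIntegral.integral_comp_neg]
    refine intervalIntegral.integral_congr fun s _ => psi_neg p A D s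
  have key : ∀ m : ℝ, 0 ≤ m → (1 + m) * psi p A D (1 + m) + (1 - m) * psi p A D (1 - m) ≤
      (p + 1) * ∫ s in (-1 - m)..(1 - m), psi p A D s := by
    intro m hm
    have hci : ∀ a b : ℝ, IntervalIntegrable (psi p A D) volume a b := fun a b =>
      (continuous_psi hp A D).intervalIntegrable _ _
    by_cases hm1 : m ≤ 1
    · rw [← intervalIntegral.integral_add_adjacent_intervals (hci _ 0) (hci 0 _)]
      have h1 : ∫ s in (-1 - m)..0, psi p A D s = ∫ s in (0:ℝ)..(1 + m), psi p A D s := by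
        rw [← hneg]
        congr 1 <;> ring
      rw [h1]
      have h2 := ray_aux hp hA hD (le_refl (0:ℝ)) (by linarith : (0:ℝ) ≤ 1 + m)
      have h3 := ray_aux hp hA hD (le_refl (0:ℝ)) (by linarith : (0:ℝ) ≤ 1 - m)
      linarith
    · rw [not_le] at hm1
      have h1 : ∫ s in (-1 - m)..(1 - m), psi p A D s =
          ∫ s in (m - 1)..(m + 1), psi p A D s := by
        rw [← hneg]
        congr 1 <;> ring
      rw [h1]
      have h2 := ray_aux hp hA hD (by linarith : (0:ℝ) ≤ m - 1) (by linarith : m - 1 ≤ m + 1)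
      have h3 : psi p A D (1 - m) = psi p A D (m - 1) := by
        rw [← psi_neg]; congr 1; ring
      rw [h3, add_comm 1 m]
      linarith
  rcases le_total 0 m with hm | hm
  · exact key m hm
  · have h1 := key (-m) (by linarith)
    have h2 : ∫ s in (-1 - -m)..(1 - -m), psi p A D s = ∫ s in (-1 - m)..(1 - m), psi p A D s := by
      rw [← hneg]
      congr 1 <;> ring
    rw [h2] at h1
    rw [show 1 + -m = 1 - m by ring, show 1 - -m = 1 + m by ring] at h1
    linarith

/-- the key one-dimensional inequality -/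
theorem pair_strict {p : ℝ} (hp : 0 < p) (c h : ℝ) {w : ℝ} (hw : w ≠ 0) :
    ((c + w) ^ 2 + h ^ 2) ^ (p / 2) + ((c - w) ^ 2 + h ^ 2) ^ (p / 2) <
      (p + 1) * ∫ l in (-1:ℝ)..1, ((l * c + w) ^ 2 + (l * h) ^ 2) ^ (p / 2) := by
  set A := c ^ 2 + h ^ 2 with hA
  have hw2 : 0 < w ^ 2 := by positivity
  rcases eq_or_lt_of_le (by positivity : 0 ≤ A) with hA0 | hA0
  · have hc : c = 0 := by nlinarith [sq_nonneg c, sq_nonneg h]
    have hh : h = 0 := by nlinarith [sq_nonneg c, sq_nonneg h]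
    rw [hc, hh]
    have h1 : ∀ l : ℝ, ((l * 0 + w) ^ 2 + (l * 0) ^ 2) ^ (p / 2) = (w ^ 2) ^ (p / 2) := by
      intro l; congr 1; ring
    simp only [h1]
    rw [intervalIntegral.integral_const, smul_eq_mul]
    have h2 : ((0 + w) ^ 2 + (0:ℝ) ^ 2) = w ^ 2 := by ring
    have h3 : ((0 - w) ^ 2 + (0:ℝ) ^ 2) = w ^ 2 := by ring
    rw [h2, h3]
    have h4 : 0 < (w ^ 2) ^ (p / 2) := Real.rpow_pos_of_pos hw2 _
    nlinarith
  · set m := -(c * w) / A with hm
    set D := w ^ 2 * h ^ 2 / A with hD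
    have hD0 : 0 ≤ D := by positivity
    have hf : ∀ l : ℝ, ((l * c + w) ^ 2 + (l * h) ^ 2) ^ (p / 2) = psi p A D (l - m) := by
      intro l
      unfold psi
      congr 1
      rw [hm, hD]
      field_simp
      rw [hA]
      ring
    simp only [hf]
    rw [intervalIntegral.integral_comp_sub_right (fun s => psi p A D s)]
    have h1 : ((c + w) ^ 2 + h ^ 2) ^ (p / 2) = psi p A D (1 - m) := by
      rw [← hf]; congr 1; ring
    have h2 : ((c - w) ^ 2 + h ^ 2) ^ (p / 2) = psi p A D (1 + m) := by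
      rw [← psi_neg, show -(1 + m) = -1 - m by ring, ← hf]; congr 1; ring
    rw [h1, h2]
    by_cases hm0 : m = 0
    · rw [hm0]
      have hcw : c = 0 := by
        rw [hm, div_eq_zero_iff] at hm0
        rcases hm0 with h3 | h3
        · have h4 : c * w = 0 := by linarith
          exact (mul_eq_zero.1 h4).resolve_right hw
        · exact absurd h3 hA0.ne'
      have hDpos : 0 < D := by
        have : A = h ^ 2 := by rw [hA, hcw]; ring
        rw [hD, this]
        have : 0 < h ^ 2 := by rw [← this]; exact hA0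
        positivity
      have hci : ∀ a b : ℝ, IntervalIntegrable (psi p A D) volume a b := fun a b =>
        (continuous_psi hp A D).intervalIntegrable _ _
      rw [show (-1 - (0:ℝ)) = -1 by ring, show (1 - (0:ℝ)) = 1 by ring, show (1 + (0:ℝ)) = 1 by ring,
        ← intervalIntegral.integral_add_adjacent_intervals (hci (-1) 0) (hci 0 1)]
      have h3 : ∫ s in (-1:ℝ)..0, psi p A D s = ∫ s in (0:ℝ)..1, psi p A D s := by
        have := intervalIntegral.integral_comp_neg (a := (0:ℝ)) (b := 1) (fun s => psi p A D s)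
        rw [neg_zero] at this
        rw [← this]
        exact intervalIntegral.integral_congr fun s _ => psi_neg p A D s
      rw [h3]
      have h4 : ∫ s in (0:ℝ)..1, s ^ p * psi p A D 1 < ∫ s in (0:ℝ)..1, psi p A D s := by
        refine intervalIntegral.integral_lt_integral_of_continuousOn_of_le_of_exists_lt
          zero_lt_one ?_ (continuous_psi hp A D).continuousOn ?_ ⟨0, by simp, ?_⟩
        · exact (((continuous_id).rpow_const fun _ => Or.inr hp.le).mul
            continuous_const).continuousOn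
        · intro s hs
          have := psi_scale hp hA0.le hD0 hs.1.le hs.2 one_pos
          rwa [div_one] at this
        · rw [Real.zero_rpow hp.ne', zero_mul]
          unfold psi
          rw [show A * (0:ℝ) ^ 2 + D = D by ring]
          exact Real.rpow_pos_of_pos hDpos _
      rw [intervalIntegral.integral_mul_const, integral_rpow (Or.inl (by linarith)),
        Real.one_rpow, Real.zero_rpow (by linarith), sub_zero] at h4
      have h5 := mul_lt_mul_of_pos_left h4 (by linarith : (0:ℝ) < p + 1)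
      rw [← mul_assoc, mul_one_div, div_self (by linarith), one_mul] at h5
      linarith
    · have h3 := ray_sym hp hA0.le hD0 m
      have h4 : 0 < m * (psi p A D (1 + m) - psi p A D (1 - m)) := by
        rcases lt_or_gt_of_ne hm0 with h5 | h5
        · refine mul_pos_of_neg_of_neg h5 (sub_neg.2 ?_)
          unfold psi
          refine Real.rpow_lt_rpow (by positivity) ?_ (by positivity)
          nlinarith [mul_pos hA0 (neg_pos.2 h5)]
        · refine mul_pos h5 (sub_pos.2 ?_)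
          unfold psi
          refine Real.rpow_lt_rpow (by positivity) ?_ (by positivity)
          nlinarith [mul_pos hA0 h5]
      linarith

/-- integral over the facet -/
noncomputable def Gf (p c h l T : ℝ) : ℝ :=
  l * ∫ t in (-1:ℝ)..1, ((c + l * t) ^ 2 + h ^ 2 + T ^ 2) ^ (p / 2)

/-- integral over the parallelogram -/
noncomputable def Hf (p c h l : ℝ) : ℝ :=
  l * ∫ t in (-1:ℝ)..1, ∫ m in (-1:ℝ)..1, ((m * c + l * t) ^ 2 + (m * h) ^ 2) ^ (p / 2)

lemma continuous_inner_Hf {p : ℝ} (hp : 0 < p) (c h l : ℝ) :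
    Continuous (fun t : ℝ => ∫ m in (-1:ℝ)..1, ((m * c + l * t) ^ 2 + (m * h) ^ 2) ^ (p / 2)) := by
  refine intervalIntegral.continuous_parametric_intervalIntegral_of_continuous' ?_ _ _
  unfold Function.uncurry
  refine Continuous.rpow_const ?_ fun _ => Or.inr (by positivity)
  fun_prop

theorem Gf_lt_Hf {p : ℝ} (hp : 0 < p) (c h : ℝ) {l : ℝ} (hl : 0 < l) :
    2 * Gf p c h l 0 < (p + 1) * Hf p c h l := by
  have hp2 : 0 ≤ p / 2 := by positivity
  set g : ℝ → ℝ := fun t => ((c + l * t) ^ 2 + h ^ 2) ^ (p / 2) with hg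
  have hgc : Continuous g := by
    refine Continuous.rpow_const ?_ fun _ => Or.inr (by positivity)
    fun_prop
  have hG : Gf p c h l 0 = l * ∫ t in (-1:ℝ)..1, g t := by
    unfold Gf
    congr 1
    refine intervalIntegral.integral_congr fun t _ => ?_
    show ((c + l * t) ^ 2 + h ^ 2 + 0 ^ 2) ^ (p / 2) = ((c + l * t) ^ 2 + h ^ 2) ^ (p / 2)
    congr 1; ring
  have hneg : ∫ t in (-1:ℝ)..1, g (-t) = ∫ t in (-1:ℝ)..1, g t := by
    rw [intervalIntegral.integral_comp_neg]
    simp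
  have hgn : Continuous (fun t => g (-t)) := hgc.comp continuous_neg
  have h1 : ∫ t in (-1:ℝ)..1, (g t + g (-t)) < ∫ t in (-1:ℝ)..1, (p + 1) *
      ∫ m in (-1:ℝ)..1, ((m * c + l * t) ^ 2 + (m * h) ^ 2) ^ (p / 2) := by
    refine intervalIntegral.integral_lt_integral_of_continuousOn_of_le_of_exists_lt
      (by norm_num) (hgc.add (hgc.comp continuous_neg)).continuousOn
      (continuous_const.mul (continuous_inner_Hf hp c h l)).continuousOn ?_ ⟨1, by simp, ?_⟩
    · intro t _
      by_cases ht : t = 0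
      · -- by continuity
        have h2 : ∀ᶠ s in 𝓝[≠] t, g s + g (-s) ≤ (p + 1) *
            ∫ m in (-1:ℝ)..1, ((m * c + l * s) ^ 2 + (m * h) ^ 2) ^ (p / 2) := by
          filter_upwards [self_mem_nhdsWithin] with s hs
          have hs' : s ≠ 0 := by rw [← ht]; exact hs
          have h3 := pair_strict hp c h (mul_ne_zero hl.ne' hs')
          refine le_trans (le_of_eq ?_) h3.le
          show ((c + l * s) ^ 2 + h ^ 2) ^ (p / 2) + ((c + l * -s) ^ 2 + h ^ 2) ^ (p / 2) = _
          congr 2; ring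
        have hcl : IsClosed {s : ℝ | g s + g (-s) ≤ (p + 1) *
            ∫ m in (-1:ℝ)..1, ((m * c + l * s) ^ 2 + (m * h) ^ 2) ^ (p / 2)} :=
          isClosed_le (hgc.add (hgc.comp continuous_neg))
            (continuous_const.mul (continuous_inner_Hf hp c h l))
        exact hcl.mem_of_frequently_of_tendsto (h2.frequently)
          (tendsto_id.mono_left nhdsWithin_le_nhds)
      · have h3 := pair_strict hp c h (mul_ne_zero hl.ne' ht)
        refine le_trans (le_of_eq ?_) h3.le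
        show ((c + l * t) ^ 2 + h ^ 2) ^ (p / 2) + ((c + l * -t) ^ 2 + h ^ 2) ^ (p / 2) = _
        congr 2; ring
    · have h3 := pair_strict hp c h (mul_ne_zero hl.ne' (one_ne_zero (α := ℝ)))
      refine lt_of_eq_of_lt ?_ h3
      show ((c + l * 1) ^ 2 + h ^ 2) ^ (p / 2) + ((c + l * -1) ^ 2 + h ^ 2) ^ (p / 2) = _
      congr 2; ring
  rw [intervalIntegral.integral_add (hgc.intervalIntegrable _ _)
    (hgn.intervalIntegrable _ _)] at h1
  rw [show (∫ t in (-1:ℝ)..1, g (-t)) = ∫ t in (-1:ℝ)..1, g t from hneg,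
    intervalIntegral.integral_const_mul] at h1
  rw [hG]
  unfold Hf
  have h4 := mul_lt_mul_of_pos_left h1 hl
  calc 2 * (l * ∫ t in (-1:ℝ)..1, g t) =
        l * ((∫ t in (-1:ℝ)..1, g t) + ∫ t in (-1:ℝ)..1, g t) := by ring
    _ < _ := h4
    _ = _ := by ring

lemma continuous_Gf {p : ℝ} (hp : 0 < p) :
    Continuous (fun x : ℝ × ℝ × ℝ × ℝ => Gf p x.1 x.2.1 x.2.2.1 x.2.2.2) := by
  unfold Gf
  refine Continuous.mul (by fun_prop) ?_
  refine intervalIntegral.continuous_parametric_intervalIntegral_of_continuous' ?_ _ _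
  unfold Function.uncurry
  refine Continuous.rpow_const ?_ fun _ => Or.inr (by positivity)
  fun_prop

lemma continuous_Hf {p : ℝ} (hp : 0 < p) :
    Continuous (fun x : ℝ × ℝ × ℝ × ℝ => Hf p x.1 x.2.1 x.2.2.1) := by
  unfold Hf
  refine Continuous.mul (by fun_prop) ?_
  refine intervalIntegral.continuous_parametric_intervalIntegral_of_continuous' ?_ _ _
  unfold Function.uncurry
  refine intervalIntegral.continuous_parametric_intervalIntegral_of_continuous' ?_ _ _
  unfold Function.uncurry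
  refine Continuous.rpow_const ?_ fun _ => Or.inr (by positivity)
  fun_prop

/-- uniform gap on a compact set of parameters -/
theorem planar_gap {p : ℝ} (hp : 0 < p) {ε : ℝ} (hε : 0 < ε) :
    ∃ δ : ℝ, 0 < δ ∧ ∀ c h l T : ℝ, |c| ≤ 1 → |h| ≤ 1 → ε ≤ l → l ≤ 1 → 0 ≤ T → T ≤ δ →
      2 * (1 + δ) * Gf p c h l T ≤ (p + 1) * Hf p c h l := by
  -- the two parameters `T`, `δ` are treated separately
  set F : (ℝ × ℝ × ℝ) × (ℝ × ℝ) → ℝ := fun x => (p + 1) * Hf p x.1.1 x.1.2.1 x.1.2.2 -
    2 * (1 + x.2.1) * Gf p x.1.1 x.1.2.1 x.1.2.2 x.2.2 with hF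
  have hFc : Continuous F := by
    refine Continuous.sub (continuous_const.mul ?_) (Continuous.mul (by fun_prop) ?_)
    · exact (continuous_Hf hp).comp (f := fun x : (ℝ × ℝ × ℝ) × (ℝ × ℝ) =>
        (x.1.1, x.1.2.1, x.1.2.2, (0:ℝ))) (by fun_prop)
    · exact (continuous_Gf hp).comp (f := fun x : (ℝ × ℝ × ℝ) × (ℝ × ℝ) =>
        (x.1.1, x.1.2.1, x.1.2.2, x.2.2)) (by fun_prop)
  set Kc : Set (ℝ × ℝ × ℝ) := Icc (-1) 1 ×ˢ (Icc (-1) 1 ×ˢ Icc ε 1) with hKc
  have hK : IsCompact Kc := isCompact_Icc.prod (isCompact_Icc.prod isCompact_Icc)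
  have hO : IsOpen {x | 0 < F x} := isOpen_lt continuous_const hFc
  have hsub : Kc ×ˢ {((0:ℝ), (0:ℝ))} ⊆ {x | 0 < F x} := by
    rintro ⟨⟨c, h, l⟩, ⟨s, t⟩⟩ ⟨⟨-, -, hl⟩, hst⟩
    rw [mem_singleton_iff, Prod.mk.injEq] at hst
    obtain ⟨hs, ht⟩ := hst
    have hl' : ε ≤ l := hl.1
    have := Gf_lt_Hf hp c h (l := l) (by linarith)
    show 0 < (p + 1) * Hf p c h l - 2 * (1 + s) * Gf p c h l t
    rw [hs, ht]
    linarith
  obtain ⟨U, V, -, hV, hU1, hV1, hUV⟩ := generalized_tube_lemma hK isCompact_singleton hO hsub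
  have hV0 : V ∈ 𝓝 ((0:ℝ), (0:ℝ)) := hV.mem_nhds (hV1 rfl)
  rw [Metric.mem_nhds_iff] at hV0
  obtain ⟨δ, hδ, hball⟩ := hV0
  refine ⟨δ / 2, by positivity, fun c h l T hc hh hl1 hl2 hT0 hT1 => ?_⟩
  have hmem : ((c, h, l), (δ / 2, T)) ∈ U ×ˢ V := by
    refine ⟨hU1 ⟨abs_le.1 hc, abs_le.1 hh, hl1, hl2⟩, hball ?_⟩
    rw [mem_ball, Prod.dist_eq, max_lt_iff]
    constructor
    · show dist (δ / 2) 0 < δ
      rw [Real.dist_eq, sub_zero, abs_of_pos (by positivity)]
      linarith
    · show dist T 0 < δ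
      rw [Real.dist_eq, sub_zero, abs_of_nonneg hT0]
      linarith
  have h1 : 0 < F ((c, h, l), (δ / 2, T)) := hUV hmem
  have h2 : F ((c, h, l), (δ / 2, T)) = (p + 1) * Hf p c h l - 2 * (1 + δ / 2) * Gf p c h l T := rfl
  rw [h2] at h1
  linarith

lemma Gf_scale {p : ℝ} {R : ℝ} (hR : 0 < R) (c h l T : ℝ) :
    Gf p (R * c) (R * h) (R * l) (R * T) = R * R ^ p * Gf p c h l T := by
  unfold Gf
  have h1 : ∀ t : ℝ, ((R * c + R * l * t) ^ 2 + (R * h) ^ 2 + (R * T) ^ 2) ^ (p / 2) =
      R ^ p * ((c + l * t) ^ 2 + h ^ 2 + T ^ 2) ^ (p / 2) := by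
    intro t
    have h2 : R ^ p = (R ^ 2) ^ (p / 2) := by
      rw [← Real.rpow_natCast R 2, ← Real.rpow_mul hR.le]
      congr 1
      push_cast; ring
    rw [h2, ← Real.mul_rpow (by positivity) (by positivity)]
    congr 1; ring
  simp only [h1]
  rw [intervalIntegral.integral_const_mul]
  ring

lemma Hf_scale {p : ℝ} {R : ℝ} (hR : 0 < R) (c h l : ℝ) :
    Hf p (R * c) (R * h) (R * l) = R * R ^ p * Hf p c h l := by
  unfold Hf
  have h1 : ∀ t m : ℝ, ((m * (R * c) + R * l * t) ^ 2 + (m * (R * h)) ^ 2) ^ (p / 2) =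
      R ^ p * ((m * c + l * t) ^ 2 + (m * h) ^ 2) ^ (p / 2) := by
    intro t m
    have h2 : R ^ p = (R ^ 2) ^ (p / 2) := by
      rw [← Real.rpow_natCast R 2, ← Real.rpow_mul hR.le]
      congr 1
      push_cast; ring
    rw [h2, ← Real.mul_rpow (by positivity) (by positivity)]
    congr 1; ring
  simp only [h1, intervalIntegral.integral_const_mul]
  ring

/-- scaled version of `planar_gap` -/
theorem planar_gap' {p : ℝ} (hp : 0 < p) {ε : ℝ} (hε : 0 < ε) :
    ∃ δ : ℝ, 0 < δ ∧ ∀ R c h l T : ℝ, 0 < R → |c| ≤ R → |h| ≤ R → ε * R ≤ l → l ≤ R → 0 ≤ T →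
      T ≤ δ * R → 2 * (1 + δ) * Gf p c h l T ≤ (p + 1) * Hf p c h l := by
  obtain ⟨δ, hδ, H⟩ := planar_gap hp hε
  refine ⟨δ, hδ, fun R c h l T hR hc hh hl1 hl2 hT0 hT1 => ?_⟩
  have h1 := H (c / R) (h / R) (l / R) (T / R)
    (by rw [abs_div, abs_of_pos hR, div_le_one hR]; exact hc)
    (by rw [abs_div, abs_of_pos hR, div_le_one hR]; exact hh)
    (by rw [le_div_iff₀ hR]; exact hl1) (by rw [div_le_one hR]; exact hl2)
    (by positivity) (by rw [div_le_iff₀ hR]; exact hT1)
  have h2 := Gf_scale (p := p) hR (c / R) (h / R) (l / R) (T / R)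
  have h3 := Hf_scale (p := p) hR (c / R) (h / R) (l / R)
  rw [mul_div_cancel₀ _ hR.ne', mul_div_cancel₀ _ hR.ne', mul_div_cancel₀ _ hR.ne'] at h3
  rw [mul_div_cancel₀ _ hR.ne', mul_div_cancel₀ _ hR.ne', mul_div_cancel₀ _ hR.ne',
    mul_div_cancel₀ _ hR.ne'] at h2
  rw [h2, h3]
  have h4 : 0 < R * R ^ p := mul_pos hR (Real.rpow_pos_of_pos hR p)
  have h5 := mul_le_mul_of_nonneg_left h1 h4.le
  calc 2 * (1 + δ) * (R * R ^ p * Gf p (c / R) (h / R) (l / R) (T / R)) =
        R * R ^ p * (2 * (1 + δ) * Gf p (c / R) (h / R) (l / R) (T / R)) := by ring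
    _ ≤ _ := h5
    _ = _ := by ring

end Planar

end Pool.Agent.Lib.MP_b0d2bf_gt
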