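import Mathlib
import Pool.Agent.Lib.MP_b0d2bf_gt.Coord
import Pool.Agent.Lib.MP_b0d2bf_gt.Planar

set_option autoImplicit false

/-!
Explicit integrals over cones, parallelograms times boxes, and boxes.
-/

namespace Pool.Agent.Lib.MP_b0d2bf_gt

open MeasureTheory Metric Set Filter Topology

section CoordInt

variable {m : ℕ}

lemma prod_ofReal_mul {t : Fin m → ℝ} (ht : ∀ i, 0 ≤ t i) {r : ℝ} (hr : 0 ≤ r) :
    ∏ i, ENNReal.ofReal (2 * (r * t i)) = ENNReal.ofReal (r ^ m * ∏ i, (2 * t i)) := by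
  rw [← ENNReal.ofReal_prod_of_nonneg (fun i _ => by have := ht i; positivity)]
  congr 1
  have : ∀ i, 2 * (r * t i) = r * (2 * t i) := fun i => by ring
  simp only [this]
  rw [Finset.prod_mul_distrib, Finset.prod_const, Finset.card_univ, Fintype.card_fin]

lemma prod_nonneg' {t : Fin m → ℝ} (ht : ∀ i, 0 ≤ t i) : 0 ≤ ∏ i, (2 * t i) :=
  Finset.prod_nonneg fun i _ => by have := ht i; positivity

/-- integral of a homogeneous function over a cone -/
theorem cone_integral {p : ℝ} (hp : 0 < p) {h l : ℝ} (c : ℝ) (hh : 0 < h) (hl : 0 ≤ l)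
    {t : Fin m → ℝ} (ht : ∀ i, 0 ≤ t i) {f : ℝ → ℝ → ℝ}
    (hf : Continuous (fun x : ℝ × ℝ => f x.1 x.2)) (hf0 : ∀ a b, 0 ≤ f a b)
    (hhom : ∀ r a b, 0 < r → f (r * a) (r * b) = r ^ p * f a b) :
    ∫⁻ x in sect (fun a b => (0 < b ∧ b ≤ h) ∧ |a - (b / h) * c| ≤ (b / h) * l)
        (fun _ b => b / h) t, ENNReal.ofReal (f (x 0) (x 1)) =
      ENNReal.ofReal (h / (p + m + 2) * (∏ i, (2 * t i)) *
        (l * ∫ s in (-1:ℝ)..1, f (c + l * s) h)) := by
  set J := ∫ s in (-1:ℝ)..1, f (c + l * s) h with hJ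
  set B := ∏ i, (2 * t i) with hB
  have hB0 : 0 ≤ B := prod_nonneg' ht
  have hJ0 : 0 ≤ J := intervalIntegral.integral_nonneg (by norm_num) fun s _ => hf0 _ _
  have hR : MeasurableSet {x : ℝ × ℝ | (0 < x.2 ∧ x.2 ≤ h) ∧
      |x.1 - (x.2 / h) * c| ≤ (x.2 / h) * l} := by
    exact ((measurableSet_lt (measurable_const (a := (0:ℝ))) measurable_snd).inter
      (measurableSet_le measurable_snd measurable_const)).inter
      (measurableSet_le (by fun_prop : Measurable fun x : ℝ × ℝ => |x.1 - (x.2 / h) * c|)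
        (by fun_prop : Measurable fun x : ℝ × ℝ => (x.2 / h) * l))
  have hfm : Measurable (fun x : ℝ × ℝ => ENNReal.ofReal (f x.1 x.2)) :=
    hf.measurable.ennreal_ofReal
  rw [(lint_sect (R := fun a b => (0 < b ∧ b ≤ h) ∧ |a - (b / h) * c| ≤ (b / h) * l) hR
    (lam := fun _ b => b / h) (by fun_prop) t (f := fun a b => ENNReal.ofReal (f a b)) hfm).2]
  rw [lintegral_lintegral_swap]
  swap
  · refine (Measurable.mul (hfm.indicator hR) ?_).aemeasurable
    refine Finset.measurable_prod _ fun i _ => ?_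
    fun_prop
  have h1 : ∀ b : ℝ, ∫⁻ a : ℝ, {x : ℝ × ℝ | (0 < x.2 ∧ x.2 ≤ h) ∧
      |x.1 - (x.2 / h) * c| ≤ (x.2 / h) * l}.indicator
        (fun x => ENNReal.ofReal (f x.1 x.2)) (a, b) *
        ∏ i, ENNReal.ofReal (2 * (b / h * t i)) =
      (Ioc 0 h).indicator (fun b => ENNReal.ofReal ((b / h) ^ (p + m + 1) * (B * (l * J)))) b := by
    intro b
    by_cases hb : b ∈ Ioc 0 h
    · rw [indicator_of_mem hb]
      have hb0 : 0 < b / h := div_pos hb.1 hh
      rw [prod_ofReal_mul ht hb0.le, ← hB]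
      have h2 : ∀ a : ℝ, {x : ℝ × ℝ | (0 < x.2 ∧ x.2 ≤ h) ∧
          |x.1 - (x.2 / h) * c| ≤ (x.2 / h) * l}.indicator
            (fun x => ENNReal.ofReal (f x.1 x.2)) (a, b) =
          (Icc (b / h * c - b / h * l) (b / h * c + b / h * l)).indicator
            (fun a => ENNReal.ofReal (f a b)) a := by
        intro a
        by_cases ha : |a - b / h * c| ≤ b / h * l
        · rw [indicator_of_mem (show (a, b) ∈ {x : ℝ × ℝ | (0 < x.2 ∧ x.2 ≤ h) ∧
            |x.1 - (x.2 / h) * c| ≤ (x.2 / h) * l} from ⟨⟨hb.1, hb.2⟩, ha⟩), indicator_of_mem]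
          rw [abs_le] at ha
          constructor <;> linarith [ha.1, ha.2]
        · rw [indicator_of_notMem (show (a, b) ∉ {x : ℝ × ℝ | (0 < x.2 ∧ x.2 ≤ h) ∧
            |x.1 - (x.2 / h) * c| ≤ (x.2 / h) * l} from fun hc => ha hc.2), indicator_of_notMem]
          intro hc
          apply ha
          rw [abs_le]
          constructor <;> linarith [hc.1, hc.2]
      have hfb : Continuous (fun a => f a b) := hf.comp (f := fun a : ℝ => (a, b)) (by fun_prop)
      simp only [h2]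
      rw [lintegral_mul_const _ (hfb.measurable.ennreal_ofReal.indicator measurableSet_Icc),
        lintegral_indicator measurableSet_Icc,
        lint_affine _ (by positivity : 0 ≤ b / h * l) hfb.measurable.ennreal_ofReal]
      have h3 : ∀ s : ℝ, f (b / h * c + b / h * l * s) b = (b / h) ^ p * f (c + l * s) h := by
        intro s
        rw [← hhom _ _ _ hb0]
        congr 1
        · ring
        · field_simp
      simp only [h3]
      have hfc : Continuous (fun s : ℝ => (b / h) ^ p * f (c + l * s) h) :=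
        continuous_const.mul (hf.comp (f := fun s : ℝ => (c + l * s, h)) (by fun_prop))
      rw [lint_interval hfc (by norm_num) fun s _ => mul_nonneg (by positivity) (hf0 _ _),
        intervalIntegral.integral_const_mul, ← hJ, ← ENNReal.ofReal_mul (by positivity),
        ← ENNReal.ofReal_mul (by positivity)]
      congr 1
      rw [Real.rpow_add hb0, Real.rpow_add hb0, Real.rpow_natCast, Real.rpow_one]
      ring
    · rw [indicator_of_notMem hb]
      have h2 : ∀ a : ℝ, {x : ℝ × ℝ | (0 < x.2 ∧ x.2 ≤ h) ∧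
          |x.1 - (x.2 / h) * c| ≤ (x.2 / h) * l}.indicator
            (fun x => ENNReal.ofReal (f x.1 x.2)) (a, b) *
        ∏ i, ENNReal.ofReal (2 * (b / h * t i)) = 0 := by
        intro a
        rw [indicator_of_notMem (show (a, b) ∉ {x : ℝ × ℝ | (0 < x.2 ∧ x.2 ≤ h) ∧
            |x.1 - (x.2 / h) * c| ≤ (x.2 / h) * l} from fun hc => hb ⟨hc.1.1, hc.1.2⟩), zero_mul]
      simp only [h2, lintegral_zero]
  simp only [h1]
  rw [lintegral_indicator measurableSet_Ioc, Measure.restrict_congr_set Ioc_ae_eq_Icc]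
  have hc : Continuous (fun b : ℝ => (b / h) ^ (p + m + 1) * (B * (l * J))) :=
    ((continuous_id.div_const h).rpow_const fun _ => Or.inr (by positivity)).mul continuous_const
  rw [lint_interval hc hh.le fun b hb => mul_nonneg
    (Real.rpow_nonneg (div_nonneg hb.1 hh.le) _) (by positivity)]
  congr 1
  rw [intervalIntegral.integral_mul_const]
  have h4 : ∫ b in (0:ℝ)..h, (b / h) ^ (p + m + 1) = h / (p + m + 2) := by
    rw [intervalIntegral.integral_comp_div (fun x => x ^ (p + m + 1)) hh.ne', zero_div,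
      div_self hh.ne', integral_rpow (Or.inl (by
        have : (0:ℝ) ≤ m := Nat.cast_nonneg m
        linarith)), Real.one_rpow, Real.zero_rpow (by positivity), sub_zero, smul_eq_mul,
      show p + m + 1 + 1 = p + m + 2 by ring, mul_one_div]
  rw [h4]
  ring

/-- lower bound for the integral over a parallelogram times a box -/
theorem para_lower {p : ℝ} (hp : 0 < p) {h l : ℝ} (c : ℝ) (hh : 0 < h) (hl : 0 ≤ l)
    {t : Fin m → ℝ} (ht : ∀ i, 0 ≤ t i) :
    ENNReal.ofReal ((∏ i, (2 * t i)) * h * Hf p c h l) ≤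
    ∫⁻ x in sect (fun a b => |b| ≤ h ∧ |a - (b / h) * c| ≤ l) (fun _ _ => 1) t,
      ENNReal.ofReal (‖x‖ ^ p) := by
  set B := ∏ i, (2 * t i) with hB
  have hB0 : 0 ≤ B := prod_nonneg' ht
  have hR : MeasurableSet {x : ℝ × ℝ | |x.2| ≤ h ∧ |x.1 - (x.2 / h) * c| ≤ l} := by
    exact (measurableSet_le (by fun_prop : Measurable fun x : ℝ × ℝ => |x.2|)
      measurable_const).inter (measurableSet_le
      (by fun_prop : Measurable fun x : ℝ × ℝ => |x.1 - (x.2 / h) * c|) measurable_const)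
  set f : ℝ → ℝ → ℝ := fun a b => (a ^ 2 + b ^ 2) ^ (p / 2) with hf
  have hfc : Continuous (fun x : ℝ × ℝ => f x.1 x.2) := by
    refine Continuous.rpow_const (by fun_prop) fun _ => Or.inr (by positivity)
  have hf0 : ∀ a b, 0 ≤ f a b := fun a b => by positivity
  have hfm : Measurable (fun x : ℝ × ℝ => ENNReal.ofReal (f x.1 x.2)) :=
    hfc.measurable.ennreal_ofReal
  have key := lint_sect (R := fun a b => |b| ≤ h ∧ |a - (b / h) * c| ≤ l) hR
    (lam := fun _ _ => 1) measurable_const t (f := fun a b => ENNReal.ofReal (f a b)) hfm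
  have h0 : ∫⁻ x in sect (fun a b => |b| ≤ h ∧ |a - (b / h) * c| ≤ l) (fun _ _ => 1) t,
      ENNReal.ofReal (f (x 0) (x 1)) ≤
      ∫⁻ x in sect (fun a b => |b| ≤ h ∧ |a - (b / h) * c| ≤ l) (fun _ _ => 1) t,
      ENNReal.ofReal (‖x‖ ^ p) := by
    refine lintegral_mono fun x => ENNReal.ofReal_le_ofReal ?_
    rw [norm_rpow_eq]
    refine Real.rpow_le_rpow (by positivity) ?_ (by positivity)
    have : 0 ≤ ∑ i : Fin m, x i.succ.succ ^ 2 := Finset.sum_nonneg fun i _ => sq_nonneg _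
    linarith
  refine le_trans (le_of_eq ?_) h0
  rw [key.2]
  rw [lintegral_lintegral_swap]
  swap
  · refine (Measurable.mul (hfm.indicator hR) ?_).aemeasurable
    refine Finset.measurable_prod _ fun i _ => ?_
    fun_prop
  have h1 : ∀ b : ℝ, ∫⁻ a : ℝ, {x : ℝ × ℝ | |x.2| ≤ h ∧ |x.1 - (x.2 / h) * c| ≤ l}.indicator
        (fun x => ENNReal.ofReal (f x.1 x.2)) (a, b) *
        ∏ i, ENNReal.ofReal (2 * (1 * t i)) =
      (Icc (0 - h) (0 + h)).indicator (fun b => ENNReal.ofReal (B * l) *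
        ∫⁻ s in Icc (-1:ℝ) 1, ENNReal.ofReal (f (b / h * c + l * s) b)) b := by
    intro b
    rw [prod_ofReal_mul ht zero_le_one, ← hB, one_pow, one_mul]
    by_cases hb : |b| ≤ h
    · have hb' : b ∈ Icc (0 - h) (0 + h) := by
        rw [abs_le] at hb
        constructor <;> linarith [hb.1, hb.2]
      rw [indicator_of_mem hb']
      have h2 : ∀ a : ℝ, {x : ℝ × ℝ | |x.2| ≤ h ∧ |x.1 - (x.2 / h) * c| ≤ l}.indicator
            (fun x => ENNReal.ofReal (f x.1 x.2)) (a, b) =
          (Icc (b / h * c - l) (b / h * c + l)).indicator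
            (fun a => ENNReal.ofReal (f a b)) a := by
        intro a
        by_cases ha : |a - b / h * c| ≤ l
        · rw [indicator_of_mem (show (a, b) ∈ {x : ℝ × ℝ | |x.2| ≤ h ∧
            |x.1 - (x.2 / h) * c| ≤ l} from ⟨hb, ha⟩), indicator_of_mem]
          rw [abs_le] at ha
          constructor <;> linarith [ha.1, ha.2]
        · rw [indicator_of_notMem (show (a, b) ∉ {x : ℝ × ℝ | |x.2| ≤ h ∧
            |x.1 - (x.2 / h) * c| ≤ l} from fun hc => ha hc.2), indicator_of_notMem]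
          intro hc
          apply ha
          rw [abs_le]
          constructor <;> linarith [hc.1, hc.2]
      have hfb : Continuous (fun a => f a b) := hfc.comp (f := fun a : ℝ => (a, b)) (by fun_prop)
      simp only [h2]
      rw [lintegral_mul_const _ (hfb.measurable.ennreal_ofReal.indicator measurableSet_Icc),
        lintegral_indicator measurableSet_Icc, lint_affine _ hl hfb.measurable.ennreal_ofReal,
        ENNReal.ofReal_mul hB0]
      ring
    · have hb' : b ∉ Icc (0 - h) (0 + h) := by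
        intro hcon
        apply hb
        rw [abs_le]
        constructor <;> linarith [hcon.1, hcon.2]
      rw [indicator_of_notMem hb']
      have h2 : ∀ a : ℝ, {x : ℝ × ℝ | |x.2| ≤ h ∧ |x.1 - (x.2 / h) * c| ≤ l}.indicator
            (fun x => ENNReal.ofReal (f x.1 x.2)) (a, b) * ENNReal.ofReal B = 0 := by
        intro a
        rw [indicator_of_notMem (show (a, b) ∉ {x : ℝ × ℝ | |x.2| ≤ h ∧
            |x.1 - (x.2 / h) * c| ≤ l} from fun hc => hb hc.1), zero_mul]
      simp only [h2, lintegral_zero]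
  simp only [h1]
  rw [lintegral_indicator measurableSet_Icc]
  have hcont3 : Continuous (fun x : ℝ × ℝ => f (x.1 / h * c + l * x.2) x.1) :=
    hfc.comp (f := fun x : ℝ × ℝ => (x.1 / h * c + l * x.2, x.1)) (by fun_prop)
  have hm3 : Measurable (fun b : ℝ => ENNReal.ofReal (B * l) *
      ∫⁻ s in Icc (-1:ℝ) 1, ENNReal.ofReal (f (b / h * c + l * s) b)) := by
    refine Measurable.const_mul ?_ _
    exact (hcont3.measurable.ennreal_ofReal).lintegral_prod_right'
  rw [lint_affine 0 hh.le hm3]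
  have h5 : ∀ b : ℝ, ENNReal.ofReal (B * l) * ∫⁻ s in Icc (-1:ℝ) 1,
      ENNReal.ofReal (f ((0 + h * b) / h * c + l * s) (0 + h * b)) =
      ENNReal.ofReal (B * l) * ∫⁻ s in Icc (-1:ℝ) 1,
      ENNReal.ofReal (((b * c + l * s) ^ 2 + (b * h) ^ 2) ^ (p / 2)) := by
    intro b
    have : ∀ s : ℝ, f ((0 + h * b) / h * c + l * s) (0 + h * b) =
        ((b * c + l * s) ^ 2 + (b * h) ^ 2) ^ (p / 2) := by
      intro s
      rw [hf]
      simp only
      congr 1
      rw [zero_add, mul_div_cancel_left₀ b hh.ne', mul_comm h b]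
    simp only [this]
  simp only [h5]
  have hcont4 : Continuous (fun x : ℝ × ℝ =>
      ((x.1 * c + l * x.2) ^ 2 + (x.1 * h) ^ 2) ^ (p / 2)) := by
    refine Continuous.rpow_const (by fun_prop) fun _ => Or.inr (by positivity)
  have hm4 : Measurable (fun b : ℝ => ∫⁻ s in Icc (-1:ℝ) 1,
      ENNReal.ofReal (((b * c + l * s) ^ 2 + (b * h) ^ 2) ^ (p / 2))) :=
    (hcont4.measurable.ennreal_ofReal).lintegral_prod_right'
  rw [lintegral_const_mul _ hm4, lintegral_lintegral_swap]
  swap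
  · exact hcont4.measurable.ennreal_ofReal.aemeasurable
  have h6 : ∀ s : ℝ, ∫⁻ b in Icc (-1:ℝ) 1,
      ENNReal.ofReal (((b * c + l * s) ^ 2 + (b * h) ^ 2) ^ (p / 2)) =
      ENNReal.ofReal (∫ b in (-1:ℝ)..1, ((b * c + l * s) ^ 2 + (b * h) ^ 2) ^ (p / 2)) := by
    intro s
    exact lint_interval (hcont4.comp (f := fun b : ℝ => (b, s)) (by fun_prop)) (by norm_num)
      fun b _ => Real.rpow_nonneg (add_nonneg (sq_nonneg _) (sq_nonneg _)) _
  simp only [h6]
  have h7 : ∀ s : ℝ, 0 ≤ ∫ b in (-1:ℝ)..1, ((b * c + l * s) ^ 2 + (b * h) ^ 2) ^ (p / 2) :=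
    fun s => intervalIntegral.integral_nonneg (by norm_num) fun b _ => by positivity
  rw [lint_interval (continuous_inner_Hf hp c h l) (by norm_num) fun s _ => h7 s,
    ← ENNReal.ofReal_mul (mul_nonneg hB0 hl), ← ENNReal.ofReal_mul hh.le]
  congr 1
  unfold Hf
  ring

/-- another lower bound -/
theorem box_lower {p : ℝ} (hp : 0 < p) {h w : ℝ} (c : ℝ) (hw : 0 < w)
    {t : Fin m → ℝ} (ht : ∀ i, 0 ≤ t i) :
    ENNReal.ofReal ((∏ i, (2 * t i)) * h * ((w / 8) ^ p * (w / 2))) ≤
    ∫⁻ x in sect (fun a b => |b| ≤ h / 2 ∧ |a - (b / h) * c| ≤ w / 2) (fun _ _ => 1) t,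
      ENNReal.ofReal (‖x‖ ^ p) := by
  set B := ∏ i, (2 * t i) with hB
  have hB0 : 0 ≤ B := prod_nonneg' ht
  have hR : MeasurableSet {x : ℝ × ℝ | |x.2| ≤ h / 2 ∧ |x.1 - (x.2 / h) * c| ≤ w / 2} := by
    exact (measurableSet_le (by fun_prop : Measurable fun x : ℝ × ℝ => |x.2|)
      measurable_const).inter (measurableSet_le
      (by fun_prop : Measurable fun x : ℝ × ℝ => |x.1 - (x.2 / h) * c|) measurable_const)
  set f : ℝ → ℝ → ENNReal := fun a _ => {a : ℝ | w / 8 ≤ |a|}.indicator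
    (fun _ => ENNReal.ofReal ((w / 8) ^ p)) a with hf
  have hSm : MeasurableSet {a : ℝ | w / 8 ≤ |a|} :=
    measurableSet_le measurable_const (by fun_prop)
  have hfm1 : Measurable (fun a : ℝ => {a : ℝ | w / 8 ≤ |a|}.indicator
    (fun _ => ENNReal.ofReal ((w / 8) ^ p)) a) := measurable_const.indicator hSm
  have hfm : Measurable (fun x : ℝ × ℝ => f x.1 x.2) := hfm1.comp measurable_fst
  have key := lint_sect (R := fun a b => |b| ≤ h / 2 ∧ |a - (b / h) * c| ≤ w / 2) hR
    (lam := fun _ _ => 1) measurable_const t (f := f) hfm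
  have h0 : ∫⁻ x in sect (fun a b => |b| ≤ h / 2 ∧ |a - (b / h) * c| ≤ w / 2) (fun _ _ => 1) t,
      f (x 0) (x 1) ≤
      ∫⁻ x in sect (fun a b => |b| ≤ h / 2 ∧ |a - (b / h) * c| ≤ w / 2) (fun _ _ => 1) t,
      ENNReal.ofReal (‖x‖ ^ p) := by
    refine lintegral_mono fun x => ?_
    rw [hf]
    simp only
    by_cases hx : w / 8 ≤ |x 0|
    · rw [indicator_of_mem (show x 0 ∈ {a : ℝ | w / 8 ≤ |a|} from hx)]
      refine ENNReal.ofReal_le_ofReal (Real.rpow_le_rpow (by positivity) (hx.trans ?_) hp.le)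
      have h1 : (|x 0|) ^ 2 ≤ ‖x‖ ^ 2 := by
        rw [norm_sq_coord, sq_abs]
        have : 0 ≤ ∑ i : Fin m, x i.succ.succ ^ 2 := Finset.sum_nonneg fun i _ => sq_nonneg _
        nlinarith [sq_nonneg (x 1)]
      exact (pow_le_pow_iff_left₀ (abs_nonneg _) (norm_nonneg _) two_ne_zero).1 h1
    · rw [indicator_of_notMem (show x 0 ∉ {a : ℝ | w / 8 ≤ |a|} from hx)]
      exact bot_le
  refine le_trans ?_ h0
  rw [key.2]
  rw [lintegral_lintegral_swap]
  swap
  · refine (Measurable.mul (hfm.indicator hR) ?_).aemeasurable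
    refine Finset.measurable_prod _ fun i _ => ?_
    fun_prop
  have h1 : ∀ b ∈ Icc (-(h / 2)) (h / 2), ENNReal.ofReal ((w / 8) ^ p * (w / 2) * B) ≤
      ∫⁻ a : ℝ, {x : ℝ × ℝ | |x.2| ≤ h / 2 ∧ |x.1 - (x.2 / h) * c| ≤ w / 2}.indicator
        (fun x => f x.1 x.2) (a, b) * ∏ i, ENNReal.ofReal (2 * (1 * t i)) := by
    intro b hb
    rw [prod_ofReal_mul ht zero_le_one, ← hB, one_pow, one_mul]
    set S : Set ℝ := Icc (b / h * c - w / 2) (b / h * c + w / 2) \ Ioo (-(w / 8)) (w / 8) with hS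
    have h2 : ∀ a : ℝ, S.indicator (fun _ => ENNReal.ofReal ((w / 8) ^ p * B)) a ≤
        {x : ℝ × ℝ | |x.2| ≤ h / 2 ∧ |x.1 - (x.2 / h) * c| ≤ w / 2}.indicator
          (fun x => f x.1 x.2) (a, b) * ENNReal.ofReal B := by
      intro a
      by_cases ha : a ∈ S
      · rw [indicator_of_mem ha]
        have ha1 : (a, b) ∈ {x : ℝ × ℝ | |x.2| ≤ h / 2 ∧ |x.1 - (x.2 / h) * c| ≤ w / 2} := by
          refine ⟨abs_le.2 hb, ?_⟩
          rw [abs_le]
          constructor <;> linarith [ha.1.1, ha.1.2]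
        have ha2 : a ∈ {a : ℝ | w / 8 ≤ |a|} := by
          by_contra hcon
          apply ha.2
          have hcon' : ¬ (w / 8 ≤ |a|) := hcon
          rw [not_le, abs_lt] at hcon'
          exact hcon'
        rw [indicator_of_mem ha1, hf]
        simp only
        rw [indicator_of_mem ha2, ENNReal.ofReal_mul (by positivity)]
      · rw [indicator_of_notMem ha]
        exact bot_le
    refine le_trans ?_ (lintegral_mono h2)
    have hSmeas : MeasurableSet S := measurableSet_Icc.diff measurableSet_Ioo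
    rw [lintegral_indicator hSmeas, lintegral_const, Measure.restrict_apply_univ]
    have h3 : ENNReal.ofReal (w / 2) ≤ volume S := by
      rw [hS]
      refine le_trans ?_ (le_measure_sdiff)
      rw [Real.volume_Icc, Real.volume_Ioo, ← ENNReal.ofReal_sub _ (by linarith)]
      refine ENNReal.ofReal_le_ofReal ?_
      linarith
    calc ENNReal.ofReal ((w / 8) ^ p * (w / 2) * B) =
          ENNReal.ofReal ((w / 8) ^ p * B) * ENNReal.ofReal (w / 2) := by
          rw [← ENNReal.ofReal_mul (by positivity)]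
          congr 1; ring
      _ ≤ _ := mul_le_mul_right h3 _
  have h4 : ∫⁻ _ in Icc (-(h / 2)) (h / 2), ENNReal.ofReal ((w / 8) ^ p * (w / 2) * B) ≤
      ∫⁻ b : ℝ, ∫⁻ a : ℝ, {x : ℝ × ℝ | |x.2| ≤ h / 2 ∧ |x.1 - (x.2 / h) * c| ≤ w / 2}.indicator
        (fun x => f x.1 x.2) (a, b) * ∏ i, ENNReal.ofReal (2 * (1 * t i)) := by
    refine le_trans ?_ (setLIntegral_le_lintegral (Icc (-(h / 2)) (h / 2)) _)
    exact setLIntegral_mono' measurableSet_Icc h1
  refine le_trans (le_of_eq ?_) h4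
  rw [lintegral_const, Measure.restrict_apply_univ, Real.volume_Icc,
    ← ENNReal.ofReal_mul (by positivity)]
  congr 1
  ring

/-- upper bound over a box -/
theorem box_upper {p : ℝ} (hp : 0 < p) {N : ℝ} (hN : 0 < N)
    {t : Fin m → ℝ} (ht : ∀ i, 0 ≤ t i) (ht1 : ∑ i, t i ^ 2 ≤ 1) :
    ∫⁻ x in sect (fun a b => |a| ≤ 1 ∧ |b| ≤ N) (fun _ _ => 1) t, ENNReal.ofReal (‖x‖ ^ p) ≤
      ENNReal.ofReal ((∏ i, (2 * t i)) * (4 * (N + 2) ^ (p + 1) / (p + 1))) := by
  set B := ∏ i, (2 * t i) with hB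
  have hB0 : 0 ≤ B := prod_nonneg' ht
  have hR : MeasurableSet {x : ℝ × ℝ | |x.1| ≤ 1 ∧ |x.2| ≤ N} := by
    exact (measurableSet_le (by fun_prop : Measurable fun x : ℝ × ℝ => |x.1|)
      measurable_const).inter (measurableSet_le
      (by fun_prop : Measurable fun x : ℝ × ℝ => |x.2|) measurable_const)
  set f : ℝ → ℝ → ENNReal := fun _ b => ENNReal.ofReal ((|b| + 2) ^ p) with hf
  have hgc : Continuous (fun b : ℝ => (|b| + 2) ^ p) :=
    (continuous_abs.add continuous_const).rpow_const fun _ => Or.inr hp.le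
  have hfm : Measurable (fun x : ℝ × ℝ => f x.1 x.2) :=
    (hgc.measurable.ennreal_ofReal).comp measurable_snd
  have key := lint_sect (R := fun a b => |a| ≤ 1 ∧ |b| ≤ N) hR
    (lam := fun _ _ => 1) measurable_const t (f := f) hfm
  have h0 : ∫⁻ x in sect (fun a b => |a| ≤ 1 ∧ |b| ≤ N) (fun _ _ => 1) t,
      ENNReal.ofReal (‖x‖ ^ p) ≤
      ∫⁻ x in sect (fun a b => |a| ≤ 1 ∧ |b| ≤ N) (fun _ _ => 1) t, f (x 0) (x 1) := by
    refine setLIntegral_mono' key.1 fun x hx => ?_
    rw [hf]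
    refine ENNReal.ofReal_le_ofReal (Real.rpow_le_rpow (norm_nonneg _) ?_ hp.le)
    have h1 : ‖x‖ ^ 2 ≤ (|x 1| + 2) ^ 2 := by
      rw [norm_sq_coord]
      have h2 : ∑ i : Fin m, x i.succ.succ ^ 2 ≤ 1 := by
        refine le_trans (Finset.sum_le_sum fun i _ => ?_) ht1
        have := hx.2 i
        rw [one_mul] at this
        rw [← sq_abs]
        exact pow_le_pow_left₀ (abs_nonneg _) this 2
      have h3 : x 0 ^ 2 ≤ 1 := by
        have h4 : |x 0| ≤ 1 := hx.1.1
        rw [← sq_abs]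
        exact pow_le_one₀ (abs_nonneg _) h4
      have h5 : x 1 ^ 2 = |x 1| ^ 2 := (sq_abs _).symm
      nlinarith [abs_nonneg (x 1)]
    exact (pow_le_pow_iff_left₀ (norm_nonneg _) (by positivity) two_ne_zero).1 h1
  refine h0.trans ?_
  rw [key.2]
  have h1 : ∀ a : ℝ, ∫⁻ b : ℝ, {x : ℝ × ℝ | |x.1| ≤ 1 ∧ |x.2| ≤ N}.indicator
      (fun x => f x.1 x.2) (a, b) * ∏ i, ENNReal.ofReal (2 * (1 * t i)) =
      (Icc (-1:ℝ) 1).indicator (fun _ => (∫⁻ b in Icc (-N) N, ENNReal.ofReal ((|b| + 2) ^ p)) *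
        ENNReal.ofReal B) a := by
    intro a
    rw [prod_ofReal_mul ht zero_le_one, ← hB, one_pow, one_mul]
    by_cases ha : a ∈ Icc (-1:ℝ) 1
    · rw [indicator_of_mem ha]
      have h2 : ∀ b : ℝ, {x : ℝ × ℝ | |x.1| ≤ 1 ∧ |x.2| ≤ N}.indicator
          (fun x => f x.1 x.2) (a, b) = (Icc (-N) N).indicator
            (fun b => ENNReal.ofReal ((|b| + 2) ^ p)) b := by
        intro b
        by_cases hb : |b| ≤ N
        · rw [indicator_of_mem (show (a, b) ∈ {x : ℝ × ℝ | |x.1| ≤ 1 ∧ |x.2| ≤ N} from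
            ⟨abs_le.2 ha, hb⟩), indicator_of_mem (show b ∈ Icc (-N) N from abs_le.1 hb)]
        · rw [indicator_of_notMem (show (a, b) ∉ {x : ℝ × ℝ | |x.1| ≤ 1 ∧ |x.2| ≤ N} from
            fun hc => hb hc.2), indicator_of_notMem (show b ∉ Icc (-N) N from
            fun hc => hb (abs_le.2 hc))]
      simp only [h2]
      rw [lintegral_mul_const _ (hgc.measurable.ennreal_ofReal.indicator measurableSet_Icc),
        lintegral_indicator measurableSet_Icc]
    · rw [indicator_of_notMem ha]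
      have h2 : ∀ b : ℝ, {x : ℝ × ℝ | |x.1| ≤ 1 ∧ |x.2| ≤ N}.indicator
          (fun x => f x.1 x.2) (a, b) * ENNReal.ofReal B = 0 := by
        intro b
        rw [indicator_of_notMem (show (a, b) ∉ {x : ℝ × ℝ | |x.1| ≤ 1 ∧ |x.2| ≤ N} from
            fun hc => ha (abs_le.1 hc.1)), zero_mul]
      simp only [h2, lintegral_zero]
  simp only [h1]
  rw [lintegral_indicator measurableSet_Icc, lintegral_const, Measure.restrict_apply_univ,
    Real.volume_Icc, lint_interval hgc (by linarith) fun b _ => by positivity]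
  have h3 : ∫ b in (-N)..N, (|b| + 2) ^ p = 2 * (((N + 2) ^ (p + 1) - 2 ^ (p + 1)) / (p + 1)) := by
    have hci : ∀ a b : ℝ, IntervalIntegrable (fun b : ℝ => (|b| + 2) ^ p) volume a b :=
      fun a b => hgc.intervalIntegrable _ _
    rw [← intervalIntegral.integral_add_adjacent_intervals (hci (-N) 0) (hci 0 N)]
    have h4 : ∫ b in (-N)..0, (|b| + 2) ^ p = ∫ b in (0:ℝ)..N, (|b| + 2) ^ p := by
      have := intervalIntegral.integral_comp_neg (a := (0:ℝ)) (b := N) (fun b => (|b| + 2) ^ p)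
      rw [neg_zero] at this
      rw [← this]
      refine intervalIntegral.integral_congr fun b _ => ?_
      show (|-b| + 2) ^ p = (|b| + 2) ^ p
      rw [abs_neg]
    have h5 : ∫ b in (0:ℝ)..N, (|b| + 2) ^ p = ∫ b in (0:ℝ)..N, (b + 2) ^ p := by
      refine intervalIntegral.integral_congr fun b hb => ?_
      rw [uIcc_of_le hN.le] at hb
      show (|b| + 2) ^ p = (b + 2) ^ p
      rw [abs_of_nonneg hb.1]
    rw [h4, h5, intervalIntegral.integral_comp_add_right (fun x => x ^ p),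
      integral_rpow (Or.inl (by linarith)), zero_add]
    ring
  rw [h3, ← ENNReal.ofReal_mul, ← ENNReal.ofReal_mul]
  · refine ENNReal.ofReal_le_ofReal ?_
    have h6 : 0 < (2:ℝ) ^ (p + 1) := by positivity
    have h7 : 2 * (((N + 2) ^ (p + 1) - 2 ^ (p + 1)) / (p + 1)) ≤
        2 * ((N + 2) ^ (p + 1) / (p + 1)) := by
      gcongr
      linarith
    have h8 := mul_le_mul_of_nonneg_right h7 hB0
    calc 2 * (((N + 2) ^ (p + 1) - 2 ^ (p + 1)) / (p + 1)) * B * (1 - -1) ≤
          2 * ((N + 2) ^ (p + 1) / (p + 1)) * B * (1 - -1) := by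
            refine mul_le_mul_of_nonneg_right h8 (by norm_num)
      _ = B * (4 * (N + 2) ^ (p + 1) / (p + 1)) := by ring
  · have h6 : (2:ℝ) ^ (p + 1) ≤ (N + 2) ^ (p + 1) :=
      Real.rpow_le_rpow (by norm_num) (by linarith) (by linarith)
    have : 0 ≤ ((N + 2) ^ (p + 1) - 2 ^ (p + 1)) / (p + 1) := div_nonneg (by linarith) (by linarith)
    positivity
  · have h6 : (2:ℝ) ^ (p + 1) ≤ (N + 2) ^ (p + 1) :=
      Real.rpow_le_rpow (by norm_num) (by linarith) (by linarith)
    have : 0 ≤ ((N + 2) ^ (p + 1) - 2 ^ (p + 1)) / (p + 1) := div_nonneg (by linarith) (by linarith)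
    positivity

end CoordInt

end Pool.Agent.Lib.MP_b0d2bf_gt
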