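import Mathlib
import Pool.Agent.Lib.MP_b0d2bf_gt.Normals

set_option autoImplicit false

/-!
Polar coordinates: integrals of powers of the radial function over subsets of the sphere as
integrals over cones.
-/

namespace Pool.Agent.Lib.MP_b0d2bf_gt

open MeasureTheory Metric Set Filter Topology
open scoped Pointwise

section Polar

variable {n : ℕ}

lemma lint_ioiPow (n : ℕ) (hn : 0 < n) {q R : ℝ} (hq : 0 < q) (hR : 0 < R) :
    ∫⁻ r : Ioi (0:ℝ), (if (r : ℝ) ≤ R then ENNReal.ofReal ((r : ℝ) ^ (q - n)) else 0)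
      ∂(Measure.volumeIoiPow (n - 1)) = ENNReal.ofReal (R ^ q / q) := by
  unfold Measure.volumeIoiPow
  have hm1 : Measurable (fun r : Ioi (0:ℝ) => ENNReal.ofReal ((r : ℝ) ^ (n - 1))) := by fun_prop
  have hm2 : Measurable (fun r : Ioi (0:ℝ) => if (r : ℝ) ≤ R then
      ENNReal.ofReal ((r : ℝ) ^ (q - n)) else 0) := by
    refine Measurable.ite (measurableSet_le measurable_subtype_coe measurable_const) ?_
      measurable_const
    fun_prop
  rw [lintegral_withDensity_eq_lintegral_mul _ hm1 hm2]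
  have h1 : ∀ r : Ioi (0:ℝ), ((fun r : Ioi (0:ℝ) => ENNReal.ofReal ((r : ℝ) ^ (n - 1))) *
      fun r : Ioi (0:ℝ) => if (r : ℝ) ≤ R then ENNReal.ofReal ((r : ℝ) ^ (q - n)) else 0) r =
      (fun r : ℝ => (Iic R).indicator (fun r => ENNReal.ofReal (r ^ (q - 1))) r) (r : ℝ) := by
    intro r
    have hr : (0:ℝ) < r := r.2
    by_cases hrR : (r : ℝ) ≤ R
    · rw [Pi.mul_apply, if_pos hrR]
      beta_reduce
      rw [indicator_of_mem (show (r:ℝ) ∈ Iic R from hrR),
        ← ENNReal.ofReal_mul (by positivity)]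
      congr 1
      rw [← Real.rpow_natCast, ← Real.rpow_add hr]
      congr 1
      rw [Nat.cast_sub hn]
      push_cast; ring
    · rw [Pi.mul_apply, if_neg hrR, mul_zero]
      beta_reduce
      rw [indicator_of_notMem (show (r:ℝ) ∉ Iic R from hrR)]
  rw [lintegral_congr h1, lintegral_subtype_comap measurableSet_Ioi
    (fun r : ℝ => (Iic R).indicator (fun r => ENNReal.ofReal (r ^ (q - 1))) r),
    lintegral_indicator measurableSet_Iic, Measure.restrict_restrict measurableSet_Iic]
  have h2 : Iic R ∩ Ioi 0 = Ioc 0 R := by ext x; simp [and_comm]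
  rw [h2]
  have h3 : IntervalIntegrable (fun r : ℝ => r ^ (q - 1)) volume 0 R :=
    intervalIntegral.intervalIntegrable_rpow' (by linarith)
  rw [← ofReal_integral_eq_lintegral_ofReal h3.1, ← intervalIntegral.integral_of_le hR.le,
    integral_rpow (Or.inl (by linarith))]
  · congr 1
    rw [sub_add_cancel, Real.zero_rpow hq.ne', sub_zero]
  · filter_upwards [ae_restrict_mem measurableSet_Ioc] with r hr
    exact Real.rpow_nonneg hr.1.le _

/-- cone over a set of directions inside a star body -/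
def coneOf [NeZero n] (N : Eu n → ℝ) (B : Set (Sph n)) : Set (Eu n) :=
  {x | x ≠ 0 ∧ dirT x ∈ B ∧ N x ≤ 1}

lemma measurableSet_coneOf [NeZero n] {N : Eu n → ℝ} (hN : Continuous N) {B : Set (Sph n)}
    (hB : MeasurableSet B) : MeasurableSet (coneOf N B) :=
  (measurableSet_singleton (0 : Eu n)).compl.inter
    ((measurable_dirT hB).inter (measurableSet_le hN.measurable measurable_const))

/-- polar coordinates -/
theorem polar [NeZero n] {N : Eu n → ℝ} (hN : Continuous N)
    (hhom : ∀ t : ℝ, 0 ≤ t → ∀ x, N (t • x) = t * N x) (hpos : ∀ x, x ≠ 0 → 0 < N x)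
    {q : ℝ} (hq : 0 < q) {B : Set (Sph n)} (hB : MeasurableSet B) :
    ∫⁻ u in B, ENNReal.ofReal ((N u)⁻¹ ^ q) ∂(sg n) =
      ENNReal.ofReal q * ∫⁻ x in coneOf N B, ENNReal.ofReal (‖x‖ ^ (q - n)) := by
  classical
  have hn : 0 < n := NeZero.pos n
  have hfin : Module.finrank ℝ (Eu n) = n := finrank_euclideanSpace_fin
  have hmp := Measure.measurePreserving_homeomorphUnitSphereProd (E := Eu n) volume
  rw [hfin] at hmp
  have hC := measurableSet_coneOf hN hB
  -- the right-hand side over the punctured space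
  have h1 : ∫⁻ x in coneOf N B, ENNReal.ofReal (‖x‖ ^ (q - n)) =
      ∫⁻ y : ({0}ᶜ : Set (Eu n)), (coneOf N B).indicator
        (fun x => ENNReal.ofReal (‖x‖ ^ (q - n))) (y : Eu n)
          ∂(Measure.comap (Subtype.val : ({0}ᶜ : Set (Eu n)) → Eu n) volume) := by
    rw [lintegral_subtype_comap (measurableSet_singleton (0 : Eu n)).compl
      (fun x => (coneOf N B).indicator (fun x => ENNReal.ofReal (‖x‖ ^ (q - n))) x),
      lintegral_indicator hC, Measure.restrict_restrict hC]
    congr 2
    ext x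
    simp only [mem_inter_iff, mem_compl_iff, mem_singleton_iff]
    exact ⟨fun h => ⟨h, h.1⟩, fun h => h.1⟩
  set G : Sph n × Ioi (0:ℝ) → ENNReal := fun z => B.indicator (fun _ =>
    (if (z.2 : ℝ) ≤ (N z.1)⁻¹ then ENNReal.ofReal ((z.2 : ℝ) ^ (q - n)) else 0)) z.1 with hG
  have hGm : Measurable G := by
    have h2 : Measurable (fun z : Sph n × Ioi (0:ℝ) => if (z.2 : ℝ) ≤ (N z.1)⁻¹ then
        ENNReal.ofReal ((z.2 : ℝ) ^ (q - n)) else 0) := by
      refine Measurable.ite (measurableSet_le (measurable_subtype_coe.comp measurable_snd) ?_) ?_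
        measurable_const
      · exact ((hN.measurable.comp measurable_subtype_coe).comp measurable_fst).inv
      · fun_prop
    have h3 : G = (Prod.fst ⁻¹' B).indicator (fun z : Sph n × Ioi (0:ℝ) =>
        if (z.2 : ℝ) ≤ (N z.1)⁻¹ then ENNReal.ofReal ((z.2 : ℝ) ^ (q - n)) else 0) := by
      funext z
      by_cases hz : z.1 ∈ B
      · rw [hG, indicator_of_mem (show z ∈ Prod.fst ⁻¹' B from hz)]
        simp only [indicator_of_mem hz]
      · rw [hG, indicator_of_notMem (show z ∉ Prod.fst ⁻¹' B from hz)]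
        simp only [indicator_of_notMem hz]
    rw [h3]
    exact h2.indicator (measurable_fst hB)
  have h4 : ∀ y : ({0}ᶜ : Set (Eu n)), (coneOf N B).indicator
        (fun x => ENNReal.ofReal (‖x‖ ^ (q - n))) (y : Eu n) =
        G (homeomorphUnitSphereProd (Eu n) y) := by
    intro y
    have hy0 : (y : Eu n) ≠ 0 := y.2
    have hyn : 0 < ‖(y : Eu n)‖ := norm_pos_iff.2 hy0
    have e1 : (homeomorphUnitSphereProd (Eu n) y).1 = dirT (y : Eu n) := by
      apply Subtype.ext
      rw [homeomorphUnitSphereProd_apply_fst_coe]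
      unfold dirT
      rw [dif_neg hy0]
      rfl
    have e2 : ((homeomorphUnitSphereProd (Eu n) y).2 : ℝ) = ‖(y : Eu n)‖ := by
      rw [homeomorphUnitSphereProd_apply_snd_coe]
    have e3 : N (y : Eu n) = ‖(y : Eu n)‖ * N (dirT (y : Eu n)) := by
      have : (y : Eu n) = ‖(y : Eu n)‖ • ((dirT (y : Eu n) : Sph n) : Eu n) := by
        unfold dirT
        rw [dif_neg hy0]
        exact (norm_smul_dirS _ hy0).symm
      conv_lhs => rw [this]
      rw [hhom _ (norm_nonneg _)]
    have hNd : 0 < N (dirT (y : Eu n)) := hpos _ (sph_ne_zero _)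
    rw [hG]
    simp only [e1, e2]
    by_cases hB' : dirT (y : Eu n) ∈ B
    · rw [indicator_of_mem hB']
      by_cases hNy : N (y : Eu n) ≤ 1
      · rw [indicator_of_mem (show (y : Eu n) ∈ coneOf N B from ⟨hy0, hB', hNy⟩), if_pos]
        rw [e3] at hNy
        rw [← one_div, le_div_iff₀ hNd]
        exact hNy
      · rw [indicator_of_notMem (show (y : Eu n) ∉ coneOf N B from fun h => hNy h.2.2), if_neg]
        intro hcon
        apply hNy
        rw [e3]
        rwa [← one_div, le_div_iff₀ hNd] at hcon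
    · rw [indicator_of_notMem hB', indicator_of_notMem
        (show (y : Eu n) ∉ coneOf N B from fun h => hB' h.2.1)]
  rw [h1, lintegral_congr h4, hmp.lintegral_comp hGm, lintegral_prod _ hGm.aemeasurable]
  have h5 : ∀ u : Sph n, ∫⁻ r : Ioi (0:ℝ), G (u, r) ∂(Measure.volumeIoiPow (n - 1)) =
      B.indicator (fun u => ENNReal.ofReal ((N u)⁻¹ ^ q / q)) u := by
    intro u
    have hNu : 0 < (N u)⁻¹ := inv_pos.2 (hpos _ (sph_ne_zero u))
    by_cases hu : u ∈ B
    · rw [indicator_of_mem hu, ← lint_ioiPow n hn hq hNu]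
      refine lintegral_congr fun r => ?_
      rw [hG]
      simp only [indicator_of_mem hu]
    · rw [indicator_of_notMem hu]
      have : ∀ r : Ioi (0:ℝ), G (u, r) = 0 := fun r => by
        rw [hG]; simp only [indicator_of_notMem hu]
      simp only [this, lintegral_zero]
  rw [lintegral_congr h5, lintegral_indicator hB]
  unfold sg
  rw [← lintegral_const_mul' _ _ ENNReal.ofReal_ne_top]
  refine lintegral_congr fun u => ?_
  rw [← ENNReal.ofReal_mul hq.le]
  congr 1
  field_simp

end Polar

end Pool.Agent.Lib.MP_b0d2bf_gt
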