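import Mathlib
import Pool.Agent.Lib.MP_b0d2bf_gt.Final
import Pool.Agent.Lib.MP_b0d2bf_gt.Polar

set_option autoImplicit false

/-!
The (unnormalised) dual curvature measure as a push-forward, and its basic properties.
-/

namespace Pool.Agent.Lib.MP_b0d2bf_gt

open MeasureTheory Metric Set Filter Topology
open scoped Pointwise

section Mass

variable {n : ℕ}

/-- `n` times the dual curvature measure -/
noncomputable def MM [NeZero n] (q : ℝ) (h : Sph n → ℝ) : Measure (Sph n) :=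
  Measure.map (nu h) ((sg n).withDensity (fun u : Sph n => ENNReal.ofReal ((gN h u)⁻¹ ^ q)))

lemma MM_apply [NeZero n] (q : ℝ) (h : Sph n → ℝ) {ω : Set (Sph n)} (hω : MeasurableSet ω) :
    MM q h ω = ∫⁻ u in nu h ⁻¹' ω, ENNReal.ofReal ((gN h (u : Eu n))⁻¹ ^ q) ∂(sg n) := by
  unfold MM
  rw [Measure.map_apply (measurable_nu h) hω, withDensity_apply _ (measurable_nu h hω)]

lemma isFinite_MM [NeZero n] {h : Sph n → ℝ} (hc : Continuous h) (h0 : ∀ v, 0 < h v) (q : ℝ) :
    IsFiniteMeasure (MM q h) := by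
  have : IsFiniteMeasure ((sg n).withDensity
      (fun u : Sph n => ENNReal.ofReal ((gN h u)⁻¹ ^ q))) :=
    isFiniteMeasure_withDensity_ofReal (integrable_radpow hc h0 q).2
  unfold MM
  infer_instance

lemma invGauss_ae [NeZero n] {h : Sph n → ℝ} (hc : Continuous h) (h0 : ∀ v, 0 < h v)
    (hs : ∀ v, supp h v = h v) (ω : Set (Sph n)) :
    invGauss (wulff h) ω =ᵐ[sg n] nu h ⁻¹' ω := by
  filter_upwards [ae_diff hc h0] with u hu
  apply propext
  constructor
  · rintro ⟨v, hv, hnv⟩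
    rw [isNormal_iff hc h0 hs, isMx_iff hc h0 hu] at hnv
    show nu h u ∈ ω
    rw [hnv]; exact hv
  · intro hv
    exact ⟨nu h u, hv, (isNormal_iff hc h0 hs u _).2 (isMx_nu hc h0 hu)⟩

lemma invGauss_null [NeZero n] {h : Sph n → ℝ} (hc : Continuous h) (h0 : ∀ v, 0 < h v)
    (hs : ∀ v, supp h v = h v) {ω : Set (Sph n)} (hω : MeasurableSet ω) :
    NullMeasurableSet (invGauss (wulff h) ω) ((volume : Measure (Eu n)).toSphere) :=
  (measurable_nu h hω).nullMeasurableSet.congr (invGauss_ae hc h0 hs ω).symm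

lemma dualCurv_wulff [NeZero n] {h : Sph n → ℝ} (hc : Continuous h) (h0 : ∀ v, 0 < h v)
    (hs : ∀ v, supp h v = h v) (q : ℝ) {ω : Set (Sph n)} (hω : MeasurableSet ω) :
    dualCurv q (wulff h) ω = (n : ENNReal)⁻¹ * MM q h ω := by
  unfold dualCurv
  congr 1
  rw [MM_apply q h hω]
  have h2 := Measure.restrict_congr_set (invGauss_ae hc h0 hs ω)
  unfold sg at h2
  rw [h2]
  simp only [radial_wulff hc h0]
  rfl

/-- null sets: almost every normal lies in `ω` -/
lemma MM_compl_eq_zero [NeZero n] {q : ℝ} {h : Sph n → ℝ}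
    {ω : Set (Sph n)} (hω : MeasurableSet ω) (hae : ∀ᵐ u ∂(sg n), nu h u ∉ ω) :
    MM q h ω = 0 := by
  rw [MM_apply q h hω]
  have h1 : (sg n).restrict (nu h ⁻¹' ω) = 0 := by
    rw [Measure.restrict_eq_zero]
    rw [ae_iff] at hae
    convert hae using 2
    ext u; simp
  rw [h1, lintegral_zero_measure]

lemma ae_of_MM_eq_zero [NeZero n] {q : ℝ} {h : Sph n → ℝ} (hc : Continuous h) (h0 : ∀ v, 0 < h v)
    {ω : Set (Sph n)} (hω : MeasurableSet ω) (hz : MM q h ω = 0) :
    ∀ᵐ u ∂(sg n), nu h u ∉ ω := by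
  rw [MM_apply q h hω] at hz
  have hm : Measurable (fun u : Sph n => ENNReal.ofReal ((gN h (u : Eu n))⁻¹ ^ q)) :=
    (continuous_radpow hc h0 q).measurable.ennreal_ofReal
  rw [lintegral_eq_zero_iff hm] at hz
  have h1 : ∀ᵐ u ∂((sg n).restrict (nu h ⁻¹' ω)), False := by
    filter_upwards [hz] with u hu
    have h2 : 0 < (gN h (u : Eu n))⁻¹ ^ q :=
      Real.rpow_pos_of_pos (inv_pos.2 (gN_pos hc h0 (sph_ne_zero u))) q
    have h3 : ENNReal.ofReal ((gN h (u : Eu n))⁻¹ ^ q) = 0 := hu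
    rw [ENNReal.ofReal_eq_zero] at h3
    linarith
  rw [ae_restrict_iff' (measurable_nu h hω)] at h1
  filter_upwards [h1] with u hu hu2
  exact hu hu2

/-- the mass of `ω` as an integral over a cone -/
lemma MM_cone [NeZero n] {q : ℝ} (hq : 0 < q) {h : Sph n → ℝ} (hc : Continuous h)
    (h0 : ∀ v, 0 < h v) {ω : Set (Sph n)} (hω : MeasurableSet ω) :
    MM q h ω = ENNReal.ofReal q * ∫⁻ x in coneOf (gN h) (nu h ⁻¹' ω),
      ENNReal.ofReal (‖x‖ ^ (q - n)) := by
  rw [MM_apply q h hω]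
  exact polar (continuous_gN hc h0) (fun t ht x => gN_smul hc h0 ht x)
    (fun x hx => gN_pos hc h0 hx) hq (measurable_nu h hω)

lemma coneOf_univ_ae [NeZero n] (N : Eu n → ℝ) :
    coneOf N univ =ᵐ[volume] {x : Eu n | N x ≤ 1} := by
  have h1 : ∀ᵐ x : Eu n, x ≠ 0 := by
    rw [ae_iff]
    have : {x : Eu n | ¬ x ≠ 0} = {0} := by ext x; simp
    rw [this]
    have : Nontrivial (Eu n) := inferInstance
    exact measure_singleton (0 : Eu n)
  filter_upwards [h1] with x hx
  apply propext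
  constructor
  · intro hx2; exact hx2.2.2
  · intro hx2; exact ⟨hx, mem_univ _, hx2⟩

lemma wulff_eq [NeZero n] {h : Sph n → ℝ} (hc : Continuous h) (h0 : ∀ v, 0 < h v) :
    {x : Eu n | gN h x ≤ 1} = wulff h := by
  ext x
  exact (mem_wulff_iff hc h0).symm

lemma MM_univ [NeZero n] {q : ℝ} (hq : 0 < q) {h : Sph n → ℝ} (hc : Continuous h)
    (h0 : ∀ v, 0 < h v) :
    MM q h univ = ENNReal.ofReal q * ∫⁻ x in wulff h, ENNReal.ofReal (‖x‖ ^ (q - n)) := by
  rw [MM_cone hq hc h0 MeasurableSet.univ, preimage_univ]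
  congr 1
  rw [Measure.restrict_congr_set (coneOf_univ_ae (gN h)), wulff_eq hc h0]

/-- the integral of `‖x‖ ^ p` over the body -/
noncomputable def DD (p : ℝ) (K : Set (Eu n)) : ℝ := ∫ x in K, ‖x‖ ^ p

lemma continuous_norm_rpow {p : ℝ} (hp : 0 ≤ p) : Continuous (fun x : Eu n => ‖x‖ ^ p) :=
  continuous_norm.rpow_const fun _ => Or.inr hp

lemma DD_eq {p : ℝ} (hp : 0 ≤ p) {K : Set (Eu n)} (hK : IsCompact K) :
    ∫⁻ x in K, ENNReal.ofReal (‖x‖ ^ p) = ENNReal.ofReal (DD p K) := by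
  unfold DD
  rw [ofReal_integral_eq_lintegral_ofReal]
  · exact (continuous_norm_rpow hp).continuousOn.integrableOn_compact hK
  · exact Eventually.of_forall fun x => Real.rpow_nonneg (norm_nonneg _) _

lemma DD_nonneg {p : ℝ} (K : Set (Eu n)) : 0 ≤ DD p K :=
  integral_nonneg fun _ => Real.rpow_nonneg (norm_nonneg _) _

lemma MM_univ' [NeZero n] {q : ℝ} (hq : (n : ℝ) < q) {h : Sph n → ℝ} (hc : Continuous h)
    (h0 : ∀ v, 0 < h v) : MM q h univ = ENNReal.ofReal (q * DD (q - n) (wulff h)) := by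
  have hn : (0:ℝ) < n := by exact_mod_cast NeZero.pos n
  rw [MM_univ (by linarith) hc h0, DD_eq (by linarith) (isCompact_wulff hc h0),
    ENNReal.ofReal_mul (by linarith)]

lemma II_eq [NeZero n] {q : ℝ} (hq : (n : ℝ) < q) {h : Sph n → ℝ} (hc : Continuous h)
    (h0 : ∀ v, 0 < h v) : II q h = q * DD (q - n) (wulff h) := by
  have hn : (0:ℝ) < n := by exact_mod_cast NeZero.pos n
  have h1 : MM q h univ = ENNReal.ofReal (II q h) := by
    rw [MM_apply q h MeasurableSet.univ, preimage_univ, Measure.restrict_univ]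
    unfold II
    rw [ofReal_integral_eq_lintegral_ofReal (integrable_radpow hc h0 q)]
    exact Eventually.of_forall fun u =>
      (Real.rpow_pos_of_pos (inv_pos.2 (gN_pos hc h0 (sph_ne_zero u))) q).le
  rw [MM_univ' hq hc h0] at h1
  have h2 := (ENNReal.ofReal_eq_ofReal_iff (mul_nonneg (by linarith) (DD_nonneg _))
    (II_pos hc h0 q).le).1 h1
  exact h2.symm

lemma DD_pos [NeZero n] {q : ℝ} (hq : (n : ℝ) < q) {h : Sph n → ℝ} (hc : Continuous h)
    (h0 : ∀ v, 0 < h v) : 0 < DD (q - n) (wulff h) := by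
  have hn : (0:ℝ) < n := by exact_mod_cast NeZero.pos n
  have h1 := II_pos hc h0 q
  rw [II_eq hq hc h0] at h1
  exact (mul_pos_iff_of_pos_left (by linarith)).1 h1

/-- evenness of the measure -/
lemma MM_even [NeZero n] {q : ℝ} {h : Sph n → ℝ} (hc : Continuous h)
    (h0 : ∀ v, 0 < h v) (he : ∀ v, h (-v) = h v) {ω : Set (Sph n)} (hω : MeasurableSet ω) :
    MM q h {v | -v ∈ ω} = MM q h ω := by
  have hm : Measurable (fun u : Sph n => -u) := continuous_neg.measurable
  have hω' : MeasurableSet {v : Sph n | -v ∈ ω} := hm hω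
  rw [MM_apply q h hω, MM_apply q h hω']
  have hd : Measurable (fun u : Sph n => ENNReal.ofReal ((gN h (u : Eu n))⁻¹ ^ q)) :=
    (continuous_radpow hc h0 q).measurable.ennreal_ofReal
  rw [← lintegral_indicator (measurable_nu h hω'), ← lintegral_indicator (measurable_nu h hω)]
  conv_rhs => rw [← map_neg_sg, lintegral_map (hd.indicator (measurable_nu h hω)) hm]
  refine lintegral_congr_ae ?_
  filter_upwards [ae_diff hc h0] with u hu
  have h1 := nu_neg hc h0 he hu
  by_cases hu2 : -nu h u ∈ ω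
  · rw [indicator_of_mem (show u ∈ nu h ⁻¹' {v | -v ∈ ω} from hu2),
      indicator_of_mem (show -u ∈ nu h ⁻¹' ω from by
        show nu h (-u) ∈ ω
        rw [h1]; exact hu2), coe_neg_sphere, gN_neg hc h0 he]
  · rw [indicator_of_notMem (show u ∉ nu h ⁻¹' {v | -v ∈ ω} from hu2),
      indicator_of_notMem (show -u ∉ nu h ⁻¹' ω from by
        intro h3
        apply hu2
        have h4 : nu h (-u) ∈ ω := h3
        rw [h1] at h4; exact h4)]

end Mass

end Pool.Agent.Lib.MP_b0d2bf_gt
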