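import Mathlib
import Pool.Agent.Lib.MP_b0d2bf_gt.Mass

set_option autoImplicit false

/-!
The concentration inequality: the mass of a dual curvature measure near thin directions.
-/

namespace Pool.Agent.Lib.MP_b0d2bf_gt

open MeasureTheory Metric Set Filter Topology
open scoped Pointwise

section Conc

variable {n : ℕ}

/-- stretching by `1 + s` in the direction `z` -/
noncomputable def strM (z : Sph n) (s : ℝ) : Eu n →ₗ[ℝ] Eu n :=
  LinearMap.transvection (s • (innerSL ℝ (z : Eu n)).toLinearMap) (z : Eu n)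

lemma strM_apply (z : Sph n) (s : ℝ) (x : Eu n) :
    strM z s x = x + (s * inner ℝ x (z : Eu n)) • (z : Eu n) := by
  unfold strM LinearMap.transvection
  show x + (s • (innerSL ℝ (z : Eu n)).toLinearMap) x • (z : Eu n) = _
  rw [LinearMap.smul_apply, ContinuousLinearMap.coe_coe, innerSL_apply_apply, real_inner_comm,
    smul_eq_mul]

lemma det_strM (z : Sph n) (s : ℝ) : LinearMap.det (strM z s) = 1 + s := by
  unfold strM
  rw [LinearMap.transvection.det, LinearMap.smul_apply, ContinuousLinearMap.coe_coe,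
    innerSL_apply_apply, real_inner_self_eq_norm_sq, norm_sph, smul_eq_mul]
  ring

lemma continuous_strM (z : Sph n) (s : ℝ) : Continuous (strM z s) :=
  LinearMap.continuous_of_finiteDimensional _

lemma lint_strM (z : Sph n) {s : ℝ} (hs : -1 < s) {G : Eu n → ENNReal} (hG : Measurable G) :
    ∫⁻ x, G (strM z s x) = ENNReal.ofReal (1 + s)⁻¹ * ∫⁻ x, G x := by
  have h1 : (0:ℝ) < 1 + s := by linarith
  have h2 := Measure.map_linearMap_addHaar_eq_smul_addHaar (volume : Measure (Eu n))
    (f := strM z s) (by rw [det_strM]; exact h1.ne')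
  rw [det_strM, abs_of_pos (inv_pos.2 h1)] at h2
  rw [← lintegral_map hG (continuous_strM z s).measurable, h2, lintegral_smul_measure, smul_eq_mul]

lemma inner_strM (z : Sph n) (s : ℝ) (x : Eu n) :
    inner ℝ (strM z s x) (z : Eu n) = (1 + s) * inner ℝ x (z : Eu n) := by
  rw [strM_apply, inner_add_left, inner_smul_left, real_inner_self_eq_norm_sq, norm_sph]
  simp only [conj_trivial]
  ring

lemma strM_comp (z : Sph n) {t : ℝ} (ht : -1 < t) (x : Eu n) :
    strM z (-(t / (1 + t))) (strM z t x) = x := by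
  rw [strM_apply z (-(t / (1 + t))), inner_strM, strM_apply, add_assoc, ← add_smul]
  have h1 : (1 + t) ≠ 0 := by linarith
  have : t * inner ℝ x (z : Eu n) + -(t / (1 + t)) * ((1 + t) * inner ℝ x (z : Eu n)) = 0 := by
    field_simp
    ring
  rw [this, zero_smul, add_zero]

lemma norm_sq_strM (z : Sph n) (s : ℝ) (x : Eu n) :
    ‖strM z s x‖ ^ 2 = ‖x‖ ^ 2 + (2 * s + s ^ 2) * inner ℝ x (z : Eu n) ^ 2 := by
  rw [strM_apply, norm_add_sq_real, inner_smul_right, norm_smul, norm_sph, mul_one,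
    Real.norm_eq_abs, sq_abs]
  ring

lemma rpow_neg_le {q y : ℝ} (hq : 0 < q) (hy : |y| ≤ 1 / 2) (hy2 : 2 * q * |y| ≤ 1) :
    (1 - y)⁻¹ ^ q ≤ 1 + q * y + (2 * q + 4 * q ^ 2) * y ^ 2 := by
  have hy' := abs_le.1 hy
  have h1 : 0 < 1 - y := by linarith
  have h2 := Real.one_sub_inv_le_log_of_pos h1
  have h3 : (1 - y)⁻¹ ≤ 1 + y + 2 * y ^ 2 := by
    rw [inv_eq_one_div, div_le_iff₀ h1]
    nlinarith [sq_nonneg y, mul_nonneg (sq_nonneg y) (by linarith : (0:ℝ) ≤ 1 - 2 * y)]
  have h4 : -Real.log (1 - y) ≤ y + 2 * y ^ 2 := by linarith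
  have h5 : (1 - y)⁻¹ ^ q = Real.exp (q * (-Real.log (1 - y))) := by
    rw [Real.rpow_def_of_pos (inv_pos.2 h1), Real.log_inv]
    congr 1; ring
  have habs : |y + 2 * y ^ 2| ≤ 2 * |y| := by
    have h6 : 2 * y ^ 2 ≤ |y| := by
      rw [← sq_abs]
      nlinarith [abs_nonneg y]
    calc |y + 2 * y ^ 2| ≤ |y| + |2 * y ^ 2| := abs_add_le _ _
      _ = |y| + 2 * y ^ 2 := by rw [abs_of_nonneg (by positivity : (0:ℝ) ≤ 2 * y ^ 2)]
      _ ≤ 2 * |y| := by linarith
  have habs2 : |q * (y + 2 * y ^ 2)| ≤ 1 := by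
    rw [abs_mul, abs_of_pos hq]
    calc q * |y + 2 * y ^ 2| ≤ q * (2 * |y|) := mul_le_mul_of_nonneg_left habs hq.le
      _ = 2 * q * |y| := by ring
      _ ≤ 1 := hy2
  have h7 := (abs_le.1 (Real.abs_exp_sub_one_sub_id_le habs2)).2
  have h8 : Real.exp (q * (-Real.log (1 - y))) ≤ Real.exp (q * (y + 2 * y ^ 2)) :=
    Real.exp_le_exp.2 (mul_le_mul_of_nonneg_left h4 hq.le)
  rw [h5]
  refine h8.trans ?_
  have h9 : (y + 2 * y ^ 2) ^ 2 ≤ 4 * y ^ 2 := by
    rw [← sq_abs (y + 2 * y ^ 2)]
    calc |y + 2 * y ^ 2| ^ 2 ≤ (2 * |y|) ^ 2 := pow_le_pow_left₀ (abs_nonneg _) habs 2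
      _ = 4 * y ^ 2 := by rw [mul_pow, sq_abs]; ring
  have h10 : (q * (y + 2 * y ^ 2)) ^ 2 ≤ 4 * q ^ 2 * y ^ 2 := by
    rw [mul_pow]
    nlinarith [mul_le_mul_of_nonneg_left h9 (sq_nonneg q)]
  nlinarith

/-- the test function -/
noncomputable def gg [NeZero n] (h : Sph n → ℝ) (z u : Sph n) : ℝ :=
  (gN h u)⁻¹ * inner ℝ (u : Eu n) (z : Eu n) * (inner ℝ (z : Eu n) (nu h u : Eu n) / h (nu h u))

lemma measurable_gg [NeZero n] {h : Sph n → ℝ} (hc : Continuous h) (h0 : ∀ v, 0 < h v)
    (z : Sph n) : Measurable (gg h z) := by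
  unfold gg
  have hm := measurable_nu h
  refine Measurable.mul ?_ (Measurable.div ?_ (hc.measurable.comp hm))
  · exact ((continuous_rad hc h0).mul (continuous_subtype_val.inner continuous_const)).measurable
  · have h1 : Continuous (fun v : Sph n => inner ℝ (z : Eu n) (v : Eu n)) :=
      continuous_const.inner continuous_subtype_val
    exact h1.measurable.comp hm

lemma abs_inner_sph (u v : Sph n) : |inner ℝ (u : Eu n) (v : Eu n)| ≤ 1 := by
  have := abs_inner_le (u : Eu n) v
  rwa [norm_sph] at this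

lemma gg_bound [NeZero n] {h : Sph n → ℝ} (hc : Continuous h) (h0 : ∀ v, 0 < h v) :
    ∃ G : ℝ, 0 < G ∧ ∀ z u : Sph n, |gg h z u| ≤ G := by
  obtain ⟨c, hc0, hcl⟩ := exists_low hc h0
  obtain ⟨C, hC0, hCu⟩ := exists_upp hc h0
  refine ⟨C / c, by positivity, fun z u => ?_⟩
  have hN := gN_pos hc h0 (sph_ne_zero u)
  have h1 : (gN h (u : Eu n))⁻¹ ≤ C := by
    have := norm_le_gN hc h0 hCu (u : Eu n)
    rw [norm_sph] at this
    rw [inv_le_comm₀ hN hC0, ← one_div]
    exact this
  have h2 : |inner ℝ (z : Eu n) (nu h u : Eu n) / h (nu h u)| ≤ c⁻¹ := by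
    rw [abs_div, abs_of_pos (h0 _), ← one_div]
    exact div_le_div₀ zero_le_one (abs_inner_sph z _) hc0 (hcl _)
  unfold gg
  rw [abs_mul, abs_mul, abs_of_pos (inv_pos.2 hN), div_eq_mul_inv]
  refine mul_le_mul ?_ h2 (abs_nonneg _) hC0.le
  calc (gN h (u : Eu n))⁻¹ * |inner ℝ (u : Eu n) (z : Eu n)| ≤ C * 1 :=
        mul_le_mul h1 (abs_inner_sph u z) (abs_nonneg _) hC0.le
    _ = C := mul_one C

/-- lower bound for the volume side -/
lemma norm_strM_rpow {p S t : ℝ} (hp : 0 < p) (hS : 0 < S) (ht : 0 ≤ t) (ht2 : t ≤ 1 / 2)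
    (z : Sph n) {y : Eu n} (hy : ‖y‖ ≤ S) :
    ‖y‖ ^ p * (1 + p / (2 * S ^ 2) * t * inner ℝ y (z : Eu n) ^ 2) ≤ ‖strM z t y‖ ^ p := by
  set a : ℝ := inner ℝ y (z : Eu n) with ha
  have ha1 : a ^ 2 ≤ ‖y‖ ^ 2 := by
    rw [← sq_abs a]
    exact pow_le_pow_left₀ (abs_nonneg _) (abs_inner_le y z) 2
  set Y : ℝ := 2 * t * a ^ 2 / S ^ 2 with hY
  have hY0 : 0 ≤ Y := by positivity
  have hyS : ‖y‖ ^ 2 ≤ S ^ 2 := pow_le_pow_left₀ (norm_nonneg _) hy 2
  have hY1 : Y ≤ 1 := by
    rw [hY, div_le_one (by positivity)]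
    nlinarith [sq_nonneg a, norm_nonneg y]
  have h1 : ‖y‖ ^ 2 * (1 + Y) ≤ ‖strM z t y‖ ^ 2 := by
    rw [norm_sq_strM, ← ha]
    have h2 : ‖y‖ ^ 2 * Y ≤ 2 * t * a ^ 2 := by
      rw [hY, mul_div_assoc', div_le_iff₀ (by positivity)]
      have : 0 ≤ 2 * t * a ^ 2 := by positivity
      nlinarith
    nlinarith [mul_nonneg (sq_nonneg t) (sq_nonneg a)]
  have h3 : (‖y‖ ^ 2 * (1 + Y)) ^ (p / 2) ≤ (‖strM z t y‖ ^ 2) ^ (p / 2) :=
    Real.rpow_le_rpow (by positivity) h1 (by positivity)
  have h4 : ∀ x : Eu n, (‖x‖ ^ 2) ^ (p / 2) = ‖x‖ ^ p := by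
    intro x
    rw [← Real.rpow_natCast, ← Real.rpow_mul (norm_nonneg _)]
    congr 1
    push_cast; ring
  rw [h4, Real.mul_rpow (by positivity) (by positivity), h4] at h3
  refine le_trans (mul_le_mul_of_nonneg_left ?_ (Real.rpow_nonneg (norm_nonneg _) _)) h3
  have h5 : (1 + Y) ^ (p / 2) = Real.exp (Real.log (1 + Y) * (p / 2)) :=
    Real.rpow_def_of_pos (by positivity) _
  have h6 : Y / 2 ≤ Real.log (1 + Y) := by
    have h7 := Real.one_sub_inv_le_log_of_pos (by positivity : (0:ℝ) < 1 + Y)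
    refine le_trans ?_ h7
    rw [show (1:ℝ) - (1 + Y)⁻¹ = Y / (1 + Y) by field_simp; ring]
    exact div_le_div_of_nonneg_left hY0 (by positivity) (by linarith)
  rw [h5]
  have h8 := Real.add_one_le_exp (Real.log (1 + Y) * (p / 2))
  refine le_trans ?_ h8
  have h9 : p / (2 * S ^ 2) * t * a ^ 2 = Y / 2 * (p / 2) := by
    rw [hY]; field_simp
  rw [h9]
  have := mul_le_mul_of_nonneg_right h6 (by positivity : 0 ≤ p / 2)
  linarith

/-- the concentration inequality -/
theorem conc [NeZero n] {q : ℝ} (hq : (n : ℝ) < q) {h : Sph n → ℝ} (hc : Continuous h)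
    (h0 : ∀ v, 0 < h v) (z : Sph n) {S : ℝ} (hS : 0 < S) (hSK : wulff h ⊆ closedBall 0 S) :
    DD (q - n) (wulff h) + (q - n) / (2 * S ^ 2) *
      (∫ x in wulff h, ‖x‖ ^ (q - n) * inner ℝ x (z : Eu n) ^ 2) ≤
    ∫ u : Sph n, (gN h u)⁻¹ ^ q * gg h z u ∂(sg n) := by
  have hn : (0:ℝ) < n := by exact_mod_cast NeZero.pos n
  have hq0 : 0 < q := by linarith
  have hp : 0 < q - n := by linarith
  have hcN := continuous_gN hc h0
  have hKc := isCompact_wulff hc h0
  have hKm : MeasurableSet (wulff h) := hKc.measurableSet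
  set D := DD (q - n) (wulff h) with hD
  set D2 := ∫ x in wulff h, ‖x‖ ^ (q - n) * inner ℝ x (z : Eu n) ^ 2 with hD2
  set χ := (q - n) / (2 * S ^ 2) with hχ
  set X := ∫ u : Sph n, (gN h u)⁻¹ ^ q * gg h z u ∂(sg n) with hX
  obtain ⟨G, hG0, hG⟩ := gg_bound hc h0
  set C := (2 * q + 4 * q ^ 2) * G ^ 2 with hC
  have hD0 : 0 < D := DD_pos hq hc h0
  have hcont2 : Continuous (fun x : Eu n => ‖x‖ ^ (q - n) * inner ℝ x (z : Eu n) ^ 2) :=
    (continuous_norm_rpow hp.le).mul ((continuous_id.inner continuous_const).pow 2)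
  have hD20 : 0 ≤ D2 := integral_nonneg fun x =>
    mul_nonneg (Real.rpow_nonneg (norm_nonneg _) _) (sq_nonneg _)
  have hχ0 : 0 ≤ χ := by positivity
  -- the inequality for a given small t
  have key : ∀ t : ℝ, 0 < t → t ≤ 1 / 2 → t * G ≤ 1 / 2 → 2 * q * (t * G) ≤ 1 →
      D + χ * D2 ≤ X / (1 + t) + C * D * t := by
    intro t ht ht2 htG htq
    set s := t / (1 + t) with hs
    have hs0 : 0 < s := by positivity
    have hst : s ≤ t := by
      rw [hs, div_le_iff₀ (by linarith)]
      nlinarith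
    set Nt : Eu n → ℝ := fun x => gN h (strM z (-s) x) with hNt
    have hNtc : Continuous Nt := hcN.comp (continuous_strM z _)
    have hs1 : s < 1 := by
      rw [hs, div_lt_one (by linarith)]
      linarith
    have hinj : ∀ x : Eu n, x ≠ 0 → strM z (-s) x ≠ 0 := by
      intro x hx hcon
      have h1 : LinearMap.det (strM z (-s)) ≠ 0 := by
        rw [det_strM]; linarith
      have h2 := (LinearMap.isUnit_iff_isUnit_det (f := strM z (-s))).2 (isUnit_iff_ne_zero.2 h1)
      have h3 : Function.Injective (strM z (-s)) := by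
        rw [Module.End.isUnit_iff] at h2
        exact h2.injective
      apply hx
      apply h3
      rw [hcon, map_zero]
    have hNtpos : ∀ x : Eu n, x ≠ 0 → 0 < Nt x := fun x hx => gN_pos hc h0 (hinj x hx)
    have hNthom : ∀ r : ℝ, 0 ≤ r → ∀ x, Nt (r • x) = r * Nt x := by
      intro r hr x
      simp only [hNt, map_smul]
      exact gN_smul hc h0 hr _
    -- the volume side
    have hvol : ENNReal.ofReal (q * ((1 + t) * (D + χ * t * D2))) ≤
        ∫⁻ u : Sph n, ENNReal.ofReal ((Nt u)⁻¹ ^ q) ∂(sg n) := by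
      have h1 := polar hNtc hNthom hNtpos hq0 (B := univ) MeasurableSet.univ
      rw [Measure.restrict_univ] at h1
      rw [h1, Measure.restrict_congr_set (coneOf_univ_ae Nt), ENNReal.ofReal_mul hq0.le]
      refine mul_le_mul_right ?_ _
      have hmset : MeasurableSet {x : Eu n | Nt x ≤ 1} :=
        measurableSet_le hNtc.measurable measurable_const
      rw [← lintegral_indicator hmset]
      set F : Eu n → ENNReal := (wulff h).indicator
        (fun y => ENNReal.ofReal (‖strM z t y‖ ^ (q - n))) with hF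
      have hFm : Measurable F := by
        refine Measurable.indicator ?_ hKm
        exact ((continuous_norm_rpow hp.le).comp (continuous_strM z t)).measurable.ennreal_ofReal
      have hinv : ∀ x : Eu n, strM z t (strM z (-s) x) = x := by
        intro x
        have h2 := strM_comp z (t := -s) (by linarith) x
        have h3 : -(-s / (1 + -s)) = t := by
          rw [hs]
          have : (1 + t) ≠ 0 := by linarith
          field_simp
          ring
        rwa [h3] at h2
      have h2 : ∀ x : Eu n, {x : Eu n | Nt x ≤ 1}.indicator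
          (fun x => ENNReal.ofReal (‖x‖ ^ (q - n))) x = F (strM z (-s) x) := by
        intro x
        by_cases hx : Nt x ≤ 1
        · rw [indicator_of_mem (show x ∈ {x : Eu n | Nt x ≤ 1} from hx), hF,
            indicator_of_mem (show strM z (-s) x ∈ wulff h from (mem_wulff_iff hc h0).2 hx), hinv]
        · rw [indicator_of_notMem (show x ∉ {x : Eu n | Nt x ≤ 1} from hx), hF,
            indicator_of_notMem (show strM z (-s) x ∉ wulff h from
              fun hcon => hx ((mem_wulff_iff hc h0).1 hcon))]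
      rw [lintegral_congr h2, lint_strM z (by linarith) hFm, hF, lintegral_indicator hKm]
      have h3 : (1 + -s)⁻¹ = 1 + t := by
        rw [hs]
        have : (1 + t) ≠ 0 := by linarith
        field_simp
        ring
      rw [h3, ENNReal.ofReal_mul (by linarith)]
      refine mul_le_mul_right ?_ _
      have h4 : D + χ * t * D2 =
          ∫ y in wulff h, ‖y‖ ^ (q - n) * (1 + χ * t * inner ℝ y (z : Eu n) ^ 2) := by
        rw [hD, hD2]
        unfold DD
        rw [← integral_const_mul, ← integral_add]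
        · refine integral_congr_ae (Eventually.of_forall fun y => ?_)
          show ‖y‖ ^ (q - n) + χ * t * (‖y‖ ^ (q - n) * inner ℝ y (z : Eu n) ^ 2) =
            ‖y‖ ^ (q - n) * (1 + χ * t * inner ℝ y (z : Eu n) ^ 2)
          ring
        · exact (continuous_norm_rpow hp.le).continuousOn.integrableOn_compact hKc
        · exact (continuous_const.mul hcont2).continuousOn.integrableOn_compact hKc
      rw [h4, ofReal_integral_eq_lintegral_ofReal]
      · refine setLIntegral_mono' hKm fun y hy => ?_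
        refine ENNReal.ofReal_le_ofReal ?_
        rw [hχ]
        exact norm_strM_rpow hp hS ht.le ht2 z (mem_closedBall_zero_iff.1 (hSK hy))
      · refine ContinuousOn.integrableOn_compact hKc (Continuous.continuousOn ?_)
        exact (continuous_norm_rpow hp.le).mul (continuous_const.add
          (continuous_const.mul ((continuous_id.inner continuous_const).pow 2)))
      · refine Eventually.of_forall fun y => ?_
        exact mul_nonneg (Real.rpow_nonneg (norm_nonneg _) _)
          (by have := sq_nonneg (inner ℝ y (z : Eu n)); positivity)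
    -- the sphere side
    have hNti : Integrable (fun u : Sph n => (Nt u)⁻¹ ^ q) (sg n) := by
      refine Continuous.integrable_of_hasCompactSupport ?_ (HasCompactSupport.of_compactSpace _)
      refine Continuous.rpow_const ?_ fun u =>
        Or.inl (inv_pos.2 (hNtpos _ (sph_ne_zero u))).ne'
      exact (hNtc.comp continuous_subtype_val).inv₀ fun u => (hNtpos _ (sph_ne_zero u)).ne'
    have hggi : Integrable (fun u : Sph n => (gN h u)⁻¹ ^ q * gg h z u) (sg n) := by
      refine (integrable_radpow hc h0 q).mul_bdd (c := G)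
        (measurable_gg hc h0 z).aestronglyMeasurable ?_
      exact Eventually.of_forall fun u => hG z u
    have hsph : ∫ u : Sph n, (Nt u)⁻¹ ^ q ∂(sg n) ≤
        ∫ u : Sph n, ((1 + C * s ^ 2) * (gN h u)⁻¹ ^ q +
          q * s * ((gN h u)⁻¹ ^ q * gg h z u)) ∂(sg n) := by
      refine integral_mono_ae hNti
        (((integrable_radpow hc h0 q).const_mul _).add (hggi.const_mul _)) ?_
      filter_upwards [ae_diff hc h0] with u hu
      show (Nt u)⁻¹ ^ q ≤ (1 + C * s ^ 2) * (gN h u)⁻¹ ^ q +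
          q * s * ((gN h u)⁻¹ ^ q * gg h z u)
      have hN := gN_pos hc h0 (sph_ne_zero u)
      have hmx : inner ℝ (u : Eu n) (nu h u : Eu n) / h (nu h u) = gN h u := isMx_nu hc h0 hu
      have hgu := hG z u
      have hsg : |s * gg h z u| ≤ t * G := by
        rw [abs_mul, abs_of_pos hs0]
        exact mul_le_mul hst hgu (abs_nonneg _) ht.le
      have h1 : gN h u * (1 - s * gg h z u) ≤ Nt u := by
        have h2 := le_gN hc h0 (strM z (-s) (u : Eu n)) (nu h u)
        refine le_trans (le_of_eq ?_) h2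
        rw [strM_apply, inner_add_left, inner_smul_left, add_div, hmx]
        unfold gg
        simp only [conj_trivial]
        field_simp
        ring
      have h3 : 0 < 1 - s * gg h z u := by
        have := (abs_le.1 hsg).2
        linarith
      have h4 : (Nt u)⁻¹ ^ q ≤ (gN h u)⁻¹ ^ q * (1 - s * gg h z u)⁻¹ ^ q := by
        rw [← Real.mul_rpow (inv_pos.2 hN).le (inv_pos.2 h3).le, ← mul_inv]
        refine Real.rpow_le_rpow (inv_pos.2 (hNtpos _ (sph_ne_zero u))).le ?_ hq0.le
        exact inv_anti₀ (mul_pos hN h3) h1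
      have h5 := rpow_neg_le hq0 (y := s * gg h z u) (hsg.trans htG)
        ((mul_le_mul_of_nonneg_left hsg (by positivity)).trans htq)
      refine h4.trans ?_
      have hNq : 0 ≤ (gN h (u : Eu n))⁻¹ ^ q := (Real.rpow_pos_of_pos (inv_pos.2 hN) q).le
      refine (mul_le_mul_of_nonneg_left h5 hNq).trans ?_
      have h6 : (2 * q + 4 * q ^ 2) * (s * gg h z u) ^ 2 ≤ C * s ^ 2 := by
        have h7 : gg h z u ^ 2 ≤ G ^ 2 := by
          rw [← sq_abs]
          exact pow_le_pow_left₀ (abs_nonneg _) hgu 2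
        rw [hC, mul_pow]
        have h8 : (2 * q + 4 * q ^ 2) * (s ^ 2 * gg h z u ^ 2) ≤
            (2 * q + 4 * q ^ 2) * (s ^ 2 * G ^ 2) := by gcongr
        linarith
      calc (gN h (u : Eu n))⁻¹ ^ q * (1 + q * (s * gg h z u) +
            (2 * q + 4 * q ^ 2) * (s * gg h z u) ^ 2)
          ≤ (gN h (u : Eu n))⁻¹ ^ q * (1 + q * (s * gg h z u) + C * s ^ 2) :=
            mul_le_mul_of_nonneg_left (by linarith) hNq
        _ = (1 + C * s ^ 2) * (gN h u)⁻¹ ^ q + q * s * ((gN h u)⁻¹ ^ q * gg h z u) := by ring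
    have hII : II q h = q * D := II_eq hq hc h0
    have hsum : ∫ u : Sph n, ((1 + C * s ^ 2) * (gN h u)⁻¹ ^ q +
          q * s * ((gN h u)⁻¹ ^ q * gg h z u)) ∂(sg n) =
        (1 + C * s ^ 2) * (q * D) + q * s * X := by
      rw [integral_add ((integrable_radpow hc h0 q).const_mul _) (hggi.const_mul _),
        integral_const_mul, integral_const_mul, ← hX]
      have : ∫ u : Sph n, (gN h (u : Eu n))⁻¹ ^ q ∂(sg n) = q * D := hII
      rw [this]
    rw [hsum] at hsph
    have hcomb : q * ((1 + t) * (D + χ * t * D2)) ≤ (1 + C * s ^ 2) * (q * D) + q * s * X := by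
      refine le_trans ?_ hsph
      have hNt0 : ∀ u : Sph n, 0 ≤ (Nt u)⁻¹ ^ q := fun u =>
        (Real.rpow_pos_of_pos (inv_pos.2 (hNtpos _ (sph_ne_zero u))) q).le
      rw [← ofReal_integral_eq_lintegral_ofReal hNti (Eventually.of_forall hNt0)] at hvol
      exact (ENNReal.ofReal_le_ofReal_iff (integral_nonneg hNt0)).1 hvol
    have hcomb2 : (1 + t) * (D + χ * t * D2) ≤ (1 + C * s ^ 2) * D + s * X := by
      have : q * ((1 + t) * (D + χ * t * D2)) ≤ q * ((1 + C * s ^ 2) * D + s * X) := by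
        refine hcomb.trans (le_of_eq ?_)
        ring
      exact le_of_mul_le_mul_left this hq0
    have hCnn : 0 ≤ C := by positivity
    have h10 : C * s ^ 2 * D ≤ C * t ^ 2 * D := by
      have : s ^ 2 ≤ t ^ 2 := pow_le_pow_left₀ hs0.le hst 2
      gcongr
    have h11 : t * (D + χ * D2) ≤ t * (X / (1 + t) + C * D * t) := by
      have h12 : s * X = t * (X / (1 + t)) := by rw [hs]; ring
      have h13 : 0 ≤ χ * t * D2 * t := by positivity
      rw [h12] at hcomb2
      nlinarith
    exact le_of_mul_le_mul_left h11 ht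
  -- let t tend to zero
  have hlim : Tendsto (fun t : ℝ => X / (1 + t) + C * D * t) (𝓝[>] 0) (𝓝 X) := by
    have h1 : ContinuousAt (fun t : ℝ => X / (1 + t) + C * D * t) 0 := by
      refine ContinuousAt.add (ContinuousAt.div continuousAt_const
        (continuousAt_const.add continuousAt_id) (by simp)) (continuousAt_const.mul continuousAt_id)
    have h2 := h1.tendsto
    simp only [add_zero, div_one, mul_zero] at h2
    exact h2.mono_left nhdsWithin_le_nhds
  refine ge_of_tendsto hlim ?_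
  have hpos : 0 < min (1 / 2) (min (1 / (2 * G)) (1 / (2 * q * G))) := by positivity
  filter_upwards [Ioo_mem_nhdsGT hpos] with t ht
  have h1 := (lt_min_iff.1 ht.2)
  have h2 := lt_min_iff.1 h1.2
  refine key t ht.1 h1.1.le ?_ ?_
  · have := mul_le_mul_of_nonneg_right h2.1.le hG0.le
    rw [show (1:ℝ) / (2 * G) * G = 1 / 2 by field_simp] at this
    exact this
  · have := mul_le_mul_of_nonneg_left h2.2.le (by positivity : 0 ≤ 2 * q * G)
    rw [show 2 * q * G * (1 / (2 * q * G)) = 1 by field_simp] at this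
    calc 2 * q * (t * G) = 2 * q * G * t := by ring
      _ ≤ 1 := this

end Conc

end Pool.Agent.Lib.MP_b0d2bf_gt
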