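import Mathlib
import Pool.Agent.Lib.MP_b0d2bf_gt.Conc

set_option autoImplicit false

/-!
Consequences of the concentration inequality, bodies with prescribed normals, null sets.
-/

namespace Pool.Agent.Lib.MP_b0d2bf_gt

open MeasureTheory Metric Set Filter Topology
open scoped Pointwise

section Struct

variable {n : ℕ}

lemma MM_real [NeZero n] {q : ℝ} {h : Sph n → ℝ} (hc : Continuous h) (h0 : ∀ v, 0 < h v)
    {ω : Set (Sph n)} (hω : MeasurableSet ω) :
    (MM q h).real ω = ∫ u in nu h ⁻¹' ω, (gN h (u : Eu n))⁻¹ ^ q ∂(sg n) := by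
  rw [Measure.real, MM_apply q h hω, integral_eq_lintegral_of_nonneg_ae]
  · exact Eventually.of_forall fun u =>
      (Real.rpow_pos_of_pos (inv_pos.2 (gN_pos hc h0 (sph_ne_zero u))) q).le
  · exact (continuous_radpow hc h0 q).aestronglyMeasurable

theorem conc_mass [NeZero n] {q : ℝ} (hq : (n : ℝ) < q) {h : Sph n → ℝ} (hc : Continuous h)
    (h0 : ∀ v, 0 < h v) (z : Sph n) {S : ℝ} (hS : 0 < S) (hSK : wulff h ⊆ closedBall 0 S)
    {ω : Set (Sph n)} (hω : MeasurableSet ω) {κ : ℝ}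
    (hg : ∀ᵐ u ∂(sg n), gg h z u ≤ ω.indicator (fun _ => (1:ℝ)) (nu h u) + κ) :
    DD (q - n) (wulff h) + (q - n) / (2 * S ^ 2) *
      (∫ x in wulff h, ‖x‖ ^ (q - n) * inner ℝ x (z : Eu n) ^ 2) ≤
    (MM q h).real ω + κ * (q * DD (q - n) (wulff h)) := by
  refine (conc hq hc h0 z hS hSK).trans ?_
  obtain ⟨G, hG0, hG⟩ := gg_bound hc h0
  have hρ : ∀ u : Sph n, 0 ≤ (gN h (u : Eu n))⁻¹ ^ q := fun u =>
    (Real.rpow_pos_of_pos (inv_pos.2 (gN_pos hc h0 (sph_ne_zero u))) q).le
  have hggi : Integrable (fun u : Sph n => (gN h u)⁻¹ ^ q * gg h z u) (sg n) := by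
    refine (integrable_radpow hc h0 q).mul_bdd (c := G)
      (measurable_gg hc h0 z).aestronglyMeasurable ?_
    exact Eventually.of_forall fun u => hG z u
  have hωm := measurable_nu h hω
  have h1 : (MM q h).real ω + κ * (q * DD (q - n) (wulff h)) =
      ∫ u : Sph n, ((nu h ⁻¹' ω).indicator (fun u : Sph n => (gN h (u : Eu n))⁻¹ ^ q) u +
        κ * (gN h (u : Eu n))⁻¹ ^ q) ∂(sg n) := by
    rw [integral_add ((integrable_radpow hc h0 q).indicator hωm)
      ((integrable_radpow hc h0 q).const_mul _), integral_const_mul, integral_indicator hωm,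
      MM_real hc h0 hω, ← II_eq hq hc h0]
    rfl
  rw [h1]
  refine integral_mono_ae hggi (((integrable_radpow hc h0 q).indicator hωm).add
      ((integrable_radpow hc h0 q).const_mul _)) ?_
  filter_upwards [hg] with u hu
  have h2 := mul_le_mul_of_nonneg_left hu (hρ u)
  refine h2.trans (le_of_eq ?_)
  by_cases hu2 : nu h u ∈ ω
  · rw [indicator_of_mem hu2, indicator_of_mem (show u ∈ nu h ⁻¹' ω from hu2)]
    ring
  · rw [indicator_of_notMem hu2, indicator_of_notMem (show u ∉ nu h ⁻¹' ω from hu2)]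
    ring

/-- a body almost all of whose normals lie in `Om` is the intersection of the corresponding
half-spaces -/
theorem mem_wulff_of_normals [NeZero n] {h : Sph n → ℝ} (hc : Continuous h) (h0 : ∀ v, 0 < h v)
    {Om : Set (Sph n)} (hae : ∀ᵐ u ∂(sg n), nu h u ∈ Om) {x : Eu n}
    (hx : ∀ v ∈ Om, inner ℝ x (v : Eu n) ≤ h v) : x ∈ wulff h := by
  by_contra hcon
  rw [mem_wulff_iff hc h0, not_le] at hcon
  have hcN := continuous_gN hc h0
  have hx0 : x ≠ 0 := by
    rintro rfl
    rw [gN_zero hc h0] at hcon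
    linarith
  have hxn : 0 < ‖x‖ := norm_pos_iff.2 hx0
  obtain ⟨c, hc0, hcl⟩ := exists_low hc h0
  -- choose θ < 1 with θ N(x) > 1
  obtain ⟨θ, hθ1, hθ2⟩ : ∃ θ : ℝ, 1 < θ * gN h x ∧ θ < 1 := by
    obtain ⟨y, hy1, hy2⟩ := exists_between hcon
    refine ⟨y / gN h x, ?_, ?_⟩
    · rw [div_mul_cancel₀ _ (by linarith)]; exact hy1
    · rw [div_lt_one (by linarith)]; exact hy2
  have hθ0 : 0 < θ := by
    by_contra h1
    rw [not_lt] at h1
    have := mul_nonpos_of_nonpos_of_nonneg h1 (gN_nonneg hc h0 x)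
    linarith
  set r := θ * ‖x‖ with hr
  have hr0 : 0 < r := by positivity
  set u0 : Sph n := dirS x hx0 with hu0
  have hru0 : r • (u0 : Eu n) = θ • x := by
    rw [hr, mul_smul, norm_smul_dirS]
  set O : Set (Sph n) := {u | 1 < gN h (r • (u : Eu n))} ∩ ball u0 ((1 - θ) * c / r) with hO
  have hOo : IsOpen O := by
    refine IsOpen.inter ?_ isOpen_ball
    exact isOpen_lt continuous_const (hcN.comp (continuous_subtype_val.const_smul r))
  have hu0O : u0 ∈ O := by
    refine ⟨?_, mem_ball_self (by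
      have : 0 < 1 - θ := by linarith
      positivity)⟩
    show 1 < gN h (r • (u0 : Eu n))
    rw [hru0, gN_smul hc h0 hθ0.le]
    exact hθ1
  have hOpos : (sg n) O ≠ 0 := by
    have : (sg n).IsOpenPosMeasure := by unfold sg; infer_instance
    exact (hOo.measure_pos (sg n) ⟨u0, hu0O⟩).ne'
  obtain ⟨u, huO, hu⟩ : ∃ u ∈ O, nu h u ∈ Om ∧ DifferentiableAt ℝ (gN h) ((u : Sph n) : Eu n) := by
    by_contra hno
    push Not at hno
    apply hOpos
    have h1 : ∀ᵐ u ∂(sg n), u ∉ O := by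
      filter_upwards [hae, ae_diff hc h0] with u h2 h3 h4
      exact hno u h4 h2 h3
    rw [ae_iff] at h1
    simpa using h1
  have hmx : inner ℝ (u : Eu n) (nu h u : Eu n) / h (nu h u) = gN h u := isMx_nu hc h0 hu.2
  have h1 : gN h (r • (u : Eu n)) = inner ℝ (r • (u : Eu n)) (nu h u : Eu n) / h (nu h u) := by
    rw [gN_smul hc h0 hr0.le, ← hmx, inner_smul_left]
    simp only [conj_trivial]
    ring
  have h2 : inner ℝ (r • (u : Eu n)) (nu h u : Eu n) ≤ h (nu h u) := by
    have e1 : r • (u : Eu n) = θ • x + r • ((u : Eu n) - (u0 : Eu n)) := by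
      rw [smul_sub, hru0]; abel
    rw [e1, inner_add_left, inner_smul_left]
    have h3 := hx _ hu.1
    have h4 : inner ℝ (r • ((u : Eu n) - (u0 : Eu n))) (nu h u : Eu n) ≤ (1 - θ) * c := by
      refine ((le_abs_self _).trans (abs_inner_le _ _)).trans ?_
      rw [norm_smul, Real.norm_eq_abs, abs_of_pos hr0]
      have h5 : dist u u0 < (1 - θ) * c / r := huO.2
      rw [Subtype.dist_eq, dist_eq_norm, lt_div_iff₀ hr0] at h5
      rw [mul_comm]
      exact h5.le
    have h6 := hcl (nu h u)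
    have h7 : θ * inner ℝ x (nu h u : Eu n) ≤ θ * h (nu h u) :=
      mul_le_mul_of_nonneg_left h3 hθ0.le
    have h8 : (1 - θ) * c ≤ (1 - θ) * h (nu h u) :=
      mul_le_mul_of_nonneg_left h6 (by linarith)
    simp only [conj_trivial]
    linarith
  have h3 : gN h (r • (u : Eu n)) ≤ 1 := by
    rw [h1, div_le_one (h0 _)]
    exact h2
  have h4 : 1 < gN h (r • (u : Eu n)) := huO.1
  linarith

/-- proper subspaces are null sets for the surface measure -/
lemma sg_subspace [NeZero n] {W : Submodule ℝ (Eu n)} (hW : W ≠ ⊤) :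
    sg n {v : Sph n | (v : Eu n) ∈ W} = 0 := by
  have hm : MeasurableSet {v : Sph n | (v : Eu n) ∈ W} :=
    measurable_subtype_coe W.closed_of_finiteDimensional.measurableSet
  unfold sg
  rw [Measure.toSphere_apply' _ hm]
  have h2 : (volume : Measure (Eu n)) (Ioo (0:ℝ) 1 •
      ((↑) '' {v : Sph n | (v : Eu n) ∈ W} : Set (Eu n))) = 0 := by
    refine measure_mono_null ?_ (Measure.addHaar_submodule volume W hW)
    rintro _ ⟨r, hr, _, ⟨u, hu, rfl⟩, rfl⟩
    exact W.smul_mem r hu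
  rw [h2, mul_zero]

end Struct

end Pool.Agent.Lib.MP_b0d2bf_gt
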