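import Mathlib
import Pool.Agent.Lib.MP_b0d2bf_gt.Struct
import Pool.Agent.Lib.MP_b0d2bf_gt.CoordInt

set_option autoImplicit false

/-!
The coordinate frame: the plane `P` and the axes.
-/

namespace Pool.Agent.Lib.MP_b0d2bf_gt

open MeasureTheory Metric Set Filter Topology
open scoped Pointwise

section Frame

variable {m : ℕ}

/-- coordinate unit vectors -/
noncomputable def es (i : Fin (m + 2)) : Sph (m + 2) :=
  ⟨EuclideanSpace.single i (1:ℝ), by
    rw [mem_sphere_zero_iff_norm, PiLp.norm_single, norm_one]⟩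

lemma inner_es (x : Eu (m + 2)) (i : Fin (m + 2)) : inner ℝ x (es i : Eu (m + 2)) = x i := by
  show inner ℝ x (EuclideanSpace.single i (1:ℝ)) = x i
  rw [EuclideanSpace.inner_single_right]
  simp

/-- the circle -/
def Pc (m : ℕ) : Set (Sph (m + 2)) := {v | ∀ i : Fin m, (v : Eu (m + 2)) i.succ.succ = 0}

/-- antipodal pair -/
def Ax (i : Fin (m + 2)) : Set (Sph (m + 2)) := {es i, -es i}

/-- the circle and the axes -/
def Om (m : ℕ) : Set (Sph (m + 2)) := Pc m ∪ ⋃ i : Fin m, Ax i.succ.succ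

lemma isClosed_Pc : IsClosed (Pc m) := by
  have : Pc m = ⋂ i : Fin m, {v : Sph (m + 2) | (v : Eu (m + 2)) i.succ.succ = 0} := by
    ext v; simp [Pc]
  rw [this]
  refine isClosed_iInter fun i => isClosed_eq ?_ continuous_const
  fun_prop

lemma measurable_Pc : MeasurableSet (Pc m) := isClosed_Pc.measurableSet

lemma measurable_Ax (i : Fin (m + 2)) : MeasurableSet (Ax i) :=
  (measurableSet_singleton _).insert _

lemma measurable_Om : MeasurableSet (Om m) :=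
  measurable_Pc.union (MeasurableSet.iUnion fun _ => measurable_Ax _)

lemma inner_Pc (x : Eu (m + 2)) {v : Sph (m + 2)} (hv : v ∈ Pc m) :
    inner ℝ x (v : Eu (m + 2)) = x 0 * (v : Eu (m + 2)) 0 + x 1 * (v : Eu (m + 2)) 1 := by
  rw [PiLp.inner_apply, Fin.sum_univ_succ, Fin.sum_univ_succ]
  have h1 : ∑ i : Fin m, inner ℝ (x i.succ.succ) ((v : Eu (m + 2)) i.succ.succ) = 0 := by
    refine Finset.sum_eq_zero fun i _ => ?_
    rw [hv i, inner_zero_right]
  rw [h1, add_zero]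
  show (v : Eu (m + 2)) 0 * x 0 + (v : Eu (m + 2)) 1 * x 1 = _
  ring

lemma norm_Pc {v : Sph (m + 2)} (hv : v ∈ Pc m) :
    (v : Eu (m + 2)) 0 ^ 2 + (v : Eu (m + 2)) 1 ^ 2 = 1 := by
  have h1 := norm_sq_coord (v : Eu (m + 2))
  rw [norm_sph] at h1
  have h2 : ∑ i : Fin m, (v : Eu (m + 2)) i.succ.succ ^ 2 = 0 := by
    refine Finset.sum_eq_zero fun i _ => ?_
    rw [hv i]; ring
  rw [h2] at h1
  linarith

lemma es_apply (i j : Fin (m + 2)) : (es i : Eu (m + 2)) j = if j = i then 1 else 0 := by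
  show (EuclideanSpace.single i (1:ℝ)) j = _
  rw [PiLp.single_apply]

lemma es_zero_mem : es (m := m) 0 ∈ Pc m := by
  intro i
  rw [es_apply, if_neg (Fin.succ_ne_zero _)]

lemma es_one_mem : es (m := m) 1 ∈ Pc m := by
  intro i
  rw [es_apply, if_neg]
  intro h
  have := congrArg Fin.val h
  simp at this

lemma neg_mem_Pc {v : Sph (m + 2)} (hv : v ∈ Pc m) : -v ∈ Pc m := by
  intro i
  rw [coe_neg_sphere]
  show -((v : Eu (m + 2)) i.succ.succ) = 0
  rw [hv i, neg_zero]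

/-- planar unit vector with given coordinates -/
noncomputable def pv (m : ℕ) (a b : ℝ) : Eu (m + 2) :=
  a • (es (m := m) 0 : Eu (m + 2)) + b • (es (m := m) 1 : Eu (m + 2))

lemma pv_zero (a b : ℝ) : pv m a b 0 = a := by
  show a • (es (m := m) 0 : Eu (m + 2)) 0 + b • (es (m := m) 1 : Eu (m + 2)) 0 = a
  rw [es_apply, es_apply, if_pos rfl, if_neg (by simp)]
  simp

lemma pv_one (a b : ℝ) : pv m a b 1 = b := by
  show a • (es (m := m) 0 : Eu (m + 2)) 1 + b • (es (m := m) 1 : Eu (m + 2)) 1 = b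
  rw [es_apply, es_apply, if_pos rfl, if_neg (by simp)]
  simp

lemma pv_succ (a b : ℝ) (i : Fin m) : pv m a b i.succ.succ = 0 := by
  show a • (es (m := m) 0 : Eu (m + 2)) i.succ.succ +
    b • (es (m := m) 1 : Eu (m + 2)) i.succ.succ = 0
  rw [es_zero_mem i, es_one_mem i]
  simp

lemma norm_sq_pv (a b : ℝ) : ‖pv m a b‖ ^ 2 = a ^ 2 + b ^ 2 := by
  rw [norm_sq_coord, pv_zero, pv_one]
  simp only [pv_succ]
  simp

lemma mem_Pc_iff {v : Sph (m + 2)} : v ∈ Pc m ↔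
    (v : Eu (m + 2)) = pv m ((v : Eu (m + 2)) 0) ((v : Eu (m + 2)) 1) := by
  constructor
  · intro hv
    ext j
    refine Fin.cases ?_ (fun j => ?_) j
    · rw [pv_zero]
    · refine Fin.cases ?_ (fun j => ?_) j
      · exact (pv_one _ _).symm
      · rw [pv_succ, hv j]
  · intro hv i
    rw [hv, pv_succ]

/-- directions in the plane -/
noncomputable def pdir (m : ℕ) (a b : ℝ) (hab : a ^ 2 + b ^ 2 = 1) : Sph (m + 2) :=
  ⟨pv m a b, by
    rw [mem_sphere_zero_iff_norm]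
    have h1 := norm_sq_pv (m := m) a b
    rw [hab] at h1
    exact (pow_eq_one_iff_of_nonneg (norm_nonneg _) two_ne_zero).1 h1⟩

lemma pdir_mem (a b : ℝ) (hab : a ^ 2 + b ^ 2 = 1) : pdir m a b hab ∈ Pc m := by
  intro i
  exact pv_succ a b i

/-- the planar part of a point of `K` is bounded by the maximum of the support function -/
lemma planar_norm_le {h : Sph (m + 2) → ℝ} {R : ℝ} (hR : ∀ v ∈ Pc m, h v ≤ R)
    {x : Eu (m + 2)} (hx : x ∈ wulff h) : x 0 ^ 2 + x 1 ^ 2 ≤ R ^ 2 := by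
  rcases eq_or_lt_of_le (by positivity : 0 ≤ x 0 ^ 2 + x 1 ^ 2) with h0 | h0
  · rw [← h0]; positivity
  · set r := Real.sqrt (x 0 ^ 2 + x 1 ^ 2) with hr
    have hr0 : 0 < r := Real.sqrt_pos.2 h0
    have hr2 : r ^ 2 = x 0 ^ 2 + x 1 ^ 2 := Real.sq_sqrt h0.le
    have hab : (x 0 / r) ^ 2 + (x 1 / r) ^ 2 = 1 := by
      rw [div_pow, div_pow, ← add_div, ← hr2, div_self (by positivity)]
    have h1 := hx (pdir m _ _ hab)
    rw [inner_Pc x (pdir_mem _ _ hab)] at h1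
    have h2 : (pdir m _ _ hab : Eu (m + 2)) 0 = x 0 / r := pv_zero _ _
    have h3 : (pdir m _ _ hab : Eu (m + 2)) 1 = x 1 / r := pv_one _ _
    rw [h2, h3] at h1
    have h4 : x 0 * (x 0 / r) + x 1 * (x 1 / r) = r := by
      rw [← mul_div_assoc, ← mul_div_assoc, ← add_div, ← sq, ← sq, ← hr2]
      field_simp
    rw [h4] at h1
    rw [← hr2]
    exact pow_le_pow_left₀ hr0.le (h1.trans (hR _ (pdir_mem _ _ hab))) 2

lemma norm_sq_le_of_mem {h : Sph (m + 2) → ℝ} (he : ∀ v, h (-v) = h v) {R : ℝ}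
    (hR : ∀ v ∈ Pc m, h v ≤ R) {x : Eu (m + 2)} (hx : x ∈ wulff h) :
    ‖x‖ ^ 2 ≤ R ^ 2 + ∑ i : Fin m, h (es i.succ.succ) ^ 2 := by
  rw [norm_sq_coord]
  refine add_le_add (planar_norm_le hR hx) (Finset.sum_le_sum fun i _ => ?_)
  have h1 := hx (es i.succ.succ)
  have h2 := hx (-es i.succ.succ)
  rw [coe_neg_sphere, inner_neg_right, he] at h2
  rw [inner_es] at h1 h2
  rw [← sq_abs]
  exact pow_le_pow_left₀ (abs_nonneg _) (abs_le.2 ⟨by linarith, h1⟩) 2

lemma abs_coord_le {h : Sph (m + 2) → ℝ} (he : ∀ v, h (-v) = h v) {x : Eu (m + 2)}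
    (hx : x ∈ wulff h) (i : Fin (m + 2)) : |x i| ≤ h (es i) := by
  have h1 := hx (es i)
  have h2 := hx (-es i)
  rw [coe_neg_sphere, inner_neg_right, he] at h2
  rw [inner_es] at h1 h2
  exact abs_le.2 ⟨by linarith, h1⟩

lemma abs_inner_le_supp {n : ℕ} {h : Sph n → ℝ} (he : ∀ v, h (-v) = h v) {x : Eu n}
    (hx : x ∈ wulff h) (v : Sph n) : |inner ℝ x (v : Eu n)| ≤ h v := by
  have h1 := hx v
  have h2 := hx (-v)
  rw [coe_neg_sphere, inner_neg_right, he] at h2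
  exact abs_le.2 ⟨by linarith, h1⟩

/-- membership criterion for bodies with normals in `Om` -/
lemma mem_of_Om {h : Sph (m + 2) → ℝ} (hc : Continuous h) (h0 : ∀ v, 0 < h v)
    (he : ∀ v, h (-v) = h v) (hae : ∀ᵐ u ∂(sg (m + 2)), nu h u ∈ Om m) {x : Eu (m + 2)}
    (hx1 : ∀ v ∈ Pc m, x 0 * (v : Eu (m + 2)) 0 + x 1 * (v : Eu (m + 2)) 1 ≤ h v)
    (hx2 : ∀ i : Fin m, |x i.succ.succ| ≤ h (es i.succ.succ)) : x ∈ wulff h := by
  refine mem_wulff_of_normals hc h0 hae fun v hv => ?_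
  rcases hv with hv | hv
  · rw [inner_Pc x hv]
    exact hx1 v hv
  · rw [mem_iUnion] at hv
    obtain ⟨i, hi⟩ := hv
    rcases hi with hi | hi
    · rw [hi, inner_es]
      exact (le_abs_self _).trans (hx2 i)
    · rw [mem_singleton_iff] at hi
      rw [hi, coe_neg_sphere, inner_neg_right, inner_es, he]
      exact (neg_le_abs _).trans (hx2 i)

end Frame

end Pool.Agent.Lib.MP_b0d2bf_gt
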