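import Mathlib
import Pool.Agent.Lib.MP_b0d2bf_gt.Frame

set_option autoImplicit false

/-!
Upper and lower bounds for the mass of a facet.
-/

namespace Pool.Agent.Lib.MP_b0d2bf_gt

open MeasureTheory Metric Set Filter Topology
open scoped Pointwise

section Facet

/-- cone formula with a measurable set of directions -/
lemma MM_cone' {n : ℕ} [NeZero n] {q : ℝ} (hq : 0 < q) {h : Sph n → ℝ} (hc : Continuous h)
    (h0 : ∀ v, 0 < h v) {ω : Set (Sph n)} (hω : MeasurableSet ω) {B : Set (Sph n)}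
    (hB : MeasurableSet B) (hBω : B =ᵐ[sg n] nu h ⁻¹' ω) :
    MM q h ω = ENNReal.ofReal q * ∫⁻ x in coneOf (gN h) B, ENNReal.ofReal (‖x‖ ^ (q - n)) := by
  rw [MM_apply q h hω, ← Measure.restrict_congr_set hBω]
  exact polar (continuous_gN hc h0) (fun t ht x => gN_smul hc h0 ht x)
    (fun x hx => gN_pos hc h0 hx) hq hB

/-- directions whose boundary point has normal `v` or `-v` -/
def dirs {n : ℕ} (h : Sph n → ℝ) (v : Sph n) : Set (Sph n) :=
  {u | IsMx h (u : Eu n) v ∨ IsMx h (u : Eu n) (-v)}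

lemma measurable_dirs {n : ℕ} [NeZero n] {h : Sph n → ℝ} (hc : Continuous h)
    (h0 : ∀ v, 0 < h v) (v : Sph n) : MeasurableSet (dirs h v) := by
  have h1 : ∀ w : Sph n, MeasurableSet {u : Sph n | IsMx h (u : Eu n) w} := by
    intro w
    unfold IsMx
    refine (isClosed_eq ?_ ((continuous_gN hc h0).comp continuous_subtype_val)).measurableSet
    exact (continuous_subtype_val.inner continuous_const).div_const _
  exact (h1 v).union (h1 (-v))

lemma dirs_ae {n : ℕ} [NeZero n] {h : Sph n → ℝ} (hc : Continuous h)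
    (h0 : ∀ v, 0 < h v) (v : Sph n) : dirs h v =ᵐ[sg n] nu h ⁻¹' {v, -v} := by
  filter_upwards [ae_diff hc h0] with u hu
  apply propext
  show (IsMx h (u : Eu n) v ∨ IsMx h (u : Eu n) (-v)) ↔ nu h u ∈ ({v, -v} : Set (Sph n))
  rw [isMx_iff hc h0 hu, isMx_iff hc h0 hu]
  rfl

variable {m : ℕ}

/-- the two ends of the facet -/
theorem exists_facet {h : Sph (m + 2) → ℝ} (hc : Continuous h) (h0 : ∀ v, 0 < h v)
    (hs : ∀ v, supp h v = h v) : ∃ c l : ℝ, 0 ≤ l ∧
      (∀ x ∈ wulff h, x 1 = h (es 1) → |x 0 - c| ≤ l) ∧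
      (∃ x ∈ wulff h, x 1 = h (es 1) ∧ x 0 = c + l) ∧
      (∃ x ∈ wulff h, x 1 = h (es 1) ∧ x 0 = c - l) := by
  set F : Set (Eu (m + 2)) := wulff h ∩ {x | x 1 = h (es 1)} with hF
  have hFc : IsCompact F := by
    refine (isCompact_wulff hc h0).inter_right (isClosed_eq ?_ continuous_const)
    fun_prop
  have hFn : F.Nonempty := by
    obtain ⟨x, hx, hx1, -⟩ := exists_supp hc h0 (es (m := m) 1)
    rw [hs, inner_es] at hx1
    exact ⟨x, hx, hx1.symm⟩
  have hcont : ContinuousOn (fun x : Eu (m + 2) => x 0) F := by fun_prop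
  obtain ⟨y, hy, hymin⟩ := hFc.exists_isMinOn hFn hcont
  obtain ⟨z, hz, hzmax⟩ := hFc.exists_isMaxOn hFn hcont
  have hyz : y 0 ≤ z 0 := hymin hz
  refine ⟨(y 0 + z 0) / 2, (z 0 - y 0) / 2, by linarith, fun x hx hx1 => ?_,
    ⟨z, hz.1, hz.2, by ring⟩, ⟨y, hy.1, hy.2, by ring⟩⟩
  have h1 : y 0 ≤ x 0 := hymin ⟨hx, hx1⟩
  have h2 : x 0 ≤ z 0 := hzmax ⟨hx, hx1⟩
  rw [abs_le]
  constructor <;> linarith

/-- the facet satisfies the planar constraints -/
lemma facet_constraint {h : Sph (m + 2) → ℝ} {c l : ℝ}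
    (h1 : ∃ x ∈ wulff h, x 1 = h (es 1) ∧ x 0 = c + l)
    (h2 : ∃ x ∈ wulff h, x 1 = h (es 1) ∧ x 0 = c - l) {a : ℝ} (ha : |a - c| ≤ l)
    {v : Sph (m + 2)} (hv : v ∈ Pc m) :
    a * (v : Eu (m + 2)) 0 + h (es 1) * (v : Eu (m + 2)) 1 ≤ h v := by
  obtain ⟨x, hx, hx1, hx0⟩ := h1
  obtain ⟨y, hy, hy1, hy0⟩ := h2
  have e1 := hx v
  have e2 := hy v
  rw [inner_Pc _ hv, hx1, hx0] at e1
  rw [inner_Pc _ hv, hy1, hy0] at e2
  rw [abs_le] at ha
  rcases le_total 0 ((v : Eu (m + 2)) 0) with hv0 | hv0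
  · have : a * (v : Eu (m + 2)) 0 ≤ (c + l) * (v : Eu (m + 2)) 0 :=
      mul_le_mul_of_nonneg_right (by linarith [ha.2]) hv0
    linarith
  · have : a * (v : Eu (m + 2)) 0 ≤ (c - l) * (v : Eu (m + 2)) 0 :=
      mul_le_mul_of_nonpos_right (by linarith [ha.1]) hv0
    linarith

/-- upper bound for the mass of the facet -/
theorem MM_facet_le {q : ℝ} (hq : ((m + 2 : ℕ) : ℝ) < q) {h : Sph (m + 2) → ℝ}
    (hc : Continuous h) (h0 : ∀ v, 0 < h v) (he : ∀ v, h (-v) = h v) {c l : ℝ} (hl : 0 ≤ l)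
    (hcl : ∀ x ∈ wulff h, x 1 = h (es 1) → |x 0 - c| ≤ l) :
    MM q h (Ax 1) ≤ ENNReal.ofReal (2 * h (es 1) * (∏ i : Fin m, (2 * h (es i.succ.succ))) *
      Gf (q - (m + 2 : ℕ)) c (h (es 1)) l (Real.sqrt (∑ i : Fin m, h (es i.succ.succ) ^ 2))) := by
  set p := q - (m + 2 : ℕ) with hp
  have hp0 : 0 < p := by linarith
  set H := h (es 1) with hH
  have hH0 : 0 < H := h0 _
  set t : Fin m → ℝ := fun i => h (es i.succ.succ) with ht
  have ht0 : ∀ i, 0 ≤ t i := fun i => (h0 _).le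
  set T := Real.sqrt (∑ i : Fin m, t i ^ 2) with hT
  have hT2 : T ^ 2 = ∑ i : Fin m, t i ^ 2 := Real.sq_sqrt (Finset.sum_nonneg fun i _ => sq_nonneg _)
  have hm0 : (0:ℝ) ≤ m := Nat.cast_nonneg m
  have hq' : q = p + m + 2 := by rw [hp]; push_cast; ring
  have hq0 : 0 < q := by rw [hq']; linarith
  rw [MM_cone' hq0 hc h0 (measurable_Ax 1) (measurable_dirs hc h0 (es 1)) (dirs_ae hc h0 (es 1))]
  set C : Set (Eu (m + 2)) := sect (fun a b => (0 < b ∧ b ≤ H) ∧ |a - (b / H) * c| ≤ (b / H) * l)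
        (fun _ b => b / H) t with hC
  -- points of the cone
  have hone : ∀ x : Eu (m + 2), x ≠ 0 → gN h x ≤ 1 → IsMx h (dirT x : Eu (m + 2)) (es 1) →
      x ∈ C := by
    intro x hx0 hx1 hmx
    have hNx := gN_pos hc h0 hx0
    have hxd : x = ‖x‖ • (dirT x : Eu (m + 2)) := by
      unfold dirT
      rw [dif_neg hx0]
      exact (norm_smul_dirS _ hx0).symm
    have e1 : x 1 / H = gN h x := by
      have e2 : inner ℝ (dirT x : Eu (m + 2)) (es (m := m) 1 : Eu (m + 2)) / h (es 1) =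
        gN h (dirT x : Eu (m + 2)) := hmx
      rw [inner_es] at e2
      have e3 : gN h x = ‖x‖ * gN h (dirT x : Eu (m + 2)) := by
        conv_lhs => rw [hxd]
        rw [gN_smul hc h0 (norm_nonneg _)]
      rw [e3, ← e2]
      conv_lhs => rw [hxd]
      show ‖x‖ * (dirT x : Eu (m + 2)) 1 / H = _
      rw [mul_div_assoc]
    have e4 : x 1 = gN h x * H := by rw [← e1]; field_simp
    set y : Eu (m + 2) := (gN h x)⁻¹ • x with hy
    have hyK : y ∈ wulff h := by
      rw [mem_wulff_iff hc h0, hy, gN_smul hc h0 (inv_pos.2 hNx).le, inv_mul_cancel₀ hNx.ne']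
    have hyi : ∀ i, y i = (gN h x)⁻¹ * x i := fun i => rfl
    have hxi : ∀ i, x i = gN h x * y i := by
      intro i
      rw [hyi, mul_inv_cancel_left₀ hNx.ne']
    have hy1 : y 1 = H := by
      rw [hyi, e4, inv_mul_cancel_left₀ hNx.ne']
    have e5 := hcl y hyK hy1
    refine ⟨⟨⟨?_, ?_⟩, ?_⟩, fun i => ?_⟩
    · show 0 < x 1
      rw [e4]; positivity
    · show x 1 ≤ H
      rw [e4]; nlinarith
    · show |x 0 - x 1 / H * c| ≤ x 1 / H * l
      rw [e1, hxi 0, ← mul_sub, abs_mul, abs_of_pos hNx]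
      exact mul_le_mul_of_nonneg_left e5 hNx.le
    · show |x i.succ.succ| ≤ x 1 / H * t i
      rw [e1, hxi i.succ.succ, abs_mul, abs_of_pos hNx]
      exact mul_le_mul_of_nonneg_left (abs_coord_le he hyK _) hNx.le
  have hCm : MeasurableSet C := by
    have hR : MeasurableSet {x : ℝ × ℝ | (0 < x.2 ∧ x.2 ≤ H) ∧
        |x.1 - (x.2 / H) * c| ≤ (x.2 / H) * l} := by
      exact ((measurableSet_lt (measurable_const (a := (0:ℝ))) measurable_snd).inter
        (measurableSet_le measurable_snd measurable_const)).inter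
        (measurableSet_le (by fun_prop : Measurable fun x : ℝ × ℝ => |x.1 - (x.2 / H) * c|)
          (by fun_prop : Measurable fun x : ℝ × ℝ => (x.2 / H) * l))
    exact (lint_sect (R := fun a b => (0 < b ∧ b ≤ H) ∧ |a - (b / H) * c| ≤ (b / H) * l) hR
      (lam := fun _ b => b / H) (by fun_prop) t (f := fun _ _ => 0) measurable_const).1
  have hsub : coneOf (gN h) (dirs h (es 1)) ⊆ C ∪ (fun x => -x) ⁻¹' C := by
    rintro x ⟨hx0, hxd, hx1⟩
    rcases hxd with hxd | hxd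
    · exact Or.inl (hone x hx0 hx1 hxd)
    · right
      have hx0' : -x ≠ 0 := neg_ne_zero.2 hx0
      refine hone (-x) hx0' (by rw [gN_neg hc h0 he]; exact hx1) ?_
      have e1 : (dirT (-x) : Sph (m + 2)) = - dirT x := by
        apply Subtype.ext
        unfold dirT
        rw [dif_neg hx0', dif_neg hx0, coe_neg_sphere]
        unfold dirS
        simp [norm_neg]
      have e2 : inner ℝ (dirT x : Eu (m + 2)) ((-es 1 : Sph (m + 2)) : Eu (m + 2)) / h (-es 1) =
        gN h (dirT x : Eu (m + 2)) := hxd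
      show inner ℝ ((dirT (-x) : Sph (m + 2)) : Eu (m + 2)) (es (m := m) 1 : Eu (m + 2)) / h (es 1) =
        gN h ((dirT (-x) : Sph (m + 2)) : Eu (m + 2))
      rw [e1, coe_neg_sphere, gN_neg hc h0 he, ← e2, coe_neg_sphere, inner_neg_left,
        inner_neg_right, he]
  have hfm : Measurable (fun x : Eu (m + 2) => ENNReal.ofReal (‖x‖ ^ p)) :=
    (continuous_norm_rpow hp0.le).measurable.ennreal_ofReal
  have hneg : ∫⁻ x in (fun x => -x) ⁻¹' C, ENNReal.ofReal (‖x‖ ^ p) =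
      ∫⁻ x in C, ENNReal.ofReal (‖x‖ ^ p) := by
    have h1 := (Measure.measurePreserving_neg (volume : Measure (Eu (m + 2)))).setLIntegral_comp_preimage
      hCm hfm
    rw [← h1]
    refine lintegral_congr fun x => ?_
    rw [norm_neg]
  set f : ℝ → ℝ → ℝ := fun a b => (a ^ 2 + b ^ 2 + (b / H) ^ 2 * T ^ 2) ^ (p / 2) with hf
  have hfc : Continuous (fun x : ℝ × ℝ => f x.1 x.2) := by
    refine Continuous.rpow_const (by fun_prop) fun _ => Or.inr (by positivity)
  have hmain : ∫⁻ x in C, ENNReal.ofReal (‖x‖ ^ p) ≤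
      ENNReal.ofReal (H / q * (∏ i, (2 * t i)) * Gf p c H l T) := by
    have h1 : ∫⁻ x in C, ENNReal.ofReal (‖x‖ ^ p) ≤
        ∫⁻ x in C, ENNReal.ofReal (f (x 0) (x 1)) := by
      refine setLIntegral_mono' hCm fun x hx => ENNReal.ofReal_le_ofReal ?_
      rw [norm_rpow_eq]
      refine Real.rpow_le_rpow (by
        have : 0 ≤ ∑ i : Fin m, x i.succ.succ ^ 2 := Finset.sum_nonneg fun i _ => sq_nonneg _
        positivity) ?_ (by positivity)
      have h2 : ∑ i : Fin m, x i.succ.succ ^ 2 ≤ (x 1 / H) ^ 2 * T ^ 2 := by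
        rw [hT2, Finset.mul_sum]
        refine Finset.sum_le_sum fun i _ => ?_
        have h3 : |x i.succ.succ| ≤ x 1 / H * t i := hx.2 i
        rw [← sq_abs, ← mul_pow]
        exact pow_le_pow_left₀ (abs_nonneg _) h3 2
      linarith
    refine h1.trans (le_of_eq ?_)
    rw [hC, cone_integral hp0 c hH0 hl ht0 hfc (fun a b => by positivity) (by
      intro r a b hr
      have e1 : r ^ p = (r ^ 2) ^ (p / 2) := by
        rw [← Real.rpow_natCast r 2, ← Real.rpow_mul hr.le]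
        congr 1
        push_cast; ring
      rw [hf]
      simp only
      rw [e1, ← Real.mul_rpow (by positivity) (by positivity)]
      congr 1
      field_simp)]
    congr 1
    rw [hq']
    unfold Gf
    congr 2
    refine intervalIntegral.integral_congr fun s _ => ?_
    rw [hf]
    simp only
    rw [div_self hH0.ne', one_pow, one_mul]
  have hcone : ∫⁻ x in coneOf (gN h) (dirs h (es 1)), ENNReal.ofReal (‖x‖ ^ p) ≤
      ENNReal.ofReal (H / q * (∏ i, (2 * t i)) * Gf p c H l T) +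
      ENNReal.ofReal (H / q * (∏ i, (2 * t i)) * Gf p c H l T) := by
    refine (lintegral_mono_set hsub).trans ((lintegral_union_le _ _ _).trans ?_)
    rw [hneg]
    exact add_le_add hmain hmain
  have hGf0 : 0 ≤ Gf p c H l T := by
    unfold Gf
    refine mul_nonneg hl (intervalIntegral.integral_nonneg (by norm_num) fun s _ => ?_)
    positivity
  have hB0 : 0 ≤ ∏ i, (2 * t i) := prod_nonneg' ht0
  calc ENNReal.ofReal q * ∫⁻ x in coneOf (gN h) (dirs h (es 1)),
        ENNReal.ofReal (‖x‖ ^ (q - ((m + 2 : ℕ) : ℝ)))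
      ≤ ENNReal.ofReal q * (ENNReal.ofReal (H / q * (∏ i, (2 * t i)) * Gf p c H l T) +
      ENNReal.ofReal (H / q * (∏ i, (2 * t i)) * Gf p c H l T)) := mul_le_mul_right hcone _
    _ = ENNReal.ofReal (2 * H * (∏ i, (2 * t i)) * Gf p c H l T) := by
        rw [← ENNReal.ofReal_add (by positivity) (by positivity), ← ENNReal.ofReal_mul hq0.le]
        congr 1
        field_simp
        ring

end Facet

end Pool.Agent.Lib.MP_b0d2bf_gt
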