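import Mathlib
import Pool.Agent.Lib.MP_b0d2bf_gt.Facet

set_option autoImplicit false

/-!
Lower bounds for integrals over bodies whose normals lie on the circle and the axes.
-/

namespace Pool.Agent.Lib.MP_b0d2bf_gt

open MeasureTheory Metric Set Filter Topology
open scoped Pointwise

section Lower

variable {m : ℕ}

lemma le_DD {n : ℕ} [NeZero n] {p : ℝ} (hp : 0 ≤ p) {h : Sph n → ℝ} (hc : Continuous h)
    (h0 : ∀ v, 0 < h v) {S : Set (Eu n)} (hS : S ⊆ wulff h) {a : ℝ}
    (ha : ENNReal.ofReal a ≤ ∫⁻ x in S, ENNReal.ofReal (‖x‖ ^ p)) : a ≤ DD p (wulff h) := by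
  have h1 := ha.trans (lintegral_mono_set hS)
  rw [DD_eq hp (isCompact_wulff hc h0)] at h1
  exact (ENNReal.ofReal_le_ofReal_iff (DD_nonneg _)).1 h1

/-- the product of the parallelogram and the box lies in the body -/
theorem para_in {p : ℝ} (hp : 0 < p) {h : Sph (m + 2) → ℝ}
    (hc : Continuous h) (h0 : ∀ v, 0 < h v) (he : ∀ v, h (-v) = h v)
    (hae : ∀ᵐ u ∂(sg (m + 2)), nu h u ∈ Om m) {c l : ℝ} (hl : 0 ≤ l)
    (h1 : ∃ x ∈ wulff h, x 1 = h (es 1) ∧ x 0 = c + l)
    (h2 : ∃ x ∈ wulff h, x 1 = h (es 1) ∧ x 0 = c - l) :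
    (∏ i : Fin m, (2 * h (es i.succ.succ))) * h (es 1) * Hf p c (h (es 1)) l ≤
      DD p (wulff h) := by
  have hH0 : 0 < h (es (m := m) 1) := h0 _
  refine le_DD hp.le hc h0 ?_ (para_lower (m := m) hp c hH0 hl (t := fun i => h (es i.succ.succ))
    fun i => (h0 _).le)
  intro x hx
  set H := h (es (m := m) 1) with hH
  obtain ⟨⟨hx1, hx0⟩, hxi⟩ := hx
  refine mem_of_Om hc h0 he hae (fun v hv => ?_) fun i => ?_
  · set lam := x 1 / H with hlam
    set τ := x 0 - lam * c with hτ
    have hlam1 : |lam| ≤ 1 := by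
      rw [hlam, abs_div, abs_of_pos hH0, div_le_one hH0]; exact hx1
    rw [abs_le] at hlam1
    have e1 : (c + τ) * (v : Eu (m + 2)) 0 + H * (v : Eu (m + 2)) 1 ≤ h v :=
      facet_constraint h1 h2 (by rw [add_sub_cancel_left]; exact hx0) hv
    have e2 : (c - τ) * ((-v : Sph (m + 2)) : Eu (m + 2)) 0 +
        H * ((-v : Sph (m + 2)) : Eu (m + 2)) 1 ≤ h (-v) :=
      facet_constraint h1 h2 (by
        rw [sub_sub_cancel_left, abs_neg]; exact hx0) (neg_mem_Pc hv)
    rw [he] at e2
    have e3 : ((-v : Sph (m + 2)) : Eu (m + 2)) 0 = -(v : Eu (m + 2)) 0 := by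
      rw [coe_neg_sphere]; rfl
    have e4 : ((-v : Sph (m + 2)) : Eu (m + 2)) 1 = -(v : Eu (m + 2)) 1 := by
      rw [coe_neg_sphere]; rfl
    rw [e3, e4] at e2
    have e5 : x 1 = lam * H := by rw [hlam]; field_simp
    have e6 : x 0 = lam * c + τ := by rw [hτ]; ring
    have e7 : x 0 * (v : Eu (m + 2)) 0 + x 1 * (v : Eu (m + 2)) 1 =
        (1 + lam) / 2 * ((c + τ) * (v : Eu (m + 2)) 0 + H * (v : Eu (m + 2)) 1) +
        (1 - lam) / 2 * ((c - τ) * -(v : Eu (m + 2)) 0 + H * -(v : Eu (m + 2)) 1) := by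
      rw [e5, e6]; ring
    rw [e7]
    have e8 := mul_le_mul_of_nonneg_left e1 (by linarith : 0 ≤ (1 + lam) / 2)
    have e9 := mul_le_mul_of_nonneg_left e2 (by linarith : 0 ≤ (1 - lam) / 2)
    calc _ ≤ (1 + lam) / 2 * h v + (1 - lam) / 2 * h v := add_le_add e8 e9
      _ = h v := by ring
  · have := hxi i
    rwa [one_mul] at this

/-- lower bound from a horizontal chord -/
theorem chord_in {p : ℝ} (hp : 0 < p) {h : Sph (m + 2) → ℝ}
    (hc : Continuous h) (h0 : ∀ v, 0 < h v) (he : ∀ v, h (-v) = h v)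
    (hae : ∀ᵐ u ∂(sg (m + 2)), nu h u ∈ Om m) {c l w : ℝ} (hl : 0 ≤ l) (hw : 0 < w)
    (h1 : ∃ x ∈ wulff h, x 1 = h (es 1) ∧ x 0 = c + l)
    (h2 : ∃ x ∈ wulff h, x 1 = h (es 1) ∧ x 0 = c - l)
    (h3 : ∀ v ∈ Pc m, w * |(v : Eu (m + 2)) 0| ≤ h v) :
    (∏ i : Fin m, (2 * h (es i.succ.succ))) * h (es 1) * ((w / 8) ^ p * (w / 2)) ≤
      DD p (wulff h) := by
  have hH0 : 0 < h (es (m := m) 1) := h0 _
  refine le_DD hp.le hc h0 ?_ (box_lower (m := m) (h := h (es (m := m) 1)) hp c hw
    (t := fun i => h (es i.succ.succ)) fun i => (h0 _).le)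
  intro x hx
  set H := h (es (m := m) 1) with hH
  obtain ⟨⟨hx1, hx0⟩, hxi⟩ := hx
  refine mem_of_Om hc h0 he hae (fun v hv => ?_) fun i => ?_
  · set lam := x 1 / H with hlam
    set τ := x 0 - lam * c with hτ
    have hlam1 : |lam| ≤ 1 / 2 := by
      rw [hlam, abs_div, abs_of_pos hH0, div_le_iff₀ hH0]
      calc |x 1| ≤ H / 2 := hx1
        _ = 1 / 2 * H := by ring
    have e1 : c * (v : Eu (m + 2)) 0 + H * (v : Eu (m + 2)) 1 ≤ h v :=
      facet_constraint h1 h2 (by rw [sub_self, abs_zero]; exact hl) hv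
    have e2 : c * ((-v : Sph (m + 2)) : Eu (m + 2)) 0 +
        H * ((-v : Sph (m + 2)) : Eu (m + 2)) 1 ≤ h (-v) :=
      facet_constraint h1 h2 (by rw [sub_self, abs_zero]; exact hl) (neg_mem_Pc hv)
    rw [he] at e2
    have e3 : ((-v : Sph (m + 2)) : Eu (m + 2)) 0 = -(v : Eu (m + 2)) 0 := by
      rw [coe_neg_sphere]; rfl
    have e4 : ((-v : Sph (m + 2)) : Eu (m + 2)) 1 = -(v : Eu (m + 2)) 1 := by
      rw [coe_neg_sphere]; rfl
    rw [e3, e4] at e2
    have e5 : x 1 = lam * H := by rw [hlam]; field_simp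
    have e6 : x 0 = lam * c + τ := by rw [hτ]; ring
    have e7 : x 0 * (v : Eu (m + 2)) 0 + x 1 * (v : Eu (m + 2)) 1 =
        lam * (c * (v : Eu (m + 2)) 0 + H * (v : Eu (m + 2)) 1) + τ * (v : Eu (m + 2)) 0 := by
      rw [e5, e6]; ring
    rw [e7]
    have e8 : lam * (c * (v : Eu (m + 2)) 0 + H * (v : Eu (m + 2)) 1) ≤ 1 / 2 * h v := by
      refine (le_abs_self _).trans ?_
      rw [abs_mul]
      refine mul_le_mul hlam1 ?_ (abs_nonneg _) (by norm_num)
      rw [abs_le]
      constructor <;> linarith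
    have e9 : τ * (v : Eu (m + 2)) 0 ≤ 1 / 2 * h v := by
      refine (le_abs_self _).trans ?_
      rw [abs_mul]
      have e10 : |τ| ≤ w / 2 := hx0
      calc |τ| * |(v : Eu (m + 2)) 0| ≤ w / 2 * |(v : Eu (m + 2)) 0| :=
            mul_le_mul_of_nonneg_right e10 (abs_nonneg _)
        _ = 1 / 2 * (w * |(v : Eu (m + 2)) 0|) := by ring
        _ ≤ 1 / 2 * h v := mul_le_mul_of_nonneg_left (h3 v hv) (by norm_num)
    linarith
  · have := hxi i
    rwa [one_mul] at this

/-- second moments in the directions of the axes -/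
theorem moment_lower {p : ℝ} (hp : 0 < p) {h : Sph (m + 2) → ℝ}
    (hc : Continuous h) (h0 : ∀ v, 0 < h v) (he : ∀ v, h (-v) = h v)
    (hae : ∀ᵐ u ∂(sg (m + 2)), nu h u ∈ Om m) (i : Fin m) :
    h (es i.succ.succ) ^ 2 / 8 * DD p (wulff h) ≤
      ∫ x in wulff h, ‖x‖ ^ p * inner ℝ x (es i.succ.succ : Eu (m + 2)) ^ 2 := by
  set e := es (m := m) i.succ.succ with hedef
  set t := h e with ht
  have ht0 : 0 < t := h0 _
  have hKc := isCompact_wulff hc h0
  have hKm : MeasurableSet (wulff h) := hKc.measurableSet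
  set K1 : Set (Eu (m + 2)) := wulff h ∩ {x | |inner ℝ x (e : Eu (m + 2))| ≤ t / 2} with hK1
  have hcl : IsClosed {x : Eu (m + 2) | |inner ℝ x (e : Eu (m + 2))| ≤ t / 2} :=
    isClosed_le (continuous_id.inner continuous_const).abs continuous_const
  have hK1c : IsCompact K1 := hKc.inter_right hcl
  have hK1m : MeasurableSet K1 := hK1c.measurableSet
  -- the half
  have hhalf : DD p K1 ≤ 1 / 2 * DD p (wulff h) := by
    set G : Eu (m + 2) → ENNReal := (wulff h).indicator (fun x => ENNReal.ofReal (‖x‖ ^ p)) with hG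
    have hGm : Measurable G := (continuous_norm_rpow hp.le).measurable.ennreal_ofReal.indicator hKm
    have h1 : ∫⁻ x in K1, ENNReal.ofReal (‖x‖ ^ p) ≤ ∫⁻ x, G (strM e 1 x) := by
      rw [← lintegral_indicator hK1m]
      refine lintegral_mono fun x => ?_
      by_cases hx : x ∈ K1
      · rw [indicator_of_mem hx]
        have hxK : strM e 1 x ∈ wulff h := by
          have e1 : strM e 1 x = x + (inner ℝ x (e : Eu (m + 2))) • (e : Eu (m + 2)) := by
            rw [strM_apply, one_mul]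
          have hco : ∀ j, (strM e 1 x) j = x j + x i.succ.succ * (if j = i.succ.succ then 1 else 0) := by
            intro j
            rw [e1, hedef, inner_es]
            show x j + x i.succ.succ * (es i.succ.succ : Eu (m + 2)) j = _
            rw [es_apply]
          have hxc := hx.1
          refine mem_of_Om hc h0 he hae (fun v hv => ?_) fun j => ?_
          · rw [hco, hco, if_neg (by exact (Fin.succ_ne_zero _).symm), if_neg (by
              intro hcon
              have := congrArg Fin.val hcon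
              simp at this)]
            have := hxc v
            rw [inner_Pc _ hv] at this
            simpa using this
          · rw [hco]
            by_cases hji : j = i
            · rw [if_pos (by rw [hji]), hji]
              have h3 : |inner ℝ x (e : Eu (m + 2))| ≤ t / 2 := hx.2
              rw [hedef, inner_es] at h3
              rw [mul_one, ← two_mul, abs_mul, abs_two]
              have : h (es i.succ.succ) = t := rfl
              rw [this]
              linarith
            · rw [if_neg (by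
                intro hcon
                exact hji (Fin.succ_injective _ (Fin.succ_injective _ hcon))), mul_zero, add_zero]
              exact abs_coord_le he hxc _
        rw [hG, indicator_of_mem hxK]
        refine ENNReal.ofReal_le_ofReal (Real.rpow_le_rpow (norm_nonneg _) ?_ hp.le)
        have h4 := norm_sq_strM e 1 x
        have h5 : ‖x‖ ^ 2 ≤ ‖strM e 1 x‖ ^ 2 := by
          rw [h4]
          have := sq_nonneg (inner ℝ x (e : Eu (m + 2)))
          nlinarith
        exact (pow_le_pow_iff_left₀ (norm_nonneg _) (norm_nonneg _) two_ne_zero).1 h5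
      · rw [indicator_of_notMem hx]
        exact bot_le
    rw [lint_strM e (by norm_num) hGm, hG, lintegral_indicator hKm, DD_eq hp.le hKc,
      DD_eq hp.le hK1c, ← ENNReal.ofReal_mul (by norm_num)] at h1
    have h2 := (ENNReal.ofReal_le_ofReal_iff (mul_nonneg (by norm_num) (DD_nonneg _))).1 h1
    calc DD p K1 ≤ (1 + 1)⁻¹ * DD p (wulff h) := h2
      _ = 1 / 2 * DD p (wulff h) := by norm_num
  -- the moment
  have hc1 : Continuous (fun x : Eu (m + 2) => ‖x‖ ^ p) := continuous_norm_rpow hp.le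
  have hc2 : Continuous (fun x : Eu (m + 2) => ‖x‖ ^ p * inner ℝ x (e : Eu (m + 2)) ^ 2) :=
    hc1.mul ((continuous_id.inner continuous_const).pow 2)
  have hi1 : IntegrableOn (fun x : Eu (m + 2) => ‖x‖ ^ p) (wulff h) :=
    hc1.continuousOn.integrableOn_compact hKc
  have hi2 : IntegrableOn (fun x : Eu (m + 2) => ‖x‖ ^ p * inner ℝ x (e : Eu (m + 2)) ^ 2)
      (wulff h) := hc2.continuousOn.integrableOn_compact hKc
  set K2 : Set (Eu (m + 2)) := wulff h \ K1 with hK2
  have hK2m : MeasurableSet K2 := hKm.diff hK1m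
  have hsplit : DD p (wulff h) = DD p K1 + DD p K2 := by
    unfold DD
    rw [hK2, setIntegral_sdiff hK1m hi1 inter_subset_left]
    ring
  have h6 : t ^ 2 / 4 * DD p K2 ≤
      ∫ x in K2, ‖x‖ ^ p * inner ℝ x (e : Eu (m + 2)) ^ 2 := by
    unfold DD
    rw [← integral_const_mul]
    refine setIntegral_mono_on ((hi1.mono_set sdiff_subset).const_mul _)
      (hi2.mono_set sdiff_subset) hK2m fun x hx => ?_
    have h7 : t / 2 < |inner ℝ x (e : Eu (m + 2))| := by
      by_contra hcon
      rw [not_lt] at hcon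
      exact hx.2 ⟨hx.1, hcon⟩
    have h8 : t ^ 2 / 4 ≤ inner ℝ x (e : Eu (m + 2)) ^ 2 := by
      rw [← sq_abs (inner ℝ x (e : Eu (m + 2)))]
      have := pow_le_pow_left₀ (by positivity) h7.le 2
      calc t ^ 2 / 4 = (t / 2) ^ 2 := by ring
        _ ≤ _ := this
    rw [mul_comm]
    exact mul_le_mul_of_nonneg_left h8 (Real.rpow_nonneg (norm_nonneg _) _)
  have h9 : ∫ x in K2, ‖x‖ ^ p * inner ℝ x (e : Eu (m + 2)) ^ 2 ≤
      ∫ x in wulff h, ‖x‖ ^ p * inner ℝ x (e : Eu (m + 2)) ^ 2 := by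
    refine setIntegral_mono_set hi2 (Eventually.of_forall fun x => ?_) sdiff_subset.eventuallyLE
    exact mul_nonneg (Real.rpow_nonneg (norm_nonneg _) _) (sq_nonneg _)
  refine le_trans ?_ (h6.trans h9)
  have h10 : 1 / 2 * DD p (wulff h) ≤ DD p K2 := by linarith
  have h11 := mul_le_mul_of_nonneg_left h10 (by positivity : 0 ≤ t ^ 2 / 4)
  calc t ^ 2 / 8 * DD p (wulff h) = t ^ 2 / 4 * (1 / 2 * DD p (wulff h)) := by ring
    _ ≤ _ := h11

end Lower

end Pool.Agent.Lib.MP_b0d2bf_gt
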