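import Mathlib
import Pool.Agent.Lib.MP_b0d2bf_gt.Lower

set_option autoImplicit false

/-!
Thin directions in the plane.
-/

namespace Pool.Agent.Lib.MP_b0d2bf_gt

open MeasureTheory Metric Set Filter Topology
open scoped Pointwise

section Thin

variable {m : ℕ}

lemma Pc_perp {a v : Sph (m + 2)} (ha : a ∈ Pc m) (hv : v ∈ Pc m)
    (h : inner ℝ (a : Eu (m + 2)) (v : Eu (m + 2)) = 0) :
    v = pdir m (-(a : Eu (m + 2)) 1) ((a : Eu (m + 2)) 0)
        (by have := norm_Pc ha; linarith [neg_sq ((a : Eu (m + 2)) 1)]) ∨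
    v = - pdir m (-(a : Eu (m + 2)) 1) ((a : Eu (m + 2)) 0)
        (by have := norm_Pc ha; linarith [neg_sq ((a : Eu (m + 2)) 1)]) := by
  rw [inner_Pc _ hv] at h
  have ha1 := norm_Pc ha
  have hv1 := norm_Pc hv
  set a0 := (a : Eu (m + 2)) 0
  set a1 := (a : Eu (m + 2)) 1
  set v0 := (v : Eu (m + 2)) 0
  set v1 := (v : Eu (m + 2)) 1
  set s := -a1 * v0 + a0 * v1 with hs
  have e1 : v0 = -a1 * s := by
    rw [hs]
    have : v0 = v0 * (a0 ^ 2 + a1 ^ 2) := by rw [ha1, mul_one]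
    have h2 : a0 * (a0 * v0 + a1 * v1) = 0 := by rw [h, mul_zero]
    nlinarith
  have e2 : v1 = a0 * s := by
    rw [hs]
    have : v1 = v1 * (a0 ^ 2 + a1 ^ 2) := by rw [ha1, mul_one]
    have h2 : a1 * (a0 * v0 + a1 * v1) = 0 := by rw [h, mul_zero]
    nlinarith
  have e3 : s ^ 2 = 1 := by
    rw [e1, e2] at hv1
    have : (-a1 * s) ^ 2 + (a0 * s) ^ 2 = (a0 ^ 2 + a1 ^ 2) * s ^ 2 := by ring
    rw [this, ha1, one_mul] at hv1
    exact hv1
  have e4 : s = 1 ∨ s = -1 := by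
    have : (s - 1) * (s + 1) = 0 := by nlinarith
    rcases mul_eq_zero.1 this with h9 | h9
    · left; linarith
    · right; linarith
  rcases e4 with e4 | e4
  · left
    apply Subtype.ext
    rw [mem_Pc_iff.1 hv]
    show pv m v0 v1 = pv m (-a1) a0
    rw [e1, e2, e4, mul_one, mul_one]
  · right
    apply Subtype.ext
    rw [mem_Pc_iff.1 hv, coe_neg_sphere]
    show pv m v0 v1 = - pv m (-a1) a0
    rw [e1, e2, e4]
    unfold pv
    rw [neg_add, ← neg_smul, ← neg_smul]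
    simp

/-- uniformly small arcs -/
theorem arcs (ν0 : Measure (Sph (m + 2))) [IsProbabilityMeasure ν0] (hP : ν0 (Pc m)ᶜ = 0)
    (hat : ∀ v, ν0 {v} = 0) {θ : ℝ} (hθ : 0 < θ) :
    ∃ η : ℝ, 0 < η ∧ ∀ a ∈ Pc m,
      ν0.real {v | |inner ℝ (a : Eu (m + 2)) (v : Eu (m + 2))| ≤ η} < θ := by
  by_contra hcon
  push Not at hcon
  have h1 : ∀ k : ℕ, ∃ a ∈ Pc m, θ ≤ ν0.real {v | |inner ℝ (a : Eu (m + 2)) (v : Eu (m + 2))| ≤
      1 / ((k : ℝ) + 1)} := fun k => hcon _ (by positivity)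
  choose a haP ha using h1
  have hcomp : IsCompact (Pc m) := isClosed_Pc.isCompact
  obtain ⟨b, hbP, φ, hφ, hlim⟩ := hcomp.tendsto_subseq haP
  have hcl : ∀ ε : ℝ, MeasurableSet {v : Sph (m + 2) |
      |inner ℝ (b : Eu (m + 2)) (v : Eu (m + 2))| ≤ ε} := fun ε =>
    (isClosed_le (continuous_const.inner continuous_subtype_val).abs
      continuous_const).measurableSet
  have h2 : ∀ j : ℕ, ENNReal.ofReal θ ≤ ν0 {v : Sph (m + 2) |
      |inner ℝ (b : Eu (m + 2)) (v : Eu (m + 2))| ≤ 1 / ((j : ℝ) + 1)} := by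
    intro j
    have hj : (0:ℝ) < 1 / ((j : ℝ) + 1) := by positivity
    have e1 : ∀ᶠ k in atTop, dist ((a ∘ φ) k) b < 1 / ((j : ℝ) + 1) / 2 :=
      (Metric.tendsto_nhds.1 hlim) _ (by positivity)
    have e2 : ∀ᶠ k : ℕ in atTop, 1 / ((φ k : ℝ) + 1) < 1 / ((j : ℝ) + 1) / 2 := by
      have := (tendsto_one_div_add_atTop_nhds_zero_nat (𝕜 := ℝ)).comp hφ.tendsto_atTop
      exact this.eventually_lt_const (by positivity)
    obtain ⟨k, hk1, hk2⟩ := (e1.and e2).exists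
    have e3 := ha (φ k)
    have e4 : {v : Sph (m + 2) | |inner ℝ (a (φ k) : Eu (m + 2)) (v : Eu (m + 2))| ≤
        1 / ((φ k : ℝ) + 1)} ⊆ {v : Sph (m + 2) |
      |inner ℝ (b : Eu (m + 2)) (v : Eu (m + 2))| ≤ 1 / ((j : ℝ) + 1)} := by
      intro v hv
      have hv' : |inner ℝ (a (φ k) : Eu (m + 2)) (v : Eu (m + 2))| ≤ 1 / ((φ k : ℝ) + 1) := hv
      show |inner ℝ (b : Eu (m + 2)) (v : Eu (m + 2))| ≤ 1 / ((j : ℝ) + 1)
      have e5 : inner ℝ (b : Eu (m + 2)) (v : Eu (m + 2)) =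
          inner ℝ (a (φ k) : Eu (m + 2)) (v : Eu (m + 2)) -
          inner ℝ ((a (φ k) : Eu (m + 2)) - (b : Eu (m + 2))) (v : Eu (m + 2)) := by
        rw [inner_sub_left]; ring
      rw [e5]
      have e6 : |inner ℝ ((a (φ k) : Eu (m + 2)) - (b : Eu (m + 2))) (v : Eu (m + 2))| ≤
          dist (a (φ k)) b := by
        rw [Subtype.dist_eq, dist_eq_norm]
        exact abs_inner_le _ v
      have e7 : dist (a (φ k)) b < 1 / ((j : ℝ) + 1) / 2 := hk1
      have e8 := abs_sub (inner ℝ (a (φ k) : Eu (m + 2)) (v : Eu (m + 2)))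
        (inner ℝ ((a (φ k) : Eu (m + 2)) - (b : Eu (m + 2))) (v : Eu (m + 2)))
      linarith
    have e9 : θ ≤ ν0.real {v : Sph (m + 2) |
      |inner ℝ (b : Eu (m + 2)) (v : Eu (m + 2))| ≤ 1 / ((j : ℝ) + 1)} :=
      e3.trans (measureReal_mono e4)
    exact (ENNReal.ofReal_le_iff_le_toReal (measure_ne_top _ _)).2 e9
  have h3 : Tendsto (fun j : ℕ => ν0 {v : Sph (m + 2) |
      |inner ℝ (b : Eu (m + 2)) (v : Eu (m + 2))| ≤ 1 / ((j : ℝ) + 1)}) atTop
      (𝓝 (ν0 (⋂ j : ℕ, {v : Sph (m + 2) |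
      |inner ℝ (b : Eu (m + 2)) (v : Eu (m + 2))| ≤ 1 / ((j : ℝ) + 1)}))) := by
    refine tendsto_measure_iInter_atTop (fun j => (hcl _).nullMeasurableSet) ?_
      ⟨0, measure_ne_top _ _⟩
    intro i j hij v hv
    have hv' : |inner ℝ (b : Eu (m + 2)) (v : Eu (m + 2))| ≤ 1 / ((j : ℝ) + 1) := hv
    show |inner ℝ (b : Eu (m + 2)) (v : Eu (m + 2))| ≤ 1 / ((i : ℝ) + 1)
    refine hv'.trans ?_
    have : (i : ℝ) ≤ j := by exact_mod_cast hij
    exact one_div_le_one_div_of_le (by positivity) (by linarith)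
  have h4 : ν0 (⋂ j : ℕ, {v : Sph (m + 2) |
      |inner ℝ (b : Eu (m + 2)) (v : Eu (m + 2))| ≤ 1 / ((j : ℝ) + 1)}) = 0 := by
    set b' := pdir m (-(b : Eu (m + 2)) 1) ((b : Eu (m + 2)) 0)
        (by have := norm_Pc hbP; linarith [neg_sq ((b : Eu (m + 2)) 1)]) with hb'
    have e1 : (⋂ j : ℕ, {v : Sph (m + 2) |
      |inner ℝ (b : Eu (m + 2)) (v : Eu (m + 2))| ≤ 1 / ((j : ℝ) + 1)}) ⊆
        (Pc m)ᶜ ∪ ({b'} ∪ {-b'}) := by
      intro v hv
      by_cases hvP : v ∈ Pc m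
      · right
        have e2 : inner ℝ (b : Eu (m + 2)) (v : Eu (m + 2)) = 0 := by
          have e3 : ∀ j : ℕ, |inner ℝ (b : Eu (m + 2)) (v : Eu (m + 2))| ≤ 1 / ((j : ℝ) + 1) :=
            fun j => mem_iInter.1 hv j
          have e4 : |inner ℝ (b : Eu (m + 2)) (v : Eu (m + 2))| ≤ 0 :=
            ge_of_tendsto' (tendsto_one_div_add_atTop_nhds_zero_nat (𝕜 := ℝ)) e3
          exact abs_nonpos_iff.1 e4
        rcases Pc_perp hbP hvP e2 with e5 | e5
        · left; exact e5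
        · right; exact e5
      · left; exact hvP
    refine measure_mono_null e1 ?_
    rw [measure_union_null_iff, measure_union_null_iff]
    exact ⟨hP, hat _, hat _⟩
  rw [h4] at h3
  have h5 : ENNReal.ofReal θ ≤ 0 := ge_of_tendsto' h3 h2
  have h6 : 0 < ENNReal.ofReal θ := ENNReal.ofReal_pos.2 hθ
  exact absurd h5 (not_le.2 h6)

/-- the longest direction in the plane -/
lemma max_dir {h : Sph (m + 2) → ℝ} (hc : Continuous h) (h0 : ∀ v, 0 < h v)
    (he : ∀ v, h (-v) = h v) (hs : ∀ v, supp h v = h v) {a : Sph (m + 2)} (ha : a ∈ Pc m)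
    (hmax : ∀ v ∈ Pc m, h v ≤ h a) {v : Sph (m + 2)} (hv : v ∈ Pc m) :
    h a * |inner ℝ (a : Eu (m + 2)) (v : Eu (m + 2))| ≤ h v := by
  obtain ⟨x, hx, hxa, -⟩ := exists_supp hc h0 a
  rw [hs, inner_Pc _ ha] at hxa
  have h1 := planar_norm_le hmax hx
  have h2 := norm_Pc ha
  set R := h a
  set a0 := (a : Eu (m + 2)) 0
  set a1 := (a : Eu (m + 2)) 1
  have h3 : (x 0 - R * a0) ^ 2 + (x 1 - R * a1) ^ 2 ≤ 0 := by
    have : (x 0 - R * a0) ^ 2 + (x 1 - R * a1) ^ 2 =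
        (x 0 ^ 2 + x 1 ^ 2) - 2 * R * (x 0 * a0 + x 1 * a1) + R ^ 2 * (a0 ^ 2 + a1 ^ 2) := by ring
    rw [this, ← hxa, h2]
    nlinarith
  have h4 : x 0 = R * a0 := by
    have : (x 0 - R * a0) ^ 2 = 0 := by nlinarith [sq_nonneg (x 0 - R * a0), sq_nonneg (x 1 - R * a1)]
    have := pow_eq_zero_iff (two_ne_zero) |>.1 this
    linarith
  have h5 : x 1 = R * a1 := by
    have : (x 1 - R * a1) ^ 2 = 0 := by nlinarith [sq_nonneg (x 0 - R * a0), sq_nonneg (x 1 - R * a1)]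
    have := pow_eq_zero_iff (two_ne_zero) |>.1 this
    linarith
  have h6 := abs_inner_le_supp he hx v
  have hR0 : 0 < R := h0 a
  rw [inner_Pc _ hv, h4, h5] at h6
  rw [inner_Pc _ hv, ← abs_of_pos hR0, ← abs_mul]
  refine le_trans (le_of_eq ?_) h6
  congr 1
  ring

/-- the height of the facet is controlled by the smallest planar width -/
theorem thin {q : ℝ} (hq : ((m + 2 : ℕ) : ℝ) < q) (ν0 : Measure (Sph (m + 2)))
    [IsProbabilityMeasure ν0] (hP : ν0 (Pc m)ᶜ = 0) (hat : ∀ v, ν0 {v} = 0) :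
    ∃ M' : ℝ, 0 < M' ∧ ∀ h : Sph (m + 2) → ℝ, Continuous h → (∀ v, 0 < h v) →
      (∀ v, h (-v) = h v) → (∀ v, supp h v = h v) → (∀ᵐ u ∂(sg (m + 2)), nu h u ∈ Om m) →
      (∀ ω, MeasurableSet ω → (MM q h).real (ω ∩ (Pc m \ Ax 1)) ≤
        (MM q h).real univ * ν0.real ω) →
      ∀ z ∈ Pc m, (∀ v ∈ Pc m, h z ≤ h v) → ∀ a ∈ Pc m, (∀ v ∈ Pc m, h v ≤ h a) →
      h (es 1) ≤ M' * h z := by
  have hn : (0:ℝ) < ((m + 2 : ℕ) : ℝ) := by positivity
  have hq0 : 0 < q := by linarith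
  obtain ⟨η, hη, harc⟩ := arcs ν0 hP hat (θ := 1 / (2 * q)) (by positivity)
  refine ⟨max (2 * q) (2 * q / η), by positivity, fun h hc h0 he hs hae hrest z hz hzmin a ha
    hamax => ?_⟩
  by_contra hcon
  rw [not_le] at hcon
  set M : ℝ := 2 * q with hM
  have hM0 : 0 < M := by positivity
  have hr0 : 0 < h z := h0 z
  have hcon1 : M * h z < h (es 1) :=
    lt_of_le_of_lt (mul_le_mul_of_nonneg_right (le_max_left _ _) hr0.le) hcon
  have hcon2 : M / η * h z < h (es 1) :=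
    lt_of_le_of_lt (mul_le_mul_of_nonneg_right (le_max_right _ _) hr0.le) hcon
  set ω : Set (Sph (m + 2)) := {v | v ∈ Pc m ∧ h v ≤ M * h z} with hω
  have hωm : MeasurableSet ω := measurable_Pc.inter
    (isClosed_le hc continuous_const).measurableSet
  obtain ⟨S, hS0, hSu⟩ := exists_upp hc h0
  have hSK := wulff_subset hc h0 hS0 hSu
  set D := DD (q - ((m + 2 : ℕ) : ℝ)) (wulff h) with hD
  have hD0 : 0 < D := DD_pos hq hc h0
  have h1 := conc_mass hq hc h0 z hS0 hSK hωm (κ := 1 / M) (by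
    filter_upwards [hae, ae_diff hc h0] with u hu hud
    have hmx : inner ℝ (u : Eu (m + 2)) (nu h u : Eu (m + 2)) / h (nu h u) = gN h u :=
      isMx_nu hc h0 hud
    have hNu := gN_pos hc h0 (sph_ne_zero u)
    have hx := bd_mem_wulff hc h0 u
    have e1 : |(gN h (u : Eu (m + 2)))⁻¹ * inner ℝ (u : Eu (m + 2)) (z : Eu (m + 2))| ≤ h z := by
      have := abs_inner_le_supp he hx z
      rwa [inner_smul_left] at this
    have e2 : |gg h z u| ≤ h z * |inner ℝ (z : Eu (m + 2)) (nu h u : Eu (m + 2))| / h (nu h u) := by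
      unfold gg
      rw [abs_mul, abs_div, abs_of_pos (h0 _), mul_div_assoc]
      exact mul_le_mul_of_nonneg_right e1 (by
        have := h0 (nu h u)
        positivity)
    have hind : 0 ≤ ω.indicator (fun _ => (1:ℝ)) (nu h u) :=
      indicator_nonneg (fun _ _ => zero_le_one) _
    have hMinv : 0 < 1 / M := by positivity
    rcases hu with hu | hu
    · have e3 : h z * |inner ℝ (z : Eu (m + 2)) (nu h u : Eu (m + 2))| ≤ h z := by
        have := abs_inner_sph z (nu h u)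
        nlinarith
      by_cases hu2 : h (nu h u) ≤ M * h z
      · rw [indicator_of_mem (show nu h u ∈ ω from ⟨hu, hu2⟩)]
        have e4 : h z * |inner ℝ (z : Eu (m + 2)) (nu h u : Eu (m + 2))| / h (nu h u) ≤ 1 := by
          rw [div_le_one (h0 _)]
          exact e3.trans (hzmin _ hu)
        have := (le_abs_self _).trans (e2.trans e4)
        linarith
      · rw [not_le] at hu2
        have e4 : h z * |inner ℝ (z : Eu (m + 2)) (nu h u : Eu (m + 2))| / h (nu h u) ≤ 1 / M := by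
          rw [div_le_div_iff₀ (h0 _) hM0, one_mul]
          nlinarith
        have := (le_abs_self _).trans (e2.trans e4)
        linarith
    · rw [mem_iUnion] at hu
      obtain ⟨i, hi⟩ := hu
      have e3 : inner ℝ (z : Eu (m + 2)) (nu h u : Eu (m + 2)) = 0 := by
        rcases hi with hi | hi
        · rw [hi, inner_es]; exact hz i
        · rw [mem_singleton_iff] at hi
          rw [hi, coe_neg_sphere, inner_neg_right, inner_es, hz i, neg_zero]
      rw [e3, abs_zero, mul_zero, zero_div] at e2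
      have := (le_abs_self _).trans e2
      linarith)
  have h2 : 0 ≤ (q - ((m + 2 : ℕ) : ℝ)) / (2 * S ^ 2) *
      (∫ x in wulff h, ‖x‖ ^ (q - ((m + 2 : ℕ) : ℝ)) * inner ℝ x (z : Eu (m + 2)) ^ 2) := by
    refine mul_nonneg (div_nonneg (by linarith) (by positivity)) (integral_nonneg fun x => ?_)
    exact mul_nonneg (Real.rpow_nonneg (norm_nonneg _) _) (sq_nonneg _)
  have h3 : D / 2 ≤ (MM q h).real ω := by
    have e1 : 1 / M * (q * D) = D / 2 := by rw [hM]; field_simp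
    rw [← hD, e1] at h1
    linarith
  have h4 : ω ∩ (Pc m \ Ax 1) = ω := by
    refine inter_eq_left.2 fun v hv => ⟨hv.1, fun hv1 => ?_⟩
    have e1 : h v = h (es 1) := by
      rcases hv1 with hv1 | hv1
      · rw [hv1]
      · rw [mem_singleton_iff] at hv1
        rw [hv1, he]
    have e2 := hv.2
    rw [e1] at e2
    linarith
  have h5 := hrest ω hωm
  rw [h4] at h5
  have hT : (MM q h).real univ = q * D := by
    rw [Measure.real, MM_univ' hq hc h0, ENNReal.toReal_ofReal (by positivity)]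
  rw [hT] at h5
  have h6 : 1 / (2 * q) ≤ ν0.real ω := by
    have e1 : D / 2 ≤ q * D * ν0.real ω := h3.trans h5
    rw [div_le_iff₀ (by positivity)]
    have e2 : D * 1 ≤ D * (ν0.real ω * (2 * q)) := by nlinarith
    exact le_of_mul_le_mul_left e2 hD0
  have h7 : ω ⊆ {v | |inner ℝ (a : Eu (m + 2)) (v : Eu (m + 2))| ≤ η} := by
    intro v hv
    show |inner ℝ (a : Eu (m + 2)) (v : Eu (m + 2))| ≤ η
    have e1 := max_dir hc h0 he hs ha hamax hv.1
    have e2 := hv.2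
    have e3 : M * h z < η * h a := by
      have e4 : h (es 1) ≤ h a := hamax _ es_one_mem
      have e5 : M / η * h z < h a := lt_of_lt_of_le hcon2 e4
      rw [div_mul_eq_mul_div, div_lt_iff₀ hη] at e5
      linarith
    have e6 : h a * |inner ℝ (a : Eu (m + 2)) (v : Eu (m + 2))| ≤ h a * η := by linarith
    exact le_of_mul_le_mul_left e6 (h0 a)
  have h8 := harc a ha
  have h9 : ν0.real ω ≤ ν0.real {v | |inner ℝ (a : Eu (m + 2)) (v : Eu (m + 2))| ≤ η} :=
    measureReal_mono h7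
  linarith

end Thin

end Pool.Agent.Lib.MP_b0d2bf_gt
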