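import Mathlib
import Pool.Agent.Lib.MP_b0d2bf_gt.Thin

set_option autoImplicit false

/-!
Non-attainment: measures with too much mass on a pair of antipodal points of the circle and an
atomless rest are not dual curvature measures.
-/

namespace Pool.Agent.Lib.MP_b0d2bf_gt

open MeasureTheory Metric Set Filter Topology
open scoped Pointwise

section NonAtt

variable {m : ℕ}

lemma planar_bound {a b R : ℝ} {h : Sph (m + 2) → ℝ} (hR : ∀ v ∈ Pc m, h v ≤ R)
    (hab : ∀ v ∈ Pc m, a * (v : Eu (m + 2)) 0 + b * (v : Eu (m + 2)) 1 ≤ h v) :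
    a ^ 2 + b ^ 2 ≤ R ^ 2 := by
  rcases eq_or_lt_of_le (by positivity : 0 ≤ a ^ 2 + b ^ 2) with h0 | h0
  · rw [← h0]; positivity
  · set r := Real.sqrt (a ^ 2 + b ^ 2) with hr
    have hr0 : 0 < r := Real.sqrt_pos.2 h0
    have hr2 : r ^ 2 = a ^ 2 + b ^ 2 := Real.sq_sqrt h0.le
    have hab1 : (a / r) ^ 2 + (b / r) ^ 2 = 1 := by
      rw [div_pow, div_pow, ← add_div, ← hr2, div_self (by positivity)]
    have h1 := hab _ (pdir_mem (m := m) _ _ hab1)
    have h2 : (pdir m _ _ hab1 : Eu (m + 2)) 0 = a / r := pv_zero _ _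
    have h3 : (pdir m _ _ hab1 : Eu (m + 2)) 1 = b / r := pv_one _ _
    rw [h2, h3] at h1
    have h4 : a * (a / r) + b * (b / r) = r := by
      rw [← mul_div_assoc, ← mul_div_assoc, ← add_div, ← sq, ← sq, ← hr2]
      field_simp
    rw [h4] at h1
    rw [← hr2]
    exact pow_le_pow_left₀ hr0.le (h1.trans (hR _ (pdir_mem _ _ hab1))) 2

/-- the axes are thin if their masses are close to `1 / q` -/
lemma axes_thin {q : ℝ} (hq : ((m + 2 : ℕ) : ℝ) < q) {h : Sph (m + 2) → ℝ} (hc : Continuous h)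
    (h0 : ∀ v, 0 < h v) (he : ∀ v, h (-v) = h v) (hae : ∀ᵐ u ∂(sg (m + 2)), nu h u ∈ Om m)
    {R : ℝ} (hR0 : 0 < R) (hR : ∀ v ∈ Pc m, h v ≤ R) {δ : ℝ} (i : Fin m)
    (hi : (MM q h).real (Ax i.succ.succ) ≤ (1 / q + δ) * (MM q h).real univ) :
    h (es i.succ.succ) ^ 2 ≤ 16 * q * δ / (q - (m + 2 : ℕ)) *
      (R ^ 2 + ∑ j : Fin m, h (es j.succ.succ) ^ 2) := by
  have hn : (0:ℝ) < ((m + 2 : ℕ) : ℝ) := by positivity
  have hq0 : 0 < q := by linarith
  set p := q - (m + 2 : ℕ) with hp
  have hp0 : 0 < p := by linarith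
  set S2 := R ^ 2 + ∑ j : Fin m, h (es j.succ.succ) ^ 2 with hS2
  have hS20 : 0 < S2 := by
    have : 0 ≤ ∑ j : Fin m, h (es j.succ.succ) ^ 2 := Finset.sum_nonneg fun j _ => sq_nonneg _
    positivity
  set S := Real.sqrt S2 with hS
  have hS0 : 0 < S := Real.sqrt_pos.2 hS20
  have hSS : S ^ 2 = S2 := Real.sq_sqrt hS20.le
  have hSK : wulff h ⊆ closedBall 0 S := by
    intro x hx
    rw [mem_closedBall_zero_iff]
    have h1 := norm_sq_le_of_mem he hR hx
    rw [← hS2, ← hSS] at h1
    exact (pow_le_pow_iff_left₀ (norm_nonneg _) hS0.le two_ne_zero).1 h1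
  set e := es (m := m) i.succ.succ with hedef
  set D := DD p (wulff h) with hD
  have hD0 : 0 < D := DD_pos hq hc h0
  have h1 := conc_mass hq hc h0 e hS0 hSK (measurable_Ax i.succ.succ) (κ := 0) (by
    filter_upwards [hae, ae_diff hc h0] with u hu hud
    have hx := bd_mem_wulff hc h0 u
    rw [add_zero]
    by_cases hu2 : nu h u ∈ Ax i.succ.succ
    · rw [indicator_of_mem hu2]
      have e1 : |(gN h (u : Eu (m + 2)))⁻¹ * inner ℝ (u : Eu (m + 2)) (e : Eu (m + 2))| ≤ h e := by
        have := abs_inner_le_supp he hx e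
        rwa [inner_smul_left] at this
      have e2 : h (nu h u) = h e := by
        rcases hu2 with hu2 | hu2
        · rw [hu2]
        · rw [mem_singleton_iff] at hu2
          rw [hu2, he]
      have e3 : |gg h e u| ≤ 1 := by
        unfold gg
        rw [abs_mul, abs_div, abs_of_pos (h0 _), e2]
        have e4 := abs_inner_sph e (nu h u)
        have he0 := h0 e
        calc _ ≤ h e * (1 / h e) := by
              refine mul_le_mul e1 ?_ (by positivity) he0.le
              exact div_le_div_of_nonneg_right e4 he0.le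
          _ = 1 := by field_simp
      exact (le_abs_self _).trans e3
    · rw [indicator_of_notMem hu2]
      have e3 : inner ℝ (e : Eu (m + 2)) (nu h u : Eu (m + 2)) = 0 := by
        rw [real_inner_comm, hedef, inner_es]
        rcases hu with hu | hu
        · exact hu i
        · rw [mem_iUnion] at hu
          obtain ⟨j, hj⟩ := hu
          have hij : i ≠ j := by
            rintro rfl
            exact hu2 hj
          rcases hj with hj | hj
          · rw [hj, es_apply, if_neg]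
            intro hcon
            exact hij (Fin.succ_injective _ (Fin.succ_injective _ hcon))
          · rw [mem_singleton_iff] at hj
            rw [hj, coe_neg_sphere]
            show -((es j.succ.succ : Sph (m + 2)) : Eu (m + 2)) i.succ.succ = 0
            rw [es_apply, if_neg, neg_zero]
            intro hcon
            exact hij (Fin.succ_injective _ (Fin.succ_injective _ hcon))
      have e4 : gg h e u = 0 := by
        unfold gg
        rw [e3, zero_div, mul_zero]
      exact le_of_eq e4)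
  have hT : (MM q h).real univ = q * D := by
    rw [Measure.real, MM_univ' hq hc h0, ENNReal.toReal_ofReal (by positivity)]
  rw [hT] at hi
  have h2 := moment_lower hp0 hc h0 he hae i
  rw [← hD, ← hedef] at h2
  rw [zero_mul, add_zero] at h1
  have h3 : p / (2 * S ^ 2) * (h e ^ 2 / 8 * D) ≤ δ * (q * D) := by
    have e1 := mul_le_mul_of_nonneg_left h2 (by positivity : 0 ≤ p / (2 * S ^ 2))
    have e2 : (1 / q + δ) * (q * D) = D + δ * (q * D) := by field_simp
    rw [e2] at hi
    have e3 := h1.trans hi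
    rw [← hp] at e3
    linarith
  rw [hSS] at h3
  have h4 : h e ^ 2 * p ≤ 16 * q * δ * S2 := by
    have e1 : p / (2 * S2) * (h e ^ 2 / 8 * D) = h e ^ 2 * p * (D / (16 * S2)) := by
      field_simp
      ring
    have e2 : δ * (q * D) = 16 * q * δ * S2 * (D / (16 * S2)) := by
      field_simp
    rw [e1, e2] at h3
    exact le_of_mul_le_mul_right h3 (by positivity)
  rw [div_mul_eq_mul_div, le_div_iff₀ hp0]
  exact h4

/-- the main non-attainment theorem -/
theorem non_att {q : ℝ} (hq : ((m + 2 : ℕ) : ℝ) < q) (ν0 : Measure (Sph (m + 2)))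
    [IsProbabilityMeasure ν0] (hP : ν0 (Pc m)ᶜ = 0) (hat : ∀ v, ν0 {v} = 0) :
    ∃ δ : ℝ, 0 < δ ∧ ∀ h : Sph (m + 2) → ℝ, Continuous h → (∀ v, 0 < h v) →
      (∀ v, h (-v) = h v) → (∀ v, supp h v = h v) → (∀ᵐ u ∂(sg (m + 2)), nu h u ∈ Om m) →
      (∀ ω, MeasurableSet ω → (MM q h).real (ω ∩ (Pc m \ Ax 1)) ≤
        (MM q h).real univ * ν0.real ω) →
      (∀ i : Fin m, (MM q h).real (Ax i.succ.succ) ≤ (1 / q + δ) * (MM q h).real univ) →
      ((q - (m + 2 : ℕ) + 1) / q - δ) * (MM q h).real univ ≤ (MM q h).real (Ax 1) → False := by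
  have hn : (0:ℝ) < ((m + 2 : ℕ) : ℝ) := by positivity
  have hq0 : 0 < q := by linarith
  set p := q - (m + 2 : ℕ) with hp
  have hp0 : 0 < p := by linarith
  obtain ⟨M', hM', hthin⟩ := thin hq ν0 hP hat
  set κ := 1 / (2 * (1 + M')) with hκ
  have hκ0 : 0 < κ := by positivity
  set ε := (p + 1) / 8 * ((κ / 8) ^ p * (κ / 2)) / 2 ^ (p / 2) with hε
  have hε0 : 0 < ε := by positivity
  obtain ⟨δ₁, hδ₁, hgap⟩ := planar_gap' hp0 hε0
  set μ := min δ₁ 1 with hμ
  have hμ0 : 0 < μ := by positivity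
  have hμ1 : μ ≤ 1 := min_le_right _ _
  set δ := min ((p + 1) / (2 * q)) (min ((p + 1) * δ₁ / (2 * q * (1 + δ₁)))
    (p * μ ^ 2 / (32 * q * (m + 1)))) with hδ
  have hδ0 : 0 < δ := by positivity
  have hδa : δ ≤ (p + 1) / (2 * q) := min_le_left _ _
  have hδb : δ ≤ (p + 1) * δ₁ / (2 * q * (1 + δ₁)) := (min_le_right _ _).trans (min_le_left _ _)
  have hδc : δ ≤ p * μ ^ 2 / (32 * q * (m + 1)) := (min_le_right _ _).trans (min_le_right _ _)
  refine ⟨δ, hδ0, fun h hc h0 he hs hae hrest hb hce => ?_⟩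
  -- extremal directions
  have hPcomp : IsCompact (Pc m) := isClosed_Pc.isCompact
  have hPne : (Pc m).Nonempty := ⟨es 0, es_zero_mem⟩
  obtain ⟨z, hz, hzmin'⟩ := hPcomp.exists_isMinOn hPne hc.continuousOn
  obtain ⟨a, ha, hamax'⟩ := hPcomp.exists_isMaxOn hPne hc.continuousOn
  have hzmin : ∀ v ∈ Pc m, h z ≤ h v := fun v hv => hzmin' hv
  have hamax : ∀ v ∈ Pc m, h v ≤ h a := fun v hv => hamax' hv
  have hth := hthin h hc h0 he hs hae hrest z hz hzmin a ha hamax
  set R := h a with hR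
  have hR0 : 0 < R := h0 a
  set H := h (es (m := m) 1) with hH
  have hH0 : 0 < H := h0 _
  have hr0 : 0 < h z := h0 z
  have hHR : H ≤ R := hamax _ es_one_mem
  set D := DD p (wulff h) with hD
  have hD0 : 0 < D := DD_pos hq hc h0
  have hT : (MM q h).real univ = q * D := by
    rw [Measure.real, MM_univ' hq hc h0, ENNReal.toReal_ofReal (by positivity)]
  -- the chord
  set w := κ * R with hw
  have hw0 : 0 < w := by positivity
  have hchord : ∀ v ∈ Pc m, w * |(v : Eu (m + 2)) 0| ≤ h v := by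
    intro v hv
    have ha1 := norm_Pc ha
    have hv1 := norm_Pc hv
    have hvz := hzmin v hv
    have e1 : R * |(a : Eu (m + 2)) 1| ≤ H := by
      have := max_dir hc h0 he hs ha hamax es_one_mem
      rwa [inner_es] at this
    have hv0 : |(v : Eu (m + 2)) 0| ≤ 1 := by
      rw [← sq_le_one_iff_abs_le_one]
      nlinarith [sq_nonneg ((v : Eu (m + 2)) 1)]
    have hvv1 : |(v : Eu (m + 2)) 1| ≤ 1 := by
      rw [← sq_le_one_iff_abs_le_one]
      nlinarith [sq_nonneg ((v : Eu (m + 2)) 0)]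
    by_cases hcase : 1 / 2 ≤ |(a : Eu (m + 2)) 0|
    · have e2 : R * (|(a : Eu (m + 2)) 0| * |(v : Eu (m + 2)) 0|) ≤ (1 + M') * h v := by
        have e3 := max_dir hc h0 he hs ha hamax hv
        rw [inner_Pc _ hv] at e3
        have e4 : |(a : Eu (m + 2)) 0 * (v : Eu (m + 2)) 0| ≤
            |(a : Eu (m + 2)) 0 * (v : Eu (m + 2)) 0 + (a : Eu (m + 2)) 1 * (v : Eu (m + 2)) 1| +
            |(a : Eu (m + 2)) 1 * (v : Eu (m + 2)) 1| := by
          have := abs_sub ((a : Eu (m + 2)) 0 * (v : Eu (m + 2)) 0 +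
            (a : Eu (m + 2)) 1 * (v : Eu (m + 2)) 1) ((a : Eu (m + 2)) 1 * (v : Eu (m + 2)) 1)
          rwa [add_sub_cancel_right] at this
        rw [abs_mul, abs_mul ((a : Eu (m + 2)) 1)] at e4
        have e5 := mul_le_mul_of_nonneg_left e4 hR0.le
        have e6 : R * (|(a : Eu (m + 2)) 1| * |(v : Eu (m + 2)) 1|) ≤ H := by
          rw [← mul_assoc]
          calc R * |(a : Eu (m + 2)) 1| * |(v : Eu (m + 2)) 1| ≤ H * 1 :=
                mul_le_mul e1 hvv1 (abs_nonneg _) hH0.le
            _ = H := mul_one H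
        have e7 : H ≤ M' * h v := hth.trans (mul_le_mul_of_nonneg_left hvz hM'.le)
        linarith
      have e8 : w * |(v : Eu (m + 2)) 0| * (1 + M') ≤ h v * (1 + M') := by
        have e9 : w * (1 + M') = R / 2 := by
          rw [hw, hκ]; field_simp
        calc w * |(v : Eu (m + 2)) 0| * (1 + M') = w * (1 + M') * |(v : Eu (m + 2)) 0| := by ring
          _ = R * (1 / 2 * |(v : Eu (m + 2)) 0|) := by rw [e9]; ring
          _ ≤ R * (|(a : Eu (m + 2)) 0| * |(v : Eu (m + 2)) 0|) := by gcongr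
          _ ≤ (1 + M') * h v := e2
          _ = h v * (1 + M') := by ring
      exact le_of_mul_le_mul_right e8 (by positivity)
    · rw [not_le] at hcase
      have e2 : 1 / 2 ≤ |(a : Eu (m + 2)) 1| := by
        by_contra hcon
        rw [not_le] at hcon
        have e3 : (a : Eu (m + 2)) 0 ^ 2 < 1 / 4 := by
          rw [← sq_abs]
          nlinarith [abs_nonneg ((a : Eu (m + 2)) 0)]
        have e4 : (a : Eu (m + 2)) 1 ^ 2 < 1 / 4 := by
          rw [← sq_abs]
          nlinarith [abs_nonneg ((a : Eu (m + 2)) 1)]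
        linarith
      have e3 : R / 2 ≤ H := by
        refine le_trans ?_ e1
        nlinarith
      have e4 : w ≤ h z := by
        have e5 : w * (1 + M') = R / 2 := by
          rw [hw, hκ]; field_simp
        have e6 : w * (1 + M') ≤ h z * (1 + M') := by
          rw [e5]
          have : R / 2 ≤ M' * h z := e3.trans hth
          nlinarith
        exact le_of_mul_le_mul_right e6 (by positivity)
      calc w * |(v : Eu (m + 2)) 0| ≤ w * 1 := mul_le_mul_of_nonneg_left hv0 hw0.le
        _ = w := mul_one w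
        _ ≤ h v := e4.trans hvz
  -- the facet
  obtain ⟨c, l, hl0, hcl, hend1, hend2⟩ := exists_facet (m := m) hc h0 hs
  have hcons : ∀ b : ℝ, |b - c| ≤ l → b ^ 2 + H ^ 2 ≤ R ^ 2 := fun b hb' =>
    planar_bound hamax fun v hv => facet_constraint hend1 hend2 hb' hv
  set T := Real.sqrt (∑ i : Fin m, h (es i.succ.succ) ^ 2) with hTd
  have hsum0 : 0 ≤ ∑ i : Fin m, h (es i.succ.succ) ^ 2 := Finset.sum_nonneg fun i _ => sq_nonneg _
  have hT0 : 0 ≤ T := Real.sqrt_nonneg _
  have hT2 : T ^ 2 = ∑ i : Fin m, h (es i.succ.succ) ^ 2 := Real.sq_sqrt hsum0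
  -- T is small
  have hTs : T ≤ μ * R := by
    have e1 : T ^ 2 ≤ m * (16 * q * δ / p * (R ^ 2 + T ^ 2)) := by
      rw [hT2]
      calc ∑ i : Fin m, h (es i.succ.succ) ^ 2 ≤ ∑ _i : Fin m, (16 * q * δ / p *
            (R ^ 2 + ∑ j : Fin m, h (es j.succ.succ) ^ 2)) :=
            Finset.sum_le_sum fun i _ => axes_thin hq hc h0 he hae hR0 hamax i (hb i)
        _ = m * (16 * q * δ / p * (R ^ 2 + ∑ i : Fin m, h (es i.succ.succ) ^ 2)) := by
            rw [Finset.sum_const, Finset.card_univ, Fintype.card_fin, nsmul_eq_mul]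
    have e2 : (m : ℝ) * (16 * q * δ / p) ≤ μ ^ 2 / 2 := by
      have e3 : (m : ℝ) * (16 * q * δ / p) ≤ (m + 1) * (16 * q * (p * μ ^ 2 /
          (32 * q * (m + 1))) / p) := by
        have : (m : ℝ) ≤ m + 1 := by linarith
        gcongr
      refine e3.trans (le_of_eq ?_)
      field_simp
      ring
    have e4 : T ^ 2 ≤ μ ^ 2 / 2 * (R ^ 2 + T ^ 2) := by
      calc T ^ 2 ≤ m * (16 * q * δ / p * (R ^ 2 + T ^ 2)) := e1
        _ = m * (16 * q * δ / p) * (R ^ 2 + T ^ 2) := by ring
        _ ≤ μ ^ 2 / 2 * (R ^ 2 + T ^ 2) := mul_le_mul_of_nonneg_right e2 (by positivity)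
    have e5 : μ ^ 2 ≤ 1 := pow_le_one₀ hμ0.le hμ1
    have e6 : T ^ 2 ≤ (μ * R) ^ 2 := by
      rw [mul_pow]
      nlinarith [sq_nonneg T]
    exact (pow_le_pow_iff_left₀ hT0 (by positivity) two_ne_zero).1 e6
  have hTR : T ≤ R := hTs.trans (by nlinarith)
  have hTδ : T ≤ δ₁ * R := hTs.trans (mul_le_mul_of_nonneg_right (min_le_left _ _) hR0.le)
  set B := ∏ i : Fin m, (2 * h (es i.succ.succ)) with hB
  have hB0 : 0 < B := Finset.prod_pos fun i _ => mul_pos two_pos (h0 _)
  -- upper bound for the facet mass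
  have hGf0 : 0 ≤ Gf p c H l T := by
    unfold Gf
    refine mul_nonneg hl0 (intervalIntegral.integral_nonneg (by norm_num) fun s _ => ?_)
    positivity
  have hMe : (MM q h).real (Ax 1) ≤ 2 * H * B * Gf p c H l T := by
    have e1 := MM_facet_le hq hc h0 he hl0 hcl
    rw [← hB, ← hTd, ← hH, ← hp] at e1
    rw [Measure.real]
    exact ENNReal.toReal_le_of_le_ofReal (by positivity) e1
  rw [hT] at hce
  have hmain : ((p + 1) / q - δ) * (q * D) ≤ 2 * H * B * Gf p c H l T := hce.trans hMe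
  have hbox : B * H * ((w / 8) ^ p * (w / 2)) ≤ D :=
    chord_in hp0 hc h0 he hae hl0 hw0 hend1 hend2 hchord
  have hpara : B * H * Hf p c H l ≤ D := para_in hp0 hc h0 he hae hl0 hend1 hend2
  -- the facet is long
  have hlong : ε * R ≤ l := by
    have e1 : Gf p c H l T ≤ l * (2 * (2 * R ^ 2) ^ (p / 2)) := by
      unfold Gf
      refine mul_le_mul_of_nonneg_left ?_ hl0
      have e2 : ∫ t in (-1:ℝ)..1, ((c + l * t) ^ 2 + H ^ 2 + T ^ 2) ^ (p / 2) ≤
          ∫ _t in (-1:ℝ)..1, (2 * R ^ 2) ^ (p / 2) := by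
        refine intervalIntegral.integral_mono_on (by norm_num) ?_ ?_ fun t ht => ?_
        · refine Continuous.intervalIntegrable ?_ _ _
          refine Continuous.rpow_const (by fun_prop) fun _ => Or.inr (by positivity)
        · exact intervalIntegrable_const
        · refine Real.rpow_le_rpow (by positivity) ?_ (by positivity)
          have e3 := hcons (c + l * t) (by
            rw [add_sub_cancel_left, abs_mul, abs_of_nonneg hl0]
            have : |t| ≤ 1 := abs_le.2 ht
            nlinarith)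
          have e4 : T ^ 2 ≤ R ^ 2 := pow_le_pow_left₀ hT0 hTR 2
          linarith
      refine e2.trans (le_of_eq ?_)
      rw [intervalIntegral.integral_const, smul_eq_mul]
      ring
    have e2 : (p + 1) / 2 * D ≤ ((p + 1) / q - δ) * (q * D) := by
      have e3 : (p + 1) / (2 * q) ≤ (p + 1) / q - δ := by
        have : (p + 1) / q = (p + 1) / (2 * q) + (p + 1) / (2 * q) := by field_simp; ring
        linarith
      calc (p + 1) / 2 * D = (p + 1) / (2 * q) * (q * D) := by field_simp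
        _ ≤ _ := mul_le_mul_of_nonneg_right e3 (by positivity)
    have e3 : (p + 1) / 2 * (B * H * ((w / 8) ^ p * (w / 2))) ≤
        2 * H * B * (l * (2 * (2 * R ^ 2) ^ (p / 2))) := by
      calc (p + 1) / 2 * (B * H * ((w / 8) ^ p * (w / 2))) ≤ (p + 1) / 2 * D :=
            mul_le_mul_of_nonneg_left hbox (by positivity)
        _ ≤ _ := e2
        _ ≤ _ := hmain
        _ ≤ _ := mul_le_mul_of_nonneg_left e1 (by positivity)
    have e4 : (w / 8) ^ p = (κ / 8) ^ p * R ^ p := by
      rw [← Real.mul_rpow (by positivity) hR0.le, hw]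
      congr 1; ring
    have e5 : (2 * R ^ 2) ^ (p / 2) = 2 ^ (p / 2) * R ^ p := by
      rw [Real.mul_rpow (by norm_num) (by positivity)]
      congr 1
      rw [← Real.rpow_natCast R 2, ← Real.rpow_mul hR0.le]
      congr 1
      push_cast; ring
    have hRp : 0 < R ^ p := Real.rpow_pos_of_pos hR0 p
    have h2p : 0 < (2:ℝ) ^ (p / 2) := by positivity
    rw [e4, e5] at e3
    have e6 : ε * R * (4 * 2 ^ (p / 2) * R ^ p * (B * H)) ≤
        l * (4 * 2 ^ (p / 2) * R ^ p * (B * H)) := by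
      have e7 : ε * R * (4 * 2 ^ (p / 2) * R ^ p * (B * H)) =
          (p + 1) / 2 * (B * H * ((κ / 8) ^ p * R ^ p * (w / 2))) := by
        rw [hε, hw]
        field_simp
        ring
      rw [e7]
      refine e3.trans (le_of_eq ?_)
      ring
    exact le_of_mul_le_mul_right e6 (by positivity)
  -- conclusion
  have hc2 := hcons c (by rw [sub_self, abs_zero]; exact hl0)
  have hcR : |c| ≤ R := abs_le_of_sq_le_sq (by nlinarith [sq_nonneg H]) hR0.le
  have hlR : l ≤ R := by
    have e1 := hcons (c + l) (by rw [add_sub_cancel_left, abs_of_nonneg hl0])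
    have e2 := hcons (c - l) (by rw [sub_sub_cancel_left, abs_neg, abs_of_nonneg hl0])
    have e3 : |c + l| ≤ R := abs_le_of_sq_le_sq (by nlinarith [sq_nonneg H]) hR0.le
    have e4 : |c - l| ≤ R := abs_le_of_sq_le_sq (by nlinarith [sq_nonneg H]) hR0.le
    have := (abs_le.1 e3).2
    have := (abs_le.1 e4).1
    linarith
  have hg := hgap R c H l T hR0 hcR (by rw [abs_of_pos hH0]; exact hHR) hlong hlR hT0 hTδ
  have hf1 : ((p + 1) / q - δ) * (q * D) * (1 + δ₁) ≤ (p + 1) * D := by
    calc ((p + 1) / q - δ) * (q * D) * (1 + δ₁) ≤ 2 * H * B * Gf p c H l T * (1 + δ₁) :=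
          mul_le_mul_of_nonneg_right hmain (by positivity)
      _ = B * H * (2 * (1 + δ₁) * Gf p c H l T) := by ring
      _ ≤ B * H * ((p + 1) * Hf p c H l) := mul_le_mul_of_nonneg_left hg (by positivity)
      _ = (p + 1) * (B * H * Hf p c H l) := by ring
      _ ≤ (p + 1) * D := mul_le_mul_of_nonneg_left hpara (by positivity)
  have hf2 : ((p + 1) / q - δ) * (q * D) * (1 + δ₁) = ((p + 1) - q * δ) * (1 + δ₁) * D := by
    field_simp
  rw [hf2] at hf1
  have hf3 : ((p + 1) - q * δ) * (1 + δ₁) ≤ p + 1 := le_of_mul_le_mul_right hf1 hD0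
  have hf4 : q * δ * (1 + δ₁) ≤ (p + 1) * δ₁ / 2 := by
    have e1 := mul_le_mul_of_nonneg_left hδb (by positivity : 0 ≤ q * (1 + δ₁))
    calc q * δ * (1 + δ₁) = q * (1 + δ₁) * δ := by ring
      _ ≤ _ := e1
      _ = (p + 1) * δ₁ / 2 := by field_simp
  have hf5 : 0 < (p + 1) * δ₁ := by positivity
  nlinarith

end NonAtt

end Pool.Agent.Lib.MP_b0d2bf_gt
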