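import Mathlib
import Pool.Agent.Lib.MP_b0d2bf_gt.NonAtt
import Pool.Agent.Lib.MP_b0d2bf_gt.Conv

set_option autoImplicit false

/-!
The long thin bodies.
-/

namespace Pool.Agent.Lib.MP_b0d2bf_gt

open MeasureTheory Metric Set Filter Topology
open scoped Pointwise

section Body

variable {m : ℕ}

/-- long body -/
def K1 (m : ℕ) (N t : ℝ) : Set (Eu (m + 2)) :=
  {x | |x 1| ≤ N ∧ x 0 ^ 2 + x 1 ^ 2 / N ^ 4 ≤ 1 ∧ ∀ i : Fin m, |x i.succ.succ| ≤ t}

lemma K1_body {N t : ℝ} (hN : 1 ≤ N) (ht : 0 < t) : IsSymBody (K1 m N t) := by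
  have hN0 : 0 < N := by linarith
  constructor
  · have h1 : K1 m N t = {x | |x 1| ≤ N} ∩ ({x | x 0 ^ 2 + x 1 ^ 2 / N ^ 4 ≤ 1} ∩
        ⋂ i : Fin m, {x | |x i.succ.succ| ≤ t}) := by
      ext x; simp [K1]
    rw [h1]
    have habs : ∀ (j : Fin (m + 2)) (r : ℝ), Convex ℝ {x : Eu (m + 2) | |x j| ≤ r} := by
      intro j r x hx y hy a b ha hb hab
      have hx' : |x j| ≤ r := hx
      have hy' : |y j| ≤ r := hy
      show |a * x j + b * y j| ≤ r
      calc |a * x j + b * y j| ≤ |a * x j| + |b * y j| := abs_add_le _ _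
        _ = a * |x j| + b * |y j| := by rw [abs_mul, abs_mul, abs_of_nonneg ha, abs_of_nonneg hb]
        _ ≤ a * r + b * r := by gcongr
        _ = r := by rw [← add_mul, hab, one_mul]
    refine (habs 1 N).inter (Convex.inter ?_ (convex_iInter fun i => habs _ t))
    intro x hx y hy a b ha hb hab
    have hx' : x 0 ^ 2 + x 1 ^ 2 / N ^ 4 ≤ 1 := hx
    have hy' : y 0 ^ 2 + y 1 ^ 2 / N ^ 4 ≤ 1 := hy
    show (a * x 0 + b * y 0) ^ 2 + (a * x 1 + b * y 1) ^ 2 / N ^ 4 ≤ 1
    have key : ∀ r s : ℝ, (a * r + b * s) ^ 2 ≤ a * r ^ 2 + b * s ^ 2 := by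
      intro r s
      have hb' : b = 1 - a := by linarith
      have e1 : a * r ^ 2 + b * s ^ 2 - (a * r + b * s) ^ 2 = a * b * (r - s) ^ 2 := by
        rw [hb']; ring
      have : 0 ≤ a * b * (r - s) ^ 2 := by positivity
      linarith
    have e2 := key (x 0) (y 0)
    have e3 := div_le_div_of_nonneg_right (key (x 1) (y 1)) (by positivity : 0 ≤ N ^ 4)
    calc (a * x 0 + b * y 0) ^ 2 + (a * x 1 + b * y 1) ^ 2 / N ^ 4
        ≤ (a * x 0 ^ 2 + b * y 0 ^ 2) + (a * x 1 ^ 2 + b * y 1 ^ 2) / N ^ 4 := add_le_add e2 e3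
      _ = a * (x 0 ^ 2 + x 1 ^ 2 / N ^ 4) + b * (y 0 ^ 2 + y 1 ^ 2 / N ^ 4) := by ring
      _ ≤ a * 1 + b * 1 := by gcongr
      _ = 1 := by rw [mul_one, mul_one, hab]
  · have hcl : IsClosed (K1 m N t) := by
      have h1 : K1 m N t = {x | |x 1| ≤ N} ∩ ({x | x 0 ^ 2 + x 1 ^ 2 / N ^ 4 ≤ 1} ∩
          ⋂ i : Fin m, {x | |x i.succ.succ| ≤ t}) := by
        ext x; simp [K1]
      rw [h1]
      refine IsClosed.inter (isClosed_le (by fun_prop) continuous_const)
        (IsClosed.inter (isClosed_le (by fun_prop) continuous_const)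
          (isClosed_iInter fun i => isClosed_le (by fun_prop) continuous_const))
    refine (isCompact_closedBall (0 : Eu (m + 2)) (Real.sqrt (1 + N ^ 2 + m * t ^ 2))).of_isClosed_subset
      hcl fun x hx => ?_
    rw [mem_closedBall_zero_iff]
    refine Real.le_sqrt_of_sq_le ?_
    rw [norm_sq_coord]
    have h1 : x 0 ^ 2 ≤ 1 := by
      have := hx.2.1
      have h2 : 0 ≤ x 1 ^ 2 / N ^ 4 := by positivity
      linarith
    have h2 : x 1 ^ 2 ≤ N ^ 2 := by
      rw [← sq_abs]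
      exact pow_le_pow_left₀ (abs_nonneg _) hx.1 2
    have h3 : ∑ i : Fin m, x i.succ.succ ^ 2 ≤ m * t ^ 2 := by
      calc ∑ i : Fin m, x i.succ.succ ^ 2 ≤ ∑ _i : Fin m, t ^ 2 := by
            refine Finset.sum_le_sum fun i _ => ?_
            rw [← sq_abs]
            exact pow_le_pow_left₀ (abs_nonneg _) (hx.2.2 i) 2
        _ = m * t ^ 2 := by rw [Finset.sum_const, Finset.card_univ, Fintype.card_fin, nsmul_eq_mul]
    linarith
  · have hopen : IsOpen {x : Eu (m + 2) | |x 1| < N ∧ x 0 ^ 2 + x 1 ^ 2 / N ^ 4 < 1 ∧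
        ∀ i : Fin m, |x i.succ.succ| < t} := by
      have h1 : {x : Eu (m + 2) | |x 1| < N ∧ x 0 ^ 2 + x 1 ^ 2 / N ^ 4 < 1 ∧
          ∀ i : Fin m, |x i.succ.succ| < t} = {x | |x 1| < N} ∩
          ({x | x 0 ^ 2 + x 1 ^ 2 / N ^ 4 < 1} ∩ ⋂ i : Fin m, {x | |x i.succ.succ| < t}) := by
        ext x; simp
      rw [h1]
      refine IsOpen.inter (isOpen_lt (by fun_prop) continuous_const)
        (IsOpen.inter (isOpen_lt (by fun_prop) continuous_const)
          (isOpen_iInter_of_finite fun i => isOpen_lt (by fun_prop) continuous_const))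
    refine ⟨0, ?_⟩
    rw [mem_interior]
    refine ⟨_, ?_, hopen, ?_⟩
    · intro x hx
      exact ⟨hx.1.le, hx.2.1.le, fun i => (hx.2.2 i).le⟩
    · refine ⟨?_, ?_, fun i => ?_⟩
      · show |(0:ℝ)| < N
        rw [abs_zero]; exact hN0
      · show (0:ℝ) ^ 2 + (0:ℝ) ^ 2 / N ^ 4 < 1
        simp
      · show |(0:ℝ)| < t
        rw [abs_zero]; exact ht
  · intro x hx
    refine ⟨?_, ?_, fun i => ?_⟩
    · show |-(x 1)| ≤ N
      rw [abs_neg]; exact hx.1
    · show (-(x 0)) ^ 2 + (-(x 1)) ^ 2 / N ^ 4 ≤ 1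
      rw [neg_sq, neg_sq]; exact hx.2.1
    · show |-(x i.succ.succ)| ≤ t
      rw [abs_neg]; exact hx.2.2 i

/-- shifting one coordinate -/
lemma add_es_apply (x : Eu (m + 2)) (s : ℝ) (i j : Fin (m + 2)) :
    (x + s • (es i : Eu (m + 2))) j = x j + s * (if j = i then 1 else 0) := by
  show x j + s * (es i : Eu (m + 2)) j = _
  rw [es_apply]

lemma ss_ne_zero (i : Fin m) : (i.succ.succ : Fin (m + 2)) ≠ 0 := Fin.succ_ne_zero _

lemma ss_ne_one (i : Fin m) : (i.succ.succ : Fin (m + 2)) ≠ 1 := by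
  intro h
  have := congrArg Fin.val h
  simp at this

lemma ss_inj {i j : Fin m} (h : (i.succ.succ : Fin (m + 2)) = j.succ.succ) : i = j :=
  Fin.succ_injective _ (Fin.succ_injective _ h)

lemma zero_ne_one' : (0 : Fin (m + 2)) ≠ 1 := by
  intro h
  have := congrArg Fin.val h
  simp at this

section SupportOfK1

variable {N t : ℝ} {h : Sph (m + 2) → ℝ}

lemma K1_supp_ax (hN : 1 ≤ N) (ht : 0 < t) (hc : Continuous h) (h0 : ∀ v, 0 < h v)
    (hs : ∀ v, supp h v = h v) (hK : K1 m N t = wulff h) (i : Fin m) :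
    h (es i.succ.succ) = t := by
  apply le_antisymm
  · obtain ⟨x, hx, hx1, -⟩ := exists_supp hc h0 (es (m := m) i.succ.succ)
    rw [hs, inner_es] at hx1
    rw [hx1]
    rw [← hK] at hx
    exact (le_abs_self _).trans (hx.2.2 i)
  · have h1 : (0 : Eu (m + 2)) + t • (es i.succ.succ : Eu (m + 2)) ∈ wulff h := by
      rw [← hK]
      refine ⟨?_, ?_, fun j => ?_⟩
      · rw [add_es_apply, if_neg (ss_ne_one i).symm]
        show |(0:ℝ) + t * 0| ≤ N
        rw [mul_zero, add_zero, abs_zero]; linarith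
      · rw [add_es_apply, add_es_apply, if_neg (ss_ne_one i).symm, if_neg (ss_ne_zero i).symm]
        show ((0:ℝ) + t * 0) ^ 2 + ((0:ℝ) + t * 0) ^ 2 / N ^ 4 ≤ 1
        simp
      · rw [add_es_apply]
        show |(0:ℝ) + t * _| ≤ t
        split_ifs
        · rw [mul_one, zero_add, abs_of_pos ht]
        · rw [mul_zero, zero_add, abs_zero]; exact ht.le
    have h2 := h1 (es i.succ.succ)
    rw [inner_es, add_es_apply, if_pos rfl] at h2
    have h3 : (0:ℝ) + t * 1 ≤ h (es i.succ.succ) := h2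
    linarith

lemma K1_supp_one (hN : 1 ≤ N) (ht : 0 < t) (hc : Continuous h) (h0 : ∀ v, 0 < h v)
    (hs : ∀ v, supp h v = h v) (hK : K1 m N t = wulff h) :
    h (es 1) = N := by
  have hN0 : 0 < N := by linarith
  apply le_antisymm
  · obtain ⟨x, hx, hx1, -⟩ := exists_supp hc h0 (es (m := m) 1)
    rw [hs, inner_es] at hx1
    rw [hx1]
    rw [← hK] at hx
    exact (le_abs_self _).trans hx.1
  · have h1 : (0 : Eu (m + 2)) + N • (es (m := m) 1 : Eu (m + 2)) ∈ wulff h := by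
      rw [← hK]
      refine ⟨?_, ?_, fun j => ?_⟩
      · rw [add_es_apply, if_pos rfl]
        show |(0:ℝ) + N * 1| ≤ N
        rw [mul_one, zero_add, abs_of_pos hN0]
      · rw [add_es_apply, add_es_apply, if_pos rfl, if_neg zero_ne_one']
        show ((0:ℝ) + N * 0) ^ 2 + ((0:ℝ) + N * 1) ^ 2 / N ^ 4 ≤ 1
        rw [mul_zero, mul_one, zero_add, zero_add, zero_pow two_ne_zero, zero_add,
          div_le_one (by positivity)]
        exact pow_le_pow_right₀ hN (by norm_num)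
      · rw [add_es_apply, if_neg (ss_ne_one j)]
        show |(0:ℝ) + N * 0| ≤ t
        rw [mul_zero, zero_add, abs_zero]; exact ht.le
    have h2 := h1 (es 1)
    rw [inner_es, add_es_apply, if_pos rfl] at h2
    have h3 : (0:ℝ) + N * 1 ≤ h (es 1) := h2
    linarith

lemma K1_normals (hN : 1 ≤ N) (ht : 0 < t) (hc : Continuous h) (h0 : ∀ v, 0 < h v)
    (he : ∀ v, h (-v) = h v) (hs : ∀ v, supp h v = h v) (hK : K1 m N t = wulff h) :
    ∀ᵐ u ∂(sg (m + 2)), nu h u ∈ Om m := by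
  filter_upwards [ae_diff hc h0] with u hu
  have hNu := gN_pos hc h0 (sph_ne_zero u)
  have hmx : inner ℝ (u : Eu (m + 2)) (nu h u : Eu (m + 2)) / h (nu h u) = gN h u :=
    isMx_nu hc h0 hu
  set x : Eu (m + 2) := (gN h u)⁻¹ • (u : Eu (m + 2)) with hx
  have hxW : x ∈ wulff h := bd_mem_wulff hc h0 u
  have hxK : x ∈ K1 m N t := by rw [hK]; exact hxW
  have hux : (u : Eu (m + 2)) = gN h u • x := by
    rw [hx, smul_smul, mul_inv_cancel₀ hNu.ne', one_smul]
  by_cases hex : ∃ i : Fin m, |x i.succ.succ| = t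
  · obtain ⟨i, hi⟩ := hex
    right
    rw [mem_iUnion]
    refine ⟨i, ?_⟩
    have ht' := K1_supp_ax hN ht hc h0 hs hK i
    rcases abs_cases (x i.succ.succ) with ⟨h1, -⟩ | ⟨h1, -⟩
    · left
      refine nu_eq hc h0 hu ?_
      show inner ℝ (u : Eu (m + 2)) (es i.succ.succ : Eu (m + 2)) / h (es i.succ.succ) = gN h u
      rw [inner_es, ht', hux]
      show gN h u * x i.succ.succ / t = _
      rw [← h1, hi, ← hux]
      field_simp
    · right
      rw [mem_singleton_iff]
      refine nu_eq hc h0 hu ?_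
      show inner ℝ (u : Eu (m + 2)) ((-es i.succ.succ : Sph (m + 2)) : Eu (m + 2)) /
        h (-es i.succ.succ) = gN h u
      rw [coe_neg_sphere, inner_neg_right, he, inner_es, ht', hux]
      show -(gN h u * x i.succ.succ) / t = _
      rw [← mul_neg, ← h1, hi, ← hux]
      field_simp
  · push Not at hex
    left
    intro i
    have hlt : |x i.succ.succ| < t := lt_of_le_of_ne (hxK.2.2 i) (hex i)
    set ε := t - |x i.succ.succ| with hε
    have hε0 : 0 < ε := by linarith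
    have hmove : ∀ s : ℝ, |s| ≤ ε → x + s • (es i.succ.succ : Eu (m + 2)) ∈ wulff h := by
      intro s hs'
      rw [← hK]
      refine ⟨?_, ?_, fun j => ?_⟩
      · rw [add_es_apply, if_neg (ss_ne_one i).symm, mul_zero, add_zero]
        exact hxK.1
      · rw [add_es_apply, add_es_apply, if_neg (ss_ne_one i).symm, if_neg (ss_ne_zero i).symm,
          mul_zero, add_zero, add_zero]
        exact hxK.2.1
      · rw [add_es_apply]
        split_ifs with hji
        · rw [ss_inj hji, mul_one]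
          calc |x i.succ.succ + s| ≤ |x i.succ.succ| + |s| := abs_add_le _ _
            _ ≤ t := by linarith
        · rw [mul_zero, add_zero]
          exact hxK.2.2 j
    have hxν : inner ℝ x (nu h u : Eu (m + 2)) = h (nu h u) := by
      rw [hx, inner_smul_left]
      rw [div_eq_iff (h0 _).ne'] at hmx
      rw [hmx]
      simp only [conj_trivial]
      rw [inv_mul_cancel_left₀ hNu.ne']
    have h1 := hmove ε (by rw [abs_of_pos hε0]) (nu h u)
    have h2 := hmove (-ε) (by rw [abs_neg, abs_of_pos hε0]) (nu h u)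
    rw [inner_add_left, hxν, inner_smul_left, real_inner_comm, inner_es] at h1 h2
    simp only [conj_trivial] at h1 h2
    have h3 : ε * (nu h u : Eu (m + 2)) i.succ.succ ≤ 0 := by linarith
    have h4 : 0 ≤ ε * (nu h u : Eu (m + 2)) i.succ.succ := by linarith
    have h5 : ε * (nu h u : Eu (m + 2)) i.succ.succ = 0 := le_antisymm h3 h4
    exact (mul_eq_zero.1 h5).resolve_left hε0.ne'

/-- the mass of the pair `±e₁` -/
lemma K1_mass_lower {q : ℝ} (hq : ((m + 2 : ℕ) : ℝ) < q) (hN : 1 ≤ N) (ht : 0 < t)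
    (hc : Continuous h) (h0 : ∀ v, 0 < h v)
    (he : ∀ v, h (-v) = h v) (hs : ∀ v, supp h v = h v) (hK : K1 m N t = wulff h) :
    4 * Real.sqrt (1 - 1 / N ^ 2) * (2 * t) ^ m * (N * N ^ (q - (m + 2 : ℕ))) ≤
      (MM q h).real (Ax 1) := by
  have hN0 : 0 < N := by linarith
  have hn : (0:ℝ) < ((m + 2 : ℕ) : ℝ) := by positivity
  have hq0 : 0 < q := by linarith
  set p := q - (m + 2 : ℕ) with hp
  have hp0 : 0 < p := by linarith
  have hm0 : (0:ℝ) ≤ m := Nat.cast_nonneg m
  have hq' : q = p + m + 2 := by rw [hp]; push_cast; ring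
  set β := Real.sqrt (1 - 1 / N ^ 2) with hβ
  have hβ0 : 0 ≤ β := Real.sqrt_nonneg _
  have h1N : 0 ≤ 1 - 1 / N ^ 2 := by
    rw [sub_nonneg, div_le_one (by positivity)]
    exact one_le_pow₀ hN
  have hβ2 : β ^ 2 = 1 - 1 / N ^ 2 := Real.sq_sqrt h1N
  have hsupp1 := K1_supp_one hN ht hc h0 hs hK
  set C : Set (Eu (m + 2)) := sect (fun a b => (0 < b ∧ b ≤ N) ∧ |a - (b / N) * 0| ≤ (b / N) * β)
        (fun _ b => b / N) (fun _ : Fin m => t) with hC
  have hCm : MeasurableSet C := by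
    have hR : MeasurableSet {x : ℝ × ℝ | (0 < x.2 ∧ x.2 ≤ N) ∧
        |x.1 - (x.2 / N) * 0| ≤ (x.2 / N) * β} := by
      exact ((measurableSet_lt (measurable_const (a := (0:ℝ))) measurable_snd).inter
        (measurableSet_le measurable_snd measurable_const)).inter
        (measurableSet_le (by fun_prop : Measurable fun x : ℝ × ℝ => |x.1 - (x.2 / N) * 0|)
          (by fun_prop : Measurable fun x : ℝ × ℝ => (x.2 / N) * β))
    exact (lint_sect (R := fun a b => (0 < b ∧ b ≤ N) ∧ |a - (b / N) * 0| ≤ (b / N) * β) hR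
      (lam := fun _ b => b / N) (by fun_prop) (fun _ : Fin m => t) (f := fun _ _ => 0)
      measurable_const).1
  -- points of `C` lie in the cone
  have hCsub : ∀ x ∈ C, x ≠ 0 ∧ gN h x ≤ 1 ∧ IsMx h (dirT x : Eu (m + 2)) (es 1) := by
    intro x hx
    obtain ⟨⟨⟨hx1, hx1N⟩, hx0⟩, hxi⟩ := hx
    have hxne : x ≠ 0 := by
      rintro rfl
      exact lt_irrefl _ hx1
    set r := N / x 1 with hr
    have hr0 : 0 < r := div_pos hN0 hx1
    have hr1 : 1 ≤ r := by rw [hr, le_div_iff₀ hx1, one_mul]; exact hx1N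
    have hyK : r • x ∈ wulff h := by
      rw [← hK]
      refine ⟨?_, ?_, fun i => ?_⟩
      · show |r * x 1| ≤ N
        rw [hr, div_mul_cancel₀ _ hx1.ne', abs_of_pos hN0]
      · show (r * x 0) ^ 2 + (r * x 1) ^ 2 / N ^ 4 ≤ 1
        have e1 : r * x 1 = N := by rw [hr, div_mul_cancel₀ _ hx1.ne']
        have e2 : |r * x 0| ≤ β := by
          rw [abs_mul, abs_of_pos hr0]
          have e3 : |x 0| ≤ x 1 / N * β := by
            have := hx0
            rwa [mul_zero, sub_zero] at this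
          calc r * |x 0| ≤ r * (x 1 / N * β) := mul_le_mul_of_nonneg_left e3 hr0.le
            _ = β := by rw [hr]; field_simp
        have e4 : (r * x 0) ^ 2 ≤ 1 - 1 / N ^ 2 := by
          rw [← hβ2, ← sq_abs]
          exact pow_le_pow_left₀ (abs_nonneg _) e2 2
        rw [e1]
        have e5 : N ^ 2 / N ^ 4 = 1 / N ^ 2 := by field_simp
        rw [e5]
        linarith
      · show |r * x i.succ.succ| ≤ t
        have e3 : |x i.succ.succ| ≤ x 1 / N * t := hxi i
        rw [abs_mul, abs_of_pos hr0]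
        calc r * |x i.succ.succ| ≤ r * (x 1 / N * t) := mul_le_mul_of_nonneg_left e3 hr0.le
          _ = t := by rw [hr]; field_simp
    have hy1 := (mem_wulff_iff hc h0).1 hyK
    have e1 := le_gN hc h0 (r • x) (es 1)
    rw [inner_es, hsupp1] at e1
    have e2 : (r • x) 1 / N = 1 := by
      show r * x 1 / N = 1
      rw [hr]; field_simp
    rw [e2] at e1
    have e3 : gN h (r • x) = 1 := le_antisymm hy1 e1
    have e4 : gN h x = x 1 / N := by
      rw [gN_smul hc h0 hr0.le] at e3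
      rw [eq_div_iff hN0.ne']
      rw [hr] at e3
      field_simp at e3
      linarith
    refine ⟨hxne, ?_, ?_⟩
    · rw [e4, div_le_one hN0]; exact hx1N
    · have hxn : 0 < ‖x‖ := norm_pos_iff.2 hxne
      have hxd : x = ‖x‖ • (dirT x : Eu (m + 2)) := by
        unfold dirT
        rw [dif_neg hxne]
        exact (norm_smul_dirS _ hxne).symm
      show inner ℝ (dirT x : Eu (m + 2)) (es (m := m) 1 : Eu (m + 2)) / h (es 1) =
        gN h (dirT x : Eu (m + 2))
      have e5 : gN h x = ‖x‖ * gN h (dirT x : Eu (m + 2)) := by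
        conv_lhs => rw [hxd]
        rw [gN_smul hc h0 (norm_nonneg _)]
      have e6 : x 1 = ‖x‖ * (dirT x : Eu (m + 2)) 1 := by
        conv_lhs => rw [hxd]
        rfl
      rw [inner_es, hsupp1]
      rw [e5, e6, mul_div_assoc] at e4
      exact (mul_left_cancel₀ hxn.ne' e4).symm
  have hsub : C ∪ (fun x => -x) ⁻¹' C ⊆ coneOf (gN h) (dirs h (es 1)) := by
    rintro x (hx | hx)
    · obtain ⟨h1, h2, h3⟩ := hCsub x hx
      exact ⟨h1, Or.inl h3, h2⟩
    · obtain ⟨h1, h2, h3⟩ := hCsub (-x) hx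
      have hx0 : x ≠ 0 := neg_ne_zero.1 h1
      refine ⟨hx0, Or.inr ?_, by rwa [gN_neg hc h0 he] at h2⟩
      have e1 : (dirT (-x) : Sph (m + 2)) = - dirT x := by
        apply Subtype.ext
        unfold dirT
        rw [dif_neg h1, dif_neg hx0, coe_neg_sphere]
        unfold dirS
        simp [norm_neg]
      have e2 : inner ℝ ((dirT (-x) : Sph (m + 2)) : Eu (m + 2)) (es (m := m) 1 : Eu (m + 2)) /
        h (es 1) = gN h ((dirT (-x) : Sph (m + 2)) : Eu (m + 2)) := h3
      rw [e1, coe_neg_sphere, gN_neg hc h0 he, inner_neg_left] at e2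
      show inner ℝ (dirT x : Eu (m + 2)) ((-es 1 : Sph (m + 2)) : Eu (m + 2)) / h (-es 1) =
        gN h (dirT x : Eu (m + 2))
      rw [← e2, coe_neg_sphere, inner_neg_right, he]
  have hfm : Measurable (fun x : Eu (m + 2) => ENNReal.ofReal (‖x‖ ^ p)) :=
    (continuous_norm_rpow hp0.le).measurable.ennreal_ofReal
  have hneg : ∫⁻ x in (fun x => -x) ⁻¹' C, ENNReal.ofReal (‖x‖ ^ p) =
      ∫⁻ x in C, ENNReal.ofReal (‖x‖ ^ p) := by
    have h1 := (Measure.measurePreserving_neg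
      (volume : Measure (Eu (m + 2)))).setLIntegral_comp_preimage hCm hfm
    rw [← h1]
    refine lintegral_congr fun x => ?_
    rw [norm_neg]
  have hdisj : Disjoint C ((fun x => -x) ⁻¹' C) := by
    rw [Set.disjoint_left]
    intro x hx hx2
    have e1 : 0 < x 1 := hx.1.1.1
    have e2 : 0 < (-x) 1 := hx2.1.1.1
    have e3 : (-x) 1 = -(x 1) := rfl
    rw [e3] at e2
    linarith
  have hCint : ENNReal.ofReal (N / q * (2 * t) ^ m * (2 * β * N ^ p)) ≤
      ∫⁻ x in C, ENNReal.ofReal (‖x‖ ^ p) := by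
    have h1 : ∫⁻ x in C, ENNReal.ofReal ((fun _ b : ℝ => |b| ^ p) (x 0) (x 1)) ≤
        ∫⁻ x in C, ENNReal.ofReal (‖x‖ ^ p) := by
      refine lintegral_mono fun x => ENNReal.ofReal_le_ofReal ?_
      show |x 1| ^ p ≤ ‖x‖ ^ p
      refine Real.rpow_le_rpow (abs_nonneg _) ?_ hp0.le
      have h1 : (|x 1|) ^ 2 ≤ ‖x‖ ^ 2 := by
        rw [norm_sq_coord, sq_abs]
        have : 0 ≤ ∑ i : Fin m, x i.succ.succ ^ 2 := Finset.sum_nonneg fun i _ => sq_nonneg _
        nlinarith [sq_nonneg (x 0)]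
      exact (pow_le_pow_iff_left₀ (abs_nonneg _) (norm_nonneg _) two_ne_zero).1 h1
    refine le_trans (le_of_eq ?_) h1
    rw [hC, cone_integral hp0 0 hN0 hβ0 (fun _ => ht.le) (f := fun _ b : ℝ => |b| ^ p)
      ((continuous_snd.abs).rpow_const fun _ => Or.inr hp0.le)
      (fun _ b => by positivity) (by
        intro r a b hr
        show |r * b| ^ p = r ^ p * |b| ^ p
        rw [abs_mul, abs_of_pos hr, Real.mul_rpow hr.le (abs_nonneg _)])]
    congr 1
    rw [Finset.prod_const, Finset.card_univ, Fintype.card_fin, ← hq',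
      intervalIntegral.integral_const, smul_eq_mul, abs_of_pos hN0]
    ring
  have hcone : ENNReal.ofReal (N / q * (2 * t) ^ m * (2 * β * N ^ p)) +
      ENNReal.ofReal (N / q * (2 * t) ^ m * (2 * β * N ^ p)) ≤
      ∫⁻ x in coneOf (gN h) (dirs h (es 1)), ENNReal.ofReal (‖x‖ ^ p) := by
    refine le_trans ?_ (lintegral_mono_set hsub)
    rw [lintegral_union (measurable_neg hCm) hdisj, hneg]
    exact add_le_add hCint hCint
  have hMM : ENNReal.ofReal (4 * β * (2 * t) ^ m * (N * N ^ p)) ≤ MM q h (Ax 1) := by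
    rw [MM_cone' hq0 hc h0 (measurable_Ax 1) (measurable_dirs hc h0 (es 1)) (dirs_ae hc h0 (es 1))]
    refine le_trans (le_of_eq ?_) (mul_le_mul_right hcone _)
    rw [← ENNReal.ofReal_add (by positivity) (by positivity), ← ENNReal.ofReal_mul hq0.le]
    congr 1
    field_simp
    ring
  have hfin := isFinite_MM hc h0 q
  rw [Measure.real]
  exact (ENNReal.ofReal_le_iff_le_toReal (measure_ne_top _ _)).1 hMM

/-- total mass -/
lemma K1_total {p : ℝ} (hp0 : 0 < p) (hN : 1 ≤ N) (ht : 0 < t) (ht1 : m * t ^ 2 ≤ 1)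
    (hc : Continuous h) (h0 : ∀ v, 0 < h v) (hK : K1 m N t = wulff h) :
    DD p (wulff h) ≤ (2 * t) ^ m * (4 * (N + 2) ^ (p + 1) / (p + 1)) := by
  have hN0 : 0 < N := by linarith
  have h1 := box_upper (m := m) hp0 hN0 (t := fun _ => t) (fun _ => ht.le) (by
    rw [Finset.sum_const, Finset.card_univ, Fintype.card_fin, nsmul_eq_mul]; exact ht1)
  have h2 : wulff h ⊆ sect (fun a b => |a| ≤ 1 ∧ |b| ≤ N) (fun _ _ => 1) (fun _ : Fin m => t) := by
    rw [← hK]
    intro x hx
    refine ⟨⟨?_, hx.1⟩, fun i => ?_⟩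
    · rw [← sq_le_one_iff_abs_le_one]
      have := hx.2.1
      have h2 : 0 ≤ x 1 ^ 2 / N ^ 4 := by positivity
      linarith
    · show |x i.succ.succ| ≤ 1 * t
      rw [one_mul]; exact hx.2.2 i
  have h3 := (lintegral_mono_set h2).trans h1
  rw [DD_eq hp0.le (isCompact_wulff hc h0), Finset.prod_const, Finset.card_univ,
    Fintype.card_fin] at h3
  exact (ENNReal.ofReal_le_ofReal_iff (by positivity)).1 h3

end SupportOfK1

end Body

end Pool.Agent.Lib.MP_b0d2bf_gt
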