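import Mathlib
import Pool.Agent.Lib.MP_b0d2bf_gt.Body

set_option autoImplicit false

/-!
The long thin bodies, continued: no further atoms on the circle, and strict lower bounds.
-/

namespace Pool.Agent.Lib.MP_b0d2bf_gt

open MeasureTheory Metric Set Filter Topology
open scoped Pointwise

section Body2

lemma moment_pos {n : ℕ} [NeZero n] {p : ℝ} (hp : 0 < p) {h : Sph n → ℝ} (hc : Continuous h)
    (h0 : ∀ v, 0 < h v) (z : Sph n) :
    0 < ∫ x in wulff h, ‖x‖ ^ p * inner ℝ x (z : Eu n) ^ 2 := by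
  have hKc := isCompact_wulff hc h0
  set f : Eu n → ℝ := fun x => ‖x‖ ^ p * inner ℝ x (z : Eu n) ^ 2 with hf
  have hfc : Continuous f :=
    (continuous_norm_rpow hp.le).mul ((continuous_id.inner continuous_const).pow 2)
  have hf0 : ∀ x, 0 ≤ f x := fun x => mul_nonneg (Real.rpow_nonneg (norm_nonneg _) _) (sq_nonneg _)
  rw [setIntegral_pos_iff_support_of_nonneg_ae (Eventually.of_forall hf0)
    (hfc.continuousOn.integrableOn_compact hKc)]
  obtain ⟨c, hc0, hcl⟩ := exists_low hc h0
  have hopen : IsOpen (Function.support f ∩ ball (0 : Eu n) c) :=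
    (isOpen_ne_fun hfc continuous_const).inter isOpen_ball
  have hne : (Function.support f ∩ ball (0 : Eu n) c).Nonempty := by
    refine ⟨(c / 2) • (z : Eu n), ?_, ?_⟩
    · show f ((c / 2) • (z : Eu n)) ≠ 0
      rw [hf]
      simp only
      rw [inner_smul_left, real_inner_self_eq_norm_sq, norm_smul, norm_sph]
      simp only [conj_trivial, one_pow, mul_one, Real.norm_eq_abs]
      have : 0 < |c / 2| := abs_pos.2 (by positivity)
      have h2 : 0 < (c / 2) ^ 2 := by positivity
      exact (mul_pos (Real.rpow_pos_of_pos this _) h2).ne'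
    · rw [mem_ball_zero_iff, norm_smul, norm_sph, mul_one, Real.norm_eq_abs,
        abs_of_pos (by positivity)]
      linarith
  refine lt_of_lt_of_le (hopen.measure_pos volume hne) (measure_mono ?_)
  exact inter_subset_inter_right _ (ball_subset_closedBall.trans (ball_subset_wulff hcl))

variable {m : ℕ} {N t : ℝ} {h : Sph (m + 2) → ℝ}

/-- uniqueness of the boundary point -/
lemma K1_unique (hN : 1 ≤ N) (hK : K1 m N t = wulff h)
    {v : Sph (m + 2)} (hv : v ∈ Pc m) (hv0 : (v : Eu (m + 2)) 0 ≠ 0) {x y : Eu (m + 2)}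
    (hx : x ∈ wulff h) (hy : y ∈ wulff h) (hxv : inner ℝ x (v : Eu (m + 2)) = h v)
    (hyv : inner ℝ y (v : Eu (m + 2)) = h v) : x 0 = y 0 ∧ x 1 = y 1 := by
  have hN0 : 0 < N := by linarith
  by_contra hcon
  set Q := (x 0 - y 0) ^ 2 + (x 1 - y 1) ^ 2 / N ^ 4 with hQ
  have hQ0 : 0 < Q := by
    by_contra hQn
    rw [not_lt] at hQn
    have e1 : 0 ≤ (x 1 - y 1) ^ 2 / N ^ 4 := by positivity
    have e2 : (x 0 - y 0) ^ 2 = 0 := by nlinarith [sq_nonneg (x 0 - y 0)]
    have e3 : (x 1 - y 1) ^ 2 / N ^ 4 = 0 := by nlinarith [sq_nonneg (x 0 - y 0)]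
    have e4 : (x 1 - y 1) ^ 2 = 0 := by
      rw [div_eq_zero_iff] at e3
      exact e3.resolve_right (by positivity)
    apply hcon
    constructor
    · have := pow_eq_zero_iff (two_ne_zero) |>.1 e2
      linarith
    · have := pow_eq_zero_iff (two_ne_zero) |>.1 e4
      linarith
  set ε := min 1 (Q / 12) with hε
  have hε0 : 0 < ε := by positivity
  have hε1 : ε ≤ 1 := min_le_left _ _
  have hε2 : ε ≤ Q / 12 := min_le_right _ _
  set v0 := (v : Eu (m + 2)) 0 with hv0'
  have hv01 : |v0| ≤ 1 := by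
    rw [← sq_le_one_iff_abs_le_one]
    have := norm_Pc hv
    nlinarith [sq_nonneg ((v : Eu (m + 2)) 1)]
  rw [← hK] at hx hy
  set w : Eu (m + 2) := (1 / 2 : ℝ) • (x + y) + (ε * v0) • (es (m := m) 0 : Eu (m + 2)) with hw
  have hwK : w ∈ wulff h := by
    rw [← hK]
    have hco : ∀ j, ((1 / 2 : ℝ) • (x + y)) j = (x j + y j) / 2 := by
      intro j
      show (1 / 2 : ℝ) * (x j + y j) = _
      ring
    refine ⟨?_, ?_, fun i => ?_⟩
    · rw [hw, add_es_apply, if_neg zero_ne_one'.symm, hco, mul_zero, add_zero]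
      rw [abs_div, abs_two]
      have := abs_add_le (x 1) (y 1)
      have := hx.1
      have := hy.1
      linarith
    · rw [hw, add_es_apply, add_es_apply, if_neg zero_ne_one'.symm, if_pos rfl, hco, hco, mul_zero,
        add_zero, mul_one]
      have e1 := hx.2.1
      have e2 := hy.2.1
      have e3 : ((x 0 + y 0) / 2) ^ 2 + ((x 1 + y 1) / 2) ^ 2 / N ^ 4 ≤ 1 - Q / 4 := by
        have : ((x 0 + y 0) / 2) ^ 2 + ((x 1 + y 1) / 2) ^ 2 / N ^ 4 =
            1 / 2 * (x 0 ^ 2 + x 1 ^ 2 / N ^ 4) + 1 / 2 * (y 0 ^ 2 + y 1 ^ 2 / N ^ 4) - Q / 4 := by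
          rw [hQ]; field_simp; ring
        rw [this]
        linarith
      have e4 : |(x 0 + y 0) / 2| ≤ 1 := by
        have e5 : |x 0| ≤ 1 := by
          rw [← sq_le_one_iff_abs_le_one]
          have : 0 ≤ x 1 ^ 2 / N ^ 4 := by positivity
          linarith
        have e6 : |y 0| ≤ 1 := by
          rw [← sq_le_one_iff_abs_le_one]
          have : 0 ≤ y 1 ^ 2 / N ^ 4 := by positivity
          linarith
        rw [abs_div, abs_two]
        have := abs_add_le (x 0) (y 0)
        linarith
      have e7 : (x 0 + y 0) / 2 * v0 ≤ 1 := by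
        refine (le_abs_self _).trans ?_
        rw [abs_mul]
        exact mul_le_one₀ e4 (abs_nonneg _) hv01
      have e8 : v0 ^ 2 ≤ 1 := by
        rw [← sq_abs]
        exact pow_le_one₀ (abs_nonneg _) hv01
      have e9 : ((x 0 + y 0) / 2 + ε * v0) ^ 2 ≤ ((x 0 + y 0) / 2) ^ 2 + 3 * ε := by
        have e10 : ε * ((x 0 + y 0) / 2 * v0) ≤ ε * 1 := mul_le_mul_of_nonneg_left e7 hε0.le
        have e11 : ε ^ 2 * v0 ^ 2 ≤ ε := by
          have : ε ^ 2 ≤ ε := by nlinarith
          nlinarith [sq_nonneg ε]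
        nlinarith
      linarith
    · rw [hw, add_es_apply, if_neg (ss_ne_zero i), hco, mul_zero, add_zero, abs_div, abs_two]
      have := abs_add_le (x i.succ.succ) (y i.succ.succ)
      have := hx.2.2 i
      have := hy.2.2 i
      linarith
  have h1 := hwK v
  have h2 : inner ℝ w (v : Eu (m + 2)) = h v + ε * v0 ^ 2 := by
    rw [hw, inner_add_left, inner_smul_left, inner_add_left, hxv, hyv, inner_smul_left,
      real_inner_comm, inner_es]
    simp only [conj_trivial]
    ring
  rw [h2] at h1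
  have h3 : 0 < ε * v0 ^ 2 := by positivity
  linarith

lemma Pc_zero {v : Sph (m + 2)} (hv : v ∈ Pc m) (hv1 : v ∉ Ax 1) : (v : Eu (m + 2)) 0 ≠ 0 := by
  intro hv0
  have h1 := norm_Pc hv
  rw [hv0] at h1
  have h2 : (v : Eu (m + 2)) 1 = 1 ∨ (v : Eu (m + 2)) 1 = -1 := by
    have : ((v : Eu (m + 2)) 1 - 1) * ((v : Eu (m + 2)) 1 + 1) = 0 := by nlinarith
    rcases mul_eq_zero.1 this with h9 | h9
    · left; linarith
    · right; linarith
  apply hv1
  rcases h2 with h2 | h2
  · left
    apply Subtype.ext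
    rw [mem_Pc_iff.1 hv, hv0, h2]
    unfold pv
    rw [zero_smul, zero_add, one_smul]
  · right
    rw [mem_singleton_iff]
    apply Subtype.ext
    rw [mem_Pc_iff.1 hv, hv0, h2, coe_neg_sphere]
    unfold pv
    rw [zero_smul, zero_add, neg_smul, one_smul]

/-- no further atoms -/
lemma K1_line {q : ℝ} (hN : 1 ≤ N) (hc : Continuous h) (h0 : ∀ v, 0 < h v)
    (he : ∀ v, h (-v) = h v) (hs : ∀ v, supp h v = h v) (hK : K1 m N t = wulff h)
    {v : Sph (m + 2)} (hv : v ∈ Pc m) (hv1 : v ∉ Ax 1) : MM q h {v, -v} = 0 := by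
  have hv0 := Pc_zero hv hv1
  obtain ⟨x, hx, hxv, -⟩ := exists_supp hc h0 v
  rw [hs] at hxv
  -- the hyperplane
  set φ : Eu (m + 2) →ₗ[ℝ] ℝ := x 1 • (EuclideanSpace.proj (𝕜 := ℝ) (0 : Fin (m + 2))).toLinearMap -
    x 0 • (EuclideanSpace.proj (𝕜 := ℝ) (1 : Fin (m + 2))).toLinearMap with hφ
  have hφv : ∀ y : Eu (m + 2), φ y = x 1 * y 0 - x 0 * y 1 := by
    intro y
    rw [hφ]
    rfl
  have hW : LinearMap.ker φ ≠ ⊤ := by
    intro hcon
    rw [LinearMap.ker_eq_top] at hcon
    have e1 : φ (es (m := m) 0 : Eu (m + 2)) = 0 := by rw [hcon]; rfl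
    have e2 : φ (es (m := m) 1 : Eu (m + 2)) = 0 := by rw [hcon]; rfl
    rw [hφv, es_apply, es_apply, if_pos rfl, if_neg zero_ne_one'.symm] at e1
    rw [hφv, es_apply, es_apply, if_pos rfl, if_neg zero_ne_one'] at e2
    have e3 : x 1 = 0 := by linarith
    have e4 : x 0 = 0 := by linarith
    rw [inner_Pc _ hv, e3, e4] at hxv
    have := h0 v
    linarith
  have hnull := sg_subspace hW
  have hsub : dirs h v ⊆ {u : Sph (m + 2) | (u : Eu (m + 2)) ∈ LinearMap.ker φ} := by
    intro u hu
    have hNu := gN_pos hc h0 (sph_ne_zero u)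
    set y : Eu (m + 2) := (gN h u)⁻¹ • (u : Eu (m + 2)) with hy
    have hyW : y ∈ wulff h := bd_mem_wulff hc h0 u
    have hyn : -y ∈ wulff h := neg_mem_wulff he hyW
    have hyi : ∀ i, y i = (gN h u)⁻¹ * (u : Eu (m + 2)) i := fun i => rfl
    have hui : ∀ i, (u : Eu (m + 2)) i = gN h u * y i := by
      intro i
      rw [hyi, mul_inv_cancel_left₀ hNu.ne']
    have key : x 1 * y 0 - x 0 * y 1 = 0 := by
      rcases hu with hu | hu
      · have e1 : inner ℝ (u : Eu (m + 2)) (v : Eu (m + 2)) / h v = gN h u := hu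
        have e2 : inner ℝ y (v : Eu (m + 2)) = h v := by
          rw [hy, inner_smul_left]
          rw [div_eq_iff (h0 _).ne'] at e1
          rw [e1]
          simp only [conj_trivial]
          rw [inv_mul_cancel_left₀ hNu.ne']
        obtain ⟨e3, e4⟩ := K1_unique hN hK hv hv0 hx hyW hxv.symm e2
        rw [e3, e4]; ring
      · have e1 : inner ℝ (u : Eu (m + 2)) ((-v : Sph (m + 2)) : Eu (m + 2)) / h (-v) = gN h u := hu
        have e2 : inner ℝ (-y) (v : Eu (m + 2)) = h v := by
          rw [hy, inner_neg_left, inner_smul_left]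
          rw [div_eq_iff (h0 _).ne', coe_neg_sphere, inner_neg_right, he] at e1
          simp only [conj_trivial]
          rw [← mul_neg, e1, inv_mul_cancel_left₀ hNu.ne']
        obtain ⟨e3, e4⟩ := K1_unique hN hK hv hv0 hx hyn hxv.symm e2
        have e5 : (-y) 0 = -(y 0) := rfl
        have e6 : (-y) 1 = -(y 1) := rfl
        rw [e3, e4, e5, e6]; ring
    show φ (u : Eu (m + 2)) = 0
    rw [hφv, hui 0, hui 1]
    linear_combination (gN h (u : Eu (m + 2))) * key
  have hd0 : sg (m + 2) (dirs h v) = 0 := measure_mono_null hsub hnull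
  refine MM_compl_eq_zero ((measurableSet_singleton _).insert _) ?_
  have h1 : ∀ᵐ u ∂(sg (m + 2)), u ∉ dirs h v := by
    rw [ae_iff]
    simpa using hd0
  filter_upwards [h1, dirs_ae hc h0 v] with u hu hu2 hcon
  apply hu
  have e1 : (u ∈ dirs h v) = (u ∈ nu h ⁻¹' {v, -v}) := hu2
  show u ∈ dirs h v
  rw [e1]
  exact hcon

/-- the masses of the axes are larger than `1 / q` -/
lemma ax_strict {q : ℝ} (hq : ((m + 2 : ℕ) : ℝ) < q) (hc : Continuous h)
    (h0 : ∀ v, 0 < h v) (he : ∀ v, h (-v) = h v) (hae : ∀ᵐ u ∂(sg (m + 2)), nu h u ∈ Om m)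
    (i : Fin m) : DD (q - (m + 2 : ℕ)) (wulff h) < (MM q h).real (Ax i.succ.succ) := by
  set p := q - (m + 2 : ℕ) with hp
  have hp0 : 0 < p := by linarith
  obtain ⟨S, hS0, hSu⟩ := exists_upp hc h0
  have hSK := wulff_subset hc h0 hS0 hSu
  set e := es (m := m) i.succ.succ with hedef
  have h1 := conc_mass hq hc h0 e hS0 hSK (measurable_Ax i.succ.succ) (κ := 0) (by
    filter_upwards [hae, ae_diff hc h0] with u hu hud
    have hx := bd_mem_wulff hc h0 u
    rw [add_zero]
    by_cases hu2 : nu h u ∈ Ax i.succ.succ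
    · rw [indicator_of_mem hu2]
      have e1 : |(gN h (u : Eu (m + 2)))⁻¹ * inner ℝ (u : Eu (m + 2)) (e : Eu (m + 2))| ≤ h e := by
        have := abs_inner_le_supp he hx e
        rwa [inner_smul_left] at this
      have e2 : h (nu h u) = h e := by
        rcases hu2 with hu2 | hu2
        · rw [hu2]
        · rw [mem_singleton_iff] at hu2
          rw [hu2, he]
      have e3 : |gg h e u| ≤ 1 := by
        unfold gg
        rw [abs_mul, abs_div, abs_of_pos (h0 _), e2]
        have e4 := abs_inner_sph e (nu h u)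
        have he0 := h0 e
        calc _ ≤ h e * (1 / h e) := by
              refine mul_le_mul e1 ?_ (by positivity) he0.le
              exact div_le_div_of_nonneg_right e4 he0.le
          _ = 1 := by field_simp
      exact (le_abs_self _).trans e3
    · rw [indicator_of_notMem hu2]
      have e3 : inner ℝ (e : Eu (m + 2)) (nu h u : Eu (m + 2)) = 0 := by
        rw [real_inner_comm, hedef, inner_es]
        rcases hu with hu | hu
        · exact hu i
        · rw [mem_iUnion] at hu
          obtain ⟨j, hj⟩ := hu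
          have hij : i ≠ j := by
            rintro rfl
            exact hu2 hj
          rcases hj with hj | hj
          · rw [hj, es_apply, if_neg]
            intro hcon
            exact hij (ss_inj hcon)
          · rw [mem_singleton_iff] at hj
            rw [hj, coe_neg_sphere]
            show -((es j.succ.succ : Sph (m + 2)) : Eu (m + 2)) i.succ.succ = 0
            rw [es_apply, if_neg, neg_zero]
            intro hcon
            exact hij (ss_inj hcon)
      have e4 : gg h e u = 0 := by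
        unfold gg
        rw [e3, zero_div, mul_zero]
      exact le_of_eq e4)
  rw [zero_mul, add_zero] at h1
  have h2 := moment_pos hp0 hc h0 e
  have h3 : 0 < p / (2 * S ^ 2) * ∫ x in wulff h, ‖x‖ ^ p * inner ℝ x (e : Eu (m + 2)) ^ 2 := by
    positivity
  linarith

/-- the rest of the circle has more than `1 / q` of the mass -/
lemma K1_rest_strict {q : ℝ} (hq : ((m + 2 : ℕ) : ℝ) < q) (hc : Continuous h)
    (h0 : ∀ v, 0 < h v) (hae : ∀ᵐ u ∂(sg (m + 2)), nu h u ∈ Om m)
    (hN : 1 ≤ N) (ht : 0 < t) (hK : K1 m N t = wulff h) :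
    DD (q - (m + 2 : ℕ)) (wulff h) < (MM q h).real (Pc m \ Ax 1) := by
  set p := q - (m + 2 : ℕ) with hp
  have hp0 : 0 < p := by linarith
  have hN0 : 0 < N := by linarith
  obtain ⟨S, hS0, hSu⟩ := exists_upp hc h0
  have hSK := wulff_subset hc h0 hS0 hSu
  set e := es (m := m) 0 with hedef
  have h1 := conc_mass hq hc h0 e hS0 hSK (measurable_Pc.diff (measurable_Ax 1)) (κ := 0) (by
    filter_upwards [hae, ae_diff hc h0] with u hu hud
    have hx := bd_mem_wulff hc h0 u
    rw [add_zero]
    by_cases hu2 : nu h u ∈ Pc m \ Ax 1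
    · rw [indicator_of_mem hu2]
      set x : Eu (m + 2) := (gN h (u : Eu (m + 2)))⁻¹ • (u : Eu (m + 2)) with hxd
      have hx0 : x 0 = (gN h (u : Eu (m + 2)))⁻¹ * inner ℝ (u : Eu (m + 2)) (e : Eu (m + 2)) := by
        rw [hedef, inner_es]; rfl
      have hxK : x ∈ K1 m N t := by rw [hK]; exact hx
      have hmem : ∀ s : ℝ, |s| = 1 → (s * x 0) • (es (m := m) 0 : Eu (m + 2)) ∈ wulff h := by
        intro s hs1
        have e0 : (s * x 0) • (es (m := m) 0 : Eu (m + 2)) =
            0 + (s * x 0) • (es (m := m) 0 : Eu (m + 2)) := by rw [zero_add]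
        rw [← hK, e0]
        refine ⟨?_, ?_, fun j => ?_⟩
        · rw [add_es_apply, if_neg zero_ne_one'.symm]
          show |(0:ℝ) + s * x 0 * 0| ≤ N
          rw [mul_zero, add_zero, abs_zero]; exact hN0.le
        · rw [add_es_apply, add_es_apply, if_neg zero_ne_one'.symm, if_pos rfl]
          show ((0:ℝ) + s * x 0 * 1) ^ 2 + ((0:ℝ) + s * x 0 * 0) ^ 2 / N ^ 4 ≤ 1
          have e1 := hxK.2.1
          have e2 : 0 ≤ x 1 ^ 2 / N ^ 4 := by positivity
          have e3 : s ^ 2 = 1 := by rw [← sq_abs, hs1, one_pow]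
          rw [mul_zero, add_zero, zero_add, mul_one, mul_pow, e3]
          simp only [ne_eq, OfNat.ofNat_ne_zero, not_false_eq_true, zero_pow, zero_div, add_zero,
            one_mul]
          linarith
        · rw [add_es_apply, if_neg (ss_ne_zero j)]
          show |(0:ℝ) + s * x 0 * 0| ≤ t
          rw [mul_zero, add_zero, abs_zero]; exact ht.le
      have e1 := hmem 1 (by norm_num) (nu h u)
      have e2 := hmem (-1) (by norm_num) (nu h u)
      rw [inner_smul_left] at e1 e2
      simp only [conj_trivial] at e1 e2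
      have e3 : gg h e u = x 0 * inner ℝ (e : Eu (m + 2)) (nu h u : Eu (m + 2)) / h (nu h u) := by
        unfold gg
        rw [hx0]
        ring
      rw [e3, div_le_one (h0 _)]
      rw [one_mul] at e1
      exact e1
    · rw [indicator_of_notMem hu2]
      have e3 : inner ℝ (e : Eu (m + 2)) (nu h u : Eu (m + 2)) = 0 := by
        rw [real_inner_comm, hedef, inner_es]
        rcases hu with hu | hu
        · have hu3 : nu h u ∈ Ax 1 := by
            by_contra hcon
            exact hu2 ⟨hu, hcon⟩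
          rcases hu3 with hu3 | hu3
          · rw [hu3, es_apply, if_neg zero_ne_one']
          · rw [mem_singleton_iff] at hu3
            rw [hu3, coe_neg_sphere]
            show -((es 1 : Sph (m + 2)) : Eu (m + 2)) 0 = 0
            rw [es_apply, if_neg zero_ne_one', neg_zero]
        · rw [mem_iUnion] at hu
          obtain ⟨j, hj⟩ := hu
          rcases hj with hj | hj
          · rw [hj, es_apply, if_neg (ss_ne_zero j).symm]
          · rw [mem_singleton_iff] at hj
            rw [hj, coe_neg_sphere]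
            show -((es j.succ.succ : Sph (m + 2)) : Eu (m + 2)) 0 = 0
            rw [es_apply, if_neg (ss_ne_zero j).symm, neg_zero]
      have e4 : gg h e u = 0 := by
        unfold gg
        rw [e3, zero_div, mul_zero]
      exact le_of_eq e4)
  rw [zero_mul, add_zero] at h1
  have h2 := moment_pos hp0 hc h0 e
  have h3 : 0 < p / (2 * S ^ 2) * ∫ x in wulff h, ‖x‖ ^ p * inner ℝ x (e : Eu (m + 2)) ^ 2 := by
    positivity
  linarith

end Body2

end Pool.Agent.Lib.MP_b0d2bf_gt
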