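import Mathlib
import Pool.Agent.Lib.MP_b0d2bf_gt.Body2

set_option autoImplicit false

/-!
Masses of subspaces for measures concentrated on the circle and the axes.
-/

namespace Pool.Agent.Lib.MP_b0d2bf_gt

open MeasureTheory Metric Set Filter Topology
open scoped Pointwise

section Sub

variable {m : ℕ}

lemma es_ne {i j : Fin (m + 2)} (hij : i ≠ j) : Disjoint (Ax i) (Ax j) := by
  rw [Set.disjoint_left]
  intro v hv hv2
  have h1 : |(v : Eu (m + 2)) i| = 1 := by
    rcases hv with hv | hv
    · rw [hv, es_apply, if_pos rfl, abs_one]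
    · rw [mem_singleton_iff] at hv
      rw [hv, coe_neg_sphere]
      show |-((es i : Sph (m + 2)) : Eu (m + 2)) i| = 1
      rw [es_apply, if_pos rfl, abs_neg, abs_one]
  have h2 : (v : Eu (m + 2)) i = 0 := by
    rcases hv2 with hv | hv
    · rw [hv, es_apply, if_neg hij]
    · rw [mem_singleton_iff] at hv
      rw [hv, coe_neg_sphere]
      show -((es j : Sph (m + 2)) : Eu (m + 2)) i = 0
      rw [es_apply, if_neg hij, neg_zero]
  rw [h2, abs_zero] at h1
  exact zero_ne_one h1

lemma Ax_Pc (i : Fin m) : Disjoint (Ax i.succ.succ) (Pc m) := by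
  rw [Set.disjoint_left]
  intro v hv hv2
  have h2 := hv2 i
  rcases hv with hv | hv
  · rw [hv, es_apply, if_pos rfl] at h2
    exact one_ne_zero h2
  · rw [mem_singleton_iff] at hv
    rw [hv, coe_neg_sphere] at h2
    have h3 : -((es i.succ.succ : Sph (m + 2)) : Eu (m + 2)) i.succ.succ = 0 := h2
    rw [es_apply, if_pos rfl] at h3
    norm_num at h3

lemma Ax_one_sub : Ax (m := m) 1 ⊆ Pc m := by
  intro v hv
  rcases hv with hv | hv
  · rw [hv]; exact es_one_mem
  · rw [mem_singleton_iff] at hv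
    rw [hv]; exact neg_mem_Pc es_one_mem

/-- decomposition -/
lemma decomp {μ : Measure (Sph (m + 2))} (hμ : μ (Om m)ᶜ = 0) {S : Set (Sph (m + 2))}
    (hS : MeasurableSet S) :
    μ S = ∑ i : Fin m, μ (S ∩ Ax i.succ.succ) + μ (S ∩ Ax 1) + μ (S ∩ (Pc m \ Ax 1)) := by
  have h1 : μ S = μ (S ∩ Om m) := by
    rw [← measure_inter_add_sdiff S measurable_Om]
    have : μ (S \ Om m) = 0 := measure_mono_null (fun x hx => hx.2) hμ
    rw [this, add_zero]
  have h2 : S ∩ Om m = (⋃ i : Fin m, S ∩ Ax i.succ.succ) ∪ ((S ∩ Ax 1) ∪ (S ∩ (Pc m \ Ax 1))) := by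
    ext v
    simp only [Om, mem_inter_iff, mem_union, mem_iUnion, Set.mem_sdiff]
    constructor
    · rintro ⟨h3, h4 | ⟨i, h4⟩⟩
      · by_cases h5 : v ∈ Ax (m := m) 1
        · right; left; exact ⟨h3, h5⟩
        · right; right; exact ⟨h3, h4, h5⟩
      · left; exact ⟨i, h3, h4⟩
    · rintro (⟨i, h3, h4⟩ | (⟨h3, h4⟩ | ⟨h3, h4, h5⟩))
      · exact ⟨h3, Or.inr ⟨i, h4⟩⟩
      · exact ⟨h3, Or.inl (Ax_one_sub h4)⟩
      · exact ⟨h3, Or.inl h4⟩
  have hm1 : MeasurableSet (S ∩ Ax (m := m) 1) := hS.inter (measurable_Ax _)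
  have hm2 : MeasurableSet (S ∩ (Pc m \ Ax 1)) := hS.inter (measurable_Pc.diff (measurable_Ax _))
  rw [h1, h2, measure_union _ (hm1.union hm2), measure_union _ hm2, measure_iUnion, tsum_fintype,
    add_assoc]
  · intro i j hij
    have : Disjoint (Ax (m := m) i.succ.succ) (Ax j.succ.succ) :=
      es_ne fun h => hij (ss_inj h)
    exact this.mono inter_subset_right inter_subset_right
  · exact fun i => hS.inter (measurable_Ax _)
  · rw [Set.disjoint_left]
    intro v hv hv2
    exact hv2.2.2 hv.2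
  · rw [Set.disjoint_left]
    intro v hv hv2
    rw [mem_iUnion] at hv
    obtain ⟨i, hi⟩ := hv
    have h3 : v ∈ Pc m := by
      rcases hv2 with hv2 | hv2
      · exact Ax_one_sub hv2.2
      · exact hv2.2.1
    exact (Set.disjoint_left.1 (Ax_Pc i)) hi.2 h3

/-- trace of a subspace on the sphere -/
def tr (L : Submodule ℝ (Eu (m + 2))) : Set (Sph (m + 2)) := {v | (v : Eu (m + 2)) ∈ L}

lemma measurable_tr (L : Submodule ℝ (Eu (m + 2))) : MeasurableSet (tr L) :=
  measurable_subtype_coe L.closed_of_finiteDimensional.measurableSet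

lemma tr_Ax (L : Submodule ℝ (Eu (m + 2))) (j : Fin (m + 2))
    [Decidable ((es j : Eu (m + 2)) ∈ L)] :
    tr L ∩ Ax j = if (es j : Eu (m + 2)) ∈ L then Ax j else ∅ := by
  split_ifs with h
  · refine inter_eq_right.2 ?_
    rintro v (hv | hv)
    · rw [hv]; exact h
    · rw [mem_singleton_iff] at hv
      rw [hv]
      show ((-es j : Sph (m + 2)) : Eu (m + 2)) ∈ L
      rw [coe_neg_sphere]
      exact L.neg_mem h
  · rw [← disjoint_iff_inter_eq_empty, Set.disjoint_left]
    rintro v hv (hv2 | hv2)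
    · rw [hv2] at hv
      exact h hv
    · rw [mem_singleton_iff] at hv2
      rw [hv2] at hv
      have hv' : ((-es j : Sph (m + 2)) : Eu (m + 2)) ∈ L := hv
      rw [coe_neg_sphere] at hv'
      exact h (by simpa using L.neg_mem hv')

/-- two independent planar directions span the plane -/
lemma plane_of_two {L : Submodule ℝ (Eu (m + 2))} {v w : Sph (m + 2)} (hv : v ∈ Pc m)
    (hw : w ∈ Pc m) (hvL : (v : Eu (m + 2)) ∈ L) (hwL : (w : Eu (m + 2)) ∈ L)
    (h1 : w ≠ v) (h2 : w ≠ -v) :
    (es (m := m) 0 : Eu (m + 2)) ∈ L ∧ (es (m := m) 1 : Eu (m + 2)) ∈ L := by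
  set v0 := (v : Eu (m + 2)) 0 with hv0
  set v1 := (v : Eu (m + 2)) 1 with hv1
  set w0 := (w : Eu (m + 2)) 0 with hw0
  set w1 := (w : Eu (m + 2)) 1 with hw1
  set D := v0 * w1 - v1 * w0 with hD
  have hvv : (v : Eu (m + 2)) = pv m v0 v1 := mem_Pc_iff.1 hv
  have hww : (w : Eu (m + 2)) = pv m w0 w1 := mem_Pc_iff.1 hw
  have hvn := norm_Pc hv
  rw [← hv0, ← hv1] at hvn
  have hD0 : D ≠ 0 := by
    intro hD0
    have hab : (-v1) ^ 2 + v0 ^ 2 = 1 := by rw [neg_sq]; linarith
    have e1 : inner ℝ (pdir m (-v1) v0 hab : Eu (m + 2)) (w : Eu (m + 2)) = 0 := by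
      rw [inner_Pc _ hw]
      have e2 : (pdir m (-v1) v0 hab : Eu (m + 2)) 0 = -v1 := pv_zero _ _
      have e3 : (pdir m (-v1) v0 hab : Eu (m + 2)) 1 = v0 := pv_one _ _
      rw [e2, e3, ← hw0, ← hw1]
      rw [hD] at hD0
      linarith
    have e4 := Pc_perp (pdir_mem _ _ hab) hw e1
    have e5 : (pdir m (-(pdir m (-v1) v0 hab : Eu (m + 2)) 1)
        ((pdir m (-v1) v0 hab : Eu (m + 2)) 0)
        (by have := norm_Pc (pdir_mem (m := m) _ _ hab)
            linarith [neg_sq ((pdir m (-v1) v0 hab : Eu (m + 2)) 1)])) = -v := by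
      apply Subtype.ext
      rw [coe_neg_sphere, hvv]
      show pv m (-(pdir m (-v1) v0 hab : Eu (m + 2)) 1) ((pdir m (-v1) v0 hab : Eu (m + 2)) 0) = _
      have e2 : (pdir m (-v1) v0 hab : Eu (m + 2)) 0 = -v1 := pv_zero _ _
      have e3 : (pdir m (-v1) v0 hab : Eu (m + 2)) 1 = v0 := pv_one _ _
      rw [e2, e3]
      unfold pv
      rw [neg_add, ← neg_smul, ← neg_smul]
    rw [e5, neg_neg] at e4
    rcases e4 with e4 | e4
    · exact h2 e4
    · exact h1 e4
  constructor
  · have e1 : (es (m := m) 0 : Eu (m + 2)) =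
        D⁻¹ • (w1 • (v : Eu (m + 2)) - v1 • (w : Eu (m + 2))) := by
      have e2 : w1 • (v : Eu (m + 2)) - v1 • (w : Eu (m + 2)) =
          D • (es (m := m) 0 : Eu (m + 2)) := by
        rw [hvv, hww]
        unfold pv
        rw [hD]
        module
      rw [e2, smul_smul, inv_mul_cancel₀ hD0, one_smul]
    rw [e1]
    exact L.smul_mem _ (L.sub_mem (L.smul_mem _ hvL) (L.smul_mem _ hwL))
  · have e1 : (es (m := m) 1 : Eu (m + 2)) =
        D⁻¹ • (v0 • (w : Eu (m + 2)) - w0 • (v : Eu (m + 2))) := by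
      have e2 : v0 • (w : Eu (m + 2)) - w0 • (v : Eu (m + 2)) =
          D • (es (m := m) 1 : Eu (m + 2)) := by
        rw [hvv, hww]
        unfold pv
        rw [hD]
        module
      rw [e2, smul_smul, inv_mul_cancel₀ hD0, one_smul]
    rw [e1]
    exact L.smul_mem _ (L.sub_mem (L.smul_mem _ hwL) (L.smul_mem _ hvL))

open Classical in
/-- the mass of a subspace -/
theorem mass_subspace {μ : Measure (Sph (m + 2))} (hμ : μ (Om m)ᶜ = 0)
    (hat : ∀ v ∈ Pc m, v ∉ Ax 1 → μ {v, -v} = 0) (L : Submodule ℝ (Eu (m + 2))) :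
    μ (tr L) = ∑ i : Fin m, (if (es i.succ.succ : Eu (m + 2)) ∈ L then μ (Ax i.succ.succ) else 0) +
      (if (es (m := m) 1 : Eu (m + 2)) ∈ L then μ (Ax 1) else 0) +
      (if (es (m := m) 0 : Eu (m + 2)) ∈ L ∧ (es (m := m) 1 : Eu (m + 2)) ∈ L then
        μ (Pc m \ Ax 1) else 0) := by
  rw [decomp hμ (measurable_tr L)]
  have h1 : ∀ j : Fin (m + 2), μ (tr L ∩ Ax j) =
      if (es j : Eu (m + 2)) ∈ L then μ (Ax j) else 0 := by
    intro j
    rw [tr_Ax]
    split_ifs
    · rfl
    · exact measure_empty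
  simp only [h1]
  congr 1
  split_ifs with h2
  · congr 1
    refine inter_eq_right.2 fun v hv => ?_
    show (v : Eu (m + 2)) ∈ L
    rw [mem_Pc_iff.1 hv.1]
    unfold pv
    exact L.add_mem (L.smul_mem _ h2.1) (L.smul_mem _ h2.2)
  · by_cases hne : (tr L ∩ (Pc m \ Ax 1)).Nonempty
    · obtain ⟨v, hvL, hvP, hv1⟩ := hne
      refine measure_mono_null ?_ (hat v hvP hv1)
      rintro w ⟨hwL, hwP, hw1⟩
      by_contra hcon
      apply h2
      refine plane_of_two hvP hwP hvL hwL ?_ ?_
      · rintro rfl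
        exact hcon (Or.inl rfl)
      · rintro rfl
        exact hcon (Or.inr rfl)
    · rw [Set.not_nonempty_iff_eq_empty] at hne
      rw [hne, measure_empty]

open Classical in
/-- number of coordinate vectors in a subspace -/
lemma card_le_finrank (L : Submodule ℝ (Eu (m + 2))) :
    (Finset.univ.filter fun j : Fin (m + 2) => (es j : Eu (m + 2)) ∈ L).card ≤
      Module.finrank ℝ L := by
  set J := Finset.univ.filter fun j : Fin (m + 2) => (es j : Eu (m + 2)) ∈ L with hJ
  have hli : LinearIndependent ℝ (fun j : Fin (m + 2) => (es j : Eu (m + 2))) := by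
    have := (EuclideanSpace.orthonormal_single (𝕜 := ℝ) (ι := Fin (m + 2))).linearIndependent
    exact this
  have h1 : LinearIndependent ℝ (fun j : J => (es (j : Fin (m + 2)) : Eu (m + 2))) :=
    hli.comp _ Subtype.val_injective
  have h2 : LinearIndependent ℝ (fun j : J => (⟨es (j : Fin (m + 2)),
      (Finset.mem_filter.1 j.2).2⟩ : L)) := by
    apply LinearIndependent.of_comp L.subtype
    exact h1
  have h3 := h2.fintype_card_le_finrank
  rwa [Fintype.card_coe] at h3

lemma eq_top_of_es {L : Submodule ℝ (Eu (m + 2))}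
    (h : ∀ j : Fin (m + 2), (es j : Eu (m + 2)) ∈ L) : L = ⊤ := by
  classical
  apply Submodule.eq_top_of_finrank_eq
  apply le_antisymm (Submodule.finrank_le L)
  have h1 := card_le_finrank L
  rw [Finset.filter_true_of_mem (fun j _ => h j), Finset.card_univ, Fintype.card_fin] at h1
  rw [finrank_euclideanSpace_fin]
  exact h1

open Classical in
/-- the Henk-Pollehn inequality from strict lower bounds of the pieces -/
theorem subspace_ineq {q : ℝ} (hq : 0 < q) {b : Fin m → ℝ} {c d T : ℝ}
    (hT : T = ∑ i, b i + c + d) (hb : ∀ i, T / q < b i) (hc : T / q < c) (hd : T / q < d)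
    (hT0 : 0 < T) {L : Submodule ℝ (Eu (m + 2))} (hL : L ≠ ⊤) :
    ∑ i : Fin m, (if (es i.succ.succ : Eu (m + 2)) ∈ L then b i else 0) +
      (if (es (m := m) 1 : Eu (m + 2)) ∈ L then c else 0) +
      (if (es (m := m) 0 : Eu (m + 2)) ∈ L ∧ (es (m := m) 1 : Eu (m + 2)) ∈ L then d else 0) <
      (q - (m + 2 : ℕ) + Module.finrank ℝ L) / q * T := by
  set β := T / q with hβ
  have hβ0 : 0 < β := by positivity
  set P : Fin (m + 2) → Prop := fun j => (es j : Eu (m + 2)) ∈ L with hP
  have hcard := card_le_finrank L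
  have hsum : ((Finset.univ.filter fun j : Fin (m + 2) => P j).card : ℝ) =
      ∑ j : Fin (m + 2), (if P j then (1:ℝ) else 0) := by
    rw [Finset.card_filter]
    push_cast
    rfl
  rw [Fin.sum_univ_succ, Fin.sum_univ_succ] at hsum
  have hP1 : P (Fin.succ 0) ↔ P 1 := Iff.rfl
  -- missing mass
  have hstep : ∑ i : Fin m, (if P i.succ.succ then b i else 0) +
      (if P 1 then c else 0) + (if P 0 ∧ P 1 then d else 0) <
      T - β * ((m + 2 : ℕ) - (Finset.univ.filter fun j : Fin (m + 2) => P j).card) := by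
    have e1 : ∀ i : Fin m, (if P i.succ.succ then b i else 0) ≤
        b i - β * (1 - (if P i.succ.succ then (1:ℝ) else 0)) := by
      intro i
      split_ifs
      · simp
      · have := hb i
        linarith
    have e2 : ∑ i : Fin m, (if P i.succ.succ then b i else 0) ≤
        ∑ i, b i - β * (m - ∑ i : Fin m, (if P i.succ.succ then (1:ℝ) else 0)) := by
      refine (Finset.sum_le_sum fun i _ => e1 i).trans (le_of_eq ?_)
      rw [Finset.sum_sub_distrib, ← Finset.mul_sum, Finset.sum_sub_distrib, Finset.sum_const,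
        Finset.card_univ, Fintype.card_fin, nsmul_eq_mul, mul_one]
    have e3 : (if P 1 then c else 0) ≤ c - β * (1 - (if P 1 then (1:ℝ) else 0)) := by
      split_ifs
      · simp
      · linarith
    have e4 : (if P 0 ∧ P 1 then d else 0) ≤ d - β * (1 - (if P 0 then (1:ℝ) else 0)) := by
      by_cases h0 : P 0
      · by_cases h1 : P 1
        · rw [if_pos ⟨h0, h1⟩, if_pos h0]; simp
        · rw [if_neg (fun h => h1 h.2), if_pos h0]
          linarith
      · rw [if_neg (fun h => h0 h.1), if_neg h0]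
        linarith
    rw [hsum, hT]
    push_cast
    have hstrict : (∑ i : Fin m, (if P i.succ.succ then b i else 0) <
        ∑ i, b i - β * (m - ∑ i : Fin m, (if P i.succ.succ then (1:ℝ) else 0))) ∨
        ((if P 1 then c else 0) < c - β * (1 - (if P 1 then (1:ℝ) else 0))) ∨
        ((if P 0 ∧ P 1 then d else 0) < d - β * (1 - (if P 0 then (1:ℝ) else 0))) := by
      by_cases h1 : P 1
      · by_cases h0 : P 0
        · left
          have hex : ∃ i : Fin m, ¬ P i.succ.succ := by
            by_contra hcon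
            push Not at hcon
            apply hL
            apply eq_top_of_es
            intro j
            refine Fin.cases h0 (fun j => ?_) j
            exact Fin.cases h1 (fun j => hcon j) j
          obtain ⟨i0, hi0⟩ := hex
          refine (Finset.sum_lt_sum (fun i _ => e1 i) ⟨i0, Finset.mem_univ _, ?_⟩).trans_eq ?_
          · rw [if_neg hi0, if_neg hi0]
            have := hb i0
            linarith
          · rw [Finset.sum_sub_distrib, ← Finset.mul_sum, Finset.sum_sub_distrib, Finset.sum_const,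
              Finset.card_univ, Fintype.card_fin, nsmul_eq_mul, mul_one]
        · right; right
          rw [if_neg (fun h => h0 h.1), if_neg h0]
          linarith
      · right; left
        rw [if_neg h1, if_neg h1]
        linarith
    have hP1' : (if P (Fin.succ 0) then (1:ℝ) else 0) = if P 1 then (1:ℝ) else 0 := rfl
    rw [hP1']
    rcases hstrict with h | h | h
    · nlinarith
    · nlinarith
    · nlinarith
  refine hstep.trans_le ?_
  have hcard' : ((Finset.univ.filter fun j : Fin (m + 2) => P j).card : ℝ) ≤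
      Module.finrank ℝ L := by exact_mod_cast hcard
  have e5 : (q - (m + 2 : ℕ) + Module.finrank ℝ L) / q * T =
      T - β * ((m + 2 : ℕ) - Module.finrank ℝ L) := by
    rw [hβ]; field_simp; ring
  rw [e5]
  nlinarith

end Sub

end Pool.Agent.Lib.MP_b0d2bf_gt
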