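import Mathlib
import Pool.Agent.Lib.MP_b0d2bf_gt.Sub

set_option autoImplicit false

/-!
Measures with prescribed atoms on the axes and a given atomless part on the circle.
-/

namespace Pool.Agent.Lib.MP_b0d2bf_gt

open MeasureTheory Metric Set Filter Topology
open scoped Pointwise

section Atoms

/-- symmetric pair of atoms, total mass one -/
noncomputable def sd {n : ℕ} (v : Sph n) : Measure (Sph n) :=
  (2 : ENNReal)⁻¹ • (Measure.dirac v + Measure.dirac (-v))

lemma sd_both {n : ℕ} {v : Sph n} {S : Set (Sph n)} (hS : MeasurableSet S) (h1 : v ∈ S)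
    (h2 : -v ∈ S) : sd v S = 1 := by
  unfold sd
  rw [Measure.smul_apply, Measure.add_apply, Measure.dirac_apply' _ hS, Measure.dirac_apply' _ hS,
    indicator_of_mem h1, indicator_of_mem h2, smul_eq_mul]
  simp only [Pi.one_apply]
  rw [one_add_one_eq_two, ENNReal.inv_mul_cancel (by norm_num) (by norm_num)]

lemma sd_none {n : ℕ} {v : Sph n} {S : Set (Sph n)} (hS : MeasurableSet S) (h1 : v ∉ S)
    (h2 : -v ∉ S) : sd v S = 0 := by
  unfold sd
  rw [Measure.smul_apply, Measure.add_apply, Measure.dirac_apply' _ hS, Measure.dirac_apply' _ hS,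
    indicator_of_notMem h1, indicator_of_notMem h2, smul_eq_mul, add_zero, mul_zero]

lemma sd_even {n : ℕ} {v : Sph n} {S : Set (Sph n)} (hS : MeasurableSet S) :
    sd v {w | -w ∈ S} = sd v S := by
  have hm : Measurable (fun u : Sph n => -u) := continuous_neg.measurable
  have hS' : MeasurableSet {w : Sph n | -w ∈ S} := hm hS
  unfold sd
  rw [Measure.smul_apply, Measure.smul_apply, Measure.add_apply, Measure.add_apply,
    Measure.dirac_apply' _ hS, Measure.dirac_apply' _ hS, Measure.dirac_apply' _ hS',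
    Measure.dirac_apply' _ hS']
  have e1 : ({w : Sph n | -w ∈ S}).indicator (1 : Sph n → ENNReal) v =
      S.indicator (1 : Sph n → ENNReal) (-v) := rfl
  have e2 : ({w : Sph n | -w ∈ S}).indicator (1 : Sph n → ENNReal) (-v) =
      S.indicator (1 : Sph n → ENNReal) v := by
    have e3 : ({w : Sph n | -w ∈ S}).indicator (1 : Sph n → ENNReal) (-v) =
      S.indicator (1 : Sph n → ENNReal) (- -v) := rfl
    rw [e3, neg_neg]
  rw [e1, e2, add_comm]

variable {m : ℕ}

/-- measure with prescribed masses -/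
noncomputable def Cst (b : Fin m → ENNReal) (c d : ENNReal) (ν0 : Measure (Sph (m + 2))) :
    Measure (Sph (m + 2)) :=
  (∑ i, b i • sd (es i.succ.succ)) + c • sd (es 1) + d • ν0

variable {b : Fin m → ENNReal} {c d : ENNReal} {ν0 : Measure (Sph (m + 2))}

lemma Cst_apply (S : Set (Sph (m + 2))) :
    Cst b c d ν0 S = ∑ i, b i * sd (es i.succ.succ) S + c * sd (es 1) S + d * ν0 S := by
  unfold Cst
  rw [Measure.add_apply, Measure.add_apply, Measure.finsetSum_apply]
  rfl

lemma es_Ax (i : Fin (m + 2)) : es i ∈ Ax i := Or.inl rfl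

lemma neg_es_Ax (i : Fin (m + 2)) : -es i ∈ Ax i := Or.inr rfl

lemma sd_of_subset {j : Fin (m + 2)} {S : Set (Sph (m + 2))} (hS : MeasurableSet S)
    (h : Ax j ⊆ S) : sd (es j) S = 1 := sd_both hS (h (es_Ax j)) (h (neg_es_Ax j))

lemma sd_of_disjoint {j : Fin (m + 2)} {S : Set (Sph (m + 2))} (hS : MeasurableSet S)
    (h : Disjoint (Ax j) S) : sd (es j) S = 0 :=
  sd_none hS (fun h1 => Set.disjoint_left.1 h (es_Ax j) h1)
    (fun h1 => Set.disjoint_left.1 h (neg_es_Ax j) h1)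

lemma Cst_Om (hP : ν0 (Pc m)ᶜ = 0) : Cst b c d ν0 (Om m)ᶜ = 0 := by
  have hm : MeasurableSet ((Om m)ᶜ) := measurable_Om.compl
  rw [Cst_apply]
  have h1 : ν0 (Om m)ᶜ = 0 :=
    measure_mono_null (compl_subset_compl.2 subset_union_left) hP
  have h2 : sd (es (m := m) 1) (Om m)ᶜ = 0 := by
    refine sd_of_disjoint hm ?_
    rw [Set.disjoint_left]
    intro v hv hv2
    exact hv2 (Or.inl (Ax_one_sub hv))
  have h3 : ∀ i : Fin m, sd (es i.succ.succ) (Om m)ᶜ = 0 := by
    intro i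
    refine sd_of_disjoint hm ?_
    rw [Set.disjoint_left]
    intro v hv hv2
    exact hv2 (Or.inr (mem_iUnion.2 ⟨i, hv⟩))
  simp [h1, h2, h3]

lemma ν0_Ax (hat : ∀ v, ν0 {v} = 0) (j : Fin (m + 2)) :
    ν0 (Ax j) = 0 := by
  unfold Ax
  rw [insert_eq, measure_union_null_iff]
  exact ⟨hat _, hat _⟩

lemma Cst_Ax (hat : ∀ v, ν0 {v} = 0) (i : Fin m) :
    Cst b c d ν0 (Ax i.succ.succ) = b i := by
  have hm : MeasurableSet (Ax (m := m) i.succ.succ) := measurable_Ax _
  rw [Cst_apply, ν0_Ax hat, mul_zero, add_zero]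
  have h2 : sd (es (m := m) 1) (Ax i.succ.succ) = 0 :=
    sd_of_disjoint hm (es_ne (ss_ne_one i).symm)
  rw [h2, mul_zero, add_zero, Finset.sum_eq_single i]
  · rw [sd_of_subset hm Subset.rfl, mul_one]
  · intro j _ hj
    rw [sd_of_disjoint hm (es_ne fun h => hj (ss_inj h)), mul_zero]
  · intro h; exact absurd (Finset.mem_univ i) h

lemma Cst_one (hat : ∀ v, ν0 {v} = 0) :
    Cst b c d ν0 (Ax 1) = c := by
  have hm : MeasurableSet (Ax (m := m) 1) := measurable_Ax _
  rw [Cst_apply, ν0_Ax hat, mul_zero, add_zero, sd_of_subset hm Subset.rfl, mul_one,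
    Finset.sum_eq_zero, zero_add]
  intro j _
  rw [sd_of_disjoint hm (es_ne (ss_ne_one j)), mul_zero]

lemma Cst_rest (ω : Set (Sph (m + 2))) (hω : MeasurableSet ω) :
    Cst b c d ν0 (ω ∩ (Pc m \ Ax 1)) = d * ν0 (ω ∩ (Pc m \ Ax 1)) := by
  have hm : MeasurableSet (ω ∩ (Pc m \ Ax 1)) :=
    hω.inter (measurable_Pc.diff (measurable_Ax _))
  rw [Cst_apply]
  have h2 : sd (es (m := m) 1) (ω ∩ (Pc m \ Ax 1)) = 0 := by
    refine sd_of_disjoint hm ?_
    rw [Set.disjoint_left]
    intro v hv hv2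
    exact hv2.2.2 hv
  have h3 : ∀ i : Fin m, sd (es i.succ.succ) (ω ∩ (Pc m \ Ax 1)) = 0 := by
    intro i
    refine sd_of_disjoint hm ?_
    rw [Set.disjoint_left]
    intro v hv hv2
    exact Set.disjoint_left.1 (Ax_Pc i) hv hv2.2.1
  simp [h2, h3]

lemma ν0_rest [IsProbabilityMeasure ν0] (hP : ν0 (Pc m)ᶜ = 0) (hat : ∀ v, ν0 {v} = 0) :
    ν0 (Pc m \ Ax 1) = 1 := by
  rw [measure_sdiff_null (ν0_Ax hat 1)]
  exact (prob_compl_eq_zero_iff measurable_Pc).1 hP

lemma Cst_line (hat : ∀ v, ν0 {v} = 0) {v : Sph (m + 2)}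
    (hv : v ∈ Pc m) (hv1 : v ∉ Ax 1) : Cst b c d ν0 {v, -v} = 0 := by
  have hm : MeasurableSet ({v, -v} : Set (Sph (m + 2))) := (measurableSet_singleton _).insert _
  have hsub : ({v, -v} : Set (Sph (m + 2))) ⊆ Pc m \ Ax 1 := by
    rintro w (hw | hw)
    · rw [hw]; exact ⟨hv, hv1⟩
    · rw [mem_singleton_iff] at hw
      rw [hw]
      refine ⟨neg_mem_Pc hv, fun hcon => hv1 ?_⟩
      rcases hcon with hcon | hcon
      · right
        rw [mem_singleton_iff, ← hcon, neg_neg]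
      · left
        rw [mem_singleton_iff] at hcon
        exact neg_injective hcon
  have h1 := Cst_rest (b := b) (c := c) (d := d) (ν0 := ν0) _ hm
  rw [inter_eq_left.2 hsub] at h1
  rw [h1, insert_eq]
  have : ν0 ({v} ∪ {-v}) = 0 := measure_union_null (hat _) (hat _)
  rw [this, mul_zero]

lemma Cst_even (he : ∀ ω, MeasurableSet ω → ν0 {v | -v ∈ ω} = ν0 ω) (ω : Set (Sph (m + 2)))
    (hω : MeasurableSet ω) : Cst b c d ν0 {v | -v ∈ ω} = Cst b c d ν0 ω := by
  rw [Cst_apply, Cst_apply, he ω hω]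
  simp only [sd_even hω]

lemma isFinite_sd {n : ℕ} (v : Sph n) : IsFiniteMeasure (sd v) := by
  refine ⟨?_⟩
  rw [sd_both MeasurableSet.univ (mem_univ _) (mem_univ _)]
  exact ENNReal.one_lt_top

lemma isFinite_Cst [IsProbabilityMeasure ν0] (hb : ∀ i, b i ≠ ⊤) (hc : c ≠ ⊤) (hd : d ≠ ⊤) :
    IsFiniteMeasure (Cst b c d ν0) := by
  refine ⟨?_⟩
  have h1 : ∀ v : Sph (m + 2), sd v univ = 1 := fun v =>
    sd_both MeasurableSet.univ (mem_univ _) (mem_univ _)
  have h2 : ν0 univ = 1 := measure_univ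
  rw [Cst_apply, h2, mul_one]
  simp only [h1, mul_one]
  refine ENNReal.add_lt_top.2 ⟨ENNReal.add_lt_top.2 ⟨?_, hc.lt_top⟩, hd.lt_top⟩
  exact ENNReal.sum_lt_top.2 fun i _ => (hb i).lt_top

/-- an arc of the circle -/
noncomputable def arc (m : ℕ) (θ : ℝ) : Sph (m + 2) :=
  pdir m (Real.cos θ) (Real.sin θ) (Real.cos_sq_add_sin_sq θ)

lemma continuous_arc : Continuous (arc m) := by
  unfold arc pdir pv
  refine Continuous.subtype_mk ?_ _
  exact (Real.continuous_cos.smul continuous_const).add (Real.continuous_sin.smul continuous_const)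

/-- an atomless even probability measure on the circle -/
noncomputable def arcM (m : ℕ) : Measure (Sph (m + 2)) :=
  (2 : ENNReal)⁻¹ • (Measure.map (arc m) (volume.restrict (Icc 0 1)) +
    Measure.map (fun θ => -arc m θ) (volume.restrict (Icc 0 1)))

lemma arcM_apply {S : Set (Sph (m + 2))} (hS : MeasurableSet S) :
    arcM m S = (2 : ENNReal)⁻¹ * ((volume.restrict (Icc (0:ℝ) 1)) (arc m ⁻¹' S) +
      (volume.restrict (Icc (0:ℝ) 1)) ((fun θ => -arc m θ) ⁻¹' S)) := by
  unfold arcM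
  rw [Measure.smul_apply, Measure.add_apply, Measure.map_apply continuous_arc.measurable hS,
    Measure.map_apply (f := fun θ => -arc m θ) (continuous_neg.comp continuous_arc).measurable hS,
    smul_eq_mul]

lemma arcM_prob : IsProbabilityMeasure (arcM m) := by
  refine ⟨?_⟩
  rw [arcM_apply MeasurableSet.univ, preimage_univ, preimage_univ, Measure.restrict_apply_univ,
    Real.volume_Icc, sub_zero, ENNReal.ofReal_one, one_add_one_eq_two,
    ENNReal.inv_mul_cancel (by norm_num) (by norm_num)]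

lemma arcM_Pc : arcM m (Pc m)ᶜ = 0 := by
  rw [arcM_apply measurable_Pc.compl]
  have h1 : arc m ⁻¹' (Pc m)ᶜ = ∅ := by
    ext θ
    simp only [mem_preimage, mem_compl_iff, mem_empty_iff_false, iff_false, not_not]
    exact pdir_mem _ _ _
  have h2 : (fun θ => -arc m θ) ⁻¹' (Pc m)ᶜ = ∅ := by
    ext θ
    simp only [mem_preimage, mem_compl_iff, mem_empty_iff_false, iff_false, not_not]
    exact neg_mem_Pc (pdir_mem _ _ _)
  rw [h1, h2, measure_empty, add_zero, mul_zero]

lemma arc_inj {x y : ℝ} (hx : x ∈ Icc (0:ℝ) 1) (hy : y ∈ Icc (0:ℝ) 1) (h : arc m x = arc m y) :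
    x = y := by
  have h1 : (arc m x : Eu (m + 2)) 0 = (arc m y : Eu (m + 2)) 0 := by rw [h]
  have h2 : (arc m x : Eu (m + 2)) 0 = Real.cos x := pv_zero _ _
  have h3 : (arc m y : Eu (m + 2)) 0 = Real.cos y := pv_zero _ _
  rw [h2, h3] at h1
  have hpi := Real.pi_gt_three
  exact Real.injOn_cos ⟨hx.1, by linarith [hx.2]⟩ ⟨hy.1, by linarith [hy.2]⟩ h1

lemma arcM_atom (v : Sph (m + 2)) : arcM m {v} = 0 := by
  rw [arcM_apply (measurableSet_singleton v)]
  have key : ∀ w : Sph (m + 2), (volume.restrict (Icc (0:ℝ) 1)) (arc m ⁻¹' {w}) = 0 := by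
    intro w
    rw [Measure.restrict_apply (continuous_arc.measurable (measurableSet_singleton w))]
    refine Set.Subsingleton.measure_zero ?_ _
    rintro x ⟨hx1, hx2⟩ y ⟨hy1, hy2⟩
    refine arc_inj (m := m) hx2 hy2 ?_
    rw [mem_preimage, mem_singleton_iff] at hx1 hy1
    rw [hx1, hy1]
  have h2 : (fun θ => -arc m θ) ⁻¹' {v} = arc m ⁻¹' {-v} := by
    ext θ
    simp only [mem_preimage, mem_singleton_iff]
    constructor
    · intro h; rw [← h, neg_neg]
    · intro h; rw [h, neg_neg]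
  rw [h2, key, key, add_zero, mul_zero]

lemma arcM_even (ω : Set (Sph (m + 2))) (hω : MeasurableSet ω) :
    arcM m {v | -v ∈ ω} = arcM m ω := by
  have hm : Measurable (fun u : Sph (m + 2) => -u) := continuous_neg.measurable
  have hω' : MeasurableSet {w : Sph (m + 2) | -w ∈ ω} := hm hω
  rw [arcM_apply hω, arcM_apply hω']
  have e1 : arc m ⁻¹' {w | -w ∈ ω} = (fun θ => -arc m θ) ⁻¹' ω := rfl
  have e2 : (fun θ => -arc m θ) ⁻¹' {w | -w ∈ ω} = arc m ⁻¹' ω := by
    ext θ
    show - -arc m θ ∈ ω ↔ arc m θ ∈ ω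
    rw [neg_neg]
  rw [e1, e2, add_comm]

end Atoms

end Pool.Agent.Lib.MP_b0d2bf_gt
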