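import Mathlib
import Pool.Agent.Lib.MP_b0d2bf_gt.Defs

set_option autoImplicit false

/-!
Short names for the statement about subspace masses.
-/

namespace Pool.Agent.Lib.MP_b0d2bf_gt

open MeasureTheory Metric Set

/-- nonzero finite even Borel measures on the sphere -/
structure IsEvenData {n : ℕ} (μ : Measure (Sph n)) : Prop where
  finite : IsFiniteMeasure μ
  ne_zero : μ ≠ 0
  even : ∀ ω : Set (Sph n), MeasurableSet ω → μ {v | -v ∈ ω} = μ ω

/-- the mass of the trace `L ∩ S` of a linear subspace -/
noncomputable def subMass {n : ℕ} (μ : Measure (Sph n)) (L : Submodule ℝ (Eu n)) : ENNReal :=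
  μ {v | (v : Eu n) ∈ L}

/-- the strict inequality `μ(L ∩ S) < ((q - n + dim L) / q) μ(S)` for all proper subspaces -/
def HenkPollehn {n : ℕ} (q : ℝ) (μ : Measure (Sph n)) : Prop :=
  ∀ L : Submodule ℝ (Eu n), L ≠ ⊤ →
    (subMass μ L).toReal < (q - n + Module.finrank ℝ L) / q * μ.real univ

/-- `μ` is the `q`-th dual curvature measure of `K` -/
def Represents {n : ℕ} (q : ℝ) (K : Set (Eu n)) (μ : Measure (Sph n)) : Prop :=
  ∀ ω : Set (Sph n), MeasurableSet ω → dualCurv q K ω = μ ω

/-- the inverse radial Gauss images of Borel sets are measurable for the completed surface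
measure -/
def MeasGauss {n : ℕ} (K : Set (Eu n)) : Prop :=
  ∀ ω : Set (Sph n), MeasurableSet ω →
    NullMeasurableSet (invGauss K ω) ((volume : Measure (Eu n)).toSphere)

end Pool.Agent.Lib.MP_b0d2bf_gt
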