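import Mathlib
import Pool.Agent.Lib.MP_b0d2bf_gt.Atoms

set_option autoImplicit false

/-!
No condition on the masses of linear subspaces characterises the dual curvature measures of
origin-symmetric convex bodies for `q > n`.
-/

namespace Pool.Agent.Lib.MP_b0d2bf_gt

open MeasureTheory Metric Set Filter Topology
open scoped Pointwise

section Main2

variable {m : ℕ}

lemma exists_long {p q δ : ℝ} (hδ : 0 < δ) :
    ∃ N : ℝ, 1 ≤ N ∧ (p + 1) / q - δ ≤
      (p + 1) / q * (Real.sqrt (1 - 1 / N ^ 2) * (N / (N + 2)) ^ (p + 1)) := by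
  have h1 : Tendsto (fun N : ℝ => 1 / N ^ 2) atTop (𝓝 0) := by
    simp only [one_div]
    exact tendsto_inv_atTop_zero.comp (tendsto_pow_atTop two_ne_zero)
  have h2 : Tendsto (fun N : ℝ => Real.sqrt (1 - 1 / N ^ 2)) atTop (𝓝 1) := by
    have := (tendsto_const_nhds (x := (1:ℝ))).sub h1
    rw [sub_zero] at this
    have h3 := (Real.continuous_sqrt.tendsto 1).comp this
    rw [Real.sqrt_one] at h3
    exact h3
  have h3 : Tendsto (fun N : ℝ => N / (N + 2)) atTop (𝓝 1) := by
    have e1 : Tendsto (fun N : ℝ => 1 - 2 / (N + 2)) atTop (𝓝 1) := by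
      have e2 : Tendsto (fun N : ℝ => 2 / (N + 2)) atTop (𝓝 0) :=
        tendsto_const_nhds.div_atTop (tendsto_atTop_add_const_right _ _ tendsto_id)
      have := (tendsto_const_nhds (x := (1:ℝ))).sub e2
      rwa [sub_zero] at this
    refine e1.congr' ?_
    filter_upwards [eventually_gt_atTop 0] with N hN
    have : N + 2 ≠ 0 := by positivity
    field_simp
    ring
  have h4 : Tendsto (fun N : ℝ => (N / (N + 2)) ^ (p + 1)) atTop (𝓝 1) := by
    have := h3.rpow_const (p := p + 1) (Or.inl one_ne_zero)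
    rwa [Real.one_rpow] at this
  have h5 : Tendsto (fun N : ℝ => (p + 1) / q * (Real.sqrt (1 - 1 / N ^ 2) *
      (N / (N + 2)) ^ (p + 1))) atTop (𝓝 ((p + 1) / q * (1 * 1))) :=
    (h2.mul h4).const_mul _
  have h6 := h5.eventually (lt_mem_nhds (show (p + 1) / q - δ < (p + 1) / q * (1 * 1) by linarith))
  obtain ⟨N, hN1, hN2⟩ := (h6.and (eventually_ge_atTop 1)).exists
  exact ⟨N, hN2, hN1.le⟩

theorem main2 {q : ℝ} (hq : ((m + 2 : ℕ) : ℝ) < q) :
    ∃ μ₁ μ₂ : Measure (Sph (m + 2)), IsFiniteMeasure μ₁ ∧ IsFiniteMeasure μ₂ ∧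
      μ₁ ≠ 0 ∧ μ₂ ≠ 0 ∧
      (∀ ω : Set (Sph (m + 2)), MeasurableSet ω → μ₁ {v | -v ∈ ω} = μ₁ ω) ∧
      (∀ ω : Set (Sph (m + 2)), MeasurableSet ω → μ₂ {v | -v ∈ ω} = μ₂ ω) ∧
      (∀ L : Submodule ℝ (Eu (m + 2)), μ₁ {v | (v : Eu (m + 2)) ∈ L} =
        μ₂ {v | (v : Eu (m + 2)) ∈ L}) ∧
      (∀ L : Submodule ℝ (Eu (m + 2)), L ≠ ⊤ → μ₂.real {v | (v : Eu (m + 2)) ∈ L} <
        (q - (m + 2 : ℕ) + Module.finrank ℝ L) / q * μ₂.real univ) ∧
      (∃ K : Set (Eu (m + 2)), IsSymBody K ∧ ∀ ω : Set (Sph (m + 2)), MeasurableSet ω →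
        NullMeasurableSet (invGauss K ω) ((volume : Measure (Eu (m + 2))).toSphere) ∧
        dualCurv q K ω = μ₁ ω) ∧
      ¬ ∃ K : Set (Eu (m + 2)), IsSymBody K ∧ ∀ ω : Set (Sph (m + 2)), MeasurableSet ω →
        dualCurv q K ω = μ₂ ω := by
  classical
  have hn : (0:ℝ) < ((m + 2 : ℕ) : ℝ) := by positivity
  have hq0 : 0 < q := by linarith
  obtain ⟨p, hp⟩ : ∃ p : ℝ, p = q - (m + 2 : ℕ) := ⟨_, rfl⟩
  have hp0 : 0 < p := by rw [hp]; linarith
  have hm0 : (0:ℝ) ≤ m := Nat.cast_nonneg m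
  have hqp : q = p + m + 2 := by rw [hp]; push_cast; ring
  have hprob : IsProbabilityMeasure (arcM m) := arcM_prob
  obtain ⟨δ, hδ0, hna⟩ := non_att hq (arcM m) arcM_Pc arcM_atom
  set δ' := min δ (p / (2 * q)) with hδ'
  have hδ'0 : 0 < δ' := by positivity
  have hδ'1 : δ' ≤ δ := min_le_left _ _
  have hδ'2 : δ' ≤ p / (2 * q) := min_le_right _ _
  obtain ⟨N, hN1, hN2⟩ := exists_long (p := p) (q := q) hδ'0
  have hN0 : 0 < N := by linarith
  set t : ℝ := 1 / (m + 1) with ht
  have ht0 : 0 < t := by positivity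
  have ht1 : m * t ^ 2 ≤ 1 := by
    rw [ht, div_pow, one_pow, mul_one_div, div_le_one (by positivity)]
    nlinarith
  obtain ⟨h, hc, h0, he, hs, hK⟩ := exists_supp_of_body (K1_body (m := m) hN1 ht0)
  have hae := K1_normals hN1 ht0 hc h0 he hs hK
  have hfinM := isFinite_MM hc h0 q
  set D := DD p (wulff h) with hD
  have hD0 : 0 < D := by rw [hD, hp]; exact DD_pos hq hc h0
  have hT : (MM q h).real univ = q * D := by
    rw [Measure.real, MM_univ' hq hc h0, ← hp, ENNReal.toReal_ofReal (by positivity)]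
  have hOm : MM q h (Om m)ᶜ = 0 := by
    refine MM_compl_eq_zero measurable_Om.compl ?_
    filter_upwards [hae] with u hu hcon
    exact hcon hu
  have hline : ∀ v ∈ Pc m, v ∉ Ax 1 → MM q h {v, -v} = 0 := fun v hv hv1 =>
    K1_line hN1 hc h0 he hs hK hv hv1
  set b : Fin m → ENNReal := fun i => MM q h (Ax i.succ.succ) with hb
  set c : ENNReal := MM q h (Ax 1) with hcd
  set d : ENNReal := MM q h (Pc m \ Ax 1) with hdd
  have hbf : ∀ i, b i ≠ ⊤ := fun i => measure_ne_top _ _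
  have hcf : c ≠ ⊤ := measure_ne_top _ _
  have hdf : d ≠ ⊤ := measure_ne_top _ _
  set Q := Cst b c d (arcM m) with hQ
  have hfinQ : IsFiniteMeasure Q := isFinite_Cst hbf hcf hdf
  have hQOm : Q (Om m)ᶜ = 0 := Cst_Om arcM_Pc
  have hQax : ∀ i : Fin m, Q (Ax i.succ.succ) = b i := fun i => Cst_Ax arcM_atom i
  have hQ1 : Q (Ax 1) = c := Cst_one arcM_atom
  have hQrest : ∀ ω, MeasurableSet ω → Q (ω ∩ (Pc m \ Ax 1)) = d * arcM m (ω ∩ (Pc m \ Ax 1)) :=
    fun ω hω => Cst_rest ω hω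
  have hQd : Q (Pc m \ Ax 1) = d := by
    have := hQrest univ MeasurableSet.univ
    rw [univ_inter, ν0_rest arcM_Pc arcM_atom, mul_one] at this
    exact this
  have hQline : ∀ v ∈ Pc m, v ∉ Ax 1 → Q {v, -v} = 0 := fun v hv hv1 => Cst_line arcM_atom hv hv1
  -- equality on subspaces
  have hsubs : ∀ L : Submodule ℝ (Eu (m + 2)), MM q h (tr L) = Q (tr L) := by
    intro L
    rw [mass_subspace hOm hline L, mass_subspace hQOm hQline L, hQ1, hQd]
    simp only [hQax]
    rfl
  have htot : MM q h univ = Q univ := by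
    have h1 := hsubs ⊤
    have h2 : tr (⊤ : Submodule ℝ (Eu (m + 2))) = univ := by
      ext v; simp [tr]
    rwa [h2] at h1
  have hTQ : Q.real univ = q * D := by
    rw [Measure.real, ← htot, ← Measure.real, hT]
  -- real values
  have hsumE : MM q h univ = ∑ i, b i + c + d := by
    have := decomp hOm MeasurableSet.univ
    simp only [univ_inter] at this
    exact this
  have hsum : q * D = ∑ i, (b i).toReal + c.toReal + d.toReal := by
    rw [← hT, Measure.real, hsumE, ENNReal.toReal_add _ hdf, ENNReal.toReal_add _ hcf,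
      ENNReal.toReal_sum fun i _ => hbf i]
    · exact (ENNReal.sum_lt_top.2 fun i _ => (hbf i).lt_top).ne
    · exact ENNReal.add_ne_top.2 ⟨(ENNReal.sum_lt_top.2 fun i _ => (hbf i).lt_top).ne, hcf⟩
  have hbs : ∀ i, D < (b i).toReal := by
    intro i
    have := ax_strict hq hc h0 he hae i
    rw [← hp] at this
    exact this
  have hds : D < d.toReal := by
    have := K1_rest_strict hq hc h0 hae hN1 ht0 hK
    rw [← hp] at this
    exact this
  have hce : ((p + 1) / q - δ') * (q * D) ≤ c.toReal := by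
    have e1 := K1_mass_lower hq hN1 ht0 hc h0 he hs hK
    rw [← hp] at e1
    have e2 := K1_total hp0 hN1 ht0 ht1 hc h0 hK
    rw [← hD] at e2
    refine le_trans ?_ e1
    have hbeta := Real.sqrt_nonneg (1 - 1 / N ^ 2)
    calc ((p + 1) / q - δ') * (q * D)
        ≤ (p + 1) / q * (Real.sqrt (1 - 1 / N ^ 2) * (N / (N + 2)) ^ (p + 1)) * (q * D) :=
          mul_le_mul_of_nonneg_right hN2 (by positivity)
      _ = (p + 1) * (Real.sqrt (1 - 1 / N ^ 2) * (N / (N + 2)) ^ (p + 1)) * D := by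
          field_simp
      _ ≤ (p + 1) * (Real.sqrt (1 - 1 / N ^ 2) * (N / (N + 2)) ^ (p + 1)) *
          ((2 * t) ^ m * (4 * (N + 2) ^ (p + 1) / (p + 1))) :=
          mul_le_mul_of_nonneg_left e2 (by positivity)
      _ = 4 * Real.sqrt (1 - 1 / N ^ 2) * (2 * t) ^ m *
          ((N / (N + 2)) ^ (p + 1) * (N + 2) ^ (p + 1)) := by
          field_simp
      _ = 4 * Real.sqrt (1 - 1 / N ^ 2) * (2 * t) ^ m * (N * N ^ p) := by
          rw [← Real.mul_rpow (by positivity) (by positivity), div_mul_cancel₀ _ (by positivity),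
            Real.rpow_add hN0, Real.rpow_one, mul_comm N]
  have hcs : D < c.toReal := by
    refine lt_of_lt_of_le ?_ hce
    have e1 : (1 / q + p / (2 * q)) * (q * D) ≤ ((p + 1) / q - δ') * (q * D) := by
      refine mul_le_mul_of_nonneg_right ?_ (by positivity)
      have : (p + 1) / q = 1 / q + p / (2 * q) + p / (2 * q) := by field_simp; ring
      linarith
    refine lt_of_lt_of_le ?_ e1
    have e2 : (1 / q + p / (2 * q)) * (q * D) = D + p / 2 * D := by field_simp
    rw [e2]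
    have : 0 < p / 2 * D := by positivity
    linarith
  have hbu : ∀ i, (b i).toReal ≤ (1 / q + δ') * (q * D) := by
    intro i
    have e1 : ∑ j, (b j).toReal = (b i).toReal + ∑ j ∈ Finset.univ.erase i, (b j).toReal :=
      (Finset.add_sum_erase _ _ (Finset.mem_univ i)).symm
    have e2 : ((m : ℝ) - 1) * D ≤ ∑ j ∈ Finset.univ.erase i, (b j).toReal := by
      have e3 : ∑ _j ∈ Finset.univ.erase i, D ≤ ∑ j ∈ Finset.univ.erase i, (b j).toReal :=
        Finset.sum_le_sum fun j _ => (hbs j).le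
      rw [Finset.sum_const, Finset.card_erase_of_mem (Finset.mem_univ i), Finset.card_univ,
        Fintype.card_fin, nsmul_eq_mul] at e3
      have hm1 : 1 ≤ m := by
        have := i.pos
        omega
      rw [Nat.cast_sub hm1, Nat.cast_one] at e3
      exact e3
    have e4 : ((p + 1) / q - δ') * (q * D) = (p + 1) * D - δ' * (q * D) := by field_simp
    have e5 : (1 / q + δ') * (q * D) = D + δ' * (q * D) := by field_simp
    rw [e5]
    rw [e4] at hce
    rw [e1] at hsum
    have e6 : q * D = (p + m + 2) * D := by rw [← hqp]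
    nlinarith
  -- the measures
  have hnE : ((m + 2 : ℕ) : ENNReal) ≠ 0 := by exact_mod_cast (by omega : m + 2 ≠ 0)
  have hnT : ((m + 2 : ℕ) : ENNReal) ≠ ⊤ := ENNReal.natCast_ne_top _
  have hninv : ((m + 2 : ℕ) : ENNReal)⁻¹ ≠ ⊤ := ENNReal.inv_ne_top.2 hnE
  have hninv0 : ((m + 2 : ℕ) : ENNReal)⁻¹ ≠ 0 := ENNReal.inv_ne_zero.2 hnT
  set μ₁ : Measure (Sph (m + 2)) := ((m + 2 : ℕ) : ENNReal)⁻¹ • MM q h with hμ₁
  set μ₂ : Measure (Sph (m + 2)) := ((m + 2 : ℕ) : ENNReal)⁻¹ • Q with hμ₂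
  have hfin : ∀ μ : Measure (Sph (m + 2)), IsFiniteMeasure μ →
      IsFiniteMeasure (((m + 2 : ℕ) : ENNReal)⁻¹ • μ) := fun μ hμ =>
    ⟨by rw [Measure.smul_apply, smul_eq_mul]
        exact ENNReal.mul_lt_top hninv.lt_top (measure_lt_top _ _)⟩
  have hne1 : μ₁ univ ≠ 0 := by
    rw [hμ₁, Measure.smul_apply, smul_eq_mul]
    refine mul_ne_zero hninv0 ?_
    intro hz
    have : (MM q h).real univ = 0 := by rw [Measure.real, hz, ENNReal.toReal_zero]
    rw [hT] at this
    have : 0 < q * D := by positivity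
    linarith
  have hne2 : μ₂ univ ≠ 0 := by
    rw [hμ₂, Measure.smul_apply, ← htot]
    exact hne1
  have hreal : ∀ S : Set (Sph (m + 2)), μ₂.real S = ((m + 2 : ℕ) : ℝ)⁻¹ * Q.real S := by
    intro S
    rw [hμ₂, measureReal_ennreal_smul_apply, ENNReal.toReal_inv, ENNReal.toReal_natCast]
  refine ⟨μ₁, μ₂, hfin _ hfinM, hfin _ hfinQ, ?_, ?_, ?_, ?_, ?_, ?_, ?_, ?_⟩
  · intro hz; apply hne1; rw [hz]; rfl
  · intro hz; apply hne2; rw [hz]; rfl
  · intro ω hω
    rw [hμ₁, Measure.smul_apply, Measure.smul_apply, MM_even hc h0 he hω]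
  · intro ω hω
    rw [hμ₂, Measure.smul_apply, Measure.smul_apply, hQ, Cst_even arcM_even ω hω]
  · intro L
    rw [hμ₁, hμ₂, Measure.smul_apply, Measure.smul_apply]
    congr 1
    exact hsubs L
  · intro L hL
    rw [hreal, hreal, hTQ]
    have e1 : Q.real {v : Sph (m + 2) | (v : Eu (m + 2)) ∈ L} =
        ∑ i : Fin m, (if (es i.succ.succ : Eu (m + 2)) ∈ L then (b i).toReal else 0) +
      (if (es (m := m) 1 : Eu (m + 2)) ∈ L then c.toReal else 0) +
      (if (es (m := m) 0 : Eu (m + 2)) ∈ L ∧ (es (m := m) 1 : Eu (m + 2)) ∈ L then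
        d.toReal else 0) := by
      have e2 := mass_subspace hQOm hQline L
      rw [hQ1, hQd] at e2
      simp only [hQax] at e2
      have e3 : ∀ i : Fin m, (if (es i.succ.succ : Eu (m + 2)) ∈ L then b i else 0) ≠ ⊤ := by
        intro i
        split_ifs
        · exact hbf i
        · exact ENNReal.zero_ne_top
      have e4 : (if (es (m := m) 1 : Eu (m + 2)) ∈ L then c else 0) ≠ ⊤ := by
        split_ifs
        · exact hcf
        · exact ENNReal.zero_ne_top
      have e5 : (if (es (m := m) 0 : Eu (m + 2)) ∈ L ∧ (es (m := m) 1 : Eu (m + 2)) ∈ L then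
        d else 0) ≠ ⊤ := by
        split_ifs
        · exact hdf
        · exact ENNReal.zero_ne_top
      have e6 : ∑ i : Fin m, (if (es i.succ.succ : Eu (m + 2)) ∈ L then b i else 0) ≠ ⊤ :=
        (ENNReal.sum_lt_top.2 fun i _ => (e3 i).lt_top).ne
      show (Q (tr L)).toReal = _
      rw [e2, ENNReal.toReal_add (ENNReal.add_ne_top.2 ⟨e6, e4⟩) e5, ENNReal.toReal_add e6 e4,
        ENNReal.toReal_sum fun i _ => e3 i]
      congr 1
      · congr 1
        · refine Finset.sum_congr rfl fun i _ => ?_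
          split_ifs <;> simp
        · split_ifs <;> simp
      · split_ifs <;> simp
    have e7 : q * D / q = D := by field_simp
    have e8 := subspace_ineq (m := m) hq0 (b := fun i => (b i).toReal) hsum
      (by rw [e7]; exact hbs) (by rw [e7]; exact hcs) (by rw [e7]; exact hds)
      (by positivity) hL
    rw [e1]
    have hnpos : (0:ℝ) < ((m + 2 : ℕ) : ℝ)⁻¹ := by positivity
    calc ((m + 2 : ℕ) : ℝ)⁻¹ * _ < ((m + 2 : ℕ) : ℝ)⁻¹ *
          ((q - (m + 2 : ℕ) + Module.finrank ℝ L) / q * (q * D)) :=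
          mul_lt_mul_of_pos_left e8 hnpos
      _ = _ := by ring
  · refine ⟨K1 m N t, K1_body hN1 ht0, fun ω hω => ?_⟩
    rw [hK]
    refine ⟨invGauss_null hc h0 hs hω, ?_⟩
    rw [dualCurv_wulff hc h0 hs q hω, hμ₁, Measure.smul_apply, smul_eq_mul]
  · rintro ⟨K₂, hK₂, hdual⟩
    obtain ⟨h₂, hc₂, h0₂, he₂, hs₂, rfl⟩ := exists_supp_of_body hK₂
    have hMQ : ∀ ω, MeasurableSet ω → MM q h₂ ω = Q ω := by
      intro ω hω
      have e1 := hdual ω hω
      rw [dualCurv_wulff hc₂ h0₂ hs₂ q hω, hμ₂, Measure.smul_apply, smul_eq_mul] at e1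
      exact (ENNReal.mul_right_inj hninv0 hninv).1 e1
    have hMQr : ∀ ω, MeasurableSet ω → (MM q h₂).real ω = Q.real ω := by
      intro ω hω
      rw [Measure.real, Measure.real, hMQ ω hω]
    have hae₂ : ∀ᵐ u ∂(sg (m + 2)), nu h₂ u ∈ Om m := by
      have e1 := ae_of_MM_eq_zero (q := q) hc₂ h0₂ measurable_Om.compl
        (by rw [hMQ _ measurable_Om.compl]; exact hQOm)
      filter_upwards [e1] with u hu
      by_contra hcon
      exact hu hcon
    refine hna h₂ hc₂ h0₂ he₂ hs₂ hae₂ ?_ ?_ ?_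
    · intro ω hω
      have hm : MeasurableSet (ω ∩ (Pc m \ Ax 1)) :=
        hω.inter (measurable_Pc.diff (measurable_Ax _))
      rw [hMQr _ hm, hMQr _ MeasurableSet.univ, Measure.real, hQrest ω hω, ENNReal.toReal_mul]
      have e1 : d.toReal ≤ Q.real univ := by
        rw [← hQd]
        exact measureReal_mono (subset_univ _)
      have e2 : ((arcM m) (ω ∩ (Pc m \ Ax 1))).toReal ≤ (arcM m).real ω :=
        measureReal_mono inter_subset_left
      exact mul_le_mul e1 e2 ENNReal.toReal_nonneg ENNReal.toReal_nonneg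
    · intro i
      rw [hMQr _ (measurable_Ax _), hMQr _ MeasurableSet.univ, hTQ, Measure.real, hQax]
      refine (hbu i).trans (mul_le_mul_of_nonneg_right (by linarith) (by positivity))
    · rw [hMQr _ (measurable_Ax _), hMQr _ MeasurableSet.univ, hTQ, Measure.real, hQ1, ← hp]
      refine le_trans (mul_le_mul_of_nonneg_right (by linarith) (by positivity)) hce

end Main2

end Pool.Agent.Lib.MP_b0d2bf_gt
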