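import Pool.Agent.Lib.MP_b0d2bf_gt.Defs

/-!
# MP_b0d2bf_gt, project DM, module D5: a one-dimensional inequality
-/

open MeasureTheory Set Metric
open scoped ENNReal

namespace Pool.Agent.DM

noncomputable section

private lemma oneD_abs {p : ℝ} (hp : 0 < p) {b : ℝ} (hb : 0 ≤ b) :
    ∫ u in (0:ℝ)..b, |u| ^ p = b ^ (p + 1) / (p + 1) := by
  have h1 : ∫ u in (0:ℝ)..b, |u| ^ p = ∫ u in (0:ℝ)..b, u ^ p := by
    refine intervalIntegral.integral_congr fun u hu => ?_
    rw [uIcc_of_le hb] at hu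
    simp only [abs_of_nonneg hu.1]
  rw [h1, integral_rpow (Or.inl (by linarith)), Real.zero_rpow (by linarith), sub_zero]

private lemma oneD_cont {p : ℝ} (hp : 0 < p) : Continuous fun u : ℝ => |u| ^ p :=
  continuous_abs.rpow_const fun _ => Or.inr hp.le

private lemma oneD_J {p : ℝ} (hp : 0 < p) {l A D : ℝ} (hl : 0 ≤ l) (hA : 0 ≤ A) (hD : 0 ≤ D)
    (hc : 0 < A + D) :
    ∫ s in (0:ℝ)..l, |l * A - (A + D) * s| ^ p =
      ((l * A) ^ (p + 1) + (l * D) ^ (p + 1)) / ((A + D) * (p + 1)) := by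
  have h1 := intervalIntegral.integral_comp_sub_mul (a := 0) (b := l) (fun u : ℝ => |u| ^ p)
    hc.ne' (l * A)
  have h2 : IntervalIntegrable (fun u : ℝ => |u| ^ p) volume (-(l * D)) 0 :=
    (oneD_cont hp).intervalIntegrable _ _
  have h3 : IntervalIntegrable (fun u : ℝ => |u| ^ p) volume 0 (l * A) :=
    (oneD_cont hp).intervalIntegrable _ _
  have h4 := intervalIntegral.integral_add_adjacent_intervals h2 h3
  have h5 : ∫ u in (-(l * D))..0, |u| ^ p = (l * D) ^ (p + 1) / (p + 1) := by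
    have h6 := intervalIntegral.integral_comp_neg (a := 0) (b := l * D) (fun u : ℝ => |u| ^ p)
    rw [neg_zero] at h6
    rw [← h6]
    simp only [abs_neg]
    exact oneD_abs hp (by positivity)
  rw [h1]
  have e1 : l * A - (A + D) * l = -(l * D) := by ring
  have e2 : l * A - (A + D) * 0 = l * A := by ring
  rw [e1, e2, ← h4, h5, oneD_abs hp (by positivity), smul_eq_mul]
  have h7 : p + 1 ≠ 0 := by linarith
  field_simp
  ring

private lemma oneD_point {p : ℝ} (hp : 0 < p) {X Y t : ℝ} (hX : 0 ≤ X) (hY : 0 ≤ Y)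
    (ht0 : 0 ≤ t) (ht1 : t ≤ 1) (hc : 0 < X + Y) :
    ((1 - t) * X + t * Y) ^ p + (t * X + (1 - t) * Y) ^ p ≤
      2 * ((X ^ (p + 1) + Y ^ (p + 1)) / (X + Y)) := by
  set x := (1 - t) * X + t * Y with hx
  set y := t * X + (1 - t) * Y with hy
  have ht1' : 0 ≤ 1 - t := by linarith
  have hx0 : 0 ≤ x := by positivity
  have hy0 : 0 ≤ y := by positivity
  have hsum : x + y = X + Y := by rw [hx, hy]; ring
  have hxp : x ^ (p + 1) = x ^ p * x := Real.rpow_add_one' hx0 (by linarith)
  have hyp : y ^ (p + 1) = y ^ p * y := Real.rpow_add_one' hy0 (by linarith)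
  have h1 : 0 ≤ (x - y) * (x ^ p - y ^ p) := by
    rcases le_total x y with h | h
    · have := Real.rpow_le_rpow hx0 h hp.le
      exact mul_nonneg_of_nonpos_of_nonpos (by linarith) (by linarith)
    · have := Real.rpow_le_rpow hy0 h hp.le
      exact mul_nonneg (by linarith) (by linarith)
  have hconv := convexOn_rpow (p := p + 1) (by linarith)
  have h2 : x ^ (p + 1) ≤ (1 - t) * X ^ (p + 1) + t * Y ^ (p + 1) := by
    have := hconv.2 (x := X) hX (y := Y) hY ht1' ht0 (by ring)
    simpa [smul_eq_mul] using this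
  have h3 : y ^ (p + 1) ≤ t * X ^ (p + 1) + (1 - t) * Y ^ (p + 1) := by
    have := hconv.2 (x := X) hX (y := Y) hY ht0 ht1' (by ring)
    simpa [smul_eq_mul] using this
  rw [← mul_div_assoc, le_div_iff₀ hc, ← hsum]
  nlinarith [h1, h2, h3, hxp, hyp]

private lemma oneD_I {p : ℝ} (hp : 0 < p) {l A D : ℝ} (hl : 0 < l) (hA : 0 ≤ A) (hD : 0 ≤ D)
    (hc : 0 < A + D) :
    ∫ s in (0:ℝ)..l, ((l - s) * A + s * D) ^ p ≤
      ((l * A) ^ (p + 1) + (l * D) ^ (p + 1)) / (A + D) := by
  have hcont : Continuous fun s : ℝ => ((l - s) * A + s * D) ^ p :=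
    Continuous.rpow_const (by fun_prop) fun _ => Or.inr hp.le
  have hcont' : Continuous fun s : ℝ => (s * A + (l - s) * D) ^ p :=
    Continuous.rpow_const (by fun_prop) fun _ => Or.inr hp.le
  have h1 : ∫ s in (0:ℝ)..l, (s * A + (l - s) * D) ^ p =
      ∫ s in (0:ℝ)..l, ((l - s) * A + s * D) ^ p := by
    have h2 := intervalIntegral.integral_comp_sub_left (a := 0) (b := l)
      (fun s : ℝ => ((l - s) * A + s * D) ^ p) l
    rw [sub_self, sub_zero] at h2
    rw [← h2]
    refine intervalIntegral.integral_congr fun s _ => ?_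
    simp only [sub_sub_cancel]
  have h3 : ∫ s in (0:ℝ)..l, (((l - s) * A + s * D) ^ p + (s * A + (l - s) * D) ^ p) ≤
      ∫ s in (0:ℝ)..l, 2 * (((l * A) ^ (p + 1) + (l * D) ^ (p + 1)) / (l * A + l * D)) := by
    refine intervalIntegral.integral_mono_on hl.le
      ((hcont.add hcont').intervalIntegrable _ _) intervalIntegrable_const fun s hs => ?_
    have h4 := oneD_point hp (X := l * A) (Y := l * D) (t := s / l) (by positivity)
      (by positivity) (div_nonneg hs.1 hl.le) ((div_le_one hl).2 hs.2)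
      (by nlinarith)
    have e1 : (1 - s / l) * (l * A) + s / l * (l * D) = (l - s) * A + s * D := by
      field_simp
    have e2 : s / l * (l * A) + (1 - s / l) * (l * D) = s * A + (l - s) * D := by
      field_simp
    rw [e1, e2] at h4
    exact h4
  rw [intervalIntegral.integral_add (hcont.intervalIntegrable _ _)
    (hcont'.intervalIntegrable _ _), h1, intervalIntegral.integral_const, smul_eq_mul,
    sub_zero] at h3
  have e3 : l * (2 * (((l * A) ^ (p + 1) + (l * D) ^ (p + 1)) / (l * A + l * D))) =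
      2 * (((l * A) ^ (p + 1) + (l * D) ^ (p + 1)) / (A + D)) := by
    have : l * A + l * D = l * (A + D) := by ring
    rw [this]
    field_simp
  rw [e3] at h3
  linarith

private lemma oneD_real {F : Type*} [NormedAddCommGroup F] [NormedSpace ℝ F] {p : ℝ} (hp : 0 < p)
    (a d d' : F) {l : ℝ} (hl : 0 < l) (h : ‖a + l • d'‖ ≤ ‖a + l • d‖) :
    ∫ s in (0:ℝ)..l, ‖a + s • d'‖ ^ p ≤ (p + 1) * ∫ s in (0:ℝ)..l, ‖a + s • d‖ ^ p := by
  set A := ‖a‖ with hAdef
  set D := ‖a + l • d‖ with hDdef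
  have hA : 0 ≤ A := norm_nonneg _
  have hD : 0 ≤ D := norm_nonneg _
  have hlp : 0 < l ^ p := Real.rpow_pos_of_pos hl p
  have hcn : ∀ e : F, Continuous fun s : ℝ => ‖a + s • e‖ ^ p := fun e =>
    Continuous.rpow_const (by fun_prop) fun _ => Or.inr hp.le
  -- upper bound for the first integrand
  have hup : ∀ s ∈ Icc (0:ℝ) l, l * ‖a + s • d'‖ ≤ (l - s) * A + s * D := by
    intro s hs
    have e : l • (a + s • d') = (l - s) • a + s • (a + l • d') := by
      simp only [smul_add, sub_smul, smul_smul]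
      rw [mul_comm s l]
      abel
    have h1 : l * ‖a + s • d'‖ = ‖l • (a + s • d')‖ := by
      rw [norm_smul, Real.norm_eq_abs, abs_of_pos hl]
    rw [h1, e]
    refine (norm_add_le _ _).trans ?_
    rw [norm_smul, norm_smul, Real.norm_eq_abs, Real.norm_eq_abs, abs_of_nonneg hs.1,
      abs_of_nonneg (by linarith [hs.2])]
    have := mul_le_mul_of_nonneg_left h hs.1
    linarith
  have hlow : ∀ s ∈ Icc (0:ℝ) l, |l * A - (A + D) * s| ≤ l * ‖a + s • d‖ := by
    intro s hs
    have e : l • (a + s • d) = (l - s) • a - -(s • (a + l • d)) := by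
      simp only [smul_add, sub_smul, smul_smul]
      rw [mul_comm s l]
      abel
    have h1 : l * ‖a + s • d‖ = ‖l • (a + s • d)‖ := by
      rw [norm_smul, Real.norm_eq_abs, abs_of_pos hl]
    rw [h1, e]
    refine le_trans (le_of_eq ?_) (abs_norm_sub_norm_le _ _)
    have hls : 0 ≤ l - s := by linarith [hs.2]
    rw [norm_neg, norm_smul, norm_smul, Real.norm_eq_abs, Real.norm_eq_abs, abs_of_nonneg hs.1,
      abs_of_nonneg hls, ← hAdef, ← hDdef]
    congr 1
    ring
  rcases eq_or_lt_of_le (add_nonneg hA hD) with hc | hc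
  · -- everything is zero
    have hA0 : A = 0 := by linarith
    have hD0 : D = 0 := by linarith
    have h1 : ∫ s in (0:ℝ)..l, ‖a + s • d'‖ ^ p = 0 := by
      have h2 : ∫ s in (0:ℝ)..l, ‖a + s • d'‖ ^ p = ∫ _s in (0:ℝ)..l, (0:ℝ) := by
        refine intervalIntegral.integral_congr fun s hs => ?_
        rw [uIcc_of_le hl.le] at hs
        have h3 := hup s hs
        rw [hA0, hD0, mul_zero, mul_zero, add_zero] at h3
        have h4 : ‖a + s • d'‖ = 0 := by
          have h5 := norm_nonneg (a + s • d')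
          nlinarith
        simp only [h4]
        exact Real.zero_rpow hp.ne'
      rw [h2, intervalIntegral.integral_zero]
    rw [h1]
    have h2 : 0 ≤ ∫ s in (0:ℝ)..l, ‖a + s • d‖ ^ p :=
      intervalIntegral.integral_nonneg hl.le fun s _ => Real.rpow_nonneg (norm_nonneg _) _
    have h3 : 0 < p + 1 := by linarith
    positivity
  · have hI := oneD_I hp hl hA hD hc
    have hJ := oneD_J hp hl.le hA hD hc
    have hcontf : Continuous fun s : ℝ => ((l - s) * A + s * D) ^ p :=
      Continuous.rpow_const (by fun_prop) fun _ => Or.inr hp.le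
    have hcontg : Continuous fun s : ℝ => |l * A - (A + D) * s| ^ p :=
      Continuous.rpow_const (by fun_prop) fun _ => Or.inr hp.le
    have h1 : l ^ p * ∫ s in (0:ℝ)..l, ‖a + s • d'‖ ^ p ≤
        ∫ s in (0:ℝ)..l, ((l - s) * A + s * D) ^ p := by
      rw [← intervalIntegral.integral_const_mul]
      refine intervalIntegral.integral_mono_on hl.le
        (((hcn d').const_mul _).intervalIntegrable _ _) (hcontf.intervalIntegrable _ _)
        fun s hs => ?_
      rw [← Real.mul_rpow hl.le (norm_nonneg _)]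
      exact Real.rpow_le_rpow (by positivity) (hup s hs) hp.le
    have h2 : ∫ s in (0:ℝ)..l, |l * A - (A + D) * s| ^ p ≤
        l ^ p * ∫ s in (0:ℝ)..l, ‖a + s • d‖ ^ p := by
      rw [← intervalIntegral.integral_const_mul]
      refine intervalIntegral.integral_mono_on hl.le (hcontg.intervalIntegrable _ _)
        (((hcn d).const_mul _).intervalIntegrable _ _) fun s hs => ?_
      rw [← Real.mul_rpow hl.le (norm_nonneg _)]
      exact Real.rpow_le_rpow (abs_nonneg _) (hlow s hs) hp.le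
    have h3 : ((l * A) ^ (p + 1) + (l * D) ^ (p + 1)) / (A + D) =
        (p + 1) * ∫ s in (0:ℝ)..l, |l * A - (A + D) * s| ^ p := by
      rw [hJ]
      have : p + 1 ≠ 0 := by linarith
      field_simp
    have h4 : l ^ p * ∫ s in (0:ℝ)..l, ‖a + s • d'‖ ^ p ≤
        l ^ p * ((p + 1) * ∫ s in (0:ℝ)..l, ‖a + s • d‖ ^ p) := by
      have h5 := mul_le_mul_of_nonneg_left h2 (by linarith : (0:ℝ) ≤ p + 1)
      calc l ^ p * ∫ s in (0:ℝ)..l, ‖a + s • d'‖ ^ p
          ≤ (p + 1) * ∫ s in (0:ℝ)..l, |l * A - (A + D) * s| ^ p := by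
            rw [← h3]
            exact h1.trans hI
        _ ≤ (p + 1) * (l ^ p * ∫ s in (0:ℝ)..l, ‖a + s • d‖ ^ p) := h5
        _ = _ := by ring
    exact le_of_mul_le_mul_left h4 hlp

/-- D5 -/
theorem oneD {F : Type*} [NormedAddCommGroup F] [NormedSpace ℝ F] {p : ℝ} (hp : 0 < p)
    (a d d' : F) {l : ℝ} (hl : 0 ≤ l) (h : ‖a + l • d'‖ ≤ ‖a + l • d‖) :
    ∫⁻ s in Icc 0 l, ENNReal.ofReal (‖a + s • d'‖ ^ p) ≤
      ENNReal.ofReal (p + 1) * ∫⁻ s in Icc 0 l, ENNReal.ofReal (‖a + s • d‖ ^ p) := by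
  rcases eq_or_lt_of_le hl with h0 | hl
  · subst h0
    have : ∫⁻ s in Icc (0:ℝ) 0, ENNReal.ofReal (‖a + s • d'‖ ^ p) = 0 := by
      rw [Icc_self]
      exact setLIntegral_measure_zero _ _ (by simp)
    rw [this]
    exact zero_le
  · have key : ∀ e : F, ∫⁻ s in Icc 0 l, ENNReal.ofReal (‖a + s • e‖ ^ p) =
        ENNReal.ofReal (∫ s in (0:ℝ)..l, ‖a + s • e‖ ^ p) := by
      intro e
      have hc : Continuous fun s : ℝ => ‖a + s • e‖ ^ p :=
        Continuous.rpow_const (by fun_prop) fun _ => Or.inr hp.le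
      rw [intervalIntegral.integral_of_le hl.le, ← integral_Icc_eq_integral_Ioc]
      refine (ofReal_integral_eq_lintegral_ofReal ?_ ?_).symm
      · exact hc.continuousOn.integrableOn_compact isCompact_Icc
      · exact Filter.Eventually.of_forall fun s => Real.rpow_nonneg (norm_nonneg _) _
    rw [key, key, ← ENNReal.ofReal_mul (by linarith)]
    exact ENNReal.ofReal_le_ofReal (oneD_real hp a d d' hl h)

end

end Pool.Agent.DM
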