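import Mathlib

set_option autoImplicit false

/-!
A parity argument for labellings of the cubical grid of `[0, 1] × [-1, 1] ^ m`, with antipodal
symmetry on the sides.
-/

namespace Pool.Agent.Lib.MP_b0d2bf_gt.Par

/-- Full flags of faces of the cubical grid with `M ^ (m + 1)` cubes: a cube, an order of the
coordinates, and a corner of the cube. -/
abbrev Fl (m M : ℕ) : Type :=
  (Fin (m + 1) → Fin M) × Equiv.Perm (Fin (m + 1)) × (Fin (m + 1) → Bool)

/-- The doubled coordinate of a corner. -/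
def cor (b : ℕ) (e : Bool) : ℕ := 2 * b + (if e then 2 else 0)

/-- The centre of the face of dimension `k` of the flag, in doubled coordinates. -/
def pt {m M : ℕ} (F : Fl m M) (k : ℕ) (i : Fin (m + 1)) : ℕ :=
  if ((F.2.1.symm i : Fin (m + 1)) : ℕ) < k then 2 * (F.1 i : ℕ) + 1 else cor (F.1 i) (F.2.2 i)

/-- All positive labels occur on the flag without its face of dimension `i`. -/
def good {m M : ℕ} (L : (Fin (m + 1) → ℕ) → ℕ) (F : Fl m M) (i : ℕ) : Prop :=
  ∀ l, 1 ≤ l → l ≤ m + 1 → ∃ k, k ≤ m + 1 ∧ k ≠ i ∧ L (pt F k) = l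

variable {m M : ℕ}

theorem good_of {L : (Fin (m + 1) → ℕ) → ℕ} {F F' : Fl m M} {i : ℕ}
    (h : ∀ k, k ≤ m + 1 → k ≠ i → L (pt F' k) = L (pt F k)) (hF : good L F i) : good L F' i := by
  intro l h1 h2
  obtain ⟨k, h3, h4, h5⟩ := hF l h1 h2
  exact ⟨k, h3, h4, by rw [h k h3 h4, h5]⟩

theorem inv_sum {α : Type*} [Fintype α] (P : α → Prop) [DecidablePred P] (ν : α → α)
    (h1 : ∀ x, P x → P (ν x)) (h2 : ∀ x, P x → ν (ν x) = x) (h3 : ∀ x, P x → ν x ≠ x) :
    ∑ x : α, (if P x then (1 : ZMod 2) else 0) = 0 := by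
  rw [← Finset.sum_filter]
  refine Finset.sum_involution (fun x _ => ν x) ?_ ?_ ?_ ?_
  · intro x _
    exact (by decide : (1 : ZMod 2) + 1 = 0)
  · intro x hx _
    exact h3 x (Finset.mem_filter.1 hx).2
  · intro x hx
    exact Finset.mem_filter.2 ⟨Finset.mem_univ _, h1 x (Finset.mem_filter.1 hx).2⟩
  · intro x hx
    exact h2 x (Finset.mem_filter.1 hx).2

open Classical in
/-- The number of doors of a room without all labels is even. -/
theorem door (m : ℕ) (g : ℕ → ℕ) (hg : ∀ k, k ≤ m + 1 → g k ≤ m + 1)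
    (hc : ¬ ∀ l, l ≤ m + 1 → ∃ k, k ≤ m + 1 ∧ g k = l) :
    ∑ i ∈ Finset.range (m + 2), (if (∀ l, 1 ≤ l → l ≤ m + 1 →
      ∃ k, k ≤ m + 1 ∧ k ≠ i ∧ g k = l) then (1 : ZMod 2) else 0) = 0 := by
  by_cases h : ∀ l, 1 ≤ l → l ≤ m + 1 → ∃ k, k ≤ m + 1 ∧ g k = l
  · have h0 : ∀ k, k ≤ m + 1 → g k ≠ 0 := by
      intro k hk h0
      apply hc
      intro l hl
      rcases Nat.eq_zero_or_pos l with rfl | h1
      · exact ⟨k, hk, h0⟩
      · exact h l h1 hl
    obtain ⟨a, ha, b, hb, hab, hgab⟩ := Finset.exists_ne_map_eq_of_card_lt_of_maps_to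
      (s := Finset.range (m + 2)) (t := Finset.Icc 1 (m + 1)) (f := g)
      (by rw [Nat.card_Icc, Finset.card_range]; omega) (by
        intro k hk
        have hk' : k < m + 2 := by simpa using hk
        have h5 := h0 k (by omega)
        have h6 := hg k (by omega)
        have h7 : g k ∈ Finset.Icc 1 (m + 1) := Finset.mem_Icc.2 (by omega)
        exact h7)
    rw [Finset.mem_range] at ha hb
    have hiff : ∀ i ∈ Finset.range (m + 2), ((∀ l, 1 ≤ l → l ≤ m + 1 →
        ∃ k, k ≤ m + 1 ∧ k ≠ i ∧ g k = l) ↔ (i = a ∨ i = b)) := by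
      intro i hi
      rw [Finset.mem_range] at hi
      constructor
      · intro hgood
        by_contra hn
        push Not at hn
        have hinj : Set.InjOn g ((Finset.range (m + 2)).erase i : Finset ℕ) := by
          refine Finset.injOn_of_surjOn_of_card_le (t := Finset.Icc 1 (m + 1)) g ?_ ?_ ?_
          · intro k hk
            rw [Finset.mem_coe, Finset.mem_erase, Finset.mem_range] at hk
            have h5 := h0 k (by omega)
            have h6 := hg k (by omega)
            have h7 : g k ∈ Finset.Icc 1 (m + 1) := Finset.mem_Icc.2 (by omega)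
            exact h7
          · intro l hl
            rw [Finset.mem_coe, Finset.mem_Icc] at hl
            obtain ⟨k, hk1, hk2, hk3⟩ := hgood l hl.1 hl.2
            exact ⟨k, by
              rw [Finset.mem_coe, Finset.mem_erase, Finset.mem_range]
              exact ⟨hk2, by omega⟩, hk3⟩
          · rw [Finset.card_erase_of_mem (Finset.mem_range.2 hi), Finset.card_range, Nat.card_Icc]
        exact hab (hinj (by
            rw [Finset.mem_coe, Finset.mem_erase, Finset.mem_range]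
            exact ⟨Ne.symm hn.1, ha⟩) (by
            rw [Finset.mem_coe, Finset.mem_erase, Finset.mem_range]
            exact ⟨Ne.symm hn.2, hb⟩) hgab)
      · rintro (rfl | rfl) l h1 h2
        · obtain ⟨k, hk, hkl⟩ := h l h1 h2
          by_cases hki : k = i
          · exact ⟨b, by omega, Ne.symm hab, by rw [← hgab, ← hki, hkl]⟩
          · exact ⟨k, hk, hki, hkl⟩
        · obtain ⟨k, hk, hkl⟩ := h l h1 h2
          by_cases hki : k = i
          · exact ⟨a, by omega, hab, by rw [hgab, ← hki, hkl]⟩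
          · exact ⟨k, hk, hki, hkl⟩
    have hsum : ∑ i ∈ Finset.range (m + 2), (if (∀ l, 1 ≤ l → l ≤ m + 1 →
        ∃ k, k ≤ m + 1 ∧ k ≠ i ∧ g k = l) then (1 : ZMod 2) else 0) =
        ∑ i ∈ Finset.range (m + 2), (if (i = a ∨ i = b) then (1 : ZMod 2) else 0) :=
      Finset.sum_congr rfl fun i hi => by
        by_cases h8 : i = a ∨ i = b
        · rw [if_pos h8, if_pos ((hiff i hi).2 h8)]
        · rw [if_neg h8, if_neg fun h9 => h8 ((hiff i hi).1 h9)]
    rw [hsum, ← Finset.sum_filter]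
    have hfil : (Finset.range (m + 2)).filter (fun i => i = a ∨ i = b) = {a, b} := by
      ext i
      rw [Finset.mem_filter, Finset.mem_range, Finset.mem_insert, Finset.mem_singleton]
      constructor
      · exact fun h => h.2
      · rintro (rfl | rfl)
        · exact ⟨ha, Or.inl rfl⟩
        · exact ⟨hb, Or.inr rfl⟩
    rw [hfil, Finset.sum_pair hab]
    decide
  · refine Finset.sum_eq_zero fun i _ => if_neg fun hgood => h fun l h1 h2 => ?_
    obtain ⟨k, hk, _, hkl⟩ := hgood l h1 h2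
    exact ⟨k, hk, hkl⟩

/-! ### The neighbours of a flag -/

/-- change of the vertex -/
def nu0 (F : Fl m M) : Fl m M :=
  (F.1, F.2.1, Function.update F.2.2 (F.2.1 0) (!F.2.2 (F.2.1 0)))

theorem pt_nu0 (F : Fl m M) {k : ℕ} (hk : k ≠ 0) : pt (nu0 F) k = pt F k := by
  funext i
  unfold pt nu0
  simp only
  split_ifs with h
  · rfl
  · have : i ≠ F.2.1 0 := by
      rintro rfl
      rw [Equiv.symm_apply_apply] at h
      exact h (Nat.pos_of_ne_zero hk)
    rw [Function.update_of_ne this]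

theorem nu0_nu0 (F : Fl m M) : nu0 (nu0 F) = F := by
  unfold nu0
  simp

theorem nu0_ne (F : Fl m M) : nu0 F ≠ F := by
  intro h
  have h1 : Function.update F.2.2 (F.2.1 0) (!F.2.2 (F.2.1 0)) = F.2.2 :=
    congrArg (fun G : Fl m M => G.2.2) h
  have h2 := congrFun h1 (F.2.1 0)
  rw [Function.update_self] at h2
  cases h3 : F.2.2 (F.2.1 0) <;> rw [h3] at h2 <;> exact absurd h2 (by decide)

/-- change of the face of dimension `i + 1` -/
def nuI (i : ℕ) (hi : i + 1 < m + 1) (F : Fl m M) : Fl m M :=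
  (F.1, F.2.1 * Equiv.swap ⟨i, by omega⟩ ⟨i + 1, hi⟩, F.2.2)

theorem swap_lt {N : ℕ} {i k : ℕ} (hi : i + 1 < N) (hk : k ≠ i + 1) (t : Fin N) :
    ((Equiv.swap (⟨i, by omega⟩ : Fin N) ⟨i + 1, hi⟩ t : Fin N) : ℕ) < k ↔ (t : ℕ) < k := by
  by_cases h1 : t = ⟨i, by omega⟩
  · rw [h1, Equiv.swap_apply_left]
    simp only
    omega
  · by_cases h2 : t = ⟨i + 1, hi⟩
    · rw [h2, Equiv.swap_apply_right]
      simp only
      omega
    · rw [Equiv.swap_apply_of_ne_of_ne h1 h2]

theorem pt_nuI {i : ℕ} (hi : i + 1 < m + 1) (F : Fl m M) {k : ℕ} (hk : k ≠ i + 1) :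
    pt (nuI i hi F) k = pt F k := by
  funext j
  unfold pt nuI
  simp only
  have h1 : ((F.2.1 * Equiv.swap (⟨i, by omega⟩ : Fin (m + 1)) ⟨i + 1, hi⟩ :
      Equiv.Perm (Fin (m + 1))).symm j) =
      Equiv.swap (⟨i, by omega⟩ : Fin (m + 1)) ⟨i + 1, hi⟩ (F.2.1.symm j) := by
    rw [Equiv.Perm.mul_def, Equiv.symm_trans_apply, Equiv.symm_swap]
  rw [h1, if_congr (swap_lt hi hk (F.2.1.symm j)) rfl rfl]

theorem nuI_nuI {i : ℕ} (hi : i + 1 < m + 1) (F : Fl m M) : nuI i hi (nuI i hi F) = F := by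
  unfold nuI
  simp only
  rw [mul_assoc, Equiv.swap_mul_self, mul_one]

theorem nuI_ne {i : ℕ} (hi : i + 1 < m + 1) (F : Fl m M) : nuI i hi F ≠ F := by
  intro h
  have h1 : F.2.1 * Equiv.swap (⟨i, by omega⟩ : Fin (m + 1)) ⟨i + 1, hi⟩ = F.2.1 :=
    congrArg (fun G : Fl m M => G.2.1) h
  have h2 : Equiv.swap (⟨i, by omega⟩ : Fin (m + 1)) ⟨i + 1, hi⟩ = 1 := mul_eq_left.1 h1
  have h3 := congrArg (fun e : Equiv.Perm (Fin (m + 1)) => e ⟨i, by omega⟩) h2
  simp only [Equiv.swap_apply_left, Equiv.Perm.coe_one, id_eq, Fin.mk.injEq] at h3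
  omega

/-- the last coordinate of the flag -/
def lc (F : Fl m M) : Fin (m + 1) := F.2.1 (Fin.last m)

/-- the facet of the flag is on the boundary -/
def bdry (F : Fl m M) : Prop :=
  (F.2.2 (lc F) = true ∧ (F.1 (lc F) : ℕ) + 1 = M) ∨ (F.2.2 (lc F) = false ∧ (F.1 (lc F) : ℕ) = 0)

/-- the neighbouring cube index -/
def sh (b : Fin M) (e : Bool) : Fin M :=
  if e then (if h : (b : ℕ) + 1 < M then ⟨b + 1, h⟩ else b) else ⟨b - 1, by omega⟩

/-- change of the cube -/
def nuN (F : Fl m M) : Fl m M :=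
  (Function.update F.1 (lc F) (sh (F.1 (lc F)) (F.2.2 (lc F))), F.2.1,
    Function.update F.2.2 (lc F) (!F.2.2 (lc F)))

theorem lc_nuN (F : Fl m M) : lc (nuN F) = lc F := rfl

theorem sh_spec {b : Fin M} {e : Bool}
    (h : ¬ ((e = true ∧ (b : ℕ) + 1 = M) ∨ (e = false ∧ (b : ℕ) = 0))) :
    cor (sh b e) (!e) = cor b e ∧ sh (sh b e) (!e) = b ∧
      ¬ (((!e) = true ∧ (sh b e : ℕ) + 1 = M) ∨ ((!e) = false ∧ (sh b e : ℕ) = 0)) := by
  have hb := b.2
  cases e with
  | true =>
    have h1 : (b : ℕ) + 1 < M := by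
      by_contra hn
      exact h (Or.inl ⟨rfl, by omega⟩)
    have h2 : sh b true = ⟨b + 1, h1⟩ := by
      unfold sh
      rw [if_pos rfl, dif_pos h1]
    rw [h2]
    refine ⟨?_, ?_, ?_⟩
    · unfold cor
      simp
      omega
    · unfold sh
      simp
    · simp
  | false =>
    have h1 : (b : ℕ) ≠ 0 := by
      intro hn
      exact h (Or.inr ⟨rfl, hn⟩)
    have h2 : sh b false = ⟨b - 1, by omega⟩ := by
      unfold sh
      simp
    rw [h2]
    refine ⟨?_, ?_, ?_⟩
    · unfold cor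
      simp
      omega
    · have h3 : (b : ℕ) - 1 + 1 < M := by omega
      unfold sh
      simp only [Bool.not_false, if_true]
      rw [dif_pos h3]
      apply Fin.ext
      simp only
      omega
    · simp
      omega

theorem pt_nuN {F : Fl m M} (hF : ¬ bdry F) {k : ℕ} (hk : k ≤ m) : pt (nuN F) k = pt F k := by
  funext i
  unfold pt
  show (if ((F.2.1.symm i : Fin (m + 1)) : ℕ) < k then 2 * ((nuN F).1 i : ℕ) + 1 else
    cor ((nuN F).1 i) ((nuN F).2.2 i)) = _
  by_cases h : i = lc F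
  · have h1 : ¬ ((F.2.1.symm i : Fin (m + 1)) : ℕ) < k := by
      rw [h]
      unfold lc
      rw [Equiv.symm_apply_apply, Fin.val_last]
      omega
    rw [if_neg h1, if_neg h1, h]
    unfold nuN
    simp only [Function.update_self]
    exact (sh_spec hF).1
  · unfold nuN
    simp only [Function.update_of_ne h]

theorem nuN_nuN {F : Fl m M} (hF : ¬ bdry F) : nuN (nuN F) = F := by
  have h1 : lc (nuN F) = lc F := rfl
  have h2 := sh_spec hF
  refine Prod.ext ?_ (Prod.ext rfl ?_)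
  · show Function.update (nuN F).1 (lc (nuN F)) (sh ((nuN F).1 (lc (nuN F)))
      ((nuN F).2.2 (lc (nuN F)))) = F.1
    rw [h1]
    have h3 : (nuN F).1 = Function.update F.1 (lc F) (sh (F.1 (lc F)) (F.2.2 (lc F))) := rfl
    have h4 : (nuN F).2.2 = Function.update F.2.2 (lc F) (!F.2.2 (lc F)) := rfl
    rw [h3, h4, Function.update_self, Function.update_self, h2.2.1, Function.update_idem,
      Function.update_eq_self]
  · show Function.update (nuN F).2.2 (lc (nuN F)) (!(nuN F).2.2 (lc (nuN F))) = F.2.2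
    rw [h1]
    have h4 : (nuN F).2.2 = Function.update F.2.2 (lc F) (!F.2.2 (lc F)) := rfl
    rw [h4, Function.update_self, Bool.not_not, Function.update_idem, Function.update_eq_self]

theorem nuN_ne (F : Fl m M) : nuN F ≠ F := by
  intro h
  have h1 : Function.update F.2.2 (lc F) (!F.2.2 (lc F)) = F.2.2 :=
    congrArg (fun G : Fl m M => G.2.2) h
  have h2 := congrFun h1 (lc F)
  rw [Function.update_self] at h2
  cases h3 : F.2.2 (lc F) <;> rw [h3] at h2 <;> exact absurd h2 (by decide)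

theorem nuN_bdry {F : Fl m M} (hF : ¬ bdry F) : ¬ bdry (nuN F) := by
  have h2 := (sh_spec hF).2.2
  unfold bdry
  have h3 : (nuN F).1 = Function.update F.1 (lc F) (sh (F.1 (lc F)) (F.2.2 (lc F))) := rfl
  have h4 : (nuN F).2.2 = Function.update F.2.2 (lc F) (!F.2.2 (lc F)) := rfl
  rw [lc_nuN, h3, h4, Function.update_self, Function.update_self]
  exact h2

/-- the reflected flag -/
def mir (F : Fl m M) : Fl m M :=
  (fun i => if i = 0 then F.1 i else Fin.rev (F.1 i), F.2.1,
    fun i => if i = 0 then F.2.2 i else !F.2.2 i)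

/-- the reflected point -/
def mirp (M : ℕ) (y : Fin (m + 1) → ℕ) : Fin (m + 1) → ℕ :=
  fun i => if i = 0 then y i else 2 * M - y i

theorem pt_mir (F : Fl m M) (k : ℕ) : pt (mir F) k = mirp M (pt F k) := by
  funext i
  unfold pt mirp
  show (if ((F.2.1.symm i : Fin (m + 1)) : ℕ) < k then 2 * ((mir F).1 i : ℕ) + 1 else
    cor ((mir F).1 i) ((mir F).2.2 i)) = _
  unfold mir
  simp only
  have hb := (F.1 i).2
  by_cases h : i = 0
  · rw [if_pos h, if_pos h, if_pos h]
  · rw [if_neg h, if_neg h, if_neg h, Fin.val_rev]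
    split_ifs with h1
    · omega
    · unfold cor
      cases F.2.2 i <;> simp <;> omega

theorem mir_mir (F : Fl m M) : mir (mir F) = F := by
  unfold mir
  refine Prod.ext ?_ (Prod.ext rfl ?_)
  · funext i
    simp only
    split_ifs with h
    · rfl
    · rw [Fin.rev_rev]
  · funext i
    simp only
    split_ifs with h
    · rfl
    · rw [Bool.not_not]

theorem mir_ne {F : Fl m M} (h : lc F ≠ 0) : mir F ≠ F := by
  intro he
  have h1 : (fun i => if i = 0 then F.2.2 i else !F.2.2 i) = F.2.2 :=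
    congrArg (fun G : Fl m M => G.2.2) he
  have h2 := congrFun h1 (lc F)
  simp only [if_neg h] at h2
  cases h3 : F.2.2 (lc F) <;> rw [h3] at h2 <;> exact absurd h2 (by decide)

theorem mir_bdry {F : Fl m M} (h : lc F ≠ 0) (hF : bdry F) : bdry (mir F) := by
  have h1 : lc (mir F) = lc F := rfl
  have hb := (F.1 (lc F)).2
  unfold bdry at hF ⊢
  rw [h1]
  have h2 : (mir F).1 (lc F) = Fin.rev (F.1 (lc F)) := if_neg h
  have h3 : (mir F).2.2 (lc F) = !F.2.2 (lc F) := if_neg h
  rw [h2, h3, Fin.val_rev]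
  rcases hF with ⟨h4, h5⟩ | ⟨h4, h5⟩
  · right
    rw [h4]
    exact ⟨rfl, by omega⟩
  · left
    rw [h4]
    exact ⟨rfl, by omega⟩

/-- a flag with boundary facet: the last coordinate is extreme -/
theorem pt_bdry {F : Fl m M} (hF : bdry F) {k : ℕ} (hk : k ≤ m) :
    pt F k (lc F) = 0 ∨ pt F k (lc F) = 2 * M := by
  have h1 : ¬ ((F.2.1.symm (lc F) : Fin (m + 1)) : ℕ) < k := by
    unfold lc
    rw [Equiv.symm_apply_apply, Fin.val_last]
    omega
  unfold pt
  rw [if_neg h1]
  unfold cor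
  rcases hF with ⟨h4, h5⟩ | ⟨h4, h5⟩
  · right
    rw [h4, if_pos rfl]
    omega
  · left
    rw [h4, h5]
    rfl

/-! ### The parity of the number of doors on the boundary -/

open Classical in
theorem sum_last (L : (Fin (m + 1) → ℕ) → ℕ) (hL : ∀ y, L y ≤ m + 1)
    (hc : ∀ F : Fl m M, ¬ ∀ l, l ≤ m + 1 → ∃ k, k ≤ m + 1 ∧ L (pt F k) = l) :
    ∑ F : Fl m M, (if good L F (m + 1) then (1 : ZMod 2) else 0) = 0 := by
  have h1 : ∑ F : Fl m M, ∑ i ∈ Finset.range (m + 2),
      (if good L F i then (1 : ZMod 2) else 0) = 0 :=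
    Finset.sum_eq_zero fun F _ => door m (fun k => L (pt F k)) (fun k _ => hL _) (hc F)
  rw [Finset.sum_comm, Finset.sum_range_succ] at h1
  have h2 : ∑ i ∈ Finset.range (m + 1), ∑ F : Fl m M,
      (if good L F i then (1 : ZMod 2) else 0) = 0 := by
    refine Finset.sum_eq_zero fun i hi => ?_
    rw [Finset.mem_range] at hi
    obtain _ | i := i
    · exact inv_sum _ nu0 (fun F hF => good_of (fun k _ hk => by rw [pt_nu0 F hk]) hF)
        (fun F _ => nu0_nu0 F) (fun F _ => nu0_ne F)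
    · exact inv_sum _ (nuI i hi) (fun F hF => good_of (fun k _ hk => by rw [pt_nuI hi F hk]) hF)
        (fun F _ => nuI_nuI hi F) (fun F _ => nuI_ne hi F)
  rwa [h2, zero_add] at h1

open Classical in
theorem sum_bdry (L : (Fin (m + 1) → ℕ) → ℕ) (hL : ∀ y, L y ≤ m + 1)
    (hc : ∀ F : Fl m M, ¬ ∀ l, l ≤ m + 1 → ∃ k, k ≤ m + 1 ∧ L (pt F k) = l) :
    ∑ F : Fl m M, (if good L F (m + 1) ∧ bdry F then (1 : ZMod 2) else 0) = 0 := by
  have h1 := sum_last (M := M) L hL hc
  have h2 : ∑ F : Fl m M, (if good L F (m + 1) ∧ ¬ bdry F then (1 : ZMod 2) else 0) = 0 :=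
    inv_sum _ nuN (fun F hF => ⟨good_of (fun k hk1 hk2 => by
      rw [pt_nuN hF.2 (by omega)]) hF.1, nuN_bdry hF.2⟩) (fun F hF => nuN_nuN hF.2)
      (fun F _ => nuN_ne F)
  have h3 : ∀ F : Fl m M, (if good L F (m + 1) ∧ bdry F then (1 : ZMod 2) else 0) =
      (if good L F (m + 1) then (1 : ZMod 2) else 0) +
      (if good L F (m + 1) ∧ ¬ bdry F then (1 : ZMod 2) else 0) := by
    intro F
    by_cases h4 : good L F (m + 1)
    · by_cases h5 : bdry F
      · rw [if_pos ⟨h4, h5⟩, if_pos h4, if_neg (fun h => h.2 h5)]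
        decide
      · rw [if_neg (fun h => h5 h.2), if_pos h4, if_pos ⟨h4, h5⟩]
        decide
    · rw [if_neg (fun h => h4 h.1), if_neg h4, if_neg (fun h => h4 h.1)]
      decide
  rw [Finset.sum_congr rfl (fun F _ => h3 F), Finset.sum_add_distrib, h1, h2, add_zero]

open Classical in
theorem sum_bot (L : (Fin (m + 1) → ℕ) → ℕ) (hL : ∀ y, L y ≤ m + 1)
    (hc : ∀ F : Fl m M, ¬ ∀ l, l ≤ m + 1 → ∃ k, k ≤ m + 1 ∧ L (pt F k) = l)
    (hside : ∀ (y : Fin (m + 1) → ℕ) (j : Fin (m + 1)), j ≠ 0 → (∀ i, y i ≤ 2 * M) →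
      (y j = 0 ∨ y j = 2 * M) → L (mirp M y) = L y)
    (htop : ∀ F : Fl m M, (∀ k, k ≤ m → pt F k 0 = 2 * M) → ¬ good L F (m + 1)) :
    ∑ F : Fl m M, (if good L F (m + 1) ∧ lc F = 0 ∧ F.2.2 0 = false ∧ (F.1 0 : ℕ) = 0
      then (1 : ZMod 2) else 0) = 0 := by
  have hle : ∀ (F : Fl m M) (k : ℕ) (i : Fin (m + 1)), pt F k i ≤ 2 * M := by
    intro F k i
    have hb := (F.1 i).2
    unfold pt cor
    split_ifs <;> omega
  have h1 := sum_bdry (M := M) L hL hc
  have h2 : ∑ F : Fl m M, (if (good L F (m + 1) ∧ bdry F) ∧ lc F ≠ 0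
      then (1 : ZMod 2) else 0) = 0 := by
    refine inv_sum _ mir (fun F hF => ⟨⟨good_of (fun k hk1 hk2 => ?_) hF.1.1,
      mir_bdry hF.2 hF.1.2⟩, hF.2⟩) (fun F _ => mir_mir F) (fun F hF => mir_ne hF.2)
    rw [pt_mir]
    exact hside _ (lc F) hF.2 (hle F k) (pt_bdry hF.1.2 (by omega))
  have h3 : ∀ F : Fl m M, (if good L F (m + 1) ∧ lc F = 0 ∧ F.2.2 0 = false ∧ (F.1 0 : ℕ) = 0
      then (1 : ZMod 2) else 0) = (if good L F (m + 1) ∧ bdry F then (1 : ZMod 2) else 0) +
      (if (good L F (m + 1) ∧ bdry F) ∧ lc F ≠ 0 then (1 : ZMod 2) else 0) := by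
    intro F
    by_cases h4 : good L F (m + 1)
    · by_cases h5 : lc F = 0
      · by_cases h6 : bdry F
        · have h7 := h6
          unfold bdry at h7
          rw [h5] at h7
          rcases h7 with ⟨h8, h9⟩ | ⟨h8, h9⟩
          · exfalso
            refine htop F (fun k hk => ?_) h4
            rcases pt_bdry h6 hk with h10 | h10
            · rw [h5] at h10
              have h11 : ¬ ((F.2.1.symm 0 : Fin (m + 1)) : ℕ) < k := by
                rw [← h5]
                unfold lc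
                rw [Equiv.symm_apply_apply, Fin.val_last]
                omega
              unfold pt cor at h10
              rw [if_neg h11, h8, if_pos rfl] at h10
              omega
            · rw [h5] at h10
              exact h10
          · rw [if_pos ⟨h4, h5, h8, h9⟩, if_pos ⟨h4, h6⟩, if_neg (fun h => h.2 h5)]
            decide
        · have h7 : ¬ (F.2.2 0 = false ∧ (F.1 0 : ℕ) = 0) := by
            intro h8
            apply h6
            unfold bdry
            rw [h5]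
            exact Or.inr h8
          rw [if_neg (fun h => h7 h.2.2), if_neg (fun h => h6 h.2), if_neg (fun h => h6 h.1.2)]
          decide
      · by_cases h6 : bdry F
        · rw [if_neg (fun h => h5 h.2.1), if_pos ⟨h4, h6⟩, if_pos ⟨⟨h4, h6⟩, h5⟩]
          decide
        · rw [if_neg (fun h => h5 h.2.1), if_neg (fun h => h6 h.2), if_neg (fun h => h6 h.1.2)]
          decide
    · rw [if_neg (fun h => h4 h.1), if_neg (fun h => h4 h.1), if_neg (fun h => h4 h.1.1)]
      decide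
  rw [Finset.sum_congr rfl (fun F _ => h3 F), Finset.sum_add_distrib, h1, h2, add_zero]

end Pool.Agent.Lib.MP_b0d2bf_gt.Par
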