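import Mathlib
import Pool.Agent.Lib.MP_b0d2bf_gt.PFlag

set_option autoImplicit false

/-!
The labelling lemma for the grid of `[0, 1] × [-1, 1] ^ m` with antipodal symmetry on the sides.
-/

namespace Pool.Agent.Lib.MP_b0d2bf_gt.Par

variable {m : ℕ}

/-- the standard flag at the centre of the bottom -/
def F0 (m K : ℕ) : Fl m (2 * K + 1) :=
  (fun i => if i = 0 then ⟨0, by omega⟩ else ⟨K, by omega⟩, finRotate (m + 1), fun _ => false)

theorem rot_symm_zero (m : ℕ) : (finRotate (m + 1)).symm 0 = Fin.last m := by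
  rw [Equiv.symm_apply_eq, finRotate_last]

theorem rot_symm_succ {m : ℕ} {i : Fin (m + 1)} (hi : i ≠ 0) :
    (((finRotate (m + 1)).symm i : Fin (m + 1)) : ℕ) = i - 1 := by
  have h0 : (i : ℕ) ≠ 0 := fun h => hi (Fin.ext h)
  have hlt := i.2
  have h1 : (finRotate (m + 1)).symm i = ⟨i - 1, by omega⟩ := by
    rw [Equiv.symm_apply_eq]
    have h2 : finRotate (m + 1) ⟨(i : ℕ) - 1, by omega⟩ = ⟨(i : ℕ) - 1 + 1, by omega⟩ :=
      finRotate_of_lt (by omega)
    rw [h2]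
    apply Fin.ext
    simp only
    omega
  rw [h1]

theorem lc_F0 (m K : ℕ) : lc (F0 m K) = 0 := finRotate_last

theorem pt_F0_zero (m K : ℕ) {k : ℕ} (hk : k ≤ m) : pt (F0 m K) k 0 = 0 := by
  unfold pt
  have h1 : ¬ (((F0 m K).2.1.symm 0 : Fin (m + 1)) : ℕ) < k := by
    show ¬ (((finRotate (m + 1)).symm 0 : Fin (m + 1)) : ℕ) < k
    rw [rot_symm_zero, Fin.val_last]
    omega
  rw [if_neg h1]
  rfl

theorem pt_F0 (m K : ℕ) {k : ℕ} {i : Fin (m + 1)} (hi : i ≠ 0) :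
    pt (F0 m K) k i = if (i : ℕ) ≤ k then 2 * K + 1 else 2 * K := by
  have h0 : (i : ℕ) ≠ 0 := fun h => hi (Fin.ext h)
  unfold pt
  have h1 : (((F0 m K).2.1.symm i : Fin (m + 1)) : ℕ) = i - 1 := rot_symm_succ hi
  have h2 : (F0 m K).1 i = ⟨K, by omega⟩ := if_neg hi
  have h3 : (F0 m K).2.2 i = false := rfl
  rw [h1, h2, h3]
  unfold cor
  by_cases h4 : (i : ℕ) ≤ k
  · rw [if_pos h4, if_pos (by omega)]
  · rw [if_neg h4, if_neg (by omega)]
    simp

variable {K : ℕ} {L : (Fin (m + 1) → ℕ) → ℕ}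

theorem good_F0 (hL : ∀ y, L y ≤ m + 1)
    (hb1 : ∀ y : Fin (m + 1) → ℕ, y 0 = 0 → L y ≠ 0 →
      (∀ i : Fin (m + 1), i ≠ 0 → (i : ℕ) < L y → 2 * K + 1 ≤ y i) ∧
      ∀ i : Fin (m + 1), (i : ℕ) = L y → y i < 2 * K + 1)
    (hb2 : ∀ y : Fin (m + 1) → ℕ, y 0 = 0 → (∀ i, i ≠ 0 → 2 * K ≤ y i ∧ y i ≤ 2 * K + 1) →
      L y ≠ 0) : good L (F0 m K) (m + 1) := by
  intro l h1 h2
  refine ⟨l - 1, by omega, by omega, ?_⟩
  have hy0 : pt (F0 m K) (l - 1) 0 = 0 := pt_F0_zero m K (by omega)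
  have hn : L (pt (F0 m K) (l - 1)) ≠ 0 := by
    refine hb2 _ hy0 fun i hi => ?_
    rw [pt_F0 m K hi]
    split_ifs <;> omega
  obtain ⟨h3, h4⟩ := hb1 _ hy0 hn
  have h5 := hL (pt (F0 m K) (l - 1))
  rcases lt_trichotomy (L (pt (F0 m K) (l - 1))) l with h6 | h6 | h6
  · exfalso
    have hi : (⟨L (pt (F0 m K) (l - 1)), by omega⟩ : Fin (m + 1)) ≠ 0 := by
      intro h
      exact hn (congrArg Fin.val h)
    have h7 := h4 ⟨L (pt (F0 m K) (l - 1)), by omega⟩ rfl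
    rw [pt_F0 m K hi, if_pos (by simp only; omega)] at h7
    omega
  · exact h6
  · exfalso
    have hi : (⟨l, by omega⟩ : Fin (m + 1)) ≠ 0 := by
      intro h
      have := congrArg Fin.val h
      simp only [Fin.val_zero] at this
      omega
    have h7 := h3 ⟨l, by omega⟩ hi h6
    rw [pt_F0 m K hi, if_neg (by simp only; omega)] at h7
    omega

theorem eq_F0 (hb1 : ∀ y : Fin (m + 1) → ℕ, y 0 = 0 → L y ≠ 0 →
      (∀ i : Fin (m + 1), i ≠ 0 → (i : ℕ) < L y → 2 * K + 1 ≤ y i) ∧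
      ∀ i : Fin (m + 1), (i : ℕ) = L y → y i < 2 * K + 1) {F : Fl m (2 * K + 1)}
    (hg : good L F (m + 1)) (h0 : lc F = 0) (he : F.2.2 0 = false) (hb : (F.1 0 : ℕ) = 0) :
    F = F0 m K := by
  have hs0 : F.2.1.symm 0 = Fin.last m := by
    rw [← h0]
    unfold lc
    rw [Equiv.symm_apply_apply]
  have hy0 : ∀ k, k ≤ m → pt F k 0 = 0 := by
    intro k hk
    unfold pt
    rw [if_neg (by rw [hs0, Fin.val_last]; omega), he, hb]
    rfl
  -- choose the times of the labels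
  have hch : ∀ l, ∃ k, (1 ≤ l → l ≤ m + 1 → k ≤ m ∧ L (pt F k) = l) := by
    intro l
    by_cases h : 1 ≤ l ∧ l ≤ m + 1
    · obtain ⟨k, h1, h2, h3⟩ := hg l h.1 h.2
      exact ⟨k, fun _ _ => ⟨by omega, h3⟩⟩
    · exact ⟨0, fun h1 h2 => absurd ⟨h1, h2⟩ h⟩
  choose κ hκ using hch
  have hlow : ∀ l, 1 ≤ l → l ≤ m + 1 → ∀ i : Fin (m + 1), i ≠ 0 → (i : ℕ) < l →
      2 * K + 1 ≤ pt F (κ l) i := by
    intro l h1 h2 i hi hil
    obtain ⟨h3, h4⟩ := hκ l h1 h2
    have h5 := (hb1 _ (hy0 _ h3) (by omega)).1 i hi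
    rw [h4] at h5
    exact h5 hil
  have hupp : ∀ l, 1 ≤ l → l ≤ m + 1 → ∀ i : Fin (m + 1), (i : ℕ) = l →
      pt F (κ l) i < 2 * K + 1 := by
    intro l h1 h2 i hil
    obtain ⟨h3, h4⟩ := hκ l h1 h2
    have h5 := (hb1 _ (hy0 _ h3) (by omega)).2 i
    rw [h4] at h5
    exact h5 hil
  have hcube : ∀ i : Fin (m + 1), i ≠ 0 → (F.1 i : ℕ) = K ∧ F.2.2 i = false := by
    intro i hi
    have hi0 : (i : ℕ) ≠ 0 := fun h => hi (Fin.ext h)
    have hil := i.2
    have h1 := hlow (m + 1) (by omega) le_rfl i hi hil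
    have h2 := hupp i (by omega) (by omega) i rfl
    unfold pt cor at h1 h2
    have hbi := (F.1 i).2
    cases hei : F.2.2 i <;> rw [hei] at h1 h2 <;> simp only [Bool.false_eq_true, if_false,
      if_true] at h1 h2 <;> split_ifs at h1 h2 <;> first
        | (exfalso; omega)
        | exact ⟨by omega, rfl⟩
  have hT : ∀ (i : Fin (m + 1)), i ≠ 0 → ∀ k, (2 * K + 1 ≤ pt F k i ↔
      ((F.2.1.symm i : Fin (m + 1)) : ℕ) < k) := by
    intro i hi k
    obtain ⟨h1, h2⟩ := hcube i hi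
    unfold pt cor
    rw [h1, h2]
    simp only [Bool.false_eq_true, if_false]
    split_ifs with h3
    · exact ⟨fun _ => h3, fun _ => le_rfl⟩
    · exact ⟨fun h => by omega, fun h => absurd h h3⟩
  have hinc : ∀ l, 1 ≤ l → l + 1 ≤ m + 1 → κ l < κ (l + 1) := by
    intro l h1 h2
    have hi : (⟨l, by omega⟩ : Fin (m + 1)) ≠ 0 := by
      intro h
      have := congrArg Fin.val h
      simp only [Fin.val_zero] at this
      omega
    have h3 := (hT ⟨l, by omega⟩ hi (κ (l + 1))).1 (hlow (l + 1) (by omega) h2 _ hi (by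
      simp only; omega))
    have h4 : ¬ ((F.2.1.symm (⟨l, by omega⟩ : Fin (m + 1)) : Fin (m + 1)) : ℕ) < κ l := by
      intro h
      have := (hT ⟨l, by omega⟩ hi (κ l)).2 h
      have := hupp l h1 (by omega) ⟨l, by omega⟩ rfl
      omega
    omega
  have hge : ∀ l, l + 1 ≤ m + 1 → l ≤ κ (l + 1) := by
    intro l
    induction l with
    | zero => intro _; exact Nat.zero_le _
    | succ l ih =>
      intro h
      have h1 := ih (by omega)
      have h2 := hinc (l + 1) (by omega) (by omega)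
      omega
  have hle : ∀ j, j ≤ m → κ (m + 1 - j) ≤ m - j := by
    intro j
    induction j with
    | zero => intro _; exact (hκ (m + 1) (by omega) le_rfl).1
    | succ j ih =>
      intro h
      have h1 := ih (by omega)
      have h2 := hinc (m + 1 - (j + 1)) (by omega) (by omega)
      have h3 : m + 1 - (j + 1) + 1 = m + 1 - j := by omega
      rw [h3] at h2
      omega
  have heq : ∀ l, 1 ≤ l → l ≤ m + 1 → κ l = l - 1 := by
    intro l h1 h2
    have h3 := hge (l - 1) (by omega)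
    have h4 := hle (m + 1 - l) (by omega)
    have h5 : m + 1 - (m + 1 - l) = l := by omega
    have h6 : l - 1 + 1 = l := by omega
    rw [h5] at h4
    rw [h6] at h3
    omega
  have hsymm : ∀ i : Fin (m + 1), i ≠ 0 → ((F.2.1.symm i : Fin (m + 1)) : ℕ) = i - 1 := by
    intro i hi
    have hi0 : (i : ℕ) ≠ 0 := fun h => hi (Fin.ext h)
    have hil := i.2
    have h1 := (hT i hi (κ (i + 1))).1 (hlow (i + 1) (by omega) (by omega) i hi (by omega))
    have h2 : ¬ ((F.2.1.symm i : Fin (m + 1)) : ℕ) < κ i := by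
      intro h
      have := (hT i hi (κ i)).2 h
      have := hupp i (by omega) (by omega) i rfl
      omega
    rw [heq (i + 1) (by omega) (by omega)] at h1
    rw [heq i (by omega) (by omega)] at h2
    omega
  refine Prod.ext ?_ (Prod.ext ?_ ?_)
  · funext i
    apply Fin.ext
    by_cases hi : i = 0
    · have h2 : (F0 m K).1 0 = ⟨0, by omega⟩ := rfl
      rw [hi, h2, hb]
    · have h2 : (F0 m K).1 i = ⟨K, by omega⟩ := if_neg hi
      rw [h2, (hcube i hi).1]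
  · have h1 : F.2.1.symm = (finRotate (m + 1)).symm := by
      apply Equiv.ext
      intro i
      by_cases hi : i = 0
      · rw [hi, hs0, rot_symm_zero]
      · apply Fin.ext
        rw [hsymm i hi, rot_symm_succ hi]
    have h2 := congrArg Equiv.symm h1
    rw [Equiv.symm_symm, Equiv.symm_symm] at h2
    exact h2
  · funext i
    by_cases hi : i = 0
    · rw [hi, he]
      rfl
    · rw [(hcube i hi).2]
      rfl

/-- The labelling lemma. -/
theorem label (L : (Fin (m + 1) → ℕ) → ℕ) (hL : ∀ y, L y ≤ m + 1)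
    (hc : ∀ F : Fl m (2 * K + 1), ¬ ∀ l, l ≤ m + 1 → ∃ k, k ≤ m + 1 ∧ L (pt F k) = l)
    (hside : ∀ (y : Fin (m + 1) → ℕ) (j : Fin (m + 1)), j ≠ 0 → (∀ i, y i ≤ 2 * (2 * K + 1)) →
      (y j = 0 ∨ y j = 2 * (2 * K + 1)) → L (mirp (2 * K + 1) y) = L y)
    (htop : ∀ F : Fl m (2 * K + 1), (∀ k, k ≤ m → pt F k 0 = 2 * (2 * K + 1)) →
      ¬ ∀ l, 1 ≤ l → l ≤ m + 1 → ∃ k, k ≤ m ∧ L (pt F k) = l)
    (hb1 : ∀ y : Fin (m + 1) → ℕ, y 0 = 0 → L y ≠ 0 →
      (∀ i : Fin (m + 1), i ≠ 0 → (i : ℕ) < L y → 2 * K + 1 ≤ y i) ∧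
      ∀ i : Fin (m + 1), (i : ℕ) = L y → y i < 2 * K + 1)
    (hb2 : ∀ y : Fin (m + 1) → ℕ, y 0 = 0 → (∀ i, i ≠ 0 → 2 * K ≤ y i ∧ y i ≤ 2 * K + 1) →
      L y ≠ 0) : False := by
  classical
  have h1 := sum_bot L hL hc hside (fun F hF hg => htop F hF fun l h1 h2 => by
    obtain ⟨k, h3, h4, h5⟩ := hg l h1 h2
    exact ⟨k, by omega, h5⟩)
  rw [Finset.sum_eq_single (F0 m K)] at h1
  · rw [if_pos ⟨good_F0 hL hb1 hb2, lc_F0 m K, rfl, rfl⟩] at h1
    exact absurd h1 (by decide)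
  · intro F _ hne
    rw [if_neg]
    rintro ⟨h2, h3, h4, h5⟩
    exact hne (eq_F0 hb1 h2 h3 h4 h5)
  · intro h
    exact absurd (Finset.mem_univ _) h

end Pool.Agent.Lib.MP_b0d2bf_gt.Par
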