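import Mathlib
import Pool.Agent.Lib.MP_b0d2bf_gt.PBot

set_option autoImplicit false

/-!
The labelling lemma for continuous maps.
-/

namespace Pool.Agent.Lib.MP_b0d2bf_gt.Par

open Set Metric

variable {m : ℕ}

/-- the box `[0, 1] × [-1, 1] ^ m` -/
def Box (m : ℕ) : Set (Fin (m + 1) → ℝ) := Icc (fun i => if i = 0 then 0 else -1) (fun _ => 1)

/-- the reflection in the coordinates other than `0` -/
def mirr (p : Fin (m + 1) → ℝ) : Fin (m + 1) → ℝ := fun i => if i = 0 then p i else - p i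

private theorem lab_ex (w : Fin (m + 1) → ℝ) :
    ∃ l : ℕ, 1 ≤ l ∧ ∀ i : Fin (m + 1), (i : ℕ) = l → w i < 0 :=
  ⟨m + 1, by omega, fun i hi => absurd hi (by have := i.2; omega)⟩

open Classical in
/-- the label of a vector -/
noncomputable def lab (w : Fin (m + 1) → ℝ) : ℕ := if w 0 < 0 then 0 else Nat.find (lab_ex w)

theorem lab_le (w : Fin (m + 1) → ℝ) : lab w ≤ m + 1 := by
  classical
  unfold lab
  split_ifs with h
  · exact Nat.zero_le _
  · exact Nat.find_min' _ ⟨by omega, fun i hi => absurd hi (by have := i.2; omega)⟩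

theorem lab_zero {w : Fin (m + 1) → ℝ} : lab w = 0 ↔ w 0 < 0 := by
  classical
  unfold lab
  split_ifs with h
  · exact ⟨fun _ => h, fun _ => rfl⟩
  · constructor
    · intro h1
      have h2 := (Nat.find_spec (lab_ex w)).1
      omega
    · intro h1
      exact absurd h1 h

theorem lab_eq {w : Fin (m + 1) → ℝ} (h : lab w ≠ 0) {i : Fin (m + 1)} (hi : (i : ℕ) = lab w) :
    w i < 0 := by
  classical
  have h0 : ¬ w 0 < 0 := fun h1 => h (lab_zero.2 h1)
  have h1 : lab w = Nat.find (lab_ex w) := if_neg h0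
  rw [h1] at hi
  exact (Nat.find_spec (lab_ex w)).2 i hi

theorem lab_lt {w : Fin (m + 1) → ℝ} {i : Fin (m + 1)} (hi0 : i ≠ 0)
    (hi : (i : ℕ) < lab w) : 0 ≤ w i := by
  classical
  have h : lab w ≠ 0 := by omega
  have h0 : ¬ w 0 < 0 := fun h1 => h (lab_zero.2 h1)
  have h1 : lab w = Nat.find (lab_ex w) := if_neg h0
  rw [h1] at hi
  have h2 := Nat.find_min (lab_ex w) hi
  by_contra hn
  push Not at hn
  refine h2 ⟨?_, fun j hj => ?_⟩
  · have : (i : ℕ) ≠ 0 := fun h => hi0 (Fin.ext h)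
    omega
  · have : j = i := Fin.ext hj
    rw [this]
    exact hn

/-- the real position of a grid point -/
noncomputable def pos (M : ℕ) (y : Fin (m + 1) → ℕ) : Fin (m + 1) → ℝ :=
  fun i => if i = 0 then (y i : ℝ) / (2 * M) else ((y i : ℝ) - M) / M

theorem pos_mem {M : ℕ} (hM : 0 < M) {y : Fin (m + 1) → ℕ} (hy : ∀ i, y i ≤ 2 * M) :
    pos M y ∈ Box m := by
  have hM' : (0 : ℝ) < M := by exact_mod_cast hM
  unfold Box pos
  rw [mem_Icc, Pi.le_def, Pi.le_def]
  constructor
  · intro i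
    show (if i = 0 then (0 : ℝ) else -1) ≤ if i = 0 then (y i : ℝ) / (2 * M) else
      ((y i : ℝ) - M) / M
    split_ifs
    · positivity
    · rw [le_div_iff₀ hM']
      have : (0 : ℝ) ≤ y i := Nat.cast_nonneg _
      linarith
  · intro i
    have h1 : (y i : ℝ) ≤ 2 * M := by exact_mod_cast hy i
    show (if i = 0 then (y i : ℝ) / (2 * M) else ((y i : ℝ) - M) / M) ≤ 1
    split_ifs
    · rw [div_le_one (by positivity)]
      exact h1
    · rw [div_le_one hM']
      linarith

theorem pos_mirp {M : ℕ} {y : Fin (m + 1) → ℕ} (hy : ∀ i, y i ≤ 2 * M) :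
    pos M (mirp M y) = mirr (pos M y) := by
  funext i
  unfold pos mirp mirr
  by_cases h : i = 0
  · simp only [h, if_true]
  · simp only [h, if_false]
    rw [Nat.cast_sub (hy i)]
    push_cast
    ring

theorem pt_le {M : ℕ} (F : Fl m M) (k : ℕ) (i : Fin (m + 1)) : pt F k i ≤ 2 * M := by
  have hb := (F.1 i).2
  unfold pt cor
  split_ifs <;> omega

theorem pos_dist {M : ℕ} (hM : 0 < M) (F : Fl m M) (k k' : ℕ) :
    dist (pos M (pt F k)) (pos M (pt F k')) ≤ 1 / M := by
  have hM' : (0 : ℝ) < M := by exact_mod_cast hM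
  rw [dist_pi_le_iff (by positivity)]
  intro i
  have h1 : |(pt F k i : ℝ) - pt F k' i| ≤ 1 := by
    have h2 : pt F k i ≤ pt F k' i + 1 ∧ pt F k' i ≤ pt F k i + 1 := by
      unfold pt cor
      split_ifs <;> omega
    rw [abs_le]
    constructor
    · have : (pt F k' i : ℝ) ≤ pt F k i + 1 := by exact_mod_cast h2.2
      linarith
    · have : (pt F k i : ℝ) ≤ pt F k' i + 1 := by exact_mod_cast h2.1
      linarith
  rw [Real.dist_eq]
  unfold pos
  split_ifs
  · rw [← sub_div, abs_div, abs_of_pos (by positivity : (0 : ℝ) < 2 * M), div_le_div_iff₀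
      (by positivity) hM']
    nlinarith
  · rw [← sub_div, abs_div, abs_of_pos hM', div_le_div_iff₀ hM' hM']
    have : (pt F k i : ℝ) - M - (pt F k' i - M) = pt F k i - pt F k' i := by ring
    rw [this]
    nlinarith

/-- The labelling lemma for continuous maps. -/
theorem cube (W : (Fin (m + 1) → ℝ) → (Fin (m + 1) → ℝ)) (hW : ContinuousOn W (Box m))
    (hne : ∀ p ∈ Box m, W p ≠ 0)
    (hside : ∀ p ∈ Box m, ∀ j, j ≠ 0 → |p j| = 1 → W (mirr p) = W p)
    (htop : ∀ p ∈ Box m, p 0 = 1 → 0 ≤ W p 0 → ∃ i, i ≠ 0 ∧ W p i ≠ 0)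
    (hb1 : ∀ p ∈ Box m, p 0 = 0 → 0 ≤ W p 0 → ∀ i, i ≠ 0 → (W p i < 0 ↔ p i < 0))
    {δ0 : ℝ} (hδ0 : 0 < δ0)
    (hb2 : ∀ p ∈ Box m, p 0 = 0 → (∀ i, i ≠ 0 → |p i| ≤ δ0) → 0 ≤ W p 0) : False := by
  have hcpt : IsCompact (Box m) := isCompact_Icc
  -- lower bounds
  obtain ⟨ε1, hε1, h1⟩ : ∃ ε > 0, ∀ p ∈ Box m, ε ≤ ‖W p‖ := by
    rcases (Box m).eq_empty_or_nonempty with he | he
    · exact ⟨1, one_pos, fun p hp => by rw [he] at hp; exact absurd hp (notMem_empty p)⟩
    · obtain ⟨p0, hp0, hmin⟩ := hcpt.exists_isMinOn he hW.norm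
      exact ⟨‖W p0‖, norm_pos_iff.2 (hne p0 hp0), fun p hp => hmin hp⟩
  have hcg : Continuous fun w : Fin (m + 1) → ℝ => ‖fun i => if i = 0 then w i - max (w 0) 0
      else w i‖ := by
    refine Continuous.norm ?_
    refine continuous_pi fun i => ?_
    by_cases h : i = 0
    · simp only [h, if_true]
      fun_prop
    · simp only [h, if_false]
      fun_prop
  obtain ⟨ε2, hε2, h2⟩ : ∃ ε > 0, ∀ p ∈ Box m ∩ {p | p 0 = 1},
      ε ≤ ‖fun i => if i = 0 then W p i - max (W p 0) 0 else W p i‖ := by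
    have hcpt2 : IsCompact (Box m ∩ {p | p 0 = 1}) :=
      hcpt.inter_right (isClosed_eq (continuous_apply 0) continuous_const)
    rcases (Box m ∩ {p | p 0 = 1}).eq_empty_or_nonempty with he | he
    · exact ⟨1, one_pos, fun p hp => by rw [he] at hp; exact absurd hp (notMem_empty p)⟩
    · obtain ⟨p0, hp0, hmin⟩ := hcpt2.exists_isMinOn he
        (hcg.comp_continuousOn (hW.mono inter_subset_left))
      refine ⟨_, ?_, fun p hp => hmin hp⟩
      refine norm_pos_iff.2 fun h0 => ?_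
      have h3 := congrFun h0
      simp only [Pi.zero_apply] at h3
      have h4 := h3 0
      rw [if_pos rfl] at h4
      have h5 : 0 ≤ W p0 0 := by
        have := le_max_right (W p0 0) 0
        linarith
      obtain ⟨i, hi, hWi⟩ := htop p0 hp0.1 hp0.2 h5
      have h6 := h3 i
      rw [if_neg hi] at h6
      exact hWi h6
  obtain ⟨ε, hε⟩ : ∃ ε : ℝ, ε = min ε1 ε2 := ⟨_, rfl⟩
  have hε0 : 0 < ε := by rw [hε]; exact lt_min hε1 hε2
  obtain ⟨δ, hδ, hunif⟩ := Metric.uniformContinuousOn_iff.1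
    (hcpt.uniformContinuousOn_of_continuous hW) ε hε0
  obtain ⟨K, hK⟩ := exists_nat_gt (max (1 / δ) (max (1 / δ0) 1))
  have hK1 : 1 / δ < K := (le_max_left _ _).trans_lt hK
  have hK2 : 1 / δ0 < K := ((le_max_left _ _).trans (le_max_right _ _)).trans_lt hK
  obtain ⟨M, hMdef⟩ : ∃ M : ℕ, M = 2 * K + 1 := ⟨_, rfl⟩
  have hM : 0 < M := by omega
  have hM' : (0 : ℝ) < M := by exact_mod_cast hM
  have hKM : (K : ℝ) ≤ M := by
    have : K ≤ M := by omega
    exact_mod_cast this
  have hMδ : 1 / (M : ℝ) < δ := by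
    rw [div_lt_iff₀ hM']
    rw [div_lt_iff₀ hδ] at hK1
    nlinarith
  have hMδ0 : 1 / (M : ℝ) ≤ δ0 := by
    rw [div_le_iff₀ hM']
    rw [div_lt_iff₀ hδ0] at hK2
    nlinarith
  -- closeness in a flag
  have hclose : ∀ (F : Fl m M) (k k' : ℕ) (i : Fin (m + 1)),
      |W (pos M (pt F k)) i - W (pos M (pt F k')) i| < ε := by
    intro F k k' i
    have h3 := hunif _ (pos_mem hM (pt_le F k)) _ (pos_mem hM (pt_le F k'))
      ((pos_dist hM F k k').trans_lt hMδ)
    have h4 := (dist_le_pi_dist (W (pos M (pt F k))) (W (pos M (pt F k'))) i).trans_lt h3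
    rwa [Real.dist_eq] at h4
  classical
  obtain ⟨L, hLdef⟩ : ∃ L : (Fin (m + 1) → ℕ) → ℕ, L = fun y =>
      if ∀ i, y i ≤ 2 * M then lab (W (pos M y)) else 0 := ⟨_, rfl⟩
  have hLin : ∀ y : Fin (m + 1) → ℕ, (∀ i, y i ≤ 2 * M) → L y = lab (W (pos M y)) := by
    intro y hy
    rw [hLdef]
    exact if_pos hy
  have hLF : ∀ (F : Fl m M) (k : ℕ), L (pt F k) = lab (W (pos M (pt F k))) :=
    fun F k => hLin _ (pt_le F k)
  -- small coordinates
  have hsmall : ∀ (F : Fl m M) (i : Fin (m + 1)), i ≠ 0 →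
      (∃ k, L (pt F k) = (i : ℕ)) → (∃ k, L (pt F k) = m + 1) → ∀ k,
        |W (pos M (pt F k)) i| < ε := by
    intro F i hi h3 h4 k
    obtain ⟨k1, hk1⟩ := h3
    obtain ⟨k2, hk2⟩ := h4
    rw [hLF] at hk1 hk2
    have hi0 : (i : ℕ) ≠ 0 := fun h => hi (Fin.ext h)
    have h5 := lab_eq (w := W (pos M (pt F k1))) (by omega) hk1.symm
    have h6 : 0 ≤ W (pos M (pt F k2)) i :=
      lab_lt hi (by rw [hk2]; exact i.2)
    have h7 := hclose F k k1 i
    have h8 := hclose F k k2 i
    rw [abs_lt] at h7 h8 ⊢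
    exact ⟨by linarith, by linarith⟩
  subst hMdef
  refine label (K := K) L ?_ ?_ ?_ ?_ ?_ ?_
  · intro y
    rw [hLdef]
    simp only
    split_ifs
    · exact lab_le _
    · exact Nat.zero_le _
  · intro F hF
    have h3 := h1 _ (pos_mem hM (pt_le F 0))
    have h4 : ‖W (pos (2 * K + 1) (pt F 0))‖ < ε1 := by
      refine lt_of_lt_of_le ?_ (le_of_eq_of_le hε (min_le_left _ _))
      rw [pi_norm_lt_iff hε0]
      intro i
      rw [Real.norm_eq_abs]
      obtain ⟨k2, hk2, hk2'⟩ := hF (m + 1) le_rfl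
      by_cases hi : i = 0
      · rw [hi]
        obtain ⟨k1, hk1, hk1'⟩ := hF 0 (Nat.zero_le _)
        rw [hLF] at hk1' hk2'
        have h5 := lab_zero.1 hk1'
        have h6 : ¬ W (pos (2 * K + 1) (pt F k2)) 0 < 0 := fun h => by
          have := lab_zero.2 h
          omega
        have h7 := hclose F 0 k1 0
        have h8 := hclose F 0 k2 0
        rw [abs_lt] at h7 h8 ⊢
        exact ⟨by linarith, by linarith⟩
      · obtain ⟨k1, hk1, hk1'⟩ := hF i (by have := i.2; omega)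
        exact hsmall F i hi ⟨k1, hk1'⟩ ⟨k2, hk2'⟩ 0
    linarith
  · intro y j hj hy hyj
    have hy' : ∀ i, mirp (2 * K + 1) y i ≤ 2 * (2 * K + 1) := by
      intro i
      unfold mirp
      split_ifs
      · exact hy i
      · omega
    rw [hLin _ hy', hLin _ hy, pos_mirp hy]
    rw [hside _ (pos_mem hM hy) j hj]
    unfold pos
    rw [if_neg hj]
    rcases hyj with h | h
    · rw [h]
      push_cast
      rw [zero_sub, neg_div, div_self (by positivity), abs_neg, abs_one]
    · rw [h]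
      push_cast
      have : (2 * (2 * (K : ℝ) + 1) - (2 * K + 1)) / (2 * K + 1) = 1 := by
        rw [div_eq_one_iff_eq (by positivity)]
        ring
      rw [this, abs_one]
  · intro F hF0 hF
    have hmem : pos (2 * K + 1) (pt F 0) ∈ Box m ∩ {p | p 0 = 1} := by
      refine ⟨pos_mem hM (pt_le F 0), ?_⟩
      show pos (2 * K + 1) (pt F 0) 0 = 1
      unfold pos
      rw [if_pos rfl, hF0 0 (Nat.zero_le _)]
      push_cast
      exact div_self (by positivity)
    have h3 := h2 _ hmem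
    have h4 : ‖fun i => if i = 0 then W (pos (2 * K + 1) (pt F 0)) i -
        max (W (pos (2 * K + 1) (pt F 0)) 0) 0 else W (pos (2 * K + 1) (pt F 0)) i‖ < ε2 := by
      refine lt_of_lt_of_le ?_ (le_of_eq_of_le hε (min_le_right _ _))
      rw [pi_norm_lt_iff hε0]
      intro i
      rw [Real.norm_eq_abs]
      obtain ⟨k2, hk2, hk2'⟩ := hF (m + 1) (by omega) le_rfl
      by_cases hi : i = 0
      · rw [if_pos hi, hi]
        rw [hLF] at hk2'
        have h6 : ¬ W (pos (2 * K + 1) (pt F k2)) 0 < 0 := fun h => by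
          have := lab_zero.2 h
          omega
        have h8 := hclose F 0 k2 0
        rw [abs_lt] at h8
        rcases le_total (W (pos (2 * K + 1) (pt F 0)) 0) 0 with h9 | h9
        · rw [max_eq_right h9, sub_zero, abs_lt]
          exact ⟨by linarith, by linarith⟩
        · rw [max_eq_left h9, sub_self, abs_zero]
          exact hε0
      · rw [if_neg hi]
        have hi0 : (i : ℕ) ≠ 0 := fun h => hi (Fin.ext h)
        obtain ⟨k1, hk1, hk1'⟩ := hF i (by omega) (by have := i.2; omega)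
        exact hsmall F i hi ⟨k1, hk1'⟩ ⟨k2, hk2'⟩ 0
    linarith
  · intro y hy0 hLy
    have hy : ∀ i, y i ≤ 2 * (2 * K + 1) := by
      by_contra hn
      apply hLy
      rw [hLdef]
      exact if_neg hn
    rw [hLin y hy] at hLy ⊢
    have h3 : 0 ≤ W (pos (2 * K + 1) y) 0 := by
      by_contra hn
      exact hLy (lab_zero.2 (not_le.1 hn))
    have hp0 : pos (2 * K + 1) y 0 = 0 := by
      unfold pos
      rw [if_pos rfl, hy0]
      simp
    have h4 := hb1 _ (pos_mem hM hy) hp0 h3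
    have h5 : ∀ i, i ≠ 0 → (pos (2 * K + 1) y i < 0 ↔ y i < 2 * K + 1) := by
      intro i hi
      unfold pos
      rw [if_neg hi, div_neg_iff]
      constructor
      · rintro (⟨_, h⟩ | ⟨h, _⟩)
        · exact absurd h (not_lt.2 hM'.le)
        · have : (y i : ℝ) < ((2 * K + 1 : ℕ) : ℝ) := by linarith
          exact_mod_cast this
      · intro h
        right
        refine ⟨?_, hM'⟩
        have : (y i : ℝ) < ((2 * K + 1 : ℕ) : ℝ) := by exact_mod_cast h
        linarith
    refine ⟨fun i hi hil => ?_, fun i hil => ?_⟩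
    · have h6 := lab_lt hi hil
      by_contra hn
      exact absurd ((h4 i hi).2 ((h5 i hi).2 (by omega))) (not_lt.2 h6)
    · have hi : i ≠ 0 := by
        rintro rfl
        rw [Fin.val_zero] at hil
        exact hLy hil.symm
      exact (h5 i hi).1 ((h4 i hi).1 (lab_eq hLy hil))
  · intro y hy0 hy1
    have hy : ∀ i, y i ≤ 2 * (2 * K + 1) := by
      intro i
      by_cases hi : i = 0
      · rw [hi, hy0]
        exact Nat.zero_le _
      · have := (hy1 i hi).2
        omega
    rw [hLin y hy]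
    intro h
    have hp0 : pos (2 * K + 1) y 0 = 0 := by
      unfold pos
      rw [if_pos rfl, hy0]
      simp
    have h3 := hb2 _ (pos_mem hM hy) hp0 (fun i hi => by
      refine le_trans ?_ hMδ0
      unfold pos
      rw [if_neg hi, abs_div, abs_of_pos hM', div_le_div_iff_of_pos_right hM', abs_le]
      obtain ⟨h4, h5⟩ := hy1 i hi
      have h6 : (2 * (K : ℝ)) ≤ y i := by exact_mod_cast h4
      have h7 : (y i : ℝ) ≤ 2 * K + 1 := by exact_mod_cast h5
      push_cast
      exact ⟨by linarith, by linarith⟩)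
    have h4 := lab_zero.1 h
    linarith

end Pool.Agent.Lib.MP_b0d2bf_gt.Par
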