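import Mathlib
import Pool.Agent.Lib.MP_b0d2bf_gt.Struct

set_option autoImplicit false

/-!
Definitions for the existence theorems for q greater than n with symmetry group and heavy subspaces.
-/

namespace Pool.Agent.Lib.MP_b0d2bf_gt

open MeasureTheory Metric Set Filter Topology

variable {n : ℕ}

/-- action of a linear isometry on the unit sphere -/
noncomputable def actS (g : Eu n ≃ₗᵢ[ℝ] Eu n) (v : Sph n) : Sph n :=
  ⟨g (v : Eu n), by rw [mem_sphere_zero_iff_norm, g.norm_map, norm_sph]⟩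

/-- invariant function on the sphere -/
def FInv (G : Subgroup (Eu n ≃ₗᵢ[ℝ] Eu n)) (f : Sph n → ℝ) : Prop :=
  ∀ g ∈ G, ∀ v, f (actS g v) = f v

/-- invariant linear subspace -/
def SInv (G : Subgroup (Eu n ≃ₗᵢ[ℝ] Eu n)) (L : Submodule ℝ (Eu n)) : Prop :=
  ∀ g ∈ G, ∀ x ∈ L, g x ∈ L

/-- invariant measure -/
def MInv (G : Subgroup (Eu n ≃ₗᵢ[ℝ] Eu n)) (μ : Measure (Sph n)) : Prop :=
  ∀ g ∈ G, Measure.map (actS g) μ = μ

/-- mass of a linear subspace -/
noncomputable def mass (μ : Measure (Sph n)) (L : Submodule ℝ (Eu n)) : ℝ :=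
  μ.real {v : Sph n | (v : Eu n) ∈ L}

/-- support function of the Wulff shape on all vectors; `nH h v = supp h v` for `v` in the sphere -/
noncomputable def nH (h : Sph n → ℝ) (w : Eu n) : ℝ :=
  sSup ((fun x : Eu n => inner ℝ x w) '' wulff h)

/-- `h` is the support function, with maximum one, of an invariant symmetric body -/
structure Bd (G : Subgroup (Eu n ≃ₗᵢ[ℝ] Eu n)) (h : Sph n → ℝ) : Prop where
  cont : Continuous h
  pos : ∀ v, 0 < h v
  inv : FInv G h
  even : ∀ v, h (-v) = h v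
  supp : ∀ v, supp h v = h v
  le : ∀ v, h v ≤ 1
  one : ∃ v, h v = 1

/-- box approximation of the body with support function `h` -/
structure Bx (h : Sph n → ℝ) (b : OrthonormalBasis (Fin n) ℝ (Eu n)) (a : Fin n → ℝ) : Prop where
  anti : Antitone a
  pos : ∀ k, 0 < a k
  lo : ∀ (v : Sph n) k, a k * |inner ℝ (b k) (v : Eu n)| ≤ √n * h v
  up : ∀ x ∈ wulff h, ∀ k, |inner ℝ (b k) x| ≤ √n * a k

/-- limits along an ultrafilter of vectors of size `O(r j)` for the norms `nH (h j)` -/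
def limSet (𝒰 : Ultrafilter ℕ) (h : ℕ → Sph n → ℝ) (r : ℕ → ℝ) : Set (Eu n) :=
  {w | ∃ y : ℕ → Eu n, Tendsto y 𝒰 (𝓝 w) ∧ ∃ C : ℝ, ∀ᶠ j in (𝒰 : Filter ℕ),
    nH (h j) (y j) ≤ C * r j}

/-- the linear subspace `limSet` -/
def limS (𝒰 : Ultrafilter ℕ) (h : ℕ → Sph n → ℝ) (r : ℕ → ℝ) : Submodule ℝ (Eu n) :=
  Submodule.span ℝ (limSet 𝒰 h r)

/-- limit of a sequence of linear subspaces along an ultrafilter -/
def limW (𝒰 : Ultrafilter ℕ) (W : ℕ → Submodule ℝ (Eu n)) : Submodule ℝ (Eu n) where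
  carrier := {w | ∃ y : ℕ → Eu n, (∀ j, y j ∈ W j) ∧ Tendsto y 𝒰 (𝓝 w)}
  add_mem' := by
    rintro a b ⟨y, hy, hya⟩ ⟨z, hz, hzb⟩
    exact ⟨fun j => y j + z j, fun j => (W j).add_mem (hy j) (hz j), hya.add hzb⟩
  zero_mem' := ⟨fun _ => 0, fun j => (W j).zero_mem, tendsto_const_nhds⟩
  smul_mem' := by
    rintro c a ⟨y, hy, hya⟩
    exact ⟨fun j => c • y j, fun j => (W j).smul_mem c (hy j), hya.const_smul c⟩

/-- exponential of a continuous function -/
noncomputable def ex (f : C(Sph n, ℝ)) (v : Sph n) : ℝ := Real.exp (f v)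

/-- the space of invariant continuous functions -/
def XS (G : Subgroup (Eu n ≃ₗᵢ[ℝ] Eu n)) : Submodule ℝ C(Sph n, ℝ) where
  carrier := {f | ∀ g ∈ G, ∀ v, f (actS g v) = f v}
  add_mem' := by
    intro a b ha hb g hg v
    simp only [ContinuousMap.add_apply, ha g hg v, hb g hg v]
  zero_mem' := by
    intro g hg v; rfl
  smul_mem' := by
    intro c a ha g hg v
    simp only [ContinuousMap.smul_apply, ha g hg v]

/-- the linear functional used in the penalty -/
noncomputable def Uf (σ μ : Measure (Sph n)) (f : C(Sph n, ℝ)) : ℝ := ∫ v, f v ∂σ - ∫ v, f v ∂μ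

/-- penalty function -/
noncomputable def pen (M u : ℝ) : ℝ :=
  if u ≤ M then 0 else if u ≤ M + 1 then (u - M) ^ 2 / 2 else u - M - 1 / 2

/-- derivative of the penalty function -/
noncomputable def pen' (M u : ℝ) : ℝ := max 0 (min 1 (u - M))

/-- the penalised functional -/
noncomputable def FM [NeZero n] (q : ℝ) (μ σ : Measure (Sph n)) (M : ℝ) (f : C(Sph n, ℝ)) : ℝ :=
  Psi μ q (ex f) - pen M (Uf σ μ f)

/-- mean value with respect to the normalised dual curvature measure -/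
noncomputable def avg [NeZero n] (q : ℝ) (h φ : Sph n → ℝ) : ℝ :=
  (∫ u : Sph n, φ (nu h u) * (gN h (u : Eu n))⁻¹ ^ q ∂(sg n)) / II q h

/-- derivative of the penalised functional -/
noncomputable def dF [NeZero n] (q : ℝ) (μ σ : Measure (Sph n)) (M : ℝ) (f φ : C(Sph n, ℝ)) : ℝ :=
  avg q (ex f) φ - ∫ v, φ v ∂μ - pen' M (Uf σ μ f) * Uf σ μ φ

/-- functions `f` for which the body of `ex f` is thin on a member of `A` -/
def UU (δ : ℝ) (A : Set (Submodule ℝ (Eu n))) : Set C(Sph n, ℝ) :=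
  {f | ∃ W ∈ A, ∃ L ∈ A, ∃ r r' : ℝ, 0 < r ∧ r < r' ∧
    (∀ v : Sph n, (v : Eu n) ∈ W → supp (ex f) v ≤ r) ∧
    (∀ v : Sph n, δ ≤ infDist (v : Eu n) (L : Set (Eu n)) → r' ≤ supp (ex f) v)}

end Pool.Agent.Lib.MP_b0d2bf_gt
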