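import Mathlib
import Pool.Agent.Lib.MP_b0d2bf_gt.XDefs

set_option autoImplicit false

/-!
Facts about the norm `nH` and about invariance under isometries.
-/

namespace Pool.Agent.Lib.MP_b0d2bf_gt

open MeasureTheory Metric Set Filter Topology

section XNH

variable {n : ℕ} {G : Subgroup (Eu n ≃ₗᵢ[ℝ] Eu n)} {h : Sph n → ℝ}

lemma coe_actS (g : Eu n ≃ₗᵢ[ℝ] Eu n) (v : Sph n) : ((actS g v : Sph n) : Eu n) = g (v : Eu n) := rfl

lemma continuous_actS (g : Eu n ≃ₗᵢ[ℝ] Eu n) : Continuous (actS g : Sph n → Sph n) :=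
  Continuous.subtype_mk (g.continuous.comp continuous_subtype_val) _

lemma actS_mul (g k : Eu n ≃ₗᵢ[ℝ] Eu n) (v : Sph n) : actS (g * k) v = actS g (actS k v) :=
  Subtype.ext rfl

lemma actS_inv (g : Eu n ≃ₗᵢ[ℝ] Eu n) (v : Sph n) : actS g⁻¹ (actS g v) = v := by
  apply Subtype.ext
  show g.symm (g (v : Eu n)) = v
  exact g.symm_apply_apply _

lemma actS_inv' (g : Eu n ≃ₗᵢ[ℝ] Eu n) (v : Sph n) : actS g (actS g⁻¹ v) = v := by
  apply Subtype.ext
  show g (g.symm (v : Eu n)) = v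
  exact g.apply_symm_apply _

lemma wulff_act (hi : FInv G h) {g : Eu n ≃ₗᵢ[ℝ] Eu n} (hg : g ∈ G) {x : Eu n}
    (hx : x ∈ wulff h) : g x ∈ wulff h := by
  intro v
  have h1 : h (actS g⁻¹ v) = h v := hi g⁻¹ (G.inv_mem hg) v
  have h2 := hx (actS g⁻¹ v)
  rw [h1] at h2
  refine le_trans (le_of_eq ?_) h2
  have h3 : inner ℝ (g x) (g ((actS g⁻¹ v : Sph n) : Eu n)) =
      inner ℝ x ((actS g⁻¹ v : Sph n) : Eu n) := g.inner_map_map _ _
  rw [← h3, ← coe_actS, actS_inv']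

lemma nH_sph (h : Sph n → ℝ) (v : Sph n) : nH h (v : Eu n) = supp h v := rfl

lemma exists_nH [NeZero n] (hc : Continuous h) (h0 : ∀ v, 0 < h v) (w : Eu n) :
    ∃ x ∈ wulff h, nH h w = inner ℝ x w ∧ ∀ y ∈ wulff h, inner ℝ y w ≤ inner ℝ x w := by
  have hne : (wulff h).Nonempty := ⟨0, interior_subset (interior_wulff hc h0)⟩
  have hcont : ContinuousOn (fun x : Eu n => inner ℝ x w) (wulff h) :=
    (continuous_id.inner continuous_const).continuousOn
  obtain ⟨x, hx, h1⟩ := (isCompact_wulff hc h0).exists_sSup_image_eq hne hcont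
  refine ⟨x, hx, h1, fun y hy => ?_⟩
  have h2 : inner ℝ y w ≤ nH h w :=
    le_csSup ((isCompact_wulff hc h0).image_of_continuousOn hcont).bddAbove ⟨y, hy, rfl⟩
  rw [← h1]
  exact h2

lemma inner_le_nH [NeZero n] (hc : Continuous h) (h0 : ∀ v, 0 < h v) {y : Eu n}
    (hy : y ∈ wulff h) (w : Eu n) : inner ℝ y w ≤ nH h w := by
  obtain ⟨x, hx, h1, h2⟩ := exists_nH hc h0 w
  rw [h1]
  exact h2 y hy

lemma abs_inner_le_nH [NeZero n] (hc : Continuous h) (h0 : ∀ v, 0 < h v)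
    (he : ∀ v, h (-v) = h v) {y : Eu n} (hy : y ∈ wulff h) (w : Eu n) :
    |inner ℝ y w| ≤ nH h w := by
  rw [abs_le]
  constructor
  · have := inner_le_nH hc h0 (neg_mem_wulff he hy) w
    rw [inner_neg_left] at this
    linarith
  · exact inner_le_nH hc h0 hy w

lemma nH_le [NeZero n] (hc : Continuous h) (h0 : ∀ v, 0 < h v) {w : Eu n} {R : ℝ}
    (hR : ∀ x ∈ wulff h, inner ℝ x w ≤ R) : nH h w ≤ R := by
  obtain ⟨x, hx, h1, -⟩ := exists_nH hc h0 w
  rw [h1]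
  exact hR x hx

lemma nH_nonneg [NeZero n] (hc : Continuous h) (h0 : ∀ v, 0 < h v) (w : Eu n) : 0 ≤ nH h w := by
  have h1 : (0 : Eu n) ∈ wulff h := interior_subset (interior_wulff hc h0)
  have := inner_le_nH hc h0 h1 w
  rwa [inner_zero_left] at this

lemma nH_add_le [NeZero n] (hc : Continuous h) (h0 : ∀ v, 0 < h v) (w z : Eu n) :
    nH h (w + z) ≤ nH h w + nH h z := by
  refine nH_le hc h0 fun x hx => ?_
  rw [inner_add_right]
  exact add_le_add (inner_le_nH hc h0 hx w) (inner_le_nH hc h0 hx z)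

lemma nH_smul [NeZero n] (hc : Continuous h) (h0 : ∀ v, 0 < h v) (he : ∀ v, h (-v) = h v)
    (c : ℝ) (w : Eu n) : nH h (c • w) = |c| * nH h w := by
  apply le_antisymm
  · refine nH_le hc h0 fun x hx => ?_
    rw [inner_smul_right]
    refine (le_abs_self _).trans ?_
    rw [abs_mul]
    exact mul_le_mul_of_nonneg_left (abs_inner_le_nH hc h0 he hx w) (abs_nonneg _)
  · obtain ⟨x, hx, h1, -⟩ := exists_nH hc h0 w
    rw [h1]
    rcases abs_cases c with ⟨h2, -⟩ | ⟨h2, -⟩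
    · rw [h2]
      have := inner_le_nH hc h0 hx (c • w)
      rwa [inner_smul_right] at this
    · rw [h2]
      have := inner_le_nH hc h0 (neg_mem_wulff he hx) (c • w)
      rw [inner_smul_right, inner_neg_left] at this
      linarith

lemma nH_neg [NeZero n] (hc : Continuous h) (h0 : ∀ v, 0 < h v) (he : ∀ v, h (-v) = h v)
    (w : Eu n) : nH h (-w) = nH h w := by
  have := nH_smul hc h0 he (-1) w
  rwa [neg_one_smul, abs_neg, abs_one, one_mul] at this

lemma nH_le_norm [NeZero n] (hc : Continuous h) (h0 : ∀ v, 0 < h v) (hle : ∀ v, h v ≤ 1)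
    (w : Eu n) : nH h w ≤ ‖w‖ := by
  refine nH_le hc h0 fun x hx => ?_
  have h1 := wulff_subset hc h0 one_pos hle hx
  rw [mem_closedBall_zero_iff] at h1
  refine (real_inner_le_norm x w).trans ?_
  have := mul_le_mul_of_nonneg_right h1 (norm_nonneg w)
  rwa [one_mul] at this

lemma nH_act [NeZero n] (hc : Continuous h) (h0 : ∀ v, 0 < h v) (hi : FInv G h)
    {g : Eu n ≃ₗᵢ[ℝ] Eu n} (hg : g ∈ G) (w : Eu n) : nH h (g w) = nH h w := by
  have key : ∀ (k : Eu n ≃ₗᵢ[ℝ] Eu n), k ∈ G → ∀ w, nH h (k w) ≤ nH h w := by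
    intro k hk w
    refine nH_le hc h0 fun x hx => ?_
    have h1 := wulff_act hi (G.inv_mem hk) hx
    have h2 : inner ℝ x (k w) = inner ℝ (k⁻¹ x) w := by
      have h3 : inner ℝ (k (k⁻¹ x)) (k w) = inner ℝ (k⁻¹ x) w := k.inner_map_map _ _
      rw [← h3]
      congr 1
      show x = k (k.symm x)
      rw [k.apply_symm_apply]
    rw [h2]
    exact inner_le_nH hc h0 h1 w
  apply le_antisymm (key g hg w)
  have h1 := key g⁻¹ (G.inv_mem hg) (g w)
  have h2 : g⁻¹ (g w) = w := g.symm_apply_apply w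
  rwa [h2] at h1

lemma supp_act [NeZero n] (hc : Continuous h) (h0 : ∀ v, 0 < h v) (hi : FInv G h) :
    FInv G (supp h) := by
  intro g hg v
  exact nH_act hc h0 hi hg (v : Eu n)

lemma even_of_inv (hneg : LinearIsometryEquiv.neg ℝ ∈ G) (hi : FInv G h) (v : Sph n) :
    h (-v) = h v := by
  have h1 := hi _ hneg v
  have h2 : actS (LinearIsometryEquiv.neg ℝ) v = -v := Subtype.ext rfl
  rwa [h2] at h1

/-- every even body has a box approximation -/
lemma exists_Bx [NeZero n] (hc : Continuous h) (h0 : ∀ v, 0 < h v) (he : ∀ v, h (-v) = h v)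
    (hs : ∀ v, supp h v = h v) : ∃ b a, Bx h b a := by
  obtain ⟨b, a, h1, h2, h3, h4⟩ := exists_box hc h0 he
  exact ⟨b, a, h1, h2, fun v k => by rw [← hs v]; exact h3 v k, h4⟩

lemma Bx.lo_vec [NeZero n] (hc : Continuous h) (h0 : ∀ v, 0 < h v) (he : ∀ v, h (-v) = h v)
    (hs : ∀ v, supp h v = h v) {b : OrthonormalBasis (Fin n) ℝ (Eu n)} {a : Fin n → ℝ}
    (hB : Bx h b a) (w : Eu n) (k : Fin n) : a k * |inner ℝ (b k) w| ≤ √n * nH h w := by
  by_cases hw : w = 0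
  · rw [hw, inner_zero_right, abs_zero, mul_zero]
    exact mul_nonneg (Real.sqrt_nonneg _) (nH_nonneg hc h0 _)
  · have h1 := hB.lo (dirS w hw) k
    rw [← hs, ← nH_sph] at h1
    have h2 : nH h w = ‖w‖ * nH h ((dirS w hw : Sph n) : Eu n) := by
      conv_lhs => rw [← norm_smul_dirS w hw]
      rw [nH_smul hc h0 he, abs_of_nonneg (norm_nonneg w)]
    have h3 : inner ℝ (b k) w = ‖w‖ * inner ℝ (b k) ((dirS w hw : Sph n) : Eu n) := by
      conv_lhs => rw [← norm_smul_dirS w hw]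
      rw [inner_smul_right]
    rw [h2, h3, abs_mul, abs_of_nonneg (norm_nonneg w)]
    have h4 := mul_le_mul_of_nonneg_left h1 (norm_nonneg w)
    calc a k * (‖w‖ * |inner ℝ (b k) ((dirS w hw : Sph n) : Eu n)|) =
        ‖w‖ * (a k * |inner ℝ (b k) ((dirS w hw : Sph n) : Eu n)|) := by ring
      _ ≤ ‖w‖ * (√n * nH h ((dirS w hw : Sph n) : Eu n)) := h4
      _ = _ := by ring

/-- the thinnest side of the box bounds the support function from below -/
lemma Bx.low [NeZero n] {b : OrthonormalBasis (Fin n) ℝ (Eu n)} {a : Fin n → ℝ}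
    (hB : Bx h b a) (k : Fin n) (hk : ∀ i, a k ≤ a i) (v : Sph n) : a k ≤ n * h v := by
  have hn : (0:ℝ) < n := by exact_mod_cast NeZero.pos n
  by_contra hcon
  rw [not_le] at hcon
  have h17 := b.sum_sq_norm_inner_right (v : Eu n)
  rw [norm_sph, one_pow] at h17
  have hh : 0 ≤ h v ∨ h v < 0 := le_or_gt 0 (h v)
  have h8 : ∀ i, ‖inner ℝ (b i) (v : Eu n)‖ ^ 2 < 1 / (n:ℝ) := by
    intro i
    have h1 := hB.lo v i
    have h2 : a k * |inner ℝ (b i) (v : Eu n)| ≤ √n * h v :=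
      (mul_le_mul_of_nonneg_right (hk i) (abs_nonneg _)).trans h1
    have hak := hB.pos k
    have hhv : 0 ≤ h v := by
      have h3 : 0 ≤ √(n:ℝ) * h v := (mul_nonneg hak.le (abs_nonneg _)).trans h2
      exact nonneg_of_mul_nonneg_right h3 (Real.sqrt_pos.2 hn)
    have h3 : (a k * |inner ℝ (b i) (v : Eu n)|) ^ 2 ≤ (√n * h v) ^ 2 :=
      pow_le_pow_left₀ (mul_nonneg hak.le (abs_nonneg _)) h2 2
    rw [mul_pow, mul_pow, Real.sq_sqrt hn.le, ← Real.norm_eq_abs] at h3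
    have h4 : (n * h v) ^ 2 < (a k) ^ 2 :=
      pow_lt_pow_left₀ hcon (by positivity) (by norm_num)
    rw [lt_div_iff₀ hn]
    by_contra h5
    rw [not_lt] at h5
    have h6 : (a k) ^ 2 * 1 ≤ (a k) ^ 2 * (‖inner ℝ (b i) (v : Eu n)‖ ^ 2 * n) :=
      mul_le_mul_of_nonneg_left h5 (sq_nonneg _)
    have h7 : (a k) ^ 2 * (‖inner ℝ (b i) (v : Eu n)‖ ^ 2 * n) ≤ (n * h v) ^ 2 := by
      calc (a k) ^ 2 * (‖inner ℝ (b i) (v : Eu n)‖ ^ 2 * n) =
          ((a k) ^ 2 * ‖inner ℝ (b i) (v : Eu n)‖ ^ 2) * n := by ring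
        _ ≤ (n * h v ^ 2) * n := mul_le_mul_of_nonneg_right h3 hn.le
        _ = _ := by ring
    linarith
  have h18 : ∑ i, ‖inner ℝ (b i) (v : Eu n)‖ ^ 2 < ∑ i : Fin n, (1 / (n:ℝ)) := by
    have : Nonempty (Fin n) := ⟨⟨0, NeZero.pos n⟩⟩
    exact Finset.sum_lt_sum_of_nonempty Finset.univ_nonempty fun i _ => h8 i
  rw [h17, Finset.sum_const, Finset.card_univ, Fintype.card_fin, nsmul_eq_mul,
    mul_one_div_cancel hn.ne'] at h18
  exact lt_irrefl _ h18

/-- the longest side of the box is bounded by `√n` -/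
lemma Bx.le_sqrt [NeZero n] {b : OrthonormalBasis (Fin n) ℝ (Eu n)} {a : Fin n → ℝ}
    (hB : Bx h b a) (hle : ∀ v, h v ≤ 1) (k : Fin n) : a k ≤ √n := by
  have h1 := hB.lo ⟨b k, by rw [mem_sphere_zero_iff_norm]; exact b.norm_eq_one k⟩ k
  have h2 : inner ℝ (b k) (b k) = (1:ℝ) := by
    rw [real_inner_self_eq_norm_sq, b.norm_eq_one, one_pow]
  rw [h2, abs_one, mul_one] at h1
  refine h1.trans ?_
  have := mul_le_mul_of_nonneg_left (hle ⟨b k, by
    rw [mem_sphere_zero_iff_norm]; exact b.norm_eq_one k⟩) (Real.sqrt_nonneg (n:ℝ))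
  rwa [mul_one] at this

/-- the longest side is at least `1 / n` if the body has width one -/
lemma Bx.one_le [NeZero n] (hc : Continuous h) (h0 : ∀ v, 0 < h v) (hs : ∀ v, supp h v = h v)
    {b : OrthonormalBasis (Fin n) ℝ (Eu n)} {a : Fin n → ℝ}
    (hB : Bx h b a) (h1 : ∃ v, h v = 1) (k : Fin n) (hk : ∀ i, a i ≤ a k) : 1 ≤ n * a k := by
  have hn : (0:ℝ) < n := by exact_mod_cast NeZero.pos n
  obtain ⟨v, hv⟩ := h1
  obtain ⟨x, hx, hxv, -⟩ := exists_supp hc h0 v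
  rw [hs, hv] at hxv
  rw [hxv]
  refine ((le_abs_self _).trans (abs_inner_le x v)).trans ?_
  have h7 := b.sum_sq_norm_inner_right x
  have h8 : ‖x‖ ^ 2 ≤ (n * a k) ^ 2 := by
    rw [← h7]
    calc ∑ i, ‖inner ℝ (b i) x‖ ^ 2 ≤ ∑ i : Fin n, (√n * a k) ^ 2 := by
          refine Finset.sum_le_sum fun i _ => ?_
          rw [Real.norm_eq_abs]
          refine pow_le_pow_left₀ (abs_nonneg _) ((hB.up x hx i).trans ?_) 2
          exact mul_le_mul_of_nonneg_left (hk i) (Real.sqrt_nonneg _)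
      _ = (n * a k) ^ 2 := by
          rw [Finset.sum_const, Finset.card_univ, Fintype.card_fin, nsmul_eq_mul, mul_pow,
            Real.sq_sqrt hn.le]
          ring
  exact (pow_le_pow_iff_left₀ (norm_nonneg x) (mul_pos hn (hB.pos k)).le (by norm_num)).1 h8

end XNH

end Pool.Agent.Lib.MP_b0d2bf_gt
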