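import Mathlib
import Pool.Agent.Lib.MP_b0d2bf_gt.XNH

set_option autoImplicit false

/-!
The retraction of the space of invariant functions onto normalised support functions.
-/

namespace Pool.Agent.Lib.MP_b0d2bf_gt

open MeasureTheory Metric Set Filter Topology

section XRho

variable {n : ℕ} {G : Subgroup (Eu n ≃ₗᵢ[ℝ] Eu n)}

lemma continuous_ex (f : C(Sph n, ℝ)) : Continuous (ex f) := Real.continuous_exp.comp f.continuous

lemma ex_pos (f : C(Sph n, ℝ)) (v : Sph n) : 0 < ex f v := Real.exp_pos _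

lemma ex_inv (f : XS G) : FInv G (ex (f : C(Sph n, ℝ))) := by
  intro g hg v
  unfold ex
  rw [f.2 g hg v]

/-- logarithm of the support function of the Wulff shape of `ex f` -/
noncomputable def lsup [NeZero n] (f : C(Sph n, ℝ)) : C(Sph n, ℝ) :=
  ⟨fun v => Real.log (supp (ex f) v),
    (continuous_supp (continuous_ex f) (ex_pos f)).log
      fun v => (supp_pos (continuous_ex f) (ex_pos f) v).ne'⟩

/-- the maximum of `lsup f` -/
noncomputable def mxl [NeZero n] (f : C(Sph n, ℝ)) : ℝ := ⨆ v, lsup f v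

lemma lsup_le_mxl [NeZero n] (f : C(Sph n, ℝ)) (v : Sph n) : lsup f v ≤ mxl f :=
  le_ciSup (isCompact_range (lsup f).continuous).bddAbove v

lemma exists_mxl [NeZero n] (f : C(Sph n, ℝ)) : ∃ v, lsup f v = mxl f := by
  obtain ⟨v, -, hv⟩ := isCompact_univ.exists_isMaxOn (univ_nonempty (α := Sph n))
    (lsup f).continuous.continuousOn
  exact ⟨v, le_antisymm (lsup_le_mxl f v) (ciSup_le fun w => hv (mem_univ w))⟩

/-- the retraction -/
noncomputable def rhoX [NeZero n] (f : XS G) : XS G :=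
  ⟨lsup (f : C(Sph n, ℝ)) - ContinuousMap.const _ (mxl (f : C(Sph n, ℝ))), by
    intro g hg v
    have h1 : supp (ex (f : C(Sph n, ℝ))) (actS g v) = supp (ex (f : C(Sph n, ℝ))) v :=
      supp_act (continuous_ex _) (ex_pos _) (ex_inv f) g hg v
    show Real.log _ - _ = Real.log _ - _
    rw [h1]
    rfl⟩

lemma rhoX_apply [NeZero n] (f : XS G) (v : Sph n) : ((rhoX f : XS G) : C(Sph n, ℝ)) v =
    Real.log (supp (ex (f : C(Sph n, ℝ))) v) - mxl (f : C(Sph n, ℝ)) := rfl

lemma ex_rhoX [NeZero n] (f : XS G) (v : Sph n) : ex ((rhoX f : XS G) : C(Sph n, ℝ)) v =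
    Real.exp (-mxl (f : C(Sph n, ℝ))) * supp (ex (f : C(Sph n, ℝ))) v := by
  unfold ex
  rw [rhoX_apply, sub_eq_neg_add, Real.exp_add,
    Real.exp_log (supp_pos (continuous_ex _) (ex_pos _) v)]
  rfl

lemma supp_ex_rhoX [NeZero n] (f : XS G) (v : Sph n) :
    supp (ex ((rhoX f : XS G) : C(Sph n, ℝ))) v = ex ((rhoX f : XS G) : C(Sph n, ℝ)) v := by
  have hc := continuous_ex (f : C(Sph n, ℝ))
  have h0 := ex_pos (f : C(Sph n, ℝ))
  have h1 : ex ((rhoX f : XS G) : C(Sph n, ℝ)) =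
      fun v => Real.exp (-mxl (f : C(Sph n, ℝ))) * supp (ex (f : C(Sph n, ℝ))) v :=
    funext fun v => ex_rhoX f v
  rw [h1]
  exact supp_smul (continuous_supp hc h0) (supp_pos hc h0) (supp_supp hc h0) (Real.exp_pos _) v

/-- the image of the retraction consists of normalised support functions -/
lemma Bd_rhoX [NeZero n] (hneg : LinearIsometryEquiv.neg ℝ ∈ G) (f : XS G) :
    Bd G (ex ((rhoX f : XS G) : C(Sph n, ℝ))) where
  cont := continuous_ex _
  pos := ex_pos _
  inv := ex_inv _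
  even := even_of_inv hneg (ex_inv _)
  supp := supp_ex_rhoX f
  le := by
    intro v
    unfold ex
    rw [Real.exp_le_one_iff, rhoX_apply, sub_nonpos]
    exact lsup_le_mxl _ v
  one := by
    obtain ⟨v, hv⟩ := exists_mxl (f : C(Sph n, ℝ))
    refine ⟨v, ?_⟩
    unfold ex
    rw [rhoX_apply]
    have h1 : Real.log (supp (ex (f : C(Sph n, ℝ))) v) = mxl (f : C(Sph n, ℝ)) := hv
    rw [h1, sub_self, Real.exp_zero]

lemma mxl_eq_zero [NeZero n] {f : C(Sph n, ℝ)} (hs : ∀ v, supp (ex f) v = ex f v)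
    (hle : ∀ v, ex f v ≤ 1) (h1 : ∃ v, ex f v = 1) : mxl f = 0 := by
  obtain ⟨v, hv⟩ := h1
  apply le_antisymm
  · refine ciSup_le fun w => ?_
    show Real.log (supp (ex f) w) ≤ 0
    rw [hs]
    exact Real.log_nonpos (ex_pos f w).le (hle w)
  · have h2 := lsup_le_mxl f v
    have h3 : lsup f v = 0 := by
      show Real.log (supp (ex f) v) = 0
      rw [hs, hv, Real.log_one]
    rwa [h3] at h2

/-- normalised support functions are fixed -/
lemma rhoX_eq_self [NeZero n] {f : XS G} (hB : Bd G (ex (f : C(Sph n, ℝ)))) : rhoX f = f := by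
  apply Subtype.ext
  ext v
  rw [rhoX_apply, mxl_eq_zero hB.supp hB.le hB.one, sub_zero, hB.supp]
  exact Real.log_exp _

lemma rhoX_idem [NeZero n] (hneg : LinearIsometryEquiv.neg ℝ ∈ G) (f : XS G) :
    rhoX (rhoX f) = rhoX f := rhoX_eq_self (Bd_rhoX hneg f)

lemma Bd_of_fix [NeZero n] (hneg : LinearIsometryEquiv.neg ℝ ∈ G) {f : XS G}
    (hf : rhoX f = f) : Bd G (ex (f : C(Sph n, ℝ))) := by
  rw [← hf]
  exact Bd_rhoX hneg f

/-- every normalised support function is `ex f` of a fixed point -/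
lemma exists_of_Bd [NeZero n] {h : Sph n → ℝ} (hB : Bd G h) :
    ∃ f : XS G, rhoX f = f ∧ ex (f : C(Sph n, ℝ)) = h := by
  set f : XS G := ⟨⟨fun v => Real.log (h v), hB.cont.log fun v => (hB.pos v).ne'⟩, by
    intro g hg v
    show Real.log (h (actS g v)) = Real.log (h v)
    rw [hB.inv g hg v]⟩ with hf
  have h1 : ex (f : C(Sph n, ℝ)) = h := by
    funext v
    exact Real.exp_log (hB.pos v)
  exact ⟨f, rhoX_eq_self (by rw [h1]; exact hB), h1⟩

lemma ex_le_of_norm {f g : C(Sph n, ℝ)} {d : ℝ} (hd : ∀ v, |f v - g v| ≤ d) (v : Sph n) :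
    ex f v ≤ Real.exp d * ex g v := by
  unfold ex
  rw [← Real.exp_add]
  apply Real.exp_le_exp.2
  linarith [le_abs_self (f v - g v), hd v]

lemma wulff_mono {h k : Sph n → ℝ} (hle : ∀ v, h v ≤ k v) : wulff h ⊆ wulff k :=
  fun _ hx v => (hx v).trans (hle v)

lemma supp_mono [NeZero n] {h k : Sph n → ℝ} (hc : Continuous h) (h0 : ∀ v, 0 < h v)
    (kc : Continuous k) (k0 : ∀ v, 0 < k v) (hle : ∀ v, h v ≤ k v) (v : Sph n) :
    supp h v ≤ supp k v := by
  obtain ⟨x, hx, h1, -⟩ := exists_supp hc h0 v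
  rw [h1]
  exact inner_le_supp kc k0 v (wulff_mono hle hx)

lemma supp_le_mul [NeZero n] {h k : Sph n → ℝ} (hc : Continuous h) (h0 : ∀ v, 0 < h v)
    (kc : Continuous k) (k0 : ∀ v, 0 < k v) {l : ℝ} (hl : 0 < l) (hle : ∀ v, h v ≤ l * k v)
    (v : Sph n) : supp h v ≤ l * supp k v := by
  have kc' : Continuous fun v => l * k v := continuous_const.mul kc
  have k0' : ∀ v, 0 < l * k v := fun v => mul_pos hl (k0 v)
  obtain ⟨x, hx, h1, -⟩ := exists_supp hc h0 v
  rw [h1]
  have h2 : l⁻¹ • x ∈ wulff k := by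
    intro w
    rw [inner_smul_left]
    have h3 : inner ℝ x (w : Eu n) ≤ l * k w := (hx w).trans (hle w)
    have h4 : (starRingEnd ℝ) l⁻¹ = l⁻¹ := rfl
    rw [h4, inv_mul_le_iff₀ hl]
    exact h3
  have h3 := inner_le_supp kc k0 v h2
  rw [inner_smul_left] at h3
  have h4 : (starRingEnd ℝ) l⁻¹ = l⁻¹ := rfl
  rw [h4, inv_mul_le_iff₀ hl] at h3
  exact h3

lemma lsup_sub_le [NeZero n] {f g : C(Sph n, ℝ)} {d : ℝ} (hd : ∀ v, |f v - g v| ≤ d) (v : Sph n) :
    lsup f v - lsup g v ≤ d := by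
  have h1 := supp_le_mul (continuous_ex f) (ex_pos f) (continuous_ex g) (ex_pos g)
    (Real.exp_pos d) (ex_le_of_norm hd) v
  have h2 := supp_pos (continuous_ex f) (ex_pos f) v
  have h3 := supp_pos (continuous_ex g) (ex_pos g) v
  have h4 := Real.log_le_log h2 h1
  rw [Real.log_mul (Real.exp_pos d).ne' h3.ne', Real.log_exp] at h4
  show Real.log _ - Real.log _ ≤ d
  linarith

lemma abs_lsup_sub_le [NeZero n] {f g : C(Sph n, ℝ)} {d : ℝ} (hd : ∀ v, |f v - g v| ≤ d)
    (v : Sph n) : |lsup f v - lsup g v| ≤ d := by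
  rw [abs_le]
  constructor
  · have := lsup_sub_le (f := g) (g := f) (fun v => by rw [abs_sub_comm]; exact hd v) v
    linarith
  · exact lsup_sub_le hd v

lemma abs_mxl_sub_le [NeZero n] {f g : C(Sph n, ℝ)} {d : ℝ} (hd : ∀ v, |f v - g v| ≤ d) :
    |mxl f - mxl g| ≤ d := by
  have key : ∀ (f g : C(Sph n, ℝ)), (∀ v, |f v - g v| ≤ d) → mxl f - mxl g ≤ d := by
    intro f g hd
    obtain ⟨v, hv⟩ := exists_mxl f
    rw [← hv]
    have := lsup_sub_le hd v
    have := lsup_le_mxl g v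
    linarith
  rw [abs_le]
  constructor
  · have := key g f fun v => by rw [abs_sub_comm]; exact hd v
    linarith
  · exact key f g hd

lemma dist_rhoX_le [NeZero n] (f g : XS G) : dist (rhoX f) (rhoX g) ≤ 2 * dist f g := by
  have hd : ∀ v, |(f : C(Sph n, ℝ)) v - (g : C(Sph n, ℝ)) v| ≤ dist f g := by
    intro v
    have h1 := ContinuousMap.dist_apply_le_dist (f := (f : C(Sph n, ℝ)))
      (g := (g : C(Sph n, ℝ))) v
    rwa [Real.dist_eq] at h1
  show dist ((rhoX f : XS G) : C(Sph n, ℝ)) ((rhoX g : XS G) : C(Sph n, ℝ)) ≤ _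
  rw [ContinuousMap.dist_le (by positivity)]
  intro v
  rw [Real.dist_eq, rhoX_apply, rhoX_apply]
  have h1 := abs_lsup_sub_le hd v
  have h2 := abs_mxl_sub_le hd
  have h3 : lsup (f : C(Sph n, ℝ)) v = Real.log (supp (ex (f : C(Sph n, ℝ))) v) := rfl
  have h4 : lsup (g : C(Sph n, ℝ)) v = Real.log (supp (ex (g : C(Sph n, ℝ))) v) := rfl
  rw [h3, h4] at h1
  rw [abs_le] at h1 h2 ⊢
  constructor <;> linarith [h1.1, h1.2, h2.1, h2.2]

lemma continuous_rhoX [NeZero n] : Continuous (rhoX : XS G → XS G) := by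
  have : LipschitzWith 2 (rhoX : XS G → XS G) :=
    LipschitzWith.of_dist_le_mul fun f g => by
      have := dist_rhoX_le f g
      simpa using this
  exact this.continuous

end XRho

end Pool.Agent.Lib.MP_b0d2bf_gt
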