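import Mathlib
import Pool.Agent.Lib.MP_b0d2bf_gt.XRho

set_option autoImplicit false

/-!
The penalty function.
-/

namespace Pool.Agent.Lib.MP_b0d2bf_gt

open MeasureTheory Metric Set Filter Topology

section XPen

lemma pen_zero {M u : ℝ} (h : u ≤ M) : pen M u = 0 := by
  unfold pen; rw [if_pos h]

lemma pen'_zero {M u : ℝ} (h : u ≤ M) : pen' M u = 0 := by
  unfold pen'
  rw [max_eq_left]
  exact (min_le_right _ _).trans (by linarith)

lemma pen'_one {M u : ℝ} (h : M + 1 ≤ u) : pen' M u = 1 := by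
  unfold pen'
  rw [min_eq_left (by linarith), max_eq_right zero_le_one]

lemma pen'_mem (M u : ℝ) : pen' M u ∈ Icc (0:ℝ) 1 := by
  unfold pen'
  exact ⟨le_max_left _ _, max_le zero_le_one (min_le_left _ _)⟩

lemma continuous_pen' (M : ℝ) : Continuous (pen' M) := by
  unfold pen'
  exact continuous_const.max (continuous_const.min (continuous_id.sub continuous_const))

lemma pen_hasDerivAt (M u : ℝ) : HasDerivAt (pen M) (pen' M u) u := by
  have hq : ∀ x : ℝ, HasDerivAt (fun u : ℝ => (u - M) ^ 2 / 2) (x - M) x := by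
    intro x
    have h1 := (((hasDerivAt_id x).sub_const M).pow 2).div_const 2
    have h2 : ((2:ℕ) : ℝ) * (id x - M) ^ (2 - 1) * 1 / 2 = x - M := by
      simp
    rw [h2] at h1
    exact h1
  have hl : ∀ x : ℝ, HasDerivAt (fun u : ℝ => u - M - 1 / 2) 1 x := by
    intro x
    exact ((hasDerivAt_id x).sub_const M).sub_const (1 / 2)
  rcases lt_trichotomy u M with h | h | h
  · rw [pen'_zero h.le]
    refine (hasDerivAt_const u (0:ℝ)).congr_of_eventuallyEq ?_
    filter_upwards [Iio_mem_nhds h] with x hx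
    exact pen_zero (le_of_lt hx)
  · rw [pen'_zero h.le]
    subst h
    have h1 : HasDerivWithinAt (pen u) 0 (Iic u) u := by
      refine (hasDerivWithinAt_const u (Iic u) (0:ℝ)).congr (fun x hx => pen_zero hx)
        (pen_zero le_rfl)
    have h2 : HasDerivWithinAt (pen u) 0 (Ici u) u := by
      have h3 := (hq u).hasDerivWithinAt (s := Ici u)
      rw [sub_self] at h3
      have h4 : pen u u = (u - u) ^ 2 / 2 := by rw [pen_zero le_rfl]; ring
      have h5 : ∀ᶠ x in 𝓝[Ici u] u, pen u x = (x - u) ^ 2 / 2 := by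
        have : ∀ᶠ x in 𝓝[Ici u] u, x < u + 1 :=
          mem_nhdsWithin_of_mem_nhds (Iio_mem_nhds (by linarith))
        filter_upwards [this, self_mem_nhdsWithin] with x hx hx2
        unfold pen
        by_cases h6 : x ≤ u
        · have : x = u := le_antisymm h6 hx2
          rw [if_pos h6, this]; ring
        · rw [if_neg h6, if_pos hx.le]
      exact h3.congr_of_eventuallyEq h5 h4
    have h3 := h1.union h2
    rw [Iic_union_Ici] at h3
    exact hasDerivWithinAt_univ.1 h3
  · rcases lt_trichotomy u (M + 1) with h' | h' | h'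
    · have h1 : pen' M u = u - M := by
        unfold pen'
        rw [min_eq_right (by linarith), max_eq_right (by linarith)]
      rw [h1]
      refine (hq u).congr_of_eventuallyEq ?_
      filter_upwards [Ioo_mem_nhds h h'] with x hx
      unfold pen
      rw [if_neg (not_le.2 hx.1), if_pos hx.2.le]
    · rw [pen'_one h'.ge]
      have h0 : pen M u = (u - M) ^ 2 / 2 := by
        unfold pen
        rw [if_neg (not_le.2 h), if_pos h'.le]
      have h1 : HasDerivWithinAt (pen M) 1 (Iic u) u := by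
        have h3 := (hq u).hasDerivWithinAt (s := Iic u)
        rw [h', add_sub_cancel_left] at h3
        rw [← h'] at h3
        refine h3.congr_of_eventuallyEq ?_ h0
        have : ∀ᶠ x in 𝓝[Iic u] u, M < x := mem_nhdsWithin_of_mem_nhds (Ioi_mem_nhds h)
        filter_upwards [this, self_mem_nhdsWithin] with x hx hx2
        unfold pen
        rw [if_neg (not_le.2 hx), if_pos (le_trans hx2 h'.le)]
      have h2 : HasDerivWithinAt (pen M) 1 (Ici u) u := by
        have h3 := (hl u).hasDerivWithinAt (s := Ici u)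
        refine h3.congr (fun x hx => ?_) ?_
        · unfold pen
          have hx' : u ≤ x := hx
          rw [if_neg (by linarith : ¬ x ≤ M)]
          by_cases h6 : x ≤ M + 1
          · have : x = M + 1 := le_antisymm h6 (h' ▸ hx')
            rw [if_pos h6, this]; ring
          · rw [if_neg h6]
        · rw [h0, h']; ring
      have h3 := h1.union h2
      rw [Iic_union_Ici] at h3
      exact hasDerivWithinAt_univ.1 h3
    · rw [pen'_one h'.le]
      refine (hl u).congr_of_eventuallyEq ?_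
      filter_upwards [Ioi_mem_nhds h'] with x hx
      have hx' : M + 1 < x := hx
      unfold pen
      rw [if_neg (by linarith : ¬ x ≤ M), if_neg (by linarith : ¬ x ≤ M + 1)]

lemma continuous_pen (M : ℝ) : Continuous (pen M) :=
  continuous_iff_continuousAt.2 fun u => (pen_hasDerivAt M u).continuousAt

lemma pen_mono (M : ℝ) : Monotone (pen M) :=
  monotone_of_hasDerivAt_nonneg (fun u => pen_hasDerivAt M u) (fun u => (pen'_mem M u).1)

lemma pen_nonneg (M u : ℝ) : 0 ≤ pen M u := by
  rcases le_total u M with h | h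
  · rw [pen_zero h]
  · have := pen_mono M h
    rwa [pen_zero le_rfl] at this

lemma sub_pen_mono (M : ℝ) : Monotone (fun u => u - pen M u) :=
  monotone_of_hasDerivAt_nonneg (fun u => (hasDerivAt_id u).sub (pen_hasDerivAt M u))
    (fun u => sub_nonneg.2 (pen'_mem M u).2)

lemma sub_pen_le (M u : ℝ) : u - pen M u ≤ M + 1 / 2 := by
  have h1 : ∀ x, M + 1 ≤ x → x - pen M x = M + 1 / 2 := by
    intro x hx
    unfold pen
    rw [if_neg (by linarith : ¬ x ≤ M)]
    by_cases h6 : x ≤ M + 1
    · have : x = M + 1 := le_antisymm h6 hx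
      rw [if_pos h6, this]; ring
    · rw [if_neg h6]; ring
  rcases le_total u (M + 1) with h | h
  · have := sub_pen_mono M h
    simp only at this
    rw [h1 _ le_rfl] at this
    exact this
  · rw [h1 u h]

lemma pen_le_half {M u : ℝ} (h : u ≤ M + 1) : pen M u ≤ 1 / 2 := by
  have h1 := pen_mono M h
  have h2 : pen M (M + 1) = 1 / 2 := by
    unfold pen
    rw [if_neg (by linarith : ¬ M + 1 ≤ M), if_pos le_rfl]; ring
  rwa [h2] at h1

end XPen

section FRho

variable {n : ℕ} {G : Subgroup (Eu n ≃ₗᵢ[ℝ] Eu n)}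

lemma integrable_cm (ν : Measure (Sph n)) [IsFiniteMeasure ν] {g : Sph n → ℝ} (hg : Continuous g) :
    Integrable g ν :=
  hg.integrable_of_hasCompactSupport (HasCompactSupport.of_compactSpace _)

lemma Psi_ex [NeZero n] (μ : Measure (Sph n)) (q : ℝ) (f : C(Sph n, ℝ)) :
    Psi μ q (ex f) = (1 / q) * Real.log (II q (ex f)) - ∫ v, f v ∂μ := by
  unfold Psi ex
  simp only [Real.log_exp]

lemma FM_eq [NeZero n] (q : ℝ) (μ σ : Measure (Sph n)) (M : ℝ) (f : C(Sph n, ℝ)) :
    FM q μ σ M f = Psi σ q (ex f) + (Uf σ μ f - pen M (Uf σ μ f)) := by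
  unfold FM
  rw [Psi_ex, Psi_ex]
  unfold Uf
  ring

lemma Psi_add_const [NeZero n] (μ : Measure (Sph n)) [IsProbabilityMeasure μ] {q : ℝ} (hq : 0 < q)
    (f : C(Sph n, ℝ)) (c : ℝ) : Psi μ q (ex (f + ContinuousMap.const _ c)) = Psi μ q (ex f) := by
  have h1 : ex (f + ContinuousMap.const _ c) = fun v => Real.exp c * ex f v := by
    funext v
    unfold ex
    rw [← Real.exp_add, add_comm c]
    rfl
  rw [h1]
  exact Psi_smul μ hq (continuous_ex f) (ex_pos f) (Real.exp_pos c)

lemma Uf_add_const [NeZero n] (σ μ : Measure (Sph n)) [IsProbabilityMeasure σ]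
    [IsProbabilityMeasure μ] (f : C(Sph n, ℝ)) (c : ℝ) :
    Uf σ μ (f + ContinuousMap.const _ c) = Uf σ μ f := by
  unfold Uf
  have h : ∀ (ν : Measure (Sph n)) [IsProbabilityMeasure ν],
      ∫ v, (f + ContinuousMap.const _ c : C(Sph n, ℝ)) v ∂ν = ∫ v, f v ∂ν + c := by
    intro ν _
    have h1 : ∀ v, (f + ContinuousMap.const _ c : C(Sph n, ℝ)) v = f v + c := fun v => rfl
    simp only [h1]
    rw [integral_add (integrable_cm ν f.continuous) (integrable_const c)]
    simp
  rw [h σ, h μ]
  ring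

/-- the retraction does not decrease the functional -/
theorem FM_le_rhoX [NeZero n] {q : ℝ} (hq : 0 < q) (μ σ : Measure (Sph n))
    [IsProbabilityMeasure μ] [IsProbabilityMeasure σ] (M : ℝ) (f : XS G) :
    FM q μ σ M (f : C(Sph n, ℝ)) ≤ FM q μ σ M ((rhoX f : XS G) : C(Sph n, ℝ)) := by
  set f0 : C(Sph n, ℝ) := (f : C(Sph n, ℝ)) with hf0
  have h1 : ((rhoX f : XS G) : C(Sph n, ℝ)) = lsup f0 + ContinuousMap.const _ (-mxl f0) := by
    ext v
    show Real.log _ - mxl f0 = Real.log _ + (-mxl f0)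
    ring
  have h2 : FM q μ σ M ((rhoX f : XS G) : C(Sph n, ℝ)) = FM q μ σ M (lsup f0) := by
    unfold FM
    rw [h1, Psi_add_const μ hq, Uf_add_const]
  rw [h2]
  have hc := continuous_ex f0
  have h0 := ex_pos f0
  have h3 : ex (lsup f0) = supp (ex f0) := by
    funext v
    exact Real.exp_log (supp_pos hc h0 v)
  have h4 : II q (ex (lsup f0)) = II q (ex f0) := by
    rw [h3]
    unfold II
    simp only [gN_supp hc h0]
  have h5 : ∀ v, lsup f0 v ≤ f0 v := by
    intro v
    have h6 := Real.log_le_log (supp_pos hc h0 v) (supp_le hc h0 v)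
    have h7 : Real.log (ex f0 v) = f0 v := Real.log_exp _
    rw [h7] at h6
    exact h6
  have h6 : ∀ (ν : Measure (Sph n)) [IsProbabilityMeasure ν],
      ∫ v, lsup f0 v ∂ν ≤ ∫ v, f0 v ∂ν := fun ν _ =>
    integral_mono (integrable_cm ν (lsup f0).continuous) (integrable_cm ν f0.continuous) h5
  rw [FM_eq, FM_eq, Psi_ex, Psi_ex, h4]
  have h7 := h6 σ
  have h8 := h6 μ
  have h9 : Uf σ μ (lsup f0) = ∫ v, lsup f0 v ∂σ - ∫ v, lsup f0 v ∂μ := rfl
  have h10 : Uf σ μ f0 = ∫ v, f0 v ∂σ - ∫ v, f0 v ∂μ := rfl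
  set s := ∫ v, f0 v ∂σ
  set s' := ∫ v, lsup f0 v ∂σ
  set m := ∫ v, f0 v ∂μ
  set m' := ∫ v, lsup f0 v ∂μ
  -- `u' = s' - m' ≥ u - (s - s')`
  have h11 : Uf σ μ f0 - (s - s') ≤ Uf σ μ (lsup f0) := by rw [h9, h10]; linarith
  have h12 := sub_pen_mono M h11
  simp only at h12
  have h13 : pen M (Uf σ μ f0 - (s - s')) ≤ pen M (Uf σ μ f0) := pen_mono M (by linarith)
  linarith

end FRho

end Pool.Agent.Lib.MP_b0d2bf_gt
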