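import Mathlib
import Pool.Agent.Lib.MP_b0d2bf_gt.XPen

set_option autoImplicit false

/-!
Further definitions: flags of an orthonormal basis, degenerating sequences, heavy subspaces.
-/

namespace Pool.Agent.Lib.MP_b0d2bf_gt

open MeasureTheory Metric Set Filter Topology

variable {n : ℕ}

/-- predecessor of an index (and `pr 0 = 0`) -/
def pr (k : Fin n) : Fin n := ⟨k.1 - 1, by omega⟩

/-- vectors orthogonal to the first `k` vectors of an orthonormal basis -/
def tl (e : OrthonormalBasis (Fin n) ℝ (Eu n)) (k : Fin n) : Submodule ℝ (Eu n) where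
  carrier := {x | ∀ i, i < k → inner ℝ (e i) x = 0}
  add_mem' := by
    intro x y hx hy i hi
    rw [inner_add_right, hx i hi, hy i hi, add_zero]
  zero_mem' := by
    intro i _
    exact inner_zero_right _
  smul_mem' := by
    intro c x hx i hi
    rw [inner_smul_right, hx i hi, mul_zero]

/-- along the ultrafilter the box becomes infinitely thinner at `k` than at its predecessor;
for `k = 0` this is false because the quotient is one -/
def Gap (𝒰 : Ultrafilter ℕ) (a : ℕ → Fin n → ℝ) (k : Fin n) : Prop :=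
  Tendsto (fun j => a j k / a j (pr k)) 𝒰 (𝓝 0)

/-- a sequence of normalised bodies with box approximations and limit frame -/
structure Sq (G : Subgroup (Eu n ≃ₗᵢ[ℝ] Eu n)) (𝒰 : Ultrafilter ℕ) (h : ℕ → Sph n → ℝ)
    (b : ℕ → OrthonormalBasis (Fin n) ℝ (Eu n)) (a : ℕ → Fin n → ℝ)
    (e : OrthonormalBasis (Fin n) ℝ (Eu n)) : Prop where
  bd : ∀ j, Bd G (h j)
  bx : ∀ j, Bx (h j) (b j) (a j)
  lim : ∀ i, Tendsto (fun j => b j i) 𝒰 (𝓝 (e i))

/-- the equation satisfied by critical points of the penalised functional -/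
def CEq [NeZero n] (q : ℝ) (μ σ : Measure (Sph n)) (t : ℝ) (h : Sph n → ℝ) : Prop :=
  MM q h = ENNReal.ofReal (II q h) • (ENNReal.ofReal t • μ + ENNReal.ofReal (1 - t) • σ)

/-- nondegenerate measure: no invariant subspace has exactly the critical mass -/
def Nondeg (G : Subgroup (Eu n ≃ₗᵢ[ℝ] Eu n)) (q : ℝ) (μ : Measure (Sph n)) : Prop :=
  ∀ L : Submodule ℝ (Eu n), SInv G L → L ≠ ⊥ → L ≠ ⊤ → mass μ L ≠ Module.finrank ℝ L / q

/-- heavy invariant subspace -/
def Heavy (G : Subgroup (Eu n ≃ₗᵢ[ℝ] Eu n)) (q : ℝ) (μ : Measure (Sph n))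
    (L : Submodule ℝ (Eu n)) : Prop :=
  SInv G L ∧ L ≠ ⊥ ∧ L ≠ ⊤ ∧ Module.finrank ℝ L / q < mass μ L

/-- the heavy subspaces split into two classes without inclusions between them -/
structure Split (G : Subgroup (Eu n ≃ₗᵢ[ℝ] Eu n)) (q : ℝ) (μ : Measure (Sph n))
    (A B : Set (Submodule ℝ (Eu n))) : Prop where
  heavy : ∀ L, Heavy G q μ L ↔ L ∈ A ∨ L ∈ B
  sep : ∀ W ∈ A, ∀ L ∈ B, ¬ W ≤ L ∧ ¬ L ≤ W

lemma Split.symm {G : Subgroup (Eu n ≃ₗᵢ[ℝ] Eu n)} {q : ℝ} {μ : Measure (Sph n)}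
    {A B : Set (Submodule ℝ (Eu n))} (h : Split G q μ A B) : Split G q μ B A where
  heavy := fun L => by rw [h.heavy L, or_comm]
  sep := fun W hW L hL => ⟨(h.sep L hL W hW).2, (h.sep L hL W hW).1⟩

/-- uniform probability measure on the sphere -/
noncomputable def sgu (n : ℕ) : Measure (Sph n) := (sg n univ)⁻¹ • sg n

end Pool.Agent.Lib.MP_b0d2bf_gt
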