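import Mathlib
import Pool.Agent.Lib.MP_b0d2bf_gt.XDefs2
import Pool.Agent.Lib.MP_b0d2bf_gt.XNH

set_option autoImplicit false

/-!
The exact invariant subspace on which a degenerating sequence of bodies has size `O(r j)`.
-/

namespace Pool.Agent.Lib.MP_b0d2bf_gt

open MeasureTheory Metric Set Filter Topology

namespace XAlign

variable {n : ℕ} [NeZero n] {G : Subgroup (Eu n ≃ₗᵢ[ℝ] Eu n)} {𝒰 : Ultrafilter ℕ}
  {h : ℕ → Sph n → ℝ} {r : ℕ → ℝ}

/-- limits of vectors of `W` of size `O(r j)` -/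
def VS (𝒰 : Ultrafilter ℕ) (hB : ∀ j, Bd G (h j)) (r : ℕ → ℝ)
    (W : Submodule ℝ (Eu n)) : Submodule ℝ (Eu n) where
  carrier := {w | ∃ y : ℕ → Eu n, (∀ j, y j ∈ W) ∧ Tendsto y 𝒰 (𝓝 w) ∧
    ∃ C : ℝ, ∀ᶠ j in (𝒰 : Filter ℕ), nH (h j) (y j) ≤ C * r j}
  add_mem' := by
    rintro a b ⟨y, hy, hya, C, hC⟩ ⟨z, hz, hzb, D, hD⟩
    refine ⟨fun j => y j + z j, fun j => W.add_mem (hy j) (hz j), hya.add hzb, C + D, ?_⟩
    filter_upwards [hC, hD] with j h1 h2
    have := nH_add_le (hB j).cont (hB j).pos (y j) (z j)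
    linarith
  zero_mem' := by
    refine ⟨fun _ => 0, fun j => W.zero_mem, tendsto_const_nhds, 0, Eventually.of_forall fun j => ?_⟩
    have := nH_smul (hB j).cont (hB j).pos (hB j).even 0 (0 : Eu n)
    rw [smul_zero, abs_zero, zero_mul] at this
    rw [this, zero_mul]
  smul_mem' := by
    rintro c a ⟨y, hy, hya, C, hC⟩
    refine ⟨fun j => c • y j, fun j => W.smul_mem c (hy j), hya.const_smul c, |c| * C, ?_⟩
    filter_upwards [hC] with j h1
    rw [nH_smul (hB j).cont (hB j).pos (hB j).even]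
    have := mul_le_mul_of_nonneg_left h1 (abs_nonneg c)
    linarith

lemma mem_VS (hB : ∀ j, Bd G (h j)) {W : Submodule ℝ (Eu n)} {w : Eu n} :
    w ∈ VS 𝒰 hB r W ↔ ∃ y : ℕ → Eu n, (∀ j, y j ∈ W) ∧ Tendsto y 𝒰 (𝓝 w) ∧
    ∃ C : ℝ, ∀ᶠ j in (𝒰 : Filter ℕ), nH (h j) (y j) ≤ C * r j := Iff.rfl

lemma VS_le (hB : ∀ j, Bd G (h j)) (W : Submodule ℝ (Eu n)) : VS 𝒰 hB r W ≤ W := by
  rintro w ⟨y, hy, hyw, -⟩
  have hcl : IsClosed (W : Set (Eu n)) := W.closed_of_finiteDimensional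
  exact hcl.mem_of_tendsto hyw (Eventually.of_forall hy)

lemma VS_le_limS (hB : ∀ j, Bd G (h j)) (W : Submodule ℝ (Eu n)) :
    VS 𝒰 hB r W ≤ limS 𝒰 h r := by
  rintro w ⟨y, hy, hyw, C, hC⟩
  exact Submodule.subset_span ⟨y, hyw, C, hC⟩

lemma VS_near (hB : ∀ j, Bd G (h j)) (W : Submodule ℝ (Eu n)) (C : ℝ) {δ : ℝ} (hδ : 0 < δ) :
    ∀ᶠ j in (𝒰 : Filter ℕ), ∀ v : Sph n, (v : Eu n) ∈ W → h j v ≤ C * r j →
      infDist (v : Eu n) (VS 𝒰 hB r W : Set (Eu n)) < δ := by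
  classical
  by_contra hcon
  have hcon' := (Ultrafilter.eventually_not (f := 𝒰)).2 hcon
  have hex : ∀ᶠ j in (𝒰 : Filter ℕ), ∃ v : Sph n, (v : Eu n) ∈ W ∧ h j v ≤ C * r j ∧
      δ ≤ infDist (v : Eu n) (VS 𝒰 hB r W : Set (Eu n)) := by
    filter_upwards [hcon'] with j hj
    push Not at hj
    obtain ⟨v, h1, h2, h3⟩ := hj
    exact ⟨v, h1, h2, h3⟩
  let P : ℕ → Sph n → Prop := fun j v => (v : Eu n) ∈ W ∧ h j v ≤ C * r j ∧
      δ ≤ infDist (v : Eu n) (VS 𝒰 hB r W : Set (Eu n))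
  let y : ℕ → Eu n := fun j => if hj : ∃ v, P j v then ((Classical.choose hj : Sph n) : Eu n) else 0
  have hyW : ∀ j, y j ∈ W := by
    intro j
    by_cases hj : ∃ v, P j v
    · simp only [y, dif_pos hj]
      exact (Classical.choose_spec hj).1
    · simp only [y, dif_neg hj]
      exact W.zero_mem
  have hyn : ∀ j, y j ∈ closedBall (0 : Eu n) 1 := by
    intro j
    rw [mem_closedBall_zero_iff]
    by_cases hj : ∃ v, P j v
    · simp only [y, dif_pos hj]
      rw [norm_sph]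
    · simp only [y, dif_neg hj]
      rw [norm_zero]
      exact zero_le_one
  have hcomp : IsCompact (closedBall (0 : Eu n) 1) := isCompact_closedBall _ _
  have hle : ((𝒰.map y : Ultrafilter (Eu n)) : Filter (Eu n)) ≤ 𝓟 (closedBall (0 : Eu n) 1) := by
    rw [le_principal_iff]
    exact Eventually.of_forall (f := (𝒰 : Filter ℕ)) hyn
  obtain ⟨w, -, hw⟩ := hcomp.ultrafilter_le_nhds (𝒰.map y) hle
  have htend : Tendsto y 𝒰 (𝓝 w) := hw
  have hwV : w ∈ VS 𝒰 hB r W := by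
    refine ⟨y, hyW, htend, C, ?_⟩
    filter_upwards [hex] with j hj
    have hj' : ∃ v, P j v := hj
    simp only [y, dif_pos hj']
    rw [nH_sph, (hB j).supp]
    exact (Classical.choose_spec hj').2.1
  have hsm : ∀ᶠ j in (𝒰 : Filter ℕ), dist (y j) w < δ := Metric.tendsto_nhds.1 htend δ hδ
  obtain ⟨j, h1, h2⟩ := (hex.and hsm).exists
  have hj' : ∃ v, P j v := h1
  have h3 : δ ≤ infDist (y j) (VS 𝒰 hB r W : Set (Eu n)) := by
    simp only [y, dif_pos hj']
    exact (Classical.choose_spec hj').2.2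
  have h4 : infDist (y j) (VS 𝒰 hB r W : Set (Eu n)) ≤ dist (y j) w := infDist_le_dist_of_mem hwV
  linarith

lemma mass_near' (μ : Measure (Sph n)) [IsFiniteMeasure μ] (L : Submodule ℝ (Eu n)) {η : ℝ}
    (hη : 0 < η) :
    ∃ δ > 0, μ.real {v : Sph n | infDist (v : Eu n) (L : Set (Eu n)) < δ ∧ (v : Eu n) ∉ L} < η := by
  let s : ℕ → Set (Sph n) := fun k =>
    {v : Sph n | infDist (v : Eu n) (L : Set (Eu n)) < 1 / ((k:ℝ) + 1) ∧ (v : Eu n) ∉ L}
  have hcl : IsClosed (L : Set (Eu n)) := L.closed_of_finiteDimensional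
  have hcont : Continuous (fun v : Sph n => infDist (v : Eu n) (L : Set (Eu n))) :=
    (continuous_infDist_pt _).comp continuous_subtype_val
  have hmeas : ∀ k, MeasurableSet (s k) := by
    intro k
    apply MeasurableSet.inter
    · exact (isOpen_lt hcont continuous_const).measurableSet
    · exact (hcl.preimage continuous_subtype_val).measurableSet.compl
  have hanti : Antitone s := by
    intro k l hkl v hv
    refine ⟨lt_of_lt_of_le hv.1 ?_, hv.2⟩
    have : (k:ℝ) ≤ l := by exact_mod_cast hkl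
    exact one_div_le_one_div_of_le (by positivity) (by linarith)
  have hemp : ⋂ k, s k = ∅ := by
    rw [eq_empty_iff_forall_notMem]
    intro v hv
    rw [mem_iInter] at hv
    have h0 : infDist (v : Eu n) (L : Set (Eu n)) ≤ 0 := by
      apply le_of_forall_pos_lt_add
      intro ε hε
      obtain ⟨k, hk⟩ := exists_nat_one_div_lt hε
      have := (hv k).1
      linarith
    have h1 : infDist (v : Eu n) (L : Set (Eu n)) = 0 := le_antisymm h0 infDist_nonneg
    have h2 : (v : Eu n) ∈ (L : Set (Eu n)) :=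
      (hcl.mem_iff_infDist_zero ⟨0, L.zero_mem⟩).2 h1
    exact (hv 0).2 h2
  have ht := tendsto_measure_iInter_atTop (μ := μ) (s := s) (fun k => (hmeas k).nullMeasurableSet) hanti
    ⟨0, measure_ne_top _ _⟩
  rw [hemp, measure_empty] at ht
  have ht2 : ∀ᶠ k in atTop, μ (s k) < ENNReal.ofReal η :=
    (tendsto_order.1 ht).2 _ (ENNReal.ofReal_pos.2 hη)
  obtain ⟨k, hk⟩ := ht2.exists
  refine ⟨1 / ((k:ℝ) + 1), by positivity, ?_⟩
  have : (μ (s k)).toReal < η := by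
    rw [← ENNReal.toReal_ofReal hη.le]
    exact (ENNReal.toReal_lt_toReal (measure_ne_top _ _) ENNReal.ofReal_ne_top).2 hk
  exact this

/-- the family of subspaces which carry almost all of the thin directions -/
def FF (𝒰 : Ultrafilter ℕ) (h : ℕ → Sph n → ℝ) (r : ℕ → ℝ) (μ : Measure (Sph n))
    (W : Submodule ℝ (Eu n)) : Prop :=
  ∀ C η : ℝ, 0 < η → ∀ᶠ j in (𝒰 : Filter ℕ),
        μ.real {v : Sph n | h j v ≤ C * r j ∧ (v : Eu n) ∉ W} < η

lemma FF_top (μ : Measure (Sph n)) : FF 𝒰 h r μ (⊤ : Submodule ℝ (Eu n)) := by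
  intro C η hη
  refine Eventually.of_forall fun j => ?_
  have : {v : Sph n | h j v ≤ C * r j ∧ (v : Eu n) ∉ (⊤ : Submodule ℝ (Eu n))} = ∅ := by
    ext v
    simp
  rw [this, measureReal_empty]
  exact hη

lemma FF_inf (μ : Measure (Sph n)) [IsFiniteMeasure μ] {W W' : Submodule ℝ (Eu n)}
    (h1 : FF 𝒰 h r μ W) (h2 : FF 𝒰 h r μ W') : FF 𝒰 h r μ (W ⊓ W') := by
  intro C η hη
  filter_upwards [h1 C (η / 2) (by linarith), h2 C (η / 2) (by linarith)] with j h3 h4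
  have hsub : {v : Sph n | h j v ≤ C * r j ∧ (v : Eu n) ∉ W ⊓ W'} ⊆
      {v : Sph n | h j v ≤ C * r j ∧ (v : Eu n) ∉ W} ∪
      {v : Sph n | h j v ≤ C * r j ∧ (v : Eu n) ∉ W'} := by
    rintro v ⟨h5, h6⟩
    rw [Submodule.mem_inf, not_and_or] at h6
    rcases h6 with h6 | h6
    · exact Or.inl ⟨h5, h6⟩
    · exact Or.inr ⟨h5, h6⟩
  have h5 := (measureReal_mono (μ := μ) hsub (measure_ne_top _ _)).trans (measureReal_union_le _ _)
  linarith

lemma FF_comap (μ : Measure (Sph n)) [IsFiniteMeasure μ] (hμ : MInv G μ) (hB : ∀ j, Bd G (h j))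
    {W : Submodule ℝ (Eu n)} (h1 : FF 𝒰 h r μ W) {g : Eu n ≃ₗᵢ[ℝ] Eu n} (hg : g ∈ G) :
    FF 𝒰 h r μ (W.comap (g.toLinearEquiv : Eu n →ₗ[ℝ] Eu n)) := by
  intro C η hη
  have hcl : IsClosed (W : Set (Eu n)) := W.closed_of_finiteDimensional
  filter_upwards [h1 C η hη] with j h3
  have hm : MeasurableSet {v : Sph n | h j v ≤ C * r j ∧ (v : Eu n) ∉ W} := by
    apply MeasurableSet.inter
    · exact (isClosed_le (hB j).cont continuous_const).measurableSet
    · exact (hcl.preimage continuous_subtype_val).measurableSet.compl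
  have heq : {v : Sph n | h j v ≤ C * r j ∧
      (v : Eu n) ∉ W.comap (g.toLinearEquiv : Eu n →ₗ[ℝ] Eu n)} =
      actS g ⁻¹' {v : Sph n | h j v ≤ C * r j ∧ (v : Eu n) ∉ W} := by
    ext v
    simp only [mem_setOf_eq, mem_preimage, Submodule.mem_comap]
    rw [(hB j).inv g hg v]
    rfl
  rw [heq]
  have h4 : μ.real (actS g ⁻¹' {v : Sph n | h j v ≤ C * r j ∧ (v : Eu n) ∉ W}) =
      μ.real {v : Sph n | h j v ≤ C * r j ∧ (v : Eu n) ∉ W} := by
    unfold Measure.real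
    rw [← Measure.map_apply (continuous_actS g).measurable hm, hμ g hg]
  rw [h4]
  exact h3

lemma FF_VS (μ : Measure (Sph n)) [IsFiniteMeasure μ] (hB : ∀ j, Bd G (h j))
    {W : Submodule ℝ (Eu n)} (h1 : FF 𝒰 h r μ W) : FF 𝒰 h r μ (VS 𝒰 hB r W) := by
  intro C η hη
  obtain ⟨δ, hδ, h2⟩ := mass_near' μ (VS 𝒰 hB r W) (η := η / 2) (by linarith)
  filter_upwards [h1 C (η / 2) (by linarith), VS_near hB W C hδ] with j h3 h4
  have hsub : {v : Sph n | h j v ≤ C * r j ∧ (v : Eu n) ∉ VS 𝒰 hB r W} ⊆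
      {v : Sph n | h j v ≤ C * r j ∧ (v : Eu n) ∉ W} ∪
      {v : Sph n | infDist (v : Eu n) (VS 𝒰 hB r W : Set (Eu n)) < δ ∧
        (v : Eu n) ∉ VS 𝒰 hB r W} := by
    rintro v ⟨h5, h6⟩
    by_cases hv : (v : Eu n) ∈ W
    · exact Or.inr ⟨h4 v hv h5, h6⟩
    · exact Or.inl ⟨h5, hv⟩
  have h5 := (measureReal_mono (μ := μ) hsub (measure_ne_top _ _)).trans (measureReal_union_le _ _)
  linarith

lemma nH_sum_le (hB : ∀ j, Bd G (h j)) (j : ℕ) {ι : Type*} (s : Finset ι) (f : ι → Eu n) :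
    nH (h j) (∑ i ∈ s, f i) ≤ ∑ i ∈ s, nH (h j) (f i) := by
  classical
  induction s using Finset.induction_on with
  | empty =>
    rw [Finset.sum_empty, Finset.sum_empty]
    have := nH_smul (hB j).cont (hB j).pos (hB j).even 0 (0 : Eu n)
    rw [smul_zero, abs_zero, zero_mul] at this
    rw [this]
  | insert a s ha ih =>
    rw [Finset.sum_insert ha, Finset.sum_insert ha]
    exact (nH_add_le (hB j).cont (hB j).pos _ _).trans (by linarith)

lemma bound_of_VS (hB : ∀ j, Bd G (h j)) (hr : ∀ j, 0 < r j) {W : Submodule ℝ (Eu n)}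
    (hW : W ≤ VS 𝒰 hB r W) :
    ∃ C : ℝ, ∀ᶠ j in (𝒰 : Filter ℕ), ∀ v : Sph n, (v : Eu n) ∈ W → h j v ≤ C * r j := by
  classical
  set d := Module.finrank ℝ W with hd
  let w : OrthonormalBasis (Fin d) ℝ W := stdOrthonormalBasis ℝ W
  have hw : ∀ i : Fin d, ((w i : W) : Eu n) ∈ VS 𝒰 hB r W := fun i => hW (w i).2
  choose y hyW hyt C hC using fun i => (mem_VS hB).1 (hw i)
  have hC' : ∀ᶠ j in (𝒰 : Filter ℕ), ∀ i, nH (h j) (y i j) ≤ C i * r j := eventually_all.2 hC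
  have hε : Tendsto (fun j => ∑ i, ‖((w i : W) : Eu n) - y i j‖) 𝒰 (𝓝 0) := by
    have h1 : ∀ i ∈ (Finset.univ : Finset (Fin d)),
        Tendsto (fun j => ‖((w i : W) : Eu n) - y i j‖) 𝒰 (𝓝 0) := by
      intro i _
      have h2 := (tendsto_const_nhds (x := ((w i : W) : Eu n))).sub (hyt i)
      rw [sub_self] at h2
      have h3 := h2.norm
      rwa [norm_zero] at h3
    have h4 := tendsto_finset_sum _ h1
    rwa [Finset.sum_const_zero] at h4
  have hε' : ∀ᶠ j in (𝒰 : Filter ℕ), ∑ i, ‖((w i : W) : Eu n) - y i j‖ < 1 / 2 :=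
    (tendsto_order.1 hε).2 _ (by norm_num)
  refine ⟨2 * ∑ i, C i, ?_⟩
  filter_upwards [hC', hε'] with j h1 h2
  intro v0 hv0
  -- the maximum of `h j` on the unit vectors of `W`
  have hcl : IsClosed (W : Set (Eu n)) := W.closed_of_finiteDimensional
  have hK : IsCompact {v : Sph n | (v : Eu n) ∈ W} :=
    (hcl.preimage continuous_subtype_val).isCompact
  obtain ⟨u, huW, hu⟩ := hK.exists_isMaxOn ⟨v0, hv0⟩ (hB j).cont.continuousOn
  have huW' : (u : Eu n) ∈ W := huW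
  have hu' : ∀ v : Sph n, (v : Eu n) ∈ W → h j v ≤ h j u := fun v hv => hu hv
  have hs0 : 0 < h j u := (hB j).pos u
  -- the bound of `nH` on `W`
  have hbd : ∀ z : Eu n, z ∈ W → nH (h j) z ≤ h j u * ‖z‖ := by
    intro z hz
    by_cases hz0 : z = 0
    · rw [hz0, norm_zero, mul_zero]
      have := nH_smul (hB j).cont (hB j).pos (hB j).even 0 (0 : Eu n)
      rw [smul_zero, abs_zero, zero_mul] at this
      rw [this]
    · have h3 : (dirS z hz0 : Eu n) ∈ W := by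
        have h4 : (dirS z hz0 : Eu n) = ‖z‖⁻¹ • z := by
          have h5 := norm_smul_dirS z hz0
          conv_rhs => rw [← h5]
          rw [smul_smul, norm_smul, norm_norm, norm_sph, mul_one,
            inv_mul_cancel₀ (norm_ne_zero_iff.2 hz0), one_smul]
        rw [h4]
        exact W.smul_mem _ hz
      have h5 := hu' _ h3
      conv_lhs => rw [← norm_smul_dirS z hz0]
      rw [nH_smul (hB j).cont (hB j).pos (hB j).even, abs_of_nonneg (norm_nonneg z), nH_sph,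
        (hB j).supp, mul_comm]
      exact mul_le_mul_of_nonneg_right h5 (norm_nonneg z)
  -- expansion of `u`
  let c : Fin d → ℝ := fun i => inner ℝ (w i) (⟨(u : Eu n), huW'⟩ : W)
  have hc : ∀ i, |c i| ≤ 1 := by
    intro i
    have h3 := abs_real_inner_le_norm (w i) (⟨(u : Eu n), huW'⟩ : W)
    have h4 : ‖(⟨(u : Eu n), huW'⟩ : W)‖ = 1 := norm_sph u
    rw [w.norm_eq_one, h4, one_mul] at h3
    exact h3
  have hsum : (u : Eu n) = ∑ i, c i • ((w i : W) : Eu n) := by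
    have h3 := w.sum_repr' (⟨(u : Eu n), huW'⟩ : W)
    have h4 := congrArg (fun x : W => (x : Eu n)) h3
    simp only [Submodule.coe_sum, Submodule.coe_smul] at h4
    exact h4.symm
  have hsplit : (u : Eu n) = ∑ i, c i • y i j + ∑ i, c i • (((w i : W) : Eu n) - y i j) := by
    rw [← Finset.sum_add_distrib]
    rw [hsum]
    refine Finset.sum_congr rfl fun i _ => ?_
    rw [← smul_add]
    congr 1
    abel
  have hzW : ∑ i, c i • (((w i : W) : Eu n) - y i j) ∈ W :=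
    W.sum_mem fun i _ => W.smul_mem _ (W.sub_mem (w i).2 (hyW i j))
  have hzn : ‖∑ i, c i • (((w i : W) : Eu n) - y i j)‖ ≤ ∑ i, ‖((w i : W) : Eu n) - y i j‖ := by
    refine (norm_sum_le _ _).trans (Finset.sum_le_sum fun i _ => ?_)
    rw [norm_smul, Real.norm_eq_abs]
    calc |c i| * ‖((w i : W) : Eu n) - y i j‖ ≤ 1 * ‖((w i : W) : Eu n) - y i j‖ :=
          mul_le_mul_of_nonneg_right (hc i) (norm_nonneg _)
      _ = _ := one_mul _
  have hA : nH (h j) (∑ i, c i • y i j) ≤ (∑ i, C i) * r j := by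
    refine (nH_sum_le hB j _ _).trans ?_
    rw [Finset.sum_mul]
    refine Finset.sum_le_sum fun i _ => ?_
    rw [nH_smul (hB j).cont (hB j).pos (hB j).even]
    have h3 := nH_nonneg (hB j).cont (hB j).pos (y i j)
    calc |c i| * nH (h j) (y i j) ≤ 1 * nH (h j) (y i j) := mul_le_mul_of_nonneg_right (hc i) h3
      _ = nH (h j) (y i j) := one_mul _
      _ ≤ C i * r j := h1 i
  have hBz := hbd _ hzW
  have htot : h j u ≤ (∑ i, C i) * r j + h j u * (1 / 2) := by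
    calc h j u = nH (h j) (u : Eu n) := by rw [nH_sph, (hB j).supp]
      _ ≤ nH (h j) (∑ i, c i • y i j) + nH (h j) (∑ i, c i • (((w i : W) : Eu n) - y i j)) := by
          conv_lhs => rw [hsplit]
          exact nH_add_le (hB j).cont (hB j).pos _ _
      _ ≤ (∑ i, C i) * r j + h j u * ‖∑ i, c i • (((w i : W) : Eu n) - y i j)‖ := add_le_add hA hBz
      _ ≤ (∑ i, C i) * r j + h j u * (1 / 2) := by
          have h3 : ‖∑ i, c i • (((w i : W) : Eu n) - y i j)‖ ≤ 1 / 2 := hzn.trans h2.le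
          have h4 := mul_le_mul_of_nonneg_left h3 hs0.le
          linarith
  have := hu' v0 hv0
  linarith

end XAlign

open XAlign in
theorem align {n : ℕ} [NeZero n] {G : Subgroup (Eu n ≃ₗᵢ[ℝ] Eu n)} {𝒰 : Ultrafilter ℕ}
    {h : ℕ → Sph n → ℝ} {r : ℕ → ℝ} (μ : Measure (Sph n)) [IsFiniteMeasure μ]
    (hμ : MInv G μ) (hB : ∀ j, Bd G (h j)) (hr : ∀ j, 0 < r j) :
    ∃ W : Submodule ℝ (Eu n), SInv G W ∧ W ≤ limS 𝒰 h r ∧
      (∀ C η : ℝ, 0 < η → ∀ᶠ j in (𝒰 : Filter ℕ),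
        μ.real {v : Sph n | h j v ≤ C * r j ∧ (v : Eu n) ∉ W} < η) ∧
      ∃ C : ℝ, ∀ᶠ j in (𝒰 : Filter ℕ), ∀ v : Sph n, (v : Eu n) ∈ W → h j v ≤ C * r j := by
  classical
  -- a member of the family of minimal dimension
  have hex : ∃ m : ℕ, ∃ W : Submodule ℝ (Eu n), FF 𝒰 h r μ W ∧ Module.finrank ℝ W = m :=
    ⟨_, ⊤, FF_top μ, rfl⟩
  obtain ⟨W, hW, hWm⟩ := Nat.find_spec hex
  have hmin : ∀ W' : Submodule ℝ (Eu n), FF 𝒰 h r μ W' → W ≤ W' := by
    intro W' hW'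
    have h1 := FF_inf μ hW hW'
    have h2 : Module.finrank ℝ W ≤ Module.finrank ℝ (W ⊓ W' : Submodule ℝ (Eu n)) := by
      rw [hWm]
      exact Nat.find_min' hex ⟨_, h1, rfl⟩
    have h3 := Submodule.eq_of_le_of_finrank_le (inf_le_left : W ⊓ W' ≤ W) h2
    rw [← h3]
    exact inf_le_right
  have hVS : W ≤ VS 𝒰 hB r W := hmin _ (FF_VS μ hB hW)
  refine ⟨W, ?_, hVS.trans (VS_le_limS hB W), hW, bound_of_VS hB hr hVS⟩
  intro g hg x hx
  have h1 := hmin _ (FF_comap μ hμ hB hW hg) hx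
  exact h1

end Pool.Agent.Lib.MP_b0d2bf_gt
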