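import Mathlib
import Pool.Agent.Lib.MP_b0d2bf_gt.XDefs2

set_option autoImplicit false

/-!
Diagonal sequence along an ultrafilter.
-/

namespace Pool.Agent.Lib.MP_b0d2bf_gt

open MeasureTheory Metric Set Filter Topology

theorem diag {𝒰 : Ultrafilter ℕ} (h𝒰 : (𝒰 : Filter ℕ) ≤ atTop) {P : ℕ → ℕ → Prop}
    (hP : ∀ m, ∀ᶠ j in (𝒰 : Filter ℕ), P m j) :
    ∃ m : ℕ → ℕ, Tendsto m 𝒰 atTop ∧ ∀ᶠ j in (𝒰 : Filter ℕ), P (m j) j := by
  classical
  refine ⟨fun j => Nat.findGreatest (fun m => P m j) j, ?_, ?_⟩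
  · rw [Filter.tendsto_atTop]
    intro M
    filter_upwards [hP M, h𝒰 (eventually_ge_atTop M)] with j h1 h2
    exact Nat.le_findGreatest h2 h1
  · filter_upwards [hP 0] with j h1
    exact Nat.findGreatest_spec (P := fun m => P m j) (Nat.zero_le j) h1

end Pool.Agent.Lib.MP_b0d2bf_gt
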