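import Mathlib
import Pool.Agent.Lib.MP_b0d2bf_gt.XDefs2

set_option autoImplicit false

/-!
The subspace of limits of vectors of size `O(r j)`.
-/

namespace Pool.Agent.Lib.MP_b0d2bf_gt

open MeasureTheory Metric Set Filter Topology

section XLim

variable {n : ℕ} [NeZero n] {G : Subgroup (Eu n ≃ₗᵢ[ℝ] Eu n)} {𝒰 : Ultrafilter ℕ}
  {h : ℕ → Sph n → ℝ} {r : ℕ → ℝ}

namespace XLim

lemma zero_mem_limSet (hB : ∀ j, Bd G (h j)) :
    (0 : Eu n) ∈ limSet 𝒰 h r := by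
  refine ⟨fun _ => 0, tendsto_const_nhds, 0, Eventually.of_forall fun j => ?_⟩
  have h1 := nH_le_norm (hB j).cont (hB j).pos (hB j).le (0 : Eu n)
  rw [norm_zero] at h1
  rwa [zero_mul]

lemma add_mem_limSet (hB : ∀ j, Bd G (h j)) {w z : Eu n} (hw : w ∈ limSet 𝒰 h r)
    (hz : z ∈ limSet 𝒰 h r) : w + z ∈ limSet 𝒰 h r := by
  obtain ⟨y, hy, C, hC⟩ := hw
  obtain ⟨y', hy', C', hC'⟩ := hz
  refine ⟨fun j => y j + y' j, hy.add hy', C + C', ?_⟩
  filter_upwards [hC, hC'] with j h1 h2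
  have h3 := nH_add_le (hB j).cont (hB j).pos (y j) (y' j)
  rw [add_mul]
  linarith

lemma smul_mem_limSet (hB : ∀ j, Bd G (h j)) (c : ℝ) {w : Eu n} (hw : w ∈ limSet 𝒰 h r) :
    c • w ∈ limSet 𝒰 h r := by
  obtain ⟨y, hy, C, hC⟩ := hw
  refine ⟨fun j => c • y j, hy.const_smul c, |c| * C, ?_⟩
  filter_upwards [hC] with j h1
  rw [nH_smul (hB j).cont (hB j).pos (hB j).even, mul_assoc]
  exact mul_le_mul_of_nonneg_left h1 (abs_nonneg c)

lemma mem_limS_iff (hB : ∀ j, Bd G (h j)) {w : Eu n} :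
    w ∈ limS 𝒰 h r ↔ w ∈ limSet 𝒰 h r := by
  constructor
  · intro hw
    unfold limS at hw
    induction hw using Submodule.span_induction with
    | mem x hx => exact hx
    | zero => exact zero_mem_limSet hB
    | add x y _ _ hx hy => exact add_mem_limSet hB hx hy
    | smul c x _ hx => exact smul_mem_limSet hB c hx
  · intro hw
    exact Submodule.subset_span hw

end XLim

theorem mem_limS (hB : ∀ j, Bd G (h j)) (hr : ∀ j, 0 < r j) {w : Eu n} :
    w ∈ limS 𝒰 h r ↔ ∃ y : ℕ → Eu n, Tendsto y 𝒰 (𝓝 w) ∧ ∃ C : ℝ, ∀ᶠ j in (𝒰 : Filter ℕ),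
      nH (h j) (y j) ≤ C * r j :=
  XLim.mem_limS_iff hB

theorem limS_inv (hB : ∀ j, Bd G (h j)) (hr : ∀ j, 0 < r j) : SInv G (limS 𝒰 h r) := by
  intro g hg x hx
  rw [mem_limS hB hr] at hx ⊢
  obtain ⟨y, hy, C, hC⟩ := hx
  refine ⟨fun j => g (y j), (g.continuous.tendsto x).comp hy, C, ?_⟩
  filter_upwards [hC] with j h1
  rwa [nH_act (hB j).cont (hB j).pos (hB j).inv hg]

theorem limS_near (hB : ∀ j, Bd G (h j)) (hr : ∀ j, 0 < r j) (C : ℝ) {δ : ℝ} (hδ : 0 < δ) :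
    ∀ᶠ j in (𝒰 : Filter ℕ), ∀ v : Sph n, h j v ≤ C * r j →
      infDist (v : Eu n) (limS 𝒰 h r : Set (Eu n)) < δ := by
  by_contra hcon
  rw [← Ultrafilter.eventually_not] at hcon
  push Not at hcon
  have hS : Nonempty (Sph n) := by
    obtain ⟨j, v, -⟩ := hcon.exists
    exact ⟨v⟩
  have hex : ∀ j, ∃ v : Sph n, (∃ v' : Sph n, h j v' ≤ C * r j ∧
      δ ≤ infDist (v' : Eu n) (limS 𝒰 h r : Set (Eu n))) → (h j v ≤ C * r j ∧
      δ ≤ infDist (v : Eu n) (limS 𝒰 h r : Set (Eu n))) := by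
    intro j
    by_cases hj : ∃ v' : Sph n, h j v' ≤ C * r j ∧
      δ ≤ infDist (v' : Eu n) (limS 𝒰 h r : Set (Eu n))
    · obtain ⟨v, hv⟩ := hj
      exact ⟨v, fun _ => hv⟩
    · exact ⟨Classical.choice hS, fun h1 => absurd h1 hj⟩
  choose v hv using hex
  have hcomp : IsCompact (univ : Set (Sph n)) := isCompact_univ
  obtain ⟨w, -, hw⟩ := hcomp.ultrafilter_le_nhds (𝒰.map v) (by simp)
  have hlim : Tendsto v 𝒰 (𝓝 w) := hw
  have hlim' : Tendsto (fun j => (v j : Eu n)) 𝒰 (𝓝 (w : Eu n)) :=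
    (continuous_subtype_val.tendsto w).comp hlim
  have hmem : (w : Eu n) ∈ limS 𝒰 h r := by
    rw [mem_limS hB hr]
    refine ⟨fun j => (v j : Eu n), hlim', C, ?_⟩
    filter_upwards [hcon] with j hj
    have h1 := (hv j hj).1
    rw [nH_sph, (hB j).supp]
    exact h1
  have h2 : infDist (w : Eu n) (limS 𝒰 h r : Set (Eu n)) = 0 := infDist_zero_of_mem hmem
  have h3 : Tendsto (fun j => infDist (v j : Eu n) (limS 𝒰 h r : Set (Eu n))) 𝒰
      (𝓝 (infDist (w : Eu n) (limS 𝒰 h r : Set (Eu n)))) :=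
    ((continuous_infDist_pt _).tendsto _).comp hlim'
  have h4 : δ ≤ infDist (w : Eu n) (limS 𝒰 h r : Set (Eu n)) := by
    refine ge_of_tendsto h3 ?_
    filter_upwards [hcon] with j hj
    exact (hv j hj).2
  rw [h2] at h4
  linarith

theorem mass_near (μ : Measure (Sph n)) [IsFiniteMeasure μ] (L : Submodule ℝ (Eu n)) {η : ℝ}
    (hη : 0 < η) :
    ∃ δ > 0, μ.real {v : Sph n | infDist (v : Eu n) (L : Set (Eu n)) < δ} < mass μ L + η := by
  have hpos : ∀ j : ℕ, (0:ℝ) < 1 / ((j : ℝ) + 1) := fun j => by positivity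
  set S : ℕ → Set (Sph n) := fun l =>
    {v : Sph n | infDist (v : Eu n) (L : Set (Eu n)) < 1 / ((l : ℝ) + 1)} with hS
  have hanti : Antitone S := by
    intro l l' hll v hv
    have h0 : infDist (v : Eu n) (L : Set (Eu n)) < 1 / ((l' : ℝ) + 1) := hv
    have : (l : ℝ) ≤ l' := by exact_mod_cast hll
    exact lt_of_lt_of_le h0 (one_div_le_one_div_of_le (by positivity) (by linarith))
  have hmeas : ∀ l, NullMeasurableSet (S l) μ := by
    intro l
    apply MeasurableSet.nullMeasurableSet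
    apply IsOpen.measurableSet
    exact isOpen_lt ((continuous_infDist_pt _).comp continuous_subtype_val) continuous_const
  have hinter : (⋂ l : ℕ, S l) = {v : Sph n | (v : Eu n) ∈ L} := by
    ext v
    simp only [mem_iInter]
    constructor
    · intro h1
      have h2 : infDist (v : Eu n) (L : Set (Eu n)) ≤ 0 :=
        ge_of_tendsto tendsto_one_div_add_atTop_nhds_zero_nat
          (Eventually.of_forall fun l => (h1 l).le)
      have h3 : infDist (v : Eu n) (L : Set (Eu n)) = 0 := le_antisymm h2 infDist_nonneg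
      have h4 : IsClosed (L : Set (Eu n)) := L.closed_of_finiteDimensional
      exact (h4.mem_iff_infDist_zero ⟨0, L.zero_mem⟩).mpr h3
    · intro h1 l
      have h3 : infDist (v : Eu n) (L : Set (Eu n)) = 0 := infDist_zero_of_mem h1
      change infDist (v : Eu n) (L : Set (Eu n)) < 1 / ((l : ℝ) + 1)
      rw [h3]
      exact hpos l
  have h1 : Tendsto (fun l => μ (S l)) atTop (𝓝 (μ (⋂ l, S l))) :=
    tendsto_measure_iInter_atTop hmeas hanti ⟨0, measure_ne_top _ _⟩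
  have h2 : Tendsto (fun l => μ.real (S l)) atTop (𝓝 (μ.real (⋂ l, S l))) :=
    (ENNReal.tendsto_toReal (measure_ne_top _ _)).comp h1
  rw [hinter] at h2
  have h3 : μ.real {v : Sph n | (v : Eu n) ∈ L} < mass μ L + η := by
    unfold mass
    linarith
  obtain ⟨l, hl⟩ := (h2.eventually (gt_mem_nhds h3)).exists
  exact ⟨1 / ((l : ℝ) + 1), hpos l, hl⟩

theorem mass_limS (μ : Measure (Sph n)) [IsFiniteMeasure μ] (hB : ∀ j, Bd G (h j))
    (hr : ∀ j, 0 < r j) {m C : ℝ}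
    (hm : ∀ᶠ j in (𝒰 : Filter ℕ), m ≤ μ.real {v | h j v ≤ C * r j}) :
    m ≤ mass μ (limS 𝒰 h r) := by
  refine le_of_forall_pos_lt_add fun η hη => ?_
  obtain ⟨δ, hδ, h1⟩ := mass_near μ (limS 𝒰 h r) hη
  obtain ⟨j, h2, h3⟩ := ((limS_near (𝒰 := 𝒰) hB hr C hδ).and hm).exists
  refine (h3.trans (measureReal_mono ?_ (measure_ne_top _ _))).trans_lt h1
  intro v hv
  exact h2 v hv

end XLim

end Pool.Agent.Lib.MP_b0d2bf_gt
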