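import Mathlib
import Pool.Agent.Lib.MP_b0d2bf_gt.XDefs2

set_option autoImplicit false

/-!
Quantitative coercivity estimate for one body.
-/

namespace Pool.Agent.Lib.MP_b0d2bf_gt

open MeasureTheory Metric Set Filter Topology

namespace XQuant

variable {n : ℕ}

/-- the set where the body is thinner than `ε` times the `j`-th semiaxis -/
def AA [NeZero n] (h : Sph n → ℝ) (a : Fin n → ℝ) (ε : ℝ) (j : ℕ) : Set (Sph n) :=
  {v | h v < ε * a ⟨min j (n - 1), by have := NeZero.pos n; omega⟩}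

lemma isOpen_AA [NeZero n] {h : Sph n → ℝ} (hc : Continuous h) (a : Fin n → ℝ) (ε : ℝ) (j : ℕ) :
    IsOpen (AA h a ε j) :=
  isOpen_lt hc continuous_const

lemma mem_AA [NeZero n] {h : Sph n → ℝ} {a : Fin n → ℝ} {ε : ℝ} {j : ℕ} (hj : j < n) {v : Sph n} :
    v ∈ AA h a ε j ↔ h v < ε * a ⟨j, hj⟩ := by
  unfold AA
  have : (⟨min j (n - 1), by have := NeZero.pos n; omega⟩ : Fin n) = ⟨j, hj⟩ := by
    ext; simp only; omega
  rw [mem_setOf_eq, this]

open Classical in
lemma log_ge [NeZero n] {h : Sph n → ℝ} (h0 : ∀ v, 0 < h v)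
    {b : OrthonormalBasis (Fin n) ℝ (Eu n)} {a : Fin n → ℝ} (hB : Bx h b a)
    {ε : ℝ} (hε : 0 < ε) (hε1 : ε * n ≤ 1) (v : Sph n) :
    Real.log ε + LL a 0 - ∑ k ∈ Finset.range n, (LL a k - LL a (k + 1)) *
      (if v ∈ AA h a ε k then 1 else 0) ≤ Real.log (h v) := by
  have hn : 0 < n := NeZero.pos n
  have hex : ∃ j : ℕ, ∃ hj : j < n, ε * a ⟨j, hj⟩ ≤ h v := by
    refine ⟨n - 1, by omega, ?_⟩
    have h1 := hB.low ⟨n - 1, by omega⟩ (fun i => hB.anti (by
      rw [Fin.le_def]; have := i.2; simp only; omega)) v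
    calc ε * a ⟨n - 1, by omega⟩ ≤ ε * (n * h v) := mul_le_mul_of_nonneg_left h1 hε.le
      _ = (ε * n) * h v := by ring
      _ ≤ 1 * h v := mul_le_mul_of_nonneg_right hε1 (h0 v).le
      _ = h v := one_mul _
  obtain ⟨hj, hjε⟩ := Nat.find_spec hex
  set j := Nat.find hex with hjdef
  have hmin : ∀ i : ℕ, i < j → ∀ hi : i < n, h v < ε * a ⟨i, hi⟩ := by
    intro i hi h
    have := Nat.find_min hex hi
    push Not at this
    exact this h
  have hmem : ∀ k ∈ Finset.range n, (LL a k - LL a (k + 1)) *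
      (if v ∈ AA h a ε k then (1:ℝ) else 0) = if k < j then LL a k - LL a (k + 1) else 0 := by
    intro k hk
    rw [Finset.mem_range] at hk
    by_cases hkj : k < j
    · rw [if_pos hkj, if_pos, mul_one]
      rw [mem_AA hk]
      exact hmin k hkj hk
    · rw [if_neg hkj, if_neg, mul_zero]
      rw [mem_AA hk, not_lt]
      refine le_trans ?_ hjε
      exact mul_le_mul_of_nonneg_left (hB.anti (by rw [Fin.mk_le_mk]; omega)) hε.le
  rw [Finset.sum_congr rfl hmem, ← Finset.sum_filter]
  have hfil : (Finset.range n).filter (fun k => k < j) = Finset.range j := by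
    ext k; simp only [Finset.mem_filter, Finset.mem_range]; omega
  rw [hfil, Finset.sum_range_sub']
  have h1 : LL a j = Real.log (a ⟨j, hj⟩) := LL_val a ⟨j, hj⟩
  have h2 : Real.log ε + LL a 0 - (LL a 0 - LL a j) = Real.log (ε * a ⟨j, hj⟩) := by
    rw [Real.log_mul hε.ne' (hB.pos _).ne', h1]; ring
  rw [h2]
  exact Real.log_le_log (mul_pos hε (hB.pos _)) hjε

lemma LL_mono [NeZero n] {a : Fin n → ℝ} (ha : Antitone a) (h0 : ∀ k, 0 < a k) (i l : Fin n) :
    Real.log (a i) - Real.log (a l) ≤ LL a 0 - LL a (n - 1) := by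
  have hn : 0 < n := NeZero.pos n
  have h1 : LL a 0 = Real.log (a ⟨0, hn⟩) := LL_val a ⟨0, hn⟩
  have h2 : LL a (n - 1) = Real.log (a ⟨n - 1, by omega⟩) := LL_val a ⟨n - 1, by omega⟩
  rw [h1, h2]
  have h3 : Real.log (a i) ≤ Real.log (a ⟨0, hn⟩) :=
    Real.log_le_log (h0 _) (ha (by rw [Fin.le_def]; exact Nat.zero_le _))
  have h4 : Real.log (a ⟨n - 1, by omega⟩) ≤ Real.log (a l) :=
    Real.log_le_log (h0 _) (ha (by rw [Fin.le_def]; have := l.2; simp only; omega))
  linarith

end XQuant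

open XQuant in
theorem quant {n : ℕ} [NeZero n] (μ : Measure (Sph n)) [IsProbabilityMeasure μ] {q : ℝ}
    (hq : (n : ℝ) ≤ q) {ε : ℝ} (hε : 0 < ε) (hε1 : ε * n ≤ 1) :
    ∃ C : ℝ, ∀ h : Sph n → ℝ, Continuous h → (∀ v, 0 < h v) →
      ∀ (b : OrthonormalBasis (Fin n) ℝ (Eu n)) (a : Fin n → ℝ), Bx h b a → ∀ η : ℝ, 0 ≤ η →
      (∀ k : Fin n, 0 < (k : ℕ) → μ.real {v | h v < ε * a (pr k)} ≤ ((n : ℝ) - k) / q - η) →
      ∀ i l : Fin n, Psi μ q h ≤ C - η * (Real.log (a i) - Real.log (a l)) := by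
  have hn : 0 < n := NeZero.pos n
  have hn' : (0:ℝ) < n := by exact_mod_cast hn
  have hq0 : 0 < q := hn'.trans_le hq
  refine ⟨(1 / q) * ((q - n) * Real.log n + Real.log n + n * Real.log (2 * √n)) -
    Real.log ε, ?_⟩
  intro h hc h0 b a hB η hη hμ i l
  classical
  have ha := hB.anti
  have ha0 := hB.pos
  -- the first term
  have hII : Real.log (II q h) ≤ (q - n) * (Real.log n + LL a 0) + Real.log n +
      (n * Real.log (2 * √n) + ∑ k ∈ Finset.range n, LL a k) := by
    have h2 := II_le_box hc h0 hq b a ha0 (A := a ⟨0, hn⟩)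
      (fun k => ha (Fin.mk_le_of_le_val (Nat.zero_le _))) hB.up
    refine (Real.log_le_log (II_pos hc h0 q) h2).trans (le_of_eq ?_)
    have h3 : ∀ k, 0 < 2 * (√n * a k) := fun k => by have := ha0 k; positivity
    have h4 : (0:ℝ) < (n * a ⟨0, hn⟩) ^ (q - n) := Real.rpow_pos_of_pos (mul_pos hn' (ha0 _)) _
    rw [Real.log_mul h4.ne' (mul_pos hn' (Finset.prod_pos fun k _ => h3 k)).ne',
      Real.log_rpow (mul_pos hn' (ha0 _)), Real.log_mul hn'.ne' (ha0 _).ne',
      Real.log_mul hn'.ne' (Finset.prod_pos fun k _ => h3 k).ne',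
      Real.log_prod (fun k _ => (h3 k).ne')]
    have h5 : ∀ k : Fin n, Real.log (2 * (√n * a k)) = Real.log (2 * √n) + LL a k := by
      intro k
      rw [LL_val, ← mul_assoc, Real.log_mul (by positivity) (ha0 k).ne']
    have h6 : LL a 0 = Real.log (a ⟨0, hn⟩) := LL_val a ⟨0, hn⟩
    simp only [h5]
    rw [Finset.sum_add_distrib, Finset.sum_const, Finset.card_univ, Fintype.card_fin,
      nsmul_eq_mul, h6, ← Fin.sum_univ_eq_sum_range (fun k => LL a k) n]
    ring
  -- the second term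
  have hJ : Real.log ε + LL a 0 - ∑ k ∈ Finset.range n, (LL a k - LL a (k + 1)) *
      μ.real (AA h a ε k) ≤ ∫ v, Real.log (h v) ∂μ := by
    have hset : ∀ k : ℕ, (fun v : Sph n => if v ∈ AA h a ε k then (1:ℝ) else 0) =
        (AA h a ε k).indicator (fun _ => (1:ℝ)) := by
      intro k; ext v; simp [Set.indicator_apply]
    have hind : ∀ k, Integrable (fun v : Sph n => (LL a k - LL a (k + 1)) *
        (if v ∈ AA h a ε k then (1:ℝ) else 0)) μ := by
      intro k
      refine Integrable.const_mul ?_ _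
      rw [hset k]
      exact (integrable_const (1:ℝ)).indicator (isOpen_AA hc a ε k).measurableSet
    have h1 : ∫ v, (Real.log ε + LL a 0 - ∑ k ∈ Finset.range n, (LL a k - LL a (k + 1)) *
        (if v ∈ AA h a ε k then (1:ℝ) else 0)) ∂μ = Real.log ε + LL a 0 -
        ∑ k ∈ Finset.range n, (LL a k - LL a (k + 1)) * μ.real (AA h a ε k) := by
      rw [integral_sub (integrable_const _) (integrable_finsetSum _ fun k _ => hind k),
        integral_const, integral_finsetSum _ fun k _ => hind k]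
      simp only [probReal_univ, one_smul]
      congr 1
      refine Finset.sum_congr rfl fun k _ => ?_
      rw [integral_const_mul, hset k, integral_indicator_const _ (isOpen_AA hc a ε k).measurableSet,
        smul_eq_mul, mul_one]
    rw [← h1]
    exact integral_mono ((integrable_const _).sub (integrable_finsetSum _ fun k _ => hind k))
      (integrable_log hc h0 μ) (fun v => log_ge h0 hB hε hε1 v)
  have hsum := sum_parts (LL a) n
  have hfin : ∑ k ∈ Finset.range n, (LL a k - LL a (k + 1)) * μ.real (AA h a ε k) ≤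
      (1 / q) * ∑ j ∈ Finset.range n, ((n : ℝ) - 1 - j) * (LL a j - LL a (j + 1)) -
        η * (LL a 0 - LL a (n - 1)) := by
    have h1 : LL a 0 - LL a (n - 1) = ∑ k ∈ Finset.range n, (LL a k - LL a (k + 1)) := by
      rw [Finset.sum_range_sub']
      have h2 := LL_last a
      have h3 : n - 1 + 1 = n := by omega
      rw [h3] at h2
      linarith
    rw [h1, Finset.mul_sum, Finset.mul_sum, ← Finset.sum_sub_distrib]
    refine Finset.sum_le_sum fun k hk => ?_
    rw [Finset.mem_range] at hk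
    by_cases hkn : k + 1 < n
    · have h2 := hμ ⟨k + 1, hkn⟩ (Nat.succ_pos k)
      have h5 : {v | h v < ε * a (pr ⟨k + 1, hkn⟩)} = AA h a ε k := by
        ext v
        rw [mem_AA hk]
        rfl
      rw [h5] at h2
      have h3 := LL_anti ha ha0 k
      have h4 := mul_le_mul_of_nonneg_left h2 h3
      refine h4.trans (le_of_eq ?_)
      push_cast
      field_simp
      ring
    · have hkn' : k = n - 1 := by omega
      have h2 : LL a k - LL a (k + 1) = 0 := by rw [hkn']; exact LL_last a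
      rw [h2]
      simp
  have h9 := mul_le_mul_of_nonneg_left (LL_mono ha ha0 i l) hη
  unfold Psi
  have h7 : (1 / q) * Real.log (II q h) ≤ (1 / q) * ((q - n) * (Real.log n + LL a 0) +
      Real.log n + (n * Real.log (2 * √n) + ∑ k ∈ Finset.range n, LL a k)) :=
    mul_le_mul_of_nonneg_left hII (by positivity)
  rw [hsum] at h7
  have h8 : (1 / q) * ((q - n) * (Real.log n + LL a 0) + Real.log n + (n * Real.log (2 * √n) +
      (n * LL a 0 - ∑ j ∈ Finset.range n, ((n : ℝ) - 1 - j) * (LL a j - LL a (j + 1))))) =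
      (1 / q) * ((q - n) * Real.log n + Real.log n + n * Real.log (2 * √n)) + LL a 0 -
      (1 / q) * ∑ j ∈ Finset.range n, ((n : ℝ) - 1 - j) * (LL a j - LL a (j + 1)) := by
    field_simp
    ring
  rw [h8] at h7
  linarith

end Pool.Agent.Lib.MP_b0d2bf_gt
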