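import Mathlib
import Pool.Agent.Lib.MP_b0d2bf_gt.XLim
import Pool.Agent.Lib.MP_b0d2bf_gt.Nbhd

set_option autoImplicit false

/-!
Flags of the limit frame.
-/

namespace Pool.Agent.Lib.MP_b0d2bf_gt

open MeasureTheory Metric Set Filter Topology

section XTl

variable {n : ℕ} [NeZero n] {G : Subgroup (Eu n ≃ₗᵢ[ℝ] Eu n)} {𝒰 : Ultrafilter ℕ}
  {h : ℕ → Sph n → ℝ} {b : ℕ → OrthonormalBasis (Fin n) ℝ (Eu n)} {a : ℕ → Fin n → ℝ}
  {e : OrthonormalBasis (Fin n) ℝ (Eu n)}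

theorem finrank_tl (e : OrthonormalBasis (Fin n) ℝ (Eu n)) (k : Fin n) :
    Module.finrank ℝ (tl e k) = n - k := by
  obtain ⟨L, hL, hm⟩ := exists_sub e.orthonormal k.2.le
  have h1 : tl e k = L := by
    ext x
    rw [hm]
    exact ⟨fun hx i hi => hx i (Fin.lt_def.mpr hi), fun hx i hi => hx i (Fin.lt_def.mp hi)⟩
  rw [h1, hL]

theorem exists_limit_basis (𝒰 : Ultrafilter ℕ) (b : ℕ → OrthonormalBasis (Fin n) ℝ (Eu n)) :
    ∃ e : OrthonormalBasis (Fin n) ℝ (Eu n), ∀ i, Tendsto (fun j => b j i) 𝒰 (𝓝 (e i)) := by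
  have hcomp : IsCompact (Set.pi Set.univ (fun _ : Fin n => closedBall (0 : Eu n) 1)) :=
    isCompact_univ_pi fun _ => isCompact_closedBall _ _
  have hmem : ∀ᶠ j in (𝒰 : Filter ℕ), (fun j => (b j : Fin n → Eu n)) j ∈
      Set.pi Set.univ (fun _ : Fin n => closedBall (0 : Eu n) 1) := by
    refine Eventually.of_forall fun j i _ => ?_
    rw [mem_closedBall_zero_iff, (b j).norm_eq_one]
  obtain ⟨x, -, hx⟩ := hcomp.ultrafilter_le_nhds (𝒰.map (fun j => (b j : Fin n → Eu n)))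
    (by
      rw [le_principal_iff]
      exact hmem)
  have hlim : Tendsto (fun j => (b j : Fin n → Eu n)) 𝒰 (𝓝 x) := hx
  have hlimi : ∀ i, Tendsto (fun j => b j i) 𝒰 (𝓝 (x i)) := fun i => (tendsto_pi_nhds.1 hlim) i
  have hxo : Orthonormal ℝ x := by
    constructor
    · intro i
      refine tendsto_nhds_unique (hlimi i).norm ?_
      simp only [OrthonormalBasis.norm_eq_one]
      exact tendsto_const_nhds
    · intro i j hij
      refine tendsto_nhds_unique ((hlimi i).inner (hlimi j)) ?_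
      have : ∀ l, inner ℝ (b l i) (b l j) = (0:ℝ) := fun l =>
        (b l).orthonormal.2 hij
      simp only [this]
      exact tendsto_const_nhds
  have hcard : Fintype.card (Fin n) = Module.finrank ℝ (Eu n) := by
    rw [Fintype.card_fin, finrank_euclideanSpace_fin]
  have hspan : ⊤ ≤ Submodule.span ℝ (Set.range x) := by
    have : Nonempty (Fin n) := ⟨⟨0, NeZero.pos n⟩⟩
    rw [hxo.linearIndependent.span_eq_top_of_card_eq_finrank hcard]
  refine ⟨OrthonormalBasis.mk hxo hspan, fun i => ?_⟩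
  rw [OrthonormalBasis.coe_mk]
  exact hlimi i

theorem limS_le_tl (S : Sq G 𝒰 h b a e) {r : ℕ → ℝ} (hr : ∀ j, 0 < r j) {k : Fin n}
    (hk : Tendsto (fun j => r j / a j (pr k)) 𝒰 (𝓝 0)) : limS 𝒰 h r ≤ tl e k := by
  intro w hw i hi
  rw [mem_limS S.bd hr] at hw
  obtain ⟨y, hy, C, hC⟩ := hw
  have h1 : Tendsto (fun j => |inner ℝ (b j i) (y j)|) 𝒰 (𝓝 |inner ℝ (e i) w|) :=
    ((S.lim i).inner hy).abs
  have h2 : Tendsto (fun j => √n * |C| * (r j / a j (pr k))) 𝒰 (𝓝 (√n * |C| * 0)) :=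
    hk.const_mul _
  rw [mul_zero] at h2
  have h3 : ∀ᶠ j in (𝒰 : Filter ℕ), |inner ℝ (b j i) (y j)| ≤ √n * |C| * (r j / a j (pr k)) := by
    filter_upwards [hC] with j hj
    have h4 := (S.bx j).lo_vec (S.bd j).cont (S.bd j).pos (S.bd j).even (S.bd j).supp (y j) i
    have h5 : i ≤ pr k := by
      rw [Fin.le_def]
      change (i : ℕ) ≤ (k : ℕ) - 1
      have := Fin.lt_def.mp hi
      omega
    have h6 : a j (pr k) ≤ a j i := (S.bx j).anti h5
    have h7 : 0 < a j (pr k) := (S.bx j).pos _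
    rw [← mul_div_assoc, le_div_iff₀ h7]
    have h8 : |inner ℝ (b j i) (y j)| * a j (pr k) ≤ a j i * |inner ℝ (b j i) (y j)| := by
      rw [mul_comm]
      exact mul_le_mul_of_nonneg_right h6 (abs_nonneg _)
    have h9 : nH (h j) (y j) ≤ |C| * r j :=
      hj.trans (mul_le_mul_of_nonneg_right (le_abs_self C) (hr j).le)
    calc |inner ℝ (b j i) (y j)| * a j (pr k) ≤ √n * nH (h j) (y j) := h8.trans h4
      _ ≤ √n * (|C| * r j) := mul_le_mul_of_nonneg_left h9 (Real.sqrt_nonneg _)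
      _ = √n * |C| * r j := by ring
  have h10 : |inner ℝ (e i) w| ≤ 0 := le_of_tendsto_of_tendsto h1 h2 h3
  exact abs_nonpos_iff.mp h10

theorem limS_eq_tl (S : Sq G 𝒰 h b a e) {k : Fin n} (hk : Gap 𝒰 a k) :
    limS 𝒰 h (fun j => a j k) = tl e k := by
  have hr : ∀ j, 0 < (fun j => a j k) j := fun j => (S.bx j).pos k
  apply le_antisymm (limS_le_tl S hr hk)
  have h1 : ∀ i : Fin n, k ≤ i → e i ∈ limS 𝒰 h (fun j => a j k) := by
    intro i hi
    rw [mem_limS S.bd hr]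
    refine ⟨fun j => b j i, S.lim i, √n, Eventually.of_forall fun j => ?_⟩
    have h2 : nH (h j) (b j i) ≤ √n * a j i := by
      refine nH_le (S.bd j).cont (S.bd j).pos fun x hx => ?_
      have h3 := (S.bx j).up x hx i
      rw [real_inner_comm] at h3
      exact (le_abs_self _).trans h3
    exact h2.trans (mul_le_mul_of_nonneg_left ((S.bx j).anti hi) (Real.sqrt_nonneg _))
  intro x hx
  rw [← e.sum_repr' x]
  refine Submodule.sum_mem _ fun i _ => ?_
  by_cases hi : k ≤ i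
  · exact Submodule.smul_mem _ _ (h1 i hi)
  · have h2 : inner ℝ (e i) x = 0 := hx i (not_le.mp hi)
    rw [h2, zero_smul]
    exact Submodule.zero_mem _

theorem Gap.pos (S : Sq G 𝒰 h b a e) {k : Fin n} (hk : Gap 𝒰 a k) : 0 < (k : ℕ) := by
  by_contra hcon
  have h0 : (k : ℕ) = 0 := by omega
  have h1 : pr k = k := by
    apply Fin.ext
    change (k : ℕ) - 1 = k
    omega
  have h2 : Tendsto (fun _ : ℕ => (1 : ℝ)) (𝒰 : Filter ℕ) (𝓝 0) := by
    have h3 : Tendsto (fun j => a j k / a j (pr k)) 𝒰 (𝓝 0) := hk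
    refine h3.congr fun j => ?_
    rw [h1]
    exact div_self ((S.bx j).pos k).ne'
  exact one_ne_zero (tendsto_nhds_unique tendsto_const_nhds h2)

theorem not_gap (S : Sq G 𝒰 h b a e) {k : Fin n} (hk : ¬ Gap 𝒰 a k) :
    ∃ c > 0, ∀ᶠ j in (𝒰 : Filter ℕ), c * a j (pr k) ≤ a j k := by
  by_contra hcon
  push Not at hcon
  apply hk
  have h0 : ∀ j, 0 ≤ a j k / a j (pr k) := fun j =>
    div_nonneg ((S.bx j).pos k).le ((S.bx j).pos _).le
  change Tendsto (fun j => a j k / a j (pr k)) 𝒰 (𝓝 0)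
  rw [Metric.tendsto_nhds]
  intro ε hε
  have h1 := hcon ε hε
  filter_upwards [h1] with j hj
  rw [Real.dist_eq, sub_zero, abs_of_nonneg (h0 j), div_lt_iff₀ ((S.bx j).pos _)]
  exact hj

end XTl

end Pool.Agent.Lib.MP_b0d2bf_gt
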