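import Mathlib
import Pool.Agent.Lib.MP_b0d2bf_gt.XDefs2
import Pool.Agent.Lib.MP_b0d2bf_gt.XLim
import Pool.Agent.Lib.MP_b0d2bf_gt.XTl
import Pool.Agent.Lib.MP_b0d2bf_gt.XDiag
import Pool.Agent.Lib.MP_b0d2bf_gt.XAlign
import Pool.Agent.Lib.MP_b0d2bf_gt.XQuant

set_option autoImplicit false

/-!
Bodies with a large value of the functional are thin on a heavy subspace.
-/

namespace Pool.Agent.Lib.MP_b0d2bf_gt

open MeasureTheory Metric Set Filter Topology

namespace XCover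

lemma mass_bot {n : ℕ} (μ : Measure (Sph n)) : mass μ (⊥ : Submodule ℝ (Eu n)) = 0 := by
  unfold mass
  have h : {v : Sph n | (v : Eu n) ∈ (⊥ : Submodule ℝ (Eu n))} = ∅ := by
    ext v
    simp only [mem_setOf_eq, Submodule.mem_bot, mem_empty_iff_false, iff_false]
    exact sph_ne_zero v
  rw [h, measureReal_empty]

/-- the index at which the box degenerates -/
lemma exists_index {n : ℕ} [NeZero n] {G : Subgroup (Eu n ≃ₗᵢ[ℝ] Eu n)} {𝒰 : Ultrafilter ℕ}
    (h𝒰 : (𝒰 : Filter ℕ) ≤ atTop)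
    (μ : Measure (Sph n)) [IsProbabilityMeasure μ] {q : ℝ} (hq : (n : ℝ) < q)
    {h : ℕ → Sph n → ℝ} {b : ℕ → OrthonormalBasis (Fin n) ℝ (Eu n)} {a : ℕ → Fin n → ℝ}
    (hB : ∀ j, Bd G (h j)) (hbx : ∀ j, Bx (h j) (b j) (a j))
    (hP : ∀ j : ℕ, (j : ℝ) < Psi μ q (h j)) :
    ∃ k : Fin n, 0 < (k : ℕ) ∧ ∀ m : ℕ, ∀ᶠ j in (𝒰 : Filter ℕ),
      ((n : ℝ) - k) / q < μ.real {v | h j v < a j (pr k) / ((m : ℝ) + 1)} := by
  by_contra hcon
  push Not at hcon
  have h1 : ∀ k : Fin n, ∃ m : ℕ, 0 < (k : ℕ) → ∀ᶠ j in (𝒰 : Filter ℕ),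
      μ.real {v | h j v < a j (pr k) / ((m : ℝ) + 1)} ≤ ((n : ℝ) - k) / q := by
    intro k
    by_cases hk : 0 < (k : ℕ)
    · obtain ⟨m, hm⟩ := hcon k hk
      exact ⟨m, fun _ => hm⟩
    · exact ⟨0, fun h => absurd h hk⟩
  choose m hm using h1
  set M : ℕ := (Finset.univ.sup m) + n with hM
  have hM1 : (0 : ℝ) < (M : ℝ) + 1 := by positivity
  have hε : (0 : ℝ) < 1 / ((M : ℝ) + 1) := by positivity
  have hε1 : 1 / ((M : ℝ) + 1) * n ≤ 1 := by
    rw [one_div, inv_mul_le_iff₀ hM1, mul_one]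
    have : (n : ℝ) ≤ M := by exact_mod_cast (by omega : n ≤ M)
    linarith
  obtain ⟨C, hC⟩ := quant μ hq.le hε hε1
  have h3 : ∀ᶠ j in (𝒰 : Filter ℕ), ∀ k : Fin n, 0 < (k : ℕ) →
      μ.real {v | h j v < 1 / ((M : ℝ) + 1) * a j (pr k)} ≤ ((n : ℝ) - k) / q - 0 := by
    rw [eventually_all]
    intro k
    by_cases hk : 0 < (k : ℕ)
    · filter_upwards [hm k hk] with j hj
      intro _
      rw [sub_zero]
      refine le_trans ?_ hj
      refine measureReal_mono ?_ (measure_ne_top _ _)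
      intro v hv
      simp only [mem_setOf_eq] at hv ⊢
      refine hv.trans_le ?_
      rw [one_div, inv_mul_eq_div]
      apply div_le_div_of_nonneg_left ((hbx j).pos _).le (by positivity)
      have : m k ≤ M := (Finset.le_sup (Finset.mem_univ k)).trans (Nat.le_add_right _ _)
      have : (m k : ℝ) ≤ M := by exact_mod_cast this
      linarith
    · exact Eventually.of_forall fun j h => absurd h hk
  have h4 : ∀ᶠ j : ℕ in (𝒰 : Filter ℕ), C < (j : ℝ) :=
    h𝒰 (tendsto_natCast_atTop_atTop.eventually_gt_atTop C)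
  obtain ⟨j, hj3, hj4⟩ := (h3.and h4).exists
  have h5 := hC (h j) (hB j).cont (hB j).pos (b j) (a j) (hbx j) 0 le_rfl hj3
    ⟨0, NeZero.pos n⟩ ⟨0, NeZero.pos n⟩
  rw [zero_mul, sub_zero] at h5
  have := hP j
  linarith

end XCover

theorem cover {n : ℕ} [NeZero n] {G : Subgroup (Eu n ≃ₗᵢ[ℝ] Eu n)}
    (hneg : LinearIsometryEquiv.neg ℝ ∈ G)
    (μ : Measure (Sph n)) [IsProbabilityMeasure μ] (hμ : MInv G μ) {q : ℝ} (hq : (n : ℝ) < q)
    (hnd : Nondeg G q μ) {A B : Set (Submodule ℝ (Eu n))} (hS : Split G q μ A B)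
    {δ : ℝ} (hδ : 0 < δ) :
    ∃ C0 : ℝ, ∀ f : XS G, rhoX f = f → C0 < Psi μ q (ex (f : C(Sph n, ℝ))) →
      (f : C(Sph n, ℝ)) ∈ UU δ A ∪ UU δ B := by
  by_contra hcon
  push Not at hcon
  choose F hfix hlarge hnot using fun j : ℕ => hcon (j : ℝ)
  have hq0 : 0 < q := lt_of_le_of_lt (Nat.cast_nonneg n) hq
  set 𝒰 : Ultrafilter ℕ := hyperfilter ℕ with h𝒰def
  have h𝒰 : (𝒰 : Filter ℕ) ≤ atTop := Nat.hyperfilter_le_atTop
  set h : ℕ → Sph n → ℝ := fun j => ex ((F j : XS G) : C(Sph n, ℝ)) with hh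
  have hB : ∀ j, Bd G (h j) := fun j => Bd_of_fix hneg (hfix j)
  choose b a hbx using fun j => exists_Bx (hB j).cont (hB j).pos (hB j).even (hB j).supp
  obtain ⟨e, he⟩ := exists_limit_basis 𝒰 b
  have S : Sq G 𝒰 h b a e := ⟨hB, hbx, he⟩
  obtain ⟨k, hk0, hk⟩ := XCover.exists_index h𝒰 μ hq hB hbx hlarge
  obtain ⟨m, hm, hmP⟩ := diag (P := fun m j => ((n : ℝ) - k) / q <
    μ.real {v | h j v < a j (pr k) / ((m : ℝ) + 1)}) h𝒰 hk
  set r : ℕ → ℝ := fun j => a j (pr k) / ((m j : ℝ) + 1) with hr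
  have hr0 : ∀ j, 0 < r j := fun j => div_pos ((hbx j).pos _) (by positivity)
  have hrk : Tendsto (fun j => r j / a j (pr k)) 𝒰 (𝓝 0) := by
    have h1 : (fun j => r j / a j (pr k)) = fun j => ((m j : ℝ) + 1)⁻¹ := by
      funext j
      have := ((hbx j).pos (pr k)).ne'
      have h2 : ((m j : ℝ) + 1) ≠ 0 := by positivity
      simp only [hr]
      field_simp
    rw [h1]
    apply tendsto_inv_atTop_zero.comp
    exact tendsto_atTop_add_const_right _ _ (tendsto_natCast_atTop_atTop.comp hm)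
  set L := limS 𝒰 h r with hL
  have hLtl : L ≤ tl e k := limS_le_tl S hr0 hrk
  have hkn : (k : ℕ) < n := k.2
  have hfin : Module.finrank ℝ L ≤ n - k := by
    rw [← finrank_tl e k]
    exact Submodule.finrank_mono hLtl
  have hfin' : (Module.finrank ℝ L : ℝ) ≤ (n : ℝ) - k := by
    have : ((Module.finrank ℝ L : ℕ) : ℝ) ≤ ((n - k : ℕ) : ℝ) := by exact_mod_cast hfin
    rwa [Nat.cast_sub hkn.le] at this
  have hmain0 : 0 < ((n : ℝ) - k) / q := by
    apply div_pos _ hq0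
    have : ((k : ℕ) : ℝ) < (n : ℝ) := by exact_mod_cast hkn
    linarith
  have hheavy : ∀ V : Submodule ℝ (Eu n), SInv G V → V ≤ L → ((n : ℝ) - k) / q ≤ mass μ V →
      Heavy G q μ V := by
    intro V hV hVL hmass
    have h1 : V ≠ ⊥ := by
      rintro rfl
      rw [XCover.mass_bot] at hmass
      linarith
    have hVfin : Module.finrank ℝ V ≤ Module.finrank ℝ L := Submodule.finrank_mono hVL
    have h2 : V ≠ ⊤ := by
      rintro rfl
      rw [finrank_top, finrank_euclideanSpace_fin] at hVfin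
      omega
    have h3 : (Module.finrank ℝ V : ℝ) / q ≤ mass μ V := by
      refine le_trans ?_ hmass
      apply div_le_div_of_nonneg_right _ hq0.le
      exact le_trans (by exact_mod_cast hVfin) hfin'
    exact ⟨hV, h1, h2, lt_of_le_of_ne h3 (hnd V hV h1 h2).symm⟩
  have hLmass : ((n : ℝ) - k) / q ≤ mass μ L := by
    apply mass_limS μ hB hr0 (C := 1)
    filter_upwards [hmP] with j hj
    refine hj.le.trans (measureReal_mono ?_ (measure_ne_top _ _))
    intro v hv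
    simp only [mem_setOf_eq] at hv ⊢
    rw [one_mul]
    exact hv.le
  have hLheavy : Heavy G q μ L := hheavy L (limS_inv hB hr0) le_rfl hLmass
  obtain ⟨W, hWinv, hWL, hWsmall, C, hWC⟩ := align μ hμ hB hr0
  have hWmass : ((n : ℝ) - k) / q ≤ mass μ W := by
    apply le_of_forall_pos_le_add
    intro η hη
    obtain ⟨j, hj1, hj2⟩ := (hmP.and (hWsmall 1 η hη)).exists
    refine hj1.le.trans ?_
    have h1 : μ.real {v | h j v < a j (pr k) / ((m j : ℝ) + 1)} ≤
        μ.real ({v : Sph n | (v : Eu n) ∈ W} ∪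
          {v : Sph n | h j v ≤ 1 * r j ∧ (v : Eu n) ∉ W}) := by
      refine measureReal_mono ?_ (measure_ne_top _ _)
      intro v hv
      simp only [mem_setOf_eq, mem_union] at hv ⊢
      by_cases hvW : (v : Eu n) ∈ W
      · left; exact hvW
      · right
        refine ⟨?_, hvW⟩
        rw [one_mul]
        exact hv.le
    refine h1.trans ((measureReal_union_le _ _).trans ?_)
    exact add_le_add le_rfl hj2.le
  have hWheavy : Heavy G q μ W := hheavy W hWinv hWL hWmass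
  have key : ∀ A' B' : Set (Submodule ℝ (Eu n)), Split G q μ A' B' → L ∈ A' →
      ∃ j, ((F j : XS G) : C(Sph n, ℝ)) ∈ UU δ A' := by
    intro A' B' hS' hLA
    have hWA : W ∈ A' := by
      rcases (hS'.heavy W).1 hWheavy with h1 | h1
      · exact h1
      · exact absurd hWL (hS'.sep L hLA W h1).2
    set C' := max C 1 with hC'
    have hC'0 : 0 < C' := lt_of_lt_of_le one_pos (le_max_right _ _)
    obtain ⟨j, hj1, hj2⟩ := (hWC.and (limS_near hB hr0 (C' + 1) hδ)).exists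
    refine ⟨j, W, hWA, L, hLA, C' * r j, (C' + 1) * r j, mul_pos hC'0 (hr0 j), ?_, ?_, ?_⟩
    · exact mul_lt_mul_of_pos_right (by linarith) (hr0 j)
    · intro v hv
      have h1 := hj1 v hv
      have h2 : supp (ex ((F j : XS G) : C(Sph n, ℝ))) v = h j v := (hB j).supp v
      rw [h2]
      exact h1.trans (mul_le_mul_of_nonneg_right (le_max_left _ _) (hr0 j).le)
    · intro v hv
      have h2 : supp (ex ((F j : XS G) : C(Sph n, ℝ))) v = h j v := (hB j).supp v
      rw [h2]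
      by_contra h3
      exact absurd (hj2 v (not_le.mp h3).le) (not_lt.mpr hv)
  rcases (hS.heavy L).1 hLheavy with h1 | h1
  · obtain ⟨j, hj⟩ := key A B hS h1
    exact hnot j (Or.inl hj)
  · obtain ⟨j, hj⟩ := key B A hS.symm h1
    exact hnot j (Or.inr hj)

end Pool.Agent.Lib.MP_b0d2bf_gt
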