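import Mathlib
import Pool.Agent.Lib.MP_b0d2bf_gt.XDefs2

set_option autoImplicit false

/-!
Compactness of the set of normalised support functions bounded below (module XCPT).
-/

namespace Pool.Agent.Lib.MP_b0d2bf_gt

open MeasureTheory Metric Set Filter Topology

namespace XCpt

open scoped BoundedContinuousFunction

/-- the compact class of bounded continuous functions -/
def clb (n : ℕ) (m K : ℝ) : Set (Sph n →ᵇ ℝ) :=
  {f | (∀ v w, |f v - f w| ≤ K * dist v w) ∧ ∀ v, m ≤ f v ∧ f v ≤ 0}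

lemma isClosed_clb (n : ℕ) (m K : ℝ) : IsClosed (clb n m K) := by
  have hev : ∀ v : Sph n, Continuous (fun f : Sph n →ᵇ ℝ => f v) := fun v =>
    continuous_eval_const v
  have h1 : clb n m K = (⋂ v, ⋂ w, {f : Sph n →ᵇ ℝ | |f v - f w| ≤ K * dist v w}) ∩
      ((⋂ v, {f : Sph n →ᵇ ℝ | m ≤ f v}) ∩ (⋂ v, {f : Sph n →ᵇ ℝ | f v ≤ 0})) := by
    ext f
    simp only [clb, mem_ofPred_eq, mem_inter_iff, mem_iInter]
    constructor
    · rintro ⟨h1, h2⟩
      exact ⟨h1, fun v => (h2 v).1, fun v => (h2 v).2⟩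
    · rintro ⟨h1, h2, h3⟩
      exact ⟨h1, fun v => ⟨h2 v, h3 v⟩⟩
  rw [h1]
  refine IsClosed.inter ?_ (IsClosed.inter ?_ ?_)
  · exact isClosed_iInter fun v => isClosed_iInter fun w =>
      isClosed_le ((hev v).sub (hev w)).abs continuous_const
  · exact isClosed_iInter fun v => isClosed_le continuous_const (hev v)
  · exact isClosed_iInter fun v => isClosed_le (hev v) continuous_const

lemma isCompact_clb (n : ℕ) (m : ℝ) {K : ℝ} (hK : 0 < K) : IsCompact (clb n m K) := by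
  refine BoundedContinuousFunction.arzela_ascoli₂ (Icc m 0) isCompact_Icc _
    (isClosed_clb n m K) ?_ ?_
  · intro f v hf
    exact hf.2 v
  · intro v
    rw [Metric.equicontinuousAt_iff]
    intro ε hε
    refine ⟨ε / K, div_pos hε hK, fun w hw f => ?_⟩
    have := f.2.1 v w
    rw [Real.dist_eq]
    refine this.trans_lt ?_
    rw [dist_comm]
    rw [lt_div_iff₀ hK] at hw
    rw [mul_comm]
    exact hw

/-- the compact class of continuous functions -/
def clc (n : ℕ) (m K : ℝ) : Set C(Sph n, ℝ) :=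
  {f | (∀ v w, |f v - f w| ≤ K * dist v w) ∧ ∀ v, m ≤ f v ∧ f v ≤ 0}

lemma isCompact_clc (n : ℕ) (m : ℝ) {K : ℝ} (hK : 0 < K) : IsCompact (clc n m K) := by
  have h1 : clc n m K = ContinuousMap.isometryEquivBoundedOfCompact (Sph n) ℝ ⁻¹' clb n m K := by
    ext f
    exact Iff.rfl
  rw [h1]
  exact (ContinuousMap.isometryEquivBoundedOfCompact (Sph n) ℝ).toHomeomorph.isClosedEmbedding.isCompact_preimage
    (isCompact_clb n m hK)

lemma isClosed_XS {n : ℕ} (G : Subgroup (Eu n ≃ₗᵢ[ℝ] Eu n)) :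
    IsClosed (XS G : Set C(Sph n, ℝ)) := by
  have hev : ∀ v : Sph n, Continuous (fun f : C(Sph n, ℝ) => f v) := fun v =>
    continuous_eval_const v
  have h1 : (XS G : Set C(Sph n, ℝ)) =
      ⋂ g ∈ G, ⋂ v, {f : C(Sph n, ℝ) | f (actS g v) = f v} := by
    ext f
    simp only [mem_iInter]
    exact Iff.rfl
  rw [h1]
  exact isClosed_biInter fun g _ => isClosed_iInter fun v => isClosed_eq (hev _) (hev _)

/-- the logarithm is Lipschitz away from zero -/
lemma log_lip {c0 a b : ℝ} (hc0 : 0 < c0) (ha : c0 ≤ a) (hb : c0 ≤ b) :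
    Real.log a - Real.log b ≤ c0⁻¹ * |a - b| := by
  have ha' : 0 < a := hc0.trans_le ha
  have hb' : 0 < b := hc0.trans_le hb
  rw [← Real.log_div ha'.ne' hb'.ne']
  have h1 : Real.log (a / b) ≤ a / b - 1 := Real.log_le_sub_one_of_pos (div_pos ha' hb')
  have h2 : a / b - 1 = b⁻¹ * (a - b) := by
    field_simp
  have h3 : b⁻¹ ≤ c0⁻¹ := inv_anti₀ hc0 hb
  calc Real.log (a / b) ≤ b⁻¹ * (a - b) := by rw [← h2]; exact h1
    _ ≤ b⁻¹ * |a - b| := by
        apply mul_le_mul_of_nonneg_left (le_abs_self _) (inv_nonneg.2 hb'.le)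
    _ ≤ c0⁻¹ * |a - b| := mul_le_mul_of_nonneg_right h3 (abs_nonneg _)

lemma abs_log_lip {c0 a b : ℝ} (hc0 : 0 < c0) (ha : c0 ≤ a) (hb : c0 ≤ b) :
    |Real.log a - Real.log b| ≤ c0⁻¹ * |a - b| := by
  rw [abs_le]
  have h1 := log_lip hc0 ha hb
  have h2 := log_lip hc0 hb ha
  rw [abs_sub_comm b a] at h2
  constructor <;> linarith

end XCpt

theorem cpt_of_low {n : ℕ} [NeZero n] {G : Subgroup (Eu n ≃ₗᵢ[ℝ] Eu n)}
    (hneg : LinearIsometryEquiv.neg ℝ ∈ G) {F : XS G → ℝ} (hF : Continuous F) {c c0 : ℝ}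
    (hc0 : 0 < c0)
    (hlow : ∀ f : XS G, rhoX f = f → c ≤ F f → ∀ v, c0 ≤ ex (f : C(Sph n, ℝ)) v) :
    IsCompact {f : XS G | rhoX f = f ∧ c ≤ F f} := by
  have hcl : IsClosed {f : XS G | rhoX f = f ∧ c ≤ F f} :=
    (isClosed_eq continuous_rhoX continuous_id).inter (isClosed_le continuous_const hF)
  have hemb : IsClosedEmbedding (Subtype.val : XS G → C(Sph n, ℝ)) :=
    (XCpt.isClosed_XS G).isClosedEmbedding_subtypeVal
  have hcpt : IsCompact ((Subtype.val : XS G → C(Sph n, ℝ)) ⁻¹'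
      XCpt.clc n (Real.log c0) c0⁻¹) :=
    hemb.isCompact_preimage (XCpt.isCompact_clc n (Real.log c0) (inv_pos.2 hc0))
  refine hcpt.of_isClosed_subset hcl ?_
  rintro f ⟨hf, hcf⟩
  have hB := Bd_of_fix hneg hf
  have hl := hlow f hf hcf
  have hlog : ∀ v, (f : C(Sph n, ℝ)) v = Real.log (ex (f : C(Sph n, ℝ)) v) := fun v =>
    (Real.log_exp _).symm
  have hw : wulff (ex (f : C(Sph n, ℝ))) ⊆ closedBall 0 1 :=
    wulff_subset hB.cont hB.pos one_pos hB.le
  constructor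
  · intro v w
    rw [hlog v, hlog w]
    refine (XCpt.abs_log_lip hc0 (hl v) (hl w)).trans ?_
    apply mul_le_mul_of_nonneg_left _ (inv_nonneg.2 hc0.le)
    have h1 := abs_supp_sub_le hB.cont hB.pos hw v w
    rw [hB.supp, hB.supp, one_mul] at h1
    exact h1
  · intro v
    rw [hlog v]
    exact ⟨Real.log_le_log hc0 (hl v), Real.log_nonpos (hB.pos v).le (hB.le v)⟩

end Pool.Agent.Lib.MP_b0d2bf_gt
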