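import Mathlib
import Pool.Agent.Lib.MP_b0d2bf_gt.XDefs2
set_option autoImplicit false
namespace Pool.Agent.Lib.MP_b0d2bf_gt
open MeasureTheory Metric Set Filter Topology

namespace XPack

/-- change of variables `x = 2 y - a` -/
lemma cov {n : ℕ} (F : Eu n → ENNReal) (hF : Measurable F) (a : Eu n) :
    ∫⁻ y, F ((2 : ℝ) • y - a) = ENNReal.ofReal (|((2 : ℝ) ^ n)⁻¹|) * ∫⁻ x, F x := by
  have h1 : ∫⁻ y, F ((2 : ℝ) • y - a) =
      ∫⁻ u, F (u - a) ∂(Measure.map (fun y : Eu n => (2 : ℝ) • y) volume) := by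
    have h2 : Measurable (fun u : Eu n => F (u - a)) := hF.comp (measurable_id.sub_const a)
    rw [lintegral_map h2 (measurable_const_smul (2 : ℝ))]
  rw [h1, Measure.map_addHaar_smul volume (two_ne_zero), lintegral_smul_measure,
    lintegral_sub_right_eq_self, finrank_euclideanSpace_fin]
  rfl

/-- integrability of the power of the distance on an interval -/
lemma fin_pow {p : ℝ} (hp : 0 < p) :
    ∫⁻ u in Icc (-3 : ℝ) 3, ENNReal.ofReal (|u| ^ (p - 1)) < ⊤ := by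
  have h1 : IntegrableOn (fun u : ℝ => |u| ^ (p - 1)) (Icc 0 3) := by
    have h2 := intervalIntegral.intervalIntegrable_rpow' (a := 0) (b := 3) (r := p - 1) (by linarith)
    rw [intervalIntegrable_iff_integrableOn_Icc_of_le (by norm_num)] at h2
    refine h2.congr_fun (fun u hu => ?_) measurableSet_Icc
    simp only
    rw [abs_of_nonneg hu.1]
  have h2 : IntegrableOn (fun u : ℝ => |u| ^ (p - 1)) (Icc (-3) 0) := by
    have h3 := h1.comp_neg
    simpa using h3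
  have h3 : IntegrableOn (fun u : ℝ => |u| ^ (p - 1)) (Icc (-3) 3) := by
    have h4 := h2.union h1
    rwa [Icc_union_Icc_eq_Icc (by norm_num) (by norm_num)] at h4
  have h4 := h3.2
  rw [hasFiniteIntegral_iff_norm] at h4
  refine lt_of_le_of_lt (le_of_eq ?_) h4
  refine lintegral_congr fun u => ?_
  rw [Real.norm_of_nonneg (by positivity)]

/-- the average over a segment of a negative power of the distance is bounded -/
lemma seg_bound {n : ℕ} {p : ℝ} (hp1 : p ≤ 1) (w z : Eu n) (hz : ‖z‖ = 1)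
    (hw : ‖w‖ ≤ 2) :
    ∫⁻ t in Icc (0 : ℝ) 1, ENNReal.ofReal (‖w - t • z‖ ^ (p - 1)) ≤
      ∫⁻ u in Icc (-3 : ℝ) 3, ENNReal.ofReal (|u| ^ (p - 1)) := by
  set τ : ℝ := inner ℝ z w with hτ
  have hτ2 : |τ| ≤ 2 := by
    have := abs_real_inner_le_norm z w
    rw [hz, one_mul] at this
    exact this.trans hw
  have h1 : ∀ t : ℝ, t ≠ τ → ‖w - t • z‖ ^ (p - 1) ≤ |t - τ| ^ (p - 1) := by
    intro t ht
    have h2 : |t - τ| ≤ ‖w - t • z‖ := by
      have h3 := abs_real_inner_le_norm z (w - t • z)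
      rw [hz, one_mul, inner_sub_right, real_inner_smul_right, real_inner_self_eq_norm_sq, hz] at h3
      rw [abs_sub_comm]
      simpa using h3
    exact Real.rpow_le_rpow_of_nonpos (abs_pos.2 (sub_ne_zero.2 ht)) h2 (by linarith)
  calc ∫⁻ t in Icc (0 : ℝ) 1, ENNReal.ofReal (‖w - t • z‖ ^ (p - 1))
      ≤ ∫⁻ t in Icc (0 : ℝ) 1, ENNReal.ofReal (|t - τ| ^ (p - 1)) := by
        refine lintegral_mono_ae ?_
        have h4 : ∀ᵐ t : ℝ ∂(volume.restrict (Icc (0 : ℝ) 1)), t ≠ τ := by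
          refine ae_restrict_of_ae ?_
          rw [ae_iff]
          simp
        filter_upwards [h4] with t ht
        exact ENNReal.ofReal_le_ofReal (h1 t ht)
    _ = ∫⁻ t, (Icc (0 : ℝ) 1).indicator (fun t => ENNReal.ofReal (|t - τ| ^ (p - 1))) t := by
        rw [lintegral_indicator measurableSet_Icc]
    _ ≤ ∫⁻ t, (fun u => (Icc (-3 : ℝ) 3).indicator (fun u => ENNReal.ofReal (|u| ^ (p - 1))) u)
          (t - τ) := by
        refine lintegral_mono fun t => ?_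
        simp only
        rw [indicator]
        split_ifs with ht
        · rw [indicator_of_mem]
          rw [abs_le] at hτ2
          constructor
          · linarith [ht.1, hτ2.2]
          · linarith [ht.2, hτ2.1]
        · exact bot_le
    _ = ∫⁻ u in Icc (-3 : ℝ) 3, ENNReal.ofReal (|u| ^ (p - 1)) := by
        rw [lintegral_sub_right_eq_self
          (fun u => (Icc (-3 : ℝ) 3).indicator (fun u => ENNReal.ofReal (|u| ^ (p - 1))) u) τ,
          lintegral_indicator measurableSet_Icc]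

variable {n : ℕ} {K : Set (Eu n)}

lemma half_mem (hK : Convex ℝ K) {x y : Eu n} (hx : x ∈ K) (hy : y ∈ K) :
    (2 : ℝ)⁻¹ • (x + y) ∈ K := by
  rw [smul_add]
  exact hK hx hy (by norm_num) (by norm_num) (by norm_num)

/-- change of variables inside `K` -/
lemma cov_K (hK : Convex ℝ K) (hKm : MeasurableSet K) (F : Eu n → ENNReal) (hF : Measurable F)
    {z : Eu n} (hz : z ∈ K) :
    ENNReal.ofReal (|((2 : ℝ) ^ n)⁻¹|) * ∫⁻ x in K, F x ≤ ∫⁻ y in K, F ((2 : ℝ) • y - z) := by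
  rw [← lintegral_indicator hKm, ← cov _ (hF.indicator hKm) z, ← lintegral_indicator hKm]
  refine lintegral_mono fun y => ?_
  rw [indicator]
  split_ifs with h
  · have h1 : y ∈ K := by
      have h2 := half_mem hK h hz
      rw [sub_add_cancel, smul_smul] at h2
      simpa using h2
    rw [indicator_of_mem h1]
  · exact bot_le

/-- the moment of negative order -/
lemma upper {p : ℝ} (hp1 : p ≤ 1) (hK : Convex ℝ K) (hKm : MeasurableSet K)
    (hsym : ∀ x ∈ K, -x ∈ K) (hb : K ⊆ closedBall 0 1) {z : Eu n} (hz : z ∈ K) (hz1 : ‖z‖ = 1) :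
    ∫⁻ x in K, ENNReal.ofReal (‖x‖ ^ (p - 1)) ≤
      (ENNReal.ofReal (|((2 : ℝ) ^ n)⁻¹|))⁻¹ *
        ((∫⁻ u in Icc (-3 : ℝ) 3, ENNReal.ofReal (|u| ^ (p - 1))) * volume K) := by
  set F : Eu n → ENNReal := fun x => ENNReal.ofReal (‖x‖ ^ (p - 1)) with hF
  have hFm : Measurable F := by fun_prop
  set c : ENNReal := ENNReal.ofReal (|((2 : ℝ) ^ n)⁻¹|) with hc
  have hc0 : c ≠ 0 := by
    rw [hc, Ne, ENNReal.ofReal_eq_zero, not_le]
    positivity
  have hct : c ≠ ⊤ := ENNReal.ofReal_ne_top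
  have h0 : (0 : Eu n) ∈ K := by
    have := half_mem hK hz (hsym z hz)
    simpa using this
  have hseg : ∀ t ∈ Icc (0 : ℝ) 1, t • z ∈ K := fun t ht => by
    have := hK h0 hz (sub_nonneg.2 ht.2) ht.1 (by ring : (1 - t) + t = 1)
    simpa using this
  have h1 : ∀ t ∈ Icc (0 : ℝ) 1, c * ∫⁻ x in K, F x ≤ ∫⁻ y in K, F ((2 : ℝ) • y - t • z) :=
    fun t ht => cov_K hK hKm F hFm (hseg t ht)
  have h2 : c * ∫⁻ x in K, F x ≤
      ∫⁻ t in Icc (0 : ℝ) 1, ∫⁻ y in K, F ((2 : ℝ) • y - t • z) := by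
    calc c * ∫⁻ x in K, F x = ∫⁻ t in Icc (0 : ℝ) 1, c * ∫⁻ x in K, F x := by
          rw [setLIntegral_const, Real.volume_Icc]
          simp
      _ ≤ _ := setLIntegral_mono' measurableSet_Icc h1
  have h3 : ∫⁻ t in Icc (0 : ℝ) 1, ∫⁻ y in K, F ((2 : ℝ) • y - t • z) =
      ∫⁻ y in K, ∫⁻ t in Icc (0 : ℝ) 1, F ((2 : ℝ) • y - t • z) := by
    rw [lintegral_lintegral_swap]
    apply Measurable.aemeasurable
    have h4 : Measurable (fun q : ℝ × Eu n => (2 : ℝ) • q.2 - q.1 • z) := by fun_prop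
    exact hFm.comp h4
  have h4 : ∫⁻ y in K, ∫⁻ t in Icc (0 : ℝ) 1, F ((2 : ℝ) • y - t • z) ≤
      (∫⁻ u in Icc (-3 : ℝ) 3, ENNReal.ofReal (|u| ^ (p - 1))) * volume K := by
    rw [← setLIntegral_const]
    refine setLIntegral_mono' hKm fun y hy => ?_
    refine seg_bound hp1 _ z hz1 ?_
    rw [norm_smul]
    have := hb hy
    rw [mem_closedBall_zero_iff] at this
    rw [Real.norm_of_nonneg (by norm_num)]
    linarith
  have h5 := h2.trans (h3.le.trans h4)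
  calc ∫⁻ x in K, F x = c⁻¹ * (c * ∫⁻ x in K, F x) := by
        rw [← mul_assoc, ENNReal.inv_mul_cancel hc0 hct, one_mul]
    _ ≤ _ := by gcongr

/-- the moment of positive order -/
lemma lower {p : ℝ} (hp : 0 < p) (hK : Convex ℝ K) (hKm : MeasurableSet K)
    (hsym : ∀ x ∈ K, -x ∈ K) {z : Eu n} (hz : z ∈ K) (hz1 : ‖z‖ = 1) :
    ENNReal.ofReal (|((2 : ℝ) ^ n)⁻¹|) * (ENNReal.ofReal ((1 / 2 : ℝ) ^ p) * volume K) ≤
      2 * ∫⁻ x in K, ENNReal.ofReal (‖x‖ ^ p) := by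
  set G : Eu n → ENNReal := fun x => ENNReal.ofReal (‖x‖ ^ p) with hG
  have hGm : Measurable G := by fun_prop
  have key : ∀ y ∈ K, ENNReal.ofReal (|((2 : ℝ) ^ n)⁻¹|) *
      ∫⁻ x in K, G ((2 : ℝ)⁻¹ • (x + y)) ≤ ∫⁻ x in K, G x := by
    intro y hy
    have h1 : Measurable (fun x : Eu n => G ((2 : ℝ)⁻¹ • (x + y))) := by
      have h2 : Measurable (fun x : Eu n => (2 : ℝ)⁻¹ • (x + y)) := by fun_prop
      exact hGm.comp h2
    refine (cov_K hK hKm _ h1 hy).trans (le_of_eq ?_)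
    refine lintegral_congr fun x => ?_
    rw [sub_add_cancel, smul_smul]
    norm_num
  have h1 := key z hz
  have h2 := key (-z) (hsym z hz)
  have h3 : ∀ x : Eu n, ENNReal.ofReal ((1 / 2 : ℝ) ^ p) ≤
      G ((2 : ℝ)⁻¹ • (x + z)) + G ((2 : ℝ)⁻¹ • (x + -z)) := by
    intro x
    have h4 : (1 : ℝ) ≤ ‖(2 : ℝ)⁻¹ • (x + z)‖ + ‖(2 : ℝ)⁻¹ • (x + -z)‖ := by
      have h5 : z = (2 : ℝ)⁻¹ • (x + z) - (2 : ℝ)⁻¹ • (x + -z) := by
        rw [← smul_sub]
        have h6 : x + z - (x + -z) = (2 : ℝ) • z := by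
          rw [two_smul]; abel
        rw [h6, smul_smul]
        norm_num
      calc (1 : ℝ) = ‖z‖ := hz1.symm
        _ = ‖(2 : ℝ)⁻¹ • (x + z) - (2 : ℝ)⁻¹ • (x + -z)‖ := by rw [← h5]
        _ ≤ _ := norm_sub_le _ _
    rcases le_total (1 / 2) ‖(2 : ℝ)⁻¹ • (x + z)‖ with h | h
    · refine le_trans ?_ le_self_add
      exact ENNReal.ofReal_le_ofReal (Real.rpow_le_rpow (by norm_num) h hp.le)
    · refine le_trans ?_ le_add_self
      exact ENNReal.ofReal_le_ofReal (Real.rpow_le_rpow (by norm_num) (by linarith) hp.le)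
  calc ENNReal.ofReal (|((2 : ℝ) ^ n)⁻¹|) * (ENNReal.ofReal ((1 / 2 : ℝ) ^ p) * volume K)
      = ENNReal.ofReal (|((2 : ℝ) ^ n)⁻¹|) * ∫⁻ x in K, ENNReal.ofReal ((1 / 2 : ℝ) ^ p) := by
        rw [setLIntegral_const]
    _ ≤ ENNReal.ofReal (|((2 : ℝ) ^ n)⁻¹|) *
        ∫⁻ x in K, (G ((2 : ℝ)⁻¹ • (x + z)) + G ((2 : ℝ)⁻¹ • (x + -z))) := by
        gcongr with x
        exact h3 x
    _ = (ENNReal.ofReal (|((2 : ℝ) ^ n)⁻¹|) * ∫⁻ x in K, G ((2 : ℝ)⁻¹ • (x + z))) +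
        (ENNReal.ofReal (|((2 : ℝ) ^ n)⁻¹|) * ∫⁻ x in K, G ((2 : ℝ)⁻¹ • (x + -z))) := by
        rw [lintegral_add_left, mul_add]
        have h2 : Measurable (fun x : Eu n => (2 : ℝ)⁻¹ • (x + z)) := by fun_prop
        exact hGm.comp h2
    _ ≤ (∫⁻ x in K, G x) + (∫⁻ x in K, G x) := add_le_add h1 h2
    _ = 2 * ∫⁻ x in K, G x := (two_mul _).symm

end XPack

open XPack in
theorem pack {n : ℕ} [NeZero n] {p : ℝ} (hp : 0 < p) :
    ∃ C : ℝ, 0 < C ∧ ∀ K : Set (Eu n), Convex ℝ K → IsCompact K → (∀ x ∈ K, -x ∈ K) →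
      K ⊆ closedBall 0 1 → (∃ z ∈ K, ‖z‖ = 1) →
      IntegrableOn (fun x => ‖x‖ ^ (p - 1)) K ∧
      ∫ x in K, ‖x‖ ^ (p - 1) ≤ C * ∫ x in K, ‖x‖ ^ p := by
  set c : ENNReal := ENNReal.ofReal (|((2 : ℝ) ^ n)⁻¹|) with hc
  have hc0 : c ≠ 0 := by
    rw [hc, Ne, ENNReal.ofReal_eq_zero, not_le]
    positivity
  have hct : c ≠ ⊤ := ENNReal.ofReal_ne_top
  -- the upper bound
  obtain ⟨A, hAt, hA⟩ : ∃ A : ENNReal, A ≠ ⊤ ∧ ∀ K : Set (Eu n), Convex ℝ K → IsCompact K →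
      (∀ x ∈ K, -x ∈ K) → K ⊆ closedBall 0 1 → (∃ z ∈ K, ‖z‖ = 1) →
      ∫⁻ x in K, ENNReal.ofReal (‖x‖ ^ (p - 1)) ≤ A * volume K := by
    rcases le_total p 1 with hp1 | hp1
    · refine ⟨c⁻¹ * ∫⁻ u in Icc (-3 : ℝ) 3, ENNReal.ofReal (|u| ^ (p - 1)),
        ENNReal.mul_ne_top (ENNReal.inv_ne_top.2 hc0) (fin_pow hp).ne, ?_⟩
      intro K hK hKc hsym hb ⟨z, hz, hz1⟩
      rw [mul_assoc]
      exact upper hp1 hK hKc.measurableSet hsym hb hz hz1
    · refine ⟨1, ENNReal.one_ne_top, ?_⟩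
      intro K hK hKc hsym hb _
      rw [← setLIntegral_const]
      refine setLIntegral_mono' hKc.measurableSet fun x hx => ?_
      have h1 := hb hx
      rw [mem_closedBall_zero_iff] at h1
      rw [ENNReal.ofReal_le_one]
      exact Real.rpow_le_one (norm_nonneg _) h1 (by linarith)
  set d : ℝ := c.toReal * (1 / 2 : ℝ) ^ p with hd
  have hd0 : 0 < d := mul_pos (ENNReal.toReal_pos hc0 hct) (by positivity)
  refine ⟨A.toReal * (2 / d) + 1, by positivity, ?_⟩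
  intro K hK hKc hsym hb hzex
  have hKm := hKc.measurableSet
  have hV : volume K ≠ ⊤ := hKc.measure_lt_top.ne
  have hup := hA K hK hKc hsym hb hzex
  obtain ⟨z, hz, hz1⟩ := hzex
  have hlow := lower hp hK hKm hsym hz hz1
  have hint : IntegrableOn (fun x : Eu n => ‖x‖ ^ (p - 1)) K := by
    refine ⟨(by fun_prop : Measurable (fun x : Eu n => ‖x‖ ^ (p - 1))).aestronglyMeasurable, ?_⟩
    rw [hasFiniteIntegral_iff_norm]
    refine lt_of_eq_of_lt ?_ (hup.trans_lt (ENNReal.mul_lt_top hAt.lt_top hV.lt_top))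
    refine lintegral_congr fun x => ?_
    rw [Real.norm_of_nonneg (by positivity)]
  refine ⟨hint, ?_⟩
  have hcont : Continuous (fun x : Eu n => ‖x‖ ^ p) :=
    continuous_norm.rpow_const (fun _ => Or.inr hp.le)
  have hint2 : IntegrableOn (fun x : Eu n => ‖x‖ ^ p) K := hcont.continuousOn.integrableOn_compact hKc
  have e1 : ∫ x in K, ‖x‖ ^ (p - 1) = (∫⁻ x in K, ENNReal.ofReal (‖x‖ ^ (p - 1))).toReal :=
    integral_eq_lintegral_of_nonneg_ae (ae_of_all _ fun x => by positivity)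
      hint.aestronglyMeasurable
  have e2 : ∫ x in K, ‖x‖ ^ p = (∫⁻ x in K, ENNReal.ofReal (‖x‖ ^ p)).toReal :=
    integral_eq_lintegral_of_nonneg_ae (ae_of_all _ fun x => by positivity)
      hint2.aestronglyMeasurable
  have hDt : ∫⁻ x in K, ENNReal.ofReal (‖x‖ ^ p) ≠ ⊤ := by
    have h4 := hint2.2
    rw [hasFiniteIntegral_iff_norm] at h4
    refine (lt_of_le_of_lt (le_of_eq ?_) h4).ne
    refine lintegral_congr fun u => ?_
    rw [Real.norm_of_nonneg (by positivity)]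
  have h1 : ∫ x in K, ‖x‖ ^ (p - 1) ≤ A.toReal * (volume K).toReal := by
    rw [e1, ← ENNReal.toReal_mul]
    exact ENNReal.toReal_mono (ENNReal.mul_ne_top hAt hV) hup
  have h2 : d * (volume K).toReal ≤ 2 * ∫ x in K, ‖x‖ ^ p := by
    have h3 := ENNReal.toReal_mono (ENNReal.mul_ne_top ENNReal.ofNat_ne_top hDt) hlow
    rw [ENNReal.toReal_mul, ENNReal.toReal_mul, ENNReal.toReal_mul, ← e2,
      ENNReal.toReal_ofReal (by positivity : (0 : ℝ) ≤ (1 / 2 : ℝ) ^ p)] at h3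
    rw [hd, mul_assoc]
    simpa only [ENNReal.toReal_ofNat] using h3
  have hD0 : 0 ≤ ∫ x in K, ‖x‖ ^ p := integral_nonneg fun x => by positivity
  have h3 : (volume K).toReal ≤ (2 / d) * ∫ x in K, ‖x‖ ^ p := by
    rw [div_mul_eq_mul_div, le_div_iff₀ hd0]
    linarith
  calc ∫ x in K, ‖x‖ ^ (p - 1) ≤ A.toReal * (volume K).toReal := h1
    _ ≤ A.toReal * ((2 / d) * ∫ x in K, ‖x‖ ^ p) :=
        mul_le_mul_of_nonneg_left h3 ENNReal.toReal_nonneg
    _ ≤ (A.toReal * (2 / d) + 1) * ∫ x in K, ‖x‖ ^ p := by nlinarith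

end Pool.Agent.Lib.MP_b0d2bf_gt
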