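import Mathlib
import Pool.Agent.Lib.MP_b0d2bf_gt.XPack

set_option autoImplicit false

/-!
An inequality for the dual curvature measure tested with a segment direction.
-/

namespace Pool.Agent.Lib.MP_b0d2bf_gt

open MeasureTheory Metric Set Filter Topology

namespace XSeg

variable {n : ℕ}

/-- integrals against the dual curvature measure -/
lemma integral_MM [NeZero n] {q : ℝ} {h : Sph n → ℝ} (hc : Continuous h) (h0 : ∀ v, 0 < h v)
    {F : Sph n → ℝ} (hF : Measurable F) :
    ∫ v, F v ∂(MM q h) = ∫ u : Sph n, F (nu h u) * (gN h u)⁻¹ ^ q ∂(sg n) := by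
  unfold MM
  rw [integral_map (measurable_nu h).aemeasurable hF.aestronglyMeasurable]
  have hd : Measurable (fun u : Sph n => ENNReal.ofReal ((gN h (u : Eu n))⁻¹ ^ q)) :=
    (continuous_radpow hc h0 q).measurable.ennreal_ofReal
  rw [integral_withDensity_eq_integral_toReal_smul hd
    (Eventually.of_forall fun u => ENNReal.ofReal_lt_top)]
  refine integral_congr_ae (Eventually.of_forall fun u => ?_)
  show (ENNReal.ofReal ((gN h (u : Eu n))⁻¹ ^ q)).toReal • F (nu h u) = _
  rw [ENNReal.toReal_ofReal (Real.rpow_pos_of_pos (inv_pos.2 (gN_pos hc h0 (sph_ne_zero u))) q).le,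
    smul_eq_mul, mul_comm]

/-- Bernoulli inequality -/
lemma bern {p y : ℝ} (hy0 : 0 ≤ y) (hy1 : y < 1) :
    1 - max 1 p * y ≤ (1 - y) ^ p := by
  rcases le_total 1 p with h | h
  · rw [max_eq_right h]
    have := one_add_mul_self_le_rpow_one_add (s := -y) (by linarith) h
    calc 1 - p * y = 1 + p * -y := by ring
      _ ≤ (1 + -y) ^ p := this
      _ = (1 - y) ^ p := by rw [sub_eq_add_neg]
  · rw [max_eq_left h, one_mul]
    have h1 := Real.rpow_le_rpow_of_exponent_ge (x := 1 - y) (by linarith) (by linarith) h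
    rwa [Real.rpow_one] at h1

lemma point {p r R t : ℝ} (hp : 0 < p) (hr : 0 < r) (hR : r - t ≤ R) (hR0 : 0 ≤ R) (ht : 0 ≤ t) :
    r ^ p - max 1 p * t * r ^ (p - 1) ≤ R ^ p := by
  have h1 : r ^ p = r ^ (p - 1) * r := by
    rw [← Real.rpow_add_one hr.ne']
    congr 1; ring
  have hm : (1:ℝ) ≤ max 1 p := le_max_left _ _
  have hrp : 0 < r ^ (p - 1) := Real.rpow_pos_of_pos hr _
  rcases le_or_gt r t with h | h
  · refine le_trans ?_ (Real.rpow_nonneg hR0 p)
    rw [h1]
    have h2 : r ≤ max 1 p * t := by nlinarith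
    nlinarith
  · set y := t / r with hy
    have hy0 : 0 ≤ y := div_nonneg ht hr.le
    have hy1 : y < 1 := (div_lt_one hr).2 h
    have hb := bern (p := p) hy0 hy1
    have h2 : (r - t) ^ p ≤ R ^ p := Real.rpow_le_rpow (by linarith) hR hp.le
    have h3 : r - t = r * (1 - y) := by rw [hy]; field_simp
    refine le_trans ?_ h2
    rw [h3, Real.mul_rpow hr.le (by linarith)]
    have h4 := mul_le_mul_of_nonneg_left hb (Real.rpow_pos_of_pos hr p).le
    refine le_trans (le_of_eq ?_) h4
    rw [h1, hy]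
    field_simp

/-- the shear `x ↦ x + s ⟨ξ, x⟩ e` -/
noncomputable def shM (e ξ : Eu n) (s : ℝ) : Eu n →ₗ[ℝ] Eu n :=
  LinearMap.transvection (s • (innerSL ℝ ξ).toLinearMap) e

lemma shM_apply (e ξ : Eu n) (s : ℝ) (x : Eu n) :
    shM e ξ s x = x + (s * inner ℝ x ξ) • e := by
  unfold shM LinearMap.transvection
  show x + (s • (innerSL ℝ ξ).toLinearMap) x • e = _
  rw [LinearMap.smul_apply, ContinuousLinearMap.coe_coe, innerSL_apply_apply, real_inner_comm,
    smul_eq_mul]

lemma det_shM {e ξ : Eu n} (he : inner ℝ e ξ = (1:ℝ)) (s : ℝ) :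
    LinearMap.det (shM e ξ s) = 1 + s := by
  unfold shM
  rw [LinearMap.transvection.det, LinearMap.smul_apply, ContinuousLinearMap.coe_coe,
    innerSL_apply_apply, real_inner_comm, he, smul_eq_mul, mul_one]

lemma image_integral {e ξ : Eu n} (he : inner ℝ e ξ = (1:ℝ)) {s : ℝ} (hs : 0 < s)
    {K : Set (Eu n)} (hK : MeasurableSet K) (g : Eu n → ℝ) :
    ∫ x in (shM e ξ s) '' K, g x = (1 + s) * ∫ x in K, g (shM e ξ s x) := by
  set T : Eu n →L[ℝ] Eu n := LinearMap.toContinuousLinearMap (shM e ξ s) with hT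
  have hdet : T.det = 1 + s := by
    show LinearMap.det (T : Eu n →ₗ[ℝ] Eu n) = 1 + s
    rw [hT, LinearMap.coe_toContinuousLinearMap]
    exact det_shM he s
  have hinj : Function.Injective (shM e ξ s) := by
    have h1 : LinearMap.det (shM e ξ s) ≠ 0 := by rw [det_shM he]; linarith
    have h2 := (LinearMap.isUnit_iff_isUnit_det (f := shM e ξ s)).2 (isUnit_iff_ne_zero.2 h1)
    rw [Module.End.isUnit_iff] at h2
    exact h2.injective
  have h1 := integral_image_eq_integral_abs_det_fderiv_smul (volume : Measure (Eu n)) hK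
    (f := fun x => shM e ξ s x) (f' := fun _ => T)
    (fun x _ => T.hasFDerivAt.hasFDerivWithinAt) hinj.injOn g
  rw [hdet, abs_of_pos (by linarith : (0:ℝ) < 1 + s)] at h1
  simp only [smul_eq_mul] at h1
  rw [integral_const_mul] at h1
  exact h1

end XSeg

open XSeg

theorem seg {n : ℕ} [NeZero n] {q : ℝ} (hq : (n : ℝ) < q) :
    ∃ C : ℝ, 0 < C ∧ ∀ h : Sph n → ℝ, Continuous h → (∀ v, 0 < h v) → (∀ v, h (-v) = h v) →
      wulff h ⊆ closedBall 0 1 → (∃ z ∈ wulff h, ‖z‖ = 1) → ∀ e : Sph n,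
      II q h / q * (1 - C * (gN h (e : Eu n))⁻¹) ≤
        ∫ v : Sph n, (gN h (e : Eu n))⁻¹ * |inner ℝ (e : Eu n) (v : Eu n)| / h v ∂(MM q h) := by
  have hn : (0:ℝ) < n := by exact_mod_cast NeZero.pos n
  have hq0 : 0 < q := by linarith
  set p := q - n with hp
  have hp0 : 0 < p := by rw [hp]; linarith
  obtain ⟨C, hC0, hC⟩ := pack (n := n) hp0
  refine ⟨max 1 p * C, by positivity, ?_⟩
  intro h hc h0 he hb1 hz e
  set K := wulff h with hK
  have hKc : IsCompact K := isCompact_wulff hc h0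
  have hKm : MeasurableSet K := hKc.measurableSet
  obtain ⟨hint, hD'⟩ := hC K convex_wulff hKc (fun x hx => neg_mem_wulff he hx) hb1 hz
  set D := ∫ x in K, ‖x‖ ^ p with hD
  set D' := ∫ x in K, ‖x‖ ^ (p - 1) with hD'def
  have hII : II q h / q = D := by
    rw [II_eq hq hc h0]
    show q * D / q = D
    field_simp
  have hintp : IntegrableOn (fun x : Eu n => ‖x‖ ^ p) K :=
    (continuous_norm_rpow hp0.le).continuousOn.integrableOn_compact hKc
  set α := (gN h (e : Eu n))⁻¹ with hα
  have hα0 : 0 < α := inv_pos.2 (gN_pos hc h0 (sph_ne_zero e))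
  -- the normal at the end point
  obtain ⟨v₀, hv₀⟩ := exists_isMx hc h0 (e : Eu n)
  have hv0 : inner ℝ (e : Eu n) (v₀ : Eu n) / h v₀ = gN h e := hv₀
  set ξ : Eu n := (h v₀)⁻¹ • (v₀ : Eu n) with hξ
  have hξe : inner ℝ (α • (e : Eu n)) ξ = (1:ℝ) := by
    rw [hξ, inner_smul_left, inner_smul_right]
    show α * ((h v₀)⁻¹ * inner ℝ (e : Eu n) (v₀ : Eu n)) = 1
    have h1 : (h v₀)⁻¹ * inner ℝ (e : Eu n) (v₀ : Eu n) = gN h e := by
      rw [← hv0, div_eq_inv_mul]
    rw [h1, hα, inv_mul_cancel₀ (gN_pos hc h0 (sph_ne_zero e)).ne']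
  have hξK : ∀ x ∈ K, |inner ℝ x ξ| ≤ 1 := by
    intro x hx
    rw [hξ, inner_smul_right, abs_mul, abs_of_pos (inv_pos.2 (h0 v₀)), inv_mul_le_iff₀ (h0 v₀),
      mul_one, abs_le]
    constructor
    · have := neg_mem_wulff he hx v₀
      rw [inner_neg_left] at this
      linarith
    · exact hx v₀
  set φ : Sph n → ℝ := fun v => α * |inner ℝ (e : Eu n) (v : Eu n)| / h v with hφ
  have hφc : Continuous φ := by
    refine Continuous.div (continuous_const.mul ?_) hc fun v => (h0 v).ne'
    exact (continuous_const.inner continuous_subtype_val).abs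
  have hφ0 : ∀ v, 0 ≤ φ v := fun v => div_nonneg (mul_nonneg hα0.le (abs_nonneg _)) (h0 v).le
  -- the inclusion of bodies
  have hsub : ∀ s : ℝ, 0 < s → (shM (α • (e : Eu n)) ξ s) '' K ⊆ wulff (ht h φ s) := by
    rintro s hs _ ⟨x, hx, rfl⟩ v
    rw [shM_apply, inner_add_left, inner_smul_left, inner_smul_left]
    have h1 := hx v
    have h2 := hξK x hx
    have h3 : s * inner ℝ x ξ * (α * inner ℝ (e : Eu n) (v : Eu n)) ≤
        s * (α * |inner ℝ (e : Eu n) (v : Eu n)|) := by
      refine (le_abs_self _).trans ?_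
      rw [abs_mul, abs_mul, abs_mul, abs_of_pos hs, abs_of_pos hα0]
      have h4 : s * |inner ℝ x ξ| ≤ s * 1 := mul_le_mul_of_nonneg_left h2 hs.le
      rw [mul_one] at h4
      exact mul_le_mul_of_nonneg_right h4 (by positivity)
    have h4 : h v * (1 + s * φ v) ≤ ht h φ s v := by
      unfold ht
      refine mul_le_mul_of_nonneg_left ?_ (h0 v).le
      have := Real.add_one_le_exp (s * φ v)
      linarith
    have h5 : h v * (1 + s * φ v) = h v + s * (α * |inner ℝ (e : Eu n) (v : Eu n)|) := by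
      simp only [hφ]
      have := (h0 v).ne'
      field_simp
    rw [h5] at h4
    show inner ℝ x (v : Eu n) + s * inner ℝ x ξ * (α * inner ℝ (e : Eu n) (v : Eu n)) ≤ _
    linarith
  -- the lower bound
  have hlow : ∀ s : ℝ, 0 < s →
      (1 + s) * (D - max 1 p * (s * α) * D') ≤ II q (ht h φ s) / q := by
    intro s hs
    have hct := continuous_ht hc hφc s
    have h0t := ht_pos (f := φ) h0 s
    have h1 : II q (ht h φ s) / q = ∫ x in wulff (ht h φ s), ‖x‖ ^ p := by
      rw [II_eq hq hct h0t]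
      show q * (∫ x in wulff (ht h φ s), ‖x‖ ^ p) / q = _
      field_simp
    rw [h1]
    have h2 : ∫ x in (shM (α • (e : Eu n)) ξ s) '' K, ‖x‖ ^ p ≤
        ∫ x in wulff (ht h φ s), ‖x‖ ^ p := by
      refine setIntegral_mono_set ?_ ?_ (Eventually.of_forall (hsub s hs))
      · exact (continuous_norm_rpow hp0.le).continuousOn.integrableOn_compact
          (isCompact_wulff hct h0t)
      · exact Eventually.of_forall fun x => Real.rpow_nonneg (norm_nonneg _) _
    refine le_trans ?_ h2
    rw [image_integral hξe hs hKm]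
    refine mul_le_mul_of_nonneg_left ?_ (by linarith)
    have h3 : D - max 1 p * (s * α) * D' =
        ∫ x in K, (‖x‖ ^ p - max 1 p * (s * α) * ‖x‖ ^ (p - 1)) := by
      rw [integral_sub hintp (hint.const_mul _), integral_const_mul]
    rw [h3]
    have hTc : Continuous (fun x => shM (α • (e : Eu n)) ξ s x) :=
      LinearMap.continuous_of_finiteDimensional _
    refine setIntegral_mono_on_ae (hintp.sub (hint.const_mul _))
      (((continuous_norm_rpow hp0.le).comp hTc).continuousOn.integrableOn_compact hKc) hKm ?_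
    have hne : ∀ᵐ x : Eu n, x ≠ 0 := by
      rw [ae_iff]
      have : {x : Eu n | ¬ x ≠ 0} = {0} := by ext x; simp
      rw [this]
      have : Nontrivial (Eu n) := inferInstance
      exact measure_singleton (0 : Eu n)
    filter_upwards [hne] with x hx0 hxK
    have hen : ‖(e : Eu n)‖ = 1 := norm_sph e
    refine point hp0 (norm_pos_iff.2 hx0) ?_ (norm_nonneg _) (by positivity)
    rw [shM_apply]
    have h4 := norm_sub_le_norm_add x ((s * inner ℝ x ξ) • (α • (e : Eu n)))
    have h5 : ‖(s * inner ℝ x ξ) • (α • (e : Eu n))‖ ≤ s * α := by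
      rw [norm_smul, norm_smul, hen, mul_one, Real.norm_eq_abs, Real.norm_eq_abs, abs_mul,
        abs_of_pos hs, abs_of_pos hα0]
      have h6 := hξK x hxK
      have h7 : s * |inner ℝ x ξ| ≤ s * 1 := mul_le_mul_of_nonneg_left h6 hs.le
      rw [mul_one] at h7
      exact mul_le_mul_of_nonneg_right h7 hα0.le
    linarith
  -- derivative
  have hder := (hasDerivAt_II hc h0 hφc hq0).div_const q
  have hval : (∫ u : Sph n, q * φ (nu h u) * (gN h u)⁻¹ ^ q ∂(sg n)) / q =
      ∫ v, φ v ∂(MM q h) := by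
    rw [integral_MM hc h0 hφc.measurable, ← integral_div]
    refine integral_congr_ae (Eventually.of_forall fun u => ?_)
    show q * φ (nu h u) * (gN h (u : Eu n))⁻¹ ^ q / q = φ (nu h u) * (gN h (u : Eu n))⁻¹ ^ q
    field_simp
  rw [hval] at hder
  have hslope := hder.tendsto_slope_zero_right
  simp only [zero_add, ht_zero, smul_eq_mul] at hslope
  have hlim : Tendsto (fun s : ℝ => (D - max 1 p * α * D') - s * (max 1 p * α * D'))
      (𝓝[>] 0) (𝓝 ((D - max 1 p * α * D') - 0 * (max 1 p * α * D'))) := by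
    refine Tendsto.mono_left ?_ nhdsWithin_le_nhds
    exact (tendsto_const_nhds.sub (tendsto_id.mul_const _))
  have hfin : (D - max 1 p * α * D') - 0 * (max 1 p * α * D') ≤ ∫ v, φ v ∂(MM q h) := by
    refine le_of_tendsto_of_tendsto hlim hslope ?_
    filter_upwards [self_mem_nhdsWithin] with s hs
    have hs' : (0:ℝ) < s := hs
    have h1 := hlow s hs'
    rw [hII]
    rw [le_inv_mul_iff₀ hs']
    have h2 : s * (D - max 1 p * α * D' - s * (max 1 p * α * D')) =
      (1 + s) * (D - max 1 p * (s * α) * D') - D := by ring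
    rw [h2]
    linarith
  rw [zero_mul, sub_zero] at hfin
  rw [hII]
  refine le_trans ?_ hfin
  have h1 : max 1 p * α * D' ≤ max 1 p * α * (C * D) :=
    mul_le_mul_of_nonneg_left hD' (by positivity)
  calc D * (1 - max 1 p * C * α) = D - max 1 p * α * (C * D) := by ring
    _ ≤ D - max 1 p * α * D' := by linarith

end Pool.Agent.Lib.MP_b0d2bf_gt
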