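import Mathlib
import Pool.Agent.Lib.MP_b0d2bf_gt.XDefs2
import Pool.Agent.Lib.MP_b0d2bf_gt.XNH
import Pool.Agent.Lib.MP_b0d2bf_gt.XLim
import Pool.Agent.Lib.MP_b0d2bf_gt.XTl
import Pool.Agent.Lib.MP_b0d2bf_gt.XAlign
import Pool.Agent.Lib.MP_b0d2bf_gt.XSeg

set_option autoImplicit false

namespace Pool.Agent.Lib.MP_b0d2bf_gt

open MeasureTheory Metric Set Filter Topology

namespace XGap

/-- a unit vector of `L` orthogonal to `W` -/
lemma exists_unit {n : ℕ} {W L : Submodule ℝ (Eu n)} (hWL : W ≤ L) (hne : W ≠ L) :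
    ∃ e0 : Sph n, (e0 : Eu n) ∈ L ∧ ∀ w ∈ W, inner ℝ (e0 : Eu n) w = 0 := by
  obtain ⟨x, hxL, hxW⟩ := SetLike.exists_of_lt (lt_of_le_of_ne hWL hne)
  set y : Eu n := x - W.starProjection x with hy
  have hy0 : y ≠ 0 := by
    intro h0
    apply hxW
    rw [sub_eq_zero] at h0
    rw [h0]
    exact W.starProjection_apply_mem x
  have hyL : y ∈ L := L.sub_mem hxL (hWL (W.starProjection_apply_mem x))
  have hyo : ∀ w ∈ W, inner ℝ y w = 0 := by
    intro w hw
    rw [real_inner_comm]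
    exact W.sub_starProjection_mem_orthogonal x w hw
  refine ⟨dirS y hy0, ?_, ?_⟩
  · have h1 := norm_smul_dirS y hy0
    have h2 : (dirS y hy0 : Eu n) = ‖y‖⁻¹ • y := by
      nth_rewrite 3 [← h1]
      rw [smul_smul, inv_mul_cancel₀ (norm_ne_zero_iff.mpr hy0), one_smul]
    rw [h2]
    exact L.smul_mem _ hyL
  · intro w hw
    have h1 := norm_smul_dirS y hy0
    have h3 := hyo w hw
    rw [← h1, inner_smul_left] at h3
    have h4 : ‖y‖ ≠ 0 := norm_ne_zero_iff.mpr hy0
    simpa [h4] using h3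

section one

variable {n : ℕ} [NeZero n] {G : Subgroup (Eu n ≃ₗᵢ[ℝ] Eu n)} {h : Sph n → ℝ}

lemma al_pos (hB : Bd G h) (e0 : Sph n) : 0 < (gN h (e0 : Eu n))⁻¹ :=
  inv_pos.mpr (gN_pos hB.cont hB.pos (sph_ne_zero e0))

lemma al_le (hB : Bd G h) (e0 v : Sph n) :
    (gN h (e0 : Eu n))⁻¹ * |inner ℝ (e0 : Eu n) (v : Eu n)| ≤ h v := by
  have h1 := bd_mem_wulff hB.cont hB.pos e0
  have h2 := abs_inner_le_nH hB.cont hB.pos hB.even h1 (v : Eu n)
  rw [nH_sph, hB.supp, inner_smul_left, abs_mul] at h2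
  have h3 : |(starRingEnd ℝ) (gN h (e0 : Eu n))⁻¹| = (gN h (e0 : Eu n))⁻¹ :=
    abs_of_pos (al_pos hB e0)
  rw [h3] at h2
  exact h2

lemma al_nH (hB : Bd G h) (e0 : Sph n) (y : Eu n) :
    (gN h (e0 : Eu n))⁻¹ * inner ℝ (e0 : Eu n) y ≤ nH h y := by
  have h1 := bd_mem_wulff hB.cont hB.pos e0
  have h2 := inner_le_nH hB.cont hB.pos h1 y
  rw [inner_smul_left] at h2
  exact h2

lemma exists_one (hB : Bd G h) : ∃ z ∈ wulff h, ‖z‖ = 1 := by
  obtain ⟨v, hv⟩ := hB.one
  obtain ⟨x, hx, hxv, -⟩ := exists_supp hB.cont hB.pos v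
  refine ⟨x, hx, le_antisymm ?_ ?_⟩
  · have := wulff_subset hB.cont hB.pos one_pos hB.le hx
    rwa [mem_closedBall_zero_iff] at this
  · rw [hB.supp, hv] at hxv
    rw [hxv]
    exact (le_abs_self _).trans (abs_inner_le x v)

/-- the integrand -/
noncomputable def FJ (h : Sph n → ℝ) (e0 v : Sph n) : ℝ :=
  (gN h (e0 : Eu n))⁻¹ * |inner ℝ (e0 : Eu n) (v : Eu n)| / h v

lemma FJ_nonneg (hB : Bd G h) (e0 v : Sph n) : 0 ≤ FJ h e0 v :=
  div_nonneg (mul_nonneg (al_pos hB e0).le (abs_nonneg _)) (hB.pos v).le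

lemma FJ_le_one (hB : Bd G h) (e0 v : Sph n) : FJ h e0 v ≤ 1 :=
  div_le_one_of_le₀ (al_le hB e0 v) (hB.pos v).le

omit [NeZero n] in
lemma continuous_FJ (hB : Bd G h) (e0 : Sph n) : Continuous (FJ h e0) := by
  unfold FJ
  refine Continuous.div ?_ hB.cont fun v => (hB.pos v).ne'
  exact continuous_const.mul (continuous_const.inner continuous_subtype_val).abs

lemma integrable_FJ (hB : Bd G h) (e0 : Sph n) (ν : Measure (Sph n)) [IsFiniteMeasure ν] :
    Integrable (FJ h e0) ν := by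
  refine Integrable.mono' (integrable_const (1:ℝ)) (continuous_FJ hB e0).aestronglyMeasurable ?_
  refine Eventually.of_forall fun v => ?_
  rw [Real.norm_eq_abs, abs_of_nonneg (FJ_nonneg hB e0 v)]
  exact FJ_le_one hB e0 v

lemma integral_FJ_le (hB : Bd G h) (e0 : Sph n) (ν : Measure (Sph n)) [IsProbabilityMeasure ν]
    {A : Set (Sph n)} (hA : MeasurableSet A) {c : ℝ} (hc : 0 ≤ c)
    (hF : ∀ v, v ∉ A → FJ h e0 v ≤ c) : ∫ v, FJ h e0 v ∂ν ≤ ν.real A + c := by
  have h1 : ∫ v, FJ h e0 v ∂ν ≤ ∫ v, (A.indicator (fun _ => (1:ℝ)) v + c) ∂ν := by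
    refine integral_mono (integrable_FJ hB e0 ν) ?_ ?_
    · exact ((integrable_const (1:ℝ)).indicator hA).add (integrable_const c)
    · intro v
      by_cases hv : v ∈ A
      · simp only [indicator_of_mem hv]
        have := FJ_le_one hB e0 v
        linarith
      · simp only [indicator_of_notMem hv]
        have := hF v hv
        linarith
  refine h1.trans (le_of_eq ?_)
  rw [integral_add ((integrable_const (1:ℝ)).indicator hA) (integrable_const c),
    integral_indicator_const _ hA, integral_const]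
  simp

end one

end XGap

section Crit

variable {n : ℕ} [NeZero n] {G : Subgroup (Eu n ≃ₗᵢ[ℝ] Eu n)} {𝒰 : Ultrafilter ℕ}
  {h : ℕ → Sph n → ℝ} {b : ℕ → OrthonormalBasis (Fin n) ℝ (Eu n)} {a : ℕ → Fin n → ℝ}
  {e : OrthonormalBasis (Fin n) ℝ (Eu n)} {q : ℝ} {μ σ : Measure (Sph n)}
  [IsProbabilityMeasure μ] [IsProbabilityMeasure σ] {t : ℕ → ℝ}

open XGap in
lemma XGap.integral_CEq {t : ℝ} (ht : t ∈ Icc (0:ℝ) 1) {h : Sph n → ℝ} (hB : Bd G h)
    (hE : CEq q μ σ t h) (e0 : Sph n) :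
    ∫ v, FJ h e0 v ∂(MM q h) =
      II q h * (t * ∫ v, FJ h e0 v ∂μ + (1 - t) * ∫ v, FJ h e0 v ∂σ) := by
  have hI := II_pos hB.cont hB.pos q
  rw [hE, integral_smul_measure, ENNReal.toReal_ofReal hI.le, smul_eq_mul]
  congr 1
  have h1 : Integrable (FJ h e0) (ENNReal.ofReal t • μ) :=
    (integrable_FJ hB e0 μ).smul_measure ENNReal.ofReal_ne_top
  have h2 : Integrable (FJ h e0) (ENNReal.ofReal (1 - t) • σ) :=
    (integrable_FJ hB e0 σ).smul_measure ENNReal.ofReal_ne_top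
  rw [integral_add_measure h1 h2, integral_smul_measure, integral_smul_measure,
    ENNReal.toReal_ofReal ht.1, ENNReal.toReal_ofReal (by linarith [ht.2]), smul_eq_mul,
    smul_eq_mul]

open XGap in
theorem gap_align (hμ : MInv G μ) (hσ : ∀ L : Submodule ℝ (Eu n), L ≠ ⊤ → mass σ L = 0)
    (hq : (n : ℝ) < q) (S : Sq G 𝒰 h b a e) (ht : ∀ j, t j ∈ Icc (0:ℝ) 1)
    (hE : ∀ j, CEq q μ σ (t j) (h j)) {k : Fin n} (hk : Gap 𝒰 a k) :
    (∃ C : ℝ, ∀ᶠ j in (𝒰 : Filter ℕ), ∀ v : Sph n, (v : Eu n) ∈ tl e k → h j v ≤ C * a j k) ∧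
    ∀ C η : ℝ, 0 < η → ∀ᶠ j in (𝒰 : Filter ℕ),
      μ.real {v : Sph n | h j v ≤ C * a j k ∧ (v : Eu n) ∉ tl e k} < η := by
  have hr : ∀ j, 0 < a j k := fun j => (S.bx j).pos k
  have hlim := limS_eq_tl S hk
  obtain ⟨W, hWinv, hWle, hW1, hW2⟩ := align (𝒰 := 𝒰) μ hμ S.bd hr
  rw [hlim] at hWle
  have hWeq : W = tl e k := by
    by_contra hne
    exfalso
    obtain ⟨e0, he0L, he0W⟩ := exists_unit hWle hne
    have hq0 : 0 < q := lt_of_le_of_lt (Nat.cast_nonneg n) hq
    -- the sequence y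
    have he0' : (e0 : Eu n) ∈ limS 𝒰 h (fun j => a j k) := by rw [hlim]; exact he0L
    obtain ⟨y, hy, C1', hC1'⟩ := (mem_limS S.bd hr).mp he0'
    set C1 : ℝ := max C1' 1 with hC1def
    have hC1 : 0 < C1 := lt_max_of_lt_right one_pos
    have hyC : ∀ᶠ j in (𝒰 : Filter ℕ), nH (h j) (y j) ≤ C1 * a j k := by
      filter_upwards [hC1'] with j hj
      exact hj.trans (mul_le_mul_of_nonneg_right (le_max_left _ _) (hr j).le)
    have hyi : ∀ᶠ j in (𝒰 : Filter ℕ), (1/2 : ℝ) < inner ℝ (e0 : Eu n) (y j) := by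
      have h1 : Tendsto (fun j => inner ℝ (e0 : Eu n) (y j)) 𝒰 (𝓝 (inner ℝ (e0 : Eu n) (e0 : Eu n))) :=
        (tendsto_const_nhds (x := (e0 : Eu n))).inner hy
      rw [real_inner_self_eq_norm_sq, norm_sph, one_pow] at h1
      exact h1.eventually (lt_mem_nhds (by norm_num))
    set al : ℕ → ℝ := fun j => (gN (h j) (e0 : Eu n))⁻¹ with hal
    have halpos : ∀ j, 0 < al j := fun j => al_pos (S.bd j) e0
    have halr : ∀ᶠ j in (𝒰 : Filter ℕ), al j ≤ 2 * C1 * a j k := by
      filter_upwards [hyC, hyi] with j h1 h2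
      have h3 := al_nH (S.bd j) e0 (y j)
      have h4 : al j * (1/2) ≤ al j * inner ℝ (e0 : Eu n) (y j) :=
        mul_le_mul_of_nonneg_left h2.le (halpos j).le
      have h5 : al j * inner ℝ (e0 : Eu n) (y j) ≤ nH (h j) (y j) := h3
      linarith
    -- a j k tends to zero
    have ha0 : Tendsto (fun j => a j k) 𝒰 (𝓝 0) := by
      have h1 : Tendsto (fun j => (a j k / a j (pr k)) * √n) 𝒰 (𝓝 (0 * √n)) :=
        Tendsto.mul_const _ hk
      rw [zero_mul] at h1
      refine squeeze_zero (fun j => (hr j).le) (fun j => ?_) h1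
      have h2 := (S.bx j).pos (pr k)
      have h3 := (S.bx j).le_sqrt (S.bd j).le (pr k)
      calc a j k = (a j k / a j (pr k)) * a j (pr k) := by field_simp
        _ ≤ (a j k / a j (pr k)) * √n :=
            mul_le_mul_of_nonneg_left h3 (div_nonneg (hr j).le h2.le)
    obtain ⟨Cs, hCs, hseg⟩ := seg hq
    have hal1 : ∀ᶠ j in (𝒰 : Filter ℕ), Cs * al j < 1/2 := by
      have h1 : Tendsto (fun j => Cs * (2 * C1 * a j k)) 𝒰 (𝓝 (Cs * (2 * C1 * 0))) :=
        (ha0.const_mul _).const_mul _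
      rw [mul_zero, mul_zero] at h1
      filter_upwards [halr, h1.eventually (gt_mem_nhds (show (0:ℝ) < 1/2 by norm_num))] with j h2 h3
      exact (mul_le_mul_of_nonneg_left h2 hCs.le).trans_lt h3
    -- parameters
    set η : ℝ := 1 / (8 * q) with hη
    have hη0 : 0 < η := by positivity
    set R : ℝ := 16 * C1 * q with hR
    have hR0 : 0 < R := by positivity
    have hRη : 2 * C1 / R = η := by
      rw [hR, hη]; field_simp; norm_num
    have hμA := hW1 R η hη0
    -- sigma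
    have hLtop : tl e k ≠ ⊤ := by
      intro h1
      have h2 := finrank_tl e k
      rw [h1, finrank_top, finrank_euclideanSpace_fin] at h2
      have h3 := Gap.pos S hk
      have h4 := k.2
      omega
    have hσA : ∀ᶠ j in (𝒰 : Filter ℕ), σ.real {v : Sph n | h j v ≤ R * a j k} < η := by
      obtain ⟨δ, hδ, hδ2⟩ := mass_near σ (tl e k) hη0
      rw [hσ _ hLtop, zero_add] at hδ2
      filter_upwards [limS_near S.bd hr R hδ] with j hj
      rw [hlim] at hj
      exact (measureReal_mono (fun v hv => hj v hv)).trans_lt hδ2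
    -- pick an index
    obtain ⟨j, h1, h2, h3, h4⟩ := (halr.and (hal1.and (hμA.and hσA))).exists
    have hB := S.bd j
    have hI := II_pos hB.cont hB.pos q
    have h5 := hseg (h j) hB.cont hB.pos hB.even (wulff_subset hB.cont hB.pos one_pos hB.le)
      (exists_one hB) e0
    have h6 : ∫ v : Sph n, (gN (h j) (e0 : Eu n))⁻¹ * |inner ℝ (e0 : Eu n) (v : Eu n)| / h j v
        ∂(MM q (h j)) = ∫ v, FJ (h j) e0 v ∂(MM q (h j)) := rfl
    rw [h6, integral_CEq (ht j) hB (hE j) e0] at h5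
    have hFout : ∀ v : Sph n, ¬ h j v ≤ R * a j k → FJ (h j) e0 v ≤ 2 * C1 / R := by
      intro v hv
      rw [not_le] at hv
      have h7 : |inner ℝ (e0 : Eu n) (v : Eu n)| ≤ 1 := by
        have := abs_inner_le (e0 : Eu n) v
        rwa [norm_sph] at this
      unfold FJ
      rw [div_le_div_iff₀ (hB.pos v) hR0]
      calc al j * |inner ℝ (e0 : Eu n) (v : Eu n)| * R ≤ (2 * C1 * a j k * 1) * R := by
            apply mul_le_mul_of_nonneg_right _ hR0.le
            exact mul_le_mul h1 h7 (abs_nonneg _) (by have := hr j; positivity)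
        _ = 2 * C1 * (R * a j k) := by ring
        _ ≤ 2 * C1 * h j v := mul_le_mul_of_nonneg_left hv.le (by positivity)
    have hmeas1 : MeasurableSet {v : Sph n | h j v ≤ R * a j k} :=
      (isClosed_le hB.cont continuous_const).measurableSet
    have hmeas2 : MeasurableSet {v : Sph n | h j v ≤ R * a j k ∧ (v : Eu n) ∉ W} := by
      refine hmeas1.inter ?_
      exact ((W.closed_of_finiteDimensional).preimage continuous_subtype_val).measurableSet.compl
    have h8 : ∫ v, FJ (h j) e0 v ∂μ ≤ 2 * η := by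
      have h9 := integral_FJ_le hB e0 μ hmeas2 (c := 2 * C1 / R) (by positivity) (by
        intro v hv
        by_cases hvW : (v : Eu n) ∈ W
        · unfold FJ
          rw [he0W _ hvW, abs_zero, mul_zero, zero_div]
          positivity
        · apply hFout
          intro hle
          exact hv ⟨hle, hvW⟩)
      rw [hRη] at h9
      linarith
    have h10 : ∫ v, FJ (h j) e0 v ∂σ ≤ 2 * η := by
      have h9 := integral_FJ_le hB e0 σ hmeas1 (c := 2 * C1 / R) (by positivity)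
        (fun v hv => hFout v hv)
      rw [hRη] at h9
      linarith
    have h11 : t j * ∫ v, FJ (h j) e0 v ∂μ + (1 - t j) * ∫ v, FJ (h j) e0 v ∂σ ≤ 2 * η := by
      have h12 := mul_le_mul_of_nonneg_left h8 (ht j).1
      have h13 := mul_le_mul_of_nonneg_left h10 (show 0 ≤ 1 - t j by linarith [(ht j).2])
      linarith
    have h14 : II q (h j) / q * (1 - Cs * al j) ≤ II q (h j) * (2 * η) :=
      h5.trans (mul_le_mul_of_nonneg_left h11 hI.le)
    have h15 : II q (h j) / q * (1/2) < II q (h j) / q * (1 - Cs * al j) :=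
      mul_lt_mul_of_pos_left (by linarith) (by positivity)
    have h16 : II q (h j) * (2 * η) = II q (h j) / q * (1/4) := by
      rw [hη]; field_simp; norm_num
    rw [h16] at h14
    have h17 : 0 < II q (h j) / q := by positivity
    linarith
  rw [← hWeq]
  exact ⟨hW2, hW1⟩

end Crit

end Pool.Agent.Lib.MP_b0d2bf_gt
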