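import Mathlib
import Pool.Agent.Lib.MP_b0d2bf_gt.XDefs2

set_option autoImplicit false

/-!
The trace form of the concentration inequality.
-/

namespace Pool.Agent.Lib.MP_b0d2bf_gt

open MeasureTheory Metric Set Filter Topology

namespace XTrace

variable {n : ℕ}

/-- integrals against the unnormalised dual curvature measure -/
lemma integral_MM [NeZero n] {q : ℝ} {h : Sph n → ℝ} (hc : Continuous h) (h0 : ∀ v, 0 < h v)
    {F : Sph n → ℝ} (hF : Measurable F) :
    ∫ v, F v ∂(MM q h) = ∫ u : Sph n, (gN h (u : Eu n))⁻¹ ^ q * F (nu h u) ∂(sg n) := by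
  have hρ : ∀ u : Sph n, 0 ≤ (gN h (u : Eu n))⁻¹ ^ q := fun u =>
    (Real.rpow_pos_of_pos (inv_pos.2 (gN_pos hc h0 (sph_ne_zero u))) q).le
  unfold MM
  rw [integral_map (measurable_nu h).aemeasurable hF.aestronglyMeasurable,
    integral_withDensity_eq_integral_toReal_smul
      (continuous_radpow hc h0 q).measurable.ennreal_ofReal
      (Eventually.of_forall fun u => ENNReal.ofReal_lt_top)]
  refine integral_congr_ae (Eventually.of_forall fun u => ?_)
  show (ENNReal.ofReal ((gN h (u : Eu n))⁻¹ ^ q)).toReal • F (nu h u) = _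
  rw [ENNReal.toReal_ofReal (hρ u), smul_eq_mul]

/-- a vector of the tail is the sum of its tail coordinates -/
lemma inner_tl (e : OrthonormalBasis (Fin n) ℝ (Eu n)) (k : Fin n) {v : Eu n} (hv : v ∈ tl e k)
    (x : Eu n) :
    ∑ i with k ≤ i, inner ℝ x (e i) * inner ℝ (e i) v = inner ℝ x v := by
  rw [← e.sum_inner_mul_inner x v, Finset.sum_filter]
  refine Finset.sum_congr rfl fun i _ => ?_
  split_ifs with hi
  · rfl
  · rw [hv i (not_le.1 hi), mul_zero]

end XTrace

open Classical in
theorem trace_ineq {n : ℕ} [NeZero n] {q : ℝ} (hq : (n : ℝ) < q) {h : Sph n → ℝ}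
    (hc : Continuous h) (h0 : ∀ v, 0 < h v) (he : ∀ v, h (-v) = h v)
    (e : OrthonormalBasis (Fin n) ℝ (Eu n)) (k : Fin n) :
    ((n : ℝ) - k) * (II q h / q) ≤ (MM q h).real {v | (v : Eu n) ∈ tl e k} +
      ∫ v in {v : Sph n | (v : Eu n) ∉ tl e k},
        (∑ i with k ≤ i, nH h (e i) * |inner ℝ (e i) (v : Eu n)|) / h v ∂(MM q h) := by
  have hn : (0:ℝ) < n := by exact_mod_cast NeZero.pos n
  have hq0 : 0 < q := by linarith
  have := isFinite_MM hc h0 q
  set ω : Set (Sph n) := {v | (v : Eu n) ∈ tl e k} with hω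
  have hωm : MeasurableSet ω := by
    have h1 : IsClosed ((tl e k : Submodule ℝ (Eu n)) : Set (Eu n)) :=
      Submodule.closed_of_finiteDimensional _
    exact (h1.preimage continuous_subtype_val).measurableSet
  set B : Sph n → ℝ := fun v => (∑ i with k ≤ i, nH h (e i) * |inner ℝ (e i) (v : Eu n)|) / h v
    with hB
  have hBc : Continuous B := by
    refine Continuous.div (continuous_finsetSum _ fun i _ => ?_) hc fun v => (h0 v).ne'
    exact continuous_const.mul (continuous_const.inner continuous_subtype_val).abs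
  obtain ⟨CB, hCB⟩ : ∃ C, ∀ v, |B v| ≤ C := by
    obtain ⟨C, hC⟩ := (isCompact_range hBc.abs).bddAbove
    exact ⟨C, fun v => hC ⟨v, rfl⟩⟩
  have hωc : {v : Sph n | (v : Eu n) ∉ tl e k} = ωᶜ := rfl
  set F : Sph n → ℝ := fun v => ω.indicator (fun _ => (1:ℝ)) v + ωᶜ.indicator B v with hF
  have hFm : Measurable F :=
    (measurable_const.indicator hωm).add (hBc.measurable.indicator hωm.compl)
  have hBi : Integrable B (MM q h) :=
    Integrable.of_bound hBc.measurable.aestronglyMeasurable CB (Eventually.of_forall hCB)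
  have hright : (MM q h).real ω + ∫ v in ωᶜ, B v ∂(MM q h) =
      ∫ u : Sph n, (gN h (u : Eu n))⁻¹ ^ q * F (nu h u) ∂(sg n) := by
    rw [← XTrace.integral_MM hc h0 hFm]
    show _ = ∫ v, (ω.indicator (fun _ => (1:ℝ)) v + ωᶜ.indicator B v) ∂(MM q h)
    rw [integral_add ((integrable_const (1:ℝ)).indicator hωm) (hBi.indicator hωm.compl),
      integral_indicator hωm, integral_indicator hωm.compl]
    congr 1
    rw [setIntegral_const, smul_eq_mul, mul_one]
  rw [hωc, hright]
  -- the unit vectors as points of the sphere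
  let z : Fin n → Sph n := fun i => ⟨e i, by rw [mem_sphere_zero_iff_norm, e.norm_eq_one]⟩
  obtain ⟨G, hG0, hG⟩ := gg_bound hc h0
  have hggi : ∀ i, Integrable (fun u : Sph n => (gN h u)⁻¹ ^ q * gg h (z i) u) (sg n) := by
    intro i
    refine (integrable_radpow hc h0 q).mul_bdd (c := G)
      (measurable_gg hc h0 (z i)).aestronglyMeasurable ?_
    exact Eventually.of_forall fun u => hG (z i) u
  obtain ⟨S, hS0, hS⟩ : ∃ S : ℝ, 0 < S ∧ wulff h ⊆ closedBall 0 S := by
    obtain ⟨C, hC0, hC⟩ := exists_upp hc h0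
    exact ⟨C, hC0, wulff_subset hc h0 hC0 hC⟩
  have hsum : ∑ i with k ≤ i, (II q h / q) ≤
      ∑ i with k ≤ i, ∫ u : Sph n, (gN h u)⁻¹ ^ q * gg h (z i) u ∂(sg n) := by
    refine Finset.sum_le_sum fun i _ => ?_
    have h1 := conc hq hc h0 (z i) hS0 hS
    rw [II_eq hq hc h0, mul_div_cancel_left₀ _ hq0.ne']
    have h2 : 0 ≤ (q - n) / (2 * S ^ 2) *
        (∫ x in wulff h, ‖x‖ ^ (q - n) * inner ℝ x ((z i : Sph n) : Eu n) ^ 2) := by
      refine mul_nonneg (div_nonneg (by linarith) (by positivity)) (integral_nonneg fun x =>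
        mul_nonneg (Real.rpow_nonneg (norm_nonneg _) _) (sq_nonneg _))
    linarith
  rw [Finset.sum_const, nsmul_eq_mul] at hsum
  have hcard : (((Finset.univ.filter (fun i : Fin n => k ≤ i)).card : ℕ) : ℝ) = (n : ℝ) - k := by
    have h1 : (Finset.univ.filter (fun i : Fin n => k ≤ i)).card = n - k := by
      have h2 : Finset.univ.filter (fun i : Fin n => k ≤ i) = Finset.Ici k := by
        ext i
        simp
      rw [h2, Fin.card_Ici]
    rw [h1, Nat.cast_sub k.2.le]
  rw [hcard] at hsum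
  refine hsum.trans ?_
  rw [← integral_finsetSum _ fun i _ => hggi i]
  refine integral_mono_ae (integrable_finsetSum _ fun i _ => hggi i) ?_ ?_
  · have hFb : ∀ v, ‖F v‖ ≤ 1 + CB := by
      intro v
      have hCB0 : 0 ≤ CB := (abs_nonneg _).trans (hCB v)
      show |ω.indicator (fun _ => (1:ℝ)) v + ωᶜ.indicator B v| ≤ 1 + CB
      refine (abs_add_le _ _).trans (add_le_add ?_ ?_)
      · by_cases hv : v ∈ ω
        · rw [indicator_of_mem hv, abs_one]
        · rw [indicator_of_notMem hv, abs_zero]; exact zero_le_one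
      · by_cases hv : v ∈ ωᶜ
        · rw [indicator_of_mem hv]; exact hCB v
        · rw [indicator_of_notMem hv, abs_zero]; exact hCB0
    exact (integrable_radpow hc h0 q).mul_bdd (c := 1 + CB)
      (hFm.comp (measurable_nu h)).aestronglyMeasurable
      (Eventually.of_forall fun u => hFb (nu h u))
  · filter_upwards [ae_diff hc h0] with u hu
    have hN := gN_pos hc h0 (sph_ne_zero u)
    have hρ : 0 ≤ (gN h (u : Eu n))⁻¹ ^ q := (Real.rpow_pos_of_pos (inv_pos.2 hN) q).le
    show ∑ i with k ≤ i, (gN h (u : Eu n))⁻¹ ^ q * gg h (z i) u ≤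
      (gN h (u : Eu n))⁻¹ ^ q * F (nu h u)
    rw [← Finset.mul_sum]
    refine mul_le_mul_of_nonneg_left ?_ hρ
    set v := nu h u with hv
    set x : Eu n := (gN h (u : Eu n))⁻¹ • (u : Eu n) with hx
    have hxK : x ∈ wulff h := bd_mem_wulff hc h0 u
    have hmx : inner ℝ (u : Eu n) (v : Eu n) / h v = gN h u := isMx_nu hc h0 hu
    have hhv := h0 v
    have hxv : inner ℝ x (v : Eu n) = h v := by
      rw [hx, inner_smul_left, conj_trivial]
      rw [div_eq_iff hhv.ne'] at hmx
      rw [hmx, ← mul_assoc, inv_mul_cancel₀ hN.ne', one_mul]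
    have hgg : ∀ i, gg h (z i) u = inner ℝ x (e i) * inner ℝ (e i) (v : Eu n) / h v := by
      intro i
      unfold gg
      rw [hx, inner_smul_left, conj_trivial]
      show _ * inner ℝ (u : Eu n) (e i) * (inner ℝ (e i) (nu h u : Eu n) / h (nu h u)) = _
      rw [← hv]
      ring
    simp only [hgg]
    rw [← Finset.sum_div]
    by_cases hvω : v ∈ ω
    · rw [XTrace.inner_tl e k hvω x, hxv, div_self hhv.ne']
      show 1 ≤ ω.indicator (fun _ => (1:ℝ)) v + ωᶜ.indicator B v
      rw [indicator_of_mem hvω, indicator_of_notMem (notMem_compl_iff.2 hvω), add_zero]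
    · show _ ≤ ω.indicator (fun _ => (1:ℝ)) v + ωᶜ.indicator B v
      rw [indicator_of_notMem hvω, indicator_of_mem (show v ∈ ωᶜ from hvω), zero_add]
      refine div_le_div_of_nonneg_right (Finset.sum_le_sum fun i _ => ?_) hhv.le
      refine (le_abs_self _).trans ?_
      rw [abs_mul]
      exact mul_le_mul_of_nonneg_right (abs_inner_le_nH hc h0 he hxK (e i)) (abs_nonneg _)

end Pool.Agent.Lib.MP_b0d2bf_gt
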