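import Mathlib
import Pool.Agent.Lib.MP_b0d2bf_gt.XDefs2
import Pool.Agent.Lib.MP_b0d2bf_gt.XNH

set_option autoImplicit false

/-!
Volume comparison: a frame whose dual norms are comparable to the sides of the box
bounds the body from below.
-/

namespace Pool.Agent.Lib.MP_b0d2bf_gt

open MeasureTheory Metric Set Filter Topology

namespace XVol

variable {n : ℕ}

/-- the shear which replaces the coordinate in the direction `z` by the one in the direction `v` -/
noncomputable def shr (z v : Eu n) : Eu n →ₗ[ℝ] Eu n :=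
  LinearMap.transvection ((innerSL ℝ (v - z)).toLinearMap) z

lemma shr_apply (z v x : Eu n) : shr z v x = x + (inner ℝ (v - z) x) • z := rfl

lemma det_shr (z v : Eu n) (hz : ‖z‖ = 1) : LinearMap.det (shr z v) = inner ℝ z v := by
  unfold shr
  rw [LinearMap.transvection.det, ContinuousLinearMap.coe_coe, innerSL_apply_apply,
    inner_sub_left, real_inner_self_eq_norm_sq, hz, real_inner_comm]
  ring

lemma vol_upper [NeZero n] {h : Sph n → ℝ} (hc : Continuous h) (h0 : ∀ v, 0 < h v)
    (he : ∀ v, h (-v) = h v) (e : OrthonormalBasis (Fin n) ℝ (Eu n)) (A : Fin n → ℝ)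
    (hA : ∀ i, nH h (e i) ≤ A i) (i : Fin n) (v : Sph n) (hv : inner ℝ (e i) (v : Eu n) ≠ (0:ℝ)) :
    volume (wulff h) ≤ ENNReal.ofReal |(inner ℝ (e i) (v : Eu n) : ℝ)⁻¹| *
      ∏ k, ENNReal.ofReal (2 * (Function.update A i (h v)) k) := by
  have hdet : LinearMap.det (shr (e i) (v : Eu n)) = inner ℝ (e i) (v : Eu n) :=
    det_shr _ _ (e.norm_eq_one i)
  rw [← volume_box e, ← hdet, ← Measure.addHaar_preimage_linearMap volume (by rw [hdet]; exact hv)]
  refine measure_mono fun x hx => ?_
  simp only [mem_preimage, mem_ofPred_eq]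
  intro k
  rw [shr_apply, inner_add_right, inner_smul_right]
  by_cases hk : k = i
  · subst hk
    rw [Function.update_self, real_inner_self_eq_norm_sq, e.norm_eq_one, one_pow, mul_one,
      inner_sub_left]
    have h1 : inner ℝ (e k) x + (inner ℝ (v : Eu n) x - inner ℝ (e k) x) =
        (inner ℝ x (v : Eu n) : ℝ) := by
      rw [real_inner_comm x (v : Eu n)]; ring
    rw [h1, abs_le]
    constructor
    · have h2 := neg_mem_wulff he hx v
      rw [inner_neg_left] at h2
      linarith
    · exact hx v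
  · rw [Function.update_of_ne hk, e.inner_eq_zero hk, mul_zero, add_zero, real_inner_comm]
    exact (abs_inner_le_nH hc h0 he hx _).trans (hA k)

lemma vol_lower [NeZero n] {h : Sph n → ℝ} {b : OrthonormalBasis (Fin n) ℝ (Eu n)}
    {a : Fin n → ℝ} (hB : Bx h b a) :
    ∏ k, ENNReal.ofReal (2 * (a k / (n * √n))) ≤ volume (wulff h) := by
  have hn : (0:ℝ) < n := by exact_mod_cast NeZero.pos n
  have hs : 0 < √(n:ℝ) := Real.sqrt_pos.2 hn
  rw [← volume_box b]
  refine measure_mono fun x hx v => ?_
  simp only [mem_ofPred_eq] at hx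
  have h1 : inner ℝ x (v : Eu n) = ∑ k, inner ℝ x (b k) * inner ℝ (b k) (v : Eu n) :=
    (b.sum_inner_mul_inner x (v : Eu n)).symm
  rw [h1]
  calc ∑ k, inner ℝ x (b k) * inner ℝ (b k) (v : Eu n)
      ≤ ∑ _k : Fin n, h v / n := by
        refine Finset.sum_le_sum fun k _ => ?_
        refine (le_abs_self _).trans ?_
        rw [abs_mul, real_inner_comm (b k) x]
        calc |inner ℝ (b k) x| * |inner ℝ (b k) (v : Eu n)|
            ≤ (a k / (n * √n)) * |inner ℝ (b k) (v : Eu n)| :=
              mul_le_mul_of_nonneg_right (hx k) (abs_nonneg _)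
          _ = (a k * |inner ℝ (b k) (v : Eu n)|) / (n * √n) := by ring
          _ ≤ (√n * h v) / (n * √n) := by
              exact div_le_div_of_nonneg_right (hB.lo v k) (by positivity)
          _ = h v / n := by field_simp
    _ = h v := by
        rw [Finset.sum_const, Finset.card_univ, Fintype.card_fin, nsmul_eq_mul]
        field_simp

end XVol

open XVol

theorem vol_bound {n : ℕ} [NeZero n] {C : ℝ} (hC : 0 < C) :
    ∃ C' : ℝ, 0 < C' ∧ ∀ h : Sph n → ℝ, Continuous h → (∀ v, 0 < h v) → (∀ v, h (-v) = h v) →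
      ∀ (b : OrthonormalBasis (Fin n) ℝ (Eu n)) (a : Fin n → ℝ), Bx h b a →
      ∀ e : OrthonormalBasis (Fin n) ℝ (Eu n), (∀ i, nH h (e i) ≤ C * a i) →
      ∀ i (v : Sph n), a i * |inner ℝ (e i) (v : Eu n)| ≤ C' * h v := by
  have hn : (0:ℝ) < n := by exact_mod_cast NeZero.pos n
  have hs : 0 < √(n:ℝ) := Real.sqrt_pos.2 hn
  set c : ℝ := 2 / (n * √n) with hcdef
  have hc0 : 0 < c := by positivity
  refine ⟨2 ^ n * C ^ (n - 1) / c ^ n, by positivity, ?_⟩
  intro h hc h0 he b a hB e hE i v
  by_cases hv : inner ℝ (e i) (v : Eu n) = (0:ℝ)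
  · rw [hv, abs_zero, mul_zero]
    have := h0 v
    positivity
  have hv' : 0 < |(inner ℝ (e i) (v : Eu n) : ℝ)| := abs_pos.2 hv
  have h1 := (vol_lower hB).trans (vol_upper hc h0 he e (fun k => C * a k) hE i v hv)
  have ha : ∀ k, 0 < a k := hB.pos
  have hA0 : ∀ k, 0 ≤ 2 * (Function.update (fun k => C * a k) i (h v)) k := by
    intro k
    by_cases hk : k = i
    · subst hk
      rw [Function.update_self]
      have := h0 v
      positivity
    · rw [Function.update_of_ne hk]
      have := ha k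
      positivity
  rw [← ENNReal.ofReal_prod_of_nonneg (fun k _ => by have := ha k; positivity),
    ← ENNReal.ofReal_prod_of_nonneg (fun k _ => hA0 k), ← ENNReal.ofReal_mul (abs_nonneg _),
    ENNReal.ofReal_le_ofReal_iff (mul_nonneg (abs_nonneg _) (Finset.prod_nonneg fun k _ => hA0 k))]
    at h1
  have h2 : ∏ k, (2 * (a k / (n * √n))) = c ^ n * ∏ k, a k := by
    have : ∀ k, 2 * (a k / (n * √n)) = c * a k := fun k => by rw [hcdef]; ring
    simp only [this]
    rw [Finset.prod_mul_distrib, Finset.prod_const, Finset.card_univ, Fintype.card_fin]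
  have h3 : ∏ k, (2 * (Function.update (fun k => C * a k) i (h v)) k) =
      2 ^ n * (h v * (C ^ (n - 1) * ∏ k ∈ Finset.univ.erase i, a k)) := by
    rw [Finset.prod_mul_distrib, Finset.prod_const, Finset.card_univ, Fintype.card_fin]
    congr 1
    rw [← Finset.mul_prod_erase Finset.univ _ (Finset.mem_univ i), Function.update_self]
    congr 1
    have h4 : ∀ k ∈ Finset.univ.erase i, Function.update (fun k => C * a k) i (h v) k = C * a k :=
      fun k hk => Function.update_of_ne (Finset.ne_of_mem_erase hk) _ _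
    rw [Finset.prod_congr rfl h4, Finset.prod_mul_distrib, Finset.prod_const,
      Finset.card_erase_of_mem (Finset.mem_univ i), Finset.card_univ, Fintype.card_fin]
  rw [h2, h3, ← Finset.mul_prod_erase Finset.univ a (Finset.mem_univ i), abs_inv] at h1
  set P := ∏ k ∈ Finset.univ.erase i, a k with hP
  have hP0 : 0 < P := Finset.prod_pos fun k _ => ha k
  set y := |(inner ℝ (e i) (v : Eu n) : ℝ)| with hy
  have h5 : c ^ n * (a i * y) * P ≤ 2 ^ n * C ^ (n - 1) * h v * P := by
    have h6 := mul_le_mul_of_nonneg_left h1 hv'.le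
    calc c ^ n * (a i * y) * P = y * (c ^ n * (a i * P)) := by ring
      _ ≤ y * (y⁻¹ * (2 ^ n * (h v * (C ^ (n - 1) * P)))) := h6
      _ = (y * y⁻¹) * (2 ^ n * C ^ (n - 1) * h v * P) := by ring
      _ = 2 ^ n * C ^ (n - 1) * h v * P := by rw [mul_inv_cancel₀ hv'.ne', one_mul]
  have h7 := le_of_mul_le_mul_right h5 hP0
  rw [div_mul_eq_mul_div, le_div_iff₀ (by positivity)]
  linarith

end Pool.Agent.Lib.MP_b0d2bf_gt
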