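import Mathlib
import Pool.Agent.Lib.MP_b0d2bf_gt.XDefs2
import Pool.Agent.Lib.MP_b0d2bf_gt.XLim
import Pool.Agent.Lib.MP_b0d2bf_gt.XTl
import Pool.Agent.Lib.MP_b0d2bf_gt.XTrace
import Pool.Agent.Lib.MP_b0d2bf_gt.XVol
import Pool.Agent.Lib.MP_b0d2bf_gt.XGap

set_option autoImplicit false

/-!
Flag bound and mass inequality at the gaps.
-/

namespace Pool.Agent.Lib.MP_b0d2bf_gt

open MeasureTheory Metric Set Filter Topology

namespace XFlag

variable {n : ℕ}

lemma tl_anti (e : OrthonormalBasis (Fin n) ℝ (Eu n)) {i k : Fin n} (h : i ≤ k) :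
    tl e k ≤ tl e i := by
  intro x hx l hl
  exact hx l (hl.trans_le h)

lemma pr_le (k : Fin n) : pr k ≤ k := by
  show k.1 - 1 ≤ k.1
  omega

lemma self_mem_tl (e : OrthonormalBasis (Fin n) ℝ (Eu n)) (i : Fin n) : e i ∈ tl e i := by
  intro l hl
  exact e.orthonormal.2 hl.ne

lemma MMr_eq [NeZero n] {q t : ℝ} {μ σ : Measure (Sph n)} [IsProbabilityMeasure μ]
    [IsProbabilityMeasure σ] {h : Sph n → ℝ} (hc : Continuous h) (h0 : ∀ v, 0 < h v)
    (ht : t ∈ Icc (0:ℝ) 1) (hE : CEq q μ σ t h) (S : Set (Sph n)) :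
    (MM q h).real S = II q h * (t * μ.real S + (1 - t) * σ.real S) := by
  unfold CEq at hE
  have hI := II_pos hc h0 q
  have h1 : (0:ℝ) ≤ 1 - t := by linarith [ht.2]
  rw [hE]
  unfold Measure.real
  rw [Measure.smul_apply, Measure.add_apply, Measure.smul_apply, Measure.smul_apply,
    smul_eq_mul, smul_eq_mul, smul_eq_mul, ENNReal.toReal_mul, ENNReal.toReal_add,
    ENNReal.toReal_mul, ENNReal.toReal_mul, ENNReal.toReal_ofReal hI.le,
    ENNReal.toReal_ofReal ht.1, ENNReal.toReal_ofReal h1]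
  · exact ENNReal.mul_ne_top ENNReal.ofReal_ne_top (measure_ne_top _ _)
  · exact ENNReal.mul_ne_top ENNReal.ofReal_ne_top (measure_ne_top _ _)

lemma int_bound {m : Measure (Sph n)} [IsFiniteMeasure m] {B : Sph n → ℝ} (hB : Continuous B)
    {T E : Set (Sph n)} (hE : MeasurableSet E) {α β : ℝ} (hα : 0 ≤ α)
    (h1 : ∀ v, B v ≤ β) (h2 : ∀ v, v ∉ E → B v ≤ α) :
    ∫ v in T, B v ∂m ≤ α * m.real univ + β * m.real (E ∩ T) := by
  have hBi : Integrable B (m.restrict T) :=
    hB.integrable_of_hasCompactSupport (HasCompactSupport.of_compactSpace _)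
  have hi2 : Integrable (E.indicator fun _ : Sph n => β) (m.restrict T) :=
    (integrable_const β).indicator hE
  have h3 : ∫ v in T, B v ∂m ≤ ∫ v in T, (α + E.indicator (fun _ : Sph n => β) v) ∂m := by
    refine integral_mono hBi ((integrable_const α).add hi2) fun v => ?_
    show B v ≤ α + E.indicator (fun _ : Sph n => β) v
    by_cases hv : v ∈ E
    · rw [indicator_of_mem hv]
      linarith [h1 v]
    · rw [indicator_of_notMem hv]
      linarith [h2 v hv]
  rw [integral_add (integrable_const α) hi2, integral_const, integral_indicator hE,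
    integral_const] at h3
  refine h3.trans ?_
  have h4 : (m.restrict T).real univ = m.real T := by
    simp [Measure.real]
  have h5 : ((m.restrict T).restrict E).real univ = m.real (E ∩ T) := by
    unfold Measure.real
    rw [Measure.restrict_apply_univ, Measure.restrict_apply hE]
  rw [h4, h5, smul_eq_mul, smul_eq_mul, mul_comm _ α, mul_comm _ β]
  have h6 : m.real T ≤ m.real univ := measureReal_mono (subset_univ _)
  have := mul_le_mul_of_nonneg_left h6 hα
  linarith

end XFlag

open XFlag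

section Crit

variable {n : ℕ} [NeZero n] {G : Subgroup (Eu n ≃ₗᵢ[ℝ] Eu n)} {𝒰 : Ultrafilter ℕ}
  {h : ℕ → Sph n → ℝ} {b : ℕ → OrthonormalBasis (Fin n) ℝ (Eu n)} {a : ℕ → Fin n → ℝ}
  {e : OrthonormalBasis (Fin n) ℝ (Eu n)} {q : ℝ} {μ σ : Measure (Sph n)}
  [IsProbabilityMeasure μ] [IsProbabilityMeasure σ] {t : ℕ → ℝ}

theorem flag_bound (hμ : MInv G μ) (hσ : ∀ L : Submodule ℝ (Eu n), L ≠ ⊤ → mass σ L = 0)
    (hq : (n : ℝ) < q) (S : Sq G 𝒰 h b a e) (ht : ∀ j, t j ∈ Icc (0:ℝ) 1)
    (hE : ∀ j, CEq q μ σ (t j) (h j)) :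
    ∃ C : ℝ, 0 < C ∧ ∀ᶠ j in (𝒰 : Filter ℕ), ∀ i : Fin n, ∀ v : Sph n, (v : Eu n) ∈ tl e i →
      h j v ≤ C * a j i := by
  have hn : (0:ℝ) < n := by exact_mod_cast NeZero.pos n
  have key : ∀ (m : ℕ) (i : Fin n), i.1 = m → ∃ C : ℝ, 0 < C ∧ ∀ᶠ j in (𝒰 : Filter ℕ),
      ∀ v : Sph n, (v : Eu n) ∈ tl e i → h j v ≤ C * a j i := by
    intro m
    induction m using Nat.strong_induction_on with
    | _ m ih =>
      intro i hi
      by_cases hg : Gap 𝒰 a i
      · obtain ⟨⟨C, hC⟩, -⟩ := gap_align hμ hσ hq S ht hE hg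
        refine ⟨max C 1, lt_max_of_lt_right one_pos, ?_⟩
        filter_upwards [hC] with j hj v hv
        refine (hj v hv).trans ?_
        exact mul_le_mul_of_nonneg_right (le_max_left _ _) ((S.bx j).pos i).le
      · rcases Nat.eq_zero_or_pos m with hm | hm
        · refine ⟨n, hn, Eventually.of_forall fun j v _ => ?_⟩
          refine ((S.bd j).le v).trans ?_
          refine (S.bx j).one_le (S.bd j).cont (S.bd j).pos (S.bd j).supp (S.bd j).one i ?_
          intro l
          apply (S.bx j).anti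
          rw [Fin.le_def]
          omega
        · obtain ⟨c, hc0, hc⟩ := not_gap S hg
          have hpr : (pr i).1 = m - 1 := by
            show i.1 - 1 = m - 1
            rw [hi]
          obtain ⟨C, hC0, hC⟩ := ih (m - 1) (by omega) (pr i) hpr
          refine ⟨C / c, div_pos hC0 hc0, ?_⟩
          filter_upwards [hc, hC] with j hj1 hj2 v hv
          refine (hj2 v (tl_anti e (pr_le i) hv)).trans ?_
          have h1 := mul_le_mul_of_nonneg_left hj1 (div_pos hC0 hc0).le
          refine le_trans (le_of_eq ?_) h1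
          field_simp
  choose C hC0 hC using fun i : Fin n => key i.1 i rfl
  refine ⟨∑ i, C i, ?_, ?_⟩
  · exact Finset.sum_pos (fun i _ => hC0 i) ⟨⟨0, NeZero.pos n⟩, Finset.mem_univ _⟩
  · have h1 := (Filter.eventually_all (l := (𝒰 : Filter ℕ))).2 hC
    filter_upwards [h1] with j hj i v hv
    refine (hj i v hv).trans ?_
    refine mul_le_mul_of_nonneg_right ?_ ((S.bx j).pos i).le
    exact Finset.single_le_sum (f := C) (fun l _ => (hC0 l).le) (Finset.mem_univ i)

theorem gap_mass (hμ : MInv G μ) (hσ : ∀ L : Submodule ℝ (Eu n), L ≠ ⊤ → mass σ L = 0)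
    (hq : (n : ℝ) < q) (S : Sq G 𝒰 h b a e) (ht : ∀ j, t j ∈ Icc (0:ℝ) 1)
    (hE : ∀ j, CEq q μ σ (t j) (h j)) {k : Fin n} (hk : Gap 𝒰 a k) {η : ℝ} (hη : 0 < η) :
    ∀ᶠ j in (𝒰 : Filter ℕ), ((n : ℝ) - k) / q - η ≤ t j * mass μ (tl e k) := by
  have hn : (0:ℝ) < n := by exact_mod_cast NeZero.pos n
  have hq0 : 0 < q := hn.trans hq
  obtain ⟨C, hC0, hC⟩ := flag_bound hμ hσ hq S ht hE
  obtain ⟨C', hC'0, hC'⟩ := vol_bound (n := n) hC0
  have hkpos := Gap.pos S hk
  have htop : tl e k ≠ ⊤ := by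
    intro h1
    have h2 := finrank_tl e k
    rw [h1, finrank_top, finrank_euclideanSpace_fin] at h2
    have := k.2
    omega
  set R : ℝ := 3 * (n * C) / η with hR
  have hR0 : 0 < R := by positivity
  set θ : ℝ := η / (3 * (n * (C * C'))) with hθ
  have hθ0 : 0 < θ := by positivity
  obtain ⟨-, hal⟩ := gap_align hμ hσ hq S ht hE hk
  have hal' := hal R θ hθ0
  obtain ⟨δ, hδ0, hδ⟩ := mass_near σ (tl e k) hθ0
  rw [hσ _ htop, zero_add] at hδ
  have hpos : ∀ j, 0 < a j k := fun j => (S.bx j).pos k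
  have hnear := limS_near (𝒰 := 𝒰) (r := fun j => a j k) S.bd hpos R hδ0
  rw [limS_eq_tl S hk] at hnear
  filter_upwards [hC, hal', hnear] with j hCj halj hnj
  have hc := (S.bd j).cont
  have h0 := (S.bd j).pos
  have he := (S.bd j).even
  have hak := hpos j
  have hI := II_pos hc h0 q
  have htj := ht j
  have hnH : ∀ i, nH (h j) (e i) ≤ C * a j i := by
    intro i
    have h1 : ‖e i‖ = 1 := e.norm_eq_one i
    have h2 := hCj i ⟨e i, by rw [mem_sphere_zero_iff_norm]; exact h1⟩ (self_mem_tl e i)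
    rw [← (S.bd j).supp, ← nH_sph] at h2
    exact h2
  have hvol := hC' (h j) hc h0 he (b j) (a j) (S.bx j) e hnH
  have htr := trace_ineq hq hc h0 he e k
  set B : Sph n → ℝ := fun v =>
    (∑ i with k ≤ i, nH (h j) (e i) * |inner ℝ (e i) (v : Eu n)|) / h j v with hB
  have hBc : Continuous B := by
    refine Continuous.div ?_ hc fun v => (h0 v).ne'
    refine continuous_finsetSum _ fun i _ => ?_
    exact continuous_const.mul (continuous_const.inner continuous_subtype_val).abs
  have hfin := isFinite_MM hc h0 q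
  have hB1 : ∀ v, B v ≤ n * (C * C') := by
    intro v
    show (∑ i with k ≤ i, nH (h j) (e i) * |inner ℝ (e i) (v : Eu n)|) / h j v ≤ _
    rw [div_le_iff₀ (h0 v)]
    calc ∑ i with k ≤ i, nH (h j) (e i) * |inner ℝ (e i) (v : Eu n)|
        ≤ ∑ i with k ≤ i, C * C' * h j v := by
          refine Finset.sum_le_sum fun i _ => ?_
          calc nH (h j) (e i) * |inner ℝ (e i) (v : Eu n)|
              ≤ C * a j i * |inner ℝ (e i) (v : Eu n)| :=
                mul_le_mul_of_nonneg_right (hnH i) (abs_nonneg _)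
            _ = C * (a j i * |inner ℝ (e i) (v : Eu n)|) := by ring
            _ ≤ C * (C' * h j v) := mul_le_mul_of_nonneg_left (hvol i v) hC0.le
            _ = _ := by ring
      _ ≤ ∑ i : Fin n, C * C' * h j v := by
          refine Finset.sum_le_sum_of_subset_of_nonneg (Finset.subset_univ _) fun i _ _ => ?_
          have := h0 v
          positivity
      _ = n * (C * C') * h j v := by
          rw [Finset.sum_const, Finset.card_univ, Fintype.card_fin, nsmul_eq_mul]
          ring
  have hB2 : ∀ v, v ∉ {v : Sph n | h j v ≤ R * a j k} → B v ≤ η / 3 := by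
    intro v hv
    have hv2 : R * a j k < h j v := not_le.1 hv
    show (∑ i with k ≤ i, nH (h j) (e i) * |inner ℝ (e i) (v : Eu n)|) / h j v ≤ _
    rw [div_le_iff₀ (h0 v)]
    calc ∑ i with k ≤ i, nH (h j) (e i) * |inner ℝ (e i) (v : Eu n)|
        ≤ ∑ i with k ≤ i, C * a j k := by
          refine Finset.sum_le_sum fun i hi => ?_
          rw [Finset.mem_filter] at hi
          calc nH (h j) (e i) * |inner ℝ (e i) (v : Eu n)|
              ≤ C * a j i * |inner ℝ (e i) (v : Eu n)| :=
                mul_le_mul_of_nonneg_right (hnH i) (abs_nonneg _)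
            _ ≤ C * a j i * 1 := by
                refine mul_le_mul_of_nonneg_left ?_ (mul_pos hC0 ((S.bx j).pos i)).le
                have h1 := abs_real_inner_le_norm (e i) (v : Eu n)
                rwa [e.norm_eq_one, norm_sph, one_mul] at h1
            _ = C * a j i := mul_one _
            _ ≤ C * a j k := mul_le_mul_of_nonneg_left ((S.bx j).anti hi.2) hC0.le
      _ ≤ ∑ i : Fin n, C * a j k := by
          refine Finset.sum_le_sum_of_subset_of_nonneg (Finset.subset_univ _) fun i _ _ => ?_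
          positivity
      _ = n * C * a j k := by
          rw [Finset.sum_const, Finset.card_univ, Fintype.card_fin, nsmul_eq_mul]
          ring
      _ = η / 3 * (R * a j k) := by
          rw [hR]; field_simp
      _ ≤ η / 3 * h j v := mul_le_mul_of_nonneg_left hv2.le (by positivity)
  have hmE : MeasurableSet {v : Sph n | h j v ≤ R * a j k} :=
    (isClosed_le hc continuous_const).measurableSet
  have hint := int_bound (m := MM q (h j)) (T := {v : Sph n | (v : Eu n) ∉ tl e k}) hBc hmE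
    (α := η / 3) (β := n * (C * C')) (by positivity) hB1 hB2
  rw [MMr_eq hc h0 htj (hE j), MMr_eq hc h0 htj (hE j)] at hint
  rw [MMr_eq hc h0 htj (hE j)] at htr
  have hσ0 : σ.real {v : Sph n | (v : Eu n) ∈ tl e k} = 0 := hσ _ htop
  have hμm : μ.real {v : Sph n | (v : Eu n) ∈ tl e k} = mass μ (tl e k) := rfl
  rw [hσ0, hμm, mul_zero, add_zero] at htr
  rw [probReal_univ, probReal_univ] at hint
  have hs1 : μ.real ({v : Sph n | h j v ≤ R * a j k} ∩ {v : Sph n | (v : Eu n) ∉ tl e k}) ≤ θ :=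
    halj.le
  have hs2 : σ.real ({v : Sph n | h j v ≤ R * a j k} ∩ {v : Sph n | (v : Eu n) ∉ tl e k}) ≤ θ := by
    refine le_trans (measureReal_mono ?_) hδ.le
    rintro v ⟨hv, -⟩
    exact hnj v hv
  have h10 : t j * μ.real ({v : Sph n | h j v ≤ R * a j k} ∩ {v : Sph n | (v : Eu n) ∉ tl e k}) +
      (1 - t j) * σ.real ({v : Sph n | h j v ≤ R * a j k} ∩
        {v : Sph n | (v : Eu n) ∉ tl e k}) ≤ θ := by
    have h1 := mul_le_mul_of_nonneg_left hs1 htj.1
    have h2 := mul_le_mul_of_nonneg_left hs2 (show 0 ≤ 1 - t j by linarith [htj.2])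
    linarith
  have h11 : ((n : ℝ) - k) * (II q (h j) / q) ≤ II q (h j) * (t j * mass μ (tl e k)) +
      (η / 3 * II q (h j) + II q (h j) * (n * (C * C') * θ)) := by
    refine htr.trans ?_
    refine add_le_add le_rfl (hint.trans ?_)
    have h1 := mul_le_mul_of_nonneg_left h10 (mul_pos hI (show 0 < n * (C * C') by positivity)).le
    linarith
  have h12 : n * (C * C') * θ = η / 3 := by
    rw [hθ]; field_simp
  rw [h12] at h11
  have h13 : II q (h j) * (((n : ℝ) - k) / q) ≤ II q (h j) * (t j * mass μ (tl e k) + η) := by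
    have h1 : II q (h j) * (((n : ℝ) - k) / q) = ((n : ℝ) - k) * (II q (h j) / q) := by ring
    rw [h1]
    refine h11.trans ?_
    have := mul_pos hI hη
    linarith
  have h14 := le_of_mul_le_mul_left h13 hI
  linarith

end Crit

end Pool.Agent.Lib.MP_b0d2bf_gt
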