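import Mathlib
import Pool.Agent.Lib.MP_b0d2bf_gt.XDefs2

set_option autoImplicit false

/-!
Lower bound of `II` by the volume of the box approximation.
-/

namespace Pool.Agent.Lib.MP_b0d2bf_gt

open MeasureTheory Metric Set Filter Topology

namespace XIILow

variable {n : ℕ}

/-- points with small coordinates lie in the Wulff shape -/
lemma mem_wulff_of_box [NeZero n] {h : Sph n → ℝ} {b : OrthonormalBasis (Fin n) ℝ (Eu n)}
    {a : Fin n → ℝ} (hB : Bx h b a) {x : Eu n}
    (hx : ∀ k, |inner ℝ (b k) x| ≤ a k / (n * √n)) : x ∈ wulff h := by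
  intro v
  have hn : (0 : ℝ) < n := by exact_mod_cast NeZero.pos n
  have hsn : 0 < √(n : ℝ) := Real.sqrt_pos.2 hn
  rw [← b.sum_inner_mul_inner x (v : Eu n)]
  have h1 : ∀ k ∈ (Finset.univ : Finset (Fin n)),
      inner ℝ x (b k) * inner ℝ (b k) (v : Eu n) ≤ (1 / n) * h v := by
    intro k _
    have h2 := hx k
    have h3 := hB.lo v k
    have h4 : inner ℝ x (b k) * inner ℝ (b k) (v : Eu n)
        ≤ |inner ℝ (b k) x| * |inner ℝ (b k) (v : Eu n)| := by
      rw [← abs_mul, real_inner_comm]
      exact le_abs_self _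
    refine h4.trans ?_
    calc |inner ℝ (b k) x| * |inner ℝ (b k) (v : Eu n)|
        ≤ a k / (n * √n) * |inner ℝ (b k) (v : Eu n)| :=
          mul_le_mul_of_nonneg_right h2 (abs_nonneg _)
      _ = (a k * |inner ℝ (b k) (v : Eu n)|) / (n * √n) := by ring
      _ ≤ (√n * h v) / (n * √n) := div_le_div_of_nonneg_right h3 (by positivity)
      _ = (1 / n) * h v := by field_simp
  refine (Finset.sum_le_sum h1).trans ?_
  rw [Finset.sum_const, Finset.card_univ, Fintype.card_fin, nsmul_eq_mul]
  have : (n : ℝ) * (1 / n * h v) = h v := by field_simp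
  rw [this]

/-- the translated box -/
lemma volume_tbox (b : OrthonormalBasis (Fin n) ℝ (Eu n)) (A : Fin n → ℝ) (p : Eu n) :
    volume {x : Eu n | ∀ k, |inner ℝ (b k) (x - p)| ≤ A k} = ∏ k, ENNReal.ofReal (2 * A k) := by
  rw [← volume_box b A]
  have h1 : {x : Eu n | ∀ k, |inner ℝ (b k) (x - p)| ≤ A k} =
      (fun x => x - p) ⁻¹' {x : Eu n | ∀ k, |inner ℝ (b k) x| ≤ A k} := by
    ext x
    simp only [mem_ofPred_eq, mem_preimage]
  rw [h1]
  simp only [sub_eq_add_neg]
  rw [measure_preimage_add_right]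

lemma measurable_tbox (b : OrthonormalBasis (Fin n) ℝ (Eu n)) (A : Fin n → ℝ) (p : Eu n) :
    MeasurableSet {x : Eu n | ∀ k, |inner ℝ (b k) (x - p)| ≤ A k} := by
  have h1 : IsClosed {x : Eu n | ∀ k, |inner ℝ (b k) (x - p)| ≤ A k} := by
    simp only [ofPred_forall]
    refine isClosed_iInter fun k => ?_
    exact isClosed_le (by fun_prop) continuous_const
  exact h1.measurableSet

end XIILow

open XIILow in
theorem II_ge_box {n : ℕ} [NeZero n] {q : ℝ} (hq : (n : ℝ) < q) :
    ∃ c : ℝ, 0 < c ∧ ∀ h : Sph n → ℝ, Continuous h → (∀ v, 0 < h v) →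
      (∀ v, h (-v) = h v) → ∀ (b : OrthonormalBasis (Fin n) ℝ (Eu n)) (a : Fin n → ℝ),
      Bx h b a → (∃ k, 1 ≤ n * a k) → c * ∏ k, a k ≤ II q h := by
  have hn : (0 : ℝ) < n := by exact_mod_cast NeZero.pos n
  have hsn : 0 < √(n : ℝ) := Real.sqrt_pos.2 hn
  set N : ℝ := n * √n with hN
  have hN0 : 0 < N := by positivity
  have hq0 : 0 < q := hn.trans hq
  refine ⟨q * ((1 / (2 * n * N)) ^ (q - n) * (1 / (2 * N)) ^ n), by positivity, ?_⟩
  intro h hc h0 _ b a hB hk
  obtain ⟨k₀, hk₀⟩ := hk
  have hap := hB.pos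
  -- the box
  set w : ℝ := a k₀ / N with hw
  have hw0 : 0 < w := div_pos (hap k₀) hN0
  set p : Eu n := (3 / 4 * w) • b k₀ with hp
  set T : Set (Eu n) := {x : Eu n | ∀ k, |inner ℝ (b k) (x - p)| ≤ a k / (4 * N)} with hT
  have hTm : MeasurableSet T := measurable_tbox b _ p
  have hinner : ∀ k (x : Eu n), inner ℝ (b k) x
      = inner ℝ (b k) (x - p) + if k = k₀ then 3 / 4 * w else 0 := by
    intro k x
    rw [inner_sub_right, hp, inner_smul_right, b.inner_eq_ite]
    split_ifs <;> ring
  have hTK : T ⊆ wulff h := by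
    intro x hx
    refine mem_wulff_of_box hB fun k => ?_
    rw [← hN]
    have h1 := hx k
    rw [hinner k x]
    have h2 : a k / (4 * N) = (a k / N) / 4 := by ring
    have h3 : 0 < a k / N := div_pos (hap k) hN0
    rw [h2] at h1
    split_ifs with h4
    · subst h4
      have h5 := abs_add_le (inner ℝ (b k) (x - p)) (3 / 4 * w)
      have h6 : |3 / 4 * w| = 3 / 4 * w := abs_of_pos (by positivity)
      rw [h6] at h5
      have h7 : w = a k / N := hw
      linarith
    · rw [add_zero]
      linarith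
  have hnorm : ∀ x ∈ T, 1 / (2 * n * N) ≤ ‖x‖ := by
    intro x hx
    have h1 := hx k₀
    have h2 := hinner k₀ x
    rw [if_pos rfl] at h2
    have h3 := (abs_le.1 h1).1
    have h4 : a k₀ / (4 * N) = w / 4 := by rw [hw]; ring
    rw [h4] at h3
    have h5 : w / 2 ≤ inner ℝ (b k₀) x := by linarith
    have h6 : inner ℝ (b k₀) x ≤ ‖x‖ := by
      have := real_inner_le_norm (b k₀) x
      rwa [b.norm_eq_one, one_mul] at this
    have h7 : 1 / (2 * n * N) ≤ w / 2 := by
      rw [hw, div_div, div_le_div_iff₀ (by positivity) (by positivity)]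
      nlinarith
    linarith
  have hp0 : 0 ≤ q - n := by linarith
  have hKc := isCompact_wulff hc h0
  have hint : IntegrableOn (fun x : Eu n => ‖x‖ ^ (q - n)) (wulff h) :=
    (continuous_norm_rpow hp0).continuousOn.integrableOn_compact hKc
  have hvol : volume.real T = (1 / (2 * N)) ^ n * ∏ k, a k := by
    rw [Measure.real, hT, volume_tbox b _ p, ← ENNReal.ofReal_prod_of_nonneg]
    · rw [ENNReal.toReal_ofReal]
      · have h1 : ∀ k ∈ (Finset.univ : Finset (Fin n)), 2 * (a k / (4 * N)) = (1 / (2 * N)) * a k := by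
          intro k _
          field_simp
          ring
        rw [Finset.prod_congr rfl h1, Finset.prod_mul_distrib, Finset.prod_const,
          Finset.card_univ, Fintype.card_fin]
      · exact Finset.prod_nonneg fun k _ => by
          have := hap k
          positivity
    · intro k _
      have := hap k
      positivity
  have hTfin : volume T ≠ ⊤ := (lt_of_le_of_lt (measure_mono hTK) hKc.measure_lt_top).ne
  have hDD : (1 / (2 * n * N)) ^ (q - n) * volume.real T ≤ DD (q - n) (wulff h) := by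
    unfold DD
    calc (1 / (2 * n * N)) ^ (q - n) * volume.real T
        = ∫ _x in T, (1 / (2 * n * N)) ^ (q - n) := by
          rw [setIntegral_const, smul_eq_mul, mul_comm]
      _ ≤ ∫ x in T, ‖x‖ ^ (q - n) := by
          refine setIntegral_mono_on ?_ (hint.mono_set hTK) hTm ?_
          · exact integrableOn_const hTfin
          · intro x hx
            exact Real.rpow_le_rpow (by positivity) (hnorm x hx) hp0
      _ ≤ ∫ x in wulff h, ‖x‖ ^ (q - n) := by
          refine setIntegral_mono_set hint ?_ (LE.le.eventuallyLE hTK)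
          exact Eventually.of_forall fun x => Real.rpow_nonneg (norm_nonneg x) _
  rw [II_eq hq hc h0]
  calc q * ((1 / (2 * n * N)) ^ (q - n) * (1 / (2 * N)) ^ n) * ∏ k, a k
      = q * ((1 / (2 * n * N)) ^ (q - n) * ((1 / (2 * N)) ^ n * ∏ k, a k)) := by ring
    _ = q * ((1 / (2 * n * N)) ^ (q - n) * volume.real T) := by rw [hvol]
    _ ≤ q * DD (q - n) (wulff h) := mul_le_mul_of_nonneg_left hDD hq0.le

end Pool.Agent.Lib.MP_b0d2bf_gt
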