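import Mathlib
import Pool.Agent.Lib.MP_b0d2bf_gt.XDefs2
import Pool.Agent.Lib.MP_b0d2bf_gt.XTl
import Pool.Agent.Lib.MP_b0d2bf_gt.XFlag
import Pool.Agent.Lib.MP_b0d2bf_gt.XIILow

set_option autoImplicit false

/-!
Lower bound for the functional along a degenerating sequence of critical bodies.
-/

namespace Pool.Agent.Lib.MP_b0d2bf_gt

open MeasureTheory Metric Set Filter Topology

namespace XLower

/-- drop of the logarithm of the semiaxes at an index -/
noncomputable def dr {n : ℕ} (a : Fin n → ℝ) (k : Fin n) : ℝ :=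
  Real.log (a (pr k)) - Real.log (a k)

lemma pr_le {n : ℕ} (k : Fin n) : pr k ≤ k := by
  rw [Fin.le_def]
  show k.1 - 1 ≤ k.1
  omega

lemma dr_nonneg {n : ℕ} {a : Fin n → ℝ} (ha : Antitone a) (h0 : ∀ k, 0 < a k) (k : Fin n) :
    0 ≤ dr a k := by
  unfold dr
  rw [sub_nonneg]
  exact Real.log_le_log (h0 _) (ha (pr_le k))

lemma log_eq {n : ℕ} [NeZero n] (a : Fin n → ℝ) (k : Fin n) :
    Real.log (a k) = Real.log (a 0) - ∑ i with i ≤ k, dr a i := by
  obtain ⟨k, hk⟩ := k
  induction k with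
  | zero =>
    have h1 : (Finset.univ.filter fun i : Fin n => i ≤ ⟨0, hk⟩) = {0} := by
      ext i
      simp only [Finset.mem_filter, Finset.mem_univ, true_and, Finset.mem_singleton, Fin.ext_iff,
        Fin.le_def, Fin.val_zero]
      omega
    have h2 : (⟨0, hk⟩ : Fin n) = 0 := by
      ext; simp
    have h3 : dr a 0 = 0 := by
      unfold dr
      have : pr (0 : Fin n) = 0 := by
        ext
        show (0 : Fin n).1 - 1 = (0 : Fin n).1
        simp
      rw [this, sub_self]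
    rw [h1, Finset.sum_singleton, h3, h2, sub_zero]
  | succ k ih =>
    have h1 := ih (by omega)
    have h2 : (Finset.univ.filter fun i : Fin n => i ≤ ⟨k + 1, hk⟩) =
        insert ⟨k + 1, hk⟩ (Finset.univ.filter fun i : Fin n => i ≤ ⟨k, by omega⟩) := by
      ext i
      simp only [Finset.mem_filter, Finset.mem_univ, true_and, Finset.mem_insert, Fin.ext_iff,
        Fin.le_def]
      omega
    have h3 : (⟨k + 1, hk⟩ : Fin n) ∉ (Finset.univ.filter fun i : Fin n => i ≤ ⟨k, by omega⟩) := by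
      simp only [Finset.mem_filter, Finset.mem_univ, true_and, Fin.le_def]
      omega
    have h4 : dr a ⟨k + 1, hk⟩ = Real.log (a ⟨k, by omega⟩) - Real.log (a ⟨k + 1, hk⟩) := rfl
    rw [h2, Finset.sum_insert h3, h4]
    linarith

lemma sum_log {n : ℕ} [NeZero n] (a : Fin n → ℝ) :
    ∑ k, Real.log (a k) = n * Real.log (a 0) - ∑ k, ((n : ℝ) - k) * dr a k := by
  have h1 : ∑ k, Real.log (a k) = ∑ k : Fin n, (Real.log (a 0) - ∑ i with i ≤ k, dr a i) :=
    Finset.sum_congr rfl fun k _ => log_eq a k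
  rw [h1, Finset.sum_sub_distrib, Finset.sum_const, Finset.card_univ, Fintype.card_fin,
    nsmul_eq_mul]
  congr 1
  have h2 : ∑ k : Fin n, ∑ i with i ≤ k, dr a i = ∑ i : Fin n, ∑ k with i ≤ k, dr a i := by
    simp only [Finset.sum_filter]
    exact Finset.sum_comm
  rw [h2]
  refine Finset.sum_congr rfl fun i _ => ?_
  rw [Finset.sum_const, nsmul_eq_mul]
  congr 1
  have h3 : (Finset.univ.filter fun k : Fin n => i ≤ k) = Finset.Ici i := by
    ext k; simp
  rw [h3, Fin.card_Ici, Nat.cast_sub i.2.le]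

end XLower

open XLower

section Crit

variable {n : ℕ} [NeZero n] {G : Subgroup (Eu n ≃ₗᵢ[ℝ] Eu n)} {𝒰 : Ultrafilter ℕ}
  {h : ℕ → Sph n → ℝ} {b : ℕ → OrthonormalBasis (Fin n) ℝ (Eu n)} {a : ℕ → Fin n → ℝ}
  {e : OrthonormalBasis (Fin n) ℝ (Eu n)} {q : ℝ} {μ σ : Measure (Sph n)}
  [IsProbabilityMeasure μ] [IsProbabilityMeasure σ] {t : ℕ → ℝ}

open Classical in
/-- lower bound for the logarithm of the integral -/
lemma XLower.log_II_ge (hq : (n : ℝ) < q) (S : Sq G 𝒰 h b a e) :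
    ∃ C : ℝ, ∀ᶠ j in (𝒰 : Filter ℕ),
      - C - ∑ k with Gap 𝒰 a k, (((n : ℝ) - k) / q) * dr (a j) k ≤
        (1 / q) * Real.log (II q (h j)) := by
  have hn : (0:ℝ) < n := by exact_mod_cast NeZero.pos n
  have hq0 : 0 < q := hn.trans hq
  obtain ⟨c, hc, hII⟩ := II_ge_box (n := n) hq
  have hC : ∀ k : Fin n, ∃ D : ℝ, ¬ Gap 𝒰 a k → ∀ᶠ j in (𝒰 : Filter ℕ), dr (a j) k ≤ D := by
    intro k
    by_cases hk : Gap 𝒰 a k
    · exact ⟨0, fun h => absurd hk h⟩
    · obtain ⟨d, hd, hev⟩ := not_gap S hk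
      refine ⟨- Real.log d, fun _ => hev.mono fun j hj => ?_⟩
      unfold dr
      have h1 := Real.log_le_log (mul_pos hd ((S.bx j).pos (pr k))) hj
      rw [Real.log_mul hd.ne' ((S.bx j).pos (pr k)).ne'] at h1
      linarith
  choose D hD using hC
  have hev : ∀ᶠ j in (𝒰 : Filter ℕ), ∀ k : Fin n, ¬ Gap 𝒰 a k → dr (a j) k ≤ D k := by
    rw [Filter.eventually_all]
    intro k
    by_cases hk : Gap 𝒰 a k
    · exact Eventually.of_forall fun j h => absurd hk h
    · exact (hD k hk).mono fun j hj _ => hj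
  refine ⟨- (1 / q) * Real.log c + (n / q) * Real.log n +
    ∑ k with ¬ Gap 𝒰 a k, (((n : ℝ) - k) / q) * D k, hev.mono fun j hj => ?_⟩
  have hB := S.bx j
  have hd := S.bd j
  have h1 : 1 ≤ n * a j 0 := hB.one_le hd.cont hd.pos hd.supp hd.one 0 fun i => hB.anti (Fin.zero_le i)
  have h2 := hII (h j) hd.cont hd.pos hd.even (b j) (a j) hB ⟨0, h1⟩
  have h3 : Real.log (c * ∏ k, a j k) ≤ Real.log (II q (h j)) :=
    Real.log_le_log (mul_pos hc (Finset.prod_pos fun k _ => hB.pos k)) h2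
  rw [Real.log_mul hc.ne' (Finset.prod_pos fun k _ => hB.pos k).ne',
    Real.log_prod fun k _ => (hB.pos k).ne', sum_log] at h3
  have h4 : 0 ≤ Real.log n + Real.log (a j 0) := by
    rw [← Real.log_mul hn.ne' (hB.pos 0).ne']
    exact Real.log_nonneg h1
  have h5 : ∑ k, ((n : ℝ) - k) * dr (a j) k =
      ∑ k with Gap 𝒰 a k, ((n : ℝ) - k) * dr (a j) k +
      ∑ k with ¬ Gap 𝒰 a k, ((n : ℝ) - k) * dr (a j) k :=
    (Finset.sum_filter_add_sum_filter_not _ _ _).symm
  have h6 : ∑ k with ¬ Gap 𝒰 a k, ((n : ℝ) - k) * dr (a j) k ≤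
      ∑ k with ¬ Gap 𝒰 a k, ((n : ℝ) - k) * D k := by
    refine Finset.sum_le_sum fun k hk => ?_
    rw [Finset.mem_filter] at hk
    refine mul_le_mul_of_nonneg_left (hj k hk.2) ?_
    rw [sub_nonneg]
    exact_mod_cast k.2.le
  have h7 : ∀ (s : Finset (Fin n)) (f : Fin n → ℝ), ∑ k ∈ s, (((n : ℝ) - k) / q) * f k =
      (1 / q) * ∑ k ∈ s, ((n : ℝ) - k) * f k := by
    intro s f
    rw [Finset.mul_sum]
    exact Finset.sum_congr rfl fun k _ => by ring
  rw [h7, h7]
  have h8 : - (-(1 / q) * Real.log c + n / q * Real.log n +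
        (1 / q) * ∑ k with ¬ Gap 𝒰 a k, ((n : ℝ) - k) * D k) -
      (1 / q) * ∑ k with Gap 𝒰 a k, ((n : ℝ) - k) * dr (a j) k =
      (1 / q) * (Real.log c - n * Real.log n -
        ∑ k with ¬ Gap 𝒰 a k, ((n : ℝ) - k) * D k -
        ∑ k with Gap 𝒰 a k, ((n : ℝ) - k) * dr (a j) k) := by
    ring
  rw [h8]
  refine mul_le_mul_of_nonneg_left ?_ (by positivity)
  have h9 : 0 ≤ n * (Real.log n + Real.log (a j 0)) := mul_nonneg hn.le h4
  linarith

open Classical in
/-- pointwise upper bound for the logarithm of the support function -/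
lemma XLower.log_h_le (S : Sq G 𝒰 h b a e) {C : ℝ} (hC : 0 < C) {j : ℕ}
    (hf : ∀ i : Fin n, ∀ v : Sph n, (v : Eu n) ∈ tl e i → h j v ≤ C * a j i) (v : Sph n) :
    Real.log (h j v) ≤ max 0 (Real.log C + Real.log √n) -
      ∑ k with Gap 𝒰 a k, (if (v : Eu n) ∈ tl e k then dr (a j) k else 0) := by
  have hB := S.bx j
  have hd := S.bd j
  rw [← Finset.sum_filter]
  set F : Finset (Fin n) := (Finset.univ.filter fun k => Gap 𝒰 a k).filter
    fun k => (v : Eu n) ∈ tl e k with hF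
  by_cases hne : F.Nonempty
  · set m := F.max' hne with hm
    have hmF : m ∈ F := F.max'_mem hne
    have hmt : (v : Eu n) ∈ tl e m := (Finset.mem_filter.1 hmF).2
    have h1 := Real.log_le_log (hd.pos v) (hf m v hmt)
    rw [Real.log_mul hC.ne' (hB.pos m).ne', log_eq (a j) m] at h1
    have h2 : Real.log (a j 0) ≤ Real.log √n := Real.log_le_log (hB.pos 0) (hB.le_sqrt hd.le 0)
    have h3 : ∑ k ∈ F, dr (a j) k ≤ ∑ k with k ≤ m, dr (a j) k := by
      refine Finset.sum_le_sum_of_subset_of_nonneg ?_ fun k _ _ => dr_nonneg hB.anti hB.pos k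
      intro k hk
      rw [Finset.mem_filter]
      exact ⟨Finset.mem_univ _, F.le_max' k hk⟩
    have h4 := le_max_right 0 (Real.log C + Real.log √(n:ℝ))
    linarith
  · rw [Finset.not_nonempty_iff_eq_empty] at hne
    rw [hne, Finset.sum_empty, sub_zero]
    exact (Real.log_nonpos (hd.pos v).le (hd.le v)).trans (le_max_left _ _)

omit [NeZero n] in
lemma XLower.meas_tl (e : OrthonormalBasis (Fin n) ℝ (Eu n)) (k : Fin n) :
    MeasurableSet {v : Sph n | (v : Eu n) ∈ tl e k} := by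
  have : {v : Sph n | (v : Eu n) ∈ tl e k} = ⋂ i : Fin n, ⋂ _ : i < k,
      {v : Sph n | inner ℝ (e i) (v : Eu n) = 0} := by
    ext v
    simp only [mem_iInter]
    exact Iff.rfl
  rw [this]
  refine MeasurableSet.iInter fun i => MeasurableSet.iInter fun _ => ?_
  exact (isClosed_eq (continuous_const.inner continuous_subtype_val) continuous_const).measurableSet

open Classical in
theorem Psi_lower (hμ : MInv G μ) (hσ : ∀ L : Submodule ℝ (Eu n), L ≠ ⊤ → mass σ L = 0)
    (hq : (n : ℝ) < q) (S : Sq G 𝒰 h b a e) (ht : ∀ j, t j ∈ Icc (0:ℝ) 1)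
    (hE : ∀ j, CEq q μ σ (t j) (h j)) :
    ∃ C : ℝ, ∀ᶠ j in (𝒰 : Filter ℕ),
      (∑ k with Gap 𝒰 a k, (mass μ (tl e k) - ((n : ℝ) - k) / q) *
        (Real.log (a j (pr k)) - Real.log (a j k))) - C ≤ Psi μ q (h j) := by
  obtain ⟨C1, h1⟩ := XLower.log_II_ge hq S
  obtain ⟨C2, hC2, h2⟩ := flag_bound hμ hσ hq S ht hE
  refine ⟨C1 + max 0 (Real.log C2 + Real.log √n), (h1.and h2).mono fun j hj => ?_⟩
  obtain ⟨hj1, hj2⟩ := hj
  have hB := S.bx j
  have hd := S.bd j
  have h3 := XLower.log_h_le S hC2 hj2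
  have hint : ∀ k : Fin n, Integrable (fun v : Sph n =>
      (if (v : Eu n) ∈ tl e k then dr (a j) k else 0)) μ := by
    intro k
    have : (fun v : Sph n => (if (v : Eu n) ∈ tl e k then dr (a j) k else 0)) =
        indicator {v : Sph n | (v : Eu n) ∈ tl e k} (fun _ => dr (a j) k) := by
      funext v
      simp only [indicator_apply]
      rfl
    rw [this]
    exact (integrable_const _).indicator (XLower.meas_tl e k)
  have hval : ∀ k : Fin n, ∫ v : Sph n, (if (v : Eu n) ∈ tl e k then dr (a j) k else 0) ∂μ =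
      mass μ (tl e k) * dr (a j) k := by
    intro k
    have : (fun v : Sph n => (if (v : Eu n) ∈ tl e k then dr (a j) k else 0)) =
        indicator {v : Sph n | (v : Eu n) ∈ tl e k} (fun _ => dr (a j) k) := by
      funext v
      simp only [indicator_apply]
      rfl
    rw [this, integral_indicator_const _ (XLower.meas_tl e k), smul_eq_mul]
    rfl
  have h4 : ∫ v, Real.log (h j v) ∂μ ≤ max 0 (Real.log C2 + Real.log √n) -
      ∑ k with Gap 𝒰 a k, mass μ (tl e k) * dr (a j) k := by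
    have hlog : Integrable (fun v => Real.log (h j v)) μ :=
      (hd.cont.log fun v => (hd.pos v).ne').integrable_of_hasCompactSupport
        (HasCompactSupport.of_compactSpace _)
    have h5 : Integrable (fun v : Sph n => ∑ k with Gap 𝒰 a k,
        (if (v : Eu n) ∈ tl e k then dr (a j) k else 0)) μ :=
      integrable_finsetSum _ fun k _ => hint k
    refine (integral_mono hlog ((integrable_const _).sub h5) h3).trans (le_of_eq ?_)
    rw [integral_sub' (integrable_const _) h5, integral_const, probReal_univ, one_smul,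
      integral_finsetSum _ fun k _ => hint k]
    congr 1
    exact Finset.sum_congr rfl fun k _ => hval k
  have h6 : ∑ k with Gap 𝒰 a k, (mass μ (tl e k) - ((n : ℝ) - k) / q) *
        (Real.log (a j (pr k)) - Real.log (a j k)) =
      ∑ k with Gap 𝒰 a k, mass μ (tl e k) * dr (a j) k -
      ∑ k with Gap 𝒰 a k, (((n : ℝ) - k) / q) * dr (a j) k := by
    rw [← Finset.sum_sub_distrib]
    exact Finset.sum_congr rfl fun k _ => by unfold dr; ring
  rw [h6]
  unfold Psi
  linarith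

end Crit

end Pool.Agent.Lib.MP_b0d2bf_gt
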