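import Mathlib
import Pool.Agent.Lib.MP_b0d2bf_gt.XDefs2
import Pool.Agent.Lib.MP_b0d2bf_gt.XNH
import Pool.Agent.Lib.MP_b0d2bf_gt.XLim
import Pool.Agent.Lib.MP_b0d2bf_gt.XTl
import Pool.Agent.Lib.MP_b0d2bf_gt.XFlag
import Pool.Agent.Lib.MP_b0d2bf_gt.XLower

set_option autoImplicit false

/-!
Degenerate solutions of the critical equation have a large functional.
-/

namespace Pool.Agent.Lib.MP_b0d2bf_gt

open MeasureTheory Metric Set Filter Topology

namespace XCrit

variable {n : ℕ} {G : Subgroup (Eu n ≃ₗᵢ[ℝ] Eu n)}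

lemma mass_nonneg (μ : Measure (Sph n)) (L : Submodule ℝ (Eu n)) : 0 ≤ mass μ L :=
  measureReal_nonneg

lemma mass_le_one (μ : Measure (Sph n)) [IsProbabilityMeasure μ] (L : Submodule ℝ (Eu n)) :
    mass μ L ≤ 1 := measureReal_le_one

lemma pr_le (k : Fin n) : pr k ≤ k := by
  rw [Fin.le_def]
  exact Nat.sub_le _ _

/-- if the longest side is bounded below and the shortest side tends to zero, there is a gap -/
lemma exists_gap [NeZero n] {𝒰 : Ultrafilter ℕ} (h𝒰 : (𝒰 : Filter ℕ) ≤ atTop)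
    {h : ℕ → Sph n → ℝ} {b : ℕ → OrthonormalBasis (Fin n) ℝ (Eu n)} {a : ℕ → Fin n → ℝ}
    {e : OrthonormalBasis (Fin n) ℝ (Eu n)} (S : Sq G 𝒰 h b a e)
    (hs : ∀ j, ∃ v, h j v < 1 / ((j : ℝ) + 1)) : ∃ k, Gap 𝒰 a k := by
  have hn : (0:ℝ) < n := by exact_mod_cast NeZero.pos n
  have hn' : 0 < n := NeZero.pos n
  by_contra hcon
  push Not at hcon
  have key : ∀ (m : ℕ) (hm : m < n), ∃ c > 0, ∀ᶠ j in (𝒰 : Filter ℕ),
      c * a j 0 ≤ a j ⟨m, hm⟩ := by
    intro m
    induction m with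
    | zero =>
      intro hm
      refine ⟨1, one_pos, Eventually.of_forall fun j => ?_⟩
      have : (⟨0, hm⟩ : Fin n) = 0 := by
        ext
        simp
      rw [this, one_mul]
    | succ m ih =>
      intro hm
      obtain ⟨c, hc, h1⟩ := ih (by omega)
      obtain ⟨c', hc', h2⟩ := not_gap S (hcon ⟨m + 1, hm⟩)
      refine ⟨c' * c, mul_pos hc' hc, ?_⟩
      filter_upwards [h1, h2] with j h3 h4
      have h5 : pr (⟨m + 1, hm⟩ : Fin n) = ⟨m, by omega⟩ := rfl
      rw [h5] at h4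
      calc c' * c * a j 0 = c' * (c * a j 0) := by ring
        _ ≤ c' * a j ⟨m, by omega⟩ := mul_le_mul_of_nonneg_left h3 hc'.le
        _ ≤ _ := h4
  obtain ⟨c, hc, h1⟩ := key (n - 1) (by omega)
  have h2 : ∀ j, a j ⟨n - 1, by omega⟩ ≤ n * (1 / ((j : ℝ) + 1)) := by
    intro j
    obtain ⟨v, hv⟩ := hs j
    refine ((S.bx j).low ⟨n - 1, by omega⟩ (fun i => (S.bx j).anti ?_) v).trans ?_
    · rw [Fin.le_def]
      have := i.2
      show i.1 ≤ n - 1
      omega
    · exact mul_le_mul_of_nonneg_left hv.le hn.le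
  have h3 : ∀ j, 1 ≤ n * a j 0 := by
    intro j
    exact Bx.one_le (S.bd j).cont (S.bd j).pos (S.bd j).supp (S.bx j) (S.bd j).one 0
      (fun i => (S.bx j).anti (Fin.zero_le i))
  have h4 : Tendsto (fun j : ℕ => (n : ℝ) * (1 / ((j : ℝ) + 1))) (𝒰 : Filter ℕ) (𝓝 0) := by
    have := (tendsto_one_div_add_atTop_nhds_zero_nat (𝕜 := ℝ)).const_mul (n : ℝ)
    rw [mul_zero] at this
    exact this.mono_left h𝒰
  have h5 : ∀ᶠ j : ℕ in (𝒰 : Filter ℕ), (n : ℝ) * (1 / ((j : ℝ) + 1)) < c / n :=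
    h4.eventually (gt_mem_nhds (div_pos hc hn))
  obtain ⟨j, h6, h7⟩ := (h1.and h5).exists
  have h8 := h2 j
  have h9 : c / n ≤ c * a j 0 := by
    rw [div_le_iff₀ hn]
    have := mul_le_mul_of_nonneg_left (h3 j) hc.le
    calc c = c * 1 := (mul_one c).symm
      _ ≤ c * (n * a j 0) := this
      _ = _ := by ring
  linarith

end XCrit

section Crit

variable {n : ℕ} [NeZero n] {G : Subgroup (Eu n ≃ₗᵢ[ℝ] Eu n)} {q : ℝ}
  {μ σ : Measure (Sph n)} [IsProbabilityMeasure μ] [IsProbabilityMeasure σ]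

open XCrit in
theorem crit_bound (hμ : MInv G μ) (hσ : ∀ L : Submodule ℝ (Eu n), L ≠ ⊤ → mass σ L = 0)
    (hq : (n : ℝ) < q) (hnd : Nondeg G q μ) (C : ℝ) :
    ∃ c > 0, ∀ (h : Sph n → ℝ) (t : ℝ), Bd G h → t ∈ Icc (0:ℝ) 1 → CEq q μ σ t h →
      (∃ v, h v < c) → 1 / (2 * q) ≤ t ∧ C ≤ Psi μ q h := by
  classical
  have hn : (0:ℝ) < n := by exact_mod_cast NeZero.pos n
  have hq0 : 0 < q := hn.trans hq
  by_contra hcon
  push Not at hcon
  have hcon' : ∀ j : ℕ, ∃ (h : Sph n → ℝ) (t : ℝ), Bd G h ∧ t ∈ Icc (0:ℝ) 1 ∧ CEq q μ σ t h ∧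
      (∃ v, h v < 1 / ((j : ℝ) + 1)) ∧ (1 / (2 * q) ≤ t → Psi μ q h < C) := fun j =>
    hcon (1 / ((j : ℝ) + 1)) (by positivity)
  choose h t hB ht hE hv hC using hcon'
  choose b a hbx using fun j => exists_Bx (hB j).cont (hB j).pos (hB j).even (hB j).supp
  obtain ⟨e, he⟩ := exists_limit_basis (hyperfilter ℕ) b
  have h𝒰 : ((hyperfilter ℕ : Ultrafilter ℕ) : Filter ℕ) ≤ atTop := Nat.hyperfilter_le_atTop
  have S : Sq G (hyperfilter ℕ) h b a e := ⟨hB, hbx, he⟩
  obtain ⟨k, hk⟩ := exists_gap h𝒰 S hv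
  have ha : ∀ j i, 0 < a j i := fun j i => (hbx j).pos i
  -- lower bound for `t`
  have ht1 : ∀ᶠ j in (hyperfilter ℕ : Filter ℕ), 1 / (2 * q) ≤ t j := by
    have h1 := gap_mass hμ hσ hq S ht hE hk (η := 1 / (2 * q)) (by positivity)
    filter_upwards [h1] with j h2
    have h3 : t j * mass μ (tl e k) ≤ t j :=
      mul_le_of_le_one_right (ht j).1 (mass_le_one μ _)
    have h4 : (1:ℝ) ≤ (n : ℝ) - k := by
      have := k.2
      have h5 : ((k : ℕ) : ℝ) + 1 ≤ n := by exact_mod_cast this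
      linarith
    have h5 : 1 / q ≤ ((n : ℝ) - k) / q := div_le_div_of_nonneg_right h4 hq0.le
    have h6 : 1 / q = 1 / (2 * q) + 1 / (2 * q) := by
      field_simp
      norm_num
    linarith
  -- masses
  have hmass : ∀ i : Fin n, Gap (hyperfilter ℕ) a i → ((n : ℝ) - i) / q ≤ mass μ (tl e i) := by
    intro i hi
    refine le_of_forall_pos_le_add fun η hη => ?_
    obtain ⟨j, hj⟩ := (gap_mass hμ hσ hq S ht hE hi hη).exists
    have h3 : t j * mass μ (tl e i) ≤ mass μ (tl e i) :=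
      mul_le_of_le_one_left (mass_nonneg μ _) (ht j).2
    linarith
  have hstrict : ((n : ℝ) - k) / q < mass μ (tl e k) := by
    refine lt_of_le_of_ne (hmass k hk) fun heq => ?_
    have hkpos : 0 < (k : ℕ) := Gap.pos S hk
    have hfin : Module.finrank ℝ (tl e k) = n - k := finrank_tl e k
    have hkn : (k : ℕ) < n := k.2
    have hinv : SInv G (tl e k) := by
      rw [← limS_eq_tl S hk]
      exact limS_inv hB fun j => ha j k
    refine hnd (tl e k) hinv ?_ ?_ ?_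
    · intro hbot
      rw [hbot, finrank_bot] at hfin
      omega
    · intro htop
      rw [htop, finrank_top, finrank_euclideanSpace_fin] at hfin
      omega
    · rw [← heq, hfin, Nat.cast_sub hkn.le]
  -- the functional
  obtain ⟨C1, hC1⟩ := Psi_lower hμ hσ hq S ht hE
  have hd : 0 < mass μ (tl e k) - ((n : ℝ) - k) / q := sub_pos.2 hstrict
  have hlog : Tendsto (fun j => Real.log (a j k / a j (pr k))) (hyperfilter ℕ : Filter ℕ)
      atBot := by
    refine Real.tendsto_log_nhdsGT_zero.comp ?_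
    rw [tendsto_nhdsWithin_iff]
    exact ⟨hk, Eventually.of_forall fun j => div_pos (ha j k) (ha j _)⟩
  have hbig : ∀ᶠ j in (hyperfilter ℕ : Filter ℕ), Real.log (a j k / a j (pr k)) ≤
      - ((C + C1) / (mass μ (tl e k) - ((n : ℝ) - k) / q)) :=
    hlog.eventually (eventually_le_atBot _)
  have hfinal : ∀ᶠ j in (hyperfilter ℕ : Filter ℕ), C ≤ Psi μ q (h j) := by
    filter_upwards [hC1, hbig] with j h1 h2
    refine le_trans ?_ h1
    have h3 : (mass μ (tl e k) - ((n : ℝ) - k) / q) *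
        (Real.log (a j (pr k)) - Real.log (a j k)) ≤
        ∑ i with Gap (hyperfilter ℕ) a i, (mass μ (tl e i) - ((n : ℝ) - i) / q) *
        (Real.log (a j (pr i)) - Real.log (a j i)) := by
      refine Finset.single_le_sum (f := fun i : Fin n => (mass μ (tl e i) - ((n : ℝ) - i) / q) *
        (Real.log (a j (pr i)) - Real.log (a j i))) (fun i hi => ?_) ?_
      · have hgi : Gap (hyperfilter ℕ) a i := (Finset.mem_filter.1 hi).2
        refine mul_nonneg (sub_nonneg.2 (hmass i hgi)) (sub_nonneg.2 ?_)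
        exact Real.log_le_log (ha j i) ((hbx j).anti (pr_le i))
      · exact Finset.mem_filter.2 ⟨Finset.mem_univ _, hk⟩
    have h4 : Real.log (a j k / a j (pr k)) = Real.log (a j k) - Real.log (a j (pr k)) :=
      Real.log_div (ha j k).ne' (ha j _).ne'
    rw [h4] at h2
    have h5 : C + C1 ≤ (mass μ (tl e k) - ((n : ℝ) - k) / q) *
        (Real.log (a j (pr k)) - Real.log (a j k)) := by
      rw [mul_comm, ← div_le_iff₀ hd]
      linarith
    linarith
  obtain ⟨j, h1, h2⟩ := (ht1.and hfinal).exists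
  exact absurd (hC j h1) (not_lt.2 h2)

end Crit

end Pool.Agent.Lib.MP_b0d2bf_gt
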