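import Mathlib
import Pool.Agent.Lib.MP_b0d2bf_gt.XDefs2
import Pool.Agent.Lib.MP_b0d2bf_gt.XRho
import Pool.Agent.Lib.MP_b0d2bf_gt.Maxi
import Pool.Agent.Lib.MP_b0d2bf_gt.Normals

set_option autoImplicit false

/-!
Continuity of the mean value with respect to the dual curvature measure.
-/

namespace Pool.Agent.Lib.MP_b0d2bf_gt

open MeasureTheory Metric Set Filter Topology

namespace XAvg

variable {n : ℕ} [NeZero n]

lemma inv_le {f g : C(Sph n, ℝ)} {d : ℝ} (hd : dist f g ≤ d) (u : Sph n) :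
    (gN (ex f) (u : Eu n))⁻¹ ≤ Real.exp d * (gN (ex g) (u : Eu n))⁻¹ := by
  refine inv_gN_le_mul (continuous_ex f) (ex_pos f) (continuous_ex g) (ex_pos g)
    (Real.exp_pos d) (fun v => ex_le_of_norm (fun v => ?_) v) u
  rw [← Real.dist_eq]
  exact (ContinuousMap.dist_apply_le_dist v).trans hd

lemma tendsto_inv {F : ℕ → C(Sph n, ℝ)} {f : C(Sph n, ℝ)} (hF : Tendsto F atTop (𝓝 f))
    (u : Sph n) : Tendsto (fun j => (gN (ex (F j)) (u : Eu n))⁻¹) atTop
      (𝓝 ((gN (ex f) (u : Eu n))⁻¹)) := by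
  have hd : Tendsto (fun j => dist (F j) f) atTop (𝓝 0) := tendsto_iff_dist_tendsto_zero.1 hF
  have hup : Tendsto (fun j => Real.exp (dist (F j) f) * (gN (ex f) (u : Eu n))⁻¹) atTop
      (𝓝 ((gN (ex f) (u : Eu n))⁻¹)) := by
    have h1 := ((Real.continuous_exp.tendsto 0).comp hd).mul_const ((gN (ex f) (u : Eu n))⁻¹)
    rw [Real.exp_zero, one_mul] at h1
    exact h1
  have hlo : Tendsto (fun j => Real.exp (-dist (F j) f) * (gN (ex f) (u : Eu n))⁻¹) atTop
      (𝓝 ((gN (ex f) (u : Eu n))⁻¹)) := by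
    have h0 : Tendsto (fun j => -dist (F j) f) atTop (𝓝 0) := by
      have := hd.neg
      rwa [neg_zero] at this
    have h1 := ((Real.continuous_exp.tendsto 0).comp h0).mul_const ((gN (ex f) (u : Eu n))⁻¹)
    rw [Real.exp_zero, one_mul] at h1
    exact h1
  refine tendsto_of_tendsto_of_tendsto_of_le_of_le hlo hup (fun j => ?_) (fun j => ?_)
  · have h1 := inv_le (dist_comm (F j) f).ge u
    show Real.exp (-dist (F j) f) * (gN (ex f) (u : Eu n))⁻¹ ≤ (gN (ex (F j)) (u : Eu n))⁻¹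
    calc Real.exp (-dist (F j) f) * (gN (ex f) (u : Eu n))⁻¹
        ≤ Real.exp (-dist (F j) f) * (Real.exp (dist (F j) f) * (gN (ex (F j)) (u : Eu n))⁻¹) :=
          mul_le_mul_of_nonneg_left h1 (Real.exp_pos _).le
      _ = (gN (ex (F j)) (u : Eu n))⁻¹ := by
          rw [← mul_assoc, ← Real.exp_add, neg_add_cancel, Real.exp_zero, one_mul]
  · exact inv_le le_rfl u

lemma tendsto_nu {F : ℕ → C(Sph n, ℝ)} {f : C(Sph n, ℝ)} (hF : Tendsto F atTop (𝓝 f))
    {u : Sph n} (hd : DifferentiableAt ℝ (gN (ex f)) (u : Eu n))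
    (hdj : ∀ j, DifferentiableAt ℝ (gN (ex (F j))) (u : Eu n)) :
    Tendsto (fun j => nu (ex (F j)) u) atTop (𝓝 (nu (ex f) u)) := by
  refine isCompact_univ.tendsto_nhds_of_unique_mapClusterPt
    (Eventually.of_forall fun _ => mem_univ _) (fun w _ hw => ?_)
  obtain ⟨ψ, hψ, hlim⟩ := hw.tendsto_subseq
  have hFψ : Tendsto (fun j => F (ψ j)) atTop (𝓝 f) := hF.comp hψ.tendsto_atTop
  have hev : Tendsto (fun j => (F (ψ j)) (nu (ex (F (ψ j))) u)) atTop (𝓝 (f w)) :=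
    hFψ.eval hlim
  have hexp : Tendsto (fun j => ex (F (ψ j)) (nu (ex (F (ψ j))) u)) atTop (𝓝 (ex f w)) :=
    (Real.continuous_exp.tendsto _).comp hev
  have hin : Tendsto (fun j => inner ℝ (u : Eu n) ((nu (ex (F (ψ j))) u : Sph n) : Eu n)) atTop
      (𝓝 (inner ℝ (u : Eu n) (w : Eu n))) :=
    tendsto_const_nhds.inner ((continuous_subtype_val.tendsto w).comp hlim)
  have hq := hin.div hexp (ex_pos f w).ne'
  have hg : Tendsto (fun j => gN (ex (F (ψ j))) (u : Eu n)) atTop (𝓝 (gN (ex f) (u : Eu n))) := by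
    have h1 := (tendsto_inv hFψ u).inv₀
      (inv_pos.2 (gN_pos (continuous_ex f) (ex_pos f) (sph_ne_zero u))).ne'
    simpa only [inv_inv] using h1
  have heq : ∀ j, inner ℝ (u : Eu n) ((nu (ex (F (ψ j))) u : Sph n) : Eu n) /
      ex (F (ψ j)) (nu (ex (F (ψ j))) u) = gN (ex (F (ψ j))) (u : Eu n) := fun j =>
    isMx_nu (continuous_ex _) (ex_pos _) (hdj (ψ j))
  have hMx : IsMx (ex f) (u : Eu n) w := by
    refine tendsto_nhds_unique hq (hg.congr fun j => (heq j).symm)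
  exact (nu_eq (continuous_ex f) (ex_pos f) hd hMx).symm

lemma norm_integrand_le {q : ℝ} (hq : 0 < q) (φ : C(Sph n, ℝ)) {g f : C(Sph n, ℝ)}
    (hd : dist g f ≤ 1) (u : Sph n) :
    ‖φ (nu (ex g) u) * (gN (ex g) (u : Eu n))⁻¹ ^ q‖ ≤
      ‖φ‖ * (Real.exp 1 ^ q * (gN (ex f) (u : Eu n))⁻¹ ^ q) := by
  have hgp := inv_pos.2 (gN_pos (continuous_ex g) (ex_pos g) (sph_ne_zero u))
  have hfp := inv_pos.2 (gN_pos (continuous_ex f) (ex_pos f) (sph_ne_zero u))
  rw [norm_mul, ← Real.mul_rpow (Real.exp_pos 1).le hfp.le]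
  refine mul_le_mul (φ.norm_coe_le_norm _) ?_ (norm_nonneg _) (norm_nonneg _)
  rw [Real.norm_of_nonneg (Real.rpow_nonneg hgp.le q)]
  exact Real.rpow_le_rpow hgp.le (inv_le hd u) hq.le

lemma measurable_integrand (q : ℝ) (φ f : C(Sph n, ℝ)) :
    Measurable (fun u : Sph n => φ (nu (ex f) u) * (gN (ex f) (u : Eu n))⁻¹ ^ q) :=
  (φ.continuous.measurable.comp (measurable_nu (ex f))).mul
    (continuous_radpow (continuous_ex f) (ex_pos f) q).measurable

/-- convergence of the numerators, for a general bounded function -/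
lemma tendsto_num {q : ℝ} (hq : 0 < q) (φ : C(Sph n, ℝ)) {F : ℕ → C(Sph n, ℝ)}
    {f : C(Sph n, ℝ)} (hF : Tendsto F atTop (𝓝 f)) :
    Tendsto (fun j => ∫ u : Sph n, φ (nu (ex (F j)) u) * (gN (ex (F j)) (u : Eu n))⁻¹ ^ q ∂(sg n))
      atTop (𝓝 (∫ u : Sph n, φ (nu (ex f) u) * (gN (ex f) (u : Eu n))⁻¹ ^ q ∂(sg n))) := by
  have hd : Tendsto (fun j => dist (F j) f) atTop (𝓝 0) := tendsto_iff_dist_tendsto_zero.1 hF
  refine tendsto_integral_filter_of_dominated_convergence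
    (fun u => ‖φ‖ * (Real.exp 1 ^ q * (gN (ex f) (u : Eu n))⁻¹ ^ q)) ?_ ?_ ?_ ?_
  · exact Eventually.of_forall fun j => (measurable_integrand q φ (F j)).aestronglyMeasurable
  · filter_upwards [hd.eventually (gt_mem_nhds zero_lt_one)] with j hj
    exact Eventually.of_forall fun u => norm_integrand_le hq φ hj.le u
  · exact ((integrable_radpow (continuous_ex f) (ex_pos f) q).const_mul _).const_mul _
  · have h1 : ∀ᵐ u ∂(sg n), ∀ j, DifferentiableAt ℝ (gN (ex (F j))) ((u : Sph n) : Eu n) :=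
      ae_all_iff.2 fun j => ae_diff (continuous_ex (F j)) (ex_pos (F j))
    filter_upwards [h1, ae_diff (continuous_ex f) (ex_pos f)] with u hu hu0
    refine Tendsto.mul ?_ ?_
    · exact (φ.continuous.tendsto _).comp (tendsto_nu hF hu0 hu)
    · exact (tendsto_inv hF u).rpow_const
        (Or.inl (inv_pos.2 (gN_pos (continuous_ex f) (ex_pos f) (sph_ne_zero u))).ne')

lemma tendsto_den {q : ℝ} (hq : 0 < q) {F : ℕ → C(Sph n, ℝ)}
    {f : C(Sph n, ℝ)} (hF : Tendsto F atTop (𝓝 f)) :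
    Tendsto (fun j => II q (ex (F j))) atTop (𝓝 (II q (ex f))) := by
  have h1 := tendsto_num hq (1 : C(Sph n, ℝ)) hF
  simpa only [ContinuousMap.one_apply, one_mul, II] using h1

end XAvg

theorem continuous_avg {n : ℕ} [NeZero n] {q : ℝ} (hq : 0 < q) (φ : C(Sph n, ℝ)) :
    Continuous (fun f : C(Sph n, ℝ) => avg q (ex f) φ) := by
  rw [continuous_iff_seqContinuous]
  intro F f hF
  exact (XAvg.tendsto_num hq φ hF).div (XAvg.tendsto_den hq hF)
    (II_pos (continuous_ex f) (ex_pos f) q).ne'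

end Pool.Agent.Lib.MP_b0d2bf_gt
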