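import Mathlib
import Pool.Agent.Lib.MP_b0d2bf_gt.XAvg

set_option autoImplicit false

/-!
Derivative of the penalised functional.
-/

namespace Pool.Agent.Lib.MP_b0d2bf_gt

open MeasureTheory Metric Set Filter Topology

namespace XDF

variable {n : ℕ} [NeZero n] {q : ℝ} {μ σ : Measure (Sph n)}
  [IsProbabilityMeasure μ] [IsProbabilityMeasure σ]

omit [NeZero n] in
lemma dist_bd (f g : C(Sph n, ℝ)) (v : Sph n) : |f v - g v| ≤ dist f g := by
  have := ContinuousMap.dist_apply_le_dist (f := f) (g := g) v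
  rwa [Real.dist_eq] at this

lemma Psi_lip (hq : 0 < q) (f g : C(Sph n, ℝ)) :
    Psi μ q (ex f) ≤ Psi μ q (ex g) + (dist f g + dist f g) :=
  Psi_le_add μ hq (continuous_ex f) (ex_pos f) (continuous_ex g) (ex_pos g)
    (ex_le_of_norm (dist_bd f g)) (ex_le_of_norm (fun v => by
      rw [dist_comm f g]; exact dist_bd g f v))

lemma continuous_Psi_ex (hq : 0 < q) : Continuous fun f : C(Sph n, ℝ) => Psi μ q (ex f) := by
  have : LipschitzWith 2 fun f : C(Sph n, ℝ) => Psi μ q (ex f) := by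
    refine LipschitzWith.of_dist_le_mul fun f g => ?_
    rw [Real.dist_eq, abs_le]
    have h1 := Psi_lip (μ := μ) hq f g
    have h2 := Psi_lip (μ := μ) hq g f
    rw [dist_comm g f] at h2
    simp only [NNReal.coe_ofNat]
    constructor <;> linarith
  exact this.continuous

omit [NeZero n] in
lemma continuous_int (ν : Measure (Sph n)) [IsProbabilityMeasure ν] :
    Continuous fun f : C(Sph n, ℝ) => ∫ v, f v ∂ν := by
  have : LipschitzWith 1 fun f : C(Sph n, ℝ) => ∫ v, f v ∂ν := by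
    refine LipschitzWith.of_dist_le_mul fun f g => ?_
    rw [NNReal.coe_one, one_mul, Real.dist_eq, ← integral_sub (integrable_cm ν f.continuous)
      (integrable_cm ν g.continuous)]
    have h1 := norm_integral_le_of_norm_le_const (μ := ν) (f := fun v => f v - g v)
      (C := dist f g) (Eventually.of_forall fun v => by
        rw [Real.norm_eq_abs]; exact dist_bd f g v)
    rwa [probReal_univ, mul_one, Real.norm_eq_abs] at h1
  exact this.continuous

lemma continuous_Uf : Continuous fun f : C(Sph n, ℝ) => Uf σ μ f := by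
  unfold Uf
  exact (continuous_int σ).sub (continuous_int μ)

omit [NeZero n] in
lemma Uf_add_smul (f φ : C(Sph n, ℝ)) (s : ℝ) :
    Uf σ μ (f + s • φ) = Uf σ μ f + s * Uf σ μ φ := by
  unfold Uf
  have h : ∀ (ν : Measure (Sph n)) [IsProbabilityMeasure ν],
      ∫ v, (f + s • φ : C(Sph n, ℝ)) v ∂ν = ∫ v, f v ∂ν + s * ∫ v, φ v ∂ν := by
    intro ν _
    have h1 : ∀ v, (f + s • φ : C(Sph n, ℝ)) v = f v + s * φ v := fun v => rfl
    simp only [h1]
    rw [integral_add (integrable_cm ν f.continuous) ((integrable_cm ν φ.continuous).const_mul s),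
      integral_const_mul]
  rw [h σ, h μ]
  ring

lemma hasDeriv_zero (hq : 0 < q) (M : ℝ) (f φ : C(Sph n, ℝ)) :
    HasDerivAt (fun s : ℝ => FM q μ σ M (f + s • φ)) (dF q μ σ M f φ) 0 := by
  have hc := continuous_ex f
  have h0 := ex_pos f
  have hex : ∀ s : ℝ, ex (f + s • φ) = ht (ex f) φ s := by
    intro s
    funext v
    unfold ex ht
    rw [← Real.exp_add]
    rfl
  have hpos : 0 < II q (ex f) := II_pos hc h0 q
  have h1 := hasDerivAt_II hc h0 φ.continuous hq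
  have h2 := (h1.log (by rw [ht_zero]; exact hpos.ne')).const_mul (1 / q)
  rw [ht_zero] at h2
  have h3 : HasDerivAt (fun s : ℝ => ∫ v, f v ∂μ + s * ∫ v, φ v ∂μ) (∫ v, φ v ∂μ) 0 := by
    have h5 := (hasDerivAt_id (0:ℝ)).mul_const (∫ v, φ v ∂μ)
    rw [one_mul] at h5
    exact h5.const_add _
  have h4 : HasDerivAt (fun s : ℝ => Uf σ μ f + s * Uf σ μ φ) (Uf σ μ φ) 0 := by
    have h5 := (hasDerivAt_id (0:ℝ)).mul_const (Uf σ μ φ)
    rw [one_mul] at h5
    exact h5.const_add _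
  have h5 : HasDerivAt (fun s : ℝ => pen M (Uf σ μ f + s * Uf σ μ φ))
      (pen' M (Uf σ μ f) * Uf σ μ φ) 0 := by
    have h6 := pen_hasDerivAt M (Uf σ μ f + 0 * Uf σ μ φ)
    rw [zero_mul, add_zero] at h6
    exact HasDerivAt.comp (0:ℝ) (h₂ := pen M) (h := fun s : ℝ => Uf σ μ f + s * Uf σ μ φ)
      (by simpa using h6) h4
  have h6 := (h2.sub h3).sub h5
  have h7 : (fun s : ℝ => FM q μ σ M (f + s • φ)) = fun s : ℝ =>
      (1 / q) * Real.log (II q (ht (ex f) φ s)) - (∫ v, f v ∂μ + s * ∫ v, φ v ∂μ) -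
        pen M (Uf σ μ f + s * Uf σ μ φ) := by
    funext s
    unfold FM
    rw [Psi_ex, Uf_add_smul, hex]
    congr 2
    have h8 : ∀ v, (f + s • φ : C(Sph n, ℝ)) v = f v + s * φ v := fun v => rfl
    simp only [h8]
    rw [integral_add (integrable_cm μ f.continuous) ((integrable_cm μ φ.continuous).const_mul s),
      integral_const_mul]
  rw [h7]
  have h8 : (1 / q) * ((∫ u : Sph n, q * φ (nu (ex f) u) * (gN (ex f) u)⁻¹ ^ q ∂(sg n)) /
      II q (ex f)) = avg q (ex f) φ := by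
    unfold avg
    have h9 : ∫ u : Sph n, q * φ (nu (ex f) u) * (gN (ex f) u)⁻¹ ^ q ∂(sg n) =
        q * ∫ u : Sph n, φ (nu (ex f) u) * (gN (ex f) u)⁻¹ ^ q ∂(sg n) := by
      rw [← integral_const_mul]
      refine integral_congr_ae (Eventually.of_forall fun u => ?_)
      show q * φ (nu (ex f) u) * (gN (ex f) u)⁻¹ ^ q = q * (φ (nu (ex f) u) * (gN (ex f) u)⁻¹ ^ q)
      ring
    rw [h9]
    field_simp
  rw [h8] at h6
  exact h6

lemma hasDeriv (hq : 0 < q) (M : ℝ) (f φ : C(Sph n, ℝ)) (s : ℝ) :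
    HasDerivAt (fun s : ℝ => FM q μ σ M (f + s • φ)) (dF q μ σ M (f + s • φ) φ) s := by
  have h1 := hasDeriv_zero (μ := μ) (σ := σ) hq M (f + s • φ) φ
  have h2 : HasDerivAt (fun t : ℝ => t - s) 1 s := (hasDerivAt_id s).sub_const s
  have h3 : HasDerivAt ((fun t : ℝ => FM q μ σ M (f + s • φ + t • φ)) ∘ fun t : ℝ => t - s)
      (dF q μ σ M (f + s • φ) φ * 1) s :=
    HasDerivAt.comp s (by simpa using h1) h2
  rw [mul_one] at h3
  have h4 : ((fun t : ℝ => FM q μ σ M (f + s • φ + t • φ)) ∘ fun t : ℝ => t - s) =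
      fun t : ℝ => FM q μ σ M (f + t • φ) := by
    funext t
    show FM q μ σ M (f + s • φ + (t - s) • φ) = _
    congr 1
    rw [add_assoc, ← add_smul]
    congr 2
    ring
  rwa [h4] at h3

end XDF

section XDF

variable {n : ℕ} [NeZero n] {G : Subgroup (Eu n ≃ₗᵢ[ℝ] Eu n)} {q : ℝ} {μ σ : Measure (Sph n)}
  [IsProbabilityMeasure μ] [IsProbabilityMeasure σ]

theorem continuous_FM (hq : 0 < q) (M : ℝ) :
    Continuous (fun f : C(Sph n, ℝ) => FM q μ σ M f) := by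
  unfold FM
  exact (XDF.continuous_Psi_ex hq).sub ((continuous_pen M).comp XDF.continuous_Uf)

theorem crit_of_no_push (hq : 0 < q) {M : ℝ} {p φ : XS G}
    (hp : ¬ ∃ δ > 0, ∃ ε > 0, ∀ x ∈ ball p δ, ∀ s ∈ Icc (0:ℝ) δ,
      FM q μ σ M (x : C(Sph n, ℝ)) + ε * s ≤ FM q μ σ M ((x + s • φ : XS G) : C(Sph n, ℝ))) :
    dF q μ σ M (p : C(Sph n, ℝ)) (φ : C(Sph n, ℝ)) ≤ 0 := by
  by_contra hcon
  rw [not_le] at hcon
  apply hp
  set D := dF q μ σ M (p : C(Sph n, ℝ)) (φ : C(Sph n, ℝ)) with hD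
  have hcont : Continuous fun f : C(Sph n, ℝ) => dF q μ σ M f (φ : C(Sph n, ℝ)) := by
    unfold dF
    exact ((continuous_avg hq _).sub continuous_const).sub
      (((continuous_pen' M).comp XDF.continuous_Uf).mul continuous_const)
  have hev : ∀ᶠ f in 𝓝 (p : C(Sph n, ℝ)), D / 2 < dF q μ σ M f (φ : C(Sph n, ℝ)) :=
    hcont.continuousAt.eventually_const_lt (by
      show D / 2 < dF q μ σ M (p : C(Sph n, ℝ)) (φ : C(Sph n, ℝ))
      rw [← hD]; linarith)
  obtain ⟨d, hd, hball⟩ := Metric.eventually_nhds_iff.1 hev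
  set δ := d / (2 * (1 + ‖φ‖)) with hδ
  have hφ : 0 ≤ ‖φ‖ := norm_nonneg φ
  have hδ0 : 0 < δ := by positivity
  have hδd : δ + δ * ‖φ‖ < d := by
    have : δ + δ * ‖φ‖ = d / 2 := by rw [hδ]; field_simp
    rw [this]; linarith
  refine ⟨δ, hδ0, D / 2, by linarith, fun x hx s hs => ?_⟩
  have hder : ∀ t : ℝ, HasDerivAt (fun t : ℝ => FM q μ σ M ((x : C(Sph n, ℝ)) +
      t • (φ : C(Sph n, ℝ)))) (dF q μ σ M ((x : C(Sph n, ℝ)) + t • (φ : C(Sph n, ℝ)))
      (φ : C(Sph n, ℝ))) t := fun t => XDF.hasDeriv hq M _ _ t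
  have hlow : ∀ t ∈ Icc (0:ℝ) s, D / 2 ≤ dF q μ σ M ((x : C(Sph n, ℝ)) +
      t • (φ : C(Sph n, ℝ))) (φ : C(Sph n, ℝ)) := by
    intro t ht
    refine (hball ?_).le
    have h1 : dist ((x : C(Sph n, ℝ)) + t • (φ : C(Sph n, ℝ))) (p : C(Sph n, ℝ)) =
        ‖((x - p : XS G) + t • φ : XS G)‖ := by
      rw [dist_eq_norm]
      show _ = ‖(((x - p : XS G) + t • φ : XS G) : C(Sph n, ℝ))‖
      congr 1
      show (x : C(Sph n, ℝ)) + t • (φ : C(Sph n, ℝ)) - (p : C(Sph n, ℝ)) =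
        (x : C(Sph n, ℝ)) - (p : C(Sph n, ℝ)) + t • (φ : C(Sph n, ℝ))
      abel
    rw [h1]
    have h2 : ‖x - p‖ < δ := by rwa [mem_ball, dist_eq_norm] at hx
    have h3 : ‖t • φ‖ ≤ δ * ‖φ‖ := by
      have h4 : ‖t • φ‖ = ‖t • (φ : C(Sph n, ℝ))‖ := rfl
      have h5 : ‖φ‖ = ‖(φ : C(Sph n, ℝ))‖ := rfl
      rw [h4, h5, norm_smul, Real.norm_eq_abs, abs_of_nonneg ht.1]
      exact mul_le_mul_of_nonneg_right (ht.2.trans hs.2) (norm_nonneg _)
    calc ‖((x - p : XS G) + t • φ : XS G)‖ ≤ ‖x - p‖ + ‖t • φ‖ := norm_add_le _ _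
      _ < d := by linarith
  have hmv := (convex_Icc (0:ℝ) s).mul_sub_le_image_sub_of_le_deriv
    (f := fun t : ℝ => FM q μ σ M ((x : C(Sph n, ℝ)) + t • (φ : C(Sph n, ℝ))))
    (fun t _ => (hder t).continuousAt.continuousWithinAt)
    (fun t _ => (hder t).differentiableAt.differentiableWithinAt) (C := D / 2)
    (fun t ht => by
      rw [(hder t).deriv]
      exact hlow t (interior_subset ht))
    0 ⟨le_rfl, hs.1⟩ s ⟨hs.1, le_rfl⟩ hs.1
  simp only [zero_smul, add_zero, sub_zero] at hmv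
  show FM q μ σ M (x : C(Sph n, ℝ)) + D / 2 * s ≤
    FM q μ σ M ((x : C(Sph n, ℝ)) + s • (φ : C(Sph n, ℝ)))
  linarith

omit [NeZero n] [IsProbabilityMeasure μ] [IsProbabilityMeasure σ] in
theorem dF_neg [NeZero n] (M : ℝ) (f φ : C(Sph n, ℝ)) :
    dF q μ σ M f (-φ) = - dF q μ σ M f φ := by
  unfold dF avg Uf
  have h1 : ∀ v, (-φ : C(Sph n, ℝ)) v = - φ v := fun v => rfl
  simp only [h1, integral_neg, neg_mul]
  ring

end XDF

end Pool.Agent.Lib.MP_b0d2bf_gt
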