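import Mathlib
import Pool.Agent.Lib.MP_b0d2bf_gt.XDefs2

set_option autoImplicit false

/-!
The two classes of heavy subspaces are uniformly separated.
-/

namespace Pool.Agent.Lib.MP_b0d2bf_gt

open MeasureTheory Metric Set Filter Topology

namespace XDelta

variable {n : ℕ}

lemma exists_lim (𝒰 : Ultrafilter ℕ) {y : ℕ → Eu n} (hy : ∀ j, ‖y j‖ ≤ 1) :
    ∃ w, Tendsto y 𝒰 (𝓝 w) := by
  have hK : IsCompact (closedBall (0 : Eu n) 1) := isCompact_closedBall 0 1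
  have h1 : ((𝒰.map y : Ultrafilter (Eu n)) : Filter (Eu n)) ≤ 𝓟 (closedBall (0 : Eu n) 1) := by
    rw [Ultrafilter.coe_map]
    have h2 : Tendsto y 𝒰 (𝓟 (closedBall (0 : Eu n) 1)) := by
      rw [tendsto_principal]
      exact Eventually.of_forall fun j => by simpa using hy j
    exact h2
  obtain ⟨w, -, hw⟩ := hK.ultrafilter_le_nhds _ h1
  exact ⟨w, hw⟩

lemma near (𝒰 : Ultrafilter ℕ) (W : ℕ → Submodule ℝ (Eu n)) {δ : ℝ} (hδ : 0 < δ) :
    ∀ᶠ j in (𝒰 : Filter ℕ), ∀ v : Sph n, (v : Eu n) ∈ W j →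
      infDist (v : Eu n) (limW 𝒰 W : Set (Eu n)) < δ := by
  classical
  by_contra hcon
  rw [← Ultrafilter.eventually_not] at hcon
  have h0 : ∀ j, ∃ y : Eu n, y ∈ W j ∧ ‖y‖ ≤ 1 ∧
      ((¬ ∀ v : Sph n, (v : Eu n) ∈ W j → infDist (v : Eu n) (limW 𝒰 W : Set (Eu n)) < δ) →
        δ ≤ infDist y (limW 𝒰 W : Set (Eu n))) := by
    intro j
    by_cases h : ∀ v : Sph n, (v : Eu n) ∈ W j → infDist (v : Eu n) (limW 𝒰 W : Set (Eu n)) < δ
    · exact ⟨0, (W j).zero_mem, by simp, fun h' => absurd h h'⟩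
    · have h' := h
      push Not at h'
      obtain ⟨v, hv, hv2⟩ := h'
      exact ⟨v, hv, (norm_sph v).le, fun _ => hv2⟩
  choose y hy1 hy2 hy3 using h0
  obtain ⟨w, hw⟩ := exists_lim 𝒰 hy2
  have hwW : w ∈ (limW 𝒰 W : Set (Eu n)) := ⟨y, hy1, hw⟩
  have h1 : Tendsto (fun j => infDist (y j) (limW 𝒰 W : Set (Eu n))) 𝒰
      (𝓝 (infDist w (limW 𝒰 W : Set (Eu n)))) :=
    ((continuous_infDist_pt _).tendsto w).comp hw
  rw [infDist_zero_of_mem hwW] at h1
  have h2 : ∀ᶠ j in (𝒰 : Filter ℕ), δ ≤ infDist (y j) (limW 𝒰 W : Set (Eu n)) :=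
    hcon.mono fun j hj => hy3 j hj
  have h3 : δ ≤ 0 := ge_of_tendsto h1 h2
  linarith

lemma lim_inv {G : Subgroup (Eu n ≃ₗᵢ[ℝ] Eu n)} (𝒰 : Ultrafilter ℕ)
    {W : ℕ → Submodule ℝ (Eu n)} (hW : ∀ j, SInv G (W j)) : SInv G (limW 𝒰 W) := by
  rintro g hg x ⟨y, hy, hyx⟩
  exact ⟨fun j => g (y j), fun j => hW j g hg _ (hy j), (g.continuous.tendsto x).comp hyx⟩

lemma exists_dim (𝒰 : Ultrafilter ℕ) (W : ℕ → Submodule ℝ (Eu n)) :
    ∃ d : ℕ, ∀ᶠ j in (𝒰 : Filter ℕ), Module.finrank ℝ (W j) = d := by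
  have h1 : (⋃ d ∈ (Finset.range (n + 1) : Set ℕ), {j | Module.finrank ℝ (W j) = d}) ∈ 𝒰 := by
    have h2 : (⋃ d ∈ (Finset.range (n + 1) : Set ℕ), {j | Module.finrank ℝ (W j) = d}) = univ := by
      ext j
      simp only [mem_iUnion, mem_ofPred_eq, exists_prop, mem_univ, iff_true]
      refine ⟨Module.finrank ℝ (W j), ?_, rfl⟩
      have := Submodule.finrank_le (W j)
      rw [finrank_euclideanSpace_fin] at this
      simpa using Nat.lt_succ_of_le this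
    rw [h2]
    exact Filter.univ_mem
  rw [Ultrafilter.finite_biUnion_mem_iff (Finset.finite_toSet _)] at h1
  obtain ⟨d, -, hd⟩ := h1
  exact ⟨d, hd⟩

lemma exists_frame (W : Submodule ℝ (Eu n)) (d : ℕ) :
    ∃ w : Fin d → Eu n, (∀ i, w i ∈ W) ∧ (∀ i, ‖w i‖ ≤ 1) ∧
      (Module.finrank ℝ W = d → Orthonormal ℝ w ∧
        ∀ z ∈ W, z = ∑ i, inner ℝ (w i) z • w i) := by
  by_cases h : Module.finrank ℝ W = d
  · subst h
    let b := stdOrthonormalBasis ℝ W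
    refine ⟨fun i => (b i : Eu n), fun i => (b i).2, fun i => ?_, fun _ => ⟨?_, ?_⟩⟩
    · have := b.orthonormal.1 i
      rw [Submodule.norm_coe, this]
    · exact b.orthonormal.comp_linearIsometry W.subtypeₗᵢ
    · intro z hz
      have h1 := b.sum_repr' ⟨z, hz⟩
      have h2 := congrArg (Submodule.subtype W) h1
      rw [map_sum] at h2
      simp only [map_smul, Submodule.subtype_apply, Submodule.coe_inner] at h2
      exact h2.symm
  · exact ⟨fun _ => 0, fun _ => W.zero_mem, fun _ => by simp, fun h' => absurd h' h⟩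

lemma finrank_lim (𝒰 : Ultrafilter ℕ) {W : ℕ → Submodule ℝ (Eu n)} {d : ℕ}
    (hd : ∀ᶠ j in (𝒰 : Filter ℕ), Module.finrank ℝ (W j) = d) :
    Module.finrank ℝ (limW 𝒰 W) = d := by
  classical
  choose w hw1 hw2 hw3 using fun j => exists_frame (W j) d
  choose u hu using fun i => exists_lim 𝒰 (fun j => hw2 j i)
  have hin : ∀ i k, Tendsto (fun j => inner ℝ (w j i) (w j k)) 𝒰 (𝓝 (inner ℝ (u i) (u k))) :=
    fun i k => (hu i).inner (hu k)
  have hon : Orthonormal ℝ u := by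
    rw [orthonormal_iff_ite]
    intro i k
    refine tendsto_nhds_unique (hin i k) ?_
    refine Tendsto.congr' ?_ tendsto_const_nhds
    filter_upwards [hd] with j hj
    have := (hw3 j hj).1
    rw [orthonormal_iff_ite] at this
    exact (this i k).symm
  have hmem : ∀ i, u i ∈ limW 𝒰 W := fun i => ⟨fun j => w j i, fun j => hw1 j i, hu i⟩
  have hspan : limW 𝒰 W = Submodule.span ℝ (range u) := by
    apply le_antisymm
    · rintro z ⟨y, hy, hyz⟩
      have h1 : Tendsto (fun j => ∑ i, inner ℝ (w j i) (y j) • w j i) 𝒰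
          (𝓝 (∑ i, inner ℝ (u i) z • u i)) :=
        tendsto_finsetSum _ fun i _ => ((hu i).inner hyz).smul (hu i)
      have h2 : Tendsto (fun j => ∑ i, inner ℝ (w j i) (y j) • w j i) 𝒰 (𝓝 z) := by
        refine Tendsto.congr' ?_ hyz
        filter_upwards [hd] with j hj
        exact (hw3 j hj).2 _ (hy j)
      rw [tendsto_nhds_unique h2 h1]
      exact Submodule.sum_mem _ fun i _ =>
        Submodule.smul_mem _ _ (Submodule.subset_span (mem_range_self i))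
    · rw [Submodule.span_le]
      rintro _ ⟨i, rfl⟩
      exact hmem i
  rw [hspan, finrank_span_eq_card hon.linearIndependent, Fintype.card_fin]

lemma mass_near' (μ : Measure (Sph n)) [IsFiniteMeasure μ] (L : Submodule ℝ (Eu n)) {η : ℝ}
    (hη : 0 < η) :
    ∃ δ > 0, μ.real {v : Sph n | infDist (v : Eu n) (L : Set (Eu n)) < δ} < mass μ L + η := by
  have hcl : IsClosed (L : Set (Eu n)) := L.closed_of_finiteDimensional
  have hne : (L : Set (Eu n)).Nonempty := ⟨0, L.zero_mem⟩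
  let s : ℕ → Set (Sph n) := fun m =>
    {v : Sph n | infDist (v : Eu n) (L : Set (Eu n)) < 1 / ((m : ℝ) + 1)}
  have hmeas : ∀ m, MeasurableSet (s m) := fun m =>
    (isOpen_lt ((continuous_infDist_pt _).comp continuous_subtype_val)
      continuous_const).measurableSet
  have hanti : Antitone s := by
    intro a b hab v hv
    have h1 : (1:ℝ) / ((b : ℝ) + 1) ≤ 1 / ((a : ℝ) + 1) := by
      apply one_div_le_one_div_of_le (by positivity)
      have : (a : ℝ) ≤ b := by exact_mod_cast hab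
      linarith
    exact lt_of_lt_of_le hv h1
  have hint : ⋂ m, s m = {v : Sph n | (v : Eu n) ∈ L} := by
    ext v
    simp only [s, mem_iInter, mem_ofPred_eq]
    constructor
    · intro h
      have h1 : infDist (v : Eu n) (L : Set (Eu n)) ≤ 0 := by
        refine le_of_forall_pos_le_add fun ε hε => ?_
        obtain ⟨m, hm⟩ := exists_nat_one_div_lt hε
        have := h m
        linarith
      have h2 : infDist (v : Eu n) (L : Set (Eu n)) = 0 := le_antisymm h1 infDist_nonneg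
      exact (hcl.mem_iff_infDist_zero hne).2 h2
    · intro h m
      rw [infDist_zero_of_mem (show (v : Eu n) ∈ (L : Set (Eu n)) from h)]
      positivity
  have hlim := tendsto_measure_iInter_atTop (μ := μ) (s := s)
    (fun m => (hmeas m).nullMeasurableSet) hanti ⟨0, measure_ne_top _ _⟩
  rw [hint] at hlim
  have hlim2 : Tendsto (fun m => μ.real (s m)) atTop (𝓝 (mass μ L)) :=
    (ENNReal.tendsto_toReal (measure_ne_top _ _)).comp hlim
  have h3 : ∀ᶠ m in atTop, μ.real (s m) < mass μ L + η :=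
    hlim2.eventually_lt_const (by linarith)
  obtain ⟨m, hm⟩ := h3.exists
  exact ⟨1 / ((m : ℝ) + 1), by positivity, hm⟩

lemma mass_bot (μ : Measure (Sph n)) : mass μ (⊥ : Submodule ℝ (Eu n)) = 0 := by
  have : {v : Sph n | (v : Eu n) ∈ (⊥ : Submodule ℝ (Eu n))} = ∅ := by
    ext v
    simp only [mem_ofPred_eq, Submodule.mem_bot, mem_empty_iff_false, iff_false]
    intro h
    have := norm_sph v
    rw [h, norm_zero] at this
    exact zero_ne_one this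
  unfold mass
  rw [this, measureReal_empty]

lemma measurable_sub (L : Submodule ℝ (Eu n)) : MeasurableSet {v : Sph n | (v : Eu n) ∈ L} :=
  (L.closed_of_finiteDimensional.preimage continuous_subtype_val).measurableSet

variable {G : Subgroup (Eu n ≃ₗᵢ[ℝ] Eu n)} {μ : Measure (Sph n)} [IsFiniteMeasure μ] {q : ℝ}

lemma heavy_lim (hnd : Nondeg G q μ) (𝒰 : Ultrafilter ℕ) {W : ℕ → Submodule ℝ (Eu n)}
    (hW : ∀ j, Heavy G q μ (W j)) : Heavy G q μ (limW 𝒰 W) := by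
  obtain ⟨d, hd⟩ := exists_dim 𝒰 W
  have hfr := finrank_lim 𝒰 hd
  obtain ⟨j0, hj0⟩ := hd.exists
  have hne : 𝒰.NeBot := inferInstance
  have hbot : limW 𝒰 W ≠ ⊥ := by
    intro h
    rw [h, finrank_bot] at hfr
    rw [← hfr] at hj0
    exact (hW j0).2.1 (Submodule.finrank_eq_zero.1 hj0)
  have htop : limW 𝒰 W ≠ ⊤ := by
    intro h
    rw [h, finrank_top] at hfr
    rw [← hfr] at hj0
    exact (hW j0).2.2.1 (Submodule.eq_top_of_finrank_eq hj0)
  have hinv : SInv G (limW 𝒰 W) := lim_inv 𝒰 fun j => (hW j).1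
  have hge : (Module.finrank ℝ (limW 𝒰 W) : ℝ) / q ≤ mass μ (limW 𝒰 W) := by
    refine le_of_forall_pos_le_add fun η hη => ?_
    obtain ⟨δ, hδ, hm⟩ := mass_near' μ (limW 𝒰 W) hη
    obtain ⟨j, hj1, hj2⟩ := (hd.and (near 𝒰 W hδ)).exists
    have h1 := (hW j).2.2.2
    rw [hj1, ← hfr] at h1
    have h2 : mass μ (W j) ≤
        μ.real {v : Sph n | infDist (v : Eu n) (limW 𝒰 W : Set (Eu n)) < δ} :=
      measureReal_mono (fun v hv => hj2 v hv)
    linarith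
  exact ⟨hinv, hbot, htop, lt_of_le_of_ne hge (hnd _ hinv hbot htop).symm⟩

lemma lim_mem (hq : 0 < q) (hnd : Nondeg G q μ) {A B : Set (Submodule ℝ (Eu n))}
    (hS : Split G q μ A B) (𝒰 : Ultrafilter ℕ) {W : ℕ → Submodule ℝ (Eu n)}
    (hW : ∀ j, W j ∈ A) : limW 𝒰 W ∈ A := by
  have hH : ∀ j, Heavy G q μ (W j) := fun j => (hS.heavy _).2 (Or.inl (hW j))
  have hL := heavy_lim hnd 𝒰 hH
  rcases (hS.heavy _).1 hL with h | h
  · exact h
  exfalso
  obtain ⟨d, hd⟩ := exists_dim 𝒰 W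
  have hfr := finrank_lim 𝒰 hd
  obtain ⟨δ, hδ, hm⟩ := mass_near' μ (limW 𝒰 W) (one_div_pos.2 hq)
  obtain ⟨j, hj1, hj2⟩ := (hd.and (near 𝒰 W hδ)).exists
  have hsep := (hS.sep _ (hW j) _ h).1
  have hlt : Module.finrank ℝ (W j ⊓ limW 𝒰 W : Submodule ℝ (Eu n)) < d := by
    rw [← hj1]
    apply Submodule.finrank_lt_finrank_of_lt
    refine lt_of_le_of_ne inf_le_left fun heq => hsep ?_
    rw [← heq]
    exact inf_le_right
  have h1 := (hH j).2.2.2
  rw [hj1] at h1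
  -- mass of the intersection
  have h2 : mass μ (W j) ≤ mass μ (W j ⊓ limW 𝒰 W) +
      μ.real ({v : Sph n | infDist (v : Eu n) (limW 𝒰 W : Set (Eu n)) < δ} \
        {v : Sph n | (v : Eu n) ∈ limW 𝒰 W}) := by
    refine le_trans (measureReal_mono ?_) (measureReal_union_le _ _)
    intro v hv
    by_cases hv2 : (v : Eu n) ∈ limW 𝒰 W
    · exact Or.inl ⟨hv, hv2⟩
    · exact Or.inr ⟨hj2 v hv, hv2⟩
  have h3 : μ.real ({v : Sph n | infDist (v : Eu n) (limW 𝒰 W : Set (Eu n)) < δ} \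
        {v : Sph n | (v : Eu n) ∈ limW 𝒰 W}) =
      μ.real {v : Sph n | infDist (v : Eu n) (limW 𝒰 W : Set (Eu n)) < δ} -
        mass μ (limW 𝒰 W) := by
    unfold mass
    rw [measureReal_sdiff (fun v hv => ?_) (measurable_sub _)]
    show infDist (v : Eu n) (limW 𝒰 W : Set (Eu n)) < δ
    rw [infDist_zero_of_mem (show (v : Eu n) ∈ (limW 𝒰 W : Set (Eu n)) from hv)]
    exact hδ
  have h4 : ((d : ℝ) - 1) / q < mass μ (W j ⊓ limW 𝒰 W) := by
    rw [sub_div]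
    linarith
  have h5 : ((Module.finrank ℝ (W j ⊓ limW 𝒰 W : Submodule ℝ (Eu n)) : ℕ) : ℝ) ≤ (d : ℝ) - 1 := by
    have : Module.finrank ℝ (W j ⊓ limW 𝒰 W : Submodule ℝ (Eu n)) + 1 ≤ d := hlt
    have h6 : ((Module.finrank ℝ (W j ⊓ limW 𝒰 W : Submodule ℝ (Eu n)) + 1 : ℕ) : ℝ) ≤ (d : ℝ) := by
      exact_mod_cast this
    push_cast at h6
    linarith
  have h7 : ((Module.finrank ℝ (W j ⊓ limW 𝒰 W : Submodule ℝ (Eu n)) : ℕ) : ℝ) / q <
      mass μ (W j ⊓ limW 𝒰 W) :=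
    lt_of_le_of_lt (div_le_div_of_nonneg_right h5 hq.le) h4
  have h8 : Heavy G q μ (W j ⊓ limW 𝒰 W) := by
    refine ⟨fun g hg x hx => ⟨(hH j).1 g hg x hx.1, hL.1 g hg x hx.2⟩, ?_, ?_, h7⟩
    · intro hb
      rw [hb, mass_bot, finrank_bot] at h7
      simp at h7
    · intro ht
      exact (hH j).2.2.1 (top_le_iff.1 (ht ▸ inf_le_left))
  rcases (hS.heavy _).1 h8 with h9 | h9
  · exact (hS.sep _ h9 _ h).1 inf_le_right
  · exact (hS.sep _ (hW j) _ h9).2 inf_le_left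

lemma one_side (hq : 0 < q) (hnd : Nondeg G q μ) {A B : Set (Submodule ℝ (Eu n))}
    (hS : Split G q μ A B) :
    ∃ δ : ℝ, 0 < δ ∧ δ < 1 ∧ ∀ W ∈ A, ∀ L ∈ B,
      ∃ v : Sph n, (v : Eu n) ∈ W ∧ δ ≤ infDist (v : Eu n) (L : Set (Eu n)) := by
  by_contra hcon
  push Not at hcon
  have h0 : ∀ j : ℕ, ∃ W ∈ A, ∃ L ∈ B, ∀ v : Sph n, (v : Eu n) ∈ W →
      infDist (v : Eu n) (L : Set (Eu n)) < 1 / ((j : ℝ) + 2) := fun j =>
    hcon (1 / ((j : ℝ) + 2)) (by positivity) (by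
      rw [div_lt_one (by positivity)]
      have : (0:ℝ) ≤ j := Nat.cast_nonneg j
      linarith)
  choose W hW L hL hWL using h0
  let 𝒰 : Ultrafilter ℕ := hyperfilter ℕ
  have h𝒰 : (𝒰 : Filter ℕ) ≤ atTop := by
    rw [← Nat.cofinite_eq_atTop]
    exact hyperfilter_le_cofinite
  have hA : limW 𝒰 W ∈ A := lim_mem hq hnd hS 𝒰 hW
  have hB : limW 𝒰 L ∈ B := lim_mem hq hnd hS.symm 𝒰 hL
  refine (hS.sep _ hA _ hB).1 ?_
  rintro z ⟨y, hy, hyz⟩
  have h1 : ∀ j, ∃ l ∈ L j, ‖y j - l‖ ≤ ‖y j‖ * (1 / ((j : ℝ) + 2)) := by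
    intro j
    by_cases h : y j = 0
    · exact ⟨0, (L j).zero_mem, by simp [h]⟩
    · have hn : ‖y j‖ ≠ 0 := norm_ne_zero_iff.2 h
      let v : Sph n := ⟨‖y j‖⁻¹ • y j, by
        rw [mem_sphere_zero_iff_norm, norm_smul, norm_inv, norm_norm, inv_mul_cancel₀ hn]⟩
      have hv : (v : Eu n) ∈ W j := (W j).smul_mem _ (hy j)
      have h2 := hWL j v hv
      rw [infDist_lt_iff ⟨0, (L j).zero_mem⟩] at h2
      obtain ⟨l, hl, hl2⟩ := h2
      refine ⟨‖y j‖ • l, (L j).smul_mem _ hl, ?_⟩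
      have h3 : y j - ‖y j‖ • l = ‖y j‖ • ((v : Eu n) - l) := by
        rw [smul_sub]
        congr 1
        show y j = ‖y j‖ • (‖y j‖⁻¹ • y j)
        rw [smul_smul, mul_inv_cancel₀ hn, one_smul]
      rw [h3, norm_smul, norm_norm, ← dist_eq_norm]
      exact mul_le_mul_of_nonneg_left hl2.le (norm_nonneg _)
  choose l hl hl2 using h1
  refine ⟨l, hl, ?_⟩
  have h4 : Tendsto (fun j : ℕ => ‖y j‖ * (1 / ((j : ℝ) + 2))) 𝒰 (𝓝 0) := by
    have h5 : Tendsto (fun j : ℕ => (1 / ((j : ℝ) + 2))) atTop (𝓝 0) :=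
      tendsto_const_nhds.div_atTop
        (tendsto_atTop_add_const_right _ _ tendsto_natCast_atTop_atTop)
    have h6 := hyz.norm.mul (h5.mono_left h𝒰)
    rwa [mul_zero] at h6
  have h7 : Tendsto (fun j => y j - l j) 𝒰 (𝓝 0) :=
    squeeze_zero_norm hl2 h4
  have h8 := hyz.sub h7
  simpa using h8

end XDelta

theorem split_delta {n : ℕ} [NeZero n] {G : Subgroup (Eu n ≃ₗᵢ[ℝ] Eu n)}
    (μ : Measure (Sph n)) [IsFiniteMeasure μ] {q : ℝ} (hq : 0 < q) (hnd : Nondeg G q μ)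
    {A B : Set (Submodule ℝ (Eu n))} (hS : Split G q μ A B) :
    ∃ δ : ℝ, 0 < δ ∧ δ < 1 ∧ ∀ W ∈ A, ∀ L ∈ B,
      (∃ v : Sph n, (v : Eu n) ∈ W ∧ δ ≤ infDist (v : Eu n) (L : Set (Eu n))) ∧
      ∃ v : Sph n, (v : Eu n) ∈ L ∧ δ ≤ infDist (v : Eu n) (W : Set (Eu n)) := by
  obtain ⟨δ₁, h1, h2, h3⟩ := XDelta.one_side hq hnd hS
  obtain ⟨δ₂, h4, h5, h6⟩ := XDelta.one_side hq hnd hS.symm
  refine ⟨min δ₁ δ₂, lt_min h1 h4, lt_of_le_of_lt (min_le_left _ _) h2, fun W hW L hL => ⟨?_, ?_⟩⟩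
  · obtain ⟨v, hv, hv2⟩ := h3 W hW L hL
    exact ⟨v, hv, (min_le_left _ _).trans hv2⟩
  · obtain ⟨v, hv, hv2⟩ := h6 L hL W hW
    exact ⟨v, hv, (min_le_right _ _).trans hv2⟩

end Pool.Agent.Lib.MP_b0d2bf_gt
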