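import Mathlib
import Pool.Agent.Lib.MP_b0d2bf_gt.XDefs2
import Pool.Agent.Lib.MP_b0d2bf_gt.XTl
import Pool.Agent.Lib.MP_b0d2bf_gt.XLim
import Pool.Agent.Lib.MP_b0d2bf_gt.XDiag
import Pool.Agent.Lib.MP_b0d2bf_gt.XQuant

set_option autoImplicit false

/-!
Lower bound for the bodies with functional bounded below if no invariant subspace is heavy.
-/

namespace Pool.Agent.Lib.MP_b0d2bf_gt

open MeasureTheory Metric Set Filter Topology

namespace XLight

lemma mass_bot {n : ℕ} (μ : Measure (Sph n)) : mass μ (⊥ : Submodule ℝ (Eu n)) = 0 := by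
  have h1 : {v : Sph n | (v : Eu n) ∈ (⊥ : Submodule ℝ (Eu n))} = ∅ := by
    ext v
    constructor
    · intro hv
      exact absurd ((Submodule.mem_bot ℝ).1 hv) (sph_ne_zero v)
    · intro hv
      exact absurd hv (notMem_empty v)
  unfold mass
  rw [h1, measureReal_empty]

lemma finrank_limS {n : ℕ} [NeZero n] {G : Subgroup (Eu n ≃ₗᵢ[ℝ] Eu n)} {𝒰 : Ultrafilter ℕ}
    {h : ℕ → Sph n → ℝ} {b : ℕ → OrthonormalBasis (Fin n) ℝ (Eu n)} {a : ℕ → Fin n → ℝ}
    {e : OrthonormalBasis (Fin n) ℝ (Eu n)} (S : Sq G 𝒰 h b a e) {r : ℕ → ℝ}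
    (hr : ∀ j, 0 < r j) {k : Fin n}
    (hk : Tendsto (fun j => r j / a j (pr k)) 𝒰 (𝓝 0)) :
    (Module.finrank ℝ (limS 𝒰 h r) : ℝ) ≤ (n : ℝ) - k := by
  have h1 := Submodule.finrank_mono (limS_le_tl S hr hk)
  rw [finrank_tl] at h1
  have h2 : ((n - (k : ℕ) : ℕ) : ℝ) = (n : ℝ) - k := by
    rw [Nat.cast_sub k.2.le]
  rw [← h2]
  exact_mod_cast h1

/-- the claim: for every index the box level set has less than critical mass -/
lemma level {n : ℕ} [NeZero n] {G : Subgroup (Eu n ≃ₗᵢ[ℝ] Eu n)}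
    (μ : Measure (Sph n)) [IsProbabilityMeasure μ] {q : ℝ} (hq : (n : ℝ) < q)
    (hL : ∀ L : Submodule ℝ (Eu n), SInv G L → L ≠ ⊥ → L ≠ ⊤ →
      mass μ L < Module.finrank ℝ L / q) {𝒰 : Ultrafilter ℕ} (h𝒰 : (𝒰 : Filter ℕ) ≤ atTop)
    {h : ℕ → Sph n → ℝ} {b : ℕ → OrthonormalBasis (Fin n) ℝ (Eu n)} {a : ℕ → Fin n → ℝ}
    {e : OrthonormalBasis (Fin n) ℝ (Eu n)} (S : Sq G 𝒰 h b a e) (k : Fin n)
    (hk0 : 0 < (k : ℕ)) :
    ∃ m : ℕ, ∀ᶠ j in (𝒰 : Filter ℕ),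
      μ.real {v | h j v < (1 / ((m : ℝ) + 1)) * a j (pr k)} ≤
        ((n : ℝ) - k) / q - 1 / ((m : ℝ) + 1) := by
  have hn : (0:ℝ) < n := by exact_mod_cast NeZero.pos n
  have hq0 : 0 < q := hn.trans hq
  by_contra hcon
  push Not at hcon
  have h1 : ∀ m : ℕ, ∀ᶠ j in (𝒰 : Filter ℕ), ((n : ℝ) - k) / q - 1 / ((m : ℝ) + 1) <
      μ.real {v | h j v < (1 / ((m : ℝ) + 1)) * a j (pr k)} := by
    intro m
    exact (hcon m).mono fun j hj => hj
  obtain ⟨m, hm, hP⟩ := diag h𝒰 h1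
  have hm1 : Tendsto (fun j => 1 / ((m j : ℝ) + 1)) 𝒰 (𝓝 0) :=
    tendsto_one_div_add_atTop_nhds_zero_nat.comp hm
  have hmp : ∀ j, (0:ℝ) < 1 / ((m j : ℝ) + 1) := fun j => by positivity
  have hr : ∀ j, 0 < (1 / ((m j : ℝ) + 1)) * a j (pr k) := fun j =>
    mul_pos (hmp j) ((S.bx j).pos _)
  have hrk : Tendsto (fun j => ((1 / ((m j : ℝ) + 1)) * a j (pr k)) / a j (pr k)) 𝒰 (𝓝 0) := by
    refine hm1.congr fun j => ?_
    rw [mul_div_assoc, div_self ((S.bx j).pos _).ne', mul_one]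
  have hfr := finrank_limS S hr hrk
  have hmass : ((n : ℝ) - k) / q ≤
      mass μ (limS 𝒰 h (fun j => (1 / ((m j : ℝ) + 1)) * a j (pr k))) := by
    refine le_of_forall_pos_le_add fun η hη => ?_
    have h3 : ((n : ℝ) - k) / q - η ≤
        mass μ (limS 𝒰 h (fun j => (1 / ((m j : ℝ) + 1)) * a j (pr k))) := by
      refine mass_limS μ S.bd hr (C := 1) ?_
      filter_upwards [hP, hm1.eventually (gt_mem_nhds hη)] with j h4 h5
      have h6 : μ.real {v | h j v < (1 / ((m j : ℝ) + 1)) * a j (pr k)} ≤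
          μ.real {v | h j v ≤ 1 * ((1 / ((m j : ℝ) + 1)) * a j (pr k))} := by
        refine measureReal_mono fun v hv => ?_
        have hv' : h j v < (1 / ((m j : ℝ) + 1)) * a j (pr k) := hv
        show h j v ≤ 1 * ((1 / ((m j : ℝ) + 1)) * a j (pr k))
        rw [one_mul]
        exact hv'.le
      linarith
    linarith
  have hkn : (k : ℝ) < n := by exact_mod_cast k.2
  have hk0' : (0:ℝ) < k := by exact_mod_cast hk0
  have hpos : 0 < ((n : ℝ) - k) / q := div_pos (by linarith) hq0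
  have hbot : limS 𝒰 h (fun j => (1 / ((m j : ℝ) + 1)) * a j (pr k)) ≠ ⊥ := by
    intro h7
    rw [h7, mass_bot] at hmass
    linarith
  have htop : limS 𝒰 h (fun j => (1 / ((m j : ℝ) + 1)) * a j (pr k)) ≠ ⊤ := by
    intro h7
    rw [h7, finrank_top, finrank_euclideanSpace_fin] at hfr
    linarith
  have h8 := hL _ (limS_inv S.bd hr) hbot htop
  have h9 : (Module.finrank ℝ (limS 𝒰 h (fun j => (1 / ((m j : ℝ) + 1)) * a j (pr k))) : ℝ) / q ≤
      ((n : ℝ) - k) / q := div_le_div_of_nonneg_right hfr hq0.le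
  linarith

end XLight

theorem light_bound {n : ℕ} [NeZero n] {G : Subgroup (Eu n ≃ₗᵢ[ℝ] Eu n)}
    (μ : Measure (Sph n)) [IsProbabilityMeasure μ] {q : ℝ} (hq : (n : ℝ) < q)
    (hL : ∀ L : Submodule ℝ (Eu n), SInv G L → L ≠ ⊥ → L ≠ ⊤ →
      mass μ L < Module.finrank ℝ L / q) (P : ℝ) :
    ∃ c > 0, ∀ h : Sph n → ℝ, Bd G h → P ≤ Psi μ q h → ∀ v, c ≤ h v := by
  have hn : (0:ℝ) < n := by exact_mod_cast NeZero.pos n
  by_contra hcon
  push Not at hcon
  have h1 : ∀ j : ℕ, ∃ h : Sph n → ℝ, Bd G h ∧ P ≤ Psi μ q h ∧ ∃ v, h v < 1 / ((j : ℝ) + 1) := by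
    intro j
    obtain ⟨h, h2, h3, h4⟩ := hcon (1 / ((j : ℝ) + 1)) (by positivity)
    exact ⟨h, h2, h3, h4⟩
  choose h hB hP v hv using h1
  have h2 : ∀ j, ∃ b a, Bx (h j) b a := fun j =>
    exists_Bx (hB j).cont (hB j).pos (hB j).even (hB j).supp
  choose b a hba using h2
  obtain ⟨e, he⟩ := exists_limit_basis (hyperfilter ℕ) b
  have S : Sq G (hyperfilter ℕ) h b a e := ⟨hB, hba, he⟩
  have h𝒰 : ((hyperfilter ℕ : Ultrafilter ℕ) : Filter ℕ) ≤ atTop := Nat.hyperfilter_le_atTop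
  have h3 : ∀ k : Fin n, ∃ m : ℕ, 0 < (k : ℕ) → ∀ᶠ j in ((hyperfilter ℕ : Ultrafilter ℕ) : Filter ℕ),
      μ.real {v | h j v < (1 / ((m : ℝ) + 1)) * a j (pr k)} ≤
        ((n : ℝ) - k) / q - 1 / ((m : ℝ) + 1) := by
    intro k
    by_cases hk : 0 < (k : ℕ)
    · obtain ⟨m, hm⟩ := XLight.level μ hq hL h𝒰 S k hk
      exact ⟨m, fun _ => hm⟩
    · exact ⟨0, fun h => absurd h hk⟩
  choose m hm using h3
  obtain ⟨M, hMn, hM⟩ : ∃ M : ℕ, n ≤ M ∧ ∀ k, m k ≤ M := by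
    refine ⟨n + ∑ k, m k, Nat.le_add_right _ _, fun k => ?_⟩
    exact (Finset.single_le_sum (fun i _ => Nat.zero_le (m i)) (Finset.mem_univ k)).trans
      (Nat.le_add_left _ _)
  have hε : (0:ℝ) < 1 / ((M : ℝ) + 1) := by positivity
  have hε1 : 1 / ((M : ℝ) + 1) * n ≤ 1 := by
    rw [one_div_mul_eq_div, div_le_one (by positivity)]
    have : (n : ℝ) ≤ M := by exact_mod_cast hMn
    linarith
  obtain ⟨C, hC⟩ := quant μ hq.le hε hε1
  have h4 : ∀ᶠ j in ((hyperfilter ℕ : Ultrafilter ℕ) : Filter ℕ), ∀ k : Fin n, 0 < (k : ℕ) →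
      μ.real {v | h j v < (1 / ((M : ℝ) + 1)) * a j (pr k)} ≤
        ((n : ℝ) - k) / q - 1 / ((M : ℝ) + 1) := by
    rw [eventually_all]
    intro k
    by_cases hk : 0 < (k : ℕ)
    · filter_upwards [hm k hk] with j hj _
      have hle : 1 / ((M : ℝ) + 1) ≤ 1 / ((m k : ℝ) + 1) := by
        apply one_div_le_one_div_of_le (by positivity)
        have : (m k : ℝ) ≤ M := by exact_mod_cast hM k
        linarith
      have h5 : μ.real {v | h j v < (1 / ((M : ℝ) + 1)) * a j (pr k)} ≤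
          μ.real {v | h j v < (1 / ((m k : ℝ) + 1)) * a j (pr k)} := by
        refine measureReal_mono fun w hw => ?_
        have hw' : h j w < (1 / ((M : ℝ) + 1)) * a j (pr k) := hw
        exact hw'.trans_le (mul_le_mul_of_nonneg_right hle ((hba j).pos _).le)
      linarith
    · exact Eventually.of_forall fun j h => absurd h hk
  have hlim : Tendsto (fun j : ℕ => (1 / ((M : ℝ) + 1)) *
      (Real.log ((j : ℝ) + 1) - 2 * Real.log n)) ((hyperfilter ℕ : Ultrafilter ℕ) : Filter ℕ)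
      atTop := by
    refine Tendsto.const_mul_atTop hε ?_
    refine tendsto_atTop_add_const_right _ _ ?_
    refine Real.tendsto_log_atTop.comp ?_
    refine tendsto_atTop_add_const_right _ _ ?_
    exact tendsto_natCast_atTop_atTop.mono_left h𝒰
  obtain ⟨j, h5, h6⟩ := (h4.and (hlim.eventually (eventually_gt_atTop (C - P)))).exists
  let i0 : Fin n := ⟨0, NeZero.pos n⟩
  let il : Fin n := ⟨n - 1, Nat.sub_lt (NeZero.pos n) one_pos⟩
  have h7 := hC (h j) (hB j).cont (hB j).pos (b j) (a j) (hba j) (1 / ((M : ℝ) + 1)) hε.le h5 i0 il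
  have h8 : 1 ≤ n * a j i0 := (hba j).one_le (hB j).cont (hB j).pos (hB j).supp (hB j).one i0
    (fun i => (hba j).anti (Nat.zero_le _))
  have h9 : a j il ≤ n * h j (v j) := (hba j).low il
    (fun i => (hba j).anti (show (i : ℕ) ≤ n - 1 by have := i.2; omega)) (v j)
  have h10 : a j il ≤ n / ((j : ℝ) + 1) := by
    have := mul_le_mul_of_nonneg_left (hv j).le hn.le
    rw [mul_one_div] at this
    exact h9.trans this
  have h11 : - Real.log n ≤ Real.log (a j i0) := by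
    rw [← Real.log_inv]
    apply Real.log_le_log (by positivity)
    rw [inv_le_iff_one_le_mul₀ hn, mul_comm]
    exact h8
  have h12 : Real.log (a j il) ≤ Real.log n - Real.log ((j : ℝ) + 1) := by
    rw [← Real.log_div hn.ne' (by positivity)]
    exact Real.log_le_log ((hba j).pos _) h10
  have h13 : (1 / ((M : ℝ) + 1)) * (Real.log ((j : ℝ) + 1) - 2 * Real.log n) ≤
      (1 / ((M : ℝ) + 1)) * (Real.log (a j i0) - Real.log (a j il)) :=
    mul_le_mul_of_nonneg_left (by linarith) hε.le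
  have h14 := hP j
  linarith

end Pool.Agent.Lib.MP_b0d2bf_gt
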