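import Mathlib
import Pool.Agent.Lib.MP_b0d2bf_gt.XDefs2

set_option autoImplicit false

/-!
From the vanishing of the derivative of the penalised functional to the equation for measures.
-/

namespace Pool.Agent.Lib.MP_b0d2bf_gt

open MeasureTheory Metric Set Filter Topology
open scoped Pointwise

namespace XMeas

variable {n : ℕ} {G : Subgroup (Eu n ≃ₗᵢ[ℝ] Eu n)} {h : Sph n → ℝ}

lemma gN_act_le [NeZero n] (hc : Continuous h) (h0 : ∀ v, 0 < h v) (hi : FInv G h)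
    {g : Eu n ≃ₗᵢ[ℝ] Eu n} (hg : g ∈ G) (x : Eu n) : gN h (g x) ≤ gN h x := by
  obtain ⟨v, hv⟩ := exists_gN hc h0 (g x)
  have h1 : h (actS g⁻¹ v) = h v := hi g⁻¹ (G.inv_mem hg) v
  have h2 := le_gN hc h0 x (actS g⁻¹ v)
  rw [h1] at h2
  rw [hv]
  refine le_trans (le_of_eq ?_) h2
  have h3 : inner ℝ (g x) (g ((actS g⁻¹ v : Sph n) : Eu n)) =
      inner ℝ x ((actS g⁻¹ v : Sph n) : Eu n) := g.inner_map_map _ _
  rw [← h3, ← coe_actS, actS_inv']

lemma inv_apply_self (g : Eu n ≃ₗᵢ[ℝ] Eu n) (x : Eu n) : g⁻¹ (g x) = x := g.symm_apply_apply x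

lemma gN_act [NeZero n] (hc : Continuous h) (h0 : ∀ v, 0 < h v) (hi : FInv G h)
    {g : Eu n ≃ₗᵢ[ℝ] Eu n} (hg : g ∈ G) (x : Eu n) : gN h (g x) = gN h x := by
  apply le_antisymm (gN_act_le hc h0 hi hg x)
  have h1 := gN_act_le hc h0 hi (G.inv_mem hg) (g x)
  rwa [inv_apply_self] at h1

lemma diff_act [NeZero n] (hc : Continuous h) (h0 : ∀ v, 0 < h v) (hi : FInv G h)
    {g : Eu n ≃ₗᵢ[ℝ] Eu n} (hg : g ∈ G) {x : Eu n} (hd : DifferentiableAt ℝ (gN h) x) :
    DifferentiableAt ℝ (gN h) (g x) := by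
  have h1 : (gN h ∘ fun y : Eu n => g⁻¹ y) = gN h :=
    funext fun y => gN_act hc h0 hi (G.inv_mem hg) y
  have h2 : DifferentiableAt ℝ (fun y : Eu n => g⁻¹ y) (g x) := (g⁻¹).differentiableAt
  have h3 : DifferentiableAt ℝ (gN h) (g⁻¹ (g x)) := by rwa [inv_apply_self]
  have h4 := DifferentiableAt.comp (g := gN h) (f := fun y : Eu n => g⁻¹ y) (g x) h3 h2
  rwa [h1] at h4

lemma nu_act [NeZero n] (hc : Continuous h) (h0 : ∀ v, 0 < h v) (hi : FInv G h)
    {g : Eu n ≃ₗᵢ[ℝ] Eu n} (hg : g ∈ G) {u : Sph n}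
    (hd : DifferentiableAt ℝ (gN h) (u : Eu n)) :
    nu h (actS g u) = actS g (nu h u) := by
  have h1 : DifferentiableAt ℝ (gN h) ((actS g u : Sph n) : Eu n) := diff_act hc h0 hi hg hd
  rw [← isMx_iff hc h0 h1]
  have h2 : IsMx h u (nu h u) := isMx_nu hc h0 hd
  unfold IsMx at h2 ⊢
  rw [coe_actS, coe_actS, g.inner_map_map, hi g hg, gN_act hc h0 hi hg]
  exact h2

lemma map_act_sg [NeZero n] (g : Eu n ≃ₗᵢ[ℝ] Eu n) : Measure.map (actS g) (sg n) = sg n := by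
  have hm : Measurable (actS g : Sph n → Sph n) := (continuous_actS g).measurable
  ext s hs
  rw [Measure.map_apply hm hs]
  unfold sg
  rw [Measure.toSphere_apply' _ (hm hs), Measure.toSphere_apply' _ hs]
  congr 1
  have hmp := g.measurePreserving
  rw [← hmp.measure_preimage_emb g.toHomeomorph.measurableEmbedding
    (Ioo (0:ℝ) 1 • ((↑) '' s : Set (Eu n)))]
  congr 1
  ext x
  constructor
  · rintro ⟨r, hr, _, ⟨u, hu, rfl⟩, rfl⟩
    exact ⟨r, hr, _, ⟨actS g u, hu, rfl⟩, by simp [coe_actS]⟩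
  · intro hx
    obtain ⟨r, hr, _, ⟨u, hu, rfl⟩, hxu⟩ := hx
    refine ⟨r, hr, _, ⟨actS g⁻¹ u, ?_, rfl⟩, ?_⟩
    · show actS g (actS g⁻¹ u) ∈ s
      rwa [actS_inv']
    · have hxu' : r • (u : Eu n) = g x := hxu
      show r • (g⁻¹ (u : Eu n)) = x
      have h3 : g⁻¹ (r • (u : Eu n)) = r • g⁻¹ (u : Eu n) := map_smul _ _ _
      rw [← h3, hxu', inv_apply_self]

lemma integral_MM [NeZero n] (hc : Continuous h) (h0 : ∀ v, 0 < h v) (q : ℝ) {f : Sph n → ℝ}
    (hf : Continuous f) :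
    ∫ v, f v ∂(MM q h) = ∫ u : Sph n, f (nu h u) * (gN h (u : Eu n))⁻¹ ^ q ∂(sg n) := by
  have hρ0 : ∀ u : Sph n, 0 ≤ (gN h u)⁻¹ ^ q := fun u =>
    (Real.rpow_pos_of_pos (inv_pos.2 (gN_pos hc h0 (sph_ne_zero u))) q).le
  unfold MM
  rw [integral_map (measurable_nu h).aemeasurable hf.aestronglyMeasurable,
    integral_withDensity_eq_integral_toReal_smul
      (continuous_radpow hc h0 q).measurable.ennreal_ofReal
      (Eventually.of_forall fun u => ENNReal.ofReal_lt_top)]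
  refine integral_congr_ae (Eventually.of_forall fun u => ?_)
  show (ENNReal.ofReal ((gN h u)⁻¹ ^ q)).toReal • f (nu h u) = f (nu h u) * (gN h u)⁻¹ ^ q
  rw [ENNReal.toReal_ofReal (hρ0 u), smul_eq_mul, mul_comm]

lemma integral_MM_act [NeZero n] (hc : Continuous h) (h0 : ∀ v, 0 < h v) (hi : FInv G h)
    {g : Eu n ≃ₗᵢ[ℝ] Eu n} (hg : g ∈ G) (q : ℝ) {f : Sph n → ℝ} (hf : Continuous f) :
    ∫ v, f (actS g v) ∂(MM q h) = ∫ v, f v ∂(MM q h) := by
  rw [integral_MM hc h0 q hf, integral_MM hc h0 q (f := fun v => f (actS g v))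
    (hf.comp (continuous_actS g))]
  conv_rhs => rw [← map_act_sg g]
  rw [integral_map (continuous_actS g).measurable.aemeasurable]
  · refine integral_congr_ae ?_
    filter_upwards [ae_diff hc h0] with u hu
    rw [nu_act hc h0 hi hg hu, coe_actS, gN_act hc h0 hi hg]
  · exact ((hf.measurable.comp (measurable_nu h)).mul
      (continuous_radpow hc h0 q).measurable).aestronglyMeasurable

lemma integral_act {ν : Measure (Sph n)} (hν : MInv G ν)
    {g : Eu n ≃ₗᵢ[ℝ] Eu n} (hg : g ∈ G) {f : Sph n → ℝ} (hf : Continuous f) :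
    ∫ v, f (actS g v) ∂ν = ∫ v, f v ∂ν := by
  conv_rhs => rw [← hν g hg]
  rw [integral_map (continuous_actS g).measurable.aemeasurable hf.aestronglyMeasurable]

/-- sum over the group -/
noncomputable def symm [Fintype G] (f : C(Sph n, ℝ)) : C(Sph n, ℝ) :=
  ∑ g : G, f.comp ⟨actS (g : Eu n ≃ₗᵢ[ℝ] Eu n), continuous_actS _⟩

lemma symm_apply [Fintype G] (f : C(Sph n, ℝ)) (v : Sph n) :
    symm (G := G) f v = ∑ g : G, f (actS (g : Eu n ≃ₗᵢ[ℝ] Eu n) v) := by
  unfold symm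
  rw [ContinuousMap.sum_apply]
  rfl

lemma symm_mem [Fintype G] (f : C(Sph n, ℝ)) : symm (G := G) f ∈ XS G := by
  intro k hk v
  rw [symm_apply, symm_apply]
  rw [← Equiv.sum_comp (Equiv.mulRight (⟨k, hk⟩ : G))
    (fun g : G => f (actS (g : Eu n ≃ₗᵢ[ℝ] Eu n) v))]
  refine Finset.sum_congr rfl fun g _ => ?_
  show f (actS (g : Eu n ≃ₗᵢ[ℝ] Eu n) (actS k v)) = f (actS ((g : Eu n ≃ₗᵢ[ℝ] Eu n) * k) v)
  rw [actS_mul]

lemma integral_symm [NeZero n] [Fintype G] (ν : Measure (Sph n)) [IsFiniteMeasure ν]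
    (f : C(Sph n, ℝ))
    (hν : ∀ g ∈ G, ∫ v, f (actS g v) ∂ν = ∫ v, f v ∂ν) :
    ∫ v, symm (G := G) f v ∂ν = (Fintype.card G : ℝ) * ∫ v, f v ∂ν := by
  simp only [symm_apply]
  rw [integral_finsetSum]
  · rw [Finset.sum_congr rfl (fun (g : G) _ => hν g.1 g.2), Finset.sum_const,
      Finset.card_univ, nsmul_eq_mul]
  · intro g _
    exact integrable_cm ν (f.continuous.comp (continuous_actS _))

end XMeas

open XMeas in
theorem measure_of_crit {n : ℕ} [NeZero n] {G : Subgroup (Eu n ≃ₗᵢ[ℝ] Eu n)} [Finite G]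
    {q : ℝ} (hq : 0 < q) {μ σ : Measure (Sph n)} [IsProbabilityMeasure μ]
    [IsProbabilityMeasure σ] (hμ : MInv G μ) (hσ : MInv G σ) {M : ℝ} {p : XS G}
    (hp : ∀ φ : XS G, dF q μ σ M (p : C(Sph n, ℝ)) (φ : C(Sph n, ℝ)) = 0) :
    CEq q μ σ (1 - pen' M (Uf σ μ (p : C(Sph n, ℝ)))) (ex (p : C(Sph n, ℝ))) := by
  classical
  have : Fintype G := Fintype.ofFinite G
  set f0 : C(Sph n, ℝ) := (p : C(Sph n, ℝ)) with hf0
  have hc := continuous_ex f0
  have h0 := ex_pos f0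
  have hi : FInv G (ex f0) := ex_inv p
  have hII := II_pos hc h0 q
  have hfin := isFinite_MM hc h0 q
  set t : ℝ := pen' M (Uf σ μ f0) with ht
  have ht01 : t ∈ Icc (0:ℝ) 1 := pen'_mem M _
  unfold CEq
  have h1 : IsFiniteMeasure (ENNReal.ofReal (1 - t) • μ) := Measure.smul_finite μ ENNReal.ofReal_ne_top
  have h2 : IsFiniteMeasure (ENNReal.ofReal (1 - (1 - t)) • σ) :=
    Measure.smul_finite σ ENNReal.ofReal_ne_top
  have h3 : IsFiniteMeasure (ENNReal.ofReal (II q (ex f0)) •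
      (ENNReal.ofReal (1 - t) • μ + ENNReal.ofReal (1 - (1 - t)) • σ)) :=
    Measure.smul_finite _ ENNReal.ofReal_ne_top
  refine ext_of_forall_integral_eq_of_IsFiniteMeasure fun f => ?_
  have hfc : Continuous (f : Sph n → ℝ) := f.continuous
  rw [integral_smul_measure, integral_add_measure (integrable_cm _ hfc) (integrable_cm _ hfc),
    integral_smul_measure, integral_smul_measure, ENNReal.toReal_ofReal hII.le,
    ENNReal.toReal_ofReal (by linarith [ht01.2]), ENNReal.toReal_ofReal (by linarith [ht01.1])]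
  simp only [smul_eq_mul]
  set F : C(Sph n, ℝ) := ⟨f, hfc⟩ with hF
  have hFf : ∀ v, F v = f v := fun v => rfl
  have h4 := hp ⟨symm (G := G) F, symm_mem F⟩
  have h5 : dF q μ σ M f0 (symm (G := G) F) = avg q (ex f0) (symm (G := G) F) -
      ∫ v, symm (G := G) F v ∂μ - t * (∫ v, symm (G := G) F v ∂σ - ∫ v, symm (G := G) F v ∂μ) := rfl
  have h6 : dF q μ σ M f0 (symm (G := G) F) = 0 := h4
  rw [h5] at h6
  have h7 : avg q (ex f0) (symm (G := G) F) = (∫ v, symm (G := G) F v ∂(MM q (ex f0))) /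
      II q (ex f0) := by
    unfold avg
    rw [integral_MM hc h0 q (symm (G := G) F).continuous]
  rw [h7, integral_symm (MM q (ex f0)) F (fun g hg => integral_MM_act hc h0 hi hg q F.continuous),
    integral_symm μ F (fun g hg => integral_act hμ hg F.continuous),
    integral_symm σ F (fun g hg => integral_act hσ hg F.continuous)] at h6
  have hcard : (0:ℝ) < Fintype.card G := by exact_mod_cast Fintype.card_pos
  have h8 : (Fintype.card G : ℝ) * ((∫ v, F v ∂(MM q (ex f0))) / II q (ex f0) - ∫ v, F v ∂μ -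
      t * (∫ v, F v ∂σ - ∫ v, F v ∂μ)) = 0 := by
    rw [← h6]; ring
  rcases mul_eq_zero.1 h8 with h9 | h9
  · exact absurd h9 hcard.ne'
  · have h10 : ∫ v, F v ∂(MM q (ex f0)) = II q (ex f0) * (∫ v, F v ∂μ +
        t * (∫ v, F v ∂σ - ∫ v, F v ∂μ)) := by
      field_simp at h9
      linarith
    simp only [hFf] at h10
    rw [h10]
    ring

end Pool.Agent.Lib.MP_b0d2bf_gt
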