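import Mathlib
import Pool.Agent.Lib.MP_b0d2bf_gt.XDefs2

/-!
# MP_b0d2bf_gt module XMPL: abstract mountain pass theorem
-/

set_option autoImplicit false

namespace Pool.Agent.Lib.MP_b0d2bf_gt
open MeasureTheory Metric Set Filter Topology

namespace XMpl

/-- A decreasing family of compact preconnected sets has preconnected intersection. -/
theorem preconn_iInter {X ι : Type*} [TopologicalSpace X] [T2Space X] [Nonempty ι]
    {V : ι → Set X} (hV : Directed (· ⊇ ·) V) (hc : ∀ i, IsCompact (V i))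
    (hp : ∀ i, IsPreconnected (V i)) : IsPreconnected (⋂ i, V i) := by
  have hK : IsCompact (⋂ i, V i) := by
    obtain ⟨i0⟩ := ‹Nonempty ι›
    exact (hc i0).of_isClosed_subset (isClosed_iInter fun i => (hc i).isClosed)
      (iInter_subset _ i0)
  rw [isPreconnected_closed_iff]
  intro t t' ht ht' hsub hn hn'
  by_contra hcon
  rw [not_nonempty_iff_eq_empty] at hcon
  have h1 : IsCompact ((⋂ i, V i) ∩ t) := hK.inter_right ht
  have h2 : IsCompact ((⋂ i, V i) ∩ t') := hK.inter_right ht'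
  have hd : Disjoint ((⋂ i, V i) ∩ t) ((⋂ i, V i) ∩ t') := by
    rw [disjoint_iff_inter_eq_empty, ← hcon]
    ext x
    simp only [mem_inter_iff]
    tauto
  obtain ⟨U, U', hU, hU', hUt, hUt', hdis⟩ := SeparatedNhds.of_isCompact_isCompact h1 h2 hd
  have hcover : ∀ x ∈ ⋂ i, V i, U ∪ U' ∈ 𝓝 x := by
    intro x hx
    refine (hU.union hU').mem_nhds ?_
    rcases hsub hx with h | h
    · exact Or.inl (hUt ⟨hx, h⟩)
    · exact Or.inr (hUt' ⟨hx, h⟩)
  obtain ⟨i, hi⟩ := exists_subset_nhds_of_isCompact' hV hc (fun i => (hc i).isClosed) hcover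
  obtain ⟨a, ha, hat⟩ := hn
  obtain ⟨b, hb, hbt⟩ := hn'
  obtain ⟨x, _, hx, hx'⟩ := hp i U U' hU hU' hi ⟨a, mem_iInter.1 ha i, hUt ⟨ha, hat⟩⟩
    ⟨b, mem_iInter.1 hb i, hUt' ⟨hb, hbt⟩⟩
  exact disjoint_left.1 hdis hx hx'

variable {E : Type*} {F : E → ℝ} {ρ : E → E}

/-- Fixed points of `ρ` at level at least `c`. -/
def AA (F : E → ℝ) (ρ : E → E) (c : ℝ) : Set E := {x | ρ x = x ∧ c ≤ F x}

variable [NormedAddCommGroup E]

/-- Levels at which `x₁` and `x₂` can be joined. -/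
def CC (F : E → ℝ) (ρ : E → E) (x₁ x₂ : E) : Set ℝ :=
  {c | ∃ S : Set E, IsPreconnected S ∧ S ⊆ AA F ρ c ∧ x₁ ∈ S ∧ x₂ ∈ S}

omit [NormedAddCommGroup E] in
theorem AA_anti {c c' : ℝ} (h : c ≤ c') : AA F ρ c' ⊆ AA F ρ c := fun _ hx => ⟨hx.1, h.trans hx.2⟩

theorem mem_CC (hρ : Continuous ρ) (hidem : ∀ x, ρ (ρ x) = ρ x)
    (hinc : ∀ x, F x ≤ F (ρ x)) {x₁ x₂ : E} (h1 : ρ x₁ = x₁) (h2 : ρ x₂ = x₂) {T : Set E}
    (hT : IsPreconnected T) (hx1 : x₁ ∈ T) (hx2 : x₂ ∈ T) {c : ℝ} (hc : ∀ x ∈ T, c ≤ F x) :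
    c ∈ CC F ρ x₁ x₂ := by
  refine ⟨ρ '' T, hT.image ρ hρ.continuousOn, ?_, ⟨x₁, hx1, h1⟩, ⟨x₂, hx2, h2⟩⟩
  rintro _ ⟨x, hx, rfl⟩
  exact ⟨hidem x, (hc x hx).trans (hinc x)⟩

variable [NormedSpace ℝ E]

theorem CC_nonempty (hF : Continuous F) (hρ : Continuous ρ) (hidem : ∀ x, ρ (ρ x) = ρ x)
    (hinc : ∀ x, F x ≤ F (ρ x)) {x₁ x₂ : E} (h1 : ρ x₁ = x₁) (h2 : ρ x₂ = x₂) :
    (CC F ρ x₁ x₂).Nonempty := by
  have hcs : IsCompact (segment ℝ x₁ x₂) := by
    rw [segment_eq_image_lineMap]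
    exact isCompact_Icc.image (AffineMap.lineMap_continuous)
  obtain ⟨z, _, hz⟩ := hcs.exists_isMinOn ⟨x₁, left_mem_segment ℝ _ _⟩ hF.continuousOn
  exact ⟨F z, mem_CC hρ hidem hinc h1 h2 (convex_segment x₁ x₂).isPreconnected
    (left_mem_segment ℝ _ _) (right_mem_segment ℝ _ _) fun x hx => hz hx⟩

omit [NormedSpace ℝ E] in
/-- The supremum of the levels is attained. -/
theorem exists_K (hcpt : ∀ c : ℝ, IsCompact {x | ρ x = x ∧ c ≤ F x}) {x₁ x₂ : E}
    (hne : (CC F ρ x₁ x₂).Nonempty) : 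
    ∃ K : Set E, IsPreconnected K ∧ K ⊆ AA F ρ (sSup (CC F ρ x₁ x₂)) ∧ x₁ ∈ K ∧ x₂ ∈ K := by
  have hc : ∀ c, IsCompact (AA F ρ c) := hcpt
  have hmem1 : ∀ c ∈ CC F ρ x₁ x₂, x₁ ∈ AA F ρ c := fun c ⟨S, _, hS, h, _⟩ => hS h
  let V : CC F ρ x₁ x₂ → Set E := fun c => closure (connectedComponentIn (AA F ρ c.1) x₁)
  have hVsub : ∀ c : CC F ρ x₁ x₂, V c ⊆ AA F ρ c.1 := fun c =>
    closure_minimal (connectedComponentIn_subset _ _) (hc c.1).isClosed
  have hVc : ∀ c, IsCompact (V c) := fun c =>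
    (hc c.1).of_isClosed_subset isClosed_closure (hVsub c)
  have hVp : ∀ c, IsPreconnected (V c) := fun c => isPreconnected_connectedComponentIn.closure
  have hVd : Directed (· ⊇ ·) V := by
    intro a b
    rcases le_total a.1 b.1 with h | h
    · exact ⟨b, closure_mono (connectedComponentIn_mono _ (AA_anti h)), Subset.rfl⟩
    · exact ⟨a, Subset.rfl, closure_mono (connectedComponentIn_mono _ (AA_anti h))⟩
  have : Nonempty (CC F ρ x₁ x₂) := hne.to_subtype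
  refine ⟨⋂ c, V c, preconn_iInter hVd hVc hVp, ?_, ?_, ?_⟩
  · intro x hx
    rw [mem_iInter] at hx
    refine ⟨?_, ?_⟩
    · obtain ⟨c⟩ := this
      exact (hVsub c (hx c)).1
    · exact csSup_le hne fun c hcc => (hVsub ⟨c, hcc⟩ (hx ⟨c, hcc⟩)).2
  · rw [mem_iInter]
    intro c
    exact subset_closure (mem_connectedComponentIn (hmem1 c.1 c.2))
  · rw [mem_iInter]
    rintro ⟨c, S, hS, hSA, hx1, hx2⟩
    exact subset_closure (hS.subset_connectedComponentIn hx1 hSA hx2)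

/-- The local step at a point of level `c` with an increasing direction. -/
theorem local_step (hF : Continuous F) {c : ℝ} {x₁ p φ : E} {δ ε : ℝ} (hδ : 0 < δ) (hε : 0 < ε)
    (hp : F p = c) (hpush : ∀ x ∈ ball p δ, ∀ s ∈ Icc (0 : ℝ) δ, F x + ε * s ≤ F (x + s • φ)) :
    ∃ d > 0, ∀ x ∈ ball p d, c ≤ F x →
      ((connectedComponentIn {x | c < F x} x₁) ∩ ball p d).Nonempty →
      x ∈ closure (connectedComponentIn {x | c < F x} x₁) := by
  have h0 : {z | c - ε * δ < F z} ∈ 𝓝 p := by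
    refine (isOpen_lt continuous_const hF).mem_nhds ?_
    change c - ε * δ < F p
    rw [hp]
    nlinarith [mul_pos hε hδ]
  obtain ⟨d', hd', hball⟩ := Metric.mem_nhds_iff.1 h0
  refine ⟨min d' δ, lt_min hd' hδ, ?_⟩
  intro x hx hcx hne
  obtain ⟨y, hyU, hy⟩ := hne
  have hsub1 : ball p (min d' δ) ⊆ ball p δ := ball_subset_ball (min_le_right _ _)
  have hsub2 : ball p (min d' δ) ⊆ ball p d' := ball_subset_ball (min_le_left _ _)
  have hyO : c < F y := connectedComponentIn_subset {x | c < F x} x₁ hyU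
  have hc1 : ∀ v : E, Continuous fun s : ℝ => v + s • φ := fun v => by fun_prop
  -- the three sets
  have p1 : IsPreconnected ((fun s : ℝ => y + s • φ) '' Icc 0 δ) :=
    isPreconnected_Icc.image _ (hc1 y).continuousOn
  have p2 : IsPreconnected ((fun z : E => z + δ • φ) '' ball p (min d' δ)) :=
    (convex_ball p _).isPreconnected.image _ (by fun_prop)
  have p3 : IsPreconnected ((fun s : ℝ => x + s • φ) '' Ioc 0 δ) :=
    isPreconnected_Ioc.image _ (hc1 x).continuousOn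
  have hδI : δ ∈ Icc (0 : ℝ) δ := ⟨hδ.le, le_rfl⟩
  have p12 : IsPreconnected (((fun s : ℝ => y + s • φ) '' Icc 0 δ) ∪
      ((fun z : E => z + δ • φ) '' ball p (min d' δ))) :=
    p1.union (y + δ • φ) ⟨δ, hδI, rfl⟩ ⟨y, hy, rfl⟩ p2
  have p123 : IsPreconnected ((((fun s : ℝ => y + s • φ) '' Icc 0 δ) ∪
      ((fun z : E => z + δ • φ) '' ball p (min d' δ))) ∪
      ((fun s : ℝ => x + s • φ) '' Ioc 0 δ)) :=
    p12.union (x + δ • φ) (Or.inr ⟨x, hx, rfl⟩) ⟨δ, ⟨hδ, le_rfl⟩, rfl⟩ p3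
  have hO : ((((fun s : ℝ => y + s • φ) '' Icc 0 δ) ∪
      ((fun z : E => z + δ • φ) '' ball p (min d' δ))) ∪
      ((fun s : ℝ => x + s • φ) '' Ioc 0 δ)) ⊆ {x | c < F x} := by
    rintro z ((⟨s, hs, rfl⟩ | ⟨w, hw, rfl⟩) | ⟨s, hs, rfl⟩)
    · have := hpush y (hsub1 hy) s hs
      have h2 : 0 ≤ ε * s := mul_nonneg hε.le hs.1
      change c < F _
      dsimp only
      linarith
    · have := hpush w (hsub1 hw) δ hδI
      have h2 : c - ε * δ < F w := hball (hsub2 hw)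
      change c < F _
      dsimp only
      linarith
    · have := hpush x (hsub1 hx) s ⟨hs.1.le, hs.2⟩
      have h2 : 0 < ε * s := mul_pos hε hs.1
      change c < F _
      dsimp only
      linarith
  have hyT : y ∈ ((((fun s : ℝ => y + s • φ) '' Icc 0 δ) ∪
      ((fun z : E => z + δ • φ) '' ball p (min d' δ))) ∪
      ((fun s : ℝ => x + s • φ) '' Ioc 0 δ)) :=
    Or.inl (Or.inl ⟨0, ⟨le_rfl, hδ.le⟩, by simp⟩)
  have hT := p123.subset_connectedComponentIn hyT hO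
  rw [← connectedComponentIn_eq hyU] at hT
  have hlim : Tendsto (fun s : ℝ => x + s • φ) (𝓝[>] 0) (𝓝 x) := by
    have := (hc1 x).tendsto 0
    simp only [zero_smul, add_zero] at this
    exact this.mono_left nhdsWithin_le_nhds
  refine mem_closure_of_tendsto hlim ?_
  filter_upwards [Ioc_mem_nhdsGT hδ] with s hs
  exact hT (Or.inr ⟨s, hs, rfl⟩)

end XMpl

theorem mountain_pass {E : Type*} [NormedAddCommGroup E] [NormedSpace ℝ E] {F : E → ℝ} {ρ : E → E}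
    (hF : Continuous F) (hρ : Continuous ρ) (hidem : ∀ x, ρ (ρ x) = ρ x)
    (hinc : ∀ x, F x ≤ F (ρ x)) (hcpt : ∀ c : ℝ, IsCompact {x | ρ x = x ∧ c ≤ F x})
    {x₁ x₂ : E} (h1 : ρ x₁ = x₁) (h2 : ρ x₂ = x₂) {C : ℝ}
    (hsep : ∀ S : Set E, IsPreconnected S → (∀ x ∈ S, ρ x = x) → x₁ ∈ S → x₂ ∈ S →
      ∃ x ∈ S, F x ≤ C)
    (hC1 : C < F x₁) (hC2 : C < F x₂) :
    ∃ p, ρ p = p ∧ F p ≤ C ∧ ∀ φ : E, ¬ ∃ δ > 0, ∃ ε > 0, ∀ x ∈ ball p δ,
      ∀ s ∈ Icc (0:ℝ) δ, F x + ε * s ≤ F (x + s • φ) := by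
  classical
  have hne := XMpl.CC_nonempty hF hρ hidem hinc h1 h2
  have hub : ∀ c ∈ XMpl.CC F ρ x₁ x₂, c ≤ C := by
    rintro c ⟨S, hS, hSA, hx1, hx2⟩
    obtain ⟨x, hx, hxC⟩ := hsep S hS (fun x hx => (hSA hx).1) hx1 hx2
    exact (hSA hx).2.trans hxC
  have hbdd : BddAbove (XMpl.CC F ρ x₁ x₂) := ⟨C, hub⟩
  obtain ⟨K, hK, hKA, hK1, hK2⟩ := XMpl.exists_K hcpt hne
  set c := sSup (XMpl.CC F ρ x₁ x₂) with hcdef
  have hcC : c ≤ C := csSup_le hne hub
  by_contra hcon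
  push Not at hcon
  have hO : IsOpen {x | c < F x} := isOpen_lt continuous_const hF
  set U := connectedComponentIn {x | c < F x} x₁ with hU
  have hUo : IsOpen U := hO.connectedComponentIn
  have hx1O : x₁ ∈ {x | c < F x} := lt_of_le_of_lt hcC hC1
  have hx1U : x₁ ∈ U := mem_connectedComponentIn hx1O
  have hloc : ∀ p ∈ K, ∃ d > 0, ∀ x ∈ ball p d, c ≤ F x → (U ∩ ball p d).Nonempty →
      x ∈ closure U := by
    intro p hp
    obtain ⟨hp1, hp2⟩ := hKA hp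
    rcases hp2.lt_or_eq with h | h
    · obtain ⟨d, hd, hball⟩ := Metric.isOpen_iff.1 hO p h
      refine ⟨d, hd, ?_⟩
      rintro x hx _ ⟨y, hyU, hy⟩
      have := (convex_ball p d).isPreconnected.subset_connectedComponentIn hy hball hx
      rw [← connectedComponentIn_eq hyU] at this
      exact subset_closure this
    · obtain ⟨φ, δ, hδ, ε, hε, hpush⟩ := hcon p hp1 (h ▸ hcC)
      exact XMpl.local_step hF hδ hε h.symm hpush
  choose! d hd hstep using hloc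
  have hKU : K ⊆ closure U := by
    have hopen : IsOpen (⋃ p ∈ K ∩ closure U, ball p (d p)) :=
      isOpen_biUnion fun _ _ => isOpen_ball
    have key : K ∩ (⋃ p ∈ K ∩ closure U, ball p (d p)) ⊆ closure U := by
      rintro x ⟨hxK, hx⟩
      rw [mem_iUnion₂] at hx
      obtain ⟨p, ⟨hpK, hpU⟩, hxp⟩ := hx
      refine hstep p hpK x hxp (hKA hxK).2 ?_
      rw [inter_comm]
      exact mem_closure_iff.1 hpU _ isOpen_ball (mem_ball_self (hd p hpK))
    have := (isPreconnected_iff_subset_of_disjoint.1 hK) (⋃ p ∈ K ∩ closure U, ball p (d p))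
      (closure U)ᶜ hopen isClosed_closure.isOpen_compl ?_ ?_
    · rcases this with h | h
      · intro x hx
        exact key ⟨hx, h hx⟩
      · exact absurd (subset_closure hx1U) (h hK1)
    · intro x hx
      by_cases hxU : x ∈ closure U
      · left
        rw [mem_iUnion₂]
        exact ⟨x, ⟨hx, hxU⟩, mem_ball_self (hd x hx)⟩
      · exact Or.inr hxU
    · rw [← subset_empty_iff]
      rintro x ⟨hxK, hx1, hx2⟩
      exact hx2 (key ⟨hxK, hx1⟩)
  have hx2U : x₂ ∈ U := by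
    have h3 : x₂ ∈ closure U := hKU hK2
    obtain ⟨r, hr, hball⟩ := Metric.isOpen_iff.1 hO x₂ (lt_of_le_of_lt hcC hC2)
    obtain ⟨y, hy, hyU⟩ := mem_closure_iff.1 h3 _ isOpen_ball (mem_ball_self hr)
    have := (convex_ball x₂ r).isPreconnected.subset_connectedComponentIn hy hball
      (mem_ball_self hr)
    rwa [← connectedComponentIn_eq hyU] at this
  have hUc : IsConnected U := ⟨⟨x₁, hx1U⟩, isPreconnected_connectedComponentIn⟩
  have hUp : IsPathConnected U := hUo.isConnected_iff_isPathConnected.1 hUc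
  obtain ⟨γ, hγ⟩ := hUp.joinedIn x₁ hx1U x₂ hx2U
  have hrc : IsCompact (range γ) := isCompact_range γ.continuous
  obtain ⟨z, ⟨t, rfl⟩, hz⟩ := hrc.exists_isMinOn (range_nonempty _) hF.continuousOn
  have hzc : c < F (γ t) := connectedComponentIn_subset {x | c < F x} x₁ (hγ t)
  have hmem : F (γ t) ∈ XMpl.CC F ρ x₁ x₂ :=
    XMpl.mem_CC hρ hidem hinc h1 h2 (isPreconnected_range γ.continuous)
      ⟨0, γ.source⟩ ⟨1, γ.target⟩ fun x hx => hz hx
  exact absurd (le_csSup hbdd hmem) (not_le.2 hzc)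

end Pool.Agent.Lib.MP_b0d2bf_gt
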