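import Mathlib
import Pool.Agent.Lib.MP_b0d2bf_gt.XDefs2
import Pool.Agent.Lib.MP_b0d2bf_gt.XIILow

set_option autoImplicit false

/-!
Ellipsoids thin on a heavy subspace have large functional.
-/

namespace Pool.Agent.Lib.MP_b0d2bf_gt

open MeasureTheory Metric Set Filter Topology

namespace XPeak

section A

variable {n : ℕ} (L : Submodule ℝ (Eu n)) (ε : ℝ)

/-- the linear map `ε P + (1 - P)`, `P` the orthogonal projection to `L` -/
noncomputable def AA (w : Eu n) : Eu n := ε • L.starProjection w + (w - L.starProjection w)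

lemma inner_AA (x w : Eu n) : inner ℝ (AA L ε x) w = inner ℝ x (AA L ε w) := by
  unfold AA
  rw [inner_add_left, inner_add_right, inner_sub_left, inner_sub_right, real_inner_smul_left,
    real_inner_smul_right, Submodule.inner_starProjection_left_eq_right]

lemma norm_sq_AA (w : Eu n) :
    ‖AA L ε w‖ ^ 2 = ε ^ 2 * ‖L.starProjection w‖ ^ 2 + ‖w - L.starProjection w‖ ^ 2 := by
  unfold AA
  rw [norm_add_sq_real, real_inner_smul_left, real_inner_comm,
    L.starProjection_inner_eq_zero w _ (L.starProjection_apply_mem w), norm_smul, mul_pow,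
    Real.norm_eq_abs, sq_abs]
  ring

lemma norm_sq_split (w : Eu n) :
    ‖w‖ ^ 2 = ‖L.starProjection w‖ ^ 2 + ‖w - L.starProjection w‖ ^ 2 := by
  have h := norm_sq_AA L 1 w
  rw [one_pow, one_mul] at h
  rw [← h]
  unfold AA
  rw [one_smul, add_sub_cancel]

lemma continuous_AA : Continuous (AA L ε) := by
  unfold AA
  have h := L.starProjection.continuous
  exact (h.const_smul ε).add (continuous_id.sub h)

lemma AA_neg (w : Eu n) : AA L ε (-w) = -AA L ε w := by
  unfold AA
  rw [map_neg, smul_neg]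
  abel

lemma AA_of_mem {w : Eu n} (hw : w ∈ L) : AA L ε w = ε • w := by
  unfold AA
  rw [Submodule.starProjection_eq_self_iff.2 hw, sub_self, add_zero]

lemma AA_of_orth {w : Eu n} (hw : w ∈ Lᗮ) : AA L ε w = w := by
  unfold AA
  rw [(Submodule.starProjection_apply_eq_zero_iff L).2 hw, smul_zero, sub_zero, zero_add]

lemma AA_ne_zero (hε : 0 < ε) {w : Eu n} (hw : w ≠ 0) : AA L ε w ≠ 0 := by
  intro h
  have h1 := norm_sq_AA L ε w
  rw [h, norm_zero] at h1
  have h2 := norm_sq_split L w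
  have h3 : 0 < ‖w‖ ^ 2 := by
    have := norm_pos_iff.2 hw
    positivity
  have h4 : 0 ≤ ‖w - L.starProjection w‖ ^ 2 := by positivity
  have h5 : 0 ≤ ε ^ 2 * ‖L.starProjection w‖ ^ 2 := by positivity
  have h6 : ε ^ 2 * ‖L.starProjection w‖ ^ 2 = 0 := by nlinarith
  have h7 : ‖w - L.starProjection w‖ ^ 2 = 0 := by nlinarith
  have h8 : ‖L.starProjection w‖ ^ 2 = 0 := by
    rcases mul_eq_zero.1 h6 with h | h
    · exact absurd h (by positivity)
    · exact h
  rw [h2, h7, h8] at h3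
  norm_num at h3

lemma norm_AA_le (hε0 : 0 < ε) (hε1 : ε ≤ 1) (w : Eu n) : ‖AA L ε w‖ ≤ ‖w‖ := by
  rw [← pow_le_pow_iff_left₀ (norm_nonneg _) (norm_nonneg _) (two_ne_zero), norm_sq_AA,
    norm_sq_split L w]
  have h1 : ε ^ 2 ≤ 1 := pow_le_one₀ hε0.le hε1
  have h2 : 0 ≤ ‖L.starProjection w‖ ^ 2 := by positivity
  nlinarith

lemma infDist_le_AA (w : Eu n) : infDist w (L : Set (Eu n)) ≤ ‖AA L ε w‖ := by
  refine (infDist_le_dist_of_mem (L.starProjection_apply_mem w)).trans ?_
  rw [dist_eq_norm, ← pow_le_pow_iff_left₀ (norm_nonneg _) (norm_nonneg _) (two_ne_zero),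
    norm_sq_AA]
  have h1 : 0 ≤ ε ^ 2 * ‖L.starProjection w‖ ^ 2 := by positivity
  linarith

/-- support function of the ellipsoid -/
noncomputable def hh (v : Sph n) : ℝ := ‖AA L ε (v : Eu n)‖

lemma continuous_hh : Continuous (hh L ε) :=
  ((continuous_AA L ε).comp continuous_subtype_val).norm

lemma hh_pos (hε : 0 < ε) (v : Sph n) : 0 < hh L ε v :=
  norm_pos_iff.2 (AA_ne_zero L ε hε (sph_ne_zero v))

lemma hh_even (v : Sph n) : hh L ε (-v) = hh L ε v := by
  unfold hh
  rw [coe_neg_sphere, AA_neg, norm_neg]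

lemma mem_wulff_hh (hε : 0 < ε) (v : Sph n) :
    AA L ε ((hh L ε v)⁻¹ • AA L ε (v : Eu n)) ∈ wulff (hh L ε) := by
  intro w
  rw [inner_AA]
  have h1 := hh_pos L ε hε v
  refine (real_inner_le_norm _ _).trans ?_
  rw [norm_smul, norm_inv, Real.norm_eq_abs, abs_of_pos h1]
  show (hh L ε v)⁻¹ * hh L ε v * hh L ε w ≤ hh L ε w
  rw [inv_mul_cancel₀ h1.ne', one_mul]

lemma supp_hh [NeZero n] (hε : 0 < ε) (v : Sph n) : supp (hh L ε) v = hh L ε v := by
  apply le_antisymm (supp_le (continuous_hh L ε) (hh_pos L ε hε) v)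
  have h1 := inner_le_supp (continuous_hh L ε) (hh_pos L ε hε) v (mem_wulff_hh L ε hε v)
  refine le_trans (le_of_eq ?_) h1
  rw [inner_AA, real_inner_smul_left, real_inner_self_eq_norm_sq]
  show hh L ε v = (hh L ε v)⁻¹ * hh L ε v ^ 2
  have h2 := hh_pos L ε hε v
  field_simp

lemma proj_act {G : Subgroup (Eu n ≃ₗᵢ[ℝ] Eu n)} (hL : SInv G L) {g : Eu n ≃ₗᵢ[ℝ] Eu n}
    (hg : g ∈ G) (w : Eu n) : L.starProjection (g w) = g (L.starProjection w) := by
  apply Submodule.eq_starProjection_of_mem_of_inner_eq_zero (hL g hg _ (L.starProjection_apply_mem w))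
  intro z hz
  have h1 : g⁻¹ z ∈ L := hL _ (G.inv_mem hg) z hz
  have h2 := L.starProjection_inner_eq_zero w _ h1
  have h3 : inner ℝ (g (w - L.starProjection w)) (g (g⁻¹ z)) =
      inner ℝ (w - L.starProjection w) (g⁻¹ z) := g.inner_map_map _ _
  have h4 : g (g⁻¹ z) = z := g.apply_symm_apply z
  rw [h4, h2, map_sub] at h3
  exact h3

lemma hh_inv {G : Subgroup (Eu n ≃ₗᵢ[ℝ] Eu n)} (hL : SInv G L) : FInv G (hh L ε) := by
  intro g hg v
  unfold hh
  have h1 : AA L ε ((actS g v : Sph n) : Eu n) = g (AA L ε (v : Eu n)) := by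
    show AA L ε (g (v : Eu n)) = g (AA L ε (v : Eu n))
    unfold AA
    rw [proj_act L hL hg, map_add, map_sub, map_smul]
  rw [h1, g.norm_map]

lemma exists_orth (hL : L ≠ ⊤) : ∃ v : Sph n, (v : Eu n) ∈ Lᗮ := by
  have h1 : Lᗮ ≠ ⊥ := by
    intro h
    exact hL (Submodule.orthogonal_eq_bot_iff.1 h)
  obtain ⟨w, hw, hw0⟩ := Submodule.exists_mem_ne_zero_of_ne_bot h1
  refine ⟨dirS w hw0, ?_⟩
  unfold dirS
  exact Lᗮ.smul_mem _ hw

lemma Bd_hh [NeZero n] {G : Subgroup (Eu n ≃ₗᵢ[ℝ] Eu n)} (hL : SInv G L) (hT : L ≠ ⊤)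
    (hε0 : 0 < ε) (hε1 : ε ≤ 1) : Bd G (hh L ε) where
  cont := continuous_hh L ε
  pos := hh_pos L ε hε0
  inv := hh_inv L ε hL
  even := hh_even L ε
  supp := supp_hh L ε hε0
  le := fun v => (norm_AA_le L ε hε0 hε1 _).trans (norm_sph v).le
  one := by
    obtain ⟨v, hv⟩ := exists_orth L hT
    refine ⟨v, ?_⟩
    unfold hh
    rw [AA_of_orth L ε hv, norm_sph]

/-- adapted orthonormal basis -/
lemma exists_basis [NeZero n] : ∃ b : OrthonormalBasis (Fin n) ℝ (Eu n),
    (∀ k : Fin n, (k : ℕ) < n - Module.finrank ℝ L → b k ∈ Lᗮ) ∧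
    (∀ k : Fin n, n - Module.finrank ℝ L ≤ (k : ℕ) → b k ∈ L) := by
  set d := Module.finrank ℝ L with hd
  set m := Module.finrank ℝ Lᗮ with hm
  have hmd : d + m = n := by
    have := Submodule.finrank_add_finrank_orthogonal L
    rw [finrank_euclideanSpace_fin] at this
    exact this
  let b1 := stdOrthonormalBasis ℝ Lᗮ
  let b2 := stdOrthonormalBasis ℝ L
  let f : Fin m ⊕ Fin d → Eu n := Sum.elim (fun i => (b1 i : Eu n)) (fun i => (b2 i : Eu n))
  have hf : Orthonormal ℝ f := by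
    constructor
    · rintro (i | i)
      · show ‖((b1 i : Lᗮ) : Eu n)‖ = 1
        rw [← Submodule.coe_norm]
        exact b1.norm_eq_one i
      · show ‖((b2 i : L) : Eu n)‖ = 1
        rw [← Submodule.coe_norm]
        exact b2.norm_eq_one i
    · rintro (i | i) (j | j) hij
      · show inner ℝ ((b1 i : Lᗮ) : Eu n) ((b1 j : Lᗮ) : Eu n) = 0
        rw [← Submodule.coe_inner]
        exact b1.orthonormal.2 (fun h => hij (by rw [h]))
      · exact Submodule.inner_left_of_mem_orthogonal (b2 j).2 (b1 i).2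
      · exact Submodule.inner_right_of_mem_orthogonal (b2 i).2 (b1 j).2
      · show inner ℝ ((b2 i : L) : Eu n) ((b2 j : L) : Eu n) = 0
        rw [← Submodule.coe_inner]
        exact b2.orthonormal.2 (fun h => hij (by rw [h]))
  let e : Fin n ≃ Fin m ⊕ Fin d :=
    (finCongr (by omega : n = m + d)).trans finSumFinEquiv.symm
  have hfe : Orthonormal ℝ (f ∘ e) := hf.comp e e.injective
  have hne : Nonempty (Fin n) := ⟨⟨0, NeZero.pos n⟩⟩
  have hcard : Fintype.card (Fin n) = Module.finrank ℝ (Eu n) := by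
    rw [finrank_euclideanSpace_fin, Fintype.card_fin]
  let B := basisOfOrthonormalOfCardEqFinrank hfe hcard
  have hB : ⇑B = f ∘ e := coe_basisOfOrthonormalOfCardEqFinrank hfe hcard
  have hBo : Orthonormal ℝ B := by rw [hB]; exact hfe
  refine ⟨B.toOrthonormalBasis hBo, ?_, ?_⟩
  · intro k hk
    rw [Module.Basis.coe_toOrthonormalBasis, hB]
    have h1 : e k = Sum.inl ⟨k, by omega⟩ := by
      show finSumFinEquiv.symm (finCongr _ k) = _
      rw [Equiv.symm_apply_eq, finSumFinEquiv_apply_left]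
      rfl
    rw [Function.comp_apply, h1]
    exact (b1 _).2
  · intro k hk
    rw [Module.Basis.coe_toOrthonormalBasis, hB]
    have h1 : e k = Sum.inr ⟨k - m, by omega⟩ := by
      show finSumFinEquiv.symm (finCongr _ k) = _
      rw [Equiv.symm_apply_eq, finSumFinEquiv_apply_right]
      apply Fin.ext
      simp only [finCongr_apply_coe, Fin.natAdd_mk]
      omega
    rw [Function.comp_apply, h1]
    exact (b2 _).2

/-- half axes of the ellipsoid -/
noncomputable def ax (d : ℕ) (ε : ℝ) (k : Fin n) : ℝ := if (k : ℕ) < n - d then 1 else ε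

lemma prod_ax {d : ℕ} (hd : d ≤ n) (ε : ℝ) : ∏ k : Fin n, ax d ε k = ε ^ d := by
  unfold ax
  rw [Finset.prod_ite, Finset.prod_const_one, one_mul, Finset.prod_const]
  congr 1
  rw [Finset.filter_not, Finset.card_sdiff_of_subset (Finset.filter_subset _ _),
    Finset.card_univ, Fintype.card_fin]
  have h1 : (Finset.univ.filter (fun k : Fin n => (k : ℕ) < n - d)).card = n - d := by
    rw [Fin.card_filter_val_lt]
    omega
  rw [h1]
  omega

lemma Bx_hh [NeZero n] {b : OrthonormalBasis (Fin n) ℝ (Eu n)} (hε0 : 0 < ε) (hε1 : ε ≤ 1)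
    (hb1 : ∀ k : Fin n, (k : ℕ) < n - Module.finrank ℝ L → b k ∈ Lᗮ)
    (hb2 : ∀ k : Fin n, n - Module.finrank ℝ L ≤ (k : ℕ) → b k ∈ L) :
    Bx (hh L ε) b (ax (Module.finrank ℝ L) ε) := by
  have hpos : ∀ k : Fin n, 0 < ax (Module.finrank ℝ L) ε k := by
    intro k
    unfold ax
    split_ifs
    · exact one_pos
    · exact hε0
  have hA : ∀ k : Fin n, AA L ε (b k) = ax (Module.finrank ℝ L) ε k • b k := by
    intro k
    unfold ax
    split_ifs with h
    · rw [AA_of_orth L ε (hb1 k h), one_smul]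
    · rw [AA_of_mem L ε (hb2 k (not_lt.1 h))]
  have hs : (1:ℝ) ≤ √n := by
    rw [Real.one_le_sqrt]
    exact_mod_cast NeZero.one_le
  constructor
  · intro i j hij
    have hij' : (i : ℕ) ≤ j := hij
    unfold ax
    split_ifs with h1 h2
    · exact le_rfl
    · omega
    · exact hε1
    · exact le_rfl
  · exact hpos
  · intro v k
    have h1 : ax (Module.finrank ℝ L) ε k * |inner ℝ (b k) (v : Eu n)| =
        |inner ℝ (b k) (AA L ε (v : Eu n))| := by
      rw [← inner_AA, hA, real_inner_smul_left, abs_mul, abs_of_pos (hpos k)]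
    rw [h1]
    refine (abs_real_inner_le_norm _ _).trans ?_
    rw [b.norm_eq_one, one_mul]
    show hh L ε v ≤ √n * hh L ε v
    have h2 := hh_pos L ε hε0 v
    nlinarith
  · intro x hx k
    let v : Sph n := ⟨b k, by rw [mem_sphere_zero_iff_norm]; exact b.norm_eq_one k⟩
    have h1 : hh L ε v = ax (Module.finrank ℝ L) ε k := by
      show ‖AA L ε (b k)‖ = _
      rw [hA, norm_smul, b.norm_eq_one, mul_one, Real.norm_eq_abs, abs_of_pos (hpos k)]
    have h2 : |inner ℝ (b k) x| ≤ hh L ε v := by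
      rw [real_inner_comm]
      have h3 := hx v
      have h4 := neg_mem_wulff (hh_even L ε) hx v
      rw [inner_neg_left] at h4
      rw [abs_le]
      constructor
      · show - hh L ε v ≤ inner ℝ x (v : Eu n)
        linarith
      · exact h3
    rw [h1] at h2
    refine h2.trans ?_
    have := hpos k
    nlinarith

end A

/-- the statement of `peak` with the lower bound for `II` as a hypothesis -/
theorem peak_of {n : ℕ} [NeZero n] {G : Subgroup (Eu n ≃ₗᵢ[ℝ] Eu n)}
    (μ : Measure (Sph n)) [IsProbabilityMeasure μ] {q : ℝ}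
    (hq : (n : ℝ) < q)
    (hbox : ∃ c : ℝ, 0 < c ∧ ∀ h : Sph n → ℝ, Continuous h → (∀ v, 0 < h v) →
      (∀ v, h (-v) = h v) → ∀ (b : OrthonormalBasis (Fin n) ℝ (Eu n)) (a : Fin n → ℝ),
      Bx h b a → (∃ k, 1 ≤ n * a k) → c * ∏ k, a k ≤ II q h)
    {L : Submodule ℝ (Eu n)} (hL : Heavy G q μ L) {δ : ℝ} (hδ : 0 < δ)
    (C : ℝ) :
    ∃ h : Sph n → ℝ, Bd G h ∧ C < Psi μ q h ∧ ∃ r r' : ℝ, 0 < r ∧ r < r' ∧
      (∀ v : Sph n, (v : Eu n) ∈ L → h v ≤ r) ∧
      (∀ v : Sph n, δ ≤ infDist (v : Eu n) (L : Set (Eu n)) → r' ≤ h v) := by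
  obtain ⟨hInv, hbot, htop, hmass⟩ := hL
  have hn : (1:ℝ) ≤ n := by exact_mod_cast NeZero.one_le
  have hq0 : 0 < q := by linarith
  set d := Module.finrank ℝ L with hd
  have hdn : d < n := by
    have := Submodule.finrank_lt htop
    rwa [finrank_euclideanSpace_fin] at this
  obtain ⟨c, hc, hII⟩ := hbox
  set s : ℝ := mass μ L - d / q with hs
  have hs0 : 0 < s := by rw [hs]; linarith
  set T : ℝ := (|C - (1 / q) * Real.log c| + 1) / s with hT
  set ε : ℝ := min (1 / 2) (min (δ / 2) (Real.exp (-T))) with hε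
  have hε0 : 0 < ε := by
    rw [hε]
    refine lt_min (by norm_num) (lt_min (by linarith) (Real.exp_pos _))
  have hε1 : ε ≤ 1 := (min_le_left _ _).trans (by norm_num)
  have hεδ : ε ≤ δ / 2 := (min_le_right _ _).trans (min_le_left _ _)
  have hεT : Real.log ε ≤ -T := by
    rw [Real.log_le_iff_le_exp hε0]
    exact (min_le_right _ _).trans (min_le_right _ _)
  refine ⟨XPeak.hh L ε, XPeak.Bd_hh L ε hInv htop hε0 hε1, ?_, ε, δ, hε0, by linarith, ?_, ?_⟩
  · obtain ⟨b, hb1, hb2⟩ := XPeak.exists_basis L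
    have hB := XPeak.Bx_hh L ε hε0 hε1 hb1 hb2
    have h1 := hII (XPeak.hh L ε) (XPeak.continuous_hh L ε) (XPeak.hh_pos L ε hε0)
      (XPeak.hh_even L ε) b _ hB ⟨⟨0, NeZero.pos n⟩, by
        unfold XPeak.ax
        rw [if_pos (by show 0 < n - Module.finrank ℝ L; omega), mul_one]
        exact hn⟩
    rw [XPeak.prod_ax hdn.le] at h1
    have h2 : Real.log (c * ε ^ d) ≤ Real.log (II q (XPeak.hh L ε)) :=
      Real.log_le_log (by positivity) h1
    rw [Real.log_mul hc.ne' (by positivity), Real.log_pow] at h2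
    have h3 : ∫ v, Real.log (XPeak.hh L ε v) ∂μ ≤ mass μ L * Real.log ε := by
      have hmeas : MeasurableSet {v : Sph n | (v : Eu n) ∈ L} := by
        have hcl : IsClosed {v : Sph n | (v : Eu n) ∈ L} :=
          (Submodule.closed_of_finiteDimensional L).preimage continuous_subtype_val
        exact hcl.measurableSet
      have h4 : ∫ v, Real.log (XPeak.hh L ε v) ∂μ ≤
          ∫ v, ({v : Sph n | (v : Eu n) ∈ L}.indicator (fun _ => Real.log ε)) v ∂μ := by
        apply integral_mono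
        · exact integrable_log (XPeak.continuous_hh L ε) (XPeak.hh_pos L ε hε0) μ
        · exact (integrable_const _).indicator hmeas
        · intro v
          show Real.log (XPeak.hh L ε v) ≤
            ({v : Sph n | (v : Eu n) ∈ L}.indicator (fun _ => Real.log ε)) v
          by_cases hv : (v : Eu n) ∈ L
          · rw [indicator_of_mem (show v ∈ {v : Sph n | (v : Eu n) ∈ L} from hv)]
            have h5 : XPeak.hh L ε v = ε := by
              unfold XPeak.hh
              rw [XPeak.AA_of_mem L ε hv, norm_smul, norm_sph, mul_one, Real.norm_eq_abs,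
                abs_of_pos hε0]
            rw [h5]
          · rw [indicator_of_notMem (show v ∉ {v : Sph n | (v : Eu n) ∈ L} from hv)]
            apply Real.log_nonpos (XPeak.hh_pos L ε hε0 v).le
            exact (XPeak.norm_AA_le L ε hε0 hε1 _).trans (norm_sph v).le
      refine h4.trans (le_of_eq ?_)
      rw [integral_indicator_const _ hmeas, smul_eq_mul]
      rfl
    unfold Psi
    have h4 : (1 / q) * (Real.log c + d * Real.log ε) ≤
        (1 / q) * Real.log (II q (XPeak.hh L ε)) :=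
      mul_le_mul_of_nonneg_left h2 (by positivity)
    have h5 : s * T = |C - (1 / q) * Real.log c| + 1 := by
      rw [hT]; field_simp
    have h6 : s * T ≤ s * (- Real.log ε) := mul_le_mul_of_nonneg_left (by linarith) hs0.le
    have h7 : C - (1 / q) * Real.log c ≤ |C - (1 / q) * Real.log c| := le_abs_self _
    have h8 : s * (- Real.log ε) = (1 / q) * (d * Real.log ε) - mass μ L * Real.log ε := by
      rw [hs]; ring
    have h9 : (1 / q) * (Real.log c + d * Real.log ε) =
        (1 / q) * Real.log c + (1 / q) * (d * Real.log ε) := by ring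
    linarith
  · intro v hv
    show ‖XPeak.AA L ε (v : Eu n)‖ ≤ ε
    rw [XPeak.AA_of_mem L ε hv, norm_smul, norm_sph, mul_one, Real.norm_eq_abs, abs_of_pos hε0]
  · intro v hv
    exact hv.trans (XPeak.infDist_le_AA L ε _)

end XPeak

theorem peak {n : ℕ} [NeZero n] {G : Subgroup (Eu n ≃ₗᵢ[ℝ] Eu n)}
    (hneg : LinearIsometryEquiv.neg ℝ ∈ G) (μ : Measure (Sph n)) [IsProbabilityMeasure μ] {q : ℝ}
    (hq : (n : ℝ) < q) {L : Submodule ℝ (Eu n)} (hL : Heavy G q μ L) {δ : ℝ} (hδ : 0 < δ)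
    (C : ℝ) :
    ∃ h : Sph n → ℝ, Bd G h ∧ C < Psi μ q h ∧ ∃ r r' : ℝ, 0 < r ∧ r < r' ∧
      (∀ v : Sph n, (v : Eu n) ∈ L → h v ≤ r) ∧
      (∀ v : Sph n, δ ≤ infDist (v : Eu n) (L : Set (Eu n)) → r' ≤ h v) :=
  let _ := hneg
  XPeak.peak_of μ hq (II_ge_box hq) hL hδ C

end Pool.Agent.Lib.MP_b0d2bf_gt
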