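import Mathlib
import Pool.Agent.Lib.MP_b0d2bf_gt.XDefs2

set_option autoImplicit false

/-!
Scaling a solution of the normalised equation to a body with the prescribed dual curvature measure.
-/

namespace Pool.Agent.Lib.MP_b0d2bf_gt

open MeasureTheory Metric Set Filter Topology

namespace XScale

variable {n : ℕ}

lemma gN_mul [NeZero n] {g : Sph n → ℝ} (hc : Continuous g) (h0 : ∀ v, 0 < g v) {l : ℝ}
    (hl : 0 < l) (x : Eu n) : gN (fun v => l * g v) x = l⁻¹ * gN g x := by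
  have hc' : Continuous (fun v => l * g v) := continuous_const.mul hc
  have h0' : ∀ v, 0 < l * g v := fun v => mul_pos hl (h0 v)
  have key : ∀ v : Sph n, inner ℝ x (v : Eu n) / (l * g v) =
      l⁻¹ * (inner ℝ x (v : Eu n) / g v) := by
    intro v
    rw [mul_comm l (g v), ← div_div, div_eq_inv_mul _ l]
  apply le_antisymm
  · obtain ⟨v, hv⟩ := exists_gN hc' h0' x
    rw [hv, key]
    exact mul_le_mul_of_nonneg_left (le_gN hc h0 x v) (inv_pos.2 hl).le
  · obtain ⟨v, hv⟩ := exists_gN hc h0 x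
    rw [hv, ← key]
    exact le_gN hc' h0' x v

lemma isMx_mul [NeZero n] {g : Sph n → ℝ} (hc : Continuous g) (h0 : ∀ v, 0 < g v) {l : ℝ}
    (hl : 0 < l) (x : Eu n) (v : Sph n) : IsMx (fun v => l * g v) x v ↔ IsMx g x v := by
  show inner ℝ x (v : Eu n) / (l * g v) = gN (fun v => l * g v) x ↔
    inner ℝ x (v : Eu n) / g v = gN g x
  rw [gN_mul hc h0 hl, mul_comm l (g v), ← div_div, div_eq_inv_mul _ l]
  constructor
  · intro h
    exact mul_left_cancel₀ (inv_pos.2 hl).ne' h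
  · intro h
    rw [h]

lemma nu_mul [NeZero n] {g : Sph n → ℝ} (hc : Continuous g) (h0 : ∀ v, 0 < g v) {l : ℝ}
    (hl : 0 < l) : ∀ᵐ u ∂(sg n), nu (fun v => l * g v) u = nu g u := by
  have hc' : Continuous (fun v => l * g v) := continuous_const.mul hc
  have h0' : ∀ v, 0 < l * g v := fun v => mul_pos hl (h0 v)
  filter_upwards [ae_diff hc h0, ae_diff hc' h0'] with u h1 h2
  refine nu_eq hc' h0' h2 ?_
  rw [isMx_mul hc h0 hl]
  exact isMx_nu hc h0 h1

lemma MM_mul [NeZero n] {g : Sph n → ℝ} (hc : Continuous g) (h0 : ∀ v, 0 < g v) {l : ℝ}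
    (hl : 0 < l) (q : ℝ) {ω : Set (Sph n)} (hω : MeasurableSet ω) :
    MM q (fun v => l * g v) ω = ENNReal.ofReal (l ^ q) * MM q g ω := by
  rw [MM_apply q _ hω, MM_apply q _ hω]
  have h1 : nu (fun v => l * g v) ⁻¹' ω =ᵐ[sg n] nu g ⁻¹' ω := by
    filter_upwards [nu_mul hc h0 hl] with u hu
    apply propext
    show nu (fun v => l * g v) u ∈ ω ↔ nu g u ∈ ω
    rw [hu]
  rw [Measure.restrict_congr_set h1]
  rw [← lintegral_const_mul _ (continuous_radpow hc h0 q).measurable.ennreal_ofReal]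
  refine lintegral_congr fun u => ?_
  have h2 : 0 < gN g (u : Eu n) := gN_pos hc h0 (sph_ne_zero u)
  rw [gN_mul hc h0 hl, mul_inv, inv_inv, Real.mul_rpow hl.le (inv_pos.2 h2).le,
    ENNReal.ofReal_mul (Real.rpow_nonneg hl.le q)]

end XScale

open XScale in
theorem body_of_MM {n : ℕ} [NeZero n] {G : Subgroup (Eu n ≃ₗᵢ[ℝ] Eu n)} {q : ℝ}
    (hq : (n : ℝ) < q) (μ : Measure (Sph n)) [IsFiniteMeasure μ] (hμ0 : μ ≠ 0)
    {g : Sph n → ℝ} (hB : Bd G g)
    (hM : MM q g = ENNReal.ofReal (II q g) • ((μ univ)⁻¹ • μ)) :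
    ∃ K : Set (Eu n), IsSymBody K ∧ (∀ γ ∈ G, ∀ x ∈ K, γ x ∈ K) ∧
      ∀ ω, MeasurableSet ω →
        NullMeasurableSet (invGauss K ω) ((volume : Measure (Eu n)).toSphere) ∧
        dualCurv q K ω = μ ω := by
  have hn : 0 < n := NeZero.pos n
  have hn' : (0:ℝ) < n := by exact_mod_cast hn
  have hq0 : 0 < q := hn'.trans hq
  have huniv : μ univ ≠ 0 := fun h => hμ0 (Measure.measure_univ_eq_zero.1 h)
  have huniv' : μ univ ≠ ⊤ := measure_ne_top _ _
  have hm0 : 0 < μ.real univ := ENNReal.toReal_pos huniv huniv'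
  have hgc := hB.cont
  have hg0 := hB.pos
  have hIpos := II_pos hgc hg0 q
  obtain ⟨l, hl⟩ : ∃ l : ℝ, l = (n * μ.real univ / II q g) ^ (1 / q) := ⟨_, rfl⟩
  have hb0 : 0 < n * μ.real univ / II q g := by positivity
  have hl0 : 0 < l := hl ▸ Real.rpow_pos_of_pos hb0 _
  have hlq : l ^ q = n * μ.real univ / II q g := by
    rw [hl, ← Real.rpow_mul hb0.le, one_div, inv_mul_cancel₀ hq0.ne', Real.rpow_one]
  have hc : Continuous (fun v => l * g v) := continuous_const.mul hgc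
  have h0 : ∀ v, 0 < l * g v := fun v => mul_pos hl0 (hg0 v)
  have he : ∀ v, l * g (-v) = l * g v := fun v => by rw [hB.even]
  have hs : ∀ v, supp (fun v => l * g v) v = l * g v :=
    fun v => supp_smul hgc hg0 hB.supp hl0 v
  have hi : FInv G (fun v => l * g v) := by
    intro γ hγ v
    show l * g (actS γ v) = l * g v
    rw [hB.inv γ hγ v]
  refine ⟨wulff (fun v => l * g v), ⟨convex_wulff, isCompact_wulff hc h0,
    ⟨0, interior_wulff hc h0⟩, fun x hx => neg_mem_wulff he hx⟩,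
    fun γ hγ x hx => wulff_act hi hγ hx, fun ω hω => ⟨invGauss_null hc h0 hs hω, ?_⟩⟩
  rw [dualCurv_wulff hc h0 hs q hω, MM_mul hgc hg0 hl0 q hω, hM, Measure.smul_apply,
    Measure.smul_apply, smul_eq_mul, smul_eq_mul, hlq]
  have h1 : ENNReal.ofReal (n * μ.real univ / II q g) * ENNReal.ofReal (II q g) =
      (n : ENNReal) * μ univ := by
    rw [← ENNReal.ofReal_mul hb0.le, div_mul_cancel₀ _ hIpos.ne',
      ENNReal.ofReal_mul hn'.le, ENNReal.ofReal_natCast]
    congr 1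
    exact ENNReal.ofReal_toReal huniv'
  calc (n : ENNReal)⁻¹ * (ENNReal.ofReal (n * μ.real univ / II q g) *
        (ENNReal.ofReal (II q g) * ((μ univ)⁻¹ * μ ω)))
      = (n : ENNReal)⁻¹ * ((ENNReal.ofReal (n * μ.real univ / II q g) *
        ENNReal.ofReal (II q g)) * ((μ univ)⁻¹ * μ ω)) := by rw [mul_assoc]
    _ = (n : ENNReal)⁻¹ * ((n : ENNReal) * μ univ * ((μ univ)⁻¹ * μ ω)) := by rw [h1]
    _ = ((n : ENNReal)⁻¹ * (n : ENNReal)) * ((μ univ)⁻¹ * μ univ) * μ ω := by ring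
    _ = μ ω := by
      rw [ENNReal.inv_mul_cancel (by exact_mod_cast hn.ne') (ENNReal.natCast_ne_top n),
        ENNReal.inv_mul_cancel huniv huniv', one_mul, one_mul]

end Pool.Agent.Lib.MP_b0d2bf_gt
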