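import Mathlib
import Pool.Agent.Lib.MP_b0d2bf_gt.XDefs2

set_option autoImplicit false

/-!
The sets `UU` are open and disjoint.
-/

namespace Pool.Agent.Lib.MP_b0d2bf_gt

open MeasureTheory Metric Set Filter Topology

theorem isOpen_UU {n : ℕ} [NeZero n] (δ : ℝ) (A : Set (Submodule ℝ (Eu n))) :
    IsOpen (UU δ A) := by
  rw [Metric.isOpen_iff]
  rintro f ⟨W, hW, L, hL, r, r', hr, hrr, h1, h2⟩
  have hr' : 0 < r' := hr.trans hrr
  have hlog : 0 < Real.log (r' / r) := Real.log_pos ((one_lt_div hr).2 hrr)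
  set d := Real.log (r' / r) / 3 with hd
  have hd0 : 0 < d := by positivity
  refine ⟨d, hd0, fun g hg => ?_⟩
  rw [mem_ball] at hg
  have hfg : ∀ v, |f v - g v| ≤ d := by
    intro v
    have := ContinuousMap.dist_apply_le_dist (f := f) (g := g) v
    rw [Real.dist_eq, dist_comm f g] at this
    exact this.trans hg.le
  have hkey : Real.exp d * r < Real.exp (-d) * r' := by
    have h3 : Real.exp (d + d) * r < r' := by
      have h4 : d + d < Real.log (r' / r) := by rw [hd]; linarith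
      have h5 := (Real.lt_log_iff_exp_lt (by positivity)).1 h4
      rwa [lt_div_iff₀ hr] at h5
    have h6 : Real.exp d * r = Real.exp (-d) * (Real.exp (d + d) * r) := by
      rw [← mul_assoc, ← Real.exp_add]
      congr 2; ring
    rw [h6]
    exact mul_lt_mul_of_pos_left h3 (Real.exp_pos _)
  refine ⟨W, hW, L, hL, Real.exp d * r, Real.exp (-d) * r', by positivity, hkey,
    fun v hv => ?_, fun v hv => ?_⟩
  · have h3 := supp_le_mul (continuous_ex g) (ex_pos g) (continuous_ex f) (ex_pos f)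
      (Real.exp_pos d) (ex_le_of_norm (f := g) (g := f)
        (fun v => by rw [abs_sub_comm]; exact hfg v)) v
    exact h3.trans (mul_le_mul_of_nonneg_left (h1 v hv) (Real.exp_pos d).le)
  · have h3 := supp_le_mul (continuous_ex f) (ex_pos f) (continuous_ex g) (ex_pos g)
      (Real.exp_pos d) (ex_le_of_norm hfg) v
    have h4 := (h2 v hv).trans h3
    rw [Real.exp_neg, inv_mul_le_iff₀ (Real.exp_pos d)]
    exact h4

theorem disjoint_UU {n : ℕ} [NeZero n] {A B : Set (Submodule ℝ (Eu n))} {δ : ℝ}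
    (hδ : ∀ W ∈ A, ∀ L ∈ B,
      (∃ v : Sph n, (v : Eu n) ∈ W ∧ δ ≤ infDist (v : Eu n) (L : Set (Eu n))) ∧
      ∃ v : Sph n, (v : Eu n) ∈ L ∧ δ ≤ infDist (v : Eu n) (W : Set (Eu n))) :
    Disjoint (UU δ A) (UU δ B) := by
  rw [Set.disjoint_left]
  rintro f ⟨W₁, hW₁, L₁, hL₁, r₁, r₁', -, hr₁, h1, h1'⟩ ⟨W₂, hW₂, L₂, hL₂, r₂, r₂', -, hr₂, h2, h2'⟩
  obtain ⟨v, hv1, hv2⟩ := (hδ W₁ hW₁ L₂ hL₂).1
  obtain ⟨w, hw1, hw2⟩ := (hδ L₁ hL₁ W₂ hW₂).2
  have a1 := h1 v hv1
  have a2 := h2' v hv2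
  have a3 := h2 w hw1
  have a4 := h1' w hw2
  linarith

end Pool.Agent.Lib.MP_b0d2bf_gt
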