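import Mathlib
import Pool.Agent.Lib.MP_b0d2bf_gt.XMpl
import Pool.Agent.Lib.MP_b0d2bf_gt.XDF
import Pool.Agent.Lib.MP_b0d2bf_gt.XCpt
import Pool.Agent.Lib.MP_b0d2bf_gt.XLight
import Pool.Agent.Lib.MP_b0d2bf_gt.XDelta
import Pool.Agent.Lib.MP_b0d2bf_gt.XCover
import Pool.Agent.Lib.MP_b0d2bf_gt.XUU
import Pool.Agent.Lib.MP_b0d2bf_gt.XPeak
import Pool.Agent.Lib.MP_b0d2bf_gt.XCrit
import Pool.Agent.Lib.MP_b0d2bf_gt.XMeas
import Pool.Agent.Lib.MP_b0d2bf_gt.XSig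
import Pool.Agent.Lib.MP_b0d2bf_gt.XScale

set_option autoImplicit false

/-!
Assembly: existence theorems with symmetry group.
-/

namespace Pool.Agent.Lib.MP_b0d2bf_gt

open MeasureTheory Metric Set Filter Topology

section XFin

variable {n : ℕ} [NeZero n] {G : Subgroup (Eu n ≃ₗᵢ[ℝ] Eu n)} {q : ℝ}

lemma crit_zero {μ σ : Measure (Sph n)} [IsProbabilityMeasure μ] [IsProbabilityMeasure σ]
    (hq : 0 < q) {M : ℝ} {p : XS G}
    (hp : ∀ φ : XS G, ¬ ∃ δ > 0, ∃ ε > 0, ∀ x ∈ ball p δ, ∀ s ∈ Icc (0:ℝ) δ,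
      FM q μ σ M (x : C(Sph n, ℝ)) + ε * s ≤ FM q μ σ M ((x + s • φ : XS G) : C(Sph n, ℝ)))
    (φ : XS G) : dF q μ σ M (p : C(Sph n, ℝ)) (φ : C(Sph n, ℝ)) = 0 := by
  apply le_antisymm (crit_of_no_push hq (hp φ))
  have h1 := crit_of_no_push hq (hp (-φ))
  have h2 : ((-φ : XS G) : C(Sph n, ℝ)) = -(φ : C(Sph n, ℝ)) := rfl
  rw [h2, dF_neg] at h1
  linarith

lemma FM_self (μ : Measure (Sph n)) (f : C(Sph n, ℝ)) : FM q μ μ 0 f = Psi μ q (ex f) := by
  unfold FM Uf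
  rw [sub_self, pen_zero le_rfl, sub_zero]

/-- existence for light measures -/
theorem exists_light [Finite G] (hneg : LinearIsometryEquiv.neg ℝ ∈ G) (hq : (n : ℝ) < q)
    (μ : Measure (Sph n)) [IsProbabilityMeasure μ] (hμ : MInv G μ)
    (hL : ∀ L : Submodule ℝ (Eu n), SInv G L → L ≠ ⊥ → L ≠ ⊤ →
      mass μ L < Module.finrank ℝ L / q) :
    ∃ g : Sph n → ℝ, Bd G g ∧ MM q g = ENNReal.ofReal (II q g) • μ := by
  have hn : (0:ℝ) < n := by exact_mod_cast NeZero.pos n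
  have hq0 : 0 < q := hn.trans hq
  set F : XS G → ℝ := fun f => FM q μ μ 0 (f : C(Sph n, ℝ)) with hF
  have hFc : Continuous F := (continuous_FM hq0 0).comp continuous_subtype_val
  have hinc : ∀ f, F f ≤ F (rhoX f) := fun f => FM_le_rhoX hq0 μ μ 0 f
  set c := F (rhoX 0) with hc
  obtain ⟨c0, hc0, hlow⟩ := light_bound (G := G) μ hq hL c
  have hcomp : IsCompact {f : XS G | rhoX f = f ∧ c ≤ F f} := by
    refine cpt_of_low hneg hFc hc0 fun f hf hcf v => ?_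
    refine hlow _ (Bd_of_fix hneg hf) ?_ v
    rw [← FM_self]
    exact hcf
  obtain ⟨p, hp, hmax⟩ := hcomp.exists_isMaxOn ⟨rhoX 0, rhoX_idem hneg 0, le_rfl⟩
    hFc.continuousOn
  have hglob : ∀ f, F f ≤ F p := by
    intro f
    refine (hinc f).trans ?_
    rcases le_total c (F (rhoX f)) with h | h
    · exact hmax ⟨rhoX_idem hneg f, h⟩
    · exact h.trans hp.2
  have hcr : ∀ φ : XS G, dF q μ μ 0 (p : C(Sph n, ℝ)) (φ : C(Sph n, ℝ)) = 0 := by
    refine crit_zero hq0 fun φ => ?_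
    rintro ⟨δ, hδ, ε, hε, h1⟩
    have h2 := h1 p (mem_ball_self hδ) δ ⟨hδ.le, le_rfl⟩
    have h3 := hglob (p + δ • φ)
    have h4 : 0 < ε * δ := mul_pos hε hδ
    simp only [hF] at h3
    linarith
  have h1 := measure_of_crit hq0 hμ hμ hcr
  have h2 : Uf μ μ (p : C(Sph n, ℝ)) = 0 := by unfold Uf; exact sub_self _
  refine ⟨_, Bd_of_fix hneg hp.1, ?_⟩
  unfold CEq at h1
  rw [h2, pen'_zero le_rfl, sub_zero, sub_self, ENNReal.ofReal_one, ENNReal.ofReal_zero, one_smul,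
    zero_smul, add_zero] at h1
  exact h1

/-- the mountain pass theorem for measures whose heavy subspaces split -/
theorem exists_split [Finite G] (hneg : LinearIsometryEquiv.neg ℝ ∈ G) (hq : (n : ℝ) < q)
    (μ : Measure (Sph n)) [IsProbabilityMeasure μ] (hμ : MInv G μ) (hnd : Nondeg G q μ)
    {A B : Set (Submodule ℝ (Eu n))} (hS : Split G q μ A B) (hA : A.Nonempty)
    (hB : B.Nonempty) :
    ∃ g : Sph n → ℝ, Bd G g ∧ MM q g = ENNReal.ofReal (II q g) • μ := by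
  have hn : (0:ℝ) < n := by exact_mod_cast NeZero.pos n
  have hq0 : 0 < q := hn.trans hq
  have hσp : IsProbabilityMeasure (sgu n) := isProb_sgu
  have hσi : MInv G (sgu n) := MInv_sgu G
  have hσm : ∀ L : Submodule ℝ (Eu n), L ≠ ⊤ → mass (sgu n) L = 0 := fun L hL => mass_sgu hL
  obtain ⟨δ, hδ0, hδ1, hδ⟩ := split_delta μ hq0 hnd hS
  obtain ⟨C0, hC0⟩ := cover hneg μ hμ hq hnd hS hδ0
  obtain ⟨L₁, hL₁⟩ := hA
  obtain ⟨L₂, hL₂⟩ := hB
  obtain ⟨h₁, hB1, hP1, r₁, r₁', hr1, hr1', ha1, hb1⟩ :=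
    peak hneg μ hq ((hS.heavy L₁).2 (Or.inl hL₁)) hδ0 C0
  obtain ⟨h₂, hB2, hP2, r₂, r₂', hr2, hr2', ha2, hb2⟩ :=
    peak hneg μ hq ((hS.heavy L₂).2 (Or.inr hL₂)) hδ0 C0
  obtain ⟨f₁, hf1, hf1'⟩ := exists_of_Bd hB1
  obtain ⟨f₂, hf2, hf2'⟩ := exists_of_Bd hB2
  obtain ⟨c, hc0, hcrit⟩ := crit_bound (G := G) (σ := sgu n) hμ hσm hq hnd (C0 + 1)
  -- choice of the parameter
  set M : ℝ := max (max (Uf (sgu n) μ f₁) (Uf (sgu n) μ f₂)) (max 0 (-Real.log c)) with hM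
  have hM1 : Uf (sgu n) μ f₁ ≤ M := (le_max_left _ _).trans (le_max_left _ _)
  have hM2 : Uf (sgu n) μ f₂ ≤ M := (le_max_right _ _).trans (le_max_left _ _)
  have hM3 : -Real.log c ≤ M := (le_max_right _ _).trans (le_max_right _ _)
  set F : XS G → ℝ := fun f => FM q μ (sgu n) M (f : C(Sph n, ℝ)) with hF
  have hFc : Continuous F := (continuous_FM hq0 M).comp continuous_subtype_val
  have hFP : ∀ f : XS G, F f ≤ Psi μ q (ex (f : C(Sph n, ℝ))) := by
    intro f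
    have := pen_nonneg M (Uf (sgu n) μ (f : C(Sph n, ℝ)))
    simp only [hF]
    unfold FM
    linarith
  have hcpt : ∀ c : ℝ, IsCompact {f : XS G | rhoX f = f ∧ c ≤ F f} := by
    intro c
    obtain ⟨c0, hc0, hlow⟩ := light_bound (G := G) (sgu n) hq (fun L _ hL0 hL1 => by
      rw [hσm L hL1]
      have h1 : Nontrivial L := (Submodule.nontrivial_iff_ne_bot).2 hL0
      have : 0 < Module.finrank ℝ L := Module.finrank_pos
      positivity) (c - M - 1 / 2)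
    refine cpt_of_low hneg hFc hc0 fun f hf hcf v => ?_
    refine hlow _ (Bd_of_fix hneg hf) ?_ v
    have h1 : F f = Psi (sgu n) q (ex (f : C(Sph n, ℝ))) +
      (Uf (sgu n) μ (f : C(Sph n, ℝ)) - pen M (Uf (sgu n) μ (f : C(Sph n, ℝ)))) := FM_eq _ _ _ _ _
    have h2 := sub_pen_le M (Uf (sgu n) μ (f : C(Sph n, ℝ)))
    linarith
  obtain ⟨p, hp1, hp2, hp3⟩ := mountain_pass (F := F) (ρ := rhoX) (C := C0) (x₁ := f₁) (x₂ := f₂)
    hFc continuous_rhoX (rhoX_idem hneg) (fun f => FM_le_rhoX hq0 μ (sgu n) M f) hcpt hf1 hf2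
    (by
      intro S hSc hSf hS1 hS2
      by_contra hcon
      push Not at hcon
      have hcov : (fun f : XS G => (f : C(Sph n, ℝ))) '' S ⊆ UU δ A ∪ UU δ B := by
        rintro _ ⟨f, hf, rfl⟩
        exact hC0 f (hSf f hf) ((hcon f hf).trans_le (hFP f))
      have hconn : IsPreconnected ((fun f : XS G => (f : C(Sph n, ℝ))) '' S) :=
        hSc.image _ continuous_subtype_val.continuousOn
      have hm1 : (f₁ : C(Sph n, ℝ)) ∈ UU δ A := by
        refine ⟨L₁, hL₁, L₁, hL₁, r₁, r₁', hr1, hr1', fun v hv => ?_, fun v hv => ?_⟩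
        · rw [hf1', hB1.supp]; exact ha1 v hv
        · rw [hf1', hB1.supp]; exact hb1 v hv
      have hm2 : (f₂ : C(Sph n, ℝ)) ∈ UU δ B := by
        refine ⟨L₂, hL₂, L₂, hL₂, r₂, r₂', hr2, hr2', fun v hv => ?_, fun v hv => ?_⟩
        · rw [hf2', hB2.supp]; exact ha2 v hv
        · rw [hf2', hB2.supp]; exact hb2 v hv
      obtain ⟨f, hfS, hfA, hfB⟩ := hconn _ _ (isOpen_UU δ A) (isOpen_UU δ B) hcov
        ⟨_, ⟨f₁, hS1, rfl⟩, hm1⟩ ⟨_, ⟨f₂, hS2, rfl⟩, hm2⟩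
      exact Set.disjoint_left.1 (disjoint_UU hδ) hfA hfB)
    (by
      have : F f₁ = Psi μ q h₁ := by
        simp only [hF]
        unfold FM
        rw [pen_zero hM1, hf1', sub_zero]
      rw [this]; exact hP1)
    (by
      have : F f₂ = Psi μ q h₂ := by
        simp only [hF]
        unfold FM
        rw [pen_zero hM2, hf2', sub_zero]
      rw [this]; exact hP2)
  have hcr : ∀ φ : XS G, dF q μ (sgu n) M (p : C(Sph n, ℝ)) (φ : C(Sph n, ℝ)) = 0 :=
    crit_zero hq0 hp3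
  have hBp := Bd_of_fix hneg hp1
  have hE := measure_of_crit hq0 hμ hσi hcr
  set u := Uf (sgu n) μ (p : C(Sph n, ℝ)) with hu
  have hpm := pen'_mem M u
  by_cases hMu : u ≤ M
  · refine ⟨_, hBp, ?_⟩
    unfold CEq at hE
    rw [pen'_zero hMu, sub_zero, sub_self, ENNReal.ofReal_one, ENNReal.ofReal_zero, one_smul,
      zero_smul, add_zero] at hE
    exact hE
  · exfalso
    rw [not_le] at hMu
    -- the body is degenerate
    have hneg1 : ∀ v, (p : C(Sph n, ℝ)) v ≤ 0 := by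
      intro v
      have := hBp.le v
      unfold ex at this
      rwa [Real.exp_le_one_iff] at this
    obtain ⟨w, -, hw⟩ := isCompact_univ.exists_isMinOn (univ_nonempty (α := Sph n))
      (p : C(Sph n, ℝ)).continuous.continuousOn
    have hw' : ∀ v, (p : C(Sph n, ℝ)) w ≤ (p : C(Sph n, ℝ)) v := fun v => hw (mem_univ v)
    have hU : u ≤ - (p : C(Sph n, ℝ)) w := by
      have h1 : ∫ v, (p : C(Sph n, ℝ)) v ∂(sgu n) ≤ 0 := integral_nonpos hneg1
      have h2 : (p : C(Sph n, ℝ)) w ≤ ∫ v, (p : C(Sph n, ℝ)) v ∂μ := by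
        have h3 : ∫ _v : Sph n, (p : C(Sph n, ℝ)) w ∂μ ≤ ∫ v, (p : C(Sph n, ℝ)) v ∂μ :=
          integral_mono (integrable_const _) (integrable_cm μ (p : C(Sph n, ℝ)).continuous) hw'
        rwa [integral_const, probReal_univ, one_smul] at h3
      rw [hu]
      unfold Uf
      linarith
    have hlow : ex (p : C(Sph n, ℝ)) w < c := by
      unfold ex
      rw [← Real.lt_log_iff_exp_lt hc0]
      linarith
    obtain ⟨ht, hPsi⟩ := hcrit _ (1 - pen' M u) hBp ⟨by linarith [hpm.2], by linarith [hpm.1]⟩ hE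
      ⟨w, hlow⟩
    have ht' : pen' M u < 1 := by
      have : 0 < 1 / (2 * q) := by positivity
      linarith
    have hu1 : u ≤ M + 1 := by
      by_contra hcon
      rw [not_le] at hcon
      rw [pen'_one hcon.le] at ht'
      exact lt_irrefl _ ht'
    have hpen := pen_le_half hu1
    have hFp : F p = Psi μ q (ex (p : C(Sph n, ℝ))) - pen M u := rfl
    linarith

end XFin

end Pool.Agent.Lib.MP_b0d2bf_gt
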