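import Mathlib
import Pool.Agent.Lib.MP_b0d2bf_gt.XDefs2

set_option autoImplicit false

/-!
Definitions for the topological existence theorem.
-/

namespace Pool.Agent.Lib.MP_b0d2bf_gt

open MeasureTheory Metric Set Filter Topology

variable {n : ℕ}

/-- minimal heavy subspace -/
def MinHeavy (G : Subgroup (Eu n ≃ₗᵢ[ℝ] Eu n)) (q : ℝ) (μ : Measure (Sph n))
    (Z : Submodule ℝ (Eu n)) : Prop :=
  Heavy G q μ Z ∧ ∀ W, Heavy G q μ W → W ≤ Z → W = Z

/-- the type of minimal heavy subspaces -/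
abbrev ZZ (G : Subgroup (Eu n ≃ₗᵢ[ℝ] Eu n)) (q : ℝ) (μ : Measure (Sph n)) : Type :=
  {Z : Submodule ℝ (Eu n) // MinHeavy G q μ Z}

variable {G : Subgroup (Eu n ≃ₗᵢ[ℝ] Eu n)} {q : ℝ} {μ : Measure (Sph n)}

/-- linear span of a set of minimal heavy subspaces -/
def spn (S : Set (ZZ G q μ)) : Submodule ℝ (Eu n) := ⨆ Z ∈ S, (Z : Submodule ℝ (Eu n))

/-- the open cone over the complex of sets of minimal heavy subspaces with proper span -/
def CC (G : Subgroup (Eu n ≃ₗᵢ[ℝ] Eu n)) (q : ℝ) (μ : Measure (Sph n)) : Set (ZZ G q μ → ℝ) :=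
  {x | (∀ Z, 0 ≤ x Z) ∧ (∃ Z, 0 < x Z) ∧ spn {Z | 0 < x Z} ≠ ⊤}

/-- support function of the body with size `exp (-x Z)` on `Z` -/
noncomputable def hb (x : ZZ G q μ → ℝ) (v : Sph n) : ℝ :=
  ⨆ t : {t : ℝ // 0 ≤ t}, Real.exp (-(t : ℝ)) *
    infDist (v : Eu n) (spn {Z | (t : ℝ) < x Z} : Set (Eu n))

/-- maximum of a function on the unit sphere of a subspace -/
noncomputable def mz (L : Submodule ℝ (Eu n)) (f : C(Sph n, ℝ)) : ℝ :=
  sSup ((fun v => f v) '' {v : Sph n | (v : Eu n) ∈ L})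

/-- the level at which the sublevel sets start to span everything -/
noncomputable def SS (m : ZZ G q μ → ℝ) : ℝ := sSup {s : ℝ | s ≤ 0 ∧ spn {Z | m Z < s} ≠ ⊤}

/-- depth below the spanning level -/
noncomputable def th (m : ZZ G q μ → ℝ) (Z : ZZ G q μ) : ℝ := max 0 (SS m - m Z)

end Pool.Agent.Lib.MP_b0d2bf_gt
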