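import Mathlib
import Pool.Agent.Lib.MP_b0d2bf_gt.YDefs

set_option autoImplicit false

/-!
Elementary facts about the spanning level `SS`, the depth `th` and the maxima `mz`.
-/

namespace Pool.Agent.Lib.MP_b0d2bf_gt

open MeasureTheory Metric Set Filter Topology

section YAux

variable {n : ℕ} {G : Subgroup (Eu n ≃ₗᵢ[ℝ] Eu n)} {q : ℝ} {μ : Measure (Sph n)}

lemma spn_mono {S T : Set (ZZ G q μ)} (h : S ⊆ T) : spn S ≤ spn T := by
  unfold spn
  exact biSup_mono h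

lemma le_spn {S : Set (ZZ G q μ)} {Z : ZZ G q μ} (h : Z ∈ S) :
    (Z : Submodule ℝ (Eu n)) ≤ spn S := by
  unfold spn
  exact le_biSup (fun Z : ZZ G q μ => (Z : Submodule ℝ (Eu n))) h

lemma spn_le {S : Set (ZZ G q μ)} {X : Submodule ℝ (Eu n)}
    (h : ∀ Z ∈ S, (Z : Submodule ℝ (Eu n)) ≤ X) : spn S ≤ X := by
  unfold spn
  exact iSup₂_le h

lemma spn_empty : spn (∅ : Set (ZZ G q μ)) = ⊥ := by
  unfold spn
  simp

lemma bot_ne_top' [NeZero n] : (⊥ : Submodule ℝ (Eu n)) ≠ ⊤ := by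
  have : Nontrivial (Submodule ℝ (Eu n)) := inferInstance
  exact bot_ne_top

lemma exists_low_bound [Finite (ZZ G q μ)] (m : ZZ G q μ → ℝ) : ∃ s : ℝ, s ≤ 0 ∧ ∀ Z, s ≤ m Z := by
  obtain ⟨s, hs⟩ := (Set.finite_range m).bddBelow
  exact ⟨min s 0, min_le_right _ _, fun Z => (min_le_left _ _).trans (hs ⟨Z, rfl⟩)⟩

lemma SS_nonempty [NeZero n] [Finite (ZZ G q μ)] (m : ZZ G q μ → ℝ) :
    {s : ℝ | s ≤ 0 ∧ spn {Z | m Z < s} ≠ ⊤}.Nonempty := by
  obtain ⟨s, hs0, hs⟩ := exists_low_bound m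
  refine ⟨s, hs0, ?_⟩
  have : {Z | m Z < s} = (∅ : Set (ZZ G q μ)) := by
    ext Z
    simp only [mem_ofPred_eq, mem_empty_iff_false, iff_false, not_lt]
    exact hs Z
  rw [this, spn_empty]
  exact bot_ne_top'

lemma SS_bdd (m : ZZ G q μ → ℝ) : BddAbove {s : ℝ | s ≤ 0 ∧ spn {Z | m Z < s} ≠ ⊤} :=
  ⟨0, fun _ hs => hs.1⟩

lemma SS_nonpos [NeZero n] [Finite (ZZ G q μ)] (m : ZZ G q μ → ℝ) : SS m ≤ 0 :=
  csSup_le (SS_nonempty m) fun _ hs => hs.1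

lemma le_SS {m : ZZ G q μ → ℝ} {s : ℝ} (hs : s ≤ 0) (hs2 : spn {Z | m Z < s} ≠ ⊤) : s ≤ SS m :=
  le_csSup (SS_bdd m) ⟨hs, hs2⟩

lemma SS_lip [NeZero n] [Finite (ZZ G q μ)] {m m' : ZZ G q μ → ℝ} {d : ℝ} (hd0 : 0 ≤ d)
    (hd : ∀ Z, |m Z - m' Z| ≤ d) : SS m ≤ SS m' + d := by
  refine csSup_le (SS_nonempty m) fun s hs => ?_
  have h1 : s - d ≤ SS m' := by
    refine le_SS (by linarith [hs.1]) fun hcon => hs.2 ?_
    rw [eq_top_iff, ← hcon]
    refine spn_mono fun Z hZ => ?_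
    have h2 := (abs_le.1 (hd Z)).2
    have h3 : m' Z < s - d := hZ
    show m Z < s
    linarith
  linarith

lemma spn_SS [NeZero n] [Finite (ZZ G q μ)] (m : ZZ G q μ → ℝ) : spn {Z | m Z < SS m} ≠ ⊤ := by
  intro hcon
  by_cases he : ({Z | m Z < SS m} : Set (ZZ G q μ)).Nonempty
  · obtain ⟨Z0, hZ0, hmax⟩ := Set.exists_max_image {Z | m Z < SS m} m (Set.toFinite _) he
    obtain ⟨s, hs, hs2⟩ := exists_lt_of_lt_csSup (SS_nonempty m) (show m Z0 < SS m from hZ0)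
    apply hs.2
    rw [eq_top_iff, ← hcon]
    exact spn_mono fun Z hZ => (hmax Z hZ).trans_lt hs2
  · rw [Set.not_nonempty_iff_eq_empty.1 he, spn_empty] at hcon
    exact bot_ne_top' hcon

lemma th_nonneg (m : ZZ G q μ → ℝ) (Z : ZZ G q μ) : 0 ≤ th m Z := le_max_left _ _

lemma th_pos_iff {m : ZZ G q μ → ℝ} {Z : ZZ G q μ} : 0 < th m Z ↔ m Z < SS m := by
  unfold th
  rw [lt_max_iff, sub_pos]
  simp

lemma th_mem [NeZero n] [Finite (ZZ G q μ)] {m : ZZ G q μ → ℝ} (h : ∃ Z, m Z < SS m) :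
    th m ∈ CC G q μ := by
  obtain ⟨Z, hZ⟩ := h
  refine ⟨th_nonneg m, ⟨Z, th_pos_iff.2 hZ⟩, ?_⟩
  have : {Z | 0 < th m Z} = {Z | m Z < SS m} := by
    ext Z
    exact th_pos_iff
  rw [this]
  exact spn_SS m

lemma continuous_SS [NeZero n] [Finite (ZZ G q μ)] : Continuous (SS : (ZZ G q μ → ℝ) → ℝ) := by
  have := Fintype.ofFinite (ZZ G q μ)
  have hL : LipschitzWith 1 (SS : (ZZ G q μ → ℝ) → ℝ) := by
    refine LipschitzWith.of_dist_le_mul fun m m' => ?_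
    have h1 : ∀ Z, |m Z - m' Z| ≤ dist m m' := fun Z => by
      rw [← Real.dist_eq]; exact dist_le_pi_dist m m' Z
    have h2 : ∀ Z, |m' Z - m Z| ≤ dist m m' := fun Z => by
      rw [abs_sub_comm]; exact h1 Z
    rw [Real.dist_eq, abs_le]
    have h3 := SS_lip dist_nonneg h1
    have h4 := SS_lip dist_nonneg h2
    simp only [NNReal.coe_one, one_mul]
    constructor <;> linarith
  exact hL.continuous

lemma continuous_th [NeZero n] [Finite (ZZ G q μ)] :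
    Continuous (th : (ZZ G q μ → ℝ) → (ZZ G q μ → ℝ)) := by
  refine continuous_pi fun Z => ?_
  unfold th
  exact continuous_const.max (continuous_SS.sub (continuous_apply Z))

lemma sph_nonempty {L : Submodule ℝ (Eu n)} (hL : L ≠ ⊥) : ∃ v : Sph n, (v : Eu n) ∈ L := by
  obtain ⟨w, hw, hw0⟩ := Submodule.exists_mem_ne_zero_of_ne_bot hL
  refine ⟨dirS w hw0, ?_⟩
  unfold dirS
  exact L.smul_mem _ hw

lemma mz_bdd (L : Submodule ℝ (Eu n)) (f : C(Sph n, ℝ)) :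
    BddAbove ((fun v => f v) '' {v : Sph n | (v : Eu n) ∈ L}) :=
  (isCompact_range f.continuous).bddAbove.mono (by
    rintro _ ⟨v, -, rfl⟩
    exact ⟨v, rfl⟩)

lemma le_mz {L : Submodule ℝ (Eu n)} (f : C(Sph n, ℝ)) {v : Sph n} (hv : (v : Eu n) ∈ L) :
    f v ≤ mz L f := le_csSup (mz_bdd L f) ⟨v, hv, rfl⟩

lemma mz_le {L : Submodule ℝ (Eu n)} (hL : L ≠ ⊥) {f : C(Sph n, ℝ)} {c : ℝ}
    (hc : ∀ v : Sph n, (v : Eu n) ∈ L → f v ≤ c) : mz L f ≤ c := by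
  obtain ⟨v, hv⟩ := sph_nonempty hL
  refine csSup_le ⟨_, v, hv, rfl⟩ ?_
  rintro _ ⟨w, hw, rfl⟩
  exact hc w hw

lemma mz_sub_le {L : Submodule ℝ (Eu n)} (hL : L ≠ ⊥) (f g : C(Sph n, ℝ)) :
    mz L f - mz L g ≤ dist f g := by
  rw [sub_le_iff_le_add]
  refine mz_le hL fun v hv => ?_
  have h1 := ContinuousMap.dist_apply_le_dist (f := f) (g := g) v
  rw [Real.dist_eq] at h1
  have h2 := le_mz g hv
  have h3 := le_abs_self (f v - g v)
  linarith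

lemma continuous_mz {L : Submodule ℝ (Eu n)} (hL : L ≠ ⊥) :
    Continuous (mz L : C(Sph n, ℝ) → ℝ) := by
  have : LipschitzWith 1 (mz L : C(Sph n, ℝ) → ℝ) := by
    refine LipschitzWith.of_dist_le_mul fun f g => ?_
    rw [Real.dist_eq, abs_le]
    have h1 := mz_sub_le hL f g
    have h2 := mz_sub_le hL g f
    rw [dist_comm g f] at h2
    simp only [NNReal.coe_one, one_mul]
    constructor <;> linarith
  exact this.continuous

lemma ZZ.ne_bot (Z : ZZ G q μ) : (Z : Submodule ℝ (Eu n)) ≠ ⊥ := Z.2.1.2.1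

/-- uniform lower bound for the distance of a subspace not contained in a span -/
lemma exists_sep [Finite (ZZ G q μ)] : ∃ c : ℝ, 0 < c ∧ c ≤ 1 ∧ ∀ (S : Set (ZZ G q μ))
    (Z : ZZ G q μ), ¬ (Z : Submodule ℝ (Eu n)) ≤ spn S →
    ∃ v : Sph n, (v : Eu n) ∈ (Z : Submodule ℝ (Eu n)) ∧
      c ≤ infDist (v : Eu n) (spn S : Set (Eu n)) := by
  have h1 : ∀ p : Set (ZZ G q μ) × ZZ G q μ, ∃ c : ℝ, 0 < c ∧
      (¬ (p.2 : Submodule ℝ (Eu n)) ≤ spn p.1 →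
      ∃ v : Sph n, (v : Eu n) ∈ (p.2 : Submodule ℝ (Eu n)) ∧
        c ≤ infDist (v : Eu n) (spn p.1 : Set (Eu n))) := by
    rintro ⟨S, Z⟩
    by_cases h : (Z : Submodule ℝ (Eu n)) ≤ spn S
    · exact ⟨1, one_pos, fun hcon => absurd h hcon⟩
    · obtain ⟨w, hw, hwS⟩ := SetLike.not_le_iff_exists.1 h
      have hw0 : w ≠ 0 := by
        rintro rfl
        exact hwS (spn S).zero_mem
      have hv : ((dirS w hw0 : Sph n) : Eu n) ∈ (Z : Submodule ℝ (Eu n)) := by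
        unfold dirS
        exact (Z : Submodule ℝ (Eu n)).smul_mem _ hw
      have hv2 : ((dirS w hw0 : Sph n) : Eu n) ∉ spn S := by
        intro hcon
        apply hwS
        rw [← norm_smul_dirS w hw0]
        exact (spn S).smul_mem _ hcon
      have hcl : IsClosed (spn S : Set (Eu n)) := (spn S).closed_of_finiteDimensional
      have hpos : 0 < infDist ((dirS w hw0 : Sph n) : Eu n) (spn S : Set (Eu n)) :=
        (hcl.notMem_iff_infDist_pos ⟨0, (spn S).zero_mem⟩).1 hv2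
      exact ⟨_, hpos, fun _ => ⟨dirS w hw0, hv, le_rfl⟩⟩
  choose c hc hcv using h1
  by_cases hne : Nonempty (Set (ZZ G q μ) × ZZ G q μ)
  · obtain ⟨p0, hp0⟩ := Finite.exists_min c
    refine ⟨min (c p0) 1, lt_min (hc p0) one_pos, min_le_right _ _, fun S Z hZ => ?_⟩
    obtain ⟨v, hv, hv2⟩ := hcv (S, Z) hZ
    exact ⟨v, hv, ((min_le_left _ _).trans (hp0 _)).trans hv2⟩
  · exact ⟨1, one_pos, le_rfl, fun S Z _ => absurd ⟨(S, Z)⟩ hne⟩

end YAux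

end Pool.Agent.Lib.MP_b0d2bf_gt
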