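import Mathlib
import Pool.Agent.Lib.MP_b0d2bf_gt.YAux
import Pool.Agent.Lib.MP_b0d2bf_gt.XDelta

set_option autoImplicit false

/-!
Minimal heavy subspaces: finiteness, sums, existence.
-/

namespace Pool.Agent.Lib.MP_b0d2bf_gt

open MeasureTheory Metric Set Filter Topology

namespace YMin

variable {n : ℕ} {G : Subgroup (Eu n ≃ₗᵢ[ℝ] Eu n)} {q : ℝ} {μ : Measure (Sph n)}

lemma inter_heavy [IsFiniteMeasure μ] (hq : 0 < q) (hnd : Nondeg G q μ) (𝒰 : Ultrafilter ℕ)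
    {W : ℕ → Submodule ℝ (Eu n)} (hH : ∀ j, Heavy G q μ (W j)) :
    ∀ᶠ j in (𝒰 : Filter ℕ), ¬ W j ≤ limW 𝒰 W → Heavy G q μ (W j ⊓ limW 𝒰 W) := by
  have hL := XDelta.heavy_lim hnd 𝒰 hH
  obtain ⟨d, hd⟩ := XDelta.exists_dim 𝒰 W
  have hfr := XDelta.finrank_lim 𝒰 hd
  obtain ⟨δ, hδ, hm⟩ := XDelta.mass_near' μ (limW 𝒰 W) (one_div_pos.2 hq)
  filter_upwards [hd, XDelta.near 𝒰 W hδ] with j hj1 hj2 hsep
  have hlt : Module.finrank ℝ (W j ⊓ limW 𝒰 W : Submodule ℝ (Eu n)) < d := by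
    rw [← hj1]
    apply Submodule.finrank_lt_finrank_of_lt
    refine lt_of_le_of_ne inf_le_left fun heq => hsep ?_
    rw [← heq]
    exact inf_le_right
  have h1 := (hH j).2.2.2
  rw [hj1] at h1
  -- mass of the intersection
  have h2 : mass μ (W j) ≤ mass μ (W j ⊓ limW 𝒰 W) +
      μ.real ({v : Sph n | infDist (v : Eu n) (limW 𝒰 W : Set (Eu n)) < δ} \
        {v : Sph n | (v : Eu n) ∈ limW 𝒰 W}) := by
    refine le_trans (measureReal_mono ?_) (measureReal_union_le _ _)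
    intro v hv
    by_cases hv2 : (v : Eu n) ∈ limW 𝒰 W
    · exact Or.inl ⟨hv, hv2⟩
    · exact Or.inr ⟨hj2 v hv, hv2⟩
  have h3 : μ.real ({v : Sph n | infDist (v : Eu n) (limW 𝒰 W : Set (Eu n)) < δ} \
        {v : Sph n | (v : Eu n) ∈ limW 𝒰 W}) =
      μ.real {v : Sph n | infDist (v : Eu n) (limW 𝒰 W : Set (Eu n)) < δ} -
        mass μ (limW 𝒰 W) := by
    unfold mass
    rw [measureReal_sdiff (fun v hv => ?_) (XDelta.measurable_sub _)]
    show infDist (v : Eu n) (limW 𝒰 W : Set (Eu n)) < δ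
    rw [infDist_zero_of_mem (show (v : Eu n) ∈ (limW 𝒰 W : Set (Eu n)) from hv)]
    exact hδ
  have h4 : ((d : ℝ) - 1) / q < mass μ (W j ⊓ limW 𝒰 W) := by
    rw [sub_div]
    linarith
  have h5 : ((Module.finrank ℝ (W j ⊓ limW 𝒰 W : Submodule ℝ (Eu n)) : ℕ) : ℝ) ≤ (d : ℝ) - 1 := by
    have : Module.finrank ℝ (W j ⊓ limW 𝒰 W : Submodule ℝ (Eu n)) + 1 ≤ d := hlt
    have h6 : ((Module.finrank ℝ (W j ⊓ limW 𝒰 W : Submodule ℝ (Eu n)) + 1 : ℕ) : ℝ) ≤ (d : ℝ) := by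
      exact_mod_cast this
    push_cast at h6
    linarith
  have h7 : ((Module.finrank ℝ (W j ⊓ limW 𝒰 W : Submodule ℝ (Eu n)) : ℕ) : ℝ) / q <
      mass μ (W j ⊓ limW 𝒰 W) :=
    lt_of_le_of_lt (div_le_div_of_nonneg_right h5 hq.le) h4
  refine ⟨fun g hg x hx => ⟨(hH j).1 g hg x hx.1, hL.1 g hg x hx.2⟩, ?_, ?_, h7⟩
  · intro hb
    rw [hb, XDelta.mass_bot, finrank_bot] at h7
    simp at h7
  · intro ht
    exact (hH j).2.2.1 (top_le_iff.1 (ht ▸ inf_le_left))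

lemma heavy_sup [IsFiniteMeasure μ] (_hq : 0 < q) {X Z : Submodule ℝ (Eu n)}
    (hX : Heavy G q μ X) (hZ : MinHeavy G q μ Z) (hT : X ⊔ Z ≠ ⊤) : Heavy G q μ (X ⊔ Z) := by
  by_cases hle : Z ≤ X
  · rwa [sup_eq_left.2 hle]
  · have hinv : SInv G (X ⊓ Z) := fun g hg x hx => ⟨hX.1 g hg x hx.1, hZ.1.1 g hg x hx.2⟩
    have hY : mass μ (X ⊓ Z) ≤ Module.finrank ℝ (X ⊓ Z : Submodule ℝ (Eu n)) / q := by
      by_contra hcon
      push Not at hcon
      have hbot : X ⊓ Z ≠ ⊥ := by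
        intro hb
        rw [hb, XDelta.mass_bot, finrank_bot] at hcon
        simp at hcon
      have htop : X ⊓ Z ≠ ⊤ := by
        intro ht
        exact hX.2.2.1 (top_le_iff.1 (ht ▸ inf_le_left))
      have h1 := hZ.2 _ ⟨hinv, hbot, htop, hcon⟩ inf_le_right
      exact hle (h1 ▸ inf_le_left)
    refine ⟨?_, ?_, hT, ?_⟩
    · intro g hg x hx
      obtain ⟨y, hy, z, hz, rfl⟩ := Submodule.mem_sup.1 hx
      rw [map_add]
      exact Submodule.add_mem_sup (hX.1 g hg y hy) (hZ.1.1 g hg z hz)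
    · intro hb
      exact hX.2.1 (le_bot_iff.1 (hb ▸ le_sup_left))
    · have hfr := Submodule.finrank_sup_add_finrank_inf_eq X Z
      have hfr' : (Module.finrank ℝ (X ⊔ Z : Submodule ℝ (Eu n)) : ℝ) =
          Module.finrank ℝ X + Module.finrank ℝ Z -
            Module.finrank ℝ (X ⊓ Z : Submodule ℝ (Eu n)) := by
        rw [eq_sub_iff_add_eq]
        exact_mod_cast hfr
      have h1 := measureReal_union_add_inter (μ := μ) (s := {v : Sph n | (v : Eu n) ∈ X})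
        (t := {v : Sph n | (v : Eu n) ∈ Z}) (XDelta.measurable_sub Z)
      have h2 : μ.real ({v : Sph n | (v : Eu n) ∈ X} ∪ {v : Sph n | (v : Eu n) ∈ Z}) ≤
          mass μ (X ⊔ Z) := by
        refine measureReal_mono ?_
        rintro v (hv | hv)
        · exact (le_sup_left : X ≤ X ⊔ Z) hv
        · exact (le_sup_right : Z ≤ X ⊔ Z) hv
      have h3 : μ.real ({v : Sph n | (v : Eu n) ∈ X} ∩ {v : Sph n | (v : Eu n) ∈ Z}) =
          mass μ (X ⊓ Z) := rfl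
      have h4 : μ.real {v : Sph n | (v : Eu n) ∈ X} = mass μ X := rfl
      have h5 : μ.real {v : Sph n | (v : Eu n) ∈ Z} = mass μ Z := rfl
      have h6 := hX.2.2.2
      have h7 := hZ.1.2.2.2
      rw [hfr', sub_div, add_div]
      linarith

lemma spn_insert (Z : ZZ G q μ) (S : Set (ZZ G q μ)) :
    spn (insert Z S) = spn S ⊔ (Z : Submodule ℝ (Eu n)) := by
  unfold spn
  rw [iSup_insert, sup_comm]

end YMin

section YMin

variable {n : ℕ} [NeZero n] {G : Subgroup (Eu n ≃ₗᵢ[ℝ] Eu n)} {q : ℝ} {μ : Measure (Sph n)}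

theorem finite_ZZ [IsFiniteMeasure μ] (hq : 0 < q) (hnd : Nondeg G q μ) :
    Finite (ZZ G q μ) := by
  by_contra hcon
  have hinf : Infinite (ZZ G q μ) := not_finite_iff_infinite.1 hcon
  let f : ℕ ↪ ZZ G q μ := Infinite.natEmbedding _
  let W : ℕ → Submodule ℝ (Eu n) := fun j => (f j : Submodule ℝ (Eu n))
  have hH : ∀ j, Heavy G q μ (W j) := fun j => (f j).2.1
  let 𝒰 : Ultrafilter ℕ := hyperfilter ℕ
  obtain ⟨d, hd⟩ := XDelta.exists_dim 𝒰 W
  have hfr := XDelta.finrank_lim 𝒰 hd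
  have hev : ∀ᶠ j in (𝒰 : Filter ℕ), W j = limW 𝒰 W := by
    filter_upwards [hd, YMin.inter_heavy hq hnd 𝒰 hH] with j hj1 hj2
    have hle : W j ≤ limW 𝒰 W := by
      by_contra hn
      have h1 : W j ⊓ limW 𝒰 W = W j := (f j).2.2 _ (hj2 hn) inf_le_left
      exact hn (inf_eq_left.1 h1)
    exact Submodule.eq_of_le_of_finrank_eq hle (by rw [hj1, hfr])
  have hsub : {j | W j = limW 𝒰 W}.Subsingleton := by
    intro a ha b hb
    exact f.injective (Subtype.ext (ha.trans hb.symm))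
  exact hsub.finite.notMem_hyperfilter hev

theorem heavy_spn [IsFiniteMeasure μ] [Finite (ZZ G q μ)] (hq : 0 < q) {S : Set (ZZ G q μ)}
    (hS : S.Nonempty) (hT : spn S ≠ ⊤) : Heavy G q μ (spn S) := by
  have hfin : S.Finite := Set.toFinite S
  induction S, hfin using Set.Finite.induction_on with
  | empty => exact absurd hS Set.not_nonempty_empty
  | @insert Z S _ _ ih =>
    rw [YMin.spn_insert] at hT ⊢
    rcases S.eq_empty_or_nonempty with rfl | hne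
    · rw [spn_empty, bot_sup_eq]
      exact Z.2.1
    · refine YMin.heavy_sup hq (ih hne ?_) Z.2 hT
      intro h
      apply hT
      rw [h, top_sup_eq]

theorem exists_min {W : Submodule ℝ (Eu n)} (hW : Heavy G q μ W) :
    ∃ Z : ZZ G q μ, (Z : Submodule ℝ (Eu n)) ≤ W := by
  classical
  have hex : ∃ d : ℕ, ∃ V : Submodule ℝ (Eu n), Heavy G q μ V ∧ V ≤ W ∧ Module.finrank ℝ V = d :=
    ⟨_, W, hW, le_rfl, rfl⟩
  obtain ⟨V, hV1, hV2, hV3⟩ := Nat.find_spec hex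
  refine ⟨⟨V, hV1, fun V' hV' hle => ?_⟩, hV2⟩
  refine Submodule.eq_of_le_of_finrank_le hle ?_
  rw [hV3]
  exact Nat.find_min' hex ⟨V', hV', hle.trans hV2, rfl⟩

end YMin

end Pool.Agent.Lib.MP_b0d2bf_gt
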