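import Mathlib
import Pool.Agent.Lib.MP_b0d2bf_gt.YAux
import Pool.Agent.Lib.MP_b0d2bf_gt.YMin
import Pool.Agent.Lib.MP_b0d2bf_gt.XLim
import Pool.Agent.Lib.MP_b0d2bf_gt.XTl
import Pool.Agent.Lib.MP_b0d2bf_gt.XDiag
import Pool.Agent.Lib.MP_b0d2bf_gt.XAlign
import Pool.Agent.Lib.MP_b0d2bf_gt.XQuant
import Pool.Agent.Lib.MP_b0d2bf_gt.XCover

set_option autoImplicit false

/-!
Bodies with a large value of the functional have a minimal heavy subspace below the spanning level.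
-/

namespace Pool.Agent.Lib.MP_b0d2bf_gt

open MeasureTheory Metric Set Filter Topology

namespace YBar

/-- Along a sequence of bodies with large functional: a scale `r` and a heavy subspace `W`. -/
lemma exists_W {n : ℕ} [NeZero n] {G : Subgroup (Eu n ≃ₗᵢ[ℝ] Eu n)}
    (μ : Measure (Sph n)) [IsProbabilityMeasure μ] (hμ : MInv G μ) {q : ℝ} (hq : (n : ℝ) < q)
    (hnd : Nondeg G q μ) {h : ℕ → Sph n → ℝ} (hB : ∀ j, Bd G (h j))
    (hlarge : ∀ j : ℕ, (j : ℝ) < Psi μ q (h j)) :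
    ∃ (𝒰 : Ultrafilter ℕ) (r : ℕ → ℝ) (W : Submodule ℝ (Eu n)) (C : ℝ), (∀ j, 0 < r j) ∧
      Tendsto r 𝒰 (𝓝 0) ∧ Heavy G q μ W ∧
      (∀ C η : ℝ, 0 < η → ∀ᶠ j in (𝒰 : Filter ℕ),
        μ.real {v : Sph n | h j v ≤ C * r j ∧ (v : Eu n) ∉ W} < η) ∧
      ∀ᶠ j in (𝒰 : Filter ℕ), ∀ v : Sph n, (v : Eu n) ∈ W → h j v ≤ C * r j := by
  have hq0 : 0 < q := lt_of_le_of_lt (Nat.cast_nonneg n) hq
  set 𝒰 : Ultrafilter ℕ := hyperfilter ℕ with h𝒰def
  have h𝒰 : (𝒰 : Filter ℕ) ≤ atTop := Nat.hyperfilter_le_atTop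
  choose b a hbx using fun j => exists_Bx (hB j).cont (hB j).pos (hB j).even (hB j).supp
  obtain ⟨e, he⟩ := exists_limit_basis 𝒰 b
  have S : Sq G 𝒰 h b a e := ⟨hB, hbx, he⟩
  obtain ⟨k, hk0, hk⟩ := XCover.exists_index h𝒰 μ hq hB hbx hlarge
  obtain ⟨m, hm, hmP⟩ := diag (P := fun m j => ((n : ℝ) - k) / q <
    μ.real {v | h j v < a j (pr k) / ((m : ℝ) + 1)}) h𝒰 hk
  set r : ℕ → ℝ := fun j => a j (pr k) / ((m j : ℝ) + 1) with hr
  have hr0 : ∀ j, 0 < r j := fun j => div_pos ((hbx j).pos _) (by positivity)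
  have hrk : Tendsto (fun j => r j / a j (pr k)) 𝒰 (𝓝 0) := by
    have h1 : (fun j => r j / a j (pr k)) = fun j => ((m j : ℝ) + 1)⁻¹ := by
      funext j
      have := ((hbx j).pos (pr k)).ne'
      have h2 : ((m j : ℝ) + 1) ≠ 0 := by positivity
      simp only [hr]
      field_simp
    rw [h1]
    apply tendsto_inv_atTop_zero.comp
    exact tendsto_atTop_add_const_right _ _ (tendsto_natCast_atTop_atTop.comp hm)
  have hrlim : Tendsto r 𝒰 (𝓝 0) := by
    have h1 : Tendsto (fun j => (r j / a j (pr k)) * √n) 𝒰 (𝓝 (0 * √n)) :=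
      Tendsto.mul_const _ hrk
    rw [zero_mul] at h1
    refine squeeze_zero (fun j => (hr0 j).le) (fun j => ?_) h1
    have h2 := (hbx j).pos (pr k)
    have h3 := (hbx j).le_sqrt (hB j).le (pr k)
    calc r j = (r j / a j (pr k)) * a j (pr k) := by field_simp
      _ ≤ (r j / a j (pr k)) * √n :=
          mul_le_mul_of_nonneg_left h3 (div_nonneg (hr0 j).le h2.le)
  set L := limS 𝒰 h r with hL
  have hLtl : L ≤ tl e k := limS_le_tl S hr0 hrk
  have hkn : (k : ℕ) < n := k.2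
  have hfin : Module.finrank ℝ L ≤ n - k := by
    rw [← finrank_tl e k]
    exact Submodule.finrank_mono hLtl
  have hfin' : (Module.finrank ℝ L : ℝ) ≤ (n : ℝ) - k := by
    have : ((Module.finrank ℝ L : ℕ) : ℝ) ≤ ((n - k : ℕ) : ℝ) := by exact_mod_cast hfin
    rwa [Nat.cast_sub hkn.le] at this
  have hmain0 : 0 < ((n : ℝ) - k) / q := by
    apply div_pos _ hq0
    have : ((k : ℕ) : ℝ) < (n : ℝ) := by exact_mod_cast hkn
    linarith
  have hheavy : ∀ V : Submodule ℝ (Eu n), SInv G V → V ≤ L → ((n : ℝ) - k) / q ≤ mass μ V →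
      Heavy G q μ V := by
    intro V hV hVL hmass
    have h1 : V ≠ ⊥ := by
      rintro rfl
      rw [XCover.mass_bot] at hmass
      linarith
    have hVfin : Module.finrank ℝ V ≤ Module.finrank ℝ L := Submodule.finrank_mono hVL
    have h2 : V ≠ ⊤ := by
      rintro rfl
      rw [finrank_top, finrank_euclideanSpace_fin] at hVfin
      omega
    have h3 : (Module.finrank ℝ V : ℝ) / q ≤ mass μ V := by
      refine le_trans ?_ hmass
      apply div_le_div_of_nonneg_right _ hq0.le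
      exact le_trans (by exact_mod_cast hVfin) hfin'
    exact ⟨hV, h1, h2, lt_of_le_of_ne h3 (hnd V hV h1 h2).symm⟩
  obtain ⟨W, hWinv, hWL, hWsmall, C, hWC⟩ := align (𝒰 := 𝒰) μ hμ hB hr0
  have hWmass : ((n : ℝ) - k) / q ≤ mass μ W := by
    apply le_of_forall_pos_le_add
    intro η hη
    obtain ⟨j, hj1, hj2⟩ := (hmP.and (hWsmall 1 η hη)).exists
    refine hj1.le.trans ?_
    have h1 : μ.real {v | h j v < a j (pr k) / ((m j : ℝ) + 1)} ≤
        μ.real ({v : Sph n | (v : Eu n) ∈ W} ∪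
          {v : Sph n | h j v ≤ 1 * r j ∧ (v : Eu n) ∉ W}) := by
      refine measureReal_mono ?_ (measure_ne_top _ _)
      intro v hv
      simp only [mem_setOf_eq, mem_union] at hv ⊢
      by_cases hvW : (v : Eu n) ∈ W
      · left; exact hvW
      · right
        refine ⟨?_, hvW⟩
        rw [one_mul]
        exact hv.le
    refine h1.trans ((measureReal_union_le _ _).trans ?_)
    exact add_le_add le_rfl hj2.le
  exact ⟨𝒰, r, W, C, hr0, hrlim, hheavy W hWinv hWL hWmass, hWsmall, hWC⟩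

end YBar

theorem barrier {n : ℕ} [NeZero n] {G : Subgroup (Eu n ≃ₗᵢ[ℝ] Eu n)}
    (hneg : LinearIsometryEquiv.neg ℝ ∈ G)
    (μ : Measure (Sph n)) [IsProbabilityMeasure μ] (hμ : MInv G μ) {q : ℝ} (hq : (n : ℝ) < q)
    (hnd : Nondeg G q μ) :
    ∃ C0 : ℝ, ∀ f : XS G, rhoX f = f → C0 < Psi μ q (ex (f : C(Sph n, ℝ))) →
      ∃ Z : ZZ G q μ, mz (Z : Submodule ℝ (Eu n)) (f : C(Sph n, ℝ)) <
        SS (fun Z : ZZ G q μ => mz (Z : Submodule ℝ (Eu n)) (f : C(Sph n, ℝ))) := by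
  by_contra hcon
  push Not at hcon
  choose F hfix hlarge hnot using fun j : ℕ => hcon (j : ℝ)
  have hq0 : 0 < q := lt_of_le_of_lt (Nat.cast_nonneg n) hq
  have hZfin : Finite (ZZ G q μ) := finite_ZZ hq0 hnd
  set h : ℕ → Sph n → ℝ := fun j => ex ((F j : XS G) : C(Sph n, ℝ)) with hh
  have hB : ∀ j, Bd G (h j) := fun j => Bd_of_fix hneg (hfix j)
  obtain ⟨𝒰, r, W, C, hr0, hrlim, hW, hWsmall, hWC⟩ := YBar.exists_W μ hμ hq hnd hB hlarge
  set C' := max C 1 with hC'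
  have hC'0 : 0 < C' := lt_of_lt_of_le one_pos (le_max_right _ _)
  obtain ⟨Z0, hZ0⟩ := exists_min hW
  have hexp : ∀ j v, h j v = Real.exp (((F j : XS G) : C(Sph n, ℝ)) v) := fun j v => rfl
  -- the subspaces which are not contained in `W` are not thin
  have h2 : ∀ Z : ZZ G q μ, ¬ (Z : Submodule ℝ (Eu n)) ≤ W → ∀ᶠ j in (𝒰 : Filter ℕ),
      Real.log (2 * C' * r j) < mz (Z : Submodule ℝ (Eu n)) ((F j : XS G) : C(Sph n, ℝ)) := by
    intro Z hZW
    by_contra hne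
    rw [← Ultrafilter.eventually_not] at hne
    have hz0 : μ.real {v : Sph n | (v : Eu n) ∈ (Z : Submodule ℝ (Eu n)) ∧ (v : Eu n) ∉ W} ≤ 0 := by
      refine le_of_forall_pos_le_add fun η hη => ?_
      rw [zero_add]
      obtain ⟨j, hj1, hj2⟩ := (hne.and (hWsmall (2 * C') η hη)).exists
      refine le_trans (measureReal_mono ?_ (measure_ne_top _ _)) hj2.le
      rintro v ⟨hvZ, hvW⟩
      refine ⟨?_, hvW⟩
      rw [hexp]
      have h3 := (le_mz ((F j : XS G) : C(Sph n, ℝ)) hvZ).trans (not_lt.1 hj1)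
      have h4 : 0 < 2 * C' * r j := by have := hr0 j; positivity
      exact (Real.le_log_iff_exp_le h4).1 h3
    have hmass : mass μ (Z : Submodule ℝ (Eu n)) ≤ mass μ ((Z : Submodule ℝ (Eu n)) ⊓ W) := by
      have h3 : mass μ (Z : Submodule ℝ (Eu n)) ≤ mass μ ((Z : Submodule ℝ (Eu n)) ⊓ W) +
          μ.real {v : Sph n | (v : Eu n) ∈ (Z : Submodule ℝ (Eu n)) ∧ (v : Eu n) ∉ W} := by
        refine le_trans (measureReal_mono ?_ (measure_ne_top _ _)) (measureReal_union_le _ _)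
        intro v hv
        by_cases hv2 : (v : Eu n) ∈ W
        · exact Or.inl ⟨hv, hv2⟩
        · exact Or.inr ⟨hv, hv2⟩
      linarith
    have hfr : (Module.finrank ℝ ((Z : Submodule ℝ (Eu n)) ⊓ W : Submodule ℝ (Eu n)) : ℝ) ≤
        Module.finrank ℝ (Z : Submodule ℝ (Eu n)) := by
      exact_mod_cast Submodule.finrank_mono inf_le_left
    have hlt : (Module.finrank ℝ ((Z : Submodule ℝ (Eu n)) ⊓ W : Submodule ℝ (Eu n)) : ℝ) / q <
        mass μ ((Z : Submodule ℝ (Eu n)) ⊓ W) :=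
      ((div_le_div_of_nonneg_right hfr hq0.le).trans_lt Z.2.1.2.2.2).trans_le hmass
    have hheavy : Heavy G q μ ((Z : Submodule ℝ (Eu n)) ⊓ W) := by
      refine ⟨fun g hg x hx => ⟨Z.2.1.1 g hg x hx.1, hW.1 g hg x hx.2⟩, ?_, ?_, hlt⟩
      · intro hb
        rw [hb, XCover.mass_bot, finrank_bot] at hlt
        simp at hlt
      · intro ht
        exact hW.2.2.1 (top_le_iff.1 (ht ▸ inf_le_right))
    have h5 := Z.2.2 _ hheavy inf_le_left
    exact hZW (inf_eq_left.1 h5)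
  have h2' : ∀ᶠ j in (𝒰 : Filter ℕ), ∀ Z : ZZ G q μ, ¬ (Z : Submodule ℝ (Eu n)) ≤ W →
      Real.log (2 * C' * r j) < mz (Z : Submodule ℝ (Eu n)) ((F j : XS G) : C(Sph n, ℝ)) := by
    rw [eventually_all]
    intro Z
    by_cases hZ : (Z : Submodule ℝ (Eu n)) ≤ W
    · exact Eventually.of_forall fun j hn => absurd hZ hn
    · exact (h2 Z hZ).mono fun j hj _ => hj
  have h3 : ∀ᶠ j in (𝒰 : Filter ℕ), 2 * C' * r j < 1 := by
    have h4 : Tendsto (fun j => 2 * C' * r j) 𝒰 (𝓝 (2 * C' * 0)) := hrlim.const_mul _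
    rw [mul_zero] at h4
    exact h4.eventually (gt_mem_nhds one_pos)
  obtain ⟨j, hj1, hj2, hj3⟩ := (h2'.and (h3.and hWC)).exists
  have hrj := hr0 j
  have hs0 : Real.log (2 * C' * r j) ≤ 0 := Real.log_nonpos (by positivity) hj2.le
  have h5 : Real.log (2 * C' * r j) ≤ SS (fun Z : ZZ G q μ =>
      mz (Z : Submodule ℝ (Eu n)) ((F j : XS G) : C(Sph n, ℝ))) := by
    refine le_SS hs0 fun ht => ?_
    have h6 : spn {Z : ZZ G q μ | mz (Z : Submodule ℝ (Eu n)) ((F j : XS G) : C(Sph n, ℝ)) <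
        Real.log (2 * C' * r j)} ≤ W := by
      refine spn_le fun Z hZ => ?_
      by_contra hn
      exact lt_asymm hZ (hj1 Z hn)
    rw [ht] at h6
    exact hW.2.2.1 (top_le_iff.1 h6)
  have h6 := hnot j Z0
  have h7 : mz (Z0 : Submodule ℝ (Eu n)) ((F j : XS G) : C(Sph n, ℝ)) ≤ Real.log (C' * r j) := by
    refine mz_le (ZZ.ne_bot Z0) fun v hv => ?_
    rw [Real.le_log_iff_exp_le (by positivity), ← hexp]
    exact (hj3 v (hZ0 hv)).trans (mul_le_mul_of_nonneg_right (le_max_left _ _) hrj.le)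
  have h8 : Real.log (C' * r j) < Real.log (2 * C' * r j) := by
    apply Real.log_lt_log (by positivity)
    have : 0 < C' * r j := by positivity
    linarith
  linarith

end Pool.Agent.Lib.MP_b0d2bf_gt
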