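import Mathlib
import Pool.Agent.Lib.MP_b0d2bf_gt.YAux

set_option autoImplicit false

/-!
Orthonormal basis adapted to a chain of subspaces.
-/

namespace Pool.Agent.Lib.MP_b0d2bf_gt

open MeasureTheory Metric Set Filter Topology

namespace YBas

variable {n : ℕ}

/-- sum of the projections onto the orthogonal complements -/
noncomputable def TT (K : Finset (Submodule ℝ (Eu n))) : Eu n →ₗ[ℝ] Eu n :=
  ∑ Y ∈ K, (LinearMap.id - (Y.starProjection : Eu n →ₗ[ℝ] Eu n))

lemma TT_apply (K : Finset (Submodule ℝ (Eu n))) (v : Eu n) :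
    TT K v = ∑ Y ∈ K, (v - Y.starProjection v) := by
  unfold TT
  simp [LinearMap.sum_apply]

lemma inner_TT (K : Finset (Submodule ℝ (Eu n))) (v w : Eu n) :
    inner ℝ (TT K v) w = ∑ Y ∈ K, inner ℝ (v - Y.starProjection v) w := by
  rw [TT_apply, sum_inner]

lemma TT_symm (K : Finset (Submodule ℝ (Eu n))) : (TT K).IsSymmetric := by
  intro v w
  rw [inner_TT, real_inner_comm, inner_TT]
  refine Finset.sum_congr rfl fun Y _ => ?_
  rw [inner_sub_left, inner_sub_left, Submodule.inner_starProjection_left_eq_right,
    real_inner_comm v w, real_inner_comm (Y.starProjection w) v]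

variable {K : Finset (Submodule ℝ (Eu n))} (hK : ∀ X ∈ K, ∀ Y ∈ K, X ≤ Y ∨ Y ≤ X)

include hK in
lemma inner_TT_le {X : Submodule ℝ (Eu n)} (hX : X ∈ K) [DecidablePred fun Y => ¬ X ≤ Y]
    (v : Eu n) :
    inner ℝ (TT K v) (X.starProjection v) ≤
      ((K.filter fun Y => ¬ X ≤ Y).card : ℝ) * ‖X.starProjection v‖ ^ 2 := by
  rw [inner_TT, Finset.card_eq_sum_ones, Nat.cast_sum, Finset.sum_mul, Finset.sum_filter]
  refine Finset.sum_le_sum fun Y hY => ?_
  have hpX := X.starProjection_apply_mem v
  have h0 := X.starProjection_inner_eq_zero v _ hpX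
  rw [inner_sub_left, real_inner_self_eq_norm_sq] at h0
  by_cases h : X ≤ Y
  · rw [if_neg (not_not.2 h), Y.starProjection_inner_eq_zero v _ (h hpX)]
  · rw [if_pos h]
    have hYX : Y ≤ X := (hK X hX Y hY).resolve_left h
    have hpY := Y.starProjection_apply_mem v
    have h1 := Y.starProjection_inner_eq_zero v _ hpY
    have h2 := X.starProjection_inner_eq_zero v _ (hYX hpY)
    rw [inner_sub_left] at h1 h2
    rw [inner_sub_left]
    have h3 := real_inner_self_nonneg (x := Y.starProjection v)
    have h4 := real_inner_comm (X.starProjection v) (Y.starProjection v)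
    push_cast
    linarith

include hK in
lemma le_inner_TT {X : Submodule ℝ (Eu n)} (hX : X ∈ K) [DecidablePred fun Y => Y ≤ X]
    (v : Eu n) :
    ((K.filter fun Y => Y ≤ X).card : ℝ) * ‖v - X.starProjection v‖ ^ 2 ≤
      inner ℝ (TT K v) (v - X.starProjection v) := by
  rw [inner_TT, Finset.card_eq_sum_ones, Nat.cast_sum, Finset.sum_mul, Finset.sum_filter]
  refine Finset.sum_le_sum fun Y hY => ?_
  have hpX := X.starProjection_apply_mem v
  have hpY := Y.starProjection_apply_mem v
  split_ifs with h
  · have h0 := X.starProjection_inner_eq_zero v _ hpX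
    have h2 := X.starProjection_inner_eq_zero v _ (h hpY)
    have h3 := real_inner_self_eq_norm_sq (v - X.starProjection v)
    have h4 : inner ℝ (v - Y.starProjection v) (v - X.starProjection v) =
        inner ℝ (v - X.starProjection v) (v - X.starProjection v) +
          inner ℝ (v - X.starProjection v) (X.starProjection v) -
          inner ℝ (v - X.starProjection v) (Y.starProjection v) := by
      rw [← inner_add_right, ← inner_sub_right, real_inner_comm]
      congr 1
      abel
    rw [h4, h0, h2, h3]
    push_cast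
    linarith
  · have hXY : X ≤ Y := (hK X hX Y hY).resolve_right h
    have h1 := Y.starProjection_inner_eq_zero v _ (Y.sub_mem hpY (hXY hpX))
    have h4 : inner ℝ (v - Y.starProjection v) (v - X.starProjection v) =
        inner ℝ (v - Y.starProjection v) (v - Y.starProjection v) +
          inner ℝ (v - Y.starProjection v) (Y.starProjection v - X.starProjection v) := by
      rw [← inner_add_right]
      congr 1
      abel
    rw [h4, h1, add_zero]
    exact real_inner_self_nonneg

include hK in
lemma card_lt {X : Submodule ℝ (Eu n)} (hX : X ∈ K) [DecidablePred fun Y => ¬ X ≤ Y]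
    [DecidablePred fun Y => Y ≤ X] :
    (K.filter fun Y => ¬ X ≤ Y).card < (K.filter fun Y => Y ≤ X).card := by
  apply Finset.card_lt_card
  rw [Finset.ssubset_iff_of_subset]
  · exact ⟨X, by simp [hX], by simp⟩
  · intro Y hY
    rw [Finset.mem_filter] at hY ⊢
    exact ⟨hY.1, (hK X hX Y hY.1).resolve_left hY.2⟩

/-- number of elements of an orthonormal basis in a subspace, if all others are orthogonal -/
lemma card_eq (b : OrthonormalBasis (Fin n) ℝ (Eu n)) (X : Submodule ℝ (Eu n))
    (S : Finset (Fin n)) (h1 : ∀ i ∈ S, b i ∈ X) (h2 : ∀ i, i ∉ S → b i ∈ Xᗮ) :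
    Module.finrank ℝ X = S.card := by
  have hX : X = Submodule.span ℝ (Set.range fun i : S => b i) := by
    apply le_antisymm
    · intro x hx
      rw [← b.sum_repr' x]
      refine Submodule.sum_mem _ fun i _ => ?_
      by_cases hi : i ∈ S
      · exact Submodule.smul_mem _ _ (Submodule.subset_span ⟨⟨i, hi⟩, rfl⟩)
      · rw [Submodule.inner_left_of_mem_orthogonal hx (h2 i hi), zero_smul]
        exact Submodule.zero_mem _
    · rw [Submodule.span_le]
      rintro _ ⟨i, rfl⟩
      exact h1 i i.2
  have hli : LinearIndependent ℝ (fun i : S => b i) :=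
    b.orthonormal.linearIndependent.comp _ Subtype.val_injective
  rw [hX, finrank_span_eq_card hli, Fintype.card_coe]

end YBas

theorem adapted_basis {n : ℕ} (K : Finset (Submodule ℝ (Eu n)))
    (hK : ∀ X ∈ K, ∀ Y ∈ K, X ≤ Y ∨ Y ≤ X) :
    ∃ b : OrthonormalBasis (Fin n) ℝ (Eu n), ∀ X ∈ K, ∀ i : Fin n,
      ((i : ℕ) < n - Module.finrank ℝ X → b i ∈ Xᗮ) ∧
      (n - Module.finrank ℝ X ≤ (i : ℕ) → b i ∈ X) := by
  classical
  have hfin : Module.finrank ℝ (Eu n) = n := finrank_euclideanSpace_fin
  have hT := YBas.TT_symm K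
  set b := hT.eigenvectorBasis hfin with hb
  set l := hT.eigenvalues hfin with hl
  have hbl : ∀ i, YBas.TT K (b i) = l i • b i := fun i => by
    rw [hb, hT.apply_eigenvectorBasis hfin i]
    rfl
  refine ⟨b, fun X hX => ?_⟩
  set N := (K.filter fun Y => ¬ X ≤ Y).card with hN
  have hMN : N < (K.filter fun Y => Y ≤ X).card := YBas.card_lt hK hX
  -- the dichotomy
  have hin : ∀ i, l i ≤ N → b i ∈ X := by
    intro i hi
    have h1 := YBas.le_inner_TT hK hX (b i)
    rw [hbl, real_inner_smul_left] at h1
    have h0 := X.starProjection_inner_eq_zero (b i) _ (X.starProjection_apply_mem (b i))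
    have h3 := real_inner_self_eq_norm_sq (b i - X.starProjection (b i))
    rw [inner_sub_right, h0, sub_zero] at h3
    rw [real_inner_comm, h3] at h1
    have h4 : (N : ℝ) + 1 ≤ ((K.filter fun Y => Y ≤ X).card : ℝ) := by exact_mod_cast hMN
    have h5 : ‖b i - X.starProjection (b i)‖ ^ 2 = 0 := by
      have h6 : 0 ≤ ‖b i - X.starProjection (b i)‖ ^ 2 := by positivity
      nlinarith
    have h6 : b i - X.starProjection (b i) = 0 := by
      rw [← norm_eq_zero]
      exact pow_eq_zero_iff (two_ne_zero) |>.1 h5
    exact (Submodule.starProjection_eq_self_iff).1 (sub_eq_zero.1 h6).symm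
  have hout : ∀ i, ¬ l i ≤ N → b i ∈ Xᗮ := by
    intro i hi
    push Not at hi
    have h1 := YBas.inner_TT_le hK hX (b i)
    rw [hbl, real_inner_smul_left] at h1
    have h0 := X.starProjection_inner_eq_zero (b i) _ (X.starProjection_apply_mem (b i))
    rw [inner_sub_left, real_inner_self_eq_norm_sq, sub_eq_zero] at h0
    rw [h0, ← hN] at h1
    have h5 : ‖X.starProjection (b i)‖ ^ 2 = 0 := by
      have h6 : 0 ≤ ‖X.starProjection (b i)‖ ^ 2 := by positivity
      nlinarith
    have h6 : X.starProjection (b i) = 0 := by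
      rw [← norm_eq_zero]
      exact pow_eq_zero_iff (two_ne_zero) |>.1 h5
    exact (Submodule.starProjection_apply_eq_zero_iff X).1 h6
  set S : Finset (Fin n) := Finset.univ.filter fun i => l i ≤ N with hS
  have hcard : Module.finrank ℝ X = S.card :=
    YBas.card_eq b X S (fun i hi => hin i (by simpa [hS] using hi))
      (fun i hi => hout i (by simpa [hS] using hi))
  have hanti := hT.eigenvalues_antitone hfin
  intro i
  constructor
  · intro hi
    apply hout
    intro hcon
    have h1 : Finset.Ici i ⊆ S := by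
      intro j hj
      rw [Finset.mem_Ici] at hj
      rw [hS, Finset.mem_filter]
      exact ⟨Finset.mem_univ _, (hanti hj).trans hcon⟩
    have h2 := Finset.card_le_card h1
    rw [Fin.card_Ici] at h2
    have := i.2
    omega
  · intro hi
    apply hin
    by_contra hcon
    have h1 : Finset.Iic i ⊆ Sᶜ := by
      intro j hj
      rw [Finset.mem_Iic] at hj
      rw [Finset.mem_compl, hS, Finset.mem_filter]
      rintro ⟨-, h⟩
      exact hcon ((hanti hj).trans h)
    have h2 := Finset.card_le_card h1
    rw [Fin.card_Iic, Finset.card_compl, Fintype.card_fin] at h2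
    have := i.2
    omega

end Pool.Agent.Lib.MP_b0d2bf_gt
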