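import Mathlib
import Pool.Agent.Lib.MP_b0d2bf_gt.YAux
import Pool.Agent.Lib.MP_b0d2bf_gt.XPeak

set_option autoImplicit false

/-!
The bodies with support function `hb x`.
-/

namespace Pool.Agent.Lib.MP_b0d2bf_gt

open MeasureTheory Metric Set Filter Topology

namespace YBody

section Q

variable {n : ℕ}

/-- component orthogonal to a subspace -/
noncomputable def Q (L : Submodule ℝ (Eu n)) (w : Eu n) : Eu n := w - L.starProjection w

lemma infDist_eq (L : Submodule ℝ (Eu n)) (w : Eu n) :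
    infDist w (L : Set (Eu n)) = ‖Q L w‖ := by
  unfold Q
  rw [Submodule.starProjection_minimal, Metric.infDist_eq_iInf]
  simp only [dist_eq_norm]
  rfl

lemma Q_add (L : Submodule ℝ (Eu n)) (w z : Eu n) : Q L (w + z) = Q L w + Q L z := by
  unfold Q
  rw [map_add]
  abel

lemma Q_neg (L : Submodule ℝ (Eu n)) (w : Eu n) : Q L (-w) = -Q L w := by
  unfold Q
  rw [map_neg]
  abel

lemma norm_Q_le (L : Submodule ℝ (Eu n)) (w : Eu n) : ‖Q L w‖ ≤ ‖w‖ := by
  rw [← infDist_eq]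
  refine (infDist_le_dist_of_mem L.zero_mem).trans ?_
  rw [dist_zero_right]

lemma Q_of_mem {L : Submodule ℝ (Eu n)} {w : Eu n} (hw : w ∈ L) : Q L w = 0 := by
  unfold Q
  rw [Submodule.starProjection_eq_self_iff.2 hw, sub_self]

lemma Q_of_orth {L : Submodule ℝ (Eu n)} {w : Eu n} (hw : w ∈ Lᗮ) : Q L w = w := by
  unfold Q
  rw [(Submodule.starProjection_apply_eq_zero_iff L).2 hw, sub_zero]

lemma inner_Q (L : Submodule ℝ (Eu n)) (w z : Eu n) :
    inner ℝ (Q L w) z = inner ℝ (Q L w) (Q L z) := by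
  have h1 : inner ℝ (Q L w) (L.starProjection z) = 0 := by
    unfold Q
    exact L.starProjection_inner_eq_zero w _ (L.starProjection_apply_mem z)
  conv_lhs => rw [show z = Q L z + L.starProjection z by unfold Q; abel]
  rw [inner_add_right, h1, add_zero]

lemma Q_act {G : Subgroup (Eu n ≃ₗᵢ[ℝ] Eu n)} {L : Submodule ℝ (Eu n)} (hL : SInv G L)
    {g : Eu n ≃ₗᵢ[ℝ] Eu n} (hg : g ∈ G) (w : Eu n) : Q L (g w) = g (Q L w) := by
  unfold Q
  rw [XPeak.proj_act L hL hg, map_sub]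

end Q

variable {n : ℕ} {G : Subgroup (Eu n ≃ₗᵢ[ℝ] Eu n)} {q : ℝ} {μ : Measure (Sph n)}

/-- the span of the members of size larger than `t` -/
def XX (x : ZZ G q μ → ℝ) (t : ℝ) : Submodule ℝ (Eu n) := spn {Z | t < x Z}

lemma XX_anti (x : ZZ G q μ → ℝ) {s t : ℝ} (h : s ≤ t) : XX x t ≤ XX x s :=
  spn_mono fun _ hZ => h.trans_lt hZ

lemma SInv_spn (S : Set (ZZ G q μ)) : SInv G (spn S) := by
  intro g hg y hy
  have h1 : spn S ≤ (spn S).comap (g.toLinearEquiv : Eu n →ₗ[ℝ] Eu n) := by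
    refine spn_le fun Z hZ z hz => ?_
    rw [Submodule.mem_comap]
    exact le_spn hZ (Z.2.1.1 g hg z hz)
  exact h1 hy

/-- extension of `hb` to all vectors -/
noncomputable def H (x : ZZ G q μ → ℝ) (w : Eu n) : ℝ :=
  ⨆ t : {t : ℝ // 0 ≤ t}, Real.exp (-(t : ℝ)) * ‖Q (XX x t) w‖

lemma hb_eq (x : ZZ G q μ → ℝ) (v : Sph n) : hb x v = H x (v : Eu n) := by
  unfold hb H
  refine iSup_congr fun t => ?_
  rw [← infDist_eq]
  rfl

instance : Nonempty {t : ℝ // 0 ≤ t} := ⟨⟨0, le_rfl⟩⟩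

lemma term_le (x : ZZ G q μ → ℝ) (w : Eu n) (t : {t : ℝ // 0 ≤ t}) :
    Real.exp (-(t : ℝ)) * ‖Q (XX x t) w‖ ≤ ‖w‖ := by
  have h1 : Real.exp (-(t : ℝ)) ≤ 1 := Real.exp_le_one_iff.2 (by linarith [t.2])
  have h2 := norm_Q_le (XX x t) w
  have h3 := norm_nonneg (Q (XX x t) w)
  have h4 := (Real.exp_pos (-(t : ℝ))).le
  nlinarith

lemma bdd (x : ZZ G q μ → ℝ) (w : Eu n) :
    BddAbove (range fun t : {t : ℝ // 0 ≤ t} => Real.exp (-(t : ℝ)) * ‖Q (XX x t) w‖) := by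
  refine ⟨‖w‖, ?_⟩
  rintro _ ⟨t, rfl⟩
  exact term_le x w t

lemma le_H (x : ZZ G q μ → ℝ) (w : Eu n) {t : ℝ} (ht : 0 ≤ t) :
    Real.exp (-t) * ‖Q (XX x t) w‖ ≤ H x w :=
  le_ciSup (bdd x w) ⟨t, ht⟩

lemma H_le {x : ZZ G q μ → ℝ} {w : Eu n} {c : ℝ}
    (h : ∀ t : ℝ, 0 ≤ t → Real.exp (-t) * ‖Q (XX x t) w‖ ≤ c) : H x w ≤ c :=
  ciSup_le fun t => h t t.2

lemma H_le_norm (x : ZZ G q μ → ℝ) (w : Eu n) : H x w ≤ ‖w‖ :=
  ciSup_le (term_le x w)

lemma H_add (x : ZZ G q μ → ℝ) (w z : Eu n) : H x (w + z) ≤ H x w + H x z := by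
  refine H_le fun t ht => ?_
  have h1 := le_H x w ht
  have h2 := le_H x z ht
  have h3 : ‖Q (XX x t) (w + z)‖ ≤ ‖Q (XX x t) w‖ + ‖Q (XX x t) z‖ := by
    rw [Q_add]
    exact norm_add_le _ _
  have h4 := (Real.exp_pos (-t)).le
  calc Real.exp (-t) * ‖Q (XX x t) (w + z)‖
      ≤ Real.exp (-t) * (‖Q (XX x t) w‖ + ‖Q (XX x t) z‖) := mul_le_mul_of_nonneg_left h3 h4
    _ = Real.exp (-t) * ‖Q (XX x t) w‖ + Real.exp (-t) * ‖Q (XX x t) z‖ := by ring
    _ ≤ _ := add_le_add h1 h2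

lemma H_neg (x : ZZ G q μ → ℝ) (w : Eu n) : H x (-w) = H x w := by
  unfold H
  refine iSup_congr fun t => ?_
  rw [Q_neg, norm_neg]

lemma H_sub_le (x : ZZ G q μ → ℝ) (w z : Eu n) : H x w - H x z ≤ ‖w - z‖ := by
  have h1 := H_add x (w - z) z
  rw [sub_add_cancel] at h1
  have h2 := H_le_norm x (w - z)
  linarith

lemma continuous_H (x : ZZ G q μ → ℝ) : Continuous (H x) := by
  have : LipschitzWith 1 (H x) := by
    refine LipschitzWith.of_dist_le_mul fun w z => ?_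
    rw [Real.dist_eq, abs_le, dist_eq_norm]
    have h1 := H_sub_le x w z
    have h2 := H_sub_le x z w
    rw [norm_sub_rev] at h2
    simp only [NNReal.coe_one, one_mul]
    constructor <;> linarith
  exact this.continuous

lemma continuous_hb (x : ZZ G q μ → ℝ) : Continuous (hb x) := by
  have h1 : hb x = fun v : Sph n => H x (v : Eu n) := funext fun v => hb_eq x v
  rw [h1]
  exact (continuous_H x).comp continuous_subtype_val

lemma hb_pos [Finite (ZZ G q μ)] (x : ZZ G q μ → ℝ) (v : Sph n) : 0 < hb x v := by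
  obtain ⟨s, hs⟩ := (Set.finite_range x).bddAbove
  have h0 : 0 ≤ max s 0 := le_max_right _ _
  have h1 : XX x (max s 0) = ⊥ := by
    unfold XX
    have : {Z | max s 0 < x Z} = (∅ : Set (ZZ G q μ)) := by
      ext Z
      simp only [mem_ofPred_eq, mem_empty_iff_false, iff_false, not_lt]
      exact (hs ⟨Z, rfl⟩).trans (le_max_left _ _)
    rw [this, spn_empty]
  have h2 := le_H x (v : Eu n) h0
  rw [h1, Q_of_orth (by simp), norm_sph, mul_one, ← hb_eq] at h2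
  exact (Real.exp_pos _).trans_le h2

lemma hb_inv (x : ZZ G q μ → ℝ) : FInv G (hb x) := by
  intro g hg v
  rw [hb_eq, hb_eq]
  unfold H
  refine iSup_congr fun t => ?_
  show Real.exp (-(t : ℝ)) * ‖Q (XX x t) (g (v : Eu n))‖ = _
  have h1 : SInv G (XX x (t : ℝ)) := SInv_spn _
  rw [Q_act h1 hg, g.norm_map]

lemma hb_even (x : ZZ G q μ → ℝ) (v : Sph n) : hb x (-v) = hb x v := by
  rw [hb_eq, hb_eq, coe_neg_sphere, H_neg]

lemma supp_hb [NeZero n] [Finite (ZZ G q μ)] (x : ZZ G q μ → ℝ) (v : Sph n) :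
    supp (hb x) v = hb x v := by
  apply le_antisymm (supp_le (continuous_hb x) (hb_pos x) v)
  rw [hb_eq]
  refine H_le fun t ht => ?_
  set u := Q (XX x t) (v : Eu n) with hu
  by_cases h0 : u = 0
  · rw [h0, norm_zero, mul_zero]
    exact (supp_pos (continuous_hb x) (hb_pos x) v).le
  · have hn : 0 < ‖u‖ := norm_pos_iff.2 h0
    have hmem : (Real.exp (-t) * ‖u‖⁻¹) • u ∈ wulff (hb x) := by
      intro w
      rw [real_inner_smul_left, hb_eq]
      refine le_trans ?_ (le_H x (w : Eu n) ht)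
      rw [hu, inner_Q, ← hu, mul_assoc]
      refine mul_le_mul_of_nonneg_left ?_ (Real.exp_pos _).le
      have h1 := real_inner_le_norm u (Q (XX x t) (w : Eu n))
      rw [inv_mul_le_iff₀ hn]
      exact h1
    have h2 := inner_le_supp (continuous_hb x) (hb_pos x) v hmem
    refine le_trans (le_of_eq ?_) h2
    rw [real_inner_smul_left, hu, inner_Q, ← hu, real_inner_self_eq_norm_sq]
    field_simp

end YBody

section YBody

variable {n : ℕ} [NeZero n] {G : Subgroup (Eu n ≃ₗᵢ[ℝ] Eu n)} {q : ℝ} {μ : Measure (Sph n)}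

theorem infDist_le_hb (x : ZZ G q μ → ℝ) {t : ℝ} (ht : 0 ≤ t) (v : Sph n) :
    Real.exp (-t) * infDist (v : Eu n) (spn {Z | t < x Z} : Set (Eu n)) ≤ hb x v := by
  rw [YBody.hb_eq, YBody.infDist_eq]
  exact YBody.le_H x _ ht

theorem hb_le_of_mem (x : ZZ G q μ → ℝ) {t : ℝ} {v : Sph n}
    (hv : (v : Eu n) ∈ spn {Z | t < x Z}) : hb x v ≤ Real.exp (-t) := by
  rw [YBody.hb_eq]
  refine YBody.H_le fun s hs => ?_
  rcases le_total s t with h | h
  · rw [YBody.Q_of_mem (YBody.XX_anti x h hv), norm_zero, mul_zero]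
    exact (Real.exp_pos _).le
  · have h1 := YBody.norm_Q_le (YBody.XX x s) (v : Eu n)
    rw [norm_sph] at h1
    have h2 : Real.exp (-s) ≤ Real.exp (-t) := Real.exp_le_exp.2 (by linarith)
    have h3 := (Real.exp_pos (-s)).le
    nlinarith

theorem hb_le_exp {x : ZZ G q μ → ℝ} {Z : ZZ G q μ} (hx : 0 ≤ x Z) {v : Sph n}
    (hv : (v : Eu n) ∈ (Z : Submodule ℝ (Eu n))) : hb x v ≤ Real.exp (-x Z) := by
  let _ := hx
  rw [YBody.hb_eq]
  refine YBody.H_le fun s hs => ?_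
  rcases lt_or_ge s (x Z) with h | h
  · have h1 : (v : Eu n) ∈ YBody.XX x s := le_spn (show Z ∈ {Z | s < x Z} from h) hv
    rw [YBody.Q_of_mem h1, norm_zero, mul_zero]
    exact (Real.exp_pos _).le
  · have h1 := YBody.norm_Q_le (YBody.XX x s) (v : Eu n)
    rw [norm_sph] at h1
    have h2 : Real.exp (-s) ≤ Real.exp (-x Z) := Real.exp_le_exp.2 (by linarith)
    have h3 := (Real.exp_pos (-s)).le
    nlinarith

theorem hb_lip {x x' : ZZ G q μ → ℝ} {d : ℝ} (hd0 : 0 ≤ d) (hd : ∀ Z, |x Z - x' Z| ≤ d)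
    (v : Sph n) :
    hb x v ≤ Real.exp d * hb x' v := by
  rw [YBody.hb_eq, YBody.hb_eq]
  refine YBody.H_le fun t ht => ?_
  have h1 : YBody.XX x' (t + d) ≤ YBody.XX x t := by
    refine spn_mono fun Z hZ => ?_
    have h2 := (abs_le.1 (hd Z)).1
    have h3 : t + d < x' Z := hZ
    show t < x Z
    linarith
  have h2 : ‖YBody.Q (YBody.XX x t) (v : Eu n)‖ ≤
      ‖YBody.Q (YBody.XX x' (t + d)) (v : Eu n)‖ := by
    rw [← YBody.infDist_eq, ← YBody.infDist_eq]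
    exact infDist_le_infDist_of_subset h1 ⟨0, Submodule.zero_mem _⟩
  have h3 := YBody.le_H x' (v : Eu n) (add_nonneg ht hd0)
  calc Real.exp (-t) * ‖YBody.Q (YBody.XX x t) (v : Eu n)‖
      ≤ Real.exp (-t) * ‖YBody.Q (YBody.XX x' (t + d)) (v : Eu n)‖ :=
        mul_le_mul_of_nonneg_left h2 (Real.exp_pos _).le
    _ = Real.exp d * (Real.exp (-(t + d)) * ‖YBody.Q (YBody.XX x' (t + d)) (v : Eu n)‖) := by
        rw [← mul_assoc, ← Real.exp_add]
        congr 2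
        ring
    _ ≤ _ := mul_le_mul_of_nonneg_left h3 (Real.exp_pos _).le

theorem Bd_hb [Finite (ZZ G q μ)] {x : ZZ G q μ → ℝ} (hx : spn {Z | 0 < x Z} ≠ ⊤) :
    Bd G (hb x) where
  cont := YBody.continuous_hb x
  pos := YBody.hb_pos x
  inv := YBody.hb_inv x
  even := YBody.hb_even x
  supp := YBody.supp_hb x
  le := fun v => by
    rw [YBody.hb_eq]
    exact (YBody.H_le_norm x _).trans (norm_sph v).le
  one := by
    obtain ⟨v, hv⟩ := XPeak.exists_orth (spn {Z | 0 < x Z}) hx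
    refine ⟨v, le_antisymm ?_ ?_⟩
    · rw [YBody.hb_eq]
      exact (YBody.H_le_norm x _).trans (norm_sph v).le
    · have h1 := YBody.le_H x (v : Eu n) le_rfl
      have h2 : YBody.Q (YBody.XX x 0) (v : Eu n) = v := YBody.Q_of_orth hv
      rw [h2, norm_sph, neg_zero, Real.exp_zero, one_mul, ← YBody.hb_eq] at h1
      exact h1

end YBody

end Pool.Agent.Lib.MP_b0d2bf_gt
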