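import Mathlib

set_option autoImplicit false

/-!
# A deformation lemma: finitely many pushes
-/

namespace Pool.Agent.Lib.MP_b0d2bf_gt

open MeasureTheory Metric Set Filter Topology

namespace YDef

variable {E : Type*}

/-- the composition of the steps of a list -/
def run {ι : Type*} (step : ι → E → E) : List ι → E → E
  | [], x => x
  | i :: l, x => run step l (step i x)

lemma run_continuous [TopologicalSpace E] {ι : Type*} {step : ι → E → E} (h : ∀ i, Continuous (step i)) (l : List ι) :
    Continuous (run step l) := by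
  induction l with
  | nil => exact continuous_id
  | cons i l ih => exact ih.comp (h i)

lemma run_fix {ι : Type*} {step : ι → E → E} {ρ : E → E}
    (h : ∀ i x, ρ x = x → ρ (step i x) = step i x) (l : List ι) {x : E} (hx : ρ x = x) :
    ρ (run step l x) = run step l x := by
  induction l generalizing x with
  | nil => exact hx
  | cons i l ih => exact ih (h i x hx)

lemma run_mono {ι : Type*} {step : ι → E → E} {ρ : E → E} {F : E → ℝ}
    (h : ∀ i x, ρ x = x → ρ (step i x) = step i x)
    (hF : ∀ i x, ρ x = x → F x ≤ F (step i x)) (l : List ι) {x : E} (hx : ρ x = x) :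
    F x ≤ F (run step l x) := by
  induction l generalizing x with
  | nil => exact le_rfl
  | cons i l ih => exact (hF i x hx).trans (ih (h i x hx))

lemma run_const {ι : Type*} {step : ι → E → E} {x : E} (h : ∀ i, step i x = x) (l : List ι) :
    run step l x = x := by
  induction l with
  | nil => rfl
  | cons i l ih =>
    show run step l (step i x) = x
    rw [h i]
    exact ih

end YDef

open YDef in
theorem deform {E : Type*} [NormedAddCommGroup E] [NormedSpace ℝ E] {F : E → ℝ} {ρ : E → E}
    (hF : Continuous F) (hρ : LipschitzWith 2 ρ) (hidem : ∀ x, ρ (ρ x) = ρ x)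
    (hinc : ∀ x, F x ≤ F (ρ x)) (hcpt : ∀ c : ℝ, IsCompact {x | ρ x = x ∧ c ≤ F x})
    {m0 C C1 : ℝ} (hC : C < C1)
    (hpush : ∀ p, ρ p = p → m0 ≤ F p → F p ≤ C → ∃ φ : E, ∃ δ > 0, ∃ ε > 0,
      ∀ x ∈ ball p δ, ∀ s ∈ Icc (0:ℝ) δ, F x + ε * s ≤ F (x + s • φ)) :
    ∃ η : E → E, Continuous η ∧ (∀ x, ρ x = x → ρ (η x) = η x) ∧
      (∀ x, ρ x = x → C1 ≤ F x → η x = x) ∧ (∀ x, ρ x = x → m0 ≤ F x → C ≤ F (η x)) := by
  classical
  set K : Set E := {x | (ρ x = x ∧ m0 ≤ F x) ∧ F x ≤ C} with hKdef
  have hK : IsCompact K := (hcpt m0).inter_right (isClosed_le hF continuous_const)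
  have hpush' : ∀ p : K, ∃ φ : E, ∃ δ > 0, ∃ ε > 0,
      ∀ x ∈ ball (p : E) δ, ∀ s ∈ Icc (0:ℝ) δ, F x + ε * s ≤ F (x + s • φ) :=
    fun p => hpush p p.2.1.1 p.2.1.2 p.2.2
  choose φ δ hδ ε hε hp using hpush'
  obtain ⟨t, ht⟩ := hK.elim_nhds_subcover' (fun x hx => ball x (δ ⟨x, hx⟩ / 3))
    (fun x hx => ball_mem_nhds x (div_pos (hδ _) (by norm_num)))
  rcases t.eq_empty_or_nonempty with rfl | htne
  · refine ⟨id, continuous_id, fun x hx => hx, fun x _ _ => rfl, fun x hx hm => ?_⟩
    by_contra hlt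
    have : x ∈ K := ⟨⟨hx, hm⟩, (not_le.1 hlt).le⟩
    have := ht this
    simp at this
  -- constants
  obtain ⟨d, hd, hdδ⟩ : ∃ d > 0, ∀ i ∈ t, d ≤ δ i :=
    ⟨t.inf' htne δ, (Finset.lt_inf'_iff htne).2 fun i _ => hδ i, fun i hi => Finset.inf'_le δ hi⟩
  obtain ⟨e, he, heε⟩ : ∃ e > 0, ∀ i ∈ t, e ≤ ε i :=
    ⟨t.inf' htne ε, (Finset.lt_inf'_iff htne).2 fun i _ => hε i, fun i hi => Finset.inf'_le ε hi⟩
  obtain ⟨L, hL, hLφ⟩ : ∃ L ≥ 0, ∀ i ∈ t, ‖φ i‖ ≤ L :=
    ⟨∑ i ∈ t, ‖φ i‖, Finset.sum_nonneg fun i _ => norm_nonneg _,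
      fun i hi => Finset.single_le_sum (fun j _ => norm_nonneg (φ j)) hi⟩
  set N : ℝ := (t.card : ℝ) with hN
  have hN0 : 0 ≤ N := Nat.cast_nonneg _
  have hden : 0 < 6 * L * N + 1 := by positivity
  set s : ℝ := d / (6 * L * N + 1) with hs
  have hs0 : 0 < s := div_pos hd hden
  have hsd : s ≤ d := by
    rw [hs]
    exact div_le_self hd.le (by nlinarith [mul_nonneg hL hN0])
  have hsN : 2 * s * L * N ≤ d / 3 := by
    have h1 : s * (6 * L * N + 1) = d := div_mul_cancel₀ d hden.ne'
    nlinarith
  -- the steps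
  let θ : ℝ → ℝ := fun u => max 0 (min 1 ((C1 - u) / (C1 - C)))
  let χ : K → E → ℝ := fun i x => max 0 (min 1 (3 - 3 * dist x (i : E) / δ i))
  let step : K → E → E := fun i x => ρ (x + (s * χ i x * θ (F x)) • φ i)
  have hθc : Continuous θ := by fun_prop
  have hθ0 : ∀ u, 0 ≤ θ u := fun u => le_max_left _ _
  have hθ1 : ∀ u, θ u ≤ 1 := fun u => max_le zero_le_one (min_le_left _ _)
  have hχc : ∀ i, Continuous (χ i) := fun i => by
    simp only [χ]
    fun_prop
  have hχ0 : ∀ i x, 0 ≤ χ i x := fun i x => le_max_left _ _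
  have hχ1 : ∀ i x, χ i x ≤ 1 := fun i x => max_le zero_le_one (min_le_left _ _)
  have hstepc : ∀ i, Continuous (step i) := fun i => by
    refine hρ.continuous.comp (continuous_id.add (Continuous.smul ?_ continuous_const))
    exact (continuous_const.mul (hχc i)).mul (hθc.comp hF)
  have hfix : ∀ i x, ρ x = x → ρ (step i x) = step i x := fun i x _ => hidem _
  -- the step parameter
  have hpar0 : ∀ i x, 0 ≤ s * χ i x * θ (F x) := fun i x =>
    mul_nonneg (mul_nonneg hs0.le (hχ0 i x)) (hθ0 _)
  have hpar1 : ∀ i x, s * χ i x * θ (F x) ≤ s := fun i x => by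
    have h1 : s * χ i x ≤ s := mul_le_of_le_one_right hs0.le (hχ1 i x)
    exact (mul_le_of_le_one_right (mul_nonneg hs0.le (hχ0 i x)) (hθ1 _)).trans h1
  have hmono : ∀ i ∈ t, ∀ x, ρ x = x → F x ≤ F (step i x) := by
    intro i hi x hx
    by_cases hd' : dist x (i : E) < δ i
    · have h1 := hp i x (mem_ball.2 hd') (s * χ i x * θ (F x))
        ⟨hpar0 i x, (hpar1 i x).trans (hsd.trans (hdδ i hi))⟩
      have h2 : 0 ≤ ε i * (s * χ i x * θ (F x)) := mul_nonneg (hε i).le (hpar0 i x)
      exact (by linarith : F x ≤ F (x + (s * χ i x * θ (F x)) • φ i)).trans (hinc _)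
    · have h0 : χ i x = 0 := by
        simp only [χ]
        refine max_eq_left ((min_le_right _ _).trans ?_)
        have h3 : 1 ≤ dist x (i : E) / δ i := (one_le_div (hδ i)).2 (not_lt.1 hd')
        have h4 : 3 * dist x (i : E) / δ i = 3 * (dist x (i : E) / δ i) := mul_div_assoc _ _ _
        rw [h4]
        linarith
      simp only [step, h0, mul_zero, zero_mul, zero_smul, add_zero]
      rw [hx]
  have hgain : ∀ i ∈ t, ∀ x, ρ x = x → F x ≤ C → dist x (i : E) ≤ 2 * δ i / 3 →
      F x + e * s ≤ F (step i x) := by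
    intro i hi x hx hxC hdist
    have hχ : χ i x = 1 := by
      simp only [χ]
      have h3 : dist x (i : E) / δ i ≤ 2 / 3 := by
        rw [div_le_iff₀ (hδ i)]
        linarith
      have h4 : 3 * dist x (i : E) / δ i = 3 * (dist x (i : E) / δ i) := mul_div_assoc _ _ _
      rw [h4, min_eq_left (by linarith)]
      exact max_eq_right zero_le_one
    have hθ : θ (F x) = 1 := by
      simp only [θ]
      have h3 : 1 ≤ (C1 - F x) / (C1 - C) := (one_le_div (by linarith)).2 (by linarith)
      rw [min_eq_left h3]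
      exact max_eq_right zero_le_one
    have hd' : dist x (i : E) < δ i := by linarith [hδ i]
    have h1 := hp i x (mem_ball.2 hd') s ⟨hs0.le, hsd.trans (hdδ i hi)⟩
    have h2 : e * s ≤ ε i * s := mul_le_mul_of_nonneg_right (heε i hi) hs0.le
    have h5 : step i x = ρ (x + s • φ i) := by
      simp only [step, hχ, hθ, mul_one]
    rw [h5]
    exact (by linarith : F x + e * s ≤ F (x + s • φ i)).trans (hinc _)
  have hdisp : ∀ i ∈ t, ∀ x, ρ x = x → dist (step i x) x ≤ 2 * s * L := by
    intro i hi x hx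
    have h1 : dist (step i x) x = dist (ρ (x + (s * χ i x * θ (F x)) • φ i)) (ρ x) := by
      rw [hx]
    rw [h1]
    refine (hρ.dist_le_mul _ _).trans ?_
    have h2 : dist (x + (s * χ i x * θ (F x)) • φ i) x = (s * χ i x * θ (F x)) * ‖φ i‖ := by
      rw [dist_eq_norm, add_sub_cancel_left, norm_smul, Real.norm_of_nonneg (hpar0 i x)]
    rw [h2]
    have h3 : (s * χ i x * θ (F x)) * ‖φ i‖ ≤ s * L :=
      mul_le_mul (hpar1 i x) (hLφ i hi) (norm_nonneg _) hs0.le
    have h4 : ((2 : NNReal) : ℝ) = 2 := rfl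
    rw [h4]
    linarith
  have hstepconst : ∀ x, ρ x = x → C1 ≤ F x → ∀ i, step i x = x := by
    intro x hx hx1 i
    have hθ : θ (F x) = 0 := by
      simp only [θ]
      refine max_eq_left ((min_le_right _ _).trans ?_)
      exact div_nonpos_of_nonpos_of_nonneg (by linarith) (by linarith)
    simp only [step, hθ, mul_zero, zero_smul, add_zero]
    exact hx
  -- the gain along a list
  have hrunmono : ∀ l : List K, (∀ i ∈ l, i ∈ t) → ∀ x, ρ x = x → F x ≤ F (run step l x) := by
    intro l
    induction l with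
    | nil => exact fun _ x _ => le_rfl
    | cons j l ih =>
      intro hl x hx
      exact (hmono j (hl j (by simp)) x hx).trans
        (ih (fun i hi => hl i (by simp [hi])) _ (hfix j x hx))
  have hrungain : ∀ l : List K, (∀ i ∈ l, i ∈ t) → ∀ i ∈ l, ∀ x, ρ x = x →
      dist x (i : E) + 2 * s * L * l.length ≤ 2 * δ i / 3 →
      min C (F x + e * s) ≤ F (run step l x) := by
    intro l
    induction l with
    | nil =>
      intro _ i hi
      simp at hi
    | cons j l ih =>
      intro hl i hi x hx hdist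
      have hl' : ∀ i ∈ l, i ∈ t := fun i hi => hl i (by simp [hi])
      have hjt : j ∈ t := hl j (by simp)
      have hlen : ((j :: l).length : ℝ) = l.length + 1 := by simp
      rw [hlen] at hdist
      have hsL : 0 ≤ 2 * s * L := by positivity
      have hll : 0 ≤ (l.length : ℝ) := Nat.cast_nonneg _
      have hprod : 0 ≤ 2 * s * L * l.length := mul_nonneg hsL hll
      have hfx := hfix j x hx
      rcases List.mem_cons.1 hi with rfl | hil
      · have h2 := hrunmono l hl' _ hfx
        by_cases hxC : F x ≤ C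
        · have h1 := hgain i hjt x hx hxC (by nlinarith)
          exact (min_le_right _ _).trans (h1.trans h2)
        · exact (min_le_left _ _).trans ((not_le.1 hxC).le.trans ((hmono i hjt x hx).trans h2))
      · have h1 : dist (step j x) (i : E) ≤ 2 * s * L + dist x (i : E) :=
          (dist_triangle _ x _).trans (add_le_add_left (hdisp j hjt x hx) _)
        have h2 := ih hl' i hil (step j x) hfx (by nlinarith)
        refine le_trans ?_ h2
        exact min_le_min le_rfl (by linarith [hmono j hjt x hx])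
  -- the whole deformation
  let η0 : E → E := run step t.toList
  have hmemt : ∀ i ∈ t.toList, i ∈ t := fun i hi => Finset.mem_toList.1 hi
  have hη0c : Continuous η0 := run_continuous hstepc _
  have hη0fix : ∀ x, ρ x = x → ρ (η0 x) = η0 x := fun x hx => run_fix hfix _ hx
  have hη0mono : ∀ x, ρ x = x → F x ≤ F (η0 x) := fun x hx => hrunmono _ hmemt x hx
  have hη0const : ∀ x, ρ x = x → C1 ≤ F x → η0 x = x := fun x hx hx1 =>
    run_const (hstepconst x hx hx1) _
  have hη0gain : ∀ x, ρ x = x → m0 ≤ F x → min C (F x + e * s) ≤ F (η0 x) := by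
    intro x hx hm
    by_cases hxC : F x ≤ C
    · have hxK : x ∈ K := ⟨⟨hx, hm⟩, hxC⟩
      obtain ⟨i, hi, hxi⟩ := mem_iUnion₂.1 (ht hxK)
      refine hrungain _ hmemt i (Finset.mem_toList.2 hi) x hx ?_
      have h1 : dist x (i : E) < δ i / 3 := mem_ball.1 hxi
      have h2 : (t.toList.length : ℝ) = N := by rw [Finset.length_toList]
      rw [h2]
      linarith [hdδ i hi]
    · exact (min_le_left _ _).trans ((not_le.1 hxC).le.trans (hη0mono x hx))
  obtain ⟨k, hk⟩ := exists_nat_ge ((C - m0) / (e * s))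
  have hes : 0 < e * s := mul_pos he hs0
  have hk' : C ≤ m0 + k * (e * s) := by
    rw [div_le_iff₀ hes] at hk
    linarith
  refine ⟨η0^[k], hη0c.iterate k, fun x hx => ?_, fun x hx hx1 => ?_, fun x hx hm => ?_⟩
  · exact Function.Iterate.rec (fun y => ρ y = y) hx (fun y hy => hη0fix y hy) k
  · exact Function.iterate_fixed (hη0const x hx hx1) k
  · have hmain : ∀ j : ℕ, ρ (η0^[j] x) = η0^[j] x ∧ m0 ≤ F (η0^[j] x) ∧
        min C (m0 + j * (e * s)) ≤ F (η0^[j] x) := by
      intro j
      induction j with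
      | zero =>
        refine ⟨hx, hm, ?_⟩
        simp only [Function.iterate_zero, id]
        refine (min_le_right _ _).trans ?_
        simp only [Nat.cast_zero, zero_mul, add_zero]
        exact hm
      | succ j ih =>
        obtain ⟨h1, h2, h3⟩ := ih
        rw [Function.iterate_succ_apply']
        refine ⟨hη0fix _ h1, h2.trans (hη0mono _ h1), ?_⟩
        have h4 := hη0gain _ h1 h2
        refine le_trans ?_ h4
        refine le_min (min_le_left _ _) ?_
        push_cast
        rcases le_total C (m0 + j * (e * s)) with h5 | h5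
        · rw [min_eq_left h5] at h3
          exact (min_le_left _ _).trans (by linarith)
        · rw [min_eq_right h5] at h3
          exact (min_le_right _ _).trans (by linarith)
    have h5 := (hmain k).2.2
    rw [min_eq_left hk'] at h5
    exact h5

end Pool.Agent.Lib.MP_b0d2bf_gt
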