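import Mathlib
import Pool.Agent.Lib.MP_b0d2bf_gt.YAux
import Pool.Agent.Lib.MP_b0d2bf_gt.YMin
import Pool.Agent.Lib.MP_b0d2bf_gt.YBody
import Pool.Agent.Lib.MP_b0d2bf_gt.YBas
import Pool.Agent.Lib.MP_b0d2bf_gt.XLower

set_option autoImplicit false

/-!
Module YPSI: lower bound of the functional for the bodies `hb`.
-/

namespace Pool.Agent.Lib.MP_b0d2bf_gt

open MeasureTheory Metric Set Filter Topology

namespace YPsi

section

variable {n : ℕ} {G : Subgroup (Eu n ≃ₗᵢ[ℝ] Eu n)} {q : ℝ} {μ : Measure (Sph n)}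

/-- the span of the minimal heavy subspaces above a level -/
def lev (x : ZZ G q μ → ℝ) (t : ℝ) : Submodule ℝ (Eu n) := spn {Z | t < x Z}

lemma lev_anti {x : ZZ G q μ → ℝ} {s t : ℝ} (h : s ≤ t) : lev x t ≤ lev x s :=
  spn_mono fun _ hZ => h.trans_lt hZ

lemma lev_right [Finite (ZZ G q μ)] (x : ZZ G q μ → ℝ) (t : ℝ) :
    ∃ s, t < s ∧ lev x s = lev x t := by
  by_cases he : ({Z | t < x Z} : Set (ZZ G q μ)).Nonempty
  · obtain ⟨Z0, hZ0, hmin⟩ := Set.exists_min_image {Z | t < x Z} x (Set.toFinite _) he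
    have h0 : t < x Z0 := hZ0
    refine ⟨(t + x Z0) / 2, by linarith, ?_⟩
    unfold lev
    congr 1
    ext Z
    constructor
    · intro h
      have h1 : (t + x Z0) / 2 < x Z := h
      show t < x Z
      linarith
    · intro h
      have h1 := hmin Z h
      show (t + x Z0) / 2 < x Z
      linarith
  · rw [Set.not_nonempty_iff_eq_empty] at he
    refine ⟨t + 1, by linarith, ?_⟩
    unfold lev
    rw [he]
    congr 1
    rw [Set.eq_empty_iff_forall_notMem] at he ⊢
    intro Z hZ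
    refine he Z ?_
    have h1 : t + 1 < x Z := hZ
    show t < x Z
    linarith

/-- the last level at which the span contains the basis vector -/
noncomputable def tau (x : ZZ G q μ → ℝ) (b : OrthonormalBasis (Fin n) ℝ (Eu n)) (i : Fin n) : ℝ :=
  sSup (insert 0 {t | 0 ≤ t ∧ b i ∈ lev x t})

lemma lev_nonempty {x : ZZ G q μ → ℝ} {b : OrthonormalBasis (Fin n) ℝ (Eu n)} {i : Fin n} {t : ℝ}
    (h : b i ∈ lev x t) : ({Z | t < x Z} : Set (ZZ G q μ)).Nonempty := by
  by_contra hcon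
  rw [Set.not_nonempty_iff_eq_empty] at hcon
  unfold lev at h
  rw [hcon, spn_empty, Submodule.mem_bot] at h
  have h1 := b.norm_eq_one i
  rw [h, norm_zero] at h1
  exact zero_ne_one h1

lemma tau_bdd [Finite (ZZ G q μ)] (x : ZZ G q μ → ℝ) (b : OrthonormalBasis (Fin n) ℝ (Eu n))
    (i : Fin n) : BddAbove (insert 0 {t | 0 ≤ t ∧ b i ∈ lev x t}) := by
  obtain ⟨M, hM⟩ := (Set.finite_range x).bddAbove
  refine ⟨max M 0, ?_⟩
  rintro t (rfl | ⟨-, ht⟩)
  · exact le_max_right _ _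
  · obtain ⟨Z, hZ⟩ := lev_nonempty ht
    have h1 : t < x Z := hZ
    exact (h1.le.trans (hM ⟨Z, rfl⟩)).trans (le_max_left _ _)

lemma tau_nonneg [Finite (ZZ G q μ)] (x : ZZ G q μ → ℝ) (b : OrthonormalBasis (Fin n) ℝ (Eu n))
    (i : Fin n) : 0 ≤ tau x b i :=
  le_csSup (tau_bdd x b i) (Set.mem_insert _ _)

lemma le_tau [Finite (ZZ G q μ)] {x : ZZ G q μ → ℝ} {b : OrthonormalBasis (Fin n) ℝ (Eu n)}
    {i : Fin n} {t : ℝ} (ht : 0 ≤ t) (h : b i ∈ lev x t) : t ≤ tau x b i :=
  le_csSup (tau_bdd x b i) (Set.mem_insert_of_mem _ ⟨ht, h⟩)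

lemma mem_of_lt_tau {x : ZZ G q μ → ℝ} {b : OrthonormalBasis (Fin n) ℝ (Eu n)}
    {i : Fin n} {t : ℝ} (ht : 0 ≤ t) (h : t < tau x b i) : b i ∈ lev x t := by
  obtain ⟨s, hs, hts⟩ := exists_lt_of_lt_csSup ⟨0, Set.mem_insert _ _⟩ h
  rcases hs with rfl | ⟨-, hs⟩
  · exact absurd hts (not_lt.2 ht)
  · exact lev_anti hts.le hs

lemma notMem_tau [Finite (ZZ G q μ)] (x : ZZ G q μ → ℝ) (b : OrthonormalBasis (Fin n) ℝ (Eu n))
    (i : Fin n) : b i ∉ lev x (tau x b i) := by
  intro h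
  obtain ⟨s, hs, hs2⟩ := lev_right x (tau x b i)
  rw [← hs2] at h
  exact absurd (le_tau ((tau_nonneg x b i).trans hs.le) h) (not_le.2 hs)

/-- the basis is adapted to the chain of levels -/
def Adap (x : ZZ G q μ → ℝ) (b : OrthonormalBasis (Fin n) ℝ (Eu n)) : Prop :=
  ∀ t, 0 ≤ t → ∀ i : Fin n,
    ((i : ℕ) < n - Module.finrank ℝ (lev x t) → b i ∈ (lev x t)ᗮ) ∧
    (n - Module.finrank ℝ (lev x t) ≤ (i : ℕ) → b i ∈ lev x t)

lemma Adap.le_of_mem {x : ZZ G q μ → ℝ} {b : OrthonormalBasis (Fin n) ℝ (Eu n)} (h : Adap x b)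
    {t : ℝ} (ht : 0 ≤ t) {i : Fin n} (hi : b i ∈ lev x t) :
    n - Module.finrank ℝ (lev x t) ≤ (i : ℕ) := by
  by_contra hcon
  rw [not_le] at hcon
  have h1 := (h t ht i).1 hcon
  have h2 := Submodule.inner_right_of_mem_orthogonal hi h1
  rw [real_inner_self_eq_norm_sq, b.norm_eq_one] at h2
  norm_num at h2

lemma Adap.perp {x : ZZ G q μ → ℝ} {b : OrthonormalBasis (Fin n) ℝ (Eu n)} (h : Adap x b)
    {t : ℝ} (ht : 0 ≤ t) {i : Fin n} (hi : b i ∉ lev x t) : b i ∈ (lev x t)ᗮ := by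
  refine (h t ht i).1 ?_
  by_contra hcon
  exact hi ((h t ht i).2 (not_lt.1 hcon))

lemma Adap.mono {x : ZZ G q μ → ℝ} {b : OrthonormalBasis (Fin n) ℝ (Eu n)} (h : Adap x b)
    {t : ℝ} (ht : 0 ≤ t) {i j : Fin n} (hij : i ≤ j) (hi : b i ∈ lev x t) : b j ∈ lev x t :=
  (h t ht j).2 ((h.le_of_mem ht hi).trans hij)

lemma Adap.tau_mono [Finite (ZZ G q μ)] {x : ZZ G q μ → ℝ}
    {b : OrthonormalBasis (Fin n) ℝ (Eu n)} (h : Adap x b) : Monotone (tau x b) := by
  intro i j hij
  refine csSup_le ⟨0, Set.mem_insert _ _⟩ ?_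
  rintro t (rfl | ⟨ht, hi⟩)
  · exact tau_nonneg x b j
  · exact le_tau ht (h.mono ht hij hi)

lemma Adap.tau_zero [NeZero n] {x : ZZ G q μ → ℝ}
    {b : OrthonormalBasis (Fin n) ℝ (Eu n)} (h : Adap x b) (hx : spn {Z | 0 < x Z} ≠ ⊤) :
    tau x b 0 = 0 := by
  have h1 : {t | 0 ≤ t ∧ b 0 ∈ lev x t} = ∅ := by
    rw [Set.eq_empty_iff_forall_notMem]
    rintro t ⟨ht, hb⟩
    apply hx
    have h2 := h.le_of_mem le_rfl (lev_anti ht hb)
    have h3 : Module.finrank ℝ (lev x 0) = n := by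
      have h4 : Module.finrank ℝ (lev x 0) ≤ n := by
        have := Submodule.finrank_le (lev x 0)
        rwa [finrank_euclideanSpace_fin] at this
      have h5 : ((0 : Fin n) : ℕ) = 0 := by simp
      rw [h5] at h2
      omega
    have h6 : lev x 0 = ⊤ := by
      apply Submodule.eq_top_of_finrank_eq
      rw [h3, finrank_euclideanSpace_fin]
    exact h6
  unfold tau
  rw [h1]
  simp

/-- the tail flag is contained in the levels -/
lemma Adap.tl_le {x : ZZ G q μ → ℝ} {b : OrthonormalBasis (Fin n) ℝ (Eu n)} (h : Adap x b)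
    {t : ℝ} (ht : 0 ≤ t) {i : Fin n} (hi : b i ∈ lev x t) : tl b i ≤ lev x t := by
  intro v hv
  rw [← b.sum_repr v]
  refine Submodule.sum_mem _ fun j _ => ?_
  rcases lt_or_ge j i with hj | hj
  · have h1 : b.repr v j = 0 := by
      rw [b.repr_apply_apply]
      exact hv j hj
    rw [h1, zero_smul]
    exact Submodule.zero_mem _
  · exact Submodule.smul_mem _ _ (h.mono ht hj hi)

lemma Adap.le_tl {x : ZZ G q μ → ℝ} {b : OrthonormalBasis (Fin n) ℝ (Eu n)} (h : Adap x b)
    {t : ℝ} (ht : 0 ≤ t) {i : Fin n} (hi : b (pr i) ∉ lev x t) : lev x t ≤ tl b i := by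
  intro v hv j hj
  have h1 : j ≤ pr i := by
    rw [Fin.le_def]
    show (j : ℕ) ≤ (i : ℕ) - 1
    have : (j : ℕ) < i := hj
    omega
  have h2 : b j ∉ lev x t := fun h3 => hi (h.mono ht h1 h3)
  exact Submodule.inner_left_of_mem_orthogonal hv (h.perp ht h2)

lemma exists_adap [Finite (ZZ G q μ)] (x : ZZ G q μ → ℝ) :
    ∃ b : OrthonormalBasis (Fin n) ℝ (Eu n), Adap x b := by
  classical
  have hfin : ((lev x) '' Set.Ici 0).Finite := by
    refine (Set.finite_range (spn : Set (ZZ G q μ) → Submodule ℝ (Eu n))).subset ?_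
    rintro _ ⟨t, -, rfl⟩
    exact ⟨_, rfl⟩
  obtain ⟨b, hb⟩ := adapted_basis hfin.toFinset (by
    intro X hX Y hY
    rw [Set.Finite.mem_toFinset] at hX hY
    obtain ⟨s, -, rfl⟩ := hX
    obtain ⟨t, -, rfl⟩ := hY
    rcases le_total s t with hst | hst
    · exact Or.inr (lev_anti hst)
    · exact Or.inl (lev_anti hst))
  refine ⟨b, fun t ht i => hb _ ?_ i⟩
  rw [Set.Finite.mem_toFinset]
  exact ⟨t, ht, rfl⟩

variable [NeZero n]

lemma hb_le {x : ZZ G q μ → ℝ} [Finite (ZZ G q μ)] (hx : spn {Z | 0 < x Z} ≠ ⊤) {v : Sph n}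
    {T : ℝ} (hT : 0 ≤ T) (h : ∀ t, 0 ≤ t → t < T → (v : Eu n) ∈ lev x t) :
    hb x v ≤ Real.exp (-T) := by
  rcases hT.eq_or_lt with rfl | hT
  · rw [neg_zero, Real.exp_zero]
    exact (Bd_hb hx).le v
  · have h1 : Tendsto (fun t : ℝ => Real.exp (-t)) (𝓝[<] T) (𝓝 (Real.exp (-T))) :=
      ((Real.continuous_exp.comp continuous_neg).tendsto T).mono_left nhdsWithin_le_nhds
    refine ge_of_tendsto h1 ?_
    filter_upwards [Ioo_mem_nhdsLT hT] with t ht
    exact hb_le_of_mem x (h t ht.1.le ht.2)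

lemma Adap.bx [Finite (ZZ G q μ)] {x : ZZ G q μ → ℝ} {b : OrthonormalBasis (Fin n) ℝ (Eu n)}
    (h : Adap x b) (hx : spn {Z | 0 < x Z} ≠ ⊤) :
    Bx (hb x) b (fun i => Real.exp (-tau x b i)) := by
  have hn1 : (1 : ℝ) ≤ √(n : ℝ) := by
    rw [Real.one_le_sqrt]
    exact_mod_cast NeZero.one_le
  have hd := Bd_hb (G := G) hx
  refine ⟨?_, fun k => Real.exp_pos _, ?_, ?_⟩
  · intro i j hij
    exact Real.exp_le_exp.2 (neg_le_neg (h.tau_mono hij))
  · intro v k
    have h1 : |inner ℝ (b k) (v : Eu n)| ≤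
        infDist (v : Eu n) (lev x (tau x b k) : Set (Eu n)) := by
      refine (le_infDist ⟨0, Submodule.zero_mem _⟩).2 fun y hy => ?_
      have h2 : inner ℝ (b k) y = (0 : ℝ) :=
        Submodule.inner_left_of_mem_orthogonal hy (h.perp (tau_nonneg x b k) (notMem_tau x b k))
      have h3 : inner ℝ (b k) (v : Eu n) = inner ℝ (b k) ((v : Eu n) - y) := by
        rw [inner_sub_right, h2, sub_zero]
      rw [h3, dist_eq_norm]
      refine (abs_real_inner_le_norm _ _).trans ?_
      rw [b.norm_eq_one, one_mul]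
    have h4 := infDist_le_hb x (tau_nonneg x b k) v
    calc Real.exp (-tau x b k) * |inner ℝ (b k) (v : Eu n)|
        ≤ Real.exp (-tau x b k) * infDist (v : Eu n) (lev x (tau x b k) : Set (Eu n)) :=
          mul_le_mul_of_nonneg_left h1 (Real.exp_pos _).le
      _ ≤ hb x v := h4
      _ ≤ √n * hb x v := le_mul_of_one_le_left (hd.pos v).le hn1
  · intro y hy k
    set u : Sph n := ⟨b k, by rw [mem_sphere_zero_iff_norm]; exact b.norm_eq_one k⟩ with hu
    have h1 : hb x u ≤ Real.exp (-tau x b k) :=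
      hb_le hx (tau_nonneg x b k) fun t ht ht2 => mem_of_lt_tau ht ht2
    have h2 : inner ℝ y (b k) ≤ hb x u := hy u
    have h3 : -inner ℝ y (b k) ≤ hb x u := by
      have h4 := hy (-u)
      rw [hd.even, coe_neg_sphere, inner_neg_right] at h4
      exact h4
    rw [real_inner_comm]
    have h5 : |inner ℝ y (b k)| ≤ Real.exp (-tau x b k) :=
      abs_le.2 ⟨by linarith, by linarith⟩
    exact h5.trans (le_mul_of_one_le_left (Real.exp_pos _).le hn1)

open Classical in
/-- the pointwise bound for the logarithm -/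
lemma Adap.log_le [Finite (ZZ G q μ)] {x : ZZ G q μ → ℝ}
    {b : OrthonormalBasis (Fin n) ℝ (Eu n)} (h : Adap x b) (hx : spn {Z | 0 < x Z} ≠ ⊤)
    (v : Sph n) : Real.log (hb x v) ≤ - ∑ k : Fin n, (if (v : Eu n) ∈ tl b k then
        XLower.dr (fun i => Real.exp (-tau x b i)) k else 0) := by
  set a : Fin n → ℝ := fun i => Real.exp (-tau x b i) with ha
  have hB : Bx (hb x) b a := h.bx hx
  set F : Finset (Fin n) := Finset.univ.filter fun k => (v : Eu n) ∈ tl b k with hF
  have h0 : (0 : Fin n) ∈ F := by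
    rw [hF, Finset.mem_filter]
    refine ⟨Finset.mem_univ _, fun i hi => ?_⟩
    exact absurd hi (by simp)
  set m := F.max' ⟨0, h0⟩ with hm
  have hmF : m ∈ F := F.max'_mem _
  have hmt : (v : Eu n) ∈ tl b m := (Finset.mem_filter.1 hmF).2
  have h1 : hb x v ≤ a m :=
    hb_le hx (tau_nonneg x b m) fun t ht ht2 => h.tl_le ht (mem_of_lt_tau ht ht2) hmt
  have h2 := Real.log_le_log ((Bd_hb (G := G) hx).pos v) h1
  rw [XLower.log_eq a m] at h2
  have h3 : Real.log (a 0) = 0 := by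
    rw [ha]
    simp only
    rw [h.tau_zero hx, neg_zero, Real.exp_zero, Real.log_one]
  have h4 : ∑ k ∈ F, XLower.dr a k ≤ ∑ k with k ≤ m, XLower.dr a k := by
    refine Finset.sum_le_sum_of_subset_of_nonneg ?_ fun k _ _ =>
      XLower.dr_nonneg hB.anti hB.pos k
    intro k hk
    rw [Finset.mem_filter]
    exact ⟨Finset.mem_univ _, F.le_max' k hk⟩
  rw [← Finset.sum_filter]
  linarith

/-- the constant of the mass inequality -/
lemma exists_const [IsProbabilityMeasure μ] [Finite (ZZ G q μ)] (hq : 0 < q) :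
    ∃ c > 0, ∀ S : Set (ZZ G q μ), S.Nonempty → spn S ≠ ⊤ →
      Module.finrank ℝ (spn S) / q + c ≤ mass μ (spn S) := by
  have h1 : ∀ S : Set (ZZ G q μ), ∃ c : ℝ, 0 < c ∧ (S.Nonempty → spn S ≠ ⊤ →
      Module.finrank ℝ (spn S) / q + c ≤ mass μ (spn S)) := by
    intro S
    by_cases hS : S.Nonempty ∧ spn S ≠ ⊤
    · have h2 := (heavy_spn hq hS.1 hS.2).2.2.2
      exact ⟨mass μ (spn S) - Module.finrank ℝ (spn S) / q, by linarith, fun _ _ => by linarith⟩
    · exact ⟨1, one_pos, fun h2 h3 => absurd ⟨h2, h3⟩ hS⟩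
  choose c hc hcS using h1
  obtain ⟨S0, hS0⟩ := Finite.exists_min c
  refine ⟨c S0, hc S0, fun S h2 h3 => ?_⟩
  have := hcS S h2 h3
  have := hS0 S
  linarith

end

end YPsi

open YPsi

theorem Psi_hb {n : ℕ} [NeZero n] {G : Subgroup (Eu n ≃ₗᵢ[ℝ] Eu n)}
    (μ : Measure (Sph n)) [IsProbabilityMeasure μ] {q : ℝ} (hq : (n : ℝ) < q)
    (hnd : Nondeg G q μ) :
    ∃ c > 0, ∃ C : ℝ, ∀ x : ZZ G q μ → ℝ, (∀ Z, 0 ≤ x Z) → spn {Z | 0 < x Z} ≠ ⊤ →
      ∀ Z, c * x Z - C ≤ Psi μ q (hb x) := by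
  classical
  have hn : (0:ℝ) < n := by exact_mod_cast NeZero.pos n
  have hq0 : 0 < q := hn.trans hq
  have hfin : Finite (ZZ G q μ) := finite_ZZ hq0 hnd
  obtain ⟨c, hc, hcS⟩ := exists_const (G := G) (μ := μ) hq0
  obtain ⟨c1, hc1, hII⟩ := II_ge_box (n := n) hq
  refine ⟨c, hc, -(1 / q) * Real.log c1, fun x hx0 hx Z => ?_⟩
  obtain ⟨b, hA⟩ := exists_adap x
  set a : Fin n → ℝ := fun i => Real.exp (-tau x b i) with ha
  have hB : Bx (hb x) b a := hA.bx hx
  have hd : Bd G (hb x) := Bd_hb hx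
  have ha0 : Real.log (a 0) = 0 := by
    rw [ha]
    simp only
    rw [hA.tau_zero hx, neg_zero, Real.exp_zero, Real.log_one]
  have hla : ∀ k, Real.log (a k) = - tau x b k := fun k => Real.log_exp _
  have hdr : ∀ k, XLower.dr a k = tau x b k - tau x b (pr k) := by
    intro k
    unfold XLower.dr
    rw [hla, hla]
    ring
  have hdr0 : ∀ k, 0 ≤ XLower.dr a k := XLower.dr_nonneg hB.anti hB.pos
  -- the volume term
  have h1 : Real.log c1 - ∑ k, ((n : ℝ) - k) * XLower.dr a k ≤ Real.log (II q (hb x)) := by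
    have h2 := hII (hb x) hd.cont hd.pos hd.even b a hB ⟨0, by
      have : a 0 = 1 := by
        rw [ha]
        simp only
        rw [hA.tau_zero hx, neg_zero, Real.exp_zero]
      rw [this, mul_one]
      exact_mod_cast NeZero.one_le⟩
    have h3 : Real.log (c1 * ∏ k, a k) ≤ Real.log (II q (hb x)) :=
      Real.log_le_log (mul_pos hc1 (Finset.prod_pos fun k _ => hB.pos k)) h2
    rw [Real.log_mul hc1.ne' (Finset.prod_pos fun k _ => hB.pos k).ne',
      Real.log_prod fun k _ => (hB.pos k).ne', XLower.sum_log, ha0, mul_zero] at h3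
    linarith
  -- the mass term
  have hmass : ∀ k, XLower.dr a k * (((n : ℝ) - k) / q + c) ≤ XLower.dr a k * mass μ (tl b k) := by
    intro k
    rcases (hdr0 k).eq_or_lt with h0 | hpos
    · rw [← h0, zero_mul, zero_mul]
    · refine mul_le_mul_of_nonneg_left ?_ hpos.le
      rw [hdr] at hpos
      have ht0 := tau_nonneg x b (pr k)
      have h2 : b k ∈ lev x (tau x b (pr k)) := mem_of_lt_tau ht0 (by linarith)
      have h3 : tl b k = lev x (tau x b (pr k)) :=
        le_antisymm (hA.tl_le ht0 h2) (hA.le_tl ht0 (notMem_tau x b (pr k)))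
      have h4 : lev x (tau x b (pr k)) ≠ ⊤ := by
        intro h5
        apply hx
        rw [eq_top_iff, ← h5]
        exact lev_anti ht0
      have h5 := hcS {Z | tau x b (pr k) < x Z} (lev_nonempty h2) h4
      have h6 : Module.finrank ℝ (tl b k) = n - k := finrank_tl b k
      have h7 : (spn {Z | tau x b (pr k) < x Z} : Submodule ℝ (Eu n)) = tl b k := h3.symm
      rw [h7, h6, Nat.cast_sub k.2.le] at h5
      exact h5
  have hint : ∀ k : Fin n, Integrable (fun v : Sph n =>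
      (if (v : Eu n) ∈ tl b k then XLower.dr a k else 0)) μ := by
    intro k
    have : (fun v : Sph n => (if (v : Eu n) ∈ tl b k then XLower.dr a k else 0)) =
        indicator {v : Sph n | (v : Eu n) ∈ tl b k} (fun _ => XLower.dr a k) := by
      funext v
      simp only [indicator_apply]
      rfl
    rw [this]
    exact (integrable_const _).indicator (XLower.meas_tl b k)
  have hval : ∀ k : Fin n, ∫ v : Sph n, (if (v : Eu n) ∈ tl b k then XLower.dr a k else 0) ∂μ =
      XLower.dr a k * mass μ (tl b k) := by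
    intro k
    have : (fun v : Sph n => (if (v : Eu n) ∈ tl b k then XLower.dr a k else 0)) =
        indicator {v : Sph n | (v : Eu n) ∈ tl b k} (fun _ => XLower.dr a k) := by
      funext v
      simp only [indicator_apply]
      rfl
    rw [this, integral_indicator_const _ (XLower.meas_tl b k), smul_eq_mul, mul_comm]
    rfl
  have h4 : ∫ v, Real.log (hb x v) ∂μ ≤ - ∑ k, XLower.dr a k * mass μ (tl b k) := by
    have hlog : Integrable (fun v => Real.log (hb x v)) μ :=
      (hd.cont.log fun v => (hd.pos v).ne').integrable_of_hasCompactSupport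
        (HasCompactSupport.of_compactSpace _)
    have h5 : Integrable (fun v : Sph n => ∑ k : Fin n,
        (if (v : Eu n) ∈ tl b k then XLower.dr a k else 0)) μ :=
      integrable_finsetSum _ fun k _ => hint k
    refine (integral_mono hlog h5.neg fun v => hA.log_le hx v).trans (le_of_eq ?_)
    · simp only [Pi.neg_apply]
      rw [integral_neg, integral_finsetSum _ fun k _ => hint k]
      congr 1
      exact Finset.sum_congr rfl fun k _ => hval k
  -- the last level
  have hlast : x Z ≤ ∑ k, XLower.dr a k := by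
    have hl : n - 1 < n := by
      have := NeZero.pos n
      omega
    set l : Fin n := ⟨n - 1, hl⟩ with hldef
    have h5 := XLower.log_eq a l
    rw [ha0, hla, zero_sub, neg_inj] at h5
    have h6 : (Finset.univ.filter fun i : Fin n => i ≤ l) = Finset.univ := by
      rw [Finset.filter_eq_self]
      intro i _
      rw [Fin.le_def]
      show (i : ℕ) ≤ n - 1
      omega
    rw [h6] at h5
    rw [← h5]
    refine le_of_forall_lt fun t ht => ?_
    rcases lt_or_ge t 0 with h7 | h7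
    · exact h7.trans_le (tau_nonneg x b l)
    · have h8 : (Z : Submodule ℝ (Eu n)) ≤ lev x t := le_spn ht
      have h9 : 0 < Module.finrank ℝ (lev x t) := by
        rw [Module.finrank_pos_iff, Submodule.nontrivial_iff_ne_bot]
        intro h10
        rw [h10] at h8
        exact Z.ne_bot (le_bot_iff.1 h8)
      have h11 : b l ∈ lev x t := (hA t h7 l).2 (by
        show n - Module.finrank ℝ (lev x t) ≤ n - 1
        omega)
      obtain ⟨s, hs, hs2⟩ := lev_right x t
      rw [← hs2] at h11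
      exact hs.trans_le (le_tau (h7.trans hs.le) h11)
  have h12 : ∑ k, XLower.dr a k * (((n : ℝ) - k) / q + c) =
      (1 / q) * ∑ k, ((n : ℝ) - k) * XLower.dr a k + c * ∑ k, XLower.dr a k := by
    rw [Finset.mul_sum, Finset.mul_sum, ← Finset.sum_add_distrib]
    exact Finset.sum_congr rfl fun k _ => by ring
  have h13 := Finset.sum_le_sum fun k (_ : k ∈ Finset.univ) => hmass k
  rw [h12] at h13
  have h14 : (1 / q) * (Real.log c1 - ∑ k, ((n : ℝ) - k) * XLower.dr a k) ≤
      (1 / q) * Real.log (II q (hb x)) := mul_le_mul_of_nonneg_left h1 (by positivity)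
  have h15 : c * x Z ≤ c * ∑ k, XLower.dr a k := mul_le_mul_of_nonneg_left hlast hc.le
  have h16 : (1 / q) * (Real.log c1 - ∑ k, ((n : ℝ) - k) * XLower.dr a k) =
      (1 / q) * Real.log c1 - (1 / q) * ∑ k, ((n : ℝ) - k) * XLower.dr a k := by ring
  rw [h16] at h14
  unfold Psi
  linarith

end Pool.Agent.Lib.MP_b0d2bf_gt
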