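import Mathlib
import Pool.Agent.Lib.MP_b0d2bf_gt.YDef
import Pool.Agent.Lib.MP_b0d2bf_gt.YMin
import Pool.Agent.Lib.MP_b0d2bf_gt.YBar
import Pool.Agent.Lib.MP_b0d2bf_gt.YBody
import Pool.Agent.Lib.MP_b0d2bf_gt.YBas
import Pool.Agent.Lib.MP_b0d2bf_gt.YPsi
import Pool.Agent.Lib.MP_b0d2bf_gt.YAux
import Pool.Agent.Lib.MP_b0d2bf_gt.XFin

set_option autoImplicit false

/-!
The topological existence theorem: if the complex of minimal heavy subspaces is not contractible,
there is a solution.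
-/

namespace Pool.Agent.Lib.MP_b0d2bf_gt

open MeasureTheory Metric Set Filter Topology

section YTop

variable {n : ℕ} [NeZero n] {G : Subgroup (Eu n ≃ₗᵢ[ℝ] Eu n)} {q : ℝ}

/-- if there is no solution, there are pushes everywhere below a given level -/
theorem exists_push [Finite G] (hneg : LinearIsometryEquiv.neg ℝ ∈ G) (hq : (n : ℝ) < q)
    (μ : Measure (Sph n)) [IsProbabilityMeasure μ] (hμ : MInv G μ) (hnd : Nondeg G q μ)
    (hno : ¬ ∃ g : Sph n → ℝ, Bd G g ∧ MM q g = ENNReal.ofReal (II q g) • μ) (C : ℝ) :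
    ∃ M0 : ℝ, ∀ M, M0 ≤ M → ∀ p : XS G, rhoX p = p → FM q μ (sgu n) M (p : C(Sph n, ℝ)) ≤ C →
      ∃ φ : XS G, ∃ δ > 0, ∃ ε > 0, ∀ x ∈ ball p δ, ∀ s ∈ Icc (0:ℝ) δ,
        FM q μ (sgu n) M (x : C(Sph n, ℝ)) + ε * s ≤
          FM q μ (sgu n) M ((x + s • φ : XS G) : C(Sph n, ℝ)) := by
  have hn : (0:ℝ) < n := by exact_mod_cast NeZero.pos n
  have hq0 : 0 < q := hn.trans hq
  have hσp : IsProbabilityMeasure (sgu n) := isProb_sgu
  have hσi : MInv G (sgu n) := MInv_sgu G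
  have hσm : ∀ L : Submodule ℝ (Eu n), L ≠ ⊤ → mass (sgu n) L = 0 := fun L hL => mass_sgu hL
  obtain ⟨c, hc0, hcrit⟩ := crit_bound (G := G) (σ := sgu n) hμ hσm hq hnd (C + 1)
  refine ⟨max 0 (-Real.log c), fun M hM p hp1 hp2 => ?_⟩
  by_contra hcon
  push Not at hcon
  have hcr : ∀ φ : XS G, dF q μ (sgu n) M (p : C(Sph n, ℝ)) (φ : C(Sph n, ℝ)) = 0 := by
    refine crit_zero hq0 fun φ => ?_
    rintro ⟨δ, hδ, ε, hε, h1⟩
    obtain ⟨x, hx, s, hs, h2⟩ := hcon φ δ hδ ε hε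
    exact absurd (h1 x hx s hs) (not_le.2 h2)
  have hM3 : -Real.log c ≤ M := (le_max_right _ _).trans hM
  have hBp := Bd_of_fix hneg hp1
  have hE := measure_of_crit hq0 hμ hσi hcr
  set u := Uf (sgu n) μ (p : C(Sph n, ℝ)) with hu
  have hpm := pen'_mem M u
  by_cases hMu : u ≤ M
  · refine hno ⟨_, hBp, ?_⟩
    unfold CEq at hE
    rw [pen'_zero hMu, sub_zero, sub_self, ENNReal.ofReal_one, ENNReal.ofReal_zero, one_smul,
      zero_smul, add_zero] at hE
    exact hE
  · rw [not_le] at hMu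
    have hneg1 : ∀ v, (p : C(Sph n, ℝ)) v ≤ 0 := by
      intro v
      have := hBp.le v
      unfold ex at this
      rwa [Real.exp_le_one_iff] at this
    obtain ⟨w, -, hw⟩ := isCompact_univ.exists_isMinOn (univ_nonempty (α := Sph n))
      (p : C(Sph n, ℝ)).continuous.continuousOn
    have hw' : ∀ v, (p : C(Sph n, ℝ)) w ≤ (p : C(Sph n, ℝ)) v := fun v => hw (mem_univ v)
    have hU : u ≤ - (p : C(Sph n, ℝ)) w := by
      have h1 : ∫ v, (p : C(Sph n, ℝ)) v ∂(sgu n) ≤ 0 := integral_nonpos hneg1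
      have h2 : (p : C(Sph n, ℝ)) w ≤ ∫ v, (p : C(Sph n, ℝ)) v ∂μ := by
        have h3 : ∫ _v : Sph n, (p : C(Sph n, ℝ)) w ∂μ ≤ ∫ v, (p : C(Sph n, ℝ)) v ∂μ :=
          integral_mono (integrable_const _) (integrable_cm μ (p : C(Sph n, ℝ)).continuous) hw'
        rwa [integral_const, probReal_univ, one_smul] at h3
      rw [hu]
      unfold Uf
      linarith
    have hlow : ex (p : C(Sph n, ℝ)) w < c := by
      unfold ex
      rw [← Real.lt_log_iff_exp_lt hc0]
      linarith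
    obtain ⟨ht, hPsi⟩ := hcrit _ (1 - pen' M u) hBp ⟨by linarith [hpm.2], by linarith [hpm.1]⟩ hE
      ⟨w, hlow⟩
    have ht' : pen' M u < 1 := by
      have : 0 < 1 / (2 * q) := by positivity
      linarith
    have hu1 : u ≤ M + 1 := by
      by_contra hcon
      rw [not_le] at hcon
      rw [pen'_one hcon.le] at ht'
      exact lt_irrefl _ ht'
    have hpen := pen_le_half hu1
    have hFp : FM q μ (sgu n) M (p : C(Sph n, ℝ)) =
      Psi μ q (ex (p : C(Sph n, ℝ))) - pen M u := rfl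
    linarith

/-- compactness of superlevel sets of the penalised functional -/
theorem cpt_FM (hneg : LinearIsometryEquiv.neg ℝ ∈ G) (hq : (n : ℝ) < q)
    (μ : Measure (Sph n)) [IsProbabilityMeasure μ] (M c : ℝ) :
    IsCompact {f : XS G | rhoX f = f ∧ c ≤ FM q μ (sgu n) M (f : C(Sph n, ℝ))} := by
  have hn : (0:ℝ) < n := by exact_mod_cast NeZero.pos n
  have hq0 : 0 < q := hn.trans hq
  have hσp : IsProbabilityMeasure (sgu n) := isProb_sgu
  have hσm : ∀ L : Submodule ℝ (Eu n), L ≠ ⊤ → mass (sgu n) L = 0 := fun L hL => mass_sgu hL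
  have hFc : Continuous fun f : XS G => FM q μ (sgu n) M (f : C(Sph n, ℝ)) :=
    (continuous_FM hq0 M).comp continuous_subtype_val
  obtain ⟨c0, hc0, hlow⟩ := light_bound (G := G) (sgu n) hq (fun L _ hL0 hL1 => by
    rw [hσm L hL1]
    have h1 : Nontrivial L := (Submodule.nontrivial_iff_ne_bot).2 hL0
    have : 0 < Module.finrank ℝ L := Module.finrank_pos
    positivity) (c - M - 1 / 2)
  refine cpt_of_low hneg hFc hc0 fun f hf hcf v => ?_
  refine hlow _ (Bd_of_fix hneg hf) ?_ v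
  have h1 : FM q μ (sgu n) M (f : C(Sph n, ℝ)) = Psi (sgu n) q (ex (f : C(Sph n, ℝ))) +
    (Uf (sgu n) μ (f : C(Sph n, ℝ)) - pen M (Uf (sgu n) μ (f : C(Sph n, ℝ)))) := FM_eq _ _ _ _ _
  have h2 := sub_pen_le M (Uf (sgu n) μ (f : C(Sph n, ℝ)))
  linarith

lemma lipschitz_rhoX : LipschitzWith 2 (rhoX : XS G → XS G) :=
  LipschitzWith.of_dist_le_mul fun f g => by
    have := dist_rhoX_le f g
    simpa using this

theorem deform_XS (hneg : LinearIsometryEquiv.neg ℝ ∈ G) {F : XS G → ℝ} (hF : Continuous F)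
    (hinc : ∀ f, F f ≤ F (rhoX f)) (hcpt : ∀ c, IsCompact {f : XS G | rhoX f = f ∧ c ≤ F f})
    {m0 C C1 : ℝ} (hC : C < C1)
    (hpush : ∀ p : XS G, rhoX p = p → F p ≤ C → ∃ φ : XS G, ∃ δ > 0, ∃ ε > 0,
      ∀ x ∈ ball p δ, ∀ s ∈ Icc (0:ℝ) δ, F x + ε * s ≤ F (x + s • φ)) :
    ∃ η : XS G → XS G, Continuous η ∧ (∀ x, rhoX x = x → rhoX (η x) = η x) ∧
      (∀ x, rhoX x = x → C1 ≤ F x → η x = x) ∧ (∀ x, rhoX x = x → m0 ≤ F x → C ≤ F (η x)) := by
  have h1 := @deform (XS G) _ _ F rhoX hF lipschitz_rhoX (rhoX_idem hneg) hinc hcpt m0 C C1 hC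
    (fun p hp _ hpC => hpush p hp hpC)
  exact h1
lemma rhoX_zero : rhoX (0 : XS G) = 0 := by
  have h1 : ex ((0 : XS G) : C(Sph n, ℝ)) = fun _ => (1:ℝ) := by
    funext v
    show Real.exp (((0 : XS G) : C(Sph n, ℝ)) v) = 1
    have : ((0 : XS G) : C(Sph n, ℝ)) v = 0 := rfl
    rw [this, Real.exp_zero]
  have hs : ∀ v, supp (ex ((0 : XS G) : C(Sph n, ℝ))) v = 1 := by
    intro v
    apply le_antisymm
    · have := supp_le (continuous_ex ((0 : XS G) : C(Sph n, ℝ))) (ex_pos _) v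
      rwa [h1] at this ⊢
    · have := low_le_supp (continuous_ex ((0 : XS G) : C(Sph n, ℝ))) (c := 1) one_pos
        (fun v => by rw [h1]) v
      exact this
  apply rhoX_eq_self
  refine ⟨continuous_ex _, ex_pos _, ex_inv _, fun v => by rw [h1], fun v => by rw [hs, h1],
    fun v => by rw [h1], ?_⟩
  obtain ⟨v⟩ : Nonempty (Sph n) := inferInstance
  exact ⟨v, by rw [h1]⟩

variable {μ : Measure (Sph n)}

/-- the body of `x` as an element of the space of invariant functions -/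
noncomputable def fam [Finite (ZZ G q μ)] (x : {x : ZZ G q μ → ℝ // spn {Z | 0 < x Z} ≠ ⊤}) :
    XS G :=
  ⟨⟨fun v => Real.log (hb x.1 v), (Bd_hb x.2).cont.log fun v => ((Bd_hb x.2).pos v).ne'⟩, by
    intro g hg v
    show Real.log (hb x.1 (actS g v)) = Real.log (hb x.1 v)
    rw [(Bd_hb x.2).inv g hg v]⟩

lemma fam_apply [Finite (ZZ G q μ)] (x : {x : ZZ G q μ → ℝ // spn {Z | 0 < x Z} ≠ ⊤})
    (v : Sph n) : ((fam x : XS G) : C(Sph n, ℝ)) v = Real.log (hb x.1 v) := rfl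

lemma ex_fam [Finite (ZZ G q μ)] (x : {x : ZZ G q μ → ℝ // spn {Z | 0 < x Z} ≠ ⊤}) :
    ex ((fam x : XS G) : C(Sph n, ℝ)) = hb x.1 := by
  funext v
  exact Real.exp_log ((Bd_hb x.2).pos v)

lemma fam_fix [Finite (ZZ G q μ)] (x : {x : ZZ G q μ → ℝ // spn {Z | 0 < x Z} ≠ ⊤}) :
    rhoX (fam x) = fam x := rhoX_eq_self (by rw [ex_fam]; exact Bd_hb x.2)

lemma continuous_fam [Finite (ZZ G q μ)] :
    Continuous (fam : {x : ZZ G q μ → ℝ // spn {Z | 0 < x Z} ≠ ⊤} → XS G) := by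
  have := Fintype.ofFinite (ZZ G q μ)
  have hL : LipschitzWith 1
      (fam : {x : ZZ G q μ → ℝ // spn {Z | 0 < x Z} ≠ ⊤} → XS G) := by
    refine LipschitzWith.of_dist_le_mul fun x y => ?_
    rw [NNReal.coe_one, one_mul]
    show dist ((fam x : XS G) : C(Sph n, ℝ)) ((fam y : XS G) : C(Sph n, ℝ)) ≤ _
    rw [ContinuousMap.dist_le dist_nonneg]
    intro v
    have key : ∀ x y : {x : ZZ G q μ → ℝ // spn {Z | 0 < x Z} ≠ ⊤},
        Real.log (hb x.1 v) ≤ dist x y + Real.log (hb y.1 v) := by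
      intro x y
      have h1 : ∀ Z, |x.1 Z - y.1 Z| ≤ dist x y := fun Z => by
        rw [← Real.dist_eq]; exact dist_le_pi_dist x.1 y.1 Z
      have h2 := hb_lip dist_nonneg h1 v
      have h3 := Real.log_le_log ((Bd_hb x.2).pos v) h2
      rwa [Real.log_mul (Real.exp_pos _).ne' ((Bd_hb y.2).pos v).ne', Real.log_exp] at h3
    rw [Real.dist_eq, fam_apply, fam_apply, abs_le]
    have h1 := key x y
    have h2 := key y x
    rw [dist_comm y x] at h2
    constructor <;> linarith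
  exact hL.continuous

/-- depths of a function -/
noncomputable def Th (f : XS G) : ZZ G q μ → ℝ :=
  th (fun Z : ZZ G q μ => mz (Z : Submodule ℝ (Eu n)) (f : C(Sph n, ℝ)))

lemma continuous_Th [Finite (ZZ G q μ)] : Continuous (Th : XS G → (ZZ G q μ → ℝ)) := by
  refine continuous_th.comp (continuous_pi fun Z => ?_)
  exact (continuous_mz Z.ne_bot).comp continuous_subtype_val

lemma homotopic_of {X Y : Type*} [TopologicalSpace X] [TopologicalSpace Y] {f g : C(X, Y)}
    (H : unitInterval × X → Y) (hH : Continuous H) (h0 : ∀ x, H (0, x) = f x)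
    (h1 : ∀ x, H (1, x) = g x) : f.Homotopic g :=
  ⟨{ toFun := H, continuous_toFun := hH, map_zero_left := h0, map_one_left := h1 }⟩

/-- the main theorem for probability measures -/
theorem exists_top [Finite G] (hneg : LinearIsometryEquiv.neg ℝ ∈ G) (hq : (n : ℝ) < q)
    (μ : Measure (Sph n)) [IsProbabilityMeasure μ] (hμ : MInv G μ) (hnd : Nondeg G q μ)
    (hT : ¬ ContractibleSpace (CC G q μ)) :
    ∃ g : Sph n → ℝ, Bd G g ∧ MM q g = ENNReal.ofReal (II q g) • μ := by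
  by_contra hno
  apply hT
  have hn : (0:ℝ) < n := by exact_mod_cast NeZero.pos n
  have hq0 : 0 < q := hn.trans hq
  have hσp : IsProbabilityMeasure (sgu n) := isProb_sgu
  have hfin : Finite (ZZ G q μ) := finite_ZZ hq0 hnd
  have hft : Fintype (ZZ G q μ) := Fintype.ofFinite _
  obtain ⟨C0, hbar⟩ := barrier hneg μ hμ hq hnd
  obtain ⟨cψ, hcψ, Cψ, hPsi⟩ := Psi_hb (G := G) μ hq hnd
  obtain ⟨c1, hc1, hc1', hsep⟩ := exists_sep (G := G) (q := q) (μ := μ)
  set C' : ℝ := -Real.log c1 with hC'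
  have hC'0 : 0 ≤ C' := by
    rw [hC']
    have := Real.log_nonpos hc1.le hc1'
    linarith
  set R : ℝ := max (2 * C' + 1) ((C0 + 2 + Cψ) / cψ) with hR
  have hR1 : 2 * C' + 1 ≤ R := le_max_left _ _
  have hR0 : 0 < R := by linarith
  have hR2 : C0 + 2 ≤ cψ * R - Cψ := by
    have h1 : (C0 + 2 + Cψ) / cψ ≤ R := le_max_right _ _
    rw [div_le_iff₀ hcψ] at h1
    linarith
  obtain ⟨M0, hpush⟩ := exists_push hneg hq μ hμ hnd hno (C0 + 1)
  set M : ℝ := max M0 R with hM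
  have hMR : R ≤ M := le_max_right _ _
  set F : XS G → ℝ := fun f => FM q μ (sgu n) M (f : C(Sph n, ℝ)) with hF
  have hFc : Continuous F := (continuous_FM hq0 M).comp continuous_subtype_val
  have hFinc : ∀ f, F f ≤ F (rhoX f) := fun f => FM_le_rhoX hq0 μ (sgu n) M f
  have hFP : ∀ f : XS G, F f ≤ Psi μ q (ex (f : C(Sph n, ℝ))) := by
    intro f
    have := pen_nonneg M (Uf (sgu n) μ (f : C(Sph n, ℝ)))
    simp only [hF]
    unfold FM
    linarith
  -- bounded functions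
  have hUb : ∀ f : XS G, (∀ v, (f : C(Sph n, ℝ)) v ≤ 0) → (∀ v, -R ≤ (f : C(Sph n, ℝ)) v) →
      Uf (sgu n) μ (f : C(Sph n, ℝ)) ≤ M := by
    intro f h0 h1
    have h2 : ∫ v, (f : C(Sph n, ℝ)) v ∂(sgu n) ≤ 0 := integral_nonpos h0
    have h3 : -R ≤ ∫ v, (f : C(Sph n, ℝ)) v ∂μ := by
      have h4 : ∫ _v : Sph n, (-R) ∂μ ≤ ∫ v, (f : C(Sph n, ℝ)) v ∂μ :=
        integral_mono (integrable_const _) (integrable_cm μ (f : C(Sph n, ℝ)).continuous) h1
      rwa [integral_const, probReal_univ, one_smul] at h4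
    unfold Uf
    linarith
  set m0 : ℝ := Psi μ q (fun _ => 1) - R with hm0
  have hFb : ∀ f : XS G, (∀ v, (f : C(Sph n, ℝ)) v ≤ 0) → (∀ v, -R ≤ (f : C(Sph n, ℝ)) v) →
      m0 ≤ F f := by
    intro f h0 h1
    have h2 : F f = Psi μ q (ex (f : C(Sph n, ℝ))) := by
      simp only [hF]
      unfold FM
      rw [pen_zero (hUb f h0 h1), sub_zero]
    rw [h2, hm0]
    have h3 := Psi_le_add μ hq0 (f := fun _ => (1:ℝ)) continuous_const (fun _ => one_pos)
      (continuous_ex (f : C(Sph n, ℝ))) (ex_pos _) (s := R) (t := 0)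
      (fun v => by
        unfold ex
        rw [← Real.exp_add]
        exact Real.one_le_exp (by linarith [h1 v]))
      (fun v => by
        rw [Real.exp_zero, one_mul]
        unfold ex
        exact Real.exp_le_one_iff.2 (h0 v))
    linarith
  obtain ⟨η, hηc, hηfix, hηid, hηup⟩ := deform_XS hneg hFc hFinc (cpt_FM hneg hq μ M)
    (m0 := m0) (show C0 + 1 < C0 + 2 by linarith) (hpush M (le_max_left _ _))
  -- the family
  have hnorm : ∀ x : CC G q μ, 0 < ‖(x : ZZ G q μ → ℝ)‖ := by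
    rintro ⟨x, hx0, ⟨Z, hZ⟩, hxT⟩
    rw [norm_pos_iff]
    intro hcon
    have hcon' : x = 0 := hcon
    rw [hcon'] at hZ
    exact lt_irrefl _ hZ
  have hsup : ∀ x : CC G q μ, {Z | 0 < ((R / ‖(x : ZZ G q μ → ℝ)‖) • (x : ZZ G q μ → ℝ)) Z} =
      {Z | 0 < (x : ZZ G q μ → ℝ) Z} := by
    intro x
    ext Z
    simp only [mem_ofPred_eq, Pi.smul_apply, smul_eq_mul]
    exact mul_pos_iff_of_pos_left (div_pos hR0 (hnorm x))
  set nx : CC G q μ → {x : ZZ G q μ → ℝ // spn {Z | 0 < x Z} ≠ ⊤} := fun x =>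
    ⟨(R / ‖(x : ZZ G q μ → ℝ)‖) • (x : ZZ G q μ → ℝ), by rw [hsup x]; exact x.2.2.2⟩ with hnx
  have hnxc : Continuous nx := by
    refine Continuous.subtype_mk ?_ _
    have h1 : Continuous fun x : CC G q μ => ‖(x : ZZ G q μ → ℝ)‖ :=
      continuous_norm.comp continuous_subtype_val
    have h2 : Continuous fun x : CC G q μ => R / ‖(x : ZZ G q μ → ℝ)‖ :=
      continuous_const.div h1 fun x => (hnorm x).ne'
    exact h2.smul continuous_subtype_val
  have hnxle : ∀ x Z, (nx x).1 Z ≤ R := by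
    intro x Z
    show R / ‖(x : ZZ G q μ → ℝ)‖ * (x : ZZ G q μ → ℝ) Z ≤ R
    rw [div_mul_eq_mul_div, div_le_iff₀ (hnorm x)]
    refine mul_le_mul_of_nonneg_left ?_ hR0.le
    exact (le_abs_self _).trans (norm_le_pi_norm (x : ZZ G q μ → ℝ) Z)
  have hnx0 : ∀ x Z, 0 ≤ (nx x).1 Z := by
    intro x Z
    show 0 ≤ R / ‖(x : ZZ G q μ → ℝ)‖ * (x : ZZ G q μ → ℝ) Z
    exact mul_nonneg (div_pos hR0 (hnorm x)).le (x.2.1 Z)
  have hnxmax : ∀ x, ∃ Z, (nx x).1 Z = R := by
    intro x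
    have hne : Nonempty (ZZ G q μ) := by
      obtain ⟨Z, -⟩ := x.2.2.1
      exact ⟨Z⟩
    obtain ⟨Z, hZ⟩ : ∃ Z, ‖(x : ZZ G q μ → ℝ)‖ = ‖(x : ZZ G q μ → ℝ) Z‖ := by
      obtain ⟨Z, hZ⟩ := Finite.exists_max fun Z => ‖(x : ZZ G q μ → ℝ) Z‖
      exact ⟨Z, le_antisymm ((pi_norm_le_iff_of_nonneg (norm_nonneg _)).2 hZ)
        (norm_le_pi_norm _ Z)⟩
    refine ⟨Z, ?_⟩
    show R / ‖(x : ZZ G q μ → ℝ)‖ * (x : ZZ G q μ → ℝ) Z = R
    rw [Real.norm_eq_abs, abs_of_nonneg (x.2.1 Z)] at hZ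
    have := hnorm x
    rw [hZ] at this ⊢
    field_simp
  set τ : CC G q μ → XS G := fun x => fam (nx x) with hτ
  have hτc : Continuous τ := continuous_fam.comp hnxc
  have hτ0 : ∀ x v, ((τ x : XS G) : C(Sph n, ℝ)) v ≤ 0 := by
    intro x v
    show Real.log (hb (nx x).1 v) ≤ 0
    exact Real.log_nonpos ((Bd_hb (nx x).2).pos v).le ((Bd_hb (nx x).2).le v)
  have hτR : ∀ x v, -R ≤ ((τ x : XS G) : C(Sph n, ℝ)) v := by
    intro x v
    show -R ≤ Real.log (hb (nx x).1 v)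
    rw [Real.le_log_iff_exp_le ((Bd_hb (nx x).2).pos v)]
    have h1 := infDist_le_hb (nx x).1 hR0.le v
    have h2 : {Z | R < (nx x).1 Z} = (∅ : Set (ZZ G q μ)) := by
      ext Z
      simp only [mem_ofPred_eq, mem_empty_iff_false, iff_false, not_lt]
      exact hnxle x Z
    rw [h2, spn_empty, Submodule.bot_coe, infDist_singleton, dist_zero_right, norm_sph,
      mul_one] at h1
    exact h1
  have hτF : ∀ x, C0 + 2 ≤ F (τ x) := by
    intro x
    have h2 : F (τ x) = Psi μ q (hb (nx x).1) := by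
      simp only [hF]
      unfold FM
      rw [pen_zero (hUb _ (hτ0 x) (hτR x)), sub_zero]
      congr 1
      exact ex_fam (nx x)
    rw [h2]
    obtain ⟨Z, hZ⟩ := hnxmax x
    have h3 := hPsi (nx x).1 (hnx0 x) (nx x).2 Z
    rw [hZ] at h3
    linarith
  -- values of `Th` on bodies with large functional
  have hTh : ∀ f : XS G, rhoX f = f → C0 < F f → (Th f : ZZ G q μ → ℝ) ∈ CC G q μ := by
    intro f hf hfC
    exact th_mem (hbar f hf (hfC.trans_le (hFP f)))
  -- first homotopy: to a constant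
  set γ : unitInterval × CC G q μ → XS G := fun p =>
    η (rhoX ((1 - (p.1 : ℝ)) • τ p.2)) with hγ
  have hγc : Continuous γ := by
    refine hηc.comp (continuous_rhoX.comp ?_)
    exact (continuous_const.sub (continuous_subtype_val.comp continuous_fst)).smul
      (hτc.comp continuous_snd)
  have hγb : ∀ p : unitInterval × CC G q μ, m0 ≤ F (rhoX ((1 - (p.1 : ℝ)) • τ p.2)) := by
    intro p
    refine le_trans (hFb _ ?_ ?_) (hFinc _)
    · intro v
      show (1 - (p.1 : ℝ)) * ((τ p.2 : XS G) : C(Sph n, ℝ)) v ≤ 0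
      exact mul_nonpos_of_nonneg_of_nonpos (by linarith [p.1.2.2]) (hτ0 p.2 v)
    · intro v
      show -R ≤ (1 - (p.1 : ℝ)) * ((τ p.2 : XS G) : C(Sph n, ℝ)) v
      have h1 := hτR p.2 v
      have h2 := hτ0 p.2 v
      have h3 := p.1.2.1
      nlinarith
  have hγfix : ∀ p, rhoX (γ p) = γ p := fun p => hηfix _ (rhoX_idem hneg _)
  have hγC : ∀ p, C0 < F (γ p) := fun p => by
    have := hηup _ (rhoX_idem hneg _) (hγb p)
    simp only [hγ]
    linarith
  set H1 : unitInterval × CC G q μ → CC G q μ := fun p => ⟨Th (γ p), hTh _ (hγfix p) (hγC p)⟩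
    with hH1
  have hH1c : Continuous H1 := Continuous.subtype_mk (continuous_Th.comp hγc) _
  -- the constant point
  have hzb : m0 ≤ F (0 : XS G) := hFb 0 (fun v => le_rfl) (fun v => by
    show -R ≤ 0
    linarith)
  have hz1 : rhoX (η (0 : XS G)) = η 0 := hηfix _ rhoX_zero
  have hz2 : C0 < F (η (0 : XS G)) := by
    have := hηup _ rhoX_zero hzb
    linarith
  set pt : CC G q μ := ⟨Th (η (0 : XS G)), hTh _ hz1 hz2⟩ with hpt
  -- the map `x ↦ Th (τ x)`
  have hτfix : ∀ x, rhoX (τ x) = τ x := fun x => fam_fix (nx x)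
  have hτC : ∀ x, C0 < F (τ x) := fun x => by linarith [hτF x]
  set a : CC G q μ → (ZZ G q μ → ℝ) := fun x => Th (τ x) with ha
  have hac : Continuous a := continuous_Th.comp hτc
  have haCC : ∀ x, a x ∈ CC G q μ := fun x => hTh _ (hτfix x) (hτC x)
  set A : C(CC G q μ, CC G q μ) := ⟨fun x => ⟨a x, haCC x⟩, Continuous.subtype_mk hac _⟩ with hA
  have hom1 : A.Homotopic (ContinuousMap.const _ pt) := by
    refine homotopic_of H1 hH1c (fun x => ?_) (fun x => ?_)
    · apply Subtype.ext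
      show Th (η (rhoX ((1 - ((0 : unitInterval) : ℝ)) • τ x))) = Th (τ x)
      rw [Set.Icc.coe_zero, sub_zero, one_smul, hτfix, hηid _ (hτfix x) (hτF x)]
    · apply Subtype.ext
      show Th (η (rhoX ((1 - ((1 : unitInterval) : ℝ)) • τ x))) = Th (η 0)
      rw [Set.Icc.coe_one, sub_self, zero_smul, rhoX_zero]
  -- facts about `a`
  have hmz : ∀ x (Z : ZZ G q μ), mz (Z : Submodule ℝ (Eu n)) ((τ x : XS G) : C(Sph n, ℝ)) ≤
      -(nx x).1 Z := by
    intro x Z
    refine mz_le Z.ne_bot fun v hv => ?_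
    show Real.log (hb (nx x).1 v) ≤ -(nx x).1 Z
    rw [Real.log_le_iff_le_exp ((Bd_hb (nx x).2).pos v)]
    exact hb_le_exp (hnx0 x Z) hv
  have hmz2 : ∀ (x : CC G q μ) (Z : ZZ G q μ),
      ¬ (Z : Submodule ℝ (Eu n)) ≤ spn {Z | 0 < (x : ZZ G q μ → ℝ) Z} →
      -C' ≤ mz (Z : Submodule ℝ (Eu n)) ((τ x : XS G) : C(Sph n, ℝ)) := by
    intro x Z hZ
    obtain ⟨v, hv, hv2⟩ := hsep _ Z hZ
    refine le_trans ?_ (le_mz _ hv)
    show -C' ≤ Real.log (hb (nx x).1 v)
    rw [hC', neg_neg]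
    apply Real.log_le_log hc1
    refine hv2.trans ?_
    have h1 := infDist_le_hb (nx x).1 le_rfl v
    rw [neg_zero, Real.exp_zero, one_mul] at h1
    have h2 : {Z | 0 < (nx x).1 Z} = {Z | 0 < (x : ZZ G q μ → ℝ) Z} := hsup x
    rwa [h2] at h1
  have hSS : ∀ x : CC G q μ, -C' ≤ SS (fun Z : ZZ G q μ =>
      mz (Z : Submodule ℝ (Eu n)) ((τ x : XS G) : C(Sph n, ℝ))) := by
    intro x
    refine le_SS (by linarith) ?_
    intro hcon
    apply x.2.2.2
    rw [eq_top_iff, ← hcon]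
    refine spn_le fun Z hZ => ?_
    by_contra h1
    have h2 := hmz2 x Z h1
    exact absurd (show mz (Z : Submodule ℝ (Eu n)) ((τ x : XS G) : C(Sph n, ℝ)) < -C' from hZ)
      (not_lt.2 h2)
  have hSS0 : ∀ x : CC G q μ, SS (fun Z : ZZ G q μ =>
      mz (Z : Submodule ℝ (Eu n)) ((τ x : XS G) : C(Sph n, ℝ))) ≤ 0 := fun x => SS_nonpos _
  have hbig : ∀ x : CC G q μ, ∃ Z, C' < a x Z := by
    intro x
    obtain ⟨Z, hZ⟩ := hnxmax x
    refine ⟨Z, ?_⟩
    have h1 := hmz x Z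
    rw [hZ] at h1
    have h2 := hSS x
    refine lt_of_lt_of_le ?_ (le_max_right 0 (SS (fun Z : ZZ G q μ =>
      mz (Z : Submodule ℝ (Eu n)) ((τ x : XS G) : C(Sph n, ℝ))) -
      mz (Z : Submodule ℝ (Eu n)) ((τ x : XS G) : C(Sph n, ℝ))))
    linarith
  have hsmall : ∀ x : CC G q μ, ∀ Z, C' < a x Z →
      (Z : Submodule ℝ (Eu n)) ≤ spn {Z | 0 < (x : ZZ G q μ → ℝ) Z} := by
    intro x Z hZ
    by_contra h1
    have h2 := hmz2 x Z h1
    have h3 := hSS0 x
    have h4 : a x Z ≤ C' := max_le hC'0 (by linarith)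
    linarith
  -- second homotopy: subtract a constant
  have hBmem : ∀ (s : unitInterval) (x : CC G q μ),
      (fun Z => max 0 (a x Z - s * C')) ∈ CC G q μ := by
    intro s x
    refine ⟨fun Z => le_max_left _ _, ?_, ?_⟩
    · obtain ⟨Z, hZ⟩ := hbig x
      refine ⟨Z, lt_max_of_lt_right ?_⟩
      have : (s : ℝ) * C' ≤ 1 * C' := mul_le_mul_of_nonneg_right s.2.2 hC'0
      linarith
    · intro hcon
      apply (haCC x).2.2
      rw [eq_top_iff, ← hcon]
      refine spn_mono fun Z hZ => ?_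
      have h1 : 0 < max 0 (a x Z - s * C') := hZ
      rw [lt_max_iff] at h1
      rcases h1 with h1 | h1
      · exact absurd h1 (lt_irrefl _)
      · have : 0 ≤ (s : ℝ) * C' := mul_nonneg s.2.1 hC'0
        show 0 < a x Z
        linarith
  set B : C(CC G q μ, CC G q μ) := ⟨fun x => ⟨fun Z => max 0 (a x Z - (1 : unitInterval) * C'),
    hBmem 1 x⟩, by
      refine Continuous.subtype_mk (continuous_pi fun Z => ?_) _
      exact continuous_const.max (((continuous_apply Z).comp hac).sub continuous_const)⟩ with hB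
  have hom2 : A.Homotopic B := by
    refine homotopic_of (fun p => ⟨fun Z => max 0 (a p.2 Z - p.1 * C'), hBmem p.1 p.2⟩) ?_
      (fun x => ?_) (fun x => rfl)
    · refine Continuous.subtype_mk (continuous_pi fun Z => ?_) _
      exact continuous_const.max ((((continuous_apply Z).comp hac).comp continuous_snd).sub
        ((continuous_subtype_val.comp continuous_fst).mul continuous_const))
    · apply Subtype.ext
      funext Z
      show max 0 (a x Z - ((0 : unitInterval) : ℝ) * C') = a x Z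
      rw [Set.Icc.coe_zero, zero_mul, sub_zero, max_eq_right ((haCC x).1 Z)]
  -- third homotopy: straight line to the identity
  have hLmem : ∀ (s : unitInterval) (x : CC G q μ),
      (fun Z => (1 - (s : ℝ)) * max 0 (a x Z - (1 : unitInterval) * C') +
        s * (x : ZZ G q μ → ℝ) Z) ∈ CC G q μ := by
    intro s x
    have hs0 := s.2.1
    have hs1 := s.2.2
    refine ⟨fun Z => ?_, ?_, ?_⟩
    · exact add_nonneg (mul_nonneg (by linarith) (le_max_left _ _)) (mul_nonneg hs0 (x.2.1 Z))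
    · rcases hs1.lt_or_eq with h | h
      · obtain ⟨Z, hZ⟩ := hbig x
        refine ⟨Z, add_pos_of_pos_of_nonneg (mul_pos (by linarith) (lt_max_of_lt_right ?_))
          (mul_nonneg hs0 (x.2.1 Z))⟩
        rw [Set.Icc.coe_one, one_mul]
        linarith
      · obtain ⟨Z, hZ⟩ := x.2.2.1
        refine ⟨Z, ?_⟩
        show 0 < (1 - (s : ℝ)) * max 0 (a x Z - (1 : unitInterval) * C') +
          s * (x : ZZ G q μ → ℝ) Z
        rw [h, sub_self, zero_mul, zero_add, one_mul]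
        exact hZ
    · intro hcon
      apply x.2.2.2
      rw [eq_top_iff, ← hcon]
      refine spn_le fun Z hZ => ?_
      have h1 : 0 < (1 - (s : ℝ)) * max 0 (a x Z - (1 : unitInterval) * C') +
        s * (x : ZZ G q μ → ℝ) Z := hZ
      by_cases h2 : 0 < (x : ZZ G q μ → ℝ) Z
      · exact le_spn h2
      · have h3 : (x : ZZ G q μ → ℝ) Z = 0 := le_antisymm (not_lt.1 h2) (x.2.1 Z)
        rw [h3, mul_zero, add_zero] at h1
        have h4 : 0 < max 0 (a x Z - (1 : unitInterval) * C') := by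
          by_contra h5
          have h6 : max 0 (a x Z - (1 : unitInterval) * C') = 0 :=
            le_antisymm (not_lt.1 h5) (le_max_left _ _)
          rw [h6, mul_zero] at h1
          exact lt_irrefl _ h1
        apply hsmall x Z
        rw [lt_max_iff] at h4
        rcases h4 with h4 | h4
        · exact absurd h4 (lt_irrefl _)
        · rw [Set.Icc.coe_one, one_mul] at h4
          linarith
  have hom3 : B.Homotopic (ContinuousMap.id _) := by
    refine homotopic_of (fun p => ⟨_, hLmem p.1 p.2⟩) ?_ (fun x => ?_) (fun x => ?_)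
    · refine Continuous.subtype_mk (continuous_pi fun Z => ?_) _
      have hs : Continuous fun p : unitInterval × CC G q μ => (p.1 : ℝ) :=
        continuous_subtype_val.comp continuous_fst
      refine ((continuous_const.sub hs).mul ?_).add (hs.mul ?_)
      · exact continuous_const.max ((((continuous_apply Z).comp hac).comp continuous_snd).sub
          continuous_const)
      · exact (continuous_apply Z).comp (continuous_subtype_val.comp continuous_snd)
    · apply Subtype.ext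
      funext Z
      show (1 - ((0 : unitInterval) : ℝ)) * max 0 (a x Z - (1 : unitInterval) * C') +
        ((0 : unitInterval) : ℝ) * (x : ZZ G q μ → ℝ) Z = max 0 (a x Z - (1 : unitInterval) * C')
      rw [Set.Icc.coe_zero, sub_zero, one_mul, zero_mul, add_zero]
    · apply Subtype.ext
      funext Z
      show (1 - ((1 : unitInterval) : ℝ)) * max 0 (a x Z - (1 : unitInterval) * C') +
        ((1 : unitInterval) : ℝ) * (x : ZZ G q μ → ℝ) Z = (x : ZZ G q μ → ℝ) Z
      rw [Set.Icc.coe_one, sub_self, zero_mul, zero_add, one_mul]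
  rw [contractible_iff_id_nullhomotopic]
  exact ⟨pt, (hom3.symm.trans hom2.symm).trans hom1⟩

end YTop

end Pool.Agent.Lib.MP_b0d2bf_gt
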