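import Mathlib
import Pool.Agent.Lib.MP_b0d2bf_gt.YTop

set_option autoImplicit false

/-!
Large `q`: definitions. The group `{1, -1}`, the moment map, the logarithmic potential and the
double cones over thin balls.
-/

namespace Pool.Agent.Lib.MP_b0d2bf_gt

open MeasureTheory Metric Set Filter Topology

variable {n : ℕ}

/-- the group `{1, -1}` -/
noncomputable def pm (n : ℕ) : Subgroup (Eu n ≃ₗᵢ[ℝ] Eu n) := Subgroup.zpowers (LinearIsometryEquiv.neg ℝ)

/-- the second moments of the probability measure `ρ ^ q du / ∫ ρ ^ q`: the linear map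
`x ↦ ∫ ρ(u) ^ q ⟨u, x⟩ u du / ∫ ρ(u) ^ q du`, where `ρ` is the radial function of the body with
support function `exp f` -/
noncomputable def mom (q : ℝ) (f : C(Sph n, ℝ)) (x : Eu n) : Eu n :=
  (II q (ex f))⁻¹ • ∫ u : Sph n,
    ((gN (ex f) (u : Eu n))⁻¹ ^ q * inner ℝ (u : Eu n) x) • (u : Eu n) ∂(sg n)

/-- the quadratic form of `mom q f` on the sphere -/
noncomputable def Lam (q : ℝ) (f : C(Sph n, ℝ)) (v : Sph n) : ℝ :=
  inner ℝ (mom q f (v : Eu n)) (v : Eu n)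

/-- `-log t` for `0 ≤ t ≤ 1` -/
noncomputable def nlog (t : ℝ) : ENNReal := if t = 0 then ⊤ else ENNReal.ofReal (-Real.log t)

/-- the logarithmic potential `v ↦ - ∫ log |⟨u, v⟩| dμ(u)` -/
noncomputable def pot (μ : Measure (Sph n)) (v : Sph n) : ENNReal :=
  ∫⁻ u : Sph n, nlog |inner ℝ (u : Eu n) (v : Eu n)| ∂μ

/-- the truncated potential -/
noncomputable def potd (μ : Measure (Sph n)) (δ : ℝ) (v : Sph n) : ℝ :=
  - ∫ u : Sph n, Real.log (max |inner ℝ (u : Eu n) (v : Eu n)| δ) ∂μ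

/-- `⟨u, w⟩ ^ 2 / ⟨u, z⟩ ^ 2` -/
noncomputable def rat (z w u : Sph n) : ℝ :=
  inner ℝ (u : Eu n) (w : Eu n) ^ 2 / inner ℝ (u : Eu n) (z : Eu n) ^ 2

lemma neg_mem_pm (n : ℕ) : LinearIsometryEquiv.neg ℝ ∈ pm n := Subgroup.mem_zpowers _

lemma neg_neg_iso : (LinearIsometryEquiv.neg ℝ : Eu n ≃ₗᵢ[ℝ] Eu n) *
    LinearIsometryEquiv.neg ℝ = 1 := by
  ext x i
  simp

lemma mem_pm {g : Eu n ≃ₗᵢ[ℝ] Eu n} (hg : g ∈ pm n) :
    g = 1 ∨ g = LinearIsometryEquiv.neg ℝ := by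
  obtain ⟨k, rfl⟩ := Subgroup.mem_zpowers_iff.1 hg
  rcases Int.even_or_odd k with h | h
  · left
    obtain ⟨m, rfl⟩ := h
    rw [zpow_add, ← (Commute.refl _).mul_zpow, neg_neg_iso, one_zpow]
  · right
    obtain ⟨m, rfl⟩ := h
    rw [zpow_add, two_mul, zpow_add, ← (Commute.refl _).mul_zpow, neg_neg_iso, one_zpow, one_mul,
      zpow_one]

instance instFinitePm : Finite (pm n) := by
  have h : ((pm n : Subgroup _) : Set (Eu n ≃ₗᵢ[ℝ] Eu n)) ⊆ {1, LinearIsometryEquiv.neg ℝ} :=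
    fun g hg => mem_pm hg
  exact ((Set.toFinite _).subset h).to_subtype

lemma actS_one (v : Sph n) : actS (1 : Eu n ≃ₗᵢ[ℝ] Eu n) v = v := by
  ext1
  rfl

lemma actS_neg (v : Sph n) : actS (LinearIsometryEquiv.neg ℝ : Eu n ≃ₗᵢ[ℝ] Eu n) v = -v := by
  ext1
  rfl

lemma SInv_pm (L : Submodule ℝ (Eu n)) : SInv (pm n) L := by
  intro g hg x hx
  rcases mem_pm hg with rfl | rfl
  · exact hx
  · exact L.neg_mem hx

lemma MInv_pm {μ : Measure (Sph n)}
    (h : ∀ ω : Set (Sph n), MeasurableSet ω → μ {v | -v ∈ ω} = μ ω) : MInv (pm n) μ := by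
  intro g hg
  rcases mem_pm hg with rfl | rfl
  · have : actS (1 : Eu n ≃ₗᵢ[ℝ] Eu n) = id := funext fun v => actS_one v
    rw [this, Measure.map_id]
  · have hf : actS (LinearIsometryEquiv.neg ℝ : Eu n ≃ₗᵢ[ℝ] Eu n) = fun v => -v :=
      funext fun v => actS_neg v
    rw [hf]
    ext ω hω
    rw [Measure.map_apply continuous_neg.measurable hω]
    exact h ω hω

lemma FInv_pm {f : Sph n → ℝ} (h : ∀ v, f (-v) = f v) : FInv (pm n) f := by
  intro g hg v
  rcases mem_pm hg with rfl | rfl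
  · rw [actS_one]
  · rw [actS_neg, h]

/-- the support function of the convex hull of `±v` and the ball of radius `δ` -/
noncomputable def dcs (δ : ℝ) (v : Sph n) (w : Sph n) : ℝ := max |inner ℝ (w : Eu n) (v : Eu n)| δ

lemma dcs_pos {δ : ℝ} (hδ : 0 < δ) (v w : Sph n) : 0 < dcs δ v w := lt_max_of_lt_right hδ

lemma continuous_dcs (δ : ℝ) (v : Sph n) : Continuous (dcs δ v) := by
  unfold dcs
  fun_prop

lemma dcs_even (δ : ℝ) (v w : Sph n) : dcs δ v (-w) = dcs δ v w := by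
  unfold dcs
  have h : ((-w : Sph n) : Eu n) = -(w : Eu n) := rfl
  rw [h, inner_neg_left, abs_neg]

/-- its logarithm, as an element of the space of even functions -/
noncomputable def dc (δ : ℝ) (hδ : 0 < δ) (v : Sph n) : XS (pm n) :=
  ⟨⟨fun w => Real.log (dcs δ v w), (continuous_dcs δ v).log fun w => (dcs_pos hδ v w).ne'⟩,
    FInv_pm fun w => by
      show Real.log (dcs δ v (-w)) = Real.log (dcs δ v w)
      rw [dcs_even]⟩

lemma dc_apply (δ : ℝ) (hδ : 0 < δ) (v w : Sph n) :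
    ((dc δ hδ v : XS (pm n)) : C(Sph n, ℝ)) w = Real.log (dcs δ v w) := rfl

lemma ex_dc (δ : ℝ) (hδ : 0 < δ) (v : Sph n) :
    ex ((dc δ hδ v : XS (pm n)) : C(Sph n, ℝ)) = dcs δ v := by
  funext w
  exact Real.exp_log (dcs_pos hδ v w)

end Pool.Agent.Lib.MP_b0d2bf_gt
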