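import Mathlib
import Pool.Agent.Lib.MP_b0d2bf_gt.QDefs

set_option autoImplicit false

/-!
The double cones over thin balls: the functional on them.
-/

namespace Pool.Agent.Lib.MP_b0d2bf_gt

open MeasureTheory Metric Set Filter Topology

section QCap

variable {n : ℕ} [NeZero n]

theorem Bd_dc {δ : ℝ} (hδ : 0 < δ) (hδ1 : δ ≤ 1) (v : Sph n) : Bd (pm n) (dcs δ v) := by
  have hc := continuous_dcs δ v
  have h0 := dcs_pos hδ v
  have hv : (v : Eu n) ∈ wulff (dcs δ v) := by
    intro w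
    rw [real_inner_comm]
    exact (le_abs_self _).trans (le_max_left _ _)
  refine ⟨hc, h0, FInv_pm (dcs_even δ v), dcs_even δ v, fun w => ?_, fun w => ?_, v, ?_⟩
  · refine le_antisymm (supp_le hc h0 w) (max_le ?_ ?_)
    · rw [abs_le']
      constructor
      · rw [real_inner_comm]
        exact inner_le_supp hc h0 w hv
      · have h1 := inner_le_supp hc h0 w (neg_mem_wulff (dcs_even δ v) hv)
        rwa [inner_neg_left, real_inner_comm] at h1
    · exact low_le_supp hc hδ (fun w' => le_max_right _ _) w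
  · refine max_le ?_ hδ1
    have h1 := abs_inner_le (w : Eu n) v
    rwa [norm_sph] at h1
  · unfold dcs
    rw [real_inner_self_eq_norm_sq, norm_sph, one_pow, abs_one, max_eq_left hδ1]

omit [NeZero n] in
private lemma log_dcs_le {δ : ℝ} (hδ : 0 < δ) (v v' w : Sph n) :
    Real.log (dcs δ v w) ≤ dist v v' / δ + Real.log (dcs δ v' w) := by
  have h1 := dcs_pos hδ v w
  have h2 := dcs_pos hδ v' w
  have h3 : dcs δ v w ≤ dist v v' + dcs δ v' w := by
    unfold dcs
    refine max_le ?_ ?_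
    · have h4 : inner ℝ (w : Eu n) (v : Eu n) =
          inner ℝ (w : Eu n) ((v : Eu n) - (v' : Eu n)) + inner ℝ (w : Eu n) (v' : Eu n) := by
        rw [inner_sub_right]
        ring
      have h5 : |inner ℝ (w : Eu n) ((v : Eu n) - (v' : Eu n))| ≤ dist v v' := by
        have h6 := abs_real_inner_le_norm (w : Eu n) ((v : Eu n) - (v' : Eu n))
        rw [norm_sph, one_mul, ← dist_eq_norm] at h6
        exact h6
      rw [h4]
      refine (abs_add_le _ _).trans (add_le_add h5 (le_max_left _ _))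
    · have := le_max_right |inner ℝ (w : Eu n) (v' : Eu n)| δ
      have := dist_nonneg (x := v) (y := v')
      linarith
  have hδv : δ ≤ dcs δ v' w := le_max_right _ _
  have h4 : dcs δ v w / dcs δ v' w ≤ 1 + dist v v' / δ := by
    rw [div_le_iff₀ h2, add_mul, one_mul]
    have h5 : dist v v' ≤ dist v v' / δ * dcs δ v' w := by
      rw [div_mul_eq_mul_div, le_div_iff₀ hδ]
      exact mul_le_mul_of_nonneg_left hδv dist_nonneg
    linarith
  have h5 := Real.log_le_sub_one_of_pos (div_pos h1 h2)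
  rw [Real.log_div h1.ne' h2.ne'] at h5
  linarith

theorem continuous_dc {δ : ℝ} (hδ : 0 < δ) : Continuous (dc δ hδ : Sph n → XS (pm n)) := by
  have hL : LipschitzWith ⟨δ⁻¹, (inv_pos.2 hδ).le⟩ (dc δ hδ : Sph n → XS (pm n)) := by
    refine LipschitzWith.of_dist_le_mul fun v v' => ?_
    show dist ((dc δ hδ v : XS (pm n)) : C(Sph n, ℝ)) ((dc δ hδ v' : XS (pm n)) : C(Sph n, ℝ)) ≤
      δ⁻¹ * dist v v'
    rw [ContinuousMap.dist_le (mul_nonneg (inv_pos.2 hδ).le dist_nonneg)]
    intro w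
    rw [Real.dist_eq, dc_apply, dc_apply, abs_le]
    have h1 := log_dcs_le hδ v v' w
    have h2 := log_dcs_le hδ v' v w
    rw [dist_comm v' v] at h2
    have h3 : δ⁻¹ * dist v v' = dist v v' / δ := by ring
    rw [h3]
    constructor <;> linarith
  exact hL.continuous

theorem cap_mass {r : ℝ} (hr : 0 < r) :
    ∃ m > 0, ∀ v : Sph n, m ≤ (sg n).real {u : Sph n | dist u v < r} := by
  have hop : (sg n).IsOpenPosMeasure := by unfold sg; infer_instance
  obtain ⟨t, -, ht⟩ := isCompact_univ.elim_nhds_subcover (X := Sph n) (fun p => ball p (r / 2))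
    (fun p _ => ball_mem_nhds p (half_pos hr))
  have htne : t.Nonempty := by
    obtain ⟨v⟩ : Nonempty (Sph n) := inferInstance
    have h1 := ht (mem_univ v)
    simp only [mem_iUnion] at h1
    obtain ⟨p, hp, -⟩ := h1
    exact ⟨p, hp⟩
  obtain ⟨p0, hp0, hmin⟩ := t.exists_min_image (fun p => (sg n).real (ball p (r / 2))) htne
  have hpos : ∀ p : Sph n, 0 < (sg n).real (ball p (r / 2)) := fun p =>
    ENNReal.toReal_pos ((isOpen_ball.measure_pos (sg n) ⟨p, mem_ball_self (half_pos hr)⟩).ne')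
      (measure_ne_top _ _)
  refine ⟨(sg n).real (ball p0 (r / 2)), hpos p0, fun v => ?_⟩
  have h1 := ht (mem_univ v)
  simp only [mem_iUnion] at h1
  obtain ⟨p, hp, hvp⟩ := h1
  refine (hmin p hp).trans (measureReal_mono ?_)
  intro u hu
  rw [mem_ball] at hu hvp
  rw [mem_ofPred_eq]
  calc dist u v ≤ dist u p + dist p v := dist_triangle _ _ _
    _ < r / 2 + r / 2 := add_lt_add hu (by rwa [dist_comm])
    _ = r := by ring

theorem II_dc {δ : ℝ} (hδ : 0 < δ) {η : ℝ} (hη : 0 < η) (hη1 : η < 1) :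
    ∃ m > 0, ∀ q : ℝ, 0 < q → ∀ v : Sph n, (1 - η) ^ q * m ≤ II q (dcs δ v) := by
  obtain ⟨m, hm, hcap⟩ := cap_mass (n := n) (mul_pos hη hδ)
  refine ⟨m, hm, fun q hq v => ?_⟩
  have hc := continuous_dcs δ v
  have h0 := dcs_pos hδ v
  have h1η : 0 < 1 - η := by linarith
  set S : Set (Sph n) := {u : Sph n | dist u v < η * δ} with hS
  have hSm : MeasurableSet S := (isOpen_lt (by fun_prop) continuous_const).measurableSet
  have hge : ∀ u ∈ S, (1 - η) ^ q ≤ (gN (dcs δ v) (u : Eu n))⁻¹ ^ q := by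
    intro u hu
    have hg := gN_pos hc h0 (sph_ne_zero u)
    have hmem : (1 - η) • (u : Eu n) ∈ wulff (dcs δ v) := by
      intro w
      rw [inner_smul_left]
      have e1 : inner ℝ (u : Eu n) (w : Eu n) =
          inner ℝ (v : Eu n) (w : Eu n) + inner ℝ ((u : Eu n) - (v : Eu n)) (w : Eu n) := by
        rw [inner_sub_left]
        ring
      have e2 : inner ℝ (v : Eu n) (w : Eu n) ≤ dcs δ v w := by
        rw [real_inner_comm]
        exact (le_abs_self _).trans (le_max_left _ _)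
      have e3 : inner ℝ ((u : Eu n) - (v : Eu n)) (w : Eu n) ≤ η * δ := by
        have h6 := (le_abs_self _).trans (abs_inner_le ((u : Eu n) - (v : Eu n)) w)
        rw [← dist_eq_norm] at h6
        exact h6.trans (le_of_lt hu)
      have e4 : δ ≤ dcs δ v w := le_max_right _ _
      rw [e1]
      show (1 - η) * _ ≤ _
      have e5 : (1 - η) * (inner ℝ (v : Eu n) (w : Eu n) +
          inner ℝ ((u : Eu n) - (v : Eu n)) (w : Eu n)) ≤ (1 - η) * (dcs δ v w + η * δ) :=
        mul_le_mul_of_nonneg_left (add_le_add e2 e3) h1η.le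
      have e6 : (1 - η) * (η * δ) ≤ η * δ := by
        have : 0 < η * δ := mul_pos hη hδ
        nlinarith
      have e7 : η * δ ≤ η * dcs δ v w := mul_le_mul_of_nonneg_left e4 hη.le
      linarith
    rw [mem_wulff_iff hc h0, gN_smul hc h0 h1η.le] at hmem
    refine Real.rpow_le_rpow h1η.le ?_ hq.le
    rw [le_inv_comm₀ h1η hg, ← one_div, le_div_iff₀ h1η]
    linarith
  calc (1 - η) ^ q * m ≤ (1 - η) ^ q * (sg n).real S :=
        mul_le_mul_of_nonneg_left (hcap v) (Real.rpow_nonneg h1η.le q)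
    _ = ∫ _u in S, (1 - η) ^ q ∂(sg n) := by
        rw [setIntegral_const, smul_eq_mul, mul_comm]
    _ ≤ ∫ u in S, (gN (dcs δ v) (u : Eu n))⁻¹ ^ q ∂(sg n) :=
        setIntegral_mono_on (integrable_const _) (integrable_radpow hc h0 q).integrableOn hSm hge
    _ ≤ ∫ u, (gN (dcs δ v) (u : Eu n))⁻¹ ^ q ∂(sg n) :=
        setIntegral_le_integral (integrable_radpow hc h0 q)
          (Eventually.of_forall fun u => Real.rpow_nonneg
            (inv_nonneg.2 (gN_pos hc h0 (sph_ne_zero u)).le) q)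
    _ = II q (dcs δ v) := rfl

theorem Psi_dc {δ : ℝ} (hδ : 0 < δ) {κ : ℝ} (hκ : 0 < κ) :
    ∃ q0 : ℝ, ∀ q : ℝ, q0 ≤ q → ∀ (μ : Measure (Sph n)) [IsProbabilityMeasure μ] (v : Sph n),
      potd μ δ v - κ ≤ Psi μ q (dcs δ v) := by
  have hη0 : 0 < 1 - Real.exp (-(κ / 2)) := by
    have : Real.exp (-(κ / 2)) < 1 := Real.exp_lt_one_iff.2 (by linarith)
    linarith
  have hη1 : 1 - Real.exp (-(κ / 2)) < 1 := by
    have := Real.exp_pos (-(κ / 2))
    linarith
  obtain ⟨m, hm, hII⟩ := II_dc (n := n) hδ hη0 hη1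
  refine ⟨max 1 (-(2 * Real.log m) / κ), fun q hq μ _ v => ?_⟩
  have hq1 : 1 ≤ q := (le_max_left _ _).trans hq
  have hq0 : 0 < q := by linarith
  have hq2 : -(2 * Real.log m) / κ ≤ q := (le_max_right _ _).trans hq
  rw [div_le_iff₀ hκ] at hq2
  have h1 := hII q hq0 v
  rw [sub_sub_cancel, ← Real.exp_mul] at h1
  have h2 := Real.log_le_log (mul_pos (Real.exp_pos _) hm) h1
  rw [Real.log_mul (Real.exp_pos _).ne' hm.ne', Real.log_exp] at h2
  have h3 : -κ ≤ 1 / q * Real.log (II q (dcs δ v)) := by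
    rw [one_div_mul_eq_div, le_div_iff₀ hq0]
    linarith
  unfold Psi potd
  unfold dcs at h3 ⊢
  linarith

end QCap

end Pool.Agent.Lib.MP_b0d2bf_gt
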