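import Mathlib
import Pool.Agent.Lib.MP_b0d2bf_gt.QDefs
import Pool.Agent.Lib.MP_b0d2bf_gt.XAvg

set_option autoImplicit false

/-!
The moment map of a body.
-/

namespace Pool.Agent.Lib.MP_b0d2bf_gt

open MeasureTheory Metric Set Filter Topology

section QMom

variable {n : ℕ} [NeZero n] {q : ℝ}

private lemma qm_w (q : ℝ) (f : C(Sph n, ℝ)) :
    Continuous fun u : Sph n => (gN (ex f) (u : Eu n))⁻¹ ^ q :=
  continuous_radpow (continuous_ex f) (ex_pos f) q

private lemma qm_wpos (q : ℝ) (f : C(Sph n, ℝ)) (u : Sph n) : 0 < (gN (ex f) (u : Eu n))⁻¹ ^ q :=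
  Real.rpow_pos_of_pos (inv_pos.2 (gN_pos (continuous_ex f) (ex_pos f) (sph_ne_zero u))) q

omit [NeZero n] in
private lemma qm_in (x : Eu n) : Continuous fun u : Sph n => inner ℝ (u : Eu n) x :=
  continuous_subtype_val.inner continuous_const

omit [NeZero n] in
private lemma qm_int {E : Type*} [NormedAddCommGroup E] [NormedSpace ℝ E] {F : Sph n → E}
    (hF : Continuous F) : Integrable F (sg n) :=
  hF.integrable_of_hasCompactSupport (HasCompactSupport.of_compactSpace _)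

private lemma qm_vec (q : ℝ) (f : C(Sph n, ℝ)) (x : Eu n) : Continuous fun u : Sph n =>
    ((gN (ex f) (u : Eu n))⁻¹ ^ q * inner ℝ (u : Eu n) x) • (u : Eu n) :=
  ((qm_w q f).mul (qm_in x)).smul continuous_subtype_val

private lemma qm_II (q : ℝ) (f : C(Sph n, ℝ)) : 0 < II q (ex f) :=
  II_pos (continuous_ex f) (ex_pos f) q

theorem inner_mom (f : C(Sph n, ℝ)) (x y : Eu n) :
    inner ℝ (mom q f x) y = (II q (ex f))⁻¹ * ∫ u : Sph n, (gN (ex f) (u : Eu n))⁻¹ ^ q *
      (inner ℝ (u : Eu n) x * inner ℝ (u : Eu n) y) ∂(sg n) := by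
  unfold mom
  rw [real_inner_smul_left, real_inner_comm, ← integral_inner (qm_int (qm_vec q f x))]
  congr 1
  refine integral_congr_ae (Eventually.of_forall fun u => ?_)
  show inner ℝ y (((gN (ex f) (u : Eu n))⁻¹ ^ q * inner ℝ (u : Eu n) x) • (u : Eu n)) = _
  rw [real_inner_smul_right, real_inner_comm (u : Eu n) y, mul_assoc]

theorem mom_add (f : C(Sph n, ℝ)) (x y : Eu n) : mom q f (x + y) = mom q f x + mom q f y := by
  unfold mom
  rw [← smul_add, ← integral_add (qm_int (qm_vec q f x)) (qm_int (qm_vec q f y))]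
  congr 1
  refine integral_congr_ae (Eventually.of_forall fun u => ?_)
  show ((gN (ex f) (u : Eu n))⁻¹ ^ q * inner ℝ (u : Eu n) (x + y)) • (u : Eu n) = _
  rw [inner_add_right, mul_add, add_smul]

theorem mom_smul (f : C(Sph n, ℝ)) (c : ℝ) (x : Eu n) : mom q f (c • x) = c • mom q f x := by
  unfold mom
  rw [smul_comm c, ← integral_smul c]
  congr 1
  refine integral_congr_ae (Eventually.of_forall fun u => ?_)
  show ((gN (ex f) (u : Eu n))⁻¹ ^ q * inner ℝ (u : Eu n) (c • x)) • (u : Eu n) =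
    c • (((gN (ex f) (u : Eu n))⁻¹ ^ q * inner ℝ (u : Eu n) x) • (u : Eu n))
  rw [real_inner_smul_right, smul_smul]
  congr 1
  ring

theorem mom_symm (f : C(Sph n, ℝ)) (x y : Eu n) :
    inner ℝ (mom q f x) y = inner ℝ x (mom q f y) := by
  rw [real_inner_comm (mom q f y) x, inner_mom, inner_mom]
  congr 1
  refine integral_congr_ae (Eventually.of_forall fun u => ?_)
  show _ * (_ * _) = _ * (_ * _)
  ring

theorem mom_nonneg (f : C(Sph n, ℝ)) (x : Eu n) : 0 ≤ inner ℝ (mom q f x) x := by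
  rw [inner_mom]
  refine mul_nonneg (inv_nonneg.2 (qm_II q f).le) (integral_nonneg fun u => ?_)
  exact mul_nonneg (qm_wpos q f u).le (mul_self_nonneg _)

theorem mom_trace (f : C(Sph n, ℝ)) (b : OrthonormalBasis (Fin n) ℝ (Eu n)) :
    ∑ i, inner ℝ (mom q f (b i)) (b i) = (1 : ℝ) := by
  simp only [inner_mom]
  rw [← Finset.mul_sum, ← integral_finsetSum]
  · have h : ∫ u : Sph n, ∑ i, (gN (ex f) (u : Eu n))⁻¹ ^ q *
        (inner ℝ (u : Eu n) (b i) * inner ℝ (u : Eu n) (b i)) ∂(sg n) = II q (ex f) := by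
      unfold II
      refine integral_congr_ae (Eventually.of_forall fun u => ?_)
      show ∑ i, (gN (ex f) (u : Eu n))⁻¹ ^ q *
        (inner ℝ (u : Eu n) (b i) * inner ℝ (u : Eu n) (b i)) = (gN (ex f) (u : Eu n))⁻¹ ^ q
      rw [← Finset.mul_sum]
      have h2 := b.sum_sq_norm_inner_left (u : Eu n)
      rw [norm_sph, one_pow] at h2
      have h3 : ∑ i, inner ℝ (u : Eu n) (b i) * inner ℝ (u : Eu n) (b i) = (1 : ℝ) := by
        rw [← h2]
        refine Finset.sum_congr rfl fun i _ => ?_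
        rw [Real.norm_eq_abs, sq_abs, pow_two]
      rw [h3, mul_one]
    rw [h, inv_mul_cancel₀ (qm_II q f).ne']
  · intro i _
    exact qm_int ((qm_w q f).mul ((qm_in _).mul (qm_in _)))

theorem Lam_pos (f : C(Sph n, ℝ)) (v : Sph n) : 0 < Lam q f v := by
  unfold Lam
  rw [inner_mom]
  refine mul_pos (inv_pos.2 (qm_II q f)) ?_
  have hc : Continuous fun u : Sph n => (gN (ex f) (u : Eu n))⁻¹ ^ q *
      (inner ℝ (u : Eu n) (v : Eu n) * inner ℝ (u : Eu n) (v : Eu n)) :=
    (qm_w q f).mul ((qm_in _).mul (qm_in _))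
  have hop : (sg n).IsOpenPosMeasure := by unfold sg; infer_instance
  refine hc.integral_pos_of_hasCompactSupport_nonneg_nonzero
    (HasCompactSupport.of_compactSpace _) (fun u => ?_) (x := v) ?_
  · exact mul_nonneg (qm_wpos q f u).le (mul_self_nonneg _)
  · show (gN (ex f) (v : Eu n))⁻¹ ^ q *
      (inner ℝ (v : Eu n) (v : Eu n) * inner ℝ (v : Eu n) (v : Eu n)) ≠ 0
    rw [real_inner_self_eq_norm_sq, norm_sph, one_pow, mul_one, mul_one]
    exact (qm_wpos q f v).ne'

theorem Lam_le_one (f : C(Sph n, ℝ)) (v : Sph n) : Lam q f v ≤ 1 := by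
  unfold Lam
  rw [inner_mom]
  have h1 : ∫ u : Sph n, (gN (ex f) (u : Eu n))⁻¹ ^ q *
      (inner ℝ (u : Eu n) (v : Eu n) * inner ℝ (u : Eu n) (v : Eu n)) ∂(sg n) ≤ II q (ex f) := by
    unfold II
    refine integral_mono (qm_int ((qm_w q f).mul ((qm_in _).mul (qm_in _))))
      (qm_int (qm_w q f)) fun u => ?_
    show (gN (ex f) (u : Eu n))⁻¹ ^ q *
      (inner ℝ (u : Eu n) (v : Eu n) * inner ℝ (u : Eu n) (v : Eu n)) ≤
        (gN (ex f) (u : Eu n))⁻¹ ^ q
    refine mul_le_of_le_one_right (qm_wpos q f u).le ?_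
    have h2 := abs_real_inner_le_norm (u : Eu n) (v : Eu n)
    rw [norm_sph, norm_sph, mul_one] at h2
    have h3 := abs_le.1 h2
    nlinarith [h3.1, h3.2]
  calc (II q (ex f))⁻¹ * ∫ u : Sph n, (gN (ex f) (u : Eu n))⁻¹ ^ q *
      (inner ℝ (u : Eu n) (v : Eu n) * inner ℝ (u : Eu n) (v : Eu n)) ∂(sg n)
      ≤ (II q (ex f))⁻¹ * II q (ex f) :=
        mul_le_mul_of_nonneg_left h1 (inv_nonneg.2 (qm_II q f).le)
    _ = 1 := inv_mul_cancel₀ (qm_II q f).ne'

theorem continuous_Lam (f : C(Sph n, ℝ)) : Continuous (Lam q f) := by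
  have hl : Continuous (mom q f) := by
    let L : Eu n →ₗ[ℝ] Eu n :=
      { toFun := mom q f
        map_add' := mom_add f
        map_smul' := mom_smul f }
    exact L.continuous_of_finiteDimensional
  unfold Lam
  exact (hl.comp continuous_subtype_val).inner continuous_subtype_val

theorem continuous_mom (hq : 0 < q) (x : Eu n) :
    Continuous fun f : C(Sph n, ℝ) => mom q f x := by
  rw [continuous_iff_seqContinuous]
  intro F f hF
  show Tendsto (fun j => (II q (ex (F j)))⁻¹ • ∫ u : Sph n,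
    ((gN (ex (F j)) (u : Eu n))⁻¹ ^ q * inner ℝ (u : Eu n) x) • (u : Eu n) ∂(sg n)) atTop
    (𝓝 ((II q (ex f))⁻¹ • ∫ u : Sph n,
    ((gN (ex f) (u : Eu n))⁻¹ ^ q * inner ℝ (u : Eu n) x) • (u : Eu n) ∂(sg n)))
  refine ((XAvg.tendsto_den hq hF).inv₀ (qm_II q f).ne').smul ?_
  have hd : Tendsto (fun j => dist (F j) f) atTop (𝓝 0) := tendsto_iff_dist_tendsto_zero.1 hF
  refine tendsto_integral_filter_of_dominated_convergence
    (fun u => ‖x‖ * (Real.exp 1 ^ q * (gN (ex f) (u : Eu n))⁻¹ ^ q)) ?_ ?_ ?_ ?_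
  · exact Eventually.of_forall fun j => (qm_vec q (F j) x).aestronglyMeasurable
  · filter_upwards [hd.eventually (gt_mem_nhds zero_lt_one)] with j hj
    refine Eventually.of_forall fun u => ?_
    show ‖((gN (ex (F j)) (u : Eu n))⁻¹ ^ q * inner ℝ (u : Eu n) x) • (u : Eu n)‖ ≤ _
    have hgp := inv_pos.2 (gN_pos (continuous_ex (F j)) (ex_pos (F j)) (sph_ne_zero u))
    have hfp := inv_pos.2 (gN_pos (continuous_ex f) (ex_pos f) (sph_ne_zero u))
    rw [norm_smul, norm_sph, mul_one, norm_mul, mul_comm, ← Real.mul_rpow (Real.exp_pos 1).le hfp.le]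
    refine mul_le_mul ?_ ?_ (norm_nonneg _) (norm_nonneg _)
    · have h2 := norm_inner_le_norm (𝕜 := ℝ) (u : Eu n) x
      rwa [norm_sph, one_mul] at h2
    · rw [Real.norm_of_nonneg (Real.rpow_nonneg hgp.le q)]
      exact Real.rpow_le_rpow hgp.le (XAvg.inv_le hj.le u) hq.le
  · exact ((integrable_radpow (continuous_ex f) (ex_pos f) q).const_mul _).const_mul _
  · refine Eventually.of_forall fun u => ?_
    refine Tendsto.smul_const (Tendsto.mul_const _ ?_) _
    exact (XAvg.tendsto_inv hF u).rpow_const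
      (Or.inl (inv_pos.2 (gN_pos (continuous_ex f) (ex_pos f) (sph_ne_zero u))).ne')

end QMom

end Pool.Agent.Lib.MP_b0d2bf_gt
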