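import Mathlib
import Pool.Agent.Lib.MP_b0d2bf_gt.QCap
import Pool.Agent.Lib.MP_b0d2bf_gt.QMom

set_option autoImplicit false

/-!
The double cones over thin balls: concentration of the moments.
-/

namespace Pool.Agent.Lib.MP_b0d2bf_gt

open MeasureTheory Metric Set Filter Topology

section QConc

variable {n : ℕ} [NeZero n]

omit [NeZero n] in
private lemma qconc_dcs_neg (δ : ℝ) (v : Sph n) : dcs δ (-v) = dcs δ v := by
  funext w
  unfold dcs
  have h : ((-v : Sph n) : Eu n) = -(v : Eu n) := rfl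
  rw [h, inner_neg_right, abs_neg]

private lemma qconc_half {δ : ℝ} (hδ : 0 < δ) (hδ1 : δ ≤ 1 / 2) {r : ℝ} (hr : 0 < r)
    (v u : Sph n) (huv : r ≤ dist u v) (hs : 0 ≤ inner ℝ (u : Eu n) (v : Eu n)) :
    (gN (dcs δ v) (u : Eu n))⁻¹ ≤ δ / (δ + min r 1 / 8) := by
  have hc0 := continuous_dcs δ v
  have h0 := dcs_pos hδ v
  have hg := gN_pos hc0 h0 (sph_ne_zero u)
  set s : ℝ := inner ℝ (u : Eu n) (v : Eu n) with hsdef
  have hu := norm_sph u
  have hv := norm_sph v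
  have huu : inner ℝ (u : Eu n) (u : Eu n) = (1 : ℝ) := by
    rw [real_inner_self_eq_norm_sq, hu, one_pow]
  have hvv : inner ℝ (v : Eu n) (v : Eu n) = (1 : ℝ) := by
    rw [real_inner_self_eq_norm_sq, hv, one_pow]
  have hvu : inner ℝ (v : Eu n) (u : Eu n) = s := real_inner_comm _ _
  have hs1 : s ≤ 1 := by
    have h1 := real_inner_le_norm (u : Eu n) (v : Eu n)
    rwa [hu, hv, mul_one] at h1
  have hd : dist u v ^ 2 = 2 - 2 * s := by
    have e : dist u v = ‖(u : Eu n) - (v : Eu n)‖ := by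
      rw [Subtype.dist_eq, dist_eq_norm]
    rw [e, norm_sub_sq_real, hu, hv]
    ring
  have hr2 : r ^ 2 ≤ 2 - 2 * s := by
    rw [← hd]
    exact pow_le_pow_left₀ hr.le huv 2
  set c : ℝ := ‖(u : Eu n) - s • (v : Eu n)‖ with hcdef
  have hc2 : c ^ 2 = 1 - s ^ 2 := by
    rw [hcdef, norm_sub_sq_real, hu, norm_smul, hv, real_inner_smul_right, ← hsdef,
      Real.norm_eq_abs, mul_one, sq_abs]
    ring
  have hcn : 0 ≤ c := norm_nonneg _
  have hc1 : c ≤ 1 := by
    nlinarith [sq_nonneg s]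
  have hcr : min r 1 / 2 ≤ c := by
    have h1 : (min r 1 / 2) ^ 2 ≤ c ^ 2 := by
      have h2 : min r 1 ≤ r := min_le_left _ _
      have h3 : 0 < min r 1 := lt_min hr one_pos
      nlinarith
    exact le_of_sq_le_sq h1 hcn
  have hcp : 0 < c := lt_of_lt_of_le (by have : 0 < min r 1 := lt_min hr one_pos
                                         linarith) hcr
  set y : Eu n := c⁻¹ • ((u : Eu n) - s • (v : Eu n)) with hy
  have hyn : inner ℝ y y = (1 : ℝ) := by
    rw [hy, real_inner_smul_left, real_inner_smul_right, real_inner_self_eq_norm_sq, ← hcdef]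
    field_simp
  have hyv : inner ℝ y (v : Eu n) = (0 : ℝ) := by
    rw [hy, real_inner_smul_left, inner_sub_left, real_inner_smul_left, hvv, ← hsdef]
    ring
  have huy : inner ℝ (u : Eu n) y = c := by
    rw [hy, real_inner_smul_right, inner_sub_right, real_inner_smul_right, huu, ← hsdef]
    have : (1 : ℝ) - s * s = c ^ 2 := by rw [hc2]; ring
    rw [this]
    field_simp
  set t : ℝ := Real.sqrt (1 - δ ^ 2) with ht
  have ht2 : t ^ 2 = 1 - δ ^ 2 := Real.sq_sqrt (by nlinarith)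
  have ht0 : 0 ≤ t := Real.sqrt_nonneg _
  have ht34 : 3 / 4 ≤ t := by
    refine Real.le_sqrt_of_sq_le ?_
    nlinarith
  have hwn : ‖δ • (v : Eu n) + t • y‖ = 1 := by
    have h1 : ‖δ • (v : Eu n) + t • y‖ ^ 2 = 1 := by
      rw [← real_inner_self_eq_norm_sq, inner_add_left, inner_add_right, inner_add_right]
      simp only [real_inner_smul_left, real_inner_smul_right]
      rw [hvv, hyn, hyv, real_inner_comm, hyv]
      nlinarith
    have h2 := norm_nonneg (δ • (v : Eu n) + t • y)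
    nlinarith
  set w : Sph n := ⟨δ • (v : Eu n) + t • y, by rw [mem_sphere_zero_iff_norm, hwn]⟩ with hw
  have hwc : (w : Eu n) = δ • (v : Eu n) + t • y := rfl
  have hwv : dcs δ v w = δ := by
    unfold dcs
    rw [hwc, inner_add_left, real_inner_smul_left, real_inner_smul_left, hvv, hyv, mul_one,
      mul_zero, add_zero, abs_of_pos hδ, max_self]
  have h1 := bd_mem_wulff hc0 h0 u w
  rw [hwv, real_inner_smul_left, hwc, inner_add_right, real_inner_smul_right,
    real_inner_smul_right, huy, ← hsdef] at h1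
  have h2 : δ + min r 1 / 8 ≤ δ * s + t * c := by
    have h3 : 1 - c ^ 2 ≤ s := by nlinarith
    have h4 : δ * (1 - c ^ 2) ≤ δ * s := mul_le_mul_of_nonneg_left h3 hδ.le
    have h5 : δ * c ≤ 1 / 2 := by nlinarith
    have h6 : 1 / 4 ≤ t - δ * c := by linarith
    have h7 : c * (1 / 4) ≤ c * (t - δ * c) := mul_le_mul_of_nonneg_left h6 hcn
    nlinarith
  have h3 : 0 < δ + min r 1 / 8 := by
    have : 0 < min r 1 := lt_min hr one_pos
    positivity
  rw [le_div_iff₀ h3]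
  exact (mul_le_mul_of_nonneg_left h2 (inv_pos.2 hg).le).trans h1

theorem rho_dc {δ : ℝ} (hδ : 0 < δ) (hδ1 : δ ≤ 1 / 2) {r : ℝ} (hr : 0 < r) :
    ∃ κ : ℝ, 0 < κ ∧ κ < 1 ∧ ∀ v u : Sph n, r ≤ dist u v → r ≤ dist u (-v) →
      (gN (dcs δ v) (u : Eu n))⁻¹ ≤ κ := by
  have h0 : 0 < min r 1 := lt_min hr one_pos
  refine ⟨δ / (δ + min r 1 / 8), by positivity, ?_, fun v u h1 h2 => ?_⟩
  · rw [div_lt_one (by positivity)]
    linarith
  · rcases le_total 0 (inner ℝ (u : Eu n) (v : Eu n)) with hs | hs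
    · exact qconc_half hδ hδ1 hr v u h1 hs
    · rw [← qconc_dcs_neg]
      refine qconc_half hδ hδ1 hr (-v) u h2 ?_
      have h : ((-v : Sph n) : Eu n) = -(v : Eu n) := rfl
      rw [h, inner_neg_right]
      linarith

omit [NeZero n] in
private lemma qconc_g (v u : Sph n) (x : Eu n) (hx : ‖x‖ ≤ 1) :
    ‖inner ℝ (u : Eu n) x • (u : Eu n) - inner ℝ (v : Eu n) x • (v : Eu n)‖ ≤ 2 * dist u v := by
  have e : dist u v = ‖(u : Eu n) - (v : Eu n)‖ := by
    rw [Subtype.dist_eq, dist_eq_norm]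
  have h1 : inner ℝ (u : Eu n) x • (u : Eu n) - inner ℝ (v : Eu n) x • (v : Eu n) =
      inner ℝ (u : Eu n) x • ((u : Eu n) - (v : Eu n)) +
        inner ℝ ((u : Eu n) - (v : Eu n)) x • (v : Eu n) := by
    rw [inner_sub_left, smul_sub, sub_smul]
    abel
  rw [h1, e]
  refine (norm_add_le _ _).trans ?_
  rw [norm_smul, norm_smul, norm_sph v, mul_one, Real.norm_eq_abs, Real.norm_eq_abs]
  have h2 := abs_real_inner_le_norm (u : Eu n) x
  have h3 := abs_real_inner_le_norm ((u : Eu n) - (v : Eu n)) x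
  rw [norm_sph, one_mul] at h2
  have h4 := norm_nonneg ((u : Eu n) - (v : Eu n))
  have h5 : |inner ℝ (u : Eu n) x| * ‖(u : Eu n) - (v : Eu n)‖ ≤ 1 * ‖(u : Eu n) - (v : Eu n)‖ :=
    mul_le_mul_of_nonneg_right (h2.trans hx) h4
  have h6 : ‖(u : Eu n) - (v : Eu n)‖ * ‖x‖ ≤ ‖(u : Eu n) - (v : Eu n)‖ * 1 :=
    mul_le_mul_of_nonneg_left hx h4
  linarith

omit [NeZero n] in
private lemma qconc_g2 (v u : Sph n) (x : Eu n) (hx : ‖x‖ ≤ 1) :
    ‖inner ℝ (u : Eu n) x • (u : Eu n) - inner ℝ (v : Eu n) x • (v : Eu n)‖ ≤ 2 := by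
  refine (norm_sub_le _ _).trans ?_
  rw [norm_smul, norm_smul, norm_sph v, norm_sph u, mul_one, mul_one, Real.norm_eq_abs,
    Real.norm_eq_abs]
  have h2 := abs_real_inner_le_norm (u : Eu n) x
  have h3 := abs_real_inner_le_norm (v : Eu n) x
  rw [norm_sph, one_mul] at h2 h3
  linarith

omit [NeZero n] in
private lemma qconc_int {E : Type*} [NormedAddCommGroup E] [NormedSpace ℝ E] {F : Sph n → E}
    (hF : Continuous F) : Integrable F (sg n) :=
  hF.integrable_of_hasCompactSupport (HasCompactSupport.of_compactSpace _)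

theorem mom_dc {δ : ℝ} (hδ : 0 < δ) (hδ1 : δ ≤ 1 / 2) {κ : ℝ} (hκ : 0 < κ) :
    ∃ q0 : ℝ, ∀ q : ℝ, q0 ≤ q → ∀ (v : Sph n) (x : Eu n), ‖x‖ ≤ 1 →
      ‖mom q ((dc δ hδ v : XS (pm n)) : C(Sph n, ℝ)) x - inner ℝ (v : Eu n) x • (v : Eu n)‖ ≤
        κ := by
  obtain ⟨κ', hκ0, hκ1, hrho⟩ := rho_dc (n := n) hδ hδ1 (r := κ / 4) (by positivity)
  obtain ⟨m, hm, hII⟩ := II_dc (n := n) hδ (η := (1 - κ') / 2) (by linarith) (by linarith)
  set b : ℝ := 1 - (1 - κ') / 2 with hb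
  have hb0 : 0 < b := by rw [hb]; linarith
  have hbκ : κ' < b := by rw [hb]; linarith
  set σ : ℝ := (sg n).real univ with hσ
  have hσ0 : 0 ≤ σ := measureReal_nonneg
  have ht : Tendsto (fun q : ℝ => 2 * (κ' / b) ^ q * σ / m) atTop (𝓝 0) := by
    have h1 := tendsto_rpow_atTop_of_base_lt_one (κ' / b)
      (by have : 0 < κ' / b := by positivity
          linarith) (by rw [div_lt_one hb0]; exact hbκ)
    have h2 := ((h1.const_mul 2).mul_const σ).div_const m
    simpa using h2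
  have hev : ∀ᶠ q : ℝ in atTop, 2 * (κ' / b) ^ q * σ / m < κ / 2 :=
    ht.eventually_lt_const (by positivity)
  obtain ⟨q1, hq1⟩ := eventually_atTop.1 hev
  refine ⟨max q1 1, fun q hq v x hx => ?_⟩
  have hqq := hq1 q ((le_max_left _ _).trans hq)
  have hq0 : 0 < q := lt_of_lt_of_le one_pos ((le_max_right _ _).trans hq)
  have hIIq := hII q hq0 v
  have hc := continuous_dcs δ v
  have h0 := dcs_pos hδ v
  have hIIp := II_pos hc h0 q
  have hρ : ∀ u : Sph n, 0 < (gN (dcs δ v) (u : Eu n))⁻¹ := fun u =>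
    inv_pos.2 (gN_pos hc h0 (sph_ne_zero u))
  have hcr := continuous_radpow hc h0 q
  have hcin : Continuous fun u : Sph n => inner ℝ (u : Eu n) x :=
    continuous_subtype_val.inner continuous_const
  set g : Sph n → Eu n := fun u =>
    inner ℝ (u : Eu n) x • (u : Eu n) - inner ℝ (v : Eu n) x • (v : Eu n) with hg
  have hgc : Continuous g := (hcin.smul continuous_subtype_val).sub continuous_const
  have e1 : mom q ((dc δ hδ v : XS (pm n)) : C(Sph n, ℝ)) x -
      inner ℝ (v : Eu n) x • (v : Eu n) =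
      (II q (dcs δ v))⁻¹ • ∫ u : Sph n, ((gN (dcs δ v) (u : Eu n))⁻¹ ^ q) • g u ∂(sg n) := by
    unfold mom
    rw [ex_dc]
    have e2 : (∫ u : Sph n, ((gN (dcs δ v) (u : Eu n))⁻¹ ^ q) • g u ∂(sg n)) =
        (∫ u : Sph n, ((gN (dcs δ v) (u : Eu n))⁻¹ ^ q * inner ℝ (u : Eu n) x) •
          (u : Eu n) ∂(sg n)) - II q (dcs δ v) • (inner ℝ (v : Eu n) x • (v : Eu n)) := by
      unfold II
      rw [← integral_smul_const, ← integral_sub]
      · refine integral_congr_ae (Eventually.of_forall fun u => ?_)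
        show ((gN (dcs δ v) (u : Eu n))⁻¹ ^ q) • g u = _
        rw [hg]
        simp only [smul_sub, smul_smul]
      · exact qconc_int ((hcr.mul hcin).smul continuous_subtype_val)
      · exact qconc_int (hcr.smul continuous_const)
    rw [e2, smul_sub, smul_smul, inv_mul_cancel₀ hIIp.ne', one_smul]
  rw [e1, norm_smul, norm_inv, Real.norm_of_nonneg hIIp.le]
  have i1 : Integrable (fun u : Sph n => κ / 2 * (gN (dcs δ v) (u : Eu n))⁻¹ ^ q) (sg n) :=
    (qconc_int hcr).const_mul _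
  have e3 : ‖∫ u : Sph n, ((gN (dcs δ v) (u : Eu n))⁻¹ ^ q) • g u ∂(sg n)‖ ≤
      κ / 2 * II q (dcs δ v) + 2 * κ' ^ q * σ := by
    have e4 : κ / 2 * II q (dcs δ v) + 2 * κ' ^ q * σ =
        ∫ u : Sph n, (κ / 2 * (gN (dcs δ v) (u : Eu n))⁻¹ ^ q + 2 * κ' ^ q) ∂(sg n) := by
      rw [integral_add i1 (integrable_const _), integral_const_mul, integral_const, smul_eq_mul]
      unfold II
      ring
    rw [e4]
    refine norm_integral_le_of_norm_le (i1.add (integrable_const _))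
      (Eventually.of_forall fun u => ?_)
    rw [norm_smul, Real.norm_of_nonneg (Real.rpow_nonneg (hρ u).le q)]
    have hp := Real.rpow_nonneg (hρ u).le q
    have hk : 0 ≤ κ' ^ q := Real.rpow_nonneg hκ0.le q
    by_cases h1 : κ / 4 ≤ dist u v
    · by_cases h2 : κ / 4 ≤ dist u (-v)
      · have h3 := hrho v u h1 h2
        have h4 : (gN (dcs δ v) (u : Eu n))⁻¹ ^ q ≤ κ' ^ q :=
          Real.rpow_le_rpow (hρ u).le h3 hq0.le
        have h5 := qconc_g2 v u x hx
        have h6 : (gN (dcs δ v) (u : Eu n))⁻¹ ^ q * ‖g u‖ ≤ κ' ^ q * 2 :=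
          mul_le_mul h4 h5 (norm_nonneg _) hk
        have h7 : 0 ≤ κ / 2 * (gN (dcs δ v) (u : Eu n))⁻¹ ^ q := by positivity
        linarith
      · rw [not_le] at h2
        have h3 := qconc_g (-v) u x hx
        have h : ((-v : Sph n) : Eu n) = -(v : Eu n) := rfl
        rw [h, inner_neg_left, smul_neg, neg_smul, neg_neg] at h3
        have h4 : ‖g u‖ ≤ κ / 2 := by
          refine h3.trans ?_
          linarith
        have h5 : (gN (dcs δ v) (u : Eu n))⁻¹ ^ q * ‖g u‖ ≤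
            (gN (dcs δ v) (u : Eu n))⁻¹ ^ q * (κ / 2) := mul_le_mul_of_nonneg_left h4 hp
        linarith
    · rw [not_le] at h1
      have h3 := qconc_g v u x hx
      have h4 : ‖g u‖ ≤ κ / 2 := by
        refine h3.trans ?_
        linarith
      have h5 : (gN (dcs δ v) (u : Eu n))⁻¹ ^ q * ‖g u‖ ≤
          (gN (dcs δ v) (u : Eu n))⁻¹ ^ q * (κ / 2) := mul_le_mul_of_nonneg_left h4 hp
      linarith
  have e5 : (II q (dcs δ v))⁻¹ * (2 * κ' ^ q * σ) ≤ κ / 2 := by
    have hbq : 0 < b ^ q := Real.rpow_pos_of_pos hb0 q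
    have hk : 0 ≤ κ' ^ q := Real.rpow_nonneg hκ0.le q
    have h1 : (II q (dcs δ v))⁻¹ ≤ (b ^ q * m)⁻¹ :=
      inv_anti₀ (mul_pos hbq hm) hIIq
    have h2 : (II q (dcs δ v))⁻¹ * (2 * κ' ^ q * σ) ≤ (b ^ q * m)⁻¹ * (2 * κ' ^ q * σ) :=
      mul_le_mul_of_nonneg_right h1 (by positivity)
    have h3 : (b ^ q * m)⁻¹ * (2 * κ' ^ q * σ) = 2 * (κ' / b) ^ q * σ / m := by
      rw [Real.div_rpow hκ0.le hb0.le]
      field_simp
    rw [h3] at h2
    exact h2.trans hqq.le
  calc (II q (dcs δ v))⁻¹ *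
      ‖∫ u : Sph n, ((gN (dcs δ v) (u : Eu n))⁻¹ ^ q) • g u ∂(sg n)‖
      ≤ (II q (dcs δ v))⁻¹ * (κ / 2 * II q (dcs δ v) + 2 * κ' ^ q * σ) :=
        mul_le_mul_of_nonneg_left e3 (inv_pos.2 hIIp).le
    _ = κ / 2 + (II q (dcs δ v))⁻¹ * (2 * κ' ^ q * σ) := by
        field_simp
    _ ≤ κ / 2 + κ / 2 := by linarith
    _ = κ := by ring

end QConc

end Pool.Agent.Lib.MP_b0d2bf_gt
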