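import Mathlib
import Pool.Agent.Lib.MP_b0d2bf_gt.YDef

set_option autoImplicit false

/-!
# A deformation lemma: finitely many pushes, with the whole homotopy
-/

namespace Pool.Agent.Lib.MP_b0d2bf_gt

open MeasureTheory Metric Set Filter Topology

open YDef in
theorem deformH {E : Type*} [NormedAddCommGroup E] [NormedSpace ℝ E] {F : E → ℝ} {ρ : E → E}
    (hF : Continuous F) (hρ : LipschitzWith 2 ρ) (hidem : ∀ x, ρ (ρ x) = ρ x)
    (hinc : ∀ x, F x ≤ F (ρ x)) (hcpt : ∀ c : ℝ, IsCompact {x | ρ x = x ∧ c ≤ F x})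
    {m0 C C1 : ℝ} (hC : C < C1)
    (hpush : ∀ p, ρ p = p → m0 ≤ F p → F p ≤ C → ∃ φ : E, ∃ δ > 0, ∃ ε > 0,
      ∀ x ∈ ball p δ, ∀ s ∈ Icc (0:ℝ) δ, F x + ε * s ≤ F (x + s • φ)) :
    ∃ H : ℝ → E → E, Continuous (fun p : ℝ × E => H p.1 p.2) ∧
      (∀ x, ρ x = x → H 0 x = x) ∧
      (∀ t x, ρ x = x → ρ (H t x) = H t x) ∧
      (∀ t x, ρ x = x → F x ≤ F (H t x)) ∧
      (∀ t x, ρ x = x → C1 ≤ F x → H t x = x) ∧
      (∀ x, ρ x = x → m0 ≤ F x → C ≤ F (H 1 x)) := by
  classical
  set K : Set E := {x | (ρ x = x ∧ m0 ≤ F x) ∧ F x ≤ C} with hKdef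
  have hK : IsCompact K := (hcpt m0).inter_right (isClosed_le hF continuous_const)
  have hpush' : ∀ p : K, ∃ φ : E, ∃ δ > 0, ∃ ε > 0,
      ∀ x ∈ ball (p : E) δ, ∀ s ∈ Icc (0:ℝ) δ, F x + ε * s ≤ F (x + s • φ) :=
    fun p => hpush p p.2.1.1 p.2.1.2 p.2.2
  choose φ δ hδ ε hε hp using hpush'
  obtain ⟨t, ht⟩ := hK.elim_nhds_subcover' (fun x hx => ball x (δ ⟨x, hx⟩ / 3))
    (fun x hx => ball_mem_nhds x (div_pos (hδ _) (by norm_num)))
  rcases t.eq_empty_or_nonempty with rfl | htne
  · refine ⟨fun _ x => x, continuous_snd, fun x _ => rfl, fun _ x hx => hx, fun _ x _ => le_rfl,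
      fun _ x _ _ => rfl, fun x hx hm => ?_⟩
    by_contra hlt
    have : x ∈ K := ⟨⟨hx, hm⟩, (not_le.1 hlt).le⟩
    have := ht this
    simp at this
  -- constants
  obtain ⟨d, hd, hdδ⟩ : ∃ d > 0, ∀ i ∈ t, d ≤ δ i :=
    ⟨t.inf' htne δ, (Finset.lt_inf'_iff htne).2 fun i _ => hδ i, fun i hi => Finset.inf'_le δ hi⟩
  obtain ⟨e, he, heε⟩ : ∃ e > 0, ∀ i ∈ t, e ≤ ε i :=
    ⟨t.inf' htne ε, (Finset.lt_inf'_iff htne).2 fun i _ => hε i, fun i hi => Finset.inf'_le ε hi⟩
  obtain ⟨L, hL, hLφ⟩ : ∃ L ≥ 0, ∀ i ∈ t, ‖φ i‖ ≤ L :=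
    ⟨∑ i ∈ t, ‖φ i‖, Finset.sum_nonneg fun i _ => norm_nonneg _,
      fun i hi => Finset.single_le_sum (fun j _ => norm_nonneg (φ j)) hi⟩
  set N : ℝ := (t.card : ℝ) with hN
  have hN0 : 0 ≤ N := Nat.cast_nonneg _
  have hden : 0 < 6 * L * N + 1 := by positivity
  set s : ℝ := d / (6 * L * N + 1) with hs
  have hs0 : 0 < s := div_pos hd hden
  have hsd : s ≤ d := by
    rw [hs]
    exact div_le_self hd.le (by nlinarith [mul_nonneg hL hN0])
  have hsN : 2 * s * L * N ≤ d / 3 := by
    have h1 : s * (6 * L * N + 1) = d := div_mul_cancel₀ d hden.ne'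
    nlinarith
  -- the steps
  let ω : ℝ → ℝ := fun t => max 0 (min 1 t)
  let θ : ℝ → ℝ := fun u => max 0 (min 1 ((C1 - u) / (C1 - C)))
  let χ : K → E → ℝ := fun i x => max 0 (min 1 (3 - 3 * dist x (i : E) / δ i))
  let step : ℝ → K → E → E := fun τ i x => ρ (x + (ω τ * (s * χ i x * θ (F x))) • φ i)
  have hωc : Continuous ω := by fun_prop
  have hω0 : ∀ u, 0 ≤ ω u := fun u => le_max_left _ _
  have hω1 : ∀ u, ω u ≤ 1 := fun u => max_le zero_le_one (min_le_left _ _)
  have hω00 : ω 0 = 0 := by simp [ω]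
  have hω11 : ω 1 = 1 := by simp [ω]
  have hθc : Continuous θ := by fun_prop
  have hθ0 : ∀ u, 0 ≤ θ u := fun u => le_max_left _ _
  have hθ1 : ∀ u, θ u ≤ 1 := fun u => max_le zero_le_one (min_le_left _ _)
  have hχc : ∀ i, Continuous (χ i) := fun i => by
    simp only [χ]
    fun_prop
  have hχ0 : ∀ i x, 0 ≤ χ i x := fun i x => le_max_left _ _
  have hχ1 : ∀ i x, χ i x ≤ 1 := fun i x => max_le zero_le_one (min_le_left _ _)
  have hstepc : ∀ i, Continuous (fun p : ℝ × E => step p.1 i p.2) := fun i => by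
    refine hρ.continuous.comp (continuous_snd.add (Continuous.smul ?_ continuous_const))
    exact (hωc.comp continuous_fst).mul ((continuous_const.mul ((hχc i).comp continuous_snd)).mul
      (hθc.comp (hF.comp continuous_snd)))
  have hfix : ∀ τ i x, ρ x = x → ρ (step τ i x) = step τ i x := fun τ i x _ => hidem _
  -- the step parameter
  have hpar00 : ∀ i x, 0 ≤ s * χ i x * θ (F x) := fun i x =>
    mul_nonneg (mul_nonneg hs0.le (hχ0 i x)) (hθ0 _)
  have hpar0 : ∀ τ i x, 0 ≤ ω τ * (s * χ i x * θ (F x)) := fun τ i x =>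
    mul_nonneg (hω0 τ) (hpar00 i x)
  have hpar1 : ∀ τ i x, ω τ * (s * χ i x * θ (F x)) ≤ s := fun τ i x => by
    have h1 : s * χ i x ≤ s := mul_le_of_le_one_right hs0.le (hχ1 i x)
    have h2 : s * χ i x * θ (F x) ≤ s :=
      (mul_le_of_le_one_right (mul_nonneg hs0.le (hχ0 i x)) (hθ1 _)).trans h1
    exact (mul_le_of_le_one_left (hpar00 i x) (hω1 τ)).trans h2
  have hmono : ∀ τ, ∀ i ∈ t, ∀ x, ρ x = x → F x ≤ F (step τ i x) := by
    intro τ i hi x hx
    by_cases hd' : dist x (i : E) < δ i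
    · have h1 := hp i x (mem_ball.2 hd') (ω τ * (s * χ i x * θ (F x)))
        ⟨hpar0 τ i x, (hpar1 τ i x).trans (hsd.trans (hdδ i hi))⟩
      have h2 : 0 ≤ ε i * (ω τ * (s * χ i x * θ (F x))) := mul_nonneg (hε i).le (hpar0 τ i x)
      exact (by linarith : F x ≤ F (x + (ω τ * (s * χ i x * θ (F x))) • φ i)).trans (hinc _)
    · have h0 : χ i x = 0 := by
        simp only [χ]
        refine max_eq_left ((min_le_right _ _).trans ?_)
        have h3 : 1 ≤ dist x (i : E) / δ i := (one_le_div (hδ i)).2 (not_lt.1 hd')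
        have h4 : 3 * dist x (i : E) / δ i = 3 * (dist x (i : E) / δ i) := mul_div_assoc _ _ _
        rw [h4]
        linarith
      simp only [step, h0, mul_zero, zero_mul, zero_smul, add_zero]
      rw [hx]
  have hgain : ∀ i ∈ t, ∀ x, ρ x = x → F x ≤ C → dist x (i : E) ≤ 2 * δ i / 3 →
      F x + e * s ≤ F (step 1 i x) := by
    intro i hi x hx hxC hdist
    have hχ : χ i x = 1 := by
      simp only [χ]
      have h3 : dist x (i : E) / δ i ≤ 2 / 3 := by
        rw [div_le_iff₀ (hδ i)]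
        linarith
      have h4 : 3 * dist x (i : E) / δ i = 3 * (dist x (i : E) / δ i) := mul_div_assoc _ _ _
      rw [h4, min_eq_left (by linarith)]
      exact max_eq_right zero_le_one
    have hθ : θ (F x) = 1 := by
      simp only [θ]
      have h3 : 1 ≤ (C1 - F x) / (C1 - C) := (one_le_div (by linarith)).2 (by linarith)
      rw [min_eq_left h3]
      exact max_eq_right zero_le_one
    have hd' : dist x (i : E) < δ i := by linarith [hδ i]
    have h1 := hp i x (mem_ball.2 hd') s ⟨hs0.le, hsd.trans (hdδ i hi)⟩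
    have h2 : e * s ≤ ε i * s := mul_le_mul_of_nonneg_right (heε i hi) hs0.le
    have h5 : step 1 i x = ρ (x + s • φ i) := by
      simp only [step, hχ, hθ, hω11, mul_one, one_mul]
    rw [h5]
    exact (by linarith : F x + e * s ≤ F (x + s • φ i)).trans (hinc _)
  have hdisp : ∀ i ∈ t, ∀ x, ρ x = x → dist (step 1 i x) x ≤ 2 * s * L := by
    intro i hi x hx
    have h1 : dist (step 1 i x) x =
        dist (ρ (x + (ω 1 * (s * χ i x * θ (F x))) • φ i)) (ρ x) := by
      rw [hx]
    rw [h1]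
    refine (hρ.dist_le_mul _ _).trans ?_
    have h2 : dist (x + (ω 1 * (s * χ i x * θ (F x))) • φ i) x =
        (ω 1 * (s * χ i x * θ (F x))) * ‖φ i‖ := by
      rw [dist_eq_norm, add_sub_cancel_left, norm_smul, Real.norm_of_nonneg (hpar0 1 i x)]
    rw [h2]
    have h3 : (ω 1 * (s * χ i x * θ (F x))) * ‖φ i‖ ≤ s * L :=
      mul_le_mul (hpar1 1 i x) (hLφ i hi) (norm_nonneg _) hs0.le
    have h4 : ((2 : NNReal) : ℝ) = 2 := rfl
    rw [h4]
    linarith
  have hstepconst : ∀ τ x, ρ x = x → C1 ≤ F x → ∀ i, step τ i x = x := by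
    intro τ x hx hx1 i
    have hθ : θ (F x) = 0 := by
      simp only [θ]
      refine max_eq_left ((min_le_right _ _).trans ?_)
      exact div_nonpos_of_nonpos_of_nonneg (by linarith) (by linarith)
    simp only [step, hθ, mul_zero, zero_smul, add_zero]
    exact hx
  have hstep0 : ∀ x, ρ x = x → ∀ i, step 0 i x = x := by
    intro x hx i
    simp only [step, hω00, zero_mul, zero_smul, add_zero]
    exact hx
  -- the gain along a list
  have hrunmono : ∀ τ, ∀ l : List K, (∀ i ∈ l, i ∈ t) → ∀ x, ρ x = x →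
      F x ≤ F (run (step τ) l x) := by
    intro τ l
    induction l with
    | nil => exact fun _ x _ => le_rfl
    | cons j l ih =>
      intro hl x hx
      exact (hmono τ j (hl j (by simp)) x hx).trans
        (ih (fun i hi => hl i (by simp [hi])) _ (hfix τ j x hx))
  have hrungain : ∀ l : List K, (∀ i ∈ l, i ∈ t) → ∀ i ∈ l, ∀ x, ρ x = x →
      dist x (i : E) + 2 * s * L * l.length ≤ 2 * δ i / 3 →
      min C (F x + e * s) ≤ F (run (step 1) l x) := by
    intro l
    induction l with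
    | nil =>
      intro _ i hi
      simp at hi
    | cons j l ih =>
      intro hl i hi x hx hdist
      have hl' : ∀ i ∈ l, i ∈ t := fun i hi => hl i (by simp [hi])
      have hjt : j ∈ t := hl j (by simp)
      have hlen : ((j :: l).length : ℝ) = l.length + 1 := by simp
      rw [hlen] at hdist
      have hsL : 0 ≤ 2 * s * L := by positivity
      have hll : 0 ≤ (l.length : ℝ) := Nat.cast_nonneg _
      have hprod : 0 ≤ 2 * s * L * l.length := mul_nonneg hsL hll
      have hfx := hfix 1 j x hx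
      rcases List.mem_cons.1 hi with rfl | hil
      · have h2 := hrunmono 1 l hl' _ hfx
        by_cases hxC : F x ≤ C
        · have h1 := hgain i hjt x hx hxC (by nlinarith)
          exact (min_le_right _ _).trans (h1.trans h2)
        · exact (min_le_left _ _).trans
            ((not_le.1 hxC).le.trans ((hmono 1 i hjt x hx).trans h2))
      · have h1 : dist (step 1 j x) (i : E) ≤ 2 * s * L + dist x (i : E) :=
          (dist_triangle _ x _).trans (add_le_add_left (hdisp j hjt x hx) _)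
        have h2 := ih hl' i hil (step 1 j x) hfx (by nlinarith)
        refine le_trans ?_ h2
        exact min_le_min le_rfl (by linarith [hmono 1 j hjt x hx])
  -- the whole deformation
  let η0 : ℝ → E → E := fun τ => run (step τ) t.toList
  have hmemt : ∀ i ∈ t.toList, i ∈ t := fun i hi => Finset.mem_toList.1 hi
  have hrunc : ∀ l : List K, Continuous (fun p : ℝ × E => run (step p.1) l p.2) := by
    intro l
    induction l with
    | nil => exact continuous_snd
    | cons i l ih => exact ih.comp (continuous_fst.prodMk (hstepc i))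
  have hη0c : Continuous (fun p : ℝ × E => η0 p.1 p.2) := hrunc _
  have hη0fix : ∀ τ x, ρ x = x → ρ (η0 τ x) = η0 τ x := fun τ x hx => run_fix (hfix τ) _ hx
  have hη0mono : ∀ τ x, ρ x = x → F x ≤ F (η0 τ x) := fun τ x hx => hrunmono τ _ hmemt x hx
  have hη0const : ∀ τ x, ρ x = x → C1 ≤ F x → η0 τ x = x := fun τ x hx hx1 =>
    run_const (hstepconst τ x hx hx1) _
  have hη00 : ∀ x, ρ x = x → η0 0 x = x := fun x hx => run_const (hstep0 x hx) _
  have hη0gain : ∀ x, ρ x = x → m0 ≤ F x → min C (F x + e * s) ≤ F (η0 1 x) := by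
    intro x hx hm
    by_cases hxC : F x ≤ C
    · have hxK : x ∈ K := ⟨⟨hx, hm⟩, hxC⟩
      obtain ⟨i, hi, hxi⟩ := mem_iUnion₂.1 (ht hxK)
      refine hrungain _ hmemt i (Finset.mem_toList.2 hi) x hx ?_
      have h1 : dist x (i : E) < δ i / 3 := mem_ball.1 hxi
      have h2 : (t.toList.length : ℝ) = N := by rw [Finset.length_toList]
      rw [h2]
      linarith [hdδ i hi]
    · exact (min_le_left _ _).trans ((not_le.1 hxC).le.trans (hη0mono 1 x hx))
  obtain ⟨k, hk⟩ := exists_nat_ge ((C - m0) / (e * s))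
  have hes : 0 < e * s := mul_pos he hs0
  have hk' : C ≤ m0 + k * (e * s) := by
    rw [div_le_iff₀ hes] at hk
    linarith
  have hitc : ∀ j : ℕ, Continuous (fun p : ℝ × E => (η0 p.1)^[j] p.2) := by
    intro j
    induction j with
    | zero => exact continuous_snd
    | succ j ih =>
      have : (fun p : ℝ × E => (η0 p.1)^[j + 1] p.2) =
          (fun p : ℝ × E => η0 p.1 p.2) ∘ fun p : ℝ × E => (p.1, (η0 p.1)^[j] p.2) := by
        funext p
        simp only [Function.comp, Function.iterate_succ_apply']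
      rw [this]
      exact hη0c.comp (continuous_fst.prodMk ih)
  refine ⟨fun τ => (η0 τ)^[k], hitc k, fun x hx => ?_, fun τ x hx => ?_, fun τ x hx => ?_,
    fun τ x hx hx1 => ?_, fun x hx hm => ?_⟩
  · exact Function.iterate_fixed (hη00 x hx) k
  · exact Function.Iterate.rec (fun y => ρ y = y) hx (fun y hy => hη0fix τ y hy) k
  · have h : ∀ j : ℕ, ρ ((η0 τ)^[j] x) = (η0 τ)^[j] x ∧ F x ≤ F ((η0 τ)^[j] x) := by
      intro j
      induction j with
      | zero => exact ⟨hx, le_rfl⟩
      | succ j ih =>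
        rw [Function.iterate_succ_apply']
        exact ⟨hη0fix τ _ ih.1, ih.2.trans (hη0mono τ _ ih.1)⟩
    exact (h k).2
  · exact Function.iterate_fixed (hη0const τ x hx hx1) k
  · have hmain : ∀ j : ℕ, ρ ((η0 1)^[j] x) = (η0 1)^[j] x ∧ m0 ≤ F ((η0 1)^[j] x) ∧
        min C (m0 + j * (e * s)) ≤ F ((η0 1)^[j] x) := by
      intro j
      induction j with
      | zero =>
        refine ⟨hx, hm, ?_⟩
        simp only [Function.iterate_zero, id]
        refine (min_le_right _ _).trans ?_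
        simp only [Nat.cast_zero, zero_mul, add_zero]
        exact hm
      | succ j ih =>
        obtain ⟨h1, h2, h3⟩ := ih
        rw [Function.iterate_succ_apply']
        refine ⟨hη0fix 1 _ h1, h2.trans (hη0mono 1 _ h1), ?_⟩
        have h4 := hη0gain _ h1 h2
        refine le_trans ?_ h4
        refine le_min (min_le_left _ _) ?_
        rcases le_total C (m0 + j * (e * s)) with h5 | h5
        · rw [min_eq_left h5] at h3
          exact (min_le_left _ _).trans (by linarith)
        · rw [min_eq_right h5] at h3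
          refine (min_le_right _ _).trans ?_
          push_cast
          linarith
    have h := (hmain k).2.2
    rwa [min_eq_left hk'] at h

end Pool.Agent.Lib.MP_b0d2bf_gt
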