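import Mathlib
import Pool.Agent.Lib.MP_b0d2bf_gt.QMom

set_option autoImplicit false

/-!
The functional is bounded by the second moments.
-/

namespace Pool.Agent.Lib.MP_b0d2bf_gt

open MeasureTheory Metric Set Filter Topology

private lemma qup_abs {n : ℕ} [NeZero n] {h : Sph n → ℝ} (hc : Continuous h)
    (h0 : ∀ v, 0 < h v) (he : ∀ v, h (-v) = h v) (u v : Sph n) :
    |(gN h (u : Eu n))⁻¹ * inner ℝ (u : Eu n) (v : Eu n)| ≤ h v := by
  have h1 := bd_mem_wulff hc h0 u
  have h2 := neg_mem_wulff he h1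
  have h3 := h1 v
  have h4 := h2 v
  rw [inner_neg_left] at h4
  rw [real_inner_smul_left] at h3 h4
  rw [abs_le]
  exact ⟨by linarith, h3⟩

private lemma qup_holder {n : ℕ} [NeZero n] {h : Sph n → ℝ} (hc : Continuous h)
    (h0 : ∀ v, 0 < h v) {q : ℝ} (hq : 2 < q) :
    ∫ u : Sph n, (gN h (u : Eu n))⁻¹ ^ (q - 2) ∂(sg n) ≤
      (II q h) ^ ((q - 2) / q) * ((sg n).real univ) ^ (2 / q) := by
  have hq0 : 0 < q := by linarith
  have hq2 : 0 < q - 2 := by linarith
  have hpq : (q / (q - 2)).HolderConjugate (q / 2) := by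
    rw [Real.holderConjugate_iff]
    refine ⟨?_, ?_⟩
    · rw [lt_div_iff₀ hq2]
      linarith
    · field_simp
      ring
  have hρ : ∀ u : Sph n, 0 < (gN h (u : Eu n))⁻¹ := fun u =>
    inv_pos.2 (gN_pos hc h0 (sph_ne_zero u))
  have h1 := integral_mul_le_Lp_mul_Lq_of_nonneg (μ := sg n) hpq
    (f := fun u : Sph n => (gN h (u : Eu n))⁻¹ ^ (q - 2)) (g := fun _ : Sph n => (1 : ℝ))
    (Eventually.of_forall fun u => (Real.rpow_pos_of_pos (hρ u) _).le)
    (Eventually.of_forall fun u => zero_le_one)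
    ((continuous_radpow hc h0 (q - 2)).memLp_of_hasCompactSupport
      (HasCompactSupport.of_compactSpace _))
    (continuous_const.memLp_of_hasCompactSupport (HasCompactSupport.of_compactSpace _))
  simp only [mul_one, Real.one_rpow, integral_const, smul_eq_mul, mul_one, one_div, inv_div] at h1
  have h2 : (fun u : Sph n => ((gN h (u : Eu n))⁻¹ ^ (q - 2)) ^ (q / (q - 2))) =
      fun u : Sph n => (gN h (u : Eu n))⁻¹ ^ q := by
    funext u
    rw [← Real.rpow_mul (hρ u).le]
    congr 1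
    field_simp
  rw [h2] at h1
  exact h1

private lemma qup_point {n : ℕ} [NeZero n] {f : C(Sph n, ℝ)} {q : ℝ} (hq : 2 < q)
    (he : ∀ v, ex f (-v) = ex f v) (v : Sph n) :
    (1 / q) * Real.log (II q (ex f)) - Real.log (ex f v) ≤
      -(1 / 2) * Real.log (Lam q f v) + (1 / q) * Real.log ((sg n).real univ) := by
  have hc := continuous_ex f
  have h0 := ex_pos f
  have hq0 : 0 < q := by linarith
  have hII := II_pos hc h0 q
  have hρ : ∀ u : Sph n, 0 < (gN (ex f) (u : Eu n))⁻¹ := fun u =>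
    inv_pos.2 (gN_pos hc h0 (sph_ne_zero u))
  have hσ : 0 < (sg n).real univ := by
    rw [Measure.real, ENNReal.toReal_pos_iff]
    exact ⟨Measure.measure_univ_pos.2 sg_ne_zero, measure_lt_top _ _⟩
  have h1 : Lam q f v = (II q (ex f))⁻¹ * ∫ u : Sph n, (gN (ex f) (u : Eu n))⁻¹ ^ q *
      (inner ℝ (u : Eu n) (v : Eu n) * inner ℝ (u : Eu n) (v : Eu n)) ∂(sg n) :=
    inner_mom f _ _
  have hcin : Continuous fun u : Sph n => inner ℝ (u : Eu n) (v : Eu n) :=
    continuous_subtype_val.inner continuous_const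
  have h2 : ∫ u : Sph n, (gN (ex f) (u : Eu n))⁻¹ ^ q *
      (inner ℝ (u : Eu n) (v : Eu n) * inner ℝ (u : Eu n) (v : Eu n)) ∂(sg n) ≤
      (ex f v) ^ 2 * ∫ u : Sph n, (gN (ex f) (u : Eu n))⁻¹ ^ (q - 2) ∂(sg n) := by
    rw [← integral_const_mul]
    refine integral_mono ?_ ?_ fun u => ?_
    · exact ((continuous_radpow hc h0 q).mul (hcin.mul hcin)).integrable_of_hasCompactSupport
        (HasCompactSupport.of_compactSpace _)
    · exact (continuous_const.mul (continuous_radpow hc h0 (q - 2))).integrable_of_hasCompactSupport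
        (HasCompactSupport.of_compactSpace _)
    · have h3 := qup_abs hc h0 he u v
      have h4 : ((gN (ex f) (u : Eu n))⁻¹ * inner ℝ (u : Eu n) (v : Eu n)) ^ 2 ≤ ex f v ^ 2 := by
        rw [← sq_abs]
        exact pow_le_pow_left₀ (abs_nonneg _) h3 2
      have h5 : (gN (ex f) (u : Eu n))⁻¹ ^ q =
          (gN (ex f) (u : Eu n))⁻¹ ^ (q - 2) * (gN (ex f) (u : Eu n))⁻¹ ^ 2 := by
        have h6 := Real.rpow_add (hρ u) (q - 2) 2
        rw [sub_add_cancel] at h6
        rw [h6]
        norm_num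
      change (gN (ex f) (u : Eu n))⁻¹ ^ q *
        (inner ℝ (u : Eu n) (v : Eu n) * inner ℝ (u : Eu n) (v : Eu n)) ≤
        ex f v ^ 2 * (gN (ex f) (u : Eu n))⁻¹ ^ (q - 2)
      rw [h5]
      have h7 := mul_le_mul_of_nonneg_left h4 (Real.rpow_pos_of_pos (hρ u) (q - 2)).le
      calc _ = (gN (ex f) (u : Eu n))⁻¹ ^ (q - 2) *
            ((gN (ex f) (u : Eu n))⁻¹ * inner ℝ (u : Eu n) (v : Eu n)) ^ 2 := by ring
        _ ≤ _ := h7
        _ = _ := by ring
  have h3 := qup_holder hc h0 hq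
  have h4 : Lam q f v ≤ (II q (ex f))⁻¹ * ((ex f v) ^ 2 *
      ((II q (ex f)) ^ ((q - 2) / q) * ((sg n).real univ) ^ (2 / q))) := by
    rw [h1]
    refine mul_le_mul_of_nonneg_left (h2.trans ?_) (inv_pos.2 hII).le
    exact mul_le_mul_of_nonneg_left h3 (sq_nonneg _)
  have hL := Lam_pos (q := q) f v
  have h5 := Real.log_le_log hL h4
  have e1 := Real.rpow_pos_of_pos hII ((q - 2) / q)
  have e2 := Real.rpow_pos_of_pos hσ (2 / q)
  rw [Real.log_mul (inv_pos.2 hII).ne' (mul_pos (pow_pos (h0 v) 2) (mul_pos e1 e2)).ne',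
    Real.log_mul (pow_pos (h0 v) 2).ne' (mul_pos e1 e2).ne', Real.log_mul e1.ne' e2.ne',
    Real.log_inv, Real.log_pow, Real.log_rpow hII, Real.log_rpow hσ] at h5
  have h6 : (q - 2) / q * Real.log (II q (ex f)) =
      Real.log (II q (ex f)) - 2 * ((1 / q) * Real.log (II q (ex f))) := by
    field_simp
  have h7 : 2 / q * Real.log ((sg n).real univ) = 2 * ((1 / q) * Real.log ((sg n).real univ)) := by
    ring
  rw [h6, h7] at h5
  push_cast at h5
  linarith

theorem Psi_le_Lam {n : ℕ} [NeZero n] {G : Subgroup (Eu n ≃ₗᵢ[ℝ] Eu n)} {q : ℝ} (hq : 2 < q)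
    (μ : Measure (Sph n)) [IsProbabilityMeasure μ] {f : C(Sph n, ℝ)} (hB : Bd G (ex f)) :
    Psi μ q (ex f) ≤ -(1 / 2) * ∫ v, Real.log (Lam q f v) ∂μ +
      (1 / q) * Real.log ((sg n).real univ) := by
  have hc := continuous_ex f
  have h0 := ex_pos f
  have i1 : Integrable (fun v => Real.log (ex f v)) μ :=
    (hc.log fun v => (h0 v).ne').integrable_of_hasCompactSupport
      (HasCompactSupport.of_compactSpace _)
  have i2 : Integrable (fun v => Real.log (Lam q f v)) μ :=
    ((continuous_Lam (q := q) f).log fun v => (Lam_pos f v).ne').integrable_of_hasCompactSupport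
      (HasCompactSupport.of_compactSpace _)
  have h1 : ∫ v, ((1 / q) * Real.log (II q (ex f)) - Real.log (ex f v)) ∂μ ≤
      ∫ v, (-(1 / 2) * Real.log (Lam q f v) + (1 / q) * Real.log ((sg n).real univ)) ∂μ :=
    integral_mono ((integrable_const _).sub i1) ((i2.const_mul _).add (integrable_const _))
      fun v => qup_point hq hB.even v
  have h2 : ∫ v, -(1 / 2) * Real.log (Lam q f v) ∂μ = -(1 / 2) * ∫ v, Real.log (Lam q f v) ∂μ :=
    integral_const_mul _ _
  rw [integral_sub (integrable_const _) i1, integral_add (i2.const_mul _) (integrable_const _),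
    h2, integral_const, integral_const, probReal_univ, one_smul, one_smul] at h1
  exact h1

end Pool.Agent.Lib.MP_b0d2bf_gt
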