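import Mathlib
import Pool.Agent.Lib.MP_b0d2bf_gt.QDeform
import Pool.Agent.Lib.MP_b0d2bf_gt.QCap
import Pool.Agent.Lib.MP_b0d2bf_gt.QUp

set_option autoImplicit false

/-!
The penalised functional on the space of even continuous functions, and its deformation.
-/

namespace Pool.Agent.Lib.MP_b0d2bf_gt

open MeasureTheory Metric Set Filter Topology

section QFun

variable {n : ℕ} [NeZero n] {q : ℝ}

/-- The homotopy version of `deform_XS`. -/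
theorem deformH_XS {G : Subgroup (Eu n ≃ₗᵢ[ℝ] Eu n)} (hneg : LinearIsometryEquiv.neg ℝ ∈ G)
    {F : XS G → ℝ} (hF : Continuous F) (hinc : ∀ f, F f ≤ F (rhoX f))
    (hcpt : ∀ c, IsCompact {f : XS G | rhoX f = f ∧ c ≤ F f}) {m0 C C1 : ℝ} (hC : C < C1)
    (hpush : ∀ p : XS G, rhoX p = p → F p ≤ C → ∃ φ : XS G, ∃ δ > 0, ∃ ε > 0,
      ∀ x ∈ ball p δ, ∀ s ∈ Icc (0:ℝ) δ, F x + ε * s ≤ F (x + s • φ)) :
    ∃ H : ℝ → XS G → XS G, Continuous (fun p : ℝ × XS G => H p.1 p.2) ∧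
      (∀ x, rhoX x = x → H 0 x = x) ∧
      (∀ t x, rhoX x = x → rhoX (H t x) = H t x) ∧
      (∀ t x, rhoX x = x → F x ≤ F (H t x)) ∧
      (∀ t x, rhoX x = x → C1 ≤ F x → H t x = x) ∧
      (∀ x, rhoX x = x → m0 ≤ F x → C ≤ F (H 1 x)) := by
  have h1 := @deformH (XS G) _ _ F rhoX hF lipschitz_rhoX (rhoX_idem hneg) hinc hcpt m0 C C1 hC
    (fun p hp _ hpC => hpush p hp hpC)
  exact h1

private lemma qf_Uf (μ : Measure (Sph n)) [IsProbabilityMeasure μ] {D : Sph n → XS (pm n)}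
    (hD : Continuous D) :
    ∃ M1 : ℝ, ∀ v, Uf (sgu n) μ ((D v : XS (pm n)) : C(Sph n, ℝ)) ≤ M1 := by
  have hσp : IsProbabilityMeasure (sgu n) := isProb_sgu
  have h1 : Continuous fun f : C(Sph n, ℝ) => Uf (sgu n) μ f := XDF.continuous_Uf
  have h2 : Continuous fun v : Sph n => ((D v : XS (pm n)) : C(Sph n, ℝ)) :=
    continuous_subtype_val.comp hD
  obtain ⟨M1, hM1⟩ := (isCompact_range (h1.comp h2)).bddAbove
  exact ⟨M1, fun v => hM1 ⟨v, rfl⟩⟩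

private lemma qf_le (μ : Measure (Sph n)) (M : ℝ) (f : C(Sph n, ℝ)) :
    FM q μ (sgu n) M f ≤ Psi μ q (ex f) := by
  have := pen_nonneg M (Uf (sgu n) μ f)
  unfold FM
  linarith

private lemma qf_eq {μ : Measure (Sph n)} {M : ℝ} {f : C(Sph n, ℝ)} (h : Uf (sgu n) μ f ≤ M) :
    FM q μ (sgu n) M f = Psi μ q (ex f) := by
  unfold FM
  rw [pen_zero h, sub_zero]

/-- The penalised functional. -/
theorem exists_pen (hqn : (n : ℝ) < q) (μ : Measure (Sph n)) [IsProbabilityMeasure μ]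
    (hμ : MInv (pm n) μ) (hnd : Nondeg (pm n) q μ)
    (hno : ¬ ∃ g : Sph n → ℝ, Bd (pm n) g ∧ MM q g = ENNReal.ofReal (II q g) • μ) (C : ℝ)
    {δ : ℝ} (hδ : 0 < δ) :
    ∃ F : XS (pm n) → ℝ, Continuous F ∧ (∀ f, F f ≤ F (rhoX f)) ∧
      (∀ c, IsCompact {f : XS (pm n) | rhoX f = f ∧ c ≤ F f}) ∧
      (∀ f : XS (pm n), F f ≤ Psi μ q (ex (f : C(Sph n, ℝ)))) ∧
      (∀ v, F (dc δ hδ v) = Psi μ q (dcs δ v)) ∧
      (∀ p : XS (pm n), rhoX p = p → F p ≤ C → ∃ φ : XS (pm n), ∃ δ > 0, ∃ ε > 0,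
        ∀ x ∈ ball p δ, ∀ s ∈ Icc (0:ℝ) δ, F x + ε * s ≤ F (x + s • φ)) := by
  have hn : (0 : ℝ) < n := by exact_mod_cast NeZero.pos n
  have hq0 : 0 < q := hn.trans hqn
  have hσp : IsProbabilityMeasure (sgu n) := isProb_sgu
  obtain ⟨M0, hpush⟩ := exists_push (neg_mem_pm n) hqn μ hμ hnd hno C
  obtain ⟨M1, hM1⟩ := qf_Uf μ (continuous_dc (n := n) hδ)
  have hc : Continuous fun f : XS (pm n) => FM q μ (sgu n) (max M0 M1) (f : C(Sph n, ℝ)) :=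
    (continuous_FM hq0 (max M0 M1)).comp continuous_subtype_val
  refine ⟨fun f => FM q μ (sgu n) (max M0 M1) (f : C(Sph n, ℝ)), hc,
    fun f => FM_le_rhoX hq0 μ (sgu n) (max M0 M1) f,
    cpt_FM (neg_mem_pm n) hqn μ (max M0 M1), fun f => qf_le μ (max M0 M1) f, fun v => ?_,
    hpush (max M0 M1) (le_max_left _ _)⟩
  have h1 := qf_eq (q := q) ((hM1 v).trans (le_max_right M0 M1))
  rw [ex_dc] at h1
  exact h1

end QFun

end Pool.Agent.Lib.MP_b0d2bf_gt
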