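import Mathlib
import Pool.Agent.Lib.MP_b0d2bf_gt.QDefs

set_option autoImplicit false

/-!
The logarithmic potential and its truncations.
-/

namespace Pool.Agent.Lib.MP_b0d2bf_gt

open MeasureTheory Metric Set Filter Topology

section QPot

variable {n : ℕ} {μ : Measure (Sph n)} [IsFiniteMeasure μ]

private theorem qp_le_one (u v : Sph n) : |inner ℝ (u : Eu n) (v : Eu n)| ≤ 1 := by
  have h := abs_real_inner_le_norm (u : Eu n) (v : Eu n)
  rwa [norm_eq_of_mem_sphere, norm_eq_of_mem_sphere, one_mul] at h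

private theorem qp_cont (v : Sph n) :
    Continuous fun u : Sph n => |inner ℝ (u : Eu n) (v : Eu n)| := by
  fun_prop

private theorem qp_cont' {δ : ℝ} (hδ : 0 < δ) (v : Sph n) :
    Continuous fun u : Sph n => Real.log (max |inner ℝ (u : Eu n) (v : Eu n)| δ) :=
  ((qp_cont v).max continuous_const).log fun u => (lt_max_of_lt_right hδ).ne'

private theorem qp_cont2 {δ : ℝ} (hδ : 0 < δ) (u : Sph n) :
    Continuous fun v : Sph n => Real.log (max |inner ℝ (u : Eu n) (v : Eu n)| δ) := by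
  have h : Continuous fun v : Sph n => |inner ℝ (u : Eu n) (v : Eu n)| := by
    fun_prop
  exact (h.max continuous_const).log fun v => (lt_max_of_lt_right hδ).ne'

private theorem qp_bound {δ : ℝ} (hδ : 0 < δ) (u v : Sph n) :
    ‖Real.log (max |inner ℝ (u : Eu n) (v : Eu n)| δ)‖ ≤ |Real.log δ| := by
  have h1 := qp_le_one u v
  rw [Real.norm_eq_abs]
  by_cases hd : δ ≤ 1
  · have h2 : Real.log δ ≤ Real.log (max |inner ℝ (u : Eu n) (v : Eu n)| δ) :=
      Real.log_le_log hδ (le_max_right _ _)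
    have h3 : Real.log (max |inner ℝ (u : Eu n) (v : Eu n)| δ) ≤ 0 :=
      Real.log_nonpos ((abs_nonneg _).trans (le_max_left _ _)) (max_le h1 hd)
    rw [abs_of_nonpos h3, abs_of_nonpos (h2.trans h3)]
    linarith
  · rw [max_eq_right (h1.trans (not_le.1 hd).le)]

private theorem qp_int {δ : ℝ} (hδ : 0 < δ) (v : Sph n) :
    Integrable (fun u : Sph n => Real.log (max |inner ℝ (u : Eu n) (v : Eu n)| δ)) μ :=
  Integrable.of_bound (qp_cont' hδ v).aestronglyMeasurable |Real.log δ|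
    (Eventually.of_forall fun u => qp_bound hδ u v)

theorem potd_nonneg {δ : ℝ} (hδ1 : δ ≤ 1) (v : Sph n) : 0 ≤ potd μ δ v := by
  unfold potd
  rw [neg_nonneg]
  refine integral_nonpos fun u => ?_
  exact Real.log_nonpos ((abs_nonneg _).trans (le_max_left _ _)) (max_le (qp_le_one u v) hδ1)

theorem continuous_potd {δ : ℝ} (hδ : 0 < δ) : Continuous (potd μ δ) := by
  unfold potd
  refine Continuous.neg ?_
  exact continuous_of_dominated (fun v => (qp_cont' hδ v).aestronglyMeasurable)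
    (fun v => Eventually.of_forall fun u => qp_bound hδ u v) (integrable_const |Real.log δ|)
    (Eventually.of_forall fun u => qp_cont2 hδ u)

theorem potd_anti {δ δ' : ℝ} (hδ : 0 < δ) (h : δ ≤ δ') (v : Sph n) :
    potd μ δ' v ≤ potd μ δ v := by
  unfold potd
  refine neg_le_neg (integral_mono (qp_int hδ v) (qp_int (hδ.trans_le h) v) fun u => ?_)
  exact Real.log_le_log (lt_max_of_lt_right hδ) (max_le_max_left _ h)

private theorem qp_ofReal {δ : ℝ} (hδ : 0 < δ) (hδ1 : δ ≤ 1) (v : Sph n) :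
    ENNReal.ofReal (potd μ δ v) = ∫⁻ u : Sph n,
      ENNReal.ofReal (-Real.log (max |inner ℝ (u : Eu n) (v : Eu n)| δ)) ∂μ := by
  unfold potd
  rw [← integral_neg]
  refine ofReal_integral_eq_lintegral_ofReal (qp_int hδ v).neg (Eventually.of_forall fun u => ?_)
  simp only [Pi.zero_apply, Pi.neg_apply, neg_nonneg]
  exact Real.log_nonpos ((abs_nonneg _).trans (le_max_left _ _)) (max_le (qp_le_one u v) hδ1)

private theorem qp_nlog {δ a : ℝ} (ha : 0 ≤ a) :
    ENNReal.ofReal (-Real.log (max a δ)) ≤ nlog a := by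
  unfold nlog
  split_ifs with h
  · exact le_top
  · refine ENNReal.ofReal_le_ofReal (neg_le_neg ?_)
    exact Real.log_le_log (lt_of_le_of_ne ha (Ne.symm h)) (le_max_left _ _)

theorem potd_le_pot {δ : ℝ} (hδ : 0 < δ) (hδ1 : δ ≤ 1) (v : Sph n) :
    ENNReal.ofReal (potd μ δ v) ≤ pot μ v := by
  rw [qp_ofReal hδ hδ1 v]
  exact lintegral_mono fun u => qp_nlog (abs_nonneg _)

private theorem qp_mono {a : ℝ} : Monotone fun k : ℕ =>
    ENNReal.ofReal (-Real.log (max a (1 / ((k : ℝ) + 1)))) := by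
  intro k l hkl
  refine ENNReal.ofReal_le_ofReal (neg_le_neg ?_)
  have h1 : (0 : ℝ) < 1 / ((l : ℝ) + 1) := by positivity
  refine Real.log_le_log (lt_max_of_lt_right h1) (max_le_max_left _ ?_)
  have h2 : (k : ℝ) ≤ l := by exact_mod_cast hkl
  exact one_div_le_one_div_of_le (by positivity) (by linarith)

private theorem qp_tendsto {a : ℝ} (ha : 0 ≤ a) : Tendsto (fun k : ℕ =>
    ENNReal.ofReal (-Real.log (max a (1 / ((k : ℝ) + 1))))) atTop (𝓝 (nlog a)) := by
  unfold nlog
  split_ifs with h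
  · subst h
    have h1 : Tendsto (fun k : ℕ => Real.log ((k : ℝ) + 1)) atTop atTop :=
      Real.tendsto_log_atTop.comp
        (tendsto_atTop_add_const_right _ _ tendsto_natCast_atTop_atTop)
    refine (ENNReal.tendsto_ofReal_atTop.comp h1).congr fun k => ?_
    have h2 : (0 : ℝ) < 1 / ((k : ℝ) + 1) := by positivity
    simp only [Function.comp_apply]
    rw [max_eq_right h2.le, one_div, Real.log_inv, neg_neg]
  · have ha' : 0 < a := lt_of_le_of_ne ha (Ne.symm h)
    refine tendsto_const_nhds.congr' ?_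
    have h1 : Tendsto (fun k : ℕ => 1 / ((k : ℝ) + 1)) atTop (𝓝 0) :=
      tendsto_one_div_add_atTop_nhds_zero_nat
    filter_upwards [h1.eventually (gt_mem_nhds ha')] with k hk
    rw [max_eq_left hk.le]

private theorem qp_iSup {a : ℝ} (ha : 0 ≤ a) :
    ⨆ k : ℕ, ENNReal.ofReal (-Real.log (max a (1 / ((k : ℝ) + 1)))) = nlog a :=
  iSup_eq_of_tendsto qp_mono (qp_tendsto ha)

private theorem qp_le1 (k : ℕ) : 1 / ((k : ℝ) + 1) ≤ 1 := by
  rw [div_le_one (by positivity)]
  have : (0 : ℝ) ≤ k := Nat.cast_nonneg k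
  linarith

theorem pot_eq_iSup (v : Sph n) :
    pot μ v = ⨆ k : ℕ, ENNReal.ofReal (potd μ (1 / ((k : ℝ) + 1)) v) := by
  have h1 : ∀ k : ℕ, (0 : ℝ) < 1 / ((k : ℝ) + 1) := fun k => by positivity
  simp_rw [fun k : ℕ => qp_ofReal (μ := μ) (h1 k) (qp_le1 k) v]
  unfold pot
  rw [← lintegral_iSup]
  · refine lintegral_congr fun u => ?_
    exact (qp_iSup (abs_nonneg _)).symm
  · intro k
    exact (qp_cont' (h1 k) v).neg.measurable.ennreal_ofReal
  · intro k l hkl u
    exact qp_mono hkl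

theorem lsc_pot : LowerSemicontinuous (pot μ) := by
  have h : pot μ = fun v => ⨆ k : ℕ, ENNReal.ofReal (potd μ (1 / ((k : ℝ) + 1)) v) :=
    funext fun v => pot_eq_iSup v
  rw [h]
  refine lowerSemicontinuous_iSup fun k => ?_
  have h1 : (0 : ℝ) < 1 / ((k : ℝ) + 1) := by positivity
  exact (ENNReal.continuous_ofReal.comp (continuous_potd h1)).lowerSemicontinuous

theorem wall {K : Set (Sph n)} (hK : IsCompact K) {b : ℝ}
    (h : ∀ v ∈ K, ENNReal.ofReal b < pot μ v) :
    ∃ a > b, ∃ δ0 > 0, ∀ δ : ℝ, 0 < δ → δ ≤ δ0 → ∀ v ∈ K, a ≤ potd μ δ v := by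
  have h1 : ∀ k : ℕ, (0 : ℝ) < 1 / ((k : ℝ) + 1) := fun k => by positivity
  have h2 : ∀ {k l : ℕ}, k ≤ l → 1 / ((l : ℝ) + 1) ≤ 1 / ((k : ℝ) + 1) := by
    intro k l hkl
    have h2 : (k : ℝ) ≤ l := by exact_mod_cast hkl
    exact one_div_le_one_div_of_le (by positivity) (by linarith)
  obtain ⟨k, hk⟩ := hK.elim_directed_cover
    (fun k : ℕ => {v : Sph n | b + 1 / ((k : ℝ) + 1) < potd μ (1 / ((k : ℝ) + 1)) v})
    (fun k => isOpen_lt continuous_const (continuous_potd (h1 k))) (by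
      intro v hv
      have h3 := h v hv
      rw [pot_eq_iSup, lt_iSup_iff] at h3
      obtain ⟨k, hk⟩ := h3
      have h4 : b < potd μ (1 / ((k : ℝ) + 1)) v := by
        by_contra hcon
        exact absurd hk (not_lt.2 (ENNReal.ofReal_le_ofReal (not_lt.1 hcon)))
      obtain ⟨m, hm⟩ := exists_nat_one_div_lt (sub_pos.2 h4)
      rw [mem_iUnion]
      refine ⟨max k m, ?_⟩
      have h5 := h2 (le_max_left k m)
      have h6 := h2 (le_max_right k m)
      have h7 := potd_anti (μ := μ) (h1 (max k m)) h5 v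
      show b + 1 / (((max k m : ℕ) : ℝ) + 1) < potd μ (1 / (((max k m : ℕ) : ℝ) + 1)) v
      linarith) (by
      refine Monotone.directed_le fun k l hkl v hv => ?_
      have h5 := h2 hkl
      have h7 := potd_anti (μ := μ) (h1 l) h5 v
      have h8 : b + 1 / ((k : ℝ) + 1) < potd μ (1 / ((k : ℝ) + 1)) v := hv
      show b + 1 / ((l : ℝ) + 1) < potd μ (1 / ((l : ℝ) + 1)) v
      linarith)
  refine ⟨b + 1 / ((k : ℝ) + 1), by linarith [h1 k], 1 / ((k : ℝ) + 1), h1 k,
    fun δ hδ hδ1 v hv => ?_⟩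
  have h3 : b + 1 / ((k : ℝ) + 1) < potd μ (1 / ((k : ℝ) + 1)) v := hk hv
  exact h3.le.trans (potd_anti hδ hδ1 v)

private theorem qp_meas : Measurable nlog :=
  Measurable.ite (measurableSet_singleton (0 : ℝ)) measurable_const
    (Real.measurable_log.neg.ennreal_ofReal)

theorem pot_fin {v : Sph n} (h : pot μ v ≠ ⊤) :
    μ {u : Sph n | inner ℝ (u : Eu n) (v : Eu n) = (0 : ℝ)} = 0 ∧
      Integrable (fun u : Sph n => Real.log |inner ℝ (u : Eu n) (v : Eu n)|) μ ∧
      - ∫ u : Sph n, Real.log |inner ℝ (u : Eu n) (v : Eu n)| ∂μ = (pot μ v).toReal := by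
  have hm : Measurable fun u : Sph n => nlog |inner ℝ (u : Eu n) (v : Eu n)| :=
    qp_meas.comp (qp_cont v).measurable
  have hae := ae_lt_top hm h
  have hne : ∀ᵐ u : Sph n ∂μ, inner ℝ (u : Eu n) (v : Eu n) ≠ (0 : ℝ) := by
    filter_upwards [hae] with u hu h0
    rw [h0, abs_zero] at hu
    unfold nlog at hu
    simp at hu
  have hnn : 0 ≤ᵐ[μ] fun u : Sph n => -Real.log |inner ℝ (u : Eu n) (v : Eu n)| :=
    Eventually.of_forall fun u => by
      simp only [Pi.zero_apply, neg_nonneg]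
      exact Real.log_nonpos (abs_nonneg _) (qp_le_one u v)
  have hsm : AEStronglyMeasurable
      (fun u : Sph n => -Real.log |inner ℝ (u : Eu n) (v : Eu n)|) μ :=
    ((Real.measurable_log.comp (qp_cont v).measurable).neg).aestronglyMeasurable
  have heq : ∫⁻ u : Sph n, ENNReal.ofReal (-Real.log |inner ℝ (u : Eu n) (v : Eu n)|) ∂μ =
      pot μ v := by
    unfold pot
    refine lintegral_congr_ae ?_
    filter_upwards [hne] with u hu
    unfold nlog
    rw [if_neg (abs_ne_zero.2 hu)]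
  have hint : Integrable (fun u : Sph n => -Real.log |inner ℝ (u : Eu n) (v : Eu n)|) μ := by
    rw [← lintegral_ofReal_ne_top_iff_integrable hsm hnn, heq]
    exact h
  refine ⟨?_, ?_, ?_⟩
  · have h3 := ae_iff.1 hne
    simpa using h3
  · simpa using hint.neg
  · rw [← integral_neg, integral_eq_lintegral_of_nonneg_ae hnn hsm, heq]

end QPot

end Pool.Agent.Lib.MP_b0d2bf_gt
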