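import Mathlib
import Pool.Agent.Lib.MP_b0d2bf_gt.QPot

set_option autoImplicit false

/-!
The second moment condition, made uniform.
-/

namespace Pool.Agent.Lib.MP_b0d2bf_gt

open MeasureTheory Metric Set Filter Topology

private lemma qs_rat_nonneg {n : ℕ} (z w u : Sph n) : 0 ≤ rat z w u := by
  unfold rat
  positivity

private lemma qs_meas {n : ℕ} (z w : Sph n) : Measurable (rat z w) := by
  have h1 : Continuous fun u : Sph n => inner ℝ (u : Eu n) (w : Eu n) := by fun_prop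
  have h2 : Continuous fun u : Sph n => inner ℝ (u : Eu n) (z : Eu n) := by fun_prop
  exact (h1.measurable.pow_const 2).div (h2.measurable.pow_const 2)

private lemma qs_cont {n : ℕ} (z u : Sph n) : Continuous fun w : Sph n => rat z w u := by
  unfold rat
  fun_prop

private lemma qs_log {a b r : ℝ} (ha : 0 < a) (hab : a ≤ b) (hr : 0 ≤ r) :
    a / b * Real.log (1 + b * r) ≤ Real.log (1 + a * r) := by
  have hb : 0 < b := ha.trans_le hab
  have h1 : 0 < 1 + b * r := by positivity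
  rw [← Real.log_rpow h1]
  refine Real.log_le_log (Real.rpow_pos_of_pos h1 _) ?_
  have h2 := rpow_one_add_le_one_add_mul_self (s := b * r) (p := a / b)
    (by have : 0 ≤ b * r := by positivity
        linarith) (by positivity) ((div_le_one hb).2 hab)
  refine h2.trans (le_of_eq ?_)
  field_simp

/-- the approximations of `r` -/
private noncomputable def qsh (k : ℕ) (r : ℝ) : ℝ := ((k : ℝ) + 1) * Real.log (1 + r / ((k : ℝ) + 1))

private lemma qsh_mono {r : ℝ} (hr : 0 ≤ r) : Monotone fun k : ℕ => qsh k r := by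
  refine monotone_nat_of_le_succ fun k => ?_
  have hk : (0:ℝ) < (k:ℝ) + 1 := by positivity
  have hk' : (0:ℝ) < (((k + 1 : ℕ) : ℝ)) + 1 := by positivity
  have h1 := qs_log (a := 1 / ((((k + 1 : ℕ) : ℝ)) + 1)) (b := 1 / ((k:ℝ) + 1)) (r := r)
    (by positivity) (one_div_le_one_div_of_le hk (by push_cast; linarith)) hr
  unfold qsh
  rw [div_eq_mul_one_div r ((k:ℝ) + 1), div_eq_mul_one_div r ((((k + 1 : ℕ) : ℝ)) + 1),
    mul_comm r, mul_comm r]
  have h2 := mul_le_mul_of_nonneg_left h1 hk'.le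
  refine le_trans (le_of_eq ?_) h2
  field_simp

private lemma qsh_tendsto (r : ℝ) : Tendsto (fun k : ℕ => qsh k r) atTop (𝓝 r) := by
  have h1 : Tendsto (fun k : ℕ => (k:ℝ) + 1) atTop atTop :=
    tendsto_atTop_add_const_right _ _ tendsto_natCast_atTop_atTop
  exact (Real.tendsto_mul_log_one_add_div_atTop r).comp h1

private lemma qsh_cont (k : ℕ) : ContinuousOn (qsh k) (Ici 0) := by
  unfold qsh
  refine continuousOn_const.mul (ContinuousOn.log (by fun_prop) fun r hr => ?_)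
  have : (0:ℝ) ≤ r / ((k:ℝ) + 1) := div_nonneg hr (by positivity)
  positivity

private lemma qsh_meas (k : ℕ) : Measurable (qsh k) := by
  unfold qsh
  fun_prop

/-- the approximations of the second moment -/
private noncomputable def qsg {n : ℕ} (μ : Measure (Sph n)) (z : Sph n) (k : ℕ) (w : Sph n) :
    ENNReal := ∫⁻ u, ENNReal.ofReal (qsh k (rat z w u)) ∂μ

private lemma qsg_mono {n : ℕ} (μ : Measure (Sph n)) (z w : Sph n) :
    Monotone fun k : ℕ => qsg μ z k w := fun _ _ hij =>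
  lintegral_mono fun u => ENNReal.ofReal_le_ofReal (qsh_mono (qs_rat_nonneg z w u) hij)

private lemma qsg_tendsto {n : ℕ} (μ : Measure (Sph n)) (z w : Sph n) :
    Tendsto (fun k : ℕ => qsg μ z k w) atTop (𝓝 (∫⁻ u, ENNReal.ofReal (rat z w u) ∂μ)) := by
  refine lintegral_tendsto_of_tendsto_of_monotone
    (fun k => ((qsh_meas k).comp (qs_meas z w)).ennreal_ofReal.aemeasurable)
    (Eventually.of_forall fun u => ?_) (Eventually.of_forall fun u => ?_)
  · exact fun i j hij => ENNReal.ofReal_le_ofReal (qsh_mono (qs_rat_nonneg z w u) hij)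
  · exact ENNReal.tendsto_ofReal (qsh_tendsto _)

private lemma qsg_closed {n : ℕ} (μ : Measure (Sph n)) (z : Sph n) (k : ℕ) :
    IsClosed {w : Sph n | qsg μ z k w ≤ 1} := by
  refine IsSeqClosed.isClosed ?_
  intro x w hx hw
  show qsg μ z k w ≤ 1
  have h1 : ∀ u : Sph n, Tendsto (fun j => ENNReal.ofReal (qsh k (rat z (x j) u))) atTop
      (𝓝 (ENNReal.ofReal (qsh k (rat z w u)))) := by
    intro u
    refine ENNReal.tendsto_ofReal ?_
    have h2 : Tendsto (fun j => rat z (x j) u) atTop (𝓝[Ici 0] (rat z w u)) :=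
      tendsto_nhdsWithin_iff.2 ⟨((qs_cont z u).tendsto w).comp hw,
        Eventually.of_forall fun j => qs_rat_nonneg z (x j) u⟩
    exact (qsh_cont k _ (qs_rat_nonneg z w u)).tendsto.comp h2
  have h3 : qsg μ z k w = ∫⁻ u, liminf (fun j => ENNReal.ofReal (qsh k (rat z (x j) u))) atTop
      ∂μ := lintegral_congr fun u => ((h1 u).liminf_eq).symm
  rw [h3]
  refine (lintegral_liminf_le fun j => ((qsh_meas k).comp (qs_meas z (x j))).ennreal_ofReal).trans
    ?_
  have h4 : ∀ j, ∫⁻ u, ENNReal.ofReal (qsh k (rat z (x j) u)) ∂μ ≤ 1 := fun j => hx j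
  calc liminf (fun j => ∫⁻ u, ENNReal.ofReal (qsh k (rat z (x j) u)) ∂μ) atTop
      ≤ liminf (fun _ : ℕ => (1 : ENNReal)) atTop :=
        liminf_le_liminf (Eventually.of_forall h4)
    _ = 1 := liminf_const 1

theorem second_gap {n : ℕ} (μ : Measure (Sph n)) [IsProbabilityMeasure μ] {z : Sph n}
    (hfin : pot μ z ≠ ⊤)
    (hsec : ∀ w : Sph n, inner ℝ (w : Eu n) (z : Eu n) = (0 : ℝ) →
      1 < ∫⁻ u, ENNReal.ofReal (rat z w u) ∂μ) :
    ∃ ε > 0, ∀ ε' : ℝ, 0 < ε' → ε' ≤ ε → ∀ w : Sph n,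
      inner ℝ (w : Eu n) (z : Eu n) = (0 : ℝ) →
      ENNReal.ofReal ε' ≤ ∫⁻ u, ENNReal.ofReal (Real.log (1 + ε' * rat z w u)) ∂μ := by
  have hS : IsClosed {w : Sph n | inner ℝ (w : Eu n) (z : Eu n) = (0 : ℝ)} :=
    isClosed_eq (by fun_prop) continuous_const
  obtain ⟨k, hk⟩ : ∃ k : ℕ, ¬ ({w : Sph n | inner ℝ (w : Eu n) (z : Eu n) = (0 : ℝ)} ∩
      {w : Sph n | qsg μ z k w ≤ 1}).Nonempty := by
    by_contra hcon
    push Not at hcon
    obtain ⟨w, hw⟩ := IsCompact.nonempty_iInter_of_sequence_nonempty_isCompact_isClosed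
      (fun k : ℕ => {w : Sph n | inner ℝ (w : Eu n) (z : Eu n) = (0 : ℝ)} ∩
        {w : Sph n | qsg μ z k w ≤ 1})
      (fun k w hw => ⟨hw.1, (qsg_mono μ z w (Nat.le_succ k)).trans hw.2⟩) hcon
      (hS.inter (qsg_closed μ z 0)).isCompact (fun k => hS.inter (qsg_closed μ z k))
    rw [mem_iInter] at hw
    have h1 := hsec w (hw 0).1
    have h2 := (qsg_tendsto μ z w).eventually_const_lt h1
    obtain ⟨k, hk⟩ := h2.exists
    exact absurd (hw k).2 (not_le.2 hk)
  have hk0 : (0:ℝ) < (k:ℝ) + 1 := by positivity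
  refine ⟨1 / ((k:ℝ) + 1), by positivity, fun ε' h0 h1 w hw => ?_⟩
  have hg : 1 < qsg μ z k w := by
    by_contra hcon
    exact hk ⟨w, hw, not_lt.1 hcon⟩
  calc ENNReal.ofReal ε' = ENNReal.ofReal ε' * 1 := (mul_one _).symm
    _ ≤ ENNReal.ofReal ε' * qsg μ z k w := by gcongr
    _ = ∫⁻ u, ENNReal.ofReal ε' * ENNReal.ofReal (qsh k (rat z w u)) ∂μ :=
        (lintegral_const_mul' _ _ ENNReal.ofReal_ne_top).symm
    _ ≤ ∫⁻ u, ENNReal.ofReal (Real.log (1 + ε' * rat z w u)) ∂μ := by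
        refine lintegral_mono fun u => ?_
        rw [← ENNReal.ofReal_mul h0.le]
        refine ENNReal.ofReal_le_ofReal ?_
        have h2 := qs_log h0 h1 (qs_rat_nonneg z w u)
        refine le_trans (le_of_eq ?_) h2
        unfold qsh
        rw [div_eq_mul_one_div (rat z w u), mul_comm (rat z w u), one_div, div_inv_eq_mul]
        ring

end Pool.Agent.Lib.MP_b0d2bf_gt
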