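import Mathlib
import Pool.Agent.Lib.MP_b0d2bf_gt.QMom
import Pool.Agent.Lib.MP_b0d2bf_gt.QSecond

set_option autoImplicit false

/-!
Bodies whose moment map has the eigenvector `z` with a large eigenvalue have a small functional.
-/

namespace Pool.Agent.Lib.MP_b0d2bf_gt

open MeasureTheory Metric Set Filter Topology

section QRayAux

variable {n : ℕ}

lemma qray_inner_self (z : Sph n) : inner ℝ (z : Eu n) (z : Eu n) = (1 : ℝ) := by
  rw [real_inner_self_eq_norm_sq, mem_sphere_zero_iff_norm.1 z.2]
  norm_num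

lemma qray_measurable_rat (z w : Sph n) : Measurable (rat z w) := by
  unfold rat
  refine Measurable.div ?_ ?_
  · exact (by fun_prop : Continuous fun u : Sph n =>
      inner ℝ (u : Eu n) (w : Eu n) ^ 2).measurable
  · exact (by fun_prop : Continuous fun u : Sph n =>
      inner ℝ (u : Eu n) (z : Eu n) ^ 2).measurable

lemma qray_rat_nonneg (z w u : Sph n) : 0 ≤ rat z w u := by
  unfold rat
  positivity

variable [NeZero n]

/-- the moment map minus its part along `z` -/
noncomputable def qrayT (q : ℝ) (f : C(Sph n, ℝ)) (z : Sph n) (t : ℝ) : Eu n →ₗ[ℝ] Eu n where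
  toFun x := mom q f x - (t * inner ℝ (z : Eu n) x) • (z : Eu n)
  map_add' x y := by
    rw [mom_add, inner_add_right, mul_add, add_smul]
    abel
  map_smul' c x := by
    rw [mom_smul, inner_smul_right, RingHom.id_apply, smul_sub, smul_smul]
    ring_nf

lemma qrayT_apply (q : ℝ) (f : C(Sph n, ℝ)) (z : Sph n) (t : ℝ) (x : Eu n) :
    qrayT q f z t x = mom q f x - (t * inner ℝ (z : Eu n) x) • (z : Eu n) := rfl

lemma qray_inner_T (q : ℝ) (f : C(Sph n, ℝ)) (z : Sph n) (t : ℝ) (x y : Eu n) :
    inner ℝ (qrayT q f z t x) y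
      = inner ℝ (mom q f x) y - t * (inner ℝ (z : Eu n) x * inner ℝ (z : Eu n) y) := by
  rw [qrayT_apply, inner_sub_left, inner_smul_left]
  simp only [conj_trivial]
  ring

lemma qrayT_symm (q : ℝ) (f : C(Sph n, ℝ)) (z : Sph n) (t : ℝ) :
    (qrayT q f z t).IsSymmetric := by
  intro x y
  rw [qray_inner_T, real_inner_comm (qrayT q f z t y) x, qray_inner_T, mom_symm,
    real_inner_comm x (mom q f y)]
  ring

lemma qrayT_z (q : ℝ) (f : C(Sph n, ℝ)) (z : Sph n) (t : ℝ)
    (h : mom q f (z : Eu n) = t • (z : Eu n)) : qrayT q f z t (z : Eu n) = 0 := by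
  rw [qrayT_apply, h, qray_inner_self, mul_one, sub_self]

lemma qrayT_nonneg (q : ℝ) (f : C(Sph n, ℝ)) (z : Sph n) (t : ℝ)
    (h : mom q f (z : Eu n) = t • (z : Eu n)) (x : Eu n) :
    0 ≤ inner ℝ (qrayT q f z t x) x := by
  set a : ℝ := inner ℝ (z : Eu n) x with ha
  set y : Eu n := x - a • (z : Eu n) with hy
  have hx : x = a • (z : Eu n) + y := by rw [hy]; abel
  have hT : qrayT q f z t x = qrayT q f z t y := by
    rw [hx, map_add, map_smul, qrayT_z q f z t h, smul_zero, zero_add]
  have hzy : inner ℝ (z : Eu n) y = (0 : ℝ) := by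
    rw [hy, inner_sub_right, inner_smul_right, qray_inner_self, mul_one, ← ha, sub_self]
  have h1 : inner ℝ (qrayT q f z t y) (z : Eu n) = (0 : ℝ) := by
    rw [qrayT_symm q f z t y (z : Eu n), qrayT_z q f z t h, inner_zero_right]
  rw [hT]
  conv_rhs => rw [hx]
  rw [inner_add_right, inner_smul_right, h1, mul_zero, zero_add, qray_inner_T, hzy]
  have := mom_nonneg (q := q) f y
  linarith

end QRayAux

theorem ray {n : ℕ} [NeZero n] (μ : Measure (Sph n)) [IsProbabilityMeasure μ] {z : Sph n}
    (hfin : pot μ z ≠ ⊤)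
    (hsec : ∀ w : Sph n, inner ℝ (w : Eu n) (z : Eu n) = (0 : ℝ) →
      1 < ∫⁻ u, ENNReal.ofReal (rat z w u) ∂μ) :
    ∃ τ : ℝ, 0 < τ ∧ τ < 1 ∧ ∃ γ > 0, ∀ (q : ℝ) (f : C(Sph n, ℝ)) (τ' : ℝ), τ ≤ τ' →
      mom q f (z : Eu n) = τ' • (z : Eu n) →
      -(1 / 2) * ∫ v, Real.log (Lam q f v) ∂μ ≤ (pot μ z).toReal ∧
      (τ' = τ → -(1 / 2) * ∫ v, Real.log (Lam q f v) ∂μ ≤ (pot μ z).toReal - γ) := by
  obtain ⟨ε, hε, hgap⟩ := second_gap μ hfin hsec
  obtain ⟨hz0, hlogint, hlogp⟩ := pot_fin hfin
  have hε1 : 0 < 1 + ε := by linarith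
  refine ⟨1 / (1 + ε), by positivity, by rw [div_lt_one hε1]; linarith,
    (ε - Real.log (1 + ε)) / 2, ?_, ?_⟩
  · have := Real.log_lt_sub_one_of_pos hε1 (by linarith)
    linarith
  intro q f τ' hτ' hmom
  have hτ0 : 0 < τ' := lt_of_lt_of_le (by positivity) hτ'
  set T := qrayT q f z τ' with hT
  have hTs : T.IsSymmetric := qrayT_symm q f z τ'
  have hfr : Module.finrank ℝ (Eu n) = n := finrank_euclideanSpace_fin
  set b := hTs.eigenvectorBasis hfr with hb
  set l := hTs.eigenvalues hfr with hl
  have hTb : ∀ i, T (b i) = l i • b i := fun i => hTs.apply_eigenvectorBasis hfr i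
  have hbb : ∀ i, inner ℝ (b i) (b i) = (1 : ℝ) := by
    intro i
    rw [real_inner_self_eq_norm_sq, b.norm_eq_one i]
    norm_num
  have hl1 : ∀ i, inner ℝ (T (b i)) (b i) = l i := by
    intro i
    rw [hTb, inner_smul_left, hbb]
    simp
  have hl0 : ∀ i, 0 ≤ l i := fun i => by
    rw [← hl1 i]
    exact qrayT_nonneg q f z τ' hmom (b i)
  have hlz : ∀ i, l i * inner ℝ (b i) (z : Eu n) = 0 := by
    intro i
    have h1 : inner ℝ (T (b i)) (z : Eu n) = (0 : ℝ) := by
      rw [hTs (b i) (z : Eu n), hT, qrayT_z q f z τ' hmom, inner_zero_right]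
    rw [hTb, inner_smul_left] at h1
    simpa using h1
  have hpars : ∀ x : Eu n, ∑ i, inner ℝ x (b i) ^ 2 = inner ℝ x x := by
    intro x
    rw [← b.sum_inner_mul_inner x x]
    refine Finset.sum_congr rfl fun i _ => ?_
    rw [real_inner_comm x (b i), sq]
  have hsum : ∑ i, l i = 1 - τ' := by
    have h1 : ∀ i, l i = inner ℝ (mom q f (b i)) (b i)
        - τ' * inner ℝ (z : Eu n) (b i) ^ 2 := by
      intro i
      rw [← hl1 i, hT, qray_inner_T]
      ring
    rw [Finset.sum_congr rfl fun i _ => h1 i, Finset.sum_sub_distrib, mom_trace f b,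
      ← Finset.mul_sum, hpars, qray_inner_self, mul_one]
  have hτ1 : τ' ≤ 1 := by
    have : 0 ≤ ∑ i, l i := Finset.sum_nonneg fun i _ => hl0 i
    linarith
  have hLam : ∀ u : Sph n, Lam q f u = τ' * inner ℝ (u : Eu n) (z : Eu n) ^ 2
      + ∑ i, l i * inner ℝ (u : Eu n) (b i) ^ 2 := by
    intro u
    have h1 : inner ℝ (T (u : Eu n)) (u : Eu n) = ∑ i, l i * inner ℝ (u : Eu n) (b i) ^ 2 := by
      rw [← b.sum_inner_mul_inner (T (u : Eu n)) (u : Eu n)]
      refine Finset.sum_congr rfl fun i _ => ?_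
      rw [hTs (u : Eu n) (b i), hTb, inner_smul_right, real_inner_comm (u : Eu n) (b i)]
      ring
    rw [← h1, hT, qray_inner_T, real_inner_comm (z : Eu n) (u : Eu n)]
    unfold Lam
    ring
  have hlog2 : ∀ s : ℝ, Real.log (s ^ 2) = 2 * Real.log |s| := by
    intro s
    rw [Real.log_pow, Real.log_abs]
    norm_num
  set p : ℝ := (pot μ z).toReal with hp
  have hae : ∀ᵐ u : Sph n ∂μ, inner ℝ (u : Eu n) (z : Eu n) ≠ (0 : ℝ) := by
    rw [ae_iff]
    simpa using hz0
  rcases hτ1.lt_or_eq with hlt | heq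
  swap
  · -- all `l i` vanish
    have hl00 : ∀ i, l i = 0 := by
      intro i
      have h0 : ∑ i, l i = 0 := by rw [hsum, heq, sub_self]
      exact (Finset.sum_eq_zero_iff_of_nonneg fun i _ => hl0 i).1 h0 i (Finset.mem_univ i)
    have h1 : ∀ u : Sph n, Real.log (Lam q f u)
        = 2 * Real.log |inner ℝ (u : Eu n) (z : Eu n)| := by
      intro u
      rw [hLam u, heq, one_mul, Finset.sum_eq_zero fun i _ => by rw [hl00 i, zero_mul], add_zero,
        hlog2]
    have h2 : -(1 / 2) * ∫ v, Real.log (Lam q f v) ∂μ = p := by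
      simp_rw [h1]
      rw [integral_const_mul, ← hlogp]
      ring
    refine ⟨h2.le, fun h => ?_⟩
    exfalso
    rw [heq] at h
    have : 1 / (1 + ε) < 1 := by rw [div_lt_one hε1]; linarith
    linarith
  · set ε' : ℝ := (1 - τ') / τ' with hε'
    have h1τ : 0 < 1 - τ' := by linarith
    have hε'0 : 0 < ε' := div_pos h1τ hτ0
    have hε'1 : ε' ≤ ε := by
      rw [hε', div_le_iff₀ hτ0]
      rw [div_le_iff₀ hε1] at hτ'
      linarith
    have hε't : 1 + ε' = τ'⁻¹ := by
      rw [hε']
      field_simp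
      ring
    have hlogτ : Real.log τ' = - Real.log (1 + ε') := by
      rw [hε't, Real.log_inv]
      ring
    set w : Fin n → ℝ := fun i => l i / (1 - τ') with hw
    have hw0 : ∀ i, 0 ≤ w i := fun i => div_nonneg (hl0 i) h1τ.le
    have hw1 : ∑ i, w i = 1 := by
      rw [hw]
      simp only
      rw [← Finset.sum_div, hsum, div_self h1τ.ne']
    set bs : Fin n → Sph n := fun i => ⟨b i, mem_sphere_zero_iff_norm.2 (b.norm_eq_one i)⟩
      with hbs
    set g : Fin n → Sph n → ℝ := fun i u => Real.log (1 + ε' * rat z (bs i) u) with hg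
    have hx1 : ∀ i u, 1 ≤ 1 + ε' * rat z (bs i) u := fun i u => by
      have := mul_nonneg hε'0.le (qray_rat_nonneg z (bs i) u)
      linarith
    have hg0 : ∀ i u, 0 ≤ g i u := fun i u => Real.log_nonneg (hx1 i u)
    have hgm : ∀ i, Measurable (g i) := fun i =>
      Real.measurable_log.comp ((measurable_const.mul (qray_measurable_rat z (bs i))).const_add 1)
    have hkey : ∀ u : Sph n, inner ℝ (u : Eu n) (z : Eu n) ≠ (0 : ℝ) →
        Real.log τ' + 2 * Real.log |inner ℝ (u : Eu n) (z : Eu n)| + ∑ i, w i * g i u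
          ≤ Real.log (Lam q f u) := by
      intro u hu
      have h1 : Lam q f u = τ' * inner ℝ (u : Eu n) (z : Eu n) ^ 2 *
          ∑ i, w i * (1 + ε' * rat z (bs i) u) := by
        have h2 : ∑ i, w i * (1 + ε' * rat z (bs i) u)
            = (∑ i, w i) + ∑ i, ε' * w i * rat z (bs i) u := by
          rw [← Finset.sum_add_distrib]
          refine Finset.sum_congr rfl fun i _ => by ring
        rw [h2, hw1, hLam u, mul_add, mul_one, Finset.mul_sum]
        congr 1
        refine Finset.sum_congr rfl fun i _ => ?_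
        rw [hw, hε']
        simp only [rat, hbs]
        field_simp
      have hs : 0 < τ' * inner ℝ (u : Eu n) (z : Eu n) ^ 2 := by positivity
      have hpos : 0 < ∑ i, w i * (1 + ε' * rat z (bs i) u) := by
        have : (1 : ℝ) ≤ ∑ i, w i * (1 + ε' * rat z (bs i) u) := by
          calc (1 : ℝ) = ∑ i, w i * 1 := by simp only [mul_one]; exact hw1.symm
            _ ≤ _ := Finset.sum_le_sum fun i _ => mul_le_mul_of_nonneg_left (hx1 i u) (hw0 i)
        linarith
      rw [h1, Real.log_mul hs.ne' hpos.ne', Real.log_mul hτ0.ne' (by positivity), hlog2]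
      have hc := (strictConcaveOn_log_Ioi.concaveOn).le_map_sum (t := Finset.univ)
        (w := w) (p := fun i => 1 + ε' * rat z (bs i) u) (fun i _ => hw0 i) hw1
        (fun i _ => show (0 : ℝ) < _ by have := hx1 i u; linarith)
      simp only [smul_eq_mul] at hc
      linarith
    have hLint : Integrable (fun u => Real.log (Lam q f u)) μ := by
      have hc : Continuous fun u => Real.log (Lam q f u) :=
        (continuous_Lam f).log fun u => (Lam_pos f u).ne'
      exact hc.integrable_of_hasCompactSupport (HasCompactSupport.of_compactSpace _)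
    have hdom : Integrable (fun u : Sph n => -Real.log τ'
        - 2 * Real.log |inner ℝ (u : Eu n) (z : Eu n)|) μ :=
      (integrable_const _).sub (hlogint.const_mul 2)
    have hwgi : ∀ i, Integrable (fun u => w i * g i u) μ := by
      intro i
      refine hdom.mono' ((hgm i).const_mul _).aestronglyMeasurable ?_
      filter_upwards [hae] with u hu
      rw [Real.norm_of_nonneg (mul_nonneg (hw0 i) (hg0 i u))]
      have h1 := hkey u hu
      have h2 : Real.log (Lam q f u) ≤ 0 :=
        Real.log_nonpos (Lam_pos f u).le (Lam_le_one f u)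
      have h3 : w i * g i u ≤ ∑ i, w i * g i u :=
        Finset.single_le_sum (f := fun i => w i * g i u)
          (fun i _ => mul_nonneg (hw0 i) (hg0 i u)) (Finset.mem_univ i)
      linarith
    have hwg : ∀ i, w i * ε' ≤ ∫ u, w i * g i u ∂μ := by
      intro i
      rcases (hw0 i).lt_or_eq with hpos | hz
      · have hgi : Integrable (g i) μ := by
          have := (hwgi i).const_mul (w i)⁻¹
          refine this.congr (Eventually.of_forall fun u => ?_)
          simp only
          rw [← mul_assoc, inv_mul_cancel₀ hpos.ne', one_mul]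
        have hli : l i ≠ 0 := by
          intro h
          rw [hw] at hpos
          simp only [h, zero_div, lt_self_iff_false] at hpos
        have hperp : inner ℝ ((bs i : Sph n) : Eu n) (z : Eu n) = (0 : ℝ) := by
          rcases mul_eq_zero.1 (hlz i) with h | h
          · exact absurd h hli
          · exact h
        have h1 := hgap ε' hε'0 hε'1 (bs i) hperp
        rw [← ofReal_integral_eq_lintegral_ofReal hgi (Eventually.of_forall (hg0 i))] at h1
        rw [integral_const_mul]
        exact mul_le_mul_of_nonneg_left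
          ((ENNReal.ofReal_le_ofReal_iff (integral_nonneg (hg0 i))).1 h1) (hw0 i)
      · rw [← hz]
        simp
    have hsumint : ε' ≤ ∫ u, ∑ i, w i * g i u ∂μ := by
      rw [integral_finsetSum _ fun i _ => hwgi i]
      calc ε' = ∑ i, w i * ε' := by rw [← Finset.sum_mul, hw1, one_mul]
        _ ≤ _ := Finset.sum_le_sum fun i _ => hwg i
    have hsi : Integrable (fun u => ∑ i, w i * g i u) μ :=
      integrable_finsetSum _ fun i _ => hwgi i
    have hmain : Real.log τ' - 2 * p + ε' ≤ ∫ u, Real.log (Lam q f u) ∂μ := by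
      have h1 : ∫ u, (Real.log τ' + 2 * Real.log |inner ℝ (u : Eu n) (z : Eu n)|
          + ∑ i, w i * g i u) ∂μ ≤ ∫ u, Real.log (Lam q f u) ∂μ := by
        refine integral_mono_ae (((integrable_const _).add (hlogint.const_mul 2)).add hsi) hLint ?_
        filter_upwards [hae] with u hu
        exact hkey u hu
      have h2 : ∫ u, (Real.log τ' + 2 * Real.log |inner ℝ (u : Eu n) (z : Eu n)|
          + ∑ i, w i * g i u) ∂μ = Real.log τ' + 2 * ∫ u, Real.log |inner ℝ (u : Eu n) (z : Eu n)| ∂μ
          + ∫ u, ∑ i, w i * g i u ∂μ := by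
        have hA : Integrable (fun u : Sph n => Real.log τ'
            + 2 * Real.log |inner ℝ (u : Eu n) (z : Eu n)|) μ :=
          (integrable_const _).add (hlogint.const_mul 2)
        have hB : ∫ u : Sph n, (Real.log τ'
            + 2 * Real.log |inner ℝ (u : Eu n) (z : Eu n)|) ∂μ
            = Real.log τ' + 2 * ∫ u, Real.log |inner ℝ (u : Eu n) (z : Eu n)| ∂μ := by
          rw [integral_add (integrable_const _) (hlogint.const_mul 2), integral_const_mul]
          simp
        rw [← hB]
        exact integral_add hA hsi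
      rw [h2] at h1
      linarith
    have hineq : Real.log (1 + ε') ≤ ε' := by
      have := Real.log_le_sub_one_of_pos (show 0 < 1 + ε' by linarith)
      linarith
    refine ⟨by rw [hlogτ] at hmain; linarith, fun h => ?_⟩
    have hεε : ε' = ε := by
      rw [hε', h]
      field_simp
      ring
    rw [hlogτ, hεε] at hmain
    linarith

end Pool.Agent.Lib.MP_b0d2bf_gt
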