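import Mathlib
import Pool.Agent.Lib.MP_b0d2bf_gt.QDefs
import Pool.Agent.Lib.MP_b0d2bf_gt.PCube

set_option autoImplicit false

/-!
The topological part for even families over a symmetric piece of the sphere.
-/

namespace Pool.Agent.Lib.MP_b0d2bf_gt

open MeasureTheory Metric Set Filter Topology

namespace QTopE

/-- the vector of the box -/
noncomputable def vec {m : ℕ} (b : OrthonormalBasis (Fin (m + 1)) ℝ (Eu (m + 1)))
    (p : Fin (m + 1) → ℝ) : Eu (m + 1) :=
  ∑ i, (if i = 0 then 1 - ‖(fun j => if j = 0 then 0 else p j : Fin (m + 1) → ℝ)‖ else p i) • b i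

lemma continuous_vec {m : ℕ} (b : OrthonormalBasis (Fin (m + 1)) ℝ (Eu (m + 1))) :
    Continuous (vec b) := by
  unfold vec
  have hN : Continuous fun p : Fin (m + 1) → ℝ =>
      ‖(fun j => if j = 0 then 0 else p j : Fin (m + 1) → ℝ)‖ := by
    refine Continuous.norm (continuous_pi fun j => ?_)
    by_cases hj : j = 0
    · simp only [hj, if_true]
      exact continuous_const
    · simp only [hj, if_false]
      exact continuous_apply j
  refine continuous_finsetSum _ fun i _ => ?_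
  refine Continuous.smul (M := ℝ) (X := Eu (m + 1)) ?_ continuous_const
  by_cases h : i = 0
  · simp only [h, if_true]
    exact (continuous_const (y := (1 : ℝ))).sub hN
  · simp only [h, if_false]
    exact continuous_apply i

lemma inner_vec {m : ℕ} (b : OrthonormalBasis (Fin (m + 1)) ℝ (Eu (m + 1)))
    (p : Fin (m + 1) → ℝ) (i : Fin (m + 1)) : inner ℝ (b i) (vec b p) =
      if i = 0 then 1 - ‖(fun j => if j = 0 then 0 else p j : Fin (m + 1) → ℝ)‖ else p i := by
  unfold vec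
  rw [inner_sum, Finset.sum_eq_single i]
  · rw [inner_smul_right, b.inner_eq_ite]
    simp
  · intro j _ hj
    rw [inner_smul_right, b.inner_eq_ite]
    simp [Ne.symm hj]
  · intro h
    exact absurd (Finset.mem_univ i) h

lemma vec_ne {m : ℕ} (b : OrthonormalBasis (Fin (m + 1)) ℝ (Eu (m + 1)))
    (p : Fin (m + 1) → ℝ) : vec b p ≠ 0 := by
  intro h
  have h1 : ∀ i, i ≠ 0 → p i = 0 := by
    intro i hi
    have := inner_vec b p i
    rw [h, inner_zero_right, if_neg hi] at this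
    exact this.symm
  have h2 := inner_vec b p 0
  rw [h, inner_zero_right, if_pos rfl] at h2
  have h3 : (fun j => if j = 0 then 0 else p j : Fin (m + 1) → ℝ) = 0 := by
    funext j
    by_cases hj : j = 0
    · simp [hj]
    · simp [hj, h1 j hj]
  rw [h3, norm_zero] at h2
  linarith

/-- the point of the sphere -/
noncomputable def pnt {m : ℕ} (b : OrthonormalBasis (Fin (m + 1)) ℝ (Eu (m + 1)))
    (p : Fin (m + 1) → ℝ) : Sph (m + 1) :=
  ⟨‖vec b p‖⁻¹ • vec b p, by
    rw [mem_sphere_zero_iff_norm, norm_smul, norm_inv, norm_norm,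
      inv_mul_cancel₀ (norm_ne_zero_iff.2 (vec_ne b p))]⟩

lemma continuous_pnt {m : ℕ} (b : OrthonormalBasis (Fin (m + 1)) ℝ (Eu (m + 1))) :
    Continuous (pnt b) := by
  refine Continuous.subtype_mk ?_ _
  exact (((continuous_vec b).norm).inv₀ fun p => norm_ne_zero_iff.2 (vec_ne b p)).smul
    (continuous_vec b)

lemma vec_mirr {m : ℕ} (b : OrthonormalBasis (Fin (m + 1)) ℝ (Eu (m + 1)))
    {p : Fin (m + 1) → ℝ} (hp : p ∈ Par.Box m) {j : Fin (m + 1)} (hj : j ≠ 0) (h : |p j| = 1) :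
    vec b (Par.mirr p) = - vec b p := by
  have hN : ∀ q : Fin (m + 1) → ℝ, q ∈ Par.Box m → |q j| = 1 →
      ‖(fun j => if j = 0 then 0 else q j : Fin (m + 1) → ℝ)‖ = 1 := by
    intro q hq hqj
    apply le_antisymm
    · rw [pi_norm_le_iff_of_nonneg zero_le_one]
      intro i
      by_cases hi : i = 0
      · simp [hi]
      · simp only [hi, if_false]
        rw [Real.norm_eq_abs, abs_le]
        have h1 := hq.1 i
        have h2 := hq.2 i
        simp only [hi, if_false] at h1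
        exact ⟨h1, h2⟩
    · have h1 := norm_le_pi_norm (fun j => if j = 0 then 0 else q j : Fin (m + 1) → ℝ) j
      simp only [hj, if_false] at h1
      rw [Real.norm_eq_abs, hqj] at h1
      exact h1
  have hp' : Par.mirr p ∈ Par.Box m := by
    constructor
    · intro i
      have h1 := hp.1 i
      have h2 := hp.2 i
      by_cases hi : i = 0
      · simp only [Par.mirr, hi, if_true] at h1 ⊢
        exact h1
      · simp only [Par.mirr, hi, if_false] at h1 ⊢
        linarith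
    · intro i
      have h1 := hp.1 i
      have h2 := hp.2 i
      by_cases hi : i = 0
      · simp only [Par.mirr, hi, if_true] at h2 ⊢
        rw [hi] at h2
        exact h2
      · simp only [Par.mirr, hi, if_false] at h1 ⊢
        linarith
  have hpj : |Par.mirr p j| = 1 := by
    simp only [Par.mirr, hj, if_false]
    rw [abs_neg]
    exact h
  have h1 := hN p hp h
  have h2 := hN _ hp' hpj
  unfold vec
  rw [h1, h2, ← Finset.sum_neg_distrib]
  refine Finset.sum_congr rfl fun i _ => ?_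
  by_cases hi : i = 0
  · simp [hi]
  · simp only [Par.mirr, hi, if_false]
    rw [neg_smul]

lemma pnt_mirr {m : ℕ} (b : OrthonormalBasis (Fin (m + 1)) ℝ (Eu (m + 1)))
    {p : Fin (m + 1) → ℝ} (hp : p ∈ Par.Box m) {j : Fin (m + 1)} (hj : j ≠ 0) (h : |p j| = 1) :
    pnt b (Par.mirr p) = - pnt b p := by
  ext1
  show ‖vec b (Par.mirr p)‖⁻¹ • vec b (Par.mirr p) = -(‖vec b p‖⁻¹ • vec b p)
  rw [vec_mirr b hp hj h, norm_neg, smul_neg]

/-- The topological fact on the sphere. -/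
theorem no_even {m : ℕ} {z : Sph (m + 1)} {τ : ℝ} (hτ0 : 0 < τ) (hτ1 : τ < 1)
    (G : ℝ → Sph (m + 1) → Eu (m + 1))
    (hG : ContinuousOn (fun p : ℝ × Sph (m + 1) => G p.1 p.2) (Icc (0 : ℝ) 1 ×ˢ univ))
    (h0 : ∀ v : Sph (m + 1), G 0 v = inner ℝ (v : Eu (m + 1)) (z : Eu (m + 1)) •
      (v : Eu (m + 1)) - τ • (z : Eu (m + 1)))
    (hev : ∀ t ∈ Icc (0 : ℝ) 1, ∀ v, G t (-v) = G t v)
    (hne : ∀ t ∈ Icc (0 : ℝ) 1, ∀ v, G t v ≠ 0)
    (h1 : ∀ v, ∀ s : ℝ, 0 ≤ s → G 1 v ≠ s • (z : Eu (m + 1))) : False := by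
  have hnz : ‖(z : Eu (m + 1))‖ = 1 := mem_sphere_zero_iff_norm.1 z.2
  obtain ⟨b, hb⟩ : ∃ b : OrthonormalBasis (Fin (m + 1)) ℝ (Eu (m + 1)),
      b 0 = (z : Eu (m + 1)) := by
    have hv : Orthonormal ℝ (({0} : Set (Fin (m + 1))).domRestrict fun _ => (z : Eu (m + 1))) := by
      constructor
      · intro i
        exact hnz
      · intro i j hij
        exact absurd (Subtype.ext (by
          have h1 : (i : Fin (m + 1)) = 0 := i.2
          have h2 : (j : Fin (m + 1)) = 0 := j.2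
          rw [h1, h2])) hij
    obtain ⟨b, hb⟩ := hv.exists_orthonormalBasis_extension_of_card_eq
      (by simp [Eu])
    exact ⟨b, hb 0 rfl⟩
  have hlen : ∀ x : Eu (m + 1), (∀ i, inner ℝ (b i) x = 0) → x = 0 := by
    intro x hx
    rw [← b.sum_repr' x]
    refine Finset.sum_eq_zero fun i _ => ?_
    rw [hx i, zero_smul]
  -- the map on the box
  obtain ⟨W, hWd⟩ : ∃ W : (Fin (m + 1) → ℝ) → (Fin (m + 1) → ℝ),
      ∀ p i, W p i = inner ℝ (b i) (G (p 0) (pnt b p)) := ⟨fun p i => _, fun p i => rfl⟩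
  have hbox : ∀ p ∈ Par.Box m, p 0 ∈ Icc (0 : ℝ) 1 := by
    intro p hp
    have e1 := hp.1 0
    have e2 := hp.2 0
    simp only [if_true] at e1
    exact ⟨e1, e2⟩
  have hWc : ContinuousOn W (Par.Box m) := by
    refine continuousOn_pi.2 fun i => ?_
    have e1 : ContinuousOn (fun p : Fin (m + 1) → ℝ => G (p 0) (pnt b p)) (Par.Box m) := by
      have e2 : Continuous fun p : Fin (m + 1) → ℝ => ((p 0, pnt b p) : ℝ × Sph (m + 1)) :=
        (continuous_apply 0).prodMk (continuous_pnt b)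
      exact hG.comp e2.continuousOn fun p hp => ⟨hbox p hp, mem_univ _⟩
    have e3 : ContinuousOn (fun p : Fin (m + 1) → ℝ => inner ℝ (b i) (G (p 0) (pnt b p)))
        (Par.Box m) := continuousOn_const.inner e1
    exact e3.congr fun p _ => hWd p i
  -- the formulas at time zero
  have hform : ∀ p : Fin (m + 1) → ℝ, p 0 = 0 → ∃ x : ℝ,
      x = ‖vec b p‖⁻¹ * (1 - ‖(fun j => if j = 0 then 0 else p j : Fin (m + 1) → ℝ)‖) ∧
      W p 0 = x ^ 2 - τ ∧ ∀ i, i ≠ 0 → W p i = x * (‖vec b p‖⁻¹ * p i) := by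
    intro p hp
    refine ⟨_, rfl, ?_⟩
    have e0 : inner ℝ (pnt b p : Eu (m + 1)) (z : Eu (m + 1)) =
        ‖vec b p‖⁻¹ * (1 - ‖(fun j => if j = 0 then 0 else p j : Fin (m + 1) → ℝ)‖) := by
      show inner ℝ (‖vec b p‖⁻¹ • vec b p) (z : Eu (m + 1)) = _
      rw [real_inner_comm, inner_smul_right, ← hb, inner_vec, if_pos rfl]
    have e1 : ∀ i, inner ℝ (b i) (pnt b p : Eu (m + 1)) = ‖vec b p‖⁻¹ *
        (if i = 0 then 1 - ‖(fun j => if j = 0 then 0 else p j : Fin (m + 1) → ℝ)‖ else p i) := by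
      intro i
      show inner ℝ (b i) (‖vec b p‖⁻¹ • vec b p) = _
      rw [inner_smul_right, inner_vec]
    constructor
    · rw [hWd, hp, h0, inner_sub_right, inner_smul_right, inner_smul_right, e0, e1, if_pos rfl,
        ← hb, b.inner_eq_ite, if_pos rfl]
      ring
    · intro i hi
      rw [hWd, hp, h0, inner_sub_right, inner_smul_right, inner_smul_right, e0, e1, if_neg hi,
        ← hb, b.inner_eq_ite, if_neg hi]
      ring
  have hz0 : (0 : Fin (m + 1) → ℝ) ∈ Par.Box m := by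
    constructor
    · intro i
      by_cases hi : i = 0 <;> simp [hi]
    · intro i
      simp
  have hW0 : 0 < W 0 0 := by
    obtain ⟨x, hx, hx0, -⟩ := hform 0 rfl
    have e1 : (fun j => if j = 0 then 0 else (0 : Fin (m + 1) → ℝ) j : Fin (m + 1) → ℝ) = 0 := by
      funext j
      by_cases hj : j = 0 <;> simp [hj]
    have e2 : ‖vec b 0‖ = 1 := by
      have e3 : vec b 0 = b 0 := by
        unfold vec
        rw [e1, norm_zero, Finset.sum_eq_single 0]
        · simp
        · intro i _ hi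
          simp [hi]
        · intro h
          exact absurd (Finset.mem_univ _) h
      rw [e3, b.norm_eq_one]
    rw [hx0, hx, e2, e1, norm_zero]
    norm_num
    exact hτ1
  obtain ⟨δ, hδ, hδ'⟩ := Metric.continuousWithinAt_iff.1 (hWc 0 hz0) (W 0 0) hW0
  refine Par.cube W hWc ?_ ?_ ?_ ?_ (δ0 := δ / 2) (by linarith) ?_
  · intro p hp heq
    refine hne (p 0) (hbox p hp) (pnt b p) (hlen _ fun i => ?_)
    rw [← hWd, heq]
    rfl
  · intro p hp j hj hpj
    funext i
    rw [hWd, hWd, pnt_mirr b hp hj hpj]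
    have e1 : Par.mirr p 0 = p 0 := by simp [Par.mirr]
    rw [e1, hev _ (hbox p hp)]
  · intro p hp hp1 hp2
    by_contra hcon
    push Not at hcon
    refine h1 (pnt b p) (W p 0) hp2 ?_
    rw [← b.sum_repr' (G 1 (pnt b p)), Finset.sum_eq_single 0]
    · rw [hWd, hp1, hb]
    · intro i _ hi
      have e1 := hcon i hi
      rw [hWd, hp1] at e1
      rw [e1, zero_smul]
    · intro h
      exact absurd (Finset.mem_univ _) h
  · intro p hp hp0 hp2 i hi
    obtain ⟨x, hx, hx0, hxi⟩ := hform p hp0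
    rw [hx0] at hp2
    have hV : 0 < ‖vec b p‖⁻¹ := inv_pos.2 (norm_pos_iff.2 (vec_ne b p))
    have hN : ‖(fun j => if j = 0 then 0 else p j : Fin (m + 1) → ℝ)‖ ≤ 1 := by
      rw [pi_norm_le_iff_of_nonneg zero_le_one]
      intro i
      by_cases hi : i = 0
      · simp [hi]
      · simp only [hi, if_false]
        rw [Real.norm_eq_abs, abs_le]
        have e1 := hp.1 i
        have e2 := hp.2 i
        simp only [hi, if_false] at e1
        exact ⟨e1, e2⟩
    have hx1 : 0 ≤ x := by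
      rw [hx]
      exact mul_nonneg hV.le (by linarith)
    have hx2 : 0 < x := by
      rcases eq_or_lt_of_le hx1 with e | e
      · rw [← e] at hp2
        norm_num at hp2
        linarith
      · exact e
    rw [hxi i hi, ← mul_assoc]
    have e1 : 0 < x * ‖vec b p‖⁻¹ := mul_pos hx2 hV
    constructor
    · intro e
      by_contra hcon
      have := mul_nonneg e1.le (not_lt.1 hcon)
      linarith
    · intro e
      exact mul_neg_of_pos_of_neg e1 e
  · intro p hp hp0 hp2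
    have e1 : dist p 0 < δ := by
      rw [dist_pi_lt_iff hδ]
      intro i
      rw [Pi.zero_apply, Real.dist_0_eq_abs]
      by_cases hi : i = 0
      · rw [hi, hp0, abs_zero]
        exact hδ
      · have := hp2 i hi
        linarith
    have e2 := hδ' hp e1
    have e3 := (dist_le_pi_dist (W p) (W 0) 0).trans_lt e2
    rw [Real.dist_eq, abs_lt] at e3
    linarith [e3.1]

end QTopE

open QTopE

/-- The analogue of `no_link` for even families. -/
theorem no_link_even {n : ℕ} [NeZero n] {U : Set (Sph n)} (hU : IsOpen U)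
    (hUs : ∀ v, v ∈ U → -v ∈ U) {z : Sph n} (hz : z ∈ U) {τ : ℝ} (hτ0 : 0 < τ) (hτ1 : τ < 1) :
    ∃ κ > 0, ∀ (W0 : Sph n → Eu n) (W : ℝ → Sph n → Eu n), Continuous W0 →
      ContinuousOn (fun p : ℝ × Sph n => W p.1 p.2) (Icc (0 : ℝ) 1 ×ˢ closure U) →
      (∀ v, W0 (-v) = W0 v) →
      (∀ t ∈ Icc (0 : ℝ) 1, ∀ v ∈ closure U, W t (-v) = W t v) →
      (∀ v : Sph n, ‖W0 v - (inner ℝ (v : Eu n) (z : Eu n) • (v : Eu n) - τ • (z : Eu n))‖ ≤ κ) →
      (∀ v ∈ closure U, W 0 v = W0 v) →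
      (∀ t ∈ Icc (0 : ℝ) 1, ∀ v ∈ frontier U, W t v = W0 v) →
      (∀ t ∈ Icc (0 : ℝ) 1, ∀ v ∈ closure U, W t v ≠ 0) →
      (∀ v ∈ closure U, ∀ s : ℝ, 0 ≤ s → W 1 v ≠ s • (z : Eu n)) → False := by
  classical
  have hnz : ‖(z : Eu n)‖ = 1 := mem_sphere_zero_iff_norm.1 z.2
  -- the radius
  obtain ⟨r, hr0, hr1, hrU⟩ : ∃ r : ℝ, 0 < r ∧ r < 1 ∧ ball z r ⊆ U := by
    obtain ⟨r1, h1, h2⟩ := Metric.isOpen_iff.1 hU z hz
    refine ⟨min (r1 / 2) (1 / 2), lt_min (by linarith) (by norm_num),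
      lt_of_le_of_lt (min_le_right _ _) (by norm_num), (ball_subset_ball ?_).trans h2⟩
    exact (min_le_left _ _).trans (by linarith)
  have hrU' : ball (-z) r ⊆ U := by
    intro v hv
    have h2 : -v ∈ ball z r := by
      rw [mem_ball] at hv ⊢
      have h3 : dist (-v) z = dist v (-z) := by
        rw [Subtype.dist_eq, Subtype.dist_eq, dist_eq_norm, dist_eq_norm, ← norm_neg]
        congr 1
        show -(-(v : Eu n) - (z : Eu n)) = (v : Eu n) - (-(z : Eu n))
        abel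
      rw [h3]
      exact hv
    have h4 := hUs _ (hrU h2)
    rwa [neg_neg] at h4
  -- the constant
  obtain ⟨κ, hκ0, hκτ, hκ1, hκ3⟩ : ∃ κ : ℝ, 0 < κ ∧ κ < τ ∧ κ < 1 - τ ∧
      2 * κ ^ 2 < r ^ 2 * (τ - κ) := by
    have e1 : ∀ᶠ κ : ℝ in 𝓝 0, κ < τ := eventually_lt_nhds hτ0
    have e2 : ∀ᶠ κ : ℝ in 𝓝 0, κ < 1 - τ := eventually_lt_nhds (by linarith)
    have e4 : ∀ᶠ κ : ℝ in 𝓝 0, 2 * κ ^ 2 - r ^ 2 * (τ - κ) < 0 := by
      have : Tendsto (fun κ : ℝ => 2 * κ ^ 2 - r ^ 2 * (τ - κ)) (𝓝 0)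
          (𝓝 (2 * 0 ^ 2 - r ^ 2 * (τ - 0))) := by
        have hc : Continuous (fun κ : ℝ => 2 * κ ^ 2 - r ^ 2 * (τ - κ)) := by fun_prop
        exact hc.tendsto 0
      exact this.eventually_lt_const (by
        have : 0 < r ^ 2 * τ := by positivity
        nlinarith)
    have e5 : ∀ᶠ κ : ℝ in 𝓝[>] 0, 0 < κ := self_mem_nhdsWithin
    obtain ⟨κ, h1, h2, h3, h4⟩ := (e5.and ((e1.filter_mono nhdsWithin_le_nhds).and
      ((e2.filter_mono nhdsWithin_le_nhds).and (e4.filter_mono nhdsWithin_le_nhds)))).exists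
    exact ⟨κ, h1, h2, h3, by linarith⟩
  refine ⟨κ, hκ0, ?_⟩
  intro W0 W hW0 hW hev0 hevW herr h0 hfr hne h1
  have hvn : ∀ v : Sph n, ‖(v : Eu n)‖ = 1 := fun v => mem_sphere_zero_iff_norm.1 v.2
  obtain ⟨E, hE⟩ : ∃ E : Sph n → Eu n, ∀ v, E v =
      inner ℝ (v : Eu n) (z : Eu n) • (v : Eu n) - τ • (z : Eu n) := ⟨fun v => _, fun v => rfl⟩
  have hEc : Continuous E := by
    have : E = fun v : Sph n => inner ℝ (v : Eu n) (z : Eu n) • (v : Eu n) - τ • (z : Eu n) :=
      funext hE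
    rw [this]
    fun_prop
  have hEev : ∀ v, E (-v) = E v := by
    intro v
    rw [hE, hE]
    have h2 : ((-v : Sph n) : Eu n) = -(v : Eu n) := rfl
    rw [h2, inner_neg_left, smul_neg, neg_smul, neg_neg]
  have herr' : ∀ v, ‖W0 v - E v‖ ≤ κ := fun v => by rw [hE]; exact herr v
  have hdist : ∀ v : Sph n, dist v z ^ 2 = 2 - 2 * inner ℝ (v : Eu n) (z : Eu n) := by
    intro v
    have h2 : dist v z = ‖(v : Eu n) - (z : Eu n)‖ := by
      rw [Subtype.dist_eq, dist_eq_norm]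
    rw [h2, norm_sub_sq_real, hvn, hnz]
    ring
  have hdist' : ∀ v : Sph n, dist v (-z) ^ 2 = 2 + 2 * inner ℝ (v : Eu n) (z : Eu n) := by
    intro v
    have h2 : dist v (-z) = ‖(v : Eu n) + (z : Eu n)‖ := by
      rw [Subtype.dist_eq, dist_eq_norm]
      congr 1
      change (v : Eu n) - (-(z : Eu n)) = _
      rw [sub_neg_eq_add]
    rw [h2, norm_add_sq_real, hvn, hnz]
    ring
  have hxl : ∀ v : Sph n, |inner ℝ (v : Eu n) (z : Eu n)| ≤ 1 := by
    intro v
    refine (abs_real_inner_le_norm _ _).trans ?_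
    rw [hvn, hnz, mul_one]
  -- the linear stage
  have hstep1 : ∀ v : Sph n, ∀ e : Eu n, ‖e‖ ≤ κ → E v + e ≠ 0 := by
    intro v e he heq
    have h2 : E v = -e := eq_neg_of_add_eq_zero_left heq
    have h3 : ‖E v‖ ^ 2 ≤ κ ^ 2 := by
      rw [h2, norm_neg]
      exact pow_le_pow_left₀ (norm_nonneg _) he 2
    have h4 : ‖E v‖ ^ 2 = (inner ℝ (v : Eu n) (z : Eu n)) ^ 2 * (1 - 2 * τ) + τ ^ 2 := by
      rw [hE, norm_sub_sq_real, norm_smul, norm_smul, hvn, hnz, inner_smul_left,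
        inner_smul_right, mul_one, mul_one, Real.norm_eq_abs, Real.norm_eq_abs, sq_abs, sq_abs]
      simp only [conj_trivial]
      ring
    obtain ⟨x, hx⟩ : ∃ x : ℝ, x = inner ℝ (v : Eu n) (z : Eu n) := ⟨_, rfl⟩
    have h5 : |x| ≤ 1 := by rw [hx]; exact hxl v
    rw [← hx] at h4
    have h6 : x ^ 2 ≤ 1 := by
      rw [← sq_abs]
      exact pow_le_one₀ (abs_nonneg _) h5
    rcases le_total (2 * τ) 1 with h7 | h7
    · have h8 : 0 ≤ x ^ 2 * (1 - 2 * τ) := mul_nonneg (sq_nonneg _) (by linarith)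
      nlinarith
    · have h8 : 1 * (1 - 2 * τ) ≤ x ^ 2 * (1 - 2 * τ) :=
        mul_le_mul_of_nonpos_right h6 (by linarith)
      nlinarith
  -- step two
  have hstep2 : ∀ v : Sph n, v ∉ U → ∀ s : ℝ, 0 ≤ s → W0 v ≠ s • (z : Eu n) := by
    intro v hv s hs heq
    obtain ⟨e, hee⟩ : ∃ e : Eu n, e = W0 v - E v := ⟨_, rfl⟩
    have he : ‖e‖ ≤ κ := by rw [hee]; exact herr' v
    obtain ⟨x, hx⟩ : ∃ x : ℝ, x = inner ℝ (v : Eu n) (z : Eu n) := ⟨_, rfl⟩
    have h2 : x • (v : Eu n) + e = (τ + s) • (z : Eu n) := by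
      rw [hee, hE, heq, ← hx]
      module
    have h3 : x ^ 2 + inner ℝ e (z : Eu n) = τ + s := by
      have h4 := congrArg (fun y : Eu n => inner ℝ y (z : Eu n)) h2
      simp only [inner_smul_left, inner_add_left, real_inner_self_eq_norm_sq, hnz] at h4
      rw [← hx] at h4
      simp only [conj_trivial] at h4
      nlinarith
    have hxl' : |x| ≤ 1 := by
      rw [hx]
      exact hxl v
    have h5 : r ^ 2 ≤ 2 - 2 * x := by
      rw [hx, ← hdist v]
      have h6 : r ≤ dist v z := by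
        by_contra h7
        exact hv (hrU (mem_ball.2 (not_le.1 h7)))
      exact pow_le_pow_left₀ hr0.le h6 2
    have h6 : r ^ 2 ≤ 2 + 2 * x := by
      rw [hx, ← hdist' v]
      have h7 : r ≤ dist v (-z) := by
        by_contra h8
        exact hv (hrU' (mem_ball.2 (not_le.1 h8)))
      exact pow_le_pow_left₀ hr0.le h7 2
    -- the orthogonal component
    have h7 : x • ((v : Eu n) - x • (z : Eu n)) = -(e - inner ℝ e (z : Eu n) • (z : Eu n)) := by
      have h8 : x • ((v : Eu n) - x • (z : Eu n)) +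
          (e - inner ℝ e (z : Eu n) • (z : Eu n)) = 0 := by
        have h9 : x • ((v : Eu n) - x • (z : Eu n)) +
          (e - inner ℝ e (z : Eu n) • (z : Eu n)) =
            (x • (v : Eu n) + e) - (x ^ 2 + inner ℝ e (z : Eu n)) • (z : Eu n) := by
          module
        rw [h9, h2, h3, sub_self]
      exact eq_neg_of_add_eq_zero_left h8
    have h8 : ‖(v : Eu n) - x • (z : Eu n)‖ ^ 2 = 1 - x ^ 2 := by
      rw [norm_sub_sq_real, hvn, norm_smul, hnz, inner_smul_right, ← hx, mul_one,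
        Real.norm_eq_abs, sq_abs]
      ring
    have h9 : ‖e - inner ℝ e (z : Eu n) • (z : Eu n)‖ ≤ κ := by
      have h10 : ‖e - inner ℝ e (z : Eu n) • (z : Eu n)‖ ^ 2 ≤ κ ^ 2 := by
        have h11 : ‖e - inner ℝ e (z : Eu n) • (z : Eu n)‖ ^ 2 =
            ‖e‖ ^ 2 - (inner ℝ e (z : Eu n)) ^ 2 := by
          rw [norm_sub_sq_real, norm_smul, hnz, inner_smul_right, mul_one,
            Real.norm_eq_abs, sq_abs]
          ring
        rw [h11]
        have h12 : ‖e‖ ^ 2 ≤ κ ^ 2 := pow_le_pow_left₀ (norm_nonneg _) he 2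
        nlinarith [sq_nonneg (inner ℝ e (z : Eu n))]
      exact (abs_le_of_sq_le_sq' h10 hκ0.le).2
    have h10 : x ^ 2 * (1 - x ^ 2) ≤ κ ^ 2 := by
      have h11 := congrArg (fun y : Eu n => ‖y‖ ^ 2) h7
      simp only [norm_smul, norm_neg, mul_pow, h8, Real.norm_eq_abs, sq_abs] at h11
      rw [h11]
      exact pow_le_pow_left₀ (norm_nonneg _) h9 2
    have h11 : r ^ 2 / 2 ≤ 1 - x ^ 2 := by
      have h12 : r ^ 2 / 2 ≤ 1 := by
        have : r ^ 2 ≤ 1 := pow_le_one₀ hr0.le hr1.le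
        linarith
      have h16 : 1 - x ^ 2 = (1 - x) * (1 + x) := by ring
      have h17 : 0 ≤ r ^ 2 / 2 := by positivity
      rw [h16]
      rcases le_total 0 x with h18 | h18
      · calc r ^ 2 / 2 = (r ^ 2 / 2) * 1 := (mul_one _).symm
          _ ≤ (1 - x) * (1 + x) := mul_le_mul (by linarith) (by linarith) zero_le_one (by linarith)
      · calc r ^ 2 / 2 = 1 * (r ^ 2 / 2) := (one_mul _).symm
          _ ≤ (1 - x) * (1 + x) := mul_le_mul (by linarith) (by linarith) h17 (by linarith)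
    have h12 : x ^ 2 * (r ^ 2 / 2) ≤ κ ^ 2 :=
      (mul_le_mul_of_nonneg_left h11 (sq_nonneg x)).trans h10
    have h13 : |inner ℝ e (z : Eu n)| ≤ κ := by
      refine (abs_real_inner_le_norm _ _).trans ?_
      rw [hnz, mul_one]
      exact he
    have h14 : τ ≤ x ^ 2 + κ := by linarith [(abs_le.1 h13).2]
    have h15 : r ^ 2 * (τ - κ) ≤ r ^ 2 * x ^ 2 :=
      mul_le_mul_of_nonneg_left (by linarith) (sq_nonneg r)
    nlinarith
  -- the extended family
  obtain ⟨F, hF⟩ : ∃ F : ℝ → Sph n → Eu n,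
      F = fun t v => if v ∈ closure U then W t v else W0 v := ⟨_, rfl⟩
  have hFin : ∀ t v, v ∈ closure U → F t v = W t v := by
    intro t v hv
    rw [hF]
    simp [hv]
  have hFout : ∀ t v, v ∉ closure U → F t v = W0 v := by
    intro t v hv
    rw [hF]
    simp [hv]
  have hFV : ∀ t ∈ Icc (0 : ℝ) 1, ∀ v ∉ U, F t v = W0 v := by
    intro t ht v hv
    by_cases h2 : v ∈ closure U
    · rw [hFin t v h2]
      refine hfr t ht v ?_
      rw [hU.frontier_eq]
      exact ⟨h2, hv⟩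
    · exact hFout t v h2
  have hF0 : ∀ v, F 0 v = W0 v := by
    intro v
    by_cases h2 : v ∈ closure U
    · rw [hFin 0 v h2, h0 v h2]
    · exact hFout 0 v h2
  have hFc : ContinuousOn (fun p : ℝ × Sph n => F p.1 p.2) (Icc (0 : ℝ) 1 ×ˢ univ) := by
    have h2 : ContinuousOn (fun p : ℝ × Sph n => F p.1 p.2) (Icc (0 : ℝ) 1 ×ˢ closure U) :=
      hW.congr fun p hp => hFin _ _ hp.2
    have h3 : ContinuousOn (fun p : ℝ × Sph n => F p.1 p.2) (Icc (0 : ℝ) 1 ×ˢ Uᶜ) :=
      ((hW0.comp continuous_snd).continuousOn (s := Icc (0 : ℝ) 1 ×ˢ Uᶜ)).congr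
        fun p hp => hFV _ hp.1 _ hp.2
    have h4 := h2.union_of_isClosed h3 (isClosed_Icc.prod isClosed_closure)
      (isClosed_Icc.prod hU.isClosed_compl)
    refine h4.mono ?_
    rintro ⟨t, v⟩ ⟨ht, -⟩
    by_cases h5 : v ∈ U
    · exact Or.inl ⟨ht, subset_closure h5⟩
    · exact Or.inr ⟨ht, h5⟩
  have hFne : ∀ t ∈ Icc (0 : ℝ) 1, ∀ v, F t v ≠ 0 := by
    intro t ht v
    by_cases h2 : v ∈ closure U
    · rw [hFin t v h2]
      exact hne t ht v h2
    · rw [hFout t v h2]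
      have h3 := hstep2 v (fun h => h2 (subset_closure h)) 0 le_rfl
      rwa [zero_smul] at h3
  have hF1 : ∀ v, ∀ s : ℝ, 0 ≤ s → F 1 v ≠ s • (z : Eu n) := by
    intro v s hs
    by_cases h2 : v ∈ closure U
    · rw [hFin 1 v h2]
      exact h1 v h2 s hs
    · rw [hFout 1 v h2]
      exact hstep2 v (fun h => h2 (subset_closure h)) s hs
  have hclos : ∀ v, v ∈ closure U → -v ∈ closure U := by
    intro v hv
    have h2 : (fun v : Sph n => -v) ⁻¹' closure U = closure ((fun v : Sph n => -v) ⁻¹' U) :=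
      (Homeomorph.neg (Sph n)).preimage_closure U
    have h3 : U ⊆ (fun v : Sph n => -v) ⁻¹' U := fun v hv => hUs v hv
    have h4 : v ∈ closure ((fun v : Sph n => -v) ⁻¹' U) := closure_mono h3 hv
    rw [← h2] at h4
    exact h4
  have hFev : ∀ t ∈ Icc (0 : ℝ) 1, ∀ v, F t (-v) = F t v := by
    intro t ht v
    by_cases h2 : v ∈ closure U
    · rw [hFin t v h2, hFin t _ (hclos v h2), hevW t ht v h2]
    · have h3 : -v ∉ closure U := fun h => h2 (by
        have := hclos _ h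
        rwa [neg_neg] at this)
      rw [hFout t v h2, hFout t _ h3, hev0]
  obtain ⟨m, hm⟩ : ∃ m, n = m + 1 := ⟨n - 1, by have := NeZero.pos n; omega⟩
  subst hm
  refine QTopE.no_even hτ0 hτ1 (z := z)
    (fun t v => (1 - min (2 * t) 1) • E v + min (2 * t) 1 • W0 v +
      (F (max (2 * t - 1) 0) v - W0 v)) ?_ ?_ ?_ ?_ ?_
  · have h2 : Continuous fun p : ℝ × Sph (m + 1) => (1 - min (2 * p.1) 1) • E p.2 +
        min (2 * p.1) 1 • W0 p.2 := by
      have e1 := hEc.comp (continuous_snd (X := ℝ) (Y := Sph (m + 1)))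
      have e2 := hW0.comp (continuous_snd (X := ℝ) (Y := Sph (m + 1)))
      have e3 : Continuous fun p : ℝ × Sph (m + 1) => min (2 * p.1) 1 := by fun_prop
      exact ((continuous_const.sub e3).smul e1).add (e3.smul e2)
    have h3 : ContinuousOn (fun p : ℝ × Sph (m + 1) => F (max (2 * p.1 - 1) 0) p.2)
        (Icc (0 : ℝ) 1 ×ˢ univ) := by
      have e1 : Continuous fun p : ℝ × Sph (m + 1) =>
          ((max (2 * p.1 - 1) 0, p.2) : ℝ × Sph (m + 1)) := by fun_prop
      refine hFc.comp e1.continuousOn fun p hp => ⟨⟨le_max_right _ _, ?_⟩, mem_univ _⟩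
      exact max_le (by linarith [hp.1.2]) zero_le_one
    have h4 := h3.sub ((hW0.comp (continuous_snd (X := ℝ) (Y := Sph (m + 1)))).continuousOn)
    exact h2.continuousOn.add h4
  · intro v
    show (1 - min (2 * (0 : ℝ)) 1) • E v + min (2 * (0 : ℝ)) 1 • W0 v +
      (F (max (2 * (0 : ℝ) - 1) 0) v - W0 v) = _
    have e1 : min (2 * (0 : ℝ)) 1 = 0 := by norm_num
    have e2 : max (2 * (0 : ℝ) - 1) 0 = 0 := by norm_num
    rw [e1, e2, hF0, sub_self, sub_zero, one_smul, zero_smul, add_zero, add_zero, hE]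
  · intro t ht v
    show (1 - min (2 * t) 1) • E (-v) + min (2 * t) 1 • W0 (-v) +
      (F (max (2 * t - 1) 0) (-v) - W0 (-v)) = (1 - min (2 * t) 1) • E v + min (2 * t) 1 • W0 v +
      (F (max (2 * t - 1) 0) v - W0 v)
    rw [hEev, hev0, hFev _ ⟨le_max_right _ _, max_le (by linarith [ht.2]) zero_le_one⟩]
  · intro t ht v h2
    have h2' : (1 - min (2 * t) 1) • E v + min (2 * t) 1 • W0 v +
      (F (max (2 * t - 1) 0) v - W0 v) = 0 := h2
    rcases le_total (2 * t) 1 with h3 | h3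
    · rw [min_eq_left h3, max_eq_right (by linarith), hF0, sub_self, add_zero] at h2'
      refine hstep1 v ((2 * t) • (W0 v - E v)) ?_ ?_
      · rw [norm_smul, Real.norm_eq_abs, abs_of_nonneg (by linarith [ht.1])]
        have := herr' v
        nlinarith [norm_nonneg (W0 v - E v)]
      · rw [← h2']
        module
    · rw [min_eq_right h3, max_eq_left (by linarith), sub_self, zero_smul, one_smul, zero_add,
        add_sub_cancel] at h2'
      exact hFne _ ⟨by linarith, by linarith [ht.2]⟩ v h2'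
  · intro v s hs h2
    have h2' : (1 - min (2 * (1 : ℝ)) 1) • E v + min (2 * (1 : ℝ)) 1 • W0 v +
      (F (max (2 * (1 : ℝ) - 1) 0) v - W0 v) = s • (z : Eu (m + 1)) := h2
    have e1 : min (2 * (1 : ℝ)) 1 = 1 := by norm_num
    have e2 : max (2 * (1 : ℝ) - 1) 0 = 1 := by norm_num
    rw [e1, e2, sub_self, zero_smul, one_smul, zero_add, add_sub_cancel] at h2'
    exact hF1 v s hs h2'

end Pool.Agent.Lib.MP_b0d2bf_gt
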