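import Mathlib
import Pool.Agent.Lib.MP_b0d2bf_gt.QDefs

set_option autoImplicit false

/-!
Two integrals over the sphere: the second moments of the surface measure are infinite, and the
logarithmic potential of a finite measure is finite somewhere.
-/

namespace Pool.Agent.Lib.MP_b0d2bf_gt

open MeasureTheory Metric Set Filter Topology

/-- the cone over a measurable part of the sphere, lower bound -/
private lemma qsig_le {n : ℕ} {A : Set (Sph n)} (hA : MeasurableSet A) {B : Set (Eu n)}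
    (h : ∀ x ∈ B, ∃ hx : x ≠ 0, ‖x‖ < 1 ∧ dirS x hx ∈ A) : n * volume B ≤ sg n A := by
  unfold sg
  rw [Measure.toSphere_apply' _ hA, finrank_euclideanSpace_fin]
  gcongr
  intro x hxB
  obtain ⟨hx, h1, h2⟩ := h x hxB
  exact ⟨‖x‖, ⟨norm_pos_iff.2 hx, h1⟩, (dirS x hx : Eu n), ⟨_, h2, rfl⟩, norm_smul_dirS x hx⟩

/-- the cone over a measurable part of the sphere, upper bound -/
private lemma qsig_ge {n : ℕ} {A : Set (Sph n)} (hA : MeasurableSet A) {B : Set (Eu n)}
    (h : ∀ u ∈ A, ∀ r : ℝ, 0 < r → r < 1 → r • (u : Eu n) ∈ B) : sg n A ≤ n * volume B := by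
  unfold sg
  rw [Measure.toSphere_apply' _ hA, finrank_euclideanSpace_fin]
  gcongr
  rintro _ ⟨r, hr, _, ⟨u, hu, rfl⟩, rfl⟩
  exact h u hu r hr.1 hr.2

/-- orthonormal basis with one given vector -/
private lemma qsig_basis1 {n : ℕ} [NeZero n] (u : Sph n) :
    ∃ b : OrthonormalBasis (Fin n) ℝ (Eu n), b 0 = (u : Eu n) := by
  have hv : Orthonormal ℝ (({0} : Set (Fin n)).domRestrict (fun _ : Fin n => (u : Eu n))) := by
    rw [orthonormal_iff_ite]
    rintro ⟨i, hi⟩ ⟨j, hj⟩
    rw [mem_singleton_iff] at hi hj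
    subst hi hj
    simp [norm_sph]
  obtain ⟨b, hb⟩ := hv.exists_orthonormalBasis_extension_of_card_eq (by simp)
  exact ⟨b, hb 0 rfl⟩

/-- orthonormal basis with two given vectors -/
private lemma qsig_basis2 {n : ℕ} {z w : Sph n}
    (h : inner ℝ (w : Eu n) (z : Eu n) = (0 : ℝ)) :
    ∃ (b : OrthonormalBasis (Fin n) ℝ (Eu n)) (i j : Fin n), i ≠ j ∧ b i = (w : Eu n) ∧
      b j = (z : Eu n) := by
  have hn : 2 ≤ n := by
    have ho : Orthonormal ℝ (![(w : Eu n), (z : Eu n)]) := by
      rw [orthonormal_iff_ite]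
      intro i j
      fin_cases i <;> fin_cases j <;> simp [norm_sph, h, real_inner_comm (w : Eu n) (z : Eu n)]
    have h1 := ho.linearIndependent.fintype_card_le_finrank
    simpa using h1
  have hij : (⟨0, by omega⟩ : Fin n) ≠ ⟨1, by omega⟩ := by simp
  obtain ⟨i, hi⟩ : ∃ i : Fin n, i = ⟨0, by omega⟩ := ⟨_, rfl⟩
  obtain ⟨j, hj⟩ : ∃ j : Fin n, j = ⟨1, by omega⟩ := ⟨_, rfl⟩
  rw [← hi, ← hj] at hij
  have hv : Orthonormal ℝ (({i, j} : Set (Fin n)).domRestrict
      (fun k : Fin n => if k = i then (w : Eu n) else (z : Eu n))) := by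
    rw [orthonormal_iff_ite]
    rintro ⟨k, hk⟩ ⟨l, hl⟩
    rw [mem_insert_iff, mem_singleton_iff] at hk hl
    rcases hk with rfl | rfl <;> rcases hl with rfl | rfl <;>
      simp [norm_sph, h, hij, hij.symm, real_inner_comm (w : Eu n) (z : Eu n)]
  obtain ⟨b, hb⟩ := hv.exists_orthonormalBasis_extension_of_card_eq (by simp)
  refine ⟨b, i, j, hij, ?_, ?_⟩
  · rw [hb i (by simp)]; simp
  · rw [hb j (by simp)]; simp [hij.symm]

private lemma qsig_lower {n : ℕ} [NeZero n] {z w : Sph n}
    (h : inner ℝ (w : Eu n) (z : Eu n) = (0 : ℝ)) : ∃ c : ℝ, 0 < c ∧ ∀ t : ℝ, 0 < t → t ≤ 1 →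
      ENNReal.ofReal (c * t) ≤ sg n {u : Sph n | 0 < inner ℝ (u : Eu n) (z : Eu n) ∧
        inner ℝ (u : Eu n) (z : Eu n) < t ∧ 1 / 2 ≤ inner ℝ (u : Eu n) (w : Eu n)} := by
  obtain ⟨b, i, j, hij, hbi, hbj⟩ := qsig_basis2 h
  have hn : 0 < n := NeZero.pos n
  have hn' : (0 : ℝ) < n := by exact_mod_cast hn
  obtain ⟨a, ha⟩ : ∃ a : Fin n → ℝ, a = fun k => if k = i then (1 : ℝ) / 16 else
      if k = j then (1 : ℝ) / 8 else (1 : ℝ) / (4 * (n : ℝ)) := ⟨_, rfl⟩
  have ha0 : ∀ k, 0 < a k := by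
    intro k
    rw [ha]
    simp only
    split_ifs <;> positivity
  refine ⟨n * ∏ k, (2 * a k), mul_pos hn' (Finset.prod_pos fun k _ => mul_pos two_pos (ha0 k)),
    fun t ht ht1 => ?_⟩
  obtain ⟨A, hA⟩ : ∃ A : Fin n → ℝ, A = fun k => (if k = j then t else 1) * a k := ⟨_, rfl⟩
  obtain ⟨x0, hx0⟩ : ∃ x0 : Eu n, x0 = (5 / 8 : ℝ) • (w : Eu n) + (3 * t / 8) • (z : Eu n) :=
    ⟨_, rfl⟩
  have hm : MeasurableSet {u : Sph n | 0 < inner ℝ (u : Eu n) (z : Eu n) ∧
        inner ℝ (u : Eu n) (z : Eu n) < t ∧ 1 / 2 ≤ inner ℝ (u : Eu n) (w : Eu n)} := by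
    have hz : Continuous fun u : Sph n => inner ℝ (u : Eu n) (z : Eu n) := by fun_prop
    have hw : Continuous fun u : Sph n => inner ℝ (u : Eu n) (w : Eu n) := by fun_prop
    exact (isOpen_lt continuous_const hz).measurableSet.inter
      ((isOpen_lt hz continuous_const).measurableSet.inter
        (isClosed_le continuous_const hw).measurableSet)
  have h1 : volume {x : Eu n | ∀ k, |inner ℝ (b k) (x - x0)| ≤ A k} =
      ∏ k, ENNReal.ofReal (2 * A k) := by
    rw [← volume_box b A]
    have : {x : Eu n | ∀ k, |inner ℝ (b k) (x - x0)| ≤ A k} =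
        (fun x => x + -x0) ⁻¹' {x : Eu n | ∀ k, |inner ℝ (b k) x| ≤ A k} := by
      ext x
      simp [sub_eq_add_neg]
    rw [this, measure_preimage_add_right]
  have h2 : ∏ k, ENNReal.ofReal (2 * A k) = ENNReal.ofReal (t * ∏ k, (2 * a k)) := by
    rw [← ENNReal.ofReal_prod_of_nonneg]
    · congr 1
      rw [hA]
      have : ∀ k, 2 * ((if k = j then t else 1) * a k) = (if k = j then t else 1) * (2 * a k) :=
        fun k => by ring
      simp only [this]
      rw [Finset.prod_mul_distrib, Finset.prod_ite_eq' Finset.univ j fun _ => t]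
      simp
    · intro k _
      rw [hA]
      simp only
      have := ha0 k
      split_ifs <;> positivity
  have h3 := qsig_le hm (B := {x : Eu n | ∀ k, |inner ℝ (b k) (x - x0)| ≤ A k}) (by
    intro x hx
    have hk : ∀ k, inner ℝ (b k) x0 = if k = i then 5 / 8 else if k = j then 3 * t / 8 else 0 := by
      intro k
      rw [hx0, ← hbi, ← hbj, inner_add_right, inner_smul_right, inner_smul_right,
        orthonormal_iff_ite.1 b.orthonormal, orthonormal_iff_ite.1 b.orthonormal]
      by_cases h1 : k = i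
      · subst h1
        simp [hij]
      · by_cases h2 : k = j
        · subst h2
          simp [h1]
        · simp [h1, h2]
    have hw := hx i
    have hz := hx j
    rw [inner_sub_right, hk, hA, ha] at hw hz
    simp only [if_true, hij, hij.symm, if_false, one_mul] at hw hz
    rw [hbi, real_inner_comm, abs_le] at hw
    rw [hbj, real_inner_comm, abs_le] at hz
    have hw1 : 9 / 16 ≤ inner ℝ x (w : Eu n) := by linarith [hw.1]
    have hw2 : inner ℝ x (w : Eu n) ≤ 11 / 16 := by linarith [hw.2]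
    have hz1 : t / 4 ≤ inner ℝ x (z : Eu n) := by linarith [hz.1]
    have hz2 : inner ℝ x (z : Eu n) ≤ t / 2 := by linarith [hz.2]
    have hxx : x ≠ 0 := by
      rintro rfl
      rw [inner_zero_left] at hw1
      norm_num at hw1
    have hnx : ‖x‖ ^ 2 < 1 := by
      rw [← b.sum_sq_norm_inner_right x]
      have hb : ∀ k, ‖inner ℝ (b k) x‖ ^ 2 ≤ (if k = i then (11 / 16) ^ 2 else 0) +
          (if k = j then (1 / 2) ^ 2 else 0) + 1 / (16 * n) := by
        intro k
        rw [Real.norm_eq_abs, sq_abs]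
        by_cases h1 : k = i
        · subst h1
          rw [hbi, real_inner_comm]
          simp only [if_true, hij, if_false, add_zero]
          have : 0 < 1 / (16 * (n : ℝ)) := by positivity
          nlinarith
        · by_cases h2 : k = j
          · subst h2
            rw [hbj, real_inner_comm]
            simp only [if_true, h1, if_false, zero_add]
            have : 0 < 1 / (16 * (n : ℝ)) := by positivity
            nlinarith
          · have h3 := hx k
            rw [inner_sub_right, hk, hA, ha] at h3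
            simp only [h1, h2, if_false, one_mul, sub_zero] at h3
            simp only [h1, h2, if_false, zero_add]
            rw [← sq_abs]
            calc |inner ℝ (b k) x| ^ 2 ≤ (1 / (4 * (n : ℝ))) ^ 2 :=
                  pow_le_pow_left₀ (abs_nonneg _) h3 2
              _ ≤ 1 / (16 * n) := by
                  have hn1 : (1 : ℝ) ≤ n := by exact_mod_cast hn
                  rw [div_pow, one_pow, mul_pow]
                  apply one_div_le_one_div_of_le (by positivity)
                  nlinarith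
      calc ∑ k, ‖inner ℝ (b k) x‖ ^ 2 ≤ ∑ k : Fin n, ((if k = i then (11 / 16 : ℝ) ^ 2 else 0) +
            (if k = j then (1 / 2) ^ 2 else 0) + 1 / (16 * n)) := Finset.sum_le_sum fun k _ => hb k
        _ = (11 / 16) ^ 2 + (1 / 2) ^ 2 + 1 / 16 := by
            rw [Finset.sum_add_distrib, Finset.sum_add_distrib]
            simp
            field_simp
        _ < 1 := by norm_num
    have hx1 : ‖x‖ < 1 := by nlinarith [norm_nonneg x]
    have hx2 : 9 / 16 ≤ ‖x‖ := hw1.trans ((le_abs_self _).trans (abs_inner_le x w))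
    have hx3 : 0 < ‖x‖ := by linarith
    have hi : ∀ y : Eu n, inner ℝ (dirS x hxx : Eu n) y = ‖x‖⁻¹ * inner ℝ x y := by
      intro y
      unfold dirS
      rw [inner_smul_left]
      rfl
    refine ⟨hxx, hx1, ?_, ?_, ?_⟩
    · rw [hi]
      have : 0 < inner ℝ x (z : Eu n) := by linarith
      positivity
    · rw [hi, inv_mul_lt_iff₀ hx3]
      nlinarith
    · rw [hi, le_inv_mul_iff₀ hx3]
      nlinarith)
  refine le_trans (le_of_eq ?_) h3
  rw [h1, h2, ← ENNReal.ofReal_natCast n, ← ENNReal.ofReal_mul hn'.le]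
  congr 1
  ring

theorem sec_sigma {n : ℕ} [NeZero n] {z w : Sph n}
    (h : inner ℝ (w : Eu n) (z : Eu n) = (0 : ℝ)) :
    ∫⁻ u : Sph n, ENNReal.ofReal (rat z w u) ∂(sg n) = ⊤ := by
  obtain ⟨c, hc, hc2⟩ := qsig_lower h
  have key : ∀ t : ℝ, 0 < t → t ≤ 1 →
      ENNReal.ofReal (c / (4 * t)) ≤ ∫⁻ u : Sph n, ENNReal.ofReal (rat z w u) ∂(sg n) := by
    intro t ht ht1
    have h1 := mul_meas_ge_le_lintegral₀ (μ := sg n)
      (f := fun u : Sph n => ENNReal.ofReal (rat z w u)) (by
        unfold rat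
        have hz : Measurable fun u : Sph n => inner ℝ (u : Eu n) (z : Eu n) :=
          (by fun_prop : Continuous fun u : Sph n => inner ℝ (u : Eu n) (z : Eu n)).measurable
        have hw : Measurable fun u : Sph n => inner ℝ (u : Eu n) (w : Eu n) :=
          (by fun_prop : Continuous fun u : Sph n => inner ℝ (u : Eu n) (w : Eu n)).measurable
        exact ((hw.pow_const 2).div (hz.pow_const 2)).ennreal_ofReal.aemeasurable)
      (ENNReal.ofReal (1 / (4 * t ^ 2)))
    refine le_trans ?_ h1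
    calc ENNReal.ofReal (c / (4 * t)) = ENNReal.ofReal (1 / (4 * t ^ 2)) *
          ENNReal.ofReal (c * t) := by
            rw [← ENNReal.ofReal_mul (by positivity)]
            congr 1
            field_simp
      _ ≤ _ := by
            gcongr
            refine (hc2 t ht ht1).trans (measure_mono ?_)
            rintro u ⟨h1, h2, h3⟩
            show ENNReal.ofReal (1 / (4 * t ^ 2)) ≤ ENNReal.ofReal (rat z w u)
            apply ENNReal.ofReal_le_ofReal
            unfold rat
            rw [div_le_div_iff₀ (by positivity) (by positivity)]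
            have h4 : inner ℝ (u : Eu n) (z : Eu n) ^ 2 ≤ t ^ 2 :=
              pow_le_pow_left₀ h1.le h2.le 2
            have h5 : (1 / 2) ^ 2 ≤ inner ℝ (u : Eu n) (w : Eu n) ^ 2 :=
              pow_le_pow_left₀ (by norm_num) h3 2
            have h6 : 0 < t ^ 2 := by positivity
            nlinarith
  by_contra hne
  obtain ⟨X, hX⟩ := (⟨_, ENNReal.coe_toNNReal hne⟩ : ∃ X : NNReal, (X : ENNReal) = _)
  rw [← hX] at key
  obtain ⟨t, ht⟩ : ∃ t : ℝ, t = min 1 (c / (4 * (X + 1))) := ⟨_, rfl⟩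
  have hX0 : (0 : ℝ) ≤ X := X.2
  have ht0 : 0 < t := by rw [ht]; exact lt_min one_pos (by positivity)
  have h1 := key t ht0 (by rw [ht]; exact min_le_left _ _)
  have h2 : (X : ℝ) + 1 ≤ c / (4 * t) := by
    rw [le_div_iff₀ (by positivity)]
    have h3 : t ≤ c / (4 * (X + 1)) := by rw [ht]; exact min_le_right _ _
    rw [le_div_iff₀ (by positivity)] at h3
    linarith
  have h3 : ENNReal.ofReal (c / (4 * t)) ≤ ENNReal.ofReal X := by
    rw [ENNReal.ofReal_coe_nnreal]
    exact h1
  rw [ENNReal.ofReal_le_ofReal_iff hX0] at h3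
  linarith

private lemma nlog_le {s : ℝ} (hs : 0 ≤ s) : nlog s ≤
    ∑' k : ℕ, (if s < Real.exp (-(k : ℝ)) then 1 else 0 : ENNReal) := by
  have key : ∀ N : ℕ, (∀ k < N, s < Real.exp (-(k : ℝ))) → (N : ENNReal) ≤
      ∑' k : ℕ, (if s < Real.exp (-(k : ℝ)) then 1 else 0 : ENNReal) := by
    intro N hN
    calc (N : ENNReal) = ∑ k ∈ Finset.range N, (1 : ENNReal) := by simp
      _ = ∑ k ∈ Finset.range N, (if s < Real.exp (-(k : ℝ)) then 1 else 0 : ENNReal) := by
          refine Finset.sum_congr rfl fun k hk => ?_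
          rw [if_pos (hN k (Finset.mem_range.1 hk))]
      _ ≤ _ := ENNReal.sum_le_tsum _
  unfold nlog
  by_cases h0 : s = 0
  · rw [if_pos h0, top_le_iff]
    refine ENNReal.eq_top_of_forall_nnreal_le fun r => ?_
    obtain ⟨N, hN⟩ := exists_nat_ge r
    refine le_trans ?_ (key N fun k _ => by rw [h0]; exact Real.exp_pos _)
    exact_mod_cast hN
  · rw [if_neg h0]
    have hs' : 0 < s := lt_of_le_of_ne hs (Ne.symm h0)
    refine le_trans ?_ (key ⌈-Real.log s⌉₊ fun k hk => ?_)
    · rw [← ENNReal.ofReal_natCast]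
      exact ENNReal.ofReal_le_ofReal (Nat.le_ceil _)
    · rw [Nat.lt_ceil] at hk
      rw [← Real.log_lt_iff_lt_exp hs']
      linarith

private lemma qsig_strip {n : ℕ} [NeZero n] (u : Sph n) {t : ℝ} (ht : 0 < t) :
    sg n {v : Sph n | |inner ℝ (u : Eu n) (v : Eu n)| < t} ≤ ENNReal.ofReal (n * (2 ^ n * t)) := by
  obtain ⟨b, hb⟩ := qsig_basis1 u
  have hn : 0 < n := NeZero.pos n
  have hn' : (0 : ℝ) < n := by exact_mod_cast hn
  have hm : MeasurableSet {v : Sph n | |inner ℝ (u : Eu n) (v : Eu n)| < t} :=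
    (isOpen_lt (by fun_prop) continuous_const).measurableSet
  have h1 := qsig_ge hm (B := {x : Eu n | ∀ k, |inner ℝ (b k) x| ≤ if k = 0 then t else 1}) (by
    intro v hv r hr hr1 k
    rw [inner_smul_right, abs_mul, abs_of_pos hr]
    by_cases hk : k = 0
    · rw [if_pos hk, hk, hb]
      have hv' : |inner ℝ (u : Eu n) (v : Eu n)| < t := hv
      nlinarith [abs_nonneg (inner ℝ (u : Eu n) (v : Eu n))]
    · rw [if_neg hk]
      have h2 : |inner ℝ (b k) (v : Eu n)| ≤ 1 := by
        have := abs_inner_le (b k) v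
        rwa [b.norm_eq_one] at this
      nlinarith [abs_nonneg (inner ℝ (b k) (v : Eu n))])
  refine h1.trans (le_of_eq ?_)
  rw [volume_box, ← ENNReal.ofReal_prod_of_nonneg, ← ENNReal.ofReal_natCast n,
    ← ENNReal.ofReal_mul hn'.le]
  · congr 2
    have : ∀ k : Fin n, 2 * (if k = 0 then t else 1) = 2 * (if k = 0 then t else 1) := fun _ => rfl
    rw [Finset.prod_mul_distrib, Finset.prod_ite_eq' Finset.univ (0 : Fin n) fun _ => t]
    simp
  · intro k _
    split_ifs <;> positivity

theorem exists_pot_fin {n : ℕ} [NeZero n] (μ : Measure (Sph n)) [IsFiniteMeasure μ] :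
    ∃ v : Sph n, pot μ v ≠ ⊤ := by
  obtain ⟨g, hg⟩ : ∃ g : Sph n → Sph n → ENNReal, g = fun u v : Sph n => ∑' k : ℕ,
    (if |inner ℝ (u : Eu n) (v : Eu n)| < Real.exp (-(k : ℝ)) then 1 else 0 : ENNReal) := ⟨_, rfl⟩
  have hm1 : ∀ k : ℕ, Measurable fun p : Sph n × Sph n =>
      (if |inner ℝ (p.1 : Eu n) (p.2 : Eu n)| < Real.exp (-(k : ℝ)) then 1 else 0 : ENNReal) := by
    intro k
    refine Measurable.ite ?_ measurable_const measurable_const
    exact (isOpen_lt (by fun_prop) continuous_const).measurableSet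
  have hm : Measurable (Function.uncurry g) := by
    rw [hg]
    exact Measurable.tsum hm1
  have hD : ∀ u : Sph n, ∫⁻ v, g u v ∂(sg n) ≤
      ∑' k : ℕ, ENNReal.ofReal (n * (2 ^ n * Real.exp (-(k : ℝ)))) := by
    intro u
    rw [hg]
    simp only
    rw [lintegral_tsum]
    · refine ENNReal.tsum_le_tsum fun k => ?_
      have h1 : ∀ v : Sph n, (if |inner ℝ (u : Eu n) (v : Eu n)| < Real.exp (-(k : ℝ)) then 1
          else 0 : ENNReal) = ({v : Sph n | |inner ℝ (u : Eu n) (v : Eu n)| <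
            Real.exp (-(k : ℝ))}).indicator 1 v := by
        intro v
        rfl
      simp only [h1]
      rw [lintegral_indicator_one (isOpen_lt (by fun_prop) continuous_const).measurableSet]
      exact qsig_strip u (Real.exp_pos _)
    · intro k
      exact ((hm1 k).comp measurable_prodMk_left).aemeasurable
  have hDt : ∑' k : ℕ, ENNReal.ofReal (n * (2 ^ n * Real.exp (-(k : ℝ)))) < ⊤ := by
    have h1 : ∀ k : ℕ, ENNReal.ofReal (n * (2 ^ n * Real.exp (-(k : ℝ)))) =
        ENNReal.ofReal (n * 2 ^ n) * (ENNReal.ofReal (Real.exp (-1))) ^ k := by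
      intro k
      rw [← ENNReal.ofReal_pow (Real.exp_pos _).le, ← ENNReal.ofReal_mul (by positivity),
        ← Real.exp_nat_mul]
      congr 1
      rw [mul_assoc]
      congr 3
      ring
    simp only [h1]
    rw [ENNReal.tsum_mul_left, ENNReal.tsum_geometric]
    refine ENNReal.mul_lt_top ENNReal.ofReal_lt_top ?_
    rw [ENNReal.inv_lt_top, tsub_pos_iff_lt]
    rw [← ENNReal.ofReal_one]
    exact (ENNReal.ofReal_lt_ofReal_iff one_pos).2 (by
      rw [Real.exp_lt_one_iff]
      norm_num)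
  have hfin : ∫⁻ v, ∫⁻ u, g u v ∂μ ∂(sg n) < ⊤ := by
    rw [lintegral_lintegral_swap (f := fun v u => g u v) (hm.comp measurable_swap).aemeasurable]
    calc ∫⁻ u, ∫⁻ v, g u v ∂(sg n) ∂μ ≤
          ∫⁻ u, ∑' k : ℕ, ENNReal.ofReal (n * (2 ^ n * Real.exp (-(k : ℝ)))) ∂μ :=
            lintegral_mono hD
      _ = (∑' k : ℕ, ENNReal.ofReal (n * (2 ^ n * Real.exp (-(k : ℝ))))) * μ univ :=
            lintegral_const _
      _ < ⊤ := ENNReal.mul_lt_top hDt (measure_lt_top μ univ)
  have hmv : Measurable fun v => ∫⁻ u, g u v ∂μ :=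
    (hm.comp measurable_swap).lintegral_prod_right'
  have hae := ae_lt_top hmv hfin.ne
  have : (ae (sg n)).NeBot := ae_neBot.2 sg_ne_zero
  obtain ⟨v, hv⟩ := hae.exists
  refine ⟨v, (lt_of_le_of_lt ?_ hv).ne⟩
  unfold pot
  refine lintegral_mono fun u => ?_
  rw [hg]
  exact nlog_le (abs_nonneg _)

end Pool.Agent.Lib.MP_b0d2bf_gt
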