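import Mathlib
import Pool.Agent.Lib.MP_b0d2bf_gt.QMainE
import Pool.Agent.Lib.MP_b0d2bf_gt.QSig
import Pool.Agent.Lib.MP_b0d2bf_gt.QPot

set_option autoImplicit false

/-!
Large `q`: measures which dominate the surface measure on an open set meeting every great
subsphere.
-/

namespace Pool.Agent.Lib.MP_b0d2bf_gt

open MeasureTheory Metric Set Filter Topology

section QCor

variable {n : ℕ} [NeZero n]

private lemma qc_basis (u : Sph n) :
    ∃ b : OrthonormalBasis (Fin n) ℝ (Eu n), b 0 = (u : Eu n) := by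
  have hv : Orthonormal ℝ (({0} : Set (Fin n)).domRestrict (fun _ : Fin n => (u : Eu n))) := by
    rw [orthonormal_iff_ite]
    rintro ⟨i, hi⟩ ⟨j, hj⟩
    rw [mem_singleton_iff] at hi hj
    subst hi hj
    simp [norm_sph]
  obtain ⟨b, hb⟩ := hv.exists_orthonormalBasis_extension_of_card_eq (by simp)
  exact ⟨b, hb 0 rfl⟩

private lemma qc_le {A : Set (Sph n)} (hA : MeasurableSet A) {B : Set (Eu n)}
    (h : ∀ x ∈ B, ∃ hx : x ≠ 0, ‖x‖ < 1 ∧ dirS x hx ∈ A) : n * volume B ≤ sg n A := by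
  unfold sg
  rw [Measure.toSphere_apply' _ hA, finrank_euclideanSpace_fin]
  gcongr
  intro x hxB
  obtain ⟨hx, h1, h2⟩ := h x hxB
  exact ⟨‖x‖, ⟨norm_pos_iff.2 hx, h1⟩, (dirS x hx : Eu n), ⟨_, h2, rfl⟩, norm_smul_dirS x hx⟩

/-- The lower bound of the surface measure of a thin part of an open set. -/
private lemma qc_lower {z u0 : Sph n} (h0 : inner ℝ (u0 : Eu n) (z : Eu n) = (0 : ℝ))
    {V : Set (Sph n)} (hV : IsOpen V) (hu0 : u0 ∈ V) : ∃ c : ℝ, 0 < c ∧
      ∀ t : ℝ, 0 < t → t ≤ 1 → ENNReal.ofReal (c * t) ≤ sg n {u : Sph n | u ∈ V ∧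
        0 < inner ℝ (u : Eu n) (z : Eu n) ∧ inner ℝ (u : Eu n) (z : Eu n) < t} := by
  obtain ⟨b, hb⟩ := qc_basis z
  have hn : 0 < n := NeZero.pos n
  have hn' : (0 : ℝ) < n := by exact_mod_cast hn
  obtain ⟨O, hO, hOV⟩ := isOpen_induced_iff.1 hV
  obtain ⟨y0, hy0⟩ : ∃ y0 : Eu n, y0 = (1 / 2 : ℝ) • (u0 : Eu n) := ⟨_, rfl⟩
  have hny : ‖y0‖ = 1 / 2 := by
    rw [hy0, norm_smul, norm_sph, Real.norm_eq_abs]
    norm_num
  have hy00 : y0 ≠ 0 := by
    intro h
    rw [h, norm_zero] at hny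
    norm_num at hny
  have hcont : ContinuousAt (fun x : Eu n => ‖x‖⁻¹ • x) y0 :=
    (continuous_norm.continuousAt.inv₀ (norm_ne_zero_iff.2 hy00)).smul continuousAt_id
  have hval : ‖y0‖⁻¹ • y0 = (u0 : Eu n) := by
    rw [hny, hy0, smul_smul]
    norm_num
  have hOmem : ∀ᶠ x in 𝓝 y0, ‖x‖⁻¹ • x ∈ O := by
    refine hcont.eventually_mem (hO.mem_nhds ?_)
    rw [hval]
    have : u0 ∈ Subtype.val ⁻¹' O := by rw [hOV]; exact hu0
    exact this
  obtain ⟨δ, hδ, hδO⟩ := Metric.eventually_nhds_iff.1 hOmem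
  obtain ⟨η, hη⟩ : ∃ η : ℝ, η = min δ (1 / 4) / (2 * (n + 1)) := ⟨_, rfl⟩
  have hη0 : 0 < η := by
    rw [hη]
    exact div_pos (lt_min hδ (by norm_num)) (by positivity)
  have hηs : (n + 1) * η = min δ (1 / 4) / 2 := by
    rw [hη]
    field_simp
  have hη1 : (n + 1) * η < δ := by
    rw [hηs]
    have := min_le_left δ (1 / 4)
    linarith
  have hη2 : (n + 1) * η < 1 / 4 := by
    rw [hηs]
    have := min_le_right δ (1 / 4)
    have : 0 < min δ (1 / 4) := lt_min hδ (by norm_num)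
    linarith
  have hη3 : η < 1 / 4 := by nlinarith
  obtain ⟨a, ha⟩ : ∃ a : Fin n → ℝ, a = fun k => if k = 0 then η / 16 else η := ⟨_, rfl⟩
  have ha0 : ∀ k, 0 < a k := by
    intro k
    rw [ha]
    simp only
    split_ifs <;> positivity
  refine ⟨n * ∏ k, (2 * a k), mul_pos hn' (Finset.prod_pos fun k _ => mul_pos two_pos (ha0 k)),
    fun t ht ht1 => ?_⟩
  obtain ⟨A, hA⟩ : ∃ A : Fin n → ℝ, A = fun k => (if k = 0 then t else 1) * a k := ⟨_, rfl⟩
  obtain ⟨x0, hx0⟩ : ∃ x0 : Eu n, x0 = y0 + (η * t / 8) • (z : Eu n) := ⟨_, rfl⟩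
  have hm : MeasurableSet {u : Sph n | u ∈ V ∧ 0 < inner ℝ (u : Eu n) (z : Eu n) ∧
        inner ℝ (u : Eu n) (z : Eu n) < t} := by
    have hz : Continuous fun u : Sph n => inner ℝ (u : Eu n) (z : Eu n) := by fun_prop
    exact hV.measurableSet.inter ((isOpen_lt continuous_const hz).measurableSet.inter
      (isOpen_lt hz continuous_const).measurableSet)
  have h1 : volume {x : Eu n | ∀ k, |inner ℝ (b k) (x - x0)| ≤ A k} =
      ∏ k, ENNReal.ofReal (2 * A k) := by
    rw [← volume_box b A]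
    have : {x : Eu n | ∀ k, |inner ℝ (b k) (x - x0)| ≤ A k} =
        (fun x => x + -x0) ⁻¹' {x : Eu n | ∀ k, |inner ℝ (b k) x| ≤ A k} := by
      ext x
      simp [sub_eq_add_neg]
    rw [this, measure_preimage_add_right]
  have h2 : ∏ k, ENNReal.ofReal (2 * A k) = ENNReal.ofReal (t * ∏ k, (2 * a k)) := by
    rw [← ENNReal.ofReal_prod_of_nonneg]
    · congr 1
      rw [hA]
      have : ∀ k, 2 * ((if k = 0 then t else 1) * a k) = (if k = 0 then t else 1) * (2 * a k) :=
        fun k => by ring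
      simp only [this]
      rw [Finset.prod_mul_distrib, Finset.prod_ite_eq' Finset.univ 0 fun _ => t]
      simp
    · intro k _
      rw [hA]
      simp only
      have := ha0 k
      split_ifs <;> positivity
  have hAη : ∀ k, A k ≤ η := by
    intro k
    rw [hA, ha]
    simp only
    split_ifs
    · nlinarith
    · linarith
  have hzy : inner ℝ y0 (z : Eu n) = (0 : ℝ) := by
    rw [hy0, inner_smul_left, h0]
    simp
  have h3 := qc_le hm (B := {x : Eu n | ∀ k, |inner ℝ (b k) (x - x0)| ≤ A k}) (by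
    intro x hx
    have hd : ‖x - y0‖ ≤ (n + 1) * η := by
      have e1 : ‖x - x0‖ ≤ n * η := by
        rw [← b.sum_repr' (x - x0)]
        refine (norm_sum_le _ _).trans ?_
        calc ∑ k, ‖inner ℝ (b k) (x - x0) • b k‖ ≤ ∑ _k : Fin n, η := by
              refine Finset.sum_le_sum fun k _ => ?_
              rw [norm_smul, b.norm_eq_one, mul_one, Real.norm_eq_abs]
              exact (hx k).trans (hAη k)
          _ = n * η := by simp
      have e2 : ‖x0 - y0‖ ≤ η := by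
        rw [hx0, add_sub_cancel_left, norm_smul, norm_sph, mul_one, Real.norm_eq_abs,
          abs_of_nonneg (by positivity)]
        nlinarith
      calc ‖x - y0‖ = ‖(x - x0) + (x0 - y0)‖ := by congr 1; abel
        _ ≤ ‖x - x0‖ + ‖x0 - y0‖ := norm_add_le _ _
        _ ≤ (n + 1) * η := by linarith
    have hnx1 : ‖x‖ < 3 / 4 := by
      have : ‖x‖ ≤ ‖x - y0‖ + ‖y0‖ := by
        calc ‖x‖ = ‖(x - y0) + y0‖ := by congr 1; abel
          _ ≤ _ := norm_add_le _ _
      linarith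
    have hnx2 : 1 / 4 < ‖x‖ := by
      have : ‖y0‖ ≤ ‖x - y0‖ + ‖x‖ := by
        calc ‖y0‖ = ‖(y0 - x) + x‖ := by congr 1; abel
          _ ≤ ‖y0 - x‖ + ‖x‖ := norm_add_le _ _
          _ = _ := by rw [norm_sub_rev]
      linarith
    have hx3 : 0 < ‖x‖ := by linarith
    have hxx : x ≠ 0 := norm_pos_iff.1 hx3
    have hzx := hx 0
    rw [hb, hA, ha] at hzx
    simp only [if_true] at hzx
    have hz1 : inner ℝ (z : Eu n) (x - x0) = inner ℝ x (z : Eu n) - η * t / 8 := by
      rw [inner_sub_right, hx0, inner_add_right, inner_smul_right, real_inner_self_eq_norm_sq,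
        norm_sph, real_inner_comm y0, hzy, real_inner_comm x]
      ring
    rw [hz1, abs_le] at hzx
    have hz2 : 0 < inner ℝ x (z : Eu n) := by
      have : 0 < η * t := mul_pos hη0 ht
      linarith [hzx.1]
    have hz3 : inner ℝ x (z : Eu n) < t / 4 := by
      have : η * t < 1 / 4 * t := mul_lt_mul_of_pos_right hη3 ht
      linarith [hzx.2]
    have hi : ∀ y : Eu n, inner ℝ (dirS x hxx : Eu n) y = ‖x‖⁻¹ * inner ℝ x y := by
      intro y
      unfold dirS
      rw [inner_smul_left]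
      rfl
    refine ⟨hxx, by linarith, ?_, ?_, ?_⟩
    · have : dirS x hxx ∈ Subtype.val ⁻¹' O := by
        show ((dirS x hxx : Sph n) : Eu n) ∈ O
        refine hδO ?_
        rw [dist_eq_norm]
        linarith
      rw [hOV] at this
      exact this
    · rw [hi]
      positivity
    · rw [hi, inv_mul_lt_iff₀ hx3]
      nlinarith)
  refine le_trans (le_of_eq ?_) h3
  rw [h1, h2, ← ENNReal.ofReal_natCast n, ← ENNReal.ofReal_mul hn'.le]
  congr 1
  ring

/-- The local form of `sec_sigma`. -/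
theorem sec_loc {μ : Measure (Sph n)} {V : Set (Sph n)} (hV : IsOpen V) {c0 : ℝ} (hc0 : 0 < c0)
    (hμ : ∀ A : Set (Sph n), MeasurableSet A → A ⊆ V → ENNReal.ofReal c0 * sg n A ≤ μ A)
    {z w : Sph n} (hzw : inner ℝ (w : Eu n) (z : Eu n) = (0 : ℝ))
    (hmeet : ∃ u ∈ V, inner ℝ (u : Eu n) (z : Eu n) = (0 : ℝ)) :
    ∫⁻ u : Sph n, ENNReal.ofReal (rat z w u) ∂μ = ⊤ := by
  have hz : Continuous fun u : Sph n => inner ℝ (u : Eu n) (z : Eu n) := by fun_prop
  have hw : Continuous fun u : Sph n => inner ℝ (u : Eu n) (w : Eu n) := by fun_prop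
  -- a good point
  obtain ⟨u0, hu0, h0, h0w⟩ : ∃ u0 ∈ V, inner ℝ (u0 : Eu n) (z : Eu n) = (0 : ℝ) ∧
      inner ℝ (u0 : Eu n) (w : Eu n) ≠ (0 : ℝ) := by
    obtain ⟨u1, hu1, h1⟩ := hmeet
    by_cases h2 : inner ℝ (u1 : Eu n) (w : Eu n) = (0 : ℝ)
    · have hns : ∀ s : ℝ, ‖(u1 : Eu n) + s • (w : Eu n)‖ ^ 2 = 1 + s ^ 2 := by
        intro s
        rw [norm_add_sq_real, norm_sph, norm_smul, norm_sph, inner_smul_right, h2,
          Real.norm_eq_abs, mul_one, sq_abs]
        ring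
      have hne : ∀ s : ℝ, (u1 : Eu n) + s • (w : Eu n) ≠ 0 := by
        intro s hs
        have := hns s
        rw [hs, norm_zero] at this
        nlinarith [sq_nonneg s]
      obtain ⟨γ, hγ⟩ : ∃ γ : ℝ → Sph n, γ = fun s => dirS _ (hne s) := ⟨_, rfl⟩
      have hγc : Continuous γ := by
        rw [hγ]
        refine Continuous.subtype_mk ?_ _
        have e1 : Continuous fun s : ℝ => (u1 : Eu n) + s • (w : Eu n) := by fun_prop
        exact (e1.norm.inv₀ fun s => norm_ne_zero_iff.2 (hne s)).smul e1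
      have hγ0 : γ 0 = u1 := by
        ext1
        rw [hγ]
        show ‖(u1 : Eu n) + (0 : ℝ) • (w : Eu n)‖⁻¹ • ((u1 : Eu n) + (0 : ℝ) • (w : Eu n)) = _
        rw [zero_smul, add_zero, norm_sph, inv_one, one_smul]
      have hev : ∀ᶠ s in 𝓝 (0 : ℝ), γ s ∈ V :=
        hγc.continuousAt.eventually_mem (by rw [hγ0]; exact hV.mem_nhds hu1)
      have hev2 : ∀ᶠ s in 𝓝[≠] (0 : ℝ), γ s ∈ V := hev.filter_mono nhdsWithin_le_nhds
      obtain ⟨s, hs1, hs2⟩ := (hev2.and self_mem_nhdsWithin).exists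
      have hs2' : s ≠ 0 := hs2
      have hi : ∀ y : Eu n, inner ℝ (γ s : Eu n) y =
          ‖(u1 : Eu n) + s • (w : Eu n)‖⁻¹ * inner ℝ ((u1 : Eu n) + s • (w : Eu n)) y := by
        intro y
        rw [hγ]
        unfold dirS
        rw [inner_smul_left]
        rfl
      refine ⟨γ s, hs1, ?_, ?_⟩
      · rw [hi, inner_add_left, inner_smul_left, h1, hzw]
        simp
      · rw [hi, inner_add_left, inner_smul_left, h2, real_inner_self_eq_norm_sq, norm_sph]
        simp only [conj_trivial, one_pow, mul_one, zero_add]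
        exact mul_ne_zero (inv_ne_zero (norm_ne_zero_iff.2 (hne s))) hs2'
    · exact ⟨u1, hu1, h1, h2⟩
  obtain ⟨β, hβ⟩ : ∃ β : ℝ, β = inner ℝ (u0 : Eu n) (w : Eu n) ^ 2 / 2 := ⟨_, rfl⟩
  have hβ0 : 0 < β := by
    rw [hβ]
    have : 0 < inner ℝ (u0 : Eu n) (w : Eu n) ^ 2 := by positivity
    linarith
  have hV' : IsOpen {u : Sph n | u ∈ V ∧ β < inner ℝ (u : Eu n) (w : Eu n) ^ 2} :=
    hV.inter (isOpen_lt continuous_const (hw.pow 2))
  obtain ⟨c, hc, hc2⟩ := qc_lower h0 hV' (u0 := u0) ⟨hu0, by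
    rw [hβ]
    have : 0 < inner ℝ (u0 : Eu n) (w : Eu n) ^ 2 := by positivity
    linarith⟩
  have key : ∀ t : ℝ, 0 < t → t ≤ 1 →
      ENNReal.ofReal (c0 * c * β / t) ≤ ∫⁻ u : Sph n, ENNReal.ofReal (rat z w u) ∂μ := by
    intro t ht ht1
    have h1 := mul_meas_ge_le_lintegral₀ (μ := μ)
      (f := fun u : Sph n => ENNReal.ofReal (rat z w u)) (by
        unfold rat
        exact ((hw.measurable.pow_const 2).div
          (hz.measurable.pow_const 2)).ennreal_ofReal.aemeasurable)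
      (ENNReal.ofReal (β / t ^ 2))
    refine le_trans ?_ h1
    have hm : MeasurableSet {u : Sph n | u ∈ {u : Sph n | u ∈ V ∧
        β < inner ℝ (u : Eu n) (w : Eu n) ^ 2} ∧ 0 < inner ℝ (u : Eu n) (z : Eu n) ∧
        inner ℝ (u : Eu n) (z : Eu n) < t} :=
      hV'.measurableSet.inter ((isOpen_lt continuous_const hz).measurableSet.inter
        (isOpen_lt hz continuous_const).measurableSet)
    calc ENNReal.ofReal (c0 * c * β / t) = ENNReal.ofReal (β / t ^ 2) *
          (ENNReal.ofReal c0 * ENNReal.ofReal (c * t)) := by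
            rw [← ENNReal.ofReal_mul hc0.le, ← ENNReal.ofReal_mul (by positivity)]
            congr 1
            field_simp
      _ ≤ _ := by
            gcongr
            refine (mul_le_mul_right (hc2 t ht ht1) _).trans ((hμ _ hm ?_).trans
              (measure_mono ?_))
            · rintro u ⟨⟨h1, -⟩, -⟩
              exact h1
            · rintro u ⟨⟨-, h3⟩, h1, h2⟩
              show ENNReal.ofReal (β / t ^ 2) ≤ ENNReal.ofReal (rat z w u)
              apply ENNReal.ofReal_le_ofReal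
              unfold rat
              rw [div_le_div_iff₀ (by positivity) (by positivity)]
              have h4 : inner ℝ (u : Eu n) (z : Eu n) ^ 2 ≤ t ^ 2 :=
                pow_le_pow_left₀ h1.le h2.le 2
              have h6 : 0 < t ^ 2 := by positivity
              exact mul_le_mul h3.le h4 (by positivity) (by positivity)
  by_contra hne
  obtain ⟨X, hX⟩ := (⟨_, ENNReal.coe_toNNReal hne⟩ : ∃ X : NNReal, (X : ENNReal) = _)
  rw [← hX] at key
  have hX0 : (0 : ℝ) ≤ X := X.2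
  have hcc : 0 < c0 * c * β := by positivity
  obtain ⟨t, ht⟩ : ∃ t : ℝ, t = min 1 (c0 * c * β / (X + 1)) := ⟨_, rfl⟩
  have ht0 : 0 < t := by rw [ht]; exact lt_min one_pos (by positivity)
  have h1 := key t ht0 (by rw [ht]; exact min_le_left _ _)
  have h2 : (X : ℝ) + 1 ≤ c0 * c * β / t := by
    rw [le_div_iff₀ (by positivity)]
    have h3 : t ≤ c0 * c * β / (X + 1) := by rw [ht]; exact min_le_right _ _
    rw [le_div_iff₀ (by positivity)] at h3
    linarith
  have h3 : ENNReal.ofReal (c0 * c * β / t) ≤ ENNReal.ofReal X := by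
    rw [ENNReal.ofReal_coe_nnreal]
    exact h1
  rw [ENNReal.ofReal_le_ofReal_iff hX0] at h3
  linarith

/-- The logarithmic potential attains its minimum. -/
theorem exists_min_pot (μ : Measure (Sph n)) [IsFiniteMeasure μ] :
    ∃ z : Sph n, pot μ z ≠ ⊤ ∧ ∀ v, pot μ z ≤ pot μ v := by
  obtain ⟨v0, hv0⟩ := exists_pot_fin μ
  obtain ⟨z, -, hz⟩ := (lsc_pot (μ := μ)).lowerSemicontinuousOn univ |>.exists_isMinOn
    ⟨v0, mem_univ v0⟩ isCompact_univ
  exact ⟨z, ne_top_of_le_ne_top hv0 (hz (mem_univ v0)), fun v => hz (mem_univ v)⟩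

/-- Existence for large `q` when the measure dominates the surface measure on an open set which
meets every great subsphere. -/
theorem exists_large_lower (hn : 2 ≤ n) (μ : Measure (Sph n)) [IsProbabilityMeasure μ]
    (hμ : MInv (pm n) μ) {V : Set (Sph n)} (hV : IsOpen V) {c : ℝ} (hc : 0 < c)
    (hVm : ∀ z : Sph n, ∃ u ∈ V, inner ℝ (u : Eu n) (z : Eu n) = (0 : ℝ))
    (hlow : ∀ A : Set (Sph n), MeasurableSet A → A ⊆ V → ENNReal.ofReal c * sg n A ≤ μ A) :
    ∃ q0 : ℝ, ∀ q : ℝ, q0 ≤ q → Nondeg (pm n) q μ →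
      ∃ g : Sph n → ℝ, Bd (pm n) g ∧ MM q g = ENNReal.ofReal (II q g) • μ := by
  obtain ⟨z, hz, hmin⟩ := exists_min_pot μ
  refine exists_large_even hn μ hμ isOpen_univ (fun v _ => mem_univ _) (mem_univ z) hz
    (fun v _ => hmin v) (fun v hv => ?_) fun w hw => ?_
  · rw [frontier_univ] at hv
    exact absurd hv (notMem_empty v)
  · rw [sec_loc hV hc hlow hw (hVm z)]
    exact ENNReal.one_lt_top

end QCor

end Pool.Agent.Lib.MP_b0d2bf_gt
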