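import Mathlib
import Pool.Agent.Lib.MP_b0d2bf_gt.QDefs
import Pool.Agent.Lib.Brouwer.BrCt

set_option autoImplicit false

/-!
The topological part: a family of vectors over a piece of the sphere cannot be unlinked.
-/

namespace Pool.Agent.Lib.MP_b0d2bf_gt

open MeasureTheory Metric Set Filter Topology

namespace QTopAux

/-- the punctured space -/
abbrev Pun (n : ℕ) := {x : Eu n // x ≠ 0}

/-- a homotopy from a jointly continuous family of nonzero vectors -/
lemma qHomotopic {n : ℕ} {X : Type*} [TopologicalSpace X] (F : ℝ → X → Eu n)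
    (hF : ContinuousOn (fun p : ℝ × X => F p.1 p.2) (Icc (0 : ℝ) 1 ×ˢ univ))
    (hne : ∀ t ∈ Icc (0 : ℝ) 1, ∀ x, F t x ≠ 0) (f g : C(X, Pun n))
    (hf : ∀ x, (f x : Eu n) = F 0 x) (hg : ∀ x, (g x : Eu n) = F 1 x) : f.Homotopic g := by
  have hcont : Continuous (fun p : unitInterval × X => F (p.1 : ℝ) p.2) := by
    have h1 : Continuous (fun p : unitInterval × X => ((p.1 : ℝ), p.2)) := by fun_prop
    have h2 := hF.comp_continuous h1 (fun p => ⟨p.1.2, mem_univ _⟩)
    exact h2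
  refine ⟨⟨⟨fun p => ⟨F (p.1 : ℝ) p.2, hne _ p.1.2 _⟩, hcont.subtype_mk _⟩, ?_, ?_⟩⟩
  · intro x
    apply Subtype.ext
    change F ((0 : unitInterval) : ℝ) x = _
    rw [hf x]
    simp
  · intro x
    apply Subtype.ext
    change F ((1 : unitInterval) : ℝ) x = _
    rw [hg x]
    simp

/-- the inclusion of the sphere in the punctured space -/
noncomputable def incl (n : ℕ) : C(Sph n, Pun n) :=
  ⟨fun v => ⟨(v : Eu n), fun h => by
    have h1 : ‖(v : Eu n)‖ = 1 := mem_sphere_zero_iff_norm.1 v.2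
    rw [h, norm_zero] at h1
    exact zero_ne_one h1⟩, by fun_prop⟩

lemma retr_mem (n : ℕ) (x : Pun n) : ‖(x : Eu n)‖⁻¹ • (x : Eu n) ∈ sphere (0 : Eu n) 1 := by
  rw [mem_sphere_zero_iff_norm, norm_smul, norm_inv, norm_norm,
    inv_mul_cancel₀ (norm_ne_zero_iff.2 x.2)]

lemma retr_cont (n : ℕ) : Continuous (fun x : Pun n => ‖(x : Eu n)‖⁻¹ • (x : Eu n)) := by
  have h1 : Continuous (fun x : Pun n => ‖(x : Eu n)‖) :=
    continuous_norm.comp continuous_subtype_val
  have h2 : Continuous (fun x : Pun n => ‖(x : Eu n)‖⁻¹) :=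
    h1.inv₀ (fun x => norm_ne_zero_iff.2 x.2)
  exact h2.smul continuous_subtype_val

/-- the retraction -/
noncomputable def retr (n : ℕ) : C(Pun n, Sph n) where
  toFun := fun x => ⟨‖(x : Eu n)‖⁻¹ • (x : Eu n), retr_mem n x⟩
  continuous_toFun := (retr_cont n).subtype_mk _

lemma not_null (n : ℕ) (c : Pun n) (h : (incl n).Homotopic (ContinuousMap.const _ c)) : False := by
  apply Pool.Agent.Lib.Brouwer.BRC.euclid n
  rw [contractible_iff_id_nullhomotopic]
  refine ⟨c, ?_⟩
  have h1 : (ContinuousMap.id (Pun n)).Homotopic ((incl n).comp (retr n)) := by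
    refine qHomotopic (X := Pun n)
      (fun t (x : Pun n) => (1 - t) • (x : Eu n) + t • (‖(x : Eu n)‖⁻¹ • (x : Eu n)))
      ?_ ?_ _ _ ?_ ?_
    · have h3 : Continuous (fun x : Pun n => ‖(x : Eu n)‖⁻¹ • (x : Eu n)) :=
        continuous_subtype_val.comp (retr n).continuous
      have h2 : Continuous (fun p : ℝ × Pun n =>
          (1 - p.1) • (p.2 : Eu n) + p.1 • (‖(p.2 : Eu n)‖⁻¹ • (p.2 : Eu n))) := by
        have h4 := h3.comp (continuous_snd (X := ℝ) (Y := Pun n))
        have h5 : Continuous (fun p : ℝ × Pun n => (p.2 : Eu n)) :=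
          continuous_subtype_val.comp continuous_snd
        have h6 : Continuous (fun p : ℝ × Pun n => p.1) := continuous_fst
        exact ((continuous_const.sub h6).smul h5).add (h6.smul h4)
      exact h2.continuousOn
    · intro t ht x hx
      have h3 : 0 < ‖(x : Eu n)‖ := norm_pos_iff.2 x.2
      rw [smul_smul, ← add_smul] at hx
      rcases smul_eq_zero.1 hx with h4 | h4
      · have h5 : 0 < ‖(x : Eu n)‖⁻¹ := inv_pos.2 h3
        rcases eq_or_lt_of_le ht.1 with h6 | h6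
        · rw [← h6] at h4
          norm_num at h4
        · have h7 : 0 < t * ‖(x : Eu n)‖⁻¹ := mul_pos h6 h5
          linarith [ht.2]
      · exact x.2 h4
    · intro x
      simp
    · intro x
      simp [incl, retr]
  refine h1.trans ?_
  have h2 := h.comp (ContinuousMap.Homotopic.refl (retr n))
  have h3 : (ContinuousMap.const (Sph n) c).comp (retr n) = ContinuousMap.const _ c := by
    ext1 x
    rfl
  rw [h3] at h2
  exact h2

end QTopAux

open QTopAux

theorem no_link {n : ℕ} [NeZero n] {U : Set (Sph n)} (hU : IsOpen U) {z : Sph n} (hz : z ∈ U)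
    (hz' : -z ∉ closure U) {τ : ℝ} (hτ0 : 0 < τ) (hτ1 : τ < 1) :
    ∃ κ > 0, ∀ (W0 : Sph n → Eu n) (W : ℝ → Sph n → Eu n), Continuous W0 →
      ContinuousOn (fun p : ℝ × Sph n => W p.1 p.2) (Icc (0 : ℝ) 1 ×ˢ closure U) →
      (∀ v : Sph n, ‖W0 v - (inner ℝ (v : Eu n) (z : Eu n) • (v : Eu n) - τ • (z : Eu n))‖ ≤ κ) →
      (∀ v ∈ closure U, W 0 v = W0 v) →
      (∀ t ∈ Icc (0 : ℝ) 1, ∀ v ∈ frontier U, W t v = W0 v) →
      (∀ t ∈ Icc (0 : ℝ) 1, ∀ v ∈ closure U, W t v ≠ 0) →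
      (∀ v ∈ closure U, ∀ s : ℝ, 0 ≤ s → W 1 v ≠ s • (z : Eu n)) → False := by
  classical
  have hnz : ‖(z : Eu n)‖ = 1 := mem_sphere_zero_iff_norm.1 z.2
  -- the radius
  obtain ⟨r, hr0, hr1, hrU, hrU'⟩ : ∃ r : ℝ, 0 < r ∧ r < 1 ∧ ball z r ⊆ U ∧
      Disjoint (closedBall (-z) r) (closure U) := by
    obtain ⟨r1, h1, h2⟩ := Metric.isOpen_iff.1 hU z hz
    obtain ⟨r2, h3, h4⟩ := Metric.isOpen_iff.1 (isClosed_closure (s := U)).isOpen_compl (-z) hz'
    refine ⟨min (min r1 r2 / 2) (1 / 2), ?_, ?_, ?_, ?_⟩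
    · have : 0 < min r1 r2 := lt_min h1 h3
      apply lt_min <;> linarith
    · exact lt_of_le_of_lt (min_le_right _ _) (by norm_num)
    · refine (ball_subset_ball ?_).trans h2
      have h5 : min r1 r2 ≤ r1 := min_le_left _ _
      have h6 : 0 < min r1 r2 := lt_min h1 h3
      exact (min_le_left _ _).trans (by linarith)
    · rw [Set.disjoint_left]
      intro v hv hv2
      refine h4 ?_ hv2
      rw [mem_ball]
      rw [mem_closedBall] at hv
      have h5 : min r1 r2 ≤ r2 := min_le_right _ _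
      have h6 : 0 < min r1 r2 := lt_min h1 h3
      have h7 : min (min r1 r2 / 2) (1 / 2) ≤ min r1 r2 / 2 := min_le_left _ _
      linarith
  obtain ⟨χ, hχ0, hχ1, hχ⟩ := exists_continuous_zero_one_of_isClosed
    (isClosed_closedBall (x := -z) (ε := r)) (isClosed_closure (s := U)) hrU'
  -- the constant
  obtain ⟨κ, hκ0, hκτ, hκ1, hκ2, hκ3⟩ : ∃ κ : ℝ, 0 < κ ∧ κ < τ ∧ 4 * κ < r ^ 2 * τ ∧
      (τ + κ) ^ 2 < τ - κ ∧ 2 * κ ^ 2 < r ^ 2 * (τ - κ) := by
    have e1 : ∀ᶠ κ : ℝ in 𝓝 0, κ < τ := eventually_lt_nhds hτ0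
    have e2 : ∀ᶠ κ : ℝ in 𝓝 0, 4 * κ < r ^ 2 * τ := by
      have : Tendsto (fun κ : ℝ => 4 * κ) (𝓝 0) (𝓝 (4 * 0)) :=
        (continuous_const.mul continuous_id).tendsto 0
      exact this.eventually_lt_const (by rw [mul_zero]; positivity)
    have e3 : ∀ᶠ κ : ℝ in 𝓝 0, (τ + κ) ^ 2 - (τ - κ) < 0 := by
      have : Tendsto (fun κ : ℝ => (τ + κ) ^ 2 - (τ - κ)) (𝓝 0) (𝓝 ((τ + 0) ^ 2 - (τ - 0))) := by
        have hc : Continuous (fun κ : ℝ => (τ + κ) ^ 2 - (τ - κ)) := by fun_prop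
        exact hc.tendsto 0
      exact this.eventually_lt_const (by nlinarith)
    have e4 : ∀ᶠ κ : ℝ in 𝓝 0, 2 * κ ^ 2 - r ^ 2 * (τ - κ) < 0 := by
      have : Tendsto (fun κ : ℝ => 2 * κ ^ 2 - r ^ 2 * (τ - κ)) (𝓝 0)
          (𝓝 (2 * 0 ^ 2 - r ^ 2 * (τ - 0))) := by
        have hc : Continuous (fun κ : ℝ => 2 * κ ^ 2 - r ^ 2 * (τ - κ)) := by fun_prop
        exact hc.tendsto 0
      exact this.eventually_lt_const (by
        have : 0 < r ^ 2 * τ := by positivity
        nlinarith)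
    have e5 : ∀ᶠ κ : ℝ in 𝓝[>] 0, 0 < κ := self_mem_nhdsWithin
    obtain ⟨κ, h1, h2, h3, h4, h5⟩ := (e5.and ((e1.filter_mono nhdsWithin_le_nhds).and
      ((e2.filter_mono nhdsWithin_le_nhds).and ((e3.filter_mono nhdsWithin_le_nhds).and
      (e4.filter_mono nhdsWithin_le_nhds))))).exists
    exact ⟨κ, h1, h2, h3, by linarith, by linarith⟩
  refine ⟨κ, hκ0, ?_⟩
  intro W0 W hW0 hW herr h0 hfr hne h1
  -- the extended field
  obtain ⟨V, hV⟩ : ∃ V : Sph n → Eu n, V = fun v => χ v • (W0 v + τ • (z : Eu n)) - τ • (z : Eu n) :=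
    ⟨_, rfl⟩
  have hVc : Continuous V := by
    rw [hV]
    exact (χ.continuous.smul (hW0.add continuous_const)).sub continuous_const
  have hVU : ∀ v ∈ closure U, V v = W0 v := by
    intro v hv
    have : χ v = 1 := hχ1 hv
    rw [hV]
    simp [this]
  -- the decomposition
  have hdec : ∀ v : Sph n, ∃ e : Eu n, ‖e‖ ≤ κ ∧
      V v = (χ v * inner ℝ (v : Eu n) (z : Eu n)) • (v : Eu n) + χ v • e - τ • (z : Eu n) := by
    intro v
    refine ⟨_, herr v, ?_⟩
    rw [hV]
    module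
  have hχn : ∀ v, 0 ≤ χ v := fun v => (hχ v).1
  have hχl : ∀ v, χ v ≤ 1 := fun v => (hχ v).2
  have hvn : ∀ v : Sph n, ‖(v : Eu n)‖ = 1 := fun v => mem_sphere_zero_iff_norm.1 v.2
  have hdist : ∀ v : Sph n, dist v z ^ 2 = 2 - 2 * inner ℝ (v : Eu n) (z : Eu n) := by
    intro v
    have h2 : dist v z = ‖(v : Eu n) - (z : Eu n)‖ := by
      rw [Subtype.dist_eq, dist_eq_norm]
    rw [h2, norm_sub_sq_real, hvn, hnz]
    ring
  have hdist' : ∀ v : Sph n, dist v (-z) ^ 2 = 2 + 2 * inner ℝ (v : Eu n) (z : Eu n) := by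
    intro v
    have h2 : dist v (-z) = ‖(v : Eu n) + (z : Eu n)‖ := by
      rw [Subtype.dist_eq, dist_eq_norm]
      congr 1
      change (v : Eu n) - (-(z : Eu n)) = _
      rw [sub_neg_eq_add]
    rw [h2, norm_add_sq_real, hvn, hnz]
    ring
  have hχez : ∀ (v : Sph n) (e : Eu n), ‖e‖ ≤ κ → |χ v * inner ℝ e (z : Eu n)| ≤ κ := by
    intro v e he
    rw [abs_mul, abs_of_nonneg (hχn v)]
    have h2 : |inner ℝ e (z : Eu n)| ≤ ‖e‖ * ‖(z : Eu n)‖ := abs_real_inner_le_norm _ _
    rw [hnz, mul_one] at h2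
    have h3 : χ v * |inner ℝ e (z : Eu n)| ≤ 1 * κ :=
      mul_le_mul (hχl v) (h2.trans he) (abs_nonneg _) zero_le_one
    linarith
  -- step one
  have hstep1 : ∀ v : Sph n, ∀ l : ℝ, 0 ≤ l → V v + l • (v : Eu n) ≠ 0 := by
    intro v l hl heq
    obtain ⟨e, he, hVe⟩ := hdec v
    obtain ⟨x, hx⟩ : ∃ x : ℝ, x = inner ℝ (v : Eu n) (z : Eu n) := ⟨_, rfl⟩
    obtain ⟨A, hA⟩ : ∃ A : ℝ, A = χ v * x + l := ⟨_, rfl⟩
    have h2 : A • (v : Eu n) = τ • (z : Eu n) - χ v • e := by
      rw [hVe, ← hx] at heq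
      have h3 : A • (v : Eu n) - (τ • (z : Eu n) - χ v • e) = 0 := by
        rw [← heq, hA]
        module
      exact sub_eq_zero.1 h3
    have h3 : A * x = τ - χ v * inner ℝ e (z : Eu n) := by
      have h4 := congrArg (fun y : Eu n => inner ℝ y (z : Eu n)) h2
      simp only [inner_smul_left, inner_sub_left, real_inner_self_eq_norm_sq, hnz] at h4
      rw [← hx] at h4
      simpa using h4
    have h4 := abs_le.1 (hχez v e he)
    have h5 : |A| ≤ τ + κ := by
      have h6 : ‖A • (v : Eu n)‖ = |A| := by rw [norm_smul, hvn, mul_one, Real.norm_eq_abs]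
      rw [← h6, h2]
      refine (norm_sub_le _ _).trans ?_
      rw [norm_smul, norm_smul, hnz, mul_one, Real.norm_eq_abs, Real.norm_eq_abs,
        abs_of_pos hτ0, abs_of_nonneg (hχn v)]
      have : χ v * ‖e‖ ≤ 1 * κ := mul_le_mul (hχl v) he (norm_nonneg _) zero_le_one
      linarith
    have h6 : τ - κ ≤ A * x := by rw [h3]; linarith
    have h7 : 0 < A * x := by linarith
    have hxl : |x| ≤ 1 := by
      rw [hx]
      refine (abs_real_inner_le_norm _ _).trans ?_
      rw [hvn, hnz, mul_one]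
    have hτκ : 0 < τ + κ := by linarith
    rcases lt_trichotomy A 0 with h8 | h8 | h8
    · -- A < 0
      have h9 : x < 0 := by
        by_contra h10
        have := mul_nonpos_of_nonpos_of_nonneg h8.le (not_lt.1 h10)
        linarith
      have h10 : (τ - κ) ≤ (τ + κ) * (-x) := by
        have h11 : A * x = (-A) * (-x) := by ring
        have h12 : (-A) * (-x) ≤ (τ + κ) * (-x) :=
          mul_le_mul_of_nonneg_right (by rw [abs_of_neg h8] at h5; exact h5) (by linarith)
        linarith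
      have h13 : v ∈ closedBall (-z) r := by
        rw [mem_closedBall]
        have h14 : dist v (-z) ^ 2 ≤ r ^ 2 := by
          rw [hdist', ← hx]
          have h15 : (τ + κ) * (2 + 2 * x) ≤ 4 * κ := by nlinarith
          have h16 : τ * (2 + 2 * x) ≤ (τ + κ) * (2 + 2 * x) := by
            have : 0 ≤ 2 + 2 * x := by linarith [(abs_le.1 hxl).1]
            nlinarith
          have h17 : τ * (2 + 2 * x) < τ * r ^ 2 := by linarith
          exact (lt_of_mul_lt_mul_left h17 hτ0.le).le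
        exact abs_le_of_sq_le_sq' h14 hr0.le |>.2
      have h18 : χ v = 0 := hχ0 h13
      rw [h18] at hA
      linarith
    · rw [h8] at h7
      linarith
    · -- A > 0
      have h9 : 0 < x := by
        by_contra h10
        have := mul_nonpos_of_nonneg_of_nonpos h8.le (not_lt.1 h10)
        linarith
      have h10 : (τ - κ) ≤ (τ + κ) * x := by
        have h12 : A * x ≤ (τ + κ) * x :=
          mul_le_mul_of_nonneg_right (by rw [abs_of_pos h8] at h5; exact h5) h9.le
        linarith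
      have h13 : v ∈ ball z r := by
        rw [mem_ball]
        have h14 : dist v z ^ 2 < r ^ 2 := by
          rw [hdist, ← hx]
          have h15 : (τ + κ) * (2 - 2 * x) ≤ 4 * κ := by nlinarith
          have h16 : τ * (2 - 2 * x) ≤ (τ + κ) * (2 - 2 * x) := by
            have : 0 ≤ 2 - 2 * x := by linarith [(abs_le.1 hxl).2]
            nlinarith
          have h17 : τ * (2 - 2 * x) < τ * r ^ 2 := by linarith
          exact lt_of_mul_lt_mul_left h17 hτ0.le
        exact lt_of_pow_lt_pow_left₀ 2 hr0.le h14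
      have h18 : χ v = 1 := hχ1 (subset_closure (hrU h13))
      rw [h18, one_mul] at hA
      have h19 : x ≤ A := by linarith
      have h20 : A ≤ τ + κ := by rw [abs_of_pos h8] at h5; exact h5
      have h21 : (τ + κ) * x ≤ (τ + κ) * (τ + κ) :=
        mul_le_mul_of_nonneg_left (h19.trans h20) hτκ.le
      nlinarith
  -- step two
  have hstep2 : ∀ v : Sph n, v ∉ U → ∀ s : ℝ, 0 ≤ s → V v ≠ s • (z : Eu n) := by
    intro v hv s hs heq
    obtain ⟨e, he, hVe⟩ := hdec v
    obtain ⟨x, hx⟩ : ∃ x : ℝ, x = inner ℝ (v : Eu n) (z : Eu n) := ⟨_, rfl⟩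
    have h2 : χ v • (x • (v : Eu n) + e) = (τ + s) • (z : Eu n) := by
      rw [hVe, ← hx] at heq
      have h3 : χ v • (x • (v : Eu n) + e) - (τ + s) • (z : Eu n) = 0 := by
        have h4 : (χ v * x) • (v : Eu n) + χ v • e - τ • (z : Eu n) - s • (z : Eu n) = 0 :=
          sub_eq_zero.2 heq
        rw [← h4]
        module
      exact sub_eq_zero.1 h3
    have h3 : χ v * (x ^ 2 + inner ℝ e (z : Eu n)) = τ + s := by
      have h4 := congrArg (fun y : Eu n => inner ℝ y (z : Eu n)) h2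
      simp only [inner_smul_left, inner_add_left, real_inner_self_eq_norm_sq, hnz] at h4
      rw [← hx] at h4
      simp only [conj_trivial] at h4
      nlinarith
    have hχp : 0 < χ v := by
      rcases eq_or_lt_of_le (hχn v) with h4 | h4
      · rw [← h4] at h3
        linarith
      · exact h4
    have hxl : |x| ≤ 1 := by
      rw [hx]
      refine (abs_real_inner_le_norm _ _).trans ?_
      rw [hvn, hnz, mul_one]
    have h5 : r ^ 2 ≤ 2 - 2 * x := by
      rw [hx, ← hdist v]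
      have h6 : r ≤ dist v z := by
        by_contra h7
        exact hv (hrU (mem_ball.2 (not_le.1 h7)))
      exact pow_le_pow_left₀ hr0.le h6 2
    have h6 : r ^ 2 ≤ 2 + 2 * x := by
      rw [hx, ← hdist' v]
      have h7 : r ≤ dist v (-z) := by
        by_contra h8
        have : χ v = 0 := hχ0 (mem_closedBall.2 (not_le.1 h8).le)
        linarith
      exact pow_le_pow_left₀ hr0.le h7 2
    -- the orthogonal component
    have h7 : x • ((v : Eu n) - x • (z : Eu n)) = -(e - inner ℝ e (z : Eu n) • (z : Eu n)) := by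
      have h8 : χ v • (x • ((v : Eu n) - x • (z : Eu n)) +
          (e - inner ℝ e (z : Eu n) • (z : Eu n))) = 0 := by
        have h9 : χ v • (x • ((v : Eu n) - x • (z : Eu n)) +
          (e - inner ℝ e (z : Eu n) • (z : Eu n))) =
            χ v • (x • (v : Eu n) + e) - (χ v * (x ^ 2 + inner ℝ e (z : Eu n))) • (z : Eu n) := by
          module
        rw [h9, h2, h3, sub_self]
      rcases smul_eq_zero.1 h8 with h10 | h10
      · linarith
      · exact eq_neg_of_add_eq_zero_left h10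
    have h8 : ‖(v : Eu n) - x • (z : Eu n)‖ ^ 2 = 1 - x ^ 2 := by
      rw [norm_sub_sq_real, hvn, norm_smul, hnz, inner_smul_right, ← hx, mul_one,
        Real.norm_eq_abs, sq_abs]
      ring
    have h9 : ‖e - inner ℝ e (z : Eu n) • (z : Eu n)‖ ≤ κ := by
      have h10 : ‖e - inner ℝ e (z : Eu n) • (z : Eu n)‖ ^ 2 ≤ κ ^ 2 := by
        have h11 : ‖e - inner ℝ e (z : Eu n) • (z : Eu n)‖ ^ 2 =
            ‖e‖ ^ 2 - (inner ℝ e (z : Eu n)) ^ 2 := by
          rw [norm_sub_sq_real, norm_smul, hnz, inner_smul_right, mul_one,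
            Real.norm_eq_abs, sq_abs]
          ring
        rw [h11]
        have h12 : ‖e‖ ^ 2 ≤ κ ^ 2 := pow_le_pow_left₀ (norm_nonneg _) he 2
        nlinarith [sq_nonneg (inner ℝ e (z : Eu n))]
      exact (abs_le_of_sq_le_sq' h10 hκ0.le).2
    have h10 : x ^ 2 * (1 - x ^ 2) ≤ κ ^ 2 := by
      have h11 := congrArg (fun y : Eu n => ‖y‖ ^ 2) h7
      simp only [norm_smul, norm_neg, mul_pow, h8, Real.norm_eq_abs, sq_abs] at h11
      rw [h11]
      exact pow_le_pow_left₀ (norm_nonneg _) h9 2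
    have h11 : r ^ 2 / 2 ≤ 1 - x ^ 2 := by
      have h12 : r ^ 2 / 2 ≤ 1 := by
        have : r ^ 2 ≤ 1 := pow_le_one₀ hr0.le hr1.le
        linarith
      have h16 : 1 - x ^ 2 = (1 - x) * (1 + x) := by ring
      have h17 : 0 ≤ r ^ 2 / 2 := by positivity
      rw [h16]
      rcases le_total 0 x with h18 | h18
      · calc r ^ 2 / 2 = (r ^ 2 / 2) * 1 := (mul_one _).symm
          _ ≤ (1 - x) * (1 + x) := mul_le_mul (by linarith) (by linarith) zero_le_one (by linarith)
      · calc r ^ 2 / 2 = 1 * (r ^ 2 / 2) := (one_mul _).symm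
          _ ≤ (1 - x) * (1 + x) := mul_le_mul (by linarith) (by linarith) h17 (by linarith)
    have h12 : x ^ 2 * (r ^ 2 / 2) ≤ κ ^ 2 :=
      (mul_le_mul_of_nonneg_left h11 (sq_nonneg x)).trans h10
    have h13 : |inner ℝ e (z : Eu n)| ≤ κ := by
      refine (abs_real_inner_le_norm _ _).trans ?_
      rw [hnz, mul_one]
      exact he
    have h14 : τ ≤ x ^ 2 + κ := by
      have h15 : χ v * (x ^ 2 + inner ℝ e (z : Eu n)) ≤ 1 * (x ^ 2 + κ) := by
        have h16 : x ^ 2 + inner ℝ e (z : Eu n) ≤ x ^ 2 + κ := by linarith [(abs_le.1 h13).2]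
        have h17 : 0 ≤ x ^ 2 + κ := by positivity
        calc χ v * (x ^ 2 + inner ℝ e (z : Eu n)) ≤ χ v * (x ^ 2 + κ) :=
              mul_le_mul_of_nonneg_left h16 (hχn v)
          _ ≤ 1 * (x ^ 2 + κ) := mul_le_mul_of_nonneg_right (hχl v) h17
      linarith
    have h15 : r ^ 2 * (τ - κ) ≤ r ^ 2 * x ^ 2 :=
      mul_le_mul_of_nonneg_left (by linarith) (sq_nonneg r)
    nlinarith
  -- the homotopies
  obtain ⟨F, hF⟩ : ∃ F : ℝ → Sph n → Eu n,
      F = fun t v => if v ∈ closure U then W t v else V v := ⟨_, rfl⟩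
  have hFin : ∀ t v, v ∈ closure U → F t v = W t v := by
    intro t v hv
    rw [hF]
    simp [hv]
  have hFout : ∀ t v, v ∉ closure U → F t v = V v := by
    intro t v hv
    rw [hF]
    simp [hv]
  have hFV : ∀ t ∈ Icc (0 : ℝ) 1, ∀ v ∉ U, F t v = V v := by
    intro t ht v hv
    by_cases h2 : v ∈ closure U
    · rw [hFin t v h2, hVU v h2]
      refine hfr t ht v ?_
      rw [hU.frontier_eq]
      exact ⟨h2, hv⟩
    · exact hFout t v h2
  have hF0 : ∀ v, F 0 v = V v := by
    intro v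
    by_cases h2 : v ∈ closure U
    · rw [hFin 0 v h2, hVU v h2, h0 v h2]
    · exact hFout 0 v h2
  have hFc : ContinuousOn (fun p : ℝ × Sph n => F p.1 p.2) (Icc (0 : ℝ) 1 ×ˢ univ) := by
    have h2 : ContinuousOn (fun p : ℝ × Sph n => F p.1 p.2) (Icc (0 : ℝ) 1 ×ˢ closure U) :=
      hW.congr fun p hp => hFin _ _ hp.2
    have h3 : ContinuousOn (fun p : ℝ × Sph n => F p.1 p.2) (Icc (0 : ℝ) 1 ×ˢ Uᶜ) :=
      ((hVc.comp continuous_snd).continuousOn (s := Icc (0 : ℝ) 1 ×ˢ Uᶜ)).congr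
        fun p hp => hFV _ hp.1 _ hp.2
    have h4 := h2.union_of_isClosed h3 (isClosed_Icc.prod isClosed_closure)
      (isClosed_Icc.prod hU.isClosed_compl)
    refine h4.mono ?_
    rintro ⟨t, v⟩ ⟨ht, -⟩
    by_cases h5 : v ∈ U
    · exact Or.inl ⟨ht, subset_closure h5⟩
    · exact Or.inr ⟨ht, h5⟩
  have hFne : ∀ t ∈ Icc (0 : ℝ) 1, ∀ v, F t v ≠ 0 := by
    intro t ht v
    by_cases h2 : v ∈ closure U
    · rw [hFin t v h2]
      exact hne t ht v h2
    · rw [hFout t v h2]
      have h3 := hstep2 v (fun h => h2 (subset_closure h)) 0 le_rfl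
      rwa [zero_smul] at h3
  have hF1 : ∀ v, ∀ s : ℝ, 0 ≤ s → F 1 v ≠ s • (z : Eu n) := by
    intro v s hs
    by_cases h2 : v ∈ closure U
    · rw [hFin 1 v h2]
      exact h1 v h2 s hs
    · rw [hFout 1 v h2]
      exact hstep2 v (fun h => h2 (subset_closure h)) s hs
  have hslice : ∀ t ∈ Icc (0 : ℝ) 1, Continuous (F t) := by
    intro t ht
    have h2 : Continuous (fun v : Sph n => (t, v)) := by fun_prop
    exact hFc.comp_continuous h2 (fun v => ⟨ht, mem_univ _⟩)
  have h01 : (0 : ℝ) ∈ Icc (0 : ℝ) 1 := ⟨le_rfl, zero_le_one⟩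
  have h11 : (1 : ℝ) ∈ Icc (0 : ℝ) 1 := ⟨zero_le_one, le_rfl⟩
  obtain ⟨f0, hf0⟩ : ∃ f0 : C(Sph n, Pun n), ∀ v, (f0 v : Eu n) = F 0 v :=
    ⟨⟨fun v => ⟨F 0 v, hFne 0 h01 v⟩, (hslice 0 h01).subtype_mk _⟩, fun v => rfl⟩
  obtain ⟨f1, hf1⟩ : ∃ f1 : C(Sph n, Pun n), ∀ v, (f1 v : Eu n) = F 1 v :=
    ⟨⟨fun v => ⟨F 1 v, hFne 1 h11 v⟩, (hslice 1 h11).subtype_mk _⟩, fun v => rfl⟩
  have hznz : -(z : Eu n) ≠ 0 := by
    intro h
    have h2 : ‖-(z : Eu n)‖ = 1 := by rw [norm_neg, hnz]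
    rw [h, norm_zero] at h2
    exact zero_ne_one h2
  refine not_null n ⟨-(z : Eu n), hznz⟩ ?_
  have H1 : (incl n).Homotopic f0 := by
    refine qHomotopic (fun t (v : Sph n) => (1 - t) • (v : Eu n) + t • F 0 v) ?_ ?_ _ _ ?_ ?_
    · have h5 : Continuous (fun p : ℝ × Sph n => (p.2 : Eu n)) :=
        continuous_subtype_val.comp continuous_snd
      have h6 : Continuous (fun p : ℝ × Sph n => p.1) := continuous_fst
      have h7 : Continuous (fun p : ℝ × Sph n => F 0 p.2) := (hslice 0 h01).comp continuous_snd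
      exact (((continuous_const.sub h6).smul h5).add (h6.smul h7)).continuousOn
    · intro t ht v heq
      rcases eq_or_lt_of_le ht.1 with h6 | h6
      · rw [← h6, sub_zero, one_smul, zero_smul, add_zero] at heq
        have h7 := hvn v
        rw [heq, norm_zero] at h7
        exact zero_ne_one h7
      · refine hstep1 v ((1 - t) / t) (div_nonneg (by linarith [ht.2]) h6.le) ?_
        rw [hF0] at heq
        have h7 : t • (V v + ((1 - t) / t) • (v : Eu n)) = 0 := by
          rw [smul_add, smul_smul, mul_div_cancel₀ _ h6.ne', ← heq, add_comm]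
        exact (smul_eq_zero.1 h7).resolve_left h6.ne'
    · intro v
      simp [incl]
    · intro v
      simp [hf0]
  have H2 : f0.Homotopic f1 := qHomotopic F hFc hFne _ _ hf0 hf1
  have H3 : f1.Homotopic (ContinuousMap.const _ ⟨-(z : Eu n), hznz⟩) := by
    refine qHomotopic (fun t v => (1 - t) • F 1 v + t • (-(z : Eu n))) ?_ ?_ _ _ ?_ ?_
    · have h6 : Continuous (fun p : ℝ × Sph n => p.1) := continuous_fst
      have h7 : Continuous (fun p : ℝ × Sph n => F 1 p.2) := (hslice 1 h11).comp continuous_snd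
      exact (((continuous_const.sub h6).smul h7).add (h6.smul continuous_const)).continuousOn
    · intro t ht v heq
      rcases eq_or_lt_of_le ht.2 with h6 | h6
      · rw [h6, sub_self, zero_smul, one_smul, zero_add] at heq
        exact hznz heq
      · have h8 : 0 < 1 - t := by linarith
        refine hF1 v (t / (1 - t)) (div_nonneg ht.1 h8.le) ?_
        have h7 : (1 - t) • (F 1 v - (t / (1 - t)) • (z : Eu n)) = 0 := by
          rw [smul_sub, smul_smul, mul_div_cancel₀ _ h8.ne', ← heq, smul_neg, sub_eq_add_neg]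
        exact sub_eq_zero.1 ((smul_eq_zero.1 h7).resolve_left h8.ne')
    · intro v
      simp [hf1]
    · intro v
      simp
  exact H1.trans (H2.trans H3)

end Pool.Agent.Lib.MP_b0d2bf_gt
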