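import Mathlib
import Pool.Agent.Lib.MP_b0d2bf_gt.QFun
import Pool.Agent.Lib.MP_b0d2bf_gt.QConc
import Pool.Agent.Lib.MP_b0d2bf_gt.QRay
import Pool.Agent.Lib.MP_b0d2bf_gt.QTop

set_option autoImplicit false

/-!
Existence for large `q` near an isolated local minimum of the logarithmic potential.
-/

namespace Pool.Agent.Lib.MP_b0d2bf_gt

open MeasureTheory Metric Set Filter Topology

section QMain

variable {n : ℕ} [NeZero n]

/-- The topological contradiction. -/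
private theorem qm_core {q : ℝ} (hq0 : 0 < q) {U : Set (Sph n)} {z : Sph n} {τ κ : ℝ}
    (hlink : ∀ (W0 : Sph n → Eu n) (W : ℝ → Sph n → Eu n), Continuous W0 →
      ContinuousOn (fun p : ℝ × Sph n => W p.1 p.2) (Icc (0 : ℝ) 1 ×ˢ closure U) →
      (∀ v : Sph n, ‖W0 v - (inner ℝ (v : Eu n) (z : Eu n) • (v : Eu n) - τ • (z : Eu n))‖ ≤ κ) →
      (∀ v ∈ closure U, W 0 v = W0 v) →
      (∀ t ∈ Icc (0 : ℝ) 1, ∀ v ∈ frontier U, W t v = W0 v) →
      (∀ t ∈ Icc (0 : ℝ) 1, ∀ v ∈ closure U, W t v ≠ 0) →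
      (∀ v ∈ closure U, ∀ s : ℝ, 0 ≤ s → W 1 v ≠ s • (z : Eu n)) → False)
    {D : Sph n → XS (pm n)} (hDc : Continuous D) (hDfix : ∀ v, rhoX (D v) = D v)
    (hDm : ∀ v, ‖mom q ((D v : XS (pm n)) : C(Sph n, ℝ)) (z : Eu n) -
      inner ℝ (v : Eu n) (z : Eu n) • (v : Eu n)‖ ≤ κ)
    {F : XS (pm n) → ℝ} {m0 C C1 : ℝ} {H : ℝ → XS (pm n) → XS (pm n)}
    (hHc : Continuous (fun p : ℝ × XS (pm n) => H p.1 p.2))
    (hH0 : ∀ x, rhoX x = x → H 0 x = x) (hHfix : ∀ t x, rhoX x = x → rhoX (H t x) = H t x)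
    (hHmono : ∀ t x, rhoX x = x → F x ≤ F (H t x))
    (hHconst : ∀ t x, rhoX x = x → C1 ≤ F x → H t x = x)
    (hH1 : ∀ x, rhoX x = x → m0 ≤ F x → C ≤ F (H 1 x))
    (h1 : ∀ v ∈ frontier U, C1 ≤ F (D v)) (h2 : ∀ v ∈ closure U, m0 ≤ F (D v))
    (h3 : ∀ f : XS (pm n), rhoX f = f → mom q (f : C(Sph n, ℝ)) (z : Eu n) = τ • (z : Eu n) →
      F f < m0)
    (h4 : ∀ f : XS (pm n), rhoX f = f → ∀ s : ℝ, 0 ≤ s →
      mom q (f : C(Sph n, ℝ)) (z : Eu n) = (τ + s) • (z : Eu n) → F f < C) : False := by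
  have hmomc : Continuous fun f : XS (pm n) => mom q (f : C(Sph n, ℝ)) (z : Eu n) :=
    (continuous_mom hq0 (z : Eu n)).comp continuous_subtype_val
  have hDm' : Continuous fun v : Sph n => mom q ((D v : XS (pm n)) : C(Sph n, ℝ)) (z : Eu n) :=
    hmomc.comp hDc
  have hHD : Continuous fun p : ℝ × Sph n => H p.1 (D p.2) :=
    hHc.comp (continuous_fst.prodMk (hDc.comp continuous_snd))
  have hHm : Continuous fun p : ℝ × Sph n =>
      mom q ((H p.1 (D p.2) : XS (pm n)) : C(Sph n, ℝ)) (z : Eu n) := hmomc.comp hHD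
  refine hlink (fun v => mom q ((D v : XS (pm n)) : C(Sph n, ℝ)) (z : Eu n) - τ • (z : Eu n))
    (fun t v => mom q ((H t (D v) : XS (pm n)) : C(Sph n, ℝ)) (z : Eu n) - τ • (z : Eu n))
    (hDm'.sub continuous_const) (hHm.sub continuous_const).continuousOn ?_ ?_ ?_ ?_ ?_
  · intro v
    show ‖mom q ((D v : XS (pm n)) : C(Sph n, ℝ)) (z : Eu n) - τ • (z : Eu n) -
      (inner ℝ (v : Eu n) (z : Eu n) • (v : Eu n) - τ • (z : Eu n))‖ ≤ κ
    rw [sub_sub_sub_cancel_right]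
    exact hDm v
  · intro v _
    show mom q ((H 0 (D v) : XS (pm n)) : C(Sph n, ℝ)) (z : Eu n) - τ • (z : Eu n) =
      mom q ((D v : XS (pm n)) : C(Sph n, ℝ)) (z : Eu n) - τ • (z : Eu n)
    rw [hH0 _ (hDfix v)]
  · intro t _ v hv
    show mom q ((H t (D v) : XS (pm n)) : C(Sph n, ℝ)) (z : Eu n) - τ • (z : Eu n) =
      mom q ((D v : XS (pm n)) : C(Sph n, ℝ)) (z : Eu n) - τ • (z : Eu n)
    rw [hHconst t _ (hDfix v) (h1 v hv)]
  · intro t _ v hv h0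
    have e1 : mom q ((H t (D v) : XS (pm n)) : C(Sph n, ℝ)) (z : Eu n) = τ • (z : Eu n) :=
      sub_eq_zero.1 h0
    have e2 := h3 _ (hHfix t _ (hDfix v)) e1
    have e3 := hHmono t _ (hDfix v)
    have e4 := h2 v hv
    linarith
  · intro v hv s hs h0
    have e0 : mom q ((H 1 (D v) : XS (pm n)) : C(Sph n, ℝ)) (z : Eu n) - τ • (z : Eu n) =
      s • (z : Eu n) := h0
    have e1 : mom q ((H 1 (D v) : XS (pm n)) : C(Sph n, ℝ)) (z : Eu n) =
        (τ + s) • (z : Eu n) := by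
      rw [add_smul, add_comm]
      exact sub_eq_iff_eq_add.1 e0
    have e2 := h4 _ (hHfix 1 _ (hDfix v)) s hs e1
    have e3 := hH1 _ (hDfix v) (h2 v hv)
    linarith

/-- Uniform lower bound of the truncated potentials near a minimum. -/
private theorem qm_low (μ : Measure (Sph n)) [IsProbabilityMeasure μ] {U : Set (Sph n)} {p γ : ℝ}
    (hγ : 0 < γ) (hmin : ∀ v ∈ closure U, ENNReal.ofReal p ≤ pot μ v) :
    ∃ δ2 > 0, δ2 ≤ 1 ∧ ∀ δ : ℝ, 0 < δ → δ ≤ δ2 → ∀ v ∈ closure U, p - γ ≤ potd μ δ v := by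
  by_cases hc : p - γ < 0
  · exact ⟨1, one_pos, le_rfl, fun δ _ hδ v _ => hc.le.trans (potd_nonneg hδ v)⟩
  · obtain ⟨b, hb, δ0, hδ0, h0⟩ := wall (μ := μ) (isClosed_closure (s := U)).isCompact
      (b := p - γ) (fun v hv =>
        lt_of_lt_of_le ((ENNReal.ofReal_lt_ofReal_iff (by linarith)).2 (by linarith)) (hmin v hv))
    exact ⟨min δ0 1, lt_min hδ0 one_pos, min_le_right _ _, fun δ hδ hδ' v hv =>
      hb.le.trans (h0 δ hδ (hδ'.trans (min_le_left _ _)) v hv)⟩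

/-- Existence for large `q`. -/
theorem exists_large (hn : 2 ≤ n) (μ : Measure (Sph n))
    [IsProbabilityMeasure μ] (hμ : MInv (pm n) μ) {U : Set (Sph n)} (hU : IsOpen U) {z : Sph n}
    (hz : z ∈ U) (hz' : -z ∉ closure U) (hfin : pot μ z ≠ ⊤)
    (hmin : ∀ v ∈ closure U, pot μ z ≤ pot μ v) (hfr : ∀ v ∈ frontier U, pot μ z < pot μ v)
    (hsec : ∀ w : Sph n, inner ℝ (w : Eu n) (z : Eu n) = (0 : ℝ) →
      1 < ∫⁻ u, ENNReal.ofReal (rat z w u) ∂μ) :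
    ∃ q0 : ℝ, ∀ q : ℝ, q0 ≤ q → Nondeg (pm n) q μ →
      ∃ g : Sph n → ℝ, Bd (pm n) g ∧ MM q g = ENNReal.ofReal (II q g) • μ := by
  obtain ⟨τ, hτ0, hτ1, γ, hγ, hray⟩ := ray μ hfin hsec
  obtain ⟨κ, hκ, hlink⟩ := no_link hU hz hz' hτ0 hτ1
  obtain ⟨p, hp⟩ : ∃ p : ℝ, p = (pot μ z).toReal := ⟨_, rfl⟩
  rw [← hp] at hray
  have hpz : ENNReal.ofReal p = pot μ z := by rw [hp]; exact ENNReal.ofReal_toReal hfin
  obtain ⟨a, ha, δ1, hδ1, hwall⟩ := wall (μ := μ) (isClosed_frontier (s := U)).isCompact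
    (b := p) (fun v hv => by rw [hpz]; exact hfr v hv)
  obtain ⟨γ', hγ'⟩ : ∃ γ' : ℝ, γ' = min (γ / 4) ((a - p) / 4) := ⟨_, rfl⟩
  have hγ'1 : γ' ≤ γ / 4 := by rw [hγ']; exact min_le_left _ _
  have hγ'2 : γ' ≤ (a - p) / 4 := by rw [hγ']; exact min_le_right _ _
  have hγ'0 : 0 < γ' := by
    rw [hγ']
    exact lt_min (by linarith) (by linarith)
  obtain ⟨δ2, hδ2, hδ21, hlow⟩ := qm_low μ (U := U) (p := p) hγ'0
    (fun v hv => by rw [hpz]; exact hmin v hv)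
  obtain ⟨δ, hδdef⟩ : ∃ δ : ℝ, δ = min (min δ1 δ2) (1 / 2) := ⟨_, rfl⟩
  have hδ : 0 < δ := by
    rw [hδdef]
    exact lt_min (lt_min hδ1 hδ2) (by norm_num)
  have hδh : δ ≤ 1 / 2 := by rw [hδdef]; exact min_le_right _ _
  have hδd1 : δ ≤ δ1 := by rw [hδdef]; exact (min_le_left _ _).trans (min_le_left _ _)
  have hδd2 : δ ≤ δ2 := by rw [hδdef]; exact (min_le_left _ _).trans (min_le_right _ _)
  obtain ⟨q1, hq1⟩ := Psi_dc (n := n) hδ hγ'0
  obtain ⟨q2, hq2⟩ := mom_dc (n := n) hδ hδh hκ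
  obtain ⟨σ, hσ⟩ : ∃ σ : ℝ, σ = Real.log ((sg n).real univ) := ⟨_, rfl⟩
  refine ⟨max (max q1 q2) (max ((n : ℝ) + 1) (|σ| / γ')), fun q hq hnd => ?_⟩
  have hqq1 : q1 ≤ q := ((le_max_left _ _).trans (le_max_left _ _)).trans hq
  have hqq2 : q2 ≤ q := ((le_max_right _ _).trans (le_max_left _ _)).trans hq
  have hqn1 : (n : ℝ) + 1 ≤ q := ((le_max_left _ _).trans (le_max_right _ _)).trans hq
  have hqσ : |σ| / γ' ≤ q := ((le_max_right _ _).trans (le_max_right _ _)).trans hq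
  have hqn : (n : ℝ) < q := by linarith
  have hn2 : (2 : ℝ) ≤ n := by exact_mod_cast hn
  have hq0 : 0 < q := by linarith
  have hσq : (1 / q) * σ ≤ γ' := by
    rw [div_le_iff₀ hγ'0] at hqσ
    rw [one_div, inv_mul_le_iff₀ hq0]
    exact (le_abs_self σ).trans (by linarith)
  by_contra hno
  obtain ⟨F, hFc, hFinc, hFcpt, hFP, hFD, hpush⟩ :=
    exists_pen hqn μ hμ hnd hno (p + (a - p) / 2) hδ
  have hFD1 : ∀ v, potd μ δ v - γ' ≤ F (dc δ hδ v) := fun v => by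
    rw [hFD v]
    exact hq1 q hqq1 μ v
  have hup : ∀ f : XS (pm n), rhoX f = f →
      F f ≤ -(1 / 2) * ∫ v, Real.log (Lam q (f : C(Sph n, ℝ)) v) ∂μ + γ' := by
    intro f hf
    have h1 := Psi_le_Lam (q := q) (by linarith) μ (Bd_of_fix (neg_mem_pm n) hf)
    rw [← hσ] at h1
    linarith [hFP f]
  have hfix : ∀ v : Sph n, rhoX (dc δ hδ v) = dc δ hδ v := fun v =>
    rhoX_eq_self (by rw [ex_dc]; exact Bd_dc hδ (by linarith) v)
  obtain ⟨H, hHc, hH0, hHfix, hHmono, hHconst, hH1⟩ := deformH_XS (neg_mem_pm n) hFc hFinc hFcpt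
    (m0 := p - 2 * γ') (C := p + (a - p) / 2) (C1 := p + 3 * (a - p) / 4) (by linarith) hpush
  refine qm_core hq0 hlink (continuous_dc hδ) hfix
    (fun v => hq2 q hqq2 v (z : Eu n) (by rw [norm_sph])) hHc hH0 hHfix hHmono hHconst hH1
    ?_ ?_ ?_ ?_
  · intro v hv
    have h2 := hwall δ hδ hδd1 v hv
    linarith [hFD1 v]
  · intro v hv
    have h5 := hlow δ hδ hδd2 v hv
    linarith [hFD1 v]
  · intro f hf h1
    have h2 := (hray q (f : C(Sph n, ℝ)) τ le_rfl h1).2 rfl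
    have h3 := hup f hf
    linarith
  · intro f hf s hs h1
    have h2 := (hray q (f : C(Sph n, ℝ)) (τ + s) (by linarith) h1).1
    have h3 := hup f hf
    linarith

end QMain

end Pool.Agent.Lib.MP_b0d2bf_gt
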