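import Mathlib
import Pool.Agent.Lib.MP_b0d2bf_gt.XDefs2

set_option autoImplicit false

/-!
The uniform probability measure on the sphere.
-/

namespace Pool.Agent.Lib.MP_b0d2bf_gt

open MeasureTheory Metric Set Filter Topology
open scoped Pointwise

namespace XSig

variable {n : ℕ}

/-- the surface measure is invariant under linear isometries -/
lemma map_act_sg [NeZero n] (g : Eu n ≃ₗᵢ[ℝ] Eu n) : Measure.map (actS g) (sg n) = sg n := by
  have hm : Measurable (actS g : Sph n → Sph n) := (continuous_actS g).measurable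
  ext s hs
  rw [Measure.map_apply hm hs]
  unfold sg
  rw [Measure.toSphere_apply' _ (hm hs), Measure.toSphere_apply' _ hs]
  congr 1
  have hmp : MeasurePreserving (g : Eu n → Eu n) volume volume := g.measurePreserving
  have hme : MeasurableEmbedding (g : Eu n → Eu n) := g.toHomeomorph.measurableEmbedding
  rw [← hmp.measure_preimage_emb hme (Ioo (0:ℝ) 1 • ((↑) '' s : Set (Eu n)))]
  congr 1
  ext x
  constructor
  · rintro ⟨r, hr, _, ⟨u, hu, rfl⟩, rfl⟩
    refine ⟨r, hr, _, ⟨actS g u, hu, rfl⟩, ?_⟩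
    show r • g (u : Eu n) = g (r • (u : Eu n))
    rw [map_smul]
  · rintro ⟨r, hr, _, ⟨u, hu, rfl⟩, hxu⟩
    have hxu' : r • (u : Eu n) = g x := hxu
    refine ⟨r, hr, _, ⟨actS g⁻¹ u, ?_, rfl⟩, ?_⟩
    · show actS g (actS g⁻¹ u) ∈ s
      rw [actS_inv']
      exact hu
    · show r • g.symm (u : Eu n) = x
      rw [← map_smul, hxu', g.symm_apply_apply]

end XSig

section XSig

variable {n : ℕ} [NeZero n]

theorem isProb_sgu : IsProbabilityMeasure (sgu n) := by
  constructor
  unfold sgu
  rw [Measure.smul_apply, smul_eq_mul, ENNReal.inv_mul_cancel]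
  · exact fun h => sg_ne_zero (Measure.measure_univ_eq_zero.1 h)
  · exact measure_ne_top _ _

theorem MInv_sgu (G : Subgroup (Eu n ≃ₗᵢ[ℝ] Eu n)) : MInv G (sgu n) := by
  intro g _
  unfold sgu
  rw [Measure.map_smul, XSig.map_act_sg]

theorem mass_sgu {L : Submodule ℝ (Eu n)} (hL : L ≠ ⊤) : mass (sgu n) L = 0 := by
  unfold mass sgu
  rw [measureReal_ennreal_smul_apply, Measure.real, sg_subspace hL]
  simp

end XSig

end Pool.Agent.Lib.MP_b0d2bf_gt
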