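import Mathlib
import Pool.Agent.Lib.MP_b0d2bf_gt.YTop
import Pool.Agent.Lib.Brouwer.BrCt

set_option autoImplicit false

/-!
Non-contractibility of the complex of minimal heavy subspaces: no heavy subspaces, two classes
which pairwise span, direct sums of irreducible heavy subspaces.
-/

namespace Pool.Agent.Lib.MP_b0d2bf_gt

open MeasureTheory Metric Set Filter Topology

lemma contractible_of_retract {X Y : Type*} [TopologicalSpace X] [TopologicalSpace Y]
    [ContractibleSpace X] (i : C(Y, X)) (r : C(X, Y)) (h : ∀ y, r (i y) = y) :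
    ContractibleSpace Y := by
  rw [contractible_iff_id_nullhomotopic]
  have h1 := ((id_nullhomotopic X).comp_right r).comp_left i
  have h2 : (r.comp (ContinuousMap.id X)).comp i = ContinuousMap.id Y := by
    ext y
    exact h y
  rwa [h2] at h1

section YCor

variable {n : ℕ} {G : Subgroup (Eu n ≃ₗᵢ[ℝ] Eu n)} {q : ℝ} {μ : Measure (Sph n)}

/-- the depth at which `X` is covered modulo `F` -/
noncomputable def rr (X F : Submodule ℝ (Eu n)) (x : ZZ G q μ → ℝ) : ℝ :=
  sSup {t : ℝ | t = 0 ∨ (0 ≤ t ∧ X ≤ spn {Z | t < x Z} ⊔ F)}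

lemma rr_nonempty (X F : Submodule ℝ (Eu n)) (x : ZZ G q μ → ℝ) :
    {t : ℝ | t = 0 ∨ (0 ≤ t ∧ X ≤ spn {Z | t < x Z} ⊔ F)}.Nonempty := ⟨0, Or.inl rfl⟩

lemma rr_bdd [Finite (ZZ G q μ)] {X F : Submodule ℝ (Eu n)} (hXF : ¬ X ≤ F) (x : ZZ G q μ → ℝ) :
    BddAbove {t : ℝ | t = 0 ∨ (0 ≤ t ∧ X ≤ spn {Z | t < x Z} ⊔ F)} := by
  obtain ⟨s, hs⟩ := (Set.finite_range x).bddAbove
  refine ⟨max s 0, ?_⟩
  rintro t (rfl | ⟨ht0, ht⟩)
  · exact le_max_right _ _
  · by_contra hcon
    rw [not_le, max_lt_iff] at hcon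
    have h1 : {Z | t < x Z} = (∅ : Set (ZZ G q μ)) := by
      ext Z
      simp only [mem_ofPred_eq, mem_empty_iff_false, iff_false, not_lt]
      exact (hs ⟨Z, rfl⟩).trans hcon.1.le
    rw [h1, spn_empty, bot_sup_eq] at ht
    exact hXF ht

lemma rr_nonneg [Finite (ZZ G q μ)] {X F : Submodule ℝ (Eu n)} (hXF : ¬ X ≤ F)
    (x : ZZ G q μ → ℝ) : 0 ≤ rr X F x := le_csSup (rr_bdd hXF x) (Or.inl rfl)

lemma lt_rr [Finite (ZZ G q μ)] {X F : Submodule ℝ (Eu n)} (hXF : ¬ X ≤ F)
    (x : ZZ G q μ → ℝ) {t : ℝ} (ht : 0 ≤ t) : t < rr X F x ↔ X ≤ spn {Z | t < x Z} ⊔ F := by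
  constructor
  · intro h
    obtain ⟨s, hs, hts⟩ := exists_lt_of_lt_csSup (rr_nonempty X F x) h
    rcases hs with rfl | ⟨-, hs⟩
    · exact absurd hts (not_lt.2 ht)
    · refine hs.trans (sup_le_sup_right (spn_mono fun Z hZ => ?_) F)
      exact hts.trans hZ
  · intro h
    have hne : ({Z | t < x Z} : Set (ZZ G q μ)).Nonempty := by
      by_contra hcon
      rw [Set.not_nonempty_iff_eq_empty.1 hcon, spn_empty, bot_sup_eq] at h
      exact hXF h
    obtain ⟨Z0, hZ0, hmin⟩ := Set.exists_min_image {Z | t < x Z} x (Set.toFinite _) hne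
    have h0 : t < x Z0 := hZ0
    have h1 : (t + x Z0) / 2 ≤ rr X F x := by
      refine le_csSup (rr_bdd hXF x) (Or.inr ⟨by linarith, h.trans (sup_le_sup_right
        (spn_mono fun Z hZ => ?_) F)⟩)
      have h2 := hmin Z hZ
      show (t + x Z0) / 2 < x Z
      linarith
    linarith

lemma rr_lip [Finite (ZZ G q μ)] {X F : Submodule ℝ (Eu n)} (hXF : ¬ X ≤ F)
    {x x' : ZZ G q μ → ℝ} {d : ℝ} (hd0 : 0 ≤ d) (hd : ∀ Z, |x Z - x' Z| ≤ d) :
    rr X F x ≤ rr X F x' + d := by
  refine csSup_le (rr_nonempty X F x) ?_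
  rintro t (rfl | ⟨ht0, ht⟩)
  · have := rr_nonneg hXF x'
    linarith
  · by_cases h1 : t - d ≤ 0
    · have := rr_nonneg hXF x'
      linarith
    · rw [not_le] at h1
      have h2 : t - d ≤ rr X F x' := by
        refine le_csSup (rr_bdd hXF x') (Or.inr ⟨h1.le, ht.trans (sup_le_sup_right
          (spn_mono fun Z hZ => ?_) F)⟩)
        have h3 := (abs_le.1 (hd Z)).2
        have h4 : t < x Z := hZ
        show t - d < x' Z
        linarith
      linarith

lemma continuous_rr [Finite (ZZ G q μ)] {X F : Submodule ℝ (Eu n)} (hXF : ¬ X ≤ F) :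
    Continuous (rr X F : (ZZ G q μ → ℝ) → ℝ) := by
  have := Fintype.ofFinite (ZZ G q μ)
  have hL : LipschitzWith 1 (rr X F : (ZZ G q μ → ℝ) → ℝ) := by
    refine LipschitzWith.of_dist_le_mul fun m m' => ?_
    have h1 : ∀ Z, |m Z - m' Z| ≤ dist m m' := fun Z => by
      rw [← Real.dist_eq]; exact dist_le_pi_dist m m' Z
    have h2 : ∀ Z, |m' Z - m Z| ≤ dist m m' := fun Z => by
      rw [abs_sub_comm]; exact h1 Z
    rw [Real.dist_eq, abs_le]
    have h3 := rr_lip hXF dist_nonneg h1
    have h4 := rr_lip hXF dist_nonneg h2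
    simp only [NNReal.coe_one, one_mul]
    constructor <;> linarith
  exact hL.continuous

/-- the complex is empty if there is no heavy subspace -/
theorem not_contractible_light
    (h : ∀ L : Submodule ℝ (Eu n), SInv G L → L ≠ ⊥ → L ≠ ⊤ →
      mass μ L < Module.finrank ℝ L / q) : ¬ ContractibleSpace (CC G q μ) := by
  intro hc
  obtain ⟨x, -, ⟨Z, -⟩, -⟩ := hc.hequiv_unit.some.invFun ()
  have h1 := Z.2.1
  exact lt_asymm h1.2.2.2 (h _ h1.1 h1.2.1 h1.2.2.1)

/-- the complex is disconnected if there are two classes which pairwise span -/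
theorem not_contractible_split [Finite (ZZ G q μ)] {A B : Set (Submodule ℝ (Eu n))}
    (hAB : ∀ Z : ZZ G q μ, (Z : Submodule ℝ (Eu n)) ∈ A ∨ (Z : Submodule ℝ (Eu n)) ∈ B)
    (hA : ∃ Z : ZZ G q μ, (Z : Submodule ℝ (Eu n)) ∈ A)
    (hB : ∃ Z : ZZ G q μ, (Z : Submodule ℝ (Eu n)) ∈ B)
    (hsp : ∀ Z ∈ A, ∀ W ∈ B, Z ⊔ W = ⊤) : ¬ ContractibleSpace (CC G q μ) := by
  classical
  intro hc
  have := Fintype.ofFinite (ZZ G q μ)
  have hAB' : ∀ Z : ZZ G q μ, (Z : Submodule ℝ (Eu n)) ∈ A →
      (Z : Submodule ℝ (Eu n)) ∈ B → False := by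
    intro Z h1 h2
    have := hsp _ h1 _ h2
    rw [sup_idem] at this
    exact Z.2.1.2.2.1 this
  let φ : CC G q μ → ℝ := fun x =>
    ∑ Z : ZZ G q μ, (if (Z : Submodule ℝ (Eu n)) ∈ A then x.1 Z else - x.1 Z)
  have hφc : Continuous φ := by
    refine continuous_finsetSum _ fun Z _ => ?_
    have h1 : Continuous fun x : CC G q μ => x.1 Z := (continuous_apply Z).comp
      continuous_subtype_val
    by_cases hZ : (Z : Submodule ℝ (Eu n)) ∈ A
    · simpa only [if_pos hZ] using h1
    · simp only [if_neg hZ]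
      exact h1.neg
  -- if a member of `A` has positive size then no member of `B` has
  have key : ∀ x : CC G q μ, ∀ Z : ZZ G q μ, (Z : Submodule ℝ (Eu n)) ∈ A → 0 < x.1 Z →
      ∀ W : ZZ G q μ, (W : Submodule ℝ (Eu n)) ∈ B → x.1 W = 0 := by
    intro x Z hZ hxZ W hW
    by_contra hcon
    have h1 : 0 < x.1 W := lt_of_le_of_ne (x.2.1 W) (Ne.symm hcon)
    apply x.2.2.2
    rw [eq_top_iff, ← hsp _ hZ _ hW]
    exact sup_le (le_spn hxZ) (le_spn h1)
  have hφ0 : ∀ x, φ x ≠ 0 := by
    intro x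
    obtain ⟨Z, hZ⟩ := x.2.2.1
    rcases hAB Z with hA' | hB'
    · have h1 : 0 < φ x := by
        refine Finset.sum_pos' (fun W _ => ?_) ⟨Z, Finset.mem_univ _, by rwa [if_pos hA']⟩
        by_cases hW : (W : Submodule ℝ (Eu n)) ∈ A
        · rw [if_pos hW]
          exact x.2.1 W
        · rw [if_neg hW, key x Z hA' hZ W ((hAB W).resolve_left hW), neg_zero]
      exact h1.ne'
    · have h1 : φ x < 0 := by
        have h2 : 0 < - φ x := by
          show 0 < - ∑ Z : ZZ G q μ, _
          rw [← Finset.sum_neg_distrib]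
          refine Finset.sum_pos' (fun W _ => ?_) ⟨Z, Finset.mem_univ _, ?_⟩
          · by_cases hW : (W : Submodule ℝ (Eu n)) ∈ A
            · have h3 : x.1 W = 0 := by
                by_contra hcon
                have h4 : 0 < x.1 W := lt_of_le_of_ne (x.2.1 W) (Ne.symm hcon)
                rw [key x W hW h4 Z hB'] at hZ
                exact lt_irrefl _ hZ
              rw [if_pos hW, h3, neg_zero]
            · rw [if_neg hW, neg_neg]
              exact x.2.1 W
          · rw [if_neg fun h => hAB' Z h hB', neg_neg]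
            exact hZ
        linarith
      exact h1.ne
  have hmem : ∀ Z : ZZ G q μ, (fun W => if W = Z then (1:ℝ) else 0) ∈ CC G q μ := by
    intro Z
    refine ⟨fun W => by dsimp only; split_ifs <;> norm_num, ⟨Z, by simp⟩, fun hcon => ?_⟩
    apply Z.2.1.2.2.1
    rw [eq_top_iff, ← hcon]
    refine spn_le fun W hW => ?_
    have h1 : W = Z := by
      by_contra hne
      have h2 : (0:ℝ) < if W = Z then (1:ℝ) else 0 := hW
      rw [if_neg hne] at h2
      exact lt_irrefl _ h2
    rw [h1]
  obtain ⟨ZA, hZA⟩ := hA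
  obtain ⟨ZB, hZB⟩ := hB
  have hpa : 0 ≤ φ ⟨_, hmem ZA⟩ := by
    refine Finset.sum_nonneg fun W _ => ?_
    dsimp only
    by_cases hW : W = ZA
    · rw [if_pos (hW ▸ hZA), if_pos hW]; exact zero_le_one
    · rw [if_neg hW, neg_zero, ite_self]
  have hpb : φ ⟨_, hmem ZB⟩ ≤ 0 := by
    refine Finset.sum_nonpos fun W _ => ?_
    dsimp only
    by_cases hW : W = ZB
    · rw [if_neg (fun h => hAB' W h (hW ▸ hZB)), if_pos hW]; norm_num
    · rw [if_neg hW, neg_zero, ite_self]
  obtain ⟨x, hx⟩ := mem_range_of_exists_le_of_exists_ge hφc ⟨_, hpb⟩ ⟨_, hpa⟩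
  exact hφ0 x hx

/-- the complex is not contractible if the whole space is a direct sum of irreducible heavy
subspaces -/
theorem not_contractible_direct [Finite (ZZ G q μ)] {m : ℕ} {V : Fin m → Submodule ℝ (Eu n)}
    (hV : ∀ i, Heavy G q μ (V i))
    (hirr : ∀ i, ∀ W : Submodule ℝ (Eu n), SInv G W → W ≤ V i → W = ⊥ ∨ W = V i)
    (hind : iSupIndep V) (htop : ⨆ i, V i = ⊤) : ¬ ContractibleSpace (CC G q μ) := by
  classical
  intro hc
  -- the members of the family are minimal heavy
  have hmin : ∀ i, MinHeavy G q μ (V i) := fun i =>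
    ⟨hV i, fun W hW hle => (hirr i W hW.1 hle).resolve_left hW.2.1⟩
  let z : Fin m → ZZ G q μ := fun i => ⟨V i, hmin i⟩
  have hVbot : ∀ i, V i ≠ ⊥ := fun i => (hV i).2.1
  have hnle : ∀ i, ∀ X : Submodule ℝ (Eu n), X ≤ ⨆ (j) (_ : j ≠ i), V j → ¬ V i ≤ X := by
    intro i X hX hle
    have h1 := hind i
    have h2 := h1 le_rfl (hle.trans hX)
    exact hVbot i (le_bot_iff.1 h2)
  have hzinj : Function.Injective z := by
    intro i j hij
    by_contra hne
    have h1 : V i = V j := congrArg Subtype.val hij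
    refine hnle i (V j) ?_ h1.le
    exact le_iSup₂_of_le j (Ne.symm hne) le_rfl
  let F : Fin m → Submodule ℝ (Eu n) := fun i => ⨆ (j) (_ : j < i), V j
  have hF : ∀ i, ¬ V i ≤ F i := by
    intro i
    refine hnle i _ ?_
    exact iSup₂_le fun j hj => le_iSup₂_of_le j hj.ne le_rfl
  have hFinv : ∀ i, SInv G (F i) := by
    intro i g hg y hy
    have h1 : F i ≤ (F i).comap (g.toLinearEquiv : Eu n →ₗ[ℝ] Eu n) := by
      refine iSup₂_le fun j hj w hw => ?_
      rw [Submodule.mem_comap]
      have h2 : V j ≤ F i := le_iSup₂_of_le j hj le_rfl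
      exact h2 ((hV j).1 g hg w hw)
    exact h1 hy
  -- the inclusion
  let emb : (Fin m → ℝ) → ZZ G q μ → ℝ := fun y Z => ∑ i, if Z = z i then y i else 0
  have hemb1 : ∀ y i, emb y (z i) = y i := by
    intro y i
    show ∑ j, (if z i = z j then y j else 0) = y i
    rw [Finset.sum_eq_single i]
    · rw [if_pos rfl]
    · intro j _ hj
      rw [if_neg fun h => hj (hzinj h).symm]
    · intro h
      exact absurd (Finset.mem_univ i) h
  have hemb2 : ∀ y Z, (∀ i, Z ≠ z i) → emb y Z = 0 := by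
    intro y Z hZ
    exact Finset.sum_eq_zero fun i _ => if_neg (hZ i)
  have hemb3 : ∀ y, (∀ i, 0 ≤ y i) → ∀ t, 0 ≤ t → ∀ i,
      (V i ≤ spn {Z | t < emb y Z} ⊔ F i ↔ t < y i) := by
    intro y hy t ht i
    constructor
    · intro h
      by_contra hcon
      refine hnle i _ ?_ h
      refine sup_le (spn_le fun Z hZ => ?_) (iSup₂_le fun j hj => le_iSup₂_of_le j hj.ne le_rfl)
      by_cases hZ' : ∃ j, Z = z j
      · obtain ⟨j, rfl⟩ := hZ'
        have h1 : t < emb y (z j) := hZ
        rw [hemb1] at h1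
        have h2 : j ≠ i := fun hji => hcon (hji ▸ h1)
        exact le_iSup₂_of_le j h2 le_rfl
      · have h1 : t < emb y Z := hZ
        rw [hemb2 y Z fun i hi => hZ' ⟨i, hi⟩] at h1
        exact absurd h1 (not_lt.2 ht)
    · intro h
      refine le_sup_of_le_left ?_
      have h1 : z i ∈ {Z | t < emb y Z} := by
        show t < emb y (z i)
        rwa [hemb1]
      exact le_spn h1
  let S : Type := {y : Fin m → ℝ // (∀ i, 0 ≤ y i) ∧ y ≠ 0 ∧ ∃ i, y i = 0}
  have hembCC : ∀ y : S, emb y.1 ∈ CC G q μ := by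
    rintro ⟨y, hy1, hy2, hy3⟩
    refine ⟨fun Z => Finset.sum_nonneg fun i _ => ?_, ?_, ?_⟩
    · split_ifs
      · exact hy1 i
      · exact le_rfl
    · obtain ⟨i, hi⟩ := Function.ne_iff.1 hy2
      refine ⟨z i, ?_⟩
      rw [hemb1]
      exact lt_of_le_of_ne (hy1 i) (Ne.symm hi)
    · intro hcon
      obtain ⟨i, hi⟩ := hy3
      have h1 := (hemb3 y hy1 0 le_rfl i).1 (by
        dsimp only at hcon
        rw [hcon]
        exact le_sup_of_le_left le_top)
      rw [hi] at h1
      exact lt_irrefl _ h1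
  have hembc : Continuous emb := by
    refine continuous_pi fun Z => continuous_finsetSum _ fun i _ => ?_
    split_ifs
    · exact continuous_apply i
    · exact continuous_const
  -- the retraction
  let ret : (ZZ G q μ → ℝ) → Fin m → ℝ := fun x i => rr (V i) (F i) x
  have hretc : Continuous ret := continuous_pi fun i => continuous_rr (hF i)
  have hretS : ∀ x : CC G q μ, (∀ i, 0 ≤ ret x.1 i) ∧ ret x.1 ≠ 0 ∧ ∃ i, ret x.1 i = 0 := by
    rintro ⟨x, hx1, hx2, hx3⟩
    have hnn : ∀ i, 0 ≤ ret x i := fun i => rr_nonneg (hF i) x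
    refine ⟨hnn, ?_, ?_⟩
    · -- some coordinate is positive
      intro h0
      have hno : ∀ i, ¬ V i ≤ spn {Z | 0 < x Z} ⊔ F i := by
        intro i h
        have h1 := (lt_rr (hF i) x le_rfl).2 h
        have h2 : ret x i = 0 := congrFun h0 i
        have h3 : rr (V i) (F i) x = 0 := h2
        rw [h3] at h1
        exact lt_irrefl _ h1
      set X := spn {Z | 0 < x Z} with hX
      have hXinv : SInv G X := YBody.SInv_spn _
      have hXbot : X ≠ ⊥ := by
        obtain ⟨Z, hZ⟩ := hx2
        intro hb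
        have h1 : (Z : Submodule ℝ (Eu n)) ≤ X := le_spn hZ
        rw [hb, le_bot_iff] at h1
        exact Z.2.1.2.1 h1
      -- `X` is disjoint from all partial sums
      have hdisj : ∀ k : ℕ, X ⊓ (⨆ (j : Fin m) (_ : j.1 < k), V j) = ⊥ := by
        intro k
        induction k with
        | zero => simp
        | succ k ih =>
          by_cases hk : k < m
          · have hFk : F ⟨k, hk⟩ = ⨆ (j : Fin m) (_ : j.1 < k), V j := rfl
            have h1 : (⨆ (j : Fin m) (_ : j.1 < k + 1), V j) = F ⟨k, hk⟩ ⊔ V ⟨k, hk⟩ := by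
              apply le_antisymm
              · refine iSup₂_le fun j hj => ?_
                rcases Nat.lt_succ_iff_lt_or_eq.1 hj with h | h
                · exact le_sup_of_le_left (le_iSup₂_of_le j h le_rfl)
                · have : j = ⟨k, hk⟩ := Fin.ext h
                  rw [this]
                  exact le_sup_right
              · refine sup_le (iSup₂_le fun j hj => ?_) ?_
                · exact le_iSup₂_of_le j (Nat.lt_succ_of_lt hj) le_rfl
                · exact le_iSup₂_of_le (⟨k, hk⟩ : Fin m) (Nat.lt_succ_self k) le_rfl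
            rw [h1, eq_bot_iff]
            intro w hw
            obtain ⟨hwX, hw2⟩ := hw
            obtain ⟨f, hf, v, hv, rfl⟩ := Submodule.mem_sup.1 hw2
            have hvX : v ∈ V ⟨k, hk⟩ ⊓ (X ⊔ F ⟨k, hk⟩) := by
              refine ⟨hv, ?_⟩
              have : v = (f + v) + (- f) := by abel
              rw [this]
              exact Submodule.add_mem_sup hwX (Submodule.neg_mem _ hf)
            have hinv : SInv G (V ⟨k, hk⟩ ⊓ (X ⊔ F ⟨k, hk⟩)) := by
              intro g hg y hy
              refine ⟨(hV _).1 g hg y hy.1, ?_⟩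
              obtain ⟨a, ha, b, hb, rfl⟩ := Submodule.mem_sup.1 hy.2
              rw [map_add]
              exact Submodule.add_mem_sup (hXinv g hg a ha) (hFinv _ g hg b hb)
            rcases hirr _ _ hinv inf_le_left with h2 | h2
            · rw [h2] at hvX
              have hv0 : v = 0 := (Submodule.mem_bot ℝ).1 hvX
              rw [hv0, add_zero] at hwX ⊢
              rw [← ih]
              exact ⟨hwX, hFk ▸ hf⟩
            · exact absurd (h2 ▸ inf_le_right) (hno ⟨k, hk⟩)
          · have h1 : (⨆ (j : Fin m) (_ : j.1 < k + 1), V j) =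
                ⨆ (j : Fin m) (_ : j.1 < k), V j := by
              refine iSup_congr fun j => ?_
              have hj : j.1 < m := j.2
              have h2 : (j.1 < k + 1) = (j.1 < k) := by
                apply propext
                omega
              rw [h2]
            rw [h1]
            exact ih
      have h1 := hdisj m
      have h2 : (⨆ (j : Fin m) (_ : j.1 < m), V j) = ⊤ := by
        rw [eq_top_iff, ← htop]
        exact iSup_le fun j => le_iSup₂_of_le j j.2 le_rfl
      rw [h2, inf_top_eq] at h1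
      exact hXbot h1
    · -- some coordinate is zero
      by_contra hcon
      push Not at hcon
      apply hx3
      have h1 : ∀ i, V i ≤ spn {Z | 0 < x Z} ⊔ F i := fun i =>
        (lt_rr (hF i) x le_rfl).1 (lt_of_le_of_ne (hnn i) (Ne.symm (hcon i)))
      have h2 : ∀ k : ℕ, ∀ i : Fin m, i.1 < k → V i ≤ spn {Z | 0 < x Z} := by
        intro k
        induction k with
        | zero => intro i hi; omega
        | succ k ih =>
          intro i hi
          refine (h1 i).trans (sup_le le_rfl (iSup₂_le fun j hj => ih j ?_))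
          have : j.1 < i.1 := hj
          omega
      rw [eq_top_iff, ← htop]
      exact iSup_le fun i => h2 m i i.2
  have hret : ∀ y : S, ret (emb y.1) = y.1 := by
    rintro ⟨y, hy1, hy2, hy3⟩
    funext i
    show rr (V i) (F i) (emb y) = y i
    have h1 : ∀ t, 0 ≤ t → (t < rr (V i) (F i) (emb y) ↔ t < y i) := fun t ht =>
      (lt_rr (hF i) _ ht).trans (hemb3 y hy1 t ht i)
    apply le_antisymm
    · by_contra hcon
      rw [not_le] at hcon
      exact lt_irrefl _ ((h1 _ (hy1 i)).1 hcon)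
    · by_contra hcon
      rw [not_le] at hcon
      exact lt_irrefl _ ((h1 _ (rr_nonneg (hF i) _)).2 hcon)
  have hcS : ContractibleSpace S := by
    refine contractible_of_retract (X := CC G q μ)
      ⟨fun y => ⟨emb y.1, hembCC y⟩, ?_⟩ ⟨fun x => ⟨ret x.1, hretS x⟩, ?_⟩ ?_
    · exact Continuous.subtype_mk (hembc.comp continuous_subtype_val) _
    · exact Continuous.subtype_mk (hretc.comp continuous_subtype_val) _
    · intro y
      exact Subtype.ext (hret y)
  exact Pool.Agent.Lib.Brouwer.not_contractible_orthant (Fin m) hcS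

end YCor

end Pool.Agent.Lib.MP_b0d2bf_gt
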