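import Mathlib
import Pool.Agent.Lib.MP_b0d2bf_gt.Mass
import Pool.Agent.Lib.MP_b0d2bf_gt.XScale

set_option autoImplicit false

/-!
Parallelotopes with prescribed normals: the support function and the total mass.
-/

namespace Pool.Agent.Lib.MP_b0d2bf_gt.HP

open MeasureTheory Metric Set Filter Topology

variable {n : ℕ}

/-- the support function of the parallelotope `|⟨x, v i⟩| ≤ a i` -/
noncomputable def hp (b : Module.Basis (Fin n) ℝ (Eu n)) (a : Fin n → ℝ) (w : Sph n) : ℝ :=
  ∑ i, a i * |b.repr (w : Eu n) i|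

lemma continuous_hp (b : Module.Basis (Fin n) ℝ (Eu n)) (a : Fin n → ℝ) :
    Continuous (hp b a) := by
  refine continuous_finsetSum _ fun i _ => continuous_const.mul (continuous_abs.comp ?_)
  have h : Continuous fun x : Eu n => b.coord i x := (b.coord i).continuous_of_finiteDimensional
  exact h.comp continuous_subtype_val

lemma hp_pos (b : Module.Basis (Fin n) ℝ (Eu n)) {a : Fin n → ℝ} (ha : ∀ i, 0 < a i)
    (w : Sph n) : 0 < hp b a w := by
  have h1 : ∃ i, b.repr (w : Eu n) i ≠ 0 := by
    by_contra hcon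
    push Not at hcon
    have : b.repr (w : Eu n) = 0 := by
      ext i
      exact hcon i
    exact sph_ne_zero w ((LinearEquiv.map_eq_zero_iff _).1 this)
  obtain ⟨i, hi⟩ := h1
  exact Finset.sum_pos' (fun j _ => mul_nonneg (ha j).le (abs_nonneg _))
    ⟨i, Finset.mem_univ i, mul_pos (ha i) (abs_pos.2 hi)⟩

lemma hp_even (b : Module.Basis (Fin n) ℝ (Eu n)) (a : Fin n → ℝ) (w : Sph n) :
    hp b a (-w) = hp b a w := by
  unfold hp
  refine Finset.sum_congr rfl fun i _ => ?_
  have : ((-w : Sph n) : Eu n) = -(w : Eu n) := rfl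
  rw [this, map_neg, Finsupp.neg_apply, abs_neg]

lemma hp_smul (b : Module.Basis (Fin n) ℝ (Eu n)) (a : Fin n → ℝ) (s : ℝ) :
    hp b (fun i => s * a i) = fun w => s * hp b a w := by
  funext w
  unfold hp
  rw [Finset.mul_sum]
  exact Finset.sum_congr rfl fun i _ => mul_assoc _ _ _

lemma hp_mono (b : Module.Basis (Fin n) ℝ (Eu n)) {a a' : Fin n → ℝ} (h : ∀ i, a i ≤ a' i)
    (w : Sph n) : hp b a w ≤ hp b a' w :=
  Finset.sum_le_sum fun i _ => mul_le_mul_of_nonneg_right (h i) (abs_nonneg _)

variable {v : Fin n → Sph n} {b : Module.Basis (Fin n) ℝ (Eu n)}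

lemma hp_v (hb : ∀ i, b i = (v i : Eu n)) (a : Fin n → ℝ) (i : Fin n) :
    hp b a (v i) = a i := by
  classical
  unfold hp
  rw [← hb i]
  simp only [Module.Basis.repr_self, Finsupp.single_apply]
  rw [Finset.sum_eq_single i]
  · simp
  · intro j _ hj
    simp [Ne.symm hj]
  · intro h
    exact absurd (Finset.mem_univ i) h

lemma repr_sum (hb : ∀ i, b i = (v i : Eu n)) (w : Eu n) :
    w = ∑ i, b.repr w i • (v i : Eu n) := by
  conv_lhs => rw [← b.sum_repr w]
  exact Finset.sum_congr rfl fun i _ => by rw [hb i]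

lemma wulff_hp (hb : ∀ i, b i = (v i : Eu n)) (a : Fin n → ℝ) :
    wulff (hp b a) = {x | ∀ i, |inner ℝ x (v i : Eu n)| ≤ a i} := by
  ext x
  constructor
  · intro hx i
    have h1 := hx (v i)
    have h2 := hx (-v i)
    rw [hp_even, hp_v hb] at h2
    rw [hp_v hb] at h1
    have h3 : ((-v i : Sph n) : Eu n) = -(v i : Eu n) := rfl
    rw [h3, inner_neg_right] at h2
    rw [abs_le]
    exact ⟨by linarith, h1⟩
  · intro hx w
    rw [repr_sum hb (w : Eu n), inner_sum]
    refine Finset.sum_le_sum fun i _ => ?_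
    rw [inner_smul_right]
    calc b.repr (w : Eu n) i * inner ℝ x (v i : Eu n)
        ≤ |b.repr (w : Eu n) i * inner ℝ x (v i : Eu n)| := le_abs_self _
      _ = |inner ℝ x (v i : Eu n)| * |b.repr (w : Eu n) i| := by rw [abs_mul, mul_comm]
      _ ≤ a i * |b.repr (w : Eu n) i| := mul_le_mul_of_nonneg_right (hx i) (abs_nonneg _)

/-- the linear isomorphism `x ↦ (⟨x, v i⟩)_i` -/
lemma exists_AA (hb : ∀ i, b i = (v i : Eu n)) :
    ∃ A : Eu n ≃L[ℝ] (Fin n → ℝ), ∀ x i, A x i = inner ℝ x (v i : Eu n) := by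
  let A0 : Eu n →ₗ[ℝ] (Fin n → ℝ) :=
    { toFun := fun x i => inner ℝ x (v i : Eu n)
      map_add' := fun x y => by funext i; exact inner_add_left _ _ _
      map_smul' := fun c x => by funext i; exact real_inner_smul_left _ _ _ }
  have hinj : Function.Injective A0 := by
    rw [← LinearMap.ker_eq_bot, LinearMap.ker_eq_bot']
    intro x hx
    have h1 : ∀ i, inner ℝ x (v i : Eu n) = 0 := fun i => congrFun hx i
    have h2 : inner ℝ x x = 0 := by
      conv_lhs => rw [repr_sum hb x]
      rw [sum_inner]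
      refine Finset.sum_eq_zero fun i _ => ?_
      rw [real_inner_smul_left, ← repr_sum hb x, real_inner_comm, h1, mul_zero]
    exact inner_self_eq_zero.1 h2
  have hfr : Module.finrank ℝ (Eu n) = Module.finrank ℝ (Fin n → ℝ) := by simp
  refine ⟨(LinearEquiv.ofInjectiveOfFinrankEq A0 hinj hfr).toContinuousLinearEquiv, fun x i => ?_⟩
  rfl

lemma supp_hp [NeZero n] (hb : ∀ i, b i = (v i : Eu n)) {a : Fin n → ℝ} (ha : ∀ i, 0 < a i)
    (w : Sph n) : supp (hp b a) w = hp b a w := by
  refine le_antisymm (supp_le (continuous_hp b a) (hp_pos b ha) w) ?_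
  obtain ⟨A, hA⟩ := exists_AA hb
  let y : Fin n → ℝ := fun i => if 0 ≤ b.repr (w : Eu n) i then a i else - a i
  have hy : ∀ i, inner ℝ (A.symm y) (v i : Eu n) = y i := fun i => by
    rw [← hA, ContinuousLinearEquiv.apply_symm_apply]
  have hmem : A.symm y ∈ wulff (hp b a) := by
    rw [wulff_hp hb a]
    intro i
    rw [hy i]
    show |if 0 ≤ b.repr (w : Eu n) i then a i else - a i| ≤ a i
    split_ifs
    · rw [abs_of_pos (ha i)]
    · rw [abs_neg, abs_of_pos (ha i)]
  refine le_trans (le_of_eq ?_) (inner_le_supp (continuous_hp b a) (hp_pos b ha) w hmem)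
  conv_rhs => rw [repr_sum hb (w : Eu n)]
  rw [inner_sum]
  unfold hp
  refine Finset.sum_congr rfl fun i _ => ?_
  rw [inner_smul_right, hy]
  show _ = _ * (if 0 ≤ b.repr (w : Eu n) i then a i else - a i)
  split_ifs with h
  · rw [abs_of_nonneg h, mul_comm]
  · push Not at h
    rw [abs_of_neg h]
    ring

/-- the total mass as a function of the logarithms of the widths -/
noncomputable def Ih (q : ℝ) (b : Module.Basis (Fin n) ℝ (Eu n)) (x : Fin n → ℝ) : ℝ :=
  II q (hp b fun i => Real.exp (x i))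

lemma Ih_pos [NeZero n] (q : ℝ) (b : Module.Basis (Fin n) ℝ (Eu n)) (x : Fin n → ℝ) :
    0 < Ih q b x :=
  II_pos (continuous_hp b _) (hp_pos b fun i => Real.exp_pos _) q

lemma Ih_le [NeZero n] {q : ℝ} (hq : 0 < q) (b : Module.Basis (Fin n) ℝ (Eu n))
    {x y : Fin n → ℝ} {s : ℝ} (h : ∀ i, x i ≤ y i + s) :
    Ih q b x ≤ Real.exp (q * s) * Ih q b y := by
  have hcx := continuous_hp b fun i => Real.exp (x i)
  have hcy := continuous_hp b fun i => Real.exp (y i)
  have h0x := hp_pos b (a := fun i => Real.exp (x i)) fun _ => Real.exp_pos _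
  have h0y := hp_pos b (a := fun i => Real.exp (y i)) fun i => Real.exp_pos _
  have hle : ∀ w, hp b (fun i => Real.exp (x i)) w ≤ Real.exp s * hp b (fun i => Real.exp (y i)) w := by
    intro w
    have := hp_mono b (a := fun i => Real.exp (x i)) (a' := fun i => Real.exp s * Real.exp (y i))
      (fun i => by
        rw [← Real.exp_add]
        exact Real.exp_le_exp.2 (by linarith [h i])) w
    rwa [hp_smul] at this
  unfold Ih II
  rw [← integral_const_mul]
  refine integral_mono (integrable_radpow hcx h0x q) ((integrable_radpow hcy h0y q).const_mul _)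
    fun u => ?_
  have h1 := gN_le_mul hcx h0x hcy h0y (Real.exp_pos s) hle (u : Eu n)
  have hgx := gN_pos hcx h0x (sph_ne_zero u)
  have hgy := gN_pos hcy h0y (sph_ne_zero u)
  have h2 : (gN (hp b fun i => Real.exp (x i)) (u : Eu n))⁻¹ ≤
      Real.exp s * (gN (hp b fun i => Real.exp (y i)) (u : Eu n))⁻¹ := by
    rw [inv_le_comm₀ hgx (by positivity), mul_inv, inv_inv, ← div_eq_inv_mul,
      div_le_iff₀ (Real.exp_pos s), mul_comm]
    exact h1
  calc (gN (hp b fun i => Real.exp (x i)) (u : Eu n))⁻¹ ^ q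
      ≤ (Real.exp s * (gN (hp b fun i => Real.exp (y i)) (u : Eu n))⁻¹) ^ q :=
        Real.rpow_le_rpow (inv_pos.2 hgx).le h2 hq.le
    _ = Real.exp (q * s) * (gN (hp b fun i => Real.exp (y i)) (u : Eu n))⁻¹ ^ q := by
        rw [Real.mul_rpow (Real.exp_pos s).le (inv_pos.2 hgy).le, ← Real.exp_mul, mul_comm s q]

lemma Ih_shift [NeZero n] {q : ℝ} (hq : 0 < q) (b : Module.Basis (Fin n) ℝ (Eu n))
    (x : Fin n → ℝ) (s : ℝ) : Ih q b (fun i => x i + s) = Real.exp (q * s) * Ih q b x := by
  apply le_antisymm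
  · exact Ih_le hq b fun _ => le_rfl
  · have h := Ih_le hq b (x := x) (y := fun i => x i + s) (s := -s) fun i => by linarith
    calc Real.exp (q * s) * Ih q b x ≤
        Real.exp (q * s) * (Real.exp (q * -s) * Ih q b fun i => x i + s) :=
          mul_le_mul_of_nonneg_left h (Real.exp_pos _).le
      _ = Ih q b fun i => x i + s := by
          rw [← mul_assoc, ← Real.exp_add, mul_neg, add_neg_cancel, Real.exp_zero, one_mul]

lemma exists_low_Ih [NeZero n] {q : ℝ} (hq : (n : ℝ) < q) (hb : ∀ i, b i = (v i : Eu n)) :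
    ∃ c : ℝ, 0 < c ∧ ∀ x : Fin n → ℝ, (∀ i, x i ≤ 0) → (∃ i, x i = 0) →
      c * Real.exp (∑ i, x i) ≤ Ih q b x := by
  obtain ⟨A, hA⟩ := exists_AA hb
  have hn' : (0:ℝ) < n := by exact_mod_cast NeZero.pos n
  have hq0 : 0 < q := hn'.trans hq
  have hp0 : 0 < q - n := by linarith
  -- transport of volume
  have hH : (Measure.map A (volume : Measure (Eu n))).IsAddHaarMeasure :=
    A.isAddHaarMeasure_map volume
  obtain ⟨κ, hκ0, hκt, hκ⟩ : ∃ κ : ENNReal, κ ≠ 0 ∧ κ ≠ ⊤ ∧
      Measure.map A (volume : Measure (Eu n)) = κ • (volume : Measure (Fin n → ℝ)) := by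
    refine ⟨_, ?_, ?_, Measure.isAddLeftInvariant_eq_smul
      (Measure.map A (volume : Measure (Eu n))) (volume : Measure (Fin n → ℝ))⟩
    · simpa using (Measure.addHaarScalarFactor_pos_of_isAddHaarMeasure
        (Measure.map A (volume : Measure (Eu n))) (volume : Measure (Fin n → ℝ))).ne'
    · exact ENNReal.coe_ne_top
  have hκr : 0 < κ.toReal := ENNReal.toReal_pos hκ0 hκt
  refine ⟨q * ((1/2) ^ (q - n) * (κ.toReal * (1/2) ^ n)), by positivity, fun x hx hx0 => ?_⟩
  set a : Fin n → ℝ := fun i => Real.exp (x i) with ha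
  have ha0 : ∀ i, 0 < a i := fun i => Real.exp_pos _
  have hc := continuous_hp b a
  have h0 := hp_pos b ha0
  have hIh : Ih q b x = q * DD (q - n) (wulff (hp b a)) := II_eq hq hc h0
  rw [hIh, mul_assoc]
  refine mul_le_mul_of_nonneg_left ?_ hq0.le
  -- the small box
  let S : Set (Eu n) := A ⁻¹' (Icc (fun i => a i / 2) a)
  have hSm : MeasurableSet S := A.continuous.measurable measurableSet_Icc
  have hSvol : volume.real S = κ.toReal * ((1/2) ^ n * Real.exp (∑ i, x i)) := by
    have h1 : volume S = κ * volume (Icc (fun i => a i / 2) a) := by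
      have := congrArg (fun m : Measure (Fin n → ℝ) => m (Icc (fun i => a i / 2) a)) hκ
      simp only [Measure.smul_apply, smul_eq_mul] at this
      rw [← this, Measure.map_apply A.continuous.measurable measurableSet_Icc]
    unfold Measure.real
    rw [h1, ENNReal.toReal_mul, Real.volume_Icc_pi, ENNReal.toReal_prod]
    congr 1
    have h2 : ((1:ℝ)/2) ^ n = ∏ _i : Fin n, (1:ℝ)/2 := by
      rw [Finset.prod_const, Finset.card_univ, Fintype.card_fin]
    rw [Real.exp_sum, h2, ← Finset.prod_mul_distrib]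
    refine Finset.prod_congr rfl fun i _ => ?_
    rw [ENNReal.toReal_ofReal (by linarith [ha0 i])]
    show Real.exp (x i) - Real.exp (x i) / 2 = _
    ring
  have hSsub : S ⊆ wulff (hp b a) := by
    intro y hy
    rw [wulff_hp hb a]
    intro i
    rw [← hA]
    have h1 : a i / 2 ≤ A y i := hy.1 i
    have h2 : A y i ≤ a i := hy.2 i
    rw [abs_of_nonneg (by linarith [ha0 i])]
    exact h2
  have hlow : ∀ y ∈ S, ((1:ℝ)/2) ^ (q - n) ≤ ‖y‖ ^ (q - n) := by
    intro y hy
    obtain ⟨i, hi⟩ := hx0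
    have h1 : a i / 2 ≤ A y i := hy.1 i
    have h2 : a i = 1 := by
      show Real.exp (x i) = 1
      rw [hi, Real.exp_zero]
    rw [h2, hA] at h1
    exact Real.rpow_le_rpow (by norm_num)
      (h1.trans ((le_abs_self _).trans (abs_inner_le y (v i)))) hp0.le
  have hWc : IsCompact (wulff (hp b a)) := isCompact_wulff hc h0
  have hint : IntegrableOn (fun y : Eu n => ‖y‖ ^ (q - n)) (wulff (hp b a)) :=
    (continuous_norm_rpow hp0.le).continuousOn.integrableOn_compact hWc
  have hSfin : volume S ≠ ⊤ := ne_top_of_le_ne_top hWc.measure_ne_top (measure_mono hSsub)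
  calc (1 / 2) ^ (q - n) * (κ.toReal * (1 / 2) ^ n) * Real.exp (∑ i, x i)
      = (1 / 2) ^ (q - n) * volume.real S := by rw [hSvol]; ring
    _ = ∫ _ in S, ((1:ℝ)/2) ^ (q - n) := by
        rw [setIntegral_const, smul_eq_mul, mul_comm]
    _ ≤ ∫ y in S, ‖y‖ ^ (q - n) :=
        setIntegral_mono_on (integrableOn_const hSfin) (hint.mono_set hSsub) hSm hlow
    _ ≤ DD (q - n) (wulff (hp b a)) :=
        setIntegral_mono_set hint (Eventually.of_forall fun y => Real.rpow_nonneg (norm_nonneg y) _)
          (LE.le.eventuallyLE hSsub)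

/-- minimiser of `log I(x) - q Σ r_i x_i` -/
lemma exists_min [NeZero n] {q : ℝ} (hq : (n : ℝ) < q) (hb : ∀ i, b i = (v i : Eu n))
    {r : Fin n → ℝ} (hr : ∀ i, 1 / q < r i) (hr1 : ∑ i, r i = 1) :
    ∃ x : Fin n → ℝ, ∀ y : Fin n → ℝ,
      Real.log (Ih q b x) - q * ∑ i, r i * x i ≤ Real.log (Ih q b y) - q * ∑ i, r i * y i := by
  have hn' : (0:ℝ) < n := by exact_mod_cast NeZero.pos n
  have hq0 : 0 < q := hn'.trans hq
  obtain ⟨P, hP⟩ : ∃ P : (Fin n → ℝ) → ℝ, P = fun x =>
    Real.log (Ih q b x) - q * ∑ i, r i * x i := ⟨_, rfl⟩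
  have hPx : ∀ x, P x = Real.log (Ih q b x) - q * ∑ i, r i * x i := fun x => by rw [hP]
  suffices h : ∃ x, ∀ y, P x ≤ P y by
    obtain ⟨x, hx⟩ := h
    exact ⟨x, fun y => by rw [← hPx, ← hPx]; exact hx y⟩
  -- shift invariance
  have hshift : ∀ (x : Fin n → ℝ) (s : ℝ), P (fun i => x i + s) = P x := by
    intro x s
    rw [hPx, hPx, Ih_shift hq0, Real.log_mul (Real.exp_pos _).ne' (Ih_pos q b x).ne', Real.log_exp]
    have : ∑ i, r i * (x i + s) = ∑ i, r i * x i + s := by
      simp only [mul_add, Finset.sum_add_distrib, ← Finset.sum_mul, hr1, one_mul]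
    rw [this]
    ring
  -- continuity
  have hcont : Continuous P := by
    rw [hP]
    refine Continuous.sub ?_ ?_
    · have hL : LipschitzWith (Real.toNNReal q) fun x => Real.log (Ih q b x) := by
        refine LipschitzWith.of_le_add_mul _ fun x y => ?_
        have h1 : Ih q b x ≤ Real.exp (q * dist x y) * Ih q b y := by
          refine Ih_le hq0 b fun i => ?_
          have h2 : |x i - y i| ≤ dist x y := dist_le_pi_dist x y i
          linarith [le_abs_self (x i - y i)]
        have h2 := Real.log_le_log (Ih_pos q b x) h1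
        rw [Real.log_mul (Real.exp_pos _).ne' (Ih_pos q b y).ne', Real.log_exp] at h2
        rw [Real.coe_toNNReal q hq0.le]
        linarith
      exact hL.continuous
    · exact continuous_const.mul (continuous_finsetSum _ fun i _ =>
        continuous_const.mul (continuous_apply i))
  -- lower bound
  obtain ⟨c, hc0, hc⟩ := exists_low_Ih hq hb
  have hne : Nonempty (Fin n) := ⟨⟨0, NeZero.pos n⟩⟩
  obtain ⟨i₀, -, hi₀⟩ := Finset.exists_min_image Finset.univ r Finset.univ_nonempty
  set δ : ℝ := q * r i₀ - 1 with hδ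
  have hδ0 : 0 < δ := by
    have h1 := hr i₀
    rw [div_lt_iff₀ hq0] at h1
    rw [hδ]
    linarith
  have hδi : ∀ i, δ ≤ q * r i - 1 := fun i => by
    have h1 := mul_le_mul_of_nonneg_left (hi₀ i (Finset.mem_univ i)) hq0.le
    rw [hδ]
    linarith
  have hlow : ∀ x : Fin n → ℝ, (∀ i, x i ≤ 0) → (∃ i, x i = 0) → ∀ j,
      Real.log c + δ * (- x j) ≤ P x := by
    intro x hx hx0 j
    have h1 := Real.log_le_log (mul_pos hc0 (Real.exp_pos _)) (hc x hx hx0)
    rw [Real.log_mul hc0.ne' (Real.exp_pos _).ne', Real.log_exp] at h1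
    rw [hPx]
    have h2 : ∑ i, δ * (- x i) ≤ ∑ i, x i - q * ∑ i, r i * x i := by
      rw [Finset.mul_sum, ← Finset.sum_sub_distrib]
      refine Finset.sum_le_sum fun i _ => ?_
      have h3 := mul_le_mul_of_nonneg_right (hδi i) (neg_nonneg.2 (hx i))
      linarith
    have h4 : δ * (- x j) ≤ ∑ i, δ * (- x i) :=
      Finset.single_le_sum (f := fun i => δ * (- x i))
        (fun i _ => mul_nonneg hδ0.le (neg_nonneg.2 (hx i))) (Finset.mem_univ j)
    linarith
  -- compact set
  set R : ℝ := |P 0 - Real.log c| / δ with hR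
  have hR0 : 0 ≤ R := by positivity
  have hRδ : P 0 ≤ Real.log c + δ * R := by
    rw [hR, mul_div_cancel₀ _ hδ0.ne']
    linarith [le_abs_self (P 0 - Real.log c)]
  have hScl : IsClosed {x : Fin n → ℝ | ∏ i, x i = 0} :=
    isClosed_eq (continuous_finsetProd _ fun i _ => continuous_apply i) continuous_const
  have hScpt : IsCompact (Icc (fun _ : Fin n => -R) 0 ∩ {x : Fin n → ℝ | ∏ i, x i = 0}) :=
    isCompact_Icc.inter_right hScl
  have h0mem : (0 : Fin n → ℝ) ∈ Icc (fun _ : Fin n => -R) 0 ∩ {x : Fin n → ℝ | ∏ i, x i = 0} := by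
    refine ⟨⟨fun i => ?_, le_rfl⟩, ?_⟩
    · show -R ≤ 0
      linarith
    · show ∏ i : Fin n, (0 : Fin n → ℝ) i = 0
      exact Finset.prod_eq_zero (Finset.mem_univ i₀) rfl
  obtain ⟨x, hxS, hx⟩ := hScpt.exists_isMinOn ⟨0, h0mem⟩ hcont.continuousOn
  refine ⟨x, fun y => ?_⟩
  obtain ⟨j, -, hj⟩ := Finset.exists_max_image Finset.univ y Finset.univ_nonempty
  have hy : P (fun i => y i + -y j) = P y := hshift y (-y j)
  rw [← hy]
  have hy0 : ∀ i, y i + -y j ≤ 0 := fun i => by linarith [hj i (Finset.mem_univ i)]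
  by_cases hall : ∀ i, -R ≤ y i + -y j
  · refine hx ⟨⟨hall, hy0⟩, ?_⟩
    exact Finset.prod_eq_zero (Finset.mem_univ j) (by ring)
  · push Not at hall
    obtain ⟨k, hk⟩ := hall
    have h1 := hlow (fun i => y i + -y j) hy0 ⟨j, by ring⟩ k
    have h2 : P x ≤ P 0 := hx h0mem
    have h3 : δ * R ≤ δ * (-(y k + -y j)) := mul_le_mul_of_nonneg_left (by linarith) hδ0.le
    linarith

lemma hp_neg_v (hb : ∀ i, b i = (v i : Eu n)) (a : Fin n → ℝ) (i : Fin n) :
    hp b a (-v i) = a i := by rw [hp_even, hp_v hb]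

/-- almost every boundary point has its normal among the given ones -/
lemma normals_hp [NeZero n] (hb : ∀ i, b i = (v i : Eu n)) {a : Fin n → ℝ} (ha : ∀ i, 0 < a i) :
    ∀ᵐ u ∂(sg n), ∃ j, nu (hp b a) u = v j ∨ nu (hp b a) u = -v j := by
  have hc := continuous_hp b a
  have h0 := hp_pos b ha
  have hne : Nonempty (Fin n) := ⟨⟨0, NeZero.pos n⟩⟩
  filter_upwards [ae_diff hc h0] with u hd
  obtain ⟨w, hw⟩ := exists_gN hc h0 (u : Eu n)
  obtain ⟨j, -, hj⟩ := Finset.exists_max_image Finset.univ
    (fun j => |inner ℝ (u : Eu n) (v j : Eu n)| / a j) Finset.univ_nonempty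
  have h1 : gN (hp b a) (u : Eu n) ≤ |inner ℝ (u : Eu n) (v j : Eu n)| / a j := by
    rw [hw, div_le_iff₀ (h0 w)]
    conv_lhs => rw [repr_sum hb (w : Eu n)]
    rw [inner_sum]
    unfold hp
    rw [Finset.mul_sum]
    refine Finset.sum_le_sum fun i _ => ?_
    rw [inner_smul_right]
    have h2 := hj i (Finset.mem_univ i)
    rw [div_le_iff₀ (ha i)] at h2
    calc b.repr (w : Eu n) i * inner ℝ (u : Eu n) (v i : Eu n)
        ≤ |b.repr (w : Eu n) i * inner ℝ (u : Eu n) (v i : Eu n)| := le_abs_self _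
      _ = |inner ℝ (u : Eu n) (v i : Eu n)| * |b.repr (w : Eu n) i| := by rw [abs_mul, mul_comm]
      _ ≤ (|inner ℝ (u : Eu n) (v j : Eu n)| / a j * a i) * |b.repr (w : Eu n) i| :=
          mul_le_mul_of_nonneg_right h2 (abs_nonneg _)
      _ = _ := by ring
  refine ⟨j, ?_⟩
  rcases le_total 0 (inner ℝ (u : Eu n) (v j : Eu n)) with hs | hs
  · left
    refine nu_eq hc h0 hd (le_antisymm (le_gN hc h0 _ _) ?_)
    rw [hp_v hb]
    rwa [abs_of_nonneg hs] at h1
  · right
    refine nu_eq hc h0 hd (le_antisymm (le_gN hc h0 _ _) ?_)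
    rw [hp_neg_v hb]
    have h3 : ((-v j : Sph n) : Eu n) = -(v j : Eu n) := rfl
    rw [h3, inner_neg_right]
    rwa [abs_of_nonpos hs] at h1

lemma measurableSet_pair (w : Sph n) : MeasurableSet ({w, -w} : Set (Sph n)) :=
  (Set.toFinite _).measurableSet

/-- the first order condition at a minimiser -/
lemma first_order [NeZero n] {q : ℝ} (hq : 0 < q) (hb : ∀ i, b i = (v i : Eu n))
    {r x : Fin n → ℝ} (hx : ∀ y : Fin n → ℝ,
      Real.log (Ih q b x) - q * ∑ i, r i * x i ≤ Real.log (Ih q b y) - q * ∑ i, r i * y i)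
    (i : Fin n) : (MM q (hp b fun j => Real.exp (x j))).real {v i, -v i} = r i * Ih q b x := by
  classical
  set h := hp b fun j => Real.exp (x j) with hh
  have hc : Continuous h := continuous_hp b _
  have h0 : ∀ w, 0 < h w := hp_pos b fun j => Real.exp_pos _
  set T : Set (Sph n) := nu h ⁻¹' {v i, -v i} with hT
  have hTm : MeasurableSet T := measurable_nu h (measurableSet_pair (v i))
  set Rr : Sph n → ℝ := fun u => (gN h (u : Eu n))⁻¹ ^ q with hRr
  have hRi : Integrable Rr (sg n) := integrable_radpow hc h0 q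
  have hR0 : ∀ u, 0 < Rr u := fun u =>
    Real.rpow_pos_of_pos (inv_pos.2 (gN_pos hc h0 (sph_ne_zero u))) q
  set m : ℝ := ∫ u in T, Rr u ∂(sg n) with hm
  set m' : ℝ := ∫ u in Tᶜ, Rr u ∂(sg n) with hm'
  have hsum : m + m' = Ih q b x := integral_add_compl hTm hRi
  have hm0 : 0 ≤ m := setIntegral_nonneg hTm fun u _ => (hR0 u).le
  have hMM : (MM q h).real {v i, -v i} = m := by
    unfold Measure.real
    rw [MM_apply q h (measurableSet_pair (v i)), hm,
      integral_eq_lintegral_of_nonneg_ae (Eventually.of_forall fun u => (hR0 u).le)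
        hRi.aestronglyMeasurable.restrict]
  rw [hMM]
  have hMpos := Ih_pos q b x
  -- upper bound along the variation
  have hup : ∀ t : ℝ, Ih q b (Function.update x i (x i + t)) ≤ Real.exp (q * t) * m + m' := by
    intro t
    set h' := hp b fun j => Real.exp (Function.update x i (x i + t) j) with hh'
    have hc' : Continuous h' := continuous_hp b _
    have h0' : ∀ w, 0 < h' w := hp_pos b fun j => Real.exp_pos _
    have hle : ∀ᵐ u : Sph n ∂(sg n), (gN h' (u : Eu n))⁻¹ ^ q ≤
        T.indicator (fun u => Real.exp (q * t) * Rr u) u + Tᶜ.indicator Rr u := by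
      filter_upwards [ae_diff hc h0, normals_hp hb (a := fun j => Real.exp (x j))
        fun j => Real.exp_pos _] with u hd hj
      have hg := gN_pos hc h0 (sph_ne_zero u)
      have hg' := gN_pos hc' h0' (sph_ne_zero u)
      have hmx : inner ℝ (u : Eu n) (nu h u : Eu n) / h (nu h u) = gN h (u : Eu n) :=
        isMx_nu hc h0 hd
      have hle' := le_gN hc' h0' (u : Eu n) (nu h u)
      by_cases huT : u ∈ T
      · rw [indicator_of_mem huT, indicator_of_notMem
          (show u ∉ Tᶜ from fun hcon => hcon huT), add_zero]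
        have hh1 : h' (nu h u) = Real.exp t * h (nu h u) := by
          have h2 : nu h u = v i ∨ nu h u = -v i := huT
          rcases h2 with h2 | h2
          · rw [h2, hh', hh, hp_v hb, hp_v hb, Function.update_self, ← Real.exp_add, add_comm]
          · rw [h2, hh', hh, hp_neg_v hb, hp_neg_v hb, Function.update_self, ← Real.exp_add,
              add_comm]
        rw [hh1, mul_comm, ← div_div, hmx, div_le_iff₀ (Real.exp_pos t)] at hle'
        have h3 : (gN h' (u : Eu n))⁻¹ ≤ Real.exp t * (gN h (u : Eu n))⁻¹ := by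
          rw [inv_le_comm₀ hg' (by positivity), mul_inv, inv_inv, ← div_eq_inv_mul,
            div_le_iff₀ (Real.exp_pos t)]
          exact hle'
        calc (gN h' (u : Eu n))⁻¹ ^ q ≤ (Real.exp t * (gN h (u : Eu n))⁻¹) ^ q :=
              Real.rpow_le_rpow (inv_pos.2 hg').le h3 hq.le
          _ = Real.exp (q * t) * Rr u := by
              rw [Real.mul_rpow (Real.exp_pos t).le (inv_pos.2 hg).le, ← Real.exp_mul,
                mul_comm t q]
      · rw [indicator_of_notMem huT, indicator_of_mem (show u ∈ Tᶜ from huT), zero_add]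
        have hh1 : h' (nu h u) = h (nu h u) := by
          obtain ⟨j, hj⟩ := hj
          have hji : j ≠ i := by
            rintro rfl
            exact huT hj
          rcases hj with h2 | h2
          · rw [← hh] at h2
            rw [h2, hh', hh, hp_v hb, hp_v hb, Function.update_of_ne hji]
          · rw [← hh] at h2
            rw [h2, hh', hh, hp_neg_v hb, hp_neg_v hb, Function.update_of_ne hji]
        rw [hh1, hmx] at hle'
        exact Real.rpow_le_rpow (inv_pos.2 hg').le (inv_anti₀ hg hle') hq.le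
    have hi1 : Integrable (T.indicator fun u => Real.exp (q * t) * Rr u) (sg n) :=
      (hRi.const_mul _).indicator hTm
    have hi2 : Integrable (Tᶜ.indicator Rr) (sg n) := hRi.indicator hTm.compl
    calc Ih q b (Function.update x i (x i + t))
        ≤ ∫ u, (T.indicator (fun u => Real.exp (q * t) * Rr u) u + Tᶜ.indicator Rr u) ∂(sg n) :=
          integral_mono_ae (integrable_radpow hc' h0' q) (hi1.add hi2) hle
      _ = Real.exp (q * t) * m + m' := by
          rw [integral_add hi1 hi2, integral_indicator hTm, integral_indicator hTm.compl,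
            integral_const_mul]
  -- differentiate
  have hpos : ∀ t : ℝ, 0 < Real.exp (q * t) * m + m' := fun t =>
    (Ih_pos q b _).trans_le (hup t)
  have hmin : ∀ t : ℝ, Real.log (Real.exp (q * 0) * m + m') - q * r i * 0 ≤
      Real.log (Real.exp (q * t) * m + m') - q * r i * t := by
    intro t
    have h1 := hx (Function.update x i (x i + t))
    have h2 : ∑ j, r j * Function.update x i (x i + t) j = ∑ j, r j * x j + r i * t := by
      have h3 : ∀ j, r j * Function.update x i (x i + t) j =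
          r j * x j + if j = i then r i * t else 0 := by
        intro j
        by_cases hj : j = i
        · subst hj
          rw [Function.update_self, if_pos rfl]
          ring
        · rw [Function.update_of_ne hj, if_neg hj, add_zero]
      rw [Finset.sum_congr rfl fun j _ => h3 j, Finset.sum_add_distrib, Finset.sum_ite_eq',
        if_pos (Finset.mem_univ i)]
    rw [h2] at h1
    have h4 := Real.log_le_log (Ih_pos q b _) (hup t)
    rw [mul_zero, Real.exp_zero, one_mul, mul_zero, sub_zero, hsum]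
    linarith
  have hder : HasDerivAt (fun t : ℝ => Real.log (Real.exp (q * t) * m + m') - q * r i * t)
      ((Real.exp (q * 0) * q * m) / (Real.exp (q * 0) * m + m') - q * r i) 0 := by
    have e1 : HasDerivAt (fun t : ℝ => q * t) q 0 := by
      simpa using (hasDerivAt_id (0:ℝ)).const_mul q
    have e2 : HasDerivAt (fun t : ℝ => Real.exp (q * t) * m + m') (Real.exp (q * 0) * q * m) 0 :=
      (e1.exp.mul_const m).add_const m'
    have e3 := e2.log (hpos 0).ne'
    have e4 : HasDerivAt (fun t : ℝ => q * r i * t) (q * r i) 0 := by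
      simpa using (hasDerivAt_id (0:ℝ)).const_mul (q * r i)
    exact e3.sub e4
  have hz := IsLocalMin.hasDerivAt_eq_zero (Eventually.of_forall hmin) hder
  rw [mul_zero, Real.exp_zero, one_mul, one_mul, hsum, sub_eq_zero, div_eq_iff hMpos.ne'] at hz
  have h5 : q * m = q * (r i * Ih q b x) := by linarith
  exact mul_left_cancel₀ hq.ne' h5


lemma even_pair {ν : Measure (Sph n)} (hν : ∀ ω, MeasurableSet ω → ν {w | -w ∈ ω} = ν ω)
    (w : Sph n) : ν {w} = ν {w, -w} / 2 ∧ ν {-w} = ν {w, -w} / 2 := by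
  have hne : w ≠ -w := by
    intro h
    have h1 : (w : Eu n) = -(w : Eu n) := congrArg Subtype.val h
    have h2 : (2:ℝ) • (w : Eu n) = 0 := by
      rw [two_smul]
      nth_rewrite 1 [h1]
      exact neg_add_cancel _
    exact sph_ne_zero w ((smul_eq_zero.1 h2).resolve_left two_ne_zero)
  have h1 : ν {-w} = ν {w} := by
    have := hν {w} (measurableSet_singleton w)
    rw [← this]
    congr 1
    ext z
    simp only [mem_singleton_iff, mem_ofPred_eq]
    exact neg_eq_iff_eq_neg.symm
  have h2 : ν {w, -w} = ν {w} + ν {-w} := by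
    rw [insert_eq]
    exact measure_union (by simpa using hne) (measurableSet_singleton _)
  have h3 : ν {w} = ν {w, -w} / 2 := by
    rw [h2, h1, ← two_mul, mul_comm, ENNReal.mul_div_cancel_right two_ne_zero ENNReal.ofNat_ne_top]
  exact ⟨h3, h1.trans h3⟩



open Classical in
/-- an even measure concentrated on the pairs `±v i` is determined by the masses of the pairs -/
lemma even_atoms {ν : Measure (Sph n)} (hν : ∀ ω, MeasurableSet ω → ν {w | -w ∈ ω} = ν ω)
    (hb : ∀ i, b i = (v i : Eu n)) (hc : ν {w | ∀ i, w ≠ v i ∧ w ≠ -v i} = 0)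
    (ω : Set (Sph n)) (hω : MeasurableSet ω) :
    ν ω = ∑ i, ν {v i, -v i} * (((if v i ∈ ω then 1 else 0) + (if -v i ∈ ω then 1 else 0)) / 2) := by
  have hdis : Pairwise (Function.onFun Disjoint fun i => ω ∩ {v i, -v i}) := by
    intro i j hij
    rw [Function.onFun, Set.disjoint_left]
    rintro w ⟨-, hw⟩ ⟨-, hw'⟩
    have hlin := b.linearIndependent
    have hne : (v i : Eu n) ≠ v j ∧ (v i : Eu n) ≠ -(v j : Eu n) := by
      rw [← hb i, ← hb j]
      constructor
      · exact fun h => hij (b.injective h)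
      · intro h
        have h1 := congrArg (fun z => b.repr z i) h
        simp only [map_neg, Module.Basis.repr_self, Finsupp.neg_apply, Finsupp.single_eq_same] at h1
        rw [Finsupp.single_eq_of_ne hij] at h1
        norm_num at h1
    rcases hw with hw | hw <;> rcases hw' with hw' | hw'
    · exact hne.1 (by rw [← hw, ← hw'])
    · exact hne.2 (by rw [← hw, hw']; rfl)
    · have h1 : -v i = v j := by rw [← hw, ← hw']
      have h2 : v i = -v j := by rw [← h1, neg_neg]
      exact hne.2 (by rw [h2]; rfl)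
    · have h1 : -v i = -v j := by rw [← hw]; exact hw'
      have h2 : v i = v j := neg_injective h1
      exact hne.1 (by rw [h2])
  have h1 : ν ω = ν (⋃ i, ω ∩ {v i, -v i}) := by
    apply le_antisymm
    · have hsub : ω ⊆ (⋃ i, ω ∩ {v i, -v i}) ∪ {w | ∀ i, w ≠ v i ∧ w ≠ -v i} := by
        intro w hw
        by_cases hcase : ∃ i, w = v i ∨ w = -v i
        · obtain ⟨i, hi⟩ := hcase
          exact Or.inl (mem_iUnion.2 ⟨i, hw, hi⟩)
        · right
          intro i
          constructor
          · exact fun h => hcase ⟨i, Or.inl h⟩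
          · exact fun h => hcase ⟨i, Or.inr h⟩
      calc ν ω ≤ ν ((⋃ i, ω ∩ {v i, -v i}) ∪ {w | ∀ i, w ≠ v i ∧ w ≠ -v i}) := measure_mono hsub
        _ ≤ ν (⋃ i, ω ∩ {v i, -v i}) + ν {w | ∀ i, w ≠ v i ∧ w ≠ -v i} := measure_union_le _ _
        _ = ν (⋃ i, ω ∩ {v i, -v i}) := by rw [hc, add_zero]
    · exact measure_mono (iUnion_subset fun i => inter_subset_left)
  rw [h1, measure_iUnion hdis fun i => hω.inter (measurableSet_pair _), tsum_fintype]
  refine Finset.sum_congr rfl fun i _ => ?_
  obtain ⟨e1, e2⟩ := even_pair hν (v i)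
  have e3 : ω ∩ {v i, -v i} = (if v i ∈ ω then {v i} else ∅) ∪ (if -v i ∈ ω then {-v i} else ∅) := by
    ext w
    by_cases hA : v i ∈ ω <;> by_cases hB : -v i ∈ ω
    · rw [if_pos hA, if_pos hB]
      simp only [mem_inter_iff, mem_insert_iff, mem_singleton_iff, mem_union]
      constructor
      · exact fun h => h.2
      · rintro (rfl | rfl)
        · exact ⟨hA, Or.inl rfl⟩
        · exact ⟨hB, Or.inr rfl⟩
    · rw [if_pos hA, if_neg hB]
      simp only [mem_inter_iff, mem_insert_iff, mem_singleton_iff, union_empty]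
      constructor
      · rintro ⟨h, rfl | rfl⟩
        · rfl
        · exact absurd h hB
      · rintro rfl
        exact ⟨hA, Or.inl rfl⟩
    · rw [if_neg hA, if_pos hB]
      simp only [mem_inter_iff, mem_insert_iff, mem_singleton_iff, empty_union]
      constructor
      · rintro ⟨h, rfl | rfl⟩
        · exact absurd h hA
        · rfl
      · rintro rfl
        exact ⟨hB, Or.inr rfl⟩
    · rw [if_neg hA, if_neg hB]
      simp only [mem_inter_iff, mem_insert_iff, mem_singleton_iff, union_empty, mem_empty_iff_false,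
        iff_false]
      rintro ⟨h, rfl | rfl⟩
      · exact hA h
      · exact hB h
  have hne : v i ≠ -v i := by
    intro h
    have h1 : (v i : Eu n) = -(v i : Eu n) := congrArg Subtype.val h
    have h2 : (2:ℝ) • (v i : Eu n) = 0 := by
      rw [two_smul]
      nth_rewrite 1 [h1]
      exact neg_add_cancel _
    exact sph_ne_zero (v i) ((smul_eq_zero.1 h2).resolve_left two_ne_zero)
  rw [e3]
  by_cases hA : v i ∈ ω <;> by_cases hB : -v i ∈ ω
  · rw [if_pos hA, if_pos hB, if_pos hA, if_pos hB, one_add_one_eq_two,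
      ENNReal.div_self two_ne_zero ENNReal.ofNat_ne_top, mul_one]
    rfl
  · rw [if_pos hA, if_neg hB, if_pos hA, if_neg hB, union_empty, add_zero, e1, mul_one_div]
  · rw [if_neg hA, if_pos hB, if_neg hA, if_pos hB, empty_union, zero_add, e2, mul_one_div]
  · rw [if_neg hA, if_neg hB, if_neg hA, if_neg hB, union_empty, add_zero, ENNReal.zero_div,
      mul_zero, measure_empty]

/-- measures concentrated on `n` independent pairs of atoms: sufficiency -/
theorem atoms_exist [NeZero n] {q : ℝ} (hq : (n : ℝ) < q) (hb : ∀ i, b i = (v i : Eu n))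
    {μ : Measure (Sph n)} [IsFiniteMeasure μ] (hμ0 : μ ≠ 0)
    (hμ : ∀ ω, MeasurableSet ω → μ {w | -w ∈ ω} = μ ω)
    (hc : μ {w | ∀ i, w ≠ v i ∧ w ≠ -v i} = 0)
    (hr : ∀ i, μ.real univ / q < μ.real {v i, -v i}) :
    ∃ K : Set (Eu n), IsSymBody K ∧ ∀ ω, MeasurableSet ω →
        NullMeasurableSet (invGauss K ω) ((volume : Measure (Eu n)).toSphere) ∧
        dualCurv q K ω = μ ω := by
  classical
  have hn : 0 < n := NeZero.pos n
  have hn' : (0:ℝ) < n := by exact_mod_cast hn
  have hq0 : 0 < q := hn'.trans hq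
  have huniv : μ univ ≠ 0 := fun h => hμ0 (Measure.measure_univ_eq_zero.1 h)
  have hm0 : 0 < μ.real univ := ENNReal.toReal_pos huniv (measure_ne_top _ _)
  -- total mass
  have htot : μ.real univ = ∑ i, μ.real {v i, -v i} := by
    have h1 := even_atoms hμ hb hc univ MeasurableSet.univ
    simp only [mem_univ, if_true, one_add_one_eq_two, ENNReal.div_self two_ne_zero
      ENNReal.ofNat_ne_top, mul_one] at h1
    unfold Measure.real
    rw [h1, ENNReal.toReal_sum fun i _ => measure_ne_top _ _]
  obtain ⟨x, hx⟩ := exists_min (r := fun i => μ.real {v i, -v i} / μ.real univ) hq hb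
    (fun i => by
      rw [div_lt_div_iff₀ hq0 hm0, one_mul]
      have := hr i
      rwa [div_lt_iff₀ hq0] at this)
    (by rw [← Finset.sum_div, ← htot, div_self hm0.ne'])
  have hr1 : ∑ i, μ.real {v i, -v i} / μ.real univ = 1 := by
    rw [← Finset.sum_div, ← htot, div_self hm0.ne']
  -- scale
  obtain ⟨s, hs⟩ : ∃ s : ℝ, Real.exp (q * s) * Ih q b x = n * μ.real univ := by
    refine ⟨Real.log (n * μ.real univ / Ih q b x) / q, ?_⟩
    have h1 : 0 < n * μ.real univ / Ih q b x := div_pos (mul_pos hn' hm0) (Ih_pos q b x)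
    rw [mul_div_cancel₀ _ hq0.ne', Real.exp_log h1, div_mul_cancel₀ _ (Ih_pos q b x).ne']
  have hshift : Ih q b (fun i => x i + s) = n * μ.real univ := by rw [Ih_shift hq0, hs]
  have hx' : ∀ y : Fin n → ℝ, Real.log (Ih q b fun i => x i + s) -
      q * ∑ i, μ.real {v i, -v i} / μ.real univ * (x i + s) ≤
      Real.log (Ih q b y) - q * ∑ i, μ.real {v i, -v i} / μ.real univ * y i := by
    intro y
    refine le_trans (le_of_eq ?_) (hx y)
    rw [Ih_shift hq0, Real.log_mul (Real.exp_pos _).ne' (Ih_pos q b x).ne', Real.log_exp]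
    have : ∑ i, μ.real {v i, -v i} / μ.real univ * (x i + s) =
        ∑ i, μ.real {v i, -v i} / μ.real univ * x i + s := by
      simp only [mul_add, Finset.sum_add_distrib, ← Finset.sum_mul, hr1, one_mul]
    rw [this]
    ring
  have hfo := fun i => first_order (x := fun i => x i + s) hq0 hb hx' i
  set a : Fin n → ℝ := fun j => Real.exp (x j + s) with ha
  have hcont := continuous_hp b a
  have hpos := hp_pos b (a := a) fun i => Real.exp_pos _
  have hev := hp_even b a
  have hsupp := supp_hp hb (a := a) fun i => Real.exp_pos _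
  have hfin := isFinite_MM hcont hpos q
  refine ⟨wulff (hp b a), ⟨convex_wulff, isCompact_wulff hcont hpos,
    ⟨0, interior_wulff hcont hpos⟩, fun y hy => neg_mem_wulff hev hy⟩, fun ω hω =>
    ⟨invGauss_null hcont hpos hsupp hω, ?_⟩⟩
  rw [dualCurv_wulff hcont hpos hsupp q hω]
  have hconc : MM q (hp b a) {w | ∀ i, w ≠ v i ∧ w ≠ -v i} = 0 := by
    have hmeas : MeasurableSet {w : Sph n | ∀ i, w ≠ v i ∧ w ≠ -v i} := by
      rw [ofPred_forall]
      refine MeasurableSet.iInter fun i => ?_
      have : {w : Sph n | w ≠ v i ∧ w ≠ -v i} = ({v i, -v i} : Set (Sph n))ᶜ := by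
        ext w
        simp [not_or]
      rw [this]
      exact (measurableSet_pair _).compl
    refine MM_compl_eq_zero hmeas ?_
    filter_upwards [normals_hp hb (a := a) fun i => Real.exp_pos _] with u ⟨j, hj⟩ hcon
    rcases hj with hj | hj
    · exact (hcon j).1 hj
    · exact (hcon j).2 hj
  rw [even_atoms (fun ω hω => MM_even hcont hpos hev hω) hb hconc ω hω, even_atoms hμ hb hc ω hω,
    Finset.mul_sum]
  refine Finset.sum_congr rfl fun i _ => ?_
  rw [← mul_assoc]
  congr 1
  have h1 : (MM q (hp b a)).real {v i, -v i} = n * μ.real {v i, -v i} := by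
    rw [hfo i, hshift]
    field_simp
  have h2 : MM q (hp b a) {v i, -v i} = n * μ {v i, -v i} := by
    rw [← ENNReal.ofReal_toReal (measure_ne_top (MM q (hp b a)) {v i, -v i}),
      ← ENNReal.ofReal_toReal (measure_ne_top μ {v i, -v i}), ← ENNReal.ofReal_natCast,
      ← ENNReal.ofReal_mul hn'.le]
    exact congrArg ENNReal.ofReal h1
  rw [h2, ← mul_assoc, ENNReal.inv_mul_cancel (by exact_mod_cast hn.ne')
    (ENNReal.natCast_ne_top n), one_mul]


end Pool.Agent.Lib.MP_b0d2bf_gt.HP
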