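import Mathlib

set_option autoImplicit false

/-!
The error of the trapezoid rule for the function `|t| ^ p`.
-/

namespace Pool.Agent.Lib.MP_b0d2bf_gt.HP

open MeasureTheory Set

/-- the primitive of `|t| ^ p` -/
noncomputable def prim (p y : ℝ) : ℝ := y * |y| ^ p / (p + 1)

/-- `(v - r)_+ (r - u)_+` -/
noncomputable def ww (r u v : ℝ) : ℝ := max (v - r) 0 * max (r - u) 0

/-- the error of the trapezoid rule for `|t| ^ p` on `[u, v]` -/
noncomputable def TE (p u v : ℝ) : ℝ :=
  (v - u) / 2 * (|u| ^ p + |v| ^ p) - (prim p v - prim p u)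

theorem hasDerivAt_prim {p : ℝ} (hp : 0 < p) (y : ℝ) : HasDerivAt (prim p) (|y| ^ p) y := by
  have hp1 : p + 1 ≠ 0 := by linarith
  rcases lt_trichotomy y 0 with hy | hy | hy
  · have h1 : HasDerivAt (fun t : ℝ => -((-t) ^ (p + 1) / (p + 1)))
        (-((-1) * (p + 1) * (-y) ^ (p + 1 - 1) / (p + 1))) y :=
      (((hasDerivAt_neg y).rpow_const (p := p + 1) (Or.inl (by linarith))).div_const _).neg
    have h2 : -((-1) * (p + 1) * (-y) ^ (p + 1 - 1) / (p + 1)) = |y| ^ p := by
      rw [abs_of_neg hy, add_sub_cancel_right]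
      field_simp
    rw [h2] at h1
    refine h1.congr_of_eventuallyEq ?_
    filter_upwards [Iio_mem_nhds hy] with t ht
    have ht' : t < 0 := ht
    rw [prim, abs_of_neg ht', Real.rpow_add (by linarith), Real.rpow_one]
    ring
  · subst hy
    rw [hasDerivAt_iff_tendsto_slope]
    have h0 : Filter.Tendsto (fun t : ℝ => |t| ^ p / (p + 1)) (nhdsWithin 0 {0}ᶜ)
        (nhds (|(0:ℝ)| ^ p)) := by
      have hc : Continuous (fun t : ℝ => |t| ^ p / (p + 1)) :=
        (continuous_abs.rpow_const (fun _ => Or.inr hp.le)).div_const _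
      have := (hc.tendsto 0).mono_left (nhdsWithin_le_nhds (s := {0}ᶜ))
      simpa [Real.zero_rpow hp.ne'] using this
    refine h0.congr' ?_
    filter_upwards [self_mem_nhdsWithin] with t ht
    have ht' : t ≠ 0 := ht
    rw [slope_def_field, prim, prim]
    field_simp
    simp
  · have h1 : HasDerivAt (fun t : ℝ => (t ^ (p + 1) / (p + 1)))
        ((1 * (p + 1) * (y) ^ (p + 1 - 1) / (p + 1))) y :=
      (((hasDerivAt_id y).rpow_const (p := p + 1) (Or.inl (by simpa using hy.ne'))).div_const _)
    have h2 : (1 * (p + 1) * (y) ^ (p + 1 - 1) / (p + 1)) = |y| ^ p := by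
      rw [abs_of_pos hy, add_sub_cancel_right]
      field_simp
    rw [h2] at h1
    refine h1.congr_of_eventuallyEq ?_
    filter_upwards [Ioi_mem_nhds hy] with t ht
    have ht' : 0 < t := ht
    rw [prim, abs_of_pos ht', Real.rpow_add (by linarith), Real.rpow_one]
    ring

theorem continuous_prim {p : ℝ} (hp : 0 < p) : Continuous (prim p) :=
  continuous_iff_continuousAt.2 fun y => (hasDerivAt_prim hp y).continuousAt

theorem prim_neg (p y : ℝ) : prim p (-y) = -prim p y := by
  rw [prim, prim, abs_neg]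
  ring

theorem zte_continuous_abs_rpow {p : ℝ} (hp : 0 < p) : Continuous (fun t : ℝ => |t| ^ p) :=
  continuous_abs.rpow_const (fun _ => Or.inr hp.le)

theorem prim_sub {p : ℝ} (hp : 0 < p) (u v : ℝ) : prim p v - prim p u = ∫ t in u..v, |t| ^ p := by
  rw [intervalIntegral.integral_eq_sub_of_hasDerivAt (fun y _ => hasDerivAt_prim hp y)
    ((zte_continuous_abs_rpow hp).intervalIntegrable _ _)]

theorem zte_ww_lip {r s u v : ℝ} (huv : u ≤ v) :
    |ww r u v - ww s u v| ≤ 2 * (v - u) * |r - s| := by
  wlog hrs : r ≤ s generalizing r s with H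
  · have := H (le_of_not_ge hrs)
    rwa [abs_sub_comm, abs_sub_comm r s]
  have hd : |r - s| = s - r := by rw [abs_sub_comm, abs_of_nonneg (by linarith)]
  rw [hd, ww, ww, abs_le]
  rcases le_total (v - r) 0 with h1 | h1 <;> rcases le_total (r - u) 0 with h2 | h2 <;>
  rcases le_total (v - s) 0 with h3 | h3 <;> rcases le_total (s - u) 0 with h4 | h4 <;>
  simp only [max_eq_left, max_eq_right, h1, h2, h3, h4, mul_zero, zero_mul] <;>
  constructor <;> nlinarith [mul_nonneg (sub_nonneg.2 huv) (sub_nonneg.2 hrs)]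

/-- the integrand of `TE_formula` is at most `2 p (1 - p) (v - u) r ^ (p - 1)` -/
theorem ww_sub_le {r u v : ℝ} (huv : u ≤ v) :
    |ww 0 u v - (ww r u v + ww (-r) u v) / 2| ≤ 2 * (v - u) * |r| := by
  have h1 := zte_ww_lip (r := 0) (s := r) huv
  have h2 := zte_ww_lip (r := 0) (s := -r) huv
  rw [zero_sub, abs_neg] at h1
  rw [zero_sub, neg_neg] at h2
  rw [abs_le] at *
  constructor <;> linarith [h1.1, h1.2, h2.1, h2.2]

theorem zte_abs_rpow_le {p u v t : ℝ} (hp : 1 ≤ p) (huv : u < v) (hu : u ≤ t) (hv : t ≤ v) :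
    |t| ^ p ≤ ((v - t) * |u| ^ p + (t - u) * |v| ^ p) / (v - u) := by
  have hd : 0 < v - u := by linarith
  have h1 : |t| ≤ ((v - t) / (v - u)) * |u| + ((t - u) / (v - u)) * |v| := by
    have e : t = ((v - t) / (v - u)) * u + ((t - u) / (v - u)) * v := by
      field_simp
      ring
    calc |t| = |((v - t) / (v - u)) * u + ((t - u) / (v - u)) * v| := by rw [← e]
      _ ≤ |((v - t) / (v - u)) * u| + |((t - u) / (v - u)) * v| := abs_add_le _ _
      _ = _ := by
        rw [abs_mul, abs_mul, abs_of_nonneg (div_nonneg (by linarith) hd.le),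
          abs_of_nonneg (div_nonneg (by linarith : 0 ≤ t - u) hd.le)]
  have h2 := (convexOn_rpow hp).2 (abs_nonneg u : |u| ∈ Ici (0:ℝ)) (abs_nonneg v : |v| ∈ Ici (0:ℝ))
    (div_nonneg (by linarith : 0 ≤ v - t) hd.le) (div_nonneg (by linarith : 0 ≤ t - u) hd.le)
    (by field_simp; ring)
  simp only [smul_eq_mul] at h2
  calc |t| ^ p ≤ (((v - t) / (v - u)) * |u| + ((t - u) / (v - u)) * |v|) ^ p :=
        Real.rpow_le_rpow (abs_nonneg _) h1 (by linarith)
    _ ≤ _ := h2
    _ = _ := by ring

theorem zte_TE_eq_integral {p u v : ℝ} (hp : 0 < p) (huv : u < v) :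
    TE p u v = ∫ t in u..v, (((v - t) * |u| ^ p + (t - u) * |v| ^ p) / (v - u) - |t| ^ p) := by
  have hd : v - u ≠ 0 := by
    have : 0 < v - u := by linarith
    exact this.ne'
  rw [intervalIntegral.integral_sub _ ((zte_continuous_abs_rpow hp).intervalIntegrable _ _),
    ← prim_sub hp, TE]
  · congr 1
    have hder : ∀ x ∈ uIcc u v, HasDerivAt
        (fun t : ℝ => ((t - u) ^ 2 / 2 * |v| ^ p - (v - t) ^ 2 / 2 * |u| ^ p) / (v - u))
        (((v - x) * |u| ^ p + (x - u) * |v| ^ p) / (v - u)) x := by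
      intro x _
      have h1 : HasDerivAt (fun t : ℝ => (t - u) ^ 2 / 2) (x - u) x := by
        have := (((hasDerivAt_id x).sub_const u).pow 2).div_const 2
        simpa using this
      have h2 : HasDerivAt (fun t : ℝ => (v - t) ^ 2 / 2) (-(v - x)) x := by
        have := (((hasDerivAt_id x).const_sub v).pow 2).div_const 2
        refine this.congr_deriv ?_
        simp
        ring
      have h3 := ((h1.mul_const (|v| ^ p)).sub (h2.mul_const (|u| ^ p))).div_const (v - u)
      refine h3.congr_deriv ?_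
      ring
    rw [intervalIntegral.integral_eq_sub_of_hasDerivAt hder
      (Continuous.intervalIntegrable (by fun_prop) _ _)]
    field_simp
    ring
  · exact Continuous.intervalIntegrable (by fun_prop) _ _

theorem TE_nonneg {p u v : ℝ} (hp : 1 ≤ p) (huv : u ≤ v) : 0 ≤ TE p u v := by
  rcases huv.lt_or_eq with h | h
  · rw [zte_TE_eq_integral (by linarith) h]
    refine intervalIntegral.integral_nonneg huv fun t ht => ?_
    have := zte_abs_rpow_le hp h ht.1 ht.2
    linarith
  · subst h
    simp [TE]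

theorem TE_pos {p u v : ℝ} (hp : 1 ≤ p) (hu : u < 0) (hv : 0 < v) : 0 < TE p u v := by
  have h : u < v := by linarith
  rw [zte_TE_eq_integral (by linarith) h]
  refine intervalIntegral.integral_pos h ?_ (fun t ht => ?_) ⟨0, ⟨hu.le, hv.le⟩, ?_⟩
  · refine Continuous.continuousOn ?_
    exact (by fun_prop : Continuous fun t : ℝ =>
      ((v - t) * |u| ^ p + (t - u) * |v| ^ p) / (v - u)).sub (zte_continuous_abs_rpow (by linarith))
  · have := zte_abs_rpow_le hp h ht.1.le ht.2
    linarith
  · rw [abs_zero, Real.zero_rpow (by linarith), sub_zero]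
    have h1 : 0 < |u| ^ p := Real.rpow_pos_of_pos (abs_pos.2 hu.ne) _
    have h2 : 0 < |v| ^ p := Real.rpow_pos_of_pos (abs_pos.2 hv.ne') _
    have : 0 < v - u := by linarith
    refine div_pos ?_ this
    have := mul_pos (by linarith : 0 < v - 0) h1
    have := mul_pos (by linarith : 0 < 0 - u) h2
    linarith

theorem zte_integrable {p R C : ℝ} (hp : 0 < p) (hR : 0 ≤ R) {g : ℝ → ℝ} (hg : Measurable g)
    (hb : ∀ r, 0 < r → |g r| ≤ C * r) :
    IntervalIntegrable (fun r => p * (1 - p) * r ^ (p - 2) * g r) volume 0 R := by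
  have h0 : IntervalIntegrable (fun r : ℝ => |p * (1 - p)| * C * r ^ (p - 1)) volume 0 R :=
    (intervalIntegral.intervalIntegrable_rpow' (by linarith)).const_mul _
  refine h0.mono_fun' ?_ ?_
  · exact (by fun_prop : Measurable fun r : ℝ => p * (1 - p) * r ^ (p - 2) * g r).aestronglyMeasurable
  · rw [uIoc_of_le hR]
    filter_upwards [ae_restrict_mem measurableSet_Ioc] with r hr
    have hr0 : 0 < r := hr.1
    rw [Real.norm_eq_abs, abs_mul, abs_mul, abs_of_pos (Real.rpow_pos_of_pos hr0 (p - 2))]
    have e : r ^ (p - 1) = r ^ (p - 2) * r := by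
      rw [← Real.rpow_add_one hr0.ne']
      congr 1
      ring
    rw [e]
    calc |p * (1 - p)| * r ^ (p - 2) * |g r| ≤ |p * (1 - p)| * r ^ (p - 2) * (C * r) :=
          mul_le_mul_of_nonneg_left (hb r hr0)
            (mul_nonneg (abs_nonneg _) (Real.rpow_nonneg hr0.le _))
      _ = _ := by ring

theorem zte_min_bound {a r : ℝ} (ha : 0 ≤ a) (hr : 0 < r) : |min a r| ≤ 1 * r := by
  rw [abs_of_nonneg (le_min ha hr.le), one_mul]
  exact min_le_right _ _

/-- the representation of `|t| ^ p` -/
theorem zte_repr {p R a : ℝ} (hp : 0 < p) (hp1 : p < 1) (hR : 0 < R) (ha : 0 ≤ a) (haR : a ≤ R) :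
    a ^ p = p * R ^ (p - 1) * a + ∫ r in (0 : ℝ)..R, p * (1 - p) * r ^ (p - 2) * min a r := by
  rcases ha.lt_or_eq with h | h
  · have hi : ∀ b, 0 ≤ b → IntervalIntegrable (fun r => p * (1 - p) * r ^ (p - 2) * min a r)
        volume 0 b := fun b hb => zte_integrable hp hb (by fun_prop) (C := 1)
        (fun r hr => zte_min_bound ha hr)
    rw [← intervalIntegral.integral_add_adjacent_intervals (hi a ha)
      ((hi a ha).symm.trans (hi R hR.le))]
    have h1 : ∫ r in (0 : ℝ)..a, p * (1 - p) * r ^ (p - 2) * min a r = (1 - p) * a ^ p := by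
      have : ∫ r in (0 : ℝ)..a, p * (1 - p) * r ^ (p - 2) * min a r =
          ∫ r in (0 : ℝ)..a, p * (1 - p) * r ^ (p - 1) := by
        refine intervalIntegral.integral_congr_ae ?_
        filter_upwards with r hr
        rw [uIoc_of_le ha] at hr
        rw [min_eq_right hr.2, mul_assoc (p * (1 - p)), ← Real.rpow_add_one hr.1.ne']
        congr 2
        ring
      rw [this, intervalIntegral.integral_const_mul, integral_rpow (Or.inl (by linarith)),
        Real.zero_rpow (by linarith), sub_add_cancel, sub_zero]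
      field_simp
    have h2 : ∫ r in a..R, p * (1 - p) * r ^ (p - 2) * min a r =
        p * a ^ p - p * a * R ^ (p - 1) := by
      have : ∫ r in a..R, p * (1 - p) * r ^ (p - 2) * min a r =
          ∫ r in a..R, (p * (1 - p) * a) * r ^ (p - 2) := by
        refine intervalIntegral.integral_congr_ae ?_
        filter_upwards with r hr
        rw [uIoc_of_le haR] at hr
        rw [min_eq_left hr.1.le]
        ring
      rw [this, intervalIntegral.integral_const_mul, integral_rpow (Or.inr ⟨by linarith, ?_⟩)]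
      · have e : a ^ p = a ^ (p - 1) * a := by
          rw [← Real.rpow_add_one h.ne']
          congr 1
          ring
        have hp2 : p - 1 ≠ 0 := by linarith
        rw [show p - 2 + 1 = p - 1 by ring, e]
        field_simp
        ring
      · rw [uIcc_of_le haR]
        intro h0
        exact absurd h0.1 (not_le.2 h)
    rw [h1, h2]
    ring
  · subst h
    have : ∫ r in (0 : ℝ)..R, p * (1 - p) * r ^ (p - 2) * min 0 r = 0 := by
      rw [intervalIntegral.integral_congr_ae (g := fun _ => (0 : ℝ)), intervalIntegral.integral_zero]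
      filter_upwards with r hr
      rw [uIoc_of_le hR.le] at hr
      rw [min_eq_left hr.1.le, mul_zero]
    rw [this, Real.zero_rpow hp.ne']
    ring

theorem zte_T_abs {s u v : ℝ} (huv : u ≤ v) :
    ∫ t in u..v, |t - s| = (v - u) / 2 * (|u - s| + |v - s|) - ww s u v := by
  have hder : ∀ x ∈ uIcc u v, HasDerivAt (fun t : ℝ => prim 1 (t - s)) (|x - s|) x := by
    intro x _
    have := (hasDerivAt_prim one_pos (x - s)).comp_sub_const x s
    simpa using this
  rw [intervalIntegral.integral_eq_sub_of_hasDerivAt hder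
    (Continuous.intervalIntegrable (by fun_prop) _ _), prim, prim, ww, Real.rpow_one, Real.rpow_one]
  rcases le_total (v - s) 0 with h1 | h1 <;> rcases le_total (u - s) 0 with h2 | h2
  · rw [max_eq_right h1, abs_of_nonpos h1, abs_of_nonpos h2]
    ring
  · have e : v = u := by linarith
    subst e
    have e' : v = s := by linarith
    subst e'
    simp
  · rw [max_eq_left h1, max_eq_left (by linarith : 0 ≤ s - u), abs_of_nonneg h1, abs_of_nonpos h2]
    ring
  · rw [max_eq_right (by linarith : s - u ≤ 0), abs_of_nonneg h1, abs_of_nonneg h2]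
    ring

theorem zte_min_eq {r t : ℝ} (hr : 0 ≤ r) : min |t| r = |t| - (|t - r| + |t - -r|) / 2 + r := by
  rcases le_total |t| r with h | h
  · rw [min_eq_left h]
    have h1 := (abs_le.1 h)
    rw [abs_of_nonpos (by linarith [h1.2] : t - r ≤ 0), abs_of_nonneg (by linarith [h1.1] : 0 ≤ t - -r)]
    ring
  · rw [min_eq_right h]
    rcases le_total 0 t with h1 | h1
    · rw [abs_of_nonneg h1] at h ⊢
      rw [abs_of_nonneg (by linarith : 0 ≤ t - r), abs_of_nonneg (by linarith : 0 ≤ t - -r)]
      ring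
    · rw [abs_of_nonpos h1] at h ⊢
      rw [abs_of_nonpos (by linarith : t - r ≤ 0), abs_of_nonpos (by linarith : t - -r ≤ 0)]
      ring

theorem zte_T_min {r u v : ℝ} (huv : u ≤ v) (hr : 0 ≤ r) :
    ∫ t in u..v, min |t| r = (v - u) / 2 * (min |u| r + min |v| r) -
      (ww 0 u v - (ww r u v + ww (-r) u v) / 2) := by
  have h0 := zte_T_abs (s := 0) huv
  have h1 := zte_T_abs (s := r) huv
  have h2 := zte_T_abs (s := -r) huv
  simp only [sub_zero] at h0
  have hi : ∀ s : ℝ, IntervalIntegrable (fun t => |t - s|) volume u v := fun s =>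
    Continuous.intervalIntegrable (by fun_prop) _ _
  have hi0 : IntervalIntegrable (fun t : ℝ => |t|) volume u v :=
    Continuous.intervalIntegrable (by fun_prop) _ _
  have h3 : ∫ t in u..v, min |t| r =
      (∫ t in u..v, |t|) - ((∫ t in u..v, |t - r|) + ∫ t in u..v, |t - -r|) / 2 + (v - u) * r := by
    rw [← intervalIntegral.integral_add (hi r) (hi (-r)), ← intervalIntegral.integral_div,
      ← intervalIntegral.integral_sub hi0 (((hi r).add (hi (-r))).div_const 2)]
    have h4 : ∫ t in u..v, r = (v - u) * r := by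
      rw [intervalIntegral.integral_const, smul_eq_mul]
    rw [← h4, ← intervalIntegral.integral_add]
    · exact intervalIntegral.integral_congr fun t _ => zte_min_eq hr
    · exact hi0.sub (((hi r).add (hi (-r))).div_const 2)
    · exact Continuous.intervalIntegrable (by fun_prop) _ _
  rw [h3, h0, h1, h2, zte_min_eq (t := u) hr, zte_min_eq (t := v) hr]
  ring

theorem zte_measurable_ww (u v : ℝ) : Measurable fun r => ww r u v := by
  unfold ww
  fun_prop

theorem zte_swap {p R u v : ℝ} (hp : 0 < p) (hR : 0 ≤ R) (huv : u ≤ v) :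
    ∫ t in u..v, ∫ r in (0 : ℝ)..R, p * (1 - p) * r ^ (p - 2) * min |t| r =
      ∫ r in (0 : ℝ)..R, ∫ t in u..v, p * (1 - p) * r ^ (p - 2) * min |t| r := by
  simp only [intervalIntegral.integral_of_le huv, intervalIntegral.integral_of_le hR]
  refine integral_integral_swap ?_
  have h0 : IntervalIntegrable (fun r : ℝ => |p * (1 - p)| * r ^ (p - 1)) volume 0 R :=
    (intervalIntegral.intervalIntegrable_rpow' (by linarith)).const_mul _
  have h1 : Integrable (fun r : ℝ => |p * (1 - p)| * r ^ (p - 1)) (volume.restrict (Ioc 0 R)) :=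
    (intervalIntegrable_iff_integrableOn_Ioc_of_le hR).1 h0
  have h2 := h1.comp_snd (volume.restrict (Ioc u v))
  refine h2.mono' ?_ ?_
  · exact (by unfold Function.uncurry; fun_prop : Measurable (Function.uncurry
      fun (t r : ℝ) => p * (1 - p) * r ^ (p - 2) * min |t| r)).aestronglyMeasurable
  · rw [Measure.prod_restrict]
    filter_upwards [ae_restrict_mem (measurableSet_Ioc.prod measurableSet_Ioc)] with x hx
    have hr0 : 0 < x.2 := hx.2.1
    change |p * (1 - p) * x.2 ^ (p - 2) * min |x.1| x.2| ≤ _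
    rw [abs_mul, abs_mul, abs_of_pos (Real.rpow_pos_of_pos hr0 (p - 2))]
    have e : x.2 ^ (p - 1) = x.2 ^ (p - 2) * x.2 := by
      rw [← Real.rpow_add_one hr0.ne']
      congr 1
      ring
    rw [e]
    have h3 := zte_min_bound (abs_nonneg x.1) hr0
    rw [one_mul] at h3
    calc |p * (1 - p)| * x.2 ^ (p - 2) * |min |x.1| x.2| ≤ |p * (1 - p)| * x.2 ^ (p - 2) * x.2 :=
          mul_le_mul_of_nonneg_left h3 (mul_nonneg (abs_nonneg _) (Real.rpow_nonneg hr0.le _))
      _ = _ := by ring

/-- `|t| ^ p` is, on `[-R, R]`, a positive combination of `|t|` and of the functions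
`min |t| r`; hence this formula for `p < 1`. -/
theorem TE_formula {p R u v : ℝ} (hp : 0 < p) (hp1 : p < 1) (hR : 0 < R) (huv : u ≤ v)
    (hu : |u| ≤ R) (hv : |v| ≤ R) :
    TE p u v = p * R ^ (p - 1) * ww 0 u v +
      ∫ r in (0 : ℝ)..R, p * (1 - p) * r ^ (p - 2) * (ww 0 u v - (ww r u v + ww (-r) u v) / 2) := by
  have hi : ∀ a, 0 ≤ a → IntervalIntegrable (fun r => p * (1 - p) * r ^ (p - 2) * min a r)
      volume 0 R := fun a ha => zte_integrable hp hR.le (by fun_prop) (C := 1)
      (fun r hr => zte_min_bound ha hr)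
  have hw : IntervalIntegrable (fun r => p * (1 - p) * r ^ (p - 2) *
      (ww 0 u v - (ww r u v + ww (-r) u v) / 2)) volume 0 R := by
    refine zte_integrable hp hR.le ?_ (C := 2 * (v - u)) (fun r hr => ?_)
    · have h1 := zte_measurable_ww u v
      exact (measurable_const.sub ((h1.add (h1.comp measurable_neg)).div_const 2))
    · have := ww_sub_le (r := r) huv
      rwa [abs_of_pos hr] at this
  have hmem : ∀ t ∈ uIcc u v, |t| ≤ R := by
    intro t ht
    rw [uIcc_of_le huv] at ht
    rw [abs_le] at *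
    exact ⟨hu.1.trans ht.1, ht.2.trans hv.2⟩
  have h1 : ∫ t in u..v, |t| ^ p = p * R ^ (p - 1) * (∫ t in u..v, |t|) +
      ∫ r in (0 : ℝ)..R, p * (1 - p) * r ^ (p - 2) * (∫ t in u..v, min |t| r) := by
    have h2 : ∫ t in u..v, ∫ r in (0 : ℝ)..R, p * (1 - p) * r ^ (p - 2) * min |t| r =
        ∫ t in u..v, (|t| ^ p - p * R ^ (p - 1) * |t|) :=
      intervalIntegral.integral_congr fun t ht => by
        have := zte_repr hp hp1 hR (abs_nonneg t) (hmem t ht)
        change _ = _ - _
        rw [eq_sub_iff_add_eq, add_comm]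
        exact this.symm
    rw [zte_swap hp hR.le huv, intervalIntegral.integral_sub
      ((zte_continuous_abs_rpow hp).intervalIntegrable _ _)
      (Continuous.intervalIntegrable (by fun_prop) _ _), intervalIntegral.integral_const_mul] at h2
    simp only [intervalIntegral.integral_const_mul] at h2
    rw [h2]
    ring
  have h3 : ∫ r in (0 : ℝ)..R, p * (1 - p) * r ^ (p - 2) * (∫ t in u..v, min |t| r) =
      (v - u) / 2 * ((∫ r in (0 : ℝ)..R, p * (1 - p) * r ^ (p - 2) * min |u| r) +
        ∫ r in (0 : ℝ)..R, p * (1 - p) * r ^ (p - 2) * min |v| r) -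
      ∫ r in (0 : ℝ)..R, p * (1 - p) * r ^ (p - 2) * (ww 0 u v - (ww r u v + ww (-r) u v) / 2) := by
    rw [← intervalIntegral.integral_add (hi _ (abs_nonneg u)) (hi _ (abs_nonneg v)),
      ← intervalIntegral.integral_const_mul, ← intervalIntegral.integral_sub
        (((hi _ (abs_nonneg u)).add (hi _ (abs_nonneg v))).const_mul _) hw]
    refine intervalIntegral.integral_congr fun r hr => ?_
    rw [uIcc_of_le hR.le] at hr
    rw [zte_T_min huv hr.1]
    ring
  have h4 := zte_T_abs (s := 0) huv
  simp only [sub_zero] at h4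
  rw [TE, prim_sub hp, h1, h3, h4, zte_repr hp hp1 hR (abs_nonneg u) hu,
    zte_repr hp hp1 hR (abs_nonneg v) hv]
  ring

end Pool.Agent.Lib.MP_b0d2bf_gt.HP
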