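import Mathlib
import Pool.Agent.Lib.MP_b0d2bf_gt.ZTE

set_option autoImplicit false

/-!
The derivative of the integral of `|t| ^ p` over a family of intervals.
-/

namespace Pool.Agent.Lib.MP_b0d2bf_gt.HP

open MeasureTheory Set

namespace ZCore

theorem ww_self (r u : ℝ) : ww r u u = 0 := by
  rw [ww]
  rcases le_total u r with h | h
  · rw [max_eq_right (sub_nonpos.2 h), zero_mul]
  · rw [max_eq_right (sub_nonpos.2 h), mul_zero]

theorem TE_self (p u : ℝ) : TE p u u = 0 := by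
  rw [TE, sub_self, sub_self, zero_div, zero_mul, sub_zero]

theorem prim_eq {p : ℝ} (hp : 0 < p) (y : ℝ) : (p + 1) * prim p y = y * |y| ^ p := by
  rw [prim, mul_div_cancel₀]
  linarith

theorem TE_eq {p : ℝ} (hp : 0 < p) (a c : ℝ) : TE p (a - c) (a + c) =
    p * (prim p (a + c) - prim p (a - c)) - a * (|a + c| ^ p - |a - c| ^ p) := by
  have h1 := prim_eq hp (a + c)
  have h2 := prim_eq hp (a - c)
  rw [TE]
  linear_combination h2 - h1

theorem int_res {Ω : Type} [MeasurableSpace Ω] {μ : Measure Ω} {c g : Ω → ℝ}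
    (hg : ∀ ω, c ω = 0 → g ω = 0) :
    ∫ ω, g ω ∂(μ.restrict {ω | c ω ≠ 0}) = ∫ ω, g ω ∂μ :=
  setIntegral_eq_integral_of_forall_compl_eq_zero fun ω hω => hg ω (not_not.1 hω)

theorem rpow_bd {p R y : ℝ} (hp : 0 < p) (hy : |y| ≤ R) : |y| ^ p ≤ R ^ p :=
  Real.rpow_le_rpow (abs_nonneg y) hy hp.le

theorem prim_bd {p R y : ℝ} (hp : 0 < p) (hy : |y| ≤ R) : |prim p y| ≤ R * R ^ p := by
  have h0 : 0 ≤ R := (abs_nonneg y).trans hy
  have h1 : 0 ≤ |y| ^ p := Real.rpow_nonneg (abs_nonneg y) p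
  rw [prim, abs_div, abs_mul, abs_of_nonneg h1, abs_of_pos (by linarith : 0 < p + 1)]
  have h2 : |y| * |y| ^ p ≤ R * R ^ p := mul_le_mul hy (rpow_bd hp hy) h1 h0
  have h3 : 0 ≤ |y| * |y| ^ p := mul_nonneg (abs_nonneg y) h1
  exact (div_le_self h3 (by linarith)).trans h2

set_option linter.unusedSectionVars false

section fin

variable {Ω : Type} [MeasurableSpace Ω] {μ : Measure Ω} [IsFiniteMeasure μ] {p B : ℝ}
  {a c : Ω → ℝ}

theorem integrable_bd {g : Ω → ℝ} (hg : Measurable g) (C : ℝ) (h : ∀ ω, |g ω| ≤ C) :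
    Integrable g μ :=
  Integrable.of_bound hg.aestronglyMeasurable C (Filter.Eventually.of_forall h)

theorem ww_meas (ha : Measurable a) (hc : Measurable c) (r : ℝ) :
    Measurable fun ω => ww r (a ω - c ω) (a ω + c ω) := by
  unfold ww
  exact (((ha.add hc).sub_const r).max measurable_const).mul
    ((measurable_const.sub (ha.sub hc)).max measurable_const)

theorem u_bd (haB : ∀ ω, |a ω| ≤ B) (hc0 : ∀ ω, 0 ≤ c ω) (hcB : ∀ ω, c ω ≤ B) (ω : Ω) :
    |a ω - c ω| ≤ 2 * B := by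
  have h1 := abs_le.1 (haB ω)
  have h2 := hc0 ω
  have h3 := hcB ω
  exact abs_le.2 ⟨by linarith, by linarith⟩

theorem v_bd (haB : ∀ ω, |a ω| ≤ B) (hc0 : ∀ ω, 0 ≤ c ω) (hcB : ∀ ω, c ω ≤ B) (ω : Ω) :
    |a ω + c ω| ≤ 2 * B := by
  have h1 := abs_le.1 (haB ω)
  have h2 := hc0 ω
  have h3 := hcB ω
  exact abs_le.2 ⟨by linarith, by linarith⟩

theorem ww_int (ha : Measurable a) (hc : Measurable c) (haB : ∀ ω, |a ω| ≤ B)
    (hc0 : ∀ ω, 0 ≤ c ω) (hcB : ∀ ω, c ω ≤ B) (r : ℝ) :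
    Integrable (fun ω => ww r (a ω - c ω) (a ω + c ω)) μ := by
  refine integrable_bd (ww_meas ha hc r) ((2 * B + |r|) * (2 * B + |r|)) fun ω => ?_
  have h1 := abs_le.1 (u_bd haB hc0 hcB ω)
  have h2 := abs_le.1 (v_bd haB hc0 hcB ω)
  have h3 := neg_abs_le r
  have h4 := le_abs_self r
  have hB : 0 ≤ 2 * B := (abs_nonneg _).trans (u_bd haB hc0 hcB ω)
  have h5 : 0 ≤ 2 * B + |r| := by
    have := abs_nonneg r
    linarith
  rw [ww, abs_mul, abs_of_nonneg (le_max_right _ _), abs_of_nonneg (le_max_right _ _)]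
  exact mul_le_mul (max_le (by linarith) h5) (max_le (by linarith) h5) (le_max_right _ _) h5

theorem TE_meas (hp : 0 < p) (ha : Measurable a) (hc : Measurable c) :
    Measurable fun ω => TE p (a ω - c ω) (a ω + c ω) := by
  unfold TE
  have h1 := (continuous_prim hp).measurable
  exact ((((ha.add hc).sub (ha.sub hc)).div_const 2).mul
    (((ha.sub hc).abs.pow_const p).add ((ha.add hc).abs.pow_const p))).sub
    ((h1.comp (ha.add hc)).sub (h1.comp (ha.sub hc)))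

theorem TE_int (hp : 0 < p) (ha : Measurable a) (hc : Measurable c) (haB : ∀ ω, |a ω| ≤ B)
    (hc0 : ∀ ω, 0 ≤ c ω) (hcB : ∀ ω, c ω ≤ B) :
    Integrable (fun ω => TE p (a ω - c ω) (a ω + c ω)) μ := by
  refine integrable_bd (TE_meas hp ha hc)
    (B * ((2 * B) ^ p + (2 * B) ^ p) + (2 * B * (2 * B) ^ p + 2 * B * (2 * B) ^ p)) fun ω => ?_
  have h1 := u_bd haB hc0 hcB ω
  have h2 := v_bd haB hc0 hcB ω
  have h3 := rpow_bd hp h1
  have h4 := rpow_bd hp h2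
  have h5 := prim_bd hp h1
  have h6 := prim_bd hp h2
  have h7 : 0 ≤ |a ω - c ω| ^ p := Real.rpow_nonneg (abs_nonneg _) p
  have h8 : 0 ≤ |a ω + c ω| ^ p := Real.rpow_nonneg (abs_nonneg _) p
  have h9 : (a ω + c ω - (a ω - c ω)) / 2 = c ω := by ring
  rw [TE, h9]
  refine (abs_sub _ _).trans (add_le_add ?_ ((abs_sub _ _).trans ?_))
  · rw [abs_mul, abs_of_nonneg (hc0 ω), abs_of_nonneg (add_nonneg h7 h8)]
    exact mul_le_mul (hcB ω) (add_le_add h3 h4) (add_nonneg h7 h8) ((hc0 ω).trans (hcB ω))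
  · exact add_le_add h6 h5

/-- the case `1 ≤ p` -/
theorem int_TE_pos_ge (hp : 1 ≤ p) (ha : Measurable a) (hc : Measurable c)
    (haB : ∀ ω, |a ω| ≤ B) (hc0 : ∀ ω, 0 ≤ c ω) (hcB : ∀ ω, c ω ≤ B)
    (hW0 : 0 < ∫ ω, ww 0 (a ω - c ω) (a ω + c ω) ∂μ) :
    0 < ∫ ω, TE p (a ω - c ω) (a ω + c ω) ∂μ := by
  have hle : ∀ ω, a ω - c ω ≤ a ω + c ω := fun ω => by linarith [hc0 ω]
  have h1 := (integral_pos_iff_support_of_nonneg (f := fun ω => ww 0 (a ω - c ω) (a ω + c ω))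
    (fun ω => mul_nonneg (le_max_right _ _) (le_max_right _ _))
    (ww_int ha hc haB hc0 hcB 0)).1 hW0
  rw [integral_pos_iff_support_of_nonneg (fun ω => TE_nonneg hp (hle ω))
    (TE_int (by linarith) ha hc haB hc0 hcB)]
  refine h1.trans_le (measure_mono fun ω hω => ?_)
  have h2 : ww 0 (a ω - c ω) (a ω + c ω) ≠ 0 := hω
  rw [ww] at h2
  have h3 : a ω - c ω < 0 := by
    by_contra h
    exact h2 (by rw [max_eq_right (by linarith : 0 - (a ω - c ω) ≤ 0), mul_zero])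
  have h4 : 0 < a ω + c ω := by
    by_contra h
    exact h2 (by rw [max_eq_right (by linarith : a ω + c ω - 0 ≤ 0), zero_mul])
  exact (TE_pos hp h3 h4).ne'

/-- the integrand of `TE_formula` -/
noncomputable def FF (p : ℝ) (r u v : ℝ) : ℝ :=
  p * (1 - p) * r ^ (p - 2) * (ww 0 u v - (ww r u v + ww (-r) u v) / 2)

theorem FF_meas (ha : Measurable a) (hc : Measurable c) :
    Measurable fun z : ℝ × Ω => FF p z.1 (a z.2 - c z.2) (a z.2 + c z.2) := by
  unfold FF ww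
  have h1 : Measurable fun z : ℝ × Ω => a z.2 - c z.2 := (ha.sub hc).comp measurable_snd
  have h2 : Measurable fun z : ℝ × Ω => a z.2 + c z.2 := (ha.add hc).comp measurable_snd
  have h3 : Measurable fun z : ℝ × Ω => z.1 := measurable_fst
  refine ((h3.pow_const (p - 2)).const_mul _).mul ?_
  refine (((h2.sub measurable_const).max measurable_const).mul
    ((measurable_const.sub h1).max measurable_const)).sub (Measurable.div_const ?_ 2)
  exact (((h2.sub h3).max measurable_const).mul ((h3.sub h1).max measurable_const)).add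
    (((h2.sub h3.neg).max measurable_const).mul ((h3.neg.sub h1).max measurable_const))

theorem FF_bd {r u v : ℝ} (hp : 0 < p) (hp1 : p < 1) (hr : 0 < r) (huv : u ≤ v)
    (h : v - u ≤ 2 * B) : |FF p r u v| ≤ r ^ (p - 1) * (4 * B * (p * (1 - p))) := by
  have h1 := ww_sub_le (r := r) huv
  have h2 : 0 ≤ p * (1 - p) := mul_nonneg hp.le (by linarith)
  have h3 : 0 ≤ r ^ (p - 2) := Real.rpow_nonneg hr.le _
  have h4 : r ^ (p - 1) = r ^ (p - 2) * r := by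
    rw [← Real.rpow_add_one hr.ne']
    congr 1
    ring
  rw [FF, abs_mul, abs_of_nonneg (mul_nonneg h2 h3)]
  refine (mul_le_mul_of_nonneg_left h1 (mul_nonneg h2 h3)).trans ?_
  rw [abs_of_pos hr, h4]
  have h5 : 0 ≤ p * (1 - p) * r ^ (p - 2) * r := mul_nonneg (mul_nonneg h2 h3) hr.le
  nlinarith [mul_le_mul_of_nonneg_left h h5]

/-- the case `p < 1` -/
theorem int_TE_pos_lt (hp : 0 < p) (hp1 : p < 1) (ha : Measurable a) (hc : Measurable c)
    (haB : ∀ ω, |a ω| ≤ B) (hc0 : ∀ ω, 0 ≤ c ω) (hcB : ∀ ω, c ω ≤ B)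
    (hW : ∀ r, ∫ ω, ww r (a ω - c ω) (a ω + c ω) ∂μ ≤ ∫ ω, ww 0 (a ω - c ω) (a ω + c ω) ∂μ)
    (hW0 : 0 < ∫ ω, ww 0 (a ω - c ω) (a ω + c ω) ∂μ) :
    0 < ∫ ω, TE p (a ω - c ω) (a ω + c ω) ∂μ := by
  obtain ⟨R, hR, hRB⟩ : ∃ R : ℝ, 0 < R ∧ 2 * B ≤ R :=
    ⟨max (2 * B) 1, lt_max_of_lt_right one_pos, le_max_left _ _⟩
  have hle : ∀ ω, a ω - c ω ≤ a ω + c ω := fun ω => by linarith [hc0 ω]
  have hform : ∀ ω, TE p (a ω - c ω) (a ω + c ω) =
      p * R ^ (p - 1) * ww 0 (a ω - c ω) (a ω + c ω) +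
      ∫ r in Ioc 0 R, FF p r (a ω - c ω) (a ω + c ω) := fun ω => by
    rw [TE_formula hp hp1 hR (hle ω) ((u_bd haB hc0 hcB ω).trans hRB)
      ((v_bd haB hc0 hcB ω).trans hRB), intervalIntegral.integral_of_le hR.le]
    rfl
  -- the integrand is integrable on the product
  have hI : Integrable (fun z : ℝ × Ω => FF p z.1 (a z.2 - c z.2) (a z.2 + c z.2))
      ((volume.restrict (Ioc 0 R)).prod μ) := by
    have h1 : Integrable (fun r : ℝ => r ^ (p - 1)) (volume.restrict (Ioc 0 R)) := by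
      have h2 := intervalIntegral.intervalIntegrable_rpow' (a := 0) (b := R) (r := p - 1)
        (by linarith)
      exact (intervalIntegrable_iff_integrableOn_Ioc_of_le hR.le).1 h2
    have h3 : Integrable (fun z : ℝ × Ω => z.1 ^ (p - 1) * (4 * B * (p * (1 - p))))
        ((volume.restrict (Ioc 0 R)).prod μ) :=
      h1.mul_prod (integrable_const (4 * B * (p * (1 - p))))
    refine h3.mono' (FF_meas ha hc).aestronglyMeasurable ?_
    have h4 : ∀ᵐ z : ℝ × Ω ∂((volume.restrict (Ioc 0 R)).prod μ), z.1 ∈ Ioc 0 R := by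
      have h5 : ∀ᵐ r : ℝ ∂(volume.restrict (Ioc 0 R)), r ∈ Ioc 0 R :=
        ae_restrict_mem measurableSet_Ioc
      exact Measure.quasiMeasurePreserving_fst.ae h5
    filter_upwards [h4] with z hz
    rw [Real.norm_eq_abs]
    exact FF_bd hp hp1 hz.1 (hle z.2) (by linarith [hcB z.2])
  have hI2 : Integrable (fun ω => ∫ r in Ioc 0 R, FF p r (a ω - c ω) (a ω + c ω)) μ :=
    hI.integral_prod_right
  have hswap : ∫ ω, (∫ r in Ioc 0 R, FF p r (a ω - c ω) (a ω + c ω)) ∂μ =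
      ∫ r in Ioc 0 R, ∫ ω, FF p r (a ω - c ω) (a ω + c ω) ∂μ :=
    (integral_integral_swap hI).symm
  have hpos : 0 ≤ ∫ r in Ioc 0 R, ∫ ω, FF p r (a ω - c ω) (a ω + c ω) ∂μ := by
    refine setIntegral_nonneg measurableSet_Ioc fun r hr => ?_
    have i0 := ww_int (μ := μ) ha hc haB hc0 hcB 0
    have i1 := ww_int (μ := μ) ha hc haB hc0 hcB r
    have i2 := ww_int (μ := μ) ha hc haB hc0 hcB (-r)
    have h1 : ∫ ω, FF p r (a ω - c ω) (a ω + c ω) ∂μ = p * (1 - p) * r ^ (p - 2) *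
        (∫ ω, ww 0 (a ω - c ω) (a ω + c ω) ∂μ - (∫ ω, ww r (a ω - c ω) (a ω + c ω) ∂μ +
          ∫ ω, ww (-r) (a ω - c ω) (a ω + c ω) ∂μ) / 2) := by
      have i3 : Integrable (fun ω => (ww r (a ω - c ω) (a ω + c ω) +
          ww (-r) (a ω - c ω) (a ω + c ω)) / 2) μ := (i1.add i2).div_const 2
      unfold FF
      rw [integral_const_mul, integral_sub i0 i3, integral_div, integral_add i1 i2]
    rw [h1]
    have h2 := hW r
    have h3 := hW (-r)
    exact mul_nonneg (mul_nonneg (mul_nonneg hp.le (by linarith)) (Real.rpow_nonneg hr.1.le _))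
      (by linarith)
  have h1 : ∫ ω, TE p (a ω - c ω) (a ω + c ω) ∂μ =
      p * R ^ (p - 1) * ∫ ω, ww 0 (a ω - c ω) (a ω + c ω) ∂μ +
      ∫ ω, (∫ r in Ioc 0 R, FF p r (a ω - c ω) (a ω + c ω)) ∂μ := by
    rw [← integral_const_mul, ← integral_add ((ww_int ha hc haB hc0 hcB 0).const_mul _) hI2]
    exact integral_congr_ae (Filter.Eventually.of_forall hform)
  rw [h1, hswap]
  exact add_pos_of_pos_of_nonneg (mul_pos (mul_pos hp (Real.rpow_pos_of_pos hR _)) hW0) hpos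

/-- the derivative -/
theorem hasDeriv (hp : 0 < p) (ha : Measurable a) (hc : Measurable c)
    (haB : ∀ ω, |a ω| ≤ B) (hc0 : ∀ ω, 0 ≤ c ω) (hcB : ∀ ω, c ω ≤ B) :
    HasDerivAt (fun τ : ℝ => ∫ ω, (prim p (τ * a ω + c ω) - prim p (τ * a ω - c ω)) ∂μ)
      (∫ ω, a ω * (|a ω + c ω| ^ p - |a ω - c ω| ^ p) ∂μ) 1 := by
  have hm := (continuous_prim hp).measurable
  have hF : ∀ τ : ℝ, Measurable fun ω => prim p (τ * a ω + c ω) - prim p (τ * a ω - c ω) :=
    fun τ => (hm.comp ((ha.const_mul τ).add hc)).sub (hm.comp ((ha.const_mul τ).sub hc))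
  have hb : ∀ ω, ∀ τ ∈ Metric.ball (1 : ℝ) 1, |τ * a ω + c ω| ≤ 3 * B ∧
      |τ * a ω - c ω| ≤ 3 * B := by
    intro ω τ hτ
    rw [Metric.mem_ball, Real.dist_eq] at hτ
    have h1 := abs_lt.1 hτ
    have h2 : |τ * a ω| ≤ 2 * B := by
      rw [abs_mul]
      exact mul_le_mul (abs_le.2 ⟨by linarith, by linarith⟩) (haB ω) (abs_nonneg _) (by norm_num)
    have h3 := abs_le.1 h2
    have h4 := hc0 ω
    have h5 := hcB ω
    exact ⟨abs_le.2 ⟨by linarith, by linarith⟩, abs_le.2 ⟨by linarith, by linarith⟩⟩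
  have hone : (1 : ℝ) ∈ Metric.ball (1 : ℝ) 1 := Metric.mem_ball_self one_pos
  have h0 := hasDerivAt_integral_of_dominated_loc_of_deriv_le (μ := μ) (𝕜 := ℝ)
    (F := fun τ ω => prim p (τ * a ω + c ω) - prim p (τ * a ω - c ω))
    (F' := fun τ ω => a ω * (|τ * a ω + c ω| ^ p - |τ * a ω - c ω| ^ p)) (x₀ := 1)
    (bound := fun _ => B * ((3 * B) ^ p + (3 * B) ^ p)) (s := Metric.ball 1 1)
    (Metric.ball_mem_nhds 1 one_pos)
    (Filter.Eventually.of_forall fun τ => (hF τ).aestronglyMeasurable)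
    (integrable_bd (hF 1) (3 * B * (3 * B) ^ p + 3 * B * (3 * B) ^ p) fun ω =>
      (abs_sub _ _).trans (add_le_add (prim_bd hp (hb ω 1 hone).1)
        (prim_bd hp (hb ω 1 hone).2)))
    ((ha.mul ((((ha.const_mul 1).add hc).abs.pow_const p).sub
      (((ha.const_mul 1).sub hc).abs.pow_const p))).aestronglyMeasurable)
    (Filter.Eventually.of_forall fun ω τ hτ => by
      rw [Real.norm_eq_abs, abs_mul]
      have h1 : 0 ≤ |τ * a ω + c ω| ^ p := Real.rpow_nonneg (abs_nonneg _) p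
      have h2 : 0 ≤ |τ * a ω - c ω| ^ p := Real.rpow_nonneg (abs_nonneg _) p
      refine mul_le_mul (haB ω) ((abs_sub _ _).trans ?_) (abs_nonneg _)
        ((abs_nonneg _).trans (haB ω))
      rw [abs_of_nonneg h1, abs_of_nonneg h2]
      exact add_le_add (rpow_bd hp (hb ω τ hτ).1) (rpow_bd hp (hb ω τ hτ).2))
    (integrable_const _)
    (Filter.Eventually.of_forall fun ω τ hτ => by
      have h1 : HasDerivAt (fun τ : ℝ => τ * a ω + c ω) (a ω) τ := by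
        simpa using ((hasDerivAt_id τ).mul_const (a ω)).add_const (c ω)
      have h2 : HasDerivAt (fun τ : ℝ => τ * a ω - c ω) (a ω) τ := by
        simpa using ((hasDerivAt_id τ).mul_const (a ω)).sub_const (c ω)
      have h3 := ((hasDerivAt_prim hp (τ * a ω + c ω)).comp τ h1).sub
        ((hasDerivAt_prim hp (τ * a ω - c ω)).comp τ h2)
      refine h3.congr_deriv ?_
      ring)
  simpa using h0.2

end fin

end ZCore

section

variable {Ω : Type} [MeasurableSpace Ω] {μ : Measure Ω} {p B : ℝ} {a c : Ω → ℝ}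

open ZCore

theorem int_TE_pos (hp : 0 < p) (ha : Measurable a) (hc : Measurable c) (haB : ∀ ω, |a ω| ≤ B)
    (hc0 : ∀ ω, 0 ≤ c ω) (hcB : ∀ ω, c ω ≤ B) (hS : μ {ω | c ω ≠ 0} ≠ ⊤)
    (hW : ∀ r, ∫ ω, ww r (a ω - c ω) (a ω + c ω) ∂μ ≤ ∫ ω, ww 0 (a ω - c ω) (a ω + c ω) ∂μ)
    (hW0 : 0 < ∫ ω, ww 0 (a ω - c ω) (a ω + c ω) ∂μ) :
    0 < ∫ ω, TE p (a ω - c ω) (a ω + c ω) ∂μ := by
  have hfin : IsFiniteMeasure (μ.restrict {ω | c ω ≠ 0}) :=
    ⟨by rw [Measure.restrict_apply_univ]; exact lt_top_iff_ne_top.2 hS⟩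
  have h1 : ∀ r ω, c ω = 0 → ww r (a ω - c ω) (a ω + c ω) = 0 := fun r ω h => by
    rw [h, sub_zero, add_zero, ww_self]
  have h2 : ∀ ω, c ω = 0 → TE p (a ω - c ω) (a ω + c ω) = 0 := fun ω h => by
    rw [h, sub_zero, add_zero, TE_self]
  rw [← int_res h2]
  rw [← int_res (h1 0)] at hW0
  have hW' : ∀ r, ∫ ω, ww r (a ω - c ω) (a ω + c ω) ∂(μ.restrict {ω | c ω ≠ 0}) ≤
      ∫ ω, ww 0 (a ω - c ω) (a ω + c ω) ∂(μ.restrict {ω | c ω ≠ 0}) := fun r => by
    rw [int_res (h1 r), int_res (h1 0)]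
    exact hW r
  rcases lt_or_ge p 1 with hp1 | hp1
  · exact int_TE_pos_lt hp hp1 ha hc haB hc0 hcB hW' hW0
  · exact int_TE_pos_ge hp1 ha hc haB hc0 hcB hW0

theorem core (hp : 0 < p) (ha : Measurable a) (hc : Measurable c) (haB : ∀ ω, |a ω| ≤ B)
    (hc0 : ∀ ω, 0 ≤ c ω) (hcB : ∀ ω, c ω ≤ B) (hS : μ {ω | c ω ≠ 0} ≠ ⊤)
    (hW : ∀ r, ∫ ω, ww r (a ω - c ω) (a ω + c ω) ∂μ ≤ ∫ ω, ww 0 (a ω - c ω) (a ω + c ω) ∂μ)
    (hW0 : 0 < ∫ ω, ww 0 (a ω - c ω) (a ω + c ω) ∂μ) :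
    ∃ G' : ℝ, HasDerivAt
      (fun τ : ℝ => ∫ ω, (prim p (τ * a ω + c ω) - prim p (τ * a ω - c ω)) ∂μ) G' 1 ∧
      G' < p * ∫ ω, (prim p (a ω + c ω) - prim p (a ω - c ω)) ∂μ := by
  have hfin : IsFiniteMeasure (μ.restrict {ω | c ω ≠ 0}) :=
    ⟨by rw [Measure.restrict_apply_univ]; exact lt_top_iff_ne_top.2 hS⟩
  have hpos := int_TE_pos hp ha hc haB hc0 hcB hS hW hW0
  have h2 : ∀ ω, c ω = 0 → TE p (a ω - c ω) (a ω + c ω) = 0 := fun ω h => by
    rw [h, sub_zero, add_zero, TE_self]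
  have h3 : ∀ (τ : ℝ) (ω : Ω), c ω = 0 →
      prim p (τ * a ω + c ω) - prim p (τ * a ω - c ω) = 0 := fun τ ω h => by
    rw [h, sub_zero, add_zero, sub_self]
  have h3' : ∀ ω : Ω, c ω = 0 → prim p (a ω + c ω) - prim p (a ω - c ω) = 0 := fun ω h => by
    rw [h, sub_zero, add_zero, sub_self]
  refine ⟨∫ ω, a ω * (|a ω + c ω| ^ p - |a ω - c ω| ^ p) ∂(μ.restrict {ω | c ω ≠ 0}), ?_, ?_⟩
  · have h4 : (fun τ : ℝ => ∫ ω, (prim p (τ * a ω + c ω) - prim p (τ * a ω - c ω)) ∂μ) =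
        fun τ : ℝ => ∫ ω, (prim p (τ * a ω + c ω) - prim p (τ * a ω - c ω))
          ∂(μ.restrict {ω | c ω ≠ 0}) := funext fun τ => (int_res (h3 τ)).symm
    rw [h4]
    exact hasDeriv hp ha hc haB hc0 hcB
  · rw [← int_res h2] at hpos
    rw [← int_res h3']
    have i1 : Integrable (fun ω => prim p (a ω + c ω) - prim p (a ω - c ω))
        (μ.restrict {ω | c ω ≠ 0}) := by
      have hm := (continuous_prim hp).measurable
      exact integrable_bd ((hm.comp (ha.add hc)).sub (hm.comp (ha.sub hc)))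
        (2 * B * (2 * B) ^ p + 2 * B * (2 * B) ^ p) fun ω => (abs_sub _ _).trans
          (add_le_add (prim_bd hp (v_bd haB hc0 hcB ω)) (prim_bd hp (u_bd haB hc0 hcB ω)))
    have i2 := TE_int (μ := μ.restrict {ω | c ω ≠ 0}) hp ha hc haB hc0 hcB
    have h5 : ∫ ω, a ω * (|a ω + c ω| ^ p - |a ω - c ω| ^ p) ∂(μ.restrict {ω | c ω ≠ 0}) =
        p * ∫ ω, (prim p (a ω + c ω) - prim p (a ω - c ω)) ∂(μ.restrict {ω | c ω ≠ 0}) -
          ∫ ω, TE p (a ω - c ω) (a ω + c ω) ∂(μ.restrict {ω | c ω ≠ 0}) := by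
      rw [← integral_const_mul, ← integral_sub (i1.const_mul p) i2]
      refine integral_congr_ae (Filter.Eventually.of_forall fun ω => ?_)
      change _ = p * (prim p (a ω + c ω) - prim p (a ω - c ω)) - TE p (a ω - c ω) (a ω + c ω)
      rw [TE_eq hp]
      ring
    rw [h5]
    linarith

end

end Pool.Agent.Lib.MP_b0d2bf_gt.HP
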