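import Mathlib
import Pool.Agent.Lib.MP_a3e05c_co.BL.Prek1
import Pool.Agent.Lib.MP_a3e05c_co.BL.LC

set_option autoImplicit false

/-!
Log-concave functions on real vector spaces and their marginals (Prekopa).
-/

namespace Pool.Agent.Lib.MP_b0d2bf_gt.HP

open MeasureTheory Set

/-- nonnegative log-concave functions on a real vector space -/
structure LogC {E : Type} [AddCommGroup E] [Module ℝ E] (f : E → ℝ) : Prop where
  nonneg : ∀ x, 0 ≤ f x
  conc : ∀ x y, ∀ s : ℝ, 0 < s → s < 1 → f x ^ (1 - s) * f y ^ s ≤ f ((1 - s) • x + s • y)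

section

variable {E F : Type} [AddCommGroup E] [Module ℝ E] [AddCommGroup F] [Module ℝ F]

theorem LogC.indicator {S : Set E} (hS : Convex ℝ S) : LogC (S.indicator fun _ => (1 : ℝ)) := by
  refine ⟨fun x => Set.indicator_nonneg (fun _ _ => zero_le_one) x, fun x y s hs0 hs1 => ?_⟩
  by_cases hx : x ∈ S
  · by_cases hy : y ∈ S
    · have h := hS hx hy (by linarith : (0 : ℝ) ≤ 1 - s) hs0.le (by ring)
      rw [Set.indicator_of_mem hx, Set.indicator_of_mem hy, Set.indicator_of_mem h,
        Real.one_rpow, Real.one_rpow, mul_one]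
    · rw [Set.indicator_of_notMem hy, Real.zero_rpow hs0.ne', mul_zero]
      exact Set.indicator_nonneg (fun _ _ => zero_le_one) _
  · rw [Set.indicator_of_notMem hx, Real.zero_rpow (by linarith : (1 : ℝ) - s ≠ 0), zero_mul]
    exact Set.indicator_nonneg (fun _ _ => zero_le_one) _

theorem LogC.mul {f g : E → ℝ} (hf : LogC f) (hg : LogC g) : LogC fun x => f x * g x := by
  refine ⟨fun x => mul_nonneg (hf.nonneg x) (hg.nonneg x), fun x y s hs0 hs1 => ?_⟩
  rw [Real.mul_rpow (hf.nonneg x) (hg.nonneg x), Real.mul_rpow (hf.nonneg y) (hg.nonneg y)]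
  have h1 := mul_le_mul (hf.conc x y s hs0 hs1) (hg.conc x y s hs0 hs1)
    (mul_nonneg (Real.rpow_nonneg (hg.nonneg x) _) (Real.rpow_nonneg (hg.nonneg y) _))
    (hf.nonneg _)
  calc f x ^ (1 - s) * g x ^ (1 - s) * (f y ^ s * g y ^ s)
      = f x ^ (1 - s) * f y ^ s * (g x ^ (1 - s) * g y ^ s) := by ring
    _ ≤ _ := h1

theorem LogC.min {f g : E → ℝ} (hf : LogC f) (hg : LogC g) :
    LogC fun x => Min.min (f x) (g x) := by
  have h0 : ∀ x, 0 ≤ Min.min (f x) (g x) := fun x => le_min (hf.nonneg x) (hg.nonneg x)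
  refine ⟨h0, fun x y s hs0 hs1 => le_min ?_ ?_⟩
  · refine le_trans ?_ (hf.conc x y s hs0 hs1)
    exact mul_le_mul (Real.rpow_le_rpow (h0 x) (min_le_left _ _) (by linarith))
      (Real.rpow_le_rpow (h0 y) (min_le_left _ _) hs0.le) (Real.rpow_nonneg (h0 y) _)
      (Real.rpow_nonneg (hf.nonneg x) _)
  · refine le_trans ?_ (hg.conc x y s hs0 hs1)
    exact mul_le_mul (Real.rpow_le_rpow (h0 x) (min_le_right _ _) (by linarith))
      (Real.rpow_le_rpow (h0 y) (min_le_right _ _) hs0.le) (Real.rpow_nonneg (h0 y) _)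
      (Real.rpow_nonneg (hg.nonneg x) _)

theorem LogC.comp {f : E → ℝ} (hf : LogC f) (L : F →ₗ[ℝ] E) : LogC fun x => f (L x) := by
  refine ⟨fun x => hf.nonneg _, fun x y s hs0 hs1 => ?_⟩
  have h := hf.conc (L x) (L y) s hs0 hs1
  rw [map_add, map_smul, map_smul]
  exact h

/-- superlevel sets are convex -/
theorem LogC.level {f : E → ℝ} (hf : LogC f) {s : ℝ} (hs : 0 < s) : Convex ℝ {x | s < f x} := by
  rw [convex_iff_forall_pos]
  intro x hx y hy a b ha hb hab
  have hb1 : b < 1 := by linarith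
  have ha' : a = 1 - b := by linarith
  have hx' : s < f x := hx
  have hy' : s < f y := hy
  have h2 : s ^ (1 - b) * s ^ b = s := by
    rw [← Real.rpow_add hs]
    simp
  have h3 : s ^ (1 - b) < f x ^ (1 - b) := Real.rpow_lt_rpow hs.le hx' (by linarith)
  have h4 : s ^ b < f y ^ b := Real.rpow_lt_rpow hs.le hy' hb
  have h5 : s ^ (1 - b) * s ^ b < f x ^ (1 - b) * f y ^ b :=
    mul_lt_mul'' h3 h4 (Real.rpow_nonneg hs.le _) (Real.rpow_nonneg hs.le _)
  rw [h2] at h5
  show s < f (a • x + b • y)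
  rw [ha']
  exact lt_of_lt_of_le h5 (hf.conc x y b hb hb1)

/-- integrating out a real variable -/
theorem LogC.marg_real {f : E × ℝ → ℝ} (hf : LogC f) (hm : ∀ x, Measurable fun t => f (x, t))
    {B C : ℝ} (hB : ∀ x t, f (x, t) ≠ 0 → |t| ≤ B) (hC : ∀ z, f z ≤ C) :
    LogC fun x => ∫ t, f (x, t) := by
  have hi : ∀ x, Integrable fun t => f (x, t) := by
    intro x
    refine MP_a3e05c_co.BL.integrable_bdd (hm x) (S := Icc (-B) B) (by simp) (fun t ht => ?_)
      (C := C) (fun t => ?_)
    · exact abs_le.mp (hB x t ht)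
    · rw [abs_of_nonneg (hf.nonneg _)]; exact hC _
  have hlc : ∀ (x x' : E) (t t' s : ℝ), 0 < s → s < 1 →
      f (x, t) ^ (1 - s) * f (x', t') ^ s ≤
        f ((1 - s) • x + s • x', (1 - s) * t + s * t') := by
    intro x x' t t' s hs0 hs1
    have h := hf.conc (x, t) (x', t') s hs0 hs1
    rwa [Prod.smul_mk, Prod.smul_mk, Prod.mk_add_mk, smul_eq_mul, smul_eq_mul] at h
  refine ⟨fun x => integral_nonneg fun t => hf.nonneg _, fun x x' s hs0 hs1 => ?_⟩
  refine MP_a3e05c_co.BL.prek (h := fun z => f ((1 - s) • x + s • x', z))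
    (fun t => hf.nonneg _) (fun t => hf.nonneg _) (fun t => hf.nonneg _)
    ⟨C, by rintro _ ⟨t, rfl⟩; exact hC _⟩ ⟨C, by rintro _ ⟨t, rfl⟩; exact hC _⟩
    (hi x) (hi x') (hi _)
    (fun t ht => MP_a3e05c_co.BL.level_convex (fun t => hf.nonneg _)
      (fun t t' r hr0 hr1 => ?_) ht)
    (fun t ht => MP_a3e05c_co.BL.level_convex (fun t => hf.nonneg _)
      (fun t t' r hr0 hr1 => ?_) ht)
    ?_ ?_ hs0 hs1 (fun t t' => hlc x x' t t' s hs0 hs1)
  · have h1 := hlc x x t t' r hr0 hr1
    have h2 : (1 - r) • x + r • x = x := by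
      rw [← add_smul]; simp
    rwa [h2] at h1
  · have h1 := hlc x' x' t t' r hr0 hr1
    have h2 : (1 - r) • x' + r • x' = x' := by
      rw [← add_smul]; simp
    rwa [h2] at h1
  · exact (Metric.isBounded_Icc (-B) B).subset fun t ht => abs_le.mp (hB _ _ (ne_of_gt ht))
  · exact (Metric.isBounded_Icc (-B) B).subset fun t ht => abs_le.mp (hB _ _ (ne_of_gt ht))

end

open MP_a3e05c_co.BL in
/-- the linear map `((x, y), t) ↦ (x, (y, t))` -/
private def insL (E : Type) [AddCommGroup E] [Module ℝ E] (b : ℕ) :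
    (E × (Fin b → ℝ)) × ℝ →ₗ[ℝ] E × (Fin (b + 1) → ℝ) where
  toFun p := (p.1.1, ins p.2 p.1.2)
  map_add' p q := by
    refine Prod.ext rfl ?_
    refine ins_ext ?_ fun j => ?_
    · simp only [Prod.snd_add, Pi.add_apply, ins_last]
    · simp only [Prod.snd_add, Prod.fst_add, Pi.add_apply, ins_castSucc]
  map_smul' c p := by
    refine Prod.ext rfl ?_
    refine ins_ext ?_ fun j => ?_
    · simp only [Prod.smul_snd, Pi.smul_apply, ins_last, RingHom.id_apply]
    · simp only [Prod.smul_snd, Prod.smul_fst, Pi.smul_apply, ins_castSucc, RingHom.id_apply]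

open MP_a3e05c_co.BL in
/-- integrating out a variable in `ℝ^b` -/
theorem LogC.marg_pi (b : ℕ) : ∀ {E : Type} [AddCommGroup E] [Module ℝ E]
    {f : E × (Fin b → ℝ) → ℝ}, LogC f → (∀ x, Measurable fun y => f (x, y)) →
    ∀ {B C : ℝ}, (∀ x y, f (x, y) ≠ 0 → ∀ i, |y i| ≤ B) → (∀ z, f z ≤ C) →
    LogC fun x => ∫ y, f (x, y) := by
  induction b with
  | zero =>
    intro E _ _ f hf _ B C _ _
    have h1 : (fun x => ∫ y : Fin 0 → ℝ, f (x, y)) = fun x => f (LinearMap.inl ℝ E _ x) := by
      funext x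
      rw [Measure.volume_pi_eq_dirac (0 : Fin 0 → ℝ), integral_dirac]
      rfl
    rw [h1]
    exact hf.comp _
  | succ b ih =>
    intro E _ _ f hf hm B C hB hC
    have hC0 : 0 ≤ C := (hf.nonneg 0).trans (hC 0)
    have hg : LogC fun p : (E × (Fin b → ℝ)) × ℝ => f (insL E b p) := hf.comp (insL E b)
    have hgm : ∀ q : E × (Fin b → ℝ), Measurable fun t : ℝ => f (insL E b (q, t)) := by
      intro q
      have h1 : Measurable fun t : ℝ => ins t q.2 := measurable_ins.comp measurable_prodMk_right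
      exact (hm q.1).comp h1
    have hgB : ∀ (q : E × (Fin b → ℝ)) (t : ℝ), f (insL E b (q, t)) ≠ 0 → |t| ≤ B := by
      intro q t ht
      have := hB _ _ ht (Fin.last b)
      rwa [show (ins t q.2) (Fin.last b) = t from ins_last _ _] at this
    have hG := hg.marg_real hgm hgB (fun z => hC _)
    have hGm : ∀ x : E, Measurable fun y : Fin b → ℝ => ∫ t, f (insL E b ((x, y), t)) := by
      intro x
      have h1 : StronglyMeasurable
          (Function.uncurry fun (y : Fin b → ℝ) (t : ℝ) => f (x, ins t y)) :=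
        ((hm x).comp (measurable_ins.comp measurable_swap)).stronglyMeasurable
      exact h1.integral_prod_right.measurable
    have hGB : ∀ (x : E) (y : Fin b → ℝ), ∫ t, f (insL E b ((x, y), t)) ≠ 0 →
        ∀ i, |y i| ≤ B := by
      intro x y hy i
      by_contra hcon
      apply hy
      have h1 : ∀ t, f (insL E b ((x, y), t)) = 0 := by
        intro t
        by_contra h2
        apply hcon
        have := hB _ _ h2 i.castSucc
        rwa [show (ins t y) i.castSucc = y i from ins_castSucc _ _ _] at this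
      simp only [h1, integral_zero]
    have hint : ∀ q : E × (Fin b → ℝ), Integrable fun t : ℝ => f (insL E b (q, t)) := by
      intro q
      refine integrable_bdd (hgm q) (S := Icc (-B) B) (by simp) (fun t ht => ?_)
        (C := C) (fun t => ?_)
      · exact abs_le.mp (hgB q t ht)
      · rw [abs_of_nonneg (hf.nonneg _)]; exact hC _
    have hGC : ∀ q : E × (Fin b → ℝ), ∫ t, f (insL E b (q, t)) ≤ C * (2 * |B|) := by
      intro q
      have h1 : ∫ t : ℝ, f (insL E b (q, t)) = ∫ t in Icc (-|B|) |B|, f (insL E b (q, t)) := by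
        rw [setIntegral_eq_integral_of_forall_compl_eq_zero]
        intro t ht
        by_contra h2
        apply ht
        exact abs_le.mp ((hgB q t h2).trans (le_abs_self B))
      rw [h1]
      calc ∫ t in Icc (-|B|) |B|, f (insL E b (q, t)) ≤ ∫ _t in Icc (-|B|) |B|, C := by
            refine setIntegral_mono_on (hint q).integrableOn ?_ measurableSet_Icc
              fun t _ => hC _
            exact integrableOn_const (by simp) (by simp)
        _ = C * (2 * |B|) := by
            rw [setIntegral_const, measureReal_def, Real.volume_Icc, ENNReal.toReal_ofReal,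
              smul_eq_mul]
            · ring
            · have := abs_nonneg B
              linarith
    have hfin := ih hG hGm hGB hGC
    have heq : (fun x => ∫ y : Fin (b + 1) → ℝ, f (x, y)) =
        fun x => ∫ y : Fin b → ℝ, ∫ t, f (insL E b ((x, y), t)) := by
      funext x
      have hi : Integrable fun z : Fin (b + 1) → ℝ => f (x, z) := by
        refine integrable_bdd (hm x) (vol_box_ne_top _ B) (fun t ht => ?_) (C := C) (fun t => ?_)
        · exact ⟨fun i => (abs_le.mp (hB x t ht i)).1, fun i => (abs_le.mp (hB x t ht i)).2⟩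
        · rw [abs_of_nonneg (hf.nonneg _)]; exact hC _
      have e := (volume_preserving_piFinSuccAbove (fun _ : Fin (b + 1) => ℝ) (Fin.last b)).symm
      have h1 : ∫ z : Fin (b + 1) → ℝ, f (x, z) =
          ∫ p : ℝ × (Fin b → ℝ), f (x, ins p.1 p.2) := by
        rw [← e.integral_comp' (fun z => f (x, z))]
        rfl
      have hi2 : Integrable (fun p : ℝ × (Fin b → ℝ) => f (x, ins p.1 p.2))
          (volume.prod volume) :=
        (e.integrable_comp_emb (MeasurableEquiv.measurableEmbedding _)).mpr hi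
      rw [h1]
      have h4 := integral_prod_symm _ hi2
      rw [← Measure.volume_eq_prod] at h4
      rw [h4]
      rfl
    rw [heq]
    exact hfin

end Pool.Agent.Lib.MP_b0d2bf_gt.HP
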