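import Mathlib
import Pool.Agent.Lib.MP_b0d2bf_gt.ZPL
import Pool.Agent.Lib.MP_b0d2bf_gt.ZTE

set_option autoImplicit false

/-!
The level sets of an even log-concave function on `ℝ × ℝ^k`, as families of intervals.
-/

namespace Pool.Agent.Lib.MP_b0d2bf_gt.HP

open MeasureTheory Set

/-- even log-concave functions on `ℝ × ℝ^k`, bounded with bounded support -/
structure Dat (k : ℕ) (ρ : ℝ × (Fin k → ℝ) → ℝ) (B C : ℝ) : Prop where
  logc : LogC ρ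
  meas : Measurable ρ
  even : ∀ z, ρ (-z) = ρ z
  bdd : ∀ z, ρ z ≤ C
  supp : ∀ z, ρ z ≠ 0 → |z.1| ≤ B ∧ ∀ i, |z.2 i| ≤ B

variable {k : ℕ} {ρ : ℝ × (Fin k → ℝ) → ℝ} {B C : ℝ}

/-- the level set over the point `x`, for the pair `ω = (s, x)` -/
def Fs (ρ : ℝ × (Fin k → ℝ) → ℝ) (ω : ℝ × (Fin k → ℝ)) : Set ℝ := {t | ω.1 < ρ (t, ω.2)}

/-- half of the length of the interval `Fs ρ (s, x)`, for `s > 0` -/
noncomputable def hl (ρ : ℝ × (Fin k → ℝ) → ℝ) (ω : ℝ × (Fin k → ℝ)) : ℝ := by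
  classical exact if 0 < ω.1 then (volume (Fs ρ ω)).toReal / 2 else 0

/-- the centre of the interval `Fs ρ (s, x)` -/
noncomputable def ct (ρ : ℝ × (Fin k → ℝ) → ℝ) (ω : ℝ × (Fin k → ℝ)) : ℝ :=
  (∫ t in Fs ρ ω, t) / (2 * hl ρ ω)

theorem ZLev_hl_pos {ω : ℝ × (Fin k → ℝ)} (hω : 0 < ω.1) :
    hl ρ ω = (volume (Fs ρ ω)).toReal / 2 := by
  unfold hl
  rw [if_pos hω]

theorem ZLev_hl_zero {ω : ℝ × (Fin k → ℝ)} (hω : ¬ 0 < ω.1) : hl ρ ω = 0 := by
  unfold hl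
  rw [if_neg hω]

theorem ZLev_pos_of_hl {ω : ℝ × (Fin k → ℝ)} (hω : hl ρ ω ≠ 0) : 0 < ω.1 := by
  by_contra h
  exact hω (ZLev_hl_zero h)

theorem ZLev_measSet (h : Dat k ρ B C) :
    MeasurableSet {p : (ℝ × (Fin k → ℝ)) × ℝ | p.1.1 < ρ (p.2, p.1.2)} := by
  have hm : Measurable fun p : (ℝ × (Fin k → ℝ)) × ℝ => ρ (p.2, p.1.2) :=
    h.meas.comp (measurable_snd.prodMk (measurable_snd.comp measurable_fst))
  exact measurableSet_lt (measurable_fst.comp measurable_fst) hm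

theorem ZLev_measFs (h : Dat k ρ B C) (ω : ℝ × (Fin k → ℝ)) : MeasurableSet (Fs ρ ω) := by
  have hm : Measurable fun t : ℝ => ρ (t, ω.2) :=
    h.meas.comp (measurable_id.prodMk measurable_const)
  exact measurableSet_lt measurable_const hm

theorem ZLev_sub (h : Dat k ρ B C) {ω : ℝ × (Fin k → ℝ)} (hω : 0 < ω.1) :
    Fs ρ ω ⊆ Icc (-|B|) |B| := by
  intro t ht
  have ht' : ω.1 < ρ (t, ω.2) := ht
  have h1 : |t| ≤ B := (h.supp (t, ω.2) (by linarith : (0 : ℝ) < ρ (t, ω.2)).ne').1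
  exact abs_le.1 (h1.trans (le_abs_self B))

theorem ZLev_vol_lt_top (h : Dat k ρ B C) {ω : ℝ × (Fin k → ℝ)} (hω : 0 < ω.1) :
    volume (Fs ρ ω) < ⊤ := by
  refine (measure_mono (ZLev_sub h hω)).trans_lt ?_
  rw [Real.volume_Icc]
  exact ENNReal.ofReal_lt_top

theorem measurable_hl (h : Dat k ρ B C) : Measurable (hl ρ) := by
  have h1 : Measurable fun ω : ℝ × (Fin k → ℝ) => volume (Fs ρ ω) :=
    measurable_measure_prodMk_left (ν := (volume : Measure ℝ)) (ZLev_measSet h)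
  unfold hl
  exact Measurable.ite (measurableSet_lt measurable_const measurable_fst)
    (h1.ennreal_toReal.div_const 2) measurable_const

theorem measurable_ct (h : Dat k ρ B C) : Measurable (ct ρ) := by
  have h1 : Measurable fun ω : ℝ × (Fin k → ℝ) => ∫ t in Fs ρ ω, t := by
    have h2 : StronglyMeasurable fun ω : ℝ × (Fin k → ℝ) =>
        ∫ t, ({p : (ℝ × (Fin k → ℝ)) × ℝ | p.1.1 < ρ (p.2, p.1.2)}.indicator
          (fun p => p.2)) (ω, t) := by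
      refine StronglyMeasurable.integral_prod_right
        (f := fun ω t => ({p : (ℝ × (Fin k → ℝ)) × ℝ | p.1.1 < ρ (p.2, p.1.2)}.indicator
          (fun p => p.2)) (ω, t)) ?_
      exact (measurable_snd.indicator (ZLev_measSet h)).stronglyMeasurable
    have h3 : (fun ω : ℝ × (Fin k → ℝ) => ∫ t in Fs ρ ω, t) = fun ω : ℝ × (Fin k → ℝ) =>
        ∫ t, ({p : (ℝ × (Fin k → ℝ)) × ℝ | p.1.1 < ρ (p.2, p.1.2)}.indicator
          (fun p => p.2)) (ω, t) := by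
      funext ω
      rw [← integral_indicator (ZLev_measFs h ω)]
      refine integral_congr_ae (Filter.Eventually.of_forall fun t => ?_)
      simp only [indicator, mem_ofPred_eq, Fs]
    rw [h3]
    exact h2.measurable
  exact h1.div ((measurable_hl h).const_mul 2)

theorem hl_nonneg (ω : ℝ × (Fin k → ℝ)) : 0 ≤ hl ρ ω := by
  by_cases h : 0 < ω.1
  · rw [ZLev_hl_pos h]
    positivity
  · rw [ZLev_hl_zero h]

theorem hl_le (h : Dat k ρ B C) (ω : ℝ × (Fin k → ℝ)) : hl ρ ω ≤ |B| := by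
  by_cases hω : 0 < ω.1
  · rw [ZLev_hl_pos hω]
    have h1 : (volume (Fs ρ ω)).toReal ≤ (volume (Icc (-|B|) |B|)).toReal :=
      ENNReal.toReal_mono (by rw [Real.volume_Icc]; exact ENNReal.ofReal_ne_top)
        (measure_mono (ZLev_sub h hω))
    rw [Real.volume_Icc, ENNReal.toReal_ofReal (by linarith [abs_nonneg B])] at h1
    linarith
  · rw [ZLev_hl_zero hω]
    exact abs_nonneg B

theorem abs_ct_le (h : Dat k ρ B C) (ω : ℝ × (Fin k → ℝ)) : |ct ρ ω| ≤ |B| := by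
  rcases (hl_nonneg (ρ := ρ) ω).eq_or_lt with h0 | h0
  · unfold ct
    rw [← h0, mul_zero, div_zero, abs_zero]
    exact abs_nonneg B
  · have hω := ZLev_pos_of_hl h0.ne'
    have h1 : ‖∫ t in Fs ρ ω, t‖ ≤ |B| * (volume : Measure ℝ).real (Fs ρ ω) :=
      norm_setIntegral_le_of_norm_le_const (ZLev_vol_lt_top h hω) (fun t ht => by
        rw [Real.norm_eq_abs]
        exact abs_le.2 (ZLev_sub h hω ht))
    have h2 : (volume : Measure ℝ).real (Fs ρ ω) = 2 * hl ρ ω := by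
      rw [ZLev_hl_pos hω, Measure.real]
      ring
    rw [h2, Real.norm_eq_abs] at h1
    unfold ct
    rw [abs_div, abs_of_pos (by linarith : 0 < 2 * hl ρ ω), div_le_iff₀ (by linarith)]
    exact h1

theorem vol_hl (h : Dat k ρ B C) : volume {ω | hl ρ ω ≠ 0} ≠ ⊤ := by
  have hsub : {ω | hl ρ ω ≠ 0} ⊆
      Icc ((0 : ℝ), fun _ : Fin k => -|B|) (C, fun _ : Fin k => |B|) := by
    intro ω hω
    have hω' : hl ρ ω ≠ 0 := hω
    have h0 := ZLev_pos_of_hl hω'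
    rw [ZLev_hl_pos h0] at hω'
    have hne : (Fs ρ ω).Nonempty := by
      rw [nonempty_iff_ne_empty]
      intro he
      apply hω'
      rw [he, measure_empty, ENNReal.toReal_zero, zero_div]
    obtain ⟨t, ht⟩ := hne
    have ht' : ω.1 < ρ (t, ω.2) := ht
    have h2 := (h.supp (t, ω.2) (h0.trans ht').ne').2
    have h3 : ω.1 ≤ C := ht'.le.trans (h.bdd _)
    refine ⟨⟨h0.le, fun i => ?_⟩, ⟨h3, fun i => ?_⟩⟩
    · exact (abs_le.1 ((h2 i).trans (le_abs_self B))).1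
    · exact (abs_le.1 ((h2 i).trans (le_abs_self B))).2
  exact ((measure_mono hsub).trans_lt isCompact_Icc.measure_lt_top).ne

theorem ZLev_conv (h : Dat k ρ B C) {ω : ℝ × (Fin k → ℝ)} (hω : 0 < ω.1) :
    Convex ℝ (Fs ρ ω) := by
  intro t ht t' ht' a b ha hb hab
  have h1 := (h.logc.level hω) (x := (t, ω.2)) ht (y := (t', ω.2)) ht' ha hb hab
  have h2 : a • (t, ω.2) + b • (t', ω.2) = (a • t + b • t', ω.2) := by
    rw [Prod.smul_mk, Prod.smul_mk, Prod.mk_add_mk, ← add_smul, hab, one_smul]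
  rw [h2] at h1
  exact h1

theorem Fs_between (h : Dat k ρ B C) {ω : ℝ × (Fin k → ℝ)} (hω : 0 < hl ρ ω) :
    Ioo (ct ρ ω - hl ρ ω) (ct ρ ω + hl ρ ω) ⊆ Fs ρ ω ∧
      Fs ρ ω ⊆ Icc (ct ρ ω - hl ρ ω) (ct ρ ω + hl ρ ω) := by
  have h0 := ZLev_pos_of_hl hω.ne'
  have hb : BddBelow (Fs ρ ω) := ⟨-|B|, fun t ht => (ZLev_sub h h0 ht).1⟩
  have ha : BddAbove (Fs ρ ω) := ⟨|B|, fun t ht => (ZLev_sub h h0 ht).2⟩
  have hne : (Fs ρ ω).Nonempty := by
    rw [nonempty_iff_ne_empty]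
    intro he
    rw [ZLev_hl_pos h0, he, measure_empty, ENNReal.toReal_zero, zero_div] at hω
    exact lt_irrefl _ hω
  have h1 : Ioo (sInf (Fs ρ ω)) (sSup (Fs ρ ω)) ⊆ Fs ρ ω :=
    IsConnected.Ioo_csInf_csSup_subset ⟨hne, (ZLev_conv h h0).isPreconnected⟩ hb ha
  have h2 : Fs ρ ω ⊆ Icc (sInf (Fs ρ ω)) (sSup (Fs ρ ω)) := subset_Icc_csInf_csSup hb ha
  have huv : sInf (Fs ρ ω) ≤ sSup (Fs ρ ω) := csInf_le_csSup hne hb ha
  generalize sInf (Fs ρ ω) = u at h1 h2 huv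
  generalize sSup (Fs ρ ω) = v at h1 h2 huv
  have hae : (Fs ρ ω : Set ℝ) =ᵐ[volume] Ioc u v := by
    have h3 : (Ioo u v : Set ℝ) =ᵐ[volume] Icc u v := Ioo_ae_eq_Icc
    have h4 : (Ioc u v : Set ℝ) =ᵐ[volume] Icc u v := Ioc_ae_eq_Icc
    refine Filter.EventuallyEq.trans ?_ h4.symm
    filter_upwards [h3] with t ht
    have ht' : (t ∈ Ioo u v) = (t ∈ Icc u v) := ht
    change (t ∈ Fs ρ ω) = (t ∈ Icc u v)
    exact propext ⟨fun h5 => h2 h5, fun h5 => h1 (ht' ▸ h5)⟩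
  have hvol : hl ρ ω = (v - u) / 2 := by
    rw [ZLev_hl_pos h0, measure_congr hae, Real.volume_Ioc, ENNReal.toReal_ofReal (by linarith)]
  have hint : ∫ t in Fs ρ ω, t = (v ^ 2 - u ^ 2) / 2 := by
    rw [setIntegral_congr_set hae, ← intervalIntegral.integral_of_le huv, integral_id]
  have hct : ct ρ ω = (u + v) / 2 := by
    unfold ct
    have h3 : 2 * hl ρ ω = v - u := by rw [hvol]; ring
    have h4 : 0 < v - u := by linarith
    rw [hint, h3, div_eq_iff h4.ne']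
    ring
  have e1 : ct ρ ω - hl ρ ω = u := by rw [hct, hvol]; ring
  have e2 : ct ρ ω + hl ρ ω = v := by rw [hct, hvol]; ring
  rw [e1, e2]
  exact ⟨h1, h2⟩

theorem ZLev_Fs_neg (h : Dat k ρ B C) (s : ℝ) (x : Fin k → ℝ) :
    Fs ρ (s, -x) = -Fs ρ (s, x) := by
  ext t
  change s < ρ (t, -x) ↔ s < ρ (-t, x)
  have h1 : ρ (t, -x) = ρ (-t, x) := by
    rw [← h.even (t, -x), Prod.neg_mk, neg_neg]
  rw [h1]

theorem hl_neg (h : Dat k ρ B C) (s : ℝ) (x : Fin k → ℝ) : hl ρ (s, -x) = hl ρ (s, x) := by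
  by_cases hs : 0 < s
  · rw [ZLev_hl_pos (ω := (s, -x)) hs, ZLev_hl_pos (ω := (s, x)) hs, ZLev_Fs_neg h,
      Measure.measure_neg]
  · rw [ZLev_hl_zero (ω := (s, -x)) hs, ZLev_hl_zero (ω := (s, x)) hs]

theorem ct_neg (h : Dat k ρ B C) (s : ℝ) (x : Fin k → ℝ) : ct ρ (s, -x) = -ct ρ (s, x) := by
  have h1 : ∫ t in Fs ρ (s, -x), t = -∫ t in Fs ρ (s, x), t := by
    rw [← integral_indicator (ZLev_measFs h (s, -x)), ← integral_indicator (ZLev_measFs h (s, x)),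
      ← integral_neg_eq_self, ← integral_neg]
    refine integral_congr_ae (Filter.Eventually.of_forall fun t => ?_)
    change (Fs ρ (s, -x)).indicator (fun t => t) (-t) = -(Fs ρ (s, x)).indicator (fun t => t) t
    rw [ZLev_Fs_neg h]
    by_cases ht : t ∈ Fs ρ (s, x)
    · rw [indicator_of_mem ht, indicator_of_mem (by simpa using ht)]
    · rw [indicator_of_notMem ht, indicator_of_notMem (by simpa using ht), neg_zero]
  unfold ct
  rw [h1, hl_neg h, neg_div]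

/-- the fibre over `τ x` contains the interval with centre `τ a` and half-length `c` -/
theorem tau_mem (h : Dat k ρ B C) {ω : ℝ × (Fin k → ℝ)} (hω : 0 < hl ρ ω) {τ t : ℝ}
    (h0 : 0 ≤ τ) (h1 : τ ≤ 1) (ht : |t - τ * ct ρ ω| < hl ρ ω) : ω.1 < ρ (t, τ • ω.2) := by
  have hpos := ZLev_pos_of_hl hω.ne'
  obtain ⟨hb, -⟩ := Fs_between h hω
  obtain ⟨hd1, hd2⟩ := abs_lt.1 ht
  have m1 : ω.1 < ρ (ct ρ ω + (t - τ * ct ρ ω), ω.2) := hb ⟨by linarith, by linarith⟩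
  have m2 : ω.1 < ρ (ct ρ ω - (t - τ * ct ρ ω), ω.2) := hb ⟨by linarith, by linarith⟩
  have m3 : ω.1 < ρ (-(ct ρ ω - (t - τ * ct ρ ω)), -ω.2) := by
    rw [← Prod.neg_mk, h.even]
    exact m2
  have h2 := (h.logc.level hpos) (x := (ct ρ ω + (t - τ * ct ρ ω), ω.2)) m1
    (y := (-(ct ρ ω - (t - τ * ct ρ ω)), -ω.2)) m3
    (a := (1 + τ) / 2) (b := (1 - τ) / 2) (by linarith) (by linarith) (by ring)
  have h3 : ((1 + τ) / 2) • ((ct ρ ω + (t - τ * ct ρ ω), ω.2) : ℝ × (Fin k → ℝ)) +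
      ((1 - τ) / 2) • ((-(ct ρ ω - (t - τ * ct ρ ω)), -ω.2) : ℝ × (Fin k → ℝ)) =
      (t, τ • ω.2) := by
    rw [Prod.smul_mk, Prod.smul_mk, Prod.mk_add_mk]
    refine Prod.ext ?_ ?_
    · change (1 + τ) / 2 * (ct ρ ω + (t - τ * ct ρ ω)) +
        (1 - τ) / 2 * (-(ct ρ ω - (t - τ * ct ρ ω))) = t
      ring
    · change ((1 + τ) / 2) • ω.2 + ((1 - τ) / 2) • (-ω.2) = τ • ω.2
      rw [smul_neg, ← sub_eq_add_neg, ← sub_smul]
      congr 1
      ring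
  rw [h3] at h2
  exact h2

end Pool.Agent.Lib.MP_b0d2bf_gt.HP
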