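import Mathlib
import Pool.Agent.Lib.MP_b0d2bf_gt.ZLev

set_option autoImplicit false

/-!
Layer cake formula, and the function `W`.
-/

namespace Pool.Agent.Lib.MP_b0d2bf_gt.HP

open MeasureTheory Set

variable {k : ℕ} {ρ : ℝ × (Fin k → ℝ) → ℝ} {B C : ℝ}

/-- the indicator function of `0 < s < ρ (t, x)` -/
private noncomputable def zI (ρ : ℝ × (Fin k → ℝ) → ℝ) (ω : ℝ × (Fin k → ℝ)) (t : ℝ) : ENNReal :=
  (Ioo 0 (ρ (t, ω.2))).indicator 1 ω.1

private theorem measurable_zI (h : Dat k ρ B C) :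
    Measurable fun p : (ℝ × (Fin k → ℝ)) × ℝ => zI ρ p.1 p.2 := by
  have hm : Measurable fun p : (ℝ × (Fin k → ℝ)) × ℝ => ρ (p.2, p.1.2) :=
    h.meas.comp (measurable_snd.prodMk (measurable_snd.comp measurable_fst))
  have hS : MeasurableSet {p : (ℝ × (Fin k → ℝ)) × ℝ | 0 < p.1.1 ∧ p.1.1 < ρ (p.2, p.1.2)} :=
    (measurableSet_lt measurable_const (measurable_fst.comp measurable_fst)).inter
      (measurableSet_lt (measurable_fst.comp measurable_fst) hm)
  have : (fun p : (ℝ × (Fin k → ℝ)) × ℝ => zI ρ p.1 p.2) =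
      {p : (ℝ × (Fin k → ℝ)) × ℝ | 0 < p.1.1 ∧ p.1.1 < ρ (p.2, p.1.2)}.indicator
        (fun _ => (1 : ENNReal)) := by
    funext p
    unfold zI
    by_cases hp : 0 < p.1.1 ∧ p.1.1 < ρ (p.2, p.1.2)
    · rw [indicator_of_mem (show p.1.1 ∈ Ioo 0 (ρ (p.2, p.1.2)) from hp),
        indicator_of_mem (show p ∈ {p : (ℝ × (Fin k → ℝ)) × ℝ | 0 < p.1.1 ∧
          p.1.1 < ρ (p.2, p.1.2)} from hp)]
      rfl
    · rw [indicator_of_notMem (show p.1.1 ∉ Ioo 0 (ρ (p.2, p.1.2)) from hp),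
        indicator_of_notMem (show p ∉ {p : (ℝ × (Fin k → ℝ)) × ℝ | 0 < p.1.1 ∧
          p.1.1 < ρ (p.2, p.1.2)} from hp)]
  rw [this]
  exact measurable_const.indicator hS

private theorem lint_zI (x : Fin k → ℝ) (t : ℝ) :
    ∫⁻ s, zI ρ (s, x) t = ENNReal.ofReal (ρ (t, x)) := by
  unfold zI
  change ∫⁻ s, (Ioo 0 (ρ (t, x))).indicator 1 s = _
  rw [lintegral_indicator_one measurableSet_Ioo, Real.volume_Ioo, sub_zero]

private theorem hl_of_le {ω : ℝ × (Fin k → ℝ)} (hω : ω.1 ≤ 0) : hl ρ ω = 0 := by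
  unfold hl
  rw [if_neg (not_lt.mpr hω)]

private theorem hl_of_pos {ω : ℝ × (Fin k → ℝ)} (hω : 0 < ω.1) :
    hl ρ ω = (volume (Fs ρ ω)).toReal / 2 := by
  unfold hl
  rw [if_pos hω]

private theorem pos_of_hl {ω : ℝ × (Fin k → ℝ)} (hω : 0 < hl ρ ω) : 0 < ω.1 := by
  by_contra hc
  rw [hl_of_le (not_lt.mp hc)] at hω
  exact lt_irrefl _ hω

private theorem meas_Fs (h : Dat k ρ B C) (ω : ℝ × (Fin k → ℝ)) : MeasurableSet (Fs ρ ω) :=
  measurableSet_lt measurable_const (h.meas.comp (measurable_id.prodMk measurable_const))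

private theorem vol_Fs (h : Dat k ρ B C) {ω : ℝ × (Fin k → ℝ)} (hω : 0 < ω.1) :
    volume (Fs ρ ω) ≠ ⊤ := by
  have h1 : Fs ρ ω ⊆ Icc (-B) B := by
    intro t ht
    have h2 : ω.1 < ρ (t, ω.2) := ht
    exact abs_le.mp (h.supp (t, ω.2) (by linarith)).1
  exact ((measure_mono h1).trans_lt (by simp)).ne

private theorem Ioo_self0 {a c : ℝ} (hc : c = 0) : Ioo (a - c) (a + c) = ∅ := by
  rw [hc, sub_zero, add_zero, Ioo_self]

/-- the key formula on the fibres -/
private theorem lint_Fs (h : Dat k ρ B C) (ω : ℝ × (Fin k → ℝ)) (g : ℝ → ENNReal) :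
    ∫⁻ t in Ioo (ct ρ ω - hl ρ ω) (ct ρ ω + hl ρ ω), g t = ∫⁻ t, zI ρ ω t * g t := by
  by_cases hs : 0 < ω.1
  · have h1 : ∫⁻ t, zI ρ ω t * g t = ∫⁻ t in Fs ρ ω, g t := by
      rw [← lintegral_indicator (meas_Fs h ω)]
      refine lintegral_congr fun t => ?_
      unfold zI
      by_cases ht : ω.1 < ρ (t, ω.2)
      · rw [indicator_of_mem (show ω.1 ∈ Ioo 0 (ρ (t, ω.2)) from ⟨hs, ht⟩),
          indicator_of_mem (show t ∈ Fs ρ ω from ht)]
        simp
      · rw [indicator_of_notMem (show ω.1 ∉ Ioo 0 (ρ (t, ω.2)) from fun hh => ht hh.2),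
          indicator_of_notMem (show t ∉ Fs ρ ω from ht), zero_mul]
    rw [h1]
    rcases (hl_nonneg (ρ := ρ) ω).eq_or_lt with h0 | h0
    · rw [Ioo_self0 h0.symm]
      have h2 := h0.symm
      rw [hl_of_pos hs] at h2
      have h3 : volume (Fs ρ ω) = 0 := by
        have h4 : (volume (Fs ρ ω)).toReal = 0 := by linarith
        rcases (ENNReal.toReal_eq_zero_iff _).mp h4 with h5 | h5
        · exact h5
        · exact absurd h5 (vol_Fs h hs)
      rw [setLIntegral_measure_zero _ _ h3]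
      simp
    · obtain ⟨h2, h3⟩ := Fs_between h h0
      refine setLIntegral_congr ?_
      have h4 : (Ioo (ct ρ ω - hl ρ ω) (ct ρ ω + hl ρ ω) : Set ℝ) =ᵐ[volume]
          Icc (ct ρ ω - hl ρ ω) (ct ρ ω + hl ρ ω) := Ioo_ae_eq_Icc
      refine (Filter.EventuallyLE.antisymm h2.eventuallyLE ?_)
      exact h3.eventuallyLE.trans h4.symm.le
  · rw [Ioo_self0 (hl_of_le (not_lt.mp hs))]
    have : ∀ t, zI ρ ω t * g t = 0 := by
      intro t
      unfold zI
      rw [indicator_of_notMem (fun hh => hs hh.1), zero_mul]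
    simp [this]

private theorem meas_lint (h : Dat k ρ B C) {g : ℝ → ENNReal} (hg : Measurable g) :
    Measurable fun ω : ℝ × (Fin k → ℝ) => ∫⁻ t, zI ρ ω t * g t :=
  Measurable.lintegral_prod_right' ((measurable_zI h).mul (hg.comp measurable_snd))

private theorem meas_slice (h : Dat k ρ B C) (x : Fin k → ℝ) :
    Measurable fun p : ℝ × ℝ => zI ρ (p.1, x) p.2 :=
  (measurable_zI h).comp ((measurable_fst.prodMk measurable_const).prodMk measurable_snd)

private theorem swap_s (h : Dat k ρ B C) {g : ℝ → ENNReal} (hg : Measurable g) (x : Fin k → ℝ) :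
    ∫⁻ s, ∫⁻ t, zI ρ (s, x) t * g t = ∫⁻ t, ENNReal.ofReal (ρ (t, x)) * g t := by
  rw [lintegral_lintegral_swap]
  · refine lintegral_congr fun t => ?_
    have hm : Measurable fun s : ℝ => zI ρ (s, x) t :=
      (meas_slice h x).comp (measurable_id.prodMk measurable_const)
    rw [lintegral_mul_const _ hm, lint_zI]
  · exact ((meas_slice h x).mul (hg.comp measurable_snd)).aemeasurable

/-- layer cake -/
theorem lay (h : Dat k ρ B C) {g : ℝ → ENNReal} (hg : Measurable g) :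
    ∫⁻ z : ℝ × (Fin k → ℝ), ENNReal.ofReal (ρ z) * g z.1 =
      ∫⁻ ω : ℝ × (Fin k → ℝ), ∫⁻ t in Ioo (ct ρ ω - hl ρ ω) (ct ρ ω + hl ρ ω), g t := by
  have h1 : ∫⁻ ω : ℝ × (Fin k → ℝ), ∫⁻ t in Ioo (ct ρ ω - hl ρ ω) (ct ρ ω + hl ρ ω), g t =
      ∫⁻ ω : ℝ × (Fin k → ℝ), ∫⁻ t, zI ρ ω t * g t :=
    lintegral_congr fun ω => lint_Fs h ω g
  have h2 : Measurable fun z : ℝ × (Fin k → ℝ) => ENNReal.ofReal (ρ z) * g z.1 :=
    (ENNReal.measurable_ofReal.comp h.meas).mul (hg.comp measurable_fst)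
  rw [h1, Measure.volume_eq_prod, lintegral_prod_symm' _ (meas_lint h hg),
    lintegral_prod_symm' _ h2]
  refine lintegral_congr fun x => ?_
  exact (swap_s h hg x).symm

/-- layer cake, contracted: the mass over `τ x` -/
theorem lay_tau (h : Dat k ρ B C) {g : ℝ → ENNReal} (hg : Measurable g) {τ : ℝ} (h0 : 0 < τ)
    (h1 : τ ≤ 1) {S : Set (Fin k → ℝ)} (hS : MeasurableSet S)
    (hρS : ∀ t x, ρ (t, x) ≠ 0 → x ∈ S) :
    ENNReal.ofReal (τ ^ k) *
      ∫⁻ ω : ℝ × (Fin k → ℝ), ∫⁻ t in Ioo (τ * ct ρ ω - hl ρ ω) (τ * ct ρ ω + hl ρ ω), g t ≤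
    ∫⁻ z in {z : ℝ × (Fin k → ℝ) | τ⁻¹ • z.2 ∈ S}, ENNReal.ofReal (ρ z) * g z.1 := by
  -- the function on the side of `x`
  set K : (Fin k → ℝ) → ENNReal := fun y =>
    S.indicator (fun _ => (1 : ENNReal)) (τ⁻¹ • y) * ∫⁻ t, ENNReal.ofReal (ρ (t, y)) * g t with hK
  have hτ : τ ≠ 0 := h0.ne'
  have hKm : Measurable K := by
    refine Measurable.mul ?_ ?_
    · exact (measurable_const.indicator hS).comp (measurable_const_smul τ⁻¹)
    · refine Measurable.lintegral_prod_right' (f := fun p : (Fin k → ℝ) × ℝ =>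
        ENNReal.ofReal (ρ (p.2, p.1)) * g p.2) ?_
      exact (ENNReal.measurable_ofReal.comp (h.meas.comp (measurable_snd.prodMk measurable_fst))).mul
        (hg.comp measurable_snd)
  -- the right side
  have hR : ∫⁻ z in {z : ℝ × (Fin k → ℝ) | τ⁻¹ • z.2 ∈ S}, ENNReal.ofReal (ρ z) * g z.1 =
      ∫⁻ y, K y := by
    have hM : MeasurableSet {z : ℝ × (Fin k → ℝ) | τ⁻¹ • z.2 ∈ S} :=
      ((measurable_const_smul τ⁻¹).comp measurable_snd) hS
    have h2 : Measurable fun z : ℝ × (Fin k → ℝ) => ENNReal.ofReal (ρ z) * g z.1 :=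
      (ENNReal.measurable_ofReal.comp h.meas).mul (hg.comp measurable_fst)
    rw [← lintegral_indicator hM, Measure.volume_eq_prod, lintegral_prod_symm' _ (h2.indicator hM)]
    refine lintegral_congr fun y => ?_
    by_cases hy : τ⁻¹ • y ∈ S
    · rw [hK]
      simp only
      rw [indicator_of_mem hy, one_mul]
      refine lintegral_congr fun t => ?_
      rw [indicator_of_mem (show ((t, y) : ℝ × (Fin k → ℝ)) ∈
        {z : ℝ × (Fin k → ℝ) | τ⁻¹ • z.2 ∈ S} from hy)]
    · rw [hK]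
      simp only
      rw [indicator_of_notMem hy, zero_mul, ← lintegral_zero (μ := (volume : Measure ℝ))]
      refine lintegral_congr fun t => ?_
      rw [indicator_of_notMem (show ((t, y) : ℝ × (Fin k → ℝ)) ∉
        {z : ℝ × (Fin k → ℝ) | τ⁻¹ • z.2 ∈ S} from hy)]
  -- scaling
  have hsc : ENNReal.ofReal (τ ^ k) * ∫⁻ x, K (τ • x) = ∫⁻ y, K y := by
    have h3 : ∫⁻ x, K (τ • x) = ENNReal.ofReal |(τ ^ k)⁻¹| * ∫⁻ y, K y := by
      have h4 := Measure.map_addHaar_smul (volume : Measure (Fin k → ℝ)) hτ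
      rw [Module.finrank_fintype_fun_eq_card, Fintype.card_fin] at h4
      rw [← lintegral_map hKm (measurable_const_smul τ), h4, lintegral_smul_measure, smul_eq_mul]
    rw [h3, ← mul_assoc, ← ENNReal.ofReal_mul (by positivity), abs_of_pos (by positivity),
      mul_inv_cancel₀ (by positivity), ENNReal.ofReal_one, one_mul]
  rw [hR, ← hsc]
  refine mul_le_mul_right ?_ _
  -- the left side
  have hL : ∀ ω : ℝ × (Fin k → ℝ),
      ∫⁻ t in Ioo (τ * ct ρ ω - hl ρ ω) (τ * ct ρ ω + hl ρ ω), g t ≤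
        S.indicator (fun _ => (1 : ENNReal)) ω.2 * ∫⁻ t, zI ρ (ω.1, τ • ω.2) t * g t := by
    intro ω
    rcases (hl_nonneg (ρ := ρ) ω).eq_or_lt with hz | hz
    · rw [Ioo_self0 hz.symm]
      simp
    · have hs := pos_of_hl hz
      have hx : ω.2 ∈ S := by
        have h5 : ct ρ ω ∈ Fs ρ ω := (Fs_between h hz).1 ⟨by linarith, by linarith⟩
        have h6 : ω.1 < ρ (ct ρ ω, ω.2) := h5
        exact hρS (ct ρ ω) ω.2 (by linarith)
      rw [indicator_of_mem hx, one_mul, ← lintegral_indicator measurableSet_Ioo]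
      refine lintegral_mono fun t => ?_
      by_cases ht : t ∈ Ioo (τ * ct ρ ω - hl ρ ω) (τ * ct ρ ω + hl ρ ω)
      · rw [indicator_of_mem ht]
        have h7 : ω.1 < ρ (t, τ • ω.2) :=
          tau_mem h hz h0.le h1 (abs_lt.mpr ⟨by linarith [ht.1], by linarith [ht.2]⟩)
        unfold zI
        rw [indicator_of_mem (show ω.1 ∈ Ioo 0 (ρ (t, τ • ω.2)) from ⟨hs, h7⟩)]
        simp
      · rw [indicator_of_notMem ht]
        exact zero_le
  refine (lintegral_mono hL).trans (le_of_eq ?_)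
  have hLm : Measurable fun ω : ℝ × (Fin k → ℝ) =>
      S.indicator (fun _ => (1 : ENNReal)) ω.2 * ∫⁻ t, zI ρ (ω.1, τ • ω.2) t * g t := by
    refine Measurable.mul ((measurable_const.indicator hS).comp measurable_snd) ?_
    exact (meas_lint h hg).comp
      (measurable_fst.prodMk ((measurable_const_smul τ).comp measurable_snd))
  rw [Measure.volume_eq_prod, lintegral_prod_symm' _ hLm]
  refine lintegral_congr fun x => ?_
  simp only [hK]
  have hm1 : Measurable fun s : ℝ => ∫⁻ t, zI ρ (s, τ • x) t * g t :=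
    (meas_lint h hg).comp (measurable_id.prodMk measurable_const)
  rw [lintegral_const_mul _ hm1, swap_s h hg, smul_smul, inv_mul_cancel₀ hτ, one_smul]

/-- the integrand of `W` -/
private noncomputable def zG (ρ : ℝ × (Fin k → ℝ) → ℝ) (r : ℝ) (x : Fin k → ℝ) (u v : ℝ) : ℝ :=
  {z : ℝ × ℝ | z.1 ≤ r ∧ r ≤ z.2}.indicator (fun z => min (ρ (z.1, x)) (ρ (z.2, x))) (u, v)

private theorem zG_of_mem {r u v : ℝ} (h : u ≤ r ∧ r ≤ v) (x : Fin k → ℝ) :
    zG ρ r x u v = min (ρ (u, x)) (ρ (v, x)) := by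
  unfold zG
  rw [indicator_of_mem (show ((u, v) : ℝ × ℝ) ∈ {z : ℝ × ℝ | z.1 ≤ r ∧ r ≤ z.2} from h)]

private theorem zG_of_notMem {r u v : ℝ} (h : ¬ (u ≤ r ∧ r ≤ v)) (x : Fin k → ℝ) :
    zG ρ r x u v = 0 := by
  unfold zG
  rw [indicator_of_notMem (show ((u, v) : ℝ × ℝ) ∉ {z : ℝ × ℝ | z.1 ≤ r ∧ r ≤ z.2} from h)]

private theorem zG_nonneg (h : Dat k ρ B C) (r : ℝ) (x : Fin k → ℝ) (u v : ℝ) :
    0 ≤ zG ρ r x u v := by
  by_cases hh : u ≤ r ∧ r ≤ v
  · rw [zG_of_mem hh]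
    exact le_min (h.logc.nonneg _) (h.logc.nonneg _)
  · rw [zG_of_notMem hh]

private theorem zC_nonneg (h : Dat k ρ B C) : 0 ≤ C := (h.logc.nonneg 0).trans (h.bdd 0)

private theorem zG_le (h : Dat k ρ B C) (r : ℝ) (x : Fin k → ℝ) (u v : ℝ) :
    zG ρ r x u v ≤ C := by
  by_cases hh : u ≤ r ∧ r ≤ v
  · rw [zG_of_mem hh]
    exact (min_le_left _ _).trans (h.bdd _)
  · rw [zG_of_notMem hh]
    exact zC_nonneg h

private theorem zG_supp (h : Dat k ρ B C) {r : ℝ} {x : Fin k → ℝ} {u v : ℝ}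
    (hz : zG ρ r x u v ≠ 0) : |u| ≤ B ∧ |v| ≤ B ∧ ∀ i, |x i| ≤ B := by
  by_cases hh : u ≤ r ∧ r ≤ v
  · rw [zG_of_mem hh] at hz
    have h1 : ρ (u, x) ≠ 0 := by
      intro h2
      rw [h2] at hz
      exact hz (min_eq_left (h.logc.nonneg _))
    have h3 : ρ (v, x) ≠ 0 := by
      intro h2
      rw [h2] at hz
      exact hz (min_eq_right (h.logc.nonneg _))
    exact ⟨(h.supp _ h1).1, (h.supp _ h3).1, (h.supp _ h1).2⟩
  · exact absurd (zG_of_notMem hh x) hz

private theorem zG_meas (h : Dat k ρ B C) (r : ℝ) :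
    Measurable fun p : ((Fin k → ℝ) × ℝ) × ℝ => zG ρ r p.1.1 p.1.2 p.2 := by
  have h1 : Measurable fun p : ((Fin k → ℝ) × ℝ) × ℝ => ρ (p.1.2, p.1.1) :=
    h.meas.comp ((measurable_snd.comp measurable_fst).prodMk (measurable_fst.comp measurable_fst))
  have h2 : Measurable fun p : ((Fin k → ℝ) × ℝ) × ℝ => ρ (p.2, p.1.1) :=
    h.meas.comp (measurable_snd.prodMk (measurable_fst.comp measurable_fst))
  have hS : MeasurableSet {p : ((Fin k → ℝ) × ℝ) × ℝ | p.1.2 ≤ r ∧ r ≤ p.2} :=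
    (measurableSet_le (measurable_snd.comp measurable_fst) measurable_const).inter
      (measurableSet_le measurable_const measurable_snd)
  have : (fun p : ((Fin k → ℝ) × ℝ) × ℝ => zG ρ r p.1.1 p.1.2 p.2) =
      {p : ((Fin k → ℝ) × ℝ) × ℝ | p.1.2 ≤ r ∧ r ≤ p.2}.indicator
        (fun p => min (ρ (p.1.2, p.1.1)) (ρ (p.2, p.1.1))) := by
    funext p
    by_cases hp : p.1.2 ≤ r ∧ r ≤ p.2
    · rw [zG_of_mem hp, indicator_of_mem
        (show p ∈ {p : ((Fin k → ℝ) × ℝ) × ℝ | p.1.2 ≤ r ∧ r ≤ p.2} from hp)]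
    · rw [zG_of_notMem hp, indicator_of_notMem
        (show p ∉ {p : ((Fin k → ℝ) × ℝ) × ℝ | p.1.2 ≤ r ∧ r ≤ p.2} from hp)]
  rw [this]
  exact (h1.min h2).indicator hS

private theorem zlay_ww {a c r : ℝ} :
    ENNReal.ofReal (ww r (a - c) (a + c)) =
      (∫⁻ t in Ioo (a - c) (a + c), (Iic r).indicator 1 t) *
        (∫⁻ t in Ioo (a - c) (a + c), (Ici r).indicator 1 t) := by
  rw [lintegral_indicator_one measurableSet_Iic, lintegral_indicator_one measurableSet_Ici,
    Measure.restrict_apply measurableSet_Iic, Measure.restrict_apply measurableSet_Ici]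
  unfold ww
  rcases le_or_gt r (a - c) with h1 | h1
  · have h2 : Iic r ∩ Ioo (a - c) (a + c) = ∅ := by
      ext t
      simp only [mem_inter_iff, mem_Iic, mem_Ioo, mem_empty_iff_false, iff_false]
      intro ht
      linarith [ht.1, ht.2.1]
    rw [h2, max_eq_right (show r - (a - c) ≤ 0 by linarith), mul_zero, ENNReal.ofReal_zero,
      measure_empty, zero_mul]
  · rcases le_or_gt (a + c) r with h3 | h3
    · have h2 : Ici r ∩ Ioo (a - c) (a + c) = ∅ := by
        ext t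
        simp only [mem_inter_iff, mem_Ici, mem_Ioo, mem_empty_iff_false, iff_false]
        intro ht
        linarith [ht.1, ht.2.2]
      rw [h2, max_eq_right (show a + c - r ≤ 0 by linarith), zero_mul, ENNReal.ofReal_zero,
        measure_empty, mul_zero]
    · have h4 : Iic r ∩ Ioo (a - c) (a + c) = Ioc (a - c) r := by
        ext t
        simp only [mem_inter_iff, mem_Iic, mem_Ioo, mem_Ioc]
        constructor
        · rintro ⟨h5, h6, h7⟩
          exact ⟨h6, h5⟩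
        · rintro ⟨h5, h6⟩
          exact ⟨h6, h5, by linarith⟩
      have h5 : Ici r ∩ Ioo (a - c) (a + c) = Ico r (a + c) := by
        ext t
        simp only [mem_inter_iff, mem_Ici, mem_Ioo, mem_Ico]
        constructor
        · rintro ⟨h5, h6, h7⟩
          exact ⟨h5, h7⟩
        · rintro ⟨h5, h6⟩
          exact ⟨h5, by linarith, h6⟩
      rw [h4, h5, Real.volume_Ioc, Real.volume_Ico, max_eq_left (by linarith),
        max_eq_left (by linarith), mul_comm, ENNReal.ofReal_mul (by linarith)]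

private theorem lint_zI2 (r : ℝ) (x : Fin k → ℝ) (u v : ℝ) :
    ∫⁻ s, zI ρ (s, x) u * (Iic r).indicator 1 u * (zI ρ (s, x) v * (Ici r).indicator 1 v) =
      ENNReal.ofReal (zG ρ r x u v) := by
  by_cases hh : u ≤ r ∧ r ≤ v
  · rw [zG_of_mem hh, indicator_of_mem (show u ∈ Iic r from hh.1),
      indicator_of_mem (show v ∈ Ici r from hh.2)]
    have h1 : ∀ s, zI ρ (s, x) u * (1 : ℝ → ENNReal) u * (zI ρ (s, x) v * (1 : ℝ → ENNReal) v) =
        (Ioo 0 (min (ρ (u, x)) (ρ (v, x)))).indicator 1 s := by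
      intro s
      simp only [Pi.one_apply, mul_one]
      unfold zI
      by_cases h2 : s ∈ Ioo 0 (ρ (u, x))
      · by_cases h3 : s ∈ Ioo 0 (ρ (v, x))
        · rw [indicator_of_mem (show s ∈ Ioo 0 (min (ρ (u, x)) (ρ (v, x))) from
            ⟨h2.1, lt_min h2.2 h3.2⟩)]
          simp only
          rw [indicator_of_mem h2, indicator_of_mem h3]
          simp
        · rw [indicator_of_notMem (show s ∉ Ioo 0 (min (ρ (u, x)) (ρ (v, x))) from
            fun h4 => h3 ⟨h4.1, h4.2.trans_le (min_le_right _ _)⟩)]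
          simp only
          rw [indicator_of_notMem h3, mul_zero]
      · rw [indicator_of_notMem (show s ∉ Ioo 0 (min (ρ (u, x)) (ρ (v, x))) from
            fun h4 => h2 ⟨h4.1, h4.2.trans_le (min_le_left _ _)⟩)]
        simp only
        rw [indicator_of_notMem h2, zero_mul]
    rw [lintegral_congr h1, lintegral_indicator_one measurableSet_Ioo, Real.volume_Ioo, sub_zero]
  · rw [zG_of_notMem hh, ENNReal.ofReal_zero, ← lintegral_zero (μ := (volume : Measure ℝ))]
    refine lintegral_congr fun s => ?_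
    by_cases h1 : u ≤ r
    · rw [indicator_of_notMem (show v ∉ Ici r from fun h2 => hh ⟨h1, h2⟩)]
      simp
    · rw [indicator_of_notMem (show u ∉ Iic r from fun h2 => h1 h2)]
      simp

private theorem meas_P (h : Dat k ρ B C) (r : ℝ) :
    Measurable fun p : ((ℝ × (Fin k → ℝ)) × ℝ) × ℝ =>
      zI ρ p.1.1 p.1.2 * (Iic r).indicator 1 p.1.2 *
        (zI ρ p.1.1 p.2 * (Ici r).indicator 1 p.2) := by
  have h1 : Measurable fun p : ((ℝ × (Fin k → ℝ)) × ℝ) × ℝ => zI ρ p.1.1 p.1.2 :=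
    (measurable_zI h).comp measurable_fst
  have h2 : Measurable fun p : ((ℝ × (Fin k → ℝ)) × ℝ) × ℝ => zI ρ p.1.1 p.2 :=
    (measurable_zI h).comp ((measurable_fst.comp measurable_fst).prodMk measurable_snd)
  have h3 : Measurable fun t : ℝ => (Iic r).indicator (1 : ℝ → ENNReal) t :=
    measurable_one.indicator measurableSet_Iic
  have h4 : Measurable fun t : ℝ => (Ici r).indicator (1 : ℝ → ENNReal) t :=
    measurable_one.indicator measurableSet_Ici
  exact (h1.mul (h3.comp (measurable_snd.comp measurable_fst))).mul (h2.mul (h4.comp measurable_snd))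

private theorem meas_ww (h : Dat k ρ B C) (r : ℝ) :
    Measurable fun ω => ww r (ct ρ ω - hl ρ ω) (ct ρ ω + hl ρ ω) := by
  have hlm := measurable_hl h
  have hcm := measurable_ct h
  unfold ww
  exact (((hcm.add hlm).sub_const r).max measurable_const).mul
    (((hcm.sub hlm).const_sub r).max measurable_const)

private theorem ww_nonneg' (r u v : ℝ) : 0 ≤ ww r u v :=
  mul_nonneg (le_max_right _ _) (le_max_right _ _)

private theorem W_lint (h : Dat k ρ B C) (r : ℝ) :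
    ∫⁻ ω, ENNReal.ofReal (ww r (ct ρ ω - hl ρ ω) (ct ρ ω + hl ρ ω)) =
      ∫⁻ x : Fin k → ℝ, ∫⁻ u : ℝ, ∫⁻ v : ℝ, ENNReal.ofReal (zG ρ r x u v) := by
  have hA : ∀ ω : ℝ × (Fin k → ℝ), ENNReal.ofReal (ww r (ct ρ ω - hl ρ ω) (ct ρ ω + hl ρ ω)) =
      ∫⁻ u, ∫⁻ v, zI ρ ω u * (Iic r).indicator 1 u * (zI ρ ω v * (Ici r).indicator 1 v) := by
    intro ω
    have hm : Measurable fun t : ℝ => zI ρ ω t :=
      (measurable_zI h).comp (measurable_const.prodMk measurable_id)
    have h3 : Measurable fun t : ℝ => zI ρ ω t * (Iic r).indicator (1 : ℝ → ENNReal) t :=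
      hm.mul (measurable_one.indicator measurableSet_Iic)
    have h4 : Measurable fun t : ℝ => zI ρ ω t * (Ici r).indicator (1 : ℝ → ENNReal) t :=
      hm.mul (measurable_one.indicator measurableSet_Ici)
    rw [zlay_ww, lint_Fs h ω, lint_Fs h ω, ← lintegral_mul_const _ h3]
    refine lintegral_congr fun u => ?_
    rw [lintegral_const_mul _ h4]
  rw [lintegral_congr hA]
  have hP := meas_P h r
  have hP1 : Measurable fun ω : ℝ × (Fin k → ℝ) =>
      ∫⁻ u, ∫⁻ v, zI ρ ω u * (Iic r).indicator 1 u * (zI ρ ω v * (Ici r).indicator 1 v) :=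
    Measurable.lintegral_prod_right' (Measurable.lintegral_prod_right' hP)
  rw [Measure.volume_eq_prod, lintegral_prod_symm' _ hP1]
  refine lintegral_congr fun x => ?_
  have hs1 : Measurable fun p : ℝ × ℝ =>
      ∫⁻ v, zI ρ (p.1, x) p.2 * (Iic r).indicator 1 p.2 * (zI ρ (p.1, x) v *
        (Ici r).indicator 1 v) :=
    (Measurable.lintegral_prod_right' hP).comp
      ((measurable_fst.prodMk measurable_const).prodMk measurable_snd)
  rw [lintegral_lintegral_swap hs1.aemeasurable]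
  refine lintegral_congr fun u => ?_
  have hs2 : Measurable fun p : ℝ × ℝ =>
      zI ρ (p.1, x) u * (Iic r).indicator 1 u * (zI ρ (p.1, x) p.2 * (Ici r).indicator 1 p.2) :=
    hP.comp (((measurable_fst.prodMk measurable_const).prodMk measurable_const).prodMk
      measurable_snd)
  rw [lintegral_lintegral_swap hs2.aemeasurable]
  refine lintegral_congr fun v => ?_
  exact lint_zI2 r x u v

private theorem W_toReal (h : Dat k ρ B C) (r : ℝ) :
    ∫ x : Fin k → ℝ, ∫ u : ℝ, ∫ v : ℝ, zG ρ r x u v =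
      (∫⁻ x : Fin k → ℝ, ∫⁻ u : ℝ, ∫⁻ v : ℝ, ENNReal.ofReal (zG ρ r x u v)).toReal := by
  have hGm := zG_meas h r
  have hΦm : Measurable fun p : (Fin k → ℝ) × ℝ => ∫⁻ v, ENNReal.ofReal (zG ρ r p.1 p.2 v) :=
    Measurable.lintegral_prod_right' (ENNReal.measurable_ofReal.comp hGm)
  have hΦ : ∀ x u, ∫⁻ v, ENNReal.ofReal (zG ρ r x u v) ≤
      (Icc (-B) B).indicator (fun _ => ENNReal.ofReal C * volume (Icc (-B) B)) u := by
    intro x u
    by_cases hu : u ∈ Icc (-B) B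
    · rw [indicator_of_mem hu]
      calc ∫⁻ v, ENNReal.ofReal (zG ρ r x u v)
          ≤ ∫⁻ v, (Icc (-B) B).indicator (fun _ => ENNReal.ofReal C) v := by
            refine lintegral_mono fun v => ?_
            by_cases hv : v ∈ Icc (-B) B
            · rw [indicator_of_mem hv]
              exact ENNReal.ofReal_le_ofReal (zG_le h r x u v)
            · rw [indicator_of_notMem hv]
              have h1 : zG ρ r x u v = 0 := by
                by_contra hc
                exact hv (abs_le.mp (zG_supp h hc).2.1)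
              rw [h1, ENNReal.ofReal_zero]
        _ = ENNReal.ofReal C * volume (Icc (-B) B) := by
            rw [lintegral_indicator_const measurableSet_Icc]
    · rw [indicator_of_notMem hu]
      have h1 : ∀ v, ENNReal.ofReal (zG ρ r x u v) = 0 := by
        intro v
        have h2 : zG ρ r x u v = 0 := by
          by_contra hc
          exact hu (abs_le.mp (zG_supp h hc).1)
        rw [h2, ENNReal.ofReal_zero]
      simp [h1]
  have hBf : ENNReal.ofReal C * volume (Icc (-B) B) ≠ ⊤ :=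
    ENNReal.mul_ne_top ENNReal.ofReal_ne_top (by simp)
  have hΨ : ∀ x, ∫⁻ u, ∫⁻ v, ENNReal.ofReal (zG ρ r x u v) < ⊤ := by
    intro x
    refine (lintegral_mono (hΦ x)).trans_lt ?_
    rw [lintegral_indicator_const measurableSet_Icc]
    exact ENNReal.mul_lt_top hBf.lt_top (by simp)
  have e1 : ∀ x u, ∫ v : ℝ, zG ρ r x u v = (∫⁻ v : ℝ, ENNReal.ofReal (zG ρ r x u v)).toReal := by
    intro x u
    rw [integral_eq_lintegral_of_nonneg_ae (Filter.Eventually.of_forall (zG_nonneg h r x u))]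
    have hm : Measurable fun v : ℝ => zG ρ r x u v :=
      hGm.comp ((measurable_const (a := ((x, u) : (Fin k → ℝ) × ℝ))).prodMk measurable_id)
    exact hm.aestronglyMeasurable
  have e2 : ∀ x, ∫ u : ℝ, ∫ v : ℝ, zG ρ r x u v =
      (∫⁻ u : ℝ, ∫⁻ v : ℝ, ENNReal.ofReal (zG ρ r x u v)).toReal := by
    intro x
    simp_rw [e1]
    rw [integral_toReal]
    · exact (hΦm.comp (measurable_const.prodMk measurable_id)).aemeasurable
    · refine Filter.Eventually.of_forall fun u => ?_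
      refine (hΦ x u).trans_lt ?_
      by_cases hu : u ∈ Icc (-B) B
      · rw [indicator_of_mem hu]
        exact hBf.lt_top
      · rw [indicator_of_notMem hu]
        exact ENNReal.zero_lt_top
  simp_rw [e2]
  rw [integral_toReal]
  · exact (Measurable.lintegral_prod_right' hΦm).aemeasurable
  · exact Filter.Eventually.of_forall hΨ

/-- the function `W` in terms of pairs of points of the fibres -/
theorem W_eq (h : Dat k ρ B C) (r : ℝ) :
    ∫ ω, ww r (ct ρ ω - hl ρ ω) (ct ρ ω + hl ρ ω) =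
      ∫ x : Fin k → ℝ, ∫ u : ℝ, ∫ v : ℝ,
        {z : ℝ × ℝ | z.1 ≤ r ∧ r ≤ z.2}.indicator (fun z => min (ρ (z.1, x)) (ρ (z.2, x))) (u, v) := by
  refine Eq.trans ?_ (W_toReal h r).symm
  rw [integral_eq_lintegral_of_nonneg_ae
    (Filter.Eventually.of_forall fun ω => ww_nonneg' _ _ _) (meas_ww h r).aestronglyMeasurable,
    W_lint h r]

/-- `W` is log-concave -/
private theorem W_logc (h : Dat k ρ B C) :
    LogC fun r : ℝ => ∫ x : Fin k → ℝ, ∫ u : ℝ, ∫ v : ℝ, zG ρ r x u v := by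
  have hC := zC_nonneg h
  -- the integrand
  have h0 : LogC fun p : ((ℝ × (Fin k → ℝ)) × ℝ) × ℝ => zG ρ p.1.1.1 p.1.1.2 p.1.2 p.2 := by
    have hcv : Convex ℝ {p : ((ℝ × (Fin k → ℝ)) × ℝ) × ℝ | p.1.2 ≤ p.1.1.1 ∧ p.1.1.1 ≤ p.2} := by
      intro p hp q hq a b ha hb hab
      obtain ⟨hp1, hp2⟩ := hp
      obtain ⟨hq1, hq2⟩ := hq
      constructor
      · change a * p.1.2 + b * q.1.2 ≤ a * p.1.1.1 + b * q.1.1.1
        nlinarith [mul_le_mul_of_nonneg_left hp1 ha, mul_le_mul_of_nonneg_left hq1 hb]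
      · change a * p.1.1.1 + b * q.1.1.1 ≤ a * p.2 + b * q.2
        nlinarith [mul_le_mul_of_nonneg_left hp2 ha, mul_le_mul_of_nonneg_left hq2 hb]
    let L1 : (((ℝ × (Fin k → ℝ)) × ℝ) × ℝ) →ₗ[ℝ] ℝ × (Fin k → ℝ) :=
      { toFun := fun p => (p.1.2, p.1.1.2)
        map_add' := fun _ _ => rfl
        map_smul' := fun _ _ => rfl }
    let L2 : (((ℝ × (Fin k → ℝ)) × ℝ) × ℝ) →ₗ[ℝ] ℝ × (Fin k → ℝ) :=
      { toFun := fun p => (p.2, p.1.1.2)
        map_add' := fun _ _ => rfl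
        map_smul' := fun _ _ => rfl }
    have h1 := (LogC.indicator hcv).mul ((h.logc.comp L1).min (h.logc.comp L2))
    have h2 : (fun p : ((ℝ × (Fin k → ℝ)) × ℝ) × ℝ => zG ρ p.1.1.1 p.1.1.2 p.1.2 p.2) =
        fun p => {p : ((ℝ × (Fin k → ℝ)) × ℝ) × ℝ | p.1.2 ≤ p.1.1.1 ∧ p.1.1.1 ≤ p.2}.indicator
          (fun _ => (1 : ℝ)) p * min (ρ (L1 p)) (ρ (L2 p)) := by
      funext p
      by_cases hp : p.1.2 ≤ p.1.1.1 ∧ p.1.1.1 ≤ p.2
      · rw [zG_of_mem hp, indicator_of_mem (show p ∈ {p : ((ℝ × (Fin k → ℝ)) × ℝ) × ℝ |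
          p.1.2 ≤ p.1.1.1 ∧ p.1.1.1 ≤ p.2} from hp), one_mul]
        rfl
      · rw [zG_of_notMem hp, indicator_of_notMem (show p ∉ {p : ((ℝ × (Fin k → ℝ)) × ℝ) × ℝ |
          p.1.2 ≤ p.1.1.1 ∧ p.1.1.1 ≤ p.2} from hp), zero_mul]
    rw [h2]
    exact h1
  -- integrate out `v`
  have h1 := h0.marg_real (B := B) (C := C)
    (fun p => (zG_meas h p.1.1).comp
      ((measurable_const (a := ((p.1.2, p.2) : (Fin k → ℝ) × ℝ))).prodMk measurable_id))
    (fun p t ht => (zG_supp h ht).2.1) (fun p => zG_le h _ _ _ _)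
  have hb1 : ∀ r x u, ∫ v : ℝ, zG ρ r x u v ≤ C * (volume (Icc (-B) B)).toReal := by
    intro r x u
    have h2 : ∫ v : ℝ, (Icc (-B) B).indicator (fun _ => C) v =
        C * (volume (Icc (-B) B)).toReal := by
      rw [integral_indicator_const _ measurableSet_Icc, smul_eq_mul, mul_comm]
      rfl
    rw [← h2]
    refine integral_mono_of_nonneg (Filter.Eventually.of_forall (zG_nonneg h r x u)) ?_ ?_
    · exact (integrable_indicator_iff measurableSet_Icc).mpr
        (integrableOn_const (by simp) enorm_ne_top)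
    · refine Filter.Eventually.of_forall fun v => ?_
      by_cases hv : v ∈ Icc (-B) B
      · rw [indicator_of_mem hv]
        exact zG_le h r x u v
      · rw [indicator_of_notMem hv]
        refine le_of_eq ?_
        by_contra hc
        exact hv (abs_le.mp (zG_supp h hc).2.1)
  have hz1 : ∀ r x u, ∫ v : ℝ, zG ρ r x u v ≠ 0 → |u| ≤ B ∧ ∀ i, |x i| ≤ B := by
    intro r x u hne
    by_contra hc
    refine hne ?_
    rw [← integral_zero ℝ ℝ (μ := volume)]
    refine integral_congr_ae (Filter.Eventually.of_forall fun v => ?_)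
    by_contra hv
    exact hc ⟨(zG_supp h hv).1, (zG_supp h hv).2.2⟩
  have hn1 : ∀ r x u, 0 ≤ ∫ v : ℝ, zG ρ r x u v := fun r x u =>
    integral_nonneg (zG_nonneg h r x u)
  have hm1 : ∀ r, Measurable fun p : (Fin k → ℝ) × ℝ => ∫ v : ℝ, zG ρ r p.1 p.2 v := by
    intro r
    exact (StronglyMeasurable.integral_prod_right' (zG_meas h r).stronglyMeasurable).measurable
  -- integrate out `u`
  have h2 := h1.marg_real (B := B) (C := C * (volume (Icc (-B) B)).toReal)
    (fun p => (hm1 p.1).comp ((measurable_const (a := p.2)).prodMk measurable_id))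
    (fun p t ht => (hz1 p.1 p.2 t ht).1) (fun p => hb1 p.1.1 p.1.2 p.2)
  have hK : 0 ≤ C * (volume (Icc (-B) B)).toReal := mul_nonneg hC ENNReal.toReal_nonneg
  have hb2 : ∀ r x, ∫ u : ℝ, ∫ v : ℝ, zG ρ r x u v ≤
      C * (volume (Icc (-B) B)).toReal * (volume (Icc (-B) B)).toReal := by
    intro r x
    have h3 : ∫ u : ℝ, (Icc (-B) B).indicator (fun _ => C * (volume (Icc (-B) B)).toReal) u =
        C * (volume (Icc (-B) B)).toReal * (volume (Icc (-B) B)).toReal := by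
      rw [integral_indicator_const _ measurableSet_Icc, smul_eq_mul, mul_comm]
      rfl
    rw [← h3]
    refine integral_mono_of_nonneg (Filter.Eventually.of_forall (hn1 r x)) ?_ ?_
    · exact (integrable_indicator_iff measurableSet_Icc).mpr
        (integrableOn_const (by simp) enorm_ne_top)
    · refine Filter.Eventually.of_forall fun u => ?_
      by_cases hu : u ∈ Icc (-B) B
      · rw [indicator_of_mem hu]
        exact hb1 r x u
      · rw [indicator_of_notMem hu]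
        refine le_of_eq ?_
        by_contra hc
        exact hu (abs_le.mp (hz1 r x u hc).1)
  have hz2 : ∀ r x, ∫ u : ℝ, ∫ v : ℝ, zG ρ r x u v ≠ 0 → ∀ i, |x i| ≤ B := by
    intro r x hne
    by_contra hc
    refine hne ?_
    rw [← integral_zero ℝ ℝ (μ := volume)]
    refine integral_congr_ae (Filter.Eventually.of_forall fun u => ?_)
    by_contra hv
    exact hc (hz1 r x u hv).2
  have hm2 : ∀ r, Measurable fun x : Fin k → ℝ => ∫ u : ℝ, ∫ v : ℝ, zG ρ r x u v := by
    intro r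
    exact (StronglyMeasurable.integral_prod_right' (hm1 r).stronglyMeasurable).measurable
  -- integrate out `x`
  exact LogC.marg_pi k h2 (fun r => hm2 r) (B := B) (fun r x hne => hz2 r x hne)
    (fun z => hb2 z.1 z.2)

private theorem W_neg (h : Dat k ρ B C) (r : ℝ) :
    ∫ ω, ww (-r) (ct ρ ω - hl ρ ω) (ct ρ ω + hl ρ ω) =
      ∫ ω, ww r (ct ρ ω - hl ρ ω) (ct ρ ω + hl ρ ω) := by
  have h1 : MeasurePreserving (Prod.map id Neg.neg : ℝ × (Fin k → ℝ) → ℝ × (Fin k → ℝ))
      (volume.prod volume) (volume.prod volume) :=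
    (MeasurePreserving.id volume).prod (Measure.measurePreserving_neg volume)
  have h2 : MeasurableEmbedding
      (Prod.map id Neg.neg : ℝ × (Fin k → ℝ) → ℝ × (Fin k → ℝ)) :=
    ((MeasurableEquiv.refl ℝ).prodCongr (MeasurableEquiv.neg (Fin k → ℝ))).measurableEmbedding
  rw [Measure.volume_eq_prod, ← h1.integral_comp h2
    (fun ω => ww r (ct ρ ω - hl ρ ω) (ct ρ ω + hl ρ ω))]
  refine integral_congr_ae (Filter.Eventually.of_forall fun ω => ?_)
  obtain ⟨s, x⟩ := ω
  simp only [Prod.map_apply, id_eq]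
  rw [hl_neg h s x, ct_neg h s x]
  unfold ww
  rw [mul_comm]
  congr 2 <;> ring

theorem W_le (h : Dat k ρ B C) (r : ℝ) :
    ∫ ω, ww r (ct ρ ω - hl ρ ω) (ct ρ ω + hl ρ ω) ≤
      ∫ ω, ww 0 (ct ρ ω - hl ρ ω) (ct ρ ω + hl ρ ω) := by
  set W : ℝ → ℝ := fun r => ∫ ω, ww r (ct ρ ω - hl ρ ω) (ct ρ ω + hl ρ ω) with hW
  have h1 : W = fun r : ℝ => ∫ x : Fin k → ℝ, ∫ u : ℝ, ∫ v : ℝ, zG ρ r x u v := by
    funext r
    exact W_eq h r
  have h2 : LogC W := h1 ▸ W_logc h
  have h3 := h2.conc r (-r) (1 / 2) (by norm_num) (by norm_num)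
  have h4 : W (-r) = W r := W_neg h r
  have h5 : (1 - 1 / 2 : ℝ) • r + (1 / 2 : ℝ) • (-r) = 0 := by
    rw [smul_eq_mul, smul_eq_mul]
    ring
  have h6 : W r ^ (1 - 1 / 2 : ℝ) * W r ^ (1 / 2 : ℝ) = W r := by
    rw [show (1 - 1 / 2 : ℝ) = 1 / 2 by norm_num, ← Real.sqrt_eq_rpow,
      Real.mul_self_sqrt (h2.nonneg r)]
  rw [h4, h5, h6] at h3
  exact h3

theorem W_pos (h : Dat k ρ B C) {ε : ℝ} (hε : 0 < ε) (hρ : ∀ z, ‖z‖ < ε → ε ≤ ρ z) :
    0 < ∫ ω, ww 0 (ct ρ ω - hl ρ ω) (ct ρ ω + hl ρ ω) := by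
  set f : ℝ × (Fin k → ℝ) → ℝ := fun ω => ww 0 (ct ρ ω - hl ρ ω) (ct ρ ω + hl ρ ω) with hf
  -- positivity
  have hpos : ∀ ω : ℝ × (Fin k → ℝ), 0 < ω.1 → ω.1 < ε → ‖ω.2‖ < ε → 0 < f ω := by
    intro ω h1 h2 h3
    have h4 : Ioo (-ε) ε ⊆ Fs ρ ω := by
      intro t ht
      have h5 : ‖((t, ω.2) : ℝ × (Fin k → ℝ))‖ < ε := by
        rw [Prod.norm_mk]
        exact max_lt (by rw [Real.norm_eq_abs]; exact abs_lt.mpr ht) h3
      exact h2.trans_le (hρ _ h5)
    have h6 : 0 < hl ρ ω := by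
      rw [hl_of_pos h1]
      have h7 : 0 < volume (Fs ρ ω) := by
        refine lt_of_lt_of_le ?_ (measure_mono h4)
        rw [Real.volume_Ioo]
        exact ENNReal.ofReal_pos.mpr (by linarith)
      have h8 := ENNReal.toReal_pos h7.ne' (vol_Fs h h1)
      linarith
    have h9 : Ioo (-ε) ε ⊆ Icc (ct ρ ω - hl ρ ω) (ct ρ ω + hl ρ ω) :=
      h4.trans (Fs_between h h6).2
    have h10 : Icc (-ε) ε ⊆ Icc (ct ρ ω - hl ρ ω) (ct ρ ω + hl ρ ω) := by
      rw [← closure_Ioo (by linarith : (-ε) ≠ ε)]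
      exact closure_minimal h9 isClosed_Icc
    have h11 := h10 (left_mem_Icc.mpr (by linarith : -ε ≤ ε))
    have h12 := h10 (right_mem_Icc.mpr (by linarith : -ε ≤ ε))
    refine mul_pos ?_ ?_
    · exact lt_max_of_lt_left (by linarith [h12.2])
    · exact lt_max_of_lt_left (by linarith [h11.1])
  -- integrability
  have hsupp : Function.support f ⊆ {ω | hl ρ ω ≠ 0} := by
    intro ω hω h1
    refine hω ?_
    simp only [hf]
    rw [h1, sub_zero, add_zero]
    unfold ww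
    rcases le_total (ct ρ ω) 0 with h2 | h2
    · rw [max_eq_right (by linarith : ct ρ ω - 0 ≤ 0), zero_mul]
    · rw [max_eq_right (by linarith : 0 - ct ρ ω ≤ 0), mul_zero]
  have hbd : ∀ ω, ‖f ω‖ ≤ (2 * |B|) * (2 * |B|) := by
    intro ω
    have h1 := abs_le.mp (abs_ct_le h ω)
    have h2 := hl_le h ω
    have h3 := hl_nonneg (ρ := ρ) ω
    have h4 := abs_nonneg B
    rw [Real.norm_eq_abs, abs_of_nonneg (ww_nonneg' _ _ _)]
    refine mul_le_mul ?_ ?_ (le_max_right _ _) (by positivity)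
    · exact max_le (by linarith [h1.2]) (by positivity)
    · exact max_le (by linarith [h1.1]) (by positivity)
  have hint : Integrable f := by
    rw [← integrableOn_iff_integrable_of_support_subset hsupp]
    exact Measure.integrableOn_of_bounded (vol_hl h) (meas_ww h 0).aestronglyMeasurable
      (Filter.Eventually.of_forall hbd)
  rw [integral_pos_iff_support_of_nonneg (fun ω => ww_nonneg' _ _ _) hint]
  have hsub : Ioo 0 ε ×ˢ Metric.ball (0 : Fin k → ℝ) ε ⊆ Function.support f := by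
    rintro ω ⟨h1, h2⟩
    exact (hpos ω h1.1 h1.2 (by simpa using h2)).ne'
  refine lt_of_lt_of_le ?_ (measure_mono hsub)
  refine (isOpen_Ioo.prod Metric.isOpen_ball).measure_pos _ ?_
  exact ⟨(ε / 2, 0), ⟨by constructor <;> linarith, Metric.mem_ball_self hε⟩⟩

end Pool.Agent.Lib.MP_b0d2bf_gt.HP
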