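import Mathlib
import Pool.Agent.Lib.MP_b0d2bf_gt.ZCore
import Pool.Agent.Lib.MP_b0d2bf_gt.ZLay

set_option autoImplicit false

/-!
The main inequality in coordinates.
-/

namespace Pool.Agent.Lib.MP_b0d2bf_gt.HP

open MeasureTheory Set

/-- `ℝ × ℝ^k × ℝ^m` -/
abbrev Co (k m : ℕ) := ℝ × (Fin k → ℝ) × (Fin m → ℝ)

variable {k m : ℕ}

/-- the function `ρ` of a body: volumes of the fibres -/
noncomputable def fib (K : Set (Co k m)) (z : ℝ × (Fin k → ℝ)) : ℝ :=
  ∫ y : Fin m → ℝ, K.indicator (fun _ => (1 : ℝ)) (z.1, z.2, y)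

/-- the fibre -/
private def zcSec (K : Set (Co k m)) (z : ℝ × (Fin k → ℝ)) : Set (Fin m → ℝ) :=
  {y | (z.1, z.2, y) ∈ K}

private theorem zc_bdd {K : Set (Co k m)} (hc : IsCompact K) : ∃ B : ℝ, 0 ≤ B ∧ ∀ z ∈ K,
    |z.1| ≤ B ∧ (∀ i, |z.2.1 i| ≤ B) ∧ ∀ i, |z.2.2 i| ≤ B := by
  obtain ⟨B, hB⟩ := hc.isBounded.exists_norm_le
  refine ⟨max B 0, le_max_right _ _, fun z hz => ?_⟩
  have h0 : ‖z‖ ≤ max B 0 := (hB z hz).trans (le_max_left _ _)
  have h1 : ‖z.1‖ ≤ max B 0 := (norm_fst_le z).trans h0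
  have h2 : ‖z.2‖ ≤ max B 0 := (norm_snd_le z).trans h0
  have h3 : ‖z.2.1‖ ≤ max B 0 := (norm_fst_le z.2).trans h2
  have h4 : ‖z.2.2‖ ≤ max B 0 := (norm_snd_le z.2).trans h2
  exact ⟨h1, fun i => (norm_le_pi_norm z.2.1 i).trans h3,
    fun i => (norm_le_pi_norm z.2.2 i).trans h4⟩

private theorem zc_meas_sec {K : Set (Co k m)} (hK : MeasurableSet K) (z : ℝ × (Fin k → ℝ)) :
    MeasurableSet (zcSec K z) := by
  have h : Measurable fun y : Fin m → ℝ => ((z.1, z.2, y) : Co k m) := by fun_prop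
  exact h hK

private theorem zc_fib_eq {K : Set (Co k m)} (hK : MeasurableSet K) (z : ℝ × (Fin k → ℝ)) :
    fib K z = (volume (zcSec K z)).toReal := by
  have h : (fun y : Fin m → ℝ => K.indicator (fun _ => (1 : ℝ)) (z.1, z.2, y)) =
      (zcSec K z).indicator (fun _ => (1 : ℝ)) := by
    funext y
    rfl
  rw [fib, h, integral_indicator (zc_meas_sec hK z), setIntegral_const, smul_eq_mul, mul_one]
  rfl

private theorem zc_sec_sub {K : Set (Co k m)} {B : ℝ} (hB : ∀ z ∈ K,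
    |z.1| ≤ B ∧ (∀ i, |z.2.1 i| ≤ B) ∧ ∀ i, |z.2.2 i| ≤ B) (z : ℝ × (Fin k → ℝ)) :
    zcSec K z ⊆ Icc (fun _ => -B) (fun _ => B) := by
  intro y hy
  have h := (hB _ hy).2.2
  exact ⟨fun i => (abs_le.1 (h i)).1, fun i => (abs_le.1 (h i)).2⟩

private theorem zc_vol_ne_top {K : Set (Co k m)} (hc : IsCompact K) (z : ℝ × (Fin k → ℝ)) :
    volume (zcSec K z) ≠ ⊤ := by
  obtain ⟨B, -, hB⟩ := zc_bdd hc
  exact ne_top_of_le_ne_top isCompact_Icc.measure_ne_top (measure_mono (zc_sec_sub hB z))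

private theorem zc_ofReal {K : Set (Co k m)} (hc : IsCompact K) (z : ℝ × (Fin k → ℝ)) :
    ENNReal.ofReal (fib K z) = volume (zcSec K z) := by
  rw [zc_fib_eq hc.isClosed.measurableSet, ENNReal.ofReal_toReal (zc_vol_ne_top hc z)]

theorem fib_dat {K : Set (Co k m)} (hK : Convex ℝ K) (hc : IsCompact K)
    (hs : ∀ z ∈ K, -z ∈ K) : ∃ B C : ℝ, Dat k (fib K) B C := by
  obtain ⟨B, hB0, hB⟩ := zc_bdd hc
  have hKm : MeasurableSet K := hc.isClosed.measurableSet
  have hmem : ∀ z : Co k m, K.indicator (fun _ => (1 : ℝ)) z ≠ 0 → z ∈ K := by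
    intro z hz
    by_contra h
    exact hz (indicator_of_notMem h _)
  refine ⟨B, (volume (Icc (fun _ => -B) (fun _ => B) : Set (Fin m → ℝ))).toReal, ?_, ?_, ?_, ?_,
    ?_⟩
  · refine LogC.marg_pi m (E := ℝ × (Fin k → ℝ))
      (f := fun z => K.indicator (fun _ => (1 : ℝ)) (z.1.1, z.1.2, z.2)) ?_ ?_ (B := B) (C := 1)
      ?_ ?_
    · exact (LogC.indicator hK).comp
        (LinearEquiv.prodAssoc ℝ ℝ (Fin k → ℝ) (Fin m → ℝ)).toLinearMap
    · intro z
      exact (measurable_const.indicator hKm).comp (by fun_prop)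
    · intro z y h i
      exact (hB _ (hmem _ h)).2.2 i
    · intro z
      exact indicator_le_self' (fun _ _ => zero_le_one) _
  · have h1 : StronglyMeasurable (Function.uncurry fun (z : ℝ × (Fin k → ℝ)) (y : Fin m → ℝ) =>
        K.indicator (fun _ => (1 : ℝ)) (z.1, z.2, y)) := by
      refine Measurable.stronglyMeasurable ?_
      exact (measurable_const.indicator hKm).comp (by fun_prop)
    exact h1.integral_prod_right.measurable
  · intro z
    unfold fib
    rw [← integral_neg_eq_self]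
    refine integral_congr_ae (Filter.Eventually.of_forall fun y => ?_)
    have h1 : (((-z).1, (-z).2, -y) : Co k m) = -(z.1, z.2, y) := rfl
    show K.indicator (fun _ => (1 : ℝ)) ((-z).1, (-z).2, -y) =
      K.indicator (fun _ => (1 : ℝ)) (z.1, z.2, y)
    rw [h1]
    by_cases h : (z.1, z.2, y) ∈ K
    · rw [indicator_of_mem h, indicator_of_mem (hs _ h)]
    · rw [indicator_of_notMem h, indicator_of_notMem]
      intro h2
      have := hs _ h2
      rw [neg_neg] at this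
      exact h this
  · intro z
    rw [zc_fib_eq hKm]
    exact ENNReal.toReal_mono isCompact_Icc.measure_ne_top (measure_mono (zc_sec_sub hB z))
  · intro z hz
    have h1 : (zcSec K z).Nonempty := by
      by_contra h
      rw [not_nonempty_iff_eq_empty] at h
      exact hz (by rw [zc_fib_eq hKm, h, measure_empty, ENNReal.toReal_zero])
    obtain ⟨y, hy⟩ := h1
    exact ⟨(hB _ hy).1, (hB _ hy).2.1⟩

theorem fib_pos {K : Set (Co k m)} (hK : Convex ℝ K) (hc : IsCompact K)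
    (h0 : (0 : Co k m) ∈ interior K) : ∃ ε : ℝ, 0 < ε ∧ ∀ z, ‖z‖ < ε → ε ≤ fib K z := by
  obtain ⟨r, hr, hball⟩ := Metric.isOpen_iff.1 isOpen_interior 0 h0
  have hv0 : 0 < volume (Metric.ball (0 : Fin m → ℝ) r) := Metric.measure_ball_pos _ _ hr
  have hv1 : volume (Metric.ball (0 : Fin m → ℝ) r) ≠ ⊤ := measure_ball_lt_top.ne
  refine ⟨min r (volume (Metric.ball (0 : Fin m → ℝ) r)).toReal,
    lt_min hr (ENNReal.toReal_pos hv0.ne' hv1), fun z hz => ?_⟩
  rw [zc_fib_eq hc.isClosed.measurableSet]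
  refine (min_le_right _ _).trans (ENNReal.toReal_mono (zc_vol_ne_top hc z) (measure_mono ?_))
  intro y hy
  show (z.1, z.2, y) ∈ K
  refine interior_subset (hball ?_)
  rw [mem_ball_zero_iff] at hy ⊢
  have hz' : ‖z‖ < r := lt_of_lt_of_le hz (min_le_left _ _)
  have h1 : ‖z.1‖ < r := lt_of_le_of_lt (norm_fst_le z) hz'
  have h2 : ‖z.2‖ < r := lt_of_le_of_lt (norm_snd_le z) hz'
  rw [Prod.norm_def, Prod.norm_def]
  exact max_lt h1 (max_lt h2 hy)

/-- Tonelli -/
private theorem zc_tonelli (f : Co k m → ENNReal) (hf : Measurable f) :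
    ∫⁻ z, f z = ∫⁻ z : ℝ × (Fin k → ℝ), ∫⁻ y : Fin m → ℝ, f (z.1, z.2, y) := by
  have h1 : Measurable fun z : ℝ × (Fin k → ℝ) => ∫⁻ y : Fin m → ℝ, f (z.1, z.2, y) := by
    have h2 : Measurable fun w : (ℝ × (Fin k → ℝ)) × (Fin m → ℝ) => f (w.1.1, w.1.2, w.2) :=
      hf.comp (by fun_prop)
    exact h2.lintegral_prod_right'
  rw [Measure.volume_eq_prod, lintegral_prod _ hf.aemeasurable,
    Measure.volume_eq_prod ℝ (Fin k → ℝ), lintegral_prod _ h1.aemeasurable]
  refine lintegral_congr fun t => ?_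
  have h3 : Measurable fun w : (Fin k → ℝ) × (Fin m → ℝ) => f (t, w) := hf.comp (by fun_prop)
  rw [Measure.volume_eq_prod, lintegral_prod _ h3.aemeasurable]

private theorem zc_fubini {K : Set (Co k m)} (hc : IsCompact K) {g : ℝ → ENNReal}
    (hg : Measurable g) {T : Set (ℝ × (Fin k → ℝ))} (hT : MeasurableSet T) :
    ∫⁻ z in {z : Co k m | z ∈ K ∧ (z.1, z.2.1) ∈ T}, g z.1 =
      ∫⁻ z in T, ENNReal.ofReal (fib K z) * g z.1 := by
  have hKm : MeasurableSet K := hc.isClosed.measurableSet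
  have hS : MeasurableSet {z : Co k m | z ∈ K ∧ (z.1, z.2.1) ∈ T} := by
    refine hKm.inter ?_
    have h : Measurable fun z : Co k m => (z.1, z.2.1) := by fun_prop
    exact h hT
  have hfm : Measurable ({z : Co k m | z ∈ K ∧ (z.1, z.2.1) ∈ T}.indicator
      (fun z : Co k m => g z.1)) := (hg.comp measurable_fst).indicator hS
  rw [← lintegral_indicator hS, ← lintegral_indicator hT, zc_tonelli _ hfm]
  refine lintegral_congr fun z => ?_
  by_cases hz : z ∈ T
  · rw [indicator_of_mem hz, zc_ofReal hc]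
    have h1 : (fun y : Fin m → ℝ => {z : Co k m | z ∈ K ∧ (z.1, z.2.1) ∈ T}.indicator
        (fun z => g z.1) (z.1, z.2, y)) = (zcSec K z).indicator (fun _ => g z.1) := by
      funext y
      by_cases hy : (z.1, z.2, y) ∈ K
      · rw [indicator_of_mem (show ((z.1, z.2, y) : Co k m) ∈
          {z : Co k m | z ∈ K ∧ (z.1, z.2.1) ∈ T} from ⟨hy, hz⟩),
          indicator_of_mem (show y ∈ zcSec K z from hy)]
      · rw [indicator_of_notMem (fun h => hy h.1),
          indicator_of_notMem (show y ∉ zcSec K z from hy)]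
    rw [h1, lintegral_indicator_const (zc_meas_sec hKm z), mul_comm]
  · rw [indicator_of_notMem hz]
    have h1 : ∀ y : Fin m → ℝ, {z : Co k m | z ∈ K ∧ (z.1, z.2.1) ∈ T}.indicator
        (fun z => g z.1) (z.1, z.2, y) = 0 := fun y => indicator_of_notMem (fun h => hz h.2) _
    simp only [h1, lintegral_zero]

/-- the inner integrals -/
private theorem zc_inner {p : ℝ} (hp : 0 < p) {a b : ℝ} (hab : a ≤ b) :
    ∫⁻ t in Ioo a b, ENNReal.ofReal (|t| ^ p) = ENNReal.ofReal (prim p b - prim p a) := by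
  have hcont : Continuous fun t : ℝ => |t| ^ p :=
    Continuous.rpow_const continuous_abs fun _ => Or.inr hp.le
  have hint : IntegrableOn (fun t : ℝ => |t| ^ p) (Ioo a b) :=
    (hcont.continuousOn.integrableOn_compact isCompact_Icc).mono_set Ioo_subset_Icc_self
  rw [← ofReal_integral_eq_lintegral_ofReal hint
    (Filter.Eventually.of_forall fun t => Real.rpow_nonneg (abs_nonneg t) p), prim_sub hp,
    intervalIntegral.integral_of_le hab, integral_Ioc_eq_integral_Ioo]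

private theorem zc_prim_mono {p : ℝ} (hp : 0 < p) {a b : ℝ} (hab : a ≤ b) :
    prim p a ≤ prim p b := by
  rw [← sub_nonneg, prim_sub hp]
  exact intervalIntegral.integral_nonneg hab fun t _ => Real.rpow_nonneg (abs_nonneg t) p

private theorem zc_prim_bound {p : ℝ} (hp : 0 < p) (R : ℝ) : ∃ C : ℝ, ∀ y, |y| ≤ R →
    |prim p y| ≤ C := by
  obtain ⟨C, hC⟩ := (isCompact_Icc (a := -R) (b := R)).exists_bound_of_continuousOn
    (continuous_prim hp).continuousOn
  exact ⟨C, fun y hy => hC y (abs_le.1 hy)⟩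

/-- the outer integral -/
private theorem zc_outer {ρ : ℝ × (Fin k → ℝ) → ℝ} {B C p : ℝ} (h : Dat k ρ B C) (hp : 0 < p)
    {τ : ℝ} (h0 : 0 ≤ τ) (h1 : τ ≤ 1) :
    ∫⁻ ω : ℝ × (Fin k → ℝ), ∫⁻ t in Ioo (τ * ct ρ ω - hl ρ ω) (τ * ct ρ ω + hl ρ ω),
      ENNReal.ofReal (|t| ^ p) = ENNReal.ofReal
        (∫ ω, (prim p (τ * ct ρ ω + hl ρ ω) - prim p (τ * ct ρ ω - hl ρ ω))) := by
  have hm1 := measurable_ct h
  have hm2 := measurable_hl h
  have hle : ∀ ω, τ * ct ρ ω - hl ρ ω ≤ τ * ct ρ ω + hl ρ ω := fun ω => by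
    have := hl_nonneg (ρ := ρ) ω
    linarith
  have hmeas : Measurable fun ω => prim p (τ * ct ρ ω + hl ρ ω) -
      prim p (τ * ct ρ ω - hl ρ ω) :=
    ((continuous_prim hp).measurable.comp ((hm1.const_mul τ).add hm2)).sub
      ((continuous_prim hp).measurable.comp ((hm1.const_mul τ).sub hm2))
  obtain ⟨D, hD⟩ := zc_prim_bound hp (2 * |B|)
  have hint : Integrable fun ω => prim p (τ * ct ρ ω + hl ρ ω) -
      prim p (τ * ct ρ ω - hl ρ ω) := by
    refine (integrableOn_iff_integrable_of_support_subset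
      (s := {ω | hl ρ ω ≠ 0}) (fun ω hω => ?_)).1
      (Measure.integrableOn_of_bounded (M := D + D) (vol_hl h) hmeas.aestronglyMeasurable
        (Filter.Eventually.of_forall fun ω => ?_))
    · intro h2
      refine hω ?_
      show prim p (τ * ct ρ ω + hl ρ ω) - prim p (τ * ct ρ ω - hl ρ ω) = 0
      rw [h2, add_zero, sub_zero, sub_self]
    · have e1 : |τ * ct ρ ω| ≤ |B| := by
        rw [abs_mul, abs_of_nonneg h0]
        calc τ * |ct ρ ω| ≤ 1 * |ct ρ ω| := mul_le_mul_of_nonneg_right h1 (abs_nonneg _)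
          _ ≤ |B| := by rw [one_mul]; exact abs_ct_le h ω
      have e2 : |hl ρ ω| ≤ |B| := by
        rw [abs_of_nonneg (hl_nonneg ω)]
        exact hl_le h ω
      rw [Real.norm_eq_abs]
      refine (abs_sub _ _).trans (add_le_add (hD _ ?_) (hD _ ?_))
      · refine (abs_add_le _ _).trans ?_
        linarith
      · refine (abs_sub _ _).trans ?_
        linarith
  rw [ofReal_integral_eq_lintegral_ofReal hint (Filter.Eventually.of_forall fun ω =>
    sub_nonneg.2 (zc_prim_mono hp (hle ω)))]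
  exact lintegral_congr fun ω => zc_inner hp (hle ω)

theorem coord {K : Set (Co k m)} (hK : Convex ℝ K) (hc : IsCompact K)
    (hs : ∀ z ∈ K, -z ∈ K) (h0 : (0 : Co k m) ∈ interior K) {p : ℝ} (hp : 0 < p) :
    ∃ (G : ℝ → ℝ) (G' : ℝ), HasDerivAt G G' 1 ∧ G' < p * G 1 ∧
      ∫⁻ z in K, ENNReal.ofReal (|z.1| ^ p) = ENNReal.ofReal (G 1) ∧ 0 < G 1 ∧
      ∀ τ : ℝ, 0 < τ → τ ≤ 1 → ENNReal.ofReal (τ ^ k * G τ) ≤
        ∫⁻ z in {z | z ∈ K ∧ ∃ z' ∈ K, z.2.1 = τ • z'.2.1}, ENNReal.ofReal (|z.1| ^ p) := by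
  obtain ⟨B, C, h⟩ := fib_dat hK hc hs
  obtain ⟨ε, hε, hρ⟩ := fib_pos hK hc h0
  have hg : Measurable fun t : ℝ => ENNReal.ofReal (|t| ^ p) :=
    (Continuous.rpow_const continuous_abs fun _ => Or.inr hp.le).measurable.ennreal_ofReal
  obtain ⟨G', hG1, hG2⟩ := core (μ := volume) (p := p) (B := |B|) hp (measurable_ct h)
    (measurable_hl h) (abs_ct_le h) (fun ω => hl_nonneg ω) (hl_le h) (vol_hl h) (W_le h)
    (W_pos h hε hρ)
  have h3 : ∫⁻ z in K, ENNReal.ofReal (|z.1| ^ p) = ENNReal.ofReal (∫ ω,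
      (prim p (1 * ct (fib K) ω + hl (fib K) ω) - prim p (1 * ct (fib K) ω - hl (fib K) ω))) := by
    rw [← zc_outer h hp zero_le_one le_rfl]
    have e1 := zc_fubini hc hg (T := univ) MeasurableSet.univ
    have e2 : {z : Co k m | z ∈ K ∧ (z.1, z.2.1) ∈ (univ : Set (ℝ × (Fin k → ℝ)))} = K := by
      ext z
      simp
    rw [e2, Measure.restrict_univ] at e1
    rw [e1, lay h hg]
    simp only [one_mul]
  have h4 : 0 < ∫⁻ z in K, ENNReal.ofReal (|z.1| ^ p) := by
    have hfm : Measurable (K.indicator fun z : Co k m => ENNReal.ofReal (|z.1| ^ p)) :=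
      (hg.comp measurable_fst).indicator hc.isClosed.measurableSet
    rw [← lintegral_indicator hc.isClosed.measurableSet, lintegral_pos_iff_support hfm]
    have hopen : IsOpen (interior K ∩ {z : Co k m | z.1 ≠ 0}) :=
      isOpen_interior.inter (isOpen_ne_fun continuous_fst continuous_const)
    have hne : (interior K ∩ {z : Co k m | z.1 ≠ 0}).Nonempty := by
      obtain ⟨r, hr, hball⟩ := Metric.isOpen_iff.1 isOpen_interior 0 h0
      refine ⟨(r / 2, 0, 0), hball ?_, ?_⟩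
      · rw [mem_ball_zero_iff, Prod.norm_def, Prod.norm_def, norm_zero, norm_zero, max_self,
          Real.norm_eq_abs, abs_of_pos (half_pos hr)]
        exact max_lt (half_lt_self hr) hr
      · exact (half_pos hr).ne'
    refine lt_of_lt_of_le (hopen.measure_pos volume hne) (measure_mono ?_)
    rintro z ⟨hz1, hz2⟩
    rw [Function.mem_support, indicator_of_mem (interior_subset hz1)]
    exact (ENNReal.ofReal_pos.2 (Real.rpow_pos_of_pos (abs_pos.2 hz2) p)).ne'
  refine ⟨fun τ => ∫ ω, (prim p (τ * ct (fib K) ω + hl (fib K) ω) -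
    prim p (τ * ct (fib K) ω - hl (fib K) ω)), G', hG1, ?_, h3, ?_, ?_⟩
  · simpa only [one_mul] using hG2
  · rw [h3] at h4
    exact ENNReal.ofReal_pos.1 h4
  · intro τ hτ0 hτ1
    have hSc : IsCompact ((fun z : Co k m => z.2.1) '' K) :=
      hc.image (continuous_fst.comp continuous_snd)
    have hS : MeasurableSet ((fun z : Co k m => z.2.1) '' K) := hSc.isClosed.measurableSet
    have e1 := lay_tau h hg hτ0 hτ1 hS (fun t x hρ0 => by
      have h1 : (zcSec K (t, x)).Nonempty := by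
        by_contra h
        rw [not_nonempty_iff_eq_empty] at h
        exact hρ0 (by rw [zc_fib_eq hc.isClosed.measurableSet, h, measure_empty,
          ENNReal.toReal_zero])
      obtain ⟨y, hy⟩ := h1
      exact ⟨_, hy, rfl⟩)
    rw [zc_outer h hp hτ0.le hτ1] at e1
    rw [ENNReal.ofReal_mul (pow_nonneg hτ0.le k)]
    refine e1.trans (le_of_eq ?_)
    have hT : MeasurableSet {z : ℝ × (Fin k → ℝ) | τ⁻¹ • z.2 ∈ (fun z : Co k m => z.2.1) '' K} := by
      have hm : Measurable fun z : ℝ × (Fin k → ℝ) => τ⁻¹ • z.2 := by fun_prop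
      exact hm hS
    rw [← zc_fubini hc hg hT]
    congr 2
    ext z
    constructor
    · rintro ⟨hz, z', hz', e⟩
      refine ⟨hz, z', hz', ?_⟩
      show z.2.1 = τ • z'.2.1
      have e' : z'.2.1 = τ⁻¹ • z.2.1 := e
      rw [e', smul_smul, mul_inv_cancel₀ hτ0.ne', one_smul]
    · rintro ⟨hz, z', hz', e⟩
      refine ⟨hz, z', hz', ?_⟩
      show z'.2.1 = τ⁻¹ • z.2.1
      rw [e, smul_smul, inv_mul_cancel₀ hτ0.ne', one_smul]

end Pool.Agent.Lib.MP_b0d2bf_gt.HP
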