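import Mathlib
import Pool.Agent.Lib.MP_b0d2bf_gt.ZCoord
import Pool.Agent.Lib.MP_b0d2bf_gt.Defs

set_option autoImplicit false

/-!
The main inequality for the weight `|⟨x, ξ⟩| ^ p`.
-/

namespace Pool.Agent.Lib.MP_b0d2bf_gt.HP

open MeasureTheory Set

variable {n : ℕ}

/-- a vector orthogonal to a basis of `L` is orthogonal to `L` -/
private theorem ZXi_mem_orthogonal {L : Submodule ℝ (Eu n)} {ι : Type*} (b : Module.Basis ι ℝ L)
    (x : Eu n) : x ∈ Lᗮ ↔ ∀ i, inner ℝ x (b i : Eu n) = (0 : ℝ) := by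
  rw [Submodule.mem_orthogonal']
  constructor
  · intro h i
    exact h _ (b i).2
  · intro h u hu
    have key : ∀ v : L, inner ℝ x (v : Eu n) = (0 : ℝ) := by
      intro v
      have hv : v ∈ Submodule.span ℝ (Set.range b) := by rw [b.span_eq]; trivial
      induction hv using Submodule.span_induction with
      | mem y hy =>
        obtain ⟨i, rfl⟩ := hy
        exact h i
      | zero => simp
      | add y z _ _ hy hz => rw [Submodule.coe_add, inner_add_right, hy, hz, add_zero]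
      | smul c y _ hy => rw [Submodule.coe_smul, inner_smul_right, hy, mul_zero]
    exact key ⟨u, hu⟩

/-- the volume of the coordinate space is an additive Haar measure -/
private theorem ZXi_isAddHaar (k m : ℕ) : (volume : Measure (Co k m)).IsAddHaarMeasure := by
  have h1 : (volume : Measure ((Fin k → ℝ) × (Fin m → ℝ))).IsAddHaarMeasure := by
    rw [Measure.volume_eq_prod]
    exact Measure.prod.instIsAddHaarMeasure _ _
  rw [Measure.volume_eq_prod]
  exact Measure.prod.instIsAddHaarMeasure _ _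

/-- coordinates adapted to a proper subspace `L` and a vector `ξ` outside `L` -/
theorem exists_coord {L : Submodule ℝ (Eu n)} {ξ : Eu n} (hξ : ξ ∉ L) :
    ∃ (m : ℕ) (Θ : Eu n ≃L[ℝ] Co (Module.finrank ℝ L) m), (∀ x, (Θ x).1 = inner ℝ x ξ) ∧
      ∀ x, (Θ x).2.1 = 0 ↔ x ∈ Lᗮ := by
  classical
  obtain ⟨b⟩ : Nonempty (Module.Basis (Fin (Module.finrank ℝ L)) ℝ L) := ⟨Module.finBasis ℝ L⟩
  -- the map to `ℝ ^ k`
  obtain ⟨B, hB⟩ : ∃ B : Eu n →ₗ[ℝ] (Fin (Module.finrank ℝ L) → ℝ),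
      ∀ x i, B x i = inner ℝ x (b i : Eu n) :=
    ⟨LinearMap.pi fun i => (innerₗ (Eu n)).flip (b i : Eu n), fun x i => rfl⟩
  have hB0 : ∀ x, B x = 0 ↔ x ∈ Lᗮ := by
    intro x
    rw [ZXi_mem_orthogonal b x, funext_iff]
    simp only [hB, Pi.zero_apply]
  -- its restriction to `L` is onto
  have hBL : Function.Surjective (B.comp L.subtype) := by
    have hinj : Function.Injective (B.comp L.subtype) := by
      rw [← LinearMap.ker_eq_bot, LinearMap.ker_eq_bot']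
      intro v hv
      have h1 : (v : Eu n) ∈ Lᗮ := (hB0 _).1 hv
      have h2 : inner ℝ (v : Eu n) (v : Eu n) = (0 : ℝ) :=
        (Submodule.mem_orthogonal' L _).1 h1 _ v.2
      exact Subtype.ext (inner_self_eq_zero.1 h2)
    exact (LinearMap.injective_iff_surjective_of_finrank_eq_finrank (by simp)).1 hinj
  -- the component of `ξ` orthogonal to `L`
  obtain ⟨w, hwL, hw⟩ : ∃ w ∈ Lᗮ, inner ℝ w ξ ≠ (0 : ℝ) := by
    by_contra hcon
    push Not at hcon
    apply hξ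
    have h1 : ξ ∈ Lᗮᗮ := (Submodule.mem_orthogonal _ _).2 hcon
    rwa [Submodule.orthogonal_orthogonal] at h1
  obtain ⟨A, hA⟩ : ∃ A : Eu n →ₗ[ℝ] ℝ × (Fin (Module.finrank ℝ L) → ℝ),
      ∀ x, A x = (inner ℝ x ξ, B x) :=
    ⟨((innerₗ (Eu n)).flip ξ).prod B, fun x => rfl⟩
  have hAs : Function.Surjective A := by
    rintro ⟨a, c⟩
    obtain ⟨y, hy⟩ := hBL c
    refine ⟨(y : Eu n) + ((a - inner ℝ (y : Eu n) ξ) / inner ℝ w ξ) • w, ?_⟩
    rw [hA]
    refine Prod.ext ?_ ?_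
    · show inner ℝ ((y : Eu n) + ((a - inner ℝ (y : Eu n) ξ) / inner ℝ w ξ) • w) ξ = a
      rw [inner_add_left, real_inner_smul_left, div_mul_cancel₀ _ hw]
      ring
    · show B ((y : Eu n) + ((a - inner ℝ (y : Eu n) ξ) / inner ℝ w ξ) • w) = c
      rw [map_add, map_smul, (hB0 w).2 hwL, smul_zero, add_zero]
      exact hy
  -- the kernel
  obtain ⟨N, hN⟩ : ∃ N : Submodule ℝ (Eu n), N = LinearMap.ker A := ⟨_, rfl⟩
  obtain ⟨P, hPr, hPk⟩ : ∃ P : Eu n →ₗ[ℝ] N, LinearMap.range P = ⊤ ∧ LinearMap.ker P = Nᗮ := by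
    refine ⟨(N.orthogonalProjectionOnto : Eu n →ₗ[ℝ] N), ?_, ?_⟩
    · refine LinearMap.range_eq_top.2 fun v => ⟨(v : Eu n), ?_⟩
      exact Submodule.orthogonalProjectionOnto_mem_subspace_eq_self v
    · exact Submodule.ker_orthogonalProjectionOnto
  have hcompl : IsCompl (LinearMap.ker A) (LinearMap.ker P) := by
    rw [hPk, ← hN]
    exact Submodule.isCompl_orthogonal N
  obtain ⟨e, he⟩ : ∃ e : Eu n ≃ₗ[ℝ] (ℝ × (Fin (Module.finrank ℝ L) → ℝ)) × N,
      ∀ x, e x = (A x, P x) :=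
    ⟨LinearMap.equivProdOfSurjectiveOfIsCompl A P (LinearMap.range_eq_top.2 hAs) hPr hcompl,
      fun x => rfl⟩
  obtain ⟨f⟩ : Nonempty (N ≃ₗ[ℝ] (Fin (Module.finrank ℝ N) → ℝ)) :=
    ⟨(Module.finBasis ℝ N).equivFun⟩
  obtain ⟨g, hg1, hg2⟩ : ∃ g : ((ℝ × (Fin (Module.finrank ℝ L) → ℝ)) × N) ≃ₗ[ℝ]
      Co (Module.finrank ℝ L) (Module.finrank ℝ N),
      (∀ z, (g z).1 = z.1.1) ∧ ∀ z, (g z).2.1 = z.1.2 :=
    ⟨(LinearEquiv.prodCongr (LinearEquiv.refl ℝ (ℝ × (Fin (Module.finrank ℝ L) → ℝ))) f).trans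
      (LinearEquiv.prodAssoc ℝ ℝ (Fin (Module.finrank ℝ L) → ℝ) (Fin (Module.finrank ℝ N) → ℝ)),
      fun z => rfl, fun z => rfl⟩
  refine ⟨Module.finrank ℝ N, (e.trans g).toContinuousLinearEquiv, ?_, ?_⟩
  · intro x
    show (g (e x)).1 = _
    rw [hg1, he, hA]
  · intro x
    show (g (e x)).2.1 = 0 ↔ _
    rw [hg2, he, hA]
    exact hB0 x

/-- `K ∩ τ (K + L^⊥)` -/
def cyl (K : Set (Eu n)) (L : Submodule ℝ (Eu n)) (τ : ℝ) : Set (Eu n) :=
  {x | x ∈ K ∧ ∃ y ∈ K, x - τ • y ∈ Lᗮ}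

theorem measurableSet_cyl {K : Set (Eu n)} (hc : IsCompact K) (L : Submodule ℝ (Eu n)) (τ : ℝ) :
    MeasurableSet (cyl K L τ) := by
  have hP : Continuous fun x : Eu n => L.orthogonalProjectionOnto x :=
    (L.orthogonalProjectionOnto).continuous
  have h2 : IsClosed ((fun y : Eu n => L.orthogonalProjectionOnto (τ • y)) '' K) :=
    (hc.image (hP.comp (continuous_const_smul τ))).isClosed
  have h3 : cyl K L τ = K ∩ (fun x : Eu n => L.orthogonalProjectionOnto x) ⁻¹'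
      ((fun y : Eu n => L.orthogonalProjectionOnto (τ • y)) '' K) := by
    ext x
    constructor
    · rintro ⟨hx, y, hy, hxy⟩
      refine ⟨hx, y, hy, ?_⟩
      have h4 : L.orthogonalProjectionOnto (x - τ • y) = 0 :=
        Submodule.orthogonalProjectionOnto_eq_zero_iff.2 hxy
      rw [map_sub, sub_eq_zero] at h4
      exact h4.symm
    · rintro ⟨hx, y, hy, hxy⟩
      refine ⟨hx, y, hy, ?_⟩
      apply Submodule.orthogonalProjectionOnto_eq_zero_iff.1
      rw [map_sub, sub_eq_zero]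
      exact hxy.symm
  rw [h3]
  exact hc.isClosed.measurableSet.inter (h2.preimage hP).measurableSet

theorem xi_ineq {K : Set (Eu n)} (hK : Convex ℝ K) (hc : IsCompact K)
    (hs : ∀ z ∈ K, -z ∈ K) (h0 : (0 : Eu n) ∈ interior K) {p : ℝ} (hp : 0 < p)
    {L : Submodule ℝ (Eu n)} {ξ : Eu n} (hξ : ξ ∉ L) :
    ∃ (G : ℝ → ℝ) (G' : ℝ), HasDerivAt G G' 1 ∧ G' < p * G 1 ∧
      ∫⁻ x in K, ENNReal.ofReal (|inner ℝ x ξ| ^ p) = ENNReal.ofReal (G 1) ∧ 0 < G 1 ∧
      ∀ τ : ℝ, 0 < τ → τ ≤ 1 → ENNReal.ofReal (τ ^ (Module.finrank ℝ L) * G τ) ≤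
        ∫⁻ x in cyl K L τ, ENNReal.ofReal (|inner ℝ x ξ| ^ p) := by
  obtain ⟨m, Θ, h1, h2⟩ := exists_coord hξ
  have hmap : (Measure.map Θ (volume : Measure (Eu n))).IsAddHaarMeasure :=
    ContinuousLinearEquiv.isAddHaarMeasure_map Θ volume
  have hvol : (volume : Measure (Co (Module.finrank ℝ L) m)).IsAddHaarMeasure :=
    ZXi_isAddHaar _ _
  obtain ⟨c, hc0, hct, hcm⟩ : ∃ c : ENNReal, c ≠ 0 ∧ c ≠ ⊤ ∧
      Measure.map Θ (volume : Measure (Eu n)) =
        c • (volume : Measure (Co (Module.finrank ℝ L) m)) := by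
    refine ⟨((Measure.addHaarScalarFactor (Measure.map Θ (volume : Measure (Eu n)))
      (volume : Measure (Co (Module.finrank ℝ L) m)) : NNReal) : ENNReal), ?_,
      ENNReal.coe_ne_top, ?_⟩
    · rw [ENNReal.coe_ne_zero]
      exact (Measure.addHaarScalarFactor_pos_of_isAddHaarMeasure _ _).ne'
    · exact Measure.isAddLeftInvariant_eq_smul _ _
  have hcp : 0 < c.toReal := ENNReal.toReal_pos hc0 hct
  have hcr : ENNReal.ofReal c.toReal = c := ENNReal.ofReal_toReal hct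
  have hmeas : MeasurableEmbedding Θ := Θ.toHomeomorph.measurableEmbedding
  -- transport of integrals
  have htr : ∀ S : Set (Co (Module.finrank ℝ L) m),
      ∫⁻ x in Θ ⁻¹' S, ENNReal.ofReal (|inner ℝ x ξ| ^ p) =
        c * ∫⁻ z in S, ENNReal.ofReal (|z.1| ^ p) := by
    intro S
    have h3 : ∫⁻ z in S, ENNReal.ofReal (|z.1| ^ p) ∂(Measure.map Θ (volume : Measure (Eu n))) =
        ∫⁻ x in Θ ⁻¹' S, ENNReal.ofReal (|(Θ x).1| ^ p) := by
      rw [hmeas.restrict_map, hmeas.lintegral_map]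
    rw [hcm, Measure.restrict_smul, lintegral_smul_measure] at h3
    simp only [h1] at h3
    rw [← h3, smul_eq_mul]
  -- the image body
  obtain ⟨K', hK'⟩ : ∃ K' : Set (Co (Module.finrank ℝ L) m), K' = Θ '' K := ⟨_, rfl⟩
  have hmem : ∀ x, Θ x ∈ K' ↔ x ∈ K := by
    intro x
    rw [hK']
    constructor
    · rintro ⟨y, hy, hxy⟩
      rwa [← Θ.injective hxy]
    · intro hx
      exact ⟨x, hx, rfl⟩
  have hsurj : ∀ z, ∃ x, Θ x = z := Θ.surjective
  have hK'c : Convex ℝ K' := by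
    rw [hK']
    exact hK.linear_image (Θ : Eu n →ₗ[ℝ] Co (Module.finrank ℝ L) m)
  have hK'k : IsCompact K' := by
    rw [hK']
    exact hc.image Θ.continuous
  have hK's : ∀ z ∈ K', -z ∈ K' := by
    intro z hz
    obtain ⟨x, rfl⟩ := hsurj z
    rw [← map_neg, hmem]
    exact hs _ ((hmem x).1 hz)
  have hK'0 : (0 : Co (Module.finrank ℝ L) m) ∈ interior K' := by
    rw [hK']
    have h4 : interior (Θ '' K) = Θ '' interior K := (Θ.toHomeomorph.image_interior K).symm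
    rw [h4]
    exact ⟨0, h0, map_zero Θ⟩
  obtain ⟨G, G', hG1, hG2, hG3, hG4, hG5⟩ := coord hK'c hK'k hK's hK'0 hp
  have hpre : Θ ⁻¹' K' = K := by
    ext x
    exact hmem x
  refine ⟨fun t => c.toReal * G t, c.toReal * G', hG1.const_mul _, ?_, ?_, ?_, ?_⟩
  · nlinarith
  · have h5 := htr K'
    rw [hpre] at h5
    rw [h5, hG3, ENNReal.ofReal_mul hcp.le, hcr]
  · exact mul_pos hcp hG4
  · intro τ hτ0 hτ1
    have h6 : Θ ⁻¹' {z | z ∈ K' ∧ ∃ z' ∈ K', z.2.1 = τ • z'.2.1} = cyl K L τ := by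
      ext x
      constructor
      · rintro ⟨hx, z', hz', hxz⟩
        obtain ⟨y, rfl⟩ := hsurj z'
        refine ⟨(hmem x).1 hx, y, (hmem y).1 hz', ?_⟩
        rw [← h2, map_sub, map_smul]
        show (Θ x).2.1 - τ • (Θ y).2.1 = 0
        rw [hxz, sub_self]
      · rintro ⟨hx, y, hy, hxy⟩
        refine ⟨(hmem x).2 hx, Θ y, (hmem y).2 hy, ?_⟩
        rw [← h2, map_sub, map_smul] at hxy
        exact sub_eq_zero.1 hxy
    have h7 := htr {z | z ∈ K' ∧ ∃ z' ∈ K', z.2.1 = τ • z'.2.1}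
    rw [h6] at h7
    rw [h7]
    have h8 : τ ^ (Module.finrank ℝ L) * (c.toReal * G τ) =
        c.toReal * (τ ^ (Module.finrank ℝ L) * G τ) := by ring
    show ENNReal.ofReal (τ ^ (Module.finrank ℝ L) * (c.toReal * G τ)) ≤ _
    rw [h8, ENNReal.ofReal_mul hcp.le, hcr]
    gcongr
    exact hG5 τ hτ0 hτ1

end Pool.Agent.Lib.MP_b0d2bf_gt.HP
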