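import Mathlib
import Pool.Agent.Lib.MP_b0d2bf_gt.ZXi
import Pool.Agent.Lib.MP_b0d2bf_gt.Mass

set_option autoImplicit false

/-!
The cone over the boundary points with normals in `L`.
-/

namespace Pool.Agent.Lib.MP_b0d2bf_gt.HP

open MeasureTheory Set Metric

variable {n : ℕ} [NeZero n]

/-- the cone over the boundary points whose normal is in `L` -/
def ZL (h : Sph n → ℝ) (L : Submodule ℝ (Eu n)) : Set (Eu n) :=
  coneOf (gN h) (nu h ⁻¹' {v : Sph n | (v : Eu n) ∈ L})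

theorem measurableSet_ZL {h : Sph n → ℝ} (hc : Continuous h) (h0 : ∀ v, 0 < h v)
    (L : Submodule ℝ (Eu n)) : MeasurableSet (ZL h L) := by
  refine measurableSet_coneOf (continuous_gN hc h0) (measurable_nu h ?_)
  exact measurable_subtype_coe L.closed_of_finiteDimensional.measurableSet

private lemma zCone_norm_smul {x : Eu n} (hx : x ≠ 0) : ‖x‖ • ((dirT x : Sph n) : Eu n) = x := by
  unfold dirT
  rw [dif_neg hx]
  exact norm_smul_dirS x hx

private lemma zCone_dirT_smul {x : Eu n} (hx : x ≠ 0) {τ : ℝ} (hτ : 0 < τ) :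
    dirT (τ • x) = dirT x := by
  have h1 : τ • x = (τ * ‖x‖) • ((dirT x : Sph n) : Eu n) := by
    rw [mul_smul, zCone_norm_smul hx]
  rw [h1]
  exact dirT_smul (mul_pos hτ (norm_pos_iff.2 hx)) _

private lemma zCone_mem {h : Sph n → ℝ} (hc : Continuous h) (h0 : ∀ v, 0 < h v)
    (L : Submodule ℝ (Eu n)) {τ : ℝ} (hτ : 0 < τ) (hτ1 : τ ≤ 1) (y : Eu n) :
    τ • y ∈ ZL h L ∩ {x | gN h x ≤ τ} ↔ y ∈ ZL h L := by
  have hg : gN h (τ • y) = τ * gN h y := gN_smul hc h0 hτ.le y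
  constructor
  · rintro ⟨⟨h1, h2, h3⟩, h4⟩
    have hy : y ≠ 0 := fun hy => h1 (by rw [hy, smul_zero])
    rw [zCone_dirT_smul hy hτ] at h2
    refine ⟨hy, h2, ?_⟩
    have h5 : gN h (τ • y) ≤ τ := h4
    rw [hg] at h5
    by_contra hcon
    rw [not_le] at hcon
    nlinarith
  · rintro ⟨h1, h2, h3⟩
    have h4 : gN h (τ • y) ≤ τ := by
      rw [hg]
      nlinarith
    refine ⟨⟨smul_ne_zero hτ.ne' h1, ?_, h4.trans hτ1⟩, h4⟩
    rw [zCone_dirT_smul h1 hτ]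
    exact h2

private lemma zCone_meas (p : ℝ) (ξ : Eu n) :
    Measurable (fun x : Eu n => ENNReal.ofReal (|inner ℝ x ξ| ^ p)) := by
  have h1 : Measurable (fun x : Eu n => inner ℝ x ξ) :=
    (continuous_id.inner continuous_const).measurable
  fun_prop

/-- `ZL ∩ {gN ≤ τ} = τ ZL`: scaling -/
theorem ZL_scale {h : Sph n → ℝ} (hc : Continuous h) (h0 : ∀ v, 0 < h v)
    (L : Submodule ℝ (Eu n)) {p : ℝ} (hp : 0 < p) (ξ : Eu n) {τ : ℝ} (hτ : 0 < τ) (hτ1 : τ ≤ 1) :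
    ∫⁻ x in ZL h L ∩ {x | gN h x ≤ τ}, ENNReal.ofReal (|inner ℝ x ξ| ^ p) =
      ENNReal.ofReal (τ ^ (n + p)) * ∫⁻ x in ZL h L, ENNReal.ofReal (|inner ℝ x ξ| ^ p) := by
  have hm := measurableSet_ZL hc h0 L
  have hm2 : MeasurableSet (ZL h L ∩ {x | gN h x ≤ τ}) :=
    hm.inter (measurableSet_le (continuous_gN hc h0).measurable measurable_const)
  have hN := zCone_meas (n := n) p ξ
  set F : Eu n → ENNReal := fun x => ENNReal.ofReal (|inner ℝ x ξ| ^ p) with hF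
  have h1 : ∀ y : Eu n, (ZL h L ∩ {x | gN h x ≤ τ}).indicator F (τ • y) =
      ENNReal.ofReal (τ ^ p) * (ZL h L).indicator F y := by
    intro y
    by_cases hy : y ∈ ZL h L
    · rw [indicator_of_mem ((zCone_mem hc h0 L hτ hτ1 y).2 hy), indicator_of_mem hy, hF]
      simp only
      rw [← ENNReal.ofReal_mul (Real.rpow_nonneg hτ.le p), inner_smul_left, abs_mul,
        Real.mul_rpow (abs_nonneg _) (abs_nonneg _)]
      simp [abs_of_pos hτ]
    · rw [indicator_of_notMem (fun h' => hy ((zCone_mem hc h0 L hτ hτ1 y).1 h')),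
        indicator_of_notMem hy, mul_zero]
  have h2 : ∫⁻ y : Eu n, (ZL h L ∩ {x | gN h x ≤ τ}).indicator F (τ • y) =
      ENNReal.ofReal (τ ^ n)⁻¹ * ∫⁻ x, (ZL h L ∩ {x | gN h x ≤ τ}).indicator F x := by
    rw [← lintegral_map (f := (ZL h L ∩ {x | gN h x ≤ τ}).indicator F)
      (g := fun y : Eu n => τ • y) (hN.indicator hm2) (measurable_const_smul τ),
      Measure.map_addHaar_smul _ hτ.ne', lintegral_smul_measure]
    rw [finrank_euclideanSpace_fin, abs_of_pos (by positivity), smul_eq_mul]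
  rw [← lintegral_indicator hm2, ← lintegral_indicator hm]
  simp only [h1] at h2
  rw [lintegral_const_mul' _ _ ENNReal.ofReal_ne_top] at h2
  have h3 : (0:ℝ) < τ ^ n := by positivity
  have h4 : ENNReal.ofReal (τ ^ n) * ENNReal.ofReal (τ ^ n)⁻¹ = 1 := by
    rw [← ENNReal.ofReal_mul h3.le, mul_inv_cancel₀ h3.ne', ENNReal.ofReal_one]
  calc ∫⁻ x, (ZL h L ∩ {x | gN h x ≤ τ}).indicator F x
      = ENNReal.ofReal (τ ^ n) * (ENNReal.ofReal (τ ^ n)⁻¹ *
          ∫⁻ x, (ZL h L ∩ {x | gN h x ≤ τ}).indicator F x) := by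
        rw [← mul_assoc, h4, one_mul]
    _ = ENNReal.ofReal (τ ^ n) * (ENNReal.ofReal (τ ^ p) * ∫⁻ x, (ZL h L).indicator F x) := by
        rw [← h2]
    _ = ENNReal.ofReal (τ ^ (n + p)) * ∫⁻ x, (ZL h L).indicator F x := by
        rw [← mul_assoc, ← ENNReal.ofReal_mul h3.le, Real.rpow_add hτ, Real.rpow_natCast]

/-- almost every point of `ZL` in `τ (K + L^⊥)` has gauge at most `τ` -/
theorem ZL_cyl {h : Sph n → ℝ} (hc : Continuous h) (h0 : ∀ v, 0 < h v)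
    (L : Submodule ℝ (Eu n)) : ∀ᵐ x : Eu n, x ∈ ZL h L → ∀ τ : ℝ, 0 < τ →
      x ∈ cyl (wulff h) L τ → gN h x ≤ τ := by
  obtain ⟨C, hC⟩ := lipschitz_gN hc h0
  filter_upwards [hC.ae_differentiableAt] with x hd hx τ hτ hcyl
  obtain ⟨hx0, hxL, hx1⟩ := hx
  obtain ⟨-, y, hy, hxy⟩ := hcyl
  have hn : 0 < ‖x‖ := norm_pos_iff.2 hx0
  have hxu := zCone_norm_smul hx0
  have hdu : DifferentiableAt ℝ (gN h) ((dirT x : Sph n) : Eu n) := by
    have h1 : gN h = fun z => ‖x‖⁻¹ * gN h (‖x‖ • z) := by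
      funext z
      rw [gN_smul hc h0 hn.le, ← mul_assoc, inv_mul_cancel₀ hn.ne', one_mul]
    rw [h1]
    refine DifferentiableAt.const_mul ?_ _
    refine DifferentiableAt.comp (g := gN h) (f := fun z : Eu n => ‖x‖ • z)
      ((dirT x : Sph n) : Eu n) ?_ ?_
    · change DifferentiableAt ℝ (gN h) (‖x‖ • ((dirT x : Sph n) : Eu n))
      rw [hxu]
      exact hd
    · exact (‖x‖ • ContinuousLinearMap.id ℝ (Eu n)).differentiableAt
  have hmx := isMx_nu hc h0 hdu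
  unfold IsMx at hmx
  have hvL : ((nu h (dirT x) : Sph n) : Eu n) ∈ L := hxL
  have hin := L.inner_right_of_mem_orthogonal hvL hxy
  rw [real_inner_comm, inner_sub_left, inner_smul_left] at hin
  have hhv := h0 (nu h (dirT x))
  have hyv := hy (nu h (dirT x))
  have h2 : gN h x = inner ℝ x ((nu h (dirT x) : Sph n) : Eu n) / h (nu h (dirT x)) := by
    have h3 : gN h x = ‖x‖ * gN h ((dirT x : Sph n) : Eu n) := by
      rw [← gN_smul hc h0 hn.le, hxu]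
    rw [h3, ← hmx]
    have h4 : inner ℝ x ((nu h (dirT x) : Sph n) : Eu n) =
        ‖x‖ * inner ℝ ((dirT x : Sph n) : Eu n) ((nu h (dirT x) : Sph n) : Eu n) := by
      have h7 : ∀ w : Eu n, inner ℝ (‖x‖ • ((dirT x : Sph n) : Eu n)) w =
          ‖x‖ * inner ℝ ((dirT x : Sph n) : Eu n) w := fun w => by
        rw [inner_smul_left]
        rfl
      have h8 := h7 ((nu h (dirT x) : Sph n) : Eu n)
      rw [hxu] at h8
      exact h8
    rw [h4, mul_div_assoc]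
  rw [h2, div_le_iff₀ hhv]
  have h5 : inner ℝ x ((nu h (dirT x) : Sph n) : Eu n) =
      τ * inner ℝ y ((nu h (dirT x) : Sph n) : Eu n) := by
    have h6 : (starRingEnd ℝ) τ = τ := rfl
    rw [h6] at hin
    linarith
  rw [h5]
  exact mul_le_mul_of_nonneg_left hyv hτ.le

private lemma zCone_subset {h : Sph n → ℝ} (hc : Continuous h) (h0 : ∀ v, 0 < h v)
    (L : Submodule ℝ (Eu n)) : ZL h L ⊆ wulff h := fun _ hx => (mem_wulff_iff hc h0).2 hx.2.2

private lemma zCone_toReal {p : ℝ} (hp : 0 < p) (ξ : Eu n) (A : Set (Eu n)) :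
    ∫ x in A, |inner ℝ x ξ| ^ p = (∫⁻ x in A, ENNReal.ofReal (|inner ℝ x ξ| ^ p)).toReal := by
  have h1 : Continuous (fun x : Eu n => |inner ℝ x ξ| ^ p) :=
    ((continuous_id.inner continuous_const).abs).rpow_const fun _ => Or.inr hp.le
  exact integral_eq_lintegral_of_nonneg_ae
    (Filter.Eventually.of_forall fun x => Real.rpow_nonneg (abs_nonneg _) p)
    h1.aestronglyMeasurable

private lemma zCone_key {h : Sph n → ℝ} (hc : Continuous h) (h0 : ∀ v, 0 < h v)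
    (L : Submodule ℝ (Eu n)) {p : ℝ} (hp : 0 < p) (ξ : Eu n) {τ : ℝ} (hτ : 0 < τ)
    (hτ1 : τ ≤ 1) :
    (∫⁻ x in ZL h L, ENNReal.ofReal (|inner ℝ x ξ| ^ p)) +
      ∫⁻ x in cyl (wulff h) L τ, ENNReal.ofReal (|inner ℝ x ξ| ^ p) ≤
    ENNReal.ofReal (τ ^ (n + p)) * (∫⁻ x in ZL h L, ENNReal.ofReal (|inner ℝ x ξ| ^ p)) +
      ∫⁻ x in wulff h, ENNReal.ofReal (|inner ℝ x ξ| ^ p) := by
  have hm := measurableSet_ZL hc h0 L
  have hg : MeasurableSet {x : Eu n | gN h x ≤ τ} :=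
    measurableSet_le (continuous_gN hc h0).measurable measurable_const
  have hcy := measurableSet_cyl (isCompact_wulff hc h0) L τ
  set F : Eu n → ENNReal := fun x => ENNReal.ofReal (|inner ℝ x ξ| ^ p) with hF
  have e1 : ∫⁻ x in ZL h L, F x = (∫⁻ x in ZL h L ∩ {x | gN h x ≤ τ}, F x) +
      ∫⁻ x in ZL h L \ {x | gN h x ≤ τ}, F x := (lintegral_inter_add_sdiff F (ZL h L) hg).symm
  have e2 : ∫⁻ x in wulff h, F x = (∫⁻ x in wulff h ∩ cyl (wulff h) L τ, F x) +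
      ∫⁻ x in wulff h \ cyl (wulff h) L τ, F x := (lintegral_inter_add_sdiff F _ hcy).symm
  have e3 : wulff h ∩ cyl (wulff h) L τ = cyl (wulff h) L τ :=
    inter_eq_self_of_subset_right fun x hx => hx.1
  rw [e3] at e2
  have e4 : ∫⁻ x in ZL h L \ {x | gN h x ≤ τ}, F x ≤
      ∫⁻ x in wulff h \ cyl (wulff h) L τ, F x := by
    refine lintegral_mono_set' ?_
    filter_upwards [ZL_cyl hc h0 L] with x hx hx2
    exact ⟨zCone_subset hc h0 L hx2.1, fun hx3 => hx2.2 (hx hx2.1 τ hτ hx3)⟩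
  have e5 := ZL_scale hc h0 L hp ξ hτ hτ1
  rw [e2]
  calc (∫⁻ x in ZL h L, F x) + ∫⁻ x in cyl (wulff h) L τ, F x
      = (∫⁻ x in ZL h L ∩ {x | gN h x ≤ τ}, F x) +
        (∫⁻ x in ZL h L \ {x | gN h x ≤ τ}, F x) + ∫⁻ x in cyl (wulff h) L τ, F x := by
        rw [← e1]
    _ ≤ (∫⁻ x in ZL h L ∩ {x | gN h x ≤ τ}, F x) +
        (∫⁻ x in wulff h \ cyl (wulff h) L τ, F x) + ∫⁻ x in cyl (wulff h) L τ, F x := by
        gcongr
    _ = ENNReal.ofReal (τ ^ (n + p)) * (∫⁻ x in ZL h L, F x) +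
        ((∫⁻ x in cyl (wulff h) L τ, F x) + ∫⁻ x in wulff h \ cyl (wulff h) L τ, F x) := by
        rw [e5, add_assoc, add_comm (∫⁻ x in wulff h \ cyl (wulff h) L τ, F x)]

theorem cone_ineq {h : Sph n → ℝ} (hc : Continuous h) (h0 : ∀ v, 0 < h v)
    (he : ∀ v, h (-v) = h v) {p : ℝ} (hp : 0 < p) {L : Submodule ℝ (Eu n)} {ξ : Eu n}
    (hξ : ξ ∉ L) :
    (n + p) * ∫ x in ZL h L, |inner ℝ x ξ| ^ p <
      (p + Module.finrank ℝ L) * ∫ x in wulff h, |inner ℝ x ξ| ^ p := by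
  obtain ⟨G, G', hd, hlt, hG1, hGpos, hGτ⟩ := xi_ineq convex_wulff (isCompact_wulff hc h0)
    (fun z hz => neg_mem_wulff he hz) (interior_wulff hc h0) hp hξ
  set k := Module.finrank ℝ L with hk
  have hKfin : ∫⁻ x in wulff h, ENNReal.ofReal (|inner ℝ x ξ| ^ p) ≠ ⊤ := by
    rw [hG1]
    exact ENNReal.ofReal_ne_top
  have hZfin : ∫⁻ x in ZL h L, ENNReal.ofReal (|inner ℝ x ξ| ^ p) ≠ ⊤ :=
    ne_top_of_le_ne_top hKfin (lintegral_mono_set (zCone_subset hc h0 L))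
  rw [zCone_toReal hp ξ (ZL h L), zCone_toReal hp ξ (wulff h), hG1,
    ENNReal.toReal_ofReal hGpos.le]
  set z : ℝ := (∫⁻ x in ZL h L, ENNReal.ofReal (|inner ℝ x ξ| ^ p)).toReal with hz
  have hz0 : 0 ≤ z := ENNReal.toReal_nonneg
  have hzE : ∫⁻ x in ZL h L, ENNReal.ofReal (|inner ℝ x ξ| ^ p) = ENNReal.ofReal z :=
    (ENNReal.ofReal_toReal hZfin).symm
  have key : ∀ τ : ℝ, 0 < τ → τ ≤ 1 →
      τ ^ k * G τ - τ ^ (n + p) * z ≤ G 1 - z := by
    intro τ hτ hτ1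
    have h1 := zCone_key hc h0 L hp ξ hτ hτ1
    have h2 := hGτ τ hτ hτ1
    have hτp : 0 ≤ τ ^ (n + p) := Real.rpow_nonneg hτ.le _
    have h3 : ENNReal.ofReal z + ENNReal.ofReal (τ ^ k * G τ) ≤
        ENNReal.ofReal (τ ^ (n + p)) * ENNReal.ofReal z + ENNReal.ofReal (G 1) := by
      rw [← hzE, ← hG1]
      exact le_trans (by gcongr) h1
    rw [← ENNReal.ofReal_mul hτp, ← ENNReal.ofReal_add (mul_nonneg hτp hz0) hGpos.le] at h3
    have h4 : ENNReal.ofReal (z + τ ^ k * G τ) ≤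
        ENNReal.ofReal (τ ^ (n + p) * z + G 1) := le_trans ENNReal.ofReal_add_le h3
    rw [ENNReal.ofReal_le_ofReal_iff (add_nonneg (mul_nonneg hτp hz0) hGpos.le)] at h4
    linarith
  set ψ : ℝ → ℝ := fun τ => τ ^ k * G τ - τ ^ (n + p) * z with hψ
  have hψ1 : ψ 1 = G 1 - z := by
    change (1:ℝ) ^ k * G 1 - (1:ℝ) ^ ((n:ℝ) + p) * z = G 1 - z
    rw [one_pow, Real.one_rpow, one_mul, one_mul]
  have hderiv : HasDerivAt ψ ((k * G 1 + G') - (n + p) * z) 1 := by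
    have d1 : HasDerivAt (fun τ : ℝ => τ ^ k) ((k : ℝ) * 1 ^ (k - 1)) 1 := hasDerivAt_pow k 1
    have d2 := d1.mul hd
    have d3 : HasDerivAt (fun τ : ℝ => τ ^ ((n : ℝ) + p)) (((n : ℝ) + p) * 1 ^ ((n : ℝ) + p - 1))
        1 := Real.hasDerivAt_rpow_const (Or.inl one_ne_zero)
    have d4 := d2.sub (d3.mul_const z)
    have e : (k * G 1 + G') - (n + p) * z =
        ((k : ℝ) * 1 ^ (k - 1)) * G 1 + (1:ℝ) ^ k * G' -
          (((n : ℝ) + p) * 1 ^ ((n : ℝ) + p - 1)) * z := by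
      rw [one_pow, one_pow, Real.one_rpow]
      ring
    rw [e]
    exact d4
  have hnn : 0 ≤ (k * G 1 + G') - (n + p) * z := by
    have h1 := (hasDerivAt_iff_tendsto_slope.1 hderiv).mono_left
      (nhdsWithin_mono (1:ℝ) (fun x (hx : x ∈ Iio (1:ℝ)) => (ne_of_lt hx : x ≠ 1)))
    refine ge_of_tendsto h1 ?_
    filter_upwards [Ioo_mem_nhdsLT (zero_lt_one (α := ℝ))] with τ hτ
    have h2 : ψ τ ≤ ψ 1 := by
      rw [hψ1]
      exact key τ hτ.1 hτ.2.le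
    rw [slope_def_field]
    exact div_nonneg_of_nonpos (by linarith) (by linarith [hτ.2])
  nlinarith

end Pool.Agent.Lib.MP_b0d2bf_gt.HP
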