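import Mathlib
import Pool.Agent.Lib.MP_b0d2bf_gt.ZCone

set_option autoImplicit false

/-!
`‖x‖ ^ p` as an average of `|⟨x, ξ⟩| ^ p`, and the Henk-Pollehn inequality.
-/

namespace Pool.Agent.Lib.MP_b0d2bf_gt.HP

open MeasureTheory Set Metric

variable {n : ℕ}

private theorem zmix_cont {p : ℝ} (hp : 0 < p) (x : Eu n) :
    Continuous fun ξ : Eu n => |inner ℝ x ξ| ^ p :=
  (continuous_const.inner continuous_id).abs.rpow_const fun _ => Or.inr hp.le

private theorem zmix_cont2 {p : ℝ} (hp : 0 < p) :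
    Continuous fun z : Eu n × Eu n => |inner ℝ z.2 z.1| ^ p :=
  (continuous_snd.inner continuous_fst).abs.rpow_const fun _ => Or.inr hp.le

/-- rotation invariance -/
theorem norm_pow_avg [NeZero n] {p : ℝ} (hp : 0 < p) : ∃ κ : ℝ, 0 < κ ∧
    ∀ x : Eu n, ∫ ξ in closedBall (0 : Eu n) 1, |inner ℝ x ξ| ^ p = κ * ‖x‖ ^ p := by
  obtain ⟨e⟩ : Nonempty (Sph n) := inferInstance
  have he : ‖(e : Eu n)‖ = 1 := norm_sph e
  refine ⟨∫ ξ in closedBall (0 : Eu n) 1, |inner ℝ (e : Eu n) ξ| ^ p, ?_, ?_⟩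
  · rw [setIntegral_pos_iff_support_of_nonneg_ae]
    · refine lt_of_lt_of_le (measure_ball_pos volume ((1 / 2 : ℝ) • (e : Eu n))
        (show (0 : ℝ) < 1 / 4 by norm_num)) (measure_mono ?_)
      intro ξ hξ
      rw [mem_ball, dist_eq_norm] at hξ
      have h1 : inner ℝ (e : Eu n) ξ =
          1 / 2 + inner ℝ (e : Eu n) (ξ - (1 / 2 : ℝ) • (e : Eu n)) := by
        rw [inner_sub_right, inner_smul_right, real_inner_self_eq_norm_sq, he]
        ring
      have h2 : |inner ℝ (e : Eu n) (ξ - (1 / 2 : ℝ) • (e : Eu n))| ≤ 1 / 4 := by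
        refine (abs_real_inner_le_norm _ _).trans ?_
        rw [he, one_mul]
        exact hξ.le
      have h3 : 0 < inner ℝ (e : Eu n) ξ := by
        rw [h1]
        linarith [(abs_le.1 h2).1]
      constructor
      · exact (Real.rpow_pos_of_pos (abs_pos.2 h3.ne') p).ne'
      · rw [mem_closedBall, dist_zero_right]
        have h4 : ‖ξ‖ ≤ ‖ξ - (1 / 2 : ℝ) • (e : Eu n)‖ + ‖(1 / 2 : ℝ) • (e : Eu n)‖ := by
          have := norm_add_le (ξ - (1 / 2 : ℝ) • (e : Eu n)) ((1 / 2 : ℝ) • (e : Eu n))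
          rwa [sub_add_cancel] at this
        rw [norm_smul, he, Real.norm_eq_abs, abs_of_pos (by norm_num : (0 : ℝ) < 1 / 2)] at h4
        linarith
    · exact Filter.Eventually.of_forall fun ξ => Real.rpow_nonneg (abs_nonneg _) _
    · exact (zmix_cont hp _).continuousOn.integrableOn_compact (isCompact_closedBall _ _)
  · intro x
    rcases eq_or_ne x 0 with rfl | hx
    · simp [Real.zero_rpow hp.ne']
    · have hxn : 0 < ‖x‖ := norm_pos_iff.2 hx
      have hu : ‖(e : Eu n)‖ = ‖(‖x‖⁻¹ : ℝ) • x‖ := by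
        rw [he, norm_smul, norm_inv, norm_norm, inv_mul_cancel₀ hxn.ne']
      set W := (Submodule.span ℝ {(e : Eu n) - (‖x‖⁻¹ : ℝ) • x})ᗮ with hW
      have hR : W.reflection (e : Eu n) = (‖x‖⁻¹ : ℝ) • x := Submodule.reflection_sub hu
      have hx2 : x = ‖x‖ • W.reflection (e : Eu n) := by
        rw [hR, smul_smul, mul_inv_cancel₀ hxn.ne', one_smul]
      have hmp : MeasurePreserving (W.reflection : Eu n → Eu n) volume volume :=
        LinearIsometryEquiv.measurePreserving W.reflection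
      have hemb : MeasurableEmbedding (W.reflection : Eu n → Eu n) :=
        W.reflection.toHomeomorph.measurableEmbedding
      have hpre : (W.reflection : Eu n → Eu n) ⁻¹' closedBall (0 : Eu n) 1 = closedBall 0 1 := by
        ext ξ
        simp only [mem_preimage, mem_closedBall, dist_zero_right, LinearIsometryEquiv.norm_map]
      have h1 := hmp.setIntegral_preimage_emb hemb (fun ξ => |inner ℝ x ξ| ^ p)
        (closedBall (0 : Eu n) 1)
      rw [hpre] at h1
      rw [← h1, ← integral_mul_const]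
      refine setIntegral_congr_fun measurableSet_closedBall fun ξ _ => ?_
      show |inner ℝ x (W.reflection ξ)| ^ p = |inner ℝ (e : Eu n) ξ| ^ p * ‖x‖ ^ p
      nth_rw 1 [hx2]
      rw [inner_smul_left, LinearIsometryEquiv.inner_map_map, RCLike.conj_to_real, abs_mul,
        abs_of_pos hxn, Real.mul_rpow hxn.le (abs_nonneg _), mul_comm]

private theorem zmix_int2 {p : ℝ} (hp : 0 < p) {S : Set (Eu n)} (hS : MeasurableSet S) {R : ℝ}
    (hSR : S ⊆ closedBall 0 R) :
    Integrable (fun z : Eu n × Eu n => |inner ℝ z.2 z.1| ^ p)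
      ((volume.restrict (closedBall (0 : Eu n) 1)).prod (volume.restrict S)) := by
  have h0 : volume S < ⊤ := (measure_mono hSR).trans_lt (isCompact_closedBall _ _).measure_lt_top
  have : IsFiniteMeasure (volume.restrict S) := ⟨by rwa [Measure.restrict_apply_univ]⟩
  have : IsFiniteMeasure (volume.restrict (closedBall (0 : Eu n) 1)) :=
    ⟨by rw [Measure.restrict_apply_univ]; exact (isCompact_closedBall _ _).measure_lt_top⟩
  refine Integrable.of_bound (zmix_cont2 hp).aestronglyMeasurable (|R| ^ p) ?_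
  rw [Measure.prod_restrict]
  refine ae_restrict_of_forall_mem (measurableSet_closedBall.prod hS) ?_
  rintro ⟨ξ, x⟩ ⟨hξ, hx⟩
  have h1 : ‖ξ‖ ≤ 1 := by simpa using hξ
  have h2 : ‖x‖ ≤ R := by simpa using hSR hx
  rw [Real.norm_eq_abs, abs_of_nonneg (Real.rpow_nonneg (abs_nonneg _) _)]
  refine Real.rpow_le_rpow (abs_nonneg _) ?_ hp.le
  refine (abs_real_inner_le_norm _ _).trans ?_
  calc ‖x‖ * ‖ξ‖ ≤ ‖x‖ * 1 := mul_le_mul_of_nonneg_left h1 (norm_nonneg _)
    _ = ‖x‖ := mul_one _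
    _ ≤ R := h2
    _ ≤ |R| := le_abs_self R

/-- Fubini -/
theorem int_avg {p : ℝ} (hp : 0 < p) {S : Set (Eu n)} (hS : MeasurableSet S) {R : ℝ}
    (hSR : S ⊆ closedBall 0 R) {κ : ℝ}
    (hκ : ∀ x : Eu n, ∫ ξ in closedBall (0 : Eu n) 1, |inner ℝ x ξ| ^ p = κ * ‖x‖ ^ p) :
    IntegrableOn (fun ξ : Eu n => ∫ x in S, |inner ℝ x ξ| ^ p) (closedBall 0 1) ∧
    ∫ ξ in closedBall (0 : Eu n) 1, ∫ x in S, |inner ℝ x ξ| ^ p = κ * ∫ x in S, ‖x‖ ^ p := by
  have h := zmix_int2 hp hS hSR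
  constructor
  · exact h.integral_prod_left
  · have h1 := integral_integral_swap (μ := volume.restrict (closedBall (0 : Eu n) 1))
      (ν := volume.restrict S) (f := fun ξ x => |inner ℝ x ξ| ^ p) h
    rw [h1, ← integral_const_mul]
    refine integral_congr_ae (Filter.Eventually.of_forall fun x => ?_)
    exact hκ x

private theorem zmix_ZL_sub [NeZero n] {h : Sph n → ℝ} (hc : Continuous h) (h0 : ∀ v, 0 < h v)
    (L : Submodule ℝ (Eu n)) : ZL h L ⊆ wulff h := by
  intro x hx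
  exact (mem_wulff_iff hc h0).2 hx.2.2

private theorem zmix_R [NeZero n] {h : Sph n → ℝ} (hc : Continuous h) (h0 : ∀ v, 0 < h v) :
    ∃ R : ℝ, wulff h ⊆ closedBall 0 R := by
  obtain ⟨R, hR⟩ := (isCompact_wulff hc h0).isBounded.subset_closedBall (0 : Eu n)
  exact ⟨R, hR⟩

theorem mix_ineq [NeZero n] {h : Sph n → ℝ} (hc : Continuous h) (h0 : ∀ v, 0 < h v)
    (he : ∀ v, h (-v) = h v) {p : ℝ} (hp : 0 < p) {L : Submodule ℝ (Eu n)} (hL : L ≠ ⊤) :
    (n + p) * ∫ x in ZL h L, ‖x‖ ^ p <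
      (p + Module.finrank ℝ L) * ∫ x in wulff h, ‖x‖ ^ p := by
  obtain ⟨κ, hκ0, hκ⟩ := norm_pow_avg (n := n) hp
  obtain ⟨R, hR⟩ := zmix_R hc h0
  have hK := int_avg hp (isCompact_wulff hc h0).measurableSet hR hκ
  have hZ := int_avg hp (measurableSet_ZL hc h0 L) ((zmix_ZL_sub hc h0 L).trans hR) hκ
  have hLn : volume (L : Set (Eu n)) = 0 := Measure.addHaar_submodule volume L hL
  set D : Eu n → ℝ := fun ξ => (p + Module.finrank ℝ L) * (∫ x in wulff h, |inner ℝ x ξ| ^ p) -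
    (n + p) * ∫ x in ZL h L, |inner ℝ x ξ| ^ p with hD
  have hDint : IntegrableOn D (closedBall 0 1) := (hK.1.const_mul _).sub (hZ.1.const_mul _)
  have hpos : ∀ ξ : Eu n, ξ ∉ L → 0 < D ξ := fun ξ hξ => sub_pos.2 (cone_ineq hc h0 he hp hξ)
  have h1 : 0 < ∫ ξ in closedBall (0 : Eu n) 1, D ξ := by
    rw [setIntegral_pos_iff_support_of_nonneg_ae _ hDint]
    · have h2 : closedBall (0 : Eu n) 1 \ (L : Set (Eu n)) ⊆
          Function.support D ∩ closedBall (0 : Eu n) 1 := by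
        intro ξ hξ
        exact ⟨(hpos ξ hξ.2).ne', hξ.1⟩
      refine lt_of_lt_of_le ?_ (measure_mono h2)
      rw [measure_sdiff_null hLn]
      exact measure_closedBall_pos volume _ one_pos
    · refine ae_restrict_of_ae ?_
      have h3 : ∀ᵐ ξ : Eu n, ξ ∉ (L : Set (Eu n)) := by
        rw [ae_iff]
        simpa using hLn
      filter_upwards [h3] with ξ hξ
      exact (hpos ξ hξ).le
  have h2 : ∫ ξ in closedBall (0 : Eu n) 1, D ξ =
      (p + Module.finrank ℝ L) * (κ * ∫ x in wulff h, ‖x‖ ^ p) -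
        (n + p) * (κ * ∫ x in ZL h L, ‖x‖ ^ p) := by
    rw [hD, integral_sub (hK.1.const_mul _) (hZ.1.const_mul _), integral_const_mul,
      integral_const_mul, hK.2, hZ.2]
  rw [h2] at h1
  have h3 : 0 < κ * ((p + Module.finrank ℝ L) * (∫ x in wulff h, ‖x‖ ^ p) -
      (n + p) * ∫ x in ZL h L, ‖x‖ ^ p) := by
    calc (0 : ℝ) < _ := h1
      _ = _ := by ring
  exact sub_pos.1 ((mul_pos_iff_of_pos_left hκ0).1 h3)

private theorem zmix_real {S K : Set (Eu n)} (hK : IsCompact K) (hSK : S ⊆ K)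
    {p q : ℝ} (hp : 0 ≤ p) (hq : 0 ≤ q) :
    (ENNReal.ofReal q * ∫⁻ x in S, ENNReal.ofReal (‖x‖ ^ p)).toReal =
      q * ∫ x in S, ‖x‖ ^ p := by
  rw [ENNReal.toReal_mul, ENNReal.toReal_ofReal hq,
    ← ofReal_integral_eq_lintegral_ofReal, ENNReal.toReal_ofReal]
  · exact integral_nonneg fun _ => Real.rpow_nonneg (norm_nonneg _) _
  · exact ((continuous_norm_rpow hp).continuousOn.integrableOn_compact hK).mono_set hSK
  · exact Filter.Eventually.of_forall fun x => Real.rpow_nonneg (norm_nonneg _) _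

/-- the Henk-Pollehn inequality for all `q > n` -/
theorem henk_pollehn [NeZero n] {h : Sph n → ℝ} (hc : Continuous h) (h0 : ∀ v, 0 < h v)
    (he : ∀ v, h (-v) = h v) {q : ℝ} (hq : (n : ℝ) < q) {L : Submodule ℝ (Eu n)} (hL : L ≠ ⊤) :
    (MM q h).real {v : Sph n | (v : Eu n) ∈ L} <
      (q - n + Module.finrank ℝ L) / q * (MM q h).real univ := by
  have hn : (0 : ℝ) ≤ n := Nat.cast_nonneg n
  have hq0 : 0 < q := hn.trans_lt hq
  have hp : 0 < q - n := sub_pos.2 hq
  have hLm : MeasurableSet {v : Sph n | (v : Eu n) ∈ L} :=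
    measurable_subtype_coe (Submodule.closed_of_finiteDimensional L).measurableSet
  have h1 : (MM q h).real {v : Sph n | (v : Eu n) ∈ L} = q * ∫ x in ZL h L, ‖x‖ ^ (q - n) := by
    rw [Measure.real, MM_cone hq0 hc h0 hLm]
    exact zmix_real (isCompact_wulff hc h0) (zmix_ZL_sub hc h0 L) hp.le hq0.le
  have h2 : (MM q h).real univ = q * ∫ x in wulff h, ‖x‖ ^ (q - n) := by
    rw [Measure.real, MM_univ hq0 hc h0]
    exact zmix_real (isCompact_wulff hc h0) subset_rfl hp.le hq0.le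
  rw [h1, h2]
  have h3 := mix_ineq hc h0 he hp hL
  have h4 : (n : ℝ) + (q - n) = q := by ring
  rw [h4] at h3
  calc q * ∫ x in ZL h L, ‖x‖ ^ (q - n) <
      (q - n + Module.finrank ℝ L) * ∫ x in wulff h, ‖x‖ ^ (q - n) := h3
    _ = (q - n + Module.finrank ℝ L) / q * (q * ∫ x in wulff h, ‖x‖ ^ (q - n)) := by
      field_simp

end Pool.Agent.Lib.MP_b0d2bf_gt.HP
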