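import Mathlib
import Pool.Agent.Lib.MP_b0d2bf_gt.ZMix
import Pool.Agent.Lib.MP_b0d2bf_gt.ZAtoms
import Pool.Agent.Lib.MP_b0d2bf_gt.Atoms
import Pool.Agent.Lib.MP_b0d2bf_gt.Conv
import Pool.Agent.Lib.MP_b0d2bf_gt.Defs2
import Pool.Agent.Lib.MP_b0d2bf_gt.YBas

set_option autoImplicit false

/-!
The Henk-Pollehn inequality for bodies, the attained values, and independent pairs of atoms.
-/

namespace Pool.Agent.Lib.MP_b0d2bf_gt.HP

open MeasureTheory Metric Set Filter Topology

variable {n : ℕ}

lemma measurableSet_trace (L : Submodule ℝ (Eu n)) :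
    MeasurableSet {v : Sph n | (v : Eu n) ∈ L} :=
  (L.closed_of_finiteDimensional.preimage continuous_subtype_val).measurableSet

/-- the Henk-Pollehn inequality for bodies, all `q > n` -/
theorem hp_body [NeZero n] {q : ℝ} (hq : (n : ℝ) < q) {K : Set (Eu n)} (hK : IsSymBody K)
    {L : Submodule ℝ (Eu n)} (hL : L ≠ ⊤) :
    dualCurv q K {v : Sph n | (v : Eu n) ∈ L} <
      ENNReal.ofReal ((q - n + Module.finrank ℝ L) / q) * dualCurv q K univ := by
  obtain ⟨h, hc, h0, he, hs, rfl⟩ := exists_supp_of_body hK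
  have hn : 0 < n := NeZero.pos n
  have hn' : (0:ℝ) < n := by exact_mod_cast hn
  have hq0 : 0 < q := hn'.trans hq
  have hfin := isFinite_MM hc h0 q
  have h1 := henk_pollehn hc h0 he hq hL
  have hnonneg : 0 ≤ (q - n + Module.finrank ℝ L) / q := by
    have : (0:ℝ) ≤ Module.finrank ℝ L := Nat.cast_nonneg _
    exact div_nonneg (by linarith) hq0.le
  rw [dualCurv_wulff hc h0 hs q (measurableSet_trace L), dualCurv_wulff hc h0 hs q MeasurableSet.univ,
    ← mul_assoc, mul_comm (ENNReal.ofReal _) _, mul_assoc]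
  refine (ENNReal.mul_lt_mul_iff_right ?_ ?_).2 ?_
  · simp
  · simp [hn.ne']
  · rw [← ENNReal.ofReal_toReal (measure_ne_top (MM q h) {v : Sph n | (v : Eu n) ∈ L}),
      ← ENNReal.ofReal_toReal (measure_ne_top (MM q h) univ), ← ENNReal.ofReal_mul hnonneg]
    refine (ENNReal.ofReal_lt_ofReal_iff_of_nonneg ENNReal.toReal_nonneg).2 h1

/-- the sum of pairs of atoms -/
noncomputable def atm (v : Fin n → Sph n) (r : Fin n → ℝ) : Measure (Sph n) :=
  ∑ i, ENNReal.ofReal (r i) • sd (v i)

lemma atm_apply (v : Fin n → Sph n) (r : Fin n → ℝ) (S : Set (Sph n)) :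
    atm v r S = ∑ i, ENNReal.ofReal (r i) * sd (v i) S := by
  unfold atm
  rw [Measure.finsetSum_apply]
  rfl

lemma isFinite_atm (v : Fin n → Sph n) (r : Fin n → ℝ) : IsFiniteMeasure (atm v r) := by
  constructor
  rw [atm_apply]
  refine ENNReal.sum_lt_top.2 fun i _ => ?_
  rw [sd_both MeasurableSet.univ (mem_univ _) (mem_univ _), mul_one]
  exact ENNReal.ofReal_lt_top

/-- all values between `dim L / q` and the Henk-Pollehn constant are attained -/
theorem exists_ratio [NeZero n] {q : ℝ} (hq : (n : ℝ) < q) {L : Submodule ℝ (Eu n)}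
    (hL0 : L ≠ ⊥) (hL : L ≠ ⊤) {c : ℝ} (h1 : Module.finrank ℝ L / q < c)
    (h2 : c < (q - n + Module.finrank ℝ L) / q) :
    ∃ K : Set (Eu n), IsSymBody K ∧ dualCurv q K univ = 1 ∧
      dualCurv q K {v : Sph n | (v : Eu n) ∈ L} = ENNReal.ofReal c := by
  classical
  have hn : 0 < n := NeZero.pos n
  have hn' : (0:ℝ) < n := by exact_mod_cast hn
  have hq0 : 0 < q := hn'.trans hq
  obtain ⟨e, he⟩ := adapted_basis {L} (by
    intro X hX Y hY
    rw [Finset.mem_singleton] at hX hY
    rw [hX, hY]
    exact Or.inl le_rfl)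
  have heL := fun i => he L (Finset.mem_singleton_self L) i
  set k := Module.finrank ℝ L with hk
  have hk0 : 0 < k := Submodule.one_le_finrank_iff.2 hL0
  have hkn : k < n := by
    have := Submodule.finrank_lt hL
    rwa [finrank_euclideanSpace_fin] at this
  have hk0' : (0:ℝ) < k := by exact_mod_cast hk0
  have hkn' : (0:ℝ) < (n:ℝ) - k := by
    have : (k:ℝ) < n := by exact_mod_cast hkn
    linarith
  -- the atoms
  let v : Fin n → Sph n := fun i => ⟨e i, by rw [mem_sphere_zero_iff_norm, e.norm_eq_one]⟩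
  have hb : ∀ i, e.toBasis i = (v i : Eu n) := fun i => by simp [v]
  let r : Fin n → ℝ := fun i => if n - k ≤ (i : ℕ) then c / k else (1 - c) / (n - k)
  have hc0 : 0 < c := lt_trans (div_pos hk0' hq0) h1
  have hc1 : c < 1 := by
    refine h2.trans ?_
    rw [div_lt_one hq0]
    linarith
  have hr0 : ∀ i, 0 ≤ r i := fun i => by
    show 0 ≤ (if n - k ≤ (i : ℕ) then c / k else (1 - c) / (n - k))
    split_ifs
    · exact div_nonneg hc0.le hk0'.le
    · exact div_nonneg (by linarith) hkn'.le
  have hrq : ∀ i, 1 / q < r i := fun i => by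
    show 1 / q < (if n - k ≤ (i : ℕ) then c / k else (1 - c) / (n - k))
    split_ifs
    · rw [div_lt_div_iff₀ hq0 hk0', one_mul]
      rwa [div_lt_iff₀ hq0] at h1
    · rw [div_lt_div_iff₀ hq0 hkn', one_mul]
      rw [lt_div_iff₀ hq0] at h2
      linarith
  have hcard : (Finset.univ.filter fun i : Fin n => n - k ≤ (i : ℕ)).card = k := by
    have h3 : (Finset.univ.filter fun i : Fin n => n - k ≤ (i : ℕ)).card +
        (Finset.univ.filter fun i : Fin n => ¬ n - k ≤ (i : ℕ)).card = n := by
      rw [Finset.card_filter_add_card_filter_not, Finset.card_univ, Fintype.card_fin]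
    have h4 : (Finset.univ.filter fun i : Fin n => ¬ n - k ≤ (i : ℕ)).card = n - k := by
      have h5 : (Finset.univ.filter fun i : Fin n => ¬ n - k ≤ (i : ℕ)) =
          (Finset.univ.filter fun i : Fin n => (i : ℕ) < n - k) := by
        ext i
        simp only [Finset.mem_filter, Finset.mem_univ, true_and, not_le]
      rw [h5, Fin.card_filter_val_lt]
      omega
    omega
  -- sums
  have hsumL : ∑ i : Fin n, (if n - k ≤ (i : ℕ) then r i else 0) = c := by
    have h3 : ∀ i : Fin n, (if n - k ≤ (i : ℕ) then r i else 0) =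
        if n - k ≤ (i : ℕ) then c / k else 0 := by
      intro i
      show (if n - k ≤ (i : ℕ) then (if n - k ≤ (i : ℕ) then c / k else (1 - c) / (n - k)) else 0) = _
      split_ifs <;> rfl
    rw [Finset.sum_congr rfl fun i _ => h3 i, ← Finset.sum_filter, Finset.sum_const, hcard,
      nsmul_eq_mul, mul_div_cancel₀ _ hk0'.ne']
  have hsum : ∑ i, r i = 1 := by
    have h3 : ∀ i : Fin n, r i = (if n - k ≤ (i : ℕ) then r i else 0) +
        if n - k ≤ (i : ℕ) then 0 else (1 - c) / ((n:ℝ) - k) := by
      intro i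
      by_cases hi : n - k ≤ (i : ℕ)
      · rw [if_pos hi, if_pos hi, add_zero]
      · rw [if_neg hi, if_neg hi, zero_add]
        show (if n - k ≤ (i : ℕ) then c / k else (1 - c) / ((n:ℝ) - k)) = _
        rw [if_neg hi]
    rw [Finset.sum_congr rfl fun i _ => h3 i, Finset.sum_add_distrib, hsumL]
    have h4 : ∑ i : Fin n, (if n - k ≤ (i : ℕ) then (0:ℝ) else (1 - c) / ((n:ℝ) - k)) = 1 - c := by
      have h5 : (Finset.univ.filter fun i : Fin n => ¬ n - k ≤ (i : ℕ)).card = n - k := by
        have h3 : (Finset.univ.filter fun i : Fin n => n - k ≤ (i : ℕ)).card +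
            (Finset.univ.filter fun i : Fin n => ¬ n - k ≤ (i : ℕ)).card = n := by
          rw [Finset.card_filter_add_card_filter_not, Finset.card_univ, Fintype.card_fin]
        omega
      have h6 : ∀ i : Fin n, (if n - k ≤ (i : ℕ) then (0:ℝ) else (1 - c) / ((n:ℝ) - k)) =
          if ¬ n - k ≤ (i : ℕ) then (1 - c) / ((n:ℝ) - k) else 0 := fun i => by
        split_ifs <;> rfl
      rw [Finset.sum_congr rfl fun i _ => h6 i, ← Finset.sum_filter, Finset.sum_const, h5,
        nsmul_eq_mul, Nat.cast_sub hkn.le, mul_div_cancel₀ _ hkn'.ne']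
    rw [h4]
    ring
  have hfin := isFinite_atm v r
  have huniv : atm v r univ = 1 := by
    rw [atm_apply]
    have h3 : ∀ i, ENNReal.ofReal (r i) * sd (v i) univ = ENNReal.ofReal (r i) := fun i => by
      rw [sd_both MeasurableSet.univ (mem_univ _) (mem_univ _), mul_one]
    rw [Finset.sum_congr rfl fun i _ => h3 i, ← ENNReal.ofReal_sum_of_nonneg fun i _ => hr0 i, hsum,
      ENNReal.ofReal_one]
  have hne : ∀ i j, i ≠ j → v i ∉ ({v j, -v j} : Set (Sph n)) ∧ -v i ∉ ({v j, -v j} : Set (Sph n)) := by
    intro i j hij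
    have h3 : inner ℝ (e i) (e j) = 0 := e.orthonormal.2 hij
    have h4 : inner ℝ (e i) (e i) = (1:ℝ) := by
      rw [real_inner_self_eq_norm_sq, e.norm_eq_one]
      norm_num
    have h5 : e i ≠ e j := fun h => by
      rw [← h, h4] at h3
      exact one_ne_zero h3
    have h6 : e i ≠ -e j := fun h => by
      have h7 : e j = - e i := by rw [h, neg_neg]
      rw [h7, inner_neg_right, h4] at h3
      norm_num at h3
    constructor
    · rintro (h | h)
      · exact h5 (congrArg Subtype.val h)
      · exact h6 (congrArg Subtype.val h)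
    · rintro (h | h)
      · exact h6 (by
          have h7 : - e i = e j := congrArg Subtype.val h
          rw [← h7, neg_neg])
      · have h7 : -e i = -e j := congrArg Subtype.val h
        exact h5 (neg_injective h7)
  have hpair : ∀ i, atm v r {v i, -v i} = ENNReal.ofReal (r i) := by
    intro i
    rw [atm_apply, Finset.sum_eq_single i]
    · rw [sd_both (measurableSet_pair _) (Or.inl rfl) (Or.inr rfl), mul_one]
    · intro j _ hj
      rw [sd_none (measurableSet_pair _) (hne j i hj).1 (hne j i hj).2, mul_zero]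
    · intro h
      exact absurd (Finset.mem_univ i) h
  have hL' : atm v r {w : Sph n | (w : Eu n) ∈ L} = ENNReal.ofReal c := by
    rw [atm_apply]
    have h3 : ∀ i, ENNReal.ofReal (r i) * sd (v i) {w : Sph n | (w : Eu n) ∈ L} =
        ENNReal.ofReal (if n - k ≤ (i : ℕ) then r i else 0) := by
      intro i
      by_cases hi : n - k ≤ (i : ℕ)
      · have h4 : e i ∈ L := (heL i).2 hi
        rw [if_pos hi, sd_both (measurableSet_trace L) h4 (L.neg_mem h4), mul_one]
      · have h4 : e i ∈ Lᗮ := (heL i).1 (not_le.1 hi)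
        have h5 : e i ∉ L := by
          intro h6
          have h7 : inner ℝ (e i) (e i) = (0:ℝ) := Submodule.inner_right_of_mem_orthogonal h6 h4
          rw [real_inner_self_eq_norm_sq, e.norm_eq_one] at h7
          norm_num at h7
        have h6 : -e i ∉ L := fun h => h5 (by
          have := L.neg_mem h
          rwa [neg_neg] at this)
        rw [if_neg hi, sd_none (measurableSet_trace L) h5 h6, mul_zero, ENNReal.ofReal_zero]
    rw [Finset.sum_congr rfl fun i _ => h3 i, ← ENNReal.ofReal_sum_of_nonneg, hsumL]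
    intro i _
    split_ifs
    · exact hr0 i
    · exact le_rfl
  obtain ⟨K, hK, hKω⟩ := atoms_exist (μ := atm v r) hq hb
    (fun h => by
      rw [h] at huniv
      simp at huniv)
    (fun ω hω => by
      have hm : Measurable (fun u : Sph n => -u) := continuous_neg.measurable
      rw [atm_apply, atm_apply]
      refine Finset.sum_congr rfl fun i _ => ?_
      rw [sd_even hω])
    (by
      have hmeas : MeasurableSet {w : Sph n | ∀ i, w ≠ v i ∧ w ≠ -v i} := by
        rw [ofPred_forall]
        refine MeasurableSet.iInter fun i => ?_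
        have : {w : Sph n | w ≠ v i ∧ w ≠ -v i} = ({v i, -v i} : Set (Sph n))ᶜ := by
          ext w
          simp [not_or]
        rw [this]
        exact (measurableSet_pair _).compl
      rw [atm_apply]
      refine Finset.sum_eq_zero fun i _ => ?_
      rw [sd_none hmeas (fun h => (h i).1 rfl) (fun h => (h i).2 rfl), mul_zero])
    (fun i => by
      unfold Measure.real
      rw [huniv, hpair i, ENNReal.toReal_one, ENNReal.toReal_ofReal (hr0 i)]
      exact hrq i)
  refine ⟨K, hK, ?_, ?_⟩
  · rw [(hKω univ MeasurableSet.univ).2, huniv]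
  · rw [(hKω _ (measurableSet_trace L)).2, hL']

end Pool.Agent.Lib.MP_b0d2bf_gt.HP
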